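import Pool.Agent.P.MP_e30989_nt.W.St2

/-!
The major part of the end game: a function with small short interval means, weighted by any
bounded function of the numbers of large prime factors, is orthogonal to functions that are
constant on residue classes inside long intervals.
-/

open Finset Filter

namespace Pool.Agent.P.MP_a14ce1_nt.Nil

open Pool.Agent.P.MP_e30989_nt.W (UCM RMRH)

/-- disjoint intervals in `[Y, 2Y)` with test functions constant on the classes modulo `b` -/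
structure Grid (Y b : ℕ) {κ : Type*} (S : Finset κ) (s t : κ → ℕ) (ψ : κ → ℕ → ℂ) : Prop where
  sub : ∀ i ∈ S, Ico (s i) (t i) ⊆ Ico Y (2 * Y)
  dis : (S : Set κ).PairwiseDisjoint fun i => Ico (s i) (t i)
  bd : ∀ i ∈ S, ∀ n ∈ Ico (s i) (t i), ‖ψ i n‖ ≤ 1
  cst : ∀ i ∈ S, ∀ m ∈ Ico (s i) (t i), ∀ n ∈ Ico (s i) (t i), m ≡ n [MOD b] → ψ i m = ψ i n

/-- number of prime factors in `P`, with multiplicity -/
def bigOm (P : Finset ℕ) (n : ℕ) : ℕ := ∑ p ∈ P, n.factorization p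

/-- number of members of `P` dividing `n` -/
def omN (P : Finset ℕ) (n : ℕ) : ℕ := (P.filter (· ∣ n)).card

namespace Major

theorem shift_le {a : ℕ → ℂ} (ha : ∀ n, ‖a n‖ ≤ 1) (s t j : ℕ) :
    ‖∑ x ∈ Ico s t, a (x + j) - ∑ x ∈ Ico s t, a x‖ ≤ 2 * j := by
  rcases le_total t s with h | h
  · simp [Ico_eq_empty_of_le h]
  induction j with
  | zero => simp
  | succ j ih =>
    have h1 : ∑ x ∈ Ico s t, a (x + (j + 1)) - ∑ x ∈ Ico s t, a (x + j) = a (t + j) - a (s + j) := by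
      rw [← sum_sub_distrib, ← sum_Ico_sub (fun x => a (x + j)) h]
      exact sum_congr rfl fun x _ => by rw [add_right_comm, add_assoc]
    have h2 := norm_sub_le (a (t + j)) (a (s + j))
    have h3 := norm_sub_le_norm_sub_add_norm_sub (∑ x ∈ Ico s t, a (x + (j + 1)))
      (∑ x ∈ Ico s t, a (x + j)) (∑ x ∈ Ico s t, a x)
    rw [h1] at h3
    push_cast
    linarith [ha (t + j), ha (s + j)]

theorem slide {a : ℕ → ℂ} (ha : ∀ n, ‖a n‖ ≤ 1) (s t : ℕ) {R : ℕ} (hR : 0 < R) :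
    ‖∑ x ∈ Ico s t, a x‖ ≤ (∑ x ∈ Ico s t, ‖∑ j ∈ range R, a (x + j)‖) / R + 2 * R := by
  have hR' : (0 : ℝ) < R := by exact_mod_cast hR
  have h1 : ‖∑ x ∈ Ico s t, ∑ j ∈ range R, a (x + j) - (R : ℂ) * ∑ x ∈ Ico s t, a x‖ ≤
      R * (2 * R) := by
    rw [sum_comm, ← nsmul_eq_mul, ← card_range R, ← sum_const, card_range, ← sum_sub_distrib]
    refine (norm_sum_le _ _).trans ((sum_le_card_nsmul _ _ (2 * R : ℝ) fun j hj => ?_).trans
      (by simp))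
    have : (j : ℝ) ≤ R := by exact_mod_cast (mem_range.1 hj).le
    exact (shift_le ha s t j).trans (by linarith)
  have h2 := norm_sub_norm_le ((R : ℂ) * ∑ x ∈ Ico s t, a x)
    (∑ x ∈ Ico s t, ∑ j ∈ range R, a (x + j))
  rw [norm_sub_rev, norm_mul, Complex.norm_natCast] at h2
  have h3 := norm_sum_le (Ico s t) fun x => ∑ j ∈ range R, a (x + j)
  rw [div_add' _ _ _ hR'.ne', le_div_iff₀ hR']
  linarith

variable {Y b : ℕ} {κ : Type*} {S : Finset κ} {s t : κ → ℕ} {ψ : κ → ℕ → ℂ}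

theorem sum_le (h : Grid Y b S s t ψ) {F : ℕ → ℝ} (hF : ∀ n, 0 ≤ F n) :
    ∑ i ∈ S, ∑ n ∈ Ico (s i) (t i), F n ≤ ∑ n ∈ Ico Y (2 * Y), F n := by
  rw [← sum_biUnion h.dis]
  exact sum_le_sum_of_subset_of_nonneg (biUnion_subset.2 h.sub) fun n _ _ => hF n

theorem grid_le (h : Grid Y b S s t ψ) (hb : 0 < b) {g : ℕ → ℂ} (hg : ∀ n, ‖g n‖ ≤ 1) {R : ℕ}
    (hR : 0 < R) {δ : ℝ} (hδ : ∀ c : ℕ, ∑ x ∈ Ico Y (2 * Y),
      ‖∑ j ∈ (range R).filter (fun j => x + j ≡ c [MOD b]), g (x + j)‖ ≤ δ * R * Y) :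
    ∑ i ∈ S, ‖∑ n ∈ Ico (s i) (t i), g n * ψ i n‖ ≤ b * (δ * Y) + b * (2 * R) * S.card := by
  have hR' : (0 : ℝ) < R := by exact_mod_cast hR
  let a : ℕ → ℕ → ℂ := fun c n => if n ≡ c [MOD b] then g n else 0
  have ha : ∀ c n, ‖a c n‖ ≤ 1 := fun c n => by
    simp only [a]
    split_ifs
    exacts [hg n, by simp]
  have h1 : ∀ i ∈ S, ‖∑ n ∈ Ico (s i) (t i), g n * ψ i n‖ ≤
      ∑ c ∈ range b, ‖∑ n ∈ Ico (s i) (t i), a c n‖ := by
    intro i hi
    rw [← sum_fiberwise_of_maps_to (g := fun n => n % b) (t := range b)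
      fun n _ => mem_range.2 (Nat.mod_lt _ hb)]
    refine norm_sum_le_of_le _ fun c hc => ?_
    have e : (Ico (s i) (t i)).filter (fun n => n % b = c) =
        (Ico (s i) (t i)).filter fun n => n ≡ c [MOD b] :=
      filter_congr fun n _ => by rw [Nat.ModEq, Nat.mod_eq_of_lt (mem_range.1 hc)]
    rw [e, ← sum_filter]
    rcases ((Ico (s i) (t i)).filter fun n => n ≡ c [MOD b]).eq_empty_or_nonempty with h0 | ⟨m, hm⟩
    · simp [h0]
    · obtain ⟨hm1, hm2⟩ := mem_filter.1 hm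
      rw [sum_congr rfl fun n hn => by
        rw [h.cst i hi n (mem_filter.1 hn).1 m hm1 ((mem_filter.1 hn).2.trans hm2.symm)],
        ← sum_mul, norm_mul]
      exact mul_le_of_le_one_right (norm_nonneg _) (h.bd i hi m hm1)
  refine (sum_le_sum h1).trans ?_
  rw [sum_comm, mul_assoc, ← mul_add]
  refine (sum_le_card_nsmul _ _ _ fun c _ => ?_).trans (by rw [card_range, nsmul_eq_mul])
  refine (sum_le_sum fun i _ => slide (ha c) (s i) (t i) hR).trans ?_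
  rw [sum_add_distrib, ← sum_div, sum_const, nsmul_eq_mul, mul_comm (S.card : ℝ)]
  refine add_le_add_left ?_ _
  rw [div_le_iff₀ hR']
  refine (sum_le h fun n => norm_nonneg _).trans ?_
  simp only [a, ← sum_filter]
  exact (hδ c).trans_eq (by ring)

theorem dft {ι : Type*} [Fintype ι] [DecidableEq ι] (J : ℕ) [NeZero J] (Φ : (ι → ℕ) → ℂ) {B : ℝ}
    (hB : ∀ v, ‖Φ v‖ ≤ B) : ∃ c : (ι → ZMod J) → ℂ, (∀ θ, ‖c θ‖ ≤ B) ∧ ∀ v : ι → ℕ,
      (∀ k, v k < J) → Φ v = ∑ θ, c θ * ∏ k, ZMod.stdAddChar (θ k * (v k : ZMod J)) := by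
  have hJ : (0 : ℝ) < J := by exact_mod_cast NeZero.pos J
  refine ⟨fun θ => (∑ u : ι → ZMod J, Φ (fun k => (u k).val) *
    ∏ k, ZMod.stdAddChar (θ k * -u k)) / (J : ℂ) ^ Fintype.card ι, fun θ => ?_, fun v hv => ?_⟩
  · rw [norm_div, norm_pow, Complex.norm_natCast, div_le_iff₀ (by positivity)]
    refine (norm_sum_le _ _).trans ((sum_le_card_nsmul _ _ B fun u _ => ?_).trans ?_)
    · rw [norm_mul, norm_prod]
      simpa using hB _
    · simp [mul_comm]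
  · simp_rw [div_mul_eq_mul_div, sum_mul, mul_assoc, ← prod_mul_distrib, ← AddChar.map_add_eq_mul,
      ← mul_add]
    rw [← sum_div, sum_comm]
    simp_rw [← mul_sum]
    have : ∀ u : ι → ZMod J, ∑ θ : ι → ZMod J, ∏ k, ZMod.stdAddChar (θ k * (-u k + (v k : ZMod J)))
        = if u = fun k => (v k : ZMod J) then (J : ℂ) ^ Fintype.card ι else 0 := by
      intro u
      rw [← Fintype.prod_sum fun k (x : ZMod J) => ZMod.stdAddChar (x * (-u k + (v k : ZMod J)))]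
      simp_rw [AddChar.sum_mulShift _ (ZMod.isPrimitive_stdAddChar J), ZMod.card, neg_add_eq_zero]
      split_ifs with h
      · simp [h]
      · obtain ⟨k, hk⟩ := Function.ne_iff.1 h
        exact prod_eq_zero (mem_univ k) (by simp [hk])
    simp_rw [this, mul_ite, mul_zero]
    rw [sum_ite_eq', if_pos (mem_univ _), mul_div_assoc,
      div_self (pow_ne_zero _ (Nat.cast_ne_zero.2 (NeZero.ne J))), mul_one]
    congr 1
    funext k
    rw [ZMod.val_cast_of_lt (hv k)]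

theorem bigOm_mul (P : Finset ℕ) {m n : ℕ} (hm : m ≠ 0) (hn : n ≠ 0) :
    bigOm P (m * n) = bigOm P m + bigOm P n := by
  simp [bigOm, Nat.factorization_mul hm hn, sum_add_distrib]

theorem bigOm_prime {P : Finset ℕ} {p : ℕ} (hp : p.Prime) (h : p ∉ P) : bigOm P p = 0 :=
  sum_eq_zero fun q hq => by
    rw [hp.factorization, Finsupp.single_eq_of_ne]
    rintro rfl
    exact h hq

theorem pow_bigOm_le {P : Finset ℕ} {Z : ℝ} (hZ : 0 ≤ Z) (hP : ∀ p ∈ P, Z ≤ p) {n : ℕ}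
    (hn : n ≠ 0) : Z ^ bigOm P n ≤ n := by
  have h1 : ∏ p ∈ P, p ^ n.factorization p ≤ n := by
    conv_rhs => rw [← Nat.prod_factorization_pow_eq_self hn,
      Finsupp.prod_of_support_subset _ (subset_union_right (s₁ := P)) _ fun _ _ => pow_zero _]
    exact prod_le_prod_of_subset_of_one_le' subset_union_left fun p hp hp' =>
      Nat.one_le_pow _ _ (Nat.pos_of_mem_primeFactors ((mem_union.1 hp).resolve_left hp'))
  rw [bigOm, ← prod_pow_eq_pow_sum]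
  calc _ ≤ ∏ p ∈ P, (p : ℝ) ^ n.factorization p :=
        prod_le_prod (fun p _ => by positivity) fun p hp => pow_le_pow_left₀ hZ (hP p hp) _
    _ ≤ _ := by exact_mod_cast h1

theorem bigOm_lt {δ : ℝ} (hδ : 0 < δ) {X Y n : ℕ} (hX : 2 ≤ X) (hY : (Y : ℝ) ≤ (X : ℝ) ^ (1 / δ))
    (hn : n ∈ Ico Y (2 * Y)) {P : Finset ℕ} (hP : ∀ p ∈ P, (X : ℝ) ^ δ < p) :
    bigOm P n < ⌈(1 + 1 / δ) / δ⌉₊ + 1 := by
  rw [mem_Ico] at hn
  have hX' : (2 : ℝ) ≤ X := by exact_mod_cast hX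
  have h1 := pow_bigOm_le (by positivity) (fun p hp => (hP p hp).le) (n := n) (by omega)
  have h2 : (n : ℝ) ≤ 2 * Y := by exact_mod_cast hn.2.le
  have h3 : (X : ℝ) ^ (δ * bigOm P n) ≤ (X : ℝ) ^ (1 + 1 / δ) := by
    rw [Real.rpow_mul (by positivity), Real.rpow_natCast, Real.rpow_add (by positivity),
      Real.rpow_one]
    exact h1.trans (h2.trans (by gcongr))
  rw [Real.rpow_le_rpow_left_iff (by linarith), ← le_div_iff₀' hδ] at h3
  exact Nat.lt_succ_of_le (by exact_mod_cast h3.trans (Nat.le_ceil _))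

theorem omN_le {P : Finset ℕ} (hP : ∀ p ∈ P, p.Prime) {n : ℕ} (hn : n ≠ 0) :
    omN P n ≤ bigOm P n := by
  rw [omN, card_filter]
  refine sum_le_sum fun p hp => ?_
  split_ifs with h
  · exact (hP p hp).factorization_pos_of_dvd hn h
  · exact Nat.zero_le _

theorem omN_eq {P : Finset ℕ} (hP : ∀ p ∈ P, p.Prime) {n : ℕ} (hn : n ≠ 0)
    (h : ∀ p ∈ P, ¬ p ^ 2 ∣ n) : omN P n = bigOm P n := by
  rw [omN, card_filter]
  refine sum_congr rfl fun p hp => ?_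
  split_ifs with h1
  · have h2 := (hP p hp).factorization_pos_of_dvd hn h1
    have h3 := h p hp
    rw [(hP p hp).pow_dvd_iff_le_factorization hn] at h3
    omega
  · exact (Nat.factorization_eq_zero_of_not_dvd h1).symm

theorem sq_count (Y k : ℕ) [DecidablePred fun n : ℕ => ∃ p, k < p ∧ p ^ 2 ∣ n] :
    (((Ico Y (2 * Y)).filter fun n => ∃ p, k < p ∧ p ^ 2 ∣ n).card : ℝ) ≤
    4 * Y / (k + 1) := by
  have h1 : ((Ico Y (2 * Y)).filter fun n => ∃ p, k < p ∧ p ^ 2 ∣ n) ⊆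
      (Ioo k (2 * Y)).biUnion fun p => (Ioc 0 (2 * Y)).filter (p ^ 2 ∣ ·) := by
    intro n hn
    obtain ⟨h1, p, h2, h3⟩ := mem_filter.1 hn
    rw [mem_Ico] at h1
    have h4 := Nat.le_of_dvd (by omega) ((dvd_pow_self p two_ne_zero).trans h3)
    exact mem_biUnion.2 ⟨p, mem_Ioo.2 ⟨h2, by omega⟩, mem_filter.2 ⟨mem_Ioc.2 (by omega), h3⟩⟩
  have h2 := (card_le_card h1).trans card_biUnion_le
  calc _ ≤ ((∑ p ∈ Ioo k (2 * Y), ((Ioc 0 (2 * Y)).filter (p ^ 2 ∣ ·)).card : ℕ) : ℝ) := by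
        exact_mod_cast h2
    _ ≤ ∑ p ∈ Ioo k (2 * Y), 2 * Y * ((p : ℝ) ^ 2)⁻¹ := by
        rw [Nat.cast_sum]
        refine sum_le_sum fun p _ => ?_
        rw [Nat.Ioc_filter_dvd_card_eq_div]
        refine Nat.cast_div_le.trans_eq ?_
        push_cast
        rw [div_eq_mul_inv]
    _ ≤ 2 * Y * (2 / (k + 1)) := by
        rw [← mul_sum]
        exact mul_le_mul_of_nonneg_left (sum_Ioo_inv_sq_le _ _) (by positivity)
    _ = _ := by ring

end Major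

open Major

variable {f : ℕ → ℂ} {l : Filter ℕ}

/-- weights depending on the numbers of large prime factors counted with multiplicity -/
theorem major_bigOm (hl : l ≤ atTop) (hf : UCM f) (hR : RMRH f l) (ι : Type*) [Fintype ι] {b : ℕ}
    (hb : 0 < b) {δ : ℝ} (hδ : 0 < δ) {ε : ℝ} (hε : 0 < ε) (B : ℝ) : ∃ C : ℝ, 0 < C ∧
    ∀ᶠ X : ℕ in l, ∀ P : ι → Finset ℕ, (∀ k, ∀ p ∈ P k, (X : ℝ) ^ δ < p) →
      ∀ Φ : (ι → ℕ) → ℂ, (∀ v, ‖Φ v‖ ≤ B) → ∀ Y : ℕ, (X : ℝ) ^ δ ≤ Y → (Y : ℝ) ≤ (X : ℝ) ^ (1 / δ) →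
      ∀ (κ : Type) (S : Finset κ) (s t : κ → ℕ) (ψ : κ → ℕ → ℂ), Grid Y b S s t ψ →
        ∑ i ∈ S, ‖∑ n ∈ Ico (s i) (t i), f n * Φ (fun k => bigOm (P k) n) * ψ i n‖ ≤
          ε * Y + C * S.card := by
  classical
  set J : ℕ := ⌈(1 + 1 / δ) / δ⌉₊ + 1 with hJ
  have : NeZero J := ⟨Nat.succ_ne_zero _⟩
  set A : ℝ := (J : ℝ) ^ Fintype.card ι * (|B| + 1) with hA
  have hJ0 : (0 : ℝ) < J := by exact_mod_cast NeZero.pos J
  have hb0 : (0 : ℝ) < b := by exact_mod_cast hb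
  have hA0 : 0 < A := by positivity
  obtain ⟨R0, ρ, hρ, hX⟩ := hR b hb (min δ (ε / (A * b))) (by positivity)
  have hev : ∀ᶠ X : ℕ in l, (R0 + 1) / ρ ≤ (X : ℝ) ^ δ :=
    hl (((tendsto_rpow_atTop hδ).comp tendsto_natCast_atTop_atTop).eventually_ge_atTop _)
  refine ⟨A * (b * (2 * (R0 + 1))), by positivity, ?_⟩
  filter_upwards [hX, hev, hl (eventually_ge_atTop 2)] with X hX h1 h2 P hP Φ hΦ Y hY hY' κ S s t
    ψ hG
  have hX1 : (1 : ℝ) ≤ X := by exact_mod_cast le_trans one_le_two h2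
  have hm : (X : ℝ) ^ min δ (ε / (A * b)) ≤ (X : ℝ) ^ δ :=
    Real.rpow_le_rpow_of_exponent_le hX1 (min_le_left _ _)
  obtain ⟨c, hc, hΦ'⟩ := dft J Φ hΦ
  let g : (ι → ZMod J) → ℕ → ℂ := fun θ n =>
    f n * ∏ k, ZMod.stdAddChar (θ k * (bigOm (P k) n : ZMod J))
  have hn : ∀ θ n, ‖g θ n‖ = ‖f n‖ := fun θ n => by simp [g, norm_prod]
  have hg : ∀ θ, UCM (g θ) := fun θ =>
    ⟨⟨fun m n hm hn => by
      simp only [g, hf.1.mul m n hm hn, bigOm_mul _ hm hn, Nat.cast_add, mul_add,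
        AddChar.map_add_eq_mul, prod_mul_distrib]
      ring, fun n => (hn θ n).trans_le (hf.1.bd n)⟩, fun n h0 => (hn θ n).trans (hf.2 n h0)⟩
  have hθ : ∀ θ, ∑ i ∈ S, ‖∑ n ∈ Ico (s i) (t i), g θ n * ψ i n‖ ≤
      ε / A * Y + b * (2 * (R0 + 1)) * S.card := by
    intro θ
    have := grid_le hG hb (hg θ).1.bd (Nat.succ_pos R0) fun c => hX (g θ) (hg θ)
      (fun p hp hp' => by
        have : ∀ k, bigOm (P k) p = 0 := fun k => bigOm_prime hp fun h =>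
          absurd (hP k p h) (not_lt.2 (hp'.trans hm))
        simp [g, this]) Y (hm.trans hY)
      (hY'.trans (Real.rpow_le_rpow_of_exponent_le hX1
        (one_div_le_one_div_of_le (by positivity) (min_le_left _ _)))) (R0 + 1) (Nat.le_succ _)
      (by
        rw [div_le_iff₀' hρ] at h1
        push_cast
        exact h1.trans (by gcongr)) c
    push_cast at this
    refine this.trans (add_le_add_left ?_ _)
    calc _ ≤ b * (ε / (A * b) * Y) := by gcongr; exact min_le_right _ _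
      _ = _ := by field_simp
  calc _ ≤ ∑ i ∈ S, ∑ θ, (|B| + 1) * ‖∑ n ∈ Ico (s i) (t i), g θ n * ψ i n‖ := by
        refine sum_le_sum fun i hi => ?_
        rw [sum_congr rfl fun n hn => show _ = ∑ θ, c θ * (g θ n * ψ i n) by
          rw [hΦ' _ fun k => bigOm_lt hδ h2 hY' (hG.sub i hi hn) (hP k), mul_sum, sum_mul]
          exact sum_congr rfl fun θ _ => by simp only [g]; ring, sum_comm]
        refine norm_sum_le_of_le _ fun θ _ => ?_
        rw [← mul_sum, norm_mul]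
        gcongr
        linarith [hc θ, le_abs_self B]
    _ ≤ ∑ θ : ι → ZMod J, (|B| + 1) * (ε / A * Y + b * (2 * (R0 + 1)) * S.card) := by
        rw [sum_comm]
        refine sum_le_sum fun θ _ => ?_
        rw [← mul_sum]
        exact mul_le_mul_of_nonneg_left (hθ θ) (by positivity)
    _ = _ := by
        rw [sum_const, card_univ, Fintype.card_fun, ZMod.card, nsmul_eq_mul, Nat.cast_pow,
          ← mul_assoc, ← hA]
        field_simp

/-- weights depending on the numbers of large prime divisors -/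
theorem major_om (hl : l ≤ atTop) (hf : UCM f) (hR : RMRH f l) (ι : Type*) [Fintype ι] {b : ℕ}
    (hb : 0 < b) {δ : ℝ} (hδ : 0 < δ) {ε : ℝ} (hε : 0 < ε) (B : ℝ) : ∃ C : ℝ, 0 < C ∧
    ∀ᶠ X : ℕ in l, ∀ P : ι → Finset ℕ, (∀ k, ∀ p ∈ P k, p.Prime ∧ (X : ℝ) ^ δ < p) →
      ∀ Φ : (ι → ℕ) → ℂ, (∀ v, ‖Φ v‖ ≤ B) → ∀ Y : ℕ, (X : ℝ) ^ δ ≤ Y → (Y : ℝ) ≤ (X : ℝ) ^ (1 / δ) →
      ∀ (κ : Type) (S : Finset κ) (s t : κ → ℕ) (ψ : κ → ℕ → ℂ), Grid Y b S s t ψ →
        ∑ i ∈ S, ‖∑ n ∈ Ico (s i) (t i), f n * Φ (fun k => omN (P k) n) * ψ i n‖ ≤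
          ε * Y + C * S.card := by
  classical
  obtain ⟨C, hC, hX⟩ := major_bigOm hl hf hR ι hb hδ (half_pos hε) B
  have hev : ∀ᶠ X : ℕ in l, 16 * |B| / ε ≤ (X : ℝ) ^ δ :=
    hl (((tendsto_rpow_atTop hδ).comp tendsto_natCast_atTop_atTop).eventually_ge_atTop _)
  refine ⟨C, hC, ?_⟩
  filter_upwards [hX, hev] with X hX h1 P hP Φ hΦ Y hY hY' κ S s t ψ hG
  have h2 := hX P (fun k p hp => (hP k p hp).2) Φ hΦ Y hY hY' κ S s t ψ hG
  let F : ℕ → ℝ := fun n => if ∃ p, ⌊(X : ℝ) ^ δ⌋₊ < p ∧ p ^ 2 ∣ n then 2 * |B| else 0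
  have hF : ∀ n, 0 ≤ F n := fun n => by
    simp only [F]
    split_ifs <;> positivity
  have h3 : ∑ n ∈ Ico Y (2 * Y), F n ≤ ε / 2 * Y := by
    rw [← sum_filter, sum_const, nsmul_eq_mul]
    have h4 := Nat.lt_floor_add_one ((X : ℝ) ^ δ)
    have h5 : 16 * |B| ≤ ε * (⌊(X : ℝ) ^ δ⌋₊ + 1) := by
      rw [div_le_iff₀' hε] at h1
      exact h1.trans (by gcongr)
    refine (mul_le_mul_of_nonneg_right (sq_count Y _) (by positivity)).trans ?_
    rw [div_mul_eq_mul_div, div_le_iff₀ (by positivity)]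
    have := mul_le_mul_of_nonneg_left h5 (Nat.cast_nonneg (α := ℝ) Y)
    linarith
  have h4 : ∀ i ∈ S, ‖∑ n ∈ Ico (s i) (t i), f n * Φ (fun k => omN (P k) n) * ψ i n‖ ≤
      ‖∑ n ∈ Ico (s i) (t i), f n * Φ (fun k => bigOm (P k) n) * ψ i n‖ +
        ∑ n ∈ Ico (s i) (t i), F n := by
    intro i hi
    refine (norm_le_norm_add_norm_sub' _ _).trans (add_le_add_right ?_ _)
    rw [← sum_sub_distrib]
    refine norm_sum_le_of_le _ fun n hn => ?_
    have hn0 : n ≠ 0 := by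
      have := mem_Ico.1 (hG.sub i hi hn)
      omega
    simp only [F]
    split_ifs with h
    · rw [← sub_mul, ← mul_sub, norm_mul, norm_mul, hf.2 n hn0, one_mul]
      refine (mul_le_of_le_one_right (norm_nonneg _) (hG.bd i hi n hn)).trans
        ((norm_sub_le _ _).trans ?_)
      linarith [hΦ fun k => omN (P k) n, hΦ fun k => bigOm (P k) n, le_abs_self B]
    · have : (fun k => omN (P k) n) = fun k => bigOm (P k) n := funext fun k =>
        omN_eq (fun p hp => (hP k p hp).1) hn0 fun p hp h' =>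
          h ⟨p, (Nat.floor_lt (by positivity)).2 (hP k p hp).2, h'⟩
      simp [this]
  have h5 := sum_le_sum h4
  rw [sum_add_distrib] at h5
  linarith [Major.sum_le hG hF]

/-- MAJOR: the divisor weight `∏ ω_k / L_k` -/
theorem major (hl : l ≤ atTop) (hf : UCM f) (hR : RMRH f l) (ι : Type*) [Fintype ι] {b : ℕ}
    (hb : 0 < b) {δ : ℝ} (hδ : 0 < δ) {ε : ℝ} (hε : 0 < ε) {L : ℝ} (hL : 0 < L) : ∃ C : ℝ, 0 < C ∧
    ∀ᶠ X : ℕ in l, ∀ P : ι → Finset ℕ, (∀ k, ∀ p ∈ P k, p.Prime ∧ (X : ℝ) ^ δ < p) →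
      (∀ k, L ≤ Ch.rs (P k)) → ∀ Y : ℕ, (X : ℝ) ^ δ ≤ Y → (Y : ℝ) ≤ (X : ℝ) ^ (1 / δ) →
      ∀ (κ : Type) (S : Finset κ) (s t : κ → ℕ) (ψ : κ → ℕ → ℂ), Grid Y b S s t ψ →
        ∑ i ∈ S, ‖∑ n ∈ Ico (s i) (t i),
          f n * ((∏ k, Ch.om (P k) n / Ch.rs (P k) : ℝ) : ℂ) * ψ i n‖ ≤ ε * Y + C * S.card := by
  set J : ℕ := ⌈(1 + 1 / δ) / δ⌉₊ + 1 with hJ
  obtain ⟨C, hC, hX⟩ := major_om hl hf hR ι hb hδ hε ((J / L) ^ Fintype.card ι)
  refine ⟨C, hC, ?_⟩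
  filter_upwards [hX, hl (eventually_ge_atTop 2)] with X hX h2 P hP hL' Y hY hY' κ S s t ψ hG
  refine le_trans (le_of_eq ?_) (hX P hP
    (fun v => ((∏ k, ((min (v k) J : ℕ) : ℝ) / Ch.rs (P k) : ℝ) : ℂ)) (fun v => ?_) Y hY hY' κ S s t
    ψ hG)
  · refine sum_congr rfl fun i hi => congrArg _ (sum_congr rfl fun n hn => ?_)
    have hn' := hG.sub i hi hn
    have hn0 : n ≠ 0 := by
      have := mem_Ico.1 hn'
      omega
    have : ∀ k, min (omN (P k) n) J = omN (P k) n := fun k => min_eq_left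
      ((omN_le (fun p hp => (hP k p hp).1) hn0).trans
        (bigOm_lt hδ h2 hY' hn' fun p hp => (hP k p hp).2).le)
    simp only [this]
    rfl
  · rw [Complex.norm_real, norm_prod, ← card_univ, ← prod_const]
    refine prod_le_prod (fun k _ => norm_nonneg _) fun k _ => ?_
    have h1 := hL' k
    rw [Real.norm_of_nonneg (div_nonneg (Nat.cast_nonneg _) (hL.le.trans h1))]
    have : ((min (v k) J : ℕ) : ℝ) ≤ J := by exact_mod_cast min_le_right _ _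
    gcongr

end Pool.Agent.P.MP_a14ce1_nt.Nil
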