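import Mathlib

/-!
Finitary predicates of the decomposition axiom DEC: type II forms on a window and functions that are
constant on residue classes between break points.
-/

open Finset

namespace Pool.Agent.P.MP_a14ce1_nt.Nil

open Classical in
/-- integers of [M1, M2] without prime factors up to z -/
noncomputable def roughs (z M1 M2 : ℕ) : Finset ℕ :=
  (Icc M1 M2).filter fun m => ∀ p : ℕ, p.Prime → p ≤ z → ¬ p ∣ m

/-- pairs (m, u) with m in MM and x ≤ u m < x + L -/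
def pairs (MM : Finset ℕ) (x L : ℕ) : Finset (ℕ × ℕ) :=
  (MM ×ˢ range (x + L)).filter fun a => x ≤ a.2 * a.1 ∧ a.2 * a.1 < x + L

/-- all type II forms of φ on the window [x, x + L) are at most c -/
def TII (MM : Finset ℕ) (x L : ℕ) (φ : ℤ → ℂ) (c : ℝ) : Prop :=
  ∀ α β : ℕ → ℂ, (∀ u, ‖α u‖ ≤ 1) → (∀ m, ‖β m‖ ≤ 1) →
    ‖∑ a ∈ pairs MM x L, β a.1 * α a.2 * φ ((a.2 * a.1 : ℕ) : ℤ)‖ ≤ c

/-- ψ is constant on the classes mod W between consecutive points of B -/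
def Maj (W : ℕ) (B : Finset ℤ) (ψ : ℤ → ℂ) : Prop :=
  ∀ a b : ℤ, a ≤ b → (W : ℤ) ∣ b - a → (∀ t ∈ B, ¬ (a < t ∧ t ≤ b)) → ψ a = ψ b

/-- φ is a major function with at most nB break points plus a function with small type II forms -/
def Dec (W : ℕ) (MM : Finset ℕ) (x L : ℕ) (φ : ℤ → ℂ) (nB c : ℝ) : Prop :=
  ∃ (ψ : ℤ → ℂ) (B : Finset ℤ), (∀ n, ‖ψ n‖ ≤ 1) ∧ (B.card : ℝ) ≤ nB ∧ Maj W B ψ ∧
    TII MM x L (fun n => φ n - ψ n) c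

/-- The axiom DEC for a class AA of functions on the integers. The exponent C is chosen first. -/
def DecAx (AA : Set (ℤ → ℂ)) : Prop :=
  ∃ C : ℕ, ∀ ε : ℝ, 0 < ε → ∀ K : ℕ, ∃ W Z0 : ℕ, 0 < W ∧ ∀ Z z x L M1 M2 : ℕ,
    Z0 ≤ z → z ≤ Z → Z ^ C ≤ M1 → M2 ≤ z ^ K → M2 * Z ^ C ≤ L → x ≤ Z * L →
    ∀ φ ∈ AA, Dec W (roughs z M1 M2) x L φ ((Z : ℝ) ^ C) (ε * L)

theorem mem_roughs {z M1 M2 m : ℕ} :
    m ∈ roughs z M1 M2 ↔ (M1 ≤ m ∧ m ≤ M2) ∧ ∀ p : ℕ, p.Prime → p ≤ z → ¬ p ∣ m := by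
  simp only [roughs, mem_filter, mem_Icc]

theorem mem_pairs {MM : Finset ℕ} (h : ∀ m ∈ MM, 0 < m) {x L : ℕ} {a : ℕ × ℕ} :
    a ∈ pairs MM x L ↔ a.1 ∈ MM ∧ x ≤ a.2 * a.1 ∧ a.2 * a.1 < x + L := by
  simp only [pairs, mem_filter, mem_product, mem_range]
  exact ⟨fun k => ⟨k.1.1, k.2⟩, fun k =>
    ⟨⟨k.1, (Nat.le_mul_of_pos_right _ (h _ k.1)).trans_lt k.2.2⟩, k.2⟩⟩

end Pool.Agent.P.MP_a14ce1_nt.Nil
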