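import Pool.Agent.P.MP_e30989_nt.W.St2
import Pool.Agent.P.MP_a14ce1_nt.Nil.DecD

/-!
The interface between the nilsequence side and the lifting argument: atom systems on the natural
numbers (absolute coordinates), the four finitary facts, the inverse theorem, and the potential.
-/

open Finset Filter

namespace Pool.Agent.P.MP_a14ce1_nt.Ax

open Pool.Agent.P.MP_e30989_nt.W

/-- sum over the multiples of c in [s, t), times c; the natural size is t - s -/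
noncomputable def sv (c s t : ℕ) (φ : ℕ → ℂ) : ℂ :=
  (c : ℂ) * ∑ n ∈ (Ico s t).filter (fun n => c ∣ n), φ n

/-- a times the conjugate of b -/
noncomputable def pc (a b : ℕ → ℂ) (n : ℕ) : ℂ := a n * (starRingEnd ℂ) (b n)

/-- closure properties of a set of atoms -/
structure At (A : Set (ℕ → ℂ)) : Prop where
  ne : A.Nonempty
  bd : ∀ a ∈ A, ∀ n, ‖a n‖ ≤ 1
  rot : ∀ a ∈ A, ∀ z : ℂ, ‖z‖ = 1 → (fun n => z * a n) ∈ A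
  dil : ∀ a ∈ A, ∀ d : ℕ, 0 < d → (fun n => a (d * n)) ∈ A
  und : ∀ a ∈ A, ∀ d : ℕ, 0 < d → ∃ b ∈ A, ∀ n, b (d * n) = a n

/-- a probability weight on a set of primes, at most Q / p, all primes in [Q ^ C, exp Q] -/
structure PW (Q : ℝ) (C : ℕ) (P : Finset ℕ) (w : ℕ → ℝ) : Prop where
  pr : ∀ p ∈ P, p.Prime
  nn : ∀ p ∈ P, 0 ≤ w p
  sum : ∑ p ∈ P, w p = 1
  le : ∀ p ∈ P, w p * p ≤ Q
  lo : ∀ p ∈ P, Q ^ C ≤ (p : ℝ)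
  hi : ∀ p ∈ P, Real.log p ≤ Q

/-- fair sampling -/
def FS (A : Set (ℕ → ℂ)) : Prop := ∃ C : ℕ, ∀ Q : ℝ, 2 ≤ Q → ∀ (P : Finset ℕ) (w : ℕ → ℝ) (s t : ℕ),
  PW Q C P w → (∀ p ∈ P, (p : ℝ) * Q ^ C ≤ (t : ℝ) - s) → ∀ a ∈ A, ∀ b ∈ A,
    ‖∑ p ∈ P, (w p : ℂ) * sv p s t (pc a b) - sv 1 s t (pc a b)‖ ≤ ((t : ℝ) - s) / Q

/-- extension: atoms χ p on the multiples of p, tests ψ τ on the multiples of the prime v τ -/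
def EXT (A : Set (ℕ → ℂ)) : Prop := ∃ C : ℕ, ∀ Q : ℝ, 2 ≤ Q →
  ∀ (P V : Finset ℕ) (w μ : ℕ → ℝ) (s t : ℕ) (ι : Type) (T : Finset ι) (v : ι → ℕ) (ω : ι → ℝ)
    (χ : ℕ → ℕ → ℂ) (ψ : ι → ℕ → ℂ),
  PW Q C P w → PW Q C V μ → Disjoint P V → (∀ τ ∈ T, v τ ∈ V ∧ 0 ≤ ω τ ∧ ψ τ ∈ A) →
  (∀ r ∈ V, ∑ τ ∈ T.filter (fun τ => v τ = r), ω τ = μ r) → (∀ p ∈ P, χ p ∈ A) →
  (∀ p ∈ P, ∀ r ∈ V, (p : ℝ) * (r : ℝ) ^ C * Q ^ C ≤ (t : ℝ) - s) →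
    ∃ u ∈ A, (∑ p ∈ P, ∑ τ ∈ T, ((w p * ω τ : ℝ) : ℂ) * sv (p * v τ) s t (pc (χ p) (ψ τ))).re ≤
      (∑ τ ∈ T, (ω τ : ℂ) * sv (v τ) s t (pc u (ψ τ))).re + ((t : ℝ) - s) / Q

/-- converse of the inverse theorem, for products of two atoms, with polynomial bounds -/
def CONV (A : Set (ℕ → ℂ)) : Prop := ∃ k C : ℕ, ∀ Q : ℝ, 2 ≤ Q → ∀ (φ : ℕ → ℂ) (x H : ℕ),
  (∀ n, ‖φ n‖ ≤ 1) → Q ^ C ≤ (H : ℝ) → V.cube k φ x H ≤ 1 / Q ^ C → ∀ a ∈ A, ∀ b ∈ A,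
    ‖∑ n ∈ Ico x (x + H), φ n * pc a b n‖ ≤ (H : ℝ) / Q

/-- the facts used by the plain step -/
structure Sys (B : Set (ℕ → ℂ)) : Prop where
  atm : At B
  fs : FS B
  ext : EXT B
  conv : CONV B

/-- restriction of a class of functions on the integers to the natural numbers -/
def res (A : Set (ℤ → ℂ)) : Set (ℕ → ℂ) := (fun (a : ℤ → ℂ) (n : ℕ) => a n) '' A

/-- a good atom system on the integers -/
structure Good (A : Set (ℤ → ℂ)) : Prop where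
  sys : Sys (res A)
  dec : Nil.DecAx A

/-- the inverse theorem, with finitely many good atom systems -/
def S_GIAx : Prop := ∀ (k : ℕ) (δ : ℝ), 0 < δ → ∃ (S : Set (Set (ℤ → ℂ))) (c : ℝ) (H0 : ℕ),
  S.Finite ∧ (∀ A ∈ S, Good A) ∧ 0 < c ∧ ∀ (φ : ℕ → ℂ) (x H : ℕ), (∀ n, ‖φ n‖ ≤ 1) → H0 ≤ H →
    δ ≤ V.cube k φ x H → ∃ A ∈ S, ∃ a ∈ res A, c * H ≤ ‖∑ n ∈ Ico x (x + H), pc φ a n‖

/-! ### The potential -/

/-- the convex hull of the atoms -/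
def hull (A : Set (ℕ → ℂ)) : Set (ℕ → ℂ) := convexHull ℝ A

/-- functions that agree with a member of the hull on every piece of the grid n ↦ c n / R -/
def Pw (A : Set (ℕ → ℂ)) (c R : ℕ) : Set (ℕ → ℂ) :=
  {Φ | ∀ j : ℕ, ∃ u ∈ hull A, ∀ n : ℕ, c * n / R = j → Φ n = u n}

/-- logarithmic sum up to X -/
noncomputable def ls (X : ℕ) (φ : ℕ → ℝ) : ℝ := ∑ n ∈ Icc 1 X, φ n / n

/-- squared logarithmic distance from f to the functions that are atomic on the grid of length H -/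
noncomputable def dst (A : Set (ℕ → ℂ)) (f : ℕ → ℂ) (H X : ℕ) : ℝ :=
  sInf ((fun Ψ => ls X fun n => ‖f n - Ψ n‖ ^ 2) '' Pw A 1 H)

/-- the plain step -/
def S_Plain : Prop := ∀ A : Set (ℕ → ℂ), Sys A → ∃ C t0 : ℝ, 0 < C ∧ ∀ t : ℝ, t0 ≤ t →
  ∀ (f : ℕ → ℂ) (H P1 P2 X : ℕ), UCM f → Real.exp (t ^ 10) ≤ H → H ≤ P1 → P1 ≤ P2 →
    (P2 : ℝ) ≤ Real.exp (t ^ 12) → 2 ≤ Ch.rs (Ch.pr P1 P2) → 2 ≤ X →
    dst A f P1 X ≤ dst A f H X + C * (1 / √(√(Real.log t)) + 1 / √(Ch.rs (Ch.pr P1 P2)) +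
      √(Real.log P2 / Real.log X)) * Real.log X

/-- the tilted step and the end game -/
def S_Tilt : Prop := ∀ A : Set (ℤ → ℂ), Good A → ∀ (f : ℕ → ℂ) (l : Filter ℕ), l ≤ atTop → UCM f →
  RMRH f l → ∀ δ : ℝ, 0 < δ → ∃ κ1 : ℝ, 0 < κ1 ∧ ∀ κ : ℝ, 0 < κ → κ ≤ κ1 → ∀ᶠ X : ℕ in l,
    (1 - δ) * Real.log X ≤ dst (res A) f ⌈(X : ℝ) ^ κ⌉₊ X

/-- no local correlation with the atoms -/
def S_Lift : Prop := ∀ A : Set (ℤ → ℂ), Good A → ∀ (f : ℕ → ℂ) (l : Filter ℕ), l ≤ atTop → UCM f →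
  RMRH f l → ∀ δ : ℝ, 0 < δ → ∃ H0 : ℕ, ∀ H : ℕ, H0 ≤ H → ∀ᶠ X : ℕ in l,
    (1 - δ) * Real.log X ≤ dst (res A) f H X

end Pool.Agent.P.MP_a14ce1_nt.Ax
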