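import Pool.Agent.P.MP_a14ce1_nt.Nil.EL2
import Pool.Agent.P.MP_a14ce1_nt.Nil.Ax

/-! The divisor weight against products of two piecewise atomic functions. -/

namespace Pool.Agent.P.MP_a14ce1_nt.Nil.EL

open Finset Ax

set_option linter.dupNamespace false

variable {A : Set (ℕ → ℂ)}

theorem hull_lin {L : (ℕ → ℂ) → ℂ} (hL : IsLinearMap ℝ L) {c : ℝ} (h : ∀ a ∈ A, ‖L a‖ ≤ c) :
    ∀ u ∈ hull A, ‖L u‖ ≤ c := fun u hu => by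
  simpa using convexHull_min (t := L ⁻¹' Metric.closedBall 0 c) (fun a ha => by simpa using h a ha)
    ((convex_closedBall 0 c).is_linear_preimage hL) hu

theorem hull_bd (hA : At A) {u : ℕ → ℂ} (hu : u ∈ hull A) (n : ℕ) : ‖u n‖ ≤ 1 :=
  hull_lin (L := fun u => u n) ⟨fun _ _ => rfl, fun _ _ => rfl⟩ (fun a ha => hA.bd a ha n) u hu

theorem hull_dil (hA : At A) {u : ℕ → ℂ} (hu : u ∈ hull A) {d : ℕ} (hd : 0 < d) :
    (fun n => u (d * n)) ∈ hull A :=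
  convexHull_min (t := (fun (u : ℕ → ℂ) n => u (d * n)) ⁻¹' hull A)
    (fun a ha => subset_convexHull ℝ A (hA.dil a ha d hd))
    ((convex_convexHull ℝ A).is_linear_preimage ⟨fun _ _ => rfl, fun _ _ => rfl⟩) hu

theorem hull_pc (I : Finset ℕ) (φ : ℕ → ℂ) {c : ℝ}
    (h : ∀ a ∈ A, ∀ b ∈ A, ‖∑ n ∈ I, φ n * pc a b n‖ ≤ c) :
    ∀ u ∈ hull A, ∀ v ∈ hull A, ‖∑ n ∈ I, φ n * pc u v n‖ ≤ c := by
  intro u hu
  refine hull_lin (L := fun v => ∑ n ∈ I, φ n * pc u v n) ⟨fun _ _ => ?_, fun _ _ => ?_⟩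
    fun b hb => hull_lin (L := fun u => ∑ n ∈ I, φ n * pc u b n) ⟨fun _ _ => ?_, fun _ _ => ?_⟩
      (fun a ha => h a ha b hb) u hu
  all_goals simp only [pc, Pi.add_apply, Pi.smul_apply, map_add, mul_add, add_mul, sum_add_distrib,
    Complex.real_smul, map_mul, Complex.conj_ofReal, mul_sum]
  all_goals exact sum_congr rfl fun _ _ => by ring

theorem norm_pc {u v : ℕ → ℂ} (hu : ∀ n, ‖u n‖ ≤ 1) (hv : ∀ n, ‖v n‖ ≤ 1) (n : ℕ) :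
    ‖pc u v n‖ ≤ 1 := by
  rw [pc, norm_mul, Complex.norm_conj]
  exact mul_le_one₀ (hu n) (norm_nonneg _) (hv n)

theorem TestN.congr {k H : ℕ} {κ κ' : ℝ} {Φ Ψ : ℕ → ℂ} {x : ℕ} (h : TestN k H κ κ' Φ x)
    (e : ∀ n ∈ Ico x (x + H), Ψ n = Φ n) : TestN k H κ κ' Ψ x := fun φ h1 h2 => by
  rw [sum_congr rfl fun n hn => by rw [e n hn]]
  exact h φ h1 h2

theorem TestN.rot {k H : ℕ} {κ κ' : ℝ} {Φ : ℕ → ℂ} {x : ℕ} (h : TestN k H κ κ' Φ x) {z : ℂ}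
    (hz : ‖z‖ ≤ 1) : TestN k H κ κ' (fun n => z * Φ n) x := fun φ h1 h2 => by
  simp only [mul_left_comm _ z, ← mul_sum, norm_mul]
  exact (mul_le_of_le_one_left (norm_nonneg _) hz).trans (h φ h1 h2)

/-- the converse inverse theorem for the hull, at the scale `Q ^ 2` -/
theorem conv_test (h : CONV A) : ∃ k E : ℕ, ∀ Q : ℝ, 2 ≤ Q → ∀ H : ℕ, Q ^ E ≤ H →
    ∀ u ∈ hull A, ∀ v ∈ hull A, ∀ x, TestN k H (1 / Q ^ 2) (1 / Q ^ E) (pc u v) x := by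
  obtain ⟨k, C, h⟩ := h
  refine ⟨k, 2 * C, fun Q hQ H hH u hu v hv x φ h1 h2 => ?_⟩
  rw [pow_mul] at hH h2
  rw [one_div_mul_eq_div]
  exact hull_pc _ φ (h (Q ^ 2) (by nlinarith) φ x H h1 hH h2) u hu v hv

/-- Fair sampling by a product of primes. The function `Φ` is a product of two members of the hull on
every piece of a partition into intervals of length about `ρ`. -/
theorem el_main (h : CONV A) : ∃ C : ℕ, ∀ Q : ℝ, C ≤ Q → ∀ (ι : Type) [Fintype ι] (S : EL.Sys ι)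
    (ρ Z : ℝ), S.mo C ^ Fintype.card ι ≤ Q → Q ^ C ≤ S.ρ → Q ^ C ≤ ρ → S.AA ≤ Z → Q ≤ Z →
    ∀ (c : ℕ → ℕ) (Φ : ℕ → ℂ), Monotone c → (∀ a b, (c (a + b) : ℝ) ≤ c a + (b / ρ + 1)) →
    (∀ n, ‖Φ n‖ ≤ 1) → (∀ j, ∃ u ∈ hull A, ∃ v ∈ hull A, ∀ n, c n = j → Φ n = pc u v n) →
    ∀ (ω : ℕ → ℝ) (n0 N : ℕ), (∀ n, n0 ≤ n → 0 ≤ ω n) → (∀ a b, n0 ≤ a → a ≤ b → ω b ≤ ω a) →
    ‖∑ n ∈ Ico n0 N, ((S.nu n - 1 : ℝ) : ℂ) * Φ n * ω n‖ ≤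
      20 / Q * ∑ n ∈ Ico n0 N, ω n + 13 * Z ^ C * ω n0 := by
  classical
  obtain ⟨k, E, h⟩ := conv_test h
  obtain ⟨s, hs⟩ : ∃ s, s = 2 ^ (k + 1) := ⟨_, rfl⟩
  obtain ⟨m, hm⟩ : ∃ m, m = 2 * (s + (E + 4)) + (E + 3) := ⟨_, rfl⟩
  obtain ⟨C, c1, c2, c3⟩ : ∃ C : ℕ, 2 * m + 10 ≤ C ∧ (s + 2) ^ 3 ≤ C ∧ 2 ^ s * ck k ≤ C :=
    ⟨2 * m + 10 + (s + 2) ^ 3 + ⌈2 ^ s * ck k⌉₊, by omega, by omega,
      (Nat.le_ceil _).trans (by exact_mod_cast Nat.le_add_left _ _)⟩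
  refine ⟨C, fun Q hQ ι _ S ρ Z h1 h2 h3 h4 h5 c Φ h6 h7 h8 h9 ω n0 N h0 hω => ?_⟩
  have hQ2 : 2 ≤ Q := le_trans (by exact_mod_cast (by omega : 2 ≤ C)) hQ
  have hQ1 : 1 ≤ Q := by linarith
  have hP : ∀ {a b : ℕ}, a ≤ b → Q ^ a ≤ Q ^ b := pow_le_pow_right₀ hQ1
  have hZ1 : 1 ≤ Z := hQ1.trans h5
  have hA1 := S.one_le_AA
  have hρ : 0 < ρ := lt_of_lt_of_le (by positivity) h3
  obtain ⟨H, H1, H2⟩ : ∃ H : ℕ, Q ^ (E + 4) ≤ H ∧ 1 + (H : ℝ) ≤ Q ^ (E + 5) := by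
    refine ⟨⌈Q ^ (E + 4)⌉₊, Nat.le_ceil _, ?_⟩
    have a1 := Nat.ceil_lt_add_one (a := Q ^ (E + 4)) (by positivity)
    have a2 : Q ≤ Q ^ (E + 4) := le_self_pow₀ hQ1 (by omega)
    rw [pow_succ Q (E + 4)]
    nlinarith
  obtain ⟨Y, Y1, Y2⟩ : ∃ Y : ℕ, Z ^ m ≤ Y ∧ (Y : ℝ) ≤ Z ^ (m + 1) := by
    refine ⟨⌈Z ^ m⌉₊, Nat.le_ceil _, ?_⟩
    have a1 := Nat.ceil_lt_add_one (a := Z ^ m) (by positivity)
    have a2 : 1 ≤ Z ^ m := one_le_pow₀ hZ1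
    rw [pow_succ]
    nlinarith
  have Y3 : H * Q ^ 2 ≤ Y :=
    calc _ ≤ Q ^ (E + 5) * Q ^ 2 := by gcongr; linarith
      _ ≤ Q ^ m := by rw [← pow_add]; exact hP (by omega)
      _ ≤ Z ^ m := by gcongr
      _ ≤ _ := Y1
  have hmo : ∀ r ≤ C, S.mo r ^ Fintype.card ι ≤ Q := fun r hr =>
    (pow_le_pow_left₀ (zero_le_one.trans (S.one_le_mo _)) (S.mo_mono hr) _).trans h1
  refine (S.el_Q k E (H := H) (T := H) (Y := Y) hQ2 (hs ▸ c3.trans hQ) (hs ▸ hmo _ (by omega)) ?_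
    H1 Nat.lt_two_pow_self.le ?_ (le_trans (by gcongr; nlinarith) Y3) h8
    (fun x => c x ≠ c (x + H)) (fun y => ?_) (fun x hx => ?_) h0 hω N).trans ?_
  · rw [← hs]
    rcases Nat.eq_zero_or_pos (Fintype.card ι) with e | e
    · simp [e]
    have b1 : (Fintype.card ι : ℝ) ≤ Q := by
      refine le_trans ?_ (hmo 0 (Nat.zero_le _))
      have : (2 : ℝ) ≤ S.mo 0 := by
        simp only [Sys.mo, pow_zero, mul_one, Nat.factorial_zero, Nat.cast_one]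
        linarith [Real.add_one_le_exp 2]
      refine le_trans ?_ (pow_le_pow_left₀ zero_le_two this _)
      exact_mod_cast Nat.lt_two_pow_self.le
    have b2 : S.β ^ 2 * S.mo (2 * s) ≤ Q := by
      refine le_trans ?_ ((le_self_pow₀ (S.one_le_mo _) e.ne').trans (hmo (2 * s + 2) (by omega)))
      have := S.β1
      unfold Sys.mo
      calc _ = Real.exp 2 * S.β ^ (2 * s + 2) * (2 * s).factorial := by ring
        _ ≤ _ := by gcongr; omega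
    have b3 : ((s : ℝ) + 2) ^ 3 ≤ Q := le_trans (by exact_mod_cast c2) hQ
    have b4 : 0 ≤ S.β ^ 2 * S.mo (2 * s) := mul_nonneg (sq_nonneg _) (by linarith [S.one_le_mo (2 * s)])
    have b5 : Q ^ (2 * E + 11) ≤ S.ρ := (hP (by omega)).trans h2
    have b6 := S.ρ1
    unfold Sys.eps
    rw [mul_assoc _ (S.β ^ 2)]
    calc _ ≤ Q * (Q * Q ^ (E + 5) * Q / Q ^ (2 * E + 11)) * Q ^ (E + 3) := by gcongr
      _ = 1 := by field_simp; ring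
  · rw [← hs]
    refine le_trans ?_ Y1
    rw [hm, pow_add Z]
    gcongr
  · refine (card_jump h6 y Y H fun a => h7 a Y).trans ?_
    have b1 : H * Q ^ 2 ≤ ρ :=
      calc _ ≤ Q ^ (E + 5) * Q ^ 2 := by gcongr; linarith
        _ ≤ Q ^ C := by rw [← pow_add]; exact hP (by omega)
        _ ≤ _ := h3
    have b2 : H * (Y / ρ) * Q ^ 2 ≤ Y :=
      calc _ = Y * (H * Q ^ 2 / ρ) := by ring
        _ ≤ Y * 1 := by gcongr; exact (div_le_one hρ).mpr b1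
        _ = Y := mul_one _
    rw [div_mul_eq_mul_div, le_div_iff₀ (by positivity)]
    linarith [Nat.cast_nonneg (α := ℝ) Y]
  · obtain ⟨u, hu, v, hv, e⟩ := h9 (c x)
    refine (h Q hQ2 H ((hP (by omega)).trans H1) u hu v hv x).congr fun n hn => e n ?_
    obtain ⟨b1, b2⟩ := mem_Ico.mp hn
    exact le_antisymm ((h6 b2.le).trans (not_not.mp hx).ge) (h6 b1)
  · have := h0 n0 le_rfl
    gcongr
    exact Y2.trans (pow_le_pow_right₀ hZ1 (by omega))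

end Pool.Agent.P.MP_a14ce1_nt.Nil.EL
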