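import Pool.Agent.P.MP_a14ce1_nt.Nil.CoreSt

/-!
Universal lifts and the Efron-Stein decomposition on a cube.
-/

open Finset Function
open scoped RealInnerProductSpace

namespace Pool.Agent.P.MP_a14ce1_nt.Nil.ES

section abstract

variable {E : Type*} [SeminormedAddCommGroup E] [InnerProductSpace ℝ E]
variable {ι : Type*} [Fintype ι] [DecidableEq ι] {C : Finset ι → Set E}

theorem chain (hC : Cls C) {S0 St : Finset ι} {k : ι} {δ : ℝ} (hδ : 0 ≤ δ)
    (h0 : ∀ F ∈ C St, ∃ F' ∈ C (St.erase k), ∀ G ∈ C (St.erase k), |⟪F - F', G⟫| ≤ δ ^ 2)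
    (h1 : ∀ S : Finset ι, S0 ⊆ S → S ⊆ St → k ∈ S → ∀ j ∈ St, j ∉ S → ∀ F ∈ C S,
      ∃ F' ∈ C (S.erase k), ∀ G ∈ C (insert j (S.erase k)), |⟪F - F', G⟫| ≤ δ ^ 2)
    {S : Finset ι} (hS0 : S0 ⊆ S) (hS : S ⊆ St) (hk : k ∈ S) {F : E} (hF : F ∈ C S) :
    ∃ F' ∈ C (S.erase k), ∀ G ∈ C (St.erase k),
      |⟪F - F', G⟫| ≤ δ ^ 2 + 2 * Fintype.card ι * δ := by
  have key : ∀ (n : ℕ) (S : Finset ι), (St \ S).card = n → S0 ⊆ S → S ⊆ St → k ∈ S → ∀ F ∈ C S,
      ∃ F' ∈ C (S.erase k), (∀ G ∈ C (S.erase k), |⟪F - F', G⟫| ≤ δ ^ 2) ∧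
        ∀ G ∈ C (St.erase k), |⟪F - F', G⟫| ≤ δ ^ 2 + 2 * n * δ := by
    intro n
    induction n with
    | zero =>
      intro S hn _ hS _ F hF
      have : S = St := Subset.antisymm hS (by simpa using hn)
      subst this
      obtain ⟨F', a1, a2⟩ := h0 F hF
      exact ⟨F', a1, a2, fun G hG => by simpa using a2 G hG⟩
    | succ n ih =>
      intro S hn hS0 hS hk F hF
      obtain ⟨j, hj⟩ : (St \ S).Nonempty := card_pos.1 (by omega)
      obtain ⟨hjt, hjS⟩ := mem_sdiff.1 hj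
      have hc : (St \ insert j S).card = n := by
        rw [sdiff_insert, card_erase_of_mem hj]; omega
      obtain ⟨F'', g1, g2, g3⟩ := ih (insert j S) hc (hS0.trans (subset_insert _ _))
        (insert_subset hjt hS) (mem_insert_of_mem hk) F (hC.mono _ _ (subset_insert _ _) hF)
      obtain ⟨F', a1, a3⟩ := h1 S hS0 hS hk j hjt hjS F hF
      have e : (insert j S).erase k = insert j (S.erase k) :=
        erase_insert_of_ne (fun e => hjS (e ▸ hk))
      rw [e] at g1 g2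
      have a1' : F' ∈ C (insert j (S.erase k)) := hC.mono _ _ (subset_insert _ _) a1
      have hd : ∀ G ∈ C (insert j (S.erase k)), |⟪F'' - F', G⟫| ≤ δ ^ 2 + δ ^ 2 := fun G hG =>
        abs_inner_tri (abs_inner_swap (g2 G hG)) (a3 G hG)
      have hn : ‖F'' - F'‖ ≤ 2 * δ := by
        have := norm_sub_sq_le_of_tests (hd _ g1) (hd _ a1')
        exact (pow_le_pow_iff_left₀ (norm_nonneg _) (by positivity) two_ne_zero).1 (by nlinarith)
      refine ⟨F', a1, fun G hG => a3 G (hC.mono _ _ (subset_insert _ _) hG), fun G hG => ?_⟩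
      have := abs_inner_tri (g3 G hG) (abs_inner_le_of_norm hn (hC.bdd _ G hG))
      push_cast
      linarith
  obtain ⟨F', a1, -, a3⟩ := key _ S rfl hS0 hS hk F hF
  refine ⟨F', a1, fun G hG => (a3 G hG).trans ?_⟩
  have : ((St \ S).card : ℝ) ≤ Fintype.card ι := by exact_mod_cast card_le_univ _
  nlinarith

end abstract

variable {ι : Type*} [Fintype ι] [DecidableEq ι] {P : Type*}

/-- half of the inner product on the top level -/
noncomputable def topForm (Y : Sys P) (g : ι → Pr) (St : Finset ι) : Form ((ι → ℕ) → P → ℂ) where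
  B := (1 / 2 : ℝ) • II Y g St
  symm x y := by simp only [LinearMap.smul_apply, II_comm Y g St x]
  nonneg x := by
    simp only [LinearMap.smul_apply, smul_eq_mul]
    exact mul_nonneg (by norm_num) (II_nonneg Y g St x)

theorem top_inner (Y : Sys P) (g : ι → Pr) (St : Finset ι) (x y : Sp (topForm Y g St)) :
    ⟪x, y⟫ = II Y g St x y / 2 := by
  rw [Sp.inner_eq]
  simp only [topForm, LinearMap.smul_apply, smul_eq_mul]
  ring

theorem top_norm (Y : Sys P) (g : ι → Pr) (St : Finset ι) (x : Sp (topForm Y g St)) :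
    ‖x‖ ^ 2 = II Y g St x x / 2 := by rw [← real_inner_self_eq_norm_sq, top_inner]

theorem II_self_le {Y : Sys P} {g : ι → Pr} {St : Finset ι}
    (hm : ∀ a ∈ supp g, ∑ x ∈ (Y.μ (lv St a)).s, (Y.μ (lv St a)).w x ≤ 2)
    {A : (ι → ℕ) → P → ℂ} (hA : ∀ a n, ‖A a n‖ ≤ 1) : II Y g St A A ≤ 2 := by
  rw [II_apply, ← Ew_const g 2]
  exact Ew_le g fun a ha => (Wt.ip_self_le _ _ (hA a)).trans (hm a ha)

theorem II_two_mul_le (Y : Sys P) (g : ι → Pr) (S : Finset ι) (x y : (ι → ℕ) → P → ℂ) {t : ℝ}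
    (ht : 0 < t) : 2 * |II Y g S x y| ≤ t * II Y g S x x + II Y g S y y / t := by
  have a1 := II_nonneg Y g S (t • x - y)
  have a2 := II_nonneg Y g S (t • x + y)
  simp only [map_sub, map_add, map_smul, LinearMap.sub_apply, LinearMap.add_apply,
    LinearMap.smul_apply, smul_eq_mul, II_comm Y g S y x] at a1 a2
  rw [← mul_le_mul_iff_right₀ ht, mul_add, mul_div_cancel₀ _ ht.ne']
  rcases abs_cases (II Y g S x y) with h | h <;> rw [h.1] <;> nlinarith

/-- the hypotheses on a top set -/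
structure TopS (Y : Sys P) (g : ι → Pr) (S0 St : Finset ι) (ε : ℝ) : Prop where
  mass : ∀ a ∈ supp g, ∑ x ∈ (Y.μ (lv St a)).s, (Y.μ (lv St a)).w x ≤ 2
  fs : FsAll Y g St ε
  ext0 : ∀ a ∈ supp g, ∀ k ∈ St, Ext Y (lv (St.erase k) a) (g k) Pr.unit ε
  ext1 : ∀ a ∈ supp g, ∀ S : Finset ι, ∀ k ∈ St, ∀ j ∈ St, S ⊆ St → k ∉ S → j ∉ insert k S →
    S0 ⊆ insert k S → Ext Y (lv S a) (g k) (g j) ε

variable {Y : Sys P} {g : ι → Pr} {S0 St : Finset ι} {τ : ℝ}

theorem TopS.cls {ε : ℝ} (h : TopS Y g S0 St ε) (φ : Finset ι → Finset ι) (hφ : Monotone φ) :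
    Cls (E := Sp (topForm Y g St)) fun T => CC Y (φ T) where
  mono S T hST := CC_mono (hφ hST)
  bdd S x hx := by
    rw [← sq_le_one_iff₀ (norm_nonneg _), top_norm]
    linarith [II_self_le h.mass fun a => Y.bdd _ _ (hx.1 a)]

theorem TopS.lift (h : TopS Y g S0 St (τ ^ 4)) (h0 : 0 < τ) (h1 : τ ≤ 1) {S : Finset ι} {k : ι}
    (hS0 : S0 ⊆ S) (hS : S ⊆ St) (hk : k ∈ S) {F : (ι → ℕ) → P → ℂ} (hF : F ∈ CC Y S) :
    ∃ U ∈ CC Y (S.erase k), ∀ G ∈ CC Y (St.erase k),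
      |II Y g St (F - U) G| ≤ 6 * (Fintype.card ι + 1) ^ 2 * τ ^ 2 := by
  have hl : (0 : ℝ) ≤ Fintype.card ι := Nat.cast_nonneg _
  have h4 : 0 < τ ^ 4 := by positivity
  have hkt : k ∈ St := hS hk
  have hb : (Fintype.card ι + 1) * τ ^ 4 ≤ ((Fintype.card ι + 1) * τ ^ 2) ^ 2 := by
    have : ((Fintype.card ι + 1) * τ ^ 2) ^ 2 = (Fintype.card ι + 1) * ((Fintype.card ι + 1) * τ ^ 4) := by
      ring
    rw [this]
    exact le_mul_of_one_le_left (by positivity) (by linarith)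
  have H := chain (E := Sp (topForm Y g St)) (C := fun T => CC Y T) (S0 := S0)
    (St := St) (k := k) (δ := (Fintype.card ι + 1) * τ ^ 2) (h.cls id monotone_id)
    (by positivity) (fun F hF => by
      obtain ⟨U, a1, a2⟩ := exists_valid (notMem_erase k St) h4 (fun a ha => h.ext0 a ha k hkt)
        (F := F) (by rwa [insert_erase hkt])
      refine ⟨U, a1, fun G hG => le_trans ?_ hb⟩
      have b1 := a2 G hG
      have b2 := h.fs.chain h4.le (erase_subset k St) Subset.rfl a1 hG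
      rw [insert_erase hkt] at b1
      rw [inner_sub_left, top_inner, top_inner, abs_le] at *
      constructor <;> nlinarith [b1.1, b1.2, b2.1, b2.2])
    (fun S hS0 hS hk j hj hjS F hF => by
      have e := insert_erase hk
      obtain ⟨U, a1, a2⟩ := exists_valid1 (notMem_erase k S) (j := j) (by rwa [e]) h4
        (fun a ha => h.ext1 a ha _ k hkt j hj ((erase_subset _ _).trans hS) (notMem_erase _ _)
          (by rwa [e]) (by rwa [e])) (F := F) (by rwa [e])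
      refine ⟨U, a1, fun G hG => le_trans ?_ hb⟩
      have b1 := a2 G hG
      rw [e] at b1
      have b2 := h.fs.chain h4.le (insert_subset hj hS) Subset.rfl
        (CC_mono (subset_insert j S) hF) (CC_mono (insert_subset_insert j (erase_subset k S)) hG)
      have b3 := h.fs.chain h4.le (insert_subset hj ((erase_subset k S).trans hS)) Subset.rfl
        (CC_mono (subset_insert j _) a1) hG
      rw [inner_sub_left, top_inner, top_inner, abs_le] at *
      constructor <;> nlinarith [b1.1, b1.2, b2.1, b2.2, b3.1, b3.2]) hS0 hS hk hF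
  have H' : ∃ U ∈ CC Y (S.erase k), ∀ G ∈ CC Y (St.erase k), |II Y g St (F - U) G / 2| ≤
      ((Fintype.card ι + 1) * τ ^ 2) ^ 2 +
        2 * Fintype.card ι * ((Fintype.card ι + 1) * τ ^ 2) := by
    obtain ⟨U, hU, hU'⟩ := H
    exact ⟨U, hU, fun G hG => by have := hU' G hG; rwa [top_inner] at this⟩
  obtain ⟨U, hU, hU'⟩ := H'
  refine ⟨U, hU, fun G hG => ?_⟩
  have a1 := hU' G hG
  rw [abs_div, abs_two] at a1
  have a2 : τ ^ 2 ≤ 1 := pow_le_one₀ h0.le h1
  have a3 : ((Fintype.card ι + 1) * τ ^ 2) ^ 2 ≤ (Fintype.card ι + 1) ^ 2 * τ ^ 2 := by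
    rw [mul_pow]
    exact mul_le_mul_of_nonneg_left (by nlinarith [sq_nonneg τ]) (by positivity)
  have a5 : 0 ≤ τ ^ 2 := sq_nonneg _
  nlinarith

theorem TopS.liftU (h : TopS Y g S0 St (τ ^ 4)) (h0 : 0 < τ) (h1 : τ ≤ 1) (hS0 : S0 ⊆ St) :
    LiftU (E := Sp (topForm Y g St)) (fun T => CC Y ((T ∪ S0) ∩ St))
      (3 * (Fintype.card ι + 1) ^ 2 * τ ^ 2) := by
  intro S k F hF
  by_cases hk : k ∈ S ∧ k ∈ St ∧ k ∉ S0
  · obtain ⟨U, a1, a2⟩ := h.lift h0 h1 (S := (S ∪ S0) ∩ St) (k := k)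
      (subset_inter subset_union_right hS0) inter_subset_right (by simp [hk.1, hk.2.1]) hF
    refine ⟨U, CC_mono (fun x => ?_) a1, fun G hG => ?_⟩
    · simp only [mem_erase, mem_inter, mem_union]
      tauto
    · have := a2 G (CC_mono (fun x => by
        simp only [mem_erase, mem_inter, mem_union, mem_univ]
        rintro ⟨hx | hx, hx'⟩
        · exact ⟨hx.1, hx'⟩
        · exact ⟨fun e => hk.2.2 (e ▸ hx), hx'⟩) hG)
      rw [top_inner, abs_div, abs_two, div_le_iff₀ two_pos]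
      exact this.trans (le_of_eq (by ring))
  · refine ⟨F, CC_mono (fun x => ?_) hF, fun G _ => ?_⟩
    · simp only [mem_erase, mem_inter, mem_union]
      rintro ⟨hx | hx, hx'⟩
      · by_cases e : x = k
        · subst e
          exact ⟨Or.inr (by tauto), hx'⟩
        · exact ⟨Or.inl ⟨e, hx⟩, hx'⟩
      · exact ⟨Or.inr hx, hx'⟩
    · simp only [sub_self, inner_zero_left, abs_zero]
      positivity

theorem gam_le (l : ℕ) (h0 : 0 < τ) (h1 : τ ≤ 1) :
    l * (3 * (l + 1) ^ 2 * τ ^ 2) + √(6 * l * (3 * (l + 1) ^ 2 * τ ^ 2)) ≤ 8 * (l + 1) ^ 3 * τ := by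
  have hl : (0 : ℝ) ≤ l := Nat.cast_nonneg _
  have a1 : √(6 * l * (3 * (l + 1) ^ 2 * τ ^ 2)) ≤ 5 * (l + 1) ^ 3 * τ := by
    refine Real.sqrt_le_iff.2 ⟨by positivity, ?_⟩
    have b : (l : ℝ) ≤ (l + 1) ^ 4 := by nlinarith [sq_nonneg ((l : ℝ) + 1), pow_pos (by linarith : (0 : ℝ) < l + 1) 3, one_le_pow₀ (n := 3) (by linarith : (1 : ℝ) ≤ l + 1)]
    have c : 0 ≤ ((l : ℝ) + 1) ^ 2 * τ ^ 2 := by positivity
    calc 6 * l * (3 * (l + 1) ^ 2 * τ ^ 2) = 18 * l * ((l + 1) ^ 2 * τ ^ 2) := by ring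
      _ ≤ 25 * (l + 1) ^ 4 * ((l + 1) ^ 2 * τ ^ 2) := by gcongr; linarith
      _ = _ := by ring
  have a2 : l * (3 * (l + 1) ^ 2 * τ ^ 2) ≤ 3 * (l + 1) ^ 3 * τ := by
    calc l * (3 * (l + 1) ^ 2 * τ ^ 2) ≤ (l + 1) * (3 * (l + 1) ^ 2 * τ) := by
          gcongr
          · linarith
          · nlinarith
      _ = _ := by ring
  linarith

theorem pow_le_two_pow (l n : ℕ) : ((l : ℝ) + 1) ^ n ≤ (2 ^ n) ^ l := by
  have : (l : ℝ) + 1 ≤ 2 ^ l := by exact_mod_cast Nat.lt_two_pow_self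
  calc ((l : ℝ) + 1) ^ n ≤ (2 ^ l) ^ n := by gcongr
    _ = _ := by rw [← pow_mul, ← pow_mul, mul_comm]

theorem TopS.es (h : TopS Y g S0 St (τ ^ 4)) (h0 : 0 < τ) (h1 : τ ≤ 1) (hS0 : S0 ⊆ St) (l0 : ℕ)
    {F : (ι → ℕ) → P → ℂ} {G : ι → (ι → ℕ) → P → ℂ} (hF : F ∈ CC Y St)
    (hG : ∀ k ∈ St \ S0, G k ∈ CC Y (St.erase k)) :
    ∃ M : Finset ι → (ι → ℕ) → P → ℂ, (∀ T, M T ∈ CC Y ((T ∪ S0) ∩ St)) ∧
      II Y g St (F - syn (cf (lo ι l0)) M) (F - syn (cf (lo ι l0)) M) ≤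
        (∑ k ∈ St \ S0, II Y g St (F - G k) (F - G k)) / (l0 + 1) +
          256 ^ (Fintype.card ι + 1) * τ ∧
      II Y g St (syn (cf (lo ι l0)) M) (syn (cf (lo ι l0)) M) ≤
        II Y g St F F + 256 ^ (Fintype.card ι + 1) * τ := by
  have hC := h.cls (fun T => (T ∪ S0) ∩ St) fun S T hST =>
    inter_subset_inter_right (union_subset_union_left hST)
  obtain ⟨M, hM⟩ := (h.liftU h0 h1 hS0).res hC (by positivity) (F := F)
    (CC_mono (fun x hx => by simp [hx]) hF)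
  replace hM := hM.mono (gam_le _ h0 h1)
  set l := Fintype.card ι
  have hl : (0 : ℝ) ≤ l := Nat.cast_nonneg _
  have b1 : ((l : ℝ) + 1) ^ 4 * 16 ^ l ≤ 256 ^ l := by
    have := pow_le_two_pow l 4
    calc ((l : ℝ) + 1) ^ 4 * 16 ^ l ≤ (2 ^ 4) ^ l * 16 ^ l := by gcongr
      _ = _ := by rw [← mul_pow]; norm_num
  have b2 : ((l : ℝ) + 1) ^ 3 * 16 ^ l ≤ 256 ^ l := le_trans (by gcongr <;> linarith) b1
  refine ⟨M, hM.mem, ?_, ?_⟩
  · have a1 := hM.low_close hC l0 (fun k => if k ∈ St \ S0 then G k else F) fun k => by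
      split_ifs with hk
      · refine CC_mono (fun x => ?_) (hG k hk)
        simp only [mem_erase, mem_inter, mem_union, mem_univ]
        tauto
      · refine CC_mono (fun x hx => ?_) hF
        simp only [mem_erase, mem_inter, mem_union, mem_univ, mem_sdiff] at hk ⊢
        by_cases e : x = k
        · subst e; tauto
        · tauto
    have a2 : ∑ k, ‖(show Sp (topForm Y g St) from F) -
        (if k ∈ St \ S0 then G k else F : Sp (topForm Y g St))‖ ^ 2 =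
        (∑ k ∈ St \ S0, II Y g St (F - G k) (F - G k)) / 2 := by
      rw [sum_div, ← sum_subset (subset_univ (St \ S0))]
      · refine sum_congr rfl fun k hk => ?_
        rw [if_pos hk, top_norm]
        rfl
      · intro k _ hk
        rw [if_neg hk, sub_self, norm_zero]
        norm_num
    erw [a2] at a1
    rw [top_norm] at a1
    rw [div_right_comm, div_le_iff₀ two_pos] at a1
    refine le_trans a1 ?_
    have : 6 * (l + 1) * 16 ^ l * (8 * (l + 1) ^ 3 * τ) ≤ 48 * (256 ^ l * τ) := by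
      calc _ = 48 * (((l : ℝ) + 1) ^ 4 * 16 ^ l * τ) := by ring
        _ ≤ _ := by gcongr
    have p : 0 ≤ 256 ^ l * τ := by positivity
    rw [pow_succ (256 : ℝ)]
    change (_ + 6 * (l + 1) * 16 ^ l * (8 * (l + 1) ^ 3 * τ)) * 2 ≤ _
    nlinarith
  · have a1 := hM.norm_syn hC (lo ι l0)
    rw [top_norm, top_norm] at a1
    change II Y g St (syn (cf (lo ι l0)) M) (syn (cf (lo ι l0)) M) / 2 ≤ _ at a1
    have : 2 * 16 ^ l * (8 * (l + 1) ^ 3 * τ) ≤ 16 * (256 ^ l * τ) := by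
      calc _ = 16 * (((l : ℝ) + 1) ^ 3 * 16 ^ l * τ) := by ring
        _ ≤ _ := by gcongr
    have p : 0 ≤ 256 ^ l * τ := by positivity
    rw [pow_succ]
    nlinarith

theorem exists_cut (Y : Sys P) (g : ι → Pr) {S : Finset ι} {F : (ι → ℕ) → P → ℂ}
    (h1 : ∀ a ∈ supp g, F a ∈ Y.X (lv S a)) (h2 : Dep S F) :
    ∃ F' ∈ CC Y S, ∀ a ∈ supp g, F' a = F a := by
  classical
  obtain ⟨a0, ha0⟩ := supp_nonempty g
  refine ⟨fun a => if ∀ k ∈ S, a k ∈ (g k).s then F a else 0, ⟨fun a => ?_, fun a a' haa => ?_⟩,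
    fun a ha => if_pos fun k _ => mem_supp.1 ha k⟩
  · beta_reduce
    split_ifs with h
    · have e : ∀ k ∈ S, a k = S.piecewise a a0 k := fun k hk => by simp [hk]
      rw [h2 _ _ e, dep_lv S _ _ e]
      refine h1 _ (mem_supp.2 fun k => ?_)
      by_cases hk : k ∈ S
      · simpa [hk] using h k hk
      · simpa [hk] using mem_supp.1 ha0 k
    · exact Y.zero _
  · have : (∀ k ∈ S, a k ∈ (g k).s) ↔ ∀ k ∈ S, a' k ∈ (g k).s :=
      forall₂_congr fun k hk => by rw [haa k hk]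
    simp only [this, h2 a a' haa]

theorem II_congr (Y : Sys P) (g : ι → Pr) (S : Finset ι) {A A' B B' : (ι → ℕ) → P → ℂ}
    (hA : ∀ a ∈ supp g, A a = A' a) (hB : ∀ a ∈ supp g, B a = B' a) :
    II Y g S A B = II Y g S A' B' := by
  rw [II_apply, II_apply]
  exact Ew_congr g fun a ha => by rw [hA a ha, hB a ha]

/-- the system of a weight and a class -/
noncomputable def sysOf (μ : Wt ℕ) {X : Set (ℕ → ℂ)} (h : Cl X) : Sys ℕ where
  μ := lvW μ
  X := fun _ => X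
  cvx := fun _ => h.cvx
  zero := fun _ => h.zero
  neg := fun _ => h.neg
  bdd := fun _ => h.bdd
  mono := fun _ _ => Set.Subset.rfl

theorem Top.topS {ι : Type} [Fintype ι] [DecidableEq ι] {μ : Wt ℕ} {X : Set (ℕ → ℂ)} (hX : Cl X)
    {g : ι → Pr} {S0 St : Finset ι} {ε : ℝ} (h : Top μ X g S0 St ε) :
    TopS (sysOf μ hX) g S0 St ε where
  mass := h.mass
  fs := fun S j hj hS hjS a ha => h.fs a ha S j hj hS hjS
  ext0 := h.ext0
  ext1 := h.ext1

theorem esc : S_ESC := by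
  intro ι _ _ μ X g S0 St l0 τ hX h0 h1 hS0 hT F G hF hG
  obtain ⟨F', a1, a2⟩ := exists_cut (sysOf μ hX) g hF.1 hF.2
  have b : ∀ k, ∃ G' : (ι → ℕ) → ℕ → ℂ, k ∈ St \ S0 →
      G' ∈ CC (sysOf μ hX) (St.erase k) ∧ ∀ a ∈ supp g, G' a = G k a := fun k => by
    by_cases hk : k ∈ St \ S0
    · obtain ⟨G', c1, c2⟩ := exists_cut (sysOf μ hX) g (hG k hk).1 (hG k hk).2
      exact ⟨G', fun _ => ⟨c1, c2⟩⟩
    · exact ⟨0, fun h => absurd h hk⟩
  choose G' hG' using b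
  obtain ⟨M, m1, m2, m3⟩ := (hT.topS hX).es h0 h1 hS0 l0 a1 fun k hk => (hG' k hk).1
  refine ⟨M, m1, ?_, ?_⟩
  · rw [II_congr _ g St (A' := F - low l0 M) (B' := F - low l0 M)
      (fun a ha => by simp only [Pi.sub_apply, a2 a ha, low])
      (fun a ha => by simp only [Pi.sub_apply, a2 a ha, low]),
      sum_congr rfl fun k hk => II_congr _ g St (A' := F - G k) (B' := F - G k)
        (fun a ha => by simp only [Pi.sub_apply, a2 a ha, (hG' k hk).2 a ha])
        (fun a ha => by simp only [Pi.sub_apply, a2 a ha, (hG' k hk).2 a ha])] at m2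
    exact m2
  · rw [II_congr _ g St a2 a2] at m3
    exact m3

end Pool.Agent.P.MP_a14ce1_nt.Nil.ES
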