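import Pool.Agent.P.MP_a14ce1_nt.Nil.Core3

/-!
The core of the plain step: assembly.
-/

open Finset Function

namespace Pool.Agent.P.MP_a14ce1_nt.Nil.ES

section lin

variable {V : Type*} [AddCommGroup V] [Module ℝ V] {J : Type*} [Fintype J]

theorem bil_avg (β : V →ₗ[ℝ] V →ₗ[ℝ] ℝ) (lam : J → ℝ) (x : J → V) :
    β (∑ i, lam i • x i) (∑ i, lam i • x i) = ∑ i, lam i * ∑ i', lam i' * β (x i) (x i') := by
  simp only [map_sum, map_smul, LinearMap.sum_apply, LinearMap.smul_apply, smul_eq_mul, mul_sum]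
  rw [sum_comm]
  exact sum_congr rfl fun i _ => sum_congr rfl fun i' _ => by ring

theorem avg_le {lam x : J → ℝ} (h0 : ∀ i, 0 ≤ lam i) (h1 : ∑ i, lam i = 1) (y : J → ℝ) (e : ℝ)
    (h : ∀ i, x i ≤ y i + e) : ∑ i, lam i * x i ≤ ∑ i, lam i * y i + e := by
  calc ∑ i, lam i * x i ≤ ∑ i, lam i * (y i + e) :=
        sum_le_sum fun i _ => mul_le_mul_of_nonneg_left (h i) (h0 i)
    _ = _ := by simp only [mul_add, sum_add_distrib, ← sum_mul, h1, one_mul]

theorem bil_jensen (β : V →ₗ[ℝ] V →ₗ[ℝ] ℝ) (hβ : ∀ x y, 2 * β x y ≤ β x x + β y y) {lam : J → ℝ}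
    (h0 : ∀ i, 0 ≤ lam i) (h1 : ∑ i, lam i = 1) (x : J → V) :
    β (∑ i, lam i • x i) (∑ i, lam i • x i) ≤ ∑ i, lam i * β (x i) (x i) := by
  rw [bil_avg]
  have a : ∀ i, ∑ i', lam i' * β (x i) (x i') ≤
      β (x i) (x i) / 2 + (∑ i', lam i' * β (x i') (x i')) / 2 := fun i => by
    have := avg_le h0 h1 (fun i' => β (x i') (x i') / 2) (β (x i) (x i) / 2)
      (x := fun i' => β (x i) (x i')) fun i' => by linarith [hβ (x i) (x i')]
    simp only [← mul_div_assoc, ← sum_div] at this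
    linarith
  have := avg_le h0 h1 _ _ a
  simp only [← mul_div_assoc, ← sum_div] at this
  linarith

theorem bil_off [DecidableEq J] (β : V →ₗ[ℝ] V →ₗ[ℝ] ℝ) {lam : J → ℝ} (h0 : ∀ i, 0 ≤ lam i)
    (h1 : ∑ i, lam i = 1) (x : J → V) {e D : ℝ} (he : 0 ≤ e)
    (hoff : ∀ i i', i ≠ i' → β (x i) (x i') ≤ e) (hD : ∀ i, lam i * β (x i) (x i) ≤ D) :
    β (∑ i, lam i • x i) (∑ i, lam i • x i) ≤ D + e := by
  rw [bil_avg]
  have a : ∀ i, ∑ i', lam i' * β (x i) (x i') ≤ 0 + (D + e) := fun i => by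
    rw [← add_sum_erase _ _ (mem_univ i)]
    have b : ∑ i' ∈ univ.erase i, lam i' * β (x i) (x i') ≤ ∑ i' ∈ univ.erase i, lam i' * e :=
      sum_le_sum fun i' hi => mul_le_mul_of_nonneg_left (hoff _ _ (ne_of_mem_erase hi).symm) (h0 _)
    have c : ∑ i' ∈ univ.erase i, lam i' * e ≤ ∑ i', lam i' * e :=
      sum_le_sum_of_subset_of_nonneg (subset_univ _) fun _ _ _ => mul_nonneg (h0 _) he
    rw [← sum_mul univ, h1] at c
    linarith [hD i]
  simpa using avg_le h0 h1 (fun _ => 0) _ a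

end lin

theorem num1 (l : ℕ) {τ : ℝ} (h0 : 0 < τ) :
    (1 + 4 ^ l) * ((1 + 4 ^ l) * (20 * (l + 1) ^ 2 * τ)) ≤ 256 ^ (l + 1) * τ := by
  have a1 := pow_le_two_pow l 2
  have a2 : (1 : ℝ) ≤ 4 ^ l := one_le_pow₀ (by norm_num)
  have a3 : (4 : ℝ) ^ l * (4 ^ l * (2 ^ 2) ^ l) ≤ 256 ^ l := by
    rw [← mul_pow, ← mul_pow]
    exact pow_le_pow_left₀ (by norm_num) (by norm_num) l
  calc (1 + 4 ^ l) * ((1 + 4 ^ l) * (20 * (l + 1) ^ 2 * τ))
      ≤ (2 * 4 ^ l) * ((2 * 4 ^ l) * (20 * (2 ^ 2) ^ l * τ)) := by gcongr <;> linarith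
    _ = 80 * (4 ^ l * (4 ^ l * (2 ^ 2) ^ l)) * τ := by ring
    _ ≤ 256 * 256 ^ l * τ := by gcongr; norm_num
    _ = _ := by ring

theorem num2 (l : ℕ) {τ : ℝ} (h0 : 0 < τ) : 23 * (256 ^ (l + 1) * τ) ≤ 10000 ^ (l + 1) * τ := by
  have a : (39 : ℝ) ≤ 39 ^ (l + 1) := le_self_pow₀ (by norm_num) (by omega)
  calc 23 * (256 ^ (l + 1) * τ) ≤ 39 ^ (l + 1) * (256 ^ (l + 1) * τ) := by gcongr; linarith
    _ = (39 * 256) ^ (l + 1) * τ := by rw [mul_pow, mul_assoc]
    _ ≤ _ := by gcongr; norm_num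

theorem exists_ge_Ew {ι : Type*} [Fintype ι] [DecidableEq ι] (g : ι → Pr) (h : (ι → ℕ) → ℝ) :
    ∃ a ∈ supp g, Ew g h ≤ h a := by
  obtain ⟨a, ha, ha'⟩ := exists_max_image (supp g) h (supp_nonempty g)
  exact ⟨a, ha, (Ew_le g ha').trans (Ew_const g _).le⟩

theorem core : S_Core := by
  intro ι _ _ o o' Sa m μ X g B lam l0 τ d t hoo ho ho' hX hn h0 h1 ht hd hl0 hl1 hld hp hdj hw hm
    hT hP hE f F G hf hF hG
  have hn' : o' ∉ insert o Sa := by simp [hoo.symm, ho']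
  have hS := fun i => (hT i).topS (hX i)
  choose F' F1 F2 using fun i => exists_cut (sysOf μ (hX i)) _ (hF i).1 (hF i).2
  have b : ∀ i k, ∃ G' : (ι → ℕ) → ℕ → ℂ, k ∈ Sa → G' ∈ CC (sysOf μ (hX i)) ((insert o Sa).erase k) ∧
      ∀ a ∈ supp (update g o (B i)), G' a = G i k a := fun i k => by
    by_cases hk : k ∈ Sa
    · obtain ⟨G', c1, c2⟩ := exists_cut (sysOf μ (hX i)) _ (hG i k hk).1 (hG i k hk).2
      exact ⟨G', fun _ => ⟨c1, c2⟩⟩
    · exact ⟨0, fun h => absurd h hk⟩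
  choose G' hG' using b
  choose M U u hB using fun i => (hS i).blk ho h0 h1 l0 (F1 i) fun k hk => (hG' i k hk).1
  set l := Fintype.card ι with hl
  set E : ℝ := 256 ^ (l + 1) * τ with hEe
  set κ : ℝ := 4 ^ l with hκ
  set ω : ℝ := 7 * (l + 1) ^ 2 * τ ^ 2 with hω
  have l0' : (0 : ℝ) ≤ l := Nat.cast_nonneg _
  have κ1 : 1 ≤ κ := one_le_pow₀ (by norm_num)
  have key : ∀ x : ℝ, 0 ≤ x → x ≤ 20 * (l + 1) ^ 2 * τ →
      (1 + κ) * ((1 + κ) * x) ≤ E ∧ κ * (κ * x) ≤ E ∧ x ≤ E := fun x x0 x1 => by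
    have a1 : (1 + κ) * ((1 + κ) * x) ≤ E := le_trans (by gcongr) (num1 l h0)
    have a2 : κ * (κ * x) ≤ (1 + κ) * ((1 + κ) * x) := by gcongr <;> linarith
    have a3 : x ≤ κ * (κ * x) := by nlinarith [mul_le_mul_of_nonneg_right κ1 x0]
    exact ⟨a1, by linarith, by linarith⟩
  have t4 : τ ^ 4 ≤ τ := pow_le_of_le_one h0.le h1 (by norm_num)
  have t2 : τ ^ 2 ≤ τ := pow_le_of_le_one h0.le h1 (by norm_num)
  have k1 := key ω (by positivity) (mul_le_mul (by nlinarith) t2 (by positivity) (by positivity))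
  have k2 := key (20 * (l + 1) * τ) (by positivity)
    (mul_le_mul_of_nonneg_right (by nlinarith) h0.le)
  have k3 := key ((l + 2) * τ ^ 4) (by positivity)
    (mul_le_mul (by nlinarith) t4 (by positivity) (by positivity))
  have E0 : 0 ≤ E := by positivity
  have d0 : 0 ≤ d := (hl0 0).trans (hld 0)
  set c := cf (lo ι l0) with hc
  have dM : ∀ i, Dep (insert o Sa) (syn c (M i)) := fun i => Dep.syn c fun T =>
    ((hB i).hM T).2.mono (insert_subset_insert _ inter_subset_right)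
  have dU : ∀ i, Dep Sa (syn c (U i)) := fun i => Dep.syn c fun T =>
    ((hB i).hU T).2.mono inter_subset_right
  have du : ∀ i, Dep Sa (u i) := fun i => (hB i).hu.2
  have up : ∀ i {x y : (ι → ℕ) → ℕ → ℂ}, Dep Sa x → Dep Sa y →
      JJ μ (update g o (B i)) Sa x y = JJ μ g Sa x y := fun i _ _ hx hy =>
    II_update_CC (Y := sysOf μ cl_zero) g ho (B i) hx hy
  have cardS : ∀ T T' : Finset ι, c T ≠ 0 → c T' ≠ 0 → ((T ∪ T') ∩ Sa).card ≤ 2 * l0 := by
    intro T T' a1 a2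
    have := cf_lo_ne_zero a1
    have := cf_lo_ne_zero a2
    have := card_union_le T T'
    have := card_le_card (inter_subset_left : (T ∪ T') ∩ Sa ⊆ T ∪ T')
    omega
  have low' : ∀ i i', i ≤ i' → ∀ T T' : Finset ι, c T ≠ 0 → c T' ≠ 0 → Low (sysOf μ (hX i))
      (update (update g o (B i)) o' (B i')) o o' Sa ((T ∪ T') ∩ Sa) (τ ^ 4) :=
    fun i i' hi T T' a1 a2 => low_of (hX i) hoo ho ho' inter_subset_right fun a ha =>
      hP i i' hi a ha _ inter_subset_right (cardS T T' a1 a2)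
  have sl : ∀ T T' : Finset ι, T ∩ Sa ⊆ (T ∪ T') ∩ Sa := fun T T' =>
    inter_subset_inter_right subset_union_left
  have sr : ∀ T T' : Finset ι, T' ∩ Sa ⊆ (T ∪ T') ∩ Sa := fun T T' =>
    inter_subset_inter_right subset_union_right
  set x : Fin (m + 1) → (ι → ℕ) → ℕ → ℂ := fun i => hh o Sa (B i) (syn c (M i)) - syn c (U i)
    with hx
  have off : ∀ i i', i < i' → JJ μ g Sa (x i) (x i') ≤ 2 * E := by
    intro i i' hi
    have cop : ∀ q ∈ (B i).s, ∀ q' ∈ (B i').s, q.Coprime q' := fun q hq q' hq' =>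
      (Nat.coprime_primes (hp i q hq) (hp i' q' hq')).2 fun e =>
        disjoint_left.1 (hdj i i' hi.ne) hq (e ▸ hq')
    have a1 := bil_syn (M := M i) (U := U i) (M' := fun T => sw o o' (M i' T))
      (U' := fun T => sw o o' (M i' T))
      (JJ μ (update (update g o (B i)) o' (B i')) (insert o' (insert o Sa)))
      (JJ μ (update (update g o (B i)) o' (B i')) (insert o' Sa)) (e := 20 * (l + 1) * τ)
      (by positivity) (sum_abs_cf_le (lo ι l0)) fun T T' a1 a2 =>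
        (low' i i' hi.le T T' a1 a2).off hoo ho ho' inter_subset_right (hS i).fs h0 h1
          (fun a ha => by
            rw [update_self]
            exact hE i i' hi a (mem_supp2 hoo ho ho' ha).1 _ inter_subset_right (cardS T T' a1 a2))
          (CC_mono (insert_subset_insert _ (sl T T')) ((hB i).hM T))
          (CC_mono (sl T T') ((hB i).hU T)) ((hB i).lM T)
          (sw_mem (hX i) (hX i') (hn i i' hi.le) (sr T T') ((hB i').hM T'))
    have a2 := (hB i).low_test (y := syn c (U i')) (K := κ) (by positivity)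
      (InK.syn (sum_abs_cf_le _) fun T => CC_mono inter_subset_right
        ⟨fun a => hn i i' hi.le (((hB i').hU T).1 a), ((hB i').hU T).2⟩)
    rw [← sw_syn, ← JJ_hh_hh hoo ho ho' cop (dM i) (dM i'),
      ← JJ_hh_right hoo ho ho' (dU i) (dM i')] at a1
    rw [II_eq, II_eq, ← JJ_hh ho _ (dU i'), up i (dU i) (dU i')] at a2
    simp only [hx, map_sub, LinearMap.sub_apply]
    linarith [abs_le.1 a1, abs_le.1 a2, k1.2.1, k2.2.1]
  have dia : ∀ i, lam i * JJ μ g Sa (x i) (x i) ≤ 12 * d + 14 * E := by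
    intro i
    have a1 := JJ_hh_self (μ := μ) (g := g) hoo ho ho' (hp i) (hl0 i) (hw i) (dM i)
    have a2 := bil_syn (M := M i) (U := M i) (M' := M i) (U' := M i)
      (JJ μ (update (update g o (B i)) o' (B i)) (insert o' (insert o Sa)))
      (JJ μ (update g o (B i)) (insert o Sa)) (e := (l + 2) * τ ^ 4)
      (by positivity) (sum_abs_cf_le (lo ι l0)) fun T T' a1 a2 =>
        (low' i i le_rfl T T' a1 a2).diag hoo ho' inter_subset_right (hS i).fs
          (CC_mono (insert_subset_insert _ (sl T T')) ((hB i).hM T))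
          (CC_mono (insert_subset_insert _ (sr T T')) ((hB i).hM T'))
    have a3 := (hB i).es2
    have a4 := (hB i).norm_al
    rw [II_eq] at a3
    rw [II_eq, up i (dU i) (dU i)] at a4
    have a5 := II_nonneg (sysOf μ cl_zero) g Sa (hh o Sa (B i) (syn c (M i)) + syn c (U i))
    rw [II_eq] at a5
    simp only [hx, map_sub, map_add, LinearMap.sub_apply, LinearMap.add_apply] at a5 ⊢
    have a6 : lam i * JJ μ (update (update g o (B i)) o' (B i)) (insert o' (insert o Sa))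
        (syn c (M i)) (syn c (M i)) ≤ d * (2 + 2 * E) :=
      (mul_le_mul_of_nonneg_left (by linarith [abs_le.1 a2, k3.2.1]) (hl0 i)).trans
        (mul_le_mul_of_nonneg_right (hld i) (by positivity))
    have a7 : lam i * JJ μ g Sa (syn c (U i)) (syn c (U i)) ≤ d * (2 + 4 * E) :=
      (mul_le_mul_of_nonneg_left (by linarith [k1.2.1]) (hl0 i)).trans
        (mul_le_mul_of_nonneg_right (hld i) (by positivity))
    have a8 := mul_le_mul_of_nonneg_left a3 d0
    have a9 := mul_nonneg (hl0 i) a5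
    have a10 := mul_le_of_le_one_left E0 hd
    nlinarith
  have hZ := bil_off (JJ μ g Sa) hl0 hl1 x (e := 2 * E) (by positivity) (fun i i' hi => by
    rcases lt_or_gt_of_ne hi with h | h
    · exact off i i' h
    · rw [← II_eq μ cl_zero, II_comm]
      exact off i' i h) dia
  set fh : (ι → ℕ) → ℕ → ℂ := fun _ => f with hfh
  have df : Dep Sa fh := fun _ _ _ => rfl
  have f1 : JJ μ g Sa fh fh ≤ 2 := II_self_le (Y := sysOf μ cl_zero) hm fun _ => hf
  have f2 : ∀ i, JJ μ (update g o (B i)) (insert o Sa) fh fh ≤ 2 := fun i =>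
    II_self_le (hS i).mass fun _ => hf
  have cs : ∀ (g' : ι → Pr) (S : Finset ι) (y : (ι → ℕ) → ℕ → ℂ) (D : ℝ), JJ μ g' S fh fh ≤ 2 →
      JJ μ g' S y y ≤ D → 2 * |JJ μ g' S fh y| ≤ 2 * t + D / t := fun g' S y D a1 a2 => by
    have a3 := II_two_mul_le (sysOf μ cl_zero) g' S fh y ht
    rw [II_eq] at a3
    have a4 := mul_le_mul_of_nonneg_left a1 ht.le
    have a5 := div_le_div_of_nonneg_right a2 ht.le
    linarith
  set I : Fin (m + 1) → ℝ := fun i => ∑ k ∈ Sa, Ew (update g o (B i)) fun a =>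
    br μ (lv (insert o Sa) a) (F i a - G i k a) (F i a - G i k a) with hI
  have eI : ∀ i, ∑ k ∈ Sa, II (sysOf μ (hX i)) (update g o (B i)) (insert o Sa) (F' i - G' i k)
      (F' i - G' i k) = I i := fun i => sum_congr rfl fun k hk =>
    II_congr _ _ _ (A' := F i - G i k) (B' := F i - G i k)
      (fun a ha => by simp only [Pi.sub_apply, F2 i a ha, (hG' i k hk).2 a ha])
      (fun a ha => by simp only [Pi.sub_apply, F2 i a ha, (hG' i k hk).2 a ha])
  have eP : ∀ i, Ew (update g o (B i)) (fun a => pot μ (lv (insert o Sa) a) f (F i a)) =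
      2 * JJ μ (update g o (B i)) (insert o Sa) fh (F' i) -
        JJ μ (update g o (B i)) (insert o Sa) (F' i) (F' i) := fun i => by
    rw [JJ_apply, JJ_apply, ← Ew_mul, ← Ew_sub]
    exact Ew_congr _ fun a ha => by rw [F2 i a ha, pot]
  have blk : ∀ i, Ew (update g o (B i)) (fun a => pot μ (lv (insert o Sa) a) f (F i a)) ≤
      (2 * JJ μ g Sa fh (u i) - JJ μ g Sa (u i) (u i) + 2 * JJ μ g Sa fh (x i) +
        2 * (I i / (l0 + 1)) / t) + (4 * t + 5 * E / t + 3 * E) := by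
    intro i
    have a1 := (hB i).norm_u
    have a2 := (hB i).norm_phi
    have a3 := (hB i).es1
    rw [II_eq, II_eq, up i (du i) (du i)] at a1
    rw [eI, II_eq, up i ((du i).sub (dU i)) ((du i).sub (dU i))] at a2
    rw [eI, II_eq] at a3
    have a4 := cs _ _ _ (I i / (l0 + 1) + 4 * E) f1 (a2.trans (by linarith [k1.1]))
    have a5 := cs _ _ _ _ (f2 i) a3
    have a6 : JJ μ g Sa fh (hh o Sa (B i) (syn c (M i))) =
        JJ μ (update g o (B i)) (insert o Sa) fh (syn c (M i)) := by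
      rw [← II_eq μ cl_zero, II_comm, II_eq, JJ_hh ho _ df, ← II_eq μ cl_zero, II_comm]
    rw [eP]
    simp only [hx, map_sub, a6, add_div, mul_div_assoc] at a4 a5 ⊢
    linarith [le_abs_self (JJ μ (update g o (B i)) (insert o Sa) fh (F' i) -
      JJ μ (update g o (B i)) (insert o Sa) fh (syn c (M i))),
      neg_abs_le (JJ μ g Sa fh (u i) - JJ μ g Sa fh (syn c (U i))), k1.2.2]
  have a1 := avg_le hl0 hl1 _ _ blk
  have a2 := bil_jensen (JJ μ g Sa) (II_two_le (sysOf μ cl_zero) g Sa) hl0 hl1 u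
  have a3 := cs _ _ _ _ f1 hZ
  obtain ⟨a, ha, ha'⟩ := exists_ge_Ew g fun a => pot μ (lv Sa a) f ((∑ i, lam i • u i) a)
  refine ⟨a, ha, (∑ i, lam i • u i) a, ?_, le_trans ?_ ha'⟩
  · rw [Finset.sum_apply]
    exact (hX 0).cvx.sum_mem (fun i _ => hl0 i) hl1 fun i _ =>
      hn 0 i (Fin.zero_le _) ((hB i).hu.1 a)
  · have e : (Ew g fun a => pot μ (lv Sa a) f ((∑ i, lam i • u i) a)) =
        2 * JJ μ g Sa fh (∑ i, lam i • u i) -
          JJ μ g Sa (∑ i, lam i • u i) (∑ i, lam i • u i) := by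
      rw [JJ_apply, JJ_apply, ← Ew_mul, ← Ew_sub]
      rfl
    have e1 : ∀ y : Fin (m + 1) → (ι → ℕ) → ℕ → ℂ,
        JJ μ g Sa fh (∑ i, lam i • y i) = ∑ i, lam i * JJ μ g Sa fh (y i) := fun y => by
      simp only [map_sum, map_smul, smul_eq_mul]
    have e2 : ∑ i, lam i * (2 * JJ μ g Sa fh (u i) - JJ μ g Sa (u i) (u i) +
        2 * JJ μ g Sa fh (x i) + 2 * (I i / (l0 + 1)) / t) =
        2 * ∑ i, lam i * JJ μ g Sa fh (u i) - ∑ i, lam i * JJ μ g Sa (u i) (u i) +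
          2 * ∑ i, lam i * JJ μ g Sa fh (x i) + 2 * (∑ i, lam i * I i) / (l0 + 1) / t := by
      simp only [mul_sum, sum_div, ← sum_sub_distrib, ← sum_add_distrib]
      exact sum_congr rfl fun i _ => by ring
    have n2 : 23 * E ≤ _ := num2 l h0
    have n4 := div_nonneg E0 ht.le
    have n3 := div_le_div_of_nonneg_right n2 ht.le
    rw [e2, ← e1, ← e1] at a1
    rw [e]
    simp only [add_div, mul_div_assoc, hI] at a1 a3 n3 ⊢
    linarith [le_abs_self (JJ μ g Sa fh (∑ i, lam i • x i))]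

end Pool.Agent.P.MP_a14ce1_nt.Nil.ES
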