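import Pool.Agent.P.MP_a14ce1_nt.Nil.Cube

/-!
Statements of the parameter free core of the lifting argument. One weight on the natural numbers,
levels given by divisibility, nested classes.
-/

open Finset Function

namespace Pool.Agent.P.MP_a14ce1_nt.Nil.ES

/-- the weight of the level c -/
noncomputable def lvW (μ : Wt ℕ) (c : ℕ) : Wt ℕ where
  s := μ.s.filter fun N => c ∣ N
  w := fun N => c * μ.w N
  nn := fun N => mul_nonneg (Nat.cast_nonneg _) (μ.nn N)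

/-- real inner product on the level c -/
noncomputable def br (μ : Wt ℕ) (c : ℕ) (φ ψ : ℕ → ℂ) : ℝ := (lvW μ c).ip φ ψ

/-- mass of the level c -/
noncomputable def mass (μ : Wt ℕ) (c : ℕ) : ℝ := ∑ N ∈ μ.s.filter (fun N => c ∣ N), c * μ.w N

/-- the potential of an approximant u of f on the level c -/
noncomputable def pot (μ : Wt ℕ) (c : ℕ) (f u : ℕ → ℂ) : ℝ := 2 * br μ c f u - br μ c u u

/-- a convex symmetric class of bounded functions -/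
structure Cl (X : Set (ℕ → ℂ)) : Prop where
  cvx : Convex ℝ X
  zero : 0 ∈ X
  neg : ∀ φ ∈ X, -φ ∈ X
  bdd : ∀ φ ∈ X, ∀ n, ‖φ n‖ ≤ 1

/-- fair sampling on the level c by one member of γ -/
def FsN (μ : Wt ℕ) (X : Set (ℕ → ℂ)) (c : ℕ) (γ : Pr) (ε : ℝ) : Prop := ∀ φ ∈ X, ∀ ψ ∈ X,
  |γ.E (fun p => br μ (c * p) φ ψ) - br μ c φ ψ| ≤ ε

/-- extension from the levels b p to the level b, tests on the levels b v -/
def ExtN (μ : Wt ℕ) (X : Set (ℕ → ℂ)) (b : ℕ) (γ γ' : Pr) (ε : ℝ) : Prop := ∀ χ ψ : ℕ → ℕ → ℂ,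
  (∀ p, χ p ∈ X) → (∀ v, ψ v ∈ X) → ∃ U ∈ X,
    γ'.E (fun v => γ.E fun p => br μ (b * p * v) (ψ v) (χ p)) ≤
      γ'.E (fun v => br μ (b * v) (ψ v) U) + ε

section cube

variable {ι : Type} [Fintype ι] [DecidableEq ι]

/-- fair sampling on the level c by a product of members of the groups in D -/
def FsC (μ : Wt ℕ) (X : Set (ℕ → ℂ)) (c : ℕ) (g : ι → Pr) (D : Finset ι) (ε : ℝ) : Prop :=
  ∀ φ ∈ X, ∀ ψ ∈ X, |Ew g (fun a => br μ (c * lv D a) φ ψ) - br μ c φ ψ| ≤ ε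

/-- families of members of X that depend only on the coordinates in S -/
def Fm (X : Set (ℕ → ℂ)) (g : ι → Pr) (S : Finset ι) (F : (ι → ℕ) → ℕ → ℂ) : Prop :=
  (∀ a ∈ supp g, F a ∈ X) ∧ Dep S F

/-- the hypotheses for the cube St over the coordinates S0 that are always present -/
structure Top (μ : Wt ℕ) (X : Set (ℕ → ℂ)) (g : ι → Pr) (S0 St : Finset ι) (ε : ℝ) : Prop where
  mass : ∀ a ∈ supp g, mass μ (lv St a) ≤ 2
  fs : ∀ a ∈ supp g, ∀ S : Finset ι, ∀ j ∈ St, S ⊆ St → j ∉ S → FsN μ X (lv S a) (g j) ε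
  ext0 : ∀ a ∈ supp g, ∀ k ∈ St, ExtN μ X (lv (St.erase k) a) (g k) Pr.unit ε
  ext1 : ∀ a ∈ supp g, ∀ S : Finset ι, ∀ k ∈ St, ∀ j ∈ St, S ⊆ St → k ∉ S → j ∉ insert k S →
    S0 ⊆ insert k S → ExtN μ X (lv S a) (g k) (g j) ε

/-- the part of degree at most l0 -/
noncomputable def low (l0 : ℕ) (M : Finset ι → (ι → ℕ) → ℕ → ℂ) : (ι → ℕ) → ℕ → ℂ :=
  syn (cf (lo ι l0)) M

end cube

/-- Efron-Stein on a cube -/
def S_ESC : Prop := ∀ (ι : Type) [Fintype ι] [DecidableEq ι] (μ : Wt ℕ) (X : Set (ℕ → ℂ))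
  (g : ι → Pr) (S0 St : Finset ι) (l0 : ℕ) (τ : ℝ), Cl X → 0 < τ → τ ≤ 1 → S0 ⊆ St →
  Top μ X g S0 St (τ ^ 4) → ∀ (F : (ι → ℕ) → ℕ → ℂ) (G : ι → (ι → ℕ) → ℕ → ℂ), Fm X g St F →
    (∀ k ∈ St \ S0, Fm X g (St.erase k) (G k)) →
    ∃ M : Finset ι → (ι → ℕ) → ℕ → ℂ, (∀ T, (∀ a, M T a ∈ X) ∧ Dep ((T ∪ S0) ∩ St) (M T)) ∧
      Ew g (fun a => br μ (lv St a) (F a - low l0 M a) (F a - low l0 M a)) ≤
        (∑ k ∈ St \ S0, Ew g fun a => br μ (lv St a) (F a - G k a) (F a - G k a)) / (l0 + 1) +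
          256 ^ (Fintype.card ι + 1) * τ ∧
      Ew g (fun a => br μ (lv St a) (low l0 M a) (low l0 M a)) ≤
        Ew g (fun a => br μ (lv St a) (F a) (F a)) + 256 ^ (Fintype.card ι + 1) * τ

/-- The plain step. The coordinates o and o' carry the large primes, Sa is the set of the other
coordinates. Blocks B i of large primes with masses lam i, nested classes X i (short windows for
small i). -/
def S_Core : Prop := ∀ (ι : Type) [Fintype ι] [DecidableEq ι] (o o' : ι) (Sa : Finset ι) (m : ℕ)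
  (μ : Wt ℕ) (X : Fin (m + 1) → Set (ℕ → ℂ)) (g : ι → Pr) (B : Fin (m + 1) → Pr)
  (lam : Fin (m + 1) → ℝ) (l0 : ℕ) (τ d t : ℝ),
  o ≠ o' → o ∉ Sa → o' ∉ Sa → (∀ i, Cl (X i)) → (∀ i i', i ≤ i' → X i' ⊆ X i) →
  0 < τ → τ ≤ 1 → 0 < t → d ≤ 1 → (∀ i, 0 ≤ lam i) → ∑ i, lam i = 1 → (∀ i, lam i ≤ d) →
  (∀ i, ∀ q ∈ (B i).s, q.Prime) → (∀ i i', i ≠ i' → Disjoint (B i).s (B i').s) →
  (∀ i, ∀ q ∈ (B i).s, lam i * (B i).w q * q ≤ d) →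
  (∀ a ∈ supp g, mass μ (lv Sa a) ≤ 2) →
  (∀ i, Top μ (X i) (update g o (B i)) {o} (insert o Sa) (τ ^ 4)) →
  (∀ i i', i ≤ i' → ∀ a : ι → ℕ, (∀ k ∈ Sa, a k ∈ (g k).s) → ∀ S ⊆ Sa, S.card ≤ 2 * l0 →
    ∀ q ∈ (B i).s, ∀ q' ∈ (B i').s, mass μ (lv S a * q') ≤ 2 ∧ FsN μ (X i) (lv S a) (B i') (τ ^ 4) ∧
      FsN μ (X i) (lv S a * q) (B i') (τ ^ 4) ∧ FsC μ (X i) (lv S a * q') g (Sa \ S) (τ ^ 4) ∧
      FsC μ (X i) (lv S a * q * q') g (Sa \ S) (τ ^ 4)) →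
  (∀ i i', i < i' → ∀ a : ι → ℕ, (∀ k ∈ Sa, a k ∈ (g k).s) → ∀ S ⊆ Sa, S.card ≤ 2 * l0 →
    ExtN μ (X i) (lv S a) (B i) (B i') (τ ^ 4)) →
  ∀ (f : ℕ → ℂ) (F : Fin (m + 1) → (ι → ℕ) → ℕ → ℂ) (G : Fin (m + 1) → ι → (ι → ℕ) → ℕ → ℂ),
    (∀ n, ‖f n‖ ≤ 1) → (∀ i, Fm (X i) (update g o (B i)) (insert o Sa) (F i)) →
    (∀ i, ∀ k ∈ Sa, Fm (X i) (update g o (B i)) ((insert o Sa).erase k) (G i k)) →
    ∃ a ∈ supp g, ∃ u ∈ X 0,
      ∑ i, lam i * Ew (update g o (B i)) (fun a => pot μ (lv (insert o Sa) a) f (F i a)) - 6 * t -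
        (2 * (∑ i, lam i * ∑ k ∈ Sa, Ew (update g o (B i)) fun a =>
            br μ (lv (insert o Sa) a) (F i a - G i k a) (F i a - G i k a)) / (l0 + 1) +
          12 * d + 10000 ^ (Fintype.card ι + 1) * τ) / t -
        10000 ^ (Fintype.card ι + 1) * τ ≤ pot μ (lv Sa a) f u

theorem br_eq (μ : Wt ℕ) (c : ℕ) (φ ψ : ℕ → ℂ) : br μ c φ ψ =
    c * ∑ N ∈ μ.s.filter (fun N => c ∣ N), μ.w N * (φ N * (starRingEnd ℂ) (ψ N)).re := by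
  rw [br, Wt.ip, mul_sum]
  exact sum_congr rfl fun N _ => mul_assoc _ _ _

/-- tests on the level b itself, from tests indexed by an auxiliary group -/
theorem ExtN.unit {μ : Wt ℕ} {X : Set (ℕ → ℂ)} {b : ℕ} {γ γ' : Pr} {ε ε' : ℝ}
    (h : ExtN μ X b γ γ' ε) (h1 : FsN μ X b γ' ε') (h2 : ∀ p ∈ γ.s, FsN μ X (b * p) γ' ε') :
    ExtN μ X b γ Pr.unit (ε + 2 * ε') := by
  intro χ ψ hχ hψ
  obtain ⟨U, hU, hU'⟩ := h χ (fun _ => ψ 1) hχ fun _ => hψ 1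
  refine ⟨U, hU, ?_⟩
  simp only [Pr.unit_E, mul_one]
  have a1 := (abs_le.1 (h1 _ (hψ 1) _ hU)).2
  have a2 : γ.E (fun p => br μ (b * p) (ψ 1) (χ p)) ≤
      γ.E fun p => γ'.E (fun v => br μ (b * p * v) (ψ 1) (χ p)) + ε' :=
    γ.E_le fun p hp => by linarith [(abs_le.1 (h2 p hp _ (hψ 1) _ (hχ p))).1]
  rw [Pr.E_add, Pr.E_const] at a2
  have a3 : γ.E (fun p => γ'.E fun v => br μ (b * p * v) (ψ 1) (χ p)) =
      γ'.E fun v => γ.E fun p => br μ (b * p * v) (ψ 1) (χ p) := by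
    simp only [Pr.E, mul_sum]
    rw [sum_comm]
    exact sum_congr rfl fun v _ => sum_congr rfl fun p _ => by ring
  linarith

end Pool.Agent.P.MP_a14ce1_nt.Nil.ES
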