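import Pool.Agent.P.MP_a14ce1_nt.Nil.EL3
import Pool.Agent.P.MP_a14ce1_nt.Nil.CoreSt

/-! Fair sampling by a sub-cube for piecewise atomic functions. -/

namespace Pool.Agent.P.MP_a14ce1_nt.Nil.EL

open Finset Ax ES

set_option linter.dupNamespace false

theorem sum_level {M : Type*} [AddCommMonoid M] {c : ℕ} (hc : 0 < c) (n0 n1 : ℕ) (F : ℕ → M) :
    ∑ N ∈ (Ico n0 n1).filter (fun N => c ∣ N), F N =
      ∑ n ∈ Ico (n0 ⌈/⌉ c) (n1 ⌈/⌉ c), F (c * n) := by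
  have e : ∀ n, n ∈ Ico (n0 ⌈/⌉ c) (n1 ⌈/⌉ c) ↔ c * n ∈ Ico n0 n1 := fun n => by
    rw [mem_Ico, mem_Ico, ← not_le, ← not_le, ceilDiv_le_iff_le_mul hc, ceilDiv_le_iff_le_mul hc]
  symm
  refine sum_bij (fun n _ => c * n) (fun n hn => mem_filter.mpr ⟨(e n).mp hn, dvd_mul_right _ _⟩)
    (fun _ _ _ _ h => Nat.eq_of_mul_eq_mul_left hc h) (fun N hN => ?_) fun _ _ => rfl
  obtain ⟨h1, n, rfl⟩ := mem_filter.mp hN
  exact ⟨n, (e n).mpr h1, rfl⟩

variable {ι : Type} [Fintype ι] [DecidableEq ι]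

theorem Ew_dvd (g : ι → Pr) (D : Finset ι) (hp : ∀ k ∈ D, ∀ p ∈ (g k).s, p.Prime)
    (hd : ∀ k ∈ D, ∀ k' ∈ D, k ≠ k' → Disjoint (g k).s (g k').s) (n : ℕ) :
    Ew g (fun a => if lv D a ∣ n then (lv D a : ℝ) else 0) =
      ∏ k ∈ D, ∑ p ∈ (g k).s, if (p : ℤ) ∣ n then (g k).w p * p else 0 := by
  have e : ∏ k ∈ D, ∑ p ∈ (g k).s, (if (p : ℤ) ∣ n then (g k).w p * p else 0) =
      ∏ k, ∑ p ∈ (g k).s, (g k).w p * if k ∈ D then (if p ∣ n then (p : ℝ) else 0) else 1 := by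
    rw [← prod_filter_mul_prod_filter_not univ (· ∈ D), filter_mem_eq_inter, univ_inter,
      prod_eq_one (s := filter _ _) fun k hk => by simp [(mem_filter.mp hk).2, (g k).one], mul_one]
    exact prod_congr rfl fun k hk => by simp [hk, Int.natCast_dvd_natCast]
  rw [e, prod_univ_sum]
  refine sum_congr rfl fun a ha => ?_
  have hm := mem_supp.mp ha
  rw [prod_mul_distrib, prod_ite_mem, univ_inter]
  congr 1
  unfold lv
  beta_reduce
  split_ifs with h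
  · rw [Nat.cast_prod]
    exact prod_congr rfl fun k hk => (if_pos ((dvd_prod_of_mem a hk).trans h)).symm
  · by_contra hc
    refine h (Int.natCast_dvd_natCast.mp ?_)
    rw [Nat.cast_prod]
    refine prod_dvd_of_coprime (fun i hi j hj hij => Nat.isCoprime_iff_coprime.mpr
      ((Nat.coprime_primes (hp i hi _ (hm i)) (hp j hj _ (hm j))).mpr fun e =>
        disjoint_left.mp (hd i hi j hj hij) (hm i) (e ▸ hm j))) fun i hi => ?_
    by_contra h'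
    exact hc (prod_eq_zero hi (if_neg fun e => h' (Int.natCast_dvd_natCast.mpr e))).symm

/-- Fair sampling by the sub-cube `D` on the level `c`. The class `X` consists of functions that are
in the hull on the pieces of a partition `γ` into intervals of length about `R`; the weight is
decreasing. -/
theorem fsC {A : Set (ℕ → ℂ)} (hA : At A) (h : CONV A) : ∃ C : ℕ, ∀ Q : ℝ, C ≤ Q →
    ∀ (ι : Type) [Fintype ι] [DecidableEq ι] (g : ι → Pr) (D : Finset ι) (β y Pm R : ℝ) (c : ℕ),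
    (∀ k ∈ D, ∀ p ∈ (g k).s, p.Prime ∧ (g k).w p * p ≤ β ∧ y ^ 2 ≤ p ∧ (p : ℝ) ≤ Pm) →
    (∀ k ∈ D, ∀ k' ∈ D, k ≠ k' → Disjoint (g k).s (g k').s) → 1 ≤ β →
    (Real.exp 2 * β ^ C * C.factorial) ^ D.card ≤ Q → Q ^ C ≤ y → 0 < c → c * Q ^ C ≤ R →
    ∀ (μ : Wt ℕ) (n0 n1 : ℕ), μ.s = Ico n0 n1 → (∀ a b, n0 ≤ a → a ≤ b → μ.w b ≤ μ.w a) →
    ∀ (γ : ℕ → ℕ) (X : Set (ℕ → ℂ)), Monotone γ → (∀ a b, (γ (a + b) : ℝ) ≤ γ a + (b / R + 1)) →
    (∀ Φ ∈ X, ∀ j, ∃ u ∈ hull A, ∀ n, γ n = j → Φ n = u n) →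
    FsC μ X c g D (20 / Q * mass μ c + 13 * (Pm ^ D.card * Q) ^ C * (c * μ.w n0)) := by
  obtain ⟨C, h⟩ := el_main h
  refine ⟨C + 1, fun Q hQ ι _ _ g D β y Pm R c h1 h2 h3 h4 h5 hc h7 μ n0 n1 hs h9
    γ X h10 h11 h12 φ hφ ψ hψ => ?_⟩
  have hQ1 : 1 ≤ Q := le_trans (by exact_mod_cast Nat.le_add_left 1 C) hQ
  have hc' : (0 : ℝ) < c := by exact_mod_cast hc
  have hP : Q ^ C ≤ Q ^ (C + 1) := pow_le_pow_right₀ hQ1 (Nat.le_succ C)
  let S : EL.Sys D := ⟨fun k => (g k).s, fun k => (g k).w, β, y, fun _ => Pm,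
    fun k p hp => (h1 k k.2 p hp).1, fun k k' e => h2 k k.2 k' k'.2 fun e' => e (Subtype.ext e'),
    fun k p _ => (g k).nn p, fun k => (g k).one, h3, fun k p hp => (h1 k k.2 p hp).2.1,
    (one_le_pow₀ hQ1).trans h5, fun k p hp => (h1 k k.2 p hp).2.2.1,
    fun k p hp => (h1 k k.2 p hp).2.2.2⟩
  have hPm : 1 ≤ Pm ^ D.card := by simpa [S, Sys.AA] using S.one_le_AA
  have hb : ∀ Φ ∈ X, ∀ n, ‖Φ n‖ ≤ 1 := fun Φ hΦ n => by
    obtain ⟨u, hu, e⟩ := h12 Φ hΦ (γ n)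
    rw [e n rfl]; exact hull_bd hA hu n
  have hle : ∀ n, n0 ⌈/⌉ c ≤ n → n0 ≤ c * n := fun n => (ceilDiv_le_iff_le_mul hc).mp
  have key := h Q (le_trans (by exact_mod_cast Nat.le_succ C) hQ) D S (R / c) (Pm ^ D.card * Q)
    (by rw [Fintype.card_coe]
        exact (pow_le_pow_left₀ (zero_le_one.trans (S.one_le_mo _)) (S.mo_mono (Nat.le_succ C)) _).trans
          h4)
    (hP.trans h5) (by rw [le_div_iff₀' hc']; exact le_trans (by gcongr) h7)
    (by simpa [S, Sys.AA] using le_mul_of_one_le_right (by positivity) hQ1)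
    (le_mul_of_one_le_left (by linarith) hPm) (fun n => γ (c * n)) (fun n => pc φ ψ (c * n))
    (fun a b e => h10 (Nat.mul_le_mul_left c e))
    (fun a b => by
      rw [mul_add]
      refine (h11 _ _).trans (le_of_eq ?_)
      push_cast
      rw [div_div_eq_mul_div, mul_comm (c : ℝ)])
    (fun n => norm_pc (hb φ hφ) (hb ψ hψ) _)
    (fun j => by
      obtain ⟨u, hu, e⟩ := h12 φ hφ j
      obtain ⟨v, hv, e'⟩ := h12 ψ hψ j
      exact ⟨_, hull_dil hA hu hc, _, hull_dil hA hv hc, fun n hn => by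
        simp only [pc, e _ hn, e' _ hn]⟩)
    (fun n => c * μ.w (c * n)) (n0 ⌈/⌉ c) (n1 ⌈/⌉ c) (fun n _ => mul_nonneg hc'.le (μ.nn _))
    (fun a b ha e => mul_le_mul_of_nonneg_left (h9 _ _ (hle a ha) (Nat.mul_le_mul_left c e)) hc'.le)
  have e1 : ∀ d, br μ (c * d) φ ψ = ∑ n ∈ Ico (n0 ⌈/⌉ c) (n1 ⌈/⌉ c),
      (c * μ.w (c * n) * (pc φ ψ (c * n)).re) * if d ∣ n then (d : ℝ) else 0 := by
    intro d
    have : μ.s.filter (fun N => c * d ∣ N) =
        ((Ico n0 n1).filter fun N => c ∣ N).filter fun N => c * d ∣ N := by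
      rw [hs, filter_filter]
      exact filter_congr fun N _ => ⟨fun e => ⟨(dvd_mul_right c d).trans e, e⟩, fun e => e.2⟩
    rw [br_eq, this, sum_filter, sum_level hc, mul_sum]
    refine sum_congr rfl fun n _ => ?_
    simp only [Nat.mul_dvd_mul_iff_left hc, pc]
    split_ifs
    · push_cast; ring
    · simp
  have e2 : Ew g (fun a => br μ (c * lv D a) φ ψ) - br μ c φ ψ =
      (∑ n ∈ Ico (n0 ⌈/⌉ c) (n1 ⌈/⌉ c),
        ((S.nu n - 1 : ℝ) : ℂ) * pc φ ψ (c * n) * (c * μ.w (c * n) : ℝ)).re := by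
    have e3 := e1 1
    rw [mul_one] at e3
    simp only [e3, e1, Ew, mul_sum]
    rw [sum_comm, ← sum_sub_distrib, Complex.re_sum]
    refine sum_congr rfl fun n _ => ?_
    have e4 := Ew_dvd g D (fun k hk p hp => (h1 k hk p hp).1) h2 n
    rw [← prod_coe_sort D] at e4
    change _ = S.nu n at e4
    rw [mul_right_comm _ (pc φ ψ (c * n)), ← Complex.ofReal_mul, Complex.re_ofReal_mul, ← e4, Ew]
    simp only [one_dvd, if_true, Nat.cast_one, sub_mul, sum_mul]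
    congr 1
    · exact sum_congr rfl fun _ _ => by ring
    · ring
  rw [e2]
  refine (Complex.abs_re_le_norm _).trans (key.trans ?_)
  rw [mass, hs, sum_level hc]
  have := μ.nn (c * (n0 ⌈/⌉ c))
  gcongr
  · exact one_le_mul_of_one_le_of_one_le hPm hQ1
  · omega
  · exact h9 _ _ le_rfl (hle _ le_rfl)

end Pool.Agent.P.MP_a14ce1_nt.Nil.EL
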