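import Mathlib

/-!
Exponential and logarithm of nilpotent elements, and the Campbell-Hausdorff closure theorem.
-/

open Finset Polynomial
open IsNilpotent hiding pow_succ

noncomputable section

namespace Pool.Agent.P.MP_a14ce1_nt.Nil

variable {A : Type*} [Ring A] [Algebra ℚ A]

/-- The commutator operator. -/
def adz (z : A) : Module.End ℚ A := LinearMap.mulLeft ℚ z - LinearMap.mulRight ℚ z

theorem adz_apply (z y : A) : adz z y = z * y - y * z := rfl

theorem adz_commute_right (z : A) : Commute (adz z) (LinearMap.mulRight ℚ z) :=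
  (LinearMap.commute_mulLeft_right z z).sub_left (Commute.refl _)

theorem isNilpotent_mulLeft {z : A} (h : IsNilpotent z) : IsNilpotent (LinearMap.mulLeft ℚ z) := by
  obtain ⟨k, hk⟩ := h
  exact ⟨k, by rw [LinearMap.pow_mulLeft, hk, LinearMap.mulLeft_zero_eq_zero]⟩

theorem isNilpotent_mulRight {z : A} (h : IsNilpotent z) :
    IsNilpotent (LinearMap.mulRight ℚ z) := by
  obtain ⟨k, hk⟩ := h
  exact ⟨k, by rw [LinearMap.pow_mulRight, hk, LinearMap.mulRight_zero_eq_zero]⟩

theorem isNilpotent_adz {z : A} (h : IsNilpotent z) : IsNilpotent (adz z) :=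
  (LinearMap.commute_mulLeft_right z z).isNilpotent_sub (isNilpotent_mulLeft h)
    (isNilpotent_mulRight h)

theorem pow_mul_eq (z y : A) (n : ℕ) :
    z ^ n * y = ∑ k ∈ range (n + 1), (n.choose k : ℚ) • ((adz z ^ k) y * z ^ (n - k)) := by
  have e : LinearMap.mulLeft ℚ z = adz z + LinearMap.mulRight ℚ z := by simp [adz]
  have h := LinearMap.congr_fun ((adz_commute_right z).add_pow' n) y
  rw [← e, LinearMap.pow_mulLeft, LinearMap.mulLeft_apply, LinearMap.sum_apply,
    Nat.sum_antidiagonal_eq_sum_range_succ_mk] at h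
  rw [h]
  refine sum_congr rfl fun k _ => ?_
  rw [((adz_commute_right z).pow_pow k (n - k)).eq, LinearMap.pow_mulRight, Nat.cast_smul_eq_nsmul]
  rfl

/-- `D` satisfies the Leibniz rule. -/
def Leib (D : A →ₗ[ℚ] A) : Prop := ∀ x y, D (x * y) = D x * y + x * D y

theorem Leib.one {D : A →ₗ[ℚ] A} (hD : Leib D) : D 1 = 0 := by
  have := hD 1 1
  simpa using this

theorem Leib.pow {D : A →ₗ[ℚ] A} (hD : Leib D) (z : A) (n : ℕ) :
    D (z ^ (n + 1)) = ∑ k ∈ range (n + 1),
      ((n + 1).choose (k + 1) : ℚ) • ((adz z ^ k) (D z) * z ^ (n - k)) := by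
  induction n with
  | zero => simp
  | succ n ih =>
    rw [pow_succ, hD, ih, pow_mul_eq z (D z) (n + 1), sum_mul]
    have e : ∑ k ∈ range (n + 1),
        (((n + 1).choose (k + 1) : ℚ) • ((adz z ^ k) (D z) * z ^ (n - k))) * z
        = ∑ k ∈ range (n + 1 + 1),
          ((n + 1).choose (k + 1) : ℚ) • ((adz z ^ k) (D z) * z ^ (n + 1 - k)) := by
      rw [sum_range_succ _ (n + 1), Nat.choose_succ_self, Nat.cast_zero, zero_smul, add_zero]
      refine sum_congr rfl fun k hk => ?_
      have : n + 1 - k = n - k + 1 := by have := mem_range.1 hk; omega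
      rw [smul_mul_assoc, mul_assoc, ← pow_succ, this]
    rw [e, ← sum_add_distrib]
    refine sum_congr rfl fun k _ => ?_
    rw [← add_smul, Nat.choose_succ_succ' (n + 1) k]
    push_cast
    rw [add_comm]

/-- The derivative of the exponential. -/
theorem Leib.exp {D : A →ₗ[ℚ] A} (hD : Leib D) {z : A} (hz : IsNilpotent z) :
    ∃ K, D (exp z) * exp (-z) =
      ∑ k ∈ range (K + 2), ((k + 1).factorial : ℚ)⁻¹ • (adz z ^ k) (D z) := by
  obtain ⟨m, hm⟩ := hz
  obtain ⟨K, hK⟩ := isNilpotent_adz ⟨m, hm⟩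
  refine ⟨K + m, ?_⟩
  have h1 : z ^ (K + m + 2 + 1) = 0 := pow_eq_zero_of_le (by omega) hm
  have key : D (IsNilpotent.exp z) =
      (∑ k ∈ range (K + m + 2), ((k + 1).factorial : ℚ)⁻¹ • (adz z ^ k) (D z))
        * IsNilpotent.exp z := by
    conv_lhs => rw [exp_eq_sum h1, map_sum, sum_range_succ']
    simp only [map_smul, pow_zero, hD.one, smul_zero, add_zero, hD.pow, smul_sum]
    have e : ∀ n ∈ range (K + m + 2), ∑ k ∈ range (n + 1), ((n + 1).factorial : ℚ)⁻¹ •
        ((n + 1).choose (k + 1) : ℚ) • ((adz z ^ k) (D z) * z ^ (n - k))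
        = ∑ k ∈ range (n + 1), (fun k j => (((k + 1).factorial : ℚ)⁻¹ • (adz z ^ k) (D z)) *
          (((j.factorial : ℚ)⁻¹ • z ^ j))) k (n - k) := by
      intro n _
      refine sum_congr rfl fun k hk => ?_
      have hk' : k + 1 ≤ n + 1 := mem_range.1 hk
      have h2 := Nat.choose_mul_factorial_mul_factorial hk'
      rw [Nat.add_sub_add_right] at h2
      simp only [smul_mul_assoc, mul_smul_comm, smul_smul]
      congr 1
      rw [← h2]
      have : ((n + 1).choose (k + 1) : ℚ) ≠ 0 := by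
        exact_mod_cast (Nat.choose_pos hk').ne'
      push_cast
      field_simp
    rw [sum_congr rfl e, sum_range_diag_flip (K + m + 2) (fun k j =>
      (((k + 1).factorial : ℚ)⁻¹ • (adz z ^ k) (D z)) * ((j.factorial : ℚ)⁻¹ • z ^ j)), sum_mul]
    refine sum_congr rfl fun k _ => ?_
    rw [← mul_sum]
    by_cases hk : K ≤ k
    · simp [pow_eq_zero_of_le hk hK]
    · rw [exp_eq_sum (k := K + m + 2 - k) (pow_eq_zero_of_le (by omega) hm)]
  rw [key, mul_assoc, exp_mul_exp_neg_self ⟨m, hm⟩, mul_one]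

theorem adz_pow_mem {U : Submodule ℚ A} {z y : A} (hU : ∀ u ∈ U, z * u - u * z ∈ U)
    (hy : y ∈ U) (k : ℕ) : (adz z ^ k) y ∈ U := by
  induction k with
  | zero => exact hy
  | succ k ih => rw [pow_succ', Module.End.mul_apply]; exact hU _ ih

theorem Leib.exp_mem {D : A →ₗ[ℚ] A} (hD : Leib D) {z : A} (hz : IsNilpotent z)
    {U : Submodule ℚ A} (hU : ∀ u ∈ U, z * u - u * z ∈ U) (h : z * D z - D z * z ∈ U) :
    D (IsNilpotent.exp z) * IsNilpotent.exp (-z) - D z ∈ U := by
  obtain ⟨K, hK⟩ := hD.exp hz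
  rw [hK, sum_range_succ']
  simp only [zero_add, Nat.factorial_one, Nat.cast_one, inv_one, pow_zero, one_smul,
    Module.End.one_apply, add_sub_cancel_right]
  exact U.sum_mem fun k _ => U.smul_mem _ (by rw [pow_succ]; exact adz_pow_mem hU h k)

theorem Leib.exp_mem2 {D : A →ₗ[ℚ] A} (hD : Leib D) {z : A} (hz : IsNilpotent z)
    {U : Submodule ℚ A} (hU : ∀ u ∈ U, z * u - u * z ∈ U) (h : adz z (adz z (D z)) ∈ U) :
    D (IsNilpotent.exp z) * IsNilpotent.exp (-z) - D z - (1 / 2 : ℚ) • adz z (D z) ∈ U := by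
  obtain ⟨K, hK⟩ := hD.exp hz
  rw [hK, sum_range_succ', sum_range_succ']
  have e : (((0 + 1 + 1).factorial : ℕ) : ℚ)⁻¹ = 1 / 2 := by norm_num [Nat.factorial]
  rw [e]
  simp only [zero_add, Nat.factorial_one, Nat.cast_one, inv_one, pow_zero, one_smul,
    Module.End.one_apply, add_sub_cancel_right, pow_one]
  exact U.sum_mem fun k _ => U.smul_mem _ (by
    rw [pow_succ, pow_succ]; exact adz_pow_mem hU h k)

theorem Leib.exp_of_commute {D : A →ₗ[ℚ] A} (hD : Leib D) {z : A} (hz : IsNilpotent z)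
    (h : Commute z (D z)) : D (IsNilpotent.exp z) = D z * IsNilpotent.exp z := by
  have := hD.exp_mem hz (U := ⊥) (by simp) (by simp [h.eq])
  rw [Submodule.mem_bot, sub_eq_zero] at this
  rw [← this, mul_assoc, exp_neg_mul_exp_self hz, mul_one]

/-! Conjugation. -/

theorem exp_mul_mul_exp_neg {x : A} (hx : IsNilpotent x) (y : A) :
    exp x * y * exp (-x) = exp (adz x) y := by
  obtain ⟨k, hk⟩ := hx
  have hl := isNilpotent_mulLeft ⟨k, hk⟩
  have hr := isNilpotent_mulRight (IsNilpotent.neg ⟨k, hk⟩)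
  have e : adz x = LinearMap.mulLeft ℚ x + LinearMap.mulRight ℚ (-x) := by
    ext y; simp [adz, sub_eq_add_neg]
  have hk' : (-x) ^ k = 0 := by rw [neg_pow, hk, mul_zero]
  have e1 : ∀ y, exp (LinearMap.mulLeft ℚ x) y = exp x * y := fun y => by
    rw [exp_eq_sum hk, exp_eq_sum (k := k)
      (by rw [LinearMap.pow_mulLeft, hk, LinearMap.mulLeft_zero_eq_zero])]
    simp [sum_mul]
  have e2 : ∀ y, exp (LinearMap.mulRight ℚ (-x)) y = y * exp (-x) := fun y => by
    rw [exp_eq_sum hk', exp_eq_sum (k := k)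
      (by rw [LinearMap.pow_mulRight, hk', LinearMap.mulRight_zero_eq_zero])]
    simp [mul_sum]
  rw [e, exp_add_of_commute (LinearMap.commute_mulLeft_right x (-x)) hl hr, Module.End.mul_apply,
    e1, e2, mul_assoc]

theorem conj_sub_mem {x y : A} (hx : IsNilpotent x) {U : Submodule ℚ A}
    (hU : ∀ u ∈ U, x * u - u * x ∈ U) (h : x * y - y * x ∈ U) :
    exp x * y * exp (-x) - y ∈ U := by
  obtain ⟨K, hK⟩ := isNilpotent_adz hx
  rw [exp_mul_mul_exp_neg hx, exp_eq_sum (k := K + 1) (pow_eq_zero_of_le (by omega) hK),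
    sum_range_succ']
  simp only [Nat.factorial_zero, Nat.cast_one, inv_one, pow_zero, one_smul, LinearMap.add_apply,
    Module.End.one_apply, add_sub_cancel_right, LinearMap.sum_apply, LinearMap.smul_apply]
  exact U.sum_mem fun k _ => U.smul_mem _ (by rw [pow_succ]; exact adz_pow_mem hU h k)

theorem conj_mem {x y : A} (hx : IsNilpotent x) {U : Submodule ℚ A}
    (hU : ∀ u ∈ U, x * u - u * x ∈ U) (h : y ∈ U) : exp x * y * exp (-x) ∈ U := by
  have := U.add_mem (conj_sub_mem hx hU (hU y h)) h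
  rwa [sub_add_cancel] at this

theorem conj_sub_mem2 {x y : A} (hx : IsNilpotent x) {U : Submodule ℚ A}
    (hU : ∀ u ∈ U, x * u - u * x ∈ U) (h : adz x (adz x y) ∈ U) :
    exp x * y * exp (-x) - y - (x * y - y * x) ∈ U := by
  obtain ⟨K, hK⟩ := isNilpotent_adz hx
  rw [exp_mul_mul_exp_neg hx, exp_eq_sum (k := K + 1 + 1) (pow_eq_zero_of_le (by omega) hK),
    sum_range_succ', sum_range_succ', ← adz_apply]
  simp only [Nat.factorial_zero, Nat.cast_one, inv_one, pow_zero, one_smul, LinearMap.add_apply,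
    Module.End.one_apply, add_sub_cancel_right, LinearMap.sum_apply, LinearMap.smul_apply,
    zero_add, Nat.factorial_one, pow_one]
  exact U.sum_mem fun k _ => U.smul_mem _ (by
    rw [pow_succ, pow_succ]; exact adz_pow_mem hU h k)

theorem exp_conj (g : Aˣ) {y : A} (hy : IsNilpotent y) :
    exp ((g : A) * y * (g⁻¹ : Aˣ)) = g * exp y * (g⁻¹ : Aˣ) :=
  exp_smul (ConjAct.toConjAct g) hy

/-! The logarithm. -/

/-- The logarithm of a unipotent element. -/
def log (u : A) : A :=
  ∑ k ∈ range (nilpotencyClass (u - 1)), ((-1) ^ k / (k + 1) : ℚ) • (u - 1) ^ (k + 1)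

theorem log_eq_sum {u : A} {m : ℕ} (h : (u - 1) ^ (m + 1) = 0) :
    log u = ∑ k ∈ range m, ((-1) ^ k / (k + 1) : ℚ) • (u - 1) ^ (k + 1) := by
  have hn : IsNilpotent (u - 1) := ⟨_, h⟩
  have f : ∀ {a b : ℕ}, (u - 1) ^ (a + 1) = 0 → a ≤ b →
      ∑ k ∈ range a, ((-1) ^ k / (k + 1) : ℚ) • (u - 1) ^ (k + 1) =
      ∑ k ∈ range b, ((-1) ^ k / (k + 1) : ℚ) • (u - 1) ^ (k + 1) := fun {a b} ha hab =>
    sum_subset (range_mono hab) fun k _ hk => by
      rw [pow_eq_zero_of_le (by simp at hk; omega) ha, smul_zero]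
  unfold log
  rw [f (pow_eq_zero_of_le (Nat.le_succ _) (pow_nilpotencyClass hn)) (le_max_right m _),
    f h (le_max_left _ _)]

@[simp] theorem log_one : log (1 : A) = 0 := by
  rw [log_eq_sum (m := 0) (by simp)]; simp

theorem map_log {B F : Type*} [Ring B] [Algebra ℚ B] [FunLike F A B] [RingHomClass F A B]
    {u : A} (hu : IsNilpotent (u - 1)) (f : F) : f (log u) = log (f u) := by
  obtain ⟨k, hk⟩ := hu
  have h1 : (u - 1) ^ (k + 1) = 0 := pow_eq_zero_of_le (Nat.le_succ k) hk
  have h2 : (f u - 1) ^ (k + 1) = 0 := by rw [← map_one f, ← map_sub, ← map_pow, h1, map_zero]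
  simp [log_eq_sum h1, log_eq_sum h2, map_rat_smul]

theorem commute_log {a u : A} (h : Commute a u) : Commute a (log u) :=
  Commute.sum_right _ _ _ fun _ _ => ((h.sub_right (Commute.one_right a)).pow_right _).smul_right _

theorem commute_exp {a z : A} (h : Commute a z) : Commute a (exp z) :=
  Commute.sum_right _ _ _ fun _ _ => (h.pow_right _).smul_right _

theorem isNilpotent_log {u : A} (hu : IsNilpotent (u - 1)) : IsNilpotent (log u) := by
  refine Commute.isNilpotent_sum (fun k _ => (hu.pow_succ k).smul _) fun i j _ _ => ?_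
  exact (((Commute.refl _).pow_pow _ _).smul_left _).smul_right _

/-- The derivative as a rational linear map. -/
def dX : A[X] →ₗ[ℚ] A[X] where
  toFun := derivative
  map_add' := map_add _
  map_smul' := derivative_smul

theorem leib_dX : Leib (dX (A := A)) := fun _ _ => derivative_mul

theorem eq_zero_of_dX {U : Submodule ℚ A} {p : A[X]} (h0 : p.coeff 0 ∈ U)
    (h : ∀ n, (dX p).coeff n ∈ U) (n : ℕ) : p.coeff n ∈ U := by
  cases n with
  | zero => exact h0
  | succ n =>
    have h1 := U.smul_mem ((n + 1 : ℚ)⁻¹) (h n)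
    have e : (dX p).coeff n = (n + 1 : ℚ) • p.coeff (n + 1) := by
      change (derivative p).coeff n = _
      rw [coeff_derivative, add_smul, one_smul, mul_add, mul_one, Nat.cast_smul_eq_nsmul,
        nsmul_eq_mul']
    rwa [e, smul_smul, inv_mul_cancel₀ (by positivity), one_smul] at h1

/-- Evaluation at one. -/
def ev1 : A[X] →+* A := eval₂RingHom' (RingHom.id A) 1 fun _ => Commute.one_right _

omit [Algebra ℚ A] in
theorem ev1_C (a : A) : ev1 (C a) = a := by simp [ev1, eval₂RingHom']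

omit [Algebra ℚ A] in
theorem ev1_X : ev1 (X : A[X]) = 1 := by simp [ev1, eval₂RingHom']

theorem ev1_mem {U : Submodule ℚ A} {p : A[X]} (h : ∀ n, p.coeff n ∈ U) : ev1 p ∈ U := by
  change eval₂ (RingHom.id A) 1 p ∈ U
  rw [eval₂_eq_sum]
  exact U.sum_mem fun n _ => by simpa using h n

theorem exp_log {u : A} (hu : IsNilpotent (u - 1)) : exp (log u) = u := by
  obtain ⟨n, rfl⟩ : ∃ n, u = 1 + n := ⟨u - 1, by abel⟩
  rw [add_sub_cancel_left] at hu
  obtain ⟨m, hm⟩ := hu
  set a : A[X] := C n * X with ha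
  have hpow : ∀ k, a ^ k = C (n ^ k) * X ^ k := fun k => by
    rw [ha, (commute_X (C n)).symm.mul_pow, C_pow]
  have am : a ^ m = 0 := by rw [hpow, hm, C_0, zero_mul]
  have hs : (1 + a - 1) ^ (m + 1) = 0 := by
    rw [add_sub_cancel_left, pow_succ, am, zero_mul]
  have hn : IsNilpotent (log (1 + a)) := isNilpotent_log ⟨_, hs⟩
  have ca : Commute (C n) a := (Commute.refl _).mul_right (commute_X _).symm
  have dl : dX (log (1 + a)) = C n * ∑ k ∈ range m, (-a) ^ k := by
    rw [log_eq_sum hs, add_sub_cancel_left, map_sum, mul_sum]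
    refine sum_congr rfl fun k _ => ?_
    have : dX (a ^ (k + 1)) = ((k + 1 : ℕ) : ℚ) • (C n * a ^ k) := by
      change derivative _ = _
      rw [hpow, hpow, derivative_C_mul_X_pow, Nat.add_sub_cancel, Nat.cast_smul_eq_nsmul,
        ← mul_assoc, ← C_mul, ← pow_succ', C_mul, nsmul_eq_mul, ← mul_assoc, C_eq_natCast,
        (Nat.cast_commute (k + 1) _).eq]
    rw [map_smul, this, smul_smul, neg_pow a]
    push_cast
    rw [div_mul_cancel₀ _ (by positivity)]
    rcases Nat.even_or_odd k with h | h <;> simp [h.neg_one_pow]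
  have geo : (1 + a) * ∑ k ∈ range m, (-a) ^ k = 1 := by
    have := mul_neg_geom_sum (-a) m
    rwa [sub_neg_eq_add, neg_pow a m, am, mul_zero, sub_zero] at this
  have cl : Commute (-log (1 + a)) (dX (-log (1 + a))) := by
    rw [map_neg, dl]
    refine (Commute.symm (commute_log ?_)).neg_left.neg_right
    refine ((Commute.one_right _).add_right ca).mul_left (Commute.sum_left _ _ _ fun k _ => ?_)
    exact (((Commute.one_right _).add_right (Commute.refl a)).neg_left).pow_left _
  have d0 : dX ((1 + a) * exp (-log (1 + a)) - 1) = 0 := by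
    have da : dX (1 + a) = C n := by
      change derivative _ = _
      simp [ha]
    rw [map_sub, leib_dX.one, leib_dX, leib_dX.exp_of_commute hn.neg cl, da, map_neg, dl,
      ← mul_assoc, mul_neg, ← mul_assoc, ← ((Commute.one_right _).add_right ca).eq, mul_assoc (C n),
      geo]
    simp
  have c0 : ((1 + a) * exp (-log (1 + a)) - 1).coeff 0 = 0 := by
    rw [← constantCoeff_apply, map_sub, map_mul, map_exp hn.neg, map_neg, map_log ⟨_, hs⟩]
    simp [ha]
  have z : ev1 ((1 + a) * exp (-log (1 + a)) - 1) ∈ (⊥ : Submodule ℚ A) :=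
    ev1_mem (eq_zero_of_dX c0 fun n => by simp [d0])
  have ea : ev1 (1 + a) = 1 + n := by rw [map_add, map_one, ha, map_mul, ev1_C, ev1_X, mul_one]
  rw [Submodule.mem_bot, map_sub, map_mul, map_exp hn.neg, map_neg, map_log ⟨_, hs⟩, ea, map_one,
    sub_eq_zero] at z
  have hl : IsNilpotent (log (1 + n)) := isNilpotent_log ⟨m, by rwa [add_sub_cancel_left]⟩
  calc exp (log (1 + n)) = (1 + n) * exp (-log (1 + n)) * exp (log (1 + n)) := by rw [z, one_mul]
    _ = 1 + n := by rw [mul_assoc, exp_neg_mul_exp_self hl, mul_one]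

theorem eq_zero_of_exp_eq_one {c : A} (hc : IsNilpotent c) (h : exp c = 1) : c = 0 := by
  obtain ⟨k, hk⟩ := hc
  rw [exp_eq_sum (k := k + 1 + 1) (pow_eq_zero_of_le (by omega) hk), sum_range_succ',
    sum_range_succ'] at h
  set w := ∑ i ∈ range k, ((i + 1 + 1).factorial : ℚ)⁻¹ • c ^ (i + 1) with hw
  have hwn : IsNilpotent w :=
    Commute.isNilpotent_sum (fun i _ => (IsNilpotent.pow_succ i ⟨k, hk⟩).smul _) fun i j _ _ =>
      (((Commute.refl _).pow_pow _ _).smul_left _).smul_right _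
  have e : (1 + w) * c = 0 := by
    rw [add_mul, one_mul, hw, sum_mul]
    simp only [smul_mul_assoc, ← pow_succ]
    simpa [add_comm] using h
  exact (hwn.isUnit_one_add.mul_right_eq_zero).1 e

theorem log_exp {a : A} (ha : IsNilpotent a) : log (exp a) = a := by
  have h1 := isNilpotent_exp_sub_one ha
  have h2 := isNilpotent_log h1
  have c : Commute a (log (exp a)) := commute_log (commute_exp (Commute.refl a))
  have h3 : exp (a + -log (exp a)) = 1 := by
    rw [exp_add_of_commute c.neg_right ha h2.neg]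
    nth_rewrite 1 [← exp_log h1]
    exact exp_mul_exp_neg_self h2
  have := eq_zero_of_exp_eq_one (c.neg_right.isNilpotent_add ha h2.neg) h3
  exact (add_neg_eq_zero.1 this).symm

theorem exp_inj {a b : A} (ha : IsNilpotent a) (hb : IsNilpotent b) (h : exp a = exp b) :
    a = b := by rw [← log_exp ha, h, log_exp hb]

/-! The Campbell-Hausdorff theorem. -/

/-- A multiplicative filtration that ends in zero. -/
structure Filt (F : ℕ → Submodule ℚ A) : Prop where
  anti : ∀ i, F (i + 1) ≤ F i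
  mul : ∀ i j, ∀ a ∈ F i, ∀ b ∈ F j, a * b ∈ F (i + j)
  fin : ∃ d, F d = ⊥

namespace Filt

variable {F : ℕ → Submodule ℚ A}

theorem le (hF : Filt F) {i j : ℕ} (h : i ≤ j) : F j ≤ F i := antitone_nat_of_succ_le hF.anti h

theorem pow_mem (hF : Filt F) {a : A} (ha : a ∈ F 1) (k : ℕ) : a ^ (k + 1) ∈ F (k + 1) := by
  induction k with
  | zero => simpa using ha
  | succ k ih => rw [pow_succ]; exact hF.mul _ _ _ ih _ ha

theorem nil (hF : Filt F) {a : A} (ha : a ∈ F 1) : IsNilpotent a := by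
  obtain ⟨d, hd⟩ := hF.fin
  have := hF.le (Nat.le_succ d) (hF.pow_mem ha d)
  rw [hd] at this
  exact ⟨d + 1, this⟩

theorem exp_sub_one_mem (hF : Filt F) {a : A} (ha : a ∈ F 1) : exp a - 1 ∈ F 1 := by
  obtain ⟨k, hk⟩ := hF.nil ha
  rw [exp_eq_sum (k := k + 1) (pow_eq_zero_of_le (by omega) hk), sum_range_succ']
  simp only [Nat.factorial_zero, Nat.cast_one, inv_one, pow_zero, one_smul, add_sub_cancel_right]
  exact Submodule.sum_mem _ fun i _ => Submodule.smul_mem _ _
    (hF.le (by omega) (hF.pow_mem ha i))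

theorem log_mem (hF : Filt F) {u : A} (hu : u - 1 ∈ F 1) : log u ∈ F 1 :=
  Submodule.sum_mem _ fun i _ => Submodule.smul_mem _ _ (hF.le (by omega) (hF.pow_mem hu i))

theorem mul_sub_one_mem (hF : Filt F) {u v : A} (hu : u - 1 ∈ F 1) (hv : v - 1 ∈ F 1) :
    u * v - 1 ∈ F 1 := by
  have e : u * v - 1 = (u - 1) * (v - 1) + (u - 1) + (v - 1) := by noncomm_ring
  rw [e]
  exact add_mem (add_mem (hF.le (by omega) (hF.mul 1 1 _ hu _ hv)) hu) hv

theorem exp_log_mul (hF : Filt F) {x y : A} (hx : x ∈ F 1) (hy : y ∈ F 1) :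
    exp (log (exp x * exp y)) = exp x * exp y :=
  exp_log (hF.nil (hF.mul_sub_one_mem (hF.exp_sub_one_mem hx) (hF.exp_sub_one_mem hy)))

end Filt

/-- Polynomials with coefficients in a submodule. -/
def cf (U : Submodule ℚ A) : Submodule ℚ A[X] where
  carrier := {p | ∀ n, p.coeff n ∈ U}
  add_mem' hp hq n := by rw [coeff_add]; exact U.add_mem (hp n) (hq n)
  zero_mem' n := by simp
  smul_mem' c p hp n := by rw [coeff_smul]; exact U.smul_mem c (hp n)

theorem cf_mono {U V : Submodule ℚ A} (h : U ≤ V) : cf U ≤ cf V := fun _ hp n => h (hp n)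

theorem C_mem_cf {U : Submodule ℚ A} {a : A} (h : a ∈ U) : C a ∈ cf U := fun n => by
  rw [coeff_C]; split_ifs <;> simp [h]

theorem C_mul_X_mem_cf {U : Submodule ℚ A} {a : A} (h : a ∈ U) : C a * X ∈ cf U := fun n => by
  rw [coeff_C_mul_X]; split_ifs <;> simp [h]

theorem dX_mem_cf {U : Submodule ℚ A} {p : A[X]} (h : p ∈ cf U) : dX p ∈ cf U := fun n => by
  change (derivative p).coeff n ∈ U
  rw [coeff_derivative, ← Nat.cast_succ, ← nsmul_eq_mul']
  exact nsmul_mem (h _) _

theorem br_mem_cf {S T U : Submodule ℚ A} (h : ∀ a ∈ S, ∀ b ∈ T, a * b - b * a ∈ U)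
    {p q : A[X]} (hp : p ∈ cf S) (hq : q ∈ cf T) : p * q - q * p ∈ cf U := fun n => by
  rw [coeff_sub, coeff_mul, coeff_mul, ← Finset.Nat.sum_antidiagonal_swap
    (f := fun x => q.coeff x.1 * p.coeff x.2), ← sum_sub_distrib]
  exact U.sum_mem fun x _ => h _ (hp _) _ (hq _)

theorem Filt.cf {F : ℕ → Submodule ℚ A} (hF : Filt F) : Filt fun i => cf (F i) where
  anti i := cf_mono (hF.anti i)
  mul i j p hp q hq n := by
    rw [coeff_mul]
    exact Submodule.sum_mem _ fun x _ => hF.mul i j _ (hp _) _ (hq _)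
  fin := by
    obtain ⟨d, hd⟩ := hF.fin
    refine ⟨d, (Submodule.eq_bot_iff _).2 fun p hp => Polynomial.ext fun n => ?_⟩
    have := hp n
    rw [hd] at this
    simpa using this

/-- The path `log (exp (t x) * exp y)`. -/
def path (x y : A) : A[X] := log (exp (C x * X) * exp (C y))

section

variable {F : ℕ → Submodule ℚ A} (hF : Filt F) {x y : A} (hx : x ∈ F 1) (hy : y ∈ F 1)
include hF hx hy

theorem path_unip : IsNilpotent (exp (C x * X) * exp (C y) - 1) :=
  hF.cf.nil (hF.cf.mul_sub_one_mem (hF.cf.exp_sub_one_mem (C_mul_X_mem_cf hx))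
    (hF.cf.exp_sub_one_mem (C_mem_cf hy)))

theorem path_mem : path x y ∈ cf (F 1) :=
  hF.cf.log_mem (hF.cf.mul_sub_one_mem (hF.cf.exp_sub_one_mem (C_mul_X_mem_cf hx))
    (hF.cf.exp_sub_one_mem (C_mem_cf hy)))

theorem path_zero : (path x y).coeff 0 = y := by
  rw [← constantCoeff_apply, path, map_log (path_unip hF hx hy), map_mul,
    map_exp (hF.cf.nil (C_mul_X_mem_cf hx)), map_exp (hF.cf.nil (C_mem_cf hy))]
  simp [log_exp (hF.nil hy)]

theorem path_one : ev1 (path x y) = log (exp x * exp y) := by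
  rw [path, map_log (path_unip hF hx hy), map_mul,
    map_exp (hF.cf.nil (C_mul_X_mem_cf hx)), map_exp (hF.cf.nil (C_mem_cf hy)), map_mul, ev1_C,
    ev1_C, ev1_X, mul_one]

theorem path_ode : dX (exp (path x y)) * exp (-path x y) = C x := by
  have n1 := hF.cf.nil (C_mul_X_mem_cf hx)
  have n2 := hF.cf.nil (C_mem_cf hy)
  have d1 : dX (C x * X : A[X]) = C x := by change derivative _ = _; simp
  have d2 : dX (C y : A[X]) = 0 := derivative_C
  have e : exp (path x y) = exp (C x * X) * exp (C y) := exp_log (path_unip hF hx hy)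
  have d3 : dX (exp (path x y)) = C x * exp (path x y) := by
    rw [e, leib_dX, leib_dX.exp_of_commute n1 (by
        rw [d1]; exact (Commute.refl _).mul_left (commute_X _)),
      leib_dX.exp_of_commute n2 (by rw [d2]; exact Commute.zero_right _), d1, d2]
    simp [mul_assoc]
  rw [d3, mul_assoc, exp_mul_exp_neg_self (hF.cf.nil (path_mem hF hx hy)), mul_one]

end

theorem br_sup {F : ℕ → Submodule ℚ A} (hF : Filt F) {L J : Submodule ℚ A} (hL : L ≤ F 1)
    (hJ : J ≤ L) (h : ∀ a ∈ L, ∀ b ∈ J, a * b - b * a ∈ J) (i : ℕ) :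
    ∀ a ∈ L ⊔ F (i + 1), ∀ b ∈ J ⊔ F (i + 1), a * b - b * a ∈ J ⊔ F (i + 1 + 1) := by
  intro a ha b hb
  obtain ⟨l, hl, f, hf, rfl⟩ := Submodule.mem_sup.1 ha
  obtain ⟨j, hj, g, hg, rfl⟩ := Submodule.mem_sup.1 hb
  have k : ∀ u ∈ F 1, ∀ v ∈ F (i + 1), u * v - v * u ∈ F (i + 1 + 1) := fun u hu v hv =>
    sub_mem (by rw [add_comm (i + 1)]; exact hF.mul _ _ _ hu _ hv) (hF.mul _ _ _ hv _ hu)
  have e : (l + f) * (j + g) - (j + g) * (l + f)
      = (l * j - j * l) + (((l + f) * g - g * (l + f)) - (j * f - f * j)) := by noncomm_ring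
  rw [e]
  exact Submodule.add_mem_sup (h l hl j hj) (sub_mem
    (k _ (add_mem (hL hl) (hF.le (by omega) hf)) _ hg) (k _ (hL (hJ hj)) _ hf))

theorem path_sub_mem {F : ℕ → Submodule ℚ A} (hF : Filt F) {L J : Submodule ℚ A} (hL : L ≤ F 1)
    (hJ : J ≤ L) (h : ∀ a ∈ L, ∀ b ∈ J, a * b - b * a ∈ J) {x y : A} (hx : x ∈ L) (hy : y ∈ L)
    (hxy : x * y - y * x ∈ J) : path x y - C x * X - C y ∈ cf J := by
  have key : ∀ i, path x y - C x * X - C y ∈ cf (J ⊔ F (i + 1)) := by
    intro i
    induction i with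
    | zero =>
      exact cf_mono le_sup_right (sub_mem (sub_mem (path_mem hF (hL hx) (hL hy))
        (C_mul_X_mem_cf (hL hx))) (C_mem_cf (hL hy)))
    | succ i ih =>
      set w := path x y - C x * X - C y with hw
      have ez : path x y = C x * X + C y + w := by rw [hw]; abel
      have dz : dX (path x y) = C x + dX w := by
        conv_lhs => rw [ez]
        rw [map_add]
        congr 1
        change derivative _ = _
        simp
      have zm : path x y ∈ cf (L ⊔ F (i + 1)) := by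
        rw [ez]
        exact add_mem (cf_mono le_sup_left (add_mem (C_mul_X_mem_cf hx) (C_mem_cf hy)))
          (cf_mono (sup_le_sup_right hJ _) ih)
      have B := fun p q hp hq => br_mem_cf (p := p) (q := q) (br_sup hF hL hJ h i) hp hq
      have m := leib_dX.exp_mem (hF.cf.nil (path_mem hF (hL hx) (hL hy)))
        (U := cf (J ⊔ F (i + 1 + 1)))
        (fun u hu => B _ _ zm (cf_mono (sup_le_sup_left (hF.anti _) _) hu)) (by
          have e : path x y * dX (path x y) - dX (path x y) * path x y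
              = (path x y * dX w - dX w * path x y) - (C x * w - w * C x)
                - C (x * y - y * x) := by
            have c : C x * X * C x = C x * (C x * X) := by
              rw [mul_assoc, X_mul_C]
            rw [dz, C_sub, C_mul, C_mul]
            generalize dX w = v
            rw [ez]
            simp only [add_mul, mul_add, c]
            abel
          rw [e]
          exact sub_mem (sub_mem (B _ _ zm (dX_mem_cf ih))
            (B _ _ (C_mem_cf (Submodule.mem_sup_left hx)) ih))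
            (C_mem_cf (Submodule.mem_sup_left hxy)))
      rw [path_ode hF (hL hx) (hL hy), dz, sub_add_cancel_left, neg_mem_iff] at m
      refine eq_zero_of_dX ?_ m
      simp [hw, path_zero hF (hL hx) (hL hy)]
  obtain ⟨d, hd⟩ := hF.fin
  refine cf_mono (sup_le le_rfl ((hF.anti d).trans ?_)) (key d)
  rw [hd]
  exact bot_le

/-- First order Campbell-Hausdorff: `J` is an ideal for `L` that contains the commutator. -/
theorem bch {F : ℕ → Submodule ℚ A} (hF : Filt F) {L J : Submodule ℚ A} (hL : L ≤ F 1)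
    (hJ : J ≤ L) (h : ∀ a ∈ L, ∀ b ∈ J, a * b - b * a ∈ J) {x y : A} (hx : x ∈ L) (hy : y ∈ L)
    (hxy : x * y - y * x ∈ J) : log (exp x * exp y) - x - y ∈ J := by
  have := ev1_mem (path_sub_mem hF hL hJ h hx hy hxy)
  rwa [map_sub, map_sub, path_one hF (hL hx) (hL hy), map_mul, ev1_C, ev1_C, ev1_X,
    mul_one] at this

/-- Closure: the logarithm of a product stays in a Lie subalgebra. -/
theorem bch_mem {F : ℕ → Submodule ℚ A} (hF : Filt F) {L : Submodule ℚ A} (hL : L ≤ F 1)
    (h : ∀ a ∈ L, ∀ b ∈ L, a * b - b * a ∈ L) {x y : A} (hx : x ∈ L) (hy : y ∈ L) :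
    log (exp x * exp y) ∈ L := by
  have := add_mem (add_mem (bch hF hL le_rfl h hx hy (h x hx y hy)) hy) hx
  rwa [sub_add_cancel, sub_add_cancel] at this

/-- Second order Campbell-Hausdorff. -/
theorem bch2 {F : ℕ → Submodule ℚ A} (hF : Filt F) {L J J' : Submodule ℚ A} (hL : L ≤ F 1)
    (hJ : J ≤ L) (hJ' : J' ≤ J) (h : ∀ a ∈ L, ∀ b ∈ J, a * b - b * a ∈ J') {x y : A}
    (hx : x ∈ L) (hy : y ∈ L) (hxy : x * y - y * x ∈ J) :
    log (exp x * exp y) - x - y - (1 / 2 : ℚ) • (x * y - y * x) ∈ J' := by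
  have hw := path_sub_mem hF hL hJ (fun a ha b hb => hJ' (h a ha b hb)) hx hy hxy
  set w := path x y - C x * X - C y with hw'
  have ez : path x y = C x * X + C y + w := by rw [hw']; abel
  have dz : dX (path x y) = C x + dX w := by
    conv_lhs => rw [ez]
    rw [map_add]
    congr 1
    change derivative _ = _
    simp
  have zm : path x y ∈ cf L := by
    rw [ez]
    exact add_mem (add_mem (C_mul_X_mem_cf hx) (C_mem_cf hy)) (cf_mono hJ hw)
  have B := fun p q hp hq => br_mem_cf (p := p) (q := q) h hp hq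
  have e : adz (path x y) (dX (path x y))
      = (path x y * dX w - dX w * path x y) - (C x * w - w * C x) - C (x * y - y * x) := by
    have c : C x * X * C x = C x * (C x * X) := by
      rw [mul_assoc, X_mul_C]
    rw [adz_apply, dz, C_sub, C_mul, C_mul]
    generalize dX w = v
    rw [ez]
    simp only [add_mul, mul_add, c]
    abel
  have m1 : (path x y * dX w - dX w * path x y) - (C x * w - w * C x) ∈ cf J' :=
    sub_mem (B _ _ zm (dX_mem_cf hw)) (B _ _ (C_mem_cf hx) hw)
  have m := leib_dX.exp_mem2 (hF.cf.nil (path_mem hF (hL hx) (hL hy))) (U := cf J')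
    (fun u hu => B _ _ zm (cf_mono hJ' hu)) (by
      rw [adz_apply, e]
      exact B _ _ zm (sub_mem (cf_mono hJ' m1) (C_mem_cf hxy)))
  rw [path_ode hF (hL hx) (hL hy), e, dz] at m
  have m2 : dX (w - (1 / 2 : ℚ) • (C (x * y - y * x) * X)) ∈ cf J' := by
    have d1 : dX (C (x * y - y * x) * X : A[X]) = C (x * y - y * x) := by
      change derivative _ = _
      rw [derivative_C_mul_X]
    have := neg_mem (add_mem m (Submodule.smul_mem _ (1 / 2 : ℚ) m1))
    rw [map_sub, map_smul, d1]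
    convert this using 1
    rw [smul_sub (1 / 2 : ℚ) _ (C _)]
    abel
  have m3 := ev1_mem (eq_zero_of_dX (by simp [hw', path_zero hF (hL hx) (hL hy)]) m2)
  rwa [map_sub, map_rat_smul, hw', map_sub, map_sub, path_one hF (hL hx) (hL hy), map_mul,
    map_mul, ev1_C, ev1_C, ev1_C, ev1_X, mul_one, mul_one] at m3

/-- Second order Campbell-Hausdorff modulo an ideal containing the triple commutators. -/
theorem bch2' {F : ℕ → Submodule ℚ A} (hF : Filt F) {L J : Submodule ℚ A} (hL : L ≤ F 1)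
    (hJ : J ≤ L) (h : ∀ a ∈ L, ∀ b ∈ J, a * b - b * a ∈ J) {x y : A}
    (hx : x ∈ L) (hy : y ∈ L) (hxy : x * y - y * x ∈ L)
    (h1 : x * (x * y - y * x) - (x * y - y * x) * x ∈ J)
    (h2 : y * (x * y - y * x) - (x * y - y * x) * y ∈ J) :
    log (exp x * exp y) - x - y - (1 / 2 : ℚ) • (x * y - y * x) ∈ J := by
  set c := x * y - y * x with hc
  let L0 : Submodule ℚ A := L ⊓ J.comap (-adz c)
  have mem : ∀ a, a ∈ L0 ↔ a ∈ L ∧ a * c - c * a ∈ J := fun a => by
    simp only [L0, Submodule.mem_inf, Submodule.mem_comap, LinearMap.neg_apply, adz_apply, neg_sub]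
  refine bch2 hF (L := L0) (J := J ⊔ Submodule.span ℚ {c}) (inf_le_left.trans hL)
    (sup_le (fun b hb => (mem b).2 ⟨hJ hb, ?_⟩) ?_) le_sup_left (fun a ha b hb => ?_)
    ((mem x).2 ⟨hx, h1⟩) ((mem y).2 ⟨hy, h2⟩)
    (Submodule.mem_sup_right (Submodule.mem_span_singleton_self c))
  · have := neg_mem (h c hxy b hb)
    rwa [neg_sub] at this
  · exact (Submodule.span_singleton_le_iff_mem _ _).2 ((mem c).2 ⟨hxy, by simp⟩)
  · obtain ⟨j, hj, d, hd, rfl⟩ := Submodule.mem_sup.1 hb
    obtain ⟨t, rfl⟩ := Submodule.mem_span_singleton.1 hd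
    have e : a * (j + t • c) - (j + t • c) * a = (a * j - j * a) + t • (a * c - c * a) := by
      simp only [mul_add, add_mul, mul_smul_comm, smul_mul_assoc, smul_sub]
      abel
    rw [e]
    exact add_mem (h a ((mem a).1 ha).1 j hj) (J.smul_mem t ((mem a).1 ha).2)

/-- The filtration of a matrix ring by a level function. -/
def mF {ι : Type*} (R : Type*) [CommRing R] [Algebra ℚ R] (lv : ι → ℕ) (i : ℕ) :
    Submodule ℚ (Matrix ι ι R) where
  carrier := {M | ∀ a b, lv b < lv a + i → M a b = 0}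
  add_mem' hM hN a b h := by rw [Matrix.add_apply, hM a b h, hN a b h, add_zero]
  zero_mem' _ _ _ := rfl
  smul_mem' c M hM a b h := by rw [Matrix.smul_apply, hM a b h, smul_zero]

theorem mem_mF {ι R : Type*} [CommRing R] [Algebra ℚ R] {lv : ι → ℕ} {i : ℕ}
    {M : Matrix ι ι R} : M ∈ mF R lv i ↔ ∀ a b, lv b < lv a + i → M a b = 0 := Iff.rfl

theorem filt_mF {ι : Type*} [Fintype ι] [DecidableEq ι] (R : Type*) [CommRing R] [Algebra ℚ R]
    (lv : ι → ℕ) : Filt (mF R lv) where
  anti i M hM a b h := hM a b (by omega)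
  mul i j M hM N hN a b h := by
    rw [Matrix.mul_apply]
    refine sum_eq_zero fun c _ => ?_
    by_cases hc : lv c < lv a + i
    · rw [hM a c hc, zero_mul]
    · rw [hN c b (by omega), mul_zero]
  fin := by
    refine ⟨univ.sup lv + 1, (Submodule.eq_bot_iff _).2 fun M hM => Matrix.ext fun a b => ?_⟩
    have := le_sup (f := lv) (mem_univ b)
    exact hM a b (by omega)

/-- The group of exponentials of a Lie subalgebra. -/
def expGrp {F : ℕ → Submodule ℚ A} (hF : Filt F) (L : Submodule ℚ A) (hL : L ≤ F 1)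
    (h : ∀ a ∈ L, ∀ b ∈ L, a * b - b * a ∈ L) : Subgroup Aˣ where
  carrier := {g | ∃ x ∈ L, (g : A) = exp x}
  one_mem' := ⟨0, L.zero_mem, by simp⟩
  mul_mem' := by
    rintro g g' ⟨x, hx, e⟩ ⟨y, hy, e'⟩
    exact ⟨_, bch_mem hF hL h hx hy, by
      rw [hF.exp_log_mul (hL hx) (hL hy), Units.val_mul, e, e']⟩
  inv_mem' := by
    rintro g ⟨x, hx, e⟩
    refine ⟨-x, neg_mem hx, Units.inv_eq_of_mul_eq_one_right ?_⟩
    rw [e, exp_mul_exp_neg_self (hF.nil (hL hx))]

end Pool.Agent.P.MP_a14ce1_nt.Nil
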