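import Pool.Agent.P.MP_a14ce1_nt.Nil.RatL

/-!
Evaluation, substitution and shifts of polynomial sequences; congruences modulo ideals.
-/

open Finset MvPolynomial

set_option linter.unusedSectionVars false

noncomputable section

namespace Pool.Agent.P.MP_a14ce1_nt.Nil

/-! ### Closure under `exp` and `log` -/

section Ring

variable {A : Type*} [Ring A] [Algebra ℚ A] {U : Submodule ℚ A}

theorem pow_succ_mem (hU : ∀ a ∈ U, ∀ b ∈ U, a * b ∈ U) {a : A} (ha : a ∈ U) (k : ℕ) :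
    a ^ (k + 1) ∈ U := by
  induction k with
  | zero => simpa using ha
  | succ k ih => rw [pow_succ]; exact hU _ ih _ ha

theorem log_mem_of_mul (hU : ∀ a ∈ U, ∀ b ∈ U, a * b ∈ U) {u : A} (hu : u - 1 ∈ U) : log u ∈ U :=
  U.sum_mem fun k _ => U.smul_mem _ (pow_succ_mem hU hu k)

theorem exp_sub_one_eq {z : A} {k : ℕ} (hk : z ^ (k + 1) = 0) :
    IsNilpotent.exp z - 1 = ∑ i ∈ range k, ((i + 1).factorial : ℚ)⁻¹ • z ^ (i + 1) := by
  rw [IsNilpotent.exp_eq_sum hk, sum_range_succ']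
  simp

theorem exp_mem_of_mul (hU : ∀ a ∈ U, ∀ b ∈ U, a * b ∈ U) {z : A} (hn : IsNilpotent z)
    (hz : z ∈ U) : IsNilpotent.exp z - 1 ∈ U := by
  obtain ⟨k, hk⟩ := hn
  rw [exp_sub_one_eq (k := k) (pow_eq_zero_of_le (Nat.le_succ k) hk)]
  exact U.sum_mem fun i _ => U.smul_mem _ (pow_succ_mem hU hz i)

end Ring

/-! ### Congruences modulo an ideal of a Lie algebra -/

section Lie

variable {ι : Type} [Fintype ι] [DecidableEq ι] {lv : ι → ℕ} {R : Type} [CommRing R]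
  [Algebra ℚ R] {𝔏 : Lie lv R} {J : Submodule ℚ (Matrix ι ι R)}

theorem br_swap {X Y : Matrix ι ι R} (h : X * Y - Y * X ∈ J) : Y * X - X * Y ∈ J := by
  have := J.neg_mem h
  rwa [neg_sub] at this

theorem lg_mul_right_sub (hJ : J ≤ 𝔏.L) (h : ∀ a ∈ 𝔏.L, ∀ b ∈ J, a * b - b * a ∈ J)
    {x z : UT lv R} (hx : x ∈ 𝔏.grp) (hz : lg z ∈ J) : lg (x * z) - lg x ∈ J := by
  have := J.add_mem (lg_mul_sub hJ h hx (hJ hz) (h _ hx _ hz)) hz
  rwa [sub_add_cancel] at this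

theorem lg_mul_left_sub (hJ : J ≤ 𝔏.L) (h : ∀ a ∈ 𝔏.L, ∀ b ∈ J, a * b - b * a ∈ J)
    {x z : UT lv R} (hx : x ∈ 𝔏.grp) (hz : lg z ∈ J) : lg (z * x) - lg x ∈ J := by
  have := J.add_mem (lg_mul_sub hJ h (x := z) (hJ hz) hx (br_swap (h _ hx _ hz))) hz
  rwa [sub_right_comm, sub_add_cancel] at this

/-- Two group elements are congruent modulo `exp J` iff their logarithms are modulo `J`. -/
theorem lg_inv_mul_mem_iff (hJ : J ≤ 𝔏.L) (h : ∀ a ∈ 𝔏.L, ∀ b ∈ J, a * b - b * a ∈ J)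
    {x y : UT lv R} (hx : x ∈ 𝔏.grp) (hy : y ∈ 𝔏.grp) : lg (x⁻¹ * y) ∈ J ↔ lg y - lg x ∈ J := by
  constructor
  · intro hz
    have := lg_mul_right_sub hJ h hx hz
    rwa [mul_inv_cancel_left] at this
  · intro hz
    have h1 := lg_mul_sub hJ h (inv_mem hx) hy (by
      have := h _ (𝔏.grp.inv_mem hx) _ hz
      rw [lg_inv] at this ⊢
      convert this using 1
      noncomm_ring)
    have := J.add_mem h1 hz
    rw [lg_inv] at this
    convert this using 1
    abel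

theorem lg_mul_inv_mem_iff (hJ : J ≤ 𝔏.L) (h : ∀ a ∈ 𝔏.L, ∀ b ∈ J, a * b - b * a ∈ J)
    {x y : UT lv R} (hx : x ∈ 𝔏.grp) (hy : y ∈ 𝔏.grp) : lg (y * x⁻¹) ∈ J ↔ lg y - lg x ∈ J := by
  have := lg_inv_mul_mem_iff hJ h (inv_mem hy) (inv_mem hx)
  rw [inv_inv, lg_inv, lg_inv, neg_sub_neg] at this
  exact this

theorem lg_conj' (g x : UT lv R) :
    lg (g * x * g⁻¹) = IsNilpotent.exp (lg g) * lg x * IsNilpotent.exp (-lg g) := by
  rw [lg_conj, ← lg_inv, exp_lg, exp_lg]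

/-- Additivity of the logarithm on three factors modulo an ideal containing all brackets. -/
theorem lg_mul3_sub (hJ : J ≤ 𝔏.L) (h : ∀ a ∈ 𝔏.L, ∀ b ∈ 𝔏.L, a * b - b * a ∈ J)
    {x y z : UT lv R} (hx : x ∈ 𝔏.grp) (hy : y ∈ 𝔏.grp) (hz : z ∈ 𝔏.grp) :
    lg (x * y * z) - (lg x + lg y + lg z) ∈ J := by
  have h' : ∀ a ∈ 𝔏.L, ∀ b ∈ J, a * b - b * a ∈ J := fun a ha b hb => h a ha b (hJ hb)
  have h1 := lg_mul_sub hJ h' hx hy (h _ hx _ hy)
  have h2 := lg_mul_sub hJ h' (mul_mem hx hy) hz (h _ (𝔏.grp.mul_mem hx hy) _ hz)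
  convert J.add_mem h1 h2 using 1
  abel

theorem ex_mem_grp {X : Matrix ι ι R} (hX : X ∈ 𝔏.L) : ex lv X ∈ 𝔏.grp := by
  rw [Lie.mem_grp, lg_ex (𝔏.up hX)]; exact hX

end Lie

variable {FF : Type} [Field FF] [CharZero FF] {ι : Type} [Fintype ι] [DecidableEq ι]
  {K : Subfield FF} {lv : ι → ℕ} {σ τ : Type} {I : Type} [AddCommMonoid I]

/-! ### Linear operations on the entries -/

open Classical in
/-- The monomials that occur. -/
def supp (X : Matrix ι ι (MvPolynomial σ FF)) : Finset (σ →₀ ℕ) :=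
  (univ : Finset (ι × ι)).biUnion fun p => (X p.1 p.2).support

theorem co_eq_zero {X : Matrix ι ι (MvPolynomial σ FF)} {β : σ →₀ ℕ} (h : β ∉ supp X) :
    co β X = 0 := by
  classical
  ext a b
  by_contra h0
  exact h (mem_biUnion.2 ⟨(a, b), mem_univ _, (mem_support_iff (p := X a b)).2 h0⟩)

theorem entry_eq_sum (X : Matrix ι ι (MvPolynomial σ FF)) (a b : ι) :
    X a b = ∑ γ ∈ supp X, co γ X a b • monomial γ (1 : FF) := by
  classical
  ext β
  simp only [coeff_sum, coeff_smul, coeff_monomial, smul_eq_mul, mul_ite, mul_one, mul_zero,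
    sum_ite_eq']
  split_ifs with h
  · rfl
  · exact congrFun (congrFun (co_eq_zero h) a) b

theorem map_lin_eq (Φ : MvPolynomial σ FF →ₗ[FF] FF) (X : Matrix ι ι (MvPolynomial σ FF)) :
    X.map Φ = ∑ γ ∈ supp X, Φ (monomial γ 1) • co γ X := by
  ext a b
  rw [Matrix.map_apply, entry_eq_sum X a b, map_sum, Matrix.sum_apply]
  exact sum_congr rfl fun γ _ => by rw [map_smul, Matrix.smul_apply, smul_eq_mul, smul_eq_mul,
    mul_comm]

theorem co_map (Φ : MvPolynomial σ FF →ₗ[FF] MvPolynomial τ FF)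
    (X : Matrix ι ι (MvPolynomial σ FF)) (β : τ →₀ ℕ) :
    co β (X.map Φ) = ∑ γ ∈ supp X, coeff β (Φ (monomial γ 1)) • co γ X :=
  map_lin_eq (lcoeff FF β ∘ₗ Φ) X

theorem map_mem_pm (Φ : MvPolynomial σ FF →ₗ[FF] MvPolynomial τ FF)
    {r : (σ →₀ ℕ) → Submodule FF (Matrix ι ι FF)} {r' : (τ →₀ ℕ) → Submodule FF (Matrix ι ι FF)}
    (h : ∀ γ β, coeff β (Φ (monomial γ 1)) ≠ 0 → r γ ≤ r' β)
    {X : Matrix ι ι (MvPolynomial σ FF)} (hX : X ∈ pm r) : X.map Φ ∈ pm r' := fun β => by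
  rw [co_map]
  refine Submodule.sum_mem _ fun γ _ => ?_
  by_cases h0 : coeff β (Φ (monomial γ 1)) = 0
  · rw [h0, zero_smul]; exact zero_mem _
  · exact Submodule.smul_mem _ _ (h γ β h0 (hX γ))

theorem map_ent (Φ : MvPolynomial σ FF →ₗ[FF] MvPolynomial τ FF)
    {s : (σ →₀ ℕ) → Submodule K FF} {s' : (τ →₀ ℕ) → Submodule K FF}
    (h : ∀ γ β, ∀ t ∈ s γ, coeff β (Φ (monomial γ 1)) * t ∈ s' β)
    {X : Matrix ι ι (MvPolynomial σ FF)} (hX : ∀ γ, Ent (s γ : Set FF) (co γ X)) (β : τ →₀ ℕ) :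
    Ent (s' β : Set FF) (co β (X.map Φ)) := fun a b => by
  rw [co_map, Matrix.sum_apply]
  exact Submodule.sum_mem _ fun γ _ => h γ β _ (hX γ a b)

theorem lg_sb (f : σ → MvPolynomial τ FF) (x : PS lv σ FF) :
    lg (sb f x) = (lg x).map (aeval f).toLinearMap := lg_map _ x

theorem lg_ev (n : σ → FF) (x : PS lv σ FF) :
    lg (ev n x) = ∑ γ ∈ supp (lg x), eval n (monomial γ 1) • co γ (lg x) :=
  (lg_map _ x).trans (map_lin_eq (aeval n).toLinearMap (lg x))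

theorem lg_cst (a : UT lv FF) : lg (cst σ a) = (lg a).map C := lg_map _ a

open Classical in
theorem co_C (β : σ →₀ ℕ) (X : Matrix ι ι FF) :
    co β (X.map (C : FF → MvPolynomial σ FF)) = if β = 0 then X else 0 := by
  ext a b
  simp only [co, Matrix.map_apply, coeff_C, eq_comm (a := β)]
  split_ifs <;> rfl

theorem co_smul_C (β : σ →₀ ℕ) (p : MvPolynomial σ FF) (X : Matrix ι ι FF) :
    co β (p • X.map (C : FF → MvPolynomial σ FF)) = coeff β p • X := by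
  ext a b
  simp [co, mul_comm p, mul_comm (coeff β p)]

theorem co_zero_lg (x : PS lv σ FF) : co 0 (lg x) = lg (ev 0 x) := by
  rw [ev, lg_map]
  ext a b
  simp [co, constantCoeff_eq]

theorem ev_cst (n : σ → FF) (a : UT lv FF) : ev n (cst σ a) = a := by
  apply UT.ext
  ext p q
  simp [ev, cst]

theorem ev_sb (n : τ → FF) (f : σ → MvPolynomial τ FF) (x : PS lv σ FF) :
    ev n (sb f x) = ev (fun l => eval n (f l)) x := by
  apply UT.ext
  ext p q
  exact eval₂Hom_bind₁ (RingHom.id FF) n f (x.val p q)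

theorem ev_sh (n a : σ → FF) (x : PS lv σ FF) : ev n (sh a x) = ev (n + a) x := by
  rw [sh, ev_sb]
  simp only [map_add, eval_X, eval_C]
  rfl

theorem sb_cst (f : σ → MvPolynomial τ FF) (a : UT lv FF) : sb f (cst σ a) = cst τ a := by
  apply UT.ext
  ext p q
  simp [sb, cst]

theorem sh_cst (h : σ → FF) (a : UT lv FF) : sh h (cst σ a) = cst σ a := sb_cst _ a

theorem sb_sb {υ : Type} (f' : τ → MvPolynomial υ FF) (f : σ → MvPolynomial τ FF)
    (x : PS lv σ FF) : sb f' (sb f x) = sb (fun l => aeval f' (f l)) x := by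
  apply UT.ext
  ext p q : 2
  simp [sb, aeval_eq_bind₁, bind₁_bind₁]

theorem sb_mem_PG {g : Fam K lv (σ →₀ ℕ)} {g' : Fam K lv (τ →₀ ℕ)} (f : σ → MvPolynomial τ FF)
    (h : ∀ γ β, coeff β (aeval f (monomial γ (1 : FF))) ≠ 0 → g.r γ ≤ g'.r β)
    {x : PS lv σ FF} (hx : x ∈ g.PG) : sb f x ∈ g'.PG := by
  change lg (sb f x) ∈ pm g'.r
  rw [lg_sb]
  exact map_mem_pm _ h hx

theorem sb_mem_EE {S : Sc K σ} {S' : Sc K τ} (f : σ → MvPolynomial τ FF)
    (h : ∀ γ β, ∀ t ∈ S.s γ, coeff β (aeval f (monomial γ (1 : FF))) * t ∈ S'.s β)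
    {x : PS lv σ FF} (hx : x ∈ S.EE lv) : sb f x ∈ S'.EE lv := by
  rw [Sc.mem_EE] at hx ⊢
  rw [lg_sb]
  exact map_ent _ h hx

theorem mem_EE_val {S : Sc K σ} {x : PS lv σ FF} :
    x ∈ S.EE lv ↔ ∀ β, Ent (S.s β : Set FF) (co β (x.val - 1)) := by
  classical
  let U : Submodule ℚ (Matrix ι ι (MvPolynomial σ FF)) :=
    { carrier := {X | ∀ β, Ent (S.s β : Set FF) (co β X)}
      add_mem' := fun hX hY β a b => by rw [co_add]; exact add_mem (hX β a b) (hY β a b)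
      zero_mem' := fun β a b => by simp
      smul_mem' := fun c X hX β a b => by rw [co_qsmul]; exact S.qsmul c (hX β a b) }
  have hU : ∀ X ∈ U, ∀ Y ∈ U, X * Y ∈ U := fun X hX Y hY β a b => by
    rw [co_mul, Matrix.sum_apply]
    refine Submodule.sum_mem _ fun p hp => ?_
    rw [← mem_antidiagonal.1 hp, Matrix.mul_apply]
    exact Submodule.sum_mem _ fun c _ => S.mul _ _ _ (hX _ a c) _ (hY _ c b)
  rw [Sc.mem_EE]
  refine ⟨fun h => ?_, fun h => log_mem_of_mul hU (u := x.val) h⟩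
  have := exp_mem_of_mul hU (up_nil (lg_mem x)) h
  rwa [exp_lg] at this

/-! ### Families -/

theorem Fam.PG_mono {g h : Fam K lv (σ →₀ ℕ)} (hle : g ≤ h) : g.PG ≤ h.PG :=
  fun _ hx β => hle β (hx β)

theorem Fam.GG_mono {g h : Fam K lv I} (hle : g ≤ h) : g.GG ≤ h.GG := fun _ hx => hle 0 hx

theorem Fam.mem_GG {g : Fam K lv I} {x : UT lv FF} : x ∈ g.GG ↔ lg x ∈ g.r 0 := Iff.rfl

theorem Fam.fine_r (g : Fam K lv ℕ) (β : σ →₀ ℕ) : (g.fine σ).r β = g.r β.degree := rfl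

theorem Fam.fine_mono {g h : Fam K lv ℕ} (hle : g ≤ h) : g.fine σ ≤ h.fine σ :=
  fun β => hle β.degree

theorem Fam.mem_fine_PG {g : Fam K lv ℕ} {x : PS lv σ FF} :
    x ∈ (g.fine σ).PG ↔ ∀ β : σ →₀ ℕ, co β (lg x) ∈ g.r β.degree := Iff.rfl

theorem Fam.plus_zero (g : Fam K lv (σ →₀ ℕ)) : g.plus.r 0 = ⊥ := by simp [Fam.plus]

theorem Fam.plus_ne (g : Fam K lv (σ →₀ ℕ)) {β : σ →₀ ℕ} (h : β ≠ 0) : g.plus.r β = g.r β :=
  if_neg h

theorem Fam.plus_le (g : Fam K lv (σ →₀ ℕ)) : g.plus ≤ g := fun β => by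
  by_cases h : β = 0
  · rw [h, g.plus_zero]; exact bot_le
  · rw [g.plus_ne h]

theorem Fam.plus_mono {g h : Fam K lv (σ →₀ ℕ)} (hle : g ≤ h) : g.plus ≤ h.plus := fun β => by
  by_cases h0 : β = 0
  · rw [h0, g.plus_zero]; exact bot_le
  · rw [g.plus_ne h0, h.plus_ne h0]; exact hle β

theorem mem_plus' {g : Fam K lv (σ →₀ ℕ)} {x : PS lv σ FF} :
    x ∈ g.plus.PG ↔ (∀ β, β ≠ 0 → co β (lg x) ∈ g.r β) ∧ ev 0 x = 1 := by
  constructor
  · intro h
    refine ⟨fun β hβ => g.plus_ne hβ ▸ h β, lg_inj ?_⟩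
    have := h 0
    rwa [g.plus_zero, Submodule.mem_bot, co_zero_lg, ← lg_one (lv := lv)] at this
  · rintro ⟨h1, h2⟩ β
    by_cases h : β = 0
    · rw [h, co_zero_lg, h2, lg_one]; exact zero_mem _
    · rw [g.plus_ne h]; exact h1 β h

theorem mem_plus {g : Fam K lv (σ →₀ ℕ)} {x : PS lv σ FF} :
    x ∈ g.plus.PG ↔ x ∈ g.PG ∧ ev 0 x = 1 :=
  ⟨fun h => ⟨Fam.PG_mono g.plus_le h, (mem_plus'.1 h).2⟩,
    fun h => mem_plus'.2 ⟨fun β _ => h.1 β, h.2⟩⟩

theorem cst_mem_PG {g : Fam K lv (σ →₀ ℕ)} {a : UT lv FF} (ha : lg a ∈ g.r 0) :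
    cst σ a ∈ g.PG := fun β => by
  rw [lg_cst, co_C]
  split_ifs with h
  · rw [h]; exact ha
  · exact zero_mem _

theorem cst_mem {g : Fam K lv ℕ} {a : UT lv FF} (ha : a ∈ g.GG) : cst σ a ∈ (g.fine σ).PG :=
  cst_mem_PG ha

theorem Fam.Fil.le {g : Fam K lv ℕ} {D : ℕ} (hg : g.Fil D) {i j : ℕ} (h : i ≤ j) :
    g.r j ≤ g.r i := antitone_nat_of_succ_le hg.anti h

theorem Fam.Fil.eq_bot {g : Fam K lv ℕ} {D : ℕ} (hg : g.Fil D) {i : ℕ} (h : D < i) :
    g.r i = ⊥ := le_bot_iff.1 (hg.bd ▸ hg.le h)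

theorem Fam.Fil.fine_bd {g : Fam K lv ℕ} {D : ℕ} (hg : g.Fil D) : (g.fine σ).Bd D :=
  fun _ h => hg.eq_bot h

theorem Fam.Bd.plus {g : Fam K lv (σ →₀ ℕ)} {D : ℕ} (hg : g.Bd D) : g.plus.Bd D :=
  fun β h => le_bot_iff.1 (hg β h ▸ g.plus_le β)

/-- Brackets with degree zero raise the degree. -/
theorem Fam.Fil.br0 {g : Fam K lv ℕ} {D : ℕ} (hg : g.Fil D) {i : ℕ} {X Y : Matrix ι ι FF}
    (hX : X ∈ g.r 0) (hY : Y ∈ g.r i) : X * Y - Y * X ∈ g.r (i + 1) := by
  rw [add_comm]; exact g.br 1 i X (hg.zero ▸ hX) Y hY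

theorem ev_mem {g : Fam K lv ℕ} {D} (hg : g.Fil D) {x : PS lv σ FF} (hx : x ∈ (g.fine σ).PG)
    (a : σ → FF) : ev a x ∈ g.GG := by
  rw [Fam.mem_GG, lg_ev]
  exact Submodule.sum_mem _ fun γ _ => Submodule.smul_mem _ _ (hg.le (Nat.zero_le _) (hx γ))

/-! ### Degrees -/

/-- Polynomials all of whose monomials have degree at most `d - k`. -/
def low (FF : Type) [Field FF] (σ : Type) (k d : ℕ) : Submodule FF (MvPolynomial σ FF) where
  carrier := {p | ∀ β : σ →₀ ℕ, d < β.degree + k → coeff β p = 0}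
  add_mem' hp hq β h := by rw [coeff_add, hp β h, hq β h, add_zero]
  zero_mem' _ _ := rfl
  smul_mem' c p hp β h := by rw [coeff_smul, hp β h, smul_zero]

theorem low_mul {k d k' d' : ℕ} {p q : MvPolynomial σ FF} (hp : p ∈ low FF σ k d)
    (hq : q ∈ low FF σ k' d') : p * q ∈ low FF σ (k + k') (d + d') := fun β h => by
  classical
  rw [coeff_mul]
  refine sum_eq_zero fun x hx => ?_
  have := congrArg Finsupp.degree (mem_antidiagonal.1 hx)
  rw [map_add] at this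
  by_cases h1 : d < x.1.degree + k
  · rw [hp _ h1, zero_mul]
  · rw [hq _ (by omega), mul_zero]

theorem low_succ {k d : ℕ} {p : MvPolynomial σ FF} (hp : p ∈ low FF σ k d) :
    p ∈ low FF σ (k + 1) (d + 1) := fun β h => hp β (by omega)

theorem low_monomial (γ : σ →₀ ℕ) (c : FF) : monomial γ c ∈ low FF σ 0 γ.degree := fun β h => by
  classical
  rw [coeff_monomial, if_neg]
  rintro rfl
  omega

theorem low_X (l : σ) : (X l : MvPolynomial σ FF) ∈ low FF σ 0 1 := by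
  have := low_monomial (Finsupp.single l 1) (1 : FF)
  rwa [Finsupp.degree_single] at this

theorem low_of_totalDegree {p : MvPolynomial σ FF} {d : ℕ} (h : p.totalDegree ≤ d) :
    p ∈ low FF σ 0 d := fun β hβ => coeff_eq_zero_of_totalDegree_lt (by
  rw [Finsupp.degree_apply] at hβ; omega)

theorem mono_ind {P : (σ →₀ ℕ) → Prop} (h0 : P 0)
    (h1 : ∀ γ l, P γ → P (γ + Finsupp.single l 1)) (γ : σ →₀ ℕ) : P γ := by
  induction γ using Finsupp.induction₂ with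
  | zero => exact h0
  | add_single l k γ h2 h3 ih =>
    clear h2 h3
    induction k with
    | zero => simpa using ih
    | succ k ih' => rw [Finsupp.single_add, ← add_assoc]; exact h1 _ l ih'

theorem low_aeval {f : σ → MvPolynomial τ FF} (hf : ∀ l, f l ∈ low FF τ 0 1) (γ : σ →₀ ℕ) :
    aeval f (monomial γ (1 : FF)) ∈ low FF τ 0 γ.degree := by
  induction γ using mono_ind with
  | h0 => simpa using low_monomial (σ := τ) 0 (1 : FF)
  | h1 γ l ih =>
    rw [monomial_add_single, pow_one, map_mul, aeval_X, map_add, Finsupp.degree_single]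
    exact low_mul ih (hf l)

/-- Affine substitutions preserve the polynomial group. -/
theorem sb_mem {g : Fam K lv ℕ} {D} (hg : g.Fil D) {x : PS lv σ FF} (hx : x ∈ (g.fine σ).PG)
    (f : σ → MvPolynomial τ FF) (hf : ∀ l, (f l).totalDegree ≤ 1) :
    sb f x ∈ (g.fine τ).PG :=
  sb_mem_PG f (fun γ β h => hg.le (not_lt.1 fun h' =>
    h (low_aeval (fun l => low_of_totalDegree (hf l)) γ β h'))) hx

/-- Linear substitutions preserve the polynomial group of every coarse family. -/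
theorem sb_mem_lin {g : Fam K lv ℕ} {x : PS lv σ FF} (hx : x ∈ (g.fine σ).PG)
    (f : σ → MvPolynomial τ FF) (hf : ∀ l, (f l).IsHomogeneous 1) : sb f x ∈ (g.fine τ).PG := by
  refine sb_mem_PG f (fun γ β h => le_of_eq ?_) hx
  have := (isHomogeneous_monomial (1 : FF) (d := γ) rfl).aeval f hf
  rw [one_mul] at this
  rw [Fam.fine_r, Fam.fine_r, ← by_contra fun h' => h (this.coeff_eq_zero h')]

theorem low_shift (a : σ → FF) (γ : σ →₀ ℕ) :
    aeval (fun l => X l + C (a l)) (monomial γ (1 : FF)) - monomial γ 1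
      ∈ low FF σ 1 γ.degree := by
  induction γ using mono_ind with
  | h0 => simp
  | h1 γ l ih =>
    rw [monomial_add_single, pow_one, map_mul, aeval_X, map_add, Finsupp.degree_single]
    have h1 := low_aeval (f := fun l => X l + C (a l)) (fun l => add_mem (low_X l)
      fun β h => low_monomial 0 (a l) β (by simp; omega)) γ
    have h2 := low_mul ih (low_X l)
    have h3 := (low FF σ _ _).smul_mem (a l) (low_succ h1)
    convert add_mem h2 h3 using 1
    rw [smul_eq_C_mul]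
    ring

theorem low_shift2 [Fintype σ] (a : σ → FF) (γ : σ →₀ ℕ) :
    aeval (fun l => X l + C (a l)) (monomial γ (1 : FF)) - monomial γ 1
      - ∑ m, a m • pderiv m (monomial γ (1 : FF)) ∈ low FF σ 2 γ.degree := by
  classical
  induction γ using mono_ind with
  | h0 => simp
  | h1 γ l ih =>
    rw [monomial_add_single, pow_one, map_mul, aeval_X, map_add, Finsupp.degree_single]
    have h2 := low_mul ih (low_X l)
    have h3 := (low FF σ _ _).smul_mem (a l) (low_succ (low_shift a γ))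
    convert add_mem h2 h3 using 1
    simp only [pderiv_mul, pderiv_X, smul_add, sum_add_distrib, Pi.single_apply, mul_ite, mul_one,
      mul_zero, smul_ite, smul_zero, sum_ite_eq, mem_univ, if_true, ← smul_mul_assoc,
      ← sum_mul]
    simp only [smul_eq_C_mul (a := a l)]
    ring

theorem sh_mem {g : Fam K lv ℕ} {D} (hg : g.Fil D) {x : PS lv σ FF} (hx : x ∈ (g.fine σ).PG)
    (a : σ → FF) : sh a x ∈ (g.fine σ).PG ∧
      ∀ β : σ →₀ ℕ, co β (lg (sh a x) - lg x) ∈ g.r (β.degree + 1) := by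
  have h : lg (sh a x) - lg x ∈ pm fun β : σ →₀ ℕ => g.r (β.degree + 1) := by
    have := map_mem_pm ((aeval fun l => X l + C (a l)).toLinearMap - LinearMap.id)
      (r := (g.fine σ).r) (r' := fun β : σ →₀ ℕ => g.r (β.degree + 1))
      (fun γ β h => hg.le (not_lt.1 fun h' => h (low_shift a γ β h'))) hx
    rw [sh, lg_sb]
    exact this
  refine ⟨fun β => ?_, h⟩
  have := add_mem (hg.anti _ (h β)) (hx β)
  rwa [co_sub, sub_add_cancel] at this

/-- Second order expansion of a shift. -/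
theorem sh_mem2 [Fintype σ] {g : Fam K lv ℕ} {D} (hg : g.Fil D) {x : PS lv σ FF}
    (hx : x ∈ (g.fine σ).PG) (a : σ → FF) (β : σ →₀ ℕ) :
    co β (lg (sh a x)) - co β (lg x)
      - ∑ l, (a l * ((β l + 1 : ℕ) : FF)) • co (β + Finsupp.single l 1) (lg x)
      ∈ g.r (β.degree + 2) := by
  have := map_mem_pm ((aeval fun l => X l + C (a l)).toLinearMap - LinearMap.id
      - ∑ m, a m • (pderiv m : Derivation FF (MvPolynomial σ FF) _).toLinearMap)
      (r := (g.fine σ).r) (r' := fun β : σ →₀ ℕ => g.r (β.degree + 2))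
      (fun γ β h => hg.le (not_lt.1 fun h' => h (by
        have := low_shift2 a γ β h'
        simpa using this))) hx β
  rw [sh, lg_sb]
  convert this using 1
  ext p q
  simp [co, Matrix.sum_apply, coeff_sum, coeff_pderiv, mul_comm, mul_left_comm]

/-! ### Symbols -/

/-- The shifted system `i ↦ g (i + k)`. -/
def Fam.sft (g : Fam K lv ℕ) {D : ℕ} (hg : g.Fil D) (k : ℕ) : Fam K lv ℕ where
  r i := g.r (i + k)
  up i := g.up _
  rat i := g.rat _
  br i j X hX Y hY := hg.le (by omega) (g.br _ _ X hX Y hY)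

/-- Brackets of polynomials, coefficientwise. -/
theorem pm_br {r r' r'' : (σ →₀ ℕ) → Submodule FF (Matrix ι ι FF)}
    (h : ∀ β γ, ∀ X ∈ r β, ∀ Y ∈ r' γ, X * Y - Y * X ∈ r'' (β + γ))
    {X Y : Matrix ι ι (MvPolynomial σ FF)} (hX : X ∈ pm r) (hY : Y ∈ pm r') :
    X * Y - Y * X ∈ pm r'' := fun β => by
  classical
  rw [co_br]
  refine Submodule.sum_mem _ fun p hp => ?_
  rw [← mem_antidiagonal.1 hp]
  exact h _ _ _ (hX _) _ (hY _)

/-- Polynomials whose coefficient of `β` lies in `g (deg β + k)`. -/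
def pk (g : Fam K lv ℕ) (σ : Type) (k : ℕ) : Submodule ℚ (Matrix ι ι (MvPolynomial σ FF)) :=
  pm fun β : σ →₀ ℕ => g.r (β.degree + k)

theorem mem_pk {g : Fam K lv ℕ} {k : ℕ} {X : Matrix ι ι (MvPolynomial σ FF)} :
    X ∈ pk g σ k ↔ ∀ β : σ →₀ ℕ, co β X ∈ g.r (β.degree + k) := Iff.rfl

theorem pk_br {g : Fam K lv ℕ} {k k' : ℕ} {X Y : Matrix ι ι (MvPolynomial σ FF)}
    (hX : X ∈ pk g σ k) (hY : Y ∈ pk g σ k') : X * Y - Y * X ∈ pk g σ (k + k') :=
  pm_br (fun β γ X hX Y hY => by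
    rw [map_add, add_add_add_comm]; exact g.br _ _ X hX Y hY) hX hY

theorem pk_le {g : Fam K lv ℕ} {D} (hg : g.Fil D) {k k' : ℕ} (h : k ≤ k') :
    pk g σ k' ≤ pk g σ k := fun _ hX β => hg.le (by omega) (hX β)

theorem pk_zero (g : Fam K lv ℕ) : pk g σ 0 = (g.fine σ).lie.L := rfl

theorem pk_ideal {g : Fam K lv ℕ} (k : ℕ) :
    ∀ a ∈ (g.fine σ).lie.L, ∀ b ∈ pk g σ k, a * b - b * a ∈ pk g σ k := fun a ha b hb => by
  have := pk_br (k := 0) ha hb
  rwa [zero_add] at this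

theorem lg_cst_mem_pk {g : Fam K lv ℕ} {D} (hg : g.Fil D) {a : UT lv FF} (ha : a ∈ g.GG) :
    lg (cst σ a) ∈ pk g σ 1 := fun β => by
  rw [lg_cst, co_C]
  split_ifs with h
  · change lg a ∈ g.r (β.degree + 1)
    rw [h, map_zero, zero_add, ← hg.zero]; exact ha
  · exact zero_mem _

/-- Shifts and multiplication by constants do not change the symbol. -/
theorem symbol {g : Fam K lv ℕ} {D} (hg : g.Fil D) {x : PS lv σ FF} (hx : x ∈ (g.fine σ).PG)
    (h : σ → FF) {a b : UT lv FF} (ha : a ∈ g.GG) (hb : b ∈ g.GG) :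
    cst σ a * sh h x * cst σ b ∈ (g.fine σ).PG ∧
      lg (cst σ a * sh h x * cst σ b) - lg x ∈ pk g σ 1 := by
  obtain ⟨h1, h2⟩ := sh_mem hg hx h
  have hJ : pk g σ 1 ≤ (g.fine σ).lie.L := pk_le hg (Nat.zero_le 1)
  have h3 := lg_mul_left_sub hJ (pk_ideal 1) h1 (lg_cst_mem_pk hg ha)
  have h4 := lg_mul_right_sub hJ (pk_ideal 1) (mul_mem (cst_mem ha) h1) (lg_cst_mem_pk hg hb)
  refine ⟨mul_mem (mul_mem (cst_mem ha) h1) (cst_mem hb), ?_⟩
  convert add_mem (add_mem h4 h3) (show lg (sh h x) - lg x ∈ pk g σ 1 from h2) using 1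
  abel

end Pool.Agent.P.MP_a14ce1_nt.Nil
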