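import Pool.Agent.P.MP_a14ce1_nt.GI.Ty
import Pool.Agent.P.MP_a14ce1_nt.Nil.Sym
import Pool.Agent.P.MP_a14ce1_nt.Nil.Ax

/-!
The atom systems given by the types of nilsequences: closure properties, and the inverse theorem in
the form used by the lifting argument.
-/

open Filter Finset MvPolynomial
open scoped BigOperators ComplexConjugate

noncomputable section

namespace Pool.Agent.P.MP_a14ce1_nt.AxGI

open Nil GI

/-- The nilsequences of type `T` and degree at most `k`. -/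
def AT (T : Ty) (k : ℕ) : Set (ℤ → ℂ) := {ψ | T.At k ψ}

variable {T : Ty} {k : ℕ} {ψ : ℤ → ℂ}

theorem mem_AT : ψ ∈ AT T k ↔ T.At k ψ := Iff.rfl

theorem mem_res {a : ℕ → ℂ} : a ∈ Ax.res (AT T k) ↔ ∃ ψ, T.At k ψ ∧ ∀ n : ℕ, a n = ψ n :=
  ⟨fun ⟨ψ, h, e⟩ => ⟨ψ, h, fun n => (congrFun e n).symm⟩,
    fun ⟨ψ, h, e⟩ => ⟨ψ, h, funext fun n => (e n).symm⟩⟩

/-- Real affine changes of the variable. -/
theorem exists_aff {x : PS T.lv Unit ℝ} (hx : x ∈ (T.g.fine Unit).PG) (a b : ℝ) :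
    ∃ y ∈ (T.g.fine Unit).PG, ∀ t : ℝ, ev (fun _ => t) y = ev (fun _ => a * t + b) x :=
  ⟨sb (fun _ => C a * X () + C b) x, sb_mem T.fil hx _ fun _ =>
    (totalDegree_add _ _).trans (max_le ((totalDegree_mul _ _).trans
      (by rw [totalDegree_C, totalDegree_X])) (by rw [totalDegree_C]; exact zero_le_one)),
    fun t => by rw [ev_sb]; simp only [map_add, map_mul, eval_C, eval_X]⟩

theorem at_aff (h : T.At k ψ) (a b : ℤ) : T.At k fun n => ψ (a * n + b) := by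
  obtain ⟨F, h1, h2, x, hx, e⟩ := h
  obtain ⟨y, hy, e'⟩ := exists_aff hx a b
  exact ⟨F, h1, h2, y, hy, fun n => by beta_reduce; rw [e, e']; push_cast; rfl⟩

theorem at_sh (h : T.At k ψ) (b : ℤ) : T.At k fun n => ψ (n + b) := by
  simpa only [one_mul] using at_aff h 1 b

theorem at_und (h : T.At k ψ) {d : ℤ} (hd : d ≠ 0) : ∃ χ, T.At k χ ∧ ∀ n, χ (d * n) = ψ n := by
  obtain ⟨F, h1, h2, x, hx, e⟩ := h
  obtain ⟨y, hy, e'⟩ := exists_aff hx (d : ℝ)⁻¹ 0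
  refine ⟨fun n => F (ev (fun _ => (n : ℝ)) y), ⟨F, h1, h2, y, hy, fun _ => rfl⟩, fun n => ?_⟩
  have : (d : ℝ) ≠ 0 := Int.cast_ne_zero.2 hd
  beta_reduce
  rw [e, e', Int.cast_mul, add_zero, inv_mul_cancel_left₀ this]

theorem at_rot (h : T.At k ψ) {z : ℂ} (hz : ‖z‖ ≤ 1) : T.At k fun n => z * ψ n := by
  obtain ⟨F, h1, h2, x, hx, e⟩ := h
  refine ⟨fun u => z * F u, ⟨fun u => ?_, fun a ha u hu => ?_, fun a ha ht u hu => ?_⟩,
    fun a ha u hu => ?_, x, hx, fun n => congrArg (z * ·) (e n)⟩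
  · rw [norm_mul]; exact mul_le_one₀ hz (norm_nonneg _) (h1.bd _)
  · rw [← mul_sub, norm_mul]
    exact (mul_le_of_le_one_left (norm_nonneg _) hz).trans (h1.lip a ha u hu)
  · rw [h1.per a ha ht u hu]
  · beta_reduce
    rw [h2 a ha u hu, mul_left_comm]

theorem at_cj (h : T.At k ψ) : T.At k fun n => conj (ψ n) := by
  obtain ⟨F, h1, h2, x, hx, e⟩ := h
  refine ⟨fun u => conj (F u), ⟨fun u => ?_, fun a ha u hu => ?_, fun a ha ht u hu => ?_⟩,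
    fun a ha u hu => ?_, x, hx, fun n => congrArg conj (e n)⟩
  · rw [Complex.norm_conj]; exact h1.bd _
  · rw [← map_sub, Complex.norm_conj]; exact h1.lip a ha u hu
  · rw [h1.per a ha ht u hu]
  · beta_reduce
    rw [h2 a ha u hu]
    simp

theorem at_res (T : Ty) (k : ℕ) : Ax.At (Ax.res (AT T k)) where
  ne := ⟨_, _, T.at_one k, rfl⟩
  bd _ ha n := by
    obtain ⟨ψ, h, e⟩ := mem_res.1 ha
    rw [e]; exact h.le _
  rot _ ha z hz := by
    obtain ⟨ψ, h, e⟩ := mem_res.1 ha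
    exact mem_res.2 ⟨_, at_rot h hz.le, fun n => by rw [e]⟩
  dil _ ha d _ := by
    obtain ⟨ψ, h, e⟩ := mem_res.1 ha
    exact mem_res.2 ⟨_, at_aff h d 0, fun n => by rw [e, add_zero, Nat.cast_mul]⟩
  und _ ha d hd := by
    obtain ⟨ψ, h, e⟩ := mem_res.1 ha
    obtain ⟨χ, h', e'⟩ := at_und h (d := d) (Int.natCast_ne_zero.2 hd.ne')
    exact ⟨fun n => χ n, mem_res.2 ⟨χ, h', fun _ => rfl⟩, fun n => by
      beta_reduce
      rw [e, Nat.cast_mul, e']⟩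

/-- Sums over a window, moved to the origin. -/
theorem sum_win (φ : ℕ → ℂ) (x H : ℕ) (a : ℤ → ℂ) :
    ∑ n ∈ Ico x (x + H), φ n * a n = ∑ n ∈ Ico (0 : ℤ) H, V.win φ x H n * a (n + x) := by
  refine sum_nbij' (fun n => (n : ℤ) - x) (fun n => x + n.toNat) (fun n hn => ?_) (fun n hn => ?_)
    (fun n hn => ?_) (fun n hn => ?_) fun n hn => ?_
  all_goals simp only [mem_Ico] at hn ⊢
  · omega
  · omega
  · omega
  · omega
  · rw [V.win, if_pos (by omega), sub_add_cancel, show x + ((n : ℤ) - x).toNat = n by omega]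

/-- The inverse theorem for windows. -/
theorem gi_win (hG : GIst k) {δ : ℝ} (hδ : 0 < δ) : ∃ (T : Ty) (c : ℝ) (H0 : ℕ), 0 < c ∧
    ∀ (φ : ℕ → ℂ) (x H : ℕ), (∀ n, ‖φ n‖ ≤ 1) → H0 ≤ H → δ ≤ V.cube k φ x H →
      ∃ a ∈ Ax.res (AT T k), c * H ≤ ‖∑ n ∈ Ico x (x + H), Ax.pc φ a n‖ := by
  obtain ⟨T, c, N0, hc, h⟩ := hG δ hδ
  refine ⟨T, c, max N0 1, hc, fun φ x H hφ hH hd => ?_⟩
  have h0 : (0 : ℝ) < H := by exact_mod_cast (le_max_right _ _).trans hH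
  rw [cube_eq_U, le_div_iff₀ (pow_pos h0 _)] at hd
  obtain ⟨ψ, h1, h2⟩ := h H ((le_max_left _ _).trans hH) _ (V.norm_win_le hφ x H)
    (win_supp φ x H) hd
  refine ⟨fun n => conj (ψ (n + -x)), mem_res.2 ⟨_, at_cj (at_sh h1 (-x)), fun _ => rfl⟩, ?_⟩
  simp only [Ax.pc, Complex.conj_conj]
  rw [sum_win φ x H fun n => ψ (n + -x)]
  simpa only [add_neg_cancel_right] using h2

/-- The inverse theorem and the four facts for every type give the statement `S_GIAx`. -/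
theorem giAx0 (hG : ∀ k, GIst k) (hF : ∀ T k, Ax.FS (Ax.res (AT T k)))
    (hE : ∀ T k, Ax.EXT (Ax.res (AT T k))) (hC : ∀ T k, Ax.CONV (Ax.res (AT T k)))
    (hD : ∀ T k, DecAx (AT T k)) : Ax.S_GIAx := fun k δ hδ => by
  obtain ⟨T, c, H0, hc, h⟩ := gi_win (hG k) hδ
  refine ⟨{AT T k}, c, H0, Set.finite_singleton _, fun A hA => ?_, hc, fun φ x H h1 h2 h3 =>
    ⟨_, rfl, h φ x H h1 h2 h3⟩⟩
  rw [Set.mem_singleton_iff.1 hA]
  exact ⟨⟨at_res T k, hF T k, hE T k, hC T k⟩, hD T k⟩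

end Pool.Agent.P.MP_a14ce1_nt.AxGI
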