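import Pool.Agent.P.MP_a14ce1_nt.Nil.Vin2
import Pool.Agent.P.MP_a14ce1_nt.Ch.Sieve
import Pool.Agent.P.MP_a14ce1_nt.Ch.Mertens
import Pool.Agent.P.MP_a14ce1_nt.Ch.RoughB

/-! The scalar lemma for sparse sets of rough numbers: recurrence of alpha (m^s - m0^s) on a set of
rough numbers of the density allowed by the sieve forces a bounded denominator. -/

namespace Pool.Agent.P.MP_a14ce1_nt.Nil

open Finset Polynomial

namespace Sparse

open Ch (pv)
open Ch.Rough (PP mem_PP V_le V_nonneg)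

/-- roots of unity in a group with a cyclic subgroup of index at most two -/
theorem card_pow_le {G : Type*} [CommGroup G] [Fintype G] [DecidableEq G] (g : G)
    (hg : Fintype.card G ≤ 2 * orderOf g) {s : ℕ} (hs : 0 < s) :
    (univ.filter fun u : G => u ^ s = 1).card ≤ 2 * s := by
  classical
  set H := Subgroup.zpowers g with hH
  set K : Subgroup G := (powMonoidHom s).ker with hK
  have e1 : (univ.filter fun u : G => u ^ s = 1).card = Nat.card K := by
    rw [Nat.card_eq_fintype_card, Fintype.card_subtype]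
    congr 1
    ext u
    simp [hK]
  have e2 : Nat.card (H.subgroupOf K) * (H.subgroupOf K).index = Nat.card K :=
    Subgroup.card_mul_index _
  have e3 : H.index ≤ 2 := by
    have h1 : Nat.card H * H.index = Nat.card G := Subgroup.card_mul_index _
    rw [hH, Nat.card_zpowers, Nat.card_eq_fintype_card] at h1
    have h2 : 0 < orderOf g := orderOf_pos g
    rw [← h1, mul_comm] at hg
    exact Nat.le_of_mul_le_mul_right hg h2
  have e4 : (H.subgroupOf K).index ≤ 2 := by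
    have := Subgroup.relIndex_le_of_le_right (H := H) (K := K) (L := ⊤) le_top
      (by rw [Subgroup.relIndex_top_right]; exact Subgroup.index_ne_zero_of_finite)
    rw [Subgroup.relIndex_top_right] at this
    exact le_trans this e3
  have e5 : Nat.card (H.subgroupOf K) ≤ s := by
    have h1 := IsCyclic.card_pow_eq_one_le (α := H) hs
    refine le_trans ?_ h1
    rw [← Fintype.card_subtype, ← Nat.card_eq_fintype_card]
    refine Nat.card_le_card_of_injective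
      (fun x => (⟨⟨x.1.1, Subgroup.mem_subgroupOf.1 x.2⟩, Subtype.ext x.1.2⟩ :
        {a : H // a ^ s = 1})) ?_
    intro x y hxy
    simp only [Subtype.mk.injEq] at hxy
    exact Subtype.ext (Subtype.ext hxy)
  rw [e1, ← e2, mul_comm]
  exact Nat.mul_le_mul e4 e5

theorem exists_gen {p : ℕ} (hp : p.Prime) (e : ℕ) [NeZero (p ^ e)] :
    ∃ g : (ZMod (p ^ e))ˣ, Fintype.card (ZMod (p ^ e))ˣ ≤ 2 * orderOf g := by
  by_cases h2 : p = 2
  · subst h2
    rw [ZMod.card_units_eq_totient]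
    rcases e with _ | _ | e
    · exact ⟨1, by simp⟩
    · exact ⟨1, by simp⟩
    · have hc : Nat.Coprime 5 (2 ^ (e + 2)) := Nat.Coprime.pow_right _ (by norm_num)
      refine ⟨ZMod.unitOfCoprime 5 hc, ?_⟩
      have h1 : orderOf (ZMod.unitOfCoprime 5 hc) = 2 ^ e := by
        rw [← orderOf_units, ZMod.coe_unitOfCoprime]
        exact_mod_cast ZMod.orderOf_five e
      rw [h1, Nat.totient_prime_pow Nat.prime_two (by omega)]
      simp [pow_succ, mul_comm]
  · have := ZMod.isCyclic_units_of_prime_pow p hp h2 e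
    obtain ⟨g, hg⟩ := IsCyclic.exists_ofOrder_eq_natCard (α := (ZMod (p ^ e))ˣ)
    refine ⟨g, ?_⟩
    rw [hg, Nat.card_eq_fintype_card]
    omega

/-- x^s = y^s has at most 2 s solutions modulo a prime power when y is a unit -/
theorem card_root_le {p : ℕ} (hp : p.Prime) (e : ℕ) [NeZero (p ^ e)] {s : ℕ} (hs : 0 < s)
    (y : ZMod (p ^ e)) (hy : IsUnit y) :
    (univ.filter fun x : ZMod (p ^ e) => x ^ s = y ^ s).card ≤ 2 * s := by
  classical
  obtain ⟨g, hg⟩ := exists_gen hp e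
  obtain ⟨y, rfl⟩ := hy
  refine le_trans ?_ (card_pow_le g hg hs)
  refine le_trans (card_le_card (t := (univ.filter fun u : (ZMod (p ^ e))ˣ => u ^ s = 1).image
    fun u => ((u * y : (ZMod (p ^ e))ˣ) : ZMod (p ^ e))) ?_) card_image_le
  intro x hx
  have hx := (mem_filter.1 hx).2
  have hu : IsUnit x := by
    rw [← isUnit_pow_iff hs.ne', hx]
    exact (y.isUnit).pow s
  obtain ⟨x, rfl⟩ := hu
  refine mem_image.2 ⟨x * y⁻¹, mem_filter.2 ⟨mem_univ _, ?_⟩, by simp⟩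
  have : x ^ s = y ^ s := Units.ext (by simpa using hx)
  rw [mul_pow, this, ← mul_pow, mul_inv_cancel, one_pow]

/-- integers of an interval in a class -/
theorem count_class (a v : ℤ) (L : ℕ) {d : ℕ} (hd : 0 < d) :
    |(((Ico a (a + L)).filter fun x => x ≡ v [ZMOD d]).card : ℝ) - (L : ℝ) / d| ≤ 1 := by
  have hd' : (0 : ℤ) < d := by exact_mod_cast hd
  have hq : (0 : ℚ) < d := by exact_mod_cast hd
  have h := Int.Ico_filter_modEq_card a (a + L) hd' v
  have hle : ⌈((a : ℚ) - v) / ((d : ℤ) : ℚ)⌉ ≤ ⌈(((a + L : ℤ) : ℚ) - v) / ((d : ℤ) : ℚ)⌉ := by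
    refine Int.ceil_mono ?_
    push_cast
    have : (0 : ℚ) ≤ L := Nat.cast_nonneg _
    gcongr
    linarith
  rw [max_eq_left (sub_nonneg.2 hle)] at h
  have h' : ((((Ico a (a + L)).filter fun x => x ≡ v [ZMOD d]).card : ℤ) : ℚ) =
      (⌈(((a + L : ℤ) : ℚ) - v) / ((d : ℤ) : ℚ)⌉ : ℚ) - ⌈((a : ℚ) - v) / ((d : ℤ) : ℚ)⌉ := by
    rw [h]; push_cast; ring
  have k1 := Int.le_ceil ((((a + L : ℤ) : ℚ) - v) / ((d : ℤ) : ℚ))
  have k2 := Int.ceil_lt_add_one ((((a + L : ℤ) : ℚ) - v) / ((d : ℤ) : ℚ))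
  have k3 := Int.le_ceil (((a : ℚ) - v) / ((d : ℤ) : ℚ))
  have k4 := Int.ceil_lt_add_one (((a : ℚ) - v) / ((d : ℤ) : ℚ))
  have k5 : (((a + L : ℤ) : ℚ) - v) / ((d : ℤ) : ℚ) - ((a : ℚ) - v) / ((d : ℤ) : ℚ) =
      (L : ℚ) / d := by
    push_cast; ring
  have k6 : |((((Ico a (a + L)).filter fun x => x ≡ v [ZMOD d]).card : ℕ) : ℚ) - (L : ℚ) / d| ≤ 1 := by
    rw [Int.cast_natCast] at h'
    rw [h', abs_le]
    constructor <;> linarith
  have k7 := (Rat.cast_le (K := ℝ)).2 k6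
  push_cast at k7
  exact k7

theorem tot_mul_V {q : ℕ} (hq : 0 < q) (z : ℕ) :
    (q.totient : ℝ) * ∏ p ∈ PP q z, (1 - (1 : ℝ) / p) ≤ q * ∏ p ∈ PP 1 z, (1 - (1 : ℝ) / p) := by
  classical
  have h1 : (q.totient : ℝ) = q * ∏ p ∈ q.primeFactors, (1 - (1 : ℝ) / p) := by
    have := congrArg (fun x : ℚ => (x : ℝ)) (Nat.totient_eq_mul_prod_factors q)
    simpa using this
  have hf : ∀ p : ℕ, p.Prime → 0 ≤ 1 - (1 : ℝ) / p ∧ 1 - (1 : ℝ) / p ≤ 1 := fun p hp => by
    have : (1 : ℝ) ≤ p := by exact_mod_cast hp.one_le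
    refine ⟨?_, by simp⟩
    rw [sub_nonneg, div_le_one (by linarith)]; exact this
  have hd : Disjoint q.primeFactors (PP q z) := by
    rw [disjoint_left]
    intro p h1 h2
    exact (mem_PP.1 h2).2.2 (Nat.dvd_of_mem_primeFactors h1)
  rw [h1, mul_assoc, ← prod_union hd]
  refine mul_le_mul_of_nonneg_left ?_ (Nat.cast_nonneg _)
  have hs : PP 1 z ⊆ q.primeFactors ∪ PP q z := by
    intro p hp
    obtain ⟨p1, p2, -⟩ := mem_PP.1 hp
    by_cases h : p ∣ q
    · exact mem_union_left _ (Nat.mem_primeFactors.2 ⟨p2, h, hq.ne'⟩)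
    · exact mem_union_right _ (mem_PP.2 ⟨p1, p2, h⟩)
  have hp : ∀ p ∈ q.primeFactors ∪ PP q z, p.Prime := by
    intro p hp
    rcases mem_union.1 hp with h | h
    · exact Nat.prime_of_mem_primeFactors h
    · exact (mem_PP.1 h).2.1
  rw [← prod_sdiff hs]
  refine mul_le_of_le_one_left (V_nonneg 1 z) ?_
  exact prod_le_one (fun p h => (hf p (hp p (mem_sdiff.1 h).1)).1)
    fun p h => (hf p (hp p (mem_sdiff.1 h).1)).2

end Sparse

open Sparse

/-- upper bound sieve for rough integers in an interval and a residue class -/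
theorem rough_class : ∃ K : ℝ, 0 < K ∧ ∀ (z q L : ℕ) (a c : ℤ) (S : Finset ℤ), 2 ≤ z → 0 < q →
    z ^ 9 * q ≤ L → S ⊆ Ico a (a + L) → (∀ m ∈ S, m ≡ c [ZMOD q]) →
    (∀ m ∈ S, ∀ p : ℕ, p.Prime → p ≤ z → ¬ p ∣ q → ¬ (p : ℤ) ∣ m) →
    (S.card : ℝ) * (q.totient * Real.log z) ≤ K * L := by
  classical
  obtain ⟨C, hC, h⟩ := Ch.sieve 1 (1 / 2) zero_le_one (by norm_num)
  obtain ⟨C1, hC1, hV⟩ := Ch.Rough.V_le Ch.m1 (b := 1) one_pos
  refine ⟨(1 + C) * C1 + 2, by positivity, fun z q L a c S hz hq hL hS hc hr => ?_⟩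
  have hz' : (2 : ℝ) ≤ z := by exact_mod_cast hz
  have hq' : (0 : ℝ) < q := by exact_mod_cast hq
  have lz : 0 < Real.log z := Real.log_pos (by linarith)
  set A := (Ico a (a + L)).filter fun x => x ≡ c [ZMOD q] with hA
  have hX : (0 : ℝ) ≤ (L : ℝ) / q := by positivity
  have cnt : ∀ T ⊆ Ch.Rough.PP q z,
      |((A.filter fun x => ∀ p ∈ T, (p : ℤ) ∣ x).card : ℝ) -
        (L : ℝ) / q * ∏ p ∈ T, (1 : ℝ) / p| ≤ 1 := by
    intro T hT
    have hT' : ∀ p ∈ T, p.Prime := fun p hp => (Ch.Rough.mem_PP.1 (hT hp)).2.1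
    have hd := Ch.Rough.pv_pos hT'
    have hco : Nat.Coprime (Ch.pv T) q := Nat.Coprime.prod_left fun p hp =>
      (Nat.Prime.coprime_iff_not_dvd (hT' p hp)).2 (Ch.Rough.mem_PP.1 (hT hp)).2.2
    obtain ⟨v, v1, v2⟩ : ∃ v : ℤ, v ≡ c [ZMOD q] ∧ v ≡ 0 [ZMOD (Ch.pv T : ℕ)] := by
      obtain ⟨u, w, huw⟩ : IsCoprime ((Ch.pv T : ℕ) : ℤ) (q : ℤ) := Nat.isCoprime_iff_coprime.2 hco
      refine ⟨c * (u * (Ch.pv T : ℕ)), ?_, ?_⟩
      · rw [Int.modEq_iff_dvd]
        exact ⟨c * w, by linear_combination (-c) * huw⟩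
      · rw [Int.modEq_zero_iff_dvd]
        exact ⟨c * u, by ring⟩
    have e : (A.filter fun x => ∀ p ∈ T, (p : ℤ) ∣ x) =
        (Ico a (a + L)).filter fun x => x ≡ v [ZMOD (q * Ch.pv T : ℕ)] := by
      rw [hA, filter_filter]
      refine filter_congr fun x _ => ?_
      have e1 : (∀ p ∈ T, (p : ℤ) ∣ x) ↔ ((Ch.pv T : ℕ) : ℤ) ∣ x := by
        simp only [Int.natCast_dvd]
        exact Ch.Rough.forall_dvd_iff hT' _
      rw [e1, Nat.cast_mul, ← Int.modEq_and_modEq_iff_modEq_mul (by simpa using hco.symm),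
        ← Int.modEq_zero_iff_dvd]
      exact ⟨fun h => ⟨h.1.trans v1.symm, h.2.trans v2.symm⟩, fun h => ⟨h.1.trans v1, h.2.trans v2⟩⟩
    rw [e, Ch.Rough.prod_inv]
    have := count_class a v L (Nat.mul_pos hq hd)
    have e2 : (L : ℝ) / q * (1 / (Ch.pv T : ℕ)) = (L : ℝ) / ((q * Ch.pv T : ℕ) : ℝ) := by
      push_cast; rw [← div_div, ← div_eq_mul_one_div]
    rw [e2]
    exact this
  have key := h ℤ A (fun _ => 1) z 0 (Ch.Rough.PP q z) (fun x p => (p : ℤ) ∣ x)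
    (fun p => (1 : ℝ) / p) ((L : ℝ) / q) 1 (((L : ℝ) / q : ℝ) : ℂ) (fun _ => 1) hz hX
    (by rw [Complex.norm_real, Real.norm_eq_abs, abs_of_nonneg hX]) (by simp)
    (fun p hp => ⟨(Ch.Rough.mem_PP.1 hp).2.1, (Ch.Rough.mem_PP.1 hp).1⟩)
    (fun p hp => by
      have : (2 : ℝ) ≤ p := by exact_mod_cast (Ch.Rough.mem_PP.1 hp).2.1.two_le
      refine ⟨by positivity, le_rfl, ?_⟩
      rw [div_le_iff₀ (by linarith)]; linarith) (fun _ => zero_le_one)
    (fun T hT _ => cnt T hT)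
    (fun T hT _ => by
      have := cnt T hT
      rw [← Real.norm_eq_abs, ← Complex.norm_real] at this
      simpa using this)
  simp only [sum_const, nsmul_eq_mul, mul_one, Nat.card_Icc, add_tsub_cancel_right, pow_zero,
    div_one, mul_zero, zero_add] at key
  rw [← Complex.ofReal_mul, ← Complex.ofReal_natCast, ← Complex.ofReal_sub, Complex.norm_real,
    Real.norm_eq_abs] at key
  have k1 := (abs_le.1 key).2
  have k2 : (S.card : ℝ) ≤ (A.filter fun x => ∀ p ∈ Ch.Rough.PP q z, ¬ (p : ℤ) ∣ x).card := by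
    refine Nat.cast_le.2 (card_le_card fun m hm => ?_)
    refine mem_filter.2 ⟨mem_filter.2 ⟨hS hm, hc m hm⟩, fun p hp => ?_⟩
    obtain ⟨p1, p2, p3⟩ := Ch.Rough.mem_PP.1 hp
    exact hr m hm p p2 p1 p3
  have k3 := tot_mul_V hq z
  have k4 := hV z hz
  have k5 := Ch.Rough.V_nonneg q z
  have k6 : (q.totient : ℝ) ≤ q := by exact_mod_cast Nat.totient_le q
  have k7 : ((z ^ 6 : ℕ) : ℝ) ≤ (z : ℝ) ^ 8 := by
    push_cast; exact pow_le_pow_right₀ (by linarith) (by norm_num)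
  have k8 : Real.log z ≤ z := Real.log_le_self (by linarith)
  have k9 : (z : ℝ) ^ 9 * q ≤ L := by exact_mod_cast hL
  have hL0 : (0 : ℝ) ≤ L := Nat.cast_nonneg _
  have ht0 : (0 : ℝ) ≤ q.totient := Nat.cast_nonneg _
  generalize ∏ p ∈ Ch.Rough.PP q z, (1 - (1 : ℝ) / p) = V at *
  generalize ∏ p ∈ Ch.Rough.PP 1 z, (1 - (1 : ℝ) / p) = W at *
  rw [le_div_iff₀ lz] at k4
  have m1 : (S.card : ℝ) ≤ (1 + C) * ((L : ℝ) / q * V) + 2 * (z : ℝ) ^ 8 := by linarith
  have m2 : (L : ℝ) / q * V * (q.totient * Real.log z) ≤ C1 * L := by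
    have : (L : ℝ) / q * V * (q.totient * Real.log z) =
        (L : ℝ) / q * Real.log z * (q.totient * V) := by ring
    rw [this]
    calc _ ≤ (L : ℝ) / q * Real.log z * (q * W) := by gcongr
      _ = L * (W * Real.log z) := by field_simp
      _ ≤ L * C1 := by gcongr
      _ = _ := mul_comm _ _
  have m3 : (z : ℝ) ^ 8 * (q.totient * Real.log z) ≤ L := by
    calc _ ≤ (z : ℝ) ^ 8 * (q * z) := by gcongr
      _ = (z : ℝ) ^ 9 * q := by ring
      _ ≤ _ := k9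
  calc _ ≤ ((1 + C) * ((L : ℝ) / q * V) + 2 * (z : ℝ) ^ 8) * (q.totient * Real.log z) := by gcongr
    _ = (1 + C) * ((L : ℝ) / q * V * (q.totient * Real.log z)) +
        2 * ((z : ℝ) ^ 8 * (q.totient * Real.log z)) := by ring
    _ ≤ (1 + C) * (C1 * L) + 2 * L := by gcongr
    _ = _ := by ring

/-- rough integers m of an interval with r | m^s - m0^s, r a prime power -/
theorem rough_root : ∃ K : ℝ, 0 < K ∧ ∀ (s z p e L : ℕ) (a m0 : ℤ) (S : Finset ℤ), 0 < s → 2 ≤ z →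
    p.Prime → 0 < e → z ^ 9 * p ^ e ≤ L → S ⊆ Ico a (a + L) → ¬ (p : ℤ) ∣ m0 →
    (∀ m ∈ S, ((p ^ e : ℕ) : ℤ) ∣ m ^ s - m0 ^ s) →
    (∀ m ∈ S, ∀ l : ℕ, l.Prime → l ≤ z → l ≠ p → ¬ (l : ℤ) ∣ m) →
    (S.card : ℝ) * ((p ^ e : ℕ) * Real.log z) ≤ K * s * L := by
  classical
  obtain ⟨K, hK, h⟩ := rough_class
  refine ⟨4 * K, by positivity, fun s z p e L a m0 S hs hz hp he hL hS h0 hd hr => ?_⟩
  have hq : 0 < p ^ e := pow_pos hp.pos e
  haveI : NeZero (p ^ e) := ⟨hq.ne'⟩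
  have hz' : (2 : ℝ) ≤ z := by exact_mod_cast hz
  have lz : 0 < Real.log z := Real.log_pos (by linarith)
  have hu : IsUnit ((m0 : ℤ) : ZMod (p ^ e)) := by
    rw [ZMod.coe_int_isUnit_iff_isCoprime, Nat.cast_pow]
    exact IsCoprime.pow_left
      (((Nat.prime_iff_prime_int.1 hp).irreducible.coprime_iff_not_dvd).2 h0)
  have h1 := card_root_le hp e hs _ hu
  set R := univ.filter fun x : ZMod (p ^ e) => x ^ s = ((m0 : ℤ) : ZMod (p ^ e)) ^ s with hR
  have h2 : S.card = ∑ x ∈ R, (S.filter fun m => ((m : ℤ) : ZMod (p ^ e)) = x).card := by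
    refine card_eq_sum_card_fiberwise fun m hm => ?_
    refine mem_coe.2 (mem_filter.2 ⟨mem_univ _, ?_⟩)
    have := (ZMod.intCast_zmod_eq_zero_iff_dvd _ _).2 (hd m hm)
    push_cast at this
    exact sub_eq_zero.1 this
  have h3 : ((p ^ e : ℕ) : ℝ) ≤ 2 * (p ^ e).totient := by
    have : p ^ e ≤ 2 * (p ^ e).totient := by
      rcases e with _ | e
      · simp
      · rw [Nat.totient_prime_pow hp (Nat.succ_pos e), Nat.succ_sub_one, pow_succ]
        have := hp.two_le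
        calc p ^ e * p ≤ p ^ e * (2 * (p - 1)) := Nat.mul_le_mul_left _ (by omega)
          _ = _ := by ring
    exact_mod_cast this
  have h4 : ∀ x ∈ R, ((S.filter fun m => ((m : ℤ) : ZMod (p ^ e)) = x).card : ℝ) *
      ((p ^ e : ℕ) * Real.log z) ≤ 2 * (K * L) := by
    intro x _
    have := h z (p ^ e) L a (x.cast) (S.filter fun m => ((m : ℤ) : ZMod (p ^ e)) = x) hz hq hL
      ((filter_subset _ _).trans hS)
      (fun m hm => by
        rw [← ZMod.intCast_eq_intCast_iff, (mem_filter.1 hm).2, ZMod.intCast_zmod_cast])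
      (fun m hm l l1 l2 l3 => by
        by_cases hl : l = p
        · subst hl
          exact absurd (dvd_pow_self l he.ne') l3
        · exact hr m (mem_filter.1 hm).1 l l1 l2 hl)
    calc _ ≤ ((S.filter fun m => ((m : ℤ) : ZMod (p ^ e)) = x).card : ℝ) *
          ((2 * (p ^ e).totient) * Real.log z) := by gcongr
      _ = 2 * (((S.filter fun m => ((m : ℤ) : ZMod (p ^ e)) = x).card : ℝ) *
          ((p ^ e).totient * Real.log z)) := by ring
      _ ≤ _ := by gcongr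
  rw [h2, Nat.cast_sum, sum_mul]
  refine (sum_le_card_nsmul _ _ _ h4).trans ?_
  rw [nsmul_eq_mul]
  have h5 : (R.card : ℝ) ≤ 2 * s := by exact_mod_cast h1
  calc _ ≤ (2 * s) * (2 * (K * L)) := by gcongr
    _ = _ := by ring

/-- bounded modulus: if q divides m^s - m0^s on a set of rough numbers of sieve density then q
divides a fixed integer -/
theorem rough_dvd (s : ℕ) (hs : 0 < s) {δ : ℝ} (hδ : 0 < δ) : ∃ T : ℕ, 0 < T ∧
    ∀ (z q L : ℕ) (a m0 : ℤ) (S : Finset ℤ), 2 ≤ z → 0 < q → q ≤ z → z ^ 10 ≤ L →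
      S ⊆ Ico a (a + L) → δ * L ≤ Real.log z * S.card →
      (∀ p : ℕ, p.Prime → p ≤ z → ¬ (p : ℤ) ∣ m0) →
      (∀ m ∈ S, ∀ p : ℕ, p.Prime → p ≤ z → ¬ (p : ℤ) ∣ m) →
      (∀ m ∈ S, (q : ℤ) ∣ m ^ s - m0 ^ s) → q ∣ T := by
  obtain ⟨K, hK, h⟩ := rough_root
  refine ⟨(⌈K * s / δ⌉₊).factorial, Nat.factorial_pos _,
    fun z q L a m0 S hz hq hqz hL hS hc h0 hr hd => ?_⟩
  rw [Nat.dvd_iff_prime_pow_dvd_dvd]
  intro p e hp hpe
  rcases Nat.eq_zero_or_pos e with rfl | he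
  · simp
  have h1 : p ^ e ≤ z := (Nat.le_of_dvd hq hpe).trans hqz
  have h2 : p ≤ z := (Nat.le_self_pow he.ne' p).trans h1
  have hL0 : (0 : ℝ) < L := by
    have : 0 < z ^ 10 := pow_pos (by omega) _
    exact_mod_cast this.trans_le hL
  have := h s z p e L a m0 S hs hz hp he
    (le_trans (by rw [pow_succ z 9]; exact Nat.mul_le_mul_left _ h1) hL) hS (h0 p hp h2)
    (fun m hm => (Int.natCast_dvd_natCast.2 hpe).trans (hd m hm))
    (fun m hm l l1 l2 _ => hr m hm l l1 l2)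
  refine Nat.dvd_factorial (pow_pos hp.pos e) ?_
  have h3 : ((p ^ e : ℕ) : ℝ) ≤ K * s / δ := by
    rw [le_div_iff₀ hδ]
    refine le_of_mul_le_mul_right ?_ hL0
    calc ((p ^ e : ℕ) : ℝ) * δ * L = (p ^ e : ℕ) * (δ * L) := by ring
      _ ≤ (p ^ e : ℕ) * (Real.log z * S.card) := by gcongr
      _ = (S.card : ℝ) * ((p ^ e : ℕ) * Real.log z) := by ring
      _ ≤ _ := this
  exact_mod_cast h3.trans (Nat.le_ceil _)

/-- SCALAR LEMMA, sparse form. S is a set of z-rough integers within N of the z-rough integer m0,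
of density at least delta / log z (and 1 / A); alpha (m^s - m0^s) is eps-close to the integers on S.
Then T alpha is close to an integer, T depending on s and delta only. -/
theorem sparse (s : ℕ) (hs : 0 < s) {δ : ℝ} (hδ : 0 < δ) : ∃ T C : ℕ, 0 < T ∧
    ∀ (A N B ε α : ℝ) (z : ℕ) (m0 : ℤ) (S : Finset ℤ),
      2 ≤ A → A ^ C ≤ z → (z : ℝ) ^ 10 ≤ N → N ≤ B → |(m0 : ℝ)| ≤ B →
      ε * A ^ C * (B / N) ^ s ≤ 1 →
      (∀ m ∈ S, |(m : ℝ) - m0| ≤ N) → N ≤ A * S.card → δ * N ≤ Real.log z * S.card →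
      (∀ p : ℕ, p.Prime → p ≤ z → ¬ (p : ℤ) ∣ m0) →
      (∀ m ∈ S, ∀ p : ℕ, p.Prime → p ≤ z → ¬ (p : ℤ) ∣ m) →
      (∀ m ∈ S, ∃ k : ℤ, |α * ((m : ℝ) ^ s - (m0 : ℝ) ^ s) - k| ≤ ε) →
      ∃ a : ℤ, |T * α - a| * N ^ s ≤ A ^ C * ε := by
  classical
  obtain ⟨d, rfl⟩ : ∃ d, s = d + 1 := ⟨s - 1, by omega⟩
  obtain ⟨C0, hv⟩ := vin_top d
  obtain ⟨T, hT, hd⟩ := rough_dvd (d + 1) hs (δ := δ / 3) (by positivity)
  refine ⟨T, C0 + (d + 4) + T + 1, hT,
    fun A N B ε α z m0 S hA hz hN hB hm0 hε hS hc hc' h0 hr h => ?_⟩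
  have hA0 : 0 < A := by linarith
  have hA1 : 1 ≤ A := by linarith
  have hmono : ∀ {i j : ℕ}, i ≤ j → A ^ i ≤ A ^ j := fun hij => pow_le_pow_right₀ hA1 hij
  have hz2 : (2 : ℝ) ≤ z := by
    refine le_trans ?_ hz
    calc (2 : ℝ) ≤ A ^ 1 := by rwa [pow_one]
      _ ≤ _ := hmono (by omega)
  have hz2' : 2 ≤ z := by exact_mod_cast hz2
  have hzN : (z : ℝ) ≤ N := le_trans (le_self_pow₀ (by linarith) (by norm_num)) hN
  have hN0 : 0 < N := by linarith
  have hBN : 1 ≤ B / N := by rwa [le_div_iff₀ hN0, one_mul]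
  have hBN' : 1 ≤ (B / N) ^ (d + 1) := one_le_pow₀ hBN
  obtain ⟨m1, hm1⟩ : S.Nonempty := by
    rw [← card_pos]
    by_contra hh
    have : S.card = 0 := by omega
    rw [this] at hc
    simp at hc
    linarith
  have hε0 : 0 ≤ ε := by
    obtain ⟨k, hk⟩ := h m1 hm1
    exact (abs_nonneg _).trans hk
  set P : ℝ[X] := Polynomial.C α * ((X + Polynomial.C (m0 : ℝ)) ^ (d + 1) -
    Polynomial.C ((m0 : ℝ) ^ (d + 1))) with hP
  have hdeg : P.natDegree ≤ d + 1 := by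
    rw [hP]
    compute_degree
  have hco : P.coeff (d + 1) = α := by
    rw [hP, coeff_C_mul, coeff_sub, coeff_X_add_C_pow, coeff_C_succ]
    simp
  have hinj : Function.Injective fun m : ℤ => m - m0 := sub_left_injective
  obtain ⟨q, hq, hqA, a, ha⟩ := hv A ε N (S.image fun m => m - m0) P hdeg hA
    (((hmono (by omega)).trans hz).trans hzN)
    (by
      refine le_trans ?_ hε
      calc ε * A ^ C0 ≤ ε * A ^ (C0 + (d + 4) + T + 1) := by gcongr; omega
        _ = ε * A ^ (C0 + (d + 4) + T + 1) * 1 := (mul_one _).symm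
        _ ≤ _ := by gcongr)
    (fun k hk => by
      obtain ⟨m, hm, rfl⟩ := mem_image.1 hk
      push_cast
      exact hS m hm)
    (by rwa [card_image_of_injective _ hinj])
    (fun k hk => by
      obtain ⟨m, hm, rfl⟩ := mem_image.1 hk
      obtain ⟨n, hn⟩ := h m hm
      refine ⟨n, ?_⟩
      simpa [hP] using hn)
  rw [hco] at ha
  -- reduce the fraction
  obtain ⟨g, q', a', hg, hcop, hq', ha'⟩ : ∃ (g q' : ℕ) (a' : ℤ), 0 < g ∧ IsCoprime (q' : ℤ) a' ∧
      q = q' * g ∧ a = a' * g := by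
    obtain ⟨g, x, y, hg, hxy, hx, hy⟩ := Int.exists_gcd_one' (m := (q : ℤ)) (n := a)
      (Int.gcd_pos_of_ne_zero_left _ (by exact_mod_cast hq.ne'))
    have hx0 : 0 ≤ x := by
      by_contra hh
      have : x * (g : ℤ) ≤ 0 := mul_nonpos_of_nonpos_of_nonneg (by omega) (by positivity)
      omega
    lift x to ℕ using hx0
    exact ⟨g, x, y, hg, Int.isCoprime_iff_gcd_eq_one.2 hxy, by exact_mod_cast hx, hy⟩
  have hq'0 : 0 < q' := Nat.pos_of_mul_pos_right (hq' ▸ hq)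
  have hg1 : (1 : ℝ) ≤ g := by exact_mod_cast hg
  have hq'A : (q' : ℝ) ≤ A ^ C0 := by
    refine le_trans ?_ hqA
    rw [hq']; push_cast
    exact le_mul_of_one_le_right (Nat.cast_nonneg _) hg1
  have hNs : 0 < N ^ (d + 1) := by positivity
  have hb : |q' * α - a'| * N ^ (d + 1) ≤ A ^ C0 * ε := by
    refine le_trans ?_ ha
    refine mul_le_mul_of_nonneg_right ?_ hNs.le
    have : (q : ℝ) * α - a = (q' * α - a') * g := by rw [hq', ha']; push_cast; ring
    rw [this, abs_mul, abs_of_nonneg (by linarith : (0 : ℝ) ≤ g)]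
    exact le_mul_of_one_le_right (abs_nonneg _) hg1
  have hdiv : ∀ m ∈ S, (q' : ℤ) ∣ m ^ (d + 1) - m0 ^ (d + 1) := by
    intro m hm
    obtain ⟨n, hn⟩ := h m hm
    set D : ℝ := (m : ℝ) ^ (d + 1) - (m0 : ℝ) ^ (d + 1) with hD
    have hB0 : 0 < B := by linarith
    have d1 : |(m : ℝ)| ≤ 2 * B := by
      have := hS m hm
      have := abs_add_le ((m : ℝ) - m0) m0
      rw [sub_add_cancel] at this
      linarith
    have d2 : |D| ≤ 2 * (2 * B) ^ (d + 1) := by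
      refine (abs_sub _ _).trans ?_
      rw [abs_pow, abs_pow, two_mul]
      gcongr
      linarith
    have d3 : |q' * α - a'| * |D| ≤ A ^ C0 * ε * (2 * 2 ^ (d + 1) * (B / N) ^ (d + 1)) := by
      calc _ ≤ |q' * α - a'| * (2 * (2 * B) ^ (d + 1)) := by gcongr
        _ = |q' * α - a'| * N ^ (d + 1) * (2 * 2 ^ (d + 1) * (B / N) ^ (d + 1)) := by
          rw [div_pow, mul_pow]; field_simp
        _ ≤ _ := by gcongr
    have d4 : |((a' * (m ^ (d + 1) - m0 ^ (d + 1)) - q' * n : ℤ) : ℝ)| < 1 := by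
      have e : ((a' * (m ^ (d + 1) - m0 ^ (d + 1)) - q' * n : ℤ) : ℝ) =
          q' * (α * D - n) - (q' * α - a') * D := by
        rw [hD]; push_cast; ring
      rw [e]
      refine (abs_sub _ _).trans_lt ?_
      rw [abs_mul, abs_mul, Nat.abs_cast]
      have d5 : (q' : ℝ) * |α * D - n| ≤ A ^ C0 * ε := by gcongr
      have d6 : (1 : ℝ) ≤ 2 ^ (d + 1) := one_le_pow₀ (by norm_num)
      have d7 : (2 : ℝ) ^ (d + 1) * 8 ≤ A ^ (d + 4) := by
        refine le_trans (le_of_eq ?_) (two_pow_le hA (d + 4))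
        ring
      have d8 : A ^ C0 * A ^ (d + 4) ≤ A ^ (C0 + (d + 4) + T + 1) := by
        rw [← pow_add]; exact hmono (by omega)
      have d9 : 0 ≤ A ^ C0 * ε := by positivity
      have d10 : A ^ C0 * ε * (2 ^ (d + 1) * (B / N) ^ (d + 1)) * 8 ≤ 1 := by
        refine le_trans ?_ hε
        calc _ = ε * (A ^ C0 * (2 ^ (d + 1) * 8)) * (B / N) ^ (d + 1) := by ring
          _ ≤ ε * (A ^ C0 * A ^ (d + 4)) * (B / N) ^ (d + 1) := by gcongr
          _ ≤ _ := by gcongr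
      have d11 : A ^ C0 * ε * 1 ≤ A ^ C0 * ε * (2 ^ (d + 1) * (B / N) ^ (d + 1)) := by
        gcongr
        exact one_le_mul_of_one_le_of_one_le d6 hBN'
      nlinarith
    have d12 : a' * (m ^ (d + 1) - m0 ^ (d + 1)) - q' * n = 0 := by
      rw [← Int.cast_abs] at d4
      have : |a' * (m ^ (d + 1) - m0 ^ (d + 1)) - q' * n| < 1 := by exact_mod_cast d4
      exact Int.abs_lt_one_iff.1 this
    exact hcop.dvd_of_dvd_mul_left ⟨n, sub_eq_zero.1 d12⟩
  have hfl : (⌊N⌋₊ : ℝ) ≤ N := Nat.floor_le hN0.le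
  obtain ⟨t, ht⟩ := hd z q' (2 * ⌊N⌋₊ + 1) (m0 - ⌊N⌋₊) m0 S hz2' hq'0
    (by exact_mod_cast (hq'A.trans (hmono (by omega))).trans hz)
    (by
      have : z ^ 10 ≤ ⌊N⌋₊ := Nat.le_floor (by exact_mod_cast hN)
      omega)
    (fun m hm => by
      have h1 : |m - m0| ≤ ⌊N⌋₊ := by
        have h2 : (((m - m0).natAbs : ℕ) : ℝ) ≤ N := by
          rw [Nat.cast_natAbs]; push_cast; exact hS m hm
        have h3 := Nat.le_floor h2
        rw [← Int.natCast_natAbs]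
        exact_mod_cast h3
      rw [abs_le] at h1
      rw [mem_Ico]
      push_cast
      omega)
    (by
      refine le_trans ?_ hc'
      push_cast
      nlinarith) h0 hr hdiv
  refine ⟨t * a', ?_⟩
  have e : (T : ℝ) * α - ((t * a' : ℤ) : ℝ) = t * (q' * α - a') := by
    rw [ht]; push_cast; ring
  have ht' : (t : ℝ) ≤ A ^ T := by
    refine le_trans ?_ (nat_le_pow hA T)
    exact_mod_cast Nat.le_of_dvd hT ⟨q', by rw [ht, mul_comm]⟩
  rw [e, abs_mul, Nat.abs_cast, mul_assoc]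
  calc _ ≤ A ^ T * (A ^ C0 * ε) := by gcongr
    _ = A ^ (T + C0) * ε := by ring
    _ ≤ _ := mul_le_mul_of_nonneg_right (hmono (by omega)) hε0

end Pool.Agent.P.MP_a14ce1_nt.Nil
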