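import Pool.Agent.P.MP_a14ce1_nt.Nil.Sym

/-!
Admissible pairs, peeling, nested resolution, normalisation.
-/

open Finset MvPolynomial

set_option linter.unusedSectionVars false

noncomputable section

namespace Pool.Agent.P.MP_a14ce1_nt.Nil

variable {FF : Type} [Field FF] [CharZero FF] {ι : Type} [Fintype ι] [DecidableEq ι]
  {K : Subfield FF} {lv : ι → ℕ} {σ τ : Type} {I : Type} [AddCommMonoid I]

section Adm

variable {g : Fam K lv ℕ} {n : Submodule FF (Matrix ι ι FF)} {i : ℕ}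
  {η : Matrix ι ι FF →ₗ[FF] FF} {D : ℕ}

/-- The kernel system of an admissible pair. -/
def Adm.ker (h : Adm g n i η) (hg : g.Fil D) : Fam K lv ℕ where
  r j := if max j 1 = i then g.r j ⊓ LinearMap.ker η else g.r j
  up j X hX := by
    split_ifs at hX
    exacts [g.up j X hX.1, g.up j X hX]
  rat j := by
    split_ifs
    exacts [(g.rat j).inf h.rat.ker, g.rat j]
  br a b X hX Y hY := by
    have hX' : X ∈ g.r a := by split_ifs at hX; exacts [hX.1, hX]
    have hY' : Y ∈ g.r b := by split_ifs at hY; exacts [hY.1, hY]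
    split_ifs with hab
    · refine ⟨g.br a b X hX' Y hY', ?_⟩
      by_cases h0 : a + b = 0
      · obtain ⟨rfl, rfl⟩ := add_eq_zero.1 h0
        exact h.br 0 1 (by omega) X hX' Y (hg.zero ▸ hY')
      · exact h.br a b (by omega) X hX' Y hY'
    · exact g.br a b X hX' Y hY'

theorem Adm.mem_ker (h : Adm g n i η) (hg : g.Fil D) {j : ℕ} {X : Matrix ι ι FF} :
    X ∈ (h.ker hg).r j ↔ X ∈ g.r j ∧ (max j 1 = i → η X = 0) := by
  change X ∈ (if max j 1 = i then g.r j ⊓ LinearMap.ker η else g.r j) ↔ _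
  split_ifs with hj <;> simp [hj]

theorem Adm.ker_le (h : Adm g n i η) (hg : g.Fil D) : h.ker hg ≤ g :=
  fun _ _ hX => ((h.mem_ker hg).1 hX).1

theorem Adm.le (h : Adm g n i η) (hg : g.Fil D) : i ≤ D := by
  obtain ⟨X, hX, h0⟩ := h.ne
  by_contra hc
  rw [hg.eq_bot (not_le.1 hc), Submodule.mem_bot] at hX
  exact h0 (by rw [hX, map_zero])

theorem Adm.ker_lt (h : Adm g n i η) (hg : g.Fil D) : (h.ker hg).r i < g.r i := by
  obtain ⟨X, hX, h0⟩ := h.ne
  exact lt_of_le_of_ne (h.ker_le hg i) fun e =>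
    h0 (((h.mem_ker hg).1 (e ▸ hX)).2 (by have := h.pos; omega))

theorem Adm.ker_fil (h : Adm g n i η) (hg : g.Fil D) : (h.ker hg).Fil D where
  zero := by ext X; rw [h.mem_ker, h.mem_ker, hg.zero]; rfl
  anti j X hX := by
    rw [h.mem_ker] at hX ⊢
    refine ⟨hg.anti j hX.1, fun hj => ?_⟩
    by_cases h0 : j = 0
    · exact hX.2 (by omega)
    · exact h.nxt X (by rw [← hj, max_eq_left (by omega)]; exact hX.1)
  bd := le_bot_iff.1 (hg.bd ▸ h.ker_le hg _)

theorem Adm.inf_le_ker (h : Adm g n i η) (hg : g.Fil D) (j : ℕ) : g.r j ⊓ n ≤ (h.ker hg).r j :=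
  fun X hX => (h.mem_ker hg).2 ⟨hX.1, fun hj => h.idl X ⟨by
    by_cases h0 : j = 0
    · rw [← hj, h0, max_eq_right (Nat.zero_le 1), ← hg.zero, ← h0]; exact hX.1
    · rw [← hj, max_eq_left (by omega)]; exact hX.1, hX.2⟩⟩

theorem Fam.Idl.mono {g h : Fam K lv I} {n : Submodule FF (Matrix ι ι FF)} (hn : g.Idl n)
    (hle : h ≤ g) (h0 : g.r 0 ⊓ n ≤ h.r 0) : h.Idl n :=
  ⟨hn.rat, fun _ hX => h0 ⟨hn.le hX, hX⟩, fun X hX => hn.br X (hle 0 hX)⟩

theorem Adm.ker_idl (h : Adm g n i η) (hg : g.Fil D) (hn : g.Idl n) : (h.ker hg).Idl n :=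
  hn.mono (h.ker_le hg) (h.inf_le_ker hg 0)

/-- The polynomials on which the admissible functional vanishes. -/
def Adm.J (_ : Adm g n i η) (σ : Type) : Submodule ℚ (Matrix ι ι (MvPolynomial σ FF)) :=
  pm fun β : σ →₀ ℕ => g.r β.degree ⊓ if β.degree = i then LinearMap.ker η else ⊤

theorem Adm.mem_J (h : Adm g n i η) {X : Matrix ι ι (MvPolynomial σ FF)} : X ∈ h.J σ ↔
    X ∈ (g.fine σ).lie.L ∧ ∀ β : σ →₀ ℕ, β.degree = i → η (co β X) = 0 :=
  ⟨fun hX => ⟨fun β => (hX β).1, fun β hβ => by simpa [hβ] using (hX β).2⟩,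
    fun hX β => ⟨hX.1 β, by
      split_ifs with hβ
      exacts [hX.2 β hβ, trivial]⟩⟩

theorem Adm.J_le (h : Adm g n i η) : h.J σ ≤ (g.fine σ).lie.L := fun _ hX => (h.mem_J.1 hX).1

theorem Adm.br_mem_J (h : Adm g n i η) : ∀ a ∈ (g.fine σ).lie.L, ∀ b ∈ (g.fine σ).lie.L,
    a * b - b * a ∈ h.J σ := fun _ ha _ hb =>
  pm_br (r'' := fun β : σ →₀ ℕ => g.r β.degree ⊓ if β.degree = i then LinearMap.ker η else ⊤)
    (fun β γ X hX Y hY => ⟨(g.fine σ).br β γ X hX Y hY, by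
      split_ifs with hβ
      exacts [h.br _ _ (by rwa [map_add] at hβ) X hX Y hY, trivial]⟩) ha hb

theorem Adm.hom {g : Fam K lv ℕ} {n} {i η} (h : Adm g n i η) {D} (_ : g.Fil D)
    {x y : PS lv σ FF} (hx : x ∈ (g.fine σ).PG) (hy : y ∈ (g.fine σ).PG) {β : σ →₀ ℕ}
    (hβ : β.degree = i) : η (co β (lg (x * y))) = η (co β (lg x)) + η (co β (lg y)) := by
  have := (h.mem_J.1 (lg_mul_sub h.J_le (fun a ha b hb => h.br_mem_J a ha b (h.J_le hb)) hx hy
    (h.br_mem_J _ hx _ hy))).2 β hβ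
  rw [co_sub, co_sub, map_sub, map_sub] at this
  linear_combination this

theorem Adm.of_pk (h : Adm g n i η) {X Y : Matrix ι ι (MvPolynomial σ FF)}
    (hXY : X - Y ∈ pk g σ 1) {β : σ →₀ ℕ} (hβ : β.degree = i) : η (co β X) = η (co β Y) := by
  have := h.nxt _ (hβ ▸ mem_pk.1 hXY β)
  rwa [co_sub, map_sub, sub_eq_zero] at this

theorem Adm.sh {g : Fam K lv ℕ} {n} {i η} (h : Adm g n i η) {D} (hg : g.Fil D)
    {x : PS lv σ FF} (hx : x ∈ (g.fine σ).PG) (a : σ → FF) {β : σ →₀ ℕ} (hβ : β.degree = i) :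
    η (co β (lg (sh a x))) = η (co β (lg x)) := h.of_pk (sh_mem hg hx a).2 hβ

theorem Adm.symbol (h : Adm g n i η) (hg : g.Fil D) {x : PS lv σ FF} (hx : x ∈ (g.fine σ).PG)
    (u : σ → FF) {a b : UT lv FF} (ha : a ∈ g.GG) (hb : b ∈ g.GG) {β : σ →₀ ℕ}
    (hβ : β.degree = i) : η (co β (lg (cst σ a * Nil.sh u x * cst σ b))) = η (co β (lg x)) :=
  h.of_pk (Nil.symbol hg hx u ha hb).2 hβ

/-- Irrationality only depends on the symbol. -/
theorem Irr.of_pk {S T : Sc K σ} {x y : PS lv σ FF} (hi : Irr S T g n x)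
    (h : lg y - lg x ∈ pk g σ 1) : Irr S T g n y := fun i η ha => by
  obtain ⟨β, hβ, h1⟩ := hi i η ha
  exact ⟨β, hβ, by rwa [ha.of_pk h hβ]⟩

/-- A homogeneous element with prescribed coefficients along a rational direction. -/
theorem exists_hom_elt {S : Sc K σ} (hi : 1 ≤ i) {W : Matrix ι ι FF} (hW : W ∈ g.r i)
    (hK : Ent (K : Set FF) W) (s : Finset (σ →₀ ℕ)) (c : (σ →₀ ℕ) → FF) (hc : ∀ β, c β ∈ S.s β)
    (h0 : ∀ β, β ∉ s → c β = 0) : ∃ e ∈ (g.fine σ).plus.PG ⊓ S.EE lv,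
      ∀ β : σ →₀ ℕ, co β (lg e) = if β.degree = i then c β • W else 0 := by
  classical
  let p : MvPolynomial σ FF := ∑ β ∈ s.filter fun β => β.degree = i, monomial β (c β)
  have e : ∀ β : σ →₀ ℕ, co β (p • W.map (C : FF → MvPolynomial σ FF))
      = if β.degree = i then c β • W else 0 := fun β => by
    rw [co_smul_C]
    simp only [p, coeff_sum, coeff_monomial, sum_ite_eq', mem_filter]
    by_cases h1 : β.degree = i
    · by_cases h2 : β ∈ s <;> simp [h1, h2, h0]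
    · simp [h1]
  have hm : p • W.map (C : FF → MvPolynomial σ FF) ∈ (g.fine σ).plus.lie.L := fun β => by
    rw [e]
    split_ifs with h1
    · rw [Fam.plus_ne _ (by rintro rfl; simp at h1; omega), Fam.fine_r, h1]
      exact Submodule.smul_mem _ _ hW
    · exact zero_mem _
  have hl := lg_ex ((g.fine σ).plus.lie.up hm)
  refine ⟨_, ⟨ex_mem_grp hm, Sc.mem_EE.2 fun β => ?_⟩, fun β => by rw [hl, e]⟩
  rw [hl, e]
  split_ifs
  exacts [Ent.smul (hc β) hK, Ent.zero _]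

/-- Peeling. -/
theorem peel {S T : Sc K σ} (h : Adm g n i η) (hg : g.Fil D) {x : PS lv σ FF}
    (hx : x ∈ (g.fine σ).plus.PG)
    (hc : ∀ β : σ →₀ ℕ, β.degree = i → η (co β (lg x)) ∈ S.s β ⊔ T.s β) :
    ∃ e ∈ (g.fine σ).plus.PG ⊓ S.EE lv, ∃ y ∈ ((h.ker hg).fine σ).plus.PG,
      ∃ c ∈ (g.fine σ).plus.PG ⊓ T.EE lv, x = e * y * c := by
  obtain ⟨W, hW, hK, h1⟩ := h.rat.exists_one (g.rat i) h.ne
  choose φ p1 _ p3 using fun β : σ →₀ ℕ => exists_split (S.s β) (T.s β)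
  classical
  obtain ⟨e, he, e1⟩ := exists_hom_elt (S := S) h.pos hW hK (supp (lg x))
    (fun β => φ β (η (co β (lg x)))) (fun β => p1 β _) fun β hβ => by simp [co_eq_zero hβ]
  obtain ⟨c, hc', e2⟩ := exists_hom_elt (S := T) h.pos hW hK (supp (lg x))
    (fun β => if β.degree = i then η (co β (lg x)) - φ β (η (co β (lg x))) else 0)
    (fun β => by
      split_ifs with hβ
      exacts [p3 β _ (hc β hβ), zero_mem _]) fun β hβ => by simp [co_eq_zero hβ]
  have hy : e⁻¹ * x * c⁻¹ ∈ (g.fine σ).plus.PG :=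
    mul_mem (mul_mem (inv_mem he.1) hx) (inv_mem hc'.1)
  refine ⟨e, he, e⁻¹ * x * c⁻¹, mem_plus'.2 ⟨fun β hβ => ?_, (mem_plus.1 hy).2⟩, c, hc', by group⟩
  refine (h.mem_ker hg).2 ⟨(mem_plus.1 hy).1 β, fun hi => ?_⟩
  have hd : β.degree = i := by
    have : β.degree ≠ 0 := fun h0 => hβ ((Finsupp.degree_eq_zero_iff β).1 h0)
    omega
  have le := Fam.PG_mono (g.fine σ).plus_le
  rw [h.hom hg (mul_mem (inv_mem (le he.1)) (le hx)) (inv_mem (le hc'.1)) hd,
    h.hom hg (inv_mem (le he.1)) (le hx) hd, lg_inv, lg_inv, ← zero_sub, ← zero_sub (lg c), co_sub,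
    co_sub, e1, e2]
  simp [hd, h1]

end Adm

/-- Nested resolution modulo an ideal. -/
theorem resolve [Fintype σ] (S T : Sc K σ) {g : Fam K lv ℕ} {D} (hg : g.Fil D) {n}
    (hn : g.Idl n) {x : PS lv σ FF} (hx : x ∈ (g.fine σ).plus.PG) :
    ∃ h ≤ g, h.Fil D ∧ (∀ i, g.r i ⊓ n ≤ h.r i) ∧
      ∃ e ∈ (g.fine σ).plus.PG ⊓ S.EE lv, ∃ y ∈ (h.fine σ).plus.PG,
        ∃ c ∈ (g.fine σ).plus.PG ⊓ T.EE lv, x = e * y * c ∧ Irr S T h n y := by
  induction hm : ∑ j ∈ range (D + 1), Module.finrank FF (g.r j) using Nat.strong_induction_on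
    generalizing g x with
  | _ m ih =>
    by_cases hi : Irr S T g n x
    · exact ⟨g, le_rfl, hg, fun _ => inf_le_left, 1, one_mem _, x, hx, 1, one_mem _, by group, hi⟩
    · unfold Irr at hi
      push Not at hi
      obtain ⟨i, η, ha, hc⟩ := hi
      obtain ⟨e, he, y, hy, c, hc', rfl⟩ := peel ha hg hx hc
      have hlt : ∑ j ∈ range (D + 1), Module.finrank FF ((ha.ker hg).r j) < m := by
        rw [← hm]
        exact sum_lt_sum (fun j _ => Submodule.finrank_mono (ha.ker_le hg j))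
          ⟨i, mem_range.2 (Nat.lt_succ_of_le (ha.le hg)),
            Submodule.finrank_lt_finrank_of_lt (ha.ker_lt hg)⟩
      obtain ⟨h, h1, h2, h3, e', he', y', hy', c', hc'', rfl, h4⟩ :=
        ih _ hlt (ha.ker_fil hg) (ha.ker_idl hg hn) hy rfl
      have le := Fam.PG_mono (Fam.plus_mono (Fam.fine_mono (σ := σ) (ha.ker_le hg)))
      exact ⟨h, h1.trans (ha.ker_le hg), h2,
        fun j X hX => h3 j ⟨ha.inf_le_ker hg j hX, hX.2⟩, e * e',
        mul_mem he ⟨le he'.1, he'.2⟩, y', hy', c' * c, mul_mem ⟨le hc''.1, hc''.2⟩ hc',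
        by group, h4⟩

/-- An irrational sequence does not factor through a smaller family. -/
theorem Irr.le {S T : Sc K σ} {g : Fam K lv ℕ} {D} (hg : g.Fil D) {n} (hn : g.Idl n)
    {h : Fam K lv ℕ} {x : PS lv σ FF} (hi : Irr S T g n x)
    (hf : Fac S T (g.fine σ) (h.fine σ) x) (i : ℕ) (h1 : 1 ≤ i) :
    g.r i ≤ (g.r i ⊓ h.r i) ⊔ g.r (i + 1) ⊔ (g.r i ⊓ n) := by
  induction i using Nat.strong_induction_on with
  | _ i ih =>
    by_contra hc
    obtain ⟨η, hη, hk, X0, hX0, -, e1⟩ := exists_RatF (g.rat i)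
      ((((g.rat i).inf (h.rat i)).sup (g.rat (i + 1))).sup ((g.rat i).inf hn.rat)) hc
    have k1 : ∀ X ∈ g.r i ⊓ h.r i, η X = 0 := fun X hX =>
      hk X (Submodule.mem_sup_left (Submodule.mem_sup_left hX))
    have k2 : ∀ X ∈ g.r (i + 1), η X = 0 := fun X hX =>
      hk X (Submodule.mem_sup_left (Submodule.mem_sup_right hX))
    have k3 : ∀ X ∈ g.r i ⊓ n, η X = 0 := fun X hX => hk X (Submodule.mem_sup_right hX)
    have sw : ∀ X Y : Matrix ι ι FF, η (X * Y - Y * X) = 0 → η (Y * X - X * Y) = 0 :=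
      fun X Y h => by rw [← neg_sub, map_neg, h, neg_zero]
    have ad : Adm g n i η := by
      refine ⟨h1, hη, ⟨X0, hX0, by rw [e1]; exact one_ne_zero⟩, k2, fun a b hab X hX Y hY => ?_, k3⟩
      by_cases ha : a = 0
      · subst ha
        exact k2 _ (hg.br0 hX (by rw [← hab, zero_add]; exact hY))
      by_cases hb : b = 0
      · subst hb
        exact sw _ _ (k2 _ (hg.br0 hY (by rw [← hab, add_zero]; exact hX)))
      have up : ∀ a b, a + b = i → ∀ U ∈ g.r a, ∀ V ∈ g.r (b + 1) ⊔ (g.r b ⊓ n),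
          η (U * V - V * U) = 0 := by
        intro a b hab U hU V hV
        obtain ⟨v, hv, w, hw, rfl⟩ := Submodule.mem_sup.1 hV
        have t1 := k2 _ (by rw [← hab, add_assoc]; exact g.br _ _ U hU v hv)
        have t2 := k3 _ ⟨hab ▸ g.br _ _ U hU w hw.1, hn.br U (hg.le (Nat.zero_le _) hU) w hw.2⟩
        rw [show U * (v + w) - (v + w) * U = (U * v - v * U) + (U * w - w * U) by noncomm_ring,
          map_add, t1, t2, add_zero]
      have dX := ih a (by omega) (by omega) hX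
      have dY := ih b (by omega) (by omega) hY
      rw [sup_assoc] at dX dY
      obtain ⟨u, hu, u', hu', rfl⟩ := Submodule.mem_sup.1 dX
      obtain ⟨v, hv, v', hv', rfl⟩ := Submodule.mem_sup.1 dY
      have t1 := k1 _ ⟨hab ▸ g.br _ _ u hu.1 v hv.1, hab ▸ h.br _ _ u hu.2 v hv.2⟩
      have t2 := up a b hab _ hX _ hv'
      have t3 := sw _ _ (up b a (by omega) _ hv.1 _ hu')
      rw [show (u + u') * (v + v') - (v + v') * (u + u') = (u * v - v * u)
        + ((u + u') * v' - v' * (u + u')) + (u' * v - v * u') by noncomm_ring,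
        map_add, map_add, t1, t2, t3, add_zero, add_zero]
    obtain ⟨β, hβ, hne⟩ := hi i η ad
    obtain ⟨e, he, y, hy, c, hc', rfl⟩ := hf
    rw [ad.hom hg (mul_mem he.1 hy.1) hc'.1 hβ, ad.hom hg he.1 hy.1 hβ,
      k1 (co β (lg y)) ⟨hβ ▸ hy.1 β, hβ ▸ hy.2 β⟩, add_zero] at hne
    exact hne (Submodule.add_mem_sup (hη.mem (Sc.mem_EE.1 he.2 β)) (hη.mem (Sc.mem_EE.1 hc'.2 β)))

/-- The same for a nested family: it contains everything modulo the ideal. -/
theorem Irr.le' {S T : Sc K σ} {g : Fam K lv ℕ} {D} (hg : g.Fil D) {n} (hn : g.Idl n)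
    {h : Fam K lv ℕ} (hh : ∀ i, 1 ≤ i → h.r (i + 1) ≤ h.r i) {x : PS lv σ FF}
    (hi : Irr S T g n x) (hf : Fac S T (g.fine σ) (h.fine σ) x) (i : ℕ) (h1 : 1 ≤ i) :
    g.r i ≤ (g.r i ⊓ h.r i) ⊔ (g.r i ⊓ n) := by
  have key : ∀ k i, 1 ≤ i → D < i + k → g.r i ≤ (g.r i ⊓ h.r i) ⊔ (g.r i ⊓ n) := by
    intro k
    induction k with
    | zero => intro i _ h2; exact (hg.eq_bot h2).le.trans bot_le
    | succ k ih =>
      intro i h1 h2
      refine (hi.le hg hn hf i h1).trans (sup_le (sup_le le_sup_left ?_) le_sup_right)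
      exact (ih (i + 1) (by omega) (by omega)).trans
        (sup_le_sup (inf_le_inf (hg.anti i) (hh i h1)) (inf_le_inf_right _ (hg.anti i)))
  exact key D i h1 (by omega)

/-! ### Normalisation -/

theorem ent_mul {O : Subring FF} {X Y : Matrix ι ι FF} (hX : Ent (O : Set FF) X)
    (hY : Ent (O : Set FF) Y) : Ent (O : Set FF) (X * Y) := fun a b => by
  rw [Matrix.mul_apply]
  exact O.sum_mem fun c _ => O.mul_mem (hX a c) (hY c b)

theorem ent_one (O : Subring FF) : Ent (O : Set FF) (1 : Matrix ι ι FF) := fun a b => by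
  rw [Matrix.one_apply]
  split_ifs
  exacts [O.one_mem, O.zero_mem]

theorem ent_pow {O : Subring FF} {X : Matrix ι ι FF} (hX : Ent (O : Set FF) X) (k : ℕ) :
    Ent (O : Set FF) (X ^ k) := by
  induction k with
  | zero => rw [pow_zero]; exact ent_one O
  | succ k ih => rw [pow_succ]; exact ent_mul ih hX

theorem ent_exp {O : Subring FF} (hO : ∀ c : ℚ, (c : FF) ∈ O) {X : Matrix ι ι FF}
    (hX : Ent (O : Set FF) X) : Ent (O : Set FF) (IsNilpotent.exp X) := fun a b => by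
  rw [IsNilpotent.exp, Matrix.sum_apply]
  refine O.sum_mem fun k _ => ?_
  rw [Matrix.smul_apply, Rat.smul_def]
  exact O.mul_mem (hO _) (ent_pow hX k a b)

theorem ent_log {O : Subring FF} (hO : ∀ c : ℚ, (c : FF) ∈ O) {X : Matrix ι ι FF}
    (hX : Ent (O : Set FF) X) : Ent (O : Set FF) (log X) := fun a b => by
  rw [log, Matrix.sum_apply]
  refine O.sum_mem fun k _ => ?_
  rw [Matrix.smul_apply, Rat.smul_def]
  exact O.mul_mem (hO _) (ent_pow (fun a b => O.sub_mem (hX a b) (ent_one O a b)) _ a b)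

/-- The congruence subgroup of level `q`. -/
def Gam (Z : Subring FF) {q : FF} (hq : q ∈ Z) (lv : ι → ℕ) : Subgroup (UT lv FF) where
  carrier := {x | Ent {t | ∃ z ∈ Z, t = q * z} (x.val - 1)}
  one_mem' a b := ⟨0, Z.zero_mem, by simp⟩
  mul_mem' {x y} hx hy := by
    choose A hA eA using hx
    choose B hB eB using hy
    have e1 : x.val = 1 + q • Matrix.of A := by
      rw [← sub_eq_iff_eq_add']; ext a b; exact eA a b
    have e2 : y.val = 1 + q • Matrix.of B := by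
      rw [← sub_eq_iff_eq_add']; ext a b; exact eB a b
    have e3 : (x * y).val - 1
        = q • (Matrix.of A + Matrix.of B + q • (Matrix.of A * Matrix.of B)) := by
      rw [UT.mul_val, e1, e2]
      simp only [mul_add, add_mul, one_mul, mul_one, smul_add, smul_mul_assoc, mul_smul_comm]
      abel
    intro a b
    rw [e3]
    exact ⟨_, Z.add_mem (Z.add_mem (hA a b) (hB a b))
      (Z.mul_mem hq (ent_mul (X := Matrix.of A) (Y := Matrix.of B) hA hB a b)), rfl⟩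
  inv_mem' {x} hx := by
    choose A hA eA using hx
    have e1 : x.val = 1 + q • Matrix.of A := by
      rw [← sub_eq_iff_eq_add']; ext a b; exact eA a b
    obtain ⟨k, hk⟩ := x.nil.neg
    have h1 := mul_neg_geom_sum (-(x.val - 1)) k
    rw [hk, sub_zero, sub_neg_eq_add, add_sub_cancel] at h1
    have e2 : x⁻¹.val = ∑ j ∈ range k, (-(x.val - 1)) ^ j := by
      rw [← mul_one x⁻¹.val]
      nth_rewrite 1 [← h1]
      rw [← mul_assoc, x.inv_mul_val, one_mul]
    have hZ : Ent (Z : Set FF) x⁻¹.val := fun a b => by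
      rw [e2, Matrix.sum_apply]
      exact Z.sum_mem fun j _ => ent_pow (fun a b => Z.neg_mem
        (by rw [eA]; exact Z.mul_mem hq (hA a b))) j a b
    have e3 : x⁻¹.val - 1 = q • -(x⁻¹.val * Matrix.of A) := by
      have := x.inv_mul_val
      rw [e1, mul_add, mul_one, mul_smul_comm] at this
      rw [smul_neg, ← this]
      abel
    intro a b
    rw [e3]
    exact ⟨_, Z.neg_mem (ent_mul (Y := Matrix.of A) hZ hA a b), rfl⟩

theorem mem_Gam {Z : Subring FF} {q : FF} {hq : q ∈ Z} {x : UT lv FF} :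
    x ∈ Gam Z hq lv ↔ Ent {t | ∃ z ∈ Z, t = q * z} (x.val - 1) := Iff.rfl

/-- Exponentials of highly divisible integral matrices lie in the congruence subgroup. -/
theorem ex_mem_Gam {Z : Subring FF} {q : FF} (hq : q ∈ Z) {d : ℕ} (hd : mF FF lv d = ⊥)
    {B : Matrix ι ι FF} (hB : B ∈ mF FF lv 1) (hZ : Ent (Z : Set FF) B) :
    ex lv ((q * d.factorial) • B) ∈ Gam Z hq lv := by
  have hm : (q * d.factorial) • B ∈ mF FF lv 1 := (lvS FF lv 1).smul_mem _ hB
  have h0 : ((q * d.factorial) • B) ^ (d + 1) = 0 := by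
    have := (filt_mF FF lv).anti d ((filt_mF FF lv).pow_mem hm d)
    rwa [hd] at this
  intro a b
  rw [ex_val hm, exp_sub_one_eq h0, Matrix.sum_apply]
  by_cases hd0 : d = 0
  · exact ⟨0, Z.zero_mem, by simp [hd0]⟩
  have h1 : ((q * d.factorial) • B) ^ d = 0 := by
    obtain ⟨k, rfl⟩ := Nat.exists_eq_succ_of_ne_zero hd0
    have := (filt_mF FF lv).pow_mem hm k
    rwa [hd] at this
  refine ⟨∑ j ∈ range d, (d.factorial / (j + 1).factorial : ℕ) * (q * d.factorial) ^ j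
    * (B ^ (j + 1)) a b, Z.sum_mem fun j _ => Z.mul_mem (Z.mul_mem (natCast_mem Z _)
      (Z.pow_mem (Z.mul_mem hq (natCast_mem Z _)) j)) (ent_pow hZ _ a b), ?_⟩
  rw [mul_sum]
  refine sum_congr rfl fun j hj => ?_
  have hdv := Nat.factorial_dvd_factorial (show j + 1 ≤ d from mem_range.1 hj)
  have hne : (((j + 1).factorial : ℕ) : FF) ≠ 0 := Nat.cast_ne_zero.2 (Nat.factorial_ne_zero _)
  rw [smul_pow, Matrix.smul_apply, Matrix.smul_apply, Rat.smul_def, smul_eq_mul,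
    Nat.cast_div hdv hne]
  push_cast
  field_simp
  ring

/-- Common denominators. -/
theorem exists_den {Z : Subring FF} (hden : ∀ k ∈ K, ∃ b ∈ Z, b ∈ K ∧ b ≠ 0 ∧ b * k ∈ Z)
    {J : Type} [Fintype J] {u : J → FF} (hu : ∀ j, u j ∈ K) :
    ∃ b ∈ Z, b ∈ K ∧ b ≠ 0 ∧ ∀ j, b * u j ∈ Z := by
  classical
  choose b h1 h2 h3 h4 using fun j => hden (u j) (hu j)
  refine ⟨∏ j, b j, Z.prod_mem fun j _ => h1 j, K.prod_mem fun j _ => h2 j,
    prod_ne_zero_iff.2 fun j _ => h3 j, fun j => ?_⟩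
  rw [← mul_prod_erase univ b (mem_univ j), mul_right_comm]
  exact Z.mul_mem (h4 j) (Z.prod_mem fun j _ => h1 j)

/-- Rounding inside a rational subspace. -/
theorem IsRat.round {O Z : Subring FF} (hKO : ∀ k ∈ K, k ∈ O) (hOZ : ∀ x, ∃ z ∈ Z, x - z ∈ O)
    (hden : ∀ k ∈ K, ∃ b ∈ Z, b ∈ K ∧ b ≠ 0 ∧ b * k ∈ Z) {m : FF} (hmK : m ∈ K) (hm0 : m ≠ 0)
    {V : Submodule FF (Matrix ι ι FF)} (hV : IsRat K V) {X : Matrix ι ι FF} (hX : X ∈ V) :
    ∃ B ∈ V, Ent (Z : Set FF) B ∧ Ent (O : Set FF) (X - m • B) := by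
  let P : Submodule FF (Matrix ι ι FF) :=
    { carrier := {X | ∀ c : FF, ∃ B ∈ V, Ent (Z : Set FF) B ∧ Ent (O : Set FF) (c • X - m • B)}
      add_mem' := fun {X Y} hX hY c => by
        obtain ⟨B, h1, h2, h3⟩ := hX c
        obtain ⟨B', h1', h2', h3'⟩ := hY c
        refine ⟨B + B', add_mem h1 h1', fun a b => Z.add_mem (h2 a b) (h2' a b), fun a b => ?_⟩
        change _ ∈ O
        convert O.add_mem (h3 a b) (h3' a b) using 1
        simp only [Matrix.sub_apply, Matrix.smul_apply, Matrix.add_apply, smul_eq_mul]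
        ring
      zero_mem' := fun c => ⟨0, zero_mem _, fun _ _ => Z.zero_mem, fun a b => by simp⟩
      smul_mem' := fun a X hX c => by
        rw [smul_smul]; exact hX _ }
  have := hV.ind (P := P) (fun X hX hK c => by
    obtain ⟨b, b1, b2, b3, b4⟩ := exists_den hden (u := fun p : ι × ι => X p.1 p.2)
      fun p => hK p.1 p.2
    obtain ⟨z, z1, z2⟩ := hOZ (c / (m * b))
    refine ⟨(z * b) • X, V.smul_mem _ hX, fun p q => ?_, fun p q => ?_⟩
    · rw [Matrix.smul_apply, smul_eq_mul, mul_assoc]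
      exact Z.mul_mem z1 (b4 (p, q))
    · change _ ∈ O
      convert O.mul_mem z2 (hKO _ (K.mul_mem (K.mul_mem hmK b2) (hK p q))) using 1
      simp only [Matrix.sub_apply, Matrix.smul_apply, smul_eq_mul]
      field_simp) hX 1
  rwa [one_smul] at this

/-- Cocompactness: bounded times lattice element of level `q`. -/
theorem normalise (O Z : Subring FF) (hKO : ∀ k ∈ K, k ∈ O) (hOZ : ∀ x, ∃ z ∈ Z, x - z ∈ O)
    (hden : ∀ k ∈ K, ∃ b ∈ Z, b ∈ K ∧ b ≠ 0 ∧ b * k ∈ Z) {q : FF} (hq : q ∈ Z) (hqK : q ∈ K)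
    (hq0 : q ≠ 0) (g : Fam K lv I) {x : UT lv FF} (hx : x ∈ g.GG) :
    ∃ a ∈ g.GG, ∃ b ∈ g.GG, x = a * b ∧ Ent (O : Set FF) a.val ∧
      Ent {t | ∃ z ∈ Z, t = q * z} (b.val - 1) := by
  obtain ⟨d, hd⟩ := (filt_mF FF lv).fin
  have key : ∀ k i, d ≤ i + k → ∀ x ∈ g.GG, lg x ∈ mF FF lv (i + 1) →
      ∃ a ∈ g.GG, ∃ b ∈ g.GG, x = a * b ∧ Ent (O : Set FF) a.val ∧ b ∈ Gam Z hq lv := by
    intro k
    induction k with
    | zero =>
      intro i hi x _ h2
      have h3 := (filt_mF FF lv).le (show d ≤ i + 1 by omega) h2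
      rw [hd, Submodule.mem_bot, ← lg_one (lv := lv)] at h3
      exact ⟨1, one_mem _, 1, one_mem _, by rw [lg_inj h3, mul_one], ent_one O, one_mem _⟩
    | succ k ih =>
      intro i hi x h1 h2
      obtain ⟨B, hB, hZ, hO⟩ := ((g.rat 0).inf (IsRat.lvS lv (i + 1))).round hKO hOZ hden
        (K.mul_mem hqK (natCast_mem K d.factorial))
        (mul_ne_zero hq0 (Nat.cast_ne_zero.2 d.factorial_ne_zero)) (X := lg x) ⟨h1, h2⟩
      let 𝔏 : Lie lv FF := ⟨g.lie0.L ⊓ mF FF lv (i + 1), inf_le_left.trans g.lie0.up,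
        fun a ha b hb => ⟨g.lie0.br a ha.1 b hb.1, sub_mem
          ((filt_mF FF lv).le (by omega) ((filt_mF FF lv).mul _ _ a ha.2 b hb.2))
          ((filt_mF FF lv).le (by omega) ((filt_mF FF lv).mul _ _ b hb.2 a ha.2))⟩⟩
      have mB : (q * d.factorial) • B ∈ 𝔏.L := Submodule.smul_mem _ (q * d.factorial) hB
      have mA : lg x - (q * d.factorial) • B ∈ 𝔏.L := sub_mem ⟨h1, h2⟩ mB
      have ga := ex_mem_grp mA
      have gb := ex_mem_grp mB
      have gx : x ∈ 𝔏.grp := ⟨h1, h2⟩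
      have h3 := lg_mul3_sub (𝔏 := 𝔏) (J := g.lie0.L ⊓ mF FF lv (i + 1 + 1))
        (inf_le_inf_left _ ((filt_mF FF lv).anti _))
        (fun a ha b hb => ⟨g.lie0.br a ha.1 b hb.1, sub_mem
          ((filt_mF FF lv).le (by omega) ((filt_mF FF lv).mul _ _ a ha.2 b hb.2))
          ((filt_mF FF lv).le (by omega) ((filt_mF FF lv).mul _ _ b hb.2 a ha.2))⟩)
        (𝔏.grp.inv_mem ga) gx (𝔏.grp.inv_mem gb)
      rw [lg_inv, lg_inv, lg_ex (𝔏.up mA), lg_ex (𝔏.up mB), neg_sub, sub_add_cancel,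
        add_neg_cancel, sub_zero] at h3
      obtain ⟨a, ha, b, hb, e, o1, o2⟩ := ih (i + 1) (by omega) _ h3.1 h3.2
      refine ⟨ex lv _ * a, mul_mem ga.1 ha, b * ex lv _, mul_mem hb gb.1, ?_, ?_,
        mul_mem o2 (ex_mem_Gam hq hd (g.up 0 B hB.1) hZ)⟩
      · rw [mul_assoc, ← mul_assoc a, ← e]; group
      · rw [UT.mul_val, ex_val (𝔏.up mA)]
        exact ent_mul (ent_exp (fun c => hKO _ (SubfieldClass.ratCast_mem K c)) hO) o1
  exact key d 0 (by omega) x hx (lg_mem x)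

end Pool.Agent.P.MP_a14ce1_nt.Nil
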