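import Pool.Agent.P.MP_a14ce1_nt.Nil.RatL

/-!
Rational linear algebra, second part: projections, sections, extensions, duality.
-/

open Finset

set_option linter.unusedSectionVars false

noncomputable section

namespace Pool.Agent.P.MP_a14ce1_nt.Nil

variable {FF : Type} [Field FF] [CharZero FF] {ι ι' : Type} [Fintype ι] [DecidableEq ι]
  [Fintype ι'] [DecidableEq ι'] {K : Subfield FF}

/-- A linear map defined over `K`. -/
def RatL (K : Subfield FF) (f : Matrix ι ι FF →ₗ[FF] Matrix ι' ι' FF) : Prop :=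
  ∀ X, Ent (K : Set FF) X → Ent (K : Set FF) (f X)

/-- Span of the brackets. -/
def brk (V W : Submodule FF (Matrix ι ι FF)) : Submodule FF (Matrix ι ι FF) :=
  Submodule.span FF {Z | ∃ X ∈ V, ∃ Y ∈ W, Z = X * Y - Y * X}

/-- The functional with coefficient matrix `κ`. -/
def fn (κ : Matrix ι ι FF) : Matrix ι ι FF →ₗ[FF] FF where
  toFun X := ∑ a, ∑ b, κ a b * X a b
  map_add' X Y := by simp [mul_add, sum_add_distrib]
  map_smul' c X := by simp [mul_sum, mul_left_comm]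

theorem fn_apply (κ X : Matrix ι ι FF) : fn κ X = ∑ a, ∑ b, κ a b * X a b := rfl

theorem brk_eq (V W : Submodule FF (Matrix ι ι FF)) : brk V W = brS V W := rfl

theorem br_mem_brk {V W : Submodule FF (Matrix ι ι FF)} {X Y : Matrix ι ι FF} (hX : X ∈ V)
    (hY : Y ∈ W) : X * Y - Y * X ∈ brk V W := br_mem_brS hX hY

theorem brk_le {V W P : Submodule FF (Matrix ι ι FF)} :
    brk V W ≤ P ↔ ∀ X ∈ V, ∀ Y ∈ W, X * Y - Y * X ∈ P := brS_le

theorem RatL.ratM {f : Matrix ι ι FF →ₗ[FF] Matrix ι' ι' FF} (hf : RatL K f) : RatM K f :=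
  RatM.of_ent hf

theorem RatM.ratL {f : Matrix ι ι FF →ₗ[FF] Matrix ι' ι' FF} (hf : RatM K f) : RatL K f :=
  fun _ hX => hf.entK hX

theorem ratL_iff {f : Matrix ι ι FF →ₗ[FF] Matrix ι' ι' FF} : RatL K f ↔ RatM K f :=
  ⟨RatL.ratM, RatM.ratL⟩

theorem isRat_bot : IsRat K (⊥ : Submodule FF (Matrix ι ι FF)) := IsRat.bot

theorem isRat_top : IsRat K (⊤ : Submodule FF (Matrix ι ι FF)) := IsRat.top

theorem isRat_iSup {J : Sort*} {V : J → Submodule FF (Matrix ι ι FF)} (h : ∀ j, IsRat K (V j)) :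
    IsRat K (⨆ j, V j) := IsRat.iSup h

theorem isRat_iInf {J : Sort*} {V : J → Submodule FF (Matrix ι ι FF)} (h : ∀ j, IsRat K (V j)) :
    IsRat K (⨅ j, V j) := IsRat.iInf h

theorem isRat_span {s : Set (Matrix ι ι FF)} (h : ∀ X ∈ s, Ent (K : Set FF) X) :
    IsRat K (Submodule.span FF s) := IsRat.span h

theorem IsRat.le_span {V : Submodule FF (Matrix ι ι FF)} (hV : IsRat K V) :
    V ≤ Submodule.span FF {X | X ∈ V ∧ Ent (K : Set FF) X} := hV.eq_span.le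

theorem IsRat.le_of_pts {V W : Submodule FF (Matrix ι ι FF)} (hV : IsRat K V)
    (h : ∀ X ∈ V, Ent (K : Set FF) X → X ∈ W) : V ≤ W := hV.ind h

theorem IsRat.brk {V W : Submodule FF (Matrix ι ι FF)} (hV : IsRat K V) (hW : IsRat K W) :
    IsRat K (brk V W) := hV.brS hW

theorem RatL.map_comm {f : Matrix ι ι FF →ₗ[FF] Matrix ι' ι' FF} (hf : RatL K f)
    (φ : FF →ₗ[K] FF) (X : Matrix ι ι FF) : f (X.map φ) = (f X).map φ := hf.ratM φ X

theorem RatL.ent {f : Matrix ι ι FF →ₗ[FF] Matrix ι' ι' FF} (hf : RatL K f)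
    {S : Submodule K FF} {X : Matrix ι ι FF} (h : Ent (S : Set FF) X) : Ent (S : Set FF) (f X) :=
  hf.ratM.ent h

theorem IsRat.mapL {V : Submodule FF (Matrix ι ι FF)} (hV : IsRat K V)
    {f : Matrix ι ι FF →ₗ[FF] Matrix ι' ι' FF} (hf : RatL K f) : IsRat K (V.map f) :=
  hV.map hf.ratM

theorem IsRat.comapL {V : Submodule FF (Matrix ι' ι' FF)} (hV : IsRat K V)
    {f : Matrix ι ι FF →ₗ[FF] Matrix ι' ι' FF} (hf : RatL K f) : IsRat K (V.comap f) :=
  hV.comap hf.ratM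

theorem RatF.map_comm {η : Matrix ι ι FF →ₗ[FF] FF} (hη : RatF K η) (φ : FF →ₗ[K] FF)
    (X : Matrix ι ι FF) : η (X.map φ) = φ (η X) := hη.map φ X

theorem RatF.compL {η : Matrix ι' ι' FF →ₗ[FF] FF} (hη : RatF K η)
    {f : Matrix ι ι FF →ₗ[FF] Matrix ι' ι' FF} (hf : RatL K f) : RatF K (η ∘ₗ f) :=
  hη.comp hf.ratM

theorem ratF_entry (a b : ι) : RatF K (Matrix.entryLinearMap FF FF a b) := fun _ hX => hX a b

theorem fn_single (κ : Matrix ι ι FF) (a b : ι) : fn κ (Matrix.single a b 1) = κ a b := by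
  rw [fn_apply, sum_eq_single a, sum_eq_single b]
  · simp
  · intro q _ hq
    rw [Matrix.single_apply_of_col_ne _ _ hq.symm, mul_zero]
  · simp
  · intro p _ hp
    exact sum_eq_zero fun q _ => by rw [Matrix.single_apply_of_row_ne hp.symm, mul_zero]
  · simp

theorem ratF_fn {κ : Matrix ι ι FF} : RatF K (fn κ) ↔ Ent (K : Set FF) κ :=
  ⟨fun h a b => fn_single κ a b ▸ h _ (ent_single a b), fun h _ hX =>
    K.sum_mem fun a _ => K.sum_mem fun b _ => K.mul_mem (h a b) (hX a b)⟩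

theorem exists_fn (η : Matrix ι ι FF →ₗ[FF] FF) : ∃ κ, η = fn κ :=
  ⟨Matrix.of fun a b => η (Matrix.single a b 1), LinearMap.ext fun X => by
    rw [lin_eq_sum η X, fn_apply]
    simp only [Matrix.of_apply, smul_eq_mul, mul_comm]⟩

theorem exists_ratF {V W : Submodule FF (Matrix ι ι FF)} (hV : IsRat K V) (hW : IsRat K W)
    (h : ¬W ≤ V) : ∃ η, RatF K η ∧ (∀ X ∈ V, η X = 0) ∧ ∃ X ∈ W, η X ≠ 0 := by
  obtain ⟨η, h1, h2, X, h3, -, h4⟩ := exists_RatF hW hV h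
  exact ⟨η, h1, h2, X, h3, by rw [h4]; exact one_ne_zero⟩

theorem exists_pt {V : Submodule FF (Matrix ι ι FF)} (hV : IsRat K V)
    {η : Matrix ι ι FF →ₗ[FF] FF} (hη : RatF K η) (h : ∃ X ∈ V, η X ≠ 0) :
    ∃ W ∈ V, Ent (K : Set FF) W ∧ η W = 1 := hη.exists_one hV h

theorem exists_ext {U : Submodule FF (Matrix ι ι FF)} (hU : IsRat K U)
    {ξ : Matrix ι ι FF →ₗ[FF] FF} (hξ : RatF K ξ) {W : Matrix ι ι FF} (hW : Ent (K : Set FF) W)
    (h : W ∉ U) {m : FF} (hm : m ∈ K) :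
    ∃ ξ', RatF K ξ' ∧ (∀ X ∈ U, ξ' X = ξ X) ∧ ξ' W = m := by
  have hs : IsRat K (Submodule.span FF {W}) := IsRat.span fun X hX => hX ▸ hW
  obtain ⟨η, h1, h2, X, h3, h4⟩ := exists_ratF hU hs
    fun hle => h (hle (Submodule.mem_span_singleton_self W))
  obtain ⟨c, rfl⟩ := Submodule.mem_span_singleton.1 h3
  have h5 : η W ≠ 0 := fun h0 => h4 (by rw [map_smul, h0, smul_zero])
  refine ⟨ξ + ((m - ξ W) / η W) • η,
    hξ.add (h1.smul (K.div_mem (K.sub_mem hm (hξ W hW)) (h1 W hW))), fun X hX => ?_, ?_⟩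
  · rw [LinearMap.add_apply, LinearMap.smul_apply, h2 X hX, smul_zero, add_zero]
  · rw [LinearMap.add_apply, LinearMap.smul_apply, smul_eq_mul, div_mul_cancel₀ _ h5,
      add_sub_cancel]

/-- Every linear map has a rational version. -/
theorem exists_ratl (f : Matrix ι ι FF →ₗ[FF] Matrix ι' ι' FF) :
    ∃ (φ : FF →ₗ[K] FF) (g : Matrix ι ι FF →ₗ[FF] Matrix ι' ι' FF), (∀ x ∈ K, φ x = x) ∧
      RatL K g ∧ ∀ X, Ent (K : Set FF) X → g X = (f X).map φ := by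
  obtain ⟨φ, h1, h2⟩ := exists_retr (1 : Submodule K FF)
  let g : Matrix ι ι FF →ₗ[FF] Matrix ι' ι' FF :=
    ∑ a, ∑ b, (Matrix.entryLinearMap FF FF a b).smulRight ((f (Matrix.single a b 1)).map φ)
  have ev : ∀ X, Ent (K : Set FF) X → g X = (f X).map φ := fun X hX => by
    rw [lin_eq_sum f X]
    ext p q
    simp only [g, LinearMap.sum_apply, LinearMap.smulRight_apply, Matrix.entryLinearMap_apply,
      Matrix.sum_apply, Matrix.smul_apply, Matrix.map_apply, smul_eq_mul, map_sum,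
      mul_comm (X _ _), kmap_mul φ _ (hX _ _)]
  exact ⟨φ, g, fun x hx => h2 x (mem_one_iff.2 hx), fun X hX p q => by
    rw [ev X hX]; exact mem_one_iff.1 (h1 _), ev⟩

theorem exists_sec {V : Submodule FF (Matrix ι ι FF)} (hV : IsRat K V)
    {f : Matrix ι ι FF →ₗ[FF] Matrix ι' ι' FF} (hf : RatL K f) :
    ∃ s : Matrix ι' ι' FF →ₗ[FF] Matrix ι ι FF, RatL K s ∧ (∀ Y, s Y ∈ V) ∧
      ∀ Y ∈ V.map f, f (s Y) = Y := by
  obtain ⟨r, hr⟩ := (f.submoduleMap V).exists_rightInverse_of_surjective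
    (LinearMap.range_eq_top.2 (f.submoduleMap_surjective V))
  obtain ⟨s0, hs0⟩ := LinearMap.exists_extend r
  obtain ⟨φ, s, h1, h2, h3⟩ := exists_ratl (K := K) (V.subtype ∘ₗ s0)
  refine ⟨s, h2, fun Y => ?_, fun Y hY => ?_⟩
  · refine IsRat.top.ind (K := K) (P := V.comap s) (fun Y _ hY => ?_) Submodule.mem_top
    rw [Submodule.mem_comap, h3 Y hY]
    exact hV φ _ (s0 Y).2
  · refine sub_eq_zero.1 (LinearMap.mem_ker.1 ((hV.mapL hf).ind
      (P := LinearMap.ker (f ∘ₗ s - LinearMap.id)) (fun Y hY hK => ?_) hY) :)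
    have e1 : s0 Y = r ⟨Y, hY⟩ := LinearMap.congr_fun hs0 ⟨Y, hY⟩
    have e2 : f (r ⟨Y, hY⟩ : V) = Y := congrArg Subtype.val (LinearMap.congr_fun hr ⟨Y, hY⟩)
    rw [LinearMap.mem_ker, LinearMap.sub_apply, LinearMap.comp_apply, h3 Y hK, hf.map_comm,
      LinearMap.comp_apply, Submodule.subtype_apply, e1, e2, LinearMap.id_apply, sub_eq_zero]
    ext p q
    exact h1 _ (hK p q)

theorem exists_proj {V : Submodule FF (Matrix ι ι FF)} (hV : IsRat K V) :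
    ∃ π : Matrix ι ι FF →ₗ[FF] Matrix ι ι FF, RatL K π ∧ (∀ X, π X ∈ V) ∧ ∀ X ∈ V, π X = X := by
  obtain ⟨s, h1, h2, h3⟩ := exists_sec hV (f := LinearMap.id) RatM.id.ratL
  exact ⟨s, h1, h2, fun X hX => h3 X (by rwa [Submodule.map_id])⟩

theorem IsRat.code {V : Submodule FF (Matrix ι ι FF)} (hV : IsRat K V) :
    ∃ e : ι × ι → Matrix ι ι FF, (∀ j, Ent (K : Set FF) (e j)) ∧
      Submodule.span FF (Set.range e) = V := by
  obtain ⟨π, h1, h2, h3⟩ := exists_proj hV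
  refine ⟨fun j => π (Matrix.single j.1 j.2 1), fun j => h1 _ (ent_single _ _),
    le_antisymm (Submodule.span_le.2 ?_) fun X hX => ?_⟩
  · rintro _ ⟨j, rfl⟩
    exact h2 _
  · rw [← h3 X hX, lin_eq_sum π X]
    exact Submodule.sum_mem _ fun a _ => Submodule.sum_mem _ fun b _ =>
      Submodule.smul_mem _ _ (Submodule.subset_span ⟨(a, b), rfl⟩)

theorem IsRat.split {V : Submodule FF (Matrix ι ι FF)} (hV : IsRat K V) {S T : Submodule K FF}
    {X : Matrix ι ι FF} (hX : X ∈ V) (h : Ent ((S ⊔ T : Submodule K FF) : Set FF) X) :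
    ∃ A ∈ V, ∃ B ∈ V, Ent (S : Set FF) A ∧ Ent (T : Set FF) B ∧ X = A + B := by
  obtain ⟨u, h1, v, h2, h3, h4, h5⟩ := hV.split_ent hX h
  exact ⟨u, h1, v, h2, h3, h4, h5.symm⟩

theorem IsRat.dual {V W : Submodule FF (Matrix ι ι FF)} (hV : IsRat K V) (_hW : IsRat K W)
    (hle : V ≤ W) {S : Submodule K FF} {X : Matrix ι ι FF} (hX : X ∈ W)
    (h : ∀ η, RatF K η → (∀ Y ∈ V, η Y = 0) → η X ∈ S) :
    ∃ A ∈ W, Ent (S : Set FF) A ∧ X - A ∈ V := by
  obtain ⟨π, h1, h2, h3⟩ := exists_proj hV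
  refine ⟨X - π X, sub_mem hX (hle (h2 X)), fun a b => ?_, by
    rw [sub_sub_cancel]; exact h2 X⟩
  exact h (Matrix.entryLinearMap FF FF a b ∘ₗ (LinearMap.id - π))
    ((ratF_entry a b).comp (RatM.id.sub h1.ratM)) fun Y hY => by simp [h3 Y hY]

end Pool.Agent.P.MP_a14ce1_nt.Nil
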