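import Pool.Agent.P.MP_a14ce1_nt.Nil.Box
import Pool.Agent.P.MP_a14ce1_nt.Nil.Peel
import Pool.Agent.P.MP_a14ce1_nt.Nil.Rat

/-!
Admissible pairs of the van der Corput system.
-/

open Finset MvPolynomial

set_option linter.unusedSectionVars false

noncomputable section

namespace Pool.Agent.P.MP_a14ce1_nt.Nil

variable {FF : Type} [Field FF] [CharZero FF] {ι : Type} [Fintype ι] [DecidableEq ι]
  {K : Subfield FF} {lv : ι → ℕ} {σ : Type} {g : Fam K lv ℕ} {D i : ℕ}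
  {n : Submodule FF (Matrix ι ι FF)}

theorem not_irr {S T : Sc K σ} {x : PS lv σ FF} : ¬Irr S T g n x ↔
    ∃ i η, Adm g n i η ∧ ∀ β : σ →₀ ℕ, β.degree = i → η (co β (lg x)) ∈ S.s β ⊔ T.s β := by
  unfold Irr
  push Not
  rfl

theorem Adm.anti {n'} {η} (h : Adm g n' i η) (hn : n ≤ n') : Adm g n i η :=
  ⟨h.pos, h.rat, h.ne, h.nxt, h.br, fun X hX => h.idl X ⟨hX.1, hn hX.2⟩⟩

theorem Irr.anti {S T : Sc K σ} {x : PS lv σ FF} {n'} (h : Irr S T g n x) (hn : n ≤ n') :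
    Irr S T g n' x := fun i η ha => h i η (ha.anti hn)

theorem exists_add_single {β : σ →₀ ℕ} (h : β.degree = i + 1) :
    ∃ (γ : σ →₀ ℕ) (l : σ), γ.degree = i ∧ β = γ + Finsupp.single l 1 := by
  induction β using mono_ind with
  | h0 => simp at h
  | h1 γ l _ =>
    rw [map_add, Finsupp.degree_single] at h
    exact ⟨γ, l, by omega, rfl⟩

theorem exists_single {β : σ →₀ ℕ} (h : β.degree = 1) : ∃ l, β = Finsupp.single l 1 := by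
  obtain ⟨γ, l, h0, rfl⟩ := exists_add_single (i := 0) h
  exact ⟨l, by rw [(Finsupp.degree_eq_zero_iff γ).1 h0, zero_add]⟩

theorem lin_swap {η : Matrix ι ι FF →ₗ[FF] FF} {X Y : Matrix ι ι FF} (h : η (X * Y - Y * X) = 0) :
    η (Y * X - X * Y) = 0 := by rw [← neg_sub, map_neg, h, neg_zero]

/-- The two parts of an admissible functional of the van der Corput system. -/
theorem Adm.box_parts {hg : g.Fil D} {n2 η} (h : Adm (g.box hg) n2 i η)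
    (hd : ∀ Y ∈ n, dg Y Y ∈ n2) (hl : ∀ X ∈ g.r 2 ⊓ n, dg X 0 ∈ n2) :
    ∃ η1 η2 : Matrix ι ι FF →ₗ[FF] FF, RatF K η2 ∧ (∀ X Y, η (dg X Y) = η1 Y + η2 (X - Y)) ∧
      (∀ X ∈ g.r (i + 2), η2 X = 0) ∧ (∀ X ∈ g.r (i + 1) ⊓ n, η2 X = 0) ∧
      (∀ u v, u + v = i + 1 → 2 ≤ v → ∀ X ∈ g.r u, ∀ Y ∈ g.r v, η2 (X * Y - Y * X) = 0) ∧
      ((∀ X ∈ g.r (i + 1), η2 X = 0) → Adm g n i η1) := by
  have hi := h.pos
  have e1 : ∀ Y, (η ∘ₗ (in1 + in2)) Y = η (dg Y Y) := fun Y => by rw [dg_eq_in]; rfl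
  have e2 : ∀ X, (η ∘ₗ in1) X = η (dg X 0) := fun _ => rfl
  have e3 : ∀ X Y, η (dg X Y) = (η ∘ₗ (in1 + in2)) Y + (η ∘ₗ in1) (X - Y) := fun X Y => by
    rw [e1, e2, ← map_add, dg_add, add_sub_cancel, add_zero]
  have m1 : ∀ j, ∀ Y ∈ g.r j, dg Y Y ∈ (g.box hg).r j := fun j Y hY =>
    Fam.dg_mem_box.2 ⟨hY, hY, by simp⟩
  have m2 : ∀ j, 1 ≤ j → ∀ X ∈ g.r (j + 1), dg X 0 ∈ (g.box hg).r j := fun j hj X hX =>
    Fam.dg_mem_box.2 ⟨hg.anti j hX, zero_mem _, by rwa [sub_zero, max_eq_left hj]⟩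
  refine ⟨η ∘ₗ (in1 + in2), η ∘ₗ in1, h.rat.comp ratM_in1, e3,
    fun X hX => h.nxt _ (m2 _ (by omega) X hX),
    fun X hX => h.idl _ ⟨m2 i hi X hX.1, hl X ⟨hg.le (by omega) hX.1, hX.2⟩⟩,
    fun u v huv hv X hX Y hY => ?_, fun h0 => ⟨hi, h.rat.comp (ratM_in1.add ratM_in2), ?_,
      fun Y hY => (e1 Y).trans (h.nxt _ (m1 _ Y hY)), fun a b hab X hX Y hY => ?_,
      fun Y hY => (e1 Y).trans (h.idl _ ⟨m1 _ Y hY.1, hd Y hY.2⟩)⟩⟩
  · obtain ⟨v, rfl⟩ : ∃ w, v = w + 1 := ⟨v - 1, by omega⟩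
    have := h.br u v (by omega) _ (m1 u X hX) _ (m2 v (by omega) Y hY)
    rwa [dg_br, mul_zero, zero_mul, sub_zero] at this
  · obtain ⟨_, ⟨X, -, Y, hY, hXY, rfl⟩, hne⟩ := h.ne
    rw [max_eq_left hi] at hXY
    exact ⟨Y, hY, by rwa [e3, h0 _ hXY, add_zero] at hne⟩
  · have := h.br a b hab _ (m1 a X hX) _ (m1 b Y hY)
    rwa [dg_br, ← e1] at this

/-- The horizontal admissible pair. -/
theorem adm_hor (hg : g.Fil D) {η : Matrix ι ι FF →ₗ[FF] FF} (hη : RatF K η)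
    (h2 : ∀ X ∈ g.r (i + 2), η X = 0) (hn : ∀ X ∈ g.r (i + 1) ⊓ n, η X = 0)
    (h3 : ∀ u v, 1 ≤ u → 1 ≤ v → u + v = i + 1 → ∀ X ∈ g.r u, ∀ Y ∈ g.r v,
      η (X * Y - Y * X) = 0) (h0 : ∃ X ∈ g.r (i + 1), η X ≠ 0) : Adm g n (i + 1) η := by
  refine ⟨by omega, hη, h0, h2, fun a b hab X hX Y hY => ?_, hn⟩
  rcases Nat.eq_zero_or_pos a with rfl | ha
  · exact h2 _ (hg.br0 hX (by rw [← hab, zero_add]; exact hY))
  rcases Nat.eq_zero_or_pos b with rfl | hb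
  · exact lin_swap (h2 _ (hg.br0 hY (by rw [← hab, add_zero]; exact hX)))
  exact h3 a b ha hb hab X hX Y hY

/-- The functional `X ↦ η [X, Y]`. -/
def brF (η : Matrix ι ι FF →ₗ[FF] FF) (Y : Matrix ι ι FF) : Matrix ι ι FF →ₗ[FF] FF :=
  η ∘ₗ (LinearMap.mulRight FF Y - LinearMap.mulLeft FF Y)

theorem brF_apply (η : Matrix ι ι FF →ₗ[FF] FF) (Y X : Matrix ι ι FF) :
    brF η Y X = η (X * Y - Y * X) := rfl

theorem brF_swap (η : Matrix ι ι FF →ₗ[FF] FF) (Y X : Matrix ι ι FF) :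
    brF η Y X = -brF η X Y := by rw [brF_apply, brF_apply, ← map_neg, neg_sub]

theorem RatF.brF {η : Matrix ι ι FF →ₗ[FF] FF} (hη : RatF K η) {Y : Matrix ι ι FF}
    (hY : Ent (K : Set FF) Y) : RatF K (brF η Y) :=
  hη.comp ((RatM.mulRight hY).sub (RatM.mulLeft hY))

/-- The bracket admissible pair. -/
theorem adm_brk (hg : g.Fil D) (hn : g.Idl n) {η : Matrix ι ι FF →ₗ[FF] FF} (hη : RatF K η)
    (h3 : ∀ X ∈ g.r 3, η X = 0) (h2 : ∀ X ∈ g.r 2 ⊓ n, η X = 0) {Y : Matrix ι ι FF}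
    (hY : Y ∈ g.r 1) (hK : Ent (K : Set FF) Y) (h0 : ∃ X ∈ g.r 1, brF η Y X ≠ 0) :
    Adm g n 1 (brF η Y) := by
  have k : ∀ X ∈ g.r 2, brF η Y X = 0 := fun X hX => h3 _ (g.br 2 1 X hX Y hY)
  refine ⟨le_rfl, hη.brF hK, h0, k, fun a b _ X hX Z hZ => k _ ?_, fun X hX => ?_⟩
  · exact hg.le (by omega) (g.br _ _ X (hg.mem_max hX) Z (hg.mem_max hZ))
  · exact lin_swap (h2 _ ⟨g.br 1 1 Y hY X hX.1, hn.br Y (hg.zero ▸ hY) X hX.2⟩)

theorem RatM.entR {ι' : Type} [Fintype ι'] [DecidableEq ι']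
    {M : Matrix ι ι FF →ₗ[FF] Matrix ι' ι' FF} (h : RatM K M) {R : Subring FF}
    (hR : ∀ k ∈ K, k ∈ R) {X : Matrix ι ι FF} (hX : Ent (R : Set FF) X) :
    Ent (R : Set FF) (M X) :=
  h.ent (S := { R.toAddSubmonoid with smul_mem' := fun c _ hx => R.mul_mem (hR c c.2) hx }) hX

/-- A functional that kills `g 2` is affine along polynomial sequences. -/
theorem lin_lg_ev [Fintype σ] (hg : g.Fil D) {x : PS lv σ FF} (hx : x ∈ (g.fine σ).plus.PG)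
    {η : Matrix ι ι FF →ₗ[FF] FF} (h2 : ∀ X ∈ g.r 2, η X = 0) (a : σ → FF) :
    η (lg (ev a x)) = ∑ l, η (co (Finsupp.single l 1) (lg x)) * a l := by
  have := h2 _ (lg_ev_sub hg hx a)
  rw [map_sub, sub_eq_zero, map_sum] at this
  simp only [this, map_smul, smul_eq_mul, mul_comm]

end Pool.Agent.P.MP_a14ce1_nt.Nil
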