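import Mathlib

/-!
The graded core in a model free form: a group with a finite central filtration, coordinates on the
successive quotients and homogeneous sections.
-/

namespace Pool.Agent.P.MP_a14ce1_nt.Nil

/-- a finite central filtration of a group with coordinates on the quotients and sections -/
structure CF (G V : Type*) [Group G] [AddCommGroup V] where
  F : ℕ → Subgroup G
  D : ℕ
  c : ℕ → G → V
  s : ℕ → V → G
  top : ∀ x, x ∈ F 0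
  bot : ∀ x ∈ F D, x = 1
  anti : ∀ i, F (i + 1) ≤ F i
  c_mul : ∀ i, ∀ x ∈ F i, ∀ y ∈ F i, c i (x * y) = c i x + c i y
  ker : ∀ i, ∀ x ∈ F i, (c i x = 0 ↔ x ∈ F (i + 1))
  conj_mem : ∀ i g, ∀ x ∈ F i, g * x * g⁻¹ ∈ F i
  c_conj : ∀ i g, ∀ x ∈ F i, c i (g * x * g⁻¹) = c i x

/-- membership in the product `E * P * L` -/
def DC {G : Type*} [Group G] (E P L : Subgroup G) (x : G) : Prop :=
  ∃ e ∈ E, ∃ p ∈ P, ∃ l ∈ L, x = e * p * l

theorem DC.mono {G : Type*} [Group G] {E P L E' P' L' : Subgroup G} {x : G} (h : DC E P L x)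
    (h1 : E ≤ E') (h2 : P ≤ P') (h3 : L ≤ L') : DC E' P' L' x := by
  obtain ⟨e, he, p, hp, l, hl, rfl⟩ := h
  exact ⟨e, h1 he, p, h2 hp, l, h3 hl, rfl⟩

theorem DC.of_mem {G : Type*} [Group G] {E P L : Subgroup G} {x : G} (h : x ∈ P) : DC E P L x :=
  ⟨1, E.one_mem, x, h, 1, L.one_mem, by group⟩

theorem DC.mul {G : Type*} [Group G] {E P L : Subgroup G} {x e l : G} (h : DC E P L x)
    (he : e ∈ E) (hl : l ∈ L) : DC E P L (e * x * l) := by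
  obtain ⟨e', he', p, hp, l', hl', rfl⟩ := h
  exact ⟨e * e', E.mul_mem he he', p, hp, l' * l, L.mul_mem hl' hl, by group⟩

/-- peeling along a homomorphism to a commutative group -/
theorem DC.peel {G W : Type*} [Group G] [CommGroup W] {E P L : Subgroup G} (φ : G →* W)
    {x e l : G} (he : e ∈ E) (hl : l ∈ L) (heP : e ∈ P) (hlP : l ∈ P) (hx : x ∈ P)
    (h : φ x = φ e * φ l) : DC E (P ⊓ φ.ker) L x := by
  refine ⟨e, he, e⁻¹ * x * l⁻¹, ⟨P.mul_mem (P.mul_mem (P.inv_mem heP) hx) (P.inv_mem hlP), ?_⟩,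
    l, hl, by group⟩
  show _ ∈ φ.ker
  rw [MonoidHom.mem_ker, map_mul, map_mul, map_inv, map_inv, h]
  group

/-- a nonempty set closed under infima has a least element -/
theorem exists_least {I : Type*} [SemilatticeInf I] [WellFoundedLT I] (S : Set I)
    (hne : S.Nonempty) (hinf : ∀ a ∈ S, ∀ b ∈ S, a ⊓ b ∈ S) : ∃ a ∈ S, ∀ b ∈ S, a ≤ b := by
  obtain ⟨a, ha, hm⟩ := WellFounded.has_min wellFounded_lt S hne
  refine ⟨a, ha, fun b hb => ?_⟩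
  by_contra h
  exact hm _ (hinf a ha b hb) (inf_lt_left.2 h)

namespace CF

variable {G V : Type*} [Group G] [AddCommGroup V] (C : CF G V)

/-- graded subgroups -/
structure IsGr (H : Subgroup G) (h : ℕ → AddSubgroup V) : Prop where
  c_mem : ∀ i, ∀ x ∈ H, x ∈ C.F i → C.c i x ∈ h i
  s_mem : ∀ i, ∀ v ∈ h i, C.s i v ∈ H
  s_F : ∀ i, ∀ v ∈ h i, C.s i v ∈ C.F i
  c_s : ∀ i, ∀ v ∈ h i, C.c i (C.s i v) = v

theorem c_one (i : ℕ) : C.c i 1 = 0 := by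
  have := C.c_mul i 1 (one_mem _) 1 (one_mem _)
  rw [mul_one] at this
  exact left_eq_add.1 this

theorem c_inv (i : ℕ) {x : G} (hx : x ∈ C.F i) : C.c i x⁻¹ = -C.c i x := by
  have := C.c_mul i x hx x⁻¹ (inv_mem hx)
  rw [mul_inv_cancel, c_one] at this
  exact (neg_eq_of_add_eq_zero_right this.symm).symm

theorem conj_mem' (i : ℕ) (g : G) {x : G} (hx : x ∈ C.F i) : g⁻¹ * x * g ∈ C.F i := by
  simpa using C.conj_mem i g⁻¹ x hx

theorem c_conj' (i : ℕ) (g : G) {x : G} (hx : x ∈ C.F i) : C.c i (g⁻¹ * x * g) = C.c i x := by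
  simpa using C.c_conj i g⁻¹ x hx

theorem normal (i : ℕ) : (C.F i).Normal := ⟨fun x hx g => C.conj_mem i g x hx⟩

theorem antitone : Antitone C.F := antitone_nat_of_succ_le C.anti

theorem inv_mul_mem_succ (i : ℕ) {x y : G} (hx : x ∈ C.F i) (hy : y ∈ C.F i)
    (h : C.c i x = C.c i y) : x⁻¹ * y ∈ C.F (i + 1) := by
  rw [← C.ker i _ (mul_mem (inv_mem hx) hy), C.c_mul i _ (inv_mem hx) _ hy, C.c_inv i hx, h,
    neg_add_cancel]

theorem mul_inv_mem_succ (i : ℕ) {x y : G} (hx : x ∈ C.F i) (hy : y ∈ C.F i)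
    (h : C.c i x = C.c i y) : x * y⁻¹ ∈ C.F (i + 1) := by
  rw [← C.ker i _ (mul_mem hx (inv_mem hy)), C.c_mul i _ hx _ (inv_mem hy), C.c_inv i hy, h,
    add_neg_cancel]

/-- downward induction along the filtration -/
theorem ind_down (Q : G → Prop) (h1 : Q 1)
    (hs : ∀ i, (∀ x ∈ C.F (i + 1), Q x) → ∀ x ∈ C.F i, Q x) (x : G) : Q x := by
  have : ∀ k i, i + k = C.D → ∀ x ∈ C.F i, Q x := by
    intro k
    induction k with
    | zero =>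
      intro i hi x hx
      rw [add_zero] at hi
      rw [C.bot x (hi ▸ hx)]
      exact h1
    | succ k ih =>
      intro i hi
      exact hs i (ih (i + 1) (by omega))
  exact this C.D 0 (zero_add _) x (C.top x)

variable {C}

theorem IsGr.inf {H H' : Subgroup G} {h h' : ℕ → AddSubgroup V} (a : C.IsGr H h)
    (b : C.IsGr H' h') : C.IsGr (H ⊓ H') fun i => h i ⊓ h' i where
  c_mem i x hx hF := ⟨a.c_mem i x hx.1 hF, b.c_mem i x hx.2 hF⟩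
  s_mem i v hv := ⟨a.s_mem i v hv.1, b.s_mem i v hv.2⟩
  s_F i v hv := a.s_F i v hv.1
  c_s i v hv := a.c_s i v hv.1

/-- a graded subgroup is determined by its graded pieces -/
theorem IsGr.le {H H' : Subgroup G} {h h' : ℕ → AddSubgroup V} (a : C.IsGr H h)
    (b : C.IsGr H' h') (hle : ∀ i, h i ≤ h' i) : H ≤ H' := by
  intro x
  refine C.ind_down (fun x => x ∈ H → x ∈ H') (fun _ => one_mem _) ?_ x
  intro i ih x hx hH
  have hv := a.c_mem i x hH hx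
  have h1 := ih _ (C.inv_mul_mem_succ i (a.s_F i _ hv) hx (a.c_s i _ hv))
    (mul_mem (inv_mem (a.s_mem i _ hv)) hH)
  have := mul_mem (b.s_mem i _ (hle i hv)) h1
  simpa using this

/-- elements of two graded subgroups that agree below degree `i` have a common initial part -/
theorem IsGr.common {P P' : Subgroup G} {h h' : ℕ → AddSubgroup V} (a : C.IsGr P h)
    (b : C.IsGr P' h') (i : ℕ) {p p' : G} (hp : p ∈ P) (hp' : p' ∈ P')
    (hF : p⁻¹ * p' ∈ C.F i) : ∃ w, w ∈ P ∧ w ∈ P' ∧ w⁻¹ * p ∈ C.F i ∧ w⁻¹ * p' ∈ C.F i := by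
  induction i with
  | zero => exact ⟨1, one_mem _, one_mem _, C.top _, C.top _⟩
  | succ i ih =>
    obtain ⟨w, hw, hw', h1, h2⟩ := ih (C.anti i hF)
    have e : C.c i (w⁻¹ * p) = C.c i (w⁻¹ * p') := by
      have h3 : w⁻¹ * p' = (w⁻¹ * p) * (p⁻¹ * p') := by group
      rw [h3, C.c_mul i _ h1 _ (C.anti i hF), (C.ker i _ (C.anti i hF)).2 hF, add_zero]
    have hv := a.c_mem i _ (mul_mem (inv_mem hw) hp) h1
    have hv' : C.c i (w⁻¹ * p) ∈ h' i := e ▸ b.c_mem i _ (mul_mem (inv_mem hw') hp') h2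
    refine ⟨w * C.s i (C.c i (w⁻¹ * p)), mul_mem hw (a.s_mem i _ hv),
      mul_mem hw' (b.s_mem i _ hv'), ?_, ?_⟩
    · rw [mul_inv_rev, mul_assoc]
      exact C.inv_mul_mem_succ i (a.s_F i _ hv) h1 (a.c_s i _ hv)
    · rw [mul_inv_rev, mul_assoc]
      exact C.inv_mul_mem_succ i (a.s_F i _ hv) h2 ((a.c_s i _ hv).trans e)

/-- the coordinate of a relation between two graded subgroups -/
theorem IsGr.rel {P P' : Subgroup G} {h h' : ℕ → AddSubgroup V} (a : C.IsGr P h)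
    (b : C.IsGr P' h') (i : ℕ) {p p' e l : G} (hp : p ∈ P) (hp' : p' ∈ P') (he : e ∈ C.F i)
    (hl : l ∈ C.F i) (hr : p = e * p' * l) : C.c i e + C.c i l ∈ h i ⊔ h' i := by
  have h0 : p'⁻¹ * p = (p'⁻¹ * e * p') * l := by rw [hr]; group
  have hF : p'⁻¹ * p ∈ C.F i := h0 ▸ mul_mem (C.conj_mem' i p' he) hl
  obtain ⟨w, hw', hw, h1, h2⟩ := b.common a i hp' hp hF
  have h3 : p'⁻¹ * p = (w⁻¹ * p')⁻¹ * (w⁻¹ * p) := by group
  have h4 : C.c i e + C.c i l = C.c i (w⁻¹ * p) + -C.c i (w⁻¹ * p') := by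
    rw [← C.c_conj' i p' he, ← C.c_mul i _ (C.conj_mem' i p' he) _ hl, ← h0, h3,
      C.c_mul i _ (inv_mem h1) _ h2, C.c_inv i h1, add_comm]
  rw [h4]
  exact AddSubgroup.add_mem_sup (a.c_mem i _ (mul_mem (inv_mem hw) hp) h2)
    (neg_mem (b.c_mem i _ (mul_mem (inv_mem hw') hp') h1))

/-- INT with control of the factors -/
theorem int' {E L P P' : Subgroup G} {e l h h' : ℕ → AddSubgroup V} (hE : C.IsGr E e)
    (hL : C.IsGr L l) (hP : C.IsGr P h) (hP' : C.IsGr P' h')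
    (split : ∀ i, ∀ u ∈ e i, ∀ v ∈ l i, u + v ∈ h i ⊔ h' i →
      u ∈ (e i ⊓ h i) ⊔ (e i ⊓ h' i) ∧ v ∈ (l i ⊓ h i) ⊔ (l i ⊓ h' i))
    {p p' ε γ : G} (hp : p ∈ P) (hp' : p' ∈ P') (hε : ε ∈ E) (hγ : γ ∈ L)
    (hr : p = ε * p' * γ) : DC (E ⊓ P) (P ⊓ P') (L ⊓ P) p := by
  have key : ∀ i, ∃ q ∈ P, ∃ q' ∈ P', ∃ ε ∈ E, ∃ γ ∈ L, ε ∈ C.F i ∧ γ ∈ C.F i ∧
      q = ε * q' * γ ∧ ∃ a ∈ E ⊓ P, ∃ b ∈ L ⊓ P, p = a * q * b := by
    intro i
    induction i with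
    | zero =>
      exact ⟨p, hp, p', hp', ε, hε, γ, hγ, C.top _, C.top _, hr, 1, one_mem _, 1, one_mem _,
        by group⟩
    | succ i ih =>
      obtain ⟨q, hq, q', hq', ε, hε, γ, hγ, hεF, hγF, hr, a, ha, b, hb, hab⟩ := ih
      obtain ⟨h1, h2⟩ := split i _ (hE.c_mem i ε hε hεF) _ (hL.c_mem i γ hγ hγF)
        (hP.rel hP' i hq hq' hεF hγF hr)
      obtain ⟨u, hu, u', hu', huu⟩ := AddSubgroup.mem_sup.1 h1
      obtain ⟨v, hv, v', hv', hvv⟩ := AddSubgroup.mem_sup.1 h2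
      have Fu := hE.s_F i u hu.1
      have Fu' := hE.s_F i u' hu'.1
      have Fv := hL.s_F i v hv.1
      have Fv' := hL.s_F i v' hv'.1
      refine ⟨(C.s i u)⁻¹ * q * (C.s i v)⁻¹,
        mul_mem (mul_mem (inv_mem (hP.s_mem i u hu.2)) hq) (inv_mem (hP.s_mem i v hv.2)),
        C.s i u' * q' * C.s i v',
        mul_mem (mul_mem (hP'.s_mem i u' hu'.2) hq') (hP'.s_mem i v' hv'.2),
        (C.s i u)⁻¹ * ε * (C.s i u')⁻¹,
        mul_mem (mul_mem (inv_mem (hE.s_mem i u hu.1)) hε) (inv_mem (hE.s_mem i u' hu'.1)),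
        (C.s i v')⁻¹ * γ * (C.s i v)⁻¹,
        mul_mem (mul_mem (inv_mem (hL.s_mem i v' hv'.1)) hγ) (inv_mem (hL.s_mem i v hv.1)),
        ?_, ?_, by rw [hr]; group, a * C.s i u,
        mul_mem ha ⟨hE.s_mem i u hu.1, hP.s_mem i u hu.2⟩, C.s i v * b,
        mul_mem ⟨hL.s_mem i v hv.1, hP.s_mem i v hv.2⟩ hb, by rw [hab]; group⟩
      · refine C.mul_inv_mem_succ i (mul_mem (inv_mem Fu) hεF) Fu' ?_
        rw [C.c_mul i _ (inv_mem Fu) _ hεF, C.c_inv i Fu, hE.c_s i u hu.1, hE.c_s i u' hu'.1,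
          ← huu]
        abel
      · refine C.mul_inv_mem_succ i (mul_mem (inv_mem Fv') hγF) Fv ?_
        rw [C.c_mul i _ (inv_mem Fv') _ hγF, C.c_inv i Fv', hL.c_s i v hv.1, hL.c_s i v' hv'.1,
          ← hvv]
        abel
  obtain ⟨q, hq, q', hq', ε, -, γ, -, hεF, hγF, hr, a, ha, b, hb, hab⟩ := key C.D
  rw [C.bot ε hεF, C.bot γ hγF, one_mul, mul_one] at hr
  exact ⟨a, ha, q, ⟨hq, hr ▸ hq'⟩, b, hb, hab⟩

/-- INT -/
theorem int {E L P P' : Subgroup G} {e l h h' : ℕ → AddSubgroup V} (hE : C.IsGr E e)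
    (hL : C.IsGr L l) (hP : C.IsGr P h) (hP' : C.IsGr P' h')
    (split : ∀ i, ∀ u ∈ e i, ∀ v ∈ l i, u + v ∈ h i ⊔ h' i →
      u ∈ (e i ⊓ h i) ⊔ (e i ⊓ h' i) ∧ v ∈ (l i ⊓ h i) ⊔ (l i ⊓ h' i))
    {x : G} (h1 : DC E P L x) (h2 : DC E P' L x) : DC E (P ⊓ P') L x := by
  obtain ⟨a, ha, p, hp, b, hb, rfl⟩ := h1
  obtain ⟨a', ha', p', hp', b', hb', hx⟩ := h2
  have hr : p = (a⁻¹ * a') * p' * (b' * b⁻¹) := by
    have : p = a⁻¹ * (a * p * b) * b⁻¹ := by group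
    rw [this, hx]; group
  exact ((int' hE hL hP hP' split hp hp' (mul_mem (inv_mem ha) ha') (mul_mem hb' (inv_mem hb))
    hr).mono inf_le_left le_rfl inf_le_left).mul ha hb

/-- SUB -/
theorem sub {E L P : Subgroup G} {e l h : ℕ → AddSubgroup V} (hE : C.IsGr E e)
    (hL : C.IsGr L l) (hP : C.IsGr P h)
    (split : ∀ i, ∀ u ∈ e i, ∀ v ∈ l i, u + v ∈ h i → u ∈ h i ∧ v ∈ h i)
    {p p' ε γ : G} (hp : p ∈ P) (hp' : p' ∈ P) (hε : ε ∈ E) (hγ : γ ∈ L)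
    (hr : p = ε * p' * γ) : ε ∈ P ∧ γ ∈ P := by
  have key : ∀ i, ∃ a ∈ E ⊓ P, ∃ b ∈ L ⊓ P, a⁻¹ * ε ∈ C.F i ∧ γ * b⁻¹ ∈ C.F i := by
    intro i
    induction i with
    | zero => exact ⟨1, one_mem _, 1, one_mem _, C.top _, C.top _⟩
    | succ i ih =>
      obtain ⟨a, ha, b, hb, h1, h2⟩ := ih
      have hu := hE.c_mem i _ (mul_mem (inv_mem ha.1) hε) h1
      have hv := hL.c_mem i _ (mul_mem hγ (inv_mem hb.1)) h2
      have h3 := hP.rel hP i (mul_mem (mul_mem (inv_mem ha.2) hp) (inv_mem hb.2)) hp' h1 h2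
        (by rw [hr]; group)
      rw [sup_idem] at h3
      obtain ⟨h4, h5⟩ := split i _ hu _ hv h3
      refine ⟨a * C.s i (C.c i (a⁻¹ * ε)), mul_mem ha ⟨hE.s_mem i _ hu, hP.s_mem i _ h4⟩,
        C.s i (C.c i (γ * b⁻¹)) * b, mul_mem ⟨hL.s_mem i _ hv, hP.s_mem i _ h5⟩ hb, ?_, ?_⟩
      · rw [mul_inv_rev, mul_assoc]
        exact C.inv_mul_mem_succ i (hE.s_F i _ hu) h1 (hE.c_s i _ hu)
      · rw [mul_inv_rev, ← mul_assoc]
        exact C.mul_inv_mem_succ i h2 (hL.s_F i _ hv) (hL.c_s i _ hv).symm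
  obtain ⟨a, ha, b, hb, h1, h2⟩ := key C.D
  have e1 : ε = a := (inv_mul_eq_one.1 (C.bot _ h1)).symm
  have e2 : γ = b := mul_inv_eq_one.1 (C.bot _ h2)
  exact ⟨e1 ▸ ha.2, e2 ▸ hb.2⟩

variable {G' V' : Type*} [Group G'] [AddCommGroup V'] {C' : CF G' V'}

/-- LIFT: a filtered homomorphism that is onto on the graded pieces is onto -/
theorem lift (π : G →* G') (ℓ : ℕ → V → V') (hF : ∀ i, ∀ x ∈ C.F i, π x ∈ C'.F i)
    (hc : ∀ i, ∀ x ∈ C.F i, C'.c i (π x) = ℓ i (C.c i x))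
    {H : Subgroup G} {h : ℕ → AddSubgroup V} {H' : Subgroup G'} {h' : ℕ → AddSubgroup V'}
    (a : C.IsGr H h) (b : C'.IsGr H' h') (hπ : ∀ x ∈ H, π x ∈ H')
    (onto : ∀ i, ∀ v' ∈ h' i, ∃ v ∈ h i, ℓ i v = v') :
    ∀ y ∈ H', ∃ x ∈ H, π x = y := by
  intro y
  refine C'.ind_down (fun y => y ∈ H' → ∃ x ∈ H, π x = y) (fun _ => ⟨1, one_mem _, map_one π⟩) ?_ y
  intro i ih y hy hH
  obtain ⟨v, hv, e⟩ := onto i _ (b.c_mem i y hH hy)
  have h1 := hF i _ (a.s_F i v hv)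
  obtain ⟨x, hx, ex⟩ := ih _ (C'.inv_mul_mem_succ i h1 hy
    (by rw [hc i _ (a.s_F i v hv), a.c_s i v hv, e]))
    (mul_mem (inv_mem (hπ _ (a.s_mem i v hv))) hH)
  exact ⟨C.s i v * x, mul_mem (a.s_mem i v hv) hx, by rw [map_mul, ex]; group⟩

end CF

/-- GOURSAT in group form; the three hypotheses are SUB in the image and two instances of LIFT -/
theorem grp_goursat {G G₁ : Type*} [Group G] [Group G₁] (π : G →* G₁) {E L H : Subgroup G}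
    {E₁ L₁ H₁ : Subgroup G₁} (hE : ∀ x ∈ E, π x ∈ E₁) (hL : ∀ x ∈ L, π x ∈ L₁)
    (hH : ∀ x ∈ H, π x ∈ H₁)
    (sub : ∀ p ∈ H₁, ∀ p' ∈ H₁, ∀ ε ∈ E₁, ∀ γ ∈ L₁, p = ε * p' * γ → ε ∈ H₁ ∧ γ ∈ H₁)
    (lE : ∀ y ∈ E₁ ⊓ H₁, ∃ x ∈ E ⊓ H, π x = y) (lL : ∀ y ∈ L₁ ⊓ H₁, ∃ x ∈ L ⊓ H, π x = y)
    {z z' : G} (hz : DC E H L z) (hz' : DC E H L z') (e : π z = π z') :
    ∃ ε ∈ E ⊓ π.ker, ∃ γ ∈ L ⊓ π.ker, ∃ γ₀ ∈ L, ∃ ν ∈ H ⊓ π.ker,
      z' = ε * z * (γ₀⁻¹ * ν * γ₀) * γ := by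
  obtain ⟨a, ha, p, hp, b, hb, rfl⟩ := hz
  obtain ⟨a', ha', p', hp', b', hb', rfl⟩ := hz'
  simp only [map_mul] at e
  have hr : π p = ((π a)⁻¹ * π a') * π p' * (π b' * (π b)⁻¹) := by
    have : π p = (π a)⁻¹ * (π a * π p * π b) * (π b)⁻¹ := by group
    rw [this, e]; group
  have m1 := mul_mem (inv_mem (hE a ha)) (hE a' ha')
  have m2 := mul_mem (hL b' hb') (inv_mem (hL b hb))
  obtain ⟨h1, h2⟩ := sub _ (hH p hp) _ (hH p' hp') _ m1 _ m2 hr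
  obtain ⟨x, hx, ex⟩ := lE _ ⟨m1, h1⟩
  obtain ⟨y, hy, ey⟩ := lL _ ⟨m2, h2⟩
  refine ⟨a' * x⁻¹ * a⁻¹, ⟨E.mul_mem (E.mul_mem ha' (E.inv_mem hx.1)) (E.inv_mem ha), ?_⟩,
    b⁻¹ * y⁻¹ * b', ⟨L.mul_mem (L.mul_mem (L.inv_mem hb) (L.inv_mem hy.1)) hb', ?_⟩, b, hb,
    p⁻¹ * x * p' * y, ⟨H.mul_mem (H.mul_mem (H.mul_mem (H.inv_mem hp) hx.2) hp') hy.2, ?_⟩,
    by group⟩
  · show _ ∈ π.ker
    rw [MonoidHom.mem_ker, map_mul, map_mul, map_inv, map_inv, ex]; group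
  · show _ ∈ π.ker
    rw [MonoidHom.mem_ker, map_mul, map_mul, map_inv, map_inv, ey]; group
  · show _ ∈ π.ker
    rw [MonoidHom.mem_ker, map_mul, map_mul, map_mul, map_inv, ex, ey, hr]; group

/-- the Goursat subgroup is normal when the second projection is onto -/
theorem grp_goursat_normal {G G₁ G₂ : Type*} [Group G] [Group G₁] [Group G₂] (π : G →* G₁)
    (ρ : G →* G₂) {H : Subgroup G} (onto : ∀ y, ∃ x ∈ H, ρ x = y) :
    ((H ⊓ π.ker).map ρ).Normal := by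
  refine ⟨?_⟩
  rintro _ ⟨n, hn, rfl⟩ g
  obtain ⟨x, hx, rfl⟩ := onto g
  refine ⟨x * n * x⁻¹, ⟨H.mul_mem (H.mul_mem hx hn.1) (H.inv_mem hx), ?_⟩, by simp⟩
  exact (MonoidHom.normal_ker π).conj_mem n hn.2 x

/-! ### filtered Lie algebras -/

section lie

variable {K A : Type*} [Field K] [LieRing A] [LieAlgebra K A]

/-- the span of the brackets of total degree `i` -/
def lieBrk (g : ℕ → Submodule K A) (i : ℕ) : Submodule K A :=
  Submodule.span K {z | ∃ a b, 1 ≤ a ∧ 1 ≤ b ∧ a + b = i ∧ ∃ x ∈ g a, ∃ y ∈ g b, z = ⁅x, y⁆}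

/-- a nested subsystem that fills all the abelianised pieces is everything -/
theorem eq_of_fill (g h : ℕ → Submodule K A) (D : ℕ) (gD : g (D + 1) = ⊥)
    (gbr : ∀ a b, 1 ≤ a → 1 ≤ b → ∀ x ∈ g a, ∀ y ∈ g b, ⁅x, y⁆ ∈ g (a + b))
    (hbr : ∀ a b, 1 ≤ a → 1 ≤ b → ∀ x ∈ h a, ∀ y ∈ h b, ⁅x, y⁆ ∈ h (a + b))
    (ganti : ∀ i, 1 ≤ i → g (i + 1) ≤ g i) (hanti : ∀ i, 1 ≤ i → h (i + 1) ≤ h i)
    (hle : ∀ i, 1 ≤ i → h i ≤ g i)
    (fill : ∀ i, 1 ≤ i → g i ≤ h i ⊔ g (i + 1) ⊔ lieBrk g i) : ∀ i, 1 ≤ i → g i ≤ h i := by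
  have up : ∀ i, 1 ≤ i → g i ≤ h i ⊔ g (i + 1) := by
    intro i
    induction i using Nat.strong_induction_on with
    | _ i ih =>
      intro hi
      refine (fill i hi).trans (sup_le le_rfl (Submodule.span_le.2 ?_))
      rintro _ ⟨a, b, ha, hb, rfl, x, hx, y, hy, rfl⟩
      obtain ⟨x1, hx1, x2, hx2, rfl⟩ := Submodule.mem_sup.1 (ih a (by omega) ha hx)
      obtain ⟨y1, hy1, y2, hy2, rfl⟩ := Submodule.mem_sup.1 (ih b (by omega) hb hy)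
      rw [add_lie, lie_add x1, add_assoc ⁅x1, y1⁆]
      refine Submodule.add_mem_sup (hbr a b ha hb _ hx1 _ hy1) (add_mem ?_ ?_)
      · exact gbr a (b + 1) ha (by omega) _ (hle a ha hx1) _ hy2
      · have := gbr (a + 1) b (by omega) hb _ hx2 _ hy
        rwa [add_right_comm] at this
  have gmono : ∀ k i, 1 ≤ i → g (i + k) ≤ g i := by
    intro k
    induction k with
    | zero => exact fun i _ => le_rfl
    | succ k ih => exact fun i hi => (ganti (i + k) (by omega)).trans (ih i hi)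
  have down : ∀ k i, 1 ≤ i → D + 1 ≤ i + k → g i ≤ h i := by
    intro k
    induction k with
    | zero =>
      intro i hi hD
      obtain ⟨j, rfl⟩ := Nat.exists_eq_add_of_le (show D + 1 ≤ i from hD)
      exact ((gmono j _ (by omega)).trans gD.le).trans bot_le
    | succ k ih =>
      intro i hi hD
      exact (up i hi).trans (sup_le le_rfl
        ((ih (i + 1) (by omega) (by omega)).trans (hanti i hi)))
  exact fun i hi => down (D + 1) i hi (by omega)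

/-- a proper nested subsystem is killed by an admissible functional -/
theorem exists_admissible (g h : ℕ → Submodule K A) (D : ℕ) (gD : g (D + 1) = ⊥)
    (gbr : ∀ a b, 1 ≤ a → 1 ≤ b → ∀ x ∈ g a, ∀ y ∈ g b, ⁅x, y⁆ ∈ g (a + b))
    (hbr : ∀ a b, 1 ≤ a → 1 ≤ b → ∀ x ∈ h a, ∀ y ∈ h b, ⁅x, y⁆ ∈ h (a + b))
    (ganti : ∀ i, 1 ≤ i → g (i + 1) ≤ g i) (hanti : ∀ i, 1 ≤ i → h (i + 1) ≤ h i)
    (hle : ∀ i, 1 ≤ i → h i ≤ g i) (hne : ∃ i, 1 ≤ i ∧ ¬ g i ≤ h i) :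
    ∃ i, 1 ≤ i ∧ ∃ η : A →ₗ[K] K, (∃ x ∈ g i, η x ≠ 0) ∧ (∀ x ∈ h i, η x = 0) ∧
      (∀ x ∈ g (i + 1), η x = 0) ∧
      ∀ a b, 1 ≤ a → 1 ≤ b → a + b = i → ∀ x ∈ g a, ∀ y ∈ g b, η ⁅x, y⁆ = 0 := by
  by_contra hcon
  obtain ⟨i, hi, hn⟩ := hne
  refine hn (eq_of_fill g h D gD gbr hbr ganti hanti hle (fun i hi => ?_) i hi)
  intro x hx
  by_contra hx'
  obtain ⟨η, h1, h2⟩ := Submodule.exists_dual_map_eq_bot_of_notMem hx' inferInstance
  have h3 : ∀ z ∈ h i ⊔ g (i + 1) ⊔ lieBrk g i, η z = 0 := fun z hz => by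
    have : η z ∈ Submodule.map η (h i ⊔ g (i + 1) ⊔ lieBrk g i) := Submodule.mem_map_of_mem hz
    rwa [h2, Submodule.mem_bot] at this
  refine hcon ⟨i, hi, η, ⟨x, hx, h1⟩, fun z hz => h3 z ?_, fun z hz => h3 z ?_,
    fun a b ha hb hab x hx y hy => h3 _ ?_⟩
  · exact Submodule.mem_sup_left (Submodule.mem_sup_left hz)
  · exact Submodule.mem_sup_left (Submodule.mem_sup_right hz)
  · exact Submodule.mem_sup_right (Submodule.subset_span ⟨a, b, ha, hb, hab, x, hx, y, hy, rfl⟩)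

end lie

end Pool.Agent.P.MP_a14ce1_nt.Nil
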