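import Pool.Agent.P.MP_a14ce1_nt.Nil.Sym
import Pool.Agent.P.MP_a14ce1_nt.Nil.Core

/-!
The graded core in the matrix model: SUB, INT and the unique minimal family.
-/

open Finset MvPolynomial

set_option linter.unusedSectionVars false

noncomputable section

namespace Pool.Agent.P.MP_a14ce1_nt.Nil

variable {FF : Type} [Field FF] [CharZero FF] {ι κ : Type} [Fintype ι] [DecidableEq ι]
  [Fintype κ] [DecidableEq κ] {K : Subfield FF} {lv : ι → ℕ} {σ : Type}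

/-! ### building polynomial matrices from coefficients -/

theorem co_finite (X : Matrix ι ι (MvPolynomial σ FF)) : {β | co β X ≠ 0}.Finite := by
  classical
  refine (univ.biUnion fun p : ι × ι => (X p.1 p.2).support).finite_toSet.subset fun β hβ => ?_
  by_contra h
  apply hβ
  ext a b
  by_contra h'
  exact h (mem_coe.2 (mem_biUnion.2 ⟨(a, b), mem_univ _, mem_support_iff.2 h'⟩))

theorem exists_co (f : (σ →₀ ℕ) → Matrix κ κ FF) (hf : {β | f β ≠ 0}.Finite) :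
    ∃ Y : Matrix κ κ (MvPolynomial σ FF), ∀ β, co β Y = f β := by
  classical
  refine ⟨Matrix.of fun a b => ∑ γ ∈ hf.toFinset, monomial γ (f γ a b), fun β => ?_⟩
  ext a b
  simp only [co, Matrix.map_apply, Matrix.of_apply, coeff_sum, coeff_monomial, sum_ite_eq']
  split_ifs with h
  · rfl
  · have : f β = 0 := by simpa using h
    rw [this]; rfl

/-- coefficientwise choice -/
theorem exists_co' (X : Matrix ι ι (MvPolynomial σ FF)) (R : (σ →₀ ℕ) → Matrix κ κ FF → Prop)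
    (h0 : ∀ β, co β X = 0 → R β 0) (h : ∀ β, ∃ y, R β y) :
    ∃ Y : Matrix κ κ (MvPolynomial σ FF), ∀ β, R β (co β Y) := by
  classical
  choose f hf using h
  obtain ⟨Y, hY⟩ := exists_co (fun β => if co β X = 0 then 0 else f β)
    ((co_finite X).subset fun β hβ h => hβ (if_pos h))
  refine ⟨Y, fun β => ?_⟩
  rw [hY]
  split_ifs with h
  · exact h0 β h
  · exact hf β

/-- the homogeneous part of degree `i` -/
def hc (i : ℕ) (X : Matrix ι ι (MvPolynomial σ FF)) : Matrix ι ι (MvPolynomial σ FF) :=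
  X.map (homogeneousComponent i)

theorem co_hc (i : ℕ) (β : σ →₀ ℕ) (X : Matrix ι ι (MvPolynomial σ FF)) :
    co β (hc i X) = if β.degree = i then co β X else 0 := by
  ext a b
  simp only [co, hc, Matrix.map_apply, coeff_homogeneousComponent]
  split_ifs <;> rfl

theorem co_neg (β : σ →₀ ℕ) (X : Matrix ι ι (MvPolynomial σ FF)) : co β (-X) = -co β X := by
  ext a b; simp [co]

/-! ### truncation and the central filtration -/

open Classical in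
/-- the part of degree at least `i` -/
def Fam.tr (g : Fam K lv (σ →₀ ℕ)) (i : ℕ) : Fam K lv (σ →₀ ℕ) where
  r β := if β.degree < i then ⊥ else g.r β
  up β X hX := by
    split_ifs at hX
    · rw [Submodule.mem_bot] at hX; rw [hX]; exact zero_mem _
    · exact g.up β X hX
  rat β φ X hX := by
    split_ifs at hX ⊢
    · rw [Submodule.mem_bot] at hX ⊢; rw [hX]; exact Matrix.map_zero _ (map_zero φ)
    · exact g.rat β φ X hX
  br β γ X hX Y hY := by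
    by_cases hβ : β.degree < i
    · rw [if_pos hβ, Submodule.mem_bot] at hX; simp [hX]
    by_cases hγ : γ.degree < i
    · rw [if_pos hγ, Submodule.mem_bot] at hY; simp [hY]
    rw [if_neg hβ] at hX
    rw [if_neg hγ] at hY
    rw [if_neg (by rw [map_add]; omega)]
    exact g.br β γ X hX Y hY

theorem Fam.mem_tr {g : Fam K lv (σ →₀ ℕ)} {i : ℕ} {β : σ →₀ ℕ} {X : Matrix ι ι FF} :
    X ∈ (g.tr i).r β ↔ X ∈ g.r β ∧ (β.degree < i → X = 0) := by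
  unfold Fam.tr
  dsimp only
  split_ifs with h
  · rw [Submodule.mem_bot]
    exact ⟨fun e => ⟨e ▸ zero_mem _, fun _ => e⟩, fun e => e.2 h⟩
  · exact ⟨fun e => ⟨e, fun h' => absurd h' h⟩, fun e => e.1⟩

theorem Fam.br_tr {g : Fam K lv (σ →₀ ℕ)} (g0 : g.r 0 = ⊥) {i : ℕ}
    {X Y : Matrix ι ι (MvPolynomial σ FF)} (hX : X ∈ pm g.r) (hY : Y ∈ pm (g.tr i).r) :
    X * Y - Y * X ∈ pm (g.tr (i + 1)).r := by
  classical
  intro β
  rw [Fam.mem_tr]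
  refine ⟨g.lie.br X hX Y (fun γ => (Fam.mem_tr.1 (hY γ)).1) β, fun hβ => ?_⟩
  rw [co_br]
  refine sum_eq_zero fun p hp => ?_
  have e := congrArg Finsupp.degree (mem_antidiagonal.1 hp)
  rw [map_add] at e
  by_cases h1 : p.1 = 0
  · have := hX p.1
    rw [h1, g0, Submodule.mem_bot] at this
    rw [h1, this]; simp
  · have : p.1.degree ≠ 0 := fun h => h1 ((Finsupp.degree_eq_zero_iff _).1 h)
    rw [(Fam.mem_tr.1 (hY p.2)).2 (by omega)]; simp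

theorem Fam.tr_succ_le {g : Fam K lv (σ →₀ ℕ)} {i : ℕ} :
    pm (g.tr (i + 1)).r ≤ pm (g.tr i).r := fun _ hX β =>
  Fam.mem_tr.2 ⟨(Fam.mem_tr.1 (hX β)).1, fun h => (Fam.mem_tr.1 (hX β)).2 (by omega)⟩

theorem Fam.tr_le {g : Fam K lv (σ →₀ ℕ)} {i : ℕ} : pm (g.tr i).r ≤ pm g.r := fun _ hX β =>
  (Fam.mem_tr.1 (hX β)).1

theorem hc_eq_of_sub {g : Fam K lv (σ →₀ ℕ)} {i : ℕ} {X Y : Matrix ι ι (MvPolynomial σ FF)}
    (h : X - Y ∈ pm (g.tr (i + 1)).r) : hc i X = hc i Y := by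
  refine ext_co fun β => ?_
  rw [co_hc, co_hc]
  split_ifs with e
  · have := (Fam.mem_tr.1 (h β)).2 (by omega)
    rwa [co_sub, sub_eq_zero] at this
  · rfl

theorem hc_add (i : ℕ) (X Y : Matrix ι ι (MvPolynomial σ FF)) :
    hc i (X + Y) = hc i X + hc i Y := by
  ext a b; simp [hc]

theorem UT.inv_val {R : Type} [CommRing R] [Algebra ℚ R] (x : UT lv R) :
    x⁻¹.val = IsNilpotent.exp (-lg x) := rfl

theorem lg_conj_tr {g : Fam K lv (σ →₀ ℕ)} (g0 : g.r 0 = ⊥) {i : ℕ} {a x : PS lv σ FF}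
    (ha : a ∈ g.PG) (hx : x ∈ (g.tr i).PG) :
    lg (a * x * a⁻¹) - lg x ∈ pm (g.tr (i + 1)).r := by
  rw [lg_conj, UT.inv_val, ← exp_lg a]
  exact conj_sub_mem (up_nil (lg_mem a))
    (fun u hu => Fam.tr_succ_le (Fam.br_tr g0 ha hu)) (Fam.br_tr g0 ha hx)

open Classical in
/-- the central filtration by the degree -/
def Fam.cf (g : Fam K lv (σ →₀ ℕ)) (g0 : g.r 0 = ⊥) {D : ℕ} (hD : g.Bd D) :
    CF g.PG (Matrix ι ι (MvPolynomial σ FF)) where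
  F i := (g.tr i).PG.subgroupOf g.PG
  D := D + 1
  c i x := hc i (lg x.1)
  s _ v := if h : v ∈ pm g.r then
    ⟨ex lv v, by rw [Fam.PG, Lie.mem_grp, lg_ex (g.lie.up h)]; exact h⟩ else 1
  top x β := Fam.mem_tr.2 ⟨x.2 β, fun h => absurd h (Nat.not_lt_zero _)⟩
  bot x hx := by
    apply Subtype.ext
    apply lg_inj
    refine ext_co fun β => ?_
    have := Fam.mem_tr.1 (hx β)
    change co β (lg x.1) = co β (lg 1)
    rw [lg_one, co_zero]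
    by_cases h : β.degree < D + 1
    · exact this.2 h
    · have h1 := this.1
      rwa [hD β (by omega), Submodule.mem_bot] at h1
  anti i x hx := Fam.tr_succ_le hx
  c_mul i x hx y hy := by
    rw [← hc_add]
    apply hc_eq_of_sub (g := g)
    rw [← sub_sub]
    exact lg_mul_sub (𝔏 := g.lie) Fam.tr_le
      (fun a ha b hb => Fam.tr_succ_le (Fam.br_tr g0 ha hb)) x.2 y.2 (Fam.br_tr g0 x.2 hy)
  ker i x hx := by
    constructor
    · intro h β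
      refine Fam.mem_tr.2 ⟨x.2 β, fun hβ => ?_⟩
      rcases Nat.lt_succ_iff_lt_or_eq.1 hβ with h' | h'
      · exact (Fam.mem_tr.1 (hx β)).2 h'
      · have := congrArg (co β) h
        rwa [co_hc, if_pos h', co_zero] at this
    · intro h
      refine ext_co fun β => ?_
      rw [co_hc, co_zero]
      split_ifs with e
      · exact (Fam.mem_tr.1 (h β)).2 (by omega)
      · rfl
  conj_mem i a x hx := by
    have hx' : x.1 ∈ (g.tr i).PG := hx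
    have := add_mem (Fam.tr_succ_le (lg_conj_tr g0 a.2 hx')) (show lg x.1 ∈ pm (g.tr i).r from hx)
    rw [sub_add_cancel] at this
    exact this
  c_conj i a x hx := hc_eq_of_sub (g := g) (lg_conj_tr g0 a.2 hx)

/-- homogeneous matrices of degree `i` with coefficients in `W` and in `g` -/
def gp (g : Fam K lv (σ →₀ ℕ)) (W : (σ →₀ ℕ) → AddSubgroup (Matrix ι ι FF)) (i : ℕ) :
    AddSubgroup (Matrix ι ι (MvPolynomial σ FF)) where
  carrier := {X | ∀ β, co β X ∈ W β ∧ co β X ∈ g.r β ∧ (β.degree ≠ i → co β X = 0)}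
  add_mem' hX hY β := by
    rw [co_add]
    exact ⟨add_mem (hX β).1 (hY β).1, add_mem (hX β).2.1 (hY β).2.1,
      fun h => by rw [(hX β).2.2 h, (hY β).2.2 h, add_zero]⟩
  zero_mem' β := by simp
  neg_mem' hX β := by
    rw [co_neg]
    exact ⟨neg_mem (hX β).1, neg_mem (hX β).2.1, fun h => by rw [(hX β).2.2 h, neg_zero]⟩

theorem mem_gp {g : Fam K lv (σ →₀ ℕ)} {W : (σ →₀ ℕ) → AddSubgroup (Matrix ι ι FF)} {i : ℕ}
    {X : Matrix ι ι (MvPolynomial σ FF)} : X ∈ gp g W i ↔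
      ∀ β, co β X ∈ W β ∧ co β X ∈ g.r β ∧ (β.degree ≠ i → co β X = 0) := Iff.rfl

/-- `H` is described by conditions on the coefficients of the logarithm -/
def Desc (H : Subgroup (PS lv σ FF)) (W : (σ →₀ ℕ) → AddSubgroup (Matrix ι ι FF)) : Prop :=
  ∀ x, x ∈ H ↔ ∀ β, co β (lg x) ∈ W β

theorem Fam.lg_s {g : Fam K lv (σ →₀ ℕ)} (g0 : g.r 0 = ⊥) {D : ℕ} (hD : g.Bd D) (i : ℕ)
    {v : Matrix ι ι (MvPolynomial σ FF)} (hv : v ∈ pm g.r) : lg ((g.cf g0 hD).s i v).1 = v := by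
  unfold Fam.cf
  dsimp only
  rw [dif_pos hv]
  exact lg_ex (g.lie.up hv)

theorem Desc.isGr {H : Subgroup (PS lv σ FF)} {W : (σ →₀ ℕ) → AddSubgroup (Matrix ι ι FF)}
    (hH : Desc H W) {g : Fam K lv (σ →₀ ℕ)} (g0 : g.r 0 = ⊥) {D : ℕ} (hD : g.Bd D) :
    (g.cf g0 hD).IsGr (H.subgroupOf g.PG) (gp g W) where
  c_mem i x hx _ β := by
    change co β (hc i (lg x.1)) ∈ W β ∧ co β (hc i (lg x.1)) ∈ g.r β ∧
      (β.degree ≠ i → co β (hc i (lg x.1)) = 0)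
    rw [co_hc]
    split_ifs with e
    · exact ⟨(hH _).1 hx β, x.2 β, fun h => absurd e h⟩
    · exact ⟨zero_mem _, zero_mem _, fun _ => rfl⟩
  s_mem i v hv := by
    refine (hH _).2 fun β => ?_
    change co β (lg ((g.cf g0 hD).s i v).1) ∈ W β
    rw [Fam.lg_s g0 hD i fun β => (hv β).2.1]
    exact (hv β).1
  s_F i v hv β := by
    change co β (lg ((g.cf g0 hD).s i v).1) ∈ (g.tr i).r β
    rw [Fam.lg_s g0 hD i fun β => (hv β).2.1]
    exact Fam.mem_tr.2 ⟨(hv β).2.1, fun h => (hv β).2.2 h.ne⟩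
  c_s i v hv := by
    change hc i (lg ((g.cf g0 hD).s i v).1) = v
    rw [Fam.lg_s g0 hD i fun β => (hv β).2.1]
    refine ext_co fun β => ?_
    rw [co_hc]
    split_ifs with e
    · rfl
    · exact ((hv β).2.2 e).symm

/-- matrices with entries in `S` -/
def entG (ι : Type) (S : Submodule K FF) : AddSubgroup (Matrix ι ι FF) where
  carrier := {X | Ent (S : Set FF) X}
  add_mem' hX hY a b := S.add_mem (hX a b) (hY a b)
  zero_mem' _ _ := S.zero_mem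
  neg_mem' hX a b := S.neg_mem (hX a b)

theorem mem_entG {S : Submodule K FF} {X : Matrix ι ι FF} : X ∈ entG ι S ↔ Ent (S : Set FF) X :=
  Iff.rfl

theorem Fam.desc (h : Fam K lv (σ →₀ ℕ)) : Desc h.PG fun β => (h.r β).toAddSubgroup :=
  fun _ => Iff.rfl

theorem Sc.desc (S : Sc K σ) : Desc (S.EE lv) fun β => entG ι (S.s β) := fun _ => Sc.mem_EE

theorem desc_bot : Desc (⊥ : Subgroup (PS lv σ FF)) fun _ => ⊥ := by
  intro x
  rw [Subgroup.mem_bot]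
  constructor
  · rintro rfl β; simp
  · intro h
    apply lg_inj
    refine ext_co fun β => ?_
    rw [lg_one, co_zero]
    exact h β

theorem Desc.inf {H H' : Subgroup (PS lv σ FF)} {W W' : (σ →₀ ℕ) → AddSubgroup (Matrix ι ι FF)}
    (a : Desc H W) (b : Desc H' W') : Desc (H ⊓ H') fun β => W β ⊓ W' β := fun x => by
  rw [Subgroup.mem_inf, a x, b x]
  exact ⟨fun h β => ⟨h.1 β, h.2 β⟩, fun h => ⟨fun β => (h β).1, fun β => (h β).2⟩⟩

theorem Fam.PG_inf (g h : Fam K lv (σ →₀ ℕ)) : (g.inf h).PG = g.PG ⊓ h.PG :=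
  Subgroup.ext fun _ => ⟨fun a => ⟨fun β => (a β).1, fun β => (a β).2⟩, fun a β => ⟨a.1 β, a.2 β⟩⟩

/-! ### a bounded ambient family -/

/-- polynomial degree at most `d` times the level difference -/
def amb (K : Subfield FF) (lv : ι → ℕ) (σ : Type) (d : ℕ) : Fam K lv (σ →₀ ℕ) where
  r β :=
    { carrier := {X | X ∈ mF FF lv 1 ∧ X ∈ mF FF (fun a => d * lv a) β.degree}
      add_mem' := fun hX hY => ⟨add_mem hX.1 hY.1, add_mem hX.2 hY.2⟩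
      zero_mem' := ⟨zero_mem _, zero_mem _⟩
      smul_mem' := fun c X hX => ⟨fun a b h => by rw [Matrix.smul_apply, hX.1 a b h, smul_zero],
        fun a b h => by rw [Matrix.smul_apply, hX.2 a b h, smul_zero]⟩ }
  up _ _ hX := hX.1
  rat _ φ X hX := ⟨fun a b h => by rw [Matrix.map_apply, hX.1 a b h, map_zero],
    fun a b h => by rw [Matrix.map_apply, hX.2 a b h, map_zero]⟩
  br β γ X hX Y hY := by
    have k := fun X Y hX hY => (filt_mF FF lv).anti 1 ((filt_mF FF lv).mul 1 1 X hX Y hY)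
    refine ⟨sub_mem (k X Y hX.1 hY.1) (k Y X hY.1 hX.1), ?_⟩
    rw [map_add]
    refine sub_mem ((filt_mF FF _).mul _ _ X hX.2 Y hY.2) ?_
    rw [add_comm]
    exact (filt_mF FF _).mul _ _ Y hY.2 X hX.2

theorem amb_bd (d : ℕ) : (amb K lv σ d).Bd (d * univ.sup lv) := by
  intro β hβ
  rw [eq_bot_iff]
  intro X hX
  rw [Submodule.mem_bot]
  ext a b
  refine hX.2 a b ?_
  have : d * lv b ≤ d * univ.sup lv := Nat.mul_le_mul_left d (le_sup (mem_univ b))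
  change d * lv b < d * lv a + _
  omega

theorem ev_amb (x : PS lv σ FF) : ∀ᶠ d in Filter.atTop, x ∈ (amb K lv σ d).PG := by
  obtain ⟨d, hd⟩ := ((co_finite (lg x)).image Finsupp.degree).bddAbove
  filter_upwards [Filter.eventually_ge_atTop d] with d' hd' β
  have h1 := up_iff_co.1 (lg_mem x) β
  refine ⟨h1, fun a b hab => ?_⟩
  by_cases h0 : co β (lg x) = 0
  · rw [h0]; rfl
  · have h2 : β.degree ≤ d := hd ⟨β, h0, rfl⟩
    refine h1 a b ?_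
    by_contra h3
    have : d' * (lv a + 1) ≤ d' * lv b := Nat.mul_le_mul_left _ (by omega)
    rw [mul_add, mul_one] at this
    change d' * lv b < d' * lv a + _ at hab
    omega

theorem Fam.inf_bd (g : Fam K lv (σ →₀ ℕ)) (d : ℕ) :
    (g.inf (amb K lv σ d)).Bd (d * univ.sup lv) := fun β hβ => by
  change g.r β ⊓ (amb K lv σ d).r β = ⊥
  rw [amb_bd d β hβ, inf_bot_eq]

theorem Fam.inf_zero {g : Fam K lv (σ →₀ ℕ)} (g0 : g.r 0 = ⊥) (h : Fam K lv (σ →₀ ℕ)) :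
    (g.inf h).r 0 = ⊥ := by
  change g.r 0 ⊓ h.r 0 = ⊥
  rw [g0, bot_inf_eq]

/-! ### SUB and INT for described subgroups -/

theorem gp_split {g : Fam K lv (σ →₀ ℕ)} {e w w' : (σ →₀ ℕ) → AddSubgroup (Matrix ι ι FF)}
    {i : ℕ} {u : Matrix ι ι (MvPolynomial σ FF)} (hu : u ∈ gp g e i)
    (h : ∀ β, co β u ≠ 0 → ∃ y, y ∈ e β ∧ y ∈ w β ∧ y ∈ g.r β ∧ co β u - y ∈ w' β) :
    u ∈ (gp g e i ⊓ gp g w i) ⊔ (gp g e i ⊓ gp g w' i) := by
  obtain ⟨Y, hY⟩ := exists_co' u (fun β y => y ∈ e β ∧ y ∈ w β ∧ y ∈ g.r β ∧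
    co β u - y ∈ w' β ∧ (co β u = 0 → y = 0))
    (fun β h0 => ⟨zero_mem _, zero_mem _, zero_mem _, by rw [h0, sub_zero]; exact zero_mem _,
      fun _ => rfl⟩)
    (fun β => by
      by_cases h0 : co β u = 0
      · exact ⟨0, zero_mem _, zero_mem _, zero_mem _, by rw [h0, sub_zero]; exact zero_mem _,
          fun _ => rfl⟩
      · obtain ⟨y, a, b, c, d⟩ := h β h0
        exact ⟨y, a, b, c, d, fun h' => absurd h' h0⟩)
  have h1 : Y ∈ gp g e i := fun β =>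
    ⟨(hY β).1, (hY β).2.2.1, fun hβ => (hY β).2.2.2.2 ((hu β).2.2 hβ)⟩
  have h2 := sub_mem hu h1
  refine AddSubgroup.mem_sup.2 ⟨Y, ⟨h1, fun β => ⟨(hY β).2.1, (h1 β).2⟩⟩, u - Y,
    ⟨h2, fun β => ⟨?_, (h2 β).2⟩⟩, add_sub_cancel _ _⟩
  rw [co_sub]
  exact (hY β).2.2.2.1

theorem ne_zero_of_co {g : Fam K lv (σ →₀ ℕ)} (g0 : g.r 0 = ⊥) {β : σ →₀ ℕ} {X : Matrix ι ι FF}
    (h : X ∈ g.r β) (h0 : X ≠ 0) : β ≠ 0 := by
  rintro rfl
  rw [g0] at h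
  exact h0 h

/-- INT for described subgroups, with a hypothesis on single matrices -/
theorem desc_int {E L P P' : Subgroup (PS lv σ FF)}
    {e l w w' : (σ →₀ ℕ) → AddSubgroup (Matrix ι ι FF)} (hE : Desc E e) (hL : Desc L l)
    (hP : Desc P w) (hP' : Desc P' w') {g : Fam K lv (σ →₀ ℕ)} (g0 : g.r 0 = ⊥)
    (split : ∀ β ≠ 0, ∀ V : Submodule FF (Matrix ι ι FF), IsRat K V → V ≤ g.r β →
      ∀ u ∈ e β, ∀ v ∈ l β, ∀ a ∈ w β, ∀ b ∈ w' β, u ∈ V → v ∈ V → a ∈ V → b ∈ V →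
      u + v = a + b → (∃ y, y ∈ e β ∧ y ∈ w β ∧ y ∈ V ∧ u - y ∈ w' β) ∧
        ∃ y, y ∈ l β ∧ y ∈ w β ∧ y ∈ V ∧ v - y ∈ w' β)
    {p p' ε γ : PS lv σ FF} (hp : p ∈ g.PG ⊓ P) (hp' : p' ∈ g.PG ⊓ P') (hε : ε ∈ g.PG ⊓ E)
    (hγ : γ ∈ g.PG ⊓ L) (hr : p = ε * p' * γ) :
    DC (g.PG ⊓ (E ⊓ P)) (g.PG ⊓ (P ⊓ P')) (g.PG ⊓ (L ⊓ P)) p := by
  obtain ⟨d, h1, h2, h3, h4⟩ := ((ev_amb (K := K) p).and ((ev_amb (K := K) p').and
    ((ev_amb (K := K) ε).and (ev_amb (K := K) γ)))).exists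
  set g' := g.inf (amb K lv σ d) with hg'
  have z : g'.r 0 = ⊥ := Fam.inf_zero g0 _
  have hD := g.inf_bd d
  have m : ∀ {x}, x ∈ g.PG → x ∈ (amb K lv σ d).PG → x ∈ g'.PG := fun a b => by
    rw [hg', Fam.PG_inf]; exact ⟨a, b⟩
  have m' : ∀ x : g'.PG, x.1 ∈ g.PG := fun x β => (x.2 β).1
  obtain ⟨a, ha, q, hq, b, hb, e⟩ := CF.int' (hE.isGr z hD) (hL.isGr z hD) (hP.isGr z hD)
    (hP'.isGr z hD) (p := ⟨p, m hp.1 h1⟩) (p' := ⟨p', m hp'.1 h2⟩) (ε := ⟨ε, m hε.1 h3⟩)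
    (γ := ⟨γ, m hγ.1 h4⟩) (fun i u hu v hv huv => by
      obtain ⟨a, ha, b, hb, hab⟩ := AddSubgroup.mem_sup.1 huv
      have key := fun β (hβ : β ≠ 0) => split β hβ (g'.r β) (g'.rat β) inf_le_left _ (hu β).1 _
        (hv β).1 _ (ha β).1 _ (hb β).1 (hu β).2.1 (hv β).2.1 (ha β).2.1 (hb β).2.1
        (by rw [← co_add, ← co_add, hab])
      exact ⟨gp_split hu fun β h0 => (key β (ne_zero_of_co z (hu β).2.1 h0)).1,
        gp_split hv fun β h0 => (key β (ne_zero_of_co z (hv β).2.1 h0)).2⟩)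
    hp.2 hp'.2 hε.2 hγ.2 (Subtype.ext hr)
  exact ⟨a.1, ⟨m' a, ha.1, ha.2⟩, q.1, ⟨m' q, hq.1, hq.2⟩, b.1, ⟨m' b, hb.1, hb.2⟩,
    congrArg Subtype.val e⟩

/-- SUB for described subgroups -/
theorem desc_sub {E L P : Subgroup (PS lv σ FF)}
    {e l w : (σ →₀ ℕ) → AddSubgroup (Matrix ι ι FF)} (hE : Desc E e) (hL : Desc L l)
    (hP : Desc P w) {g : Fam K lv (σ →₀ ℕ)} (g0 : g.r 0 = ⊥)
    (split : ∀ β ≠ 0, ∀ u ∈ e β, ∀ v ∈ l β, u + v ∈ w β → u ∈ w β ∧ v ∈ w β)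
    {p p' ε γ : PS lv σ FF} (hp : p ∈ g.PG ⊓ P) (hp' : p' ∈ g.PG ⊓ P) (hε : ε ∈ g.PG ⊓ E)
    (hγ : γ ∈ g.PG ⊓ L) (hr : p = ε * p' * γ) : ε ∈ P ∧ γ ∈ P := by
  obtain ⟨d, h1, h2, h3, h4⟩ := ((ev_amb (K := K) p).and ((ev_amb (K := K) p').and
    ((ev_amb (K := K) ε).and (ev_amb (K := K) γ)))).exists
  set g' := g.inf (amb K lv σ d) with hg'
  have z : g'.r 0 = ⊥ := Fam.inf_zero g0 _
  have hD := g.inf_bd d
  have m : ∀ {x}, x ∈ g.PG → x ∈ (amb K lv σ d).PG → x ∈ g'.PG := fun a b => by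
    rw [hg', Fam.PG_inf]; exact ⟨a, b⟩
  exact CF.sub (hE.isGr z hD) (hL.isGr z hD) (hP.isGr z hD)
    (p := ⟨p, m hp.1 h1⟩) (p' := ⟨p', m hp'.1 h2⟩) (ε := ⟨ε, m hε.1 h3⟩)
    (γ := ⟨γ, m hγ.1 h4⟩) (fun i u hu v hv huv => by
      have key : ∀ β, co β u ∈ w β ∧ co β v ∈ w β := fun β => by
        by_cases hβ : β = 0
        · have a := (hu β).2.1
          have b := (hv β).2.1
          rw [hβ, z, Submodule.mem_bot] at a b
          rw [hβ, a, b]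
          exact ⟨zero_mem _, zero_mem _⟩
        · exact split β hβ _ (hu β).1 _ (hv β).1 (by rw [← co_add]; exact (huv β).1)
      exact ⟨fun β => ⟨(key β).1, (hu β).2⟩, fun β => ⟨(key β).2, (hv β).2⟩⟩)
    hp.2 hp'.2 hε.2 hγ.2 (Subtype.ext hr)

/-! ### small and rational -/

theorem exists_proj_of_disjoint {S T : Submodule K FF} (h : S ⊓ T = ⊥) :
    ∃ φ : FF →ₗ[K] FF, (∀ x, φ x ∈ S) ∧ (∀ x ∈ S, φ x = x) ∧ ∀ x ∈ T, φ x = 0 := by
  obtain ⟨T', hT, hc⟩ := (disjoint_iff.2 (inf_comm S T ▸ h) : Disjoint T S).exists_isCompl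
  refine ⟨S.subtype ∘ₗ S.projectionOnto T' hc.symm, fun x => (S.projectionOnto T' hc.symm x).2,
    fun x hx => ?_, fun x hx => ?_⟩
  · exact congrArg Subtype.val (Submodule.projectionOnto_apply_left hc.symm ⟨x, hx⟩)
  · exact congrArg Subtype.val (Submodule.projectionOnto_apply_of_mem_right hc.symm (hT hx))

theorem sep_split {S T : Submodule K FF} (h : S ⊓ T = ⊥) {V V' : Submodule FF (Matrix ι ι FF)}
    (hV : IsRat K V) (hV' : IsRat K V') {u v a b : Matrix ι ι FF} (hu : Ent (S : Set FF) u)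
    (hv : Ent (T : Set FF) v) (ha : a ∈ V) (hb : b ∈ V') (e : u + v = a + b) :
    ∃ y, Ent (S : Set FF) y ∧ y ∈ V ∧ u - y ∈ V' := by
  obtain ⟨φ, h1, h2, h3⟩ := exists_proj_of_disjoint h
  refine ⟨a.map φ, fun i j => h1 _, hV φ a ha, ?_⟩
  convert hV' φ b hb using 1
  ext i j
  have := congrArg φ (congrFun (congrFun e i) j)
  rw [Matrix.add_apply, Matrix.add_apply, map_add, map_add, h2 _ (hu i j), h3 _ (hv i j),
    add_zero] at this
  rw [Matrix.sub_apply, Matrix.map_apply, Matrix.map_apply, this, add_sub_cancel_left]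

theorem sep_mem {S T : Submodule K FF} (h : S ⊓ T = ⊥) {V : Submodule FF (Matrix ι ι FF)}
    (hV : IsRat K V) {u v : Matrix ι ι FF} (hu : Ent (S : Set FF) u)
    (hv : Ent (T : Set FF) v) (e : u + v ∈ V) : u ∈ V ∧ v ∈ V := by
  obtain ⟨y, -, h1, h2⟩ := sep_split h hV IsRat.bot hu hv e (zero_mem _) (add_zero _).symm
  rw [Submodule.mem_bot, sub_eq_zero] at h2
  have : u ∈ V := h2 ▸ h1
  exact ⟨this, by simpa using sub_mem e this⟩

variable {S T : Sc K σ} {g h h' : Fam K lv (σ →₀ ℕ)}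

/-- SUB -/
theorem sub_PG (hST : Sep S T) (g0 : g.r 0 = ⊥) {p p' ε γ : PS lv σ FF} (hp : p ∈ g.PG ⊓ h.PG)
    (hp' : p' ∈ g.PG ⊓ h.PG) (hε : ε ∈ g.PG ⊓ S.EE lv) (hγ : γ ∈ g.PG ⊓ T.EE lv)
    (hr : p = ε * p' * γ) : ε ∈ h.PG ∧ γ ∈ h.PG :=
  desc_sub S.desc T.desc h.desc g0
    (fun β hβ _ hu _ hv e => sep_mem (hST β hβ) (h.rat β) hu hv e) hp hp' hε hγ hr

/-- INT with control of the factors -/
theorem int_PG (hST : Sep S T) (g0 : g.r 0 = ⊥) {p p' ε γ : PS lv σ FF} (hp : p ∈ g.PG ⊓ h.PG)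
    (hp' : p' ∈ g.PG ⊓ h'.PG) (hε : ε ∈ g.PG ⊓ S.EE lv) (hγ : γ ∈ g.PG ⊓ T.EE lv)
    (hr : p = ε * p' * γ) : Fac S T (g.inf h) h' p := by
  obtain ⟨a, ha, q, hq, b, hb, e⟩ := desc_int S.desc T.desc h.desc h'.desc g0
    (fun β hβ V hV _ u hu v hv a ha b hb _ _ haV hbV e => by
      obtain ⟨y, y1, y2, y3⟩ := sep_split (hST β hβ) ((h.rat β).inf hV) (h'.rat β) hu hv
        ⟨ha, haV⟩ hb e
      obtain ⟨y', y1', y2', y3'⟩ := sep_split (inf_comm (S.s β) (T.s β) ▸ hST β hβ)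
        ((h.rat β).inf hV) (h'.rat β) hv hu ⟨ha, haV⟩ hb ((add_comm _ _).trans e)
      exact ⟨⟨y, y1, y2.1, y2.2, y3⟩, y', y1', y2'.1, y2'.2, y3'⟩) hp hp' hε hγ hr
  rw [Fac, Fam.PG_inf]
  exact ⟨a, ⟨⟨ha.1, ha.2.2⟩, ha.2.1⟩, q, ⟨⟨hq.1, hq.2.1⟩, hq.2.2⟩, b, ⟨⟨hb.1, hb.2.2⟩, hb.2.1⟩, e⟩

theorem Fac.mem {x : PS lv σ FF} (a : Fac S T g h x) : x ∈ g.PG := by
  obtain ⟨e, he, y, hy, c, hc, rfl⟩ := a
  exact mul_mem (mul_mem he.1 hy.1) hc.1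

theorem Fac.of_mem {x : PS lv σ FF} (a : x ∈ g.PG) (b : x ∈ h.PG) : Fac S T g h x :=
  ⟨1, one_mem _, x, ⟨a, b⟩, 1, one_mem _, by group⟩

theorem Fac.mono {g' : Fam K lv (σ →₀ ℕ)} {x : PS lv σ FF} (a : Fac S T g h x) (h1 : g ≤ g')
    (h2 : h ≤ h') : Fac S T g' h' x := by
  obtain ⟨e, he, y, hy, c, hc, rfl⟩ := a
  exact ⟨e, ⟨Fam.PG_mono h1 he.1, he.2⟩, y, ⟨Fam.PG_mono h1 hy.1, Fam.PG_mono h2 hy.2⟩, c,
    ⟨Fam.PG_mono h1 hc.1, hc.2⟩, rfl⟩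

theorem Fac.mul {x e c : PS lv σ FF} (a : Fac S T g h x) (he : e ∈ g.PG ⊓ S.EE lv)
    (hc : c ∈ g.PG ⊓ T.EE lv) : Fac S T g h (e * x * c) :=
  DC.mul a he hc

theorem Fam.inf_le_left (g h : Fam K lv (σ →₀ ℕ)) : g.inf h ≤ g := fun _ => _root_.inf_le_left
theorem Fam.inf_le_right (g h : Fam K lv (σ →₀ ℕ)) : g.inf h ≤ h := fun _ => _root_.inf_le_right

theorem Fac.inf_self {x : PS lv σ FF} (a : Fac S T g h x) : Fac S T g (g.inf h) x := by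
  obtain ⟨e, he, y, hy, c, hc, rfl⟩ := a
  exact ⟨e, he, y, ⟨hy.1, by rw [Fam.PG_inf]; exact hy⟩, c, hc, rfl⟩

/-- INT -/
theorem Fac.int (hST : Sep S T) (g0 : g.r 0 = ⊥) {x : PS lv σ FF} (a : Fac S T g h x)
    (b : Fac S T g h' x) : Fac S T g (h.inf h') x := by
  obtain ⟨e, he, y, hy, c, hc, rfl⟩ := a
  obtain ⟨e', he', y', hy', c', hc', hx⟩ := b
  have hr : y = (e⁻¹ * e') * y' * (c' * c⁻¹) := by
    have : y = e⁻¹ * (e * y * c) * c⁻¹ := by group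
    rw [this, hx]; group
  obtain ⟨a, ha, q, hq, b, hb, e1⟩   := int_PG hST g0 hy hy' (mul_mem (inv_mem he) he')
    (mul_mem hc' (inv_mem hc)) hr
  rw [Fam.PG_inf] at ha hq hb
  refine Fac.mul ⟨a, ⟨ha.1.1, ha.2⟩, q, ⟨hq.1.1, ?_⟩, b, ⟨hb.1.1, hb.2⟩, e1⟩ he hc
  rw [Fam.PG_inf]
  exact ⟨hq.1.2, hq.2⟩

/-- if `x` itself is adapted to the smaller ambient family `g'`, so are the factors -/
theorem Fac.shrink (hST : Sep S T) (g0 : g.r 0 = ⊥) {g' : Fam K lv (σ →₀ ℕ)} {x : PS lv σ FF}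
    (a : Fac S T g h x) (hx : x ∈ g'.PG) : Fac S T g' h x := by
  have hg := a.mem
  obtain ⟨e, he, y, hy, c, hc, e1⟩ := a
  exact (int_PG hST g0 ⟨hg, hx⟩ hy he hc e1).mono (Fam.inf_le_right _ _) le_rfl

/-- small and rational sequences meet trivially -/
theorem eq_one_of_sep (hST : Sep S T) (g0 : g.r 0 = ⊥) {x : PS lv σ FF} (hg : x ∈ g.PG)
    (h1 : x ∈ S.EE lv) (h2 : x ∈ T.EE lv) : x = 1 := by
  apply lg_inj
  refine ext_co fun β => ?_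
  rw [lg_one, co_zero]
  by_cases hβ : β = 0
  · have := hg β
    rwa [hβ, g0, Submodule.mem_bot, ← hβ] at this
  · ext a b
    have : co β (lg x) a b ∈ S.s β ⊓ T.s β := ⟨Sc.mem_EE.1 h1 β a b, Sc.mem_EE.1 h2 β a b⟩
    rwa [hST β hβ, Submodule.mem_bot] at this

/-! ### the resolution -/

section res

variable {I : Type} [AddCommMonoid I]

theorem Fam.comap_inf (k k' : Fam K lv I) (φ : (σ →₀ ℕ) →+ I) :
    (k.inf k').comap φ = (k.comap φ).inf (k'.comap φ) := rfl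

/-- a class of families closed under intersection with a finitely supported member has a least
member -/
theorem exists_least_fam (𝒞 : Fam K lv I → Prop) (hinf : ∀ k k', 𝒞 k → 𝒞 k' → 𝒞 (k.inf k'))
    {k₀ : Fam K lv I} (h₀ : 𝒞 k₀) (B : Finset I) (hB : ∀ i ∉ B, k₀.r i = ⊥) :
    ∃ k, 𝒞 k ∧ ∀ k', 𝒞 k' → k ≤ k' := by
  obtain ⟨k, ⟨hk, hk0⟩, hm⟩ := (measure fun k : Fam K lv I =>
    ∑ i ∈ B, Module.finrank FF (k.r i)).wf.has_min {k | 𝒞 k ∧ ∀ i ∉ B, k.r i = ⊥} ⟨k₀, h₀, hB⟩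
  refine ⟨k, hk, fun k' hk' i => ?_⟩
  by_cases hi : i ∈ B
  · by_contra hn
    refine hm (k.inf k') ⟨hinf k k' hk hk', fun j hj => ?_⟩ ?_
    · change k.r j ⊓ k'.r j = ⊥
      rw [hk0 j hj, bot_inf_eq]
    · change ∑ i ∈ B, Module.finrank FF (k.r i ⊓ k'.r i : Submodule FF _) <
        ∑ i ∈ B, Module.finrank FF (k.r i)
      have h1 : ∀ j, k.r j ⊓ k'.r j ≤ k.r j := fun j => _root_.inf_le_left
      have h2 : k.r i ⊓ k'.r i < k.r i := inf_lt_left.2 hn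
      exact sum_lt_sum (fun j _ => Submodule.finrank_mono (h1 j))
        ⟨i, hi, Submodule.finrank_lt_finrank_of_lt h2⟩
  · rw [hk0 i hi]; exact bot_le

/-- the resolution inside any class of families closed under intersection -/
theorem res_of (hST : Sep S T) (g0 : g.r 0 = ⊥) (φ : (σ →₀ ℕ) →+ I) (𝒞 : Fam K lv I → Prop)
    (hinf : ∀ k k', 𝒞 k → 𝒞 k' → 𝒞 (k.inf k')) {x : PS lv σ FF} {k₀ : Fam K lv I} (h₀ : 𝒞 k₀)
    (hx : Fac S T g (k₀.comap φ) x) (B : Finset I) (hB : ∀ i ∉ B, k₀.r i = ⊥) :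
    ∃ k, 𝒞 k ∧ Fac S T g (k.comap φ) x ∧ ∀ k', 𝒞 k' → Fac S T g (k'.comap φ) x → k ≤ k' := by
  obtain ⟨k, hk, hm⟩ := exists_least_fam (fun k => 𝒞 k ∧ Fac S T g (k.comap φ) x)
    (fun k k' a b => ⟨hinf k k' a.1 b.1, by
      rw [Fam.comap_inf]; exact Fac.int hST g0 a.2 b.2⟩) ⟨h₀, hx⟩ B hB
  exact ⟨k, hk.1, hk.2, fun k' a b => hm k' ⟨a, b⟩⟩

/-- the fine resolution: the least fine family -/
theorem res_fine [Finite σ] (hST : Sep S T) (g0 : g.r 0 = ⊥) {x : PS lv σ FF} (hx : x ∈ g.PG) :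
    ∃ k, k ≤ g ∧ (∃ D, k.Bd D) ∧ Fac S T g k x ∧ ∀ k', Fac S T g k' x → k ≤ k' := by
  obtain ⟨d, hd⟩ := (ev_amb (K := K) x).exists
  have h0 : Fac S T g (g.inf (amb K lv σ d)) x :=
    Fac.of_mem hx (by rw [Fam.PG_inf]; exact ⟨hx, hd⟩)
  obtain ⟨k, hk, hm⟩ := exists_least_fam (fun k => Fac S T g k x)
    (fun k k' a b => a.int hST g0 b) h0
    (Finsupp.finite_of_degree_le (σ := σ) (d * univ.sup lv)).toFinset
    (fun β hβ => g.inf_bd d β (by simpa using hβ))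
  refine ⟨k, (hm _ h0).trans (Fam.inf_le_left _ _), ⟨d * univ.sup lv, fun β hβ => ?_⟩, hk, hm⟩
  have := hm _ h0 β
  rw [g.inf_bd d β hβ] at this
  exact le_bot_iff.1 this

theorem Fam.Fil.inf {k k' : Fam K lv ℕ} {D : ℕ} (a : k.Fil D) (b : k'.Fil D) :
    (k.inf k').Fil D where
  zero := by change k.r 0 ⊓ k'.r 0 = k.r 1 ⊓ k'.r 1; rw [a.zero, b.zero]
  anti i := inf_le_inf (a.anti i) (b.anti i)
  bd := by change k.r (D + 1) ⊓ k'.r (D + 1) = ⊥; rw [a.bd, bot_inf_eq]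

/-- the nested resolution above a given class member: the least filtered system in a class -/
theorem res_fil (hST : Sep S T) (g0 : g.r 0 = ⊥) {D : ℕ} (𝒞 : Fam K lv ℕ → Prop)
    (hinf : ∀ k k', 𝒞 k → 𝒞 k' → 𝒞 (k.inf k')) {x : PS lv σ FF} {k₀ : Fam K lv ℕ} (h₀ : 𝒞 k₀)
    (f₀ : k₀.Fil D) (hx : Fac S T g (k₀.fine σ) x) :
    ∃ k, 𝒞 k ∧ k.Fil D ∧ Fac S T g (k.fine σ) x ∧
      ∀ k', 𝒞 k' → k'.Fil D → Fac S T g (k'.fine σ) x → k ≤ k' := by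
  obtain ⟨k, hk, h1, hm⟩ := res_of hST g0 Finsupp.degree (fun k => 𝒞 k ∧ k.Fil D)
    (fun k k' a b => ⟨hinf k k' a.1 b.1, a.2.inf b.2⟩) ⟨h₀, f₀⟩ hx (range (D + 1))
    (fun i hi => f₀.eq_bot (by simpa using hi))
  exact ⟨k, hk.1, hk.2, h1, fun k' a b c => hm k' ⟨a, b⟩ c⟩

end res

/-! ### the statements of the skeleton -/

theorem sub_core {S T : Sc K σ} (hs : Sep S T) {g h : Fam K lv (σ →₀ ℕ)} {D : ℕ} (_hD : g.Bd D)
    (h0 : g.r 0 = ⊥) {e y c : PS lv σ FF} (he : e ∈ g.PG ⊓ S.EE lv) (hy : y ∈ g.PG ⊓ h.PG)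
    (hc : c ∈ g.PG ⊓ T.EE lv) (hx : e * y * c ∈ h.PG) : e ∈ h.PG ∧ c ∈ h.PG :=
  sub_PG hs h0 ⟨mul_mem (mul_mem he.1 hy.1) hc.1, hx⟩ hy he hc rfl

theorem Fac.inf {S T : Sc K σ} (hs : Sep S T) {g h h' : Fam K lv (σ →₀ ℕ)} {D : ℕ}
    (_hD : g.Bd D) (h0 : g.r 0 = ⊥) {x : PS lv σ FF} (h1 : Fac S T g h x) (h2 : Fac S T g h' x) :
    Fac S T g (h.inf h') x := h1.int hs h0 h2

theorem exists_res {S T : Sc K σ} [Fintype σ] (hs : Sep S T) {g : Fam K lv (σ →₀ ℕ)} {D : ℕ}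
    (_hD : g.Bd D) (h0 : g.r 0 = ⊥) {x : PS lv σ FF} (hx : x ∈ g.PG) :
    ∃ h ≤ g, Fac S T g h x ∧ ∀ h', Fac S T g h' x → h ≤ h' := by
  obtain ⟨k, a, -, b, c⟩ := res_fine hs h0 hx
  exact ⟨k, a, b, c⟩

end Pool.Agent.P.MP_a14ce1_nt.Nil
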