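import Pool.Agent.P.MP_a14ce1_nt.Nil.Avg
import Pool.Agent.P.MP_a14ce1_nt.Nil.Rat
import Pool.Agent.P.MP_a14ce1_nt.Nil.Peel
import Pool.Agent.P.MP_a14ce1_nt.Nil.Gr

/-!
Pigeonholing rational families of subspaces and rational functionals over dense sets.
-/

open Filter Finset MvPolynomial
open scoped BigOperators

set_option linter.unusedSectionVars false

noncomputable section

namespace Pool.Agent.P.MP_a14ce1_nt.Nil

variable {A S B S' : Type} [NS A S] [NS B S']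
  {ι ι' : Type} [Fintype ι] [DecidableEq ι] [Fintype ι'] [DecidableEq ι'] {lv : ι → ℕ}
  {σ τ : Type} {Q : HR} [Fact (2 ≤ Q)]

/-! ### Internal families of subspaces -/

/-- An internal family of subspaces. -/
def IntV (V : A → Submodule HR (Matrix ι ι HR)) : Prop :=
  IntP fun z : A × Matrix ι ι HR => z.2 ∈ V z.1

namespace IntV

variable {V W : A → Submodule HR (Matrix ι ι HR)}

theorem mem (hV : IntV V) {f : B → A} (hf : IntF f) {X : B → Matrix ι ι HR} (hX : IntF X) :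
    IntP fun b => X b ∈ V (f b) := IntP.comp hV (hf.prodMk hX)
theorem mem' (hV : IntV V) {X : A → Matrix ι ι HR} (hX : IntF X) : IntP fun a => X a ∈ V a :=
  hV.mem IntF.id hX
theorem comp (hV : IntV V) {f : B → A} (hf : IntF f) : IntV fun b => V (f b) :=
  hV.mem (by fun_prop) (by fun_prop)
theorem congr (hV : IntV V) (h : ∀ a, W a = V a) : IntV W := (funext h : W = V) ▸ hV
theorem const (U : Submodule HR (Matrix ι ι HR)) : IntV fun _ : A => U :=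
  IntP.memSub U (by fun_prop)
theorem inf (hV : IntV V) (hW : IntV W) : IntV fun a => V a ⊓ W a := IntP.and hV hW
theorem sup (hV : IntV V) (hW : IntV W) : IntV fun a => V a ⊔ W a :=
  (IntP.ex (r := fun (z : A × Matrix ι ι HR) (Y : Matrix ι ι HR) => Y ∈ V z.1 ∧ z.2 - Y ∈ W z.1)
    ((hV.mem (by fun_prop) (by fun_prop)).and (hW.mem (by fun_prop) (by fun_prop)))).congr
    fun z => by
      rw [Submodule.mem_sup]
      exact exists_congr fun y => and_congr_right fun _ =>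
        ⟨fun ⟨u, hu, e⟩ => by rwa [← e, add_sub_cancel_left], fun h => ⟨_, h, add_sub_cancel _ _⟩⟩
theorem map (hV : IntV V) (f : Matrix ι ι HR →ₗ[HR] Matrix ι' ι' HR) :
    IntV fun a => (V a).map f :=
  IntP.ex (r := fun (z : A × Matrix ι' ι' HR) (Y : Matrix ι ι HR) => Y ∈ V z.1 ∧ f Y = z.2)
    ((hV.mem (by fun_prop) (by fun_prop)).and (IntP.eq (by fun_prop) (by fun_prop)))
theorem comap {V : A → Submodule HR (Matrix ι' ι' HR)} (hV : IntV V)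
    (f : Matrix ι ι HR →ₗ[HR] Matrix ι' ι' HR) : IntV fun a => (V a).comap f :=
  hV.mem (X := fun z : A × Matrix ι ι HR => f z.2) (by fun_prop) (by fun_prop)
theorem span {J : Type} [Finite J] {e : A → J → Matrix ι ι HR} (he : IntF e) :
    IntV fun a => Submodule.span HR (Set.range (e a)) := by
  cases nonempty_fintype J
  have h1 : ∀ j, IntF fun z : (A × Matrix ι ι HR) × (J → HR) => e z.1.1 j := fun j =>
    (he.coord j).comp (by fun_prop)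
  exact (IntP.ex (r := fun (z : A × Matrix ι ι HR) (c : J → HR) => ∑ j, c j • e z.1 j = z.2)
    (IntP.eq (IntF.msum fun j => IntF.msmul (by fun_prop) (h1 j)) (by fun_prop))).congr
    fun z => Submodule.mem_span_range_iff_exists_fun HR
theorem ker {κ : A → Matrix ι ι HR} (hκ : IntF κ) : IntV fun a => LinearMap.ker (fn (κ a)) :=
  IntP.eq (IntF.fn (hκ.comp (by fun_prop)) (by fun_prop)) (IntF.const 0)
theorem ite (c : Prop) [Decidable c] (hV : IntV V) (hW : IntV W) :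
    IntV fun a => if c then V a else W a := by
  split_ifs
  exacts [hV, hW]
theorem iSup {J : Type} [Finite J] {U : J → A → Submodule HR (Matrix ι ι HR)}
    (h : ∀ j, IntV (U j)) : IntV fun a => ⨆ j, U j a := by
  cases nonempty_fintype J
  refine (IntP.ex (r := fun (z : A × Matrix ι ι HR) (Y : J → Matrix ι ι HR) =>
    (∀ j, Y j ∈ U j z.1) ∧ ∑ j, Y j = z.2)
    ((IntP.all fun j => (h j).mem (by fun_prop) (by fun_prop)).and
      (IntP.eq (IntF.msum fun j => by fun_prop) (by fun_prop)))).congr fun z => ?_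
  exact Submodule.mem_iSup_iff_exists_finsupp _ _ |>.trans
    ⟨fun ⟨f, h1, h2⟩ => ⟨f, h1, by rwa [Finsupp.sum_fintype _ _ fun _ => rfl] at h2⟩,
      fun ⟨f, h1, h2⟩ => ⟨Finsupp.equivFunOnFinite.symm f, h1, by
        rwa [Finsupp.sum_fintype _ _ fun _ => rfl]⟩⟩
theorem iInf {J : Type} [Finite J] {U : J → A → Submodule HR (Matrix ι ι HR)}
    (h : ∀ j, IntV (U j)) : IntV fun a => ⨅ j, U j a :=
  (IntP.all fun j => h j).congr fun _ => Submodule.mem_iInf _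

theorem le (hV : IntV V) (hW : IntV W) : IntP fun a => V a ≤ W a :=
  IntP.fa (r := fun a (X : Matrix ι ι HR) => X ∈ V a → X ∈ W a) (IntP.imp hV hW)
theorem eq (hV : IntV V) (hW : IntV W) : IntP fun a => V a = W a :=
  ((hV.le hW).and (hW.le hV)).congr fun _ => le_antisymm_iff
theorem all (hV : IntV V) {r : A → Matrix ι ι HR → Prop}
    (hr : IntP fun z : A × Matrix ι ι HR => r z.1 z.2) : IntP fun a => ∀ X ∈ V a, r a X :=
  IntP.fa (IntP.imp hV hr)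
theorem any (hV : IntV V) {r : A → Matrix ι ι HR → Prop}
    (hr : IntP fun z : A × Matrix ι ι HR => r z.1 z.2) : IntP fun a => ∃ X ∈ V a, r a X :=
  IntP.ex (IntP.and hV hr)
theorem kills (hV : IntV V) {κ : A → Matrix ι ι HR} (hκ : IntF κ) :
    IntP fun a => ∀ X ∈ V a, fn (κ a) X = 0 := hV.le (ker hκ)
theorem kills' (hV : IntV V) (ξ : Matrix ι ι HR →ₗ[HR] HR) : IntP fun a => ∀ X ∈ V a, ξ X = 0 :=
  hV.le (const (LinearMap.ker ξ))
theorem br (hV : IntV V) (hW : IntV W) {U : A → Submodule HR (Matrix ι ι HR)} (hU : IntV U) :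
    IntP fun a => ∀ X ∈ V a, ∀ Y ∈ W a, X * Y - Y * X ∈ U a :=
  hV.all ((hW.comp (by fun_prop)).all (hU.mem (by fun_prop) (by fun_prop)))
theorem pm {V : A → (σ →₀ ℕ) → Submodule HR (Matrix ι ι HR)} (hV : ∀ β, IntV fun a => V a β)
    {X : A → Matrix ι ι (MvPolynomial σ HR)} (hX : IntM X) : IntP fun a => X a ∈ pm (V a) := by
  obtain ⟨s, hs⟩ := hX.supp
  refine (IntP.ball s.finite_toSet fun β => (hV β).mem' (hX.co β)).congr fun a =>
    ⟨fun h β _ => h β, fun h β => ?_⟩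
  by_cases c : β ∈ s
  · exact h β c
  · rw [hs a β c]; exact zero_mem _

theorem rank_le (hV : IntV V) (d : ℕ) : IntP fun a => Module.finrank HR (V a) ≤ d := by
  refine (IntP.ex (r := fun a (e : Fin d → Matrix ι ι HR) =>
    V a ≤ Submodule.span HR (Set.range e)) ((hV.comp (by fun_prop)).le
      (span (by fun_prop)))).congr fun a => ⟨fun h => ?_, fun ⟨e, he⟩ => ?_⟩
  · let b := Module.finBasis HR (V a)
    refine ⟨fun j => if hj : j.1 < Module.finrank HR (V a) then b ⟨j.1, hj⟩ else 0, fun X hX => ?_⟩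
    have := congrArg Subtype.val (b.sum_repr ⟨X, hX⟩)
    rw [AddSubmonoidClass.coe_finset_sum] at this
    change _ = X at this
    rw [← this]
    refine Submodule.sum_mem _ fun j _ => Submodule.smul_mem _ _ (Submodule.subset_span
      ⟨⟨j.1, j.2.trans_le h⟩, dif_pos j.2⟩)
  · exact (Submodule.finrank_mono he).trans ((finrank_range_le_card e).trans (by simp))
theorem rank_eq (hV : IntV V) (d : ℕ) : IntP fun a => Module.finrank HR (V a) = d := by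
  cases d with
  | zero => exact (hV.rank_le 0).congr fun _ => by omega
  | succ d => exact ((hV.rank_le (d + 1)).and (hV.rank_le d).not).congr fun _ => by omega

end IntV

/-! ### Quantifying over polynomial sequences of bounded degree -/

open Classical in
/-- The polynomial matrix with the strictly upper parts of `κ` as coefficients. -/
def decM (lv : ι → ℕ) (s : Finset (σ →₀ ℕ)) (κ : s → Matrix ι ι HR) :
    Matrix ι ι (MvPolynomial σ HR) :=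
  Matrix.of fun i j => if lv j < lv i + 1 then 0 else ∑ β : s, C (κ β i j) * monomial β.1 1

theorem decM_up (s : Finset (σ →₀ ℕ)) (κ : s → Matrix ι ι HR) : decM lv s κ ∈ mF _ lv 1 :=
  fun _ _ h => if_pos h

/-- The sequence with these logarithmic coefficients. -/
def dec (lv : ι → ℕ) (s : Finset (σ →₀ ℕ)) (κ : s → Matrix ι ι HR) : PS lv σ HR :=
  ex lv (decM lv s κ)

theorem IntS.dec (s : Finset (σ →₀ ℕ)) {κ : A → s → Matrix ι ι HR} (hκ : IntF κ) :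
    IntS fun a => dec lv s (κ a) :=
  IntS.ex (fun i j => by
    by_cases c : lv j < lv i + 1
    · exact (IntY.const 0).congr fun _ => if_pos c
    · exact (IntY.sum (s := univ) fun β : s =>
        (IntY.cC ((hκ.coord β).ent i j)).mul (IntY.const _)).congr fun _ => if_neg c)
    fun _ => decM_up _ _

theorem dec_co {s : Finset (σ →₀ ℕ)} {x : PS lv σ HR} (h : ∀ β ∉ s, co β (lg x) = 0) :
    dec lv s (fun β => co β.1 (lg x)) = x := by
  classical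
  rw [dec, ← ex_lg x, lg_ex (lg_mem x)]
  congr 1
  ext i j β
  by_cases c : lv j < lv i + 1
  · rw [lg_mem x i j c]; exact congrArg _ (if_pos c)
  · rw [decM, Matrix.of_apply, if_neg c, coeff_sum]
    simp only [coeff_C_mul, coeff_monomial, mul_ite, mul_one, mul_zero]
    by_cases hb : β ∈ s
    · rw [sum_eq_single ⟨β, hb⟩ (fun b _ hne => if_neg fun e => hne (Subtype.ext e))
        (fun e => (e (mem_univ _)).elim), if_pos rfl]
      rfl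
    · rw [sum_eq_zero fun b _ => if_neg fun e : b.1 = β => hb (e ▸ b.2)]
      exact (congrFun (congrFun (h β hb) i) j).symm

theorem fin_deg [Finite σ] (D : ℕ) : {β : σ →₀ ℕ | β.degree ≤ D}.Finite :=
  Finsupp.finite_of_degree_le D

/-- The monomials of degree at most `D`. -/
def upTo (σ : Type) [Finite σ] (D : ℕ) : Finset (σ →₀ ℕ) := (fin_deg (σ := σ) D).toFinset

theorem mem_upTo [Finite σ] {D : ℕ} {β : σ →₀ ℕ} : β ∈ upTo σ D ↔ β.degree ≤ D :=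
  Set.Finite.mem_toFinset _

theorem Fam.Bd.bot [Finite σ] {K : Subfield HR} {g : Fam K lv (σ →₀ ℕ)} {D} (hD : g.Bd D) :
    ∀ β ∉ upTo σ D, g.r β = ⊥ := fun β h => hD β (not_le.1 (mt mem_upTo.2 h))

theorem Fam.Bd.dec [Finite σ] {K : Subfield HR} {g : Fam K lv (σ →₀ ℕ)} {D} (hD : g.Bd D)
    {x : PS lv σ HR} (hx : x ∈ g.PG) : ∃ κ, dec lv (upTo σ D) κ = x :=
  ⟨_, dec_co fun β h => by have := hx β; rwa [hD.bot β h] at this⟩

section bd
variable [Finite σ] {K : Subfield HR} {g : Fam K lv (σ →₀ ℕ)} {D : ℕ}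

/-- Existential quantifier over the sequences adapted to a bounded family. -/
theorem Sig.exS (hD : g.Bd D) {r : A → PS lv σ HR → Prop}
    (hr : Sig fun z : A × (upTo σ D → Matrix ι ι HR) => r z.1 (dec lv _ z.2)) :
    Sig fun a => ∃ e ∈ g.PG, r a e :=
  (Sig.ex (r := fun a κ => dec lv (upTo σ D) κ ∈ g.PG ∧ r a (dec lv _ κ))
    (((IntS.dec _ (by fun_prop)).PG g).sig.and hr)).congr fun _ =>
    ⟨fun ⟨_, he, h⟩ => by obtain ⟨κ, rfl⟩ := hD.dec he; exact ⟨κ, he, h⟩,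
      fun ⟨_, h⟩ => ⟨_, h⟩⟩

/-- Internal choice of a sequence on a dense set. -/
theorem Dense.choiceS {T : Ns (Finset S)} (hD : g.Bd D) {r : A → PS lv σ HR → Prop}
    (hr : Sig fun z : A × (upTo σ D → Matrix ι ι HR) => r z.1 (dec lv _ z.2)) {p : A → Prop}
    (hd : Dense Q T fun a => p a ∧ ∃ e ∈ g.PG, r a e) :
    ∃ e : A → PS lv σ HR, IntS e ∧ Dense Q T fun a => p a ∧ e a ∈ g.PG ∧ r a (e a) := by
  obtain ⟨H, h1, h2⟩ := hd
  obtain ⟨f, hf, h3⟩ := Sig.choice'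
    (r := fun a κ => dec lv (upTo σ D) κ ∈ g.PG ∧ r a (dec lv _ κ))
    (((IntS.dec _ (by fun_prop)).PG g).sig.and hr) (IntP.mem IntF.id (IntF.const H)) 0
    fun a ha => by
      obtain ⟨_, he, h⟩ := (h1 a ha).2.2
      obtain ⟨κ, rfl⟩ := hD.dec he
      exact ⟨κ, he, h⟩
  exact ⟨_, IntS.dec _ hf, H, fun a ha => ⟨(h1 a ha).1, (h1 a ha).2.1, h3 a ha⟩, h2⟩

theorem fac_iff {U W : Sc K σ} {h : Fam K lv (σ →₀ ℕ)} {x : PS lv σ HR} : Fac U W g h x ↔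
    ∃ e ∈ g.PG, e ∈ U.EE lv ∧ ∃ c ∈ g.PG, c ∈ W.EE lv ∧ x ∈ g.PG ∧
      lg (e⁻¹ * x * c⁻¹) ∈ pm h.r :=
  ⟨fun a => by
    have hx := a.mem
    obtain ⟨e, he, y, hy, c, hc, rfl⟩ := a
    refine ⟨e, he.1, he.2, c, hc.1, hc.2, hx, ?_⟩
    rw [show e⁻¹ * (e * y * c) * c⁻¹ = y by group]
    exact hy.2,
  fun ⟨e, h1, h2, c, h3, h4, h5, h6⟩ => ⟨e, ⟨h1, h2⟩, e⁻¹ * x * c⁻¹,
    ⟨g.PG.mul_mem (g.PG.mul_mem (inv_mem h1) h5) (inv_mem h3), h6⟩, c, ⟨h3, h4⟩, by group⟩⟩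

theorem sig_fac_in (g : Fam K lv (σ →₀ ℕ)) {W : Sc K σ} (hW : ∀ β, Sig fun t => t ∈ W.s β)
    {V : A → (σ →₀ ℕ) → Submodule HR (Matrix ι ι HR)} (hV : ∀ β, IntV fun a => V a β)
    {x e c : A → PS lv σ HR} (hx : IntS x) (he : IntS e) (hc : IntS c) :
    Sig fun a => c a ∈ W.EE lv ∧ x a ∈ g.PG ∧ lg ((e a)⁻¹ * x a * (c a)⁻¹) ∈ pm (V a) :=
  (Sig.EE W hW hc).and ((hx.PG g).and (IntV.pm hV ((he.inv.mul hx).mul hc.inv).lgM)).sig

theorem sig_fac_mid (hD : g.Bd D) {U W : Sc K σ} (hU : ∀ β, Sig fun t => t ∈ U.s β)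
    (hW : ∀ β, Sig fun t => t ∈ W.s β) {V : A → (σ →₀ ℕ) → Submodule HR (Matrix ι ι HR)}
    (hV : ∀ β, IntV fun a => V a β) {x e : A → PS lv σ HR} (hx : IntS x) (he : IntS e) :
    Sig fun a => e a ∈ U.EE lv ∧ ∃ c ∈ g.PG, c ∈ W.EE lv ∧ x a ∈ g.PG ∧
      lg ((e a)⁻¹ * x a * c⁻¹) ∈ pm (V a) :=
  (Sig.EE U hU he).and (Sig.exS hD (r := fun a c => c ∈ W.EE lv ∧ x a ∈ g.PG ∧
    lg ((e a)⁻¹ * x a * c⁻¹) ∈ pm (V a)) (sig_fac_in g hW (fun β => (hV β).comp IntF.id.fst)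
      (hx.comp IntF.id.fst) (he.comp IntF.id.fst) (IntS.dec _ IntF.id.snd)))

/-- Factorisation through an internal family of subspaces. -/
theorem Sig.facV (hD : g.Bd D) {U W : Sc K σ} (hU : ∀ β, Sig fun t => t ∈ U.s β)
    (hW : ∀ β, Sig fun t => t ∈ W.s β) {V : A → (σ →₀ ℕ) → Submodule HR (Matrix ι ι HR)}
    (hV : ∀ β, IntV fun a => V a β) {x : A → PS lv σ HR} (hx : IntS x) :
    Sig fun a => ∃ e ∈ g.PG, e ∈ U.EE lv ∧ ∃ c ∈ g.PG, c ∈ W.EE lv ∧ x a ∈ g.PG ∧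
      lg (e⁻¹ * x a * c⁻¹) ∈ pm (V a) :=
  Sig.exS hD (r := fun a e => e ∈ U.EE lv ∧ ∃ c ∈ g.PG, c ∈ W.EE lv ∧ x a ∈ g.PG ∧
    lg (e⁻¹ * x a * c⁻¹) ∈ pm (V a)) (sig_fac_mid hD hU hW (fun β => (hV β).comp IntF.id.fst)
      (hx.comp IntF.id.fst) (IntS.dec _ IntF.id.snd))

theorem Sig.fac' {h : Fam K lv (σ →₀ ℕ)} (hD : g.Bd D) {U W : Sc K σ}
    (hU : ∀ β, Sig fun t => t ∈ U.s β) (hW : ∀ β, Sig fun t => t ∈ W.s β)
    {x : A → PS lv σ HR} (hx : IntS x) : Sig fun a => Fac U W g h (x a) :=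
  (Sig.facV hD hU hW (fun β => IntV.const (h.r β)) hx).congr fun _ => fac_iff

/-- Internal factors on a dense set. -/
theorem Dense.fac' {T : Ns (Finset S)} {h : Fam K lv (σ →₀ ℕ)} (hD : g.Bd D) {U W : Sc K σ}
    (hU : ∀ β, Sig fun t => t ∈ U.s β) (hW : ∀ β, Sig fun t => t ∈ W.s β)
    {x : A → PS lv σ HR} (hx : IntS x) {p : A → Prop}
    (hd : Dense Q T fun a => p a ∧ Fac U W g h (x a)) :
    ∃ e y c : A → PS lv σ HR, IntS e ∧ IntS y ∧ IntS c ∧ Dense Q T fun a => p a ∧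
      e a ∈ g.PG ⊓ U.EE lv ∧ y a ∈ g.PG ⊓ h.PG ∧ c a ∈ g.PG ⊓ W.EE lv ∧
      x a = e a * y a * c a := by
  obtain ⟨e, he, d1⟩ := Dense.choiceS hD (r := fun a e => e ∈ U.EE lv ∧ ∃ c ∈ g.PG,
    c ∈ W.EE lv ∧ x a ∈ g.PG ∧ lg (e⁻¹ * x a * c⁻¹) ∈ pm h.r)
    (sig_fac_mid hD hU hW (fun β => IntV.const (h.r β)) (hx.comp IntF.id.fst)
      (IntS.dec _ IntF.id.snd)) (hd.mono fun a _ ha => ⟨ha.1, fac_iff.1 ha.2⟩)
  obtain ⟨c, hc, d2⟩ := Dense.choiceS (p := fun a => p a ∧ e a ∈ g.PG ∧ e a ∈ U.EE lv) hD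
    (r := fun a c => c ∈ W.EE lv ∧ x a ∈ g.PG ∧ lg ((e a)⁻¹ * x a * c⁻¹) ∈ pm h.r)
    (sig_fac_in g hW (fun β => IntV.const (h.r β)) (hx.comp IntF.id.fst) (he.comp IntF.id.fst)
      (IntS.dec _ IntF.id.snd))
    (d1.mono fun a _ ha => ⟨⟨ha.1, ha.2.1, ha.2.2.1⟩, ha.2.2.2⟩)
  exact ⟨e, _, c, he, (he.inv.mul hx).mul hc.inv, hc, d2.mono fun a _ ⟨h3, h4, h5, h6, h7⟩ =>
    ⟨h3.1, h3.2, ⟨g.PG.mul_mem (g.PG.mul_mem (inv_mem h3.2.1) h6) (inv_mem h4), h7⟩, ⟨h4, h5⟩, by group⟩⟩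

end bd

theorem sig_Sm (N : σ → HR) (β : σ →₀ ℕ) : Sig fun t => t ∈ (Sm Q N).s β := Sig.sm N β IntF.id
theorem sig_Rt (N : σ → HR) (β : σ →₀ ℕ) : Sig fun t => t ∈ (Rt Q N).s β := Sig.rtc N β IntF.id

theorem Sig.fac [Finite σ] {g h : Fam (KK Q) lv (σ →₀ ℕ)} {D} (hD : g.Bd D) (N w : σ → HR)
    {x : A → PS lv σ HR} (hx : IntS x) : Sig fun a => Fac (Sm Q N) (Rt Q w) g h (x a) :=
  Sig.fac' hD (sig_Sm N) (sig_Rt w) hx

/-! ### Coded families -/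

section code
variable {I : Type} [AddCommMonoid I] {s : Finset I}

/-- `κ` lists rational spanning vectors of the family `h`, which vanishes outside `s`. -/
def Codes {I : Type} [AddCommMonoid I] (s : Finset I) (h : Fam (KK Q) lv I)
    (κ : s → ι × ι → Matrix ι ι HR) : Prop :=
  (∀ b j, Ent (KK Q : Set HR) (κ b j)) ∧ (∀ b : s, h.r b = Submodule.span HR (Set.range (κ b))) ∧
    ∀ b ∉ s, h.r b = ⊥
/-- A countable union of internal conditions on a parameter and a family. -/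
def SigF {I : Type} [AddCommMonoid I] (s : Finset I) (P : A → Fam (KK Q) lv I → Prop) : Prop :=
  ∃ P' : A × (s → ι × ι → Matrix ι ι HR) → Prop, Sig P' ∧
    ∀ a κ h, Codes s h κ → (P a h ↔ P' (a, κ))

open Classical in
/-- The subspaces given by a code. -/
def cv (s : Finset I) (κ : s → ι × ι → Matrix ι ι HR) (b : I) : Submodule HR (Matrix ι ι HR) :=
  if hb : b ∈ s then Submodule.span HR (Set.range (κ ⟨b, hb⟩)) else ⊥

theorem cv_out (κ : s → ι × ι → Matrix ι ι HR) {b : I} (hb : b ∉ s) : cv s κ b = ⊥ := dif_neg hb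

theorem IntV.cv {κ : A → s → ι × ι → Matrix ι ι HR} (hκ : IntF κ) (b : I) :
    IntV fun a => cv s (κ a) b := by
  by_cases hb : b ∈ s
  · exact (IntV.span (hκ.coord ⟨b, hb⟩)).congr fun _ => dif_pos hb
  · exact (IntV.const ⊥).congr fun _ => dif_neg hb

theorem Codes.r_eq {h : Fam (KK Q) lv I} {κ} (c : Codes s h κ) : h.r = cv s κ := funext fun b => by
  by_cases hb : b ∈ s
  · rw [cv, dif_pos hb]; exact c.2.1 ⟨b, hb⟩
  · rw [cv_out κ hb]; exact c.2.2 b hb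

theorem exists_codes {h : Fam (KK Q) lv I} (hs : ∀ b ∉ s, h.r b = ⊥) : ∃ κ, Codes s h κ := by
  choose κ h1 h2 using fun b : s => (h.rat b).code
  exact ⟨κ, h1, fun b => (h2 b).symm, hs⟩

variable (lv) in
/-- The code describes a family. -/
def IsCode (s : Finset I) (κ : s → ι × ι → Matrix ι ι HR) : Prop :=
  (∀ b ∈ s, cv s κ b ≤ lvS HR lv 1) ∧
    ∀ b ∈ s, ∀ b' ∈ s, ∀ X ∈ cv s κ b, ∀ Y ∈ cv s κ b', X * Y - Y * X ∈ cv s κ (b + b')

theorem IntP.isCode {κ : A → s → ι × ι → Matrix ι ι HR} (hκ : IntF κ) :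
    IntP fun a => IsCode lv s (κ a) :=
  (IntP.ball s.finite_toSet fun b => (IntV.cv hκ b).le (IntV.const _)).and
    (IntP.ball s.finite_toSet fun b => IntP.ball s.finite_toSet fun b' =>
      (IntV.cv hκ b).br (IntV.cv hκ b') (IntV.cv hκ _))

theorem exists_codes_iff {κ : s → ι × ι → Matrix ι ι HR} :
    (∃ h : Fam (KK Q) lv I, Codes s h κ) ↔ (∀ b j, Ent (KK Q : Set HR) (κ b j)) ∧ IsCode lv s κ := by
  refine ⟨fun ⟨h, c⟩ => ⟨c.1, fun b _ X hX => h.up b X (c.r_eq ▸ hX), fun b _ b' _ => ?_⟩,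
    fun ⟨h1, h2, h3⟩ => ⟨⟨cv s κ, fun b X hX => ?_, fun b => ?_, fun b b' X hX Y hY => ?_⟩, h1,
      fun b => dif_pos b.2, fun b => cv_out κ⟩⟩
  · rw [← c.r_eq]; exact h.br b b'
  · by_cases hb : b ∈ s
    · exact h2 b hb hX
    · rw [cv_out κ hb, Submodule.mem_bot] at hX; rw [hX]; exact zero_mem _
  · by_cases hb : b ∈ s
    · rw [cv, dif_pos hb]
      exact isRat_span (by rintro _ ⟨j, rfl⟩; exact h1 _ j)
    · rw [cv_out κ hb]; exact isRat_bot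
  · by_cases hb : b ∈ s
    · by_cases hb' : b' ∈ s
      · exact h3 b hb b' hb' X hX Y hY
      · rw [cv_out κ hb', Submodule.mem_bot] at hY; simp [hY]
    · rw [cv_out κ hb, Submodule.mem_bot] at hX; simp [hX]

theorem pigeon_code {T : Ns (Finset S)} {J J' : Type} [Finite J] [Finite J'] {p : A → Prop}
    {q : A → (J → J' → Matrix ι ι HR) → Prop}
    (hq : Sig fun z : A × (J → J' → Matrix ι ι HR) => q z.1 z.2)
    (h : Dense Q T fun a => p a ∧ ∃ κ, (∀ b j, Ent (KK Q : Set HR) (κ b j)) ∧ q a κ) :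
    ∃ κ, (∀ b j, Ent (KK Q : Set HR) (κ b j)) ∧ Dense Q T fun a => p a ∧ q a κ := by
  obtain ⟨κ, h1, h2⟩ := pigeon (J := J × J' × ι × ι)
    (q := fun a κ => q a fun b j => Matrix.of fun u v => κ (b, j, u, v))
    (hq.comp (IntF.id.fst.prodMk (IntF.pi fun b => IntF.pi fun j => IntF.mat fun u v =>
      IntF.id.snd.coord (b, j, u, v))))
    (h.mono fun a _ ⟨h1, κ, h2, h3⟩ => ⟨h1, fun z => κ z.1 z.2.1 z.2.2.1 z.2.2.2,
      fun z => h2 _ _ _ _, h3⟩)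
  exact ⟨_, fun b j u v => h1 (b, j, u, v), h2⟩

theorem pigeon_mat {T : Ns (Finset S)} {p : A → Prop} {q : A → Matrix ι ι HR → Prop}
    (hq : Sig fun z : A × Matrix ι ι HR => q z.1 z.2)
    (h : Dense Q T fun a => p a ∧ ∃ κ, Ent (KK Q : Set HR) κ ∧ q a κ) :
    ∃ κ, Ent (KK Q : Set HR) κ ∧ Dense Q T fun a => p a ∧ q a κ := by
  obtain ⟨κ, h1, h2⟩ := pigeon (J := ι × ι) (q := fun a κ => q a (Matrix.of fun u v => κ (u, v)))
    (hq.comp (IntF.id.fst.prodMk (IntF.mat fun u v => IntF.id.snd.coord (u, v))))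
    (h.mono fun a _ ⟨h1, κ, h2, h3⟩ => ⟨h1, fun z => κ z.1 z.2, fun z => h2 _ _, h3⟩)
  exact ⟨_, fun u v => h1 (u, v), h2⟩

theorem pigeon_sigF {T : Ns (Finset S)} {I : Type} [AddCommMonoid I] {s : Finset I}
    {P : A → Fam (KK Q) lv I → Prop} (hP : SigF s P) {p : A → Prop}
    (hd : Dense Q T fun a => p a ∧ ∃ h, (∀ b ∉ s, h.r b = ⊥) ∧ P a h) :
    ∃ h, (∀ b ∉ s, h.r b = ⊥) ∧ Dense Q T fun a => p a ∧ P a h := by
  obtain ⟨P', h1, h2⟩ := hP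
  obtain ⟨κ, h3, h4⟩ := pigeon_code (q := fun a κ => IsCode lv s κ ∧ P' (a, κ))
    ((IntP.isCode IntF.id.snd).sig.and h1) (hd.mono fun a _ ⟨ha, h, hs, hh⟩ => by
      obtain ⟨κ, c⟩ := exists_codes hs
      exact ⟨ha, κ, c.1, (exists_codes_iff.1 ⟨h, c⟩).2, (h2 a κ h c).1 hh⟩)
  obtain ⟨a0, -, -, h5, -⟩ := h4.exists
  obtain ⟨h, c⟩ := exists_codes_iff.2 ⟨h3, h5⟩
  exact ⟨h, c.2.2, h4.mono fun a _ ha => ⟨ha.1, (h2 a κ h c).2 ha.2.2⟩⟩

namespace SigF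

variable {P R : A → Fam (KK Q) lv I → Prop}

theorem ex (hP : SigF s P) : Sig fun a => ∃ h, (∀ b ∉ s, h.r b = ⊥) ∧ P a h := by
  obtain ⟨P', h1, h2⟩ := hP
  refine (Sig.ex (r := fun a κ => ((∀ b j, Ent (KK Q : Set HR) (κ b j)) ∧ IsCode lv s κ) ∧
    P' (a, κ)) (((Sig.all fun b => Sig.all fun j => Sig.ent (Sig.memKK IntF.id)
      ((IntF.id.snd.coord b).coord j)).and (IntP.isCode IntF.id.snd).sig).and h1)).congr
    fun a => ⟨fun ⟨h, hs, hh⟩ => ?_, fun ⟨κ, h3, h4⟩ => ?_⟩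
  · obtain ⟨κ, c⟩ := exists_codes hs
    exact ⟨κ, exists_codes_iff.1 ⟨h, c⟩, (h2 a κ h c).1 hh⟩
  · obtain ⟨h, c⟩ := exists_codes_iff.2 h3
    exact ⟨h, c.2.2, (h2 a κ h c).2 h4⟩

/-- The general atom: a condition on the subspaces which is `Sig` along internal families. -/
theorem of_r {P : A → (I → Submodule HR (Matrix ι ι HR)) → Prop}
    (h : ∀ (B S' : Type) [NS B S'] (f : B → A) (V : B → I → Submodule HR (Matrix ι ι HR)),
      IntF f → (∀ i, IntV fun b => V b i) → (∀ b, ∀ i ∉ s, V b i = ⊥) →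
        Sig fun b => P (f b) (V b)) : SigF s fun a (h : Fam (KK Q) lv I) => P a h.r :=
  ⟨_, h (A × (s → ι × ι → Matrix ι ι HR)) _ Prod.fst (fun z => cv s z.2) IntF.id.fst
    (IntV.cv IntF.id.snd) fun z _ => cv_out z.2, fun a _ _ c => iff_of_eq (congrArg (P a) c.r_eq)⟩

theorem congr (hP : SigF s P) (h : ∀ a k, (∀ b ∉ s, k.r b = ⊥) → (R a k ↔ P a k)) : SigF s R :=
  hP.imp fun _ hP' => ⟨hP'.1, fun a κ k c => (h a k c.2.2).trans (hP'.2 a κ k c)⟩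
theorem of_sig {p : A → Prop} (hp : Sig p) : SigF s fun a (_ : Fam (KK Q) lv I) => p a :=
  ⟨fun z => p z.1, hp.comp IntF.id.fst, fun _ _ _ _ => Iff.rfl⟩
theorem comp (hP : SigF s P) {f : B → A} (hf : IntF f) : SigF s fun b => P (f b) := by
  obtain ⟨P', h1, h2⟩ := hP
  exact ⟨fun z => P' (f z.1, z.2), h1.comp (by fun_prop), fun b => h2 (f b)⟩
theorem and (hP : SigF s P) (hR : SigF s R) : SigF s fun a h => P a h ∧ R a h := by
  obtain ⟨P', h1, h2⟩ := hP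
  obtain ⟨R', h3, h4⟩ := hR
  exact ⟨_, h1.and h3, fun a κ h c => and_congr (h2 a κ h c) (h4 a κ h c)⟩
theorem or (hP : SigF s P) (hR : SigF s R) : SigF s fun a h => P a h ∨ R a h := by
  obtain ⟨P', h1, h2⟩ := hP
  obtain ⟨R', h3, h4⟩ := hR
  exact ⟨_, h1.or h3, fun a κ h c => or_congr (h2 a κ h c) (h4 a κ h c)⟩
theorem all {J : Type} [Finite J] {P : J → A → Fam (KK Q) lv I → Prop} (h : ∀ j, SigF s (P j)) :
    SigF s fun a k => ∀ j, P j a k := by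
  choose P' h1 h2 using h
  exact ⟨_, Sig.all h1, fun a κ k c => forall_congr' fun j => h2 j a κ k c⟩
theorem ball {J : Type} {t : Set J} (ht : t.Finite) {P : J → A → Fam (KK Q) lv I → Prop}
    (h : ∀ j, SigF s (P j)) : SigF s fun a k => ∀ j ∈ t, P j a k :=
  have := ht.to_subtype
  (all fun j : t => h j).congr fun _ _ _ => Subtype.forall'
theorem any {J : Type} [Countable J] {P : J → A → Fam (KK Q) lv I → Prop}
    (h : ∀ j, SigF s (P j)) : SigF s fun a k => ∃ j, P j a k := by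
  choose P' h1 h2 using h
  exact ⟨_, Sig.any h1, fun a κ k c => exists_congr fun j => h2 j a κ k c⟩
theorem imp_const (c : Prop) (hP : SigF s P) : SigF s fun a k => c → P a k := by
  by_cases h : c
  · exact hP.congr fun _ _ _ => by simp [h]
  · exact (of_sig (Sig.const True)).congr fun _ _ _ => by simp [h]
/-- Existential quantifier over an internal type. -/
theorem exI {P : A → B → Fam (KK Q) lv I → Prop} (h : SigF s fun z : A × B => P z.1 z.2) :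
    SigF s fun a k => ∃ b, P a b k := by
  obtain ⟨P', h1, h2⟩ := h
  exact ⟨fun z => ∃ b, P' ((z.1, b), z.2), Sig.ex (h1.comp (by fun_prop)),
    fun a κ k c => exists_congr fun b => h2 (a, b) κ k c⟩
/-- Universal quantifier over an internal type. -/
theorem allI {P : A → B → Fam (KK Q) lv I → Prop} (h : SigF s fun z : A × B => P z.1 z.2) :
    SigF s fun a k => ∀ b, P a b k := by
  obtain ⟨P', h1, h2⟩ := h
  exact ⟨fun z => ∀ b, P' ((z.1, b), z.2), Sig.fa' (h1.comp (by fun_prop)),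
    fun a κ k c => forall_congr' fun b => h2 (a, b) κ k c⟩

theorem intP_le {V : B → I → Submodule HR (Matrix ι ι HR)} (hV : ∀ i, IntV fun b => V b i)
    (h0 : ∀ b, ∀ i ∉ s, V b i = ⊥) (U : I → Submodule HR (Matrix ι ι HR)) :
    IntP fun b => ∀ i, V b i ≤ U i :=
  (IntP.ball s.finite_toSet fun i => (hV i).le (IntV.const (U i))).congr fun b =>
    ⟨fun h i _ => h i, fun h i => by
      by_cases c : i ∈ s
      · exact h i c
      · rw [h0 b i c]; exact bot_le⟩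
theorem intP_ge {V : B → I → Submodule HR (Matrix ι ι HR)} (hV : ∀ i, IntV fun b => V b i)
    (h0 : ∀ b, ∀ i ∉ s, V b i = ⊥) (U : I → Submodule HR (Matrix ι ι HR)) :
    IntP fun b => ∀ i, U i ≤ V b i :=
  ((IntP.ball s.finite_toSet fun i => (IntV.const (U i)).le (hV i)).and
    (IntP.const (∀ i ∉ s, U i ≤ ⊥))).congr fun b =>
    ⟨fun h => ⟨fun i _ => h i, fun i c => h0 b i c ▸ h i⟩, fun h i => by
      by_cases c : i ∈ s
      · exact h.1 i c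
      · exact (h.2 i c).trans bot_le⟩

theorem le (g : Fam (KK Q) lv I) : SigF s fun (_ : A) h => h ≤ g :=
  of_r (P := fun _ r => ∀ i, r i ≤ g.r i) fun _ _ _ _ _ _ hV h0 => (intP_le hV h0 _).sig
theorem not_le (g : Fam (KK Q) lv I) : SigF s fun (_ : A) h => ¬h ≤ g :=
  of_r (P := fun _ r => ¬∀ i, r i ≤ g.r i) fun _ _ _ _ _ _ hV h0 => (intP_le hV h0 _).not.sig
theorem ge (g : Fam (KK Q) lv I) : SigF s fun (_ : A) h => g ≤ h :=
  of_r (P := fun _ r => ∀ i, g.r i ≤ r i) fun _ _ _ _ _ _ hV h0 => (intP_ge hV h0 _).sig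
theorem not_ge (g : Fam (KK Q) lv I) : SigF s fun (_ : A) h => ¬g ≤ h :=
  of_r (P := fun _ r => ¬∀ i, g.r i ≤ r i) fun _ _ _ _ _ _ hV h0 => (intP_ge hV h0 _).not.sig
theorem le_all (U : I → Submodule HR (Matrix ι ι HR)) :
    SigF s fun (_ : A) (h : Fam (KK Q) lv I) => ∀ i, h.r i ≤ U i :=
  of_r (P := fun _ r => ∀ i, r i ≤ U i) fun _ _ _ _ _ _ hV h0 => (intP_le hV h0 _).sig
theorem ge_all (U : I → Submodule HR (Matrix ι ι HR)) :
    SigF s fun (_ : A) (h : Fam (KK Q) lv I) => ∀ i, U i ≤ h.r i :=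
  of_r (P := fun _ r => ∀ i, U i ≤ r i) fun _ _ _ _ _ _ hV h0 => (intP_ge hV h0 _).sig
theorem fil {s : Finset ℕ} (D : ℕ) : SigF s fun (_ : A) (h : Fam (KK Q) lv ℕ) => h.Fil D :=
  (of_r (P := fun _ r => r 0 = r 1 ∧ (∀ i ∈ range (s.sup id + 1), r (i + 1) ≤ r i) ∧ r (D + 1) = ⊥)
    fun _ _ _ _ _ _ hV _ => (((hV 0).eq (hV 1)).and ((IntP.ball (range _).finite_toSet fun i =>
      (hV (i + 1)).le (hV i)).and ((hV _).eq (IntV.const ⊥)))).sig).congr fun _ k hk =>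
    ⟨fun h => ⟨h.zero, fun i _ => h.anti i, h.bd⟩, fun h => ⟨h.1, fun i => by
      by_cases c : i + 1 ∈ s
      · exact h.2.1 i (mem_range.2 (by have : i + 1 ≤ s.sup id := le_sup (f := id) c; omega))
      · rw [hk _ c]; exact bot_le, h.2.2⟩⟩
theorem kills (b : I) (U : Submodule HR (Matrix ι ι HR)) (ξ : Matrix ι ι HR →ₗ[HR] HR) :
    SigF s fun (_ : A) (h : Fam (KK Q) lv I) => ∀ X ∈ h.r b ⊓ U, ξ X = 0 :=
  of_r (P := fun _ r => ∀ X ∈ r b ⊓ U, ξ X = 0) fun _ _ _ _ _ _ hV _ =>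
    (((hV b).inf (IntV.const U)).kills' ξ).sig
theorem kills0 (b : I) (ξ : Matrix ι ι HR →ₗ[HR] HR) :
    SigF s fun (_ : A) (h : Fam (KK Q) lv I) => ∀ X ∈ h.r b, ξ X = 0 :=
  of_r (P := fun _ r => ∀ X ∈ r b, ξ X = 0) fun _ _ _ _ _ _ hV _ => ((hV b).kills' ξ).sig
theorem le_map (b : I) (f : Matrix ι ι HR →ₗ[HR] Matrix ι' ι' HR)
    (W V : Submodule HR (Matrix ι' ι' HR)) :
    SigF s fun (_ : A) (h : Fam (KK Q) lv I) => W ≤ (h.r b).map f ⊔ V :=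
  of_r (P := fun _ r => W ≤ (r b).map f ⊔ V) fun _ _ _ _ _ _ hV _ =>
    ((IntV.const W).le (((hV b).map f).sup (IntV.const V))).sig
theorem not_le_map (b : I) (f : Matrix ι ι HR →ₗ[HR] Matrix ι' ι' HR)
    (W V : Submodule HR (Matrix ι' ι' HR)) :
    SigF s fun (_ : A) (h : Fam (KK Q) lv I) => ¬W ≤ (h.r b).map f ⊔ V :=
  of_r (P := fun _ r => ¬W ≤ (r b).map f ⊔ V) fun _ _ _ _ _ _ hV _ =>
    ((IntV.const W).le (((hV b).map f).sup (IntV.const V))).not.sig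
theorem le_comap (b : I) (f : Matrix ι' ι' HR →ₗ[HR] Matrix ι ι HR)
    (W V : Submodule HR (Matrix ι' ι' HR)) :
    SigF s fun (_ : A) (h : Fam (KK Q) lv I) => W ≤ (h.r b).comap f ⊔ V :=
  of_r (P := fun _ r => W ≤ (r b).comap f ⊔ V) fun _ _ _ _ _ _ hV _ =>
    ((IntV.const W).le (((hV b).comap f).sup (IntV.const V))).sig
theorem not_le_comap (b : I) (f : Matrix ι' ι' HR →ₗ[HR] Matrix ι ι HR)
    (W V : Submodule HR (Matrix ι' ι' HR)) :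
    SigF s fun (_ : A) (h : Fam (KK Q) lv I) => ¬W ≤ (h.r b).comap f ⊔ V :=
  of_r (P := fun _ r => ¬W ≤ (r b).comap f ⊔ V) fun _ _ _ _ _ _ hV _ =>
    ((IntV.const W).le (((hV b).comap f).sup (IntV.const V))).not.sig
theorem rank (b : I) (d : ℕ) :
    SigF s fun (_ : A) (h : Fam (KK Q) lv I) => Module.finrank HR (h.r b) = d :=
  of_r (P := fun _ r => Module.finrank HR (r b) = d) fun _ _ _ _ _ _ hV _ => ((hV b).rank_eq d).sig
theorem mem (b : I) {X : A → Matrix ι ι HR} (hX : IntF X) :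
    SigF s fun a (h : Fam (KK Q) lv I) => X a ∈ h.r b :=
  of_r (P := fun a r => X a ∈ r b) fun _ _ _ _ _ hf hV _ => ((hV b).mem' (hX.comp hf)).sig

variable [Finite σ] {g : Fam (KK Q) lv (σ →₀ ℕ)} {D : ℕ} {U W : Sc (KK Q) σ}
  {x : A → PS lv σ HR}

theorem fac_comap' (hD : g.Bd D) (hU : ∀ β, Sig fun t => t ∈ U.s β)
    (hW : ∀ β, Sig fun t => t ∈ W.s β) (hx : IntS x) (φ : (σ →₀ ℕ) →+ I) (s : Finset I) :
    SigF s fun a h => Fac U W g (h.comap φ) (x a) :=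
  (of_r (P := fun a r => ∃ e ∈ g.PG, e ∈ U.EE lv ∧ ∃ c ∈ g.PG, c ∈ W.EE lv ∧ x a ∈ g.PG ∧
      lg (e⁻¹ * x a * c⁻¹) ∈ pm fun β => r (φ β)) fun _ _ _ _ _ hf hV _ =>
    Sig.facV hD hU hW (fun β => hV (φ β)) (hx.comp hf)).congr fun _ _ _ => fac_iff
open Classical in
theorem fac_plus' (hD : g.Bd D) (hU : ∀ β, Sig fun t => t ∈ U.s β)
    (hW : ∀ β, Sig fun t => t ∈ W.s β) (hx : IntS x) (φ : (σ →₀ ℕ) →+ I) (s : Finset I) :
    SigF s fun a h => Fac U W g (h.comap φ).plus (x a) :=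
  (of_r (P := fun a r => ∃ e ∈ g.PG, e ∈ U.EE lv ∧ ∃ c ∈ g.PG, c ∈ W.EE lv ∧ x a ∈ g.PG ∧
      lg (e⁻¹ * x a * c⁻¹) ∈ pm fun β => if β = 0 then ⊥ else r (φ β)) fun _ _ _ _ _ hf hV _ =>
    Sig.facV hD hU hW (fun β => IntV.ite (β = 0) (IntV.const ⊥) (hV (φ β))) (hx.comp hf)).congr
    fun _ _ _ => fac_iff
theorem mem_PG (hx : IntS x) (φ : (σ →₀ ℕ) →+ I) (s : Finset I) :
    SigF s fun a (h : Fam (KK Q) lv I) => x a ∈ (h.comap φ).PG :=
  of_r (P := fun a r => lg (x a) ∈ pm fun β => r (φ β)) fun _ _ _ _ _ hf hV _ =>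
    (IntV.pm (fun β => hV (φ β)) (hx.comp hf).lgM).sig
theorem fac_comap (hD : g.Bd D) (N w : σ → HR) (hx : IntS x) (φ : (σ →₀ ℕ) →+ I) (s : Finset I) :
    SigF s fun a h => Fac (Sm Q N) (Rt Q w) g (h.comap φ) (x a) :=
  fac_comap' hD (sig_Sm N) (sig_Rt w) hx φ s

end SigF

theorem SigF.fac [Finite σ] {g : Fam (KK Q) lv (σ →₀ ℕ)} {D} (hD : g.Bd D) (N w : σ → HR)
    {x : A → PS lv σ HR} (hx : IntS x) (s : Finset (σ →₀ ℕ)) :
    SigF s fun a h => Fac (Sm Q N) (Rt Q w) g h (x a) :=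
  SigF.fac_comap hD N w hx (AddMonoidHom.id _) s
theorem SigF.fac_fine [Finite σ] {g : Fam (KK Q) lv (σ →₀ ℕ)} {D} (hD : g.Bd D) (N w : σ → HR)
    {x : A → PS lv σ HR} (hx : IntS x) (s : Finset ℕ) :
    SigF s fun a h => Fac (Sm Q N) (Rt Q w) g (h.fine σ).plus (x a) :=
  SigF.fac_plus' hD (sig_Sm N) (sig_Rt w) hx Finsupp.degree s

/-- A family that is minimal on a dense set. -/
theorem pigeon_min {T : Ns (Finset S)} {P : A → Fam (KK Q) lv I → Prop} (hP : SigF s P)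
    {p : A → Prop} (hd : Dense Q T fun a => p a ∧ ∃ h, (∀ b ∉ s, h.r b = ⊥) ∧ P a h) :
    ∃ h, (∀ b ∉ s, h.r b = ⊥) ∧ Dense Q T fun a => p a ∧ P a h ∧ ∀ k ≤ h, P a k → h ≤ k := by
  obtain ⟨h, ⟨h1, h2⟩, hm⟩ := (measure fun k : Fam (KK Q) lv I =>
    ∑ i ∈ s, Module.finrank HR (k.r i)).wf.has_min
    {h | (∀ b ∉ s, h.r b = ⊥) ∧ Dense Q T fun a => p a ∧ P a h} (pigeon_sigF hP hd)
  have hq := hP.and ((SigF.le h).and (SigF.not_ge h))
  refine ⟨h, h1, (h2.split hq.ex).elim (fun d => ?_) fun d => d.mono fun a _ ⟨h3, h4⟩ =>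
    ⟨h3.1, h3.2, fun k hk h5 => by_contra fun h6 => h4 ⟨k, fun b hb =>
      le_bot_iff.1 (h1 b hb ▸ hk b), h5, hk, h6⟩⟩⟩
  obtain ⟨k, k1, k2⟩ := pigeon_sigF hq d
  obtain ⟨-, -, -, -, k3, k4⟩ := k2.exists
  refine (hm k ⟨k1, k2.mono fun a _ ha => ⟨ha.1.1, ha.2.1⟩⟩ ?_).elim
  obtain ⟨i, hi⟩ := not_forall.1 (mt Fam.le_def.2 k4)
  refine sum_lt_sum (fun j _ => Submodule.finrank_mono (k3 j)) ⟨i, by_contra fun c => hi ?_,
    Submodule.finrank_lt_finrank_of_lt (lt_of_le_not_ge (k3 i) hi)⟩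
  rw [h1 i c]; exact bot_le

end code

section main
variable [Fintype σ] [DecidableEq σ]

theorem pigeon_fam {T : Ns (Finset S)} {g : Fam (KK Q) lv (σ →₀ ℕ)} {D} (hD : g.Bd D)
    {N w : σ → HR} {x : A → PS lv σ HR} (hx : IntS x) {p : A → Prop} {J : Type} [Finite J]
    (b : J → σ →₀ ℕ) (ξ : J → Matrix ι ι HR →ₗ[HR] HR)
    (hd : Dense Q T fun a => p a ∧ ∃ h ≤ g, (∀ j, ∀ X ∈ h.r (b j), ξ j X = 0) ∧
      Fac (Sm Q N) (Rt Q w) g h (x a)) :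
    ∃ h ≤ g, (∀ j, ∀ X ∈ h.r (b j), ξ j X = 0) ∧
      Dense Q T fun a => p a ∧ Fac (Sm Q N) (Rt Q w) g h (x a) := by
  obtain ⟨h, -, d⟩ := pigeon_sigF ((SigF.le g).and ((SigF.all fun j => SigF.kills0 (b j) (ξ j)).and
    (SigF.fac hD N w hx (upTo σ D)))) (hd.mono fun a _ ⟨h1, h, h2, h3⟩ =>
      ⟨h1, h, fun β hβ => le_bot_iff.1 (hD.bot β hβ ▸ h2 β), h2, h3⟩)
  obtain ⟨-, -, -, h1, h2, -⟩ := d.exists
  exact ⟨h, h1, h2, d.mono fun a _ ha => ⟨ha.1, ha.2.2.2⟩⟩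

/-- The same for the minimal family: on a dense set the resolution is constant. -/
theorem pigeon_res {T : Ns (Finset S)} {g : Fam (KK Q) lv (σ →₀ ℕ)} {D} (hD : g.Bd D)
    (h0 : g.r 0 = ⊥) {N w : σ → HR} (hs : Sep (Sm Q N) (Rt Q w)) {x : A → PS lv σ HR}
    (hx : IntS x) {p : A → Prop} (hd : Dense Q T fun a => p a ∧ x a ∈ g.PG) :
    ∃ h ≤ g, Dense Q T fun a => p a ∧ Fac (Sm Q N) (Rt Q w) g h (x a) ∧
      ∀ h', Fac (Sm Q N) (Rt Q w) g h' (x a) → h ≤ h' := by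
  obtain ⟨h, -, d⟩ := pigeon_min ((SigF.le g).and (SigF.fac hD N w hx (upTo σ D)))
    (hd.mono fun a _ ha => ⟨ha.1, g, hD.bot, le_rfl, Fac.of_mem ha.2 ha.2⟩)
  obtain ⟨-, -, -, ⟨h1, -⟩, -⟩ := d.exists
  exact ⟨h, h1, d.mono fun a _ ⟨h2, h3, h4⟩ => ⟨h2, h3.2, fun h' h5 =>
    (h4 _ (Fam.inf_le_left h h') ⟨(Fam.inf_le_left h h').trans h1, h3.2.int hs h0 h5⟩).trans
      (Fam.inf_le_right h h')⟩⟩

theorem not_irr_iff {K : Subfield HR} {U W : Sc K σ} {g : Fam K lv ℕ} {n} {x : PS lv σ HR} :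
    ¬Irr U W g n x ↔ ∃ i κ, Adm g n i (fn κ) ∧
      ∀ β : σ →₀ ℕ, β.degree = i → fn κ (co β (lg x)) ∈ U.s β ⊔ W.s β := by
  simp only [Irr, not_forall, not_exists, not_and, not_not]
  exact exists_congr fun i => ⟨fun ⟨η, h1, h2⟩ => by
    obtain ⟨κ, rfl⟩ := exists_fn η; exact ⟨κ, h1, h2⟩, fun ⟨κ, h1, h2⟩ => ⟨_, h1, h2⟩⟩

/-- Nested resolution, constant on a dense set. -/
theorem pigeon_resolve {T : Ns (Finset S)} {g : Fam (KK Q) lv ℕ} {D} (hg : g.Fil D) {n}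
    (_hn : g.Idl n) {N w : σ → HR} {x : A → PS lv σ HR} (hx : IntS x) {p : A → Prop}
    (hd : Dense Q T fun a => p a ∧ x a ∈ (g.fine σ).plus.PG) :
    ∃ h ≤ g, h.Fil D ∧ (∀ i, g.r i ⊓ n ≤ h.r i) ∧ ∃ e y c : A → PS lv σ HR,
      IntS e ∧ IntS y ∧ IntS c ∧ Dense Q T fun a => p a ∧
        e a ∈ (g.fine σ).plus.PG ⊓ (Sm Q N).EE lv ∧ y a ∈ (h.fine σ).plus.PG ∧
        c a ∈ (g.fine σ).plus.PG ⊓ (Rt Q w).EE lv ∧ x a = e a * y a * c a ∧
        Irr (Sm Q N) (Rt Q w) h n (y a) := by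
  have hD := (hg.fine_bd (σ := σ)).plus
  obtain ⟨h, -, d⟩ := pigeon_min (((SigF.le g).and ((SigF.fil D).and
    (SigF.ge_all fun i => g.r i ⊓ n))).and (SigF.fac_fine hD N w hx (range (D + 1))))
    (hd.mono fun a _ ha => ⟨ha.1, g, fun b hb => hg.eq_bot (by simpa using hb),
      ⟨le_rfl, hg, fun _ => inf_le_left⟩, Fac.of_mem ha.2 ha.2⟩)
  obtain ⟨-, -, -, ⟨⟨h1, h2, h3⟩, -⟩, -⟩ := d.exists
  obtain ⟨e, y, c, he, hy, hc, d'⟩ := Dense.fac' hD (sig_Sm N) (sig_Rt w) hx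
    (d.mono fun a _ ha => ⟨⟨ha.1, ha.2.2⟩, ha.2.1.2⟩ :
      Dense Q T fun a => (p a ∧ _) ∧ _)
  refine ⟨h, h1, h2, h3, e, y, c, he, hy, hc, d'.mono fun a _ ⟨⟨a1, a2⟩, a3, a4, a5, a6⟩ =>
    ⟨a1, a3, a4.2, a5, a6, by_contra fun hi => ?_⟩⟩
  obtain ⟨i, κ, ad, hκ⟩ := not_irr_iff.1 hi
  obtain ⟨e', b1, y', b2, c', b3, b4⟩ := peel ad h2 a4.2 hκ
  have m := fun {z} => Fam.PG_mono (x := z) (Fam.plus_mono (Fam.fine_mono (σ := σ) h1))
  refine (ad.ker_lt h2).not_ge (a2 _ (ad.ker_le h2) ⟨⟨(ad.ker_le h2).trans h1, ad.ker_fil h2,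
    fun j => (le_inf (h3 j) inf_le_right).trans (ad.inf_le_ker h2 j)⟩, ?_⟩ i)
  rw [a6, b4]
  exact Fac.mul ⟨e', ⟨m b1.1, b1.2⟩, y',
    ⟨m (Fam.PG_mono (Fam.plus_mono (Fam.fine_mono (ad.ker_le h2))) b2), b2⟩, c', ⟨m b3.1, b3.2⟩, rfl⟩ a3 a5

omit [Fintype σ] [DecidableEq σ] in
theorem adm_iff {K : Subfield HR} {g : Fam K lv ℕ} {n i} {κ : Matrix ι ι HR} :
    Adm g n i (fn κ) ↔ Ent (K : Set HR) κ ∧ 1 ≤ i ∧ (¬∀ X ∈ g.r i, fn κ X = 0) ∧
      (∀ X ∈ g.r (i + 1), fn κ X = 0) ∧ (∀ z ∈ antidiagonal i, ∀ X ∈ g.r z.1, ∀ Y ∈ g.r z.2,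
        X * Y - Y * X ∈ LinearMap.ker (fn κ)) ∧ ∀ X ∈ g.r i ⊓ n, fn κ X = 0 :=
  ⟨fun h => ⟨ratF_fn.1 h.rat, h.pos, fun c => h.ne.elim fun X hX => hX.2 (c X hX.1), h.nxt,
    fun z hz => h.br _ _ (mem_antidiagonal.1 hz), h.idl⟩,
  fun h => ⟨h.2.1, ratF_fn.2 h.1, by simpa using h.2.2.1, h.2.2.2.1,
    fun a b e => h.2.2.2.2.1 (a, b) (mem_antidiagonal.2 e), h.2.2.2.2.2⟩⟩

omit [Fintype σ] [DecidableEq σ] in
theorem intP_adm {V : A → ℕ → Submodule HR (Matrix ι ι HR)} (hV : ∀ i, IntV fun a => V a i)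
    (n : Submodule HR (Matrix ι ι HR)) (i : ℕ) {κ : A → Matrix ι ι HR} (hκ : IntF κ) :
    IntP fun a => 1 ≤ i ∧ (¬∀ X ∈ V a i, fn (κ a) X = 0) ∧
      (∀ X ∈ V a (i + 1), fn (κ a) X = 0) ∧ (∀ z ∈ antidiagonal i, ∀ X ∈ V a z.1, ∀ Y ∈ V a z.2,
        X * Y - Y * X ∈ LinearMap.ker (fn (κ a))) ∧ ∀ X ∈ V a i ⊓ n, fn (κ a) X = 0 :=
  (IntP.const _).and (((hV i).kills hκ).not.and (((hV _).kills hκ).and
    ((IntP.ball (antidiagonal i).finite_toSet fun z => (hV z.1).br (hV z.2) (IntV.ker hκ)).and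
      (((hV i).inf (IntV.const n)).kills hκ))))

omit [Fintype σ] [DecidableEq σ] in
theorem Sig.adm (g : Fam (KK Q) lv ℕ) (n : Submodule HR (Matrix ι ι HR)) (i : ℕ)
    {κ : A → Matrix ι ι HR} (hκ : IntF κ) : Sig fun a => Adm g n i (fn (κ a)) :=
  ((Sig.ent (Sig.memKK IntF.id) hκ).and (intP_adm (fun j => IntV.const (g.r j)) n i hκ).sig).congr
    fun _ => adm_iff

omit [Fintype σ] [DecidableEq σ] in
theorem SigF.adm (s : Finset ℕ) (n : Submodule HR (Matrix ι ι HR)) (i : ℕ)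
    {κ : A → Matrix ι ι HR} (hκ : IntF κ) :
    SigF s fun a (h : Fam (KK Q) lv ℕ) => Adm h n i (fn (κ a)) :=
  ((SigF.of_sig (Sig.ent (Sig.memKK IntF.id) hκ)).and (SigF.of_r
    (P := fun a r => 1 ≤ i ∧ (¬∀ X ∈ r i, fn (κ a) X = 0) ∧
      (∀ X ∈ r (i + 1), fn (κ a) X = 0) ∧ (∀ z ∈ antidiagonal i, ∀ X ∈ r z.1, ∀ Y ∈ r z.2,
        X * Y - Y * X ∈ LinearMap.ker (fn (κ a))) ∧ ∀ X ∈ r i ⊓ n, fn (κ a) X = 0)
    fun _ _ _ _ _ hf hV _ => (intP_adm hV n i (hκ.comp hf)).sig)).congr fun _ _ _ => adm_iff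

omit [Fintype σ] [DecidableEq σ] in
theorem pigeon_adm {T : Ns (Finset S)} {g : Fam (KK Q) lv ℕ} {D} (_hg : g.Fil D) {n}
    {p : A → Prop} {s : ℕ → A → Matrix ι ι HR → Prop}
    (hs : ∀ i, Sig fun z : A × Matrix ι ι HR => s i z.1 z.2)
    (hd : Dense Q T fun a => p a ∧ ∃ i κ, Adm g n i (fn κ) ∧ s i a κ) :
    ∃ i κ, Adm g n i (fn κ) ∧ Dense Q T fun a => p a ∧ s i a κ := by
  have h1 := fun i => (Sig.adm g n i IntF.id.snd).and (hs i)
  obtain ⟨i, d⟩ := Dense.any (q := fun i a => ∃ κ, Adm g n i (fn κ) ∧ s i a κ)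
    (fun i => Sig.ex (h1 i)) hd
  obtain ⟨κ, -, d'⟩ := pigeon_mat (q := fun a κ => Adm g n i (fn κ) ∧ s i a κ) (h1 i)
    (d.mono fun a _ ⟨h2, κ, h3⟩ => ⟨h2, κ, ratF_fn.1 h3.1.rat, h3⟩)
  obtain ⟨-, -, -, h2, -⟩ := d'.exists
  exact ⟨i, κ, h2, d'.mono fun a _ ha => ⟨ha.1, ha.2.2⟩⟩

theorem Sig.coef (N w : σ → HR) (i : ℕ) {x : A → PS lv σ HR} (hx : IntS x)
    {κ : A → Matrix ι ι HR} (hκ : IntF κ) : Sig fun a => ∀ β : σ →₀ ℕ, β.degree = i →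
      fn (κ a) (co β (lg (x a))) ∈ (Sm Q N).s β ⊔ (Rt Q w).s β :=
  Sig.ball (s := {β : σ →₀ ℕ | β.degree = i}) ((fin_deg i).subset fun _ h => le_of_eq h)
    fun β => Sig.sup (sig_Sm N β) (sig_Rt w β) (hκ.fn (hx.co_lg β))

theorem Sig.not_irr {g : Fam (KK Q) lv ℕ} {D} (_hg : g.Fil D) (n) (N w : σ → HR)
    {x : A → PS lv σ HR} (hx : IntS x) : Sig fun a => ¬Irr (Sm Q N) (Rt Q w) g n (x a) :=
  (Sig.any fun i => Sig.ex (r := fun a κ => Adm g n i (fn κ) ∧ ∀ β : σ →₀ ℕ, β.degree = i →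
      fn κ (co β (lg (x a))) ∈ (Sm Q N).s β ⊔ (Rt Q w).s β) ((Sig.adm g n i IntF.id.snd).and
    (Sig.coef N w i (hx.comp IntF.id.fst) IntF.id.snd))).congr fun _ => not_irr_iff

theorem SigF.not_irr (s : Finset ℕ) (n) (N w : σ → HR) {x : A → PS lv σ HR} (hx : IntS x) :
    SigF s fun a (h : Fam (KK Q) lv ℕ) => ¬Irr (Sm Q N) (Rt Q w) h n (x a) :=
  (SigF.any fun i => SigF.exI (P := fun a κ h => Adm h n i (fn κ) ∧ ∀ β : σ →₀ ℕ, β.degree = i →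
      fn κ (co β (lg (x a))) ∈ (Sm Q N).s β ⊔ (Rt Q w).s β) ((SigF.adm s n i IntF.id.snd).and
    (SigF.of_sig (Sig.coef N w i (hx.comp IntF.id.fst) IntF.id.snd)))).congr
    fun _ _ _ => not_irr_iff

end main

end Pool.Agent.P.MP_a14ce1_nt.Nil
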