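import Mathlib

/-! Gowers uniformity sums of finitely supported functions on an abelian group. -/

namespace Pool.Agent.P.MP_a14ce1_nt.Nil

open Finset Function ComplexConjugate

variable {G : Type*} [AddCommGroup G]

/-- multiplicative derivative -/
noncomputable def dl (h : G) (f : G → ℂ) : G → ℂ := fun x => f (x + h) * conj (f x)

/-- `U k f` is the `2^(k+1)`-th power of the unnormalised `U^(k+1)` norm. -/
noncomputable def U : ℕ → (G → ℂ) → ℝ
  | 0, f => ‖∑ᶠ x, f x‖ ^ 2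
  | k + 1, f => ∑ᶠ h, U k (dl h f)

/-! ### Finite sums of finitely supported functions -/

section fs
variable {α β : Type*}

theorem fs_eq {M : Type*} [AddCommMonoid M] {f : α → M} {S : Finset α} (h : ∀ x, f x ≠ 0 → x ∈ S) :
    ∑ᶠ x, f x = ∑ x ∈ S, f x :=
  finsum_eq_sum_of_support_subset f (fun x hx => by simpa using h x hx)

theorem fin_of {M : Type*} [Zero M] {f : α → M} {S : Finset α} (h : ∀ x, f x ≠ 0 → x ∈ S) :
    HasFiniteSupport f :=
  S.finite_toSet.subset (fun x hx => by simpa using h x hx)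

theorem fin_ex {M : Type*} [Zero M] {f : α → M} (h : HasFiniteSupport f) :
    ∃ S : Finset α, ∀ x, f x ≠ 0 → x ∈ S :=
  ⟨Set.Finite.toFinset h, fun x hx => by simpa using hx⟩

theorem fin_mono {M N : Type*} [Zero M] [Zero N] {f : α → M} {g : α → N} (h : HasFiniteSupport f)
    (hg : ∀ x, g x ≠ 0 → f x ≠ 0) : HasFiniteSupport g := by
  obtain ⟨S, hS⟩ := fin_ex h
  exact fin_of (fun x hx => hS x (hg x hx))

theorem fs_comm {M : Type*} [AddCommMonoid M] {F : α → β → M} {S : Finset α} {T : Finset β}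
    (h : ∀ a b, F a b ≠ 0 → a ∈ S ∧ b ∈ T) : ∑ᶠ a, ∑ᶠ b, F a b = ∑ᶠ b, ∑ᶠ a, F a b := by
  have e1 : ∀ a, ∑ᶠ b, F a b = ∑ b ∈ T, F a b := fun a => fs_eq fun b hb => (h a b hb).2
  have e2 : ∀ b, ∑ᶠ a, F a b = ∑ a ∈ S, F a b := fun b => fs_eq fun a ha => (h a b ha).1
  simp only [e1, e2]
  rw [fs_eq (S := S), fs_eq (S := T), sum_comm]
  · intro b hb
    obtain ⟨a, -, ha⟩ := exists_ne_zero_of_sum_ne_zero hb
    exact (h a b ha).2
  · intro a ha
    obtain ⟨b, -, hb⟩ := exists_ne_zero_of_sum_ne_zero ha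
    exact (h a b hb).1

theorem fs_shift {M : Type*} [AddCommMonoid M] (f : G → M) (a : G) : ∑ᶠ x, f (x + a) = ∑ᶠ x, f x :=
  finsum_comp_equiv (Equiv.addRight a)

theorem fs_neg {M : Type*} [AddCommMonoid M] (f : G → M) : ∑ᶠ x, f (-x) = ∑ᶠ x, f x :=
  finsum_comp_equiv (Equiv.neg G)

theorem fs_le {f g : α → ℝ} (hg : HasFiniteSupport g) (h0 : ∀ x, 0 ≤ f x) (h : ∀ x, f x ≤ g x) :
    ∑ᶠ x, f x ≤ ∑ᶠ x, g x := by
  obtain ⟨S, hS⟩ := fin_ex hg
  rw [fs_eq hS, fs_eq (S := S)]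
  · exact sum_le_sum fun x _ => h x
  · intro x hx
    exact hS x (ne_of_gt (lt_of_lt_of_le (lt_of_le_of_ne (h0 x) hx.symm) (h x)))

theorem sum_le_fs {f : α → ℝ} (hf : HasFiniteSupport f) (h0 : ∀ x, 0 ≤ f x) (T : Finset α) :
    ∑ x ∈ T, f x ≤ ∑ᶠ x, f x := by
  classical
  obtain ⟨S, hS⟩ := fin_ex hf
  rw [fs_eq (S := S ∪ T) fun x hx => mem_union_left _ (hS x hx)]
  exact sum_le_sum_of_subset_of_nonneg subset_union_right fun x _ _ => h0 x

theorem norm_fs_le {f : α → ℂ} (hf : HasFiniteSupport f) : ‖∑ᶠ x, f x‖ ≤ ∑ᶠ x, ‖f x‖ := by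
  obtain ⟨S, hS⟩ := fin_ex hf
  rw [fs_eq hS, fs_eq (S := S) fun x hx => hS x (by simpa using hx)]
  exact norm_sum_le _ _

theorem fs_conj (f : α → ℂ) : conj (∑ᶠ x, f x) = ∑ᶠ x, conj (f x) :=
  (starRingAut (R := ℂ)).toAddEquiv.map_finsum f

theorem fs_ofReal (f : α → ℝ) : ((∑ᶠ x, f x : ℝ) : ℂ) = ∑ᶠ x, (f x : ℂ) :=
  (Complex.ofRealHom.toAddMonoidHom.map_finsum_of_injective Complex.ofReal_injective f)

/-- Cauchy–Schwarz -/
theorem fs_cs {a b c : α → ℝ} (ha : HasFiniteSupport a) (hb : HasFiniteSupport b)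
    (ha0 : ∀ x, 0 ≤ a x) (hb0 : ∀ x, 0 ≤ b x) (h : ∀ x, c x ^ 2 ≤ a x * b x) :
    (∑ᶠ x, c x) ^ 2 ≤ (∑ᶠ x, a x) * ∑ᶠ x, b x := by
  classical
  obtain ⟨S, hS⟩ := fin_ex ha
  obtain ⟨T, hT⟩ := fin_ex hb
  rw [fs_eq (S := S ∪ T) fun x hx => mem_union_left _ (hS x hx),
    fs_eq (S := S ∪ T) fun x hx => mem_union_right _ (hT x hx),
    fs_eq (f := c) (S := S ∪ T)]
  · exact sum_sq_le_sum_mul_sum_of_sq_le_mul _ (fun x _ => ha0 x) (fun x _ => hb0 x) fun x _ => h x
  · intro x hx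
    refine mem_union_left _ (hS x fun h0 => hx ?_)
    have := h x
    rw [h0, zero_mul] at this
    exact pow_eq_zero_iff two_ne_zero |>.mp (le_antisymm this (sq_nonneg _))

/-- Hölder with as many factors as the exponent -/
theorem sum_holder {ι : Type*} [Fintype ι] [Nonempty ι] (S : Finset α) {a : ι → α → ℝ} {b : α → ℝ}
    (ha0 : ∀ i x, 0 ≤ a i x) (hb0 : ∀ x, 0 ≤ b x)
    (h : ∀ x, b x ^ Fintype.card ι ≤ ∏ i, a i x) :
    (∑ x ∈ S, b x) ^ Fintype.card ι ≤ ∏ i, ∑ x ∈ S, a i x := by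
  classical
  set m := Fintype.card ι with hm
  have hm0 : 0 < m := Fintype.card_pos
  have hmR : (0 : ℝ) < m := by exact_mod_cast hm0
  by_cases h0 : ∃ i, ∑ x ∈ S, a i x = 0
  · obtain ⟨i, hi⟩ := h0
    have : ∑ x ∈ S, b x = 0 := by
      refine sum_eq_zero fun x hx => ?_
      have h1 := (sum_eq_zero_iff_of_nonneg fun x _ => ha0 i x).mp hi x hx
      have h2 := h x
      rw [prod_eq_zero (mem_univ i) h1] at h2
      exact pow_eq_zero_iff hm0.ne' |>.mp (le_antisymm h2 (pow_nonneg (hb0 x) _))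
    rw [this, zero_pow hm0.ne']
    exact prod_nonneg fun i _ => sum_nonneg fun x _ => ha0 i x
  push Not at h0
  set A : ι → ℝ := fun i => ∑ x ∈ S, a i x with hA
  have hA0 : ∀ i, 0 < A i := fun i => lt_of_le_of_ne (sum_nonneg fun x _ => ha0 i x) (h0 i).symm
  have hP : 0 < ∏ i, A i := prod_pos fun i _ => hA0 i
  set P : ℝ := (∏ i, A i) ^ ((m : ℝ)⁻¹) with hPdef
  have hP0 : 0 < P := Real.rpow_pos_of_pos hP _
  have hPm : P ^ m = ∏ i, A i := Real.rpow_inv_natCast_pow hP.le hm0.ne'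
  have key : ∀ x, b x / P ≤ ∑ i, (m : ℝ)⁻¹ * (a i x / A i) := by
    intro x
    have h1 := Real.geom_mean_le_arith_mean_weighted univ (fun _ : ι => (m : ℝ)⁻¹)
      (fun i => a i x / A i) (fun _ _ => by positivity)
      (by rw [sum_const, card_univ, ← hm, nsmul_eq_mul, mul_inv_cancel₀ hmR.ne'])
      (fun i _ => div_nonneg (ha0 i x) (hA0 i).le)
    refine le_trans ?_ h1
    rw [Real.finsetProd_rpow _ _ (fun i _ => div_nonneg (ha0 i x) (hA0 i).le), prod_div_distrib]
    have h2 : b x / P = ((b x / P) ^ m) ^ ((m : ℝ)⁻¹) :=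
      (Real.pow_rpow_inv_natCast (div_nonneg (hb0 x) hP0.le) hm0.ne').symm
    rw [h2]
    refine Real.rpow_le_rpow (pow_nonneg (div_nonneg (hb0 x) hP0.le) _) ?_ (by positivity)
    rw [div_pow, hPm]
    exact div_le_div_of_nonneg_right (h x) hP.le
  have h3 : (∑ x ∈ S, b x) / P ≤ 1 := by
    rw [sum_div]
    refine (sum_le_sum fun x _ => key x).trans (le_of_eq ?_)
    rw [sum_comm]
    have : ∀ i, ∑ x ∈ S, (m : ℝ)⁻¹ * (a i x / A i) = (m : ℝ)⁻¹ := by
      intro i
      rw [← mul_sum, ← sum_div, div_self (hA0 i).ne', mul_one]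
    simp only [this]
    rw [sum_const, card_univ, ← hm, nsmul_eq_mul, mul_inv_cancel₀ hmR.ne']
  rw [div_le_one hP0] at h3
  calc (∑ x ∈ S, b x) ^ m ≤ P ^ m := pow_le_pow_left₀ (sum_nonneg fun x _ => hb0 x) h3 _
    _ = _ := hPm

end fs

/-! ### Supports -/

theorem dl_ne {f : G → ℂ} {h x : G} (hx : dl h f x ≠ 0) : f (x + h) ≠ 0 ∧ f x ≠ 0 := by
  simpa [dl] using hx

theorem fin_dl {f : G → ℂ} (hf : HasFiniteSupport f) (h : G) : HasFiniteSupport (dl h f) :=
  fin_mono hf fun _ hx => (dl_ne hx).2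

theorem fin_shift {M : Type*} [Zero M] {f : G → M} (hf : HasFiniteSupport f) (a : G) :
    HasFiniteSupport fun x => f (x + a) :=
  hf.fun_comp_of_injective (add_left_injective a)

theorem norm_dl (h : G) (f : G → ℂ) (x : G) : ‖dl h f x‖ = ‖f (x + h)‖ * ‖f x‖ := by simp [dl]

theorem norm_dl_le {f : G → ℂ} (hf : ∀ x, ‖f x‖ ≤ 1) (h x : G) : ‖dl h f x‖ ≤ 1 := by
  rw [norm_dl]
  exact mul_le_one₀ (hf _) (norm_nonneg _) (hf _)

@[simp] theorem U_zero (k : ℕ) : U k (fun _ : G => (0 : ℂ)) = 0 := by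
  induction k with
  | zero => simp [U]
  | succ k ih =>
    have : ∀ h : G, dl h (fun _ : G => (0 : ℂ)) = fun _ => 0 := fun h => by ext; simp [dl]
    simp [U, this, ih]

theorem U_nonneg (k : ℕ) (f : G → ℂ) : 0 ≤ U k f := by
  induction k generalizing f with
  | zero => exact sq_nonneg _
  | succ k ih => exact finsum_nonneg fun h => ih _

theorem U_ne {k : ℕ} {f : G → ℂ} (h : U k f ≠ 0) : ∃ x, f x ≠ 0 := by
  by_contra hc
  push Not at hc
  exact h (by rw [show f = fun _ => 0 from funext hc, U_zero])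

theorem U_zero_eq {f : G → ℂ} {S : Finset G} (hS : ∀ x, f x ≠ 0 → x ∈ S) :
    U 0 f = ‖∑ x ∈ S, f x‖ ^ 2 := by rw [U, fs_eq hS]

/-- the recursion as a finite sum over any set containing the differences of the support -/
theorem U_succ_eq (k : ℕ) {f : G → ℂ} {T : Finset G}
    (hT : ∀ x y, f x ≠ 0 → f y ≠ 0 → x - y ∈ T) : U (k + 1) f = ∑ h ∈ T, U k (dl h f) := by
  rw [U]
  refine fs_eq fun h hh => ?_
  obtain ⟨x, hx⟩ := U_ne hh
  simpa using hT _ _ (dl_ne hx).1 (dl_ne hx).2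

theorem ex_diff {f g : G → ℂ} (hf : HasFiniteSupport f) (hg : HasFiniteSupport g) :
    ∃ T : Finset G, ∀ x y, f x ≠ 0 → g y ≠ 0 → x - y ∈ T := by
  classical
  obtain ⟨S, hS⟩ := fin_ex hf
  obtain ⟨S', hS'⟩ := fin_ex hg
  exact ⟨image₂ (· - ·) S S', fun x y hx hy => mem_image₂_of_mem (hS x hx) (hS' y hy)⟩

theorem fin_U_pair (k : ℕ) {f g : G → ℂ} (hf : HasFiniteSupport f) (hg : HasFiniteSupport g) :
    HasFiniteSupport fun h => U k (fun x => f (x + h) * g x) := by
  obtain ⟨T, hT⟩ := ex_diff hf hg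
  refine fin_of (S := T) fun h hh => ?_
  obtain ⟨x, hx⟩ := U_ne hh
  simpa using hT _ _ (left_ne_zero_of_mul hx) (right_ne_zero_of_mul hx)

theorem fin_conj {α : Type*} {f : α → ℂ} (hf : HasFiniteSupport f) :
    HasFiniteSupport fun x => conj (f x) := fin_mono hf fun x hx => by simpa using hx

theorem fin_U_dl (k : ℕ) {f : G → ℂ} (hf : HasFiniteSupport f) :
    HasFiniteSupport fun h => U k (dl h f) := fin_U_pair k hf (fin_conj hf)

/-! ### Invariances -/

theorem U_shift (k : ℕ) (f : G → ℂ) (a : G) : U k (fun x => f (x + a)) = U k f := by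
  induction k generalizing f with
  | zero => simp only [U, fs_shift]
  | succ k ih =>
    simp only [U]
    refine finsum_congr fun h => ?_
    rw [← ih (dl h f)]
    congr 1
    ext x
    simp only [dl, add_right_comm x h a]

theorem U_conj (k : ℕ) (f : G → ℂ) : U k (fun x => conj (f x)) = U k f := by
  induction k generalizing f with
  | zero => simp only [U, ← fs_conj, Complex.norm_conj]
  | succ k ih =>
    simp only [U]
    refine finsum_congr fun h => ?_
    rw [← ih (dl h f)]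
    congr 1
    ext x
    simp [dl]

theorem U_neg (k : ℕ) (f : G → ℂ) : U k (fun x => f (-x)) = U k f := by
  induction k generalizing f with
  | zero => simp only [U, fs_neg]
  | succ k ih =>
    simp only [U]
    rw [← fs_neg (fun h => U k (dl h f))]
    refine finsum_congr fun h => ?_
    rw [← ih (dl (-h) f)]
    congr 1
    ext x
    simp only [dl, neg_add]

theorem U_smul (k : ℕ) (c : ℂ) (f : G → ℂ) :
    U k (fun x => c * f x) = ‖c‖ ^ 2 ^ (k + 1) * U k f := by
  induction k generalizing c f with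
  | zero => simp only [U, ← mul_finsum, norm_mul, mul_pow]; norm_num
  | succ k ih =>
    simp only [U]
    rw [mul_finsum]
    refine finsum_congr fun h => ?_
    have : dl h (fun x => c * f x) = fun x => (c * conj c) * dl h f x := by
      ext x; simp only [dl, map_mul]; ring
    rw [this, ih, norm_mul, Complex.norm_conj, ← sq, ← pow_mul, ← pow_succ']

/-- modulation by a unimodular character does not change the norms from `U^2` on -/
theorem U_mod (k : ℕ) (f χ : G → ℂ) (hχ : ∀ x y, χ (x + y) = χ x * χ y) (h1 : ∀ x, ‖χ x‖ = 1) :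
    U (k + 1) (fun x => f x * χ x) = U (k + 1) f := by
  simp only [U]
  refine finsum_congr fun h => ?_
  have : dl h (fun x => f x * χ x) = fun x => χ h * dl h f x := by
    ext x
    have : χ x * conj (χ x) = 1 := by rw [Complex.mul_conj, Complex.normSq_eq_norm_sq, h1]; simp
    simp only [dl, map_mul, hχ]
    linear_combination (f (x + h) * χ h * conj (f x)) * this
  rw [this, U_smul, h1, one_pow, one_mul]

/-! ### Double sums -/

theorem fs_mul_fs {f g : G → ℂ} (hf : HasFiniteSupport f) (hg : HasFiniteSupport g) :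
    ∑ᶠ h, ∑ᶠ x, f (x + h) * g x = (∑ᶠ x, f x) * ∑ᶠ x, g x := by
  obtain ⟨T, hT⟩ := ex_diff hf hg
  obtain ⟨S, hS⟩ := fin_ex hg
  rw [fs_comm (S := T) (T := S), mul_finsum]
  · refine finsum_congr fun x => ?_
    rw [← finsum_mul]
    simp only [add_comm x, fs_shift]
  · intro h x hx
    exact ⟨by simpa using hT _ _ (left_ne_zero_of_mul hx) (right_ne_zero_of_mul hx),
      hS x (right_ne_zero_of_mul hx)⟩

theorem fs_mul_fs_real {f g : G → ℝ} (hf : HasFiniteSupport f) (hg : HasFiniteSupport g) :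
    ∑ᶠ h, ∑ᶠ x, f (x + h) * g x = (∑ᶠ x, f x) * ∑ᶠ x, g x := by
  have := fs_mul_fs (f := fun x => (f x : ℂ)) (g := fun x => (g x : ℂ))
    (fin_mono hf fun x hx => by simpa using hx) (fin_mono hg fun x hx => by simpa using hx)
  apply Complex.ofReal_injective
  simp only [fs_ofReal, Complex.ofReal_mul]
  exact this

theorem U_zero_cx {f : G → ℂ} (hf : HasFiniteSupport f) :
    (U 0 f : ℂ) = ∑ᶠ h, ∑ᶠ x, dl h f x := by
  simp only [dl]
  rw [fs_mul_fs hf (fin_conj hf), ← fs_conj, Complex.mul_conj, Complex.normSq_eq_norm_sq, U]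

/-! ### The trivial bound -/

theorem U_le_l1 (k : ℕ) {f : G → ℂ} {S : Finset G} (hS : ∀ x, f x ≠ 0 → x ∈ S)
    (h1 : ∀ x, ‖f x‖ ≤ 1) : U k f ≤ (S.card : ℝ) ^ k * (∑ x ∈ S, ‖f x‖) ^ 2 := by
  induction k generalizing f with
  | zero =>
    rw [U_zero_eq hS, pow_zero, one_mul]
    exact pow_le_pow_left₀ (norm_nonneg _) (norm_sum_le _ _) _
  | succ k ih =>
    have hf := fin_of hS
    have hn : HasFiniteSupport fun x => ‖f x‖ := fin_mono hf fun x hx => by simpa using hx
    have hS' : ∀ x, ‖f x‖ ≠ 0 → x ∈ S := fun x hx => hS x (by simpa using hx)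
    have e := fs_mul_fs_real hn hn
    rw [fs_eq hS', ← sq] at e
    rw [U, ← e, mul_finsum]
    obtain ⟨T, hT⟩ := ex_diff hf hf
    refine fs_le (fin_of (S := T) fun h hh => ?_) (fun _ => U_nonneg _ _) fun h => ?_
    · have := right_ne_zero_of_mul hh
      rw [fs_eq (S := S) fun x hx => hS' x (right_ne_zero_of_mul hx)] at this
      obtain ⟨x, -, hx⟩ := exists_ne_zero_of_sum_ne_zero this
      simpa using hT (x + h) x (by simpa using left_ne_zero_of_mul hx)
        (by simpa using right_ne_zero_of_mul hx)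
    · refine (ih (fun x hx => hS x (dl_ne hx).2) (norm_dl_le h1 h)).trans ?_
      rw [fs_eq (S := S) fun x hx => hS' x (right_ne_zero_of_mul hx), pow_succ (S.card : ℝ),
        mul_assoc, sq]
      simp only [← norm_dl]
      refine mul_le_mul_of_nonneg_left (mul_le_mul_of_nonneg_right ?_
        (sum_nonneg fun _ _ => norm_nonneg _)) (by positivity)
      simpa using sum_le_card_nsmul S (fun x => ‖dl h f x‖) 1 fun x _ => norm_dl_le h1 h x

theorem U_le_card (k : ℕ) {f : G → ℂ} {S : Finset G} (hS : ∀ x, f x ≠ 0 → x ∈ S)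
    (h1 : ∀ x, ‖f x‖ ≤ 1) : U k f ≤ (S.card : ℝ) ^ (k + 2) := by
  refine (U_le_l1 k hS h1).trans ?_
  rw [pow_add]
  refine mul_le_mul_of_nonneg_left (pow_le_pow_left₀ (sum_nonneg fun _ _ => norm_nonneg _) ?_ _)
    (by positivity)
  simpa using sum_le_card_nsmul S (fun x => ‖f x‖) 1 fun x _ => h1 x

/-! ### Gowers–Cauchy–Schwarz, two functions -/

theorem gcs2 (k : ℕ) {f g : G → ℂ} (hf : HasFiniteSupport f) (hg : HasFiniteSupport g) :
    (∑ᶠ h, U k (fun x => f (x + h) * g x)) ^ 2 ≤ U (k + 1) f * U (k + 1) g := by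
  induction k generalizing f g with
  | zero =>
    obtain ⟨T, hT⟩ := ex_diff hf hg
    obtain ⟨Tg, hTg⟩ := ex_diff hg hg
    have e : ((∑ᶠ h, U 0 (fun x => f (x + h) * g x) : ℝ) : ℂ) =
        ∑ᶠ a, (∑ᶠ x, dl a f x) * ∑ᶠ x, dl a g x := by
      rw [fs_ofReal]
      have : ∀ h, ((U 0 (fun x => f (x + h) * g x) : ℝ) : ℂ) =
          ∑ᶠ a, ∑ᶠ x, dl a f (x + h) * dl a g x := by
        intro h
        rw [U_zero_cx (fin_mono hg fun x hx => right_ne_zero_of_mul hx)]
        refine finsum_congr fun a => finsum_congr fun x => ?_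
        simp only [dl, map_mul, add_right_comm x a h]
        ring
      simp only [this]
      rw [fs_comm (S := T) (T := Tg)]
      · exact finsum_congr fun a => fs_mul_fs (fin_dl hf a) (fin_dl hg a)
      · intro h a hx
        obtain ⟨x, hx⟩ : ∃ x, dl a f (x + h) * dl a g x ≠ 0 := by
          by_contra hc
          push Not at hc
          exact hx (by simp [hc])
        have h1 := dl_ne (left_ne_zero_of_mul hx)
        have h2 := dl_ne (right_ne_zero_of_mul hx)
        exact ⟨by simpa using hT _ _ h1.2 h2.2, by simpa using hTg _ _ h2.1 h2.2⟩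
    have hp : HasFiniteSupport fun a => (∑ᶠ x, dl a f x) * ∑ᶠ x, dl a g x := by
      refine fin_mono (fin_U_dl 0 hg) fun a ha => ?_
      simpa [U] using right_ne_zero_of_mul ha
    have h2 : ∑ᶠ h, U 0 (fun x => f (x + h) * g x) ≤
        ∑ᶠ a, ‖(∑ᶠ x, dl a f x) * ∑ᶠ x, dl a g x‖ := by
      refine le_trans ?_ (norm_fs_le hp)
      rw [← e, Complex.norm_real]
      exact le_abs_self _
    refine (pow_le_pow_left₀ (finsum_nonneg fun _ => U_nonneg _ _) h2 2).trans ?_
    refine fs_cs (fin_U_dl 0 hf) (fin_U_dl 0 hg) (fun _ => U_nonneg _ _) (fun _ => U_nonneg _ _)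
      fun a => le_of_eq ?_
    simp only [U, norm_mul, mul_pow]
  | succ k ih =>
    obtain ⟨T, hT⟩ := ex_diff hf hg
    obtain ⟨Tg, hTg⟩ := ex_diff hg hg
    have e : ∑ᶠ h, U (k + 1) (fun x => f (x + h) * g x) =
        ∑ᶠ a, ∑ᶠ h, U k (fun x => dl a f (x + h) * dl a g x) := by
      rw [← fs_comm (S := T) (T := Tg)]
      · refine finsum_congr fun h => ?_
        rw [U]
        refine finsum_congr fun a => ?_
        congr 1
        ext x
        simp only [dl, map_mul, add_right_comm x a h]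
        ring
      · intro h a hx
        obtain ⟨x, hx⟩ := U_ne hx
        have h1 := dl_ne (left_ne_zero_of_mul hx)
        have h2 := dl_ne (right_ne_zero_of_mul hx)
        exact ⟨by simpa using hT _ _ h1.2 h2.2, by simpa using hTg _ _ h2.1 h2.2⟩
    rw [e]
    exact fs_cs (fin_U_dl _ hf) (fin_U_dl _ hg) (fun _ => U_nonneg _ _) (fun _ => U_nonneg _ _)
      fun a => ih (fin_dl hf a) (fin_dl hg a)

/-- finite form: any finite set of shifts -/
theorem gcs2_sum (k : ℕ) {f g : G → ℂ} (hf : HasFiniteSupport f) (hg : HasFiniteSupport g)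
    (T : Finset G) :
    (∑ h ∈ T, U k (fun x => f (x + h) * g x)) ^ 2 ≤ U (k + 1) f * U (k + 1) g :=
  (pow_le_pow_left₀ (sum_nonneg fun _ _ => U_nonneg _ _)
    (sum_le_fs (fin_U_pair k hf hg) (fun _ => U_nonneg _ _) T) 2).trans (gcs2 k hf hg)

/-- monotonicity in the degree: `J` contains all `x - h` with `x` in the support and `h ∈ T` -/
theorem U_mono (k : ℕ) {f : G → ℂ} (hf : HasFiniteSupport f) {T J : Finset G}
    (hJ : ∀ x, f x ≠ 0 → ∀ h ∈ T, x - h ∈ J) :
    ((T.card : ℝ) * U k f) ^ 2 ≤ U (k + 1) f * (J.card : ℝ) ^ (k + 3) := by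
  classical
  have hs : ∀ x, (if x ∈ J then (1 : ℂ) else 0) ≠ 0 → x ∈ J := fun x hx => by
    by_contra hc; simp [hc] at hx
  have h1 := gcs2_sum k hf (fin_of hs) T
  have h2 : ∑ h ∈ T, U k (fun x => f (x + h) * if x ∈ J then (1 : ℂ) else 0) =
      (T.card : ℝ) * U k f := by
    rw [← nsmul_eq_mul, ← sum_const]
    refine sum_congr rfl fun h hh => ?_
    rw [← U_shift k f h]
    congr 1
    ext x
    by_cases h0 : f (x + h) = 0
    · simp [h0]
    · have : x ∈ J := by simpa using hJ _ h0 h hh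
      simp [this]
  rw [h2] at h1
  refine h1.trans (mul_le_mul_of_nonneg_left (U_le_card (k + 1) hs fun x => ?_) (U_nonneg _ _))
  split_ifs <;> simp

end Pool.Agent.P.MP_a14ce1_nt.Nil
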