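import Pool.Agent.P.MP_a14ce1_nt.Nil.Gr

/-!
Rational homomorphisms of families, induced group homomorphisms, lifts, ideals and Goursat.
-/

open Finset MvPolynomial

set_option linter.unusedSectionVars false

noncomputable section

namespace Pool.Agent.P.MP_a14ce1_nt.Nil

section lie

variable {ι ι' : Type} [Fintype ι] [DecidableEq ι] [Fintype ι'] [DecidableEq ι'] {lv : ι → ℕ}
  {lv' : ι' → ℕ} {R R' : Type} [CommRing R] [Algebra ℚ R] [CommRing R'] [Algebra ℚ R']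

theorem Filt.prod {A B : Type*} [Ring A] [Algebra ℚ A] [Ring B] [Algebra ℚ B]
    {F : ℕ → Submodule ℚ A} {G : ℕ → Submodule ℚ B} (hF : Filt F) (hG : Filt G) :
    Filt fun i => (F i).prod (G i) where
  anti i _ h := ⟨hF.anti i h.1, hG.anti i h.2⟩
  mul i j a ha b hb := ⟨hF.mul i j _ ha.1 _ hb.1, hG.mul i j _ ha.2 _ hb.2⟩
  fin := by
    obtain ⟨d, hd⟩ := hF.fin
    obtain ⟨e, he⟩ := hG.fin
    refine ⟨max d e, eq_bot_iff.2 fun x hx => ?_⟩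
    have h1 := hF.le (le_max_left d e) hx.1
    have h2 := hG.le (le_max_right d e) hx.2
    rw [hd] at h1
    rw [he] at h2
    exact Prod.ext h1 h2

/-- The Campbell-Hausdorff product commutes with homomorphisms of Lie algebras. -/
theorem lg_mul_hom (𝔏 : Lie lv R) (ℓ : Matrix ι ι R →ₗ[ℚ] Matrix ι' ι' R')
    (up : ∀ a ∈ 𝔏.L, ℓ a ∈ mF R' lv' 1)
    (br : ∀ a ∈ 𝔏.L, ∀ b ∈ 𝔏.L, ℓ (a * b - b * a) = ℓ a * ℓ b - ℓ b * ℓ a)
    {x y : UT lv R} (hx : x ∈ 𝔏.grp) (hy : y ∈ 𝔏.grp) :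
    ℓ (lg (x * y)) = lg (ex lv' (ℓ (lg x)) * ex lv' (ℓ (lg y))) := by
  have hF := (filt_mF R lv).prod (filt_mF R' lv')
  let L : Submodule ℚ (Matrix ι ι R × Matrix ι' ι' R') :=
    𝔏.L.comap (LinearMap.fst ℚ _ _) ⊓ ℓ.graph
  have mem : ∀ p : Matrix ι ι R × Matrix ι' ι' R', p ∈ L ↔ p.1 ∈ 𝔏.L ∧ p.2 = ℓ p.1 :=
    fun p => Iff.rfl
  have hL : L ≤ (mF R lv 1).prod (mF R' lv' 1) := fun p hp =>
    ⟨𝔏.up ((mem p).1 hp).1, by rw [SetLike.mem_coe, ((mem p).1 hp).2]; exact up _ ((mem p).1 hp).1⟩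
  have h1 : (lg x, ℓ (lg x)) ∈ L := (mem _).2 ⟨hx, rfl⟩
  have h2 : (lg y, ℓ (lg y)) ∈ L := (mem _).2 ⟨hy, rfl⟩
  have key := bch_mem hF hL (fun a ha b hb => (mem _).2 ⟨𝔏.br _ ((mem a).1 ha).1 _ ((mem b).1 hb).1,
    by
      change a.2 * b.2 - b.2 * a.2 = ℓ (a.1 * b.1 - b.1 * a.1)
      rw [br _ ((mem a).1 ha).1 _ ((mem b).1 hb).1, ((mem a).1 ha).2, ((mem b).1 hb).2]⟩) h1 h2
  have n1 := hF.nil (hL h1)
  have n2 := hF.nil (hL h2)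
  have n3 := hF.nil (hF.mul_sub_one_mem (hF.exp_sub_one_mem (hL h1)) (hF.exp_sub_one_mem (hL h2)))
  have e1 := map_log n3 (RingHom.fst _ _)
  have e2 := map_log n3 (RingHom.snd _ _)
  rw [map_mul, IsNilpotent.map_exp n1, IsNilpotent.map_exp n2] at e1 e2
  have e3 := ((mem _).1 key).2
  rw [lg_mul, lg_mul, lg_ex (up _ hx), lg_ex (up _ hy)]
  exact (congrArg ℓ e1).symm.trans (e3.symm.trans e2)

/-- The group homomorphism induced by a homomorphism of Lie algebras. -/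
def Lie.hom (𝔏 : Lie lv R) (ℓ : Matrix ι ι R →ₗ[ℚ] Matrix ι' ι' R')
    (up : ∀ a ∈ 𝔏.L, ℓ a ∈ mF R' lv' 1)
    (br : ∀ a ∈ 𝔏.L, ∀ b ∈ 𝔏.L, ℓ (a * b - b * a) = ℓ a * ℓ b - ℓ b * ℓ a) :
    𝔏.grp →* UT lv' R' where
  toFun x := ex lv' (ℓ (lg x.1))
  map_one' := by simp
  map_mul' x y := by
    rw [Subgroup.coe_mul, lg_mul_hom 𝔏 ℓ up br x.2 y.2, ex_lg]

theorem Lie.lg_hom (𝔏 : Lie lv R) (ℓ : Matrix ι ι R →ₗ[ℚ] Matrix ι' ι' R')
    (up : ∀ a ∈ 𝔏.L, ℓ a ∈ mF R' lv' 1)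
    (br : ∀ a ∈ 𝔏.L, ∀ b ∈ 𝔏.L, ℓ (a * b - b * a) = ℓ a * ℓ b - ℓ b * ℓ a) (x : 𝔏.grp) :
    lg (𝔏.hom ℓ up br x) = ℓ (lg x.1) := lg_ex (up _ x.2)

end lie

variable {FF : Type} [Field FF] [CharZero FF] {ι ι' ι'' : Type} [Fintype ι] [DecidableEq ι]
  [Fintype ι'] [DecidableEq ι'] [Fintype ι''] [DecidableEq ι''] {K : Subfield FF} {lv : ι → ℕ}
  {lv' : ι' → ℕ} {lv'' : ι'' → ℕ} {σ : Type} {I I' : Type} [AddCommMonoid I] [AddCommMonoid I']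

/-- A rational homomorphism defined on the family `g` (the map may depend on the index). -/
structure Hom (g : Fam K lv I) (lv' : ι' → ℕ) where
  l : I → Matrix ι ι FF →ₗ[FF] Matrix ι' ι' FF
  rat : ∀ i, RatM K (l i)
  up : ∀ i, ∀ X ∈ g.r i, l i X ∈ mF FF lv' 1
  br : ∀ i j, ∀ X ∈ g.r i, ∀ Y ∈ g.r j,
    l (i + j) (X * Y - Y * X) = l i X * l j Y - l j Y * l i X

theorem Fam.inf_le_l (g h : Fam K lv I) : g.inf h ≤ g := fun _ => _root_.inf_le_left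
theorem Fam.inf_le_r (g h : Fam K lv I) : g.inf h ≤ h := fun _ => _root_.inf_le_right
theorem Fam.le_inf {g h k : Fam K lv I} (a : k ≤ g) (b : k ≤ h) : k ≤ g.inf h :=
  fun i => _root_.le_inf (a i) (b i)

/-- The zero family. -/
def Fam.bot (K : Subfield FF) (lv : ι → ℕ) (I : Type) [AddCommMonoid I] : Fam K lv I where
  r _ := ⊥
  up _ X hX := by rw [Submodule.mem_bot] at hX; rw [hX]; exact zero_mem _
  rat _ := IsRat.bot
  br _ _ X hX Y _ := by rw [Submodule.mem_bot] at hX; simp [hX]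

theorem Fam.bot_PG : (Fam.bot K lv (σ →₀ ℕ)).PG = ⊥ :=
  Subgroup.ext fun x => (desc_bot x).symm

/-- No condition on the coefficients. -/
def Sc.top (K : Subfield FF) (σ : Type) : Sc K σ where
  s _ := ⊤
  mul _ _ _ _ _ _ := trivial

theorem Sc.mem_top (x : PS lv σ FF) : x ∈ (Sc.top K σ).EE lv := Sc.mem_EE.2 fun _ _ _ => trivial

namespace Hom

variable {g : Fam K lv I}

/-- Restriction to a smaller family. -/
def res (π : Hom g lv') {h : Fam K lv I} (hh : h ≤ g) : Hom h lv' where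
  l := π.l
  rat := π.rat
  up i X hX := π.up i X (hh i hX)
  br i j X hX Y hY := π.br i j X (hh i hX) Y (hh j hY)

/-- Change of the index monoid. -/
def comap (π : Hom g lv') (φ : I' →+ I) : Hom (g.comap φ) lv' where
  l i := π.l (φ i)
  rat i := π.rat (φ i)
  up i := π.up (φ i)
  br i j X hX Y hY := by rw [map_add]; exact π.br _ _ X hX Y hY

/-- The image of `g ⊓ h`. -/
def img (π : Hom g lv') (h : Fam K lv I) : Fam K lv' I where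
  r i := (g.r i ⊓ h.r i).map (π.l i)
  up i := by rintro _ ⟨X, hX, rfl⟩; exact π.up i X hX.1
  rat i := ((g.rat i).inf (h.rat i)).map (π.rat i)
  br i j := by
    rintro _ ⟨X, hX, rfl⟩ _ ⟨Y, hY, rfl⟩
    exact ⟨_, ⟨g.br i j X hX.1 Y hY.1, h.br i j X hX.2 Y hY.2⟩, π.br i j X hX.1 Y hY.1⟩

theorem mem_img {π : Hom g lv'} {h : Fam K lv I} {i : I} {Y : Matrix ι' ι' FF} :
    Y ∈ (π.img h).r i ↔ ∃ X, X ∈ g.r i ∧ X ∈ h.r i ∧ π.l i X = Y :=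
  ⟨fun ⟨X, a, b⟩ => ⟨X, a.1, a.2, b⟩, fun ⟨X, a, b, c⟩ => ⟨X, ⟨a, b⟩, c⟩⟩

theorem img_mono (π : Hom g lv') {h h' : Fam K lv I} (hh : h ≤ h') : π.img h ≤ π.img h' :=
  fun i => Submodule.map_mono (inf_le_inf_left _ (hh i))

theorem img_le (π : Hom g lv') (h : Fam K lv I) : π.img h ≤ π.img g :=
  fun _ => Submodule.map_mono (le_inf inf_le_left inf_le_left)

/-- The preimage inside `g`. -/
def pull (π : Hom g lv') (k : Fam K lv' I) : Fam K lv I where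
  r i := g.r i ⊓ (k.r i).comap (π.l i)
  up i X hX := g.up i X hX.1
  rat i := (g.rat i).inf ((k.rat i).comap (π.rat i))
  br i j X hX Y hY := ⟨g.br i j X hX.1 Y hY.1, by
    change π.l (i + j) _ ∈ k.r (i + j)
    rw [π.br i j X hX.1 Y hY.1]
    exact k.br i j _ hX.2 _ hY.2⟩

theorem mem_pull {π : Hom g lv'} {k : Fam K lv' I} {i : I} {X : Matrix ι ι FF} :
    X ∈ (π.pull k).r i ↔ X ∈ g.r i ∧ π.l i X ∈ k.r i := Iff.rfl

theorem pull_le (π : Hom g lv') (k : Fam K lv' I) : π.pull k ≤ g := fun _ => inf_le_left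

/-- The kernel. -/
def ker (π : Hom g lv') : Fam K lv I := π.pull (Fam.bot K lv' I)

theorem mem_ker {π : Hom g lv'} {i : I} {X : Matrix ι ι FF} :
    X ∈ π.ker.r i ↔ X ∈ g.r i ∧ π.l i X = 0 := Iff.rfl

/-- Composition. -/
def comp (π : Hom g lv') {g' : Fam K lv' I} (ρ : Hom g' lv'') (h : π.img g ≤ g') :
    Hom g lv'' where
  l i := ρ.l i ∘ₗ π.l i
  rat i := (ρ.rat i).comp (π.rat i)
  up i X hX := ρ.up i _ (h i ⟨X, ⟨hX, hX⟩, rfl⟩)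
  br i j X hX Y hY := by
    simp only [LinearMap.comp_apply]
    rw [π.br i j X hX Y hY, ρ.br i j _ (h i ⟨X, ⟨hX, hX⟩, rfl⟩) _ (h j ⟨Y, ⟨hY, hY⟩, rfl⟩)]

/-- The homomorphism in degree zero. -/
def G0 (π : Hom g lv') : g.GG →* UT lv' FF :=
  g.lie0.hom ((π.l 0).restrictScalars ℚ) (π.up 0) fun a ha b hb => by
    have := π.br 0 0 a ha b hb
    rwa [add_zero] at this

theorem lg_G0 (π : Hom g lv') (x : g.GG) : lg (π.G0 x) = π.l 0 (lg x.1) := Lie.lg_hom _ _ _ _ x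

end Hom

/-- Coefficientwise application of linear maps. -/
def lp (l : (σ →₀ ℕ) → Matrix ι ι FF →ₗ[FF] Matrix ι' ι' FF)
    (X : Matrix ι ι (MvPolynomial σ FF)) : Matrix ι' ι' (MvPolynomial σ FF) :=
  (exists_co (fun β => l β (co β X))
    ((co_finite X).subset fun β hβ h => hβ (by rw [h, map_zero]))).choose

theorem co_lp (l : (σ →₀ ℕ) → Matrix ι ι FF →ₗ[FF] Matrix ι' ι' FF)
    (X : Matrix ι ι (MvPolynomial σ FF)) (β : σ →₀ ℕ) : co β (lp l X) = l β (co β X) :=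
  (exists_co (fun β => l β (co β X))
    ((co_finite X).subset fun β hβ h => hβ (by rw [h, map_zero]))).choose_spec β

/-- The same as a linear map. -/
def lpL (l : (σ →₀ ℕ) → Matrix ι ι FF →ₗ[FF] Matrix ι' ι' FF) :
    Matrix ι ι (MvPolynomial σ FF) →ₗ[ℚ] Matrix ι' ι' (MvPolynomial σ FF) where
  toFun := lp l
  map_add' X Y := ext_co fun β => by rw [co_add, co_lp, co_lp, co_lp, co_add, map_add]
  map_smul' c X := ext_co fun β => by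
    rw [RingHom.id_apply, co_qsmul, co_lp, co_lp, co_qsmul, LinearMap.map_smul_of_tower]

namespace Hom

variable {g h : Fam K lv (σ →₀ ℕ)} {S T : Sc K σ}

/-- The induced homomorphism of groups of polynomial sequences. -/
def G (π : Hom g lv') : g.PG →* PS lv' σ FF :=
  g.lie.hom (lpL π.l)
    (fun a ha => up_iff_co.2 fun β => by
      change co β (lp π.l a) ∈ _
      rw [co_lp]; exact π.up β _ (ha β))
    (fun a ha b hb => ext_co fun β => by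
      classical
      change co β (lp π.l _) = co β (lp π.l a * lp π.l b - lp π.l b * lp π.l a)
      rw [co_lp, co_br, co_br, map_sum]
      refine sum_congr rfl fun p hp => ?_
      rw [co_lp, co_lp, ← mem_antidiagonal.1 hp]
      exact π.br _ _ _ (ha _) _ (hb _))

theorem co_lg_G (π : Hom g lv') (x : g.PG) (β : σ →₀ ℕ) :
    co β (lg (π.G x)) = π.l β (co β (lg x.1)) :=
  (congrArg (co β) (Lie.lg_hom _ _ _ _ x)).trans (co_lp _ _ _)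

theorem G_eq_iff (π : Hom g lv') (x : g.PG) (y : PS lv' σ FF) :
    π.G x = y ↔ ∀ β, π.l β (co β (lg x.1)) = co β (lg y) :=
  ⟨fun e β => by rw [← e, co_lg_G], fun e => lg_inj (ext_co fun β => by rw [co_lg_G, e])⟩

theorem G_mem_iff (π : Hom g lv') (x : g.PG) (k : Fam K lv' (σ →₀ ℕ)) :
    π.G x ∈ k.PG ↔ x.1 ∈ (π.pull k).PG :=
  ⟨fun a β => ⟨x.2 β, by have := a β; rwa [co_lg_G] at this⟩,
    fun a β => by rw [co_lg_G]; exact (a β).2⟩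

theorem G_eq_one_iff (π : Hom g lv') (x : g.PG) : π.G x = 1 ↔ x.1 ∈ π.ker.PG := by
  rw [ker, ← G_mem_iff, Fam.bot_PG, Subgroup.mem_bot]

theorem G_mem_img (π : Hom g lv') (x : g.PG) (hx : x.1 ∈ h.PG) : π.G x ∈ (π.img h).PG :=
  fun β => by rw [co_lg_G]; exact ⟨_, ⟨x.2 β, hx β⟩, rfl⟩

theorem G_mem_EE (π : Hom g lv') (x : g.PG) (hx : x.1 ∈ S.EE lv) : π.G x ∈ S.EE lv' :=
  Sc.mem_EE.2 fun β => by rw [co_lg_G]; exact (π.rat β).ent (Sc.mem_EE.1 hx β)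

theorem G_res (π : Hom g lv') (hh : h ≤ g) (x : h.PG) :
    (π.res hh).G x = π.G ⟨x.1, Fam.PG_mono hh x.2⟩ :=
  ((π.res hh).G_eq_iff _ _).2 fun β => (π.co_lg_G ⟨x.1, Fam.PG_mono hh x.2⟩ β).symm

/-- LIFT -/
theorem lift (π : Hom g lv') (S : Sc K σ) {y : PS lv' σ FF} (hy : y ∈ (π.img h).PG)
    (hS : y ∈ S.EE lv') : ∃ x : g.PG, x.1 ∈ h.PG ∧ x.1 ∈ S.EE lv ∧ π.G x = y := by
  obtain ⟨X, hX⟩ := exists_co' (lg y) (fun β X => X ∈ g.r β ⊓ h.r β ∧ Ent (S.s β : Set FF) X ∧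
    π.l β X = co β (lg y)) (fun β h0 => ⟨zero_mem _, Ent.zero _, by rw [h0, map_zero]⟩)
    fun β => ((g.rat β).inf (h.rat β)).lift (π.rat β) (hy β) (Sc.mem_EE.1 hS β)
  have h1 : X ∈ g.lie.L := fun β => (hX β).1.1
  have e := lg_ex (g.lie.up h1)
  refine ⟨⟨ex lv X, ex_mem_grp h1⟩, fun β => ?_, Sc.mem_EE.2 fun β => ?_,
    (π.G_eq_iff _ _).2 fun β => ?_⟩
  · change co β (lg (ex lv X)) ∈ _
    rw [e]; exact (hX β).1.2
  · change Ent _ (co β (lg (ex lv X)))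
    rw [e]; exact (hX β).2.1
  · change π.l β (co β (lg (ex lv X))) = _
    rw [e]; exact (hX β).2.2

theorem lift' (π : Hom g lv') {y : PS lv' σ FF} (hy : y ∈ (π.img h).PG) :
    ∃ x : g.PG, x.1 ∈ h.PG ∧ π.G x = y := by
  obtain ⟨x, a, -, b⟩ := π.lift (Sc.top K σ) hy (Sc.mem_top y)
  exact ⟨x, a, b⟩

theorem img_zero (π : Hom g lv') (g0 : g.r 0 = ⊥) (h : Fam K lv (σ →₀ ℕ)) :
    (π.img h).r 0 = ⊥ := by
  change (g.r 0 ⊓ h.r 0).map _ = ⊥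
  rw [g0, bot_inf_eq, Submodule.map_bot]

/-- Factorisations can be pushed forward. -/
theorem fac_img (π : Hom g lv') (x : g.PG) (a : Fac S T g h x.1) :
    Fac S T (π.img g) (π.img h) (π.G x) := by
  obtain ⟨e, he, y, hy, c, hc, e1⟩ := a
  refine ⟨π.G ⟨e, he.1⟩, ⟨π.G_mem_img _ he.1, π.G_mem_EE _ he.2⟩, π.G ⟨y, hy.1⟩,
    ⟨π.G_mem_img _ hy.1, π.G_mem_img _ hy.2⟩, π.G ⟨c, hc.1⟩,
    ⟨π.G_mem_img _ hc.1, π.G_mem_EE _ hc.2⟩, ?_⟩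
  rw [← map_mul, ← map_mul]
  exact congrArg π.G (Subtype.ext e1)

/-- Factorisations can be pulled back. -/
theorem fac_pull (π : Hom g lv') (hST : Sep S T) {g' k : Fam K lv' (σ →₀ ℕ)} (g0 : g'.r 0 = ⊥)
    (x : g.PG) (a : Fac S T g' k (π.G x)) : Fac S T g (π.pull k) x.1 := by
  obtain ⟨e, he, y, hy, c, hc, e1⟩ := a.shrink hST g0 (π.G_mem_img x x.2)
  obtain ⟨e', -, h1, h2⟩ := π.lift S he.1 he.2
  obtain ⟨c', -, h3, h4⟩ := π.lift T hc.1 hc.2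
  refine ⟨e'.1, ⟨e'.2, h1⟩, (e'⁻¹ * x * c'⁻¹).1, ⟨(e'⁻¹ * x * c'⁻¹).2, (π.G_mem_iff _ k).1 ?_⟩,
    c'.1, ⟨c'.2, h3⟩, by simp [mul_assoc]⟩
  rw [map_mul, map_mul, map_inv, map_inv, h2, h4, e1]
  simpa [mul_assoc] using hy.2

/-- GOURSAT inside the common group. -/
theorem goursat_in (π : Hom g lv') (hST : Sep S T) (g0 : g.r 0 = ⊥) {z z' : g.PG}
    (a : Fac S T g h z.1) (a' : Fac S T g h z'.1) (e : π.G z = π.G z') :
    ∃ ε γ γ₀ ν : g.PG, ε.1 ∈ S.EE lv ∧ π.G ε = 1 ∧ γ.1 ∈ T.EE lv ∧ π.G γ = 1 ∧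
      γ₀.1 ∈ T.EE lv ∧ ν.1 ∈ h.PG ∧ π.G ν = 1 ∧ z' = ε * z * (γ₀⁻¹ * ν * γ₀) * γ := by
  have dc : ∀ w : g.PG, Fac S T g h w.1 → DC ((S.EE lv).subgroupOf g.PG) (h.PG.subgroupOf g.PG)
      ((T.EE lv).subgroupOf g.PG) w := by
    rintro w ⟨e, he, y, hy, c, hc, e1⟩
    exact ⟨⟨e, he.1⟩, he.2, ⟨y, hy.1⟩, hy.2, ⟨c, hc.1⟩, hc.2, Subtype.ext e1⟩
  obtain ⟨ε, hε, γ, hγ, γ₀, hγ₀, ν, hν, e1⟩ := grp_goursat π.G
    (E₁ := (π.img g).PG ⊓ S.EE lv') (L₁ := (π.img g).PG ⊓ T.EE lv') (H₁ := (π.img h).PG)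
    (fun x hx => ⟨π.G_mem_img x x.2, π.G_mem_EE x hx⟩)
    (fun x hx => ⟨π.G_mem_img x x.2, π.G_mem_EE x hx⟩) (fun x hx => π.G_mem_img x hx)
    (fun p hp p' hp' ε hε γ hγ e => sub_PG hST (π.img_zero g0 g)
      ⟨Fam.PG_mono (π.img_le h) hp, hp⟩ ⟨Fam.PG_mono (π.img_le h) hp', hp'⟩ hε hγ e)
    (fun y hy => by
      obtain ⟨x, h1, h2, h3⟩ := π.lift S hy.2 hy.1.2
      exact ⟨x, ⟨h2, h1⟩, h3⟩)
    (fun y hy => by
      obtain ⟨x, h1, h2, h3⟩ := π.lift T hy.2 hy.1.2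
      exact ⟨x, ⟨h2, h1⟩, h3⟩) (dc z a) (dc z' a') e
  exact ⟨ε, γ, γ₀, ν, hε.1, hε.2, hγ.1, hγ.2, hγ₀, hν.1, hν.2, e1⟩

/-- GOURSAT for two homomorphisms. -/
theorem goursat (π : Hom g lv') (ρ : Hom g lv'') (hST : Sep S T) (g0 : g.r 0 = ⊥)
    (onto : ρ.img g ≤ ρ.img h) {z z' : g.PG} (a : Fac S T g h z.1) (a' : Fac S T g h z'.1)
    (e : π.G z = π.G z') :
    ∃ ε ∈ (ρ.img g).PG ⊓ S.EE lv'', ∃ ν ∈ (ρ.img (h.inf π.ker)).PG,
      ∃ γ ∈ (ρ.img g).PG ⊓ T.EE lv'', ρ.G z' = ε * ρ.G z * ν * γ := by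
  obtain ⟨ε, γ, γ₀, ν, h1, -, h2, -, -, h3, h4, e1⟩ := π.goursat_in hST g0 a a' e
  obtain ⟨w, hw, ew⟩ := ρ.lift' (Fam.PG_mono onto (ρ.G_mem_img γ₀ γ₀.2))
  refine ⟨ρ.G ε, ⟨ρ.G_mem_img ε ε.2, ρ.G_mem_EE ε h1⟩, ρ.G (w⁻¹ * ν * w), ρ.G_mem_img _ ?_,
    ρ.G γ, ⟨ρ.G_mem_img γ γ.2, ρ.G_mem_EE γ h2⟩, ?_⟩
  · rw [Fam.PG_inf]
    refine ⟨h.PG.mul_mem (h.PG.mul_mem (h.PG.inv_mem hw) h3) hw, (π.G_eq_one_iff _).1 ?_⟩
    rw [map_mul, map_mul, h4, mul_one, map_inv, inv_mul_cancel]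
  · rw [e1]
    simp only [map_mul, map_inv, ew]

end Hom

/-! ### ideal families -/

/-- `n` is an ideal family of `g`. -/
structure Fam.Ide (g n : Fam K lv I) : Prop where
  le : n ≤ g
  br : ∀ i j, ∀ X ∈ g.r i, ∀ Y ∈ n.r j, X * Y - Y * X ∈ n.r (i + j)

theorem Fam.Ide.comap {g n : Fam K lv I} (a : g.Ide n) (φ : I' →+ I) :
    (g.comap φ).Ide (n.comap φ) where
  le i := a.le (φ i)
  br i j X hX Y hY := by
    change _ ∈ n.r (φ (i + j))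
    rw [map_add]; exact a.br _ _ X hX Y hY

theorem Fam.Ide.inf {g n n' : Fam K lv I} (a : g.Ide n) (b : g.Ide n') : g.Ide (n.inf n') where
  le := (n.inf_le_l n').trans a.le
  br i j X hX Y hY := ⟨a.br i j X hX Y hY.1, b.br i j X hX Y hY.2⟩

theorem Fam.Ide.restrict {g h n : Fam K lv I} (a : g.Ide n) (hh : h ≤ g) : h.Ide (h.inf n) where
  le := h.inf_le_l n
  br i j X hX Y hY := ⟨h.br i j X hX Y hY.1, a.br i j X (hh i hX) Y hY.2⟩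

theorem Hom.ker_ide {g : Fam K lv I} (π : Hom g lv') : g.Ide π.ker where
  le := π.pull_le _
  br i j X hX Y hY := Hom.mem_ker.2 ⟨g.br i j X hX Y hY.1, by
    rw [π.br i j X hX Y hY.1, (Hom.mem_ker.1 hY).2]; simp⟩

/-- The Goursat family is an ideal family. -/
theorem Hom.img_ide {g h n : Fam K lv I} (ρ : Hom g lv') (a : g.Ide n)
    (onto : ρ.img g ≤ ρ.img h) : (ρ.img g).Ide (ρ.img (h.inf n)) where
  le := ρ.img_le _
  br i j X hX := by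
    obtain ⟨X', h1, rfl⟩ := onto i hX
    rintro _ ⟨Y, hY, rfl⟩
    exact ⟨_, ⟨g.br i j _ h1.1 _ hY.1, h.br i j _ h1.2 _ hY.2.1, a.br i j _ h1.1 _ hY.2.2⟩,
      ρ.br i j _ h1.1 _ hY.1⟩

/-- The sum of a subfamily and an ideal family. -/
def Fam.Ide.add {g n : Fam K lv I} (a : g.Ide n) (h : Fam K lv I) : Fam K lv I where
  r i := (g.r i ⊓ h.r i) ⊔ n.r i
  up i X hX := g.up i X ((sup_le _root_.inf_le_left (a.le i) : _ ≤ g.r i) hX)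
  rat i := ((g.rat i).inf (h.rat i)).sup (n.rat i)
  br i j X hX Y hY := by
    obtain ⟨X1, h1, X2, h2, rfl⟩ := Submodule.mem_sup.1 hX
    obtain ⟨Y1, h3, Y2, h4, rfl⟩ := Submodule.mem_sup.1 hY
    have e : (X1 + X2) * (Y1 + Y2) - (Y1 + Y2) * (X1 + X2) = (X1 * Y1 - Y1 * X1) +
        (((X1 + X2) * Y2 - Y2 * (X1 + X2)) - (Y1 * X2 - X2 * Y1)) := by noncomm_ring
    rw [e]
    refine Submodule.add_mem_sup ⟨g.br i j _ h1.1 _ h3.1, h.br i j _ h1.2 _ h3.2⟩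
      (sub_mem (a.br i j _ (add_mem h1.1 (a.le i h2)) _ h4) ?_)
    rw [add_comm i j]
    exact a.br j i _ h3.1 _ h2

theorem Fam.Ide.add_r {g n : Fam K lv I} (a : g.Ide n) (h : Fam K lv I) (i : I) :
    (a.add h).r i = (g.r i ⊓ h.r i) ⊔ n.r i := rfl

theorem Fam.Ide.add_le {g n : Fam K lv I} (a : g.Ide n) (h : Fam K lv I) : a.add h ≤ g :=
  fun i => sup_le _root_.inf_le_left (a.le i)

theorem Fam.Ide.le_add {g n : Fam K lv I} (a : g.Ide n) (h : Fam K lv I) : n ≤ a.add h :=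
  fun _ => le_sup_right

theorem Fam.Ide.inf_le_add {g n : Fam K lv I} (a : g.Ide n) (h : Fam K lv I) :
    g.inf h ≤ a.add h := fun _ => le_sup_left

section ide

variable {g n h : Fam K lv (σ →₀ ℕ)}

theorem Fam.Ide.pm_br (a : g.Ide n) : ∀ X ∈ g.lie.L, ∀ Y ∈ pm n.r, X * Y - Y * X ∈ pm n.r := by
  classical
  intro X hX Y hY β
  rw [co_br]
  refine Submodule.sum_mem _ fun p hp => ?_
  rw [← mem_antidiagonal.1 hp]
  exact a.br _ _ _ (hX _) _ (hY _)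

theorem Fam.Ide.pm_le (a : g.Ide n) : pm n.r ≤ g.lie.L := fun _ hX β => a.le β (hX β)

theorem Fam.Ide.conj (a : g.Ide n) {x z : PS lv σ FF} (hx : x ∈ g.PG) (hz : z ∈ n.PG) :
    x * z * x⁻¹ ∈ n.PG := by
  change lg (x * z * x⁻¹) ∈ pm n.r
  rw [lg_conj']
  exact conj_mem (up_nil (lg_mem x)) (fun u hu => a.pm_br _ hx u hu) hz

theorem Fam.Ide.conj' (a : g.Ide n) {x z : PS lv σ FF} (hx : x ∈ g.PG) (hz : z ∈ n.PG) :
    x⁻¹ * z * x ∈ n.PG := by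
  simpa using a.conj (inv_mem hx) hz

theorem Fam.Ide.inv_mul_iff (a : g.Ide n) {x y : PS lv σ FF} (hx : x ∈ g.PG) (hy : y ∈ g.PG) :
    x⁻¹ * y ∈ n.PG ↔ ∀ β, co β (lg y) - co β (lg x) ∈ n.r β := by
  refine (lg_inv_mul_mem_iff a.pm_le a.pm_br hx hy).trans ?_
  rw [mem_pm]
  simp only [co_sub]

theorem Fam.Ide.split (a : g.Ide n) (S : Sc K σ) {x : PS lv σ FF} (hx : x ∈ (a.add h).PG)
    (hS : x ∈ S.EE lv) : ∃ y ∈ g.PG ⊓ h.PG ⊓ S.EE lv, ∃ z ∈ n.PG ⊓ S.EE lv, x = y * z := by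
  obtain ⟨Y, hY⟩ := exists_co' (lg x) (fun β Y => Y ∈ g.r β ⊓ h.r β ∧ Ent (S.s β : Set FF) Y ∧
    co β (lg x) - Y ∈ n.r β) (fun β h0 => ⟨zero_mem _, Ent.zero _, by simp [h0]⟩) fun β => by
      obtain ⟨v, hv, w, hw, h1, -, e⟩ := ((g.rat β).inf (h.rat β)).split_sup (n.rat β) (hx β)
        (Sc.mem_EE.1 hS β)
      exact ⟨v, hv, h1, by rw [← e, add_sub_cancel_left]; exact hw⟩
  have h1 : Y ∈ g.lie.L := fun β => (hY β).1.1
  have e := lg_ex (g.lie.up h1)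
  have h2 : ex lv Y ∈ S.EE lv := Sc.mem_EE.2 fun β => by rw [e]; exact (hY β).2.1
  refine ⟨ex lv Y, ⟨⟨ex_mem_grp h1, fun β => by rw [e]; exact (hY β).1.2⟩, h2⟩,
    (ex lv Y)⁻¹ * x, ⟨(a.inv_mul_iff (ex_mem_grp h1) (Fam.PG_mono (a.add_le h) hx)).2 fun β => ?_,
      (S.EE lv).mul_mem ((S.EE lv).inv_mem h2) hS⟩, by group⟩
  rw [e]; exact (hY β).2.2

theorem Fam.Ide.mem_add_PG (a : g.Ide n) {x : PS lv σ FF} :
    x ∈ (a.add h).PG ↔ ∃ y ∈ g.PG ⊓ h.PG, ∃ z ∈ n.PG, x = y * z := by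
  constructor
  · intro hx
    obtain ⟨y, hy, z, hz, e⟩ := a.split (Sc.top K σ) hx (Sc.mem_top x)
    exact ⟨y, hy.1, z, hz.1, e⟩
  · rintro ⟨y, hy, z, hz, rfl⟩
    exact mul_mem (Fam.PG_mono (a.inf_le_add h) (by rw [Fam.PG_inf]; exact hy))
      (Fam.PG_mono (a.le_add h) hz)

end ide

end Pool.Agent.P.MP_a14ce1_nt.Nil
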