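import Pool.Agent.P.MP_a14ce1_nt.Nil.Ns

/-! The finitary class of functions on unipotent groups. -/

open Finset
open scoped BigOperators

noncomputable section

namespace Pool.Agent.P.MP_a14ce1_nt.Nil

variable {ι : Type} [Fintype ι] [DecidableEq ι] {lv : ι → ℕ}

/-- The finitary class of functions. -/
structure NiceR (q : ℕ) (L : ℝ) (G : Subgroup (UT lv ℝ)) (F : UT lv ℝ → ℂ) : Prop where
  bd : ∀ x, ‖F x‖ ≤ 1
  lip : ∀ e ∈ G, ∀ x ∈ G, ‖F (e * x) - F x‖ ≤ L * ∑ a, ∑ b, |(e.val - 1) a b|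
  per : ∀ γ ∈ G, Ent {t : ℝ | ∃ z : ℤ, t = q * z} (γ.val - 1) → ∀ x ∈ G, F (x * γ) = F x

/-- Exact frequency `ξ` along `U`. -/
def EqvR (G : Subgroup (UT lv ℝ)) (U : Submodule ℝ (Matrix ι ι ℝ)) (ξ : Matrix ι ι ℝ →ₗ[ℝ] ℝ)
    (F : UT lv ℝ → ℂ) : Prop := ∀ z : UT lv ℝ, lg z ∈ U → ∀ x ∈ G,
  F (z * x) = Complex.exp (2 * Real.pi * Complex.I * (ξ (lg z) : ℝ)) * F x

end Pool.Agent.P.MP_a14ce1_nt.Nil
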