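import Pool.Agent.P.MP_a14ce1_nt.Nil.Alg

/-!
The nonstandard layer: germs along an ultrafilter, internal functions and predicates,
the scale field, internal averages, dense sets, nice functions on unipotent groups.
-/

open Filter
open scoped BigOperators

set_option linter.unusedSectionVars false

noncomputable section

namespace Pool.Agent.P.MP_a14ce1_nt.Nil

abbrev UU : Filter ℕ := (hyperfilter ℕ : Filter ℕ)
abbrev Ns (S : Type) : Type := Germ UU S
abbrev HR : Type := Ns ℝ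
abbrev HC : Type := Ns ℂ
abbrev HZ : Type := Ns ℤ

/-! ### Internal objects -/

/-- `A` is the ultrapower of `S`. -/
class NS (A : Type) (S : outParam Type) where
  st : (ℕ → S) → A
  surj : Function.Surjective st
  eq_iff : ∀ x y, st x = st y ↔ ∀ᶠ n in UU, x n = y n

export NS (st)

instance nsNs (S : Type) : NS (Ns S) S where
  st x := (x : Ns S)
  surj a := Germ.inductionOn a fun f => ⟨f, rfl⟩
  eq_iff _ _ := Germ.coe_eq

instance nsPi {J A S : Type} [Finite J] [NS A S] : NS (J → A) (J → S) where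
  st x j := st fun n => x n j
  surj a := by
    choose f hf using fun j => NS.surj (a j)
    exact ⟨fun n j => f j n, funext hf⟩
  eq_iff x y := by
    simp only [funext_iff, NS.eq_iff, eventually_all]

instance nsProd {A S B S' : Type} [NS A S] [NS B S'] : NS (A × B) (S × S') where
  st x := (st fun n => (x n).1, st fun n => (x n).2)
  surj a := by
    obtain ⟨f, hf⟩ := NS.surj a.1
    obtain ⟨g, hg⟩ := NS.surj a.2
    exact ⟨fun n => (f n, g n), Prod.ext hf hg⟩
  eq_iff x y := by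
    simp only [Prod.ext_iff, NS.eq_iff, eventually_and]

instance nsMat {J J' A S : Type} [Finite J] [Finite J'] [NS A S] :
    NS (Matrix J J' A) (Matrix J J' S) := inferInstanceAs (NS (J → J' → A) (J → J' → S))

theorem UT.val_eq {ι R : Type} [Fintype ι] [DecidableEq ι] {lv : ι → ℕ} [CommRing R] [Algebra ℚ R]
    (x : UT lv R) {a b : ι} (h : lv b < lv a + 1) : x.val a b = (1 : Matrix ι ι R) a b :=
  sub_eq_zero.1 (x.up a b h)

theorem st_one {ι : Type} [Fintype ι] [DecidableEq ι] :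
    (st fun _ => (1 : Matrix ι ι ℝ) : Matrix ι ι HR) = 1 := by
  ext a b
  change ((fun _ => (1 : Matrix ι ι ℝ) a b : ℕ → ℝ) : HR) = _
  by_cases e : a = b
  · subst e; simp only [Matrix.one_apply_eq]; rfl
  · simp only [Matrix.one_apply_ne e]; rfl

instance nsUT {ι : Type} [Fintype ι] [DecidableEq ι] (lv : ι → ℕ) : NS (UT lv HR) (UT lv ℝ) where
  st x := ⟨st fun n => (x n).val, fun a b h => by
    rw [Matrix.sub_apply, sub_eq_zero, ← st_one]
    exact congrArg (fun t : ℕ → ℝ => (t : HR)) (funext fun n => (x n).val_eq h)⟩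
  surj x := by
    obtain ⟨f, hf⟩ := NS.surj x.val
    refine ⟨fun n => ⟨Matrix.of fun a b =>
      if lv b < lv a + 1 then (1 : Matrix ι ι ℝ) a b else f n a b, fun a b h => by
        rw [Matrix.sub_apply, Matrix.of_apply, if_pos h, sub_self]⟩,
      UT.ext (Matrix.ext fun a b => ?_)⟩
    change ((fun n => if lv b < lv a + 1 then (1 : Matrix ι ι ℝ) a b else f n a b : ℕ → ℝ) : HR) = _
    by_cases h : lv b < lv a + 1
    · simp only [if_pos h]
      rw [x.val_eq h, ← st_one]; rfl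
    · simp only [if_neg h]
      rw [← hf]; rfl
  eq_iff x y := by
    simp only [UT.ext_iff, NS.eq_iff]

section internal

variable {A S B S' : Type} [NS A S] [NS B S']

/-- A representing sequence. -/
def rep (a : A) : ℕ → S := (NS.surj a).choose
@[simp] theorem st_rep (a : A) : st (rep a) = a := (NS.surj a).choose_spec
theorem rep_st (x : ℕ → S) : ∀ᶠ n in UU, rep (st x : A) n = x n := (NS.eq_iff _ _).1 (st_rep _)

/-- Internal functions. -/
@[fun_prop] def IntF (f : A → B) : Prop :=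
  ∃ φ : ℕ → S → S', ∀ x, f (st x) = st fun n => φ n (x n)
/-- Internal predicates. -/
def IntP (p : A → Prop) : Prop := ∃ π : ℕ → S → Prop, ∀ x, p (st x) ↔ ∀ᶠ n in UU, π n (x n)
/-- Countable unions of internal predicates. -/
def Sig (p : A → Prop) : Prop := ∃ q : ℕ → A → Prop, (∀ C, IntP (q C)) ∧ ∀ a, p a ↔ ∃ C, q C a
/-- The internal function given by a sequence of functions. -/
def app (φ : ℕ → S → S') (a : A) : B := st fun n => φ n (rep a n)
theorem app_st (φ : ℕ → S → S') (x : ℕ → S) :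
    (app φ (st x : A) : B) = st fun n => φ n (x n) :=
  (NS.eq_iff _ _).2 ((rep_st (A := A) x).mono fun n h => by rw [h])
theorem intF_app (φ : ℕ → S → S') : IntF (app φ : A → B) := ⟨φ, app_st φ⟩

/-- Membership in an internal finite set. -/
def Mem (a : A) (T : Ns (Finset S)) : Prop := ∀ᶠ n in UU, rep a n ∈ rep T n
/-- Its cardinality. -/
def cd (T : Ns (Finset S)) : HR := T.map fun t => (t.card : ℝ)

open Classical in
/-- The average of an internal function over an internal finite set. -/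
def Ex {V : Type} [AddCommMonoid V] [Module ℚ≥0 V] (T : Ns (Finset S)) (f : A → Ns V) : Ns V :=
  if h : IntF f then st fun n => 𝔼 x ∈ rep T n, h.choose n x else 0

end internal

/-- The maps `ℤ → ℝ`, `ℝ → ℂ`, conjugation, the norm and `t ↦ e^{2 π i t}`. -/
def liftHom {R R' : Type} [Semiring R] [Semiring R'] (f : R →+* R') : Ns R →+* Ns R' where
  toFun := Germ.map f
  map_one' := congrArg (fun t : R' => (t : Ns R')) (map_one f)
  map_zero' := congrArg (fun t : R' => (t : Ns R')) (map_zero f)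
  map_mul' a b := Germ.inductionOn₂ a b fun x y =>
    congrArg (fun t : ℕ → R' => (t : Ns R')) (funext fun n => map_mul f (x n) (y n))
  map_add' a b := Germ.inductionOn₂ a b fun x y =>
    congrArg (fun t : ℕ → R' => (t : Ns R')) (funext fun n => map_add f (x n) (y n))
def ci : HZ →+* HR := liftHom (Int.castRingHom ℝ)
def cr : HR →+* HC := liftHom Complex.ofRealHom
def cj : HC →+* HC := liftHom (starRingEnd ℂ)
def nm (z : HC) : HR := z.map fun t => ‖t‖
def ee (t : HR) : HC := t.map fun s : ℝ => Complex.exp (2 * Real.pi * Complex.I * s)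
/-- The real point of an integer point. -/
def zv {σ : Type} (n : σ → HZ) : σ → HR := fun l => ci (n l)
/-- The box `∏ [0, N l)`. -/
def box {σ : Type} [Fintype σ] [DecidableEq σ] (N : σ → HZ) : Ns (Finset (σ → ℤ)) :=
  st fun n => Fintype.piFinset fun l => Finset.Ico 0 (rep (N l) n)
/-- Product of internal finite sets. -/
def fprod {S S' : Type} (T : Ns (Finset S)) (T' : Ns (Finset S')) : Ns (Finset (S × S')) :=
  Germ.map₂ (fun t t' => t ×ˢ t') T T'

/-! ### The scale field -/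

/-- nonstandard integers -/
def ZZ : Subring HR where
  carrier := {x | ∃ z : ℕ → ℤ, x = ((fun n => (z n : ℝ)) : HR)}
  mul_mem' := by
    rintro _ _ ⟨a, rfl⟩ ⟨b, rfl⟩
    exact ⟨a * b, by rw [← Germ.coe_mul]; congr 1; ext n; simp⟩
  add_mem' := by
    rintro _ _ ⟨a, rfl⟩ ⟨b, rfl⟩
    exact ⟨a + b, by rw [← Germ.coe_add]; congr 1; ext n; simp⟩
  one_mem' := ⟨1, by rw [← Germ.coe_one]; congr 1; ext n; simp⟩
  zero_mem' := ⟨0, by rw [← Germ.coe_zero]; congr 1; ext n; simp⟩
  neg_mem' := by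
    rintro _ ⟨a, rfl⟩
    exact ⟨-a, by rw [← Germ.coe_neg]; congr 1; ext n; simp⟩

theorem coe_abs (f : ℕ → ℝ) : |(f : HR)| = ((fun n => |f n|) : HR) := by
  rw [Germ.abs_def]; rfl

theorem ZZ_one_le {z : HR} (hz : z ∈ ZZ) (h0 : z ≠ 0) : 1 ≤ |z| := by
  obtain ⟨a, rfl⟩ := hz
  rw [coe_abs, ← Germ.coe_one, Germ.coe_le]
  rw [← Germ.coe_zero, Ne, Germ.coe_eq, EventuallyEq, ← Ultrafilter.eventually_not] at h0
  filter_upwards [h0] with n hn
  have : a n ≠ 0 := by simpa using hn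
  change (1 : ℝ) ≤ |(a n : ℝ)|
  exact_mod_cast Int.one_le_abs this

theorem ZZ_round (x : HR) : ∃ z ∈ ZZ, |x - z| ≤ 1 / 2 := by
  induction x using Germ.inductionOn with | _ f
  refine ⟨_, ⟨fun n => round (f n), rfl⟩, ?_⟩
  rw [← Germ.coe_sub, coe_abs]
  have : (1 / 2 : HR) = ((fun _ => 1 / 2 : ℕ → ℝ) : HR) := rfl
  rw [this, Germ.coe_le]
  exact Eventually.of_forall fun n => abs_sub_round (f n)

variable (Q : HR) [hQ : Fact (2 ≤ Q)]

theorem one_le_Q : 1 ≤ Q := one_le_two.trans hQ.out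

def OO : Subring HR where
  carrier := {x | ∃ C : ℕ, |x| ≤ Q ^ C}
  mul_mem' := by
    rintro a b ⟨C, hC⟩ ⟨D, hD⟩
    exact ⟨C + D, by
      rw [abs_mul, pow_add]
      exact mul_le_mul hC hD (abs_nonneg _) ((abs_nonneg _).trans hC)⟩
  add_mem' := by
    rintro a b ⟨C, hC⟩ ⟨D, hD⟩
    refine ⟨max C D + 1, (abs_add_le a b).trans ?_⟩
    have h1 := hC.trans (pow_le_pow_right₀ (one_le_Q Q) (le_max_left C D))
    have h2 := hD.trans (pow_le_pow_right₀ (one_le_Q Q) (le_max_right C D))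
    have h3 := mul_le_mul_of_nonneg_left hQ.out ((abs_nonneg _).trans h1)
    rw [pow_succ]
    linarith
  one_mem' := ⟨0, by simp⟩
  zero_mem' := ⟨0, by simp⟩
  neg_mem' := by
    rintro a ⟨C, hC⟩
    exact ⟨C, by rwa [abs_neg]⟩

variable {Q}

theorem OO_of_le {x y : HR} (hy : y ∈ OO Q) (h : |x| ≤ |y|) : x ∈ OO Q := by
  obtain ⟨C, hC⟩ := hy
  exact ⟨C, h.trans hC⟩

variable (Q) in
def RT : Subring HR where
  carrier := {x | ∃ b ∈ ZZ, b ∈ OO Q ∧ b ≠ 0 ∧ b * x ∈ ZZ}
  mul_mem' := by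
    rintro x y ⟨a, a1, a2, a3, a4⟩ ⟨b, b1, b2, b3, b4⟩
    exact ⟨a * b, mul_mem a1 b1, mul_mem a2 b2, mul_ne_zero a3 b3, by
      rw [mul_mul_mul_comm]; exact mul_mem a4 b4⟩
  add_mem' := by
    rintro x y ⟨a, a1, a2, a3, a4⟩ ⟨b, b1, b2, b3, b4⟩
    exact ⟨a * b, mul_mem a1 b1, mul_mem a2 b2, mul_ne_zero a3 b3, by
      rw [show a * b * (x + y) = b * (a * x) + a * (b * y) by ring]
      exact add_mem (mul_mem b1 a4) (mul_mem a1 b4)⟩
  one_mem' := ⟨1, one_mem _, one_mem _, one_ne_zero, by simp [one_mem]⟩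
  zero_mem' := ⟨1, one_mem _, one_mem _, one_ne_zero, by simp [zero_mem]⟩
  neg_mem' := by
    rintro x ⟨a, a1, a2, a3, a4⟩
    exact ⟨a, a1, a2, a3, by rw [mul_neg]; exact neg_mem a4⟩

variable (Q) in
def KK : Subfield HR where
  toSubring := OO Q ⊓ RT Q
  inv_mem' := by
    rintro x ⟨hx, b, b1, b2, b3, b4⟩
    rcases eq_or_ne x 0 with rfl | h0
    · rw [inv_zero]; exact (OO Q ⊓ RT Q).zero_mem
    have h1 : b * x ≠ 0 := mul_ne_zero b3 h0
    refine ⟨OO_of_le b2 ?_, b * x, b4, mul_mem b2 hx, h1, by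
      rw [mul_assoc, mul_inv_cancel₀ h0, mul_one]; exact b1⟩
    have h2 := ZZ_one_le b4 h1
    rw [abs_mul] at h2
    rw [abs_inv, inv_le_iff_one_le_mul₀ (abs_pos.2 h0)]
    exact h2

theorem mem_KK {x : HR} : x ∈ KK Q ↔ ∃ a ∈ ZZ, ∃ b ∈ ZZ, a ∈ OO Q ∧ b ∈ OO Q ∧ b ≠ 0 ∧ x = a / b := by
  constructor
  · rintro ⟨hx, b, b1, b2, b3, b4⟩
    exact ⟨b * x, b4, b, b1, mul_mem b2 hx, b2, b3, by rw [mul_div_cancel_left₀ _ b3]⟩
  · rintro ⟨a, a1, b, b1, a2, b2, b3, rfl⟩
    refine ⟨OO_of_le a2 ?_, b, b1, b2, b3, by rw [mul_div_cancel₀ _ b3]; exact a1⟩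
    rw [abs_div]
    exact div_le_self (abs_nonneg _) (ZZ_one_le b1 b3)

theorem OO_add_ZZ (x : HR) : ∃ o ∈ OO Q, ∃ z ∈ ZZ, x = o + z := by
  obtain ⟨z, hz, h⟩ := ZZ_round x
  exact ⟨x - z, ⟨0, h.trans (by norm_num)⟩, z, hz, by ring⟩

theorem KK_le_OO : ∀ k ∈ KK Q, k ∈ OO Q := fun _ h => h.1
theorem KK_le_RT : ∀ k ∈ KK Q, k ∈ RT Q := fun _ h => h.2

omit hQ in
variable (Q) in
/-- At least `Q ^ (-C)` in absolute value. -/
def Big (x : HR) : Prop := ∃ C : ℕ, 1 ≤ |x| * Q ^ C
omit hQ in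
variable (Q) in
/-- Below `Q ^ (-C)` for every `C`. -/
def Tiny (x : HR) : Prop := ¬Big Q x
omit hQ in
variable (Q) in
def BigC (z : HC) : Prop := Big Q (nm z)
omit hQ in
variable (Q) in
def TinyC (z : HC) : Prop := Tiny Q (nm z)

omit hQ in
variable (Q) in
/-- `p` holds on an internal subset of `T` of density at least `Q ^ (-C)`. -/
def Dense {A S : Type} [NS A S] (T : Ns (Finset S)) (p : A → Prop) : Prop :=
  ∃ H : Ns (Finset S), (∀ a : A, Mem a H → Mem a T ∧ p a) ∧ Big Q (cd H / cd T)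

/-- The family `β ↦ w ^ (-β) R`. -/
def scw {FF : Type} [Field FF] {K : Subfield FF} {σ : Type} (R : Subring FF)
    (h : ∀ k ∈ K, k ∈ R) (w : σ → FF) : Sc K σ where
  s β :=
    { carrier := {x | x * β.prod (fun l k => w l ^ k) ∈ R}
      add_mem' := fun hx hy => by
        simp only [Set.mem_ofPred_eq, add_mul] at *; exact add_mem hx hy
      zero_mem' := by simp
      smul_mem' := fun c x hx => by
        simp only [Set.mem_ofPred_eq, Subfield.smul_def, smul_eq_mul, mul_assoc] at *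
        exact mul_mem (h _ c.2) hx }
  mul β γ x hx y hy := by
    change x * y * (β + γ).prod (fun l k => w l ^ k) ∈ R
    rw [Finsupp.prod_add_index' (by simp) (fun l a b => pow_add _ _ _), mul_mul_mul_comm]
    exact mul_mem hx hy

variable (Q) in
/-- Small coefficients for a box with sides `N`. -/
def Sm {σ : Type} (N : σ → HR) : Sc (KK Q) σ := scw (OO Q) KK_le_OO N
variable (Q) in
/-- Rational coefficients for the lattice with steps `a`. -/
def Rt {σ : Type} (a : σ → HR) : Sc (KK Q) σ := scw (RT Q) KK_le_RT a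

/-! ### Functions on the groups -/

section nice

variable {ι : Type} [Fintype ι] [DecidableEq ι] {lv : ι → ℕ} {σ : Type}

/-- Lattice elements of level `q`. -/
def Lev (q : HR) (γ : UT lv HR) : Prop := Ent {t | ∃ z ∈ ZZ, t = q * z} (γ.val - 1)

variable (Q) in
/-- Internal, bounded, continuous on the left and periodic on the right, up to tiny errors. -/
structure Nice (q : HR) (G : Subgroup (UT lv HR)) (F : UT lv HR → HC) : Prop where
  lvl : q ∈ ZZ ∧ q ∈ OO Q ∧ q ≠ 0
  int : IntF F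
  bd : ∀ x, nm (F x) ≤ 1
  cts : ∀ e ∈ G, Ent {t | Tiny Q t} (e.val - 1) → ∀ x ∈ G, TinyC Q (F (e * x) - F x)
  per : ∀ γ ∈ G, Lev q γ → ∀ x ∈ G, TinyC Q (F (x * γ) - F x)

variable (Q) in
/-- `F` has the frequency `ξ` on `U` (for `ξ = 0`: is invariant under `exp U`). -/
def Eqv (G : Subgroup (UT lv HR)) (U : Submodule HR (Matrix ι ι HR))
    (ξ : Matrix ι ι HR →ₗ[HR] HR) (F : UT lv HR → HC) : Prop :=
  ∀ z : UT lv HR, lg z ∈ U → ∀ x ∈ G, TinyC Q (F (z * x) - ee (ξ (lg z)) * F x)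

/-- `U` is a rational ideal of `g 0`, central modulo the kernel of `ξ`. -/
structure Cen {FF : Type} [Field FF] [CharZero FF] {K : Subfield FF} {I : Type} [AddCommMonoid I]
    (g : Fam K lv I) (U : Submodule FF (Matrix ι ι FF)) (ξ : Matrix ι ι FF →ₗ[FF] FF) : Prop where
  idl : g.Idl U
  rat : RatF K ξ
  cen : ∀ X ∈ g.r 0, ∀ Y ∈ U, ξ (X * Y - Y * X) = 0

/-- Internal families of polynomial sequences: bounded degree, internal coefficients. -/
structure IntS {A S : Type} [NS A S] (x : A → PS lv σ HR) : Prop where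
  supp : ∃ s : Finset (σ →₀ ℕ), ∀ a β, β ∉ s → co β (x a).val = 0
  int : ∀ β, IntF fun a => co β (x a).val

end nice

end Pool.Agent.P.MP_a14ce1_nt.Nil
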