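import Pool.Agent.P.MP_a14ce1_nt.Nil.NilChar
import Pool.Agent.P.MP_a14ce1_nt.Nil.Ns

/-!
Transfer between standard rational subspaces and their nonstandard extensions; unit nilcharacters
in the nonstandard model (bounded scale).
-/

open Finset Filter

set_option linter.unusedSectionVars false

noncomputable section

namespace Pool.Agent.P.MP_a14ce1_nt.Nil

namespace NC

variable {ι : Type} [Fintype ι] [DecidableEq ι] {lv : ι → ℕ}

/-- The rational numbers inside the reals. -/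
def QR : Subfield ℝ := (Rat.castHom ℝ).fieldRange

theorem mem_QR {k : ℝ} : k ∈ QR ↔ ∃ r : ℚ, k = r := ⟨fun ⟨r, h⟩ => ⟨r, h.symm⟩, fun ⟨r, h⟩ => ⟨r, h.symm⟩⟩

theorem ratCast_eq (r : ℚ) : (r : HR) = ((fun _ => (r : ℝ) : ℕ → ℝ) : HR) :=
  (map_ratCast (Germ.coeRingHom UU |>.comp (Pi.constRingHom ℕ ℝ)) r).symm

theorem natCast_eq (r : ℕ) : (r : HR) = ((fun _ => (r : ℝ) : ℕ → ℝ) : HR) := rfl

/-- The ring homomorphism behind `st`. -/
def stM : (ℕ → Matrix ι ι ℝ) →+* Matrix ι ι HR :=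
  (Germ.coeRingHom UU).mapMatrix.comp (Matrix.piRingEquiv (β := fun _ : ℕ => ℝ)).symm.toRingHom

theorem stM_eq (x : ℕ → Matrix ι ι ℝ) : stM x = st x := rfl

theorem st_apply (x : ℕ → Matrix ι ι ℝ) (a b : ι) :
    (st x : Matrix ι ι HR) a b = ((fun n => x n a b : ℕ → ℝ) : HR) := rfl

theorem st_val (x : ℕ → UT lv ℝ) : (st x : UT lv HR).val = st fun n => (x n).val := rfl

theorem st_mul (x y : ℕ → UT lv ℝ) : (st x * st y : UT lv HR) = st fun n => x n * y n :=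
  UT.ext (map_mul stM (fun n => (x n).val) fun n => (y n).val).symm

theorem st_sub_one (x : ℕ → UT lv ℝ) :
    (st x : UT lv HR).val - 1 = st fun n => (x n).val - 1 := by
  rw [st_val, ← stM_eq, ← map_one stM, ← map_sub]; rfl

theorem st_lg (x : ℕ → UT lv ℝ) : lg (st x : UT lv HR) = st fun n => lg (x n) := by
  have hn : IsNilpotent ((fun n => (x n).val) - 1) :=
    ⟨dd lv + 1, funext fun n => pow_dd (x n).up⟩
  have e : log (fun n => (x n).val) = fun n => lg (x n) :=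
    funext fun n => map_log hn (Pi.evalRingHom (fun _ => Matrix ι ι ℝ) n)
  rw [← e]
  exact (map_log hn stM).symm

theorem st_inv (x : ℕ → UT lv ℝ) : (st x : UT lv HR)⁻¹ = st fun n => (x n)⁻¹ := by
  rw [inv_eq_iff_mul_eq_one, st_mul]
  simp only [mul_inv_cancel]
  exact UT.ext st_one

variable {K : Subfield HR}

theorem fn_transfer (hK : ∀ k ∈ K, ∃ r : ℚ, k = r) {ξ : Matrix ι ι HR →ₗ[HR] HR} (h : RatF K ξ) :
    ∃ η : Matrix ι ι ℝ →ₗ[ℝ] ℝ, RatF QR η ∧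
      ∀ x : ℕ → Matrix ι ι ℝ, ξ (st x) = ((fun n => η (x n) : ℕ → ℝ) : HR) := by
  choose r hr using fun a b : ι => hK _ (h _ (ent_single a b))
  refine ⟨∑ a, ∑ b, (r a b : ℝ) • Matrix.entryLinearMap ℝ ℝ a b, fun X hX => ?_, fun x => ?_⟩
  · simp only [LinearMap.sum_apply, LinearMap.smul_apply, Matrix.entryLinearMap_apply, smul_eq_mul]
    exact sum_mem fun a _ => sum_mem fun b _ => mul_mem (mem_QR.2 ⟨_, rfl⟩) (hX a b)
  · rw [lin_eq_sum]
    simp only [LinearMap.sum_apply, LinearMap.smul_apply, Matrix.entryLinearMap_apply, smul_eq_mul,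
      hr, ratCast_eq, st_apply, ← Germ.coe_mul]
    change ∑ a, ∑ b, Germ.coeRingHom UU _ = Germ.coeRingHom UU _
    simp only [← map_sum]
    congr 1
    funext n
    simp [mul_comm]

theorem sub_transfer (hK : ∀ k ∈ K, ∃ r : ℚ, k = r) {V : Submodule HR (Matrix ι ι HR)}
    (h : IsRat K V) : ∃ W : Submodule ℝ (Matrix ι ι ℝ), IsRat QR W ∧
      ∀ x : ℕ → Matrix ι ι ℝ, (st x : Matrix ι ι HR) ∈ V ↔ ∀ᶠ n in UU, x n ∈ W := by
  obtain ⟨π, π1, π2, π3⟩ := exists_proj' h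
  choose η h1 h2 using fun p : ι × ι => fn_transfer hK
    (ξ := Matrix.entryLinearMap HR HR p.1 p.2 ∘ₗ (LinearMap.id - π))
    fun X hX => (RatM.id.sub π1).entK hX p.1 p.2
  refine ⟨⨅ p, LinearMap.ker (η p), IsRat.iInf fun p => (h1 p).ker, fun x => ?_⟩
  simp only [Submodule.mem_iInf, LinearMap.mem_ker, eventually_all]
  have e : ∀ p, (∀ᶠ n in UU, η p (x n) = 0) ↔ (st x - π (st x) : Matrix ι ι HR) p.1 p.2 = 0 :=
    fun p => by
    have := h2 p x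
    change (st x - π (st x) : Matrix ι ι HR) p.1 p.2 = _ at this
    rw [this, ← Germ.coe_zero, Germ.coe_eq]; rfl
  simp only [e]
  refine ⟨fun hx p => by rw [π3 _ hx, sub_self]; rfl, fun hx => ?_⟩
  rw [sub_eq_zero.1 (Matrix.ext fun a b => hx (a, b))]
  exact π2 _

theorem st_br (X Y : Matrix ι ι ℝ) : (st fun _ => X * Y - Y * X : Matrix ι ι HR)
    = st (fun _ => X) * st (fun _ => Y) - st (fun _ => Y) * st (fun _ => X) := by
  simp only [← stM_eq, ← map_mul, ← map_sub]; rfl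

theorem mem_KK_two [Fact (2 ≤ (2 : HR))] : ∀ k ∈ KK (2 : HR), ∃ r : ℚ, k = r := by
  have key : ∀ a ∈ ZZ, a ∈ OO (2 : HR) → ∃ m : ℤ, a = m := by
    rintro _ ⟨z, rfl⟩ ⟨C, hC⟩
    have e : (2 : HR) ^ C = ((fun _ => (2 : ℝ) ^ C : ℕ → ℝ) : HR) := rfl
    rw [coe_abs, e, Germ.coe_le] at hC
    have h : ∀ᶠ n in UU, z n ∈ Set.Icc (-(2 ^ C : ℤ)) (2 ^ C) := hC.mono fun n hn => by
      change |(z n : ℝ)| ≤ 2 ^ C at hn
      have : |z n| ≤ 2 ^ C := by exact_mod_cast hn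
      exact abs_le.1 this
    have h' : ∀ᶠ n in UU, ∃ m ∈ Set.Icc (-(2 ^ C : ℤ)) (2 ^ C), z n = m :=
      h.mono fun n hn => ⟨_, hn, rfl⟩
    obtain ⟨m, -, hm⟩ := (Ultrafilter.eventually_exists_mem_iff (Set.finite_Icc _ _)).1 h'
    refine ⟨m, ?_⟩
    have e : (m : HR) = ((fun _ => (m : ℝ) : ℕ → ℝ) : HR) := rfl
    rw [e, Germ.coe_eq]
    exact hm.mono fun n hn => by simp [hn]
  intro k hk
  obtain ⟨a, a1, b, b1, a2, b2, -, rfl⟩ := mem_KK.1 hk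
  obtain ⟨m, rfl⟩ := key a a1 a2
  obtain ⟨n, rfl⟩ := key b b1 b2
  exact ⟨m / n, by push_cast; rfl⟩

theorem tiny_two {f : ℕ → ℝ} : Tiny 2 (f : HR) ↔ ∀ ε > 0, ∀ᶠ n in UU, |f n| ≤ ε := by
  have e : ∀ C : ℕ, (1 ≤ |(f : HR)| * 2 ^ C) ↔ ∀ᶠ n in UU, 1 ≤ |f n| * 2 ^ C := fun C => by
    have e : (2 : HR) ^ C = ((fun _ => (2 : ℝ) ^ C : ℕ → ℝ) : HR) := rfl
    rw [coe_abs, e, ← Germ.coe_mul, ← Germ.coe_one, Germ.coe_le]; rfl
  simp only [Tiny, Big, e, not_exists, ← Ultrafilter.eventually_not, not_le]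
  refine ⟨fun h ε ε0 => ?_, fun h C => ?_⟩
  · obtain ⟨C, hC⟩ := pow_unbounded_of_one_lt ε⁻¹ (one_lt_two (α := ℝ))
    refine (h C).mono fun n hn => ?_
    rw [inv_lt_iff_one_lt_mul₀ ε0] at hC
    by_contra hc
    have : (0 : ℝ) < 2 ^ C := by positivity
    nlinarith [not_le.1 hc]
  · refine (h (2 ^ (C + 1))⁻¹ (by positivity)).mono fun n hn => ?_
    have : (0 : ℝ) < 2 ^ C := by positivity
    refine (mul_le_mul_of_nonneg_right hn this.le).trans_lt ?_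
    rw [pow_succ]; field_simp; norm_num

open scoped Matrix.Norms.Operator in
theorem ent_lg (lv : ι → ℕ) : ∃ C δ0 : ℝ, 0 < C ∧ 0 < δ0 ∧ ∀ (u : UT lv ℝ) (δ : ℝ), 0 ≤ δ →
    δ ≤ δ0 → (∀ a b, |(u.val - 1) a b| ≤ δ) → ∀ a b, |lg u a b| ≤ C * δ := by
  obtain ⟨CE, CE1, hCE⟩ := lin_bd (LinearMap.pi fun p : ι × ι =>
    Matrix.entryLinearMap ℝ ℝ p.1 p.2)
  obtain ⟨C, C0, hC⟩ := norm_le_of_ent (ι := ι)
  refine ⟨CE * ((dd lv + 1) * (C + 1)), (C + 1)⁻¹, by positivity, by positivity,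
    fun u δ d0 d1 h a b => ((norm_le_pi_norm _ (a, b)).trans (hCE (lg u))).trans ?_⟩
  have h1 : ‖u.val - 1‖ ≤ (C + 1) * δ := (hC _ _ h).trans (by gcongr; linarith)
  have h2 : ‖u.val - 1‖ ≤ 1 := h1.trans (by rwa [← le_inv_mul_iff₀ (by positivity), mul_one])
  rw [mul_assoc, mul_assoc, lg_eq_sum]
  gcongr
  refine (norm_sum_le_of_le _ (n := fun _ => (C + 1) * δ) fun k _ => ?_).trans ?_
  · rw [← Rat.cast_smul_eq_qsmul ℝ, norm_smul]
    have a1 : ‖((((-1) ^ k / (k + 1) : ℚ) : ℝ))‖ ≤ 1 := by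
      push_cast
      rw [norm_div, norm_pow, norm_neg, norm_one, one_pow, Real.norm_of_nonneg (by positivity)]
      exact div_le_one_of_le₀ (by linarith [(Nat.cast_nonneg k : (0 : ℝ) ≤ k)]) (by positivity)
    refine (mul_le_of_le_one_left (norm_nonneg _) a1).trans
      ((norm_pow_le' _ (Nat.succ_pos k)).trans ?_)
    exact (pow_le_of_le_one (norm_nonneg _) h2 (Nat.succ_ne_zero k)).trans h1
  · rw [sum_const, card_range, nsmul_eq_mul]
    gcongr; linarith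

theorem app_stUT (F : UT lv ℝ → ℂ) (x : ℕ → UT lv ℝ) :
    (app (fun _ => F) (st x : UT lv HR) : HC) = ((fun n => F (x n) : ℕ → ℂ) : HC) := app_st _ x

theorem nm_coe (f : ℕ → ℂ) : nm (f : HC) = ((fun n => ‖f n‖ : ℕ → ℝ) : HR) := rfl

theorem tinyC_two {f : ℕ → ℂ} : TinyC 2 (f : HC) ↔ ∀ ε > 0, ∀ᶠ n in UU, ‖f n‖ ≤ ε := by
  simp only [TinyC, nm_coe, tiny_two, abs_norm]

theorem lev_st {q : ℕ} {x : ℕ → UT lv ℝ} (h : Lev (q : HR) (st x : UT lv HR)) :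
    ∀ᶠ n in UU, ∀ a b, ∃ m : ℤ, ((x n).val - 1) a b = q * m := by
  simp only [eventually_all]
  intro a b
  obtain ⟨_, ⟨z, rfl⟩, e⟩ := h a b
  rw [st_sub_one, st_apply, natCast_eq, ← Germ.coe_mul, Germ.coe_eq] at e
  exact e.mono fun n hn => ⟨z n, hn⟩

end NC

open NC in
/-- Unit nilcharacters in the model with bounded scale. The invariances are exact. -/
theorem nilchar_ns [Fact (2 ≤ (2 : HR))] {ι : Type} [Fintype ι] [DecidableEq ι] {lv : ι → ℕ}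
    {I : Type} [AddCommMonoid I] (g : Fam (KK (2 : HR)) lv I) {U : Submodule HR (Matrix ι ι HR)}
    {ξ : Matrix ι ι HR →ₗ[HR] HR} (h : Cen g U ξ) :
    ∃ (q D : ℕ) (χ : Fin D → UT lv HR → HC), 0 < q ∧ (∀ j, Nice 2 q g.GG (χ j)) ∧
      (∀ j, Eqv 2 g.GG U ξ (χ j)) ∧ ∀ x ∈ g.GG, ∑ j, χ j x * cj (χ j x) = 1 := by
  obtain ⟨g', g1, g2⟩ := sub_transfer mem_KK_two (g.rat 0)
  obtain ⟨U', U1, U2⟩ := sub_transfer mem_KK_two h.idl.rat
  obtain ⟨η, η1, η2⟩ := fn_transfer mem_KK_two h.rat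
  have g3 : ∀ X, X ∈ g' ↔ (st fun _ => X : Matrix ι ι HR) ∈ g.r 0 := fun X => by
    rw [g2, eventually_const]
  have U3 : ∀ X, X ∈ U' ↔ (st fun _ => X : Matrix ι ι HR) ∈ U := fun X => by
    rw [U2, eventually_const]
  have up : ∀ X ∈ g', X ∈ mF ℝ lv 1 := fun X hX a b hab => by
    have := g.up 0 _ ((g3 X).1 hX) a b hab
    rw [st_apply, ← Germ.coe_zero, Germ.coe_eq] at this
    exact this.exists.choose_spec
  have br : ∀ X ∈ g', ∀ Y ∈ g', X * Y - Y * X ∈ g' := fun X hX Y hY => by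
    rw [g3, st_br]
    exact g.lie0.br _ ((g3 X).1 hX) _ ((g3 Y).1 hY)
  have hle : U' ≤ g' := fun X hX => (g3 X).2 (h.idl.le ((U3 X).1 hX))
  have idl : ∀ X ∈ g', ∀ W ∈ U', X * W - W * X ∈ U' := fun X hX Y hY => by
    rw [U3, st_br]
    exact h.idl.br _ ((g3 X).1 hX) _ ((U3 Y).1 hY)
  have cen : ∀ X ∈ g', ∀ W ∈ U', η (X * W - W * X) = 0 := fun X hX Y hY => by
    have := h.cen _ ((g3 X).1 hX) _ ((U3 Y).1 hY)
    rw [← st_br, η2, ← Germ.coe_zero, Germ.coe_eq] at this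
    exact this.exists.choose_spec
  obtain ⟨q, D, L, χ, q0, L0, c1, c2, c3, c4, c5⟩ :=
    nilchar up br (fun _ => mem_QR.1) g1 U1 hle idl η1 cen
  have mG : ∀ x : ℕ → UT lv ℝ, (st x : UT lv HR) ∈ g.GG → ∀ᶠ n in UU, lg (x n) ∈ g' :=
    fun x hx => (g2 _).1 (by rw [← st_lg]; exact hx)
  refine ⟨q, D, fun j => app fun _ => χ j, q0, fun j => ⟨⟨natCast_mem _ _, natCast_mem _ _,
    Nat.cast_ne_zero.2 q0.ne'⟩, intF_app _, fun x => ?_, fun e he ht x hx => ?_,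
    fun c hc hl x hx => ?_⟩, fun j z hz x hx => ?_, fun x hx => ?_⟩
  · obtain ⟨x, rfl⟩ := NS.surj x
    beta_reduce
    rw [app_stUT, nm_coe, ← Germ.coe_one, Germ.coe_le]
    exact Eventually.of_forall fun n => c2 j _
  · obtain ⟨x, rfl⟩ := NS.surj x
    obtain ⟨e, rfl⟩ := NS.surj e
    obtain ⟨C, δ0, C0, d0, hC⟩ := ent_lg lv
    beta_reduce
    rw [st_mul, app_stUT, app_stUT, ← Germ.coe_sub, tinyC_two]
    intro ε ε0
    have p : 0 < min δ0 (ε / ((L + 1) * C)) := by positivity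
    have h1 : ∀ᶠ n in UU, ∀ a b, |((e n).val - 1) a b| ≤ min δ0 (ε / ((L + 1) * C)) := by
      simp only [eventually_all]
      intro a b
      have := ht a b
      rw [st_sub_one, st_apply, Set.mem_ofPred_eq, tiny_two] at this
      exact this _ p
    filter_upwards [h1, mG _ he, mG _ hx] with n a1 a2 a3
    refine (c3 j _ _ _ a2 a3 (hC _ _ p.le (min_le_left _ _) a1)).trans ?_
    calc _ ≤ (L + 1) * (C * (ε / ((L + 1) * C))) := by
          gcongr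
          · linarith
          · exact min_le_right _ _
      _ = ε := by field_simp
  · obtain ⟨x, rfl⟩ := NS.surj x
    obtain ⟨c, rfl⟩ := NS.surj c
    beta_reduce
    rw [st_mul, app_stUT, app_stUT, ← Germ.coe_sub, tinyC_two]
    intro ε ε0
    filter_upwards [lev_st hl, mG _ hc, mG _ hx] with n a1 a2 a3
    rw [Pi.sub_apply, c4 j _ _ a3 a2 a1, sub_self, norm_zero]; exact ε0.le
  · obtain ⟨x, rfl⟩ := NS.surj x
    obtain ⟨z, rfl⟩ := NS.surj z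
    rw [st_lg] at hz
    have e : ee (ξ (lg (st z : UT lv HR))) = ((fun n => eR (η (lg (z n))) : ℕ → ℂ) : HC) := by
      rw [st_lg, η2]; rfl
    beta_reduce
    rw [st_mul, app_stUT, app_stUT, e, ← Germ.coe_mul, ← Germ.coe_sub, tinyC_two]
    intro ε ε0
    filter_upwards [(U2 _).1 hz, mG _ hx] with n a1 a2
    have k := lg_conj_subR (J := U' ⊓ LinearMap.ker η) (c := (x n)⁻¹) (w := z n)
      (fun Y hY => ⟨idl _ (lg_inv_mem a2) _ hY.1, cen _ (lg_inv_mem a2) _ hY.1⟩)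
      ⟨idl _ (lg_inv_mem a2) _ a1, cen _ (lg_inv_mem a2) _ a1⟩
    have h1 := add_mem k.1 a1
    have h2 : η _ = 0 := k.2
    rw [sub_add_cancel] at h1
    rw [map_sub, sub_eq_zero] at h2
    rw [Pi.sub_apply, Pi.mul_apply, show z n * x n = x n * ((x n)⁻¹ * z n * (x n)⁻¹⁻¹) by group,
      c5 j _ _ a2 h1, h2, sub_self, norm_zero]
    exact ε0.le
  · obtain ⟨x, rfl⟩ := NS.surj x
    simp only [app_stUT]
    change ∑ j, Germ.coeRingHom UU (fun n => χ j (x n) * (starRingEnd ℂ) (χ j (x n))) = _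
    rw [← map_sum, ← Germ.coe_one]
    refine Germ.coe_eq.2 ((mG _ hx).mono fun n hn => ?_)
    simp only [Finset.sum_apply, Complex.mul_conj', Pi.one_apply]
    exact_mod_cast c1 _ hn

end Pool.Agent.P.MP_a14ce1_nt.Nil
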