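import Pool.Agent.P.MP_a14ce1_nt.Nil.Tiny
import Pool.Agent.P.MP_a14ce1_nt.Nil.StdD
import Pool.Agent.P.MP_a14ce1_nt.Nil.NilCharNs
import Pool.Agent.P.MP_a14ce1_nt.Nil.Rat
import Pool.Agent.P.MP_a14ce1_nt.Nil.Gr

/-!
Standard systems, transfer and standard parts.
-/

open Filter Finset MvPolynomial
open scoped BigOperators

set_option linter.unusedSectionVars false

noncomputable section

namespace Pool.Agent.P.MP_a14ce1_nt.Nil

variable {A S : Type} [NS A S] {ι : Type} [Fintype ι] [DecidableEq ι] {lv : ι → ℕ} {σ τ : Type}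
  {Q : HR} [Fact (2 ≤ Q)] {I : Type} [AddCommMonoid I]

/-- The extension of a subspace and of a functional. -/
def starS (V : Submodule ℝ (Matrix ι ι ℝ)) : Submodule HR (Matrix ι ι HR) :=
  Submodule.span HR {X | ∃ Y ∈ V, X = st fun _ => Y}

def starF (ξ : Matrix ι ι ℝ →ₗ[ℝ] ℝ) : Matrix ι ι HR →ₗ[HR] HR :=
  fn (st fun _ => Matrix.of fun a b => ξ (Matrix.single a b 1))

/-! ### Subspaces and functionals -/

theorem starF_st (ξ : Matrix ι ι ℝ →ₗ[ℝ] ℝ) (X : ℕ → Matrix ι ι ℝ) :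
    starF ξ (st X) = st fun n => ξ (X n) := by
  have e : ∀ n, ξ (X n) = ∑ a, ∑ b, ξ (Matrix.single a b 1) * X n a b := fun n => by
    rw [lin_eq_sum ξ (X n)]
    simp only [smul_eq_mul, mul_comm]
  simp only [e, ← st_sum]
  rfl

theorem st_zeroM : (st fun _ => (0 : Matrix ι ι ℝ) : Matrix ι ι HR) = 0 := rfl

theorem st_addM (X Y : ℕ → Matrix ι ι ℝ) :
    (st X + st Y : Matrix ι ι HR) = st fun n => X n + Y n := rfl
theorem st_subM (X Y : ℕ → Matrix ι ι ℝ) :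
    (st X - st Y : Matrix ι ι HR) = st fun n => X n - Y n := rfl
theorem st_smulM (c : ℕ → ℝ) (X : ℕ → Matrix ι ι ℝ) :
    ((st c : HR) • st X : Matrix ι ι HR) = st fun n => c n • X n := rfl
theorem st_mulM (X Y : ℕ → Matrix ι ι ℝ) :
    (st X * st Y : Matrix ι ι HR) = st fun n => X n * Y n := (map_mul NC.stM X Y).symm
theorem st_sumM {J : Type} (s : Finset J) (X : J → ℕ → Matrix ι ι ℝ) :
    ∑ j ∈ s, (st (X j) : Matrix ι ι HR) = st fun n => ∑ j ∈ s, X j n := by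
  have := (map_sum NC.stM X s).symm
  rwa [show ∑ j ∈ s, X j = fun n => ∑ j ∈ s, X j n from funext fun n => Finset.sum_apply n s X]
    at this
theorem st_brM (X Y : ℕ → Matrix ι ι ℝ) : (st X * st Y - st Y * st X : Matrix ι ι HR)
    = st fun n => X n * Y n - Y n * X n := by rw [st_mulM, st_mulM, st_subM]

theorem st_mem_starS {V : Submodule ℝ (Matrix ι ι ℝ)} {X : ℕ → Matrix ι ι ℝ} :
    st X ∈ starS V ↔ ∀ᶠ n in UU, X n ∈ V := by
  obtain ⟨W, hW⟩ := V.exists_isCompl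
  let π := V.projection W hW
  have h1 : ∀ Y, π Y ∈ V := Submodule.projection_apply_mem _
  have h2 : ∀ Y ∈ V, π Y = Y := fun Y hY => Submodule.projection_apply_of_mem_left _ hY
  constructor
  · intro h
    have key : ∀ p : ι × ι, ∀ᶠ n in UU, (X n - π (X n)) p.1 p.2 = 0 := fun p => by
      have hk : starS V ≤ LinearMap.ker
          (starF (Matrix.entryLinearMap ℝ ℝ p.1 p.2 ∘ₗ (LinearMap.id - π))) := by
        refine Submodule.span_le.2 ?_
        rintro _ ⟨Y, hY, rfl⟩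
        rw [SetLike.mem_coe, LinearMap.mem_ker, starF_st]
        simp only [LinearMap.comp_apply, LinearMap.sub_apply, LinearMap.id_apply, h2 Y hY,
          sub_self, map_zero]
        rfl
      have := LinearMap.mem_ker.1 (hk h)
      rw [starF_st] at this
      exact (NS.eq_iff (A := HR) _ fun _ => 0).1 this
    refine (eventually_all.2 key).mono fun n hn => ?_
    rw [sub_eq_zero.1 (Matrix.ext fun a b => hn (a, b))]
    exact h1 _
  · intro h
    have e : (st X : Matrix ι ι HR) = ∑ a, ∑ b, (st fun n => X n a b : HR) •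
        (st fun _ => π (Matrix.single a b 1) : Matrix ι ι HR) := by
      simp only [st_smulM, st_sumM]
      exact st_congr (h.mono fun n hn => by rw [← lin_eq_sum, h2 _ hn])
    rw [e]
    exact Submodule.sum_mem _ fun a _ => Submodule.sum_mem _ fun b _ =>
      Submodule.smul_mem _ _ (Submodule.subset_span ⟨_, h1 _, rfl⟩)

theorem const_mem_starS {V : Submodule ℝ (Matrix ι ι ℝ)} {X : Matrix ι ι ℝ} :
    (st fun _ => X) ∈ starS V ↔ X ∈ V := st_mem_starS.trans eventually_const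

theorem starS_le_iff {V W : Submodule ℝ (Matrix ι ι ℝ)} : starS V ≤ starS W ↔ V ≤ W :=
  ⟨fun h _ hX => const_mem_starS.1 (h (const_mem_starS.2 hX)), fun h =>
    Submodule.span_mono fun _ ⟨Y, hY, e⟩ => ⟨Y, h hY, e⟩⟩

theorem starS_mono {V W : Submodule ℝ (Matrix ι ι ℝ)} (h : V ≤ W) : starS V ≤ starS W :=
  starS_le_iff.2 h

theorem starS_inj {V W : Submodule ℝ (Matrix ι ι ℝ)} : starS V = starS W ↔ V = W := by
  simp only [le_antisymm_iff, starS_le_iff]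

theorem eq_starS {V : Submodule HR (Matrix ι ι HR)} {W : Submodule ℝ (Matrix ι ι ℝ)}
    (h : ∀ x : ℕ → Matrix ι ι ℝ, (st x : Matrix ι ι HR) ∈ V ↔ ∀ᶠ n in UU, x n ∈ W) :
    V = starS W :=
  Submodule.ext (st_ind fun x => (h x).trans st_mem_starS.symm)

theorem starS_bot : starS (⊥ : Submodule ℝ (Matrix ι ι ℝ)) = ⊥ :=
  (eq_starS fun x => (Submodule.mem_bot HR).trans (NS.eq_iff x fun _ => 0)).symm

theorem starS_inf (V W : Submodule ℝ (Matrix ι ι ℝ)) : starS (V ⊓ W) = starS V ⊓ starS W :=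
  (eq_starS fun x => by
    simp only [Submodule.mem_inf, st_mem_starS, eventually_and]).symm

theorem starS_sup (V W : Submodule ℝ (Matrix ι ι ℝ)) : starS (V ⊔ W) = starS V ⊔ starS W := by
  refine le_antisymm (Submodule.span_le.2 ?_) (sup_le (starS_mono le_sup_left)
    (starS_mono le_sup_right))
  rintro _ ⟨Y, hY, rfl⟩
  obtain ⟨v, hv, w, hw, rfl⟩ := Submodule.mem_sup.1 hY
  exact Submodule.add_mem_sup (const_mem_starS.2 hv) (const_mem_starS.2 hw)

theorem starS_ker (ξ : Matrix ι ι ℝ →ₗ[ℝ] ℝ) :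
    starS (LinearMap.ker ξ) = LinearMap.ker (starF ξ) :=
  (eq_starS fun x => by
    rw [LinearMap.mem_ker, starF_st]
    exact NS.eq_iff (A := HR) _ fun _ => 0).symm

theorem starF_zero : starF (0 : Matrix ι ι ℝ →ₗ[ℝ] ℝ) = 0 :=
  LinearMap.ext (st_ind fun x => starF_st 0 x)

theorem starF_add (ξ η : Matrix ι ι ℝ →ₗ[ℝ] ℝ) : starF (ξ + η) = starF ξ + starF η :=
  LinearMap.ext (st_ind fun x => by
    rw [LinearMap.add_apply, starF_st, starF_st, starF_st]; rfl)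

theorem starF_neg (ξ : Matrix ι ι ℝ →ₗ[ℝ] ℝ) : starF (-ξ) = -starF ξ :=
  LinearMap.ext (st_ind fun x => by rw [LinearMap.neg_apply, starF_st, starF_st]; rfl)

theorem QR_eq : NC.QR = ⊥ :=
  le_antisymm (fun _ h => let ⟨r, e⟩ := NC.mem_QR.1 h; e ▸ SubfieldClass.ratCast_mem _ r) bot_le

theorem mem_bot_real {k : ℝ} : k ∈ (⊥ : Subfield ℝ) ↔ ∃ r : ℚ, k = r := QR_eq ▸ NC.mem_QR

theorem const_mem_subfield (K : Subfield HR) {k : ℝ} (h : k ∈ (⊥ : Subfield ℝ)) :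
    (st fun _ => k : HR) ∈ K := by
  obtain ⟨r, rfl⟩ := mem_bot_real.1 h
  have := SubfieldClass.ratCast_mem K r
  rwa [NC.ratCast_eq] at this

theorem IsRat.star {V : Submodule ℝ (Matrix ι ι ℝ)} (h : IsRat (⊥ : Subfield ℝ) V)
    (K : Subfield HR) : IsRat K (starS V) := by
  obtain ⟨e, h1, rfl⟩ := h.code
  have : starS (Submodule.span ℝ (Set.range e))
      = Submodule.span HR (Set.range fun j => (st fun _ => e j : Matrix ι ι HR)) := by
    refine le_antisymm (Submodule.span_le.2 ?_) (Submodule.span_le.2 ?_)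
    · rintro _ ⟨Y, hY, rfl⟩
      obtain ⟨c, rfl⟩ := (Submodule.mem_span_range_iff_exists_fun ℝ).1 hY
      rw [← st_sumM univ fun j _ => c j • e j]
      exact Submodule.sum_mem _ fun j _ => Submodule.smul_mem _ (st fun _ => c j : HR)
        (x := st fun _ => e j) (Submodule.subset_span ⟨j, rfl⟩)
    · rintro _ ⟨j, rfl⟩
      exact const_mem_starS.2 (Submodule.subset_span ⟨j, rfl⟩)
  rw [this]
  refine IsRat.span ?_
  rintro _ ⟨j, rfl⟩ a b
  exact const_mem_subfield K (h1 j a b)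

theorem RatF.star {ξ : Matrix ι ι ℝ →ₗ[ℝ] ℝ} (h : RatF (⊥ : Subfield ℝ) ξ) (K : Subfield HR) :
    RatF K (starF ξ) := ratF_fn.2 fun a b => const_mem_subfield K (h _ (ent_single a b))

theorem starS_br {U V W : Submodule ℝ (Matrix ι ι ℝ)}
    (h : ∀ X ∈ U, ∀ Y ∈ V, X * Y - Y * X ∈ W) :
    ∀ X ∈ starS U, ∀ Y ∈ starS V, X * Y - Y * X ∈ starS W := by
  intro X hX Y hY
  obtain ⟨X, rfl⟩ := NS.surj X
  obtain ⟨Y, rfl⟩ := NS.surj Y
  rw [st_brM, st_mem_starS]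
  filter_upwards [st_mem_starS.1 hX, st_mem_starS.1 hY] with n a b using h _ a _ b

theorem br_of_starS {U V W : Submodule ℝ (Matrix ι ι ℝ)}
    (h : ∀ X ∈ starS U, ∀ Y ∈ starS V, X * Y - Y * X ∈ starS W) :
    ∀ X ∈ U, ∀ Y ∈ V, X * Y - Y * X ∈ W := fun X hX Y hY => by
  have := h _ (const_mem_starS.2 hX) _ (const_mem_starS.2 hY)
  rwa [st_brM, const_mem_starS] at this

theorem st_mem_mF {i : ℕ} {X : ℕ → Matrix ι ι ℝ} :
    (st X : Matrix ι ι HR) ∈ mF HR lv i ↔ ∀ᶠ n in UU, X n ∈ mF ℝ lv i := by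
  simp only [mem_mF, eventually_all]
  exact forall₃_congr fun a b _ => NS.eq_iff (A := HR) _ fun _ => 0

/-! ### Families -/

variable (Q) in
/-- The extension of a family. -/
def Fam.star (g : Fam (⊥ : Subfield ℝ) lv I) : Fam (KK Q) lv I where
  r i := starS (g.r i)
  up i := st_ind fun _ h => st_mem_mF.2 ((st_mem_starS.1 h).mono fun _ => g.up i _)
  rat i := (g.rat i).star _
  br i j := starS_br (g.br i j)

theorem Fam.star_r (g : Fam (⊥ : Subfield ℝ) lv I) (i : I) : (g.star Q).r i = starS (g.r i) := rfl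

theorem Fam.star_le_iff {g h : Fam (⊥ : Subfield ℝ) lv I} : g.star Q ≤ h.star Q ↔ g ≤ h :=
  forall_congr' fun _ => starS_le_iff

theorem Fam.star_inf (g h : Fam (⊥ : Subfield ℝ) lv I) :
    (g.inf h).star Q = (g.star Q).inf (h.star Q) := Fam.ext (funext fun _ => starS_inf _ _)

theorem Fam.star_fine (g : Fam (⊥ : Subfield ℝ) lv ℕ) :
    (g.fine σ).star Q = (g.star Q).fine σ := rfl

theorem lg_st (x : ℕ → UT lv ℝ) : lg (st x : UT lv HR) = st fun n => lg (x n) := NC.st_lg x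

theorem st_mem_GG {g : Fam (⊥ : Subfield ℝ) lv I} {x : ℕ → UT lv ℝ} :
    st x ∈ (g.star Q).GG ↔ ∀ᶠ n in UU, x n ∈ g.GG := by
  rw [Fam.mem_GG, lg_st]; exact st_mem_starS

theorem Fam.Fil.star {g : Fam (⊥ : Subfield ℝ) lv ℕ} {D} (hg : g.Fil D) : (g.star Q).Fil D where
  zero := congrArg starS hg.zero
  anti i := starS_mono (hg.anti i)
  bd := (congrArg starS hg.bd).trans starS_bot

theorem Fam.Fil.of_star {g : Fam (⊥ : Subfield ℝ) lv ℕ} {D} (hg : (g.star Q).Fil D) :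
    g.Fil D where
  zero := starS_inj.1 hg.zero
  anti i := starS_le_iff.1 (hg.anti i)
  bd := starS_inj.1 (hg.bd.trans starS_bot.symm)

theorem Fam.Idl.star {g : Fam (⊥ : Subfield ℝ) lv I} {n} (h : g.Idl n) :
    (g.star Q).Idl (starS n) where
  rat := h.rat.star _
  le := starS_mono h.le
  br := starS_br h.br

theorem Fam.Idl.of_star {g : Fam (⊥ : Subfield ℝ) lv I} {n} (hn : IsRat (⊥ : Subfield ℝ) n)
    (h : (g.star Q).Idl (starS n)) : g.Idl n where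
  rat := hn
  le := starS_le_iff.1 h.le
  br := br_of_starS h.br

theorem Cen.star {g : Fam (⊥ : Subfield ℝ) lv I} {U ξ} (h : Cen g U ξ) :
    Cen (g.star Q) (starS U) (starF ξ) where
  idl := h.idl.star
  rat := h.rat.star _
  cen X hX Y hY := by
    have := starS_br (W := LinearMap.ker ξ) h.cen X hX Y hY
    rwa [starS_ker] at this

theorem Cen.of_star {g : Fam (⊥ : Subfield ℝ) lv I} {U ξ} (hU : IsRat (⊥ : Subfield ℝ) U)
    (hξ : RatF (⊥ : Subfield ℝ) ξ) (h : Cen (g.star Q) (starS U) (starF ξ)) : Cen g U ξ where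
  idl := h.idl.of_star hU
  rat := hξ
  cen := br_of_starS (W := LinearMap.ker ξ) (by rw [starS_ker]; exact h.cen)

/-! ### Germs of polynomial sequences -/

/-- `y` is the germ of the sequence `x` of polynomial sequences. -/
def Germs (x : ℕ → PS lv σ ℝ) (y : PS lv σ HR) : Prop :=
  (∃ s : Finset (σ →₀ ℕ), ∀ᶠ n in UU, ∀ β ∉ s, co β (x n).val = 0) ∧
    ∀ β, co β y.val = st fun n => co β (x n).val

/-- Polynomials with sequences as coefficients: the `n`-th term and the germ. -/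
def pAt (σ : Type) (n : ℕ) : MvPolynomial σ (ℕ → ℝ) →+* MvPolynomial σ ℝ :=
  MvPolynomial.map (Pi.evalRingHom (fun _ => ℝ) n)
def pGm (σ : Type) : MvPolynomial σ (ℕ → ℝ) →+* MvPolynomial σ HR :=
  MvPolynomial.map (Germ.coeRingHom UU)

theorem co_pGm (β : σ →₀ ℕ) (Z : Matrix ι ι (MvPolynomial σ (ℕ → ℝ))) :
    co β (Z.map (pGm σ)) = st fun n => co β (Z.map (pAt σ n)) := by
  ext a b
  simp only [co, Matrix.map_apply, pGm, pAt, NC.st_apply, coeff_map]
  rfl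

theorem supp_pAt (Z : Matrix ι ι (MvPolynomial σ (ℕ → ℝ))) :
    ∃ s : Finset (σ →₀ ℕ), ∀ n, ∀ β ∉ s, co β (Z.map (pAt σ n)) = 0 := by
  classical
  refine ⟨univ.biUnion fun p : ι × ι => (Z p.1 p.2).support, fun n β h => ?_⟩
  ext a b
  have : coeff β (Z a b) = 0 := notMem_support_iff.1 fun h' =>
    h (mem_biUnion.2 ⟨(a, b), mem_univ _, h'⟩)
  simp [co, pAt, coeff_map, this]

theorem exists_pAt (X : ℕ → Matrix ι ι (MvPolynomial σ ℝ)) (s : Finset (σ →₀ ℕ))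
    (h : ∀ n, ∀ β ∉ s, co β (X n) = 0) :
    ∃ Z : Matrix ι ι (MvPolynomial σ (ℕ → ℝ)), ∀ n, Z.map (pAt σ n) = X n := by
  classical
  refine ⟨Matrix.of fun a b => ∑ β ∈ s, monomial β fun n => co β (X n) a b, fun n =>
    ext_co fun β => ?_⟩
  ext a b
  simp only [co, Matrix.map_apply, Matrix.of_apply, pAt, map_sum, map_monomial, coeff_sum,
    coeff_monomial, sum_ite_eq']
  split_ifs with c
  · rfl
  · exact (congrFun (congrFun (h n β c) a) b).symm

theorem mF_of_pAt {Z : Matrix ι ι (MvPolynomial σ (ℕ → ℝ))} {i : ℕ}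
    (h : ∀ n, Z.map (pAt σ n) ∈ mF _ lv i) : Z ∈ mF _ lv i := fun a b hab =>
  MvPolynomial.ext _ _ fun β => funext fun n => by
    have := congrArg (coeff β) (h n a b hab)
    rwa [Matrix.map_apply, pAt, coeff_map] at this

theorem germs_map (z : UT lv (MvPolynomial σ (ℕ → ℝ))) :
    Germs (fun n => UT.map (pAt σ n) z) (UT.map (pGm σ) z) :=
  ⟨(supp_pAt z.val).imp fun _ h => Eventually.of_forall h, fun β => co_pGm β z.val⟩

theorem Germs.congr {x x' : ℕ → PS lv σ ℝ} {y : PS lv σ HR} (h : Germs x y)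
    (e : ∀ᶠ n in UU, x' n = x n) : Germs x' y :=
  ⟨h.1.imp fun _ h => (h.and e).mono fun _ h => h.2 ▸ h.1,
    fun β => (h.2 β).trans (st_congr (e.mono fun n hn => by rw [hn]))⟩

theorem Germs.unique {x : ℕ → PS lv σ ℝ} {y y' : PS lv σ HR} (h : Germs x y) (h' : Germs x y') :
    y = y' := UT.ext (ext_co fun β => (h.2 β).trans (h'.2 β).symm)

theorem Germs.eq {x x' : ℕ → PS lv σ ℝ} {y : PS lv σ HR} (h : Germs x y) (h' : Germs x' y) :
    ∀ᶠ n in UU, x n = x' n := by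
  classical
  obtain ⟨s, hs⟩ := h.1
  obtain ⟨s', hs'⟩ := h'.1
  have e : ∀ᶠ n in UU, ∀ β ∈ s ∪ s', co β (x n).val = co β (x' n).val :=
    (eventually_all_finset _).2 fun β _ => (NS.eq_iff _ _).1 ((h.2 β).symm.trans (h'.2 β))
  filter_upwards [hs, hs', e] with n a b c
  refine UT.ext (ext_co fun β => ?_)
  by_cases m : β ∈ s ∪ s'
  · exact c β m
  · rw [notMem_union] at m
    rw [a β m.1, b β m.2]

theorem Germs.lift {x : ℕ → PS lv σ ℝ} {y : PS lv σ HR} (h : Germs x y) :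
    ∃ z : UT lv (MvPolynomial σ (ℕ → ℝ)),
      (∀ᶠ n in UU, x n = UT.map (pAt σ n) z) ∧ y = UT.map (pGm σ) z := by
  classical
  obtain ⟨s, hs⟩ := h.1
  let x' : ℕ → PS lv σ ℝ := fun n => if ∀ β ∉ s, co β (x n).val = 0 then x n else 1
  have e : ∀ᶠ n in UU, x' n = x n := hs.mono fun n hn => if_pos hn
  obtain ⟨Z, hZ⟩ := exists_pAt (fun n => (x' n).val - 1) (insert 0 s) fun n β hβ => by
    rw [mem_insert, not_or] at hβ
    have h1 : co β (1 : Matrix ι ι (MvPolynomial σ ℝ)) = 0 := by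
      rw [← Matrix.map_one C C_0 C_1, co_C, if_neg hβ.1]
    rw [co_sub, h1, sub_zero]
    simp only [x']
    split_ifs with c
    exacts [c β hβ.2, h1]
  let z : UT lv (MvPolynomial σ (ℕ → ℝ)) := ⟨Z + 1, by
    rw [add_sub_cancel_right]
    exact mF_of_pAt fun n => hZ n ▸ (x' n).up⟩
  have k : ∀ n, x' n = UT.map (pAt σ n) z := fun n => UT.ext (by
    change _ = (pAt σ n).mapMatrix (Z + 1)
    rw [map_add, map_one, RingHom.mapMatrix_apply, hZ, sub_add_cancel])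
  have e' : ∀ᶠ n in UU, x n = UT.map (pAt σ n) z := e.mono fun n hn => hn ▸ k n
  exact ⟨z, e', h.unique ((germs_map z).congr e')⟩

theorem Germs.lg {x : ℕ → PS lv σ ℝ} {y : PS lv σ HR} (h : Germs x y) (β : σ →₀ ℕ) :
    co β (lg y) = st fun n => co β (Nil.lg (x n)) := by
  obtain ⟨z, e, rfl⟩ := h.lift
  rw [lg_map, co_pGm]
  exact st_congr (e.mono fun n hn => by rw [hn, lg_map])

theorem Germs.lg_supp {x : ℕ → PS lv σ ℝ} {y : PS lv σ HR} (h : Germs x y) :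
    ∃ s : Finset (σ →₀ ℕ), ∀ᶠ n in UU, ∀ β ∉ s, co β (Nil.lg (x n)) = 0 := by
  obtain ⟨z, e, rfl⟩ := h.lift
  exact (supp_pAt (Nil.lg z)).imp fun s hs => e.mono fun n hn => by rw [hn, lg_map]; exact hs n

theorem germs_of_lg {x : ℕ → PS lv σ ℝ} (s : Finset (σ →₀ ℕ))
    (hs : ∀ᶠ n in UU, ∀ β ∉ s, co β (lg (x n)) = 0) : ∃ y, Germs x y := by
  classical
  let x' : ℕ → PS lv σ ℝ := fun n => if ∀ β ∉ s, co β (lg (x n)) = 0 then x n else 1
  have e : ∀ᶠ n in UU, x' n = x n := hs.mono fun n hn => if_pos hn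
  obtain ⟨Z, hZ⟩ := exists_pAt (fun n => lg (x' n)) s fun n β hβ => by
    simp only [x']
    split_ifs with c
    exacts [c β hβ, by rw [lg_one, co_zero]]
  have m : Z ∈ mF _ lv 1 := mF_of_pAt fun n => hZ n ▸ lg_mem (x' n)
  refine ⟨_, (germs_map (ex lv Z)).congr (e.mono fun n hn => lg_inj ?_)⟩
  rw [lg_map, lg_ex m, hZ, hn]

theorem Germs.of_lg {x : ℕ → PS lv σ ℝ} {y : PS lv σ HR} (s : Finset (σ →₀ ℕ))
    (hs : ∀ᶠ n in UU, ∀ β ∉ s, co β (Nil.lg (x n)) = 0)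
    (h : ∀ β, co β (Nil.lg y) = st fun n => co β (Nil.lg (x n))) : Germs x y := by
  obtain ⟨y', h'⟩ := germs_of_lg s hs
  rwa [lg_inj (ext_co fun β => (h β).trans (h'.lg β).symm : Nil.lg y = Nil.lg y')]

theorem Germs.mem_PG {g : Fam (⊥ : Subfield ℝ) lv (σ →₀ ℕ)} {x : ℕ → PS lv σ ℝ} {y : PS lv σ HR}
    (h : Germs x y) : y ∈ (g.star Q).PG ↔ ∀ᶠ n in UU, x n ∈ g.PG := by
  simp only [Fam.mem_PG, h.lg, Fam.star_r, st_mem_starS]
  refine ⟨fun H => ?_, fun H β => H.mono fun n hn => hn β⟩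
  obtain ⟨s, hs⟩ := h.lg_supp
  filter_upwards [hs, (eventually_all_finset s).2 fun β _ => H β] with n a b β
  by_cases c : β ∈ s
  · exact b β c
  · rw [a β c]; exact zero_mem _

theorem lg_supp_of_fil [Finite σ] {FF : Type} [Field FF] [CharZero FF] {K : Subfield FF}
    {g : Fam K lv ℕ} {D} (hg : g.Fil D) {x : PS lv σ FF} (hx : x ∈ (g.fine σ).PG) :
    ∀ β ∉ (Finsupp.finite_of_degree_le (σ := σ) D).toFinset, co β (lg x) = 0 := fun β hβ => by
  have := hx β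
  rwa [hg.fine_bd β (by simpa using hβ), Submodule.mem_bot] at this

theorem exists_germs [Finite σ] {g : Fam (⊥ : Subfield ℝ) lv ℕ} {D} (hg : g.Fil D)
    {x : ℕ → PS lv σ ℝ} (hx : ∀ᶠ n in UU, x n ∈ (g.fine σ).PG) :
    ∃ y ∈ ((g.star Q).fine σ).PG, Germs x y := by
  obtain ⟨y, h⟩ := germs_of_lg _ (hx.mono fun n => lg_supp_of_fil hg)
  exact ⟨y, (h.mem_PG (g := g.fine σ)).2 hx, h⟩

theorem exists_seq0 (y : PS lv σ HR) : ∃ x, Germs x y := by
  classical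
  choose X hX using fun n => exists_co (fun β => if β ∈ supp (lg y) ∧
    (rep (co β (lg y)) n : Matrix ι ι ℝ) ∈ mF ℝ lv 1 then rep (co β (lg y)) n else 0)
    ((supp (lg y)).finite_toSet.subset fun β hβ => by_contra fun c => hβ (if_neg fun h => c h.1))
  have m : ∀ n, X n ∈ mF _ lv 1 := fun n => up_iff_co.2 fun β => by
    rw [hX]
    split_ifs with c
    exacts [c.2, zero_mem _]
  refine ⟨fun n => ex lv (X n), Germs.of_lg (supp (lg y))
    (Eventually.of_forall fun n β hβ => ?_) fun β => ?_⟩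
  · rw [lg_ex (m n), hX, if_neg fun h => hβ h.1]
  · simp only [lg_ex (m _), hX]
    by_cases c : β ∈ supp (lg y)
    · have := up_iff_co.1 (lg_mem y) β
      rw [← st_rep (co β (lg y)), st_mem_mF] at this
      exact (st_rep _).symm.trans (st_congr (this.mono fun n hn => (if_pos ⟨c, hn⟩).symm))
    · simp only [c, false_and, if_false]
      exact co_eq_zero c

theorem exists_seq' {g : Fam (⊥ : Subfield ℝ) lv (σ →₀ ℕ)} {y : PS lv σ HR}
    (hy : y ∈ (g.star Q).PG) : ∃ x, (∀ n, x n ∈ g.PG) ∧ Germs x y := by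
  classical
  obtain ⟨x, h⟩ := exists_seq0 y
  refine ⟨fun n => if x n ∈ g.PG then x n else 1, fun n => ?_,
    h.congr ((h.mem_PG.1 hy).mono fun n hn => if_pos hn)⟩
  beta_reduce
  split_ifs with c
  exacts [c, one_mem _]

theorem exists_seq [Finite σ] {g : Fam (⊥ : Subfield ℝ) lv ℕ} {y : PS lv σ HR}
    (hy : y ∈ ((g.star Q).fine σ).PG) : ∃ x, (∀ n, x n ∈ (g.fine σ).PG) ∧ Germs x y :=
  exists_seq' (g := g.fine σ) hy

theorem eval_pGm (a : ℕ → σ → ℝ) (p : MvPolynomial σ (ℕ → ℝ)) :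
    eval (fun l => (st fun n => a n l : HR)) (pGm σ p) = st fun n => eval (a n) (pAt σ n p) := by
  have e1 : (eval fun l => (st fun n => a n l : HR)).comp (pGm σ)
      = (Germ.coeRingHom UU).comp (eval fun l n => a n l) :=
    ringHom_ext (fun c => by simp [pGm]) fun l => by simp [pGm]; rfl
  have e2 : ∀ n, (eval (a n)).comp (pAt σ n)
      = (Pi.evalRingHom (fun _ => ℝ) n).comp (eval fun l n => a n l) := fun n =>
    ringHom_ext (fun c => by simp [pAt]) fun l => by simp [pAt]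
  exact (RingHom.congr_fun e1 p).trans
    (congrArg st (funext fun n => (RingHom.congr_fun (e2 n) p).symm))

theorem Germs.ev [Finite σ] {x : ℕ → PS lv σ ℝ} {y : PS lv σ HR} (h : Germs x y)
    (a : ℕ → σ → ℝ) : ev (st a) y = st fun n => Nil.ev (a n) (x n) := by
  obtain ⟨z, e, rfl⟩ := h.lift
  rw [st_congr (A := UT lv HR) (y := fun n => Nil.ev (a n) (UT.map (pAt σ n) z))
    (e.mono fun n hn => by rw [hn])]
  exact UT.ext (Matrix.ext fun p q => eval_pGm a (z.val p q))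

theorem Germs.mul {x x' : ℕ → PS lv σ ℝ} {y y' : PS lv σ HR} (h : Germs x y) (h' : Germs x' y') :
    Germs (fun n => x n * x' n) (y * y') := by
  obtain ⟨z, e, rfl⟩ := h.lift
  obtain ⟨z', e', rfl⟩ := h'.lift
  rw [← map_mul]
  exact (germs_map _).congr ((e.and e').mono fun n hn => by rw [map_mul, hn.1, hn.2])

theorem Germs.inv {x : ℕ → PS lv σ ℝ} {y : PS lv σ HR} (h : Germs x y) :
    Germs (fun n => (x n)⁻¹) y⁻¹ := by
  obtain ⟨z, e, rfl⟩ := h.lift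
  rw [← map_inv]
  exact (germs_map _).congr (e.mono fun n hn => by rw [map_inv, hn])

theorem germs_cst (a : ℕ → UT lv ℝ) : Germs (fun n => cst σ (a n)) (cst σ (st a)) := by
  classical
  refine ⟨⟨{0}, Eventually.of_forall fun n β hβ => ?_⟩, fun β => ?_⟩
  · exact (co_C β _).trans (if_neg fun e => hβ (mem_singleton.2 e))
  · refine (co_C β _).trans (Eq.trans ?_ (congrArg st (funext fun n => (co_C β _).symm)))
    split_ifs <;> rfl

/-- Families: an arbitrary choice of polynomial sequences is an internal family. -/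
theorem exists_intS [Finite σ] {g : Fam (⊥ : Subfield ℝ) lv ℕ} {D} (hg : g.Fil D)
    (x : ℕ → S → PS lv σ ℝ) (hx : ∀ n s, x n s ∈ (g.fine σ).PG) :
    ∃ y : A → PS lv σ HR, IntS y ∧ ∀ a : ℕ → S, y (st a) ∈ ((g.star Q).fine σ).PG ∧
      Germs (fun n => x n (a n)) (y (st a)) := by
  choose y h1 h2 using fun a : A => exists_germs (Q := Q) hg (x := fun n => x n (rep a n))
    (Eventually.of_forall fun n => hx n _)
  have h3 : ∀ a : ℕ → S, Germs (fun n => x n (a n)) (y (st a)) := fun a =>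
    (h2 (st a)).congr ((rep_st (A := A) a).mono fun n hn => by rw [hn])
  exact ⟨y, IntS.of_lg (IntM.of_co ⟨_, fun a => lg_supp_of_fil hg.star (h1 a)⟩ fun β =>
    ⟨fun n s => co β (lg (x n s)), fun a => (h3 a).lg β⟩), fun a => ⟨h1 _, h3 a⟩⟩

theorem IntS.exists_seq' {g : Fam (⊥ : Subfield ℝ) lv (σ →₀ ℕ)} {y : A → PS lv σ HR}
    (hy : IntS y) : ∃ x : ℕ → S → PS lv σ ℝ, (∀ n s, x n s ∈ g.PG) ∧
      ∀ a : ℕ → S, y (st a) ∈ (g.star Q).PG → Germs (fun n => x n (a n)) (y (st a)) := by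
  classical
  obtain ⟨s, hs⟩ := hy.supp
  choose φ hφ using hy.int
  let P : ℕ → S → PS lv σ ℝ → Prop := fun n t u =>
    u ∈ g.PG ∧ ∀ β, co β u.val = if β ∈ s then φ β n t else 0
  refine ⟨fun n t => if h : ∃ u, P n t u then h.choose else 1, fun n t => ?_, fun a ha => ?_⟩
  · beta_reduce
    split_ifs with c
    exacts [c.choose_spec.1, one_mem _]
  · obtain ⟨x, h1, h2⟩ := Nil.exists_seq' ha
    obtain ⟨s', hs'⟩ := h2.1
    have e : ∀ᶠ n in UU, ∀ β ∈ s ∪ s',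
        co β (x n).val = if β ∈ s then φ β n (a n) else 0 :=
      (eventually_all_finset _).2 fun β _ => (NS.eq_iff (A := Matrix ι ι HR) _ _).1 (by
        rw [← h2.2 β]
        split_ifs with c
        exacts [hφ β a, hs _ β c])
    refine h2.congr ?_
    filter_upwards [hs', e] with n b c
    have k : P n (a n) (x n) := ⟨h1 n, fun β => by
      by_cases m : β ∈ s ∪ s'
      · exact c β m
      · rw [notMem_union] at m
        rw [b β m.2, if_neg m.1]⟩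
    have k' : ∃ u, P n (a n) u := ⟨_, k⟩
    rw [dif_pos k']
    exact UT.ext (ext_co fun β => (k'.choose_spec.2 β).trans (k.2 β).symm)

theorem IntS.exists_seq [Finite σ] {g : Fam (⊥ : Subfield ℝ) lv ℕ} {D} (_hg : g.Fil D)
    {y : A → PS lv σ HR} (hy : IntS y) : ∃ x : ℕ → S → PS lv σ ℝ, (∀ n s, x n s ∈ (g.fine σ).PG) ∧
      ∀ a : ℕ → S, y (st a) ∈ ((g.star Q).fine σ).PG → Germs (fun n => x n (a n)) (y (st a)) :=
  hy.exists_seq' (g := g.fine σ)

/-! ### Functions -/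

theorem lev_st_iff {q : ℕ → ℝ} {x : ℕ → UT lv ℝ} : Lev (st q) (st x : UT lv HR) ↔
    ∀ᶠ n in UU, Ent {t : ℝ | ∃ z : ℤ, t = q n * z} ((x n).val - 1) := by
  simp only [Lev, Ent, eventually_all, NC.st_sub_one]
  refine forall₂_congr fun a b => ⟨?_, fun h => ?_⟩
  · rintro ⟨_, ⟨z, rfl⟩, e⟩
    exact ((NS.eq_iff (A := HR) _ fun n => q n * z n).1 e).mono fun n hn => ⟨z n, hn⟩
  · obtain ⟨z, hz⟩ := ev_exists.1 h
    exact ⟨_, ⟨z, rfl⟩, st_congr (A := HR) (y := fun n => q n * z n) hz⟩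

theorem NiceR.nice {g : Fam (⊥ : Subfield ℝ) lv I} {q : ℕ → ℕ} {L : ℕ → ℝ}
    {F : ℕ → UT lv ℝ → ℂ} (h : ∀ᶠ n in UU, 0 < q n ∧ NiceR (q n) (L n) g.GG (F n))
    (hq : (st fun n => (q n : ℝ) : HR) ∈ OO Q) (hL : (st L : HR) ∈ OO Q) :
    Nice Q (st fun n => (q n : ℝ)) (g.star Q).GG (app F) where
  lvl := ⟨⟨fun n => q n, rfl⟩, hq, fun e => by
    obtain ⟨n, h1, h2⟩ := (h.and ((NS.eq_iff (A := HR) _ fun _ => 0).1 e)).exists
    exact h1.1.ne' (Nat.cast_eq_zero.1 h2)⟩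
  int := intF_app _
  bd := st_ind fun x => by
    rw [app_st]
    exact st_le.2 (h.mono fun n hn => hn.2.bd _)
  cts e he ht x hx := by
    obtain ⟨x, rfl⟩ := NS.surj x
    obtain ⟨e, rfl⟩ := NS.surj e
    refine TinyC.of_le (Tiny.mul' (Tiny.sum (s := univ) fun a _ => Tiny.sum (s := univ)
      fun b _ => Tiny.abs (ht a b)) hL) ?_
    simp only [NC.st_mul, app_st, NC.st_sub_one]
    have e1 : ∀ a b, |(st fun n => (e n).val - 1 : Matrix ι ι HR) a b|
        = (st fun n => |((e n).val - 1) a b| : HR) := fun a b => st_abs _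
    simp only [e1, st_sum]
    refine st_le.2 ?_
    filter_upwards [h, st_mem_GG.1 he, st_mem_GG.1 hx] with n a b c using a.2.lip _ b _ c
  per c hc hl x hx := by
    obtain ⟨x, rfl⟩ := NS.surj x
    obtain ⟨c, rfl⟩ := NS.surj c
    refine TinyC.of_eq ?_
    rw [NC.st_mul, app_st, app_st]
    refine st_congr ?_
    filter_upwards [h, st_mem_GG.1 hc, st_mem_GG.1 hx, lev_st_iff.1 hl] with n a b c d
      using a.2.per _ b d _ c

theorem EqvR.eqv {g : Fam (⊥ : Subfield ℝ) lv I} {U ξ} {F : ℕ → UT lv ℝ → ℂ}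
    (h : ∀ᶠ n in UU, EqvR g.GG U ξ (F n)) :
    Eqv Q (g.star Q).GG (starS U) (starF ξ) (app F) := by
  intro z hz x hx
  obtain ⟨x, rfl⟩ := NS.surj x
  obtain ⟨z, rfl⟩ := NS.surj z
  refine TinyC.of_eq ?_
  rw [lg_st] at hz ⊢
  rw [NC.st_mul, app_st, app_st, starF_st]
  refine st_congr (A := HC) (y := fun n =>
    Complex.exp (2 * Real.pi * Complex.I * (ξ (lg (z n)) : ℝ)) * F n (x n)) ?_
  filter_upwards [h, st_mem_starS.1 hz, st_mem_GG.1 hx] with n a b c using a _ b _ c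

/-! ### The constant scale -/

instance fact_two : Fact (2 ≤ (2 : HR)) := ⟨le_rfl⟩

theorem mem_KK_two {x : HR} : x ∈ KK 2 ↔ ∃ r : ℚ, x = (r : HR) :=
  ⟨NC.mem_KK_two x, fun ⟨r, e⟩ => e ▸ SubfieldClass.ratCast_mem _ r⟩

theorem exists_starS {V : Submodule HR (Matrix ι ι HR)} (h : IsRat (KK 2) V) :
    ∃ W, IsRat (⊥ : Subfield ℝ) W ∧ V = starS W := by
  obtain ⟨W, h1, h2⟩ := NC.sub_transfer NC.mem_KK_two h
  exact ⟨W, QR_eq ▸ h1, eq_starS h2⟩

theorem exists_starF {ξ : Matrix ι ι HR →ₗ[HR] HR} (h : RatF (KK 2) ξ) :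
    ∃ η, RatF (⊥ : Subfield ℝ) η ∧ ξ = starF η := by
  obtain ⟨η, h1, h2⟩ := NC.fn_transfer NC.mem_KK_two h
  exact ⟨η, QR_eq ▸ h1, LinearMap.ext (st_ind fun x => (h2 x).trans (starF_st η x).symm)⟩

theorem exists_star (h : Fam (KK 2) lv I) : ∃ g : Fam (⊥ : Subfield ℝ) lv I, h = g.star 2 := by
  choose W h1 h2 using fun i => exists_starS (h.rat i)
  refine ⟨⟨W, fun i X hX => ?_, h1, fun i j => br_of_starS ?_⟩, Fam.ext (funext h2)⟩
  · have := h.up i _ (h2 i ▸ const_mem_starS.2 hX)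
    exact eventually_const.1 (st_mem_mF.1 this)
  · rw [← h2, ← h2, ← h2]; exact h.br i j

theorem exists_nat_lvl {q : HR} (h : q ∈ ZZ ∧ q ∈ OO 2 ∧ q ≠ 0) :
    ∃ q0 : ℕ, 0 < q0 ∧ ∃ s ∈ ZZ, (q0 : HR) = q * s := by
  obtain ⟨r, rfl⟩ := mem_KK_two.1 (KK_of_ZZ h.1 h.2.1)
  obtain ⟨z, hz⟩ := h.1
  rw [NC.ratCast_eq, Germ.coe_eq] at hz
  obtain ⟨n, hn⟩ := hz.exists
  have e : r = z n := by exact_mod_cast (show (r : ℝ) = z n from hn)
  have h0 : z n ≠ 0 := fun c => h.2.2 (by rw [e, c]; simp)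
  refine ⟨(z n).natAbs, Int.natAbs_pos.2 h0, (z n).sign, intCast_mem _ _, ?_⟩
  rw [e, Rat.cast_intCast, ← Int.cast_mul, Int.mul_sign_self, Int.cast_natCast]

/-! ### Lipschitz regularisation -/

theorem inf_conv {G : Type*} [Group G] {ρ : G → ℝ} (h0 : ∀ e, 0 ≤ ρ e) (h1 : ρ 1 = 0)
    (h2 : ∀ a b, ρ (a * b) ≤ ρ a + ρ b) {f : G → ℝ} (hf : ∀ x, |f x| ≤ 1) {ε η : ℝ} (hε : 0 ≤ ε)
    (hη : 0 < η) (hc : ∀ e x, ρ e ≤ η → |f (e * x) - f x| ≤ ε) :
    ∃ f' : G → ℝ, (∀ x, |f' x - f x| ≤ ε) ∧ (∀ e x, f' x ≤ f' (e * x) + 2 / η * ρ e) ∧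
      ∀ x x', (∀ e, f (e * x) = f (e * x')) → f' x = f' x' := by
  have hL : 0 ≤ 2 / η := by positivity
  have lo : ∀ x e, f x - ε ≤ f (e * x) + 2 / η * ρ e := fun x e => by
    have := mul_nonneg hL (h0 e)
    rcases le_total (ρ e) η with c | c
    · linarith [(abs_le.1 (hc e x c)).1]
    · have : 2 / η * η ≤ 2 / η * ρ e := mul_le_mul_of_nonneg_left c hL
      rw [div_mul_cancel₀ _ hη.ne'] at this
      linarith [(abs_le.1 (hf x)).2, (abs_le.1 (hf (e * x))).1]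
  have bd : ∀ x, BddBelow (Set.range fun e => f (e * x) + 2 / η * ρ e) := fun x =>
    ⟨f x - ε, by rintro _ ⟨e, rfl⟩; exact lo x e⟩
  refine ⟨fun x => ⨅ e, (f (e * x) + 2 / η * ρ e), fun x => abs_le.2 ⟨?_, ?_⟩, fun e x => ?_,
    fun x x' h => by simp only [h]⟩
  · linarith [le_ciInf (lo x)]
  · have := ciInf_le (bd x) 1
    rw [one_mul, h1, mul_zero, add_zero] at this
    linarith
  · rw [← sub_le_iff_le_add]
    refine le_ciInf fun a => ?_
    have k := ciInf_le (bd x) (a * e)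
    have := mul_le_mul_of_nonneg_left (h2 a e) hL
    rw [mul_assoc] at k
    linarith

/-- The sum of the absolute values of the entries. -/
def n1 (X : Matrix ι ι ℝ) : ℝ := ∑ a, ∑ b, |X a b|

theorem n1_nonneg (X : Matrix ι ι ℝ) : 0 ≤ n1 X := by unfold n1; positivity
theorem n1_neg (X : Matrix ι ι ℝ) : n1 (-X) = n1 X := by simp [n1]
theorem n1_add (X Y : Matrix ι ι ℝ) : n1 (X + Y) ≤ n1 X + n1 Y := by
  simp only [n1, ← sum_add_distrib]
  exact sum_le_sum fun a _ => sum_le_sum fun b _ => abs_add_le _ _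
theorem le_n1 (X : Matrix ι ι ℝ) (a b : ι) : |X a b| ≤ n1 X :=
  (single_le_sum (f := fun b => |X a b|) (fun _ _ => abs_nonneg _) (mem_univ b)).trans
    (single_le_sum (f := fun a => ∑ b, |X a b|) (fun _ _ => by positivity) (mem_univ a))
theorem n1_mul (X Y : Matrix ι ι ℝ) : n1 (X * Y) ≤ n1 X * n1 Y := by
  calc _ ≤ ∑ a, ∑ b, ∑ c, |X a c| * |Y c b| := sum_le_sum fun a _ => sum_le_sum fun b _ => by
        rw [Matrix.mul_apply]
        exact (abs_sum_le_sum_abs _ _).trans (sum_le_sum fun c _ => (abs_mul _ _).le)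
    _ = ∑ a, ∑ c, |X a c| * ∑ b, |Y c b| := sum_congr rfl fun a _ => by
        rw [sum_comm]; simp only [mul_sum]
    _ ≤ ∑ a, ∑ c, |X a c| * n1 Y := sum_le_sum fun a _ => sum_le_sum fun c _ =>
        mul_le_mul_of_nonneg_left (single_le_sum (f := fun a => ∑ b, |Y a b|)
          (fun _ _ => by positivity) (mem_univ c)) (abs_nonneg _)
    _ = _ := by simp only [n1, sum_mul]

theorem n1_umul (x y : UT lv ℝ) :
    1 + n1 ((x * y).val - 1) ≤ (1 + n1 (x.val - 1)) * (1 + n1 (y.val - 1)) := by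
  have e : (x * y).val - 1 = (x.val - 1) * (y.val - 1) + (x.val - 1) + (y.val - 1) := by
    rw [UT.mul_val]; noncomm_ring
  have h1 := n1_add ((x.val - 1) * (y.val - 1) + (x.val - 1)) (y.val - 1)
  have h2 := n1_add ((x.val - 1) * (y.val - 1)) (x.val - 1)
  have h3 := n1_mul (x.val - 1) (y.val - 1)
  rw [e]; linarith

theorem n1_uinv (x : UT lv ℝ) (h : n1 (x.val - 1) ≤ 1 / 2) :
    n1 (x⁻¹.val - 1) ≤ 2 * n1 (x.val - 1) := by
  have e : x⁻¹.val - 1 = -((x.val - 1) * (x⁻¹.val - 1) + (x.val - 1)) := by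
    rw [mul_sub, sub_mul, UT.mul_inv_val]; noncomm_ring
  have h1 := n1_add ((x.val - 1) * (x⁻¹.val - 1)) (x.val - 1)
  have h2 := n1_mul (x.val - 1) (x⁻¹.val - 1)
  rw [← n1_neg, ← e] at h1
  nlinarith [n1_nonneg (x⁻¹.val - 1)]

/-- A uniformly continuous function is close to a Lipschitz function with the same symmetries. -/
theorem lip_reg (G : Subgroup (UT lv ℝ)) {f : UT lv ℝ → ℂ} (hf : ∀ x, ‖f x‖ ≤ 1) {ε η : ℝ}
    (hε : 0 ≤ ε) (hη : 0 < η)
    (hc : ∀ e ∈ G, ∀ x ∈ G, n1 (e.val - 1) ≤ η → ‖f (e * x) - f x‖ ≤ ε) :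
    ∃ (L : ℝ) (f' : UT lv ℝ → ℂ), 0 ≤ L ∧ (∀ x, ‖f' x‖ ≤ 1) ∧ (∀ x ∈ G, ‖f' x - f x‖ ≤ 4 * ε) ∧
      (∀ e ∈ G, ∀ x ∈ G, ‖f' (e * x) - f' x‖ ≤ L * n1 (e.val - 1)) ∧
      ∀ x ∈ G, ∀ x' ∈ G, (∀ e ∈ G, f (e * x) = f (e * x')) → f' x = f' x' := by
  classical
  let ρ : G → ℝ := fun e => Real.log (1 + n1 (e.1.val - 1))
  have p : ∀ e : UT lv ℝ, 0 < 1 + n1 (e.val - 1) := fun e => by linarith [n1_nonneg (e.val - 1)]
  have h0 : ∀ e, 0 ≤ ρ e := fun e => Real.log_nonneg (by linarith [n1_nonneg (e.1.val - 1)])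
  have h1 : ρ 1 = 0 := by simp [ρ, n1]
  have h2 : ∀ a b, ρ (a * b) ≤ ρ a + ρ b := fun a b => by
    simp only [ρ]
    rw [← Real.log_mul (p _).ne' (p _).ne']
    exact Real.log_le_log (p _) (n1_umul _ _)
  have h3 : ∀ e, ρ e ≤ n1 (e.1.val - 1) := fun e => by
    linarith [Real.log_le_sub_one_of_pos (p e.1)]
  have hη' : 0 < Real.log (1 + η) := Real.log_pos (by linarith)
  have h4 : ∀ e x : G, ρ e ≤ Real.log (1 + η) → ‖f (e * x).1 - f x.1‖ ≤ ε := fun e x h =>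
    hc _ e.2 _ x.2 (by linarith [(Real.log_le_log_iff (p e.1) (by linarith)).1 h])
  obtain ⟨u, u1, u2, u3⟩ := inf_conv h0 h1 h2 (f := fun x => (f x.1).re)
    (fun x => (Complex.abs_re_le_norm _).trans (hf _)) hε hη' fun e x h => by
      rw [← Complex.sub_re]; exact (Complex.abs_re_le_norm _).trans (h4 e x h)
  obtain ⟨v, v1, v2, v3⟩ := inf_conv h0 h1 h2 (f := fun x => (f x.1).im)
    (fun x => (Complex.abs_im_le_norm _).trans (hf _)) hε hη' fun e x h => by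
      rw [← Complex.sub_im]; exact (Complex.abs_im_le_norm _).trans (h4 e x h)
  set M := 2 / Real.log (1 + η) with hM
  have M0 : 0 ≤ M := by positivity
  let w : G → ℂ := fun x => ⟨u x, v x⟩
  have w1 : ∀ x, ‖w x - f x.1‖ ≤ 2 * ε := fun x =>
    (Complex.norm_le_abs_re_add_abs_im _).trans ((add_le_add (u1 x) (v1 x)).trans_eq
      (two_mul ε).symm)
  have w2 : ∀ x, ‖w x‖ ≤ 1 + 2 * ε := fun x => by
    linarith [norm_le_norm_add_norm_sub' (w x) (f x.1), w1 x, hf x.1]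
  have c0 : 0 < 1 + 2 * ε := by linarith
  have nc : ‖((1 + 2 * ε : ℝ) : ℂ)‖ = 1 + 2 * ε := Complex.norm_of_nonneg c0.le
  have b1 : ∀ x, ‖w x / ((1 + 2 * ε : ℝ) : ℂ)‖ ≤ 1 := fun x => by
    rw [norm_div, nc]; exact div_le_one_of_le₀ (w2 x) c0.le
  have two : ∀ t : G → ℝ, (∀ e x, t x ≤ t (e * x) + M * ρ e) → ∀ e x : G,
      n1 (e.1.val - 1) ≤ 1 / 2 → |t (e * x) - t x| ≤ 2 * M * n1 (e.1.val - 1) := by
    intro t ht e x h
    have a1 := ht e x
    have a2 := ht e⁻¹ (e * x)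
    rw [inv_mul_cancel_left] at a2
    have a3 := mul_le_mul_of_nonneg_left (h3 e) M0
    have a4 := mul_le_mul_of_nonneg_left ((h3 e⁻¹).trans (n1_uinv e.1 h)) M0
    have a5 := mul_nonneg M0 (n1_nonneg (e.1.val - 1))
    exact abs_le.2 ⟨by linarith, by linarith⟩
  refine ⟨4 * M + 4, fun x => if h : x ∈ G then w ⟨x, h⟩ / ((1 + 2 * ε : ℝ) : ℂ) else 0,
    by positivity, fun x => ?_, fun x hx => ?_, fun e he x hx => ?_, fun x hx x' hx' h => ?_⟩
  · beta_reduce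
    split_ifs
    exacts [b1 _, by simp]
  · beta_reduce
    rw [dif_pos hx]
    have e : w ⟨x, hx⟩ / ((1 + 2 * ε : ℝ) : ℂ) - f x = (w ⟨x, hx⟩ - f x)
        - (2 * ε : ℝ) * (w ⟨x, hx⟩ / ((1 + 2 * ε : ℝ) : ℂ)) := by
      have : ((1 + 2 * ε : ℝ) : ℂ) ≠ 0 := by exact_mod_cast c0.ne'
      field_simp
      push_cast; ring
    rw [e]
    refine (norm_sub_le _ _).trans ?_
    rw [norm_mul, Complex.norm_of_nonneg (by positivity)]
    nlinarith [w1 ⟨x, hx⟩, b1 ⟨x, hx⟩]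
  · beta_reduce
    rw [dif_pos hx, dif_pos (mul_mem he hx)]
    have n0 := n1_nonneg (e.val - 1)
    rcases le_total (n1 (e.val - 1)) (1 / 2) with c | c
    · rw [← sub_div, norm_div, nc]
      refine (div_le_self (norm_nonneg _) (by linarith)).trans
        ((Complex.norm_le_abs_re_add_abs_im _).trans ?_)
      have a1 := two u u2 ⟨e, he⟩ ⟨x, hx⟩ c
      have a2 := two v v2 ⟨e, he⟩ ⟨x, hx⟩ c
      change |u (⟨e, he⟩ * ⟨x, hx⟩) - u ⟨x, hx⟩| + |v (⟨e, he⟩ * ⟨x, hx⟩) - v ⟨x, hx⟩| ≤ _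
      dsimp only at a1 a2
      linarith
    · refine (norm_sub_le _ _).trans ?_
      nlinarith [b1 ⟨x, hx⟩, b1 ⟨e * x, mul_mem he hx⟩]
  · beta_reduce
    rw [dif_pos hx, dif_pos hx']
    simp only [w]
    rw [u3 ⟨x, hx⟩ ⟨x', hx'⟩ fun e => congrArg Complex.re (h e.1 e.2),
      v3 ⟨x, hx⟩ ⟨x', hx'⟩ fun e => congrArg Complex.im (h e.1 e.2)]

/-! ### Standard parts -/

theorem diag {P : ℕ → ℕ → Prop} (h : ∀ k, ∀ᶠ n in UU, P k n) :
    ∃ k : ℕ → ℕ, Tendsto k UU atTop ∧ ∀ᶠ n in UU, P (k n) n := by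
  classical
  refine ⟨fun n => Nat.findGreatest (fun k => P k n) n, tendsto_atTop.2 fun j => ?_, ?_⟩
  · filter_upwards [h j, ev_ge j] with n a b using Nat.le_findGreatest b a
  · filter_upwards [h 0] with n a
      using Nat.findGreatest_spec (P := fun k => P k n) (Nat.zero_le n) a

open scoped Matrix.Norms.Operator Topology in
/-- Every sequence in the group is a standard point up to an infinitesimal on the left and a
lattice element on the right. -/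
theorem exists_near (g : Fam (⊥ : Subfield ℝ) lv I) {q : ℕ} (hq : 0 < q) {x : ℕ → UT lv ℝ}
    (hx : ∀ᶠ n in UU, x n ∈ g.GG) : ∃ a ∈ g.GG, ∃ e c : ℕ → UT lv ℝ,
      Tendsto (fun n => n1 ((e n).val - 1)) UU (𝓝 0) ∧ ∀ᶠ n in UU, e n ∈ g.GG ∧ c n ∈ g.GG ∧
        Ent {t : ℝ | ∃ z : ℤ, t = q * z} ((c n).val - 1) ∧ x n = e n * a * c n := by
  obtain ⟨R, hR⟩ := cocompact (g.up 0) g.lie0.br (fun _ => mem_bot_real.1) (g.rat 0) hq
  obtain ⟨p, hp⟩ := ev_exists.1 (hx.mono fun n hn => (Prod.exists (p := fun p : UT lv ℝ × UT lv ℝ =>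
    lg p.1 ∈ g.r 0 ∧ lg p.2 ∈ g.r 0 ∧ p.2 ∈ LevR lv q ∧ ‖lg p.1‖ ≤ R ∧ x n = p.1 * p.2)).2
    (hR _ hn))
  obtain ⟨X, hX, lim⟩ := ((isCompact_closedBall (0 : Matrix ι ι ℝ) R).inter_right
    (g.r 0).closed_of_finiteDimensional).ultrafilter_le_nhds
    ((hyperfilter ℕ).map fun n => lg (p n).1)
    (le_principal_iff.2 (hp.mono fun n hn => ⟨by simpa using hn.2.2.2.1, hn.1⟩))
  have e0 : lg (ex lv X) = X := lg_ex (g.up 0 X hX.2)
  have m0 : ex lv X ∈ g.GG := by rw [Fam.mem_GG, e0]; exact hX.2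
  refine ⟨ex lv X, m0, fun n => (p n).1 * (ex lv X)⁻¹, fun n => (p n).2, ?_,
    hp.mono fun n hn => ⟨mul_mem hn.1 (inv_mem m0), hn.2.1, mem_LevR.1 hn.2.2.1, by
      rw [hn.2.2.2.2]; group⟩⟩
  let Φ : Matrix ι ι ℝ → ℝ := fun Y =>
    n1 ((∑ k ∈ range (dd lv + 1), (k.factorial : ℚ)⁻¹ • Y ^ k) * (ex lv X)⁻¹.val - 1)
  have c0 : Continuous (n1 : Matrix ι ι ℝ → ℝ) := continuous_finsetSum _ fun a _ =>
    continuous_finsetSum _ fun b _ => (continuous_apply_apply a b).abs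
  have c1 : Continuous Φ := c0.comp (by fun_prop)
  have c2 : ∀ y : UT lv ℝ, n1 ((y * (ex lv X)⁻¹).val - 1) = Φ (lg y) := fun y => by
    rw [UT.mul_val, val_eq_sum y]
  have c3 : Φ X = 0 := by
    rw [← e0, ← c2, mul_inv_cancel]; simp [n1]
  simp only [c2]
  rw [← c3]
  exact (c1.tendsto X).comp lim

open scoped Topology in
/-- Standard part and Lipschitz regularisation. -/
theorem std_part {g : Fam (⊥ : Subfield ℝ) lv I} {n} (hn : g.Idl n) {q : HR}
    {F : UT lv HR → HC} (hF : Nice 2 q (g.star 2).GG F)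
    (he : Eqv 2 (g.star 2).GG (starS n) 0 F) {δ : ℝ} (hδ : 0 < δ) :
    ∃ (q0 : ℕ) (L : ℝ) (F0 : UT lv ℝ → ℂ), 0 < q0 ∧ NiceR q0 L g.GG F0 ∧ EqvR g.GG n 0 F0 ∧
      ∀ x ∈ (g.star 2).GG, nm (F x - app (fun _ => F0) x) ≤ st fun _ => δ := by
  obtain ⟨q0, q1, s, hs, q2⟩ := exists_nat_lvl hF.lvl
  obtain ⟨φ, hφ⟩ := hF.int
  have tz : ∀ {u v : ℕ → UT lv ℝ}, TinyC 2 (F (st u) - F (st v)) →
      Tendsto (fun m => φ m (u m) - φ m (v m)) UU (𝓝 0) := fun {u v} h => by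
    rw [hφ, hφ] at h
    have h' := (NC.tinyC_two (f := fun m => φ m (u m) - φ m (v m))).1 h
    exact (Metric.nhds_basis_closedBall.tendsto_right_iff).2 fun ε ε0 =>
      (h' ε ε0).mono fun m hm => mem_closedBall_zero_iff.2 hm
  have bd : ∀ x : UT lv ℝ, ∀ᶠ m in UU, ‖φ m x‖ ≤ 1 := fun x => by
    have := hF.bd (st fun _ => x)
    rw [hφ] at this
    exact (st_le (x := fun m => ‖φ m x‖) (y := fun _ => 1)).1 this
  choose f f1 f2 using fun x : UT lv ℝ => (isCompact_closedBall (0 : ℂ) 1).ultrafilter_le_nhds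
    ((hyperfilter ℕ).map fun m => φ m x)
    (le_principal_iff.2 ((bd x).mono fun m hm => mem_closedBall_zero_iff.2 hm))
  replace f2 : ∀ x, Tendsto (fun m => φ m x) UU (𝓝 (f x)) := f2
  have cts : ∀ e x : ℕ → UT lv ℝ, (∀ᶠ m in UU, e m ∈ g.GG) → (∀ᶠ m in UU, x m ∈ g.GG) →
      Tendsto (fun m => n1 ((e m).val - 1)) UU (𝓝 0) →
      Tendsto (fun m => φ m (e m * x m) - φ m (x m)) UU (𝓝 0) := fun e x h1 h2 h3 => by
    refine tz ?_
    rw [← NC.st_mul]
    refine hF.cts _ (st_mem_GG.2 h1) (fun a b => ?_) _ (st_mem_GG.2 h2)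
    rw [NC.st_sub_one, NC.st_apply]
    exact NC.tiny_two.2 fun ε ε0 => (h3.eventually (ge_mem_nhds ε0)).mono fun m hm =>
      (le_n1 _ a b).trans hm
  have per : ∀ x c : ℕ → UT lv ℝ, (∀ᶠ m in UU, x m ∈ g.GG) → (∀ᶠ m in UU, c m ∈ g.GG) →
      (∀ᶠ m in UU, Ent {t : ℝ | ∃ z : ℤ, t = q0 * z} ((c m).val - 1)) →
      Tendsto (fun m => φ m (x m * c m) - φ m (x m)) UU (𝓝 0) := fun x c h1 h2 h3 => by
    refine tz ?_
    rw [← NC.st_mul]
    refine hF.per _ (st_mem_GG.2 h2) (fun a b => ?_) _ (st_mem_GG.2 h1)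
    obtain ⟨z, hz, e⟩ := (lev_st_iff (q := fun _ => q0)).2 h3 a b
    exact ⟨s * z, mul_mem hs hz, by rw [e, ← mul_assoc, ← q2]; rfl⟩
  have eq : ∀ x x', Tendsto (fun m => φ m x - φ m x') UU (𝓝 0) → f x = f x' := fun x x' h =>
    sub_eq_zero.1 (tendsto_nhds_unique ((f2 x).sub (f2 x')) h)
  obtain ⟨η, η0, uc⟩ : ∃ η > 0, ∀ e ∈ g.GG, ∀ x ∈ g.GG, n1 (e.val - 1) ≤ η →
      ‖f (e * x) - f x‖ ≤ δ / 8 := by
    by_contra hc
    push Not at hc
    choose e h1 x h2 h3 h4 using fun k : ℕ => hc (1 / ((k : ℝ) + 1)) Nat.one_div_pos_of_nat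
    obtain ⟨k, k1, k2⟩ := diag (P := fun k m => δ / 8 < ‖φ m (e k * x k) - φ m (x k)‖) fun k =>
      (((f2 _).sub (f2 _)).norm.eventually (lt_mem_nhds (h4 k)))
    have t := cts (fun m => e (k m)) (fun m => x (k m)) (Eventually.of_forall fun m => h1 _)
      (Eventually.of_forall fun m => h2 _) (squeeze_zero (fun m => n1_nonneg _) (fun m => h3 _)
        (tendsto_one_div_add_atTop_nhds_zero_nat.comp k1))
    obtain ⟨m, a, b⟩ := (k2.and (t.norm.eventually (gt_mem_nhds (show ‖(0 : ℂ)‖ < δ / 8 by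
      rw [norm_zero]; positivity)))).exists
    exact lt_asymm a b
  obtain ⟨L, F0, L0, a1, a2, a3, a4⟩ := lip_reg g.GG (fun x => mem_closedBall_zero_iff.1 (f1 x))
    (by positivity) η0 uc
  have a5 : ∀ γ ∈ g.GG, Ent {t : ℝ | ∃ z : ℤ, t = q0 * z} (γ.val - 1) → ∀ x ∈ g.GG,
      F0 (x * γ) = F0 x := fun γ h1 h2 x hx => a4 _ (mul_mem hx h1) _ hx fun e h3 => by
    rw [← mul_assoc]
    exact eq _ _ (per (fun _ => e * x) (fun _ => γ) (Eventually.of_forall fun _ => mul_mem h3 hx)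
      (Eventually.of_forall fun _ => h1) (Eventually.of_forall fun _ => h2))
  refine ⟨q0, L, F0, q1, ⟨a1, a3, a5⟩, fun z hz x hx => ?_, fun x hx => ?_⟩
  · simp only [LinearMap.zero_apply, Complex.ofReal_zero, mul_zero, Complex.exp_zero, one_mul]
    refine a4 _ (mul_mem (hn.le hz) hx) _ hx fun e h3 => ?_
    have h4 : lg (e * z * e⁻¹) ∈ n := by
      rw [lg_conj']
      exact conj_mem (U := n.restrictScalars ℚ) (up_nil (lg_mem e)) (fun u hu => hn.br _ h3 u hu) hz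
    have h5 := he (st fun _ => e * z * e⁻¹) (by rw [lg_st]; exact const_mem_starS.2 h4)
      (st fun _ => e * x) (st_mem_GG.2 (Eventually.of_forall fun _ => mul_mem h3 hx))
    rw [LinearMap.zero_apply, ee_zero, one_mul, NC.st_mul] at h5
    rw [show e * (z * x) = e * z * e⁻¹ * (e * x) by group]
    exact eq _ _ (tz h5)
  · obtain ⟨x, rfl⟩ := NS.surj x
    obtain ⟨a, ha, e, c, t0, t1⟩ := exists_near g q1 (st_mem_GG.1 hx)
    have t2 := per (fun m => e m * a) c (t1.mono fun m h => mul_mem h.1 ha) (t1.mono fun m h => h.2.1)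
      (t1.mono fun m h => h.2.2.1)
    have t3 := cts e (fun _ => a) (t1.mono fun m h => h.1) (Eventually.of_forall fun _ => ha) t0
    have t4 := ((t2.add t3).add (f2 a)).sub_const (f a)
    have t5 := t4.norm.add (t0.const_mul L)
    simp only [add_zero, zero_add, sub_self, norm_zero, mul_zero] at t5
    rw [hφ, app_st]
    refine (st_le (x := fun m => ‖φ m (x m) - F0 (x m)‖)).2 ?_
    filter_upwards [t1, t5.eventually (gt_mem_nhds (half_pos hδ))] with m h1 h2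
    have b1 := a3 _ h1.1 _ ha
    have b2 := a2 a ha
    have b3 := a5 _ h1.2.1 h1.2.2.1 _ (mul_mem h1.1 ha)
    rw [h1.2.2.2, b3, show φ m (e m * a * c m) - F0 (e m * a) = (φ m (e m * a * c m)
      - φ m (e m * a) + (φ m (e m * a) - φ m a) + φ m a - f a) - (F0 (e m * a) - F0 a)
      - (F0 a - f a) by ring]
    linarith [norm_sub_le (φ m (e m * a * c m) - φ m (e m * a) + (φ m (e m * a) - φ m a) + φ m a
      - f a - (F0 (e m * a) - F0 a)) (F0 a - f a), norm_sub_le (φ m (e m * a * c m)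
      - φ m (e m * a) + (φ m (e m * a) - φ m a) + φ m a - f a) (F0 (e m * a) - F0 a)]

end Pool.Agent.P.MP_a14ce1_nt.Nil
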