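import Pool.Agent.P.MP_a14ce1_nt.Nil.Four0

/-!
Fourier expansion of nice functions along central directions.
-/

open Filter Finset
open scoped BigOperators

set_option linter.unusedSectionVars false

noncomputable section

namespace Pool.Agent.P.MP_a14ce1_nt.Nil

open Four

variable {A S B S' : Type} [NS A S] [NS B S']
  {ι : Type} [Fintype ι] [DecidableEq ι] {lv : ι → ℕ} {Q : HR} [Fact (2 ≤ Q)]
  {I : Type} [AddCommMonoid I] {q : HR} {G : Subgroup (UT lv HR)} {F F' : UT lv HR → HC}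
  {U : Submodule HR (Matrix ι ι HR)} {ξ ξ' : Matrix ι ι HR →ₗ[HR] HR}

/-- The component of frequency `m` along `W`, on a grid of mesh `1 / L`. -/
def fcomp (L : HZ) (W : Matrix ι ι HR) (m : HZ) (F : UT lv HR → HC) (x : UT lv HR) : HC :=
  Ex (box fun _ : Unit => L) fun j : Unit → HZ =>
    F (ex lv ((ci (j ()) / ci L) • W) * x) * ee (-(ci m * (ci (j ()) / ci L)))

theorem fcomp_eq (L : HZ) (W : Matrix ι ι HR) (m : HZ) (F : UT lv HR → HC) (x : UT lv HR) :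
    fcomp L W m F x = df L (fun t => F (ex lv (t • W) * x)) m := rfl

variable (Q) in
/-- `W` is a lattice direction, central modulo the kernel of `ξ` in `U`. -/
structure Dir (q : HR) (g : Fam (KK Q) lv I) (U : Submodule HR (Matrix ι ι HR))
    (ξ : Matrix ι ι HR →ₗ[HR] HR) (W : Matrix ι ι HR) : Prop where
  mem : W ∈ g.r 0
  ent : Ent (KK Q : Set HR) W
  lev : ∀ z ∈ ZZ, Lev q (ex lv (z • W))
  cen : ∀ X ∈ g.r 0, X * W - W * X ∈ U ∧ ξ (X * W - W * X) = 0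

theorem exists_dir' {g : Fam (KK Q) lv I} (hq : q ∈ ZZ ∧ q ∈ OO Q ∧ q ≠ 0) {U'}
    (_hU : IsRat (KK Q) U) (hU' : IsRat (KK Q) U') (hle : U' ≤ g.r 0)
    (hc : ∀ X ∈ g.r 0, ∀ W ∈ U', X * W - W * X ∈ U ∧ ξ (X * W - W * X) = 0) (h : ¬U' ≤ U) :
    ∃ W ∈ U', W ∉ U ∧ Dir Q q g U ξ W := by
  obtain ⟨W, h1, h2, h3⟩ : ∃ W ∈ U', Ent (KK Q : Set HR) W ∧ W ∉ U := by
    by_contra c
    exact h (hU'.le_of_pts fun X hX hK => by_contra fun c' => c ⟨X, hX, hK, c'⟩)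
  obtain ⟨d, hd⟩ := (filt_mF HR lv).fin
  obtain ⟨b, b1, b2, b3, b4⟩ := exists_den KK_den (u := fun p : ι × ι => W p.1 p.2)
    fun p => h2 p.1 p.2
  have c0 : q * d.factorial * b ≠ 0 :=
    mul_ne_zero (mul_ne_zero hq.2.2 (Nat.cast_ne_zero.2 d.factorial_ne_zero)) b3
  have cK : q * d.factorial * b ∈ KK Q :=
    mul_mem (mul_mem (KK_of_ZZ hq.1 hq.2.1) (natCast_mem _ _)) b2
  have hm := U'.smul_mem (q * d.factorial * b) h1
  refine ⟨_, hm, fun c => h3 ((U.smul_mem_iff c0).1 c), hle hm,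
    fun i j => mul_mem cK (h2 i j), fun z hz => ?_, fun X hX => hc X hX _ hm⟩
  rw [smul_smul, mul_left_comm, mul_smul]
  exact ex_mem_Gam hq.1 hd ((lvS HR lv 1).smul_mem _ (g.up 0 W (hle h1))) fun i j => by
    rw [Matrix.smul_apply, smul_eq_mul, mul_assoc]; exact mul_mem hz (b4 (i, j))

theorem exists_dir {g : Fam (KK Q) lv I} (hq : q ∈ ZZ ∧ q ∈ OO Q ∧ q ≠ 0) {U'} (hc : g.Idl U)
    (hU' : g.Idl U') (h : ¬U' ≤ U) : ∃ W ∈ U', W ∉ U ∧ Dir Q q g U 0 W := by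
  obtain ⟨i, h1, h2⟩ := exists_layer hU' h
  obtain ⟨W, h3, h4⟩ := exists_dir' (ξ := 0) hq hc.rat (hU'.rat.inf (IsRat.lvS lv i))
    (inf_le_left.trans hU'.le) (fun X hX Y hY => ⟨h2 X hX Y hY, rfl⟩) h1
  exact ⟨W, h3.1, h4⟩

theorem intF_fcomp (L : HZ) (W : Matrix ι ι HR) {Φ : A → UT lv HR → HC} {m : A → HZ}
    {x : A → UT lv HR} (hi : IntF fun z : A × UT lv HR => Φ z.1 z.2) (hm : IntF m) (hx : IntF x) :
    IntF fun a => fcomp L W (m a) (Φ a) (x a) := by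
  have h1 : IntF fun z : A × (Unit → HZ) =>
      (z.1, ex lv ((ci (z.2 ()) / ci L) • W) * x z.1) := by fun_prop
  have h2 : IntF fun z : A × (Unit → HZ) => ee (-(ci (m z.1) * (ci (z.2 ()) / ci L))) := by
    fun_prop
  exact IntF.ex (IntF.const _) ((hi.comp h1).mul h2)

theorem Dir.ex_mem {g : Fam (KK Q) lv I} {W} (hW : Dir Q q g U ξ W) (t : HR) :
    ex lv (t • W) ∈ g.GG := Four.ex_mem ((g.r 0).smul_mem t hW.mem)

theorem Dir.cts {g : Fam (KK Q) lv I} {W} (hW : Dir Q q g U ξ W) (hF : Nice Q q g.GG F) {x}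
    (hx : x ∈ g.GG) (s t : HR) (ht : Tiny Q t) :
    TinyC Q (F (ex lv ((s + t) • W) * x) - F (ex lv (s • W) * x)) := by
  rw [add_comm, ex_add (g.up 0 W hW.mem), mul_assoc]
  exact hF.cts _ (hW.ex_mem t) (entT_ex (entT_smul' ht (entO_of_K hW.ent))) _
    (mul_mem (hW.ex_mem s) hx)

theorem Dir.per {g : Fam (KK Q) lv I} {W} (hW : Dir Q q g U ξ W) (hc : Cen g U ξ)
    (hF : Nice Q q g.GG F) (he : Eqv Q g.GG U ξ F) {x} (hx : x ∈ g.GG) (s z : HR) (hz : z ∈ ZZ) :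
    TinyC Q (F (ex lv ((s + z) • W) * x) - F (ex lv (s • W) * x)) := by
  have hy := mul_mem (hW.ex_mem s) hx
  obtain ⟨c, h1, h2, h3⟩ := exists_comm hc ((g.r 0).smul_mem z hW.mem) (cen_smul hW.cen z) hy
  have h4 := he c h1 _ (mul_mem hy (hW.ex_mem z))
  rw [h2, ee_zero, one_mul] at h4
  rw [add_comm, ex_add (g.up 0 W hW.mem), mul_assoc, h3]
  exact h4.trans (hF.per _ (hW.ex_mem z) (hW.lev z hz) _ hy)

theorem intF_fint (L : HZ) (W : Matrix ι ι HR) (m : HZ) (hF : IntF F) :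
    IntF fun z : (Unit → HZ) × UT lv HR =>
      F (ex lv ((ci (z.1 ()) / ci L) • W) * z.2) * ee (-(ci m * (ci (z.1 ()) / ci L))) := by
  fun_prop

theorem fcomp_nice {g : Fam (KK Q) lv I} {W} (hW : Dir Q q g U ξ W) {L : HZ} (_hL : 0 < L) (m : HZ)
    (hF : Nice Q q g.GG F) : Nice Q q g.GG (fcomp L W m F) :=
  Nice.avg (intF_fint L W m hF.int) hF.lvl fun _ hj =>
    (hF.left (hW.ex_mem _) (entO_ex (entR_smul (div_OO (mem_box.1 hj ())) (entO_of_K hW.ent)))).mul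
      (nice_const (nm_ee _).le hF.lvl)

theorem fcomp_eqv0 {g : Fam (KK Q) lv I} {W} (hW : W ∈ g.r 0) (hc : Cen g U ξ) (L m : HZ)
    (hF : IntF F) (he : Eqv Q g.GG U ξ F) : Eqv Q g.GG U ξ (fcomp L W m F) :=
  Eqv.avg (intF_fint L W m hF) fun _ _ z hz x hx => by
    rw [← mul_assoc (ee _), ← sub_mul]
    exact (he.left hc (Four.ex_mem ((g.r 0).smul_mem _ hW)) z hz x hx).mul (nm_OO (nm_ee _).le)

theorem fcomp_eqv {g : Fam (KK Q) lv I} {W} (hW : Dir Q q g U ξ W) (hc : Cen g U ξ) {L : HZ}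
    (hL : 0 < L ∧ Tiny Q (ci L)⁻¹) {m : HZ} (hm : ci m ∈ OO Q) (hF : Nice Q q g.GG F)
    (he : Eqv Q g.GG U ξ F) (h1 : RatF (KK Q) ξ') (h2 : ∀ X ∈ U, ξ' X = ξ X) (h3 : ξ' W = ci m) :
    Cen g (U ⊔ Submodule.span HR {W}) ξ' ∧
      Eqv Q g.GG (U ⊔ Submodule.span HR {W}) ξ' (fcomp L W m F) := by
  refine ⟨cen_sup hc hW.mem hW.ent hW.cen h1 h2, fun z hz x hx => ?_⟩
  obtain ⟨Y, hY, _, h4, e⟩ := Submodule.mem_sup.1 hz
  obtain ⟨t, rfl⟩ := Submodule.mem_span_singleton.1 h4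
  obtain ⟨c, c1, c2, c3⟩ := Four.exists_split hc ((g.r 0).smul_mem t hW.mem) (cen_smul hW.cen t) hY e
  have h5 := fcomp_eqv0 hW.mem hc L m hF.int he c c1 _ (mul_mem (hW.ex_mem t) hx)
  have hi := hF.int
  have h6 := df_shift hL hm (φ := fun t => F (ex lv (t • W) * x)) (by fun_prop) (fun _ => hF.bd _)
    (hW.per hc hF he hx) (hW.cts hF hx) t
  have h7 : fcomp L W m F (ex lv (t • W) * x) =
      df L (fun s => F (ex lv ((t + s) • W) * x)) m := by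
    rw [fcomp_eq]
    congr 1
    funext s
    rw [add_comm, ex_add (g.up 0 W hW.mem), mul_assoc]
  rw [← e, map_add, map_smul, h2 Y hY, h3, smul_eq_mul, mul_comm t, ee_add, mul_assoc, c3, mul_assoc,
    ← c2]
  refine h5.trans ?_
  rw [← mul_sub, h7]
  exact h6.mul' (nm_OO (nm_ee _).le)

/-- Fejer sum, uniformly for a family; `c 0 = 1`. -/
theorem fejerG {g : Fam (KK Q) lv I} {W} (hW : Dir Q q g U ξ W) (hc : Cen g U ξ) {L : HZ}
    (hL : 0 < L ∧ Tiny Q (ci L)⁻¹) {p : A → Prop} (hp : IntP p) {Φ : A → UT lv HR → HC}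
    (hi : IntF fun z : A × UT lv HR => Φ z.1 z.2)
    (h : ∀ a, p a → Nice Q q g.GG (Φ a) ∧ Eqv Q g.GG U ξ (Φ a)) {δ : HR} (hδ : Big Q δ) :
    ∃ (T : Ns (Finset ℤ)) (c : HZ → HC), cd T ∈ OO Q ∧ IntF c ∧ Mem (0 : HZ) T ∧ c 0 = 1 ∧
      (∀ m : HZ, Mem m T → ci m ∈ OO Q ∧ nm (c m) ≤ 1) ∧ ∀ a, p a → ∀ x ∈ g.GG,
        nm (Φ a x - cr (cd T) * Ex T fun m : HZ => c m * fcomp L W m (Φ a) x) ≤ |δ| := by
  have i1 : IntP fun z : (A × UT lv HR) × HR × HR => (p z.1.1 ∧ z.1.2 ∈ g.GG) ∧ z.2.2 ∈ ZZ :=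
    ((hp.comp (by fun_prop)).and (IntP.memGG g (by fun_prop))).and (IntP.memZZ (by fun_prop))
  have i2 : IntF fun z : (A × UT lv HR) × HR × HR => z.2.1 := by fun_prop
  have i3 : IntF fun z : (A × UT lv HR) × HR × HR =>
      (z.1.1, ex lv ((z.2.1 + z.2.2) • W) * z.1.2) := by fun_prop
  have i4 : IntF fun z : (A × UT lv HR) × HR × HR =>
      nm (Φ z.1.1 z.1.2 - Φ z.1.1 (ex lv ((z.2.1 + z.2.2) • W) * z.1.2)) :=
    ((hi.comp (IntF.id.fst)).sub (hi.comp i3)).nm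
  have d1 : Big Q (|δ| / 2) := (big_abs.2 hδ).half
  have d0 : 0 < |δ| / 2 := half_pos (abs_pos.2 hδ.ne_zero)
  obtain ⟨ρ, r1, r0, r2⟩ := modulus (Q := Q) i1 i2 i4 (fun z hz ht => by
    have h1 := hW.per hc (h _ hz.1.1).1 (h _ hz.1.1).2 hz.1.2 z.2.1 _ hz.2
    have h2 := hW.cts (h _ hz.1.1).1 hz.1.2 0 _ ht
    rw [zero_add, zero_smul, ex_zero, one_mul] at h2
    exact (h1.trans h2).symm) d1
  obtain ⟨T, c, h1, h2, h3, h4, h5, h6⟩ := df_fejer hL r1 r0 d1 d0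
  refine ⟨T, c, h1, h2, h3, h4, h5, fun a ha x hx => ?_⟩
  have hi' := (h a ha).1.int
  have := h6 (fun t => Φ a (ex lv (t • W) * x)) (by fun_prop) (fun _ => (h a ha).1.bd _)
    fun t ht => by
      simp only [zero_smul, ex_zero, one_mul]
      rcases min_le_iff.1 ht with c | c
      · have := r2 ((a, x), t, 0) ⟨⟨ha, hx⟩, zero_mem _⟩ c
        rwa [abs_nm, abs_of_pos d0, add_zero] at this
      · have := r2 ((a, x), t - 1, 1) ⟨⟨ha, hx⟩, one_mem _⟩ (by rwa [abs_sub_comm])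
        rwa [abs_nm, abs_of_pos d0, sub_add_cancel] at this
  simp only [zero_smul, ex_zero, one_mul] at this
  rwa [mul_div_cancel₀ _ two_ne_zero] at this

/-- A correlation survives for one frequency. -/
theorem Four.exists_freq {T' : Ns (Finset S')} {T : Ns (Finset ℤ)} (hT : cd T ∈ OO Q) {c : HZ → HC}
    (hc : IntF c) (hb : ∀ m : HZ, Mem m T → nm (c m) ≤ 1) {w φ : B → HC} (hw : IntF w)
    (hφ : IntF φ) {ψ : HZ → B → HC} (hψ : IntF fun z : HZ × B => ψ z.1 z.2) {δ : HR}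
    (hδ : Big Q δ) (δ0 : 0 < δ) (h1 : ∀ b, Mem b T' → nm (w b) ≤ 1 ∧
      nm (φ b - cr (cd T) * Ex T fun m : HZ => c m * ψ m b) ≤ δ / 2)
    (h2 : δ ≤ nm (Ex T' fun b => w b * φ b)) :
    ∃ m : HZ, Mem m T ∧ BigC Q (Ex T' fun b => w b * ψ m b) := by
  have i0 : IntF fun z : B × HZ => ψ z.2 z.1 := hψ.comp (IntF.id.snd.prodMk IntF.id.fst)
  have i1 : IntF fun b => Ex T fun m : HZ => c m * ψ m b :=
    IntF.ex (IntF.const _) ((hc.comp IntF.id.snd).mul i0)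
  have i2 : IntF fun z : HZ × B => w z.2 * ψ z.1 z.2 := (hw.comp IntF.id.snd).mul hψ
  have e : (Ex T' fun b => w b * (cr (cd T) * Ex T fun m : HZ => c m * ψ m b))
      = cr (cd T) * Ex T fun m : HZ => c m * Ex T' fun b => w b * ψ m b := by
    simp only [mul_left_comm _ (cr (cd T))]
    rw [Ex_mul_left (hw.mul i1)]
    congr 1
    have e1 : ∀ b, (w b * Ex T fun m : HZ => c m * ψ m b) = Ex T fun m : HZ => c m * (w b * ψ m b) :=
      fun b => by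
        rw [← Ex_mul_left (hc.mul (hψ.curry' b))]
        simp only [mul_left_comm (w b)]
    simp only [e1]
    rw [Ex_comm (f := fun b m => c m * (w b * ψ m b))
      ((hc.comp IntF.id.snd).mul ((hw.comp IntF.id.fst).mul i0))]
    exact congrArg _ (funext fun m => Ex_mul_left (i2.curry m) _)
  have h3 := nm_Ex_le (T := T') ((hw.mul hφ).sub (hw.mul ((IntF.const (cr (cd T))).mul i1)))
    (half_pos δ0).le fun b hb => by
      rw [← mul_sub, nm_mul]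
      exact (mul_le_of_le_one_left (nm_nonneg _) (h1 b hb).1).trans (h1 b hb).2
  rw [Ex_sub (hw.mul hφ) (hw.mul ((IntF.const _).mul i1)), e] at h3
  have h4 : BigC Q (cr (cd T) * Ex T fun m : HZ => c m * Ex T' fun b => w b * ψ m b) :=
    Big.mono hδ.half (half_pos δ0).le (by
      have := (h2.trans (nm_le_add_sub _ _)).trans (add_le_add le_rfl h3)
      linarith)
  obtain ⟨m, h5, h6⟩ := exists_bigC_of_Ex (hc.mul (IntF.ex (IntF.const _) i2))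
    (h4.of_mul' (by rwa [nm_cr, abs_mem_OO]))
  exact ⟨m, h5, h6.of_mul' (nm_OO (hb m h5))⟩

/-- Expansion along `U'` and pigeonhole, for families. -/
theorem fourG {g : Fam (KK Q) lv I} (hc : Cen g U ξ) {U'} (hU' : IsRat (KK Q) U')
    (hle : U' ≤ g.r 0) (hcen : ∀ X ∈ g.r 0, ∀ W ∈ U', X * W - W * X ∈ U ∧ ξ (X * W - W * X) = 0)
    {T : Ns (Finset S)} {T' : Ns (Finset S')} {Φ : A → UT lv HR → HC}
    (hi : IntF fun z : A × UT lv HR => Φ z.1 z.2) {w : A → B → HC}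
    (hw : IntF fun z : A × B => w z.1 z.2) {x : A → B → UT lv HR}
    (hx : IntF fun z : A × B => x z.1 z.2) {p : A → Prop}
    (h : Dense Q T fun a => p a ∧ Nice Q q g.GG (Φ a) ∧ Eqv Q g.GG U ξ (Φ a) ∧
      (∀ b, Mem b T' → nm (w a b) ≤ 1 ∧ x a b ∈ g.GG) ∧ BigC Q (Ex T' fun b => w a b * Φ a (x a b))) :
    ∃ (ξ' : Matrix ι ι HR →ₗ[HR] HR) (Φ' : A → UT lv HR → HC),
      (IntF fun z : A × UT lv HR => Φ' z.1 z.2) ∧ Cen g (U ⊔ U') ξ' ∧ (∀ X ∈ U, ξ' X = ξ X) ∧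
      Dense Q T fun a => p a ∧ Nice Q q g.GG (Φ' a) ∧ Eqv Q g.GG (U ⊔ U') ξ' (Φ' a) ∧
        BigC Q (Ex T' fun b => w a b * Φ' a (x a b)) := by
  induction U using WellFoundedGT.induction generalizing ξ Φ with | ind U ih
  by_cases hU : U' ≤ U
  · rw [sup_eq_left.2 hU]
    exact ⟨ξ, Φ, hi, hc, fun _ _ => rfl, h.mono fun a _ ha => ⟨ha.1, ha.2.1, ha.2.2.1, ha.2.2.2.2⟩⟩
  obtain ⟨a0, -, -, hn, -⟩ := h.exists
  obtain ⟨W, w1, w2, hW⟩ := exists_dir' hn.lvl hc.idl.rat hU' hle hcen hU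
  obtain ⟨L, hL⟩ := exists_huge (Q := Q)
  obtain ⟨H, hH, hB⟩ := h
  have iH : IntP fun a : A => Mem a H := IntP.mem IntF.id (IntF.const H)
  have i1 : IntF fun z : A × B => Φ z.1 (x z.1 z.2) := hi.comp (IntF.id.fst.prodMk hx)
  obtain ⟨δ, d1, d0, d2⟩ := unif_big (Q := Q) iH (IntF.ex (IntF.const T') (hw.mul i1)).nm
    fun a ha => (hH a ha).2.2.2.2.2
  obtain ⟨T0, c, t1, t2, -, -, t3, t4⟩ := fejerG hW hc hL iH hi
    (fun a ha => ⟨(hH a ha).2.2.1, (hH a ha).2.2.2.1⟩) d1.half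
  have i2 : IntF fun z : (A × HZ) × B => fcomp L W z.1.2 (Φ z.1.1) (x z.1.1 z.2) :=
    intF_fcomp L W (Φ := fun z : (A × HZ) × B => Φ z.1.1)
      (hi.comp (IntF.id.fst.fst.fst.prodMk IntF.id.snd)) IntF.id.fst.snd
      (hx.comp (IntF.id.fst.fst.prodMk IntF.id.snd))
  obtain ⟨m, m1, m2⟩ := Dense.list (T := T) t1 (p := fun a : A => Mem a H)
    (q := fun a (m : HZ) => BigC Q (Ex T' fun b => w a b * fcomp L W m (Φ a) (x a b)))
    (Sig.bigC (IntF.ex (IntF.const T')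
      ((hw.comp (IntF.id.fst.fst.prodMk IntF.id.snd)).mul i2)))
    ⟨H, fun a ha => ⟨(hH a ha).1, ha, exists_freq t1 t2 (fun m hm => (t3 m hm).2) (hw.curry a)
      (i1.curry a) (ψ := fun m b => fcomp L W m (Φ a) (x a b))
      (i2.comp (((IntF.const a).prodMk IntF.id.fst).prodMk IntF.id.snd)) d1 d0
      (fun b hb => ⟨((hH a ha).2.2.2.2.1 b hb).1,
        (t4 a ha _ ((hH a ha).2.2.2.2.1 b hb).2).trans (abs_of_pos (half_pos d0)).le⟩)
      ((d2 a ha).trans (abs_nm _).le)⟩, hB⟩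
  obtain ⟨ξ1, x1, x2, x3⟩ := exists_ext hc.idl.rat hc.rat hW.ent w2
    (KK_of_ZZ (ci_mem m) (t3 m m1).1)
  have hW' : Submodule.span HR {W} ≤ U' := (Submodule.span_singleton_le_iff_mem _ _).2 w1
  obtain ⟨ξ2, Φ2, k1, k2, k3, k4⟩ := ih (U ⊔ Submodule.span HR {W})
    (left_lt_sup.2 fun c => w2 (c (Submodule.mem_span_singleton_self W)))
    (cen_sup hc hW.mem hW.ent hW.cen x1 x2)
    (fun X hX Y hY => ⟨Submodule.mem_sup_left (hcen X hX Y hY).1,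
      (x2 _ (hcen X hX Y hY).1).trans (hcen X hX Y hY).2⟩) (Φ := fun a => fcomp L W m (Φ a))
    (intF_fcomp L W (Φ := fun z : A × UT lv HR => Φ z.1)
      (hi.comp (IntF.id.fst.fst.prodMk IntF.id.snd)) (IntF.const m) IntF.id.snd)
    (m2.mono fun a _ ha => ⟨(hH a ha.1).2.1, fcomp_nice hW hL.1 m (hH a ha.1).2.2.1,
      (fcomp_eqv hW hc hL (t3 m m1).1 (hH a ha.1).2.2.1 (hH a ha.1).2.2.2.1 x1 x2 x3).2,
      (hH a ha.1).2.2.2.2.1, ha.2⟩)
  rw [sup_assoc, sup_eq_right.2 hW'] at k2 k4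
  exact ⟨ξ2, Φ2, k1, k2, fun X hX => (k3 X (Submodule.mem_sup_left hX)).trans (x2 X hX), k4⟩

/-- One function. -/
theorem fourG1 {g : Fam (KK Q) lv I} (hc : Cen g U ξ) {U'} (hU' : IsRat (KK Q) U')
    (hle : U' ≤ g.r 0) (hcen : ∀ X ∈ g.r 0, ∀ W ∈ U', X * W - W * X ∈ U ∧ ξ (X * W - W * X) = 0)
    {T' : Ns (Finset S')} (hF : Nice Q q g.GG F) (he : Eqv Q g.GG U ξ F) {w : B → HC} (hw : IntF w)
    {x : B → UT lv HR} (hx : IntF x) (hb : ∀ b, Mem b T' → nm (w b) ≤ 1 ∧ x b ∈ g.GG)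
    (h : BigC Q (Ex T' fun b => w b * F (x b))) :
    ∃ ξ' F', Cen g (U ⊔ U') ξ' ∧ (∀ X ∈ U, ξ' X = ξ X) ∧ Nice Q q g.GG F' ∧
      Eqv Q g.GG (U ⊔ U') ξ' F' ∧ BigC Q (Ex T' fun b => w b * F' (x b)) := by
  obtain ⟨ξ', Φ, -, h1, h2, h3⟩ := fourG (A := HZ) hc hU' hle hcen (T := st fun _ => {0})
    (Φ := fun _ => F) (hF.int.comp IntF.id.snd) (w := fun _ => w) (hw.comp IntF.id.snd)
    (x := fun _ => x) (hx.comp IntF.id.snd) (p := fun _ => True)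
    (dense_all (cd_ne_zero_st.2 (Eventually.of_forall fun _ => singleton_nonempty _))
      fun _ _ => ⟨trivial, hF, he, hb, h⟩)
  obtain ⟨a, -, -, h4⟩ := h3.exists
  exact ⟨ξ', Φ a, h1, h2, h4⟩

/-- Averaging over an ideal by bounded translates. -/
theorem avg_ideal {g : Fam (KK Q) lv I} (hq : q ∈ ZZ ∧ q ∈ OO Q ∧ q ≠ 0) {n} (hn : g.Idl n) :
    ∃ (r : ℕ) (M : Fin r → HZ) (z : (Fin r → HZ) → UT lv HR), (∀ l, 0 < M l) ∧ IntF z ∧
      (∀ j, lg (z j) ∈ n) ∧ (∀ j, Mem j (box M) → Ent (OO Q : Set HR) (z j).val) ∧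
      ∀ F, Nice Q q g.GG F → Eqv Q g.GG n 0 fun x => Ex (box M) fun j => F (z j * x) := by
  suffices key : ∀ U, g.Idl U → U ≤ n → ∀ (r : ℕ) (M : Fin r → HZ)
      (z : (Fin r → HZ) → UT lv HR), (∀ l, 0 < M l) → IntF z →
      (∀ j, lg (z j) ∈ n) → (∀ j, Mem j (box M) → Ent (OO Q : Set HR) (z j).val) →
      (∀ F, Nice Q q g.GG F → Eqv Q g.GG U 0 fun x => Ex (box M) fun j => F (z j * x)) →
      ∃ (r : ℕ) (M : Fin r → HZ) (z : (Fin r → HZ) → UT lv HR), (∀ l, 0 < M l) ∧ IntF z ∧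
      (∀ j, lg (z j) ∈ n) ∧ (∀ j, Mem j (box M) → Ent (OO Q : Set HR) (z j).val) ∧
      ∀ F, Nice Q q g.GG F → Eqv Q g.GG n 0 fun x => Ex (box M) fun j => F (z j * x) from
    key ⊥ ⟨IsRat.bot, bot_le, fun X _ Y hY => by
      rw [(Submodule.mem_bot _).1 hY, mul_zero, zero_mul, sub_zero]; exact zero_mem _⟩ bot_le 0
      (fun _ => 1) (fun _ => 1) (fun _ => one_pos) (IntF.const _)
      (fun _ => by rw [lg_one]; exact zero_mem _) (fun _ _ => ent_one _) fun _ _ => eqv_bot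
  intro U
  induction U using WellFoundedGT.induction with | ind U ih
  intro hU hle r M z h1 h2 h3 h4 h5
  by_cases hc : n ≤ U
  · exact ⟨r, M, z, h1, h2, h3, h4, le_antisymm hle hc ▸ h5⟩
  obtain ⟨W, w1, w2, hW⟩ := exists_dir hq hU hn hc
  obtain ⟨L, hL⟩ := exists_huge (Q := Q)
  have it : IntF fun j : Fin (r + 1) → HZ => Fin.tail j := IntF.pi fun l => IntF.apply _
  have iz : IntF fun j : Fin (r + 1) → HZ => z (Fin.tail j) * ex lv ((ci (j 0) / ci L) • W) := by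
    fun_prop
  refine ih (U ⊔ Submodule.span HR {W})
    (left_lt_sup.2 fun c => w2 (c (Submodule.mem_span_singleton_self W)))
    (cen_sup hU.cen hW.mem hW.ent hW.cen RatF.zero fun _ _ => rfl).idl
    (sup_le hle ((Submodule.span_singleton_le_iff_mem _ _).2 w1)) (r + 1) (Fin.cons L M) _
    (fun l => Fin.cases hL.1 h1 l) iz (fun j => lg_mul_idl hn (h3 _) ?_) (fun j hj => entR_umul
      (h4 _ (mem_box.2 fun l => mem_box.1 hj l.succ))
      (entO_ex (entR_smul (div_OO (mem_box.1 hj 0)) (entO_of_K hW.ent)))) fun F hF => ?_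
  · rw [lg_ex ((lvS HR lv 1).smul_mem _ (g.up 0 W hW.mem))]
    exact n.smul_mem _ w1
  · have hi := hF.int
    have hN : Nice Q q g.GG fun x => Ex (box M) fun j => F (z j * x) :=
      Nice.avg (Φ := fun j x => F (z j * x)) (by fun_prop) hq fun j hj =>
        hF.left (hn.le (h3 j)) (h4 j hj)
    have := (fcomp_eqv hW hU.cen hL (m := 0) (by rw [map_zero]; exact zero_mem _) hN (h5 F hF)
      RatF.zero (fun _ _ => rfl) (map_zero ci).symm).2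
    convert this using 2 with x
    rw [Ex_cons L M (hi.comp (iz.utmul (IntF.const x)))]
    simp only [fcomp, map_zero, zero_mul, neg_zero, ee_zero, mul_one, Fin.tail_cons, Fin.cons_zero,
      mul_assoc]

end Pool.Agent.P.MP_a14ce1_nt.Nil
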