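import Pool.Agent.P.MP_a14ce1_nt.Nil.FinK
import Pool.Agent.P.MP_a14ce1_nt.Nil.Ax

/-!
Fair sampling and extension with weights, for the nilsequences of one type.
-/

open Finset
open scoped BigOperators ComplexConjugate

noncomputable section

namespace Pool.Agent.P.MP_a14ce1_nt.Nil

namespace ExtFin

theorem norm_expect_le_one {J : Type} {s : Finset J} {f : J → ℂ} (h : ∀ j ∈ s, ‖f j‖ ≤ 1) :
    ‖𝔼 j ∈ s, f j‖ ≤ 1 := by
  rcases s.eq_empty_or_nonempty with rfl | hs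
  · simp
  · exact (RCLike.norm_expect_le (K := ℂ)).trans (expect_le hs h)

theorem norm_mean_le (c A R : ℤ) {a : ℤ → ℂ} (ha : ∀ n, ‖a n‖ ≤ 1) : ‖mean c A R a‖ ≤ 1 :=
  norm_expect_le_one fun n _ => ha n

theorem card_latF {c A R : ℤ} (hc : 0 < c) (hR : 0 ≤ R) :
    |(c : ℝ) * (latF c A R).card - R| ≤ c := by
  have h0 : (0 : ℚ) < c := Int.cast_pos.2 hc
  have h := Int.Ico_filter_dvd_card A (A + R) hc
  rw [max_eq_left (sub_nonneg.2 (Int.ceil_mono (div_le_div_of_nonneg_right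
    (Int.cast_le.2 (le_add_of_nonneg_right hR)) h0.le)))] at h
  have h1 : ((latF c A R).card : ℚ) = ⌈((A + R : ℤ) : ℚ) / c⌉ - ⌈(A : ℚ) / c⌉ := by
    exact_mod_cast h
  have k : ∀ x : ℚ, x ≤ c * ⌈x / c⌉ ∧ c * ⌈x / c⌉ ≤ x + c := fun x =>
    ⟨(div_le_iff₀' h0).1 (Int.le_ceil _), by
      have := mul_le_mul_of_nonneg_left (Int.ceil_lt_add_one (x / c)).le h0.le
      rwa [mul_add, mul_one, mul_div_cancel₀ _ h0.ne'] at this⟩
  have h2 : |(c : ℚ) * (latF c A R).card - R| ≤ c := by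
    have k1 := k (A + R : ℤ)
    have k2 := k A
    rw [h1, mul_sub, abs_le]
    have : ((A + R : ℤ) : ℚ) = A + R := Int.cast_add _ _
    constructor <;> linarith
  exact_mod_cast h2

theorem sv_mean {c s t : ℕ} (hc : 0 < c) (hst : s ≤ t) {a : ℤ → ℂ} (ha : ∀ n, ‖a n‖ ≤ 1) :
    ‖Ax.sv c s t (fun n => a n) - (((t : ℝ) - s : ℝ) : ℂ) * mean c s (t - s) a‖ ≤ c := by
  have e : ∑ n ∈ (Ico s t).filter (fun n => c ∣ n), a n = ∑ n ∈ latF c s (t - s), a n := by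
    refine sum_nbij' (fun n => (n : ℤ)) Int.toNat (fun n hn => ?_) (fun n hn => ?_)
      (fun n _ => Int.toNat_natCast n) (fun n hn => ?_) fun _ _ => rfl
    · simp only [latF, mem_filter, mem_Ico, Int.natCast_dvd_natCast] at hn ⊢
      exact ⟨by omega, hn.2⟩
    · simp only [latF, mem_filter, mem_Ico] at hn ⊢
      refine ⟨by omega, Int.natCast_dvd_natCast.1 ?_⟩
      rw [Int.toNat_of_nonneg (by omega)]
      exact hn.2
    · simp only [latF, mem_filter, mem_Ico] at hn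
      omega
  have h := card_latF (c := c) (A := s) (R := t - s) (Int.natCast_pos.2 hc) (by omega)
  have e2 : Ax.sv c s t (fun n => a n) - (((t : ℝ) - s : ℝ) : ℂ) * mean c s (t - s) a
      = (((c : ℝ) * (latF c s (t - s)).card - ((t : ℝ) - s) : ℝ) : ℂ) * mean c s (t - s) a := by
    rw [Ax.sv, e, ← card_mul_expect, mean]
    push_cast
    ring
  rw [e2, norm_mul, Complex.norm_real, Real.norm_eq_abs]
  push_cast at h
  exact (mul_le_of_le_one_right (abs_nonneg _) (norm_mean_le _ _ _ ha)).trans h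

/-- A set of primes of large weight is dense in a dyadic block. -/
theorem bad_small {Q : ℝ} {C : ℕ} {P : Finset ℕ} {w : ℕ → ℝ} (h : Ax.PW Q C P w) (hQ : 2 ≤ Q)
    (good : ℕ → Prop) [DecidablePred good] (H : ∀ (M : ℕ) (B : Finset ℕ), B ⊆ P → B.Nonempty →
      (∀ p ∈ B, p < M ∧ M ≤ 2 * p) → (M : ℝ) ≤ Q ^ 9 * B.card → ∃ p ∈ B, good p) :
    ∑ p ∈ P.filter fun p => ¬good p, w p ≤ 1 / Q ^ 4 := by
  by_contra hc
  rw [not_le] at hc
  have h0 : 0 < Q := by linarith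
  have hf : ∀ p ∈ P.filter fun p => ¬good p, Nat.log 2 p ∈ range (⌊2 * Q⌋₊ + 1) := fun p hp => by
    have hp := (mem_filter.1 hp).1
    have h1 : ((2 : ℝ)) ^ Nat.log 2 p ≤ p := by
      exact_mod_cast Nat.pow_log_le_self 2 (h.pr p hp).ne_zero
    have h2 := (Real.log_le_log (by positivity) h1).trans (h.hi p hp)
    rw [Real.log_pow] at h2
    refine mem_range.2 (Nat.lt_succ_of_le (Nat.le_floor ?_))
    nlinarith [Real.log_two_gt_d9, (Nat.cast_nonneg (Nat.log 2 p) : (0 : ℝ) ≤ _)]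
  obtain ⟨j, -, hj⟩ := exists_le_sum_fiber_of_maps_to_of_nsmul_le_sum (w := w)
    (b := 1 / Q ^ 4 / (3 * Q)) hf nonempty_range_add_one (by
      refine le_trans ?_ hc.le
      rw [card_range, nsmul_eq_mul, mul_div_assoc', div_le_iff₀ (by positivity), mul_comm]
      refine mul_le_mul_of_nonneg_left ?_ (by positivity)
      have := Nat.floor_le (show 0 ≤ 2 * Q by positivity)
      push_cast
      linarith)
  set B := (P.filter fun p => ¬good p).filter fun p => Nat.log 2 p = j with hB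
  have hP : ∀ p ∈ B, p ∈ P ∧ ¬good p := fun p hp => mem_filter.1 (mem_filter.1 hp).1
  have hM : ∀ p ∈ B, p < 2 ^ (j + 1) ∧ 2 ^ (j + 1) ≤ 2 * p := fun p hp => by
    rw [← (mem_filter.1 hp).2]
    exact ⟨Nat.lt_pow_succ_log_self one_lt_two p, by
      rw [pow_succ']
      exact Nat.mul_le_mul_left 2 (Nat.pow_log_le_self 2 (h.pr p (hP p hp).1).ne_zero)⟩
  have hM0 : (0 : ℝ) < ((2 ^ (j + 1) : ℕ) : ℝ) := by positivity
  have h1 : ∑ p ∈ B, w p ≤ B.card * (2 * Q / ((2 ^ (j + 1) : ℕ) : ℝ)) := by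
    rw [← nsmul_eq_mul]
    refine sum_le_card_nsmul _ _ _ fun p hp => ?_
    have h2 : ((2 ^ (j + 1) : ℕ) : ℝ) ≤ 2 * p := by exact_mod_cast (hM p hp).2
    rw [le_div_iff₀ hM0]
    nlinarith [h.le p (hP p hp).1, h.nn p (hP p hp).1]
  have h2 : ((2 ^ (j + 1) : ℕ) : ℝ) ≤ Q ^ 9 * B.card := by
    have h3 := hj.trans h1
    rw [div_div, mul_div_assoc', div_le_div_iff₀ (by positivity) hM0, one_mul] at h3
    refine h3.trans ?_
    have h4 : (6 : ℝ) ≤ Q ^ 3 := le_trans (by norm_num) (pow_le_pow_left₀ two_pos.le hQ 3)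
    calc (B.card : ℝ) * (2 * Q) * (Q ^ 4 * (3 * Q)) = 6 * (Q ^ 6 * B.card) := by ring
      _ ≤ Q ^ 3 * (Q ^ 6 * B.card) := mul_le_mul_of_nonneg_right h4 (by positivity)
      _ = _ := by ring
  obtain ⟨p, hp, hg⟩ := H _ B (fun p hp => (hP p hp).1) (card_pos.1 (by
    by_contra c
    rw [not_lt, Nat.le_zero] at c
    rw [c, Nat.cast_zero, mul_zero] at h2
    exact absurd h2 hM0.not_ge)) hM h2
  exact (hP p hp).2 hg

theorem avg_le {Q : ℝ} {C : ℕ} {P : Finset ℕ} {w : ℕ → ℝ} (h : Ax.PW Q C P w)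
    (good : ℕ → Prop) [DecidablePred good] {η a b : ℝ} (hb : 0 ≤ b)
    (hη : ∑ p ∈ P.filter fun p => ¬good p, w p ≤ η) {f : ℕ → ℝ}
    (h1 : ∀ p ∈ P, good p → f p ≤ a) (h2 : ∀ p ∈ P, f p ≤ a + b) :
    ∑ p ∈ P, w p * f p ≤ a + b * η := by
  calc ∑ p ∈ P, w p * f p ≤ ∑ p ∈ P, (w p * a + b * if ¬good p then w p else 0) := by
        refine sum_le_sum fun p hp => ?_
        by_cases c : good p
        · rw [if_neg (not_not.2 c), mul_zero, add_zero]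
          exact mul_le_mul_of_nonneg_left (h1 p hp c) (h.nn p hp)
        · rw [if_pos c, mul_comm b, ← mul_add]
          exact mul_le_mul_of_nonneg_left (h2 p hp) (h.nn p hp)
    _ = a + b * ∑ p ∈ P.filter fun p => ¬good p, w p := by
        rw [sum_add_distrib, ← sum_mul, h.sum, one_mul, ← mul_sum, sum_filter]
    _ ≤ _ := by gcongr

/-- Weights are nearly frequencies. -/
theorem uniform {J : Type} (T : Finset J) (ω : J → ℝ) (h0 : ∀ τ ∈ T, 0 ≤ ω τ)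
    (h1 : ∑ τ ∈ T, ω τ = 1) {ε : ℝ} (hε : 0 < ε) : ∃ (U : Finset ℕ) (σ : ℕ → J), U.Nonempty ∧
    (∀ m, σ m ∈ T) ∧ ∀ f : J → ℂ, (∀ τ ∈ T, ‖f τ‖ ≤ 1) →
      ‖(𝔼 m ∈ U, f (σ m)) - ∑ τ ∈ T, (ω τ : ℂ) * f τ‖ ≤ ε := by
  classical
  obtain ⟨τ₀, hτ₀⟩ : T.Nonempty := nonempty_of_sum_ne_zero (h1 ▸ one_ne_zero)
  have hT : (0 : ℝ) < T.card := Nat.cast_pos.2 (card_pos.2 ⟨τ₀, hτ₀⟩)
  set K : ℝ := 2 * T.card / ε with hK
  have hK0 : 0 < K := by positivity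
  let k : J → ℕ := fun τ => ⌈K * ω τ⌉₊
  let W : Finset (Σ _ : J, ℕ) := T.sigma fun τ => range (k τ)
  let σ : ℕ → J := fun m => if h : m < W.card then (W.equivFin.symm ⟨m, h⟩).1.1 else τ₀
  have e : ∀ f : J → ℂ, ∑ m ∈ range W.card, f (σ m) = ∑ τ ∈ T, (k τ : ℂ) * f τ := fun f => by
    rw [← Fin.sum_univ_eq_sum_range (fun m => f (σ m))]
    have : ∑ m : Fin W.card, f (σ m) = ∑ z : W, f z.1.1 :=
      Fintype.sum_equiv W.equivFin.symm _ _ fun m => by simp only [σ, dif_pos m.2]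
    rw [this, sum_coe_sort W fun z => f z.1, sum_sigma]
    simp
  have hW : (W.card : ℝ) = ∑ τ ∈ T, (k τ : ℝ) := by simp [W]
  have k1 : ∀ τ ∈ T, K * ω τ ≤ k τ ∧ (k τ : ℝ) ≤ K * ω τ + 1 := fun τ hτ =>
    ⟨Nat.le_ceil _, (Nat.ceil_lt_add_one (mul_nonneg hK0.le (h0 τ hτ))).le⟩
  have k2 : K ≤ W.card := by
    rw [hW, ← mul_one K, ← h1, mul_sum]
    exact sum_le_sum fun τ hτ => (k1 τ hτ).1
  have k3 : (W.card : ℝ) ≤ K + T.card := by
    rw [hW]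
    refine (sum_le_sum fun τ hτ => (k1 τ hτ).2).trans_eq ?_
    rw [sum_add_distrib, ← mul_sum, h1]
    simp
  have hW0 : (0 : ℝ) < W.card := hK0.trans_le k2
  refine ⟨range W.card, σ, nonempty_range_iff.2 (Nat.cast_pos.1 hW0).ne', fun m => ?_,
    fun f hf => ?_⟩
  · simp only [σ]
    split_ifs with c
    exacts [(mem_sigma.1 (W.equivFin.symm ⟨m, c⟩).2).1, hτ₀]
  · rw [expect_eq_sum_div_card, e, card_range, sum_div, ← sum_sub_distrib]
    refine (norm_sum_le _ _).trans ((sum_le_sum (g := fun τ => (1 + T.card * ω τ) / W.card)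
      fun τ hτ => ?_).trans ?_)
    · have : (k τ : ℂ) * f τ / W.card - ω τ * f τ = (((k τ - W.card * ω τ) / W.card : ℝ) : ℂ) * f τ := by
        have : (W.card : ℂ) ≠ 0 := by exact_mod_cast hW0.ne'
        push_cast
        field_simp
      rw [this, norm_mul, Complex.norm_real, Real.norm_eq_abs, abs_div, abs_of_pos hW0]
      refine (mul_le_of_le_one_right (by positivity) (hf τ hτ)).trans
        (div_le_div_of_nonneg_right (abs_le.2 ⟨?_, ?_⟩) hW0.le)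
      · nlinarith [(k1 τ hτ).1, h0 τ hτ]
      · nlinarith [(k1 τ hτ).2, h0 τ hτ]
    · rw [← sum_div, sum_add_distrib, ← mul_sum, h1, div_le_iff₀ hW0]
      have : ε * K = 2 * T.card := by rw [hK]; field_simp
      simp only [sum_const, nsmul_eq_mul, mul_one]
      nlinarith

theorem collide {U : Finset ℕ} {v : ℕ → ℕ} {δ : ℝ}
    (h : ∀ m ∈ U, ((U.filter fun m' => v m' = v m).card : ℝ) ≤ δ * U.card) :
    (((U ×ˢ U).filter fun z => v z.1 = v z.2).card : ℝ) ≤ δ * (U.card * U.card) := by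
  have e : ((U ×ˢ U).filter fun z => v z.1 = v z.2).card
      = ∑ m ∈ U, (U.filter fun m' => v m' = v m).card := by
    simp only [card_filter, sum_product, eq_comm]
  rw [e, Nat.cast_sum]
  refine (sum_le_card_nsmul _ _ _ h).trans_eq ?_
  rw [nsmul_eq_mul]
  ring

theorem bd {T : GI.Ty} {k : ℕ} {a : ℤ → ℂ} (h : T.At k a) (n : ℤ) : ‖a n‖ ≤ 1 :=
  let ⟨_, hF, _, _, _, e⟩ := h
  e n ▸ hF.bd _

theorem bd₂ {T : GI.Ty} {k : ℕ} {a b : ℤ → ℂ} (h : T.At k a) (h' : T.At k b) (n : ℤ) :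
    ‖a n * conj (b n)‖ ≤ 1 := by
  rw [norm_mul, Complex.norm_conj]
  exact mul_le_one₀ (bd h n) (norm_nonneg _) (bd h' n)

theorem rot {T : GI.Ty} {k : ℕ} {a : ℤ → ℂ} (h : T.At k a) {z : ℂ} (hz : ‖z‖ = 1) :
    T.At k fun n => z * a n := by
  obtain ⟨F, hF, hE, x, hx, e⟩ := h
  refine ⟨fun g => z * F g, ⟨fun g => ?_, fun c hc g hg => ?_, fun c hc hl g hg => ?_⟩,
    fun c hc g hg => ?_, x, hx, fun n => congrArg (z * ·) (e n)⟩
  · rw [norm_mul, hz, one_mul]; exact hF.bd g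
  · rw [← mul_sub, norm_mul, hz, one_mul]; exact hF.lip c hc g hg
  · rw [hF.per c hc hl g hg]
  · beta_reduce
    rw [hE c hc g hg, mul_left_comm]

theorem inv_pow_le {Q : ℝ} (hQ : 2 ≤ Q) {j C : ℕ} (h : j + 1 ≤ C) : 1 / Q ^ C ≤ 1 / (2 ^ j * Q) :=
  one_div_le_one_div_of_le (by positivity) (((mul_le_mul_of_nonneg_right
    (pow_le_pow_left₀ two_pos.le hQ j) (by linarith)).trans_eq (pow_succ Q j).symm).trans
      (pow_le_pow_right₀ (by linarith) h))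

theorem mix {J : Type} {T : Finset J} {ω : J → ℝ} (h0 : ∀ τ ∈ T, 0 ≤ ω τ)
    (h1 : ∑ τ ∈ T, ω τ = 1) {ε : ℝ} {U : Finset ℕ} {σ : ℕ → J}
    (hU : ∀ f : J → ℂ, (∀ τ ∈ T, ‖f τ‖ ≤ 1) →
      ‖(𝔼 m ∈ U, f (σ m)) - ∑ τ ∈ T, (ω τ : ℂ) * f τ‖ ≤ ε) {s t : ℕ} (hst : s ≤ t) {c : J → ℕ}
    (hc : ∀ τ ∈ T, 0 < c τ ∧ (c τ : ℝ) ≤ ((t : ℝ) - s) * ε) {φ : J → ℤ → ℂ}
    (hφ : ∀ τ n, ‖φ τ n‖ ≤ 1) :
    |‖∑ τ ∈ T, (ω τ : ℂ) * Ax.sv (c τ) s t fun n => φ τ n‖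
      - ((t : ℝ) - s) * ‖𝔼 m ∈ U, mean (c (σ m)) s (t - s) (φ (σ m))‖| ≤ ((t : ℝ) - s) * (2 * ε) := by
  have hR : (0 : ℝ) ≤ (t : ℝ) - s := sub_nonneg.2 (Nat.cast_le.2 hst)
  have k1 := hU (fun τ => mean (c τ) s (t - s) (φ τ)) fun τ _ => norm_mean_le _ _ _ (hφ τ)
  have k2 : ‖(∑ τ ∈ T, (ω τ : ℂ) * Ax.sv (c τ) s t fun n => φ τ n) - (((t : ℝ) - s : ℝ) : ℂ)
      * ∑ τ ∈ T, (ω τ : ℂ) * mean (c τ) s (t - s) (φ τ)‖ ≤ ((t : ℝ) - s) * ε := by
    rw [mul_sum, ← sum_sub_distrib, ← one_mul (_ * ε), ← h1, sum_mul]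
    refine (norm_sum_le _ _).trans (sum_le_sum fun τ hτ => ?_)
    rw [mul_left_comm, ← mul_sub, norm_mul, Complex.norm_real, Real.norm_of_nonneg (h0 τ hτ)]
    exact mul_le_mul_of_nonneg_left ((sv_mean (hc τ hτ).1 hst (hφ τ)).trans (hc τ hτ).2) (h0 τ hτ)
  have k3 := mul_le_mul_of_nonneg_left k1 hR
  have e : ∀ z : ℂ, ((t : ℝ) - s) * ‖z‖ = ‖(((t : ℝ) - s : ℝ) : ℂ) * z‖ := fun z => by
    rw [norm_mul, Complex.norm_real, Real.norm_of_nonneg hR]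
  rw [e, mul_sub, norm_sub_rev] at k3
  rw [e]
  refine (abs_norm_sub_norm_le _ _).trans ((norm_sub_le_norm_sub_add_norm_sub _ _ _).trans
    ((add_le_add k2 k3).trans_eq ?_))
  ring

end ExtFin

open ExtFin

theorem ax_fs_of (H : S_fsK) (T : GI.Ty) (k : ℕ) : Ax.FS (Ax.res {ψ | T.At k ψ}) := by
  classical
  obtain ⟨C, hC⟩ := fs_count H T k
  refine ⟨9 * C + 3, ?_⟩
  rintro Q hQ P w s t h hR _ ⟨a, ha, rfl⟩ _ ⟨b, hb, rfl⟩
  have h1 : 1 ≤ Q := by linarith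
  have h0 : 0 < Q ^ (9 * C + 3) := by positivity
  set R : ℝ := (t : ℝ) - s with hRd
  set φ : ℤ → ℂ := fun n => a n * conj (b n) with hφ
  have hp1 : ∀ p ∈ P, (1 : ℝ) ≤ p := fun p hp => Nat.one_le_cast.2 (h.pr p hp).pos
  have hp : ∀ p ∈ P, (p : ℝ) ≤ R * (1 / Q ^ (9 * C + 3)) := fun p hp => by
    rw [mul_one_div, le_div_iff₀ h0]; exact hR p hp
  obtain ⟨p₀, hp₀⟩ : P.Nonempty := nonempty_of_sum_ne_zero (h.sum ▸ one_ne_zero)
  have hR0 : 0 < R := (mul_pos (one_pos.trans_le (hp1 _ hp₀)) h0).trans_le (hR _ hp₀)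
  have hst : s ≤ t := Nat.cast_le.1 (sub_nonneg.1 hR0.le)
  let d : ℕ → ℝ := fun p => ‖mean p s (t - s) φ - mean 1 s (t - s) φ‖
  have hbad := bad_small h hQ (fun p => d p ≤ 1 / Q ^ 9) fun M B hB hne hM hc => by
    refine hC (Q ^ 9) (hQ.trans (le_self_pow₀ h1 (by norm_num))) s (t - s) M B hne
      (fun p hp => ⟨h.pr p (hB hp), ?_, (hM p hp).1⟩) ?_ hc a b ha hb
    · rw [← pow_mul]
      exact (pow_le_pow_right₀ h1 (by omega)).trans (h.lo p (hB hp))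
    · obtain ⟨p, hp⟩ := hne
      have h2 : (M : ℝ) ≤ 2 * p := by exact_mod_cast (hM p hp).2
      have h3 : Q * Q ^ (9 * C) ≤ Q ^ (9 * C + 3) := by
        rw [← pow_succ']; exact pow_le_pow_right₀ h1 (by omega)
      rw [← pow_mul]
      push_cast
      calc (M : ℝ) * Q ^ (9 * C) ≤ Q * p * Q ^ (9 * C) := by
            gcongr
            exact h2.trans (by gcongr)
        _ = p * (Q * Q ^ (9 * C)) := by ring
        _ ≤ p * Q ^ (9 * C + 3) := by gcongr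
        _ ≤ _ := hR p (hB hp)
  have h2 : ∑ p ∈ P, w p * d p ≤ 1 / Q ^ 9 + 2 * (1 / Q ^ 4) :=
    avg_le h _ two_pos.le hbad (fun _ _ c => c) fun p _ =>
      (norm_sub_le_of_le (norm_mean_le _ _ _ (bd₂ ha hb)) (norm_mean_le _ _ _ (bd₂ ha hb))).trans
        (by have : 0 ≤ 1 / Q ^ 9 := by positivity
            linarith)
  have e : ∑ p ∈ P, (w p : ℂ) * Ax.sv p s t (fun n => φ n) - Ax.sv 1 s t (fun n => φ n)
      = ∑ p ∈ P, (w p : ℂ) * (Ax.sv p s t (fun n => φ n) - Ax.sv 1 s t fun n => φ n) := by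
    simp only [mul_sub, sum_sub_distrib, ← sum_mul, ← Complex.ofReal_sum, h.sum,
      Complex.ofReal_one, one_mul]
  change ‖∑ p ∈ P, (w p : ℂ) * Ax.sv p s t (fun n => φ n) - Ax.sv 1 s t (fun n => φ n)‖ ≤ _
  rw [e]
  refine (norm_sum_le _ _).trans ((sum_le_sum
    (g := fun p => R * (w p * d p) + w p * (R * (2 * (1 / Q ^ (9 * C + 3))))) fun p hp' => ?_).trans ?_)
  · rw [norm_mul, Complex.norm_real, Real.norm_of_nonneg (h.nn p hp'), mul_left_comm, ← mul_add]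
    refine mul_le_mul_of_nonneg_left ?_ (h.nn p hp')
    have k1 := sv_mean (h.pr p hp').pos hst (bd₂ ha hb)
    have k2 := sv_mean one_pos hst (bd₂ ha hb)
    have k3 : ‖(R : ℂ) * mean p s (t - s) φ - R * mean 1 s (t - s) φ‖ = R * d p := by
      rw [← mul_sub, norm_mul, Complex.norm_real, Real.norm_of_nonneg hR0.le]
    rw [norm_sub_rev, Nat.cast_one, Nat.cast_one] at k2
    have k4 := (norm_sub_le_norm_sub_add_norm_sub _ _ _).trans (add_le_add k1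
      ((norm_sub_le_norm_sub_add_norm_sub _ _ _).trans (add_le_add k3.le k2)))
    linarith [hp p hp', hp1 p hp']
  · rw [sum_add_distrib, ← mul_sum, ← sum_mul, h.sum, one_mul, ← mul_add, div_eq_mul_one_div R]
    refine mul_le_mul_of_nonneg_left ?_ hR0.le
    have k1 := inv_pow_le hQ (j := 2) (C := 9) (by norm_num)
    have k2 := inv_pow_le hQ (j := 3) (C := 4) le_rfl
    have k3 := inv_pow_le hQ (j := 2) (C := 9 * C + 3) (by omega)
    have k4 : ∀ j : ℕ, 1 / (2 ^ j * Q) = 1 / 2 ^ j * (1 / Q) := fun j => by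
      rw [one_div_mul_one_div]
    rw [k4] at k1 k2 k3
    linarith

theorem ax_ext_of (H : S_extK) (T : GI.Ty) (k : ℕ) : Ax.EXT (Ax.res {ψ | T.At k ψ}) := by
  classical
  obtain ⟨C, hC⟩ := ext_count H T k
  refine ⟨9 * C + 4, ?_⟩
  intro Q hQ P V w μ s t J S v ω χ ψ h hV _ hS hμ hχ hR
  have h1 : 1 ≤ Q := by linarith
  have h0 : 0 < Q ^ (9 * C + 4) := by positivity
  set R : ℝ := (t : ℝ) - s with hRd
  obtain ⟨p₀, hp₀⟩ : P.Nonempty := nonempty_of_sum_ne_zero (h.sum ▸ one_ne_zero)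
  have hVne : V.Nonempty := nonempty_of_sum_ne_zero (hV.sum ▸ one_ne_zero)
  obtain ⟨a₀, ha₀, -⟩ := hχ p₀ hp₀
  have lift : ∀ {I : Type} (L : Finset I) (θ : I → ℕ → ℂ), (∀ i ∈ L, θ i ∈ Ax.res {ψ | T.At k ψ}) →
      ∃ θ' : I → ℤ → ℂ, (∀ i, T.At k (θ' i)) ∧ ∀ i ∈ L, θ i = fun n : ℕ => θ' i n := by
    intro I L θ hθ
    choose θ' h1 h2 using fun i : I => show ∃ b, T.At k b ∧ (i ∈ L → θ i = fun n : ℕ => b n) by
      by_cases c : i ∈ L
      · exact let ⟨b, hb, e⟩ := hθ i c; ⟨b, hb, fun _ => e.symm⟩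
      · exact ⟨a₀, ha₀, fun c' => absurd c' c⟩
    exact ⟨θ', h1, h2⟩
  obtain ⟨χ', hχ', eχ⟩ := lift P χ hχ
  obtain ⟨ψ', hψ', eψ⟩ := lift S ψ fun τ hτ => (hS τ hτ).2.2
  have hω : ∑ τ ∈ S, ω τ = 1 := by
    rw [← sum_fiberwise_of_maps_to (fun τ hτ => (hS τ hτ).1), sum_congr rfl hμ, hV.sum]
  set ε : ℝ := 1 / Q ^ (9 * C + 4) with hε
  obtain ⟨U, σ, hU, hσ, hf⟩ := uniform S ω (fun τ hτ => (hS τ hτ).2.1) hω
    (show 0 < ε by positivity)
  have hp1 : ∀ p ∈ P, (1 : ℝ) ≤ p := fun p hp => Nat.one_le_cast.2 (h.pr p hp).pos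
  have hr1 : ∀ r ∈ V, (1 : ℝ) ≤ r := fun r hr => Nat.one_le_cast.2 (hV.pr r hr).pos
  have hR2 : ∀ p ∈ P, ∀ r ∈ V, (p : ℝ) * (r * r) * Q ^ (9 * C + 4) ≤ R := fun p hp r hr => by
    refine le_trans ?_ (hR p hp r hr)
    gcongr
    rw [← sq]
    exact pow_le_pow_right₀ (hr1 r hr) (by omega)
  have hpr : ∀ p ∈ P, ∀ r ∈ V, (p : ℝ) * r ≤ R * ε := fun p hp r hr => by
    rw [hε, mul_one_div, le_div_iff₀ h0]
    refine le_trans ?_ (hR2 p hp r hr)
    gcongr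
    exact le_mul_of_one_le_left (Nat.cast_nonneg r) (hr1 r hr)
  have hR0 : 0 < R := by
    obtain ⟨r, hr⟩ := hVne
    have := hp1 _ hp₀
    have := hr1 _ hr
    exact lt_of_lt_of_le (by positivity) (hR2 _ hp₀ r hr)
  have hst : s < t := Nat.cast_lt.1 (sub_pos.1 hR0)
  have hcol : (((U ×ˢ U).filter fun z => v (σ z.1) = v (σ z.2)).card : ℝ) * (Q ^ 9) ^ C
      ≤ U.card * U.card := by
    have h2 : (0 : ℝ) < U.card := Nat.cast_pos.2 hU.card_pos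
    have h3 := collide (U := U) (v := fun m => v (σ m)) (δ := (Q + 1) * ε) fun m _ => by
      have hr := (hS _ (hσ m)).1
      have h4 := hf (fun τ => if v τ = v (σ m) then 1 else 0) fun τ _ => by split_ifs <;> simp
      have e1 : ∑ τ ∈ S, (ω τ : ℂ) * (if v τ = v (σ m) then 1 else 0) = (μ (v (σ m)) : ℝ) := by
        rw [← hμ _ hr, sum_filter, Complex.ofReal_sum]
        exact sum_congr rfl fun τ _ => by split_ifs <;> simp
      rw [e1, expect_eq_sum_div_card, sum_boole, ← Complex.ofReal_natCast,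
        ← Complex.ofReal_natCast, ← Complex.ofReal_div, ← Complex.ofReal_sub, Complex.norm_real,
        Real.norm_eq_abs] at h4
      have h5 : μ (v (σ m)) ≤ Q * ε := by
        rw [hε, mul_one_div, le_div_iff₀ h0]
        exact (mul_le_mul_of_nonneg_left (hV.lo _ hr) (hV.nn _ hr)).trans (hV.le _ hr)
      rw [← div_le_iff₀ h2]
      linarith [(abs_le.1 h4).2]
    refine (mul_le_mul_of_nonneg_right h3 (by positivity)).trans ?_
    rw [mul_right_comm]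
    refine mul_le_of_le_one_left (by positivity) ?_
    rw [hε, mul_one_div, div_mul_eq_mul_div, div_le_one h0, ← pow_mul, pow_add, mul_comm]
    refine mul_le_mul_of_nonneg_left ?_ (by positivity)
    calc Q + 1 ≤ Q ^ 2 := by nlinarith
      _ ≤ Q ^ 4 := pow_le_pow_right₀ h1 (by norm_num)
  let E : ℕ → ℝ := fun p => ‖𝔼 m ∈ U, mean ((p * v (σ m) : ℕ) : ℤ) s (t - s)
    fun n => χ' p n * conj (ψ' (σ m) n)‖
  let G : (ℤ → ℂ) → ℝ := fun u => ‖𝔼 m ∈ U, mean (v (σ m)) s (t - s)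
    fun n => u n * conj (ψ' (σ m) n)‖
  have hbad := bad_small h hQ (fun p => ∃ u, T.At k u ∧ E p ≤ G u + 1 / Q ^ 9)
    fun M B hB hne hM hc => by
      simp only [E, Nat.cast_mul]
      refine hC (Q ^ 9) (hQ.trans (le_self_pow₀ h1 (by norm_num))) s (t - s) M (V.max' hVne) B U
        (fun m => v (σ m)) χ' (fun m => ψ' (σ m)) hne
        (fun p hp => ⟨h.pr p (hB hp), ?_, (hM p hp).1⟩) hc (by omega) ?_ hU
        (fun m _ => ⟨hV.pr _ (hS _ (hσ m)).1, le_max' _ _ (hS _ (hσ m)).1⟩) hcol hχ'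
        fun m => hψ' _
      · rw [← pow_mul]
        exact (pow_le_pow_right₀ h1 (by omega)).trans (h.lo p (hB hp))
      · obtain ⟨p, hp⟩ := hne
        have h2 : (M : ℝ) ≤ 2 * p := by exact_mod_cast (hM p hp).2
        have h3 : Q * Q ^ (9 * C) ≤ Q ^ (9 * C + 4) := by
          rw [← pow_succ']; exact pow_le_pow_right₀ h1 (by omega)
        rw [← pow_mul]
        push_cast
        refine le_trans ?_ (hR2 p (hB hp) _ (max'_mem V hVne))
        generalize V.max' hVne = r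
        calc (M : ℝ) * r * r * Q ^ (9 * C) ≤ Q * p * r * r * Q ^ (9 * C) := by
              gcongr
              exact h2.trans (by gcongr)
          _ = p * (r * r) * (Q * Q ^ (9 * C)) := by ring
          _ ≤ _ := by gcongr
  choose u hu1 hu2 using fun p => show ∃ u, T.At k u ∧
      ((∃ u, T.At k u ∧ E p ≤ G u + 1 / Q ^ 9) → E p ≤ G u + 1 / Q ^ 9) by
    by_cases c : ∃ u, T.At k u ∧ E p ≤ G u + 1 / Q ^ 9
    · exact c.imp fun u hu => ⟨hu.1, fun _ => hu.2⟩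
    · exact ⟨a₀, ha₀, fun c' => absurd c' c⟩
  obtain ⟨p₁, -, hp₁⟩ := exists_max_image P (fun p => G (u p)) ⟨p₀, hp₀⟩
  have h2 : ∑ p ∈ P, w p * E p ≤ G (u p₁) + 1 / Q ^ 9 + 1 * (1 / Q ^ 4) :=
    avg_le h _ zero_le_one hbad (fun p hp c => (hu2 p c).trans (add_le_add_left (hp₁ p hp) _))
      fun p _ => (norm_expect_le_one fun m _ => norm_mean_le _ _ _ (bd₂ (hχ' p) (hψ' _))).trans
        (le_add_of_nonneg_left (add_nonneg (norm_nonneg _) (by positivity)))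
  obtain ⟨z, hz, ez⟩ := Complex.exists_norm_eq_mul_self
    (∑ τ ∈ S, (ω τ : ℂ) * Ax.sv (v τ) s t fun n => u p₁ n * conj (ψ' τ n))
  refine ⟨fun n : ℕ => z * u p₁ n, ⟨_, rot (hu1 p₁) hz, rfl⟩, ?_⟩
  have e1 : ∑ τ ∈ S, (ω τ : ℂ) * Ax.sv (v τ) s t (Ax.pc (fun n : ℕ => z * u p₁ n) (ψ τ))
      = z * ∑ τ ∈ S, (ω τ : ℂ) * Ax.sv (v τ) s t fun n => u p₁ n * conj (ψ' τ n) := by
    rw [mul_sum]
    refine sum_congr rfl fun τ hτ => ?_
    simp only [eψ τ hτ, Ax.sv, Ax.pc, mul_assoc, ← mul_sum]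
    ring
  have e2 : ∑ p ∈ P, ∑ τ ∈ S, ((w p * ω τ : ℝ) : ℂ) * Ax.sv (p * v τ) s t (Ax.pc (χ p) (ψ τ))
      = ∑ p ∈ P, (w p : ℂ) * ∑ τ ∈ S, (ω τ : ℂ) * Ax.sv (p * v τ) s t
        fun n => χ' p n * conj (ψ' τ n) := by
    refine sum_congr rfl fun p hp => ?_
    rw [mul_sum]
    refine sum_congr rfl fun τ hτ => ?_
    rw [eχ p hp, eψ τ hτ, Complex.ofReal_mul, mul_assoc]
    rfl
  rw [e1, ← ez, e2, Complex.ofReal_re]
  have k1 := (abs_le.1 (mix (fun τ hτ => (hS τ hτ).2.1) hω hf hst.le (c := v)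
    (fun τ hτ => ⟨(hV.pr _ (hS τ hτ).1).pos, (le_mul_of_one_le_left (Nat.cast_nonneg _)
      (hp1 _ hp₀)).trans (hpr _ hp₀ _ (hS τ hτ).1)⟩)
    (φ := fun τ n => u p₁ n * conj (ψ' τ n)) fun τ => bd₂ (hu1 _) (hψ' τ))).1
  refine (Complex.re_le_norm _).trans ((norm_sum_le _ _).trans ((sum_le_sum
    (g := fun p => R * (w p * E p) + w p * (R * (2 * ε))) fun p hp => ?_).trans ?_))
  · rw [norm_mul, Complex.norm_real, Real.norm_of_nonneg (h.nn p hp), mul_left_comm, ← mul_add]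
    refine mul_le_mul_of_nonneg_left ?_ (h.nn p hp)
    exact sub_le_iff_le_add'.1 (abs_le.1 (mix (fun τ hτ => (hS τ hτ).2.1) hω hf hst.le
      (c := fun τ => p * v τ) (fun τ hτ => ⟨mul_pos (h.pr p hp).pos (hV.pr _ (hS τ hτ).1).pos,
        (Nat.cast_mul _ _).trans_le (hpr p hp _ (hS τ hτ).1)⟩)
      (φ := fun τ n => χ' p n * conj (ψ' τ n)) fun τ => bd₂ (hχ' p) (hψ' τ))).2
  · rw [sum_add_distrib, ← mul_sum, ← sum_mul, h.sum, one_mul, div_eq_mul_one_div R]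
    have k2 := inv_pow_le hQ (j := 2) (C := 9) (by norm_num)
    have k3 := inv_pow_le hQ (j := 2) (C := 4) (by norm_num)
    have k4 := inv_pow_le hQ (j := 3) (C := 9 * C + 4) (by omega)
    have k5 : ∀ j : ℕ, 1 / (2 ^ j * Q) = 1 / 2 ^ j * (1 / Q) := fun j => by
      rw [one_div_mul_one_div]
    rw [k5] at k2 k3 k4
    have k6 : ∑ p ∈ P, w p * E p + 2 * ε + 2 * ε ≤ G (u p₁) + 1 / Q := by linarith
    have k7 := mul_le_mul_of_nonneg_left k6 hR0.le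
    change -(R * (2 * ε)) ≤ _ - R * G (u p₁) at k1
    linarith

end Pool.Agent.P.MP_a14ce1_nt.Nil
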