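import Pool.Agent.P.MP_a14ce1_nt.Nil.Tiny

/-!
Internal averages and dense sets.
-/

open Filter
open scoped BigOperators NNRat

set_option linter.unusedSectionVars false

noncomputable section

namespace Pool.Agent.P.MP_a14ce1_nt.Nil

variable {A S B S' : Type} [NS A S] [NS B S'] {Q : HR} [Fact (2 ≤ Q)]

theorem ev_ball {t : ℕ → Finset S} {P : ℕ → S → Prop}
    (h : ∀ x : ℕ → S, (∀ᶠ n in UU, x n ∈ t n) → ∀ᶠ n in UU, P n (x n)) :
    ∀ᶠ n in UU, ∀ s ∈ t n, P n s := ev_forall.2 fun x => by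
  by_cases hx : ∀ᶠ n in UU, x n ∈ t n
  · exact (h x hx).mono fun n hn _ => hn
  · exact (ev_not.2 hx).mono fun n hn h' => absurd h' hn

theorem cd_st (t : ℕ → Finset S) : cd (st t) = st fun n => ((t n).card : ℝ) := rfl
theorem fprod_st (t : ℕ → Finset S) (t' : ℕ → Finset S') :
    fprod (st t) (st t') = st fun n => t n ×ˢ t' n := rfl

theorem Ex_st {V : Type} [AddCommMonoid V] [Module ℚ≥0 V] (T : ℕ → Finset S) {f : A → Ns V}
    {φ : ℕ → S → V} (h : ∀ x, f (st x) = st fun n => φ n (x n)) :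
    Ex (st T) f = st fun n => 𝔼 x ∈ T n, φ n x := by
  have hf : IntF f := ⟨φ, h⟩
  rw [Ex, dif_pos hf]
  have h1 : ∀ᶠ n in UU, ∀ s, hf.choose n s = φ n s := ev_forall.2 fun x =>
    (NS.eq_iff (A := Ns V) _ _).1 ((hf.choose_spec x).symm.trans (h x))
  refine st_congr ((h1.and (rep_st (A := Ns (Finset S)) T)).mono fun n hn => ?_)
  rw [hn.2]
  exact Finset.expect_congr rfl fun s _ => hn.1 s

@[fun_prop] theorem IntF.ex {V : Type} [AddCommMonoid V] [Module ℚ≥0 V] {T : B → Ns (Finset S)}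
    (hT : IntF T) {f : B → A → Ns V} (hf : IntF fun z : B × A => f z.1 z.2) :
    IntF fun b => Ex (T b) (f b) := by
  obtain ⟨φ, h⟩ := hf
  obtain ⟨τ, h'⟩ := hT
  refine ⟨fun n b => 𝔼 x ∈ τ n b, φ n (b, x), fun y => ?_⟩
  beta_reduce
  rw [h']
  exact Ex_st _ (φ := fun n s => φ n (y n, s)) fun x => h fun n => (y n, x n)

/-! ### Cardinalities -/

section card

variable {T H : Ns (Finset S)} {T' : Ns (Finset S')}

theorem cd_nonneg (T : Ns (Finset S)) : 0 ≤ cd T :=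
  st_ind (p := fun T : Ns (Finset S) => 0 ≤ cd T) (fun _ => le_of_forall fun _ => Nat.cast_nonneg _) T
theorem cd_mem_ZZ (T : Ns (Finset S)) : cd T ∈ ZZ :=
  st_ind (p := fun T : Ns (Finset S) => cd T ∈ ZZ)
    (fun t => ⟨fun n => (t n).card, congrArg st (funext fun _ => (Int.cast_natCast _).symm)⟩) T
theorem cd_pos (h : cd T ≠ 0) : 0 < cd T := (cd_nonneg T).lt_of_ne h.symm
theorem one_le_cd (h : cd T ≠ 0) : 1 ≤ cd T := by
  have := ZZ_one_le (cd_mem_ZZ T) h
  rwa [abs_of_nonneg (cd_nonneg T)] at this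
theorem cd_ne_zero_st {t : ℕ → Finset S} : cd (st t) ≠ 0 ↔ ∀ᶠ n in UU, (t n).Nonempty :=
  (not_congr (NS.eq_iff (A := HR) _ fun _ => 0)).trans (ev_not.symm.trans (eventually_congr
    (Eventually.of_forall fun n => by simp [Finset.nonempty_iff_ne_empty])))
theorem Mem.cd_ne_zero {a : A} (h : Mem a T) : cd T ≠ 0 := by
  induction T using st_ind with | _ t
  induction a using st_ind with | _ x
  exact cd_ne_zero_st.2 ((mem_st.1 h).mono fun n hn => ⟨_, hn⟩)
theorem exists_mem (h : cd T ≠ 0) : ∃ a : A, Mem a T := by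
  induction T using st_ind with | _ t
  obtain ⟨x, hx⟩ := ev_exists.1 (cd_ne_zero_st.1 h)
  exact ⟨st x, mem_st.2 hx⟩
theorem subset_st {t u : ℕ → Finset S} (h : ∀ a : A, Mem a (st t) → Mem a (st u)) :
    ∀ᶠ n in UU, t n ⊆ u n := ev_ball fun x hx => mem_st.1 (h (st x) (mem_st.2 hx))
theorem cd_mono (h : ∀ a : A, Mem a H → Mem a T) : cd H ≤ cd T := by
  induction T using st_ind with | _ t
  induction H using st_ind with | _ u
  exact st_le.2 ((subset_st h).mono fun n hn => Nat.cast_le.2 (Finset.card_le_card hn))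
theorem ns_ext (h : ∀ a : A, Mem a H ↔ Mem a T) : H = T := by
  induction T using st_ind with | _ t
  induction H using st_ind with | _ u
  exact st_congr (((subset_st fun a => (h a).1).and (subset_st fun a => (h a).2)).mono
    fun n hn => hn.1.antisymm hn.2)
theorem cd_div_nonneg (H : Ns (Finset S)) (T : Ns (Finset S')) : 0 ≤ cd H / cd T :=
  div_nonneg (cd_nonneg H) (cd_nonneg T)
theorem cd_div_le_one (h : ∀ a : A, Mem a H → Mem a T) : cd H / cd T ≤ 1 :=
  div_le_one_of_le₀ (cd_mono h) (cd_nonneg T)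
theorem cd_div_OO (h : ∀ a : A, Mem a H → Mem a T) : cd H / cd T ∈ OO Q :=
  OO_of_le_one (by rw [abs_of_nonneg (cd_div_nonneg H T)]; exact cd_div_le_one h)
theorem mem_fprod {z : A × B} : Mem z (fprod T T') ↔ Mem z.1 T ∧ Mem z.2 T' := by
  induction T using st_ind with | _ t
  induction T' using st_ind with | _ u
  induction z using st_ind with | _ x
  rw [fprod_st, mem_st]
  simp only [Finset.mem_product, eventually_and]
  exact and_congr (mem_st (A := A)).symm (mem_st (A := B)).symm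
theorem cd_fprod (T : Ns (Finset S)) (T' : Ns (Finset S')) : cd (fprod T T') = cd T * cd T' :=
  ind₂ (p := fun (T : Ns (Finset S)) (T' : Ns (Finset S')) => cd (fprod T T') = cd T * cd T')
    (fun t u => congrArg st (funext fun n => by
      change (((t n ×ˢ u n).card : ℕ) : ℝ) = ((t n).card : ℝ) * (u n).card
      rw [Finset.card_product, Nat.cast_mul])) T T'
/-- An internal injection. -/
theorem cd_le_of_inj {e : A → B} (he : IntF e) (h : ∀ a, Mem a T → Mem (e a) T')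
    (hi : ∀ a a', Mem a T → Mem a' T → e a = e a' → a = a') : cd T ≤ cd T' := by
  obtain ⟨φ, hφ⟩ := he
  induction T using st_ind with | _ t
  induction T' using st_ind with | _ u
  have h1 : ∀ᶠ n in UU, ∀ s ∈ t n, φ n s ∈ u n := ev_ball fun x hx => by
    have := h _ (mem_st.2 hx)
    rwa [hφ, mem_st] at this
  have h2 : ∀ᶠ n in UU, ∀ s ∈ t n ×ˢ t n, φ n s.1 = φ n s.2 → s.1 = s.2 := ev_ball fun x hx => by
    simp only [Finset.mem_product, eventually_and] at hx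
    have := hi _ _ (mem_st.2 hx.1) (mem_st.2 hx.2)
    rw [hφ, hφ, NS.eq_iff, NS.eq_iff] at this
    by_cases c : ∀ᶠ n in UU, φ n (x n).1 = φ n (x n).2
    · exact (this c).mono fun n hn _ => hn
    · exact (ev_not.2 c).mono fun n hn h' => absurd h' hn
  exact st_le.2 ((h1.and h2).mono fun n hn => Nat.cast_le.2 (Finset.card_le_card_of_injOn (φ n)
    hn.1 fun a ha b hb => hn.2 (a, b) (Finset.mem_product.2 ⟨ha, hb⟩)))

end card

/-! ### Linearity -/

section lin

variable {V : Type} {T H : Ns (Finset S)} {T' : Ns (Finset S')}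

section mon

variable [AddCommMonoid V] [Module ℚ≥0 V] {f g : A → Ns V}

theorem Ex_congr' (hf : IntF f) (hg : IntF g) (h : ∀ a, Mem a T → f a = g a) :
    Ex T f = Ex T g := by
  obtain ⟨φ, hφ⟩ := hf
  obtain ⟨ψ, hψ⟩ := hg
  induction T using st_ind with | _ t
  rw [Ex_st t hφ, Ex_st t hψ]
  refine st_congr ((ev_ball (P := fun n s => φ n s = ψ n s) fun x hx => ?_).mono
    fun n hn => Finset.expect_congr rfl hn)
  have := h _ (mem_st.2 hx)
  rwa [hφ, hψ, NS.eq_iff] at this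
theorem Ex_add (hf : IntF f) (hg : IntF g) : (Ex T fun a => f a + g a) = Ex T f + Ex T g := by
  obtain ⟨φ, hφ⟩ := hf
  obtain ⟨ψ, hψ⟩ := hg
  induction T using st_ind with | _ t
  rw [Ex_st t hφ, Ex_st t hψ, Ex_st t (φ := fun n s => φ n s + ψ n s) fun x => by
    rw [hφ, hψ]; rfl]
  exact congrArg st (funext fun n => Finset.expect_add_distrib _ _ _)
theorem Ex_sum {J : Type} (s : Finset J) {F : J → A → Ns V} (hF : ∀ j, IntF (F j)) :
    (Ex T fun a => ∑ j ∈ s, F j a) = ∑ j ∈ s, Ex T (F j) := by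
  choose φ hφ using hF
  induction T using st_ind with | _ t
  rw [Ex_st t (φ := fun n x => ∑ j ∈ s, φ j n x) fun x => by simp only [hφ, st_sum]]
  simp only [Ex_st t (hφ _), st_sum]
  exact congrArg st (funext fun n => Finset.expect_sum_comm _ _ _)
theorem Ex_const (hT : cd T ≠ 0) (c : Ns V) : (Ex T fun _ : A => c) = c := by
  induction T using st_ind with | _ t
  induction c using st_ind with | _ c
  rw [Ex_st t (φ := fun n _ => c n) fun _ => rfl]
  exact st_congr ((cd_ne_zero_st.1 hT).mono fun n hn => Finset.expect_const hn _)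
theorem Ex_of_eq (hT : cd T ≠ 0) (hf : IntF f) {c : Ns V} (h : ∀ a, Mem a T → f a = c) :
    Ex T f = c := (Ex_congr' hf (IntF.const c) h).trans (Ex_const hT c)
theorem Ex_zero : (Ex T fun _ : A => (0 : Ns V)) = 0 := by
  induction T using st_ind with | _ t
  rw [Ex_st t (φ := fun _ _ => 0) fun _ => rfl]
  exact congrArg st (funext fun n => Finset.expect_const_zero _)
theorem Ex_empty (hT : cd T = 0) (hf : IntF f) : Ex T f = 0 :=
  (Ex_congr' hf (IntF.const 0) fun _ h => absurd hT h.cd_ne_zero).trans Ex_zero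
theorem Ex_fprod' {f : A × B → Ns V} (hf : IntF f) :
    Ex (fprod T T') f = Ex T fun a : A => Ex T' fun b : B => f (a, b) := by
  obtain ⟨φ, hφ⟩ := hf
  induction T using st_ind with | _ t
  induction T' using st_ind with | _ u
  rw [fprod_st, Ex_st _ hφ]
  refine Eq.trans ?_ (Ex_st t (f := fun a : A => Ex (st u) fun b : B => f (a, b))
    (φ := fun n s => 𝔼 s' ∈ u n, φ n (s, s')) fun x =>
    Ex_st u (φ := fun n s' => φ n (x n, s')) fun y => hφ fun n => (x n, y n)).symm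
  exact congrArg st (funext fun n => Finset.expect_product _ _ _)
theorem Ex_comm' {f : A → B → Ns V} (hf : IntF fun z : A × B => f z.1 z.2) :
    (Ex T fun a => Ex T' fun b => f a b) = Ex T' fun b => Ex T fun a => f a b := by
  obtain ⟨φ, hφ⟩ := hf
  induction T using st_ind with | _ t
  induction T' using st_ind with | _ u
  refine (Ex_st t (f := fun a => Ex (st u) fun b => f a b)
    (φ := fun n s => 𝔼 s' ∈ u n, φ n (s, s')) fun x =>
    Ex_st u (φ := fun n s' => φ n (x n, s')) fun y => hφ fun n => (x n, y n)).trans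
    (Eq.trans ?_ (Ex_st u (f := fun b => Ex (st t) fun a => f a b)
    (φ := fun n s' => 𝔼 s ∈ t n, φ n (s, s')) fun y =>
    Ex_st t (φ := fun n s => φ n (s, y n)) fun x => hφ fun n => (x n, y n)).symm)
  exact congrArg st (funext fun n => Finset.expect_comm _ _ _)
/-- Reindexing by an internal bijection. -/
theorem Ex_bij {e : A → B} (he : IntF e) (h : ∀ a, Mem a T → Mem (e a) T')
    (hi : ∀ a a', Mem a T → Mem a' T → e a = e a' → a = a')
    (hs : ∀ b, Mem b T' → ∃ a, Mem a T ∧ e a = b) {g : B → Ns V} (hg : IntF g) :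
    (Ex T fun a => g (e a)) = Ex T' g := by
  obtain ⟨φ, hφ⟩ := he
  obtain ⟨ψ, hψ⟩ := hg
  induction T using st_ind with | _ t
  induction T' using st_ind with | _ u
  have h1 : ∀ᶠ n in UU, ∀ s ∈ t n, φ n s ∈ u n := ev_ball fun x hx => by
    have := h _ (mem_st.2 hx)
    rwa [hφ, mem_st] at this
  have h2 : ∀ᶠ n in UU, ∀ s ∈ t n ×ˢ t n, φ n s.1 = φ n s.2 → s.1 = s.2 := ev_ball fun x hx => by
    simp only [Finset.mem_product, eventually_and] at hx
    have := hi _ _ (mem_st.2 hx.1) (mem_st.2 hx.2)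
    rw [hφ, hφ, NS.eq_iff, NS.eq_iff] at this
    by_cases c : ∀ᶠ n in UU, φ n (x n).1 = φ n (x n).2
    · exact (this c).mono fun n hn _ => hn
    · exact (ev_not.2 c).mono fun n hn h' => absurd h' hn
  have h3 : ∀ᶠ n in UU, ∀ s' ∈ u n, ∃ s ∈ t n, φ n s = s' := ev_ball fun y hy => by
    obtain ⟨a, ha, e⟩ := hs _ (mem_st.2 hy)
    induction a using st_ind with | _ x
    rw [hφ, NS.eq_iff] at e
    exact ((mem_st.1 ha).and e).mono fun n hn => ⟨_, hn⟩
  rw [Ex_st u hψ, Ex_st t (φ := fun n s => ψ n (φ n s)) fun x => by rw [hφ, hψ]]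
  exact st_congr ((h1.and (h2.and h3)).mono fun n hn => Finset.expect_nbij (φ n) hn.1
    (fun _ _ => rfl) (fun a ha b hb => hn.2.1 (a, b) (Finset.mem_product.2 ⟨ha, hb⟩)) hn.2.2)
/-- Reindexing by an internal map with an inverse. -/
theorem Ex_bij' {e : A → B} (he : IntF e) (e' : B → A) (h : ∀ a, Mem a T → Mem (e a) T')
    (h' : ∀ b, Mem b T' → Mem (e' b) T) (hl : ∀ a, Mem a T → e' (e a) = a)
    (hr : ∀ b, Mem b T' → e (e' b) = b) {g : B → Ns V} (hg : IntF g) :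
    (Ex T fun a => g (e a)) = Ex T' g :=
  Ex_bij he h (fun a a' ha ha' c => by rw [← hl a ha, c, hl a' ha'])
    (fun b hb => ⟨e' b, h' b hb, hr b hb⟩) hg
theorem liftHom_Ex {R R' : Type} [Semiring R] [Semiring R'] [Module ℚ≥0 R] [Module ℚ≥0 R']
    (ρ : R →+* R') (hρ : ∀ (c : ℚ≥0) x, ρ (c • x) = c • ρ x) {f : A → Ns R} (hf : IntF f) :
    liftHom ρ (Ex T f) = Ex T fun a => liftHom ρ (f a) := by
  obtain ⟨φ, hφ⟩ := hf
  induction T using st_ind with | _ t
  rw [Ex_st t hφ, Ex_st t (φ := fun n s => ρ (φ n s)) fun x => by rw [hφ]; rfl]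
  refine congrArg st (funext fun n => ?_)
  change ρ (𝔼 x ∈ t n, φ n x) = _
  rw [Finset.expect, Finset.expect, hρ, map_sum]

end mon

section grp

variable [AddCommGroup V] [Module ℚ≥0 V] {f g : A → Ns V}

theorem Ex_sub (hf : IntF f) (hg : IntF g) : (Ex T fun a => f a - g a) = Ex T f - Ex T g := by
  obtain ⟨φ, hφ⟩ := hf
  obtain ⟨ψ, hψ⟩ := hg
  induction T using st_ind with | _ t
  rw [Ex_st t hφ, Ex_st t hψ, Ex_st t (φ := fun n s => φ n s - ψ n s) fun x => by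
    rw [hφ, hψ]; rfl]
  exact congrArg st (funext fun n => Finset.expect_sub_distrib _ _ _)
theorem Ex_neg (hf : IntF f) : (Ex T fun a => -f a) = -Ex T f := by
  obtain ⟨φ, hφ⟩ := hf
  induction T using st_ind with | _ t
  rw [Ex_st t hφ, Ex_st t (φ := fun n s => -φ n s) fun x => by rw [hφ]; rfl]
  exact congrArg st (funext fun n => Finset.expect_neg_distrib _ _)

end grp

section rng

variable [Semiring V] [Module ℚ≥0 V] {f g : A → Ns V}

theorem Ex_mul_left [SMulCommClass ℚ≥0 V V] (hf : IntF f) (c : Ns V) :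
    (Ex T fun a => c * f a) = c * Ex T f := by
  obtain ⟨φ, hφ⟩ := hf
  induction T using st_ind with | _ t
  induction c using st_ind with | _ c
  rw [Ex_st t hφ, Ex_st t (φ := fun n s => c n * φ n s) fun x => by rw [hφ]; rfl]
  exact congrArg st (funext fun n => (Finset.mul_expect _ _ _).symm)
theorem Ex_mul_right [IsScalarTower ℚ≥0 V V] (hf : IntF f) (c : Ns V) :
    (Ex T fun a => f a * c) = Ex T f * c := by
  obtain ⟨φ, hφ⟩ := hf
  induction T using st_ind with | _ t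
  induction c using st_ind with | _ c
  rw [Ex_st t hφ, Ex_st t (φ := fun n s => φ n s * c n) fun x => by rw [hφ]; rfl]
  exact congrArg st (funext fun n => (Finset.expect_mul _ _ _).symm)
theorem Ex_mul_Ex [IsScalarTower ℚ≥0 V V] [SMulCommClass ℚ≥0 V V] (hf : IntF f) {g : B → Ns V}
    (hg : IntF g) : Ex T f * Ex T' g = Ex T fun a => Ex T' fun b => f a * g b := by
  rw [← Ex_mul_right hf]
  exact congrArg _ (funext fun a => (Ex_mul_left hg _).symm)

end rng

theorem Ex_congr {T : Ns (Finset S)} {f g : A → HC} (hf : IntF f) (hg : IntF g)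
    (h : ∀ a, Mem a T → f a = g a) : Ex T f = Ex T g := Ex_congr' hf hg h
theorem Ex_fprod {T : Ns (Finset S)} {T' : Ns (Finset S')} {f : A × B → HC} (hf : IntF f) :
    Ex (fprod T T') f = Ex T fun a : A => Ex T' fun b : B => f (a, b) := Ex_fprod' hf
theorem Ex_comm {T : Ns (Finset S)} {T' : Ns (Finset S')} {f : A → B → HC}
    (hf : IntF fun z : A × B => f z.1 z.2) :
    (Ex T fun a => Ex T' fun b => f a b) = Ex T' fun b => Ex T fun a => f a b := Ex_comm' hf
theorem cj_Ex {f : A → HC} (hf : IntF f) : cj (Ex T f) = Ex T fun a => cj (f a) :=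
  liftHom_Ex _ (fun c x => by rw [NNRat.smul_def, NNRat.smul_def, map_mul, map_nnratCast]) hf
theorem cr_Ex {f : A → HR} (hf : IntF f) : cr (Ex T f) = Ex T fun a => cr (f a) :=
  liftHom_Ex _ (fun c x => by rw [NNRat.smul_def, NNRat.smul_def, map_mul, map_nnratCast]) hf
theorem Ex_div_right {f : A → HR} (hf : IntF f) (c : HR) :
    (Ex T fun a => f a / c) = Ex T f / c := by
  simp only [div_eq_mul_inv, Ex_mul_right hf]

end lin

/-! ### Order -/

section ord

variable {T H : Ns (Finset S)} {f g : A → HR}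

theorem Ex_mono (hf : IntF f) (hg : IntF g) (h : ∀ a, Mem a T → f a ≤ g a) : Ex T f ≤ Ex T g := by
  obtain ⟨φ, hφ⟩ := hf
  obtain ⟨ψ, hψ⟩ := hg
  induction T using st_ind with | _ t
  rw [Ex_st t hφ, Ex_st t hψ]
  refine st_le.2 ((ev_ball (P := fun n s => φ n s ≤ ψ n s) fun x hx => ?_).mono
    fun n hn => Finset.expect_le_expect hn)
  have := h _ (mem_st.2 hx)
  rwa [hφ, hψ, st_le] at this
theorem Ex_nonneg (hf : IntF f) (h : ∀ a, Mem a T → 0 ≤ f a) : 0 ≤ Ex T f :=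
  (Ex_zero (A := A)).ge.trans (Ex_mono (IntF.const 0) hf h)
theorem Ex_le' (hT : cd T ≠ 0) (hf : IntF f) {c : HR} (h : ∀ a, Mem a T → f a ≤ c) : Ex T f ≤ c :=
  (Ex_mono hf (IntF.const c) h).trans (Ex_const hT c).le
theorem Ex_le (hf : IntF f) {c : HR} (hc : 0 ≤ c) (h : ∀ a, Mem a T → f a ≤ c) : Ex T f ≤ c := by
  by_cases hT : cd T = 0
  · rwa [Ex_empty hT hf]
  · exact Ex_le' hT hf h
theorem le_Ex (hT : cd T ≠ 0) (hf : IntF f) {c : HR} (h : ∀ a, Mem a T → c ≤ f a) : c ≤ Ex T f :=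
  (Ex_const hT c).ge.trans (Ex_mono (IntF.const c) hf h)
theorem abs_Ex_le_Ex (hf : IntF f) : |Ex T f| ≤ Ex T fun a => |f a| :=
  abs_le'.2 ⟨Ex_mono hf hf.abs fun _ _ => le_abs_self _,
    (Ex_neg hf).ge.trans (Ex_mono hf.neg hf.abs fun _ _ => neg_le_abs _)⟩
theorem abs_Ex_le (hf : IntF f) {c : HR} (hc : 0 ≤ c) (h : ∀ a, Mem a T → |f a| ≤ c) :
    |Ex T f| ≤ c := (abs_Ex_le_Ex hf).trans (Ex_le hf.abs hc h)
theorem nm_Ex_le_Ex {f : A → HC} (hf : IntF f) : nm (Ex T f) ≤ Ex T fun a => nm (f a) := by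
  obtain ⟨φ, hφ⟩ := hf
  induction T using st_ind with | _ t
  rw [Ex_st t hφ, Ex_st t (φ := fun n s => ‖φ n s‖) fun x => by rw [hφ]; rfl]
  exact le_of_forall fun n => RCLike.norm_expect_le (K := ℂ)
theorem nm_Ex_le {T : Ns (Finset S)} {f : A → HC} (hf : IntF f) {c : HR} (hc : 0 ≤ c)
    (h : ∀ a, Mem a T → nm (f a) ≤ c) : nm (Ex T f) ≤ c :=
  (nm_Ex_le_Ex hf).trans (Ex_le hf.nm hc h)
theorem exists_Ex_le (hT : cd T ≠ 0) (hf : IntF f) : ∃ a, Mem a T ∧ Ex T f ≤ f a := by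
  obtain ⟨φ, hφ⟩ := hf
  induction T using st_ind with | _ t
  obtain ⟨x, hx⟩ := ev_exists.1 ((cd_ne_zero_st.1 hT).mono fun n hn =>
    Finset.exists_le_of_le_expect hn (le_refl (𝔼 s ∈ t n, φ n s)))
  rw [eventually_and] at hx
  exact ⟨st x, mem_st.2 hx.1, by rw [Ex_st t hφ, hφ]; exact st_le.2 hx.2⟩
theorem exists_le_Ex (hT : cd T ≠ 0) (hf : IntF f) : ∃ a, Mem a T ∧ f a ≤ Ex T f := by
  obtain ⟨a, h1, h2⟩ := exists_Ex_le hT hf.neg
  rw [Ex_neg hf] at h2
  exact ⟨a, h1, neg_le_neg_iff.1 h2⟩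
theorem Ex_OO (hf : IntF f) (h : ∀ a, Mem a T → f a ∈ OO Q) : Ex T f ∈ OO Q := by
  obtain ⟨M, hM, h1⟩ := unif_OO (IntP.mem IntF.id (IntF.const T)) hf h
  exact OO_of_le hM (abs_Ex_le hf (abs_nonneg M) fun a ha => (h1 a ha).trans (le_abs_self M))
theorem nm_Ex_OO {f : A → HC} (hf : IntF f) (h : ∀ a, Mem a T → nm (f a) ∈ OO Q) :
    nm (Ex T f) ∈ OO Q := OO_of_abs_le (Ex_OO hf.nm h) (by rw [abs_nm]; exact nm_Ex_le_Ex hf)
theorem tiny_Ex0 (hf : IntF f) (h : ∀ a, Mem a T → Tiny Q (f a)) : Tiny Q (Ex T f) :=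
  tiny_iff_le.2 fun _ hδ => abs_Ex_le hf (abs_nonneg _) fun a ha => ((h a ha).lt hδ).le
theorem tiny_Ex (hf : IntF f) (hg : IntF g) (h : ∀ a, Mem a T → Tiny Q (f a - g a)) :
    Tiny Q (Ex T f - Ex T g) := Ex_sub hf hg ▸ tiny_Ex0 (hf.sub hg) h
theorem tinyC_Ex0 {f : A → HC} (hf : IntF f) (h : ∀ a, Mem a T → TinyC Q (f a)) :
    TinyC Q (Ex T f) := TinyC.of_le (tiny_Ex0 hf.nm h) (nm_Ex_le_Ex hf)
theorem tinyC_Ex {T : Ns (Finset S)} {f g : A → HC} (hf : IntF f) (hg : IntF g)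
    (h : ∀ a, Mem a T → TinyC Q (f a - g a)) : TinyC Q (Ex T f - Ex T g) :=
  Ex_sub hf hg ▸ tinyC_Ex0 (hf.sub hg) h
theorem exists_bigC_of_Ex {f : A → HC} (hf : IntF f) (h : BigC Q (Ex T f)) :
    ∃ a, Mem a T ∧ BigC Q (f a) :=
  by_contra fun c => tinyC_Ex0 hf (fun a ha hb => c ⟨a, ha, hb⟩) h
theorem Ex_csR (hf : IntF f) (hg : IntF g) :
    (Ex T fun a => f a * g a) ^ 2 ≤ (Ex T fun a => f a ^ 2) * Ex T fun a => g a ^ 2 := by
  obtain ⟨φ, hφ⟩ := hf
  obtain ⟨ψ, hψ⟩ := hg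
  induction T using st_ind with | _ t
  rw [Ex_st t (φ := fun n s => φ n s * ψ n s) fun x => by rw [hφ, hψ]; rfl,
    Ex_st t (φ := fun n s => φ n s ^ 2) fun x => by rw [hφ]; rfl,
    Ex_st t (φ := fun n s => ψ n s ^ 2) fun x => by rw [hψ]; rfl]
  exact le_of_forall fun n => Finset.expect_mul_sq_le_sq_mul_sq _ _ _
theorem Ex_cs {T : Ns (Finset S)} {f g : A → HC} (hf : IntF f) (hg : IntF g) :
    nm (Ex T fun a => f a * g a) ^ 2 ≤ (Ex T fun a => nm (f a) ^ 2) * Ex T fun a => nm (g a) ^ 2 := by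
  refine le_trans (pow_le_pow_left₀ (nm_nonneg _) ?_ 2) (Ex_csR hf.nm hg.nm)
  simpa only [nm_mul] using nm_Ex_le_Ex (T := T) (hf.mul hg)
theorem Ex_sq_le (hf : IntF f) : Ex T f ^ 2 ≤ Ex T fun a => f a ^ 2 := by
  have h := Ex_csR (T := T) hf (IntF.const 1)
  simp only [mul_one, one_pow] at h
  exact h.trans (mul_le_of_le_one_right (Ex_nonneg (hf.pow 2) fun _ _ => sq_nonneg _)
    (Ex_le (IntF.const 1) zero_le_one fun _ _ => le_rfl))
theorem nm_Ex_sq_le {f : A → HC} (hf : IntF f) : nm (Ex T f) ^ 2 ≤ Ex T fun a => nm (f a) ^ 2 :=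
  (pow_le_pow_left₀ (nm_nonneg _) (nm_Ex_le_Ex hf) 2).trans (Ex_sq_le hf.nm)

end ord

/-! ### Subsets -/

section sub

variable {T H : Ns (Finset S)} {T' : Ns (Finset S')}

theorem expect_ite_mem {V : Type} [Field V] [CharZero V] [DecidableEq S] {t u : Finset S}
    (h : u ⊆ t) (φ : S → V) :
    𝔼 s ∈ t, (if s ∈ u then φ s else 0) = (u.card : V) / t.card * 𝔼 s ∈ u, φ s := by
  rw [Finset.expect_eq_sum_div_card, Finset.sum_ite_mem, Finset.inter_eq_right.2 h, div_mul_comm,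
    div_mul_eq_mul_div, mul_comm, Finset.card_mul_expect]

theorem Ex_ite_st {V : Type} [AddCommMonoid V] [Module ℚ≥0 V] [DecidableEq S] (t u : ℕ → Finset S)
    {f : A → Ns V} {φ : ℕ → S → V} (hφ : ∀ x, f (st x) = st fun n => φ n (x n))
    [∀ a : A, Decidable (Mem a (st u))] :
    (Ex (st t) fun a => if Mem a (st u) then f a else 0) =
      st fun n => 𝔼 s ∈ t n, if s ∈ u n then φ n s else 0 :=
  Ex_st t (φ := fun n s => if s ∈ u n then φ n s else 0) fun x => by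
    split_ifs with c
    · rw [hφ]
      exact st_congr ((mem_st.1 c).mono fun n hn => (if_pos hn).symm)
    · exact st_congr ((ev_not.2 (mt mem_st.2 c)).mono fun n hn => (if_neg hn).symm)

theorem Ex_iteR (hs : ∀ a : A, Mem a H → Mem a T) {f : A → HR} (hf : IntF f)
    [∀ a : A, Decidable (Mem a H)] :
    (Ex T fun a => if Mem a H then f a else 0) = cd H / cd T * Ex H f := by
  classical
  obtain ⟨φ, hφ⟩ := hf
  induction T using st_ind with | _ t
  obtain ⟨u, rfl⟩ := NS.surj H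
  rw [Ex_ite_st t u hφ, Ex_st u hφ]
  exact st_congr ((subset_st hs).mono fun n hn => expect_ite_mem hn _)

theorem Ex_ite (hs : ∀ a : A, Mem a H → Mem a T) {f : A → HC} (hf : IntF f)
    [∀ a : A, Decidable (Mem a H)] :
    (Ex T fun a => if Mem a H then f a else 0) = cr (cd H / cd T) * Ex H f := by
  classical
  obtain ⟨φ, hφ⟩ := hf
  induction T using st_ind with | _ t
  obtain ⟨u, rfl⟩ := NS.surj H
  rw [Ex_ite_st t u hφ, Ex_st u hφ]
  refine st_congr ((subset_st hs).mono fun n hn => (expect_ite_mem hn _).trans ?_)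
  change _ = ((((u n).card : ℝ) / (t n).card : ℝ) : ℂ) * _
  push_cast
  rfl

theorem Ex_ite_const (hs : ∀ a : A, Mem a H → Mem a T) (c : HR) [∀ a : A, Decidable (Mem a H)] :
    (Ex T fun a : A => if Mem a H then c else 0) = cd H / cd T * c := by
  rw [Ex_iteR hs (IntF.const c)]
  by_cases h : cd H = 0
  · simp [h]
  · rw [Ex_const h]

theorem IntF.ite_mem {f g : A → B} (hf : IntF f) (hg : IntF g) (H : Ns (Finset S))
    [∀ a : A, Decidable (Mem a H)] : IntF fun a => if Mem a H then f a else g a :=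
  IntF.ite (IntP.mem IntF.id (IntF.const H)) hf hg

theorem cd_le_sum {J : Type} (s : Finset J) (K : J → Ns (Finset S))
    (h : ∀ a : A, Mem a H → ∃ j ∈ s, Mem a (K j)) : cd H ≤ ∑ j ∈ s, cd (K j) := by
  classical
  induction H using st_ind with | _ u
  obtain ⟨k, rfl⟩ : ∃ k : J → ℕ → Finset S, K = fun j => st (k j) :=
    ⟨fun j => rep (K j), funext fun j => (st_rep _).symm⟩
  simp only [cd_st, st_sum]
  refine st_le.2 ((ev_ball (t := u) (P := fun n x => ∃ j ∈ s, x ∈ k j n) fun x hx => ?_).mono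
    fun n hn => ?_)
  · obtain ⟨j, hj, h1⟩ := h _ (mem_st.2 hx)
    exact (mem_st.1 h1).mono fun n hn => ⟨j, hj, hn⟩
  · exact_mod_cast (Finset.card_le_card fun x hx => Finset.mem_biUnion.2 (hn x hx)).trans
      Finset.card_biUnion_le

theorem cd_le_add {K K' : Ns (Finset S)} (h : ∀ a : A, Mem a H → Mem a K ∨ Mem a K') :
    cd H ≤ cd K + cd K' := by
  simpa using cd_le_sum (A := A) (H := H) Finset.univ (fun b : Bool => if b then K else K')
    fun a ha => by simpa [or_comm] using h a ha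

/-- A large fibre of an internal map. -/
theorem exists_fibre {f : A → B} (hf : IntF f) (h : ∀ a, Mem a H → Mem (f a) T') (hT : cd T' ≠ 0) :
    ∃ b, Mem b T' ∧ ∃ K : Ns (Finset S), (∀ a, Mem a K ↔ Mem a H ∧ f a = b) ∧
      cd H / cd T' ≤ cd K := by
  classical
  obtain ⟨φ, hφ⟩ := hf
  induction H using st_ind with | _ u
  induction T' using st_ind with | _ t
  have h1 : ∀ᶠ n in UU, ∀ s ∈ u n, φ n s ∈ t n := ev_ball fun x hx => by
    have := h _ (mem_st.2 hx)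
    rwa [hφ, mem_st] at this
  obtain ⟨y, hy⟩ := ev_exists.1 ((h1.and (cd_ne_zero_st.1 hT)).mono fun n hn =>
    Finset.exists_le_card_fiber_of_nsmul_le_card_of_maps_to (M := ℝ)
      (b := ((u n).card : ℝ) / (t n).card) hn.1 hn.2 (by
        rw [nsmul_eq_mul, mul_div_cancel₀ _ (Nat.cast_ne_zero.2 hn.2.card_ne_zero)]))
  rw [eventually_and] at hy
  refine ⟨st y, mem_st.2 hy.1, st fun n => (u n).filter fun x => φ n x = y n, st_ind fun x => ?_,
    st_le.2 hy.2⟩
  rw [mem_st, mem_st, hφ, NS.eq_iff]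
  simp only [Finset.mem_filter, eventually_and]

/-- Density in a product as an average of the densities of the fibres. -/
theorem cd_div_fprod {H : Ns (Finset (S × S'))} (hs : ∀ z : A × B, Mem z H → Mem z (fprod T T'))
    {F : A → Ns (Finset S')} (h : ∀ (a : A) (b : B), Mem b (F a) ↔ Mem (a, b) H) :
    cd H / cd (fprod T T') = Ex T fun a => cd (F a) / cd T' := by
  classical
  rw [← mul_one (cd H / _), ← Ex_ite_const hs,
    Ex_fprod' ((IntF.const 1).ite_mem (IntF.const 0) H)]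
  refine congrArg _ (funext fun a => ?_)
  rw [← mul_one (cd (F a) / _), ← Ex_ite_const fun b hb => (mem_fprod.1 (hs _ ((h a b).1 hb))).2]
  simp only [h]

theorem exists_fibres (H : Ns (Finset (S × S'))) (hs : ∀ z : A × B, Mem z H → Mem z.2 T') :
    ∃ F : A → Ns (Finset S'), IntF F ∧ ∀ (a : A) (b : B), Mem b (F a) ↔ Mem (a, b) H :=
  let ⟨F, h1, h2⟩ := IntP.filter' (p := fun (a : A) (b : B) => Mem (a, b) H)
    (IntP.mem (by fun_prop) (IntF.const H)) (IntF.const T')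
  ⟨F, h1, fun a b => (h2 a b).trans (and_iff_right_of_imp (hs (a, b)))⟩

/-- The list of integer vectors with bounded entries. -/
theorem exists_cube {J : Type} [Finite J] {M : HZ} (hM : ci M ∈ OO Q) :
    ∃ L : Ns (Finset (J → ℤ)), cd L ∈ OO Q ∧ ∀ u : J → HZ, Mem u L ↔ ∀ j, |u j| ≤ M := by
  classical
  have := Fintype.ofFinite J
  induction M using st_ind with | _ m
  refine ⟨st fun n => Fintype.piFinset fun _ => Finset.Icc (-m n) (m n),
    OO_of_abs_le (pow_mem (add_mem (mul_mem (ofNat_mem _ 2) (abs_mem_OO.2 hM)) (one_mem _))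
      (Fintype.card J)) ?_, st_ind fun x => ?_⟩
  · rw [abs_of_nonneg (cd_nonneg _), show ci (st m) = st fun n => (m n : ℝ) from rfl, st_abs]
    refine le_of_forall fun n => ?_
    change (((Fintype.piFinset fun _ : J => Finset.Icc (-m n) (m n)).card : ℕ) : ℝ) ≤
      (2 * |(m n : ℝ)| + 1) ^ Fintype.card J
    rw [Fintype.card_piFinset, Finset.prod_const, Finset.card_univ, Nat.cast_pow, Int.card_Icc]
    refine pow_le_pow_left₀ (Nat.cast_nonneg _) ?_ _
    have : ((m n + 1 - -m n).toNat : ℤ) ≤ 2 * |m n| + 1 := by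
      have := le_abs_self (m n)
      have := abs_nonneg (m n)
      omega
    exact_mod_cast this
  · rw [mem_st]
    simp only [Fintype.mem_piFinset, Finset.mem_Icc, eventually_all, eventually_and, abs_le]
    exact forall_congr' fun j => and_congr st_le.symm st_le.symm

end sub

/-! ### Dense sets -/

theorem Dense.mono {T : Ns (Finset S)} {p q : A → Prop} (h : Dense Q T p)
    (hpq : ∀ a, Mem a T → p a → q a) : Dense Q T q :=
  let ⟨H, h1, h2⟩ := h
  ⟨H, fun a ha => ⟨(h1 a ha).1, hpq a (h1 a ha).1 (h1 a ha).2⟩, h2⟩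
theorem Dense.exists {T : Ns (Finset S)} {p : A → Prop} (h : Dense Q T p) :
    ∃ a, Mem a T ∧ p a :=
  let ⟨_, h1, h2⟩ := h
  let ⟨a, ha⟩ := exists_mem (A := A) (div_ne_zero_iff.1 h2.ne_zero).1
  ⟨a, h1 a ha⟩
theorem Dense.cd_ne_zero {T : Ns (Finset S)} {p : A → Prop} (h : Dense Q T p) : cd T ≠ 0 :=
  let ⟨_, h1, _⟩ := h.exists
  h1.cd_ne_zero
theorem dense_all {T : Ns (Finset S)} (hT : cd T ≠ 0) {p : A → Prop} (h : ∀ a, Mem a T → p a) :
    Dense Q T p := ⟨T, fun a ha => ⟨ha, h a ha⟩, by rw [div_self hT]; exact big_one⟩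
theorem Dense.and_all {T : Ns (Finset S)} {p q : A → Prop} (h : Dense Q T p)
    (hq : ∀ a, Mem a T → q a) : Dense Q T fun a => p a ∧ q a := h.mono fun a ha hp => ⟨hp, hq a ha⟩
theorem Dense.sub {T H : Ns (Finset S)} {p : A → Prop} (h : Dense Q H p)
    (hs : ∀ a : A, Mem a H → Mem a T) (hb : Big Q (cd H / cd T)) : Dense Q T p := by
  obtain ⟨K, h1, h2⟩ := h
  refine ⟨K, fun a ha => ⟨hs a (h1 a ha).1, (h1 a ha).2⟩, ?_⟩
  rw [← div_mul_div_cancel₀ (div_ne_zero_iff.1 hb.ne_zero).1]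
  exact h2.mul hb
/-- For an internal predicate, the density is that of the set it cuts out. -/
theorem dense_iff {T H : Ns (Finset S)} {p : A → Prop} (hH : ∀ a, Mem a H ↔ Mem a T ∧ p a) :
    Dense Q T p ↔ Big Q (cd H / cd T) :=
  ⟨fun ⟨K, h1, h2⟩ => h2.mono (cd_div_nonneg K T) (div_le_div_of_nonneg_right
    (cd_mono fun a ha => (hH a).2 (h1 a ha)) (cd_nonneg T)), fun h => ⟨H, fun a => (hH a).1, h⟩⟩
/-- Transport along an internal injection. -/
theorem Dense.of_inj {T : Ns (Finset S)} {T' : Ns (Finset S')} {e : A → B} (he : IntF e)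
    (hm : ∀ a, Mem a T → Mem (e a) T') (hi : ∀ a a', Mem a T → Mem a' T → e a = e a' → a = a')
    (hb : Big Q (cd T / cd T')) {p : B → Prop} (h : Dense Q T fun a => p (e a)) :
    Dense Q T' p := by
  obtain ⟨H, h1, h2⟩ := h
  obtain ⟨K, hK⟩ := IntP.filter (IntP.ex (r := fun (b : B) (a : A) => Mem a H ∧ e a = b)
    ((IntP.mem (by fun_prop) (IntF.const H)).and (IntP.eq (by fun_prop) (by fun_prop)))) T'
  refine ⟨K, fun b hb => ?_, (h2.mul hb).mono
    (mul_nonneg (cd_div_nonneg _ _) (cd_div_nonneg _ _)) ?_⟩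
  · obtain ⟨h3, a, ha, rfl⟩ := (hK b).1 hb
    exact ⟨h3, (h1 a ha).2⟩
  · rw [div_mul_div_cancel₀ (div_ne_zero_iff.1 hb.ne_zero).1]
    exact div_le_div_of_nonneg_right (cd_le_of_inj he
      (fun a ha => (hK _).2 ⟨hm a (h1 a ha).1, a, ha, rfl⟩)
      fun a a' ha ha' => hi a a' (h1 a ha).1 (h1 a' ha').1) (cd_nonneg _)

theorem Dense.split {T : Ns (Finset S)} {p q : A → Prop} (h : Dense Q T p) (hq : Sig q) :
    Dense Q T (fun a => p a ∧ q a) ∨ Dense Q T fun a => p a ∧ ¬q a := by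
  obtain ⟨H, h1, h2⟩ := h
  obtain ⟨P, hP, hm, hq⟩ := hq.mono'
  refine or_iff_not_imp_left.2 fun c => ?_
  obtain ⟨K, hK⟩ := exists_forall (P := fun j (K : Ns (Finset S)) =>
      (∀ a : A, Mem a K → Mem a H ∧ ¬P j a) ∧ cd H / cd T / 2 ≤ cd K / cd T)
    (fun j => (IntP.fa ((IntP.mem (by fun_prop) (by fun_prop)).imp
      ((IntP.mem (by fun_prop) (by fun_prop)).and ((hP j).comp (by fun_prop)).not))).and
      (IntP.le (by fun_prop) (by fun_prop))) fun j => by
    obtain ⟨K, hK⟩ := (hP j).filter H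
    obtain ⟨K', hK'⟩ := (hP j).not.filter H
    refine ⟨K', fun i hi => ⟨fun a ha =>
      ⟨((hK' a).1 ha).1, fun c => ((hK' a).1 ha).2 (hm i j hi a c)⟩, ?_⟩⟩
    have h3 : Tiny Q (cd K / cd T) := fun hb => c ⟨K, fun a ha =>
      ⟨(h1 a ((hK a).1 ha).1).1, (h1 a ((hK a).1 ha).1).2, (hq a).2 ⟨j, ((hK a).1 ha).2⟩⟩, hb⟩
    have h4 := h3.lt' h2.half (div_nonneg (cd_div_nonneg H T) zero_le_two)
    have h5 := div_le_div_of_nonneg_right (cd_le_add (H := H) (K := K) (K' := K') fun a : A => by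
      rw [hK, hK']; tauto) (cd_nonneg T)
    rw [add_div] at h5
    linarith
  exact ⟨K, fun a ha => ⟨(h1 a ((hK 0).1 a ha).1).1, (h1 a ((hK 0).1 a ha).1).2,
    fun c => let ⟨j, hj⟩ := (hq a).1 c; ((hK j).1 a ha).2 hj⟩,
    h2.half.mono (div_nonneg (cd_div_nonneg H T) zero_le_two) (hK 0).2⟩
theorem Dense.or {T : Ns (Finset S)} {p q : A → Prop} (h : Dense Q T fun a => p a ∨ q a)
    (hp : Sig p) : Dense Q T p ∨ Dense Q T q :=
  (h.split hp).imp (·.mono fun _ _ h => h.2) (·.mono fun _ _ h => h.1.resolve_left h.2)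
theorem Dense.diff {T : Ns (Finset S)} {p q : A → Prop} (h : Dense Q T p) (hq : Sig q)
    (hn : ¬Dense Q T q) : Dense Q T fun a => p a ∧ ¬q a :=
  (h.split hq).resolve_left fun c => hn (c.mono fun _ _ h => h.2)
theorem dense_not {T : Ns (Finset S)} (hT : cd T ≠ 0) {q : A → Prop} (hq : Sig q)
    (hn : ¬Dense Q T q) : Dense Q T fun a => ¬q a :=
  ((dense_all hT fun _ _ => trivial).diff hq hn).mono fun _ _ h => h.2

theorem Dense.any {T : Ns (Finset S)} {J : Type} [Countable J] {p : A → Prop} {q : J → A → Prop}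
    (hq : ∀ j, Sig (q j)) (h : Dense Q T fun a => p a ∧ ∃ j, q j a) :
    ∃ j, Dense Q T fun a => p a ∧ q j a := by
  have : Nonempty J := let ⟨_, _, _, j, _⟩ := h.exists; ⟨j⟩
  obtain ⟨H, h1, h2⟩ := h
  choose P hP hq using hq
  obtain ⟨e, he⟩ := exists_surjective_nat (J × ℕ)
  obtain ⟨m, hm⟩ := sat (IntP.mem IntF.id (IntF.const H)) (P := fun i => P (e i).1 (e i).2)
    (fun i => hP _ _) fun a ha => by
      obtain ⟨j, hj⟩ := (h1 a ha).2.2
      obtain ⟨c, hc⟩ := (hq j a).1 hj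
      obtain ⟨i, hi⟩ := he (j, c)
      exact ⟨i, by simpa only [hi] using hc⟩
  choose K hK using fun i => (hP (e i).1 (e i).2).filter H
  have h3 := div_le_div_of_nonneg_right (cd_le_sum (H := H) (Finset.Iic m) K fun a ha =>
    let ⟨i, hi, h⟩ := hm a ha; ⟨i, Finset.mem_Iic.2 hi, (hK i a).2 ⟨ha, h⟩⟩) (cd_nonneg T)
  rw [Finset.sum_div] at h3
  obtain ⟨i, -, hi⟩ := (h2.mono (cd_div_nonneg H T) h3).of_sum
  exact ⟨(e i).1, K i, fun a ha => ⟨(h1 a ((hK i a).1 ha).1).1, (h1 a ((hK i a).1 ha).1).2.1,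
    (hq _ a).2 ⟨_, ((hK i a).1 ha).2⟩⟩, hi⟩

/-- Pigeonhole over an internal list of polynomial length. -/
theorem Dense.list {T : Ns (Finset S)} {L : Ns (Finset S')} (hL : cd L ∈ OO Q) {p : A → Prop}
    {q : A → B → Prop} (hq : Sig fun z : A × B => q z.1 z.2)
    (h : Dense Q T fun a => p a ∧ ∃ b, Mem b L ∧ q a b) :
    ∃ b, Mem b L ∧ Dense Q T fun a => p a ∧ q a b := by
  obtain ⟨_, -, -, b₀, hb₀, -⟩ := h.exists
  obtain ⟨H, h1, h2⟩ := h
  obtain ⟨f, hf, h3⟩ := Sig.choice' (r := fun a b => Mem b L ∧ q a b)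
    ((IntP.mem (by fun_prop) (IntF.const L)).sig.and hq) (IntP.mem IntF.id (IntF.const H)) b₀
    fun a ha => (h1 a ha).2.2
  obtain ⟨b, hb, K, hK, h4⟩ := exists_fibre hf (fun a ha => (h3 a ha).1) hb₀.cd_ne_zero
  refine ⟨b, hb, K, fun a ha => ?_, (h2.div hL hb₀.cd_ne_zero).mono
    (div_nonneg (cd_div_nonneg H T) (cd_nonneg L)) ?_⟩
  · obtain ⟨h5, rfl⟩ := (hK a).1 ha
    exact ⟨(h1 a h5).1, (h1 a h5).2.1, (h3 a h5).2⟩
  · rw [div_right_comm]
    exact div_le_div_of_nonneg_right h4 (cd_nonneg T)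

/-- Pigeonhole over integer vectors of polynomial size. -/
theorem pigeonZ {T : Ns (Finset S)} {J : Type} [Finite J] {p : A → Prop} {q : A → (J → HZ) → Prop}
    (hq : Sig fun z : A × (J → HZ) => q z.1 z.2)
    (h : Dense Q T fun a => p a ∧ ∃ u, (∀ j, ci (u j) ∈ OO Q) ∧ q a u) :
    ∃ u, (∀ j, ci (u j) ∈ OO Q) ∧ Dense Q T fun a => p a ∧ q a u := by
  have hM : ∀ C : ℕ, ci (flo (Q ^ C)) ∈ OO Q := fun C =>
    OO_of_abs_le (pow_mem Q_mem C) (by
      rw [abs_of_nonneg (ci_nonneg.2 (le_flo.2 (by rw [map_zero]; exact (Q_pow_pos C).le)))]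
      exact ci_flo_le _)
  choose L h1 h2 using fun C => exists_cube (J := J) (hM C)
  obtain ⟨C, h3⟩ := Dense.any (p := p) (q := fun C a => ∃ u, Mem u (L C) ∧ q a u)
    (fun C => Sig.ex ((IntP.mem (by fun_prop) (IntF.const _)).sig.and hq))
    (h.mono fun a _ ⟨hp, u, hu, h⟩ => by
      choose c hc using hu
      obtain ⟨C, hC⟩ := (Set.finite_range c).bddAbove
      exact ⟨hp, C, u, (h2 C u).2 fun j => le_flo.2
        ((ci_abs _).trans_le ((hc j).trans (Q_pow_mono (hC ⟨j, rfl⟩)))), h⟩)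
  obtain ⟨u, hu, h4⟩ := h3.list (h1 C) hq
  exact ⟨u, fun j => OO_of_abs_le (hM C) ((ci_abs _).ge.trans (ci_le.2 ((h2 C u).1 hu j))), h4⟩

theorem pigeon {T : Ns (Finset S)} {J : Type} [Finite J] {p : A → Prop} {q : A → (J → HR) → Prop}
    (hq : Sig fun z : A × (J → HR) => q z.1 z.2)
    (h : Dense Q T fun a => p a ∧ ∃ κ, (∀ j, κ j ∈ KK Q) ∧ q a κ) :
    ∃ κ, (∀ j, κ j ∈ KK Q) ∧ Dense Q T fun a => p a ∧ q a κ := by
  obtain ⟨u, h1, h2⟩ := pigeonZ (J := J ⊕ J) (p := p) (q := fun a u =>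
      (∀ j, ci (u (.inr j)) ≠ 0) ∧ q a fun j => ci (u (.inl j)) / ci (u (.inr j)))
    ((IntP.all fun j => IntP.ne (by fun_prop) (by fun_prop)).sig.and
      (hq.comp (f := fun z : A × (J ⊕ J → HZ) =>
        (z.1, fun j => ci (z.2 (.inl j)) / ci (z.2 (.inr j)))) (by fun_prop)))
    (h.mono fun a _ ⟨hp, κ, hκ, h⟩ => by
      simp only [mem_KK, mem_ZZ] at hκ
      choose _ hx _ hy h1 h2 h3 h4 using hκ
      choose x hx using hx
      choose y hy using hy
      refine ⟨hp, Sum.elim x y, ?_, ?_, ?_⟩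
      · rintro (j | j)
        exacts [hx j ▸ h1 j, hy j ▸ h2 j]
      · exact fun j => hy j ▸ h3 j
      · simp only [Sum.elim_inl, Sum.elim_inr, hx, hy, ← h4]
        exact h)
  obtain ⟨_, -, -, h3, -⟩ := h2.exists
  exact ⟨_, fun j => mem_KK.2 ⟨_, ci_mem _, _, ci_mem _, h1 _, h1 _, h3 j, rfl⟩,
    h2.mono fun _ _ h => ⟨h.1, h.2.2⟩⟩

theorem markovR {T : Ns (Finset S)} {f : A → HR} (hf : IntF f) (hb : ∀ a, Mem a T → f a ∈ OO Q)
    (h : Big Q (Ex T f)) : Dense Q T fun a => Big Q (f a) := by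
  classical
  obtain ⟨M, hM, h1⟩ := unif_OO (IntP.mem IntF.id (IntF.const T)) hf hb
  obtain ⟨H, hH⟩ := (IntP.le (IntF.const (|Ex T f| / 2)) hf.abs).filter T
  have h0 : 0 ≤ |Ex T f| / 2 := div_nonneg (abs_nonneg _) zero_le_two
  have h2 := (big_abs.2 h).half
  refine ⟨H, fun a ha => ⟨((hH a).1 ha).1, big_abs.1 (h2.mono h0 ((hH a).1 ha).2)⟩,
    (h2.mono h0 ?_).of_mul hM⟩
  have hi := (IntF.const M).ite_mem (IntF.const 0) (A := A) H
  have h3 := (abs_Ex_le_Ex hf).trans (Ex_mono hf.abs ((IntF.const (|Ex T f| / 2)).add hi)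
    fun a ha => by
      split_ifs with c
      · exact (h1 a ha).trans (le_add_of_nonneg_left h0)
      · rw [add_zero]
        exact (not_le.1 fun c' => c ((hH a).2 ⟨ha, c'⟩)).le)
  rw [Ex_add (IntF.const _) hi, Ex_ite_const fun a ha => ((hH a).1 ha).1] at h3
  have h4 := Ex_le (T := T) (IntF.const (A := A) (|Ex T f| / 2)) h0 fun _ _ => le_rfl
  linarith
theorem markov {T : Ns (Finset S)} {f : A → HC} (hf : IntF f) (hb : ∀ a, Mem a T → nm (f a) ∈ OO Q)
    (h : BigC Q (Ex T f)) : Dense Q T fun a => BigC Q (f a) :=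
  markovR hf.nm hb (Big.mono h (nm_nonneg _) (nm_Ex_le_Ex hf))
theorem Dense.big_Ex {T : Ns (Finset S)} {f : A → HR} (hf : IntF f) (h0 : ∀ a, Mem a T → 0 ≤ f a)
    (h : Dense Q T fun a => Big Q (f a)) : Big Q (Ex T f) := by
  classical
  obtain ⟨H, h1, h2⟩ := h
  obtain ⟨δ, h3, h4, h5⟩ := unif_big (IntP.mem IntF.id (IntF.const H)) hf fun a ha => (h1 a ha).2
  refine (h2.mul h3).mono (mul_nonneg (cd_div_nonneg H T) h4.le) ?_
  rw [← Ex_ite_const fun a ha => (h1 a ha).1]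
  refine Ex_mono ((IntF.const δ).ite_mem (IntF.const 0) H) hf fun a ha => ?_
  split_ifs with c
  · exact (h5 a c).trans (abs_of_nonneg (h0 a ha)).le
  · exact h0 a ha
/-- Outside a set which is not dense the function is tiny. -/
theorem tiny_Ex_of_not_dense {T : Ns (Finset S)} {f : A → HR} (hf : IntF f)
    (hb : ∀ a, Mem a T → f a ∈ OO Q) (h : ¬Dense Q T fun a => Big Q (f a)) : Tiny Q (Ex T f) :=
  fun c => h (markovR hf hb c)
theorem tinyC_Ex_of_not_dense {T : Ns (Finset S)} {f : A → HC} (hf : IntF f)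
    (hb : ∀ a, Mem a T → nm (f a) ∈ OO Q) (h : ¬Dense Q T fun a => BigC Q (f a)) :
    TinyC Q (Ex T f) := fun c => h (markov hf hb c)

theorem Dense.fub {T : Ns (Finset S)} {T' : Ns (Finset S')} {p : A × B → Prop}
    (h : Dense Q (fprod T T') p) : Dense Q T fun a : A => Dense Q T' fun b : B => p (a, b) := by
  obtain ⟨H, h1, h2⟩ := h
  obtain ⟨F, hF, h3⟩ := exists_fibres H fun z hz => (mem_fprod.1 (h1 z hz).1).2
  rw [cd_div_fprod (fun z hz => (h1 z hz).1) h3] at h2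
  have h4 : ∀ (a : A) (b : B), Mem b (F a) → Mem b T' ∧ p (a, b) := fun a b hb =>
    ⟨(mem_fprod.1 (h1 _ ((h3 a b).1 hb)).1).2, (h1 _ ((h3 a b).1 hb)).2⟩
  exact (markovR (by fun_prop) (fun a _ => cd_div_OO fun b hb => (h4 a b hb).1) h2).mono
    fun a _ ha => ⟨F a, h4 a, ha⟩
theorem Dense.swap {T : Ns (Finset S)} {T' : Ns (Finset S')} {p : A × B → Prop}
    (h : Dense Q (fprod T T') p) : Dense Q (fprod T' T) fun z : B × A => p (z.2, z.1) :=
  Dense.of_inj (e := fun z : A × B => (z.2, z.1)) (by fun_prop)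
    (fun _ hz => mem_fprod.2 (mem_fprod.1 hz).symm)
    (fun _ _ _ _ e => Prod.ext (Prod.ext_iff.1 e).2 (Prod.ext_iff.1 e).1)
    (by rw [cd_fprod T', mul_comm, ← cd_fprod, div_self h.cd_ne_zero]; exact big_one) h
theorem Dense.fub' {T : Ns (Finset S)} {T' : Ns (Finset S')} {p : A × B → Prop}
    (h : Dense Q (fprod T T') p) : Dense Q T' fun b : B => Dense Q T fun a : A => p (a, b) :=
  h.swap.fub
theorem Sig.denseWit {T : A → Ns (Finset S')} (hT : IntF T) {p : A → B → Prop}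
    (hp : Sig fun z : A × B => p z.1 z.2) : Sig fun z : A × Ns (Finset S') =>
      (∀ b : B, Mem b z.2 → Mem b (T z.1) ∧ p z.1 b) ∧ Big Q (cd z.2 / cd (T z.1)) := by
  refine Sig.and (Sig.fa (IntP.mem ?_ ?_) (Sig.and (IntP.mem ?_ ?_).sig
    (hp.comp (f := fun z : (A × Ns (Finset S')) × B => (z.1.1, z.2)) ?_))) (Sig.big ?_) <;> fun_prop
theorem Sig.dense {T : A → Ns (Finset S')} (hT : IntF T) {p : A → B → Prop}
    (hp : Sig fun z : A × B => p z.1 z.2) : Sig fun a => Dense Q (T a) (p a) :=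
  Sig.ex (r := fun a (G : Ns (Finset S')) =>
    (∀ b : B, Mem b G → Mem b (T a) ∧ p a b) ∧ Big Q (cd G / cd (T a))) (Sig.denseWit hT hp)
theorem Dense.prod {T : Ns (Finset S)} {T' : Ns (Finset S')} {p : A × B → Prop} (hp : Sig p)
    (h : Dense Q T fun a : A => Dense Q T' fun b : B => p (a, b)) : Dense Q (fprod T T') p := by
  obtain ⟨H, h1, h2⟩ := h
  obtain ⟨G, hG, h3⟩ := Sig.choice' (r := fun (a : A) (G : Ns (Finset S')) =>
      (∀ b : B, Mem b G → Mem b T' ∧ p (a, b)) ∧ Big Q (cd G / cd T'))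
    (Sig.denseWit (p := fun a b => p (a, b)) (IntF.const T') hp)
    (IntP.mem IntF.id (IntF.const H)) T' fun a ha => (h1 a ha).2
  obtain ⟨K, hK⟩ := IntP.filter (p := fun z : A × B => Mem z.1 H ∧ Mem z.2 (G z.1))
    ((IntP.mem (by fun_prop) (by fun_prop)).and (IntP.mem (by fun_prop) (by fun_prop)))
    (fprod T T')
  obtain ⟨F, hF, h4⟩ := exists_fibres K fun z hz => (mem_fprod.1 ((hK z).1 hz).1).2
  refine ⟨K, fun z hz => ⟨((hK z).1 hz).1,
    ((h3 _ ((hK z).1 hz).2.1).1 _ ((hK z).1 hz).2.2).2⟩, ?_⟩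
  rw [cd_div_fprod (fun z hz => ((hK z).1 hz).1) h4]
  refine Dense.big_Ex (by fun_prop) (fun a _ => cd_div_nonneg _ _) ⟨H, fun a ha =>
    ⟨(h1 a ha).1, (h3 a ha).2.mono (cd_div_nonneg _ _) (div_le_div_of_nonneg_right
      (cd_mono fun (b : B) hb => ?_) (cd_nonneg _))⟩, h2⟩
  exact (h4 a b).2 ((hK _).2 ⟨mem_fprod.2 ⟨(h1 a ha).1, ((h3 a ha).1 b hb).1⟩, ha, hb⟩)
theorem Dense.prod' {T : Ns (Finset S)} {T' : Ns (Finset S')} {p : A × B → Prop} (hp : Sig p)
    (h : Dense Q T' fun b : B => Dense Q T fun a : A => p (a, b)) : Dense Q (fprod T T') p :=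
  (Dense.prod (p := fun z : B × A => p (z.2, z.1)) (hp.comp (by fun_prop)) h).swap
theorem Dense.comm {T : Ns (Finset S)} {T' : Ns (Finset S')} {p : A → B → Prop}
    (hp : Sig fun z : A × B => p z.1 z.2) (h : Dense Q T fun a => Dense Q T' fun b => p a b) :
    Dense Q T' fun b => Dense Q T fun a => p a b := (Dense.prod hp h).fub'

end Pool.Agent.P.MP_a14ce1_nt.Nil
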