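import Pool.Agent.P.MP_a14ce1_nt.Nil.Win
import Pool.Agent.P.MP_a14ce1_nt.Nil.Avg

/-!
Means over lattices in a window.
-/

open Filter Finset MvPolynomial
open scoped BigOperators

set_option linter.unusedSectionVars false

noncomputable section

namespace Pool.Agent.P.MP_a14ce1_nt.Nil

variable {A S B S' : Type} [NS A S] [NS B S']
  {ι : Type} [Fintype ι] [DecidableEq ι] {lv : ι → ℕ} {Q : HR} [Fact (2 ≤ Q)]

/-! ### Large subsets and large images -/

theorem near_sub {T H : Ns (Finset S)} (hs : ∀ a : A, Mem a H → Mem a T) {f : A → HC}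
    (hf : IntF f) (hb : ∀ a, Mem a T → nm (f a) ≤ 1) :
    nm (Ex H f - Ex T f) ≤ 2 * (1 - cd H / cd T) := by
  classical
  have h0 : 0 ≤ 1 - cd H / cd T := sub_nonneg.2 (cd_div_le_one hs)
  have i1 := hf.ite_mem (IntF.const 0) H
  have i2 := (IntF.const 0).ite_mem hf H
  have i3 := (IntF.const (A := A) (1 : HR)).ite_mem (IntF.const 0) H
  have e1 : Ex T f = cr (cd H / cd T) * Ex H f + Ex T fun a => if Mem a H then 0 else f a := by
    rw [← Ex_ite hs hf, ← Ex_add i1 i2]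
    exact congrArg _ (funext fun a => by split_ifs <;> simp)
  have e2 : nm (Ex T fun a => if Mem a H then 0 else f a) ≤ 1 - cd H / cd T := by
    refine (nm_Ex_le_Ex i2).trans ((Ex_mono i2.nm ((IntF.const 1).sub i3) fun a ha => ?_).trans ?_)
    · split_ifs
      · simp
      · rw [sub_zero]; exact hb a ha
    · rw [Ex_sub (IntF.const 1) i3, Ex_ite_const hs, mul_one]
      exact sub_le_sub_right (Ex_le (IntF.const 1) zero_le_one fun _ _ => le_rfl) _
  have e3 : nm (cr (1 - cd H / cd T) * Ex H f) ≤ 1 - cd H / cd T := by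
    rw [nm_mul, nm_cr, abs_of_nonneg h0]
    exact mul_le_of_le_one_right h0 (nm_Ex_le hf zero_le_one fun a ha => hb a (hs a ha))
  rw [e1, show ∀ x y z : HC, x - (y * x + z) = (1 - y) * x - z from fun _ _ _ => by ring,
    ← map_one cr, ← map_sub]
  exact (nm_sub_le _ _).trans (by linarith)

theorem near_inj {T : Ns (Finset S)} {T' : Ns (Finset S')} {e : A → B} (he : IntF e)
    (h : ∀ a, Mem a T → Mem (e a) T') (hi : ∀ a a', Mem a T → Mem a' T → e a = e a' → a = a')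
    {g : B → HC} (hg : IntF g) (hb : ∀ b, Mem b T' → nm (g b) ≤ 1) :
    nm ((Ex T fun a => g (e a)) - Ex T' g) ≤ 2 * (1 - cd T / cd T') := by
  obtain ⟨K, hK⟩ := IntP.filter (IntP.ex (r := fun (b : B) (a : A) => Mem a T ∧ e a = b)
    ((IntP.mem (by fun_prop) (IntF.const T)).and (IntP.eq (by fun_prop) (by fun_prop)))) T'
  have h1 : ∀ a, Mem a T → Mem (e a) K := fun a ha => (hK _).2 ⟨h a ha, a, ha, rfl⟩
  rw [Ex_bij he h1 hi (fun b hb => ((hK b).1 hb).2) hg]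
  refine (near_sub (fun b hb => ((hK b).1 hb).1) hg hb).trans ?_
  have := div_le_div_of_nonneg_right (cd_le_of_inj he h1 hi) (cd_nonneg T')
  linarith

theorem ratio_le {u v K R : HR} (hR : 0 < R) (hK : 0 ≤ K) (h2 : 2 * K ≤ R) (hu : R - 2 * K ≤ u)
    (hv : |v - R| ≤ K) : 1 - u / v ≤ 6 * (K / R) := by
  obtain ⟨h3, h4⟩ := abs_le.1 hv
  have h5 : R / 2 ≤ v := by linarith
  have h6 : 0 < v := (half_pos hR).trans_le h5
  have h7 := mul_le_mul_of_nonneg_left h5 (div_nonneg hK hR.le)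
  rw [← mul_div_assoc, div_mul_cancel₀ _ hR.ne'] at h7
  rw [one_sub_div h6.ne', div_le_iff₀ h6]
  linarith

theorem flo_ci (u : HZ) : flo (ci u) = u := le_antisymm (ci_le.1 (ci_flo_le _)) (le_flo.2 le_rfl)

theorem st_dvd {x y : ℕ → ℤ} : (st x : HZ) ∣ st y ↔ ∀ᶠ n in UU, x n ∣ y n := by
  refine ⟨fun ⟨z, hz⟩ => ?_, fun h => ?_⟩
  · obtain ⟨z, rfl⟩ := NS.surj z
    exact ((NS.eq_iff (A := HZ) y fun n => x n * z n).1 hz).mono fun n hn => ⟨_, hn⟩
  · obtain ⟨z, hz⟩ := ev_exists.1 h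
    exact ⟨st z, st_congr (A := HZ) (y := fun n => x n * z n) hz⟩

/-! ### Lattices -/

section lat
variable {a0 r0 c0 p0 : HZ}

theorem lat_st (c A R : ℕ → ℤ) :
    lat (st c) (st A) (st R) = st fun k => latF (c k) (A k) (R k) :=
  st_congr (((rep_st (A := HZ) c).and ((rep_st (A := HZ) A).and (rep_st (A := HZ) R))).mono
    fun n hn => by rw [hn.1, hn.2.1, hn.2.2])

theorem mem_lat {z : HZ} : Mem z (lat c0 a0 r0) ↔ a0 ≤ z ∧ z < a0 + r0 ∧ c0 ∣ z := by
  induction c0 using st_ind with | _ c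
  induction a0 using st_ind with | _ a
  induction r0 using st_ind with | _ r
  induction z using st_ind with | _ z
  rw [lat_st, mem_st, st_dvd, st_le, ← and_assoc]
  simp only [latF, mem_filter, mem_Ico, eventually_and]
  exact and_congr_left' (and_congr_right' (st_lt (y := fun n => a n + r n)).symm)

@[fun_prop] theorem IntF.lat {f u w : A → HZ} (hf : IntF f) (hu : IntF u) (hw : IntF w) :
    IntF fun a => lat (f a) (u a) (w a) :=
  IntF.comp (g := fun t : HZ × HZ × HZ => Nil.lat t.1 t.2.1 t.2.2)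
    ⟨fun _ s => latF s.1 s.2.1 s.2.2, fun _ => lat_st _ _ _⟩ (hf.prodMk (hu.prodMk hw))

@[fun_prop] theorem IntS.e1 {x : A → PS lv Unit HR} (hx : IntS x) {f : B → A} {z : B → HZ}
    (hf : IntF f) (hz : IntF z) : IntF fun w => e1 (z w) (x (f w)) :=
  (hx.comp hf).ev' fun _ => hz.ci

theorem lat_box' (hc : 0 < c0) (hr : 0 ≤ r0) (a0 : HZ) : ∃ z M : HZ, 0 ≤ M ∧
    |ci (c0 * z) - ci a0| ≤ ci c0 ∧ |ci (c0 * M) - ci r0| ≤ ci c0 ∧ cd (lat c0 a0 r0) = ci M ∧
    (∀ t, Mem (c0 * (z + t)) (lat c0 a0 r0) ↔ 0 ≤ t ∧ t < M) ∧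
    ∀ φ : HZ → HC, IntF φ → Ex (lat c0 a0 r0) φ
      = Ex (box fun _ : Unit => M) fun t : Unit → HZ => φ (c0 * (z + t ())) := by
  have hc' : 0 < ci c0 := ci_pos.2 hc
  have key : ∀ b u : HZ, cei (ci b / ci c0) ≤ u ↔ b ≤ c0 * u := fun b u => by
    rw [cei_le, div_le_iff₀' hc', ← map_mul, ci_le]
  have up : ∀ b : HZ, ci c0 * ci (cei (ci b / ci c0)) < ci b + ci c0 := fun b => by
    have := mul_lt_mul_of_pos_left (ci_cei_lt_add_one (ci b / ci c0)) hc'
    rwa [mul_add, mul_one, mul_div_cancel₀ _ hc'.ne'] at this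
  have lo : ∀ b : HZ, ci b ≤ ci c0 * ci (cei (ci b / ci c0)) := fun b => by
    rw [← map_mul, ci_le]; exact (key _ _).1 le_rfl
  set z := cei (ci a0 / ci c0) with hz
  set y := cei (ci (a0 + r0) / ci c0) with hy
  have hm : ∀ t, Mem (c0 * (z + t)) (lat c0 a0 r0) ↔ 0 ≤ t ∧ t < y - z := fun t => by
    rw [mem_lat, ← key, ← not_le, ← key, not_le, le_add_iff_nonneg_right, lt_sub_iff_add_lt']
    exact and_congr_right' (and_iff_left (dvd_mul_right _ _))
  have hM : 0 ≤ y - z := sub_nonneg.2 ((key _ _).2 ((le_add_of_nonneg_right hr).trans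
    ((key _ _).1 le_rfl)))
  have hb : ∀ t : Unit → HZ, Mem t (box fun _ : Unit => y - z) ↔ 0 ≤ t () ∧ t () < y - z :=
    fun t => mem_box.trans Unique.forall_iff
  have he : IntF fun t : Unit → HZ => c0 * (z + t ()) := by fun_prop
  have hi : ∀ t t' : Unit → HZ, c0 * (z + t ()) = c0 * (z + t' ()) → t = t' := fun t t' h =>
    funext fun _ => add_left_cancel (mul_left_cancel₀ hc.ne' h)
  have hd : ∀ u : HZ, flo (ci (c0 * u) / ci c0) = u := fun u => by
    rw [map_mul, mul_div_cancel_left₀ _ hc'.ne', flo_ci]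
  have u1 := up a0
  have u2 := up (a0 + r0)
  have l1 := lo a0
  have l2 := lo (a0 + r0)
  rw [← hz] at u1 l1
  rw [← hy, map_add] at u2 l2
  refine ⟨z, y - z, hM, ?_, ?_, ?_, hm, fun φ hφ => (Ex_bij he (fun t ht => (hm _).2 ((hb t).1 ht))
    (fun t t' _ _ => hi t t') (fun w hw => ?_) hφ).symm⟩
  · rw [map_mul]; exact abs_le.2 ⟨by linarith, by linarith⟩
  · rw [map_mul, map_sub, mul_sub]; exact abs_le.2 ⟨by linarith, by linarith⟩
  · have e : ci (y - z) = cd (box fun _ : Unit => y - z) := by rw [cd_box fun _ => hM]; simp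
    rw [e]
    refine le_antisymm (cd_le_of_inj (e := fun (w : HZ) (_ : Unit) => flo (ci w / ci c0) - z)
      (by fun_prop) (fun w hw => ?_) fun w w' hw hw' h => ?_)
      (cd_le_of_inj he (fun t ht => (hm _).2 ((hb t).1 ht)) fun t t' _ _ => hi t t')
    · obtain ⟨u, rfl⟩ := (mem_lat.1 hw).2.2
      rw [hb, hd, ← hm, add_sub_cancel]
      exact hw
    · obtain ⟨u, rfl⟩ := (mem_lat.1 hw).2.2
      obtain ⟨u', rfl⟩ := (mem_lat.1 hw').2.2
      have := congrFun h ()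
      rw [hd, hd] at this
      rw [sub_left_injective this]
  · obtain ⟨u, rfl⟩ := (mem_lat.1 hw).2.2
    exact ⟨fun _ => u - z, (hb _).2 ((hm _).1 (by rwa [add_sub_cancel])), by rw [add_sub_cancel]⟩

theorem cd_lat (hc : 0 < c0) (hr : 0 ≤ r0) (a0 : HZ) :
    |ci c0 * cd (lat c0 a0 r0) - ci r0| ≤ ci c0 := by
  obtain ⟨z, M, -, -, h1, h2, -⟩ := lat_box' hc hr a0
  rwa [h2, ← map_mul]

theorem Lat.two_mul_le {R c : HR} (hl : Lat Q R c) : 2 * c ≤ R := by
  have := hl.tiny.lt' big_one.half (by norm_num)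
  rw [div_lt_iff₀ hl.len] at this
  linarith

/-- the lattice as a box -/
theorem lat_box (hl : Lat Q (ci r0) (ci c0)) (a0 : HZ) : ∃ z M : HZ, Long Q (fun _ : Unit => M) ∧
    |ci (c0 * z) - ci a0| ≤ ci c0 ∧ |ci (c0 * M) - ci r0| ≤ ci c0 ∧ cd (lat c0 a0 r0) = ci M ∧
    ∀ φ : HZ → HC, IntF φ → Ex (lat c0 a0 r0) φ
      = Ex (box fun _ : Unit => M) fun t : Unit → HZ => φ (c0 * (z + t ())) := by
  obtain ⟨z, M, -, h1, h2, h3, -, h4⟩ := lat_box' (ci_pos.1 hl.pos) (ci_pos.1 hl.len).le a0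
  refine ⟨z, M, fun _ => ?_, h1, h2, h3, h4⟩
  have h5 := (abs_le.1 h2).1
  have h6 := hl.two_mul_le
  rw [map_mul] at h5
  have h7 : 0 < ci M := (mul_pos_iff_of_pos_left hl.pos).1 (by linarith [hl.pos])
  refine ⟨ci_pos.1 h7, (hl.tiny.mul' (ofNat_mem _ 2)).mono (inv_pos.2 h7).le ?_⟩
  rw [← mul_div_assoc, le_div_iff₀ hl.len, inv_mul_le_iff₀ h7]
  linarith

theorem Lat.cd_ne_zero (hl : Lat Q (ci r0) (ci c0)) (a0 : HZ) : cd (lat c0 a0 r0) ≠ 0 := by
  obtain ⟨z, M, h1, -, -, h2, -⟩ := lat_box hl a0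
  rw [h2]
  exact (ci_pos.2 (h1 ()).1).ne'

/-- slowly varying functions on residue classes do not see the sublattice -/
theorem slowW (hc : 0 < c0) (hp : 0 < p0) {r : HZ} (hr : 0 < r) (hcop : Cop (ci p0) (ci r))
    (hl : Lat Q (ci r0) (ci (c0 * p0 * r))) {Φ : HZ → HC} (hΦ : IntF Φ) (hb : ∀ z, nm (Φ z) ≤ 1)
    (hs : ∀ z z', Mem z (lat c0 a0 r0) → Mem z' (lat c0 a0 r0) → c0 * r ∣ z - z' →
      Tiny Q (ci (z - z') / ci r0) → TinyC Q (Φ z - Φ z')) :
    TinyC Q (Ex (lat (c0 * p0) a0 r0) Φ - Ex (lat c0 a0 r0) Φ) := by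
  have cop : IsCoprime p0 r := by
    obtain ⟨a, ha, b, hb, e⟩ := hcop
    obtain ⟨a, rfl⟩ := mem_ZZ.1 ha
    obtain ⟨b, rfl⟩ := mem_ZZ.1 hb
    exact ⟨a, b, ci_inj (by simpa using e)⟩
  have hcp := mul_pos hc hp
  have hcr := mul_pos hc hr
  have hK := hl.two_mul_le
  have hK0 := hl.pos
  have k1 : ci (c0 * p0) ≤ ci (c0 * p0 * r) := by
    rw [map_mul ci _ r]; exact le_mul_of_one_le_right (ci_pos.2 hcp).le (one_le_ci hr)
  have k2 : ci c0 ≤ ci (c0 * p0) := by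
    rw [map_mul]; exact le_mul_of_one_le_right (ci_pos.2 hc).le (one_le_ci hp)
  have hr0 : 0 ≤ r0 := (ci_pos.1 hl.len).le
  have hr1 : 0 ≤ r0 - c0 * p0 * r := ci_nonneg.1 (by rw [map_sub]; linarith)
  have c1 := (cd_lat hc hr0 a0).trans (k2.trans k1)
  have c2 := (cd_lat hcp hr0 a0).trans k1
  have c3 := (abs_le.1 ((cd_lat hcp hr1 a0).trans k1)).1
  rw [map_sub] at c3
  set L := lat (c0 * p0) a0 (r0 - c0 * p0 * r) with hL
  have c4 : ci r0 - 2 * ci (c0 * p0 * r) ≤ ci (c0 * p0) * cd L := by linarith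
  have tn : Tiny Q (2 * (6 * (ci (c0 * p0 * r) / ci r0))) :=
    (hl.tiny.mul' (ofNat_mem _ 6)).mul' (ofNat_mem _ 2)
  have hbx : ∀ t : Unit → HZ, Mem t (box fun _ : Unit => p0) ↔ 0 ≤ t () ∧ t () < p0 :=
    fun t => mem_box.trans Unique.forall_iff
  have hcd : cd (box fun _ : Unit => p0) = ci p0 := by rw [cd_box fun _ => hp.le]; simp
  have sh : ∀ w k : HZ, Mem w L → 0 ≤ k → k ≤ p0 → Mem (w + c0 * r * k) (lat c0 a0 r0) :=
    fun w k hw h0 h1 => by
      obtain ⟨w1, w2, w3⟩ := mem_lat.1 hw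
      have e1 := mul_nonneg hcr.le h0
      have e2 := mul_le_mul_of_nonneg_left h1 hcr.le
      rw [mul_right_comm c0 r p0] at e2
      exact mem_lat.2 ⟨by linarith, by linarith,
        dvd_add ((dvd_mul_right _ _).trans w3) (mul_assoc c0 r k ▸ dvd_mul_right _ _)⟩
  have he : IntF fun x : HZ × (Unit → HZ) => x.1 + c0 * r * x.2 () := by fun_prop
  have s1 : TinyC Q (Ex L Φ - Ex (lat (c0 * p0) a0 r0) Φ) := by
    refine TinyC.of_le tn ((near_sub (fun w hw => ?_) hΦ fun w _ => hb w).trans ?_)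
    · obtain ⟨w1, w2, w3⟩ := mem_lat.1 hw
      exact mem_lat.2 ⟨w1, by linarith [mul_pos hcp hr], w3⟩
    · rw [← mul_div_mul_left _ _ (ci_pos.2 hcp).ne']
      exact mul_le_mul_of_nonneg_left (ratio_le hl.len hK0.le hK c4 c2) zero_le_two
  have s2 : TinyC Q ((Ex (fprod L (box fun _ : Unit => p0)) fun x : HZ × (Unit → HZ) =>
      Φ (x.1 + c0 * r * x.2 ())) - Ex (lat c0 a0 r0) Φ) := by
    refine TinyC.of_le tn ((near_inj he (fun x hx => ?_) (fun x x' hx hx' h => ?_) hΦ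
      fun w _ => hb w).trans ?_)
    · obtain ⟨x1, x2⟩ := mem_fprod.1 hx
      exact sh _ _ x1 ((hbx _).1 x2).1 ((hbx _).1 x2).2.le
    · obtain ⟨w, k⟩ := x
      obtain ⟨w', k'⟩ := x'
      obtain ⟨x1, x2⟩ := mem_fprod.1 hx
      obtain ⟨y1, y2⟩ := mem_fprod.1 hx'
      obtain ⟨u, rfl⟩ : c0 * p0 ∣ w := (mem_lat.1 x1).2.2
      obtain ⟨u', rfl⟩ : c0 * p0 ∣ w' := (mem_lat.1 y1).2.2
      obtain ⟨x3, x4⟩ : 0 ≤ k () ∧ k () < p0 := (hbx _).1 x2
      obtain ⟨y3, y4⟩ : 0 ≤ k' () ∧ k' () < p0 := (hbx _).1 y2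
      have h1 : r * (k' () - k ()) = p0 * (u - u') :=
        mul_left_cancel₀ hc.ne' (by dsimp only at h; linear_combination -h)
      obtain ⟨m, hm⟩ := cop.dvd_of_dvd_mul_left ⟨_, h1⟩
      have m1 : m < 0 + 1 := lt_of_mul_lt_mul_left (by linarith) hp.le
      have m2 : 0 < m + 1 := lt_of_mul_lt_mul_left (a := p0) (by linarith) hp.le
      rw [← HZ_add_one_le, add_le_add_iff_right] at m1 m2
      rw [le_antisymm m1 m2, mul_zero, sub_eq_zero] at hm
      have h2 : k = k' := funext fun _ => hm.symm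
      subst h2
      exact Prod.ext (add_right_cancel h) rfl
    · rw [cd_fprod, hcd, ← mul_div_mul_left _ _ (ci_pos.2 hc).ne', mul_comm (cd L), ← mul_assoc,
        ← map_mul]
      exact mul_le_mul_of_nonneg_left (ratio_le hl.len hK0.le hK c4 c1) zero_le_two
  have s3 : TinyC Q ((Ex (fprod L (box fun _ : Unit => p0)) fun x : HZ × (Unit → HZ) =>
      Φ (x.1 + c0 * r * x.2 ())) - Ex L Φ) := by
    have e : (Ex (fprod L (box fun _ : Unit => p0)) fun x : HZ × (Unit → HZ) => Φ x.1) = Ex L Φ := by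
      rw [Ex_fprod (by fun_prop)]
      exact congrArg _ (funext fun w => Ex_const (A := Unit → HZ) (hcd ▸ (ci_pos.2 hp).ne') (Φ w))
    rw [← e]
    refine tinyC_Ex (hΦ.comp he) (by fun_prop) fun x hx => ?_
    obtain ⟨x1, x2⟩ := mem_fprod.1 hx
    obtain ⟨x3, x4⟩ := (hbx _).1 x2
    have m0 := sh _ 0 x1 le_rfl hp.le
    rw [mul_zero, add_zero] at m0
    refine hs _ _ (sh _ _ x1 x3 x4.le) m0 (by rw [add_sub_cancel_left]; exact dvd_mul_right _ _) ?_
    rw [add_sub_cancel_left]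
    refine hl.tiny.mono (div_nonneg (ci_nonneg.2 (mul_nonneg hcr.le x3)) hl.len.le)
      (div_le_div_of_nonneg_right (ci_le.2 ?_) hl.len.le)
    rw [mul_right_comm c0 p0 r]
    exact mul_le_mul_of_nonneg_left x4.le hcr.le
  exact s1.symm.trans (s3.symm.trans s2)

end lat

end Pool.Agent.P.MP_a14ce1_nt.Nil
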