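import Pool.Agent.P.MP_a14ce1_nt.Nil.BoxA
import Pool.Agent.P.MP_a14ce1_nt.Nil.Peel

/-!
Windows and lattices in one absolute variable: definitions.
-/

open Filter Finset

set_option linter.unusedSectionVars false

noncomputable section

namespace Pool.Agent.P.MP_a14ce1_nt.Nil

variable {ι : Type} [Fintype ι] [DecidableEq ι] {lv : ι → ℕ} (Q : HR) [Fact (2 ≤ Q)]

/-- Sequences that are bounded and vary slowly on the window `[A, A + R)`. -/
def EA (A R : HR) (lv : ι → ℕ) : Subgroup (PS lv Unit HR) :=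
  ((Sm Q fun _ : Unit => R).EE lv).comap (sh fun _ => A)

/-- Sequences that are rational for the lattice of the multiples of `c`. -/
def LL (c : HR) (lv : ι → ℕ) : Subgroup (PS lv Unit HR) := (Rt Q fun _ : Unit => c).EE lv

/-- Factorisation on a window and a lattice. -/
def FW (A R c : HR) (g m : Fam (KK Q) lv ℕ) (x : PS lv Unit HR) : Prop :=
  ∃ e ∈ (g.fine Unit).PG ⊓ EA Q A R lv, ∃ y ∈ (g.fine Unit).PG ⊓ (m.fine Unit).PG,
    ∃ γ ∈ (g.fine Unit).PG ⊓ LL Q c lv, x = e * y * γ

/-- Irrationality for windows of length `R` and the lattice of the multiples of `c`. -/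
abbrev IW (R c : HR) (g : Fam (KK Q) lv ℕ) (n : Submodule HR (Matrix ι ι HR))
    (x : PS lv Unit HR) : Prop :=
  Irr (Sm Q fun _ : Unit => R) (Rt Q fun _ : Unit => c) g n x

/-- The step `c` is a positive integer, tiny with respect to the length `R`. -/
structure Lat (R c : HR) : Prop where
  zz : c ∈ ZZ
  pos : 0 < c
  len : 0 < R
  tiny : Tiny Q (c / R)

/-- Coprime integers. -/
def Cop (d d' : HR) : Prop := ∃ a ∈ ZZ, ∃ b ∈ ZZ, a * d + b * d' = 1

/-- A positive integer coprime to every nonzero integer of polynomial size. -/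
def Prm (p : HR) : Prop := p ∈ ZZ ∧ 0 < p ∧ ∀ r ∈ ZZ, r ∈ OO Q → r ≠ 0 → Cop p r

/-- The multiples of `c` in `[A, A + R)`. -/
def latF (c A R : ℤ) : Finset ℤ := (Ico A (A + R)).filter fun n => c ∣ n

def lat (c A R : HZ) : Ns (Finset ℤ) := st fun n => latF (rep c n) (rep A n) (rep R n)

/-- The value of a sequence at an integer. -/
def e1 (n : HZ) : PS lv Unit HR →* UT lv HR := ev fun _ => ci n

variable {Q}

theorem mem_EA {A R : HR} {x : PS lv Unit HR} :
    x ∈ EA Q A R lv ↔ sh (fun _ => A) x ∈ (Sm Q fun _ : Unit => R).EE lv := Iff.rfl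

theorem mem_LL {c : HR} {x : PS lv Unit HR} :
    x ∈ LL Q c lv ↔ x ∈ (Rt Q fun _ : Unit => c).EE lv := Iff.rfl

theorem e1_eq (n : Unit → HZ) (x : PS lv Unit HR) : ev (zv n) x = e1 (n ()) x := rfl

end Pool.Agent.P.MP_a14ce1_nt.Nil
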