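import Pool.Agent.P.MP_a14ce1_nt.Nil.AccV
import Pool.Agent.P.MP_a14ce1_nt.Nil.Win

/-! Accidents: irrationality survives the passage to most sublattices. -/

open Filter Finset MvPolynomial

set_option linter.unusedSectionVars false

noncomputable section

namespace Pool.Agent.P.MP_a14ce1_nt.Nil

variable {A S : Type} [NS A S] {ι : Type} [Fintype ι] [DecidableEq ι] {lv : ι → ℕ} {σ : Type}
  {Q : HR} [Fact (2 ≤ Q)] {R b c d d' : HR} {g : Fam (KK Q) lv ℕ} {D : ℕ}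
  {n : Submodule HR (Matrix ι ι HR)}

namespace Acc

theorem cop_pow (hd : d ∈ ZZ) (hd' : d' ∈ ZZ) (h : Cop d d') (i : ℕ) :
    ∃ s ∈ RT Q, ∃ t ∈ RT Q, s * d ^ i + t * d' ^ i = 1 := by
  obtain ⟨s, hs, t, ht, e⟩ := h
  obtain ⟨s, t, e⟩ := IsCoprime.pow (R := ZZ) (x := ⟨d, hd⟩) (y := ⟨d', hd'⟩) (m := i) (n := i)
    ⟨⟨s, hs⟩, ⟨t, ht⟩, Subtype.ext e⟩
  exact ⟨s, ZZ_le_RT s.2, t, ZZ_le_RT t.2, by simpa using congrArg Subtype.val e⟩

theorem intP_cop {f f' : A → HR} (hf : IntF f) (hf' : IntF f') :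
    IntP fun a => Cop (f a) (f' a) :=
  IntP.ex ((IntP.memZZ (by fun_prop)).and (IntP.ex
    ((IntP.memZZ (by fun_prop)).and (IntP.eq (by fun_prop) (by fun_prop)))))

theorem sq {T : Ns (Finset S)} {p : A → Prop} (h : Dense Q T p) :
    Dense Q (fprod T T) fun z : A × A => p z.1 ∧ p z.2 := by
  obtain ⟨H, h1, h2⟩ := h
  refine ⟨fprod H H, fun z hz => ?_, ?_⟩
  · obtain ⟨a, b⟩ := mem_fprod.1 hz
    exact ⟨mem_fprod.2 ⟨(h1 _ a).1, (h1 _ b).1⟩, (h1 _ a).2, (h1 _ b).2⟩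
  · rw [cd_fprod, cd_fprod, mul_div_mul_comm]
    exact h2.mul h2

end Acc

/-- Small plus rational in one variable. -/
theorem mem_Sm_sup_Rt1 (hR : R ≠ 0) (hc : c ≠ 0) {i : ℕ} {α : HR} :
    α ∈ (Sm Q fun _ : Unit => R).s (Finsupp.single () i) ⊔
      (Rt Q fun _ : Unit => c).s (Finsupp.single () i) ↔
    ∃ o ∈ OO Q, ∃ r ∈ RT Q, α = o / R ^ i + r / c ^ i := by
  rw [mem_Sm_sup_Rt, Finsupp.prod_single_index (by simp), Finsupp.prod_single_index (by simp)]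
  have h1 := pow_ne_zero i hR
  have h2 := pow_ne_zero i hc
  constructor
  · rintro ⟨t, h3, h4⟩
    exact ⟨_, h3, _, h4, by field_simp; ring⟩
  · rintro ⟨o, ho, r, hr, rfl⟩
    exact ⟨r / c ^ i, by rwa [add_sub_cancel_right, div_mul_cancel₀ _ h1],
      by rwa [div_mul_cancel₀ _ h2]⟩

/-- Small plus rational for two coprime multiples of a lattice. -/
theorem scalar2 {N w : σ → HR} (hd : d ∈ ZZ) (hd' : d' ∈ ZZ) (hcop : Cop d d')
    (hs : Sep (Sm Q N) (Rt Q fun l => w l * d * d')) {β : σ →₀ ℕ} {x : HR}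
    (h : x ∈ (Sm Q N).s β ⊔ (Rt Q fun l => w l * d).s β)
    (h' : x ∈ (Sm Q N).s β ⊔ (Rt Q fun l => w l * d').s β) :
    x ∈ (Sm Q N).s β ⊔ (Rt Q w).s β := by
  by_cases hβ : β = 0
  · subst hβ
    simpa only [mem_Sm_sup_Rt, Finsupp.prod_zero_index] using h
  obtain ⟨t, h1, h2⟩ := mem_Sm_sup_Rt.1 h
  obtain ⟨t', h3, h4⟩ := mem_Sm_sup_Rt.1 h'
  rw [prod_mul_pow] at h2 h4
  have e : t - t' ∈ (Sm Q N).s β ⊓ (Rt Q fun l => w l * d * d').s β := by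
    constructor
    · change _ * _ ∈ OO Q
      convert sub_mem h3 h1 using 1
      ring
    · change _ * _ ∈ RT Q
      rw [prod_mul_pow, prod_mul_pow]
      convert sub_mem (mul_mem h2 (pow_mem (ZZ_le_RT hd') β.degree))
        (mul_mem h4 (pow_mem (ZZ_le_RT hd) β.degree)) using 1
      ring
  rw [hs β hβ, Submodule.mem_bot, sub_eq_zero] at e
  subst e
  obtain ⟨s, hs, u, hu, e⟩ := Acc.cop_pow (Q := Q) hd hd' hcop β.degree
  refine mem_Sm_sup_Rt.2 ⟨t, h1, ?_⟩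
  convert add_mem (mul_mem hs h2) (mul_mem hu h4) using 1
  linear_combination (-(t * β.prod fun l k => w l ^ k)) * e

/-- ACC2 in several variables. -/
theorem acc2G [Fintype σ] [DecidableEq σ] {T : Ns (Finset S)} {v : A → HR} (hv : IntF v)
    {N w : σ → HR} (hz : ∀ a, Mem a T → v a ∈ ZZ)
    (hl : ∀ a a', Mem a T → Mem a' T → Sep (Sm Q N) (Rt Q fun l => w l * v a * v a'))
    (hcop : ¬Dense Q (fprod T T) fun z : A × A => ¬Cop (v z.1) (v z.2)) (hg : g.Fil D)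
    {x : PS lv σ HR} (hi : Irr (Sm Q N) (Rt Q w) g n x) :
    ¬Dense Q T fun a => ¬Irr (Sm Q N) (Rt Q fun l => w l * v a) g n x := by
  intro hd
  obtain ⟨i, κ, h1, h2⟩ := pigeon_adm hg (p := fun _ => True)
    (s := fun i a κ => ∀ β : σ →₀ ℕ, β.degree = i →
      fn κ (co β (lg x)) ∈ (Sm Q N).s β ⊔ (Rt Q fun l => w l * v a).s β)
    (fun i => Sig.ball (Finsupp.finite_of_degree_eq i) fun β =>
      Sig.coefP N (w := fun (z : A × Matrix ι ι HR) l => w l * v z.1) (by fun_prop) β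
        (by fun_prop))
    (hd.mono fun a _ ha => ⟨trivial, not_irr_iff.1 ha⟩)
  obtain ⟨β, hβ, hb⟩ := hi i _ h1
  obtain ⟨z, hz', ⟨h3, h4⟩, h5⟩ := ((Acc.sq h2).diff
    (Acc.intP_cop (by fun_prop) (by fun_prop)).not.sig hcop).exists
  obtain ⟨m1, m2⟩ := mem_fprod.1 hz'
  exact hb (scalar2 (hz _ m1) (hz _ m2) (not_not.1 h5) (hl _ _ m1 m2) (h3.2 β hβ) (h4.2 β hβ))

variable {x : PS lv Unit HR}

/-- scalar form: a dense set of integers -/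
theorem acc_scalar {P : HZ} (hP : Long Q fun _ : Unit => P) (hb : b ≠ 0) (hR : R ≠ 0)
    (ht : Tiny Q (b * ci P / R)) {i : ℕ} (_hi : 1 ≤ i) {α : HR}
    (h : Dense Q (box fun _ : Unit => P) fun a : Unit → HZ => 0 < a () ∧
      ∃ o ∈ OO Q, ∃ r ∈ RT Q, α = o / R ^ i + r / (b * ci (a ())) ^ i) :
    ∃ o ∈ OO Q, ∃ r ∈ RT Q, α = o / R ^ i + r / b ^ i :=
  (mem_Sm_sup_Rt1 hR hb).1 ((par_box (hP ()).1 (hP ()).2).scalar (fun _ => ⟨hR, hb, ht⟩)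
    (h.mono fun a _ ha => (mem_Sm_sup_Rt1 hR (mul_ne_zero hb (by
      rw [← map_zero ci]; exact (ci_lt.2 ha.1).ne'))).2 ha.2))

theorem accW {P : HZ} (hP : Long Q fun _ : Unit => P) (hb : b ≠ 0) (hR : R ≠ 0)
    (ht : Tiny Q (b * ci P / R)) (hg : g.Fil D) (hi : IW Q R b g n x) :
    ¬Dense Q (box fun _ : Unit => P) fun a : Unit → HZ =>
      0 < a () ∧ ¬IW Q R (b * ci (a ())) g n x := fun h =>
  (par_box (hP ()).1 (hP ()).2).acc (fun _ => ⟨hR, hb, ht⟩) hg hi (h.mono fun _ _ ha => ha.2)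

/-- the same for a parameter set mapped injectively onto a dense set of integers -/
theorem Par.accW {T : Ns (Finset S)} {π : A → HZ} {P : HZ} (h : Par Q T π P) (hb : b ≠ 0)
    (hR : R ≠ 0) (ht : Tiny Q (b * ci P / R)) (hg : g.Fil D) (hi : IW Q R b g n x) :
    ¬Dense Q T fun a => ¬IW Q R (b * ci (π a)) g n x := h.acc (fun _ => ⟨hR, hb, ht⟩) hg hi

/-- scalar form: two coprime integers -/
theorem acc2_scalar (hl : Lat Q R (c * d * d')) (_hc : c ∈ ZZ) (hd : d ∈ ZZ) (hd' : d' ∈ ZZ)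
    (hcop : Cop d d') {i : ℕ} (_hi : 1 ≤ i) {α : HR}
    (h : ∃ o ∈ OO Q, ∃ r ∈ RT Q, α = o / R ^ i + r / (c * d) ^ i)
    (h' : ∃ o ∈ OO Q, ∃ r ∈ RT Q, α = o / R ^ i + r / (c * d') ^ i) :
    ∃ o ∈ OO Q, ∃ r ∈ RT Q, α = o / R ^ i + r / c ^ i := by
  obtain ⟨h1, h2⟩ := mul_ne_zero_iff.1 hl.pos.ne'
  have h3 := (mul_ne_zero_iff.1 h1).1
  exact (mem_Sm_sup_Rt1 hl.len.ne' h3).1 (scalar2 hd hd' hcop
    (sep_Sm_Rt fun _ => ⟨hl.len.ne', hl.pos.ne', hl.tiny⟩) ((mem_Sm_sup_Rt1 hl.len.ne' h1).2 h)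
    ((mem_Sm_sup_Rt1 hl.len.ne' (mul_ne_zero h3 h2)).2 h'))

theorem acc2 {T : Ns (Finset S)} {v : A → HR} (hv : IntF v) (_hc : c ∈ ZZ)
    (hz : ∀ a, Mem a T → v a ∈ ZZ) (hl : ∀ a a', Mem a T → Mem a' T → Lat Q R (c * v a * v a'))
    (hcop : ¬Dense Q (fprod T T) fun z : A × A => ¬Cop (v z.1) (v z.2)) (hg : g.Fil D)
    (hi : IW Q R c g n x) : ¬Dense Q T fun a => ¬IW Q R (c * v a) g n x :=
  acc2G hv hz (fun a a' h h' => sep_Sm_Rt fun _ =>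
    ⟨(hl a a' h h').len.ne', (hl a a' h h').pos.ne', (hl a a' h h').tiny⟩) hcop hg hi

end Pool.Agent.P.MP_a14ce1_nt.Nil
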