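import Pool.Agent.P.MP_a14ce1_nt.Nil.WinA
import Pool.Agent.P.MP_a14ce1_nt.Nil.LeibA
import Pool.Agent.P.MP_a14ce1_nt.Nil.Acc

/-!
Factorisations on windows.
-/

open Filter Finset MvPolynomial

set_option linter.unusedSectionVars false

noncomputable section

namespace Pool.Agent.P.MP_a14ce1_nt.Nil

namespace WB

variable {FF : Type} [Field FF] [CharZero FF] {ι : Type} [Fintype ι] [DecidableEq ι]
  {K : Subfield FF} {lv : ι → ℕ} {σ : Type}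

theorem eq_single {β : Unit →₀ ℕ} {i : ℕ} (h : β.degree = i) : β = Finsupp.single () i := by
  rw [Finsupp.unique_single β, Finsupp.degree_single] at h
  rw [← h]; exact Finsupp.unique_single β

theorem irr_sh {S T : Sc K σ} {g : Fam K lv ℕ} {D} (hg : g.Fil D) {n} {x : PS lv σ FF}
    (hx : x ∈ (g.fine σ).PG) (a : σ → FF) (h : Irr S T g n x) : Irr S T g n (sh a x) :=
  h.of_pk (sh_mem hg hx a).2

end WB

open WB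

variable {ι ι' : Type} [Fintype ι] [DecidableEq ι] [Fintype ι'] [DecidableEq ι'] {lv : ι → ℕ}
  {lv' : ι' → ℕ} {Q : HR} [Fact (2 ≤ Q)] {A0 R c d : HR} {g h m : Fam (KK Q) lv ℕ}
  {g' m' : Fam (KK Q) lv' ℕ} {D : ℕ} {n : Submodule HR (Matrix ι ι HR)}
  {x y e γ : PS lv Unit HR}

namespace WB

theorem EA_eq (hR : R ≠ 0) {A1 : HR} (h1 : (A1 - A0) / R ∈ OO Q) : EA Q A1 R lv = EA Q A0 R lv :=
  EA_congr hR h1 (by rw [div_self hR]; exact ⟨big_one, one_mem _⟩)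

theorem back_EA (hg : g.Fil D) (hR : R ≠ 0) {A1 : HR} (h1 : (A1 - A0) / R ∈ OO Q)
    (he : e ∈ (g.fine Unit).PG ⊓ (Sm Q fun _ : Unit => R).EE lv) :
    sh (-fun _ => A1) e ∈ (g.fine Unit).PG ⊓ EA Q A0 R lv :=
  ⟨(sh_mem hg he.1 _).1, by rw [← EA_eq hR h1]; exact mem_EA.2 (by rw [sh_neg]; exact he.2)⟩

theorem back_LL (hg : g.Fil D) {z : HR} (hz : z ∈ ZZ)
    (he : γ ∈ (g.fine Unit).PG ⊓ (Rt Q fun _ : Unit => c).EE lv) :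
    sh (-fun _ => c * z) γ ∈ (g.fine Unit).PG ⊓ LL Q c lv :=
  ⟨(sh_mem hg he.1 _).1, (sh_mem_LL hz).1 (by rw [sh_neg]; exact he.2)⟩

/-- Shift to a centre and remove the constant term. -/
theorem norm (hl : Lat Q R c) (hg : g.Fil D) (hx : x ∈ (g.fine Unit).PG) (A0 : HR) :
    ∃ z ∈ ZZ, (c * z - A0) / R ∈ OO Q ∧
      ∃ a ∈ (g.fine Unit).PG ⊓ (Sm Q fun _ : Unit => R).EE lv, ∃ u ∈ (g.fine Unit).plus.PG,
        ∃ b ∈ (g.fine Unit).PG ⊓ (Rt Q fun _ : Unit => c).EE lv,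
          sh (fun _ => c * z) x = a * u * b ∧ lg u - lg x ∈ pk g Unit 1 := by
  obtain ⟨z, hz, h1⟩ := hl.exists_centre A0
  obtain ⟨a, ha, b, hb, hab, hO, hL⟩ := normaliseQ (Q := Q) (q := 1) g
    ⟨one_mem _, one_mem _, one_ne_zero⟩ (ev_mem hg (sh_mem hg hx fun _ => c * z).1 0)
  obtain ⟨s1, s2⟩ := symbol hg hx (fun _ => c * z) (inv_mem ha) (inv_mem hb)
  refine ⟨z, hz, h1.mem_OO, cst Unit a, ⟨cst_mem ha, ?_⟩, _, mem_plus.2 ⟨s1, ?_⟩, cst Unit b,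
    ⟨cst_mem hb, cst_mem_LL.2 fun p q => ?_⟩, ?_, s2⟩
  · have := mem_EA.1 ((cst_mem_EA (A0 := 0) (R := R)).2 hO)
    rwa [sh_cst] at this
  · rw [map_mul, map_mul, ev_cst, ev_cst, hab]; group
  · obtain ⟨w, hw, e⟩ := hL p q
    rw [Matrix.sub_apply, sub_eq_iff_eq_add, one_mul] at e
    rw [e]
    exact ZZ_le_RT (add_mem hw (ent_one ZZ p q))
  · rw [map_inv, map_inv]; group

end WB

/-- the link with `Fac` at any centre of the lattice -/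
theorem fw_iff (hg : g.Fil D) (hm : m.Fil D) (hR : R ≠ 0) {z : HR} (hz : z ∈ ZZ)
    (h1 : (c * z - A0) / R ∈ OO Q) : FW Q A0 R c g m x ↔
      Fac (Sm Q fun _ => R) (Rt Q fun _ => c) (g.fine Unit) (m.fine Unit)
        (sh (fun _ => c * z) x) := by
  constructor
  · rintro ⟨e, he, y, hy, γ, hγ, rfl⟩
    exact ⟨_, ⟨(sh_mem hg he.1 _).1, mem_EA.1 ((EA_eq hR h1).ge he.2)⟩, _,
      ⟨(sh_mem hg hy.1 _).1, (sh_mem hm hy.2 _).1⟩, _,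
      ⟨(sh_mem hg hγ.1 _).1, (sh_mem_LL hz).2 hγ.2⟩, by rw [map_mul, map_mul]⟩
  · rintro ⟨e, he, y, hy, γ, hγ, h⟩
    exact ⟨_, back_EA hg hR h1 he, _, ⟨(sh_mem hg hy.1 _).1, (sh_mem hm hy.2 _).1⟩, _,
      back_LL hg hz hγ, by rw [← map_mul, ← map_mul, ← h, neg_sh]⟩

theorem FW.mem (h : FW Q A0 R c g m x) : x ∈ (g.fine Unit).PG := by
  obtain ⟨e, he, y, hy, γ, hγ, rfl⟩ := h
  exact mul_mem (mul_mem he.1 hy.1) hγ.1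

theorem FW.of_mem (h : x ∈ (g.fine Unit).PG) (h' : x ∈ (m.fine Unit).PG) : FW Q A0 R c g m x :=
  ⟨1, one_mem _, x, ⟨h, h'⟩, 1, one_mem _, by group⟩

theorem FW.mono {g1 m1} (h : FW Q A0 R c g m x) (h1 : g ≤ g1) (h2 : m ≤ m1) :
    FW Q A0 R c g1 m1 x := by
  obtain ⟨e, he, y, hy, γ, hγ, rfl⟩ := h
  have a := Fam.PG_mono (Fam.fine_mono (σ := Unit) h1)
  exact ⟨e, ⟨a he.1, he.2⟩, y, ⟨a hy.1, Fam.PG_mono (Fam.fine_mono h2) hy.2⟩, γ, ⟨a hγ.1, hγ.2⟩,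
    rfl⟩

theorem FW.lvl (h : FW Q A0 R c g m x) (hd : d ∈ ZZ) : FW Q A0 R (c * d) g m x := by
  obtain ⟨e, he, y, hy, γ, hγ, rfl⟩ := h
  exact ⟨e, he, y, hy, γ, ⟨hγ.1, LL_mono hd hγ.2⟩, rfl⟩

theorem FW.mul (h : FW Q A0 R c g m x) (he : e ∈ (g.fine Unit).PG ⊓ EA Q A0 R lv)
    (hγ : γ ∈ (g.fine Unit).PG ⊓ LL Q c lv) : FW Q A0 R c g m (e * x * γ) := by
  obtain ⟨e', he', y, hy, γ', hγ', rfl⟩ := h
  exact ⟨_, mul_mem he he', y, hy, _, mul_mem hγ' hγ, by group⟩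

theorem FW.split {k : Fam (KK Q) (Sum.elim lv lv') ℕ} {x' : PS lv' Unit HR}
    (h : FW Q A0 R c (g.prod g') k (UT.dg (x, x'))) :
    ∃ e ∈ (g.fine Unit).PG ⊓ EA Q A0 R lv, ∃ e' ∈ (g'.fine Unit).PG ⊓ EA Q A0 R lv',
      ∃ u ∈ (g.fine Unit).PG, ∃ u' ∈ (g'.fine Unit).PG,
      ∃ γ ∈ (g.fine Unit).PG ⊓ LL Q c lv, ∃ γ' ∈ (g'.fine Unit).PG ⊓ LL Q c lv',
        UT.dg (u, u') ∈ (k.fine Unit).PG ∧ x = e * u * γ ∧ x' = e' * u' * γ' := by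
  obtain ⟨e, he, z, hz, γ, hγ, h⟩ := h
  rw [Fam.prod_fine] at he hz hγ
  obtain ⟨e1, a1, e2, a2, rfl⟩ := Fam.mem_prod_PG.1 he.1
  obtain ⟨z1, b1, z2, b2, rfl⟩ := Fam.mem_prod_PG.1 hz.1
  obtain ⟨c1, d1, c2, d2, rfl⟩ := Fam.mem_prod_PG.1 hγ.1
  rw [UT.dg_mul, UT.dg_mul, UT.dg_inj] at h
  exact ⟨e1, ⟨a1, (dg_mem_EA.1 he.2).1⟩, e2, ⟨a2, (dg_mem_EA.1 he.2).2⟩, z1, b1, z2, b2,
    c1, ⟨d1, (dg_mem_LL.1 hγ.2).1⟩, c2, ⟨d2, (dg_mem_LL.1 hγ.2).2⟩, hz.2, h.1, h.2⟩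

theorem FW.fst {k : Fam (KK Q) (Sum.elim lv lv') ℕ} {x' : PS lv' Unit HR}
    (h : FW Q A0 R c (g.prod g') k (UT.dg (x, x'))) : FW Q A0 R c g k.fst x := by
  obtain ⟨e, he, e', -, u, hu, u', -, γ, hγ, γ', -, h1, h2, -⟩ := h.split
  exact ⟨e, he, u, ⟨hu, (dg_mem_PG h1).1⟩, γ, hγ, h2⟩

theorem FW.snd {k : Fam (KK Q) (Sum.elim lv lv') ℕ} {x' : PS lv' Unit HR}
    (h : FW Q A0 R c (g.prod g') k (UT.dg (x, x'))) : FW Q A0 R c g' k.snd x' := by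
  obtain ⟨e, -, e', he, u, -, u', hu, γ, -, γ', hγ, h1, -, h2⟩ := h.split
  exact ⟨e', he, u', ⟨hu, (dg_mem_PG h1).2⟩, γ', hγ, h2⟩

theorem FW.prod {x' : PS lv' Unit HR} (a : FW Q A0 R c g m x) (b : FW Q A0 R c g' m' x') :
    FW Q A0 R c (g.prod g') (m.prod m') (UT.dg (x, x')) := by
  obtain ⟨e, he, u, hu, γ, hγ, rfl⟩ := a
  obtain ⟨e', he', u', hu', γ', hγ', rfl⟩ := b
  rw [FW, Fam.prod_fine, Fam.prod_fine]
  exact ⟨UT.dg (e, e'), ⟨Fam.dg_mem_prod_PG.2 ⟨he.1, he'.1⟩, dg_mem_EA.2 ⟨he.2, he'.2⟩⟩,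
    UT.dg (u, u'), ⟨Fam.dg_mem_prod_PG.2 ⟨hu.1, hu'.1⟩, Fam.dg_mem_prod_PG.2 ⟨hu.2, hu'.2⟩⟩,
    UT.dg (γ, γ'), ⟨Fam.dg_mem_prod_PG.2 ⟨hγ.1, hγ'.1⟩, dg_mem_LL.2 ⟨hγ.2, hγ'.2⟩⟩,
    by rw [UT.dg_mul, UT.dg_mul]⟩

theorem lift_fst_EA {k : Fam (KK Q) (Sum.elim lv lv') ℕ} (hk : k.Fil D)
    (he : e ∈ (k.fst.fine Unit).PG ⊓ EA Q A0 R lv) :
    ∃ e' ∈ EA Q A0 R lv', UT.dg (e, e') ∈ (k.fine Unit).PG := by
  obtain ⟨y, h1, h2⟩ := lift_fst (h := k.fine Unit) (Sm Q fun _ : Unit => R)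
    (x := sh (fun _ => A0) e) ⟨(sh_mem hk.fst he.1 _).1, he.2⟩
  have := (sh_mem hk h2 (-fun _ => A0)).1
  rw [sh_dg, neg_sh] at this
  exact ⟨_, mem_EA.2 (by rw [sh_neg]; exact h1), this⟩

theorem lift_snd_EA {k : Fam (KK Q) (Sum.elim lv lv') ℕ} (hk : k.Fil D) {e' : PS lv' Unit HR}
    (he : e' ∈ (k.snd.fine Unit).PG ⊓ EA Q A0 R lv') :
    ∃ e ∈ EA Q A0 R lv, UT.dg (e, e') ∈ (k.fine Unit).PG := by
  obtain ⟨y, h1, h2⟩ := lift_snd' (h := k.fine Unit) (Sm Q fun _ : Unit => R)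
    (y := sh (fun _ => A0) e') ⟨(sh_mem hk.snd he.1 _).1, he.2⟩
  have := (sh_mem hk h2 (-fun _ => A0)).1
  rw [sh_dg, neg_sh] at this
  exact ⟨_, mem_EA.2 (by rw [sh_neg]; exact h1), this⟩

theorem lift_fst_LL {k : Fam (KK Q) (Sum.elim lv lv') ℕ}
    (he : γ ∈ (k.fst.fine Unit).PG ⊓ LL Q c lv) :
    ∃ γ' ∈ LL Q c lv', UT.dg (γ, γ') ∈ (k.fine Unit).PG :=
  lift_fst (h := k.fine Unit) (Rt Q fun _ : Unit => c) he

theorem lift_snd_LL {k : Fam (KK Q) (Sum.elim lv lv') ℕ} {γ' : PS lv' Unit HR}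
    (he : γ' ∈ (k.snd.fine Unit).PG ⊓ LL Q c lv') :
    ∃ γ ∈ LL Q c lv, UT.dg (γ, γ') ∈ (k.fine Unit).PG :=
  lift_snd' (h := k.fine Unit) (Rt Q fun _ : Unit => c) he

theorem Adm.sm_EA {i η} (h : Adm g n i η) (hg : g.Fil D)
    (he : e ∈ (g.fine Unit).PG ⊓ EA Q A0 R lv) {β : Unit →₀ ℕ} (hβ : β.degree = i) :
    η (co β (lg e)) ∈ (Sm Q fun _ : Unit => R).s β := by
  rw [← h.sh hg he.1 (fun _ => A0) hβ]
  exact h.rat.mem (Sc.mem_EE.1 (mem_EA.1 he.2) β)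

theorem Adm.co_EA {i η} (h : Adm g n i η) (hg : g.Fil D)
    (he : e ∈ (g.fine Unit).PG ⊓ EA Q A0 R lv) :
    η (co (Finsupp.single () i) (lg e)) * R ^ i ∈ OO Q := by
  have : _ * Finsupp.prod _ _ ∈ OO Q := h.sm_EA hg he (Finsupp.degree_single () i)
  rwa [Finsupp.prod_single_index (by simp)] at this

theorem Adm.co_LL {i η} (h : Adm g n i η) (he : γ ∈ LL Q c lv) :
    η (co (Finsupp.single () i) (lg γ)) * c ^ i ∈ RT Q := by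
  have : _ * Finsupp.prod _ _ ∈ RT Q :=
    h.rat.mem (Sc.mem_EE.1 (mem_LL.1 he) (Finsupp.single () i))
  rwa [Finsupp.prod_single_index (by simp)] at this

theorem iw_iff (hR : R ≠ 0) (hc : c ≠ 0) : IW Q R c g n x ↔ ∀ i η, Adm g n i η →
    ¬∃ o ∈ OO Q, ∃ r ∈ RT Q, η (co (Finsupp.single () i) (lg x)) = o / R ^ i + r / c ^ i := by
  refine forall₃_congr fun i η _ => ?_
  rw [← mem_Sm_sup_Rt1 hR hc]
  exact ⟨fun ⟨β, h1, h2⟩ => eq_single h1 ▸ h2, fun h => ⟨_, Finsupp.degree_single _ _, h⟩⟩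

theorem iw_mul (hg : g.Fil D) (he : e ∈ (g.fine Unit).PG ⊓ EA Q A0 R lv)
    (hy : y ∈ (g.fine Unit).PG) (hγ : γ ∈ (g.fine Unit).PG ⊓ LL Q c lv) :
    IW Q R c g n (e * y * γ) ↔ IW Q R c g n y := by
  refine forall₃_congr fun i η ha => exists_congr fun β => and_congr_right fun hβ => ?_
  rw [ha.hom hg (mul_mem he.1 hy) hγ.1 hβ, ha.hom hg he.1 hy hβ,
    Submodule.add_mem_iff_left _
      (Submodule.mem_sup_right (ha.rat.mem (Sc.mem_EE.1 (mem_LL.1 hγ.2) β))),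
    Submodule.add_mem_iff_right _ (Submodule.mem_sup_left (ha.sm_EA hg he hβ))]

theorem iw_cst (hg : g.Fil D) {a a' : UT lv HR} (ha : a ∈ g.GG) (ha' : a' ∈ g.GG)
    (hy : y ∈ (g.fine Unit).PG) :
    IW Q R c g n (cst Unit a * y * cst Unit a') ↔ IW Q R c g n y := by
  have := (symbol hg hy 0 ha ha').2
  rw [sh_zero] at this
  exact ⟨fun h => h.of_pk (by rw [← neg_sub]; exact neg_mem this), fun h => h.of_pk this⟩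

theorem iw_sh (hg : g.Fil D) (hy : y ∈ (g.fine Unit).PG) (a : Unit → HR) :
    IW Q R c g n (sh a y) ↔ IW Q R c g n y :=
  ⟨fun h => by have := irr_sh hg (sh_mem hg hy a).1 (-a) h; rwa [neg_sh] at this, irr_sh hg hy a⟩

theorem IW.anti (h : IW Q R (c * d) g n x) (hd : d ∈ ZZ) : IW Q R c g n x := fun i η ha => by
  obtain ⟨β, h1, h2⟩ := h i η ha
  refine ⟨β, h1, fun h3 => h2 ?_⟩
  obtain ⟨t, h4, h5⟩ := mem_Sm_sup_Rt.1 h3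
  refine mem_Sm_sup_Rt.2 ⟨t, h4, ?_⟩
  rw [prod_mul_pow (fun _ => c) d, ← mul_assoc]
  exact mul_mem h5 (pow_mem (ZZ_le_RT hd) _)

theorem IW.idl {n'} (h : IW Q R c g n x) (hn : n ≤ n') : IW Q R c g n' x := Irr.anti h hn

/-- one step of peeling -/
theorem peelW (hl : Lat Q R c) (hg : g.Fil D) (hn : g.Idl n) (hx : x ∈ (g.fine Unit).PG)
    (hi : ¬IW Q R c g n x) (A0 : HR) : ∃ h ≤ g, h.Fil D ∧ (∃ i, 1 ≤ i ∧ h.r i < g.r i) ∧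
      (∀ i, g.r i ⊓ n ≤ h.r i) ∧ FW Q A0 R c g h x := by
  obtain ⟨z, hz, h1, a, ha, u, hu, b, hb, e1, e2⟩ := norm hl hg hx A0
  obtain ⟨i, η, ad, h2⟩ := not_irr.1 hi
  obtain ⟨e, he, y, hy, γ, hγ, rfl⟩ := peel ad hg hu fun β hβ => by
    rw [ad.of_pk e2 hβ]; exact h2 β hβ
  have le := Fam.PG_mono (g.fine Unit).plus_le
  have hy' := Fam.PG_mono (Fam.plus_le _) hy
  have _ := hn
  exact ⟨_, ad.ker_le hg, ad.ker_fil hg, ⟨i, ad.pos, ad.ker_lt hg⟩, ad.inf_le_ker hg,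
    (fw_iff hg (ad.ker_fil hg) hl.len.ne' hz h1).2 ⟨a * e, mul_mem ha ⟨le he.1, he.2⟩, y,
      ⟨Fam.PG_mono (Fam.fine_mono (ad.ker_le hg)) hy', hy'⟩, γ * b, mul_mem ⟨le hγ.1, hγ.2⟩ hb,
      by rw [e1]; group⟩⟩

theorem resolveW (hl : Lat Q R c) (hg : g.Fil D) (hn : g.Idl n) (hx : x ∈ (g.fine Unit).PG)
    (A0 : HR) : ∃ h ≤ g, h.Fil D ∧ (∀ i, g.r i ⊓ n ≤ h.r i) ∧
      ∃ e ∈ (g.fine Unit).PG ⊓ EA Q A0 R lv, ∃ y ∈ (h.fine Unit).PG,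
        ∃ γ ∈ (g.fine Unit).PG ⊓ LL Q c lv, x = e * y * γ ∧ IW Q R c h n y := by
  obtain ⟨z, hz, h1, a, ha, u, hu, b, hb, e1, -⟩ := norm hl hg hx A0
  obtain ⟨h, h2, h3, h4, e, he, y, hy, γ, hγ, rfl, hi⟩ :=
    resolve (Sm Q fun _ : Unit => R) (Rt Q fun _ : Unit => c) hg hn hu
  have le := Fam.PG_mono (g.fine Unit).plus_le
  have hy' := Fam.PG_mono (Fam.plus_le _) hy
  refine ⟨h, h2, h3, h4, _, back_EA hg hl.len.ne' h1 (mul_mem ha ⟨le he.1, he.2⟩), _,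
    (sh_mem h3 hy' (-fun _ => c * z)).1, _, back_LL hg hz (mul_mem ⟨le hγ.1, hγ.2⟩ hb), ?_,
    irr_sh h3 hy' _ hi⟩
  rw [← map_mul, ← map_mul, ← neg_sh (fun _ => c * z) x, e1]
  congr 1
  group

theorem IW.le (hl : Lat Q R c) (hg : g.Fil D) (hn : g.Idl n) (hm : m.Fil D)
    (hi : IW Q R c g n x) (hf : FW Q A0 R c g m x) (i : ℕ) :
    g.r i ≤ (g.r i ⊓ m.r i) ⊔ (g.r i ⊓ n) := by
  obtain ⟨z, hz, h1⟩ := hl.exists_centre A0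
  have := (irr_sh hg hf.mem _ hi).le' hg hn (fun i _ => hm.anti i)
    ((fw_iff hg hm hl.len.ne' hz h1.mem_OO).1 hf)
  rcases i.eq_zero_or_pos with rfl | h0
  · rw [hg.zero, hm.zero]; exact this 1 le_rfl
  · exact this i h0

end Pool.Agent.P.MP_a14ce1_nt.Nil
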