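import Pool.Agent.P.MP_a14ce1_nt.Nil.Key
import Pool.Agent.P.MP_a14ce1_nt.Nil.WinB
import Pool.Agent.P.MP_a14ce1_nt.Nil.LatA

/-!
Equidistribution on windows: the mean of a nice function along a factorised sequence depends only
on the outer factors, and does not change when the lattice is refined by a large prime.
-/

open Filter Finset MvPolynomial
open scoped BigOperators

set_option linter.unusedSectionVars false

noncomputable section

namespace Pool.Agent.P.MP_a14ce1_nt.Nil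

variable {ι : Type} [Fintype ι] [DecidableEq ι] {lv : ι → ℕ} {Q : HR} [Fact (2 ≤ Q)] {q : HR}
  {g m : Fam (KK Q) lv ℕ} {D : ℕ} {F : UT lv HR → HC}

section boxes

theorem idl_bot {I : Type} [AddCommMonoid I] {K : Subfield HR} (g : Fam K lv I) : g.Idl ⊥ :=
  ⟨isRat_bot, bot_le, fun X _ Y hY => by rw [Submodule.mem_bot] at hY; simp [hY]⟩

theorem Irr.cst {σ : Type} {K : Subfield HR} {g : Fam K lv ℕ} (hg : g.Fil D) {T T' : Sc K σ} {n}
    {x : PS lv σ HR} (hi : Irr T T' g n x) (hx : x ∈ (g.fine σ).PG) {a : UT lv HR}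
    (ha : a ∈ g.GG) : Irr T T' g n (Nil.cst σ a * x) :=
  hi.of_pk (lg_mul_left_sub (pk_le hg (Nat.zero_le 1)) (pk_ideal 1) hx (lg_cst_mem_pk hg ha))

/-- The common mean of all irrational sequences. -/
theorem mean_box (hg : g.Fil D) (hq : q ∈ ZZ ∧ q ∈ OO Q ∧ q ≠ 0) :
    ∃ (k : ℕ) (M : Fin k → HZ) (w : (Fin k → HZ) → UT lv HR), (∀ l, 0 < M l) ∧ IntF w ∧
      (∀ j, w j ∈ g.GG) ∧ (∀ j, Mem j (box M) → Ent (OO Q : Set HR) (w j).val) ∧
      ∀ (σ : Type) [Fintype σ] [DecidableEq σ] (F : UT lv HR → HC) (N : σ → HZ) (x : PS lv σ HR),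
        Nice Q q g.GG F → Long Q N → x ∈ (g.fine σ).PG → Irr (Sm Q (zv N)) (Rt Q 1) g ⊥ x →
        TinyC Q ((Ex (box N) fun n : σ → HZ => F (ev (zv n) x)) - Ex (box M) fun j => F (w j)) := by
  obtain ⟨k, M, w, h1, h2, h3, h4, h5⟩ := avg_ideal hq (g := g) ⟨g.rat 0, le_rfl, g.lie0.br⟩
  refine ⟨k, M, w, h1, h2, h3, h4, fun σ _ _ F N x hF hN hx hi => ?_⟩
  have hFi := hF.int
  have i1 : IntF fun z : (Fin k → HZ) × (σ → HZ) => F (w z.1 * ev (zv z.2) x) := by fun_prop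
  have k1 := tinyC_Ex (T := box M) (f := fun _ => Ex (box N) fun n : σ → HZ => F (ev (zv n) x))
    (g := fun j => Ex (box N) fun n : σ → HZ => F (w j * ev (zv n) x)) (IntF.const _)
    (IntF.ex (IntF.const _) i1) fun j _ => by
      have := equi hg (idl_bot g) hF eqv_bot hN hx hi hN (mul_mem (cst_mem (h3 j)) hx)
        (hi.cst hg hx (h3 j))
      simpa only [map_mul, ev_cst] using this
  rw [Key.Ex_const' (zero_mem_box h1), Ex_comm i1] at k1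
  have k2 := tinyC_Ex (T := box N)
    (f := fun n : σ → HZ => Ex (box M) fun j => F (w j * ev (zv n) x))
    (g := fun _ => Ex (box M) fun j => F (w j))
    (IntF.ex (IntF.const _) (by fun_prop)) (IntF.const _) fun n _ => by
      have := h5 F hF _ (ev_mem hg hx (zv n)) 1 (one_mem _)
      simpa only [mul_one, LinearMap.zero_apply, ee_zero, one_mul] using this
  rw [Key.Ex_const' (Key.zero_box hN)] at k2
  exact k1.trans k2

/-- Freezing the outer factors on cells. -/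
theorem mean_cells {σ : Type} [Fintype σ] [DecidableEq σ] (hg : g.Fil D) (hF : Nice Q q g.GG F)
    {N : σ → HZ} (hN : Long Q N) {e y c : PS lv σ HR}
    (he : e ∈ (g.fine σ).PG ⊓ (Sm Q (zv N)).EE lv) (hy : y ∈ (g.fine σ).PG)
    (hc : c ∈ (g.fine σ).PG ⊓ (Rt Q 1).EE lv) {Ψ : (σ → HZ) → HC} (hΨ : IntF Ψ)
    (h : ∀ (n0 M : σ → HZ) (q' : HZ), Mem n0 (box N) → 0 < q' → ci q' ∈ OO Q → Long Q M →
      Sm Q (zv M) = Sm Q (zv N) → TinyC Q ((Ex (box M) fun t : σ → HZ =>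
        F (ev (zv n0) e * ev (zv t) (pg (zv n0) (ci q') y) * ev (zv n0) c)) - Ψ n0)) :
    TinyC Q ((Ex (box N) fun n : σ → HZ => F (ev (zv n) (e * y * c))) - Ex (box N) Ψ) := by
  obtain ⟨r, hr⟩ := exists_denS hc.2
  refine Key.tiny_of_le 4 fun δ hδ => ?_
  have hi := hF.int
  obtain ⟨q', M, q1, q2, hM, hS, hs, hcell⟩ := cell (A := HZ) hg hN (p := fun _ => True)
    (IntP.const _) (Φ := fun _ => F) (by fun_prop) (IntS.const e) (IntS.const y) (IntS.const c)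
    (fun _ _ => ⟨hF, he, hy, hc.1, hr⟩) hδ
  have h1 := Ex_cells (fun l => (hN l).1) (fun l => (hM l).1) q1
    (φ := fun n : σ → HZ => F (ev (zv n) (e * y * c))) (by fun_prop) fun _ => hF.bd _
  have h2 : nm ((Ex (box N) fun a : σ → HZ => Ex (box M) fun t : σ → HZ =>
      F (ev (zv (a + q' • t)) (e * y * c))) - Ex (box N) Ψ) ≤ |δ| + |δ| := by
    refine Key.nm_Ex_sub (IntF.ex (IntF.const _) (by fun_prop)) hΨ (by positivity) fun n0 hn0 => ?_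
    refine (nm_sub_tri _ _ _).trans
      (add_le_add ?_ (Key.le_of_tiny (h n0 M q' hn0 q1 q2 hM hS) hδ))
    exact Key.nm_Ex_sub (by fun_prop) (by fun_prop) (abs_nonneg δ) fun t ht => by
      rw [ev_pg]; exact hcell 0 trivial n0 t hn0 ht
  rw [nm_sub_comm] at h1
  refine (nm_sub_tri _ _ _).trans ((add_le_add h1 h2).trans ?_)
  push_cast
  linarith

end boxes

section lat

variable {a0 r0 c0 p0 : HZ} {x y e γ : PS lv Unit HR}

theorem e1_pg (c z : HZ) (t : Unit → HZ) (x : PS lv Unit HR) :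
    e1 (c * (z + t ())) x = ev (zv t) (pg (fun _ => ci c * ci z) (ci c) x) := by
  rw [ev_pg', e1]
  congr 2
  ext l
  simp only [map_mul, map_add, mul_add, Pi.add_apply, Pi.smul_apply, smul_eq_mul, zv]

theorem e1_mem (hg : g.Fil D) (hx : x ∈ (g.fine Unit).PG) (z : HZ) : e1 z x ∈ g.GG :=
  ev_mem hg hx _

theorem intF_e1 (x : PS lv Unit HR) : IntF fun z : HZ => e1 z x :=
  IntF.ev x (IntF.pi fun _ => by fun_prop)

/-- The lattice as a box, with the scales. -/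
theorem lat_data (hl : Lat Q (ci r0) (ci c0)) (a0 : HZ) : ∃ z M : HZ,
    Long Q (fun _ : Unit => M) ∧ (ci c0 * ci z - ci a0) / ci r0 ∈ OO Q ∧
    (Sm Q fun _ : Unit => ci r0 / ci c0) = Sm Q (zv fun _ : Unit => M) ∧
    ∀ φ : HZ → HC, IntF φ → Ex (lat c0 a0 r0) φ
      = Ex (box fun _ : Unit => M) fun t : Unit → HZ => φ (c0 * (z + t ())) := by
  obtain ⟨z, M, h1, h2, h3, -, h5⟩ := lat_box hl a0
  have hR := hl.len
  have k : ∀ u : HR, |u| ≤ ci c0 → Tiny Q (u / ci r0) := fun u hu => hl.tiny.of_le' (by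
    rw [abs_div, abs_of_pos hR]; exact div_le_div_of_nonneg_right hu hR.le)
  rw [map_mul] at h2 h3
  refine ⟨z, M, h1, (k _ h2).mem_OO, (Sm_congr fun _ => ?_).symm, h5⟩
  have e : zv (fun _ : Unit => M) () / (ci r0 / ci c0) = 1 + (ci c0 * ci M - ci r0) / ci r0 := by
    simp only [zv]
    field_simp [hl.pos.ne', hR.ne']
    ring
  exact e ▸ ⟨big_one.add_tiny (k _ h3), add_mem (one_mem _) (k _ h3).mem_OO⟩

theorem IW.box {n} {M : HZ} (hg : g.Fil D) (hx : x ∈ (g.fine Unit).PG) (hc : 0 < ci c0)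
    (hS : (Sm Q fun _ : Unit => ci r0 / ci c0) = Sm Q (zv fun _ : Unit => M))
    (hi : IW Q (ci r0) (ci c0) g n x) (a : Unit → HR) :
    Irr (Sm Q (zv fun _ : Unit => M)) (Rt Q 1) g n (pg a (ci c0) x) := by
  have := Irr.pg hg hx hi a hc.ne'
  rwa [hS, div_self hc.ne'] at this

/-- Denominators of a rational sequence on its lattice. -/
theorem exists_denW (hγ : γ ∈ LL Q (ci c0) lv) : ∃ r : HR, (r ∈ ZZ ∧ r ∈ OO Q ∧ r ≠ 0) ∧
    (∀ u : HZ, Ent (ZZ : Set HR) (r • (e1 (c0 * u) γ).val) ∧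
      Ent (ZZ : Set HR) (r • (e1 (c0 * u) γ)⁻¹.val)) ∧
    ∀ (q : HR) (q' : HZ), (∃ z ∈ ZZ, ci q' = q * (r * r) * z) → ∀ u v : HZ,
      Lev q ((e1 (c0 * u) γ)⁻¹ * e1 (c0 * (u + q' * v)) γ) := by
  obtain ⟨r, hr⟩ := exists_denS (sb_LL hγ (ci_mem 0))
  have k : ∀ u : HZ,
      e1 (c0 * u) γ = ev (zv fun _ => u) (pg (fun _ => ci c0 * ci 0) (ci c0) γ) := fun u => by
    rw [← e1_pg, zero_add]
  refine ⟨r, hr.1, fun u => k u ▸ hr.ev _, fun q q' hq u v => ?_⟩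
  rw [k, k]
  exact hr.lev hq (fun _ => u) fun _ => v

/-- the mean only depends on the outer factors -/
theorem eqW_mean (_hl : Lat Q (ci r0) (ci c0)) (hg : g.Fil D) (hm : m.Fil D) (hle : m ≤ g)
    (hq : q ∈ ZZ ∧ q ∈ OO Q ∧ q ≠ 0) (hγ : γ ∈ (g.fine Unit).PG ⊓ LL Q (ci c0) lv) :
    ∃ (k : ℕ) (M : Fin k → HZ) (w : (Fin k → HZ) → UT lv HR), (∀ l, 0 < M l) ∧ IntF w ∧
      (∀ j, w j ∈ m.GG) ∧ (∀ j, Mem j (box M) → Ent (OO Q : Set HR) (w j).val) ∧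
      ∀ (p0 : HZ) (F e y), 0 < p0 → Lat Q (ci r0) (ci (c0 * p0)) → Nice Q q g.GG F →
        e ∈ (g.fine Unit).PG ⊓ EA Q (ci a0) (ci r0) lv → y ∈ (m.fine Unit).PG →
        IW Q (ci r0) (ci (c0 * p0)) m ⊥ y →
        TinyC Q ((Ex (lat (c0 * p0) a0 r0) fun z => F (e1 z (e * y * γ)))
          - Ex (lat (c0 * p0) a0 r0) fun z => Ex (box M) fun j => F (e1 z e * w j * e1 z γ)) := by
  obtain ⟨r, hr, hd, -⟩ := exists_denW hγ.2
  obtain ⟨k, M, w, h1, h2, h3, h4, h5⟩ := mean_box hm (lvl_mul hq (lvl_mul hr hr))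
  refine ⟨k, M, w, h1, h2, h3, h4, fun p0 F e y _ hl hF he hy hi => ?_⟩
  obtain ⟨z, N, hN, hz, hS, hE⟩ := lat_data hl a0
  have hFi := hF.int
  have i0 := intF_e1 (lv := lv)
  have i1 : IntF fun z : HZ => Ex (box M) fun j => F (e1 z e * w j * e1 z γ) :=
    IntF.ex (IntF.const _) (hFi.comp ((((i0 e).comp IntF.id.fst).utmul
      (h2.comp IntF.id.snd)).utmul ((i0 γ).comp IntF.id.fst)))
  rw [hE _ (hFi.comp (i0 _)), hE _ i1]
  simp only [e1_pg (c0 * p0) z _ (e * y * γ), map_mul (pg _ _)]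
  have he' := sb_EA hl.len.ne' hl.pos.ne' he.2 hz
  rw [hS] at he'
  have hγ' : γ ∈ LL Q (ci (c0 * p0)) lv := map_mul ci c0 p0 ▸ LL_mono (ci_mem p0) hγ.2
  have hy' := pg_mem hm hy (fun _ => ci (c0 * p0) * ci z) (ci (c0 * p0))
  refine mean_cells hg hF hN ⟨pg_mem hg he.1 _ _, he'⟩ (Fam.PG_mono (Fam.fine_mono hle) hy')
    ⟨pg_mem hg hγ.1 _ _, sb_LL hγ' (ci_mem z)⟩ (i1.comp (by fun_prop))
    fun n0 M' q' hn q1 q2 hM hS' => ?_
  have k1 := ev_OO he' (Key.box_OO hN hn)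
  have k2 := hd (p0 * (z + n0 ()))
  rw [← mul_assoc] at k2
  change Ent _ (ev _ (pg (fun _ => ci (c0 * p0) * ci z) (ci (c0 * p0)) e)).val at k1
  rw [← e1_pg] at k1
  rw [← e1_pg, ← e1_pg]
  exact h5 Unit (fun u => F (e1 (c0 * p0 * (z + n0 ())) e * u * e1 (c0 * p0 * (z + n0 ())) γ)) M' _
    (((hF.right (e1_mem hg hγ.1 _) hr k2.1 k2.2).left (e1_mem hg he.1 _) k1).mono
      (Fam.GG_mono hle)) hM (pg_mem hm hy' _ _)
    (Key.irr_pg hm hN hS' hy' (hi.box hm hy hl.pos hS _) _ q1 q2)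

/-- the same outer factors, two irrational middle factors -/
theorem eqW1 (hl : Lat Q (ci r0) (ci c0)) (hg : g.Fil D) (hm : m.Fil D) (hle : m ≤ g)
    (hF : Nice Q q g.GG F) (he : e ∈ (g.fine Unit).PG ⊓ EA Q (ci a0) (ci r0) lv)
    (hγ : γ ∈ (g.fine Unit).PG ⊓ LL Q (ci c0) lv) {y' : PS lv Unit HR}
    (hy : y ∈ (m.fine Unit).PG) (hy' : y' ∈ (m.fine Unit).PG)
    (hi : IW Q (ci r0) (ci c0) m ⊥ y) (hi' : IW Q (ci r0) (ci c0) m ⊥ y') :
    TinyC Q ((Ex (lat c0 a0 r0) fun z => F (e1 z (e * y * γ)))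
      - Ex (lat c0 a0 r0) fun z => F (e1 z (e * y' * γ))) := by
  obtain ⟨k, M, w, -, -, -, -, h⟩ := eqW_mean (a0 := a0) hl hg hm hle hF.lvl hγ
  have h1 := h 1
  rw [mul_one] at h1
  exact (h1 F e y one_pos hl hF he hy hi).trans (h1 F e y' one_pos hl hF he hy' hi').symm

theorem lat_OO {z : HZ} (hR : 0 < ci r0) (hz : Mem z (lat c0 a0 r0)) :
    (ci z - ci a0) / ci r0 ∈ OO Q := by
  obtain ⟨h1, h2, -⟩ := mem_lat.1 hz
  have h3 := ci_le.2 h1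
  have h4 := ci_lt.2 h2
  rw [map_add] at h4
  refine OO_of_le_one ?_
  rw [abs_of_nonneg (div_nonneg (by linarith) hR.le), div_le_one hR]
  linarith

/-- passage to a sublattice -/
theorem eqW2 (hc : 0 < c0) (hp : Prm Q (ci p0)) (hl : Lat Q (ci r0) (ci (c0 * p0)))
    (hg : g.Fil D) (hm : m.Fil D) (hle : m ≤ g) (hF : Nice Q q g.GG F)
    (he : e ∈ (g.fine Unit).PG ⊓ EA Q (ci a0) (ci r0) lv)
    (hγ : γ ∈ (g.fine Unit).PG ⊓ LL Q (ci c0) lv) (hy : y ∈ (m.fine Unit).PG)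
    (hi : IW Q (ci r0) (ci (c0 * p0)) m ⊥ y) :
    TinyC Q ((Ex (lat (c0 * p0) a0 r0) fun z => F (e1 z (e * y * γ)))
      - Ex (lat c0 a0 r0) fun z => F (e1 z (e * y * γ))) := by
  have hl0 : Lat Q (ci r0) (ci c0) :=
    Lat.of_mul (map_mul ci c0 p0 ▸ hl) ⟨ci_mem _, ci_pos.2 hc⟩ hp.1
  have hp0 : 0 < p0 := ci_pos.1 hp.2.1
  obtain ⟨k, M, w, -, h2, h3, -, h⟩ := eqW_mean (a0 := a0) hl0 hg hm hle hF.lvl hγ
  have h1 := h 1
  rw [mul_one] at h1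
  refine ((h p0 F e y hp0 hl hF he hy hi).trans ?_).trans
    (h1 F e y one_pos hl0 hF he hy (IW.anti (map_mul ci c0 p0 ▸ hi) hp.1)).symm
  obtain ⟨r, hr, -, hd⟩ := exists_denW hγ.2
  have k0 := lvl_mul hF.lvl (lvl_mul hr hr)
  have k1 := lvl_mul k0 k0
  obtain ⟨s, hs⟩ := mem_ZZ.1 k1.1
  have hs0 : 0 < ci s := hs ▸ mul_self_pos.2 k0.2.2
  have hFi := hF.int
  have i0 := intF_e1 (lv := lv)
  have i1 : IntF fun z : HZ × (Fin k → HZ) => F (e1 z.1 e * w z.2 * e1 z.1 γ) :=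
    hFi.comp ((((i0 e).comp IntF.id.fst).utmul (h2.comp IntF.id.snd)).utmul
      ((i0 γ).comp IntF.id.fst))
  have i2 : ∀ z : HZ, IntF fun j : Fin k → HZ => F (e1 z e * w j * e1 z γ) := fun z =>
    i1.comp (f := fun j => (z, j)) (by fun_prop)
  refine slowW hc hp0 (ci_pos.1 hs0) (hp.2.2 _ (ci_mem s) (hs ▸ k1.2.1) hs0.ne')
    ⟨ci_mem _, by rw [map_mul]; exact mul_pos hl.pos hs0, hl.len, by
      rw [map_mul, mul_div_right_comm]; exact hl.tiny.mul (hs ▸ k1.2.1)⟩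
    (IntF.ex (IntF.const _) i1) (fun z => nm_Ex_le (i2 z) zero_le_one fun _ _ => hF.bd _)
    fun z z' hz hz' ⟨v, hv⟩ ht => tinyC_Ex (i2 z) (i2 z') fun j _ => ?_
  obtain ⟨u, rfl⟩ := (mem_lat.1 hz').2.2
  have e1' : z = c0 * (u + s * v) := by rw [mul_add, ← mul_assoc, ← hv, add_sub_cancel]
  have hw := Fam.GG_mono hle (h3 j)
  have a1 := e1_mem hg he.1
  have a2 := e1_mem hg hγ.1
  have t1 := hF.cts _ (mul_mem (a1 z) (inv_mem (a1 (c0 * u))))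
    (ev_EA_tiny hl.len.ne' he.2 (lat_OO hl.len hz) (map_sub ci _ _ ▸ ht)) _
    (mul_mem (mul_mem (a1 (c0 * u)) hw) (a2 z))
  have t2 := hF.per _ (mul_mem (inv_mem (a2 (c0 * u))) (a2 z))
    (e1' ▸ hd q s ⟨_, k0.1, hs⟩ u v) _ (mul_mem (mul_mem (a1 (c0 * u)) hw) (a2 (c0 * u)))
  rw [mul_assoc _ (e1 (c0 * u) γ), mul_inv_cancel_left] at t2
  rw [mul_assoc (e1 (c0 * u) e), mul_assoc (e1 z e), inv_mul_cancel_left, ← mul_assoc,
    ← mul_assoc] at t1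
  exact t1.trans t2

/-- the equidistribution theorem on a window -/
theorem leibW (hl : Lat Q (ci r0) (ci c0)) (hg : g.Fil D) {U ξ} (hc : Cen g U ξ)
    (hξ : ∃ X ∈ U, ξ X ≠ 0) (hF : Nice Q q g.GG F) (he : Eqv Q g.GG U ξ F)
    (hx : x ∈ (g.fine Unit).PG) (hi : IW Q (ci r0) (ci c0) g (U ⊓ LinearMap.ker ξ) x) :
    TinyC Q (Ex (lat c0 a0 r0) fun z => F (e1 z x)) := by
  obtain ⟨z, N, hN, -, hS, hE⟩ := lat_data hl a0
  rw [hE _ (hF.int.comp (intF_e1 x))]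
  simp only [e1_pg c0 z _ x]
  exact leib hg hc hξ hF he hN (pg_mem hg hx _ _) (hi.box hg hx hl.pos hS _)

end lat

end Pool.Agent.P.MP_a14ce1_nt.Nil
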