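import Pool.Agent.P.MP_a14ce1_nt.Nil.XGr
import Pool.Agent.P.MP_a14ce1_nt.Nil.EqW

/-! Extension theorem: a test that does not see the ideal does not see its translates. -/

open Filter Finset MvPolynomial

set_option linter.unusedSectionVars false

noncomputable section

namespace Pool.Agent.P.MP_a14ce1_nt.Nil

variable {ι ι' : Type} [Fintype ι] [DecidableEq ι] [Fintype ι'] [DecidableEq ι'] {lv : ι → ℕ}
  {lv' : ι' → ℕ} {Q : HR} [Fact (2 ≤ Q)] {q : HR} {g r : Fam (KK Q) lv ℕ} {g' : Fam (KK Q) lv' ℕ}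
  {D : ℕ} {n : Submodule HR (Matrix ι ι HR)} {a0 r0 c0 : HZ} {F : UT lv HR → HC}
  {Ψ : UT lv' HR → HC} {w : PS lv' Unit HR}

theorem xend1 (hl : Lat Q (ci r0) (ci c0)) (hg : g.Fil D) (hg' : g'.Fil D) (hr : r.Fil D)
    (hle : r ≤ g) (hF : Nice Q q g.GG F) (hΨ : Nice Q q g'.GG Ψ) (hw : w ∈ (g'.fine Unit).PG)
    {ε x γ e : PS lv Unit HR} (hε : ε ∈ (g.fine Unit).PG ⊓ EA Q (ci a0) (ci r0) lv)
    (hx : x ∈ (r.fine Unit).PG) (hγ : γ ∈ (g.fine Unit).PG ⊓ LL Q (ci c0) lv)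
    (he : e ∈ (r.fine Unit).PG ⊓ EA Q (ci a0) (ci r0) lv) (hi : IW Q (ci r0) (ci c0) r ⊥ x)
    (hb : ¬XBad Q (ci a0) (ci r0) (ci c0) g' r D n w x) {z : UT lv HR} (hz : lg z ∈ n)
    (hO : Ent (OO Q : Set HR) z.val) :
    TinyC Q ((Ex (lat c0 a0 r0) fun t => Ψ (e1 t w) * F (e1 t (ε * x * γ)))
      - Ex (lat c0 a0 r0) fun t => Ψ (e1 t w) * F (e1 t (ε * (e * cst Unit z * e⁻¹) * x * γ))) := by
  obtain ⟨m, hm, mf, -, E, hE, U, hU, Γ, hΓ, h1, h2⟩ := resolveW hl (hg'.prod hr) (idl_bot _)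
    (XG.dg_mem.2 ⟨hw, hx⟩) (ci a0)
  have hf : FW Q (ci a0) (ci r0) (ci c0) (g'.prod r) m (UT.dg (w, x)) :=
    ⟨E, hE, U, ⟨Fam.PG_mono (Fam.fine_mono hm) hU, hU⟩, Γ, hΓ, h1⟩
  have hn : n ≤ m.kr.r 0 := by_contra fun c => hb ⟨m, hm, mf, hf, c⟩
  have hs := (xidl hl hg' hr mf hm hf hi).1
  have ide : (r.fine Unit).Ide (m.kr.fine Unit) := Fam.Ide.comap (g := r) (n := m.kr)
    ⟨hs ▸ m.kr_le_snd, fun _ _ X hX _ hY => m.br_kr (by rwa [hs]) hY⟩ _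
  obtain ⟨e', he', e2, he2, rfl⟩ := XG.split hE.1
  have k1 := dg_mem_EA.1 hE.2
  have k2 : UT.dg (1, e2⁻¹ * (e * cst Unit z * e⁻¹) * e2) ∈
      (m.fine Unit).PG ⊓ EA Q (ci a0) (ci r0) (Sum.elim lv' lv) :=
    ⟨(mem_kr_PG (h := m.fine Unit)).1 (ide.conj' he2 (ide.conj he.1 (cst_mem (g := m.kr) (hn hz)))),
      dg_mem_EA.2 ⟨one_mem _, mul_mem (mul_mem (inv_mem k1.2) (mul_mem (mul_mem
        (show e ∈ EA Q _ _ lv from he.2) (cst_mem_EA.2 hO)) (Subgroup.inv_mem _ he.2))) k1.2⟩⟩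
  have up := Fam.PG_mono (Fam.fine_mono (σ := Unit) (Fam.prod_mono (le_refl g') hle))
  have k3 := (iw_mul mf k2 hU (γ := 1) (one_mem _)).2 h2
  rw [mul_one] at k3
  have := eqW1 (a0 := a0) hl (hg'.prod hg) mf (hm.trans (Fam.prod_mono le_rfl hle)) (hΨ.tens hF)
    (e := UT.dg (1, ε) * UT.dg (e', e2)) (γ := Γ * UT.dg (1, γ))
    (Subgroup.mul_mem _ ⟨XG.dg_mem.2 ⟨one_mem _, hε.1⟩, dg_mem_EA.2 ⟨one_mem _, hε.2⟩⟩
      ⟨up hE.1, hE.2⟩)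
    (Subgroup.mul_mem _ ⟨up hΓ.1, hΓ.2⟩
      ⟨XG.dg_mem.2 ⟨one_mem _, hγ.1⟩, dg_mem_LL.2 ⟨one_mem _, hγ.2⟩⟩)
    hU (mul_mem k2.1 hU) h2 k3
  have hU' : U = (UT.dg (e', e2))⁻¹ * UT.dg (w, x) * Γ⁻¹ := by rw [h1]; group
  have a1 : UT.dg (1, ε) * UT.dg (e', e2) * U * (Γ * UT.dg (1, γ)) = UT.dg (w, ε * x * γ) := by
    rw [hU', show ∀ a b c d f : PS (Sum.elim lv' lv) Unit HR,
      a * b * (b⁻¹ * c * d⁻¹) * (d * f) = a * c * f from fun _ _ _ _ _ => by group]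
    simp only [UT.dg_mul, one_mul, mul_one]
  have a2 : UT.dg (1, ε) * UT.dg (e', e2) *
      (UT.dg (1, e2⁻¹ * (e * cst Unit z * e⁻¹) * e2) * U) * (Γ * UT.dg (1, γ))
      = UT.dg (w, ε * (e * cst Unit z * e⁻¹) * x * γ) := by
    rw [hU', show ∀ a b s c d f : PS (Sum.elim lv' lv) Unit HR,
      a * b * (s * (b⁻¹ * c * d⁻¹)) * (d * f) = a * b * s * b⁻¹ * c * f from
        fun _ _ _ _ _ _ => by group]
    simp only [UT.dg_inv, UT.dg_mul, UT.dg_inj]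
    exact ⟨by group, by group⟩
  have a3 : ∀ (t : HZ) (u : PS lv Unit HR), e1 t (UT.dg (w, u)) = UT.dg (e1 t w, e1 t u) :=
    fun t u => ev_dg _ _ _
  simpa only [a1, a2, a3, UT.p1_dg, UT.p2_dg] using this

end Pool.Agent.P.MP_a14ce1_nt.Nil
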