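import Pool.Agent.P.MP_a14ce1_nt.Nil.XGr
import Pool.Agent.P.MP_a14ce1_nt.Nil.EqW

/-! Extension theorem: averaging over the ideal removes the moving factors. -/

open Filter Finset MvPolynomial

set_option linter.unusedSectionVars false

noncomputable section

namespace Pool.Agent.P.MP_a14ce1_nt.Nil

variable {ι : Type} [Fintype ι] [DecidableEq ι] {lv : ι → ℕ} {Q : HR} [Fact (2 ≤ Q)]
  {A R q : HR} {g r : Fam (KK Q) lv ℕ} {D : ℕ} {n : Submodule HR (Matrix ι ι HR)} {p0 : HZ}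

theorem xend2 (hR : R ≠ 0) (hp : Prm Q (ci p0)) (hq : q ∈ ZZ ∧ q ∈ OO Q ∧ q ≠ 0) (hg : g.Fil D)
    (hr : r.Fil D) (hle : r ≤ g) (hn : r.Idl n) {ε x γ y : PS lv Unit HR}
    (hε : ε ∈ (g.fine Unit).PG ⊓ EA Q A R lv) (hγ : γ ∈ (g.fine Unit).PG ⊓ LL Q (ci p0) lv)
    (hy : y ∈ (r.fine Unit).PG) (hs : XSt Q A R (ci p0) r n y x) :
    ∃ e ∈ (r.fine Unit).PG ⊓ EA Q A R lv, ∃ γ' ∈ (g.fine Unit).PG ⊓ LL Q 1 lv,
      ∃ (k : ℕ) (M : Fin k → HZ) (z : (Fin k → HZ) → UT lv HR), (∀ l, 0 < M l) ∧ IntF z ∧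
        (∀ j, lg (z j) ∈ n) ∧ (∀ j, Mem j (box M) → Ent (OO Q : Set HR) (z j).val) ∧
        ∀ F, Nice Q q g.GG F → ∀ t : HZ, p0 ∣ t → (ci t - A) / R ∈ OO Q →
          TinyC Q ((Ex (box M) fun j => F (e1 t (ε * (e * cst Unit (z j) * e⁻¹) * x * γ)))
            - Ex (box M) fun j => F (e1 t (ε * e * cst Unit (z j) * y * γ'))) := by
  obtain ⟨e, he, μ, hμ, hμn, c, hc, rfl⟩ := hs
  have up := Fam.PG_mono (Fam.fine_mono (σ := Unit) hle)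
  obtain ⟨γ', h1, h2, lam, h3, h4, h5⟩ := bezout2' (g.fine Unit) hp hq
    (Subgroup.mul_mem _ ⟨up hc.1, hc.2⟩ hγ)
  obtain ⟨d, hd, hd', -⟩ := exists_denW (c0 := 1) (γ := γ') (by rwa [map_one])
  obtain ⟨k, M, z, z1, z2, z3, z4, z5⟩ := avg_ideal (lvl_mul hq (lvl_mul hd hd)) hn
  refine ⟨e, he, γ', ⟨h1.1, h2⟩, k, M, z, z1, z2, z3, z4, fun F hF t ht hO => ?_⟩
  have hE : ε * e ∈ (g.fine Unit).PG ⊓ EA Q A R lv := Subgroup.mul_mem _ hε ⟨up he.1, he.2⟩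
  have k1 := hd' t
  rw [one_mul] at k1
  have hc' : (XG.cut hr hn).Fil D := ⟨congrArg (· ⊓ n) hr.zero,
    fun i => inf_le_inf_right _ (hr.anti i), le_bot_iff.1 (inf_le_left.trans hr.bd.le)⟩
  have k2 := z5 _ (((hF.right (e1_mem hg h1.1 t) hd k1.1 k1.2).left (e1_mem hg hE.1 t)
    (ev_EA hR hE.2 hO)).mono (Fam.GG_mono hle)) (e1 t (y * μ * y⁻¹))
    (e1_mem hc' ((XG.cut_ide hr hn).conj hy fun β => ⟨hμ β, hμn β⟩) t).2 _ (e1_mem hr hy t)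
  have ec : ∀ a : UT lv HR, e1 t (cst Unit a) = a := fun a => ev_cst _ _
  rw [LinearMap.zero_apply, ee_zero, one_mul] at k2
  have e2 : ∀ j, e1 t (ε * e * cst Unit (z j) * y * γ')
      = e1 t (ε * e) * (z j * e1 t y) * e1 t γ' := fun j => by
    simp only [map_mul, ec, mul_assoc]
  have e3 : ∀ j, e1 t (ε * (e * cst Unit (z j) * e⁻¹) * (e * y * μ * c) * γ)
      = e1 t (ε * e) * (z j * (e1 t (y * μ * y⁻¹) * e1 t y)) * e1 t γ' * e1 t lam := fun j => by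
    rw [show ε * (e * cst Unit (z j) * e⁻¹) * (e * y * μ * c) * γ
      = ε * e * (cst Unit (z j) * (y * μ * y⁻¹ * y)) * (c * γ) by group, h4]
    simp only [map_mul, ec, mul_assoc]
  simp only [e2, e3]
  have hi := hF.int
  refine TinyC.trans (tinyC_Ex (by fun_prop) (by fun_prop) fun j _ =>
    hF.per _ (e1_mem hg h3.1 t) (h5 t ht) _ ?_) k2
  exact mul_mem (mul_mem (e1_mem hg hE.1 t) (mul_mem (hle 0 (hn.le (z3 j))) (mul_mem
    (e1_mem hg (up (mul_mem (mul_mem hy hμ) (inv_mem hy))) t) (e1_mem hg (up hy) t))))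
    (e1_mem hg h1.1 t)

end Pool.Agent.P.MP_a14ce1_nt.Nil
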