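import Pool.Agent.P.MP_a14ce1_nt.Nil.XD
import Pool.Agent.P.MP_a14ce1_nt.Nil.EqW

/-!
Extension theorem: passage to a sublattice for a stable pair.
-/

set_option linter.unusedSectionVars false

noncomputable section

namespace Pool.Agent.P.MP_a14ce1_nt.Nil

variable {ι ι' : Type} [Fintype ι] [DecidableEq ι] [Fintype ι'] [DecidableEq ι'] {lv : ι → ℕ}
  {lv' : ι' → ℕ} {Q : HR} [Fact (2 ≤ Q)] {q : HR} {g r : Fam (KK Q) lv ℕ} {g' : Fam (KK Q) lv' ℕ}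
  {D : ℕ} {a0 r0 c0 p0 : HZ} {F : UT lv HR → HC} {Ψ : UT lv' HR → HC} {w : PS lv' Unit HR}

theorem xend3 (hc : 0 < c0) (hp : Prm Q (ci p0)) (hl : Lat Q (ci r0) (ci (c0 * p0)))
    (hg : g.Fil D) (hg' : g'.Fil D) (_hr : r.Fil D) (hle : r ≤ g) (hF : Nice Q q g.GG F)
    (hΨ : Nice Q q g'.GG Ψ) {ε y γ : PS lv Unit HR}
    (hε : ε ∈ (g.fine Unit).PG ⊓ EA Q (ci a0) (ci r0) lv)
    (hγ : γ ∈ (g.fine Unit).PG ⊓ LL Q 1 lv)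
    (hs : XStab Q (ci a0) (ci r0) (ci c0) (ci c0 * ci p0) (g'.prod r) D (UT.dg (w, y))) :
    TinyC Q ((Ex (lat (c0 * p0) a0 r0) fun t => Ψ (e1 t w) * F (e1 t (ε * y * γ)))
      - Ex (lat c0 a0 r0) fun t => Ψ (e1 t w) * F (e1 t (ε * y * γ))) := by
  obtain ⟨h, h1, hh, e, he, u, hu, c, hc', E, hi⟩ := hs
  have l1 : g'.prod r ≤ g'.prod g := Fam.prod_mono le_rfl hle
  have l2 := Fam.PG_mono (Fam.fine_mono (σ := Unit) l1)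
  have m1 : ∀ x ∈ (g.fine Unit).PG, UT.dg ((1 : PS lv' Unit HR), x) ∈ ((g'.prod g).fine Unit).PG :=
    fun x hx => by rw [Fam.prod_fine]; exact Fam.dg_mem_prod_PG.2 ⟨one_mem _, hx⟩
  have k := eqW2 (a0 := a0) hc hp hl (hg'.prod hg) hh (h1.trans l1) (hΨ.tens hF)
    (e := UT.dg (1, ε) * e) (γ := c * UT.dg (1, γ))
    ⟨mul_mem (m1 ε hε.1) (l2 he.1), mul_mem (dg_mem_EA.2 ⟨one_mem _, hε.2⟩) he.2⟩
    ⟨mul_mem (l2 hc'.1) (m1 γ hγ.1), mul_mem hc'.2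
      (dg_mem_LL.2 ⟨one_mem _, one_mul (ci c0) ▸ LL_mono (ci_mem c0) hγ.2⟩)⟩ hu
    (map_mul ci c0 p0 ▸ hi)
  have e2 : UT.dg (1, ε) * e * u * (c * UT.dg (1, γ)) = UT.dg (w, ε * y * γ) := by
    rw [show UT.dg (1, ε) * e * u * (c * UT.dg (1, γ)) = UT.dg (1, ε) * (e * u * c) * UT.dg (1, γ)
      by group, ← E, UT.dg_mul, UT.dg_mul, one_mul, mul_one]
  have e3 : ∀ (t : HZ) (x : PS lv Unit HR), e1 t (UT.dg (w, x)) = UT.dg (e1 t w, e1 t x) :=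
    fun t x => ev_dg _ _ _
  simpa only [e2, e3, UT.p1_dg, UT.p2_dg] using k

end Pool.Agent.P.MP_a14ce1_nt.Nil
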