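import Pool.Agent.P.MP_a14ce1_nt.Nil.Avg

/-! Generic points of dense sets. -/

open Filter
open scoped BigOperators

set_option linter.unusedSectionVars false

noncomputable section

namespace Pool.Agent.P.MP_a14ce1_nt.Nil

variable {A S B S' : Type} [NS A S] [NS B S'] {Q : HR} [hQ : Fact (2 ≤ Q)]

theorem Dense.int {T : Ns (Finset S)} {p : A → Prop} (h : Dense Q T p) :
    ∃ H : Ns (Finset S), (∀ a, Mem a H → Mem a T ∧ p a) ∧ Dense Q T fun a : A => Mem a H :=
  let ⟨H, h1, h2⟩ := h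
  ⟨H, h1, H, fun a ha => ⟨(h1 a ha).1, ha⟩, h2⟩

theorem Dense.prodd {T : Ns (Finset S)} {T' : Ns (Finset S')} {p : A → Prop} {q : B → Prop}
    (h : Dense Q T p) (h' : Dense Q T' q) :
    Dense Q (fprod T T') fun z : A × B => p z.1 ∧ q z.2 := by
  obtain ⟨H, h1, h2⟩ := h
  obtain ⟨K, h3, h4⟩ := h'
  refine ⟨fprod H K, fun z hz => ?_, ?_⟩
  · obtain ⟨a, b⟩ := mem_fprod.1 hz
    exact ⟨mem_fprod.2 ⟨(h1 _ a).1, (h3 _ b).1⟩, (h1 _ a).2, (h3 _ b).2⟩
  · rw [cd_fprod, cd_fprod, mul_div_mul_comm]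
    exact h2.mul h4

theorem Dense.sq {T : Ns (Finset S)} {p : A → Prop} (h : Dense Q T p) :
    Dense Q (fprod T T) fun z : A × A => p z.1 ∧ p z.2 := h.prodd h

/-- two tests serve a dense set -/
theorem Dense.pair {T : Ns (Finset S)} {T' : Ns (Finset S')} {p : A × B → Prop}
    (h : Dense Q (fprod T T') p) :
    Dense Q (fprod T (fprod T' T')) fun z : A × B × B => p (z.1, z.2.1) ∧ p (z.1, z.2.2) := by
  obtain ⟨H, h1, h2⟩ := h.int
  exact (Dense.prod (p := fun z : A × B × B => Mem (z.1, z.2.1) H ∧ Mem (z.1, z.2.2) H)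
    ((IntP.mem (by fun_prop) (IntF.const H)).and (IntP.mem (by fun_prop) (IntF.const H))).sig
    (h2.fub.mono fun a _ ha => ha.sq)).mono fun z _ hz => ⟨(h1 _ hz.1).2, (h1 _ hz.2).2⟩

theorem exists_bad (T : Ns (Finset S)) (T' : Ns (Finset S')) {r : A → B → Prop}
    (hr : IntP fun z : A × B => r z.1 z.2) {η : HR} (hη : Big Q η) (h0 : 0 < η) :
    ∃ W : Ns (Finset S), cd W / cd T ≤ η ∧ ∀ a, Mem a T → ¬Mem a W → ∀ G : Ns (Finset S'),
      (∀ b, Mem b G → Mem b T' ∧ r a b ∧ ¬Dense Q T fun a' => r a' b) → cd G / cd T' ≤ η := by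
  classical
  obtain ⟨E, hE, h1⟩ := IntP.filter' (p := fun (b : B) (a : A) => r a b)
    (hr.comp (f := fun z : B × A => (z.2, z.1)) (by fun_prop)) (IntF.const T)
  obtain ⟨F, hF, h2⟩ := IntP.filter' (p := fun (a : A) (b : B) => r a b ∧ cd (E b) / cd T ≤ η * η)
    (hr.and (IntP.le (by fun_prop) (by fun_prop))) (IntF.const T')
  have hd : IntF fun a => cd (F a) / cd T' := by fun_prop
  obtain ⟨W, h3⟩ := (IntP.lt (IntF.const η) hd).filter T
  have hi : IntF fun z : A × B => if Mem z.2 (F z.1) then (1 : HR) else 0 :=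
    IntF.ite (IntP.mem (by fun_prop) (by fun_prop)) (IntF.const _) (IntF.const _)
  refine ⟨W, le_of_mul_le_mul_right ?_ h0, fun a ha hW G hG => ?_⟩
  · rw [← Ex_ite_const fun a ha => ((h3 a).1 ha).1]
    refine (Ex_mono ((IntF.const η).ite_mem (IntF.const 0) W) hd fun a _ => ?_).trans ?_
    · split_ifs with c
      exacts [((h3 a).1 c).2.le, cd_div_nonneg _ _]
    have e : ∀ a, cd (F a) / cd T' = Ex T' fun b : B => if Mem b (F a) then (1 : HR) else 0 :=
      fun a => by rw [Ex_ite_const fun b hb => ((h2 a b).1 hb).1, mul_one]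
    simp only [e]
    rw [Ex_comm' hi]
    refine Ex_le (IntF.ex (IntF.const T) (hi.comp (f := fun z : B × A => (z.2, z.1)) (by fun_prop)))
      (mul_self_nonneg η) fun b _ => ?_
    by_cases c : cd (E b) / cd T ≤ η * η
    · refine le_trans ?_ c
      rw [← mul_one (cd (E b) / cd T), ← Ex_ite_const fun a ha => ((h1 b a).1 ha).1]
      refine Ex_mono (hi.curry' b) ((IntF.const 1).ite_mem (IntF.const 0) _) fun a ha => ?_
      split_ifs with c1 c2
      exacts [le_rfl, absurd ((h1 b a).2 ⟨ha, ((h2 a b).1 c1).2.1⟩) c2, zero_le_one, le_rfl]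
    · exact Ex_le (hi.curry' b) (mul_self_nonneg η) fun a _ => by
        rw [if_neg fun c' => c ((h2 a b).1 c').2.2]; exact mul_self_nonneg η
  · refine le_trans (div_le_div_of_nonneg_right (cd_mono fun (b : B) hb => ?_) (cd_nonneg _))
      (not_lt.1 fun c => hW ((h3 a).2 ⟨ha, c⟩))
    obtain ⟨b1, b2, b3⟩ := hG b hb
    exact (h2 a b).2 ⟨b1, b2, (Tiny.lt' (mt (dense_iff (h1 b)).2 b3) (hη.mul hη)
      (mul_self_nonneg η)).le⟩

theorem sum_inv_Q_pow (m : ℕ) : ∑ i ∈ Finset.range m, (Q ^ (i + 2))⁻¹ ≤ 1 / 2 := by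
  have : ∑ i ∈ Finset.range m, ((2 : HR) ^ (i + 2))⁻¹ = 1 / 2 - (2 ^ (m + 1))⁻¹ := by
    induction m with
    | zero => norm_num
    | succ m ih => rw [Finset.sum_range_succ, ih]; field_simp; ring
  refine (Finset.sum_le_sum fun i _ => inv_anti₀ (by positivity)
    (pow_le_pow_left₀ zero_le_two hQ.out _)).trans (this.le.trans (sub_le_self _ (by positivity)))

/-- A point of a dense set that is generic for countably many conditions. -/
theorem exists_good {T : Ns (Finset S)} {T' : Ns (Finset S')} {J : Type} [Countable J]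
    {s : J → A → B → Prop} (hs : ∀ j, Sig fun z : A × B => s j z.1 z.2) {p : A → Prop}
    (h : Dense Q T p) : ∃ a, Mem a T ∧ p a ∧
      ∀ j, ¬Dense Q T' fun b => s j a b ∧ ¬Dense Q T fun a' => s j a' b := by
  rcases isEmpty_or_nonempty J with h0 | h0
  · exact h.exists.imp fun a ha => ⟨ha.1, ha.2, fun j => h0.elim j⟩
  obtain ⟨H, h1, h2⟩ := h
  choose P hP hs using hs
  obtain ⟨e, he⟩ := exists_surjective_nat (J × ℕ)
  have hδ := h2.pos (cd_div_nonneg H T)
  choose W h3 h4 using fun k : ℕ => exists_bad T T'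
    (r := fun (a : A) (b : B) => P (e k.unpair.1).1 (e k.unpair.1).2 (a, b)) (hP _ _)
    (h2.mul (Big.inv_pow (k + 2))) (mul_pos hδ (inv_pos.2 (Q_pow_pos _)))
  obtain ⟨a, ha⟩ := exists_forall (P := fun k (a : A) => Mem a H ∧ ¬Mem a (W k))
    (fun k => (IntP.mem IntF.id (IntF.const _)).and (IntP.mem IntF.id (IntF.const _)).not)
    fun m => by
      by_contra c
      have h5 := div_le_div_of_nonneg_right (cd_le_sum (H := H) (Finset.range (m + 1)) W
        fun (a : A) ha => by_contra fun c' => c ⟨a, fun i hi =>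
          ⟨ha, fun hw => c' ⟨i, Finset.mem_range.2 (Nat.lt_succ_of_le hi), hw⟩⟩⟩) (cd_nonneg T)
      rw [Finset.sum_div] at h5
      have h6 := h5.trans (Finset.sum_le_sum fun i _ => h3 i)
      rw [← Finset.mul_sum] at h6
      have h7 := mul_le_mul_of_nonneg_left (sum_inv_Q_pow (Q := Q) (m + 1)) hδ.le
      linarith
  refine ⟨a, (h1 a (ha 0).1).1, (h1 a (ha 0).1).2, fun j hj => ?_⟩
  obtain ⟨C, G, h5, h6⟩ := Dense.any (p := fun b => ¬Dense Q T fun a' => s j a' b)
    (q := fun C b => P j C (a, b)) (fun C => ((hP j C).comp (by fun_prop)).sig)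
    (hj.mono fun b _ hb => ⟨hb.2, (hs j (a, b)).1 hb.1⟩)
  obtain ⟨i, hi⟩ := he (j, C)
  refine Tiny.of_forall (fun m => ?_) h6
  rw [abs_of_nonneg (cd_div_nonneg _ _)]
  refine (h4 (i.pair m) a (h1 a (ha 0).1).1 (ha _).2 G fun b hb => ?_).trans
    ((mul_le_of_le_one_left (inv_pos.2 (Q_pow_pos _)).le
      (cd_div_le_one fun a ha => (h1 a ha).1)).trans (inv_anti₀ (Q_pow_pos m)
        (Q_pow_mono ((Nat.right_le_pair i m).trans (Nat.le_add_right _ 2)))))
  simp only [Nat.unpair_pair, hi]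
  exact ⟨(h5 b hb).1, (h5 b hb).2.2, fun c => (h5 b hb).2.1
    (c.mono fun a' _ h => (hs j (a', b)).2 ⟨C, h⟩)⟩

end Pool.Agent.P.MP_a14ce1_nt.Nil
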