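import Pool.Agent.P.MP_a14ce1_nt.Nil.WinB
import Pool.Agent.P.MP_a14ce1_nt.Nil.PigF

/-!
Pigeonholing with a window and a lattice that depend on the parameter.
-/

open Filter Finset MvPolynomial
open scoped BigOperators

set_option linter.unusedSectionVars false

noncomputable section

namespace Pool.Agent.P.MP_a14ce1_nt.Nil

variable {A S B S' : Type} [NS A S] [NS B S']
  {ι : Type} [Fintype ι] [DecidableEq ι] {lv : ι → ℕ} {Q : HR} [Fact (2 ≤ Q)]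
  {g m : Fam (KK Q) lv ℕ} {D : ℕ} {n : Submodule HR (Matrix ι ι HR)}

/-! ### Scales that depend on the parameter -/

section scale
variable {σ : Type}

theorem Sig.EEv {K : Subfield HR} {T : A → Sc K σ}
    (hT : ∀ β, Sig fun z : A × HR => z.2 ∈ (T z.1).s β) {x : A → PS lv σ HR} (hx : IntS x) :
    Sig fun a => x a ∈ (T a).EE lv := by
  obtain ⟨s, hs⟩ := hx.lgM.supp
  refine (Sig.ball s.finite_toSet fun β => Sig.all fun i => Sig.all fun j =>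
    (hT β).comp (IntF.id.prodMk ((hx.co_lg β).ent i j))).congr
    fun a => Sc.mem_EE.trans ⟨fun h β _ => h β, fun h β => ?_⟩
  by_cases c : β ∈ s
  · exact h β c
  · rw [hs a β c]; exact fun _ _ => zero_mem _

theorem Sig.smv [Finite σ] {N : A → σ → HR} (hN : IntF N) (β : σ →₀ ℕ) {f : A → HR}
    (hf : IntF f) : Sig fun a => f a ∈ (Sm Q (N a)).s β :=
  Sig.memOO (hf.mul (IntF.prod fun l => (hN.coord l).pow _))

theorem Sig.rtv [Finite σ] {w : A → σ → HR} (hw : IntF w) (β : σ →₀ ℕ) {f : A → HR}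
    (hf : IntF f) : Sig fun a => f a ∈ (Rt Q (w a)).s β :=
  Sig.memRT (hf.mul (IntF.prod fun l => (hw.coord l).pow _))

theorem Sig.supv [Finite σ] {N w : A → σ → HR} (hN : IntF N) (hw : IntF w) (β : σ →₀ ℕ)
    {f : A → HR} (hf : IntF f) : Sig fun a => f a ∈ (Sm Q (N a)).s β ⊔ (Rt Q (w a)).s β :=
  (Sig.ex (r := fun a (y : HR) => y ∈ (Sm Q (N a)).s β ∧ f a - y ∈ (Rt Q (w a)).s β)
    ((Sig.smv (hN.comp IntF.id.fst) β IntF.id.snd).and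
      (Sig.rtv (hw.comp IntF.id.fst) β ((hf.comp IntF.id.fst).sub IntF.id.snd)))).congr fun a => by
    rw [Submodule.mem_sup]
    exact exists_congr fun y => and_congr_right fun _ =>
      ⟨fun ⟨u, hu, e⟩ => by rwa [← e, add_sub_cancel_left], fun h => ⟨_, h, add_sub_cancel _ _⟩⟩

theorem Sig.coefV [Fintype σ] {N w : A → σ → HR} (hN : IntF N) (hw : IntF w) (i : ℕ)
    {x : A → PS lv σ HR} (hx : IntS x) {κ : A → Matrix ι ι HR} (hκ : IntF κ) :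
    Sig fun a => ∀ β : σ →₀ ℕ, β.degree = i →
      fn (κ a) (co β (lg (x a))) ∈ (Sm Q (N a)).s β ⊔ (Rt Q (w a)).s β :=
  Sig.ball (s := {β : σ →₀ ℕ | β.degree = i}) ((fin_deg i).subset fun _ h => le_of_eq h)
    fun β => Sig.supv hN hw β (hκ.fn (hx.co_lg β))

theorem SigF.not_irrV [Fintype σ] [DecidableEq σ] (s : Finset ℕ) (n) {N w : A → σ → HR}
    (hN : IntF N) (hw : IntF w) {x : A → PS lv σ HR} (hx : IntS x) :
    SigF s fun a (h : Fam (KK Q) lv ℕ) => ¬Irr (Sm Q (N a)) (Rt Q (w a)) h n (x a) :=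
  (SigF.any fun i => SigF.exI (P := fun a κ h => Adm h n i (fn κ) ∧ ∀ β : σ →₀ ℕ, β.degree = i →
      fn κ (co β (lg (x a))) ∈ (Sm Q (N a)).s β ⊔ (Rt Q (w a)).s β)
    ((SigF.adm s n i IntF.id.snd).and (SigF.of_sig (Sig.coefV (hN.comp IntF.id.fst)
      (hw.comp IntF.id.fst) i (hx.comp IntF.id.fst) IntF.id.snd)))).congr
    fun _ _ _ => not_irr_iff

theorem Sig.not_irrV [Fintype σ] [DecidableEq σ] (g : Fam (KK Q) lv ℕ) (n) {N w : A → σ → HR}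
    (hN : IntF N) (hw : IntF w) {x : A → PS lv σ HR} (hx : IntS x) :
    Sig fun a => ¬Irr (Sm Q (N a)) (Rt Q (w a)) g n (x a) :=
  (Sig.any fun i => Sig.ex (r := fun a κ => Adm g n i (fn κ) ∧ ∀ β : σ →₀ ℕ, β.degree = i →
      fn κ (co β (lg (x a))) ∈ (Sm Q (N a)).s β ⊔ (Rt Q (w a)).s β)
    ((Sig.adm g n i IntF.id.snd).and (Sig.coefV (hN.comp IntF.id.fst) (hw.comp IntF.id.fst) i
      (hx.comp IntF.id.fst) IntF.id.snd))).congr fun _ => not_irr_iff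

end scale

/-! ### Windows and lattices that depend on the parameter -/

section var
variable {u r c : A → HR} {x e γ : A → PS lv Unit HR}

theorem Sig.inEA (hu : IntF u) (hr : IntF r) (hx : IntS x) :
    Sig fun a => x a ∈ EA Q (u a) (r a) lv :=
  (Sig.EEv (T := fun a => Sm Q fun _ : Unit => r a)
    (fun β => Sig.smv (IntF.pi fun _ => hr.comp IntF.id.fst) β IntF.id.snd)
    (hx.sh' (h := fun a _ => u a) fun _ => hu)).congr fun _ => Nil.mem_EA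

theorem Sig.inLL (hc : IntF c) (hx : IntS x) : Sig fun a => x a ∈ LL Q (c a) lv :=
  (Sig.EEv (T := fun a => Rt Q fun _ : Unit => c a)
    (fun β => Sig.rtv (IntF.pi fun _ => hc.comp IntF.id.fst) β IntF.id.snd) hx).congr
    fun _ => Nil.mem_LL

theorem fw_iff_ex {A0 R c : HR} {x : PS lv Unit HR} : FW Q A0 R c g m x ↔
    ∃ e ∈ (g.fine Unit).PG, e ∈ EA Q A0 R lv ∧ ∃ γ ∈ (g.fine Unit).PG, γ ∈ LL Q c lv ∧
      x ∈ (g.fine Unit).PG ∧ lg (e⁻¹ * x * γ⁻¹) ∈ pm fun β : Unit →₀ ℕ => m.r β.degree :=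
  ⟨fun a => by
    have hx := a.mem
    obtain ⟨e, he, y, hy, c, hc, rfl⟩ := a
    refine ⟨e, he.1, he.2, c, hc.1, hc.2, hx, ?_⟩
    rw [show e⁻¹ * (e * y * c) * c⁻¹ = y by group]
    exact hy.2,
  fun ⟨e, h1, h2, c, h3, h4, h5, h6⟩ => ⟨e, ⟨h1, h2⟩, e⁻¹ * x * c⁻¹,
    ⟨(g.fine Unit).PG.mul_mem ((g.fine Unit).PG.mul_mem (inv_mem h1) h5) (inv_mem h3), h6⟩, c,
    ⟨h3, h4⟩, by group⟩⟩

theorem sig_fw_in (g : Fam (KK Q) lv ℕ) (hc : IntF c)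
    {V : A → ℕ → Submodule HR (Matrix ι ι HR)} (hV : ∀ i, IntV fun a => V a i)
    (hx : IntS x) (he : IntS e) (hγ : IntS γ) :
    Sig fun a => γ a ∈ LL Q (c a) lv ∧ x a ∈ (g.fine Unit).PG ∧
      lg ((e a)⁻¹ * x a * (γ a)⁻¹) ∈ pm fun β : Unit →₀ ℕ => V a β.degree :=
  (Sig.inLL hc hγ).and ((hx.PG _).and
    (IntV.pm (fun β => hV β.degree) ((he.inv.mul hx).mul hγ.inv).lgM)).sig

theorem sig_fw_mid (hg : g.Fil D) (hu : IntF u) (hr : IntF r) (hc : IntF c)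
    {V : A → ℕ → Submodule HR (Matrix ι ι HR)} (hV : ∀ i, IntV fun a => V a i)
    (hx : IntS x) (he : IntS e) :
    Sig fun a => e a ∈ EA Q (u a) (r a) lv ∧ ∃ γ ∈ (g.fine Unit).PG, γ ∈ LL Q (c a) lv ∧
      x a ∈ (g.fine Unit).PG ∧ lg ((e a)⁻¹ * x a * γ⁻¹) ∈ pm fun β : Unit →₀ ℕ => V a β.degree :=
  (Sig.inEA hu hr he).and (Sig.exS hg.fine_bd (r := fun a γ => γ ∈ LL Q (c a) lv ∧
    x a ∈ (g.fine Unit).PG ∧ lg ((e a)⁻¹ * x a * γ⁻¹) ∈ pm fun β : Unit →₀ ℕ => V a β.degree)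
    (sig_fw_in g (hc.comp IntF.id.fst) (fun i => (hV i).comp IntF.id.fst)
      (hx.comp IntF.id.fst) (he.comp IntF.id.fst) (IntS.dec _ IntF.id.snd)))

theorem sig_fw_out (hg : g.Fil D) (hu : IntF u) (hr : IntF r) (hc : IntF c)
    {V : A → ℕ → Submodule HR (Matrix ι ι HR)} (hV : ∀ i, IntV fun a => V a i) (hx : IntS x) :
    Sig fun a => ∃ e ∈ (g.fine Unit).PG, e ∈ EA Q (u a) (r a) lv ∧ ∃ γ ∈ (g.fine Unit).PG,
      γ ∈ LL Q (c a) lv ∧ x a ∈ (g.fine Unit).PG ∧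
      lg (e⁻¹ * x a * γ⁻¹) ∈ pm fun β : Unit →₀ ℕ => V a β.degree :=
  Sig.exS hg.fine_bd (r := fun a e => e ∈ EA Q (u a) (r a) lv ∧ ∃ γ ∈ (g.fine Unit).PG,
    γ ∈ LL Q (c a) lv ∧ x a ∈ (g.fine Unit).PG ∧
      lg (e⁻¹ * x a * γ⁻¹) ∈ pm fun β : Unit →₀ ℕ => V a β.degree)
    (sig_fw_mid hg (hu.comp IntF.id.fst) (hr.comp IntF.id.fst) (hc.comp IntF.id.fst)
      (fun i => (hV i).comp IntF.id.fst) (hx.comp IntF.id.fst) (IntS.dec _ IntF.id.snd))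

theorem SigF.fwV (hg : g.Fil D) (hu : IntF u) (hr : IntF r) (hc : IntF c) (hx : IntS x)
    (s : Finset ℕ) : SigF s fun a m => FW Q (u a) (r a) (c a) g m (x a) :=
  (SigF.of_r (P := fun a V => ∃ e ∈ (g.fine Unit).PG, e ∈ EA Q (u a) (r a) lv ∧
      ∃ γ ∈ (g.fine Unit).PG, γ ∈ LL Q (c a) lv ∧ x a ∈ (g.fine Unit).PG ∧
      lg (e⁻¹ * x a * γ⁻¹) ∈ pm fun β : Unit →₀ ℕ => V β.degree) fun _ _ _ _ _ hf hV _ =>
    sig_fw_out hg (hu.comp hf) (hr.comp hf) (hc.comp hf) hV (hx.comp hf)).congr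
    fun _ _ _ => fw_iff_ex

theorem Sig.fwV (hg : g.Fil D) (hu : IntF u) (hr : IntF r) (hc : IntF c) (hx : IntS x)
    (m : Fam (KK Q) lv ℕ) : Sig fun a => FW Q (u a) (r a) (c a) g m (x a) :=
  (sig_fw_out hg hu hr hc (fun i => IntV.const (m.r i)) hx).congr fun _ => fw_iff_ex

theorem SigF.not_iwV (s : Finset ℕ) (n) (hr : IntF r) (hc : IntF c) (hx : IntS x) :
    SigF s fun a (h : Fam (KK Q) lv ℕ) => ¬IW Q (r a) (c a) h n (x a) :=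
  SigF.not_irrV s n (IntF.pi fun _ => hr) (IntF.pi fun _ => hc) hx

theorem Sig.not_iwV (g : Fam (KK Q) lv ℕ) (n) (hr : IntF r) (hc : IntF c) (hx : IntS x) :
    Sig fun a => ¬IW Q (r a) (c a) g n (x a) :=
  Sig.not_irrV g n (IntF.pi fun _ => hr) (IntF.pi fun _ => hc) hx

theorem Dense.fwV {T : Ns (Finset S)} (hg : g.Fil D) (hu : IntF u) (hr : IntF r) (hc : IntF c)
    (hx : IntS x) {p : A → Prop}
    (hd : Dense Q T fun a => p a ∧ FW Q (u a) (r a) (c a) g m (x a)) :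
    ∃ e y γ : A → PS lv Unit HR, IntS e ∧ IntS y ∧ IntS γ ∧ Dense Q T fun a => p a ∧
      e a ∈ (g.fine Unit).PG ⊓ EA Q (u a) (r a) lv ∧ y a ∈ (g.fine Unit).PG ⊓ (m.fine Unit).PG ∧
      γ a ∈ (g.fine Unit).PG ⊓ LL Q (c a) lv ∧ x a = e a * y a * γ a := by
  obtain ⟨e, he, d1⟩ := Dense.choiceS hg.fine_bd (r := fun a e => e ∈ EA Q (u a) (r a) lv ∧
    ∃ γ ∈ (g.fine Unit).PG, γ ∈ LL Q (c a) lv ∧ x a ∈ (g.fine Unit).PG ∧
      lg (e⁻¹ * x a * γ⁻¹) ∈ pm fun β : Unit →₀ ℕ => m.r β.degree)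
    (sig_fw_mid hg (hu.comp IntF.id.fst) (hr.comp IntF.id.fst) (hc.comp IntF.id.fst)
      (fun i => IntV.const (m.r i)) (hx.comp IntF.id.fst) (IntS.dec _ IntF.id.snd))
    (hd.mono fun a _ ha => ⟨ha.1, fw_iff_ex.1 ha.2⟩)
  obtain ⟨γ, hγ, d2⟩ := Dense.choiceS
    (p := fun a => p a ∧ e a ∈ (g.fine Unit).PG ∧ e a ∈ EA Q (u a) (r a) lv) hg.fine_bd
    (r := fun a γ => γ ∈ LL Q (c a) lv ∧ x a ∈ (g.fine Unit).PG ∧
      lg ((e a)⁻¹ * x a * γ⁻¹) ∈ pm fun β : Unit →₀ ℕ => m.r β.degree)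
    (sig_fw_in g (hc.comp IntF.id.fst) (fun i => IntV.const (m.r i)) (hx.comp IntF.id.fst)
      (he.comp IntF.id.fst) (IntS.dec _ IntF.id.snd))
    (d1.mono fun a _ ha => ⟨⟨ha.1, ha.2.1, ha.2.2.1⟩, ha.2.2.2⟩)
  exact ⟨e, _, γ, he, (he.inv.mul hx).mul hγ.inv, hγ, d2.mono fun a _ ⟨h3, h4, h5, h6, h7⟩ =>
    ⟨h3.1, h3.2, ⟨(g.fine Unit).PG.mul_mem ((g.fine Unit).PG.mul_mem (inv_mem h3.2.1) h6)
      (inv_mem h4), h7⟩, ⟨h4, h5⟩, by group⟩⟩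

/-- Resolution on windows and lattices that depend on the parameter, constant on a dense set. -/
theorem pigeon_resolveV {T : Ns (Finset S)} (hg : g.Fil D) (hn : g.Idl n) (hu : IntF u)
    (hr : IntF r) (hc : IntF c) (hx : IntS x) {p : A → Prop}
    (hd : Dense Q T fun a => p a ∧ Lat Q (r a) (c a) ∧ x a ∈ (g.fine Unit).PG) :
    ∃ h ≤ g, h.Fil D ∧ (∀ i, g.r i ⊓ n ≤ h.r i) ∧ ∃ e y γ : A → PS lv Unit HR,
      IntS e ∧ IntS y ∧ IntS γ ∧ Dense Q T fun a => p a ∧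
        e a ∈ (g.fine Unit).PG ⊓ EA Q (u a) (r a) lv ∧ y a ∈ (h.fine Unit).PG ∧
        γ a ∈ (g.fine Unit).PG ⊓ LL Q (c a) lv ∧ x a = e a * y a * γ a ∧
        IW Q (r a) (c a) h n (y a) := by
  obtain ⟨h, -, d⟩ := pigeon_min (p := fun a => p a ∧ Lat Q (r a) (c a))
    (((SigF.le g).and ((SigF.fil D).and
    (SigF.ge_all fun i => g.r i ⊓ n))).and (SigF.fwV hg hu hr hc hx (range (D + 1))))
    (hd.mono fun a _ ha => ⟨⟨ha.1, ha.2.1⟩, g, fun b hb => hg.eq_bot (by simpa using hb),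
      ⟨le_rfl, hg, fun _ => inf_le_left⟩, FW.of_mem ha.2.2 ha.2.2⟩)
  obtain ⟨-, -, -, ⟨⟨h1, h2, h3⟩, -⟩, -⟩ := d.exists
  obtain ⟨e, y, γ, he, hy, hγ, d'⟩ := Dense.fwV hg hu hr hc hx
    (d.mono fun a _ ha => ⟨⟨ha.1, ha.2.2⟩, ha.2.1.2⟩ :
      Dense Q T fun a => ((p a ∧ _) ∧ _) ∧ _)
  refine ⟨h, h1, h2, h3, e, y, γ, he, hy, hγ, d'.mono fun a _ ⟨⟨a1, a2⟩, a3, a4, a5, a6⟩ =>
    ⟨a1.1, a3, a4.2, a5, a6, by_contra fun hi => ?_⟩⟩
  obtain ⟨k, b1, b2, ⟨i, -, b3⟩, b4, b5⟩ := peelW a1.2 h2 (hn.mono h1 (h3 0)) a4.2 hi (u a)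
  refine b3.not_ge (a2 k b1 ⟨⟨b1.trans h1, b2,
    fun j => (le_inf (h3 j) inf_le_right).trans (b4 j)⟩, ?_⟩ i)
  rw [a6]
  exact (b5.mono h1 le_rfl).mul a3 a5

end var

/-! ### Fixed windows -/

variable {A0 R : HR}

theorem Sig.mem_EA (_hg : g.Fil D) (A0 R : HR) {x : A → PS lv Unit HR} (hx : IntS x) :
    Sig fun a => x a ∈ (g.fine Unit).PG ⊓ EA Q A0 R lv :=
  (hx.PG _).sig.and (Sig.inEA (IntF.const A0) (IntF.const R) hx)
theorem Sig.mem_LL (_hg : g.Fil D) {c : A → HR} (hc : IntF c) {x : A → PS lv Unit HR}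
    (hx : IntS x) : Sig fun a => x a ∈ (g.fine Unit).PG ⊓ LL Q (c a) lv :=
  (hx.PG _).sig.and (Sig.inLL hc hx)
theorem SigF.fw (hg : g.Fil D) (A0 R : HR) {c : A → HR} (hc : IntF c) {x : A → PS lv Unit HR}
    (hx : IntS x) (s : Finset ℕ) : SigF s fun a m => FW Q A0 R (c a) g m (x a) :=
  SigF.fwV hg (IntF.const A0) (IntF.const R) hc hx s
theorem Sig.fw (hg : g.Fil D) (A0 R : HR) {c : A → HR} (hc : IntF c) {x : A → PS lv Unit HR}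
    (hx : IntS x) (m : Fam (KK Q) lv ℕ) : Sig fun a => FW Q A0 R (c a) g m (x a) :=
  Sig.fwV hg (IntF.const A0) (IntF.const R) hc hx m
theorem SigF.not_iw (s : Finset ℕ) (n) (R : HR) {c : A → HR} (hc : IntF c)
    {x : A → PS lv Unit HR} (hx : IntS x) :
    SigF s fun a (h : Fam (KK Q) lv ℕ) => ¬IW Q R (c a) h n (x a) :=
  SigF.not_iwV s n (IntF.const R) hc hx
theorem Sig.not_iw (g : Fam (KK Q) lv ℕ) (n) (R : HR) {c : A → HR} (hc : IntF c)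
    {x : A → PS lv Unit HR} (hx : IntS x) (_hg : g.Fil D) :
    Sig fun a => ¬IW Q R (c a) g n (x a) :=
  Sig.not_iwV g n (IntF.const R) hc hx
theorem Dense.fw {T : Ns (Finset S)} (hg : g.Fil D) {c : A → HR} (hc : IntF c)
    {x : A → PS lv Unit HR} (hx : IntS x) {p : A → Prop}
    (hd : Dense Q T fun a => p a ∧ FW Q A0 R (c a) g m (x a)) :
    ∃ e y γ : A → PS lv Unit HR, IntS e ∧ IntS y ∧ IntS γ ∧ Dense Q T fun a => p a ∧
      e a ∈ (g.fine Unit).PG ⊓ EA Q A0 R lv ∧ y a ∈ (g.fine Unit).PG ⊓ (m.fine Unit).PG ∧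
      γ a ∈ (g.fine Unit).PG ⊓ LL Q (c a) lv ∧ x a = e a * y a * γ a :=
  Dense.fwV hg (IntF.const A0) (IntF.const R) hc hx hd
theorem pigeon_resolveW {T : Ns (Finset S)} (hg : g.Fil D) (hn : g.Idl n) {c : A → HR}
    (hc : IntF c) {x : A → PS lv Unit HR} (hx : IntS x) {p : A → Prop} (A0 : HR)
    (hd : Dense Q T fun a => p a ∧ Lat Q R (c a) ∧ x a ∈ (g.fine Unit).PG) :
    ∃ h ≤ g, h.Fil D ∧ (∀ i, g.r i ⊓ n ≤ h.r i) ∧ ∃ e y γ : A → PS lv Unit HR,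
      IntS e ∧ IntS y ∧ IntS γ ∧ Dense Q T fun a => p a ∧
        e a ∈ (g.fine Unit).PG ⊓ EA Q A0 R lv ∧ y a ∈ (h.fine Unit).PG ∧
        γ a ∈ (g.fine Unit).PG ⊓ LL Q (c a) lv ∧ x a = e a * y a * γ a ∧
        IW Q R (c a) h n (y a) :=
  pigeon_resolveV hg hn (IntF.const A0) (IntF.const R) hc hx hd

end Pool.Agent.P.MP_a14ce1_nt.Nil
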