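import Pool.Agent.P.MP_a14ce1_nt.Nil.Hom
import Pool.Agent.P.MP_a14ce1_nt.Nil.Rat
import Pool.Agent.P.MP_a14ce1_nt.Nil.Win

/-!
Bezout lemmas for rational polynomial sequences.
-/

open Filter Finset MvPolynomial

set_option linter.unusedSectionVars false

noncomputable section

namespace Pool.Agent.P.MP_a14ce1_nt.Nil

variable {ι : Type} [Fintype ι] [DecidableEq ι] {lv : ι → ℕ} {σ : Type}

/-- Products along the level filtration. -/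
theorem lvl_prod {R : Type} [CommRing R] [Algebra ℚ R] {H H₁ H₂ : Subgroup (UT lv R)}
    (h1 : H₁ ≤ H) (h2 : H₂ ≤ H)
    (hs : ∀ i, ∀ x ∈ H, lg x ∈ mF R lv (i + 1) → ∃ B ∈ mF R lv (i + 1),
      ex lv (lg x - B) ∈ H₁ ∧ ex lv B ∈ H₂) :
    ∀ x ∈ H, ∃ a ∈ H₁, ∃ b ∈ H₂, x = a * b := by
  obtain ⟨d, hd⟩ := (filt_mF R lv).fin
  have key : ∀ k i, d ≤ i + k → ∀ x ∈ H, lg x ∈ mF R lv (i + 1) →
      ∃ a ∈ H₁, ∃ b ∈ H₂, x = a * b := by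
    intro k
    induction k with
    | zero =>
      intro i hi x _ h2
      have h3 := (filt_mF R lv).le (show d ≤ i + 1 by omega) h2
      rw [hd, Submodule.mem_bot, ← lg_one (lv := lv)] at h3
      exact ⟨1, one_mem _, 1, one_mem _, by rw [lg_inj h3, mul_one]⟩
    | succ k ih =>
      intro i hi x hx hm
      obtain ⟨B, mB, ga, gb⟩ := hs i x hx hm
      have br : ∀ a ∈ mF R lv (i + 1), ∀ b ∈ mF R lv (i + 1), a * b - b * a ∈ mF R lv (i + 1 + 1) :=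
        fun a ha b hb => sub_mem ((filt_mF R lv).le (by omega) ((filt_mF R lv).mul _ _ a ha b hb))
          ((filt_mF R lv).le (by omega) ((filt_mF R lv).mul _ _ b hb a ha))
      let 𝔏 : Lie lv R := ⟨mF R lv (i + 1), (filt_mF R lv).le (by omega),
        fun a ha b hb => (filt_mF R lv).anti _ (br a ha b hb)⟩
      have mA : lg x - B ∈ 𝔏.L := sub_mem hm mB
      have h3 := lg_mul3_sub (𝔏 := 𝔏) ((filt_mF R lv).anti _) br
        (𝔏.grp.inv_mem (ex_mem_grp mA)) (show x ∈ 𝔏.grp from hm) (𝔏.grp.inv_mem (ex_mem_grp mB))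
      rw [lg_inv, lg_inv, lg_ex (𝔏.up mA), lg_ex (𝔏.up mB), neg_sub, sub_add_cancel,
        add_neg_cancel, sub_zero] at h3
      obtain ⟨a, ha, b, hb, e⟩ := ih (i + 1) (by omega) _
        (mul_mem (mul_mem (inv_mem (h1 ga)) hx) (inv_mem (h2 gb))) h3
      exact ⟨_, mul_mem ga ha, _, mul_mem hb gb, by rw [mul_assoc, ← mul_assoc a, ← e]; group⟩
  exact fun x hx => key d 0 (by omega) x hx (lg_mem x)

section field

variable {FF : Type} [Field FF] [CharZero FF] {K : Subfield FF}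

theorem mF_iff_co {i : ℕ} {X : Matrix ι ι (MvPolynomial σ FF)} :
    X ∈ mF (MvPolynomial σ FF) lv i ↔ ∀ β, co β X ∈ mF FF lv i :=
  ⟨fun h β a b hab => by simp [co, h a b hab],
    fun h a b hab => MvPolynomial.ext _ _ fun β => h β a b hab⟩

theorem Sc.EE_mono {S T : Sc K σ} (h : ∀ β, S.s β ≤ T.s β) : S.EE lv ≤ T.EE lv := fun _ hx =>
  Sc.mem_EE.2 fun β a b => h β (Sc.mem_EE.1 hx β a b)

theorem ex_mem_inf {g : Fam K lv (σ →₀ ℕ)} {S : Sc K σ} {X : Matrix ι ι (MvPolynomial σ FF)}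
    (h1 : ∀ β, co β X ∈ g.r β) (h2 : ∀ β, Ent (S.s β : Set FF) (co β X)) :
    ex lv X ∈ g.PG ⊓ S.EE lv :=
  ⟨ex_mem_grp (𝔏 := g.lie) h1, Sc.mem_EE.2 fun β => by rw [lg_ex (g.lie.up h1)]; exact h2 β⟩

/-- A sum of scales gives a product of groups. -/
theorem EE_split (g : Fam K lv (σ →₀ ℕ)) {T T₁ T₂ : Sc K σ} (h1 : ∀ β, T₁.s β ≤ T.s β)
    (h2 : ∀ β, T₂.s β ≤ T.s β) (h : ∀ β, T.s β ≤ T₁.s β ⊔ T₂.s β) {c : PS lv σ FF}
    (hc : c ∈ g.PG ⊓ T.EE lv) : ∃ a ∈ g.PG ⊓ T₁.EE lv, ∃ b ∈ g.PG ⊓ T₂.EE lv, c = a * b := by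
  refine lvl_prod (inf_le_inf_left _ (Sc.EE_mono h1)) (inf_le_inf_left _ (Sc.EE_mono h2))
    (fun i x hx hm => ?_) c hc
  obtain ⟨B, hB⟩ := exists_co' (lg x) (fun β Y => Y ∈ g.r β ⊓ lvS FF lv (i + 1) ∧
    Ent (T₁.s β : Set FF) (co β (lg x) - Y) ∧ Ent (T₂.s β : Set FF) Y)
    (fun β h0 => ⟨zero_mem _, by rw [h0, sub_zero]; exact Ent.zero _, Ent.zero _⟩) fun β => by
      obtain ⟨u, -, v, hv, a1, a2, e⟩ := ((g.rat β).inf (IsRat.lvS lv (i + 1))).split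
        (X := co β (lg x)) ⟨hx.1 β, mF_iff_co.1 hm β⟩ fun a b => h β (Sc.mem_EE.1 hx.2 β a b)
      exact ⟨v, hv, by rwa [e, add_sub_cancel_right], a2⟩
  refine ⟨B, mF_iff_co.2 fun β => (hB β).1.2, ex_mem_inf (fun β => ?_) fun β => ?_,
    ex_mem_inf (fun β => (hB β).1.1) fun β => (hB β).2.2⟩
  · rw [co_sub]; exact sub_mem (hx.1 β) (hB β).1.1
  · rw [co_sub]; exact (hB β).2.1

/-- Intersection of two rational groups modulo an ideal family. -/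
theorem EE_inf_mod {g n : Fam K lv (σ →₀ ℕ)} (hn : g.Ide n) {T T₁ T₂ : Sc K σ}
    (h : ∀ β, T₁.s β ⊓ T₂.s β ≤ T.s β) {x y : PS lv σ FF} (hx : x ∈ g.PG ⊓ T₁.EE lv)
    (hy : y ∈ g.PG ⊓ T₂.EE lv) (hxy : x⁻¹ * y ∈ n.PG) :
    ∃ z ∈ g.PG ⊓ T.EE lv, z ∈ T₁.EE lv ∧ z ∈ T₂.EE lv ∧ z⁻¹ * x ∈ n.PG ∧ z⁻¹ * y ∈ n.PG := by
  obtain ⟨Z, hZ⟩ := exists_co' (lg x) (fun β Z => Ent (T₁.s β : Set FF) Z ∧
    Ent (T₂.s β : Set FF) Z ∧ co β (lg x) - Z ∈ n.r β)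
    (fun β h0 => ⟨Ent.zero _, Ent.zero _, by rw [h0, sub_zero]; exact zero_mem _⟩) fun β => by
      have e1 := Sc.mem_EE.1 hx.2 β
      have e2 := Sc.mem_EE.1 hy.2 β
      obtain ⟨u, hu, v, -, a1, a2, e⟩ := (n.rat β).split (S := T₁.s β) (T := T₂.s β)
        ((hn.inv_mul_iff hx.1 hy.1).1 hxy β) fun a b =>
          sub_mem (Submodule.mem_sup_right (e2 a b)) (Submodule.mem_sup_left (e1 a b))
      refine ⟨co β (lg x) + u, e1.add a1, ?_, by simpa using hu⟩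
      rw [show co β (lg x) + u = co β (lg y) - v by rw [sub_eq_iff_eq_add.1 e]; abel]
      exact e2.sub a2
  have m : ∀ β, co β Z ∈ g.r β := fun β => by
    simpa using sub_mem (hx.1 β) (hn.le β (hZ β).2.2)
  have m1 := ex_mem_inf m fun β => (hZ β).1
  have k : (ex lv Z)⁻¹ * x ∈ n.PG := (hn.inv_mul_iff m1.1 hx.1).2 fun β => by
    rw [lg_ex (g.lie.up m)]; exact (hZ β).2.2
  refine ⟨ex lv Z, ex_mem_inf m fun β a b => h β ⟨(hZ β).1 a b, (hZ β).2.1 a b⟩, m1.2,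
    (ex_mem_inf m fun β => (hZ β).2.1).2, k, ?_⟩
  have := mul_mem k hxy
  rwa [mul_assoc, mul_inv_cancel_left] at this

theorem prod_smul_pow (p : FF) (a : σ → FF) (β : σ →₀ ℕ) :
    (β.prod fun l k => (p * a l) ^ k) = p ^ β.degree * β.prod fun l k => a l ^ k := by
  simp only [mul_pow, Finsupp.prod, prod_mul_distrib, prod_pow_eq_pow_sum]
  rfl

theorem map_ex {R R' : Type} [CommRing R] [Algebra ℚ R] [CommRing R'] [Algebra ℚ R']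
    (φ : R →+* R') {X : Matrix ι ι R} (h : X ∈ mF R lv 1) :
    UT.map φ (ex lv X) = ex lv (X.map φ) := by
  rw [← ex_lg (UT.map φ (ex lv X)), lg_map, lg_ex h]

end field

/-! ### The scale field -/

variable {Q : HR} [Fact (2 ≤ Q)]

theorem mem_Rt {a : σ → HR} {β : σ →₀ ℕ} {x : HR} :
    x ∈ (Rt Q a).s β ↔ x * β.prod (fun l k => a l ^ k) ∈ RT Q := Iff.rfl

theorem mem_Rt_mul {p : HR} {a : σ → HR} {β : σ →₀ ℕ} {x : HR} :
    x ∈ (Rt Q fun l => p * a l).s β ↔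
      p ^ β.degree * (x * β.prod fun l k => a l ^ k) ∈ RT Q := by
  rw [mem_Rt, prod_smul_pow, mul_left_comm]

theorem ci_RT (z : HZ) : ci z ∈ RT Q := ZZ_le_RT (ci_mem z)

theorem Rt_le_mul (u : HZ) (a : σ → HR) (β : σ →₀ ℕ) :
    (Rt Q a).s β ≤ (Rt Q fun l => ci u * a l).s β := fun _ hx =>
  mem_Rt_mul.2 (mul_mem (pow_mem (ci_RT u) _) hx)

theorem cop_pow {u v : HZ} (h : IsCoprime u v) (i j : ℕ) :
    ∃ s t : HZ, ci s * ci u ^ i + ci t * ci v ^ j = 1 := by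
  obtain ⟨s, t, e⟩ := h.pow (m := i) (n := j)
  exact ⟨s, t, by simpa using congrArg ci e⟩

theorem Rt_inf {u v : HZ} (h : IsCoprime u v) (a : σ → HR) (β : σ →₀ ℕ) :
    (Rt Q fun l => ci u * a l).s β ⊓ (Rt Q fun l => ci v * a l).s β = (Rt Q a).s β := by
  refine le_antisymm (fun x hx => ?_) (le_inf (Rt_le_mul u a β) (Rt_le_mul v a β))
  obtain ⟨s, t, e⟩ := cop_pow h β.degree β.degree
  have := add_mem (mul_mem (ci_RT s) (mem_Rt_mul.1 hx.1)) (mul_mem (ci_RT t) (mem_Rt_mul.1 hx.2))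
  rwa [← mul_assoc, ← mul_assoc (ci t), ← add_mul, e, one_mul] at this

theorem Rt_sup {u v : HZ} (h : IsCoprime u v) (a : σ → HR) (β : σ →₀ ℕ) :
    (Rt Q fun l => ci u * a l).s β ⊔ (Rt Q fun l => ci v * a l).s β
      = (Rt Q fun l => ci u * ci v * a l).s β := by
  refine le_antisymm (sup_le (fun x hx => ?_) fun x hx => ?_) fun x hx => ?_
  · have := mul_mem (pow_mem (ci_RT (Q := Q) v) β.degree) (mem_Rt_mul.1 hx)
    rwa [mem_Rt_mul, mul_pow, mul_comm (ci u ^ _), mul_assoc]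
  · have := mul_mem (pow_mem (ci_RT (Q := Q) u) β.degree) (mem_Rt_mul.1 hx)
    rwa [mem_Rt_mul, mul_pow, mul_assoc]
  · obtain ⟨s, t, e⟩ := cop_pow h β.degree β.degree
    rw [mem_Rt_mul, mul_pow] at hx
    refine Submodule.mem_sup.2 ⟨ci t * ci v ^ β.degree * x, mem_Rt_mul.2 ?_,
      ci s * ci u ^ β.degree * x, mem_Rt_mul.2 ?_, by rw [← add_mul, add_comm, e, one_mul]⟩
    · convert mul_mem (ci_RT t) hx using 1; ring
    · convert mul_mem (ci_RT s) hx using 1; ring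

theorem Rt_EE_le_mul (u : HZ) (a : σ → HR) :
    (Rt Q a).EE lv ≤ (Rt Q fun l => ci u * a l).EE lv := Sc.EE_mono (Rt_le_mul u a)

theorem Rt_EE_inf {u v : HZ} (h : IsCoprime u v) (a : σ → HR) :
    (Rt Q fun l => ci u * a l).EE lv ⊓ (Rt Q fun l => ci v * a l).EE lv = (Rt Q a).EE lv :=
  le_antisymm (fun _ hx => Sc.mem_EE.2 fun β i j =>
    (Rt_inf h a β).le ⟨Sc.mem_EE.1 hx.1 β i j, Sc.mem_EE.1 hx.2 β i j⟩)
    (le_inf (Rt_EE_le_mul u a) (Rt_EE_le_mul v a))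

/-- `LL (u v a) = LL (u a) * LL (v a)` inside any family. -/
theorem bez1 (g : Fam (KK Q) lv (σ →₀ ℕ)) {u v : HZ} (h : IsCoprime u v) (a : σ → HR)
    {c : PS lv σ HR} (hc : c ∈ g.PG ⊓ (Rt Q fun l => ci u * ci v * a l).EE lv) :
    ∃ c₁ ∈ g.PG ⊓ (Rt Q fun l => ci u * a l).EE lv,
      ∃ c₂ ∈ g.PG ⊓ (Rt Q fun l => ci v * a l).EE lv, c = c₁ * c₂ :=
  EE_split g (fun β => Rt_sup (Q := Q) h a β ▸ le_sup_left)
    (fun β => Rt_sup (Q := Q) h a β ▸ le_sup_right) (fun β => (Rt_sup h a β).ge) hc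

/-- `LL (u a) ∩ LL (v a) = LL a` modulo an ideal family. -/
theorem bez1_mod {g n : Fam (KK Q) lv (σ →₀ ℕ)} (hn : g.Ide n) {u v : HZ} (h : IsCoprime u v)
    (a : σ → HR) {x y : PS lv σ HR} (hx : x ∈ g.PG ⊓ (Rt Q fun l => ci u * a l).EE lv)
    (hy : y ∈ g.PG ⊓ (Rt Q fun l => ci v * a l).EE lv) (hxy : x⁻¹ * y ∈ n.PG) :
    ∃ z ∈ g.PG ⊓ (Rt Q a).EE lv, z⁻¹ * x ∈ n.PG ∧ z⁻¹ * y ∈ n.PG := by
  obtain ⟨z, h1, -, -, h2⟩ := EE_inf_mod hn (fun β => (Rt_inf h a β).le) hx hy hxy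
  exact ⟨z, h1, h2⟩

variable (Q) in
/-- Coefficients in the scale field: bounded and rational. -/
def Kc (a : σ → HR) : Sc (KK Q) σ := scw (KK Q).toSubring (fun _ h => h) a

theorem mem_Kc {a : σ → HR} {β : σ →₀ ℕ} {x : HR} :
    x ∈ (Kc Q a).s β ↔ x * β.prod (fun l k => a l ^ k) ∈ KK Q := Iff.rfl
theorem Kc_le_Rt (a : σ → HR) (β : σ →₀ ℕ) : (Kc Q a).s β ≤ (Rt Q a).s β := fun _ h => h.2
theorem Kc_le_Sm (a : σ → HR) (β : σ →₀ ℕ) : (Kc Q a).s β ≤ (Sm Q a).s β := fun _ h => h.1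
theorem Kc_EE (a : σ → HR) : (Kc Q a).EE lv = (Sm Q a).EE lv ⊓ (Rt Q a).EE lv :=
  le_antisymm (le_inf (Sc.EE_mono (Kc_le_Sm a)) (Sc.EE_mono (Kc_le_Rt a))) fun _ hx =>
    Sc.mem_EE.2 fun β i j => ⟨Sc.mem_EE.1 hx.1 β i j, Sc.mem_EE.1 hx.2 β i j⟩

theorem bez_mat {V : Submodule HR (Matrix ι ι HR)} (hV : IsRat (KK Q) V) {X : Matrix ι ι HR}
    (hX : X ∈ V) {p : HZ} (cop : ∀ b : HZ, ci b ∈ OO Q → b ≠ 0 → IsCoprime p b) (k : ℕ)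
    {w m : HR} (hm : m ∈ ZZ ∧ m ∈ OO Q ∧ m ≠ 0) (h : ∀ a b, ci p ^ k * (X a b * w) ∈ RT Q) :
    ∃ B ∈ V, (∀ a b, (X - B) a b * w ∈ KK Q) ∧
      ∀ a b, ∃ z ∈ ZZ, ci p ^ k * (B a b * w) = m * z := by
  rcases eq_or_ne w 0 with rfl | hw
  · exact ⟨0, zero_mem _, fun a b => by simp [zero_mem], fun a b => ⟨0, zero_mem _, by simp⟩⟩
  obtain ⟨b, b1, b2, b3, b4⟩ := RT_common (J := ι × ι) fun j => h j.1 j.2
  obtain ⟨M, hM⟩ := mem_ZZ.1 (mul_mem hm.1 b1)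
  obtain ⟨s, t, e⟩ := cop_pow (cop M (hM ▸ mul_mem hm.2.1 b2) fun c =>
    mul_ne_zero hm.2.2 b3 (by rw [← hM, c, map_zero])) k 1
  rw [pow_one, hM] at e
  obtain ⟨B, m1, m2, m3⟩ := hV.round KK_le_OO exists_ZZ_OO KK_den (KK_of_ZZ hm.1 hm.2.1) hm.2.2
    (V.smul_mem (ci s * ci p ^ k * w) hX)
  refine ⟨(ci t * (m * b)) • X + (w⁻¹ * m) • B, add_mem (V.smul_mem _ hX) (V.smul_mem _ m1),
    fun i j => ?_, fun i j => ⟨ci t * (b * (ci p ^ k * (X i j * w))) + ci p ^ k * B i j,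
      add_mem (mul_mem (ci_mem t) (b4 (i, j))) (mul_mem (pow_mem (ci_mem p) k) (m2 i j)), ?_⟩⟩
  · have e1 : (X - ((ci t * (m * b)) • X + (w⁻¹ * m) • B)) i j * w
        = ci s * (ci p ^ k * (X i j * w)) - m * B i j := by
      simp only [Matrix.sub_apply, Matrix.add_apply, Matrix.smul_apply, smul_eq_mul]
      rw [← sub_eq_of_eq_add' e.symm]
      field_simp
      ring
    rw [e1]
    refine ⟨?_, sub_mem (mul_mem (ci_RT s) (h i j)) (ZZ_le_RT (mul_mem hm.1 (m2 i j)))⟩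
    have := m3 i j
    simp only [Matrix.sub_apply, Matrix.smul_apply, smul_eq_mul] at this
    convert this using 2
    ring
  · simp only [Matrix.add_apply, Matrix.smul_apply, smul_eq_mul]
    field_simp

/-- Sequences with values of level `q` on the lattice with steps `w`. -/
def Lam {q : HR} (hq : q ∈ ZZ) (w : σ → HR) (lv : ι → ℕ) : Subgroup (PS lv σ HR) :=
  ⨅ n : σ → HZ, (Gam ZZ hq lv).comap (ev fun l => w l * ci (n l))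

theorem mem_Lam {q : HR} {hq : q ∈ ZZ} {w : σ → HR} {x : PS lv σ HR} :
    x ∈ Lam hq w lv ↔ ∀ n : σ → HZ, Lev q (ev (fun l => w l * ci (n l)) x) := Subgroup.mem_iInf

theorem ex_mem_Lam {q : HR} (hq : q ∈ ZZ) (h0 : q ≠ 0) {d : ℕ} (hd : mF HR lv d = ⊥) {w : σ → HR}
    {B : Matrix ι ι (MvPolynomial σ HR)} (hB : B ∈ mF _ lv 1)
    (h : ∀ β a b, ∃ z ∈ ZZ, co β B a b * β.prod (fun l k => w l ^ k) = q * d.factorial * z) :
    ex lv B ∈ Lam hq w lv := by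
  refine mem_Lam.2 fun n => ?_
  have hne : q * d.factorial ≠ 0 := mul_ne_zero h0 (Nat.cast_ne_zero.2 d.factorial_ne_zero)
  have m : B.map (eval fun l => w l * ci (n l)) ∈ lvS HR lv 1 := fun a b hab => by
    rw [Matrix.map_apply, hB a b hab, map_zero]
  have := ex_mem_Gam hq hd ((lvS HR lv 1).smul_mem (q * d.factorial)⁻¹ m) fun a b => by
    rw [Matrix.smul_apply, Matrix.map_apply, eval_eq, smul_eq_mul, mul_sum]
    refine sum_mem fun β _ => ?_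
    obtain ⟨z, hz, e⟩ := h β a b
    simp only [mul_pow, prod_mul_distrib]
    rw [← mul_assoc (coeff _ _), show coeff β (B a b) * ∏ l ∈ β.support, w l ^ β l = _ from e,
      mul_assoc (q * _), inv_mul_cancel_left₀ hne]
    exact mul_mem hz (prod_mem fun l _ => pow_mem (ci_mem _) _)
  rw [smul_smul, mul_inv_cancel₀ hne, one_smul] at this
  rw [ev, map_ex _ hB]
  exact this

/-- `LL (p a) = (coefficients in the scale field) * (values of level q on p a ℤ)`. -/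
theorem bez2 (g : Fam (KK Q) lv (σ →₀ ℕ)) {p : HZ}
    (cop : ∀ b : HZ, ci b ∈ OO Q → b ≠ 0 → IsCoprime p b) (a : σ → HR) {q : HR}
    (hq : q ∈ ZZ ∧ q ∈ OO Q ∧ q ≠ 0) {c : PS lv σ HR}
    (hc : c ∈ g.PG ⊓ (Rt Q fun l => ci p * a l).EE lv) :
    ∃ γ ∈ g.PG ⊓ (Kc Q a).EE lv, ∃ lam ∈ g.PG ⊓ (Rt Q fun l => ci p * a l).EE lv, c = γ * lam ∧
      ∀ n : σ → HZ, Lev q (ev (fun l => ci p * a l * ci (n l)) lam) := by
  obtain ⟨d, hd⟩ := (filt_mF HR lv).fin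
  obtain ⟨γ, h1, lam, h2, e⟩ := lvl_prod (H₁ := g.PG ⊓ (Kc Q a).EE lv)
    (H₂ := g.PG ⊓ (Rt Q fun l => ci p * a l).EE lv ⊓ Lam hq.1 (fun l => ci p * a l) lv)
    (inf_le_inf_left _ ((Sc.EE_mono (Kc_le_Rt a)).trans (Rt_EE_le_mul p a))) inf_le_left
    (fun i x hx hm => by
      obtain ⟨B, hB⟩ := exists_co' (lg x) (fun β Y => Y ∈ g.r β ⊓ lvS HR lv (i + 1) ∧
        Ent ((Kc Q a).s β : Set HR) (co β (lg x) - Y) ∧ ∀ u v, ∃ z ∈ ZZ,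
          ci p ^ β.degree * (Y u v * β.prod fun l k => a l ^ k) = q * d.factorial * z)
        (fun β h0 => ⟨zero_mem _, by rw [h0, sub_zero]; exact Ent.zero _,
          fun u v => ⟨0, zero_mem _, by simp⟩⟩) fun β =>
        bez_mat ((g.rat β).inf (IsRat.lvS lv (i + 1))) ⟨hx.1 β, mF_iff_co.1 hm β⟩ cop β.degree
          ⟨mul_mem hq.1 (natCast_mem _ _), mul_mem hq.2.1 (natCast_mem _ _),
            mul_ne_zero hq.2.2 (Nat.cast_ne_zero.2 d.factorial_ne_zero)⟩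
          fun u v => mem_Rt_mul.1 (Sc.mem_EE.1 hx.2 β u v)
      refine ⟨B, mF_iff_co.2 fun β => (hB β).1.2, ex_mem_inf (fun β => ?_) fun β => ?_,
        ex_mem_inf (fun β => (hB β).1.1) fun β u v => ?_,
        ex_mem_Lam hq.1 hq.2.2 hd (g.lie.up fun β => (hB β).1.1) fun β u v => ?_⟩
      · rw [co_sub]; exact sub_mem (hx.1 β) (hB β).1.1
      · rw [co_sub]; exact (hB β).2.1
      · obtain ⟨z, hz, e⟩ := (hB β).2.2 u v
        exact mem_Rt_mul.2 (e ▸ ZZ_le_RT (mul_mem (mul_mem hq.1 (natCast_mem _ _)) hz))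
      · rw [prod_smul_pow, mul_left_comm]; exact (hB β).2.2 u v) c hc
  exact ⟨γ, h1, lam, h2.1, e, mem_Lam.1 h2.2⟩

/-- Rational sequences are bounded modulo lattice valued ones. -/
theorem bez0 (g : Fam (KK Q) lv (σ →₀ ℕ)) (a : σ → HR) {q : HR}
    (hq : q ∈ ZZ ∧ q ∈ OO Q ∧ q ≠ 0) {c : PS lv σ HR} (hc : c ∈ g.PG ⊓ (Rt Q a).EE lv) :
    ∃ γ ∈ g.PG ⊓ (Kc Q a).EE lv, ∃ lam ∈ g.PG ⊓ (Rt Q a).EE lv, c = γ * lam ∧
      ∀ n : σ → HZ, Lev q (ev (fun l => a l * ci (n l)) lam) := by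
  have := bez2 g (p := 1) (fun _ _ _ => isCoprime_one_left) a hq (c := c)
  simp only [map_one, one_mul] at this
  exact this hc

/-! ### Internal primes -/

theorem cop_of_prime {p b : HZ} (hp : ∀ᶠ n in UU, Prime (rep p n)) (h : ¬p ∣ b) :
    IsCoprime p b := by
  obtain ⟨p, rfl⟩ := NS.surj p
  obtain ⟨b, rfl⟩ := NS.surj b
  have h1 : ∀ᶠ n in UU, ¬p n ∣ b n := ev_not.2 fun c => by
    obtain ⟨z, hz⟩ := ev_exists.1 c
    exact h ⟨st z, st_congr (A := HZ) (y := fun n => p n * z n) hz⟩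
  have h2 : ∀ᶠ n in UU, ∃ s : ℤ × ℤ, s.1 * p n + s.2 * b n = 1 := by
    filter_upwards [h1, hp, rep_st (A := HZ) p] with n a c e
    obtain ⟨s, t, e'⟩ := (e ▸ c : Prime (p n)).irreducible.coprime_iff_not_dvd.2 a
    exact ⟨(s, t), e'⟩
  obtain ⟨s, hs⟩ := ev_exists.1 h2
  exact ⟨st fun n => (s n).1, st fun n => (s n).2,
    st_congr (A := HZ) (x := fun n => (s n).1 * p n + (s n).2 * b n) (y := fun _ => 1) hs⟩

theorem not_dvd_of_lt {p b : HZ} (h0 : b ≠ 0) (h : |ci b| < |ci p|) : ¬p ∣ b := by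
  rintro ⟨z, rfl⟩
  have hz : ci z ≠ 0 := fun c => h0 (by rw [ci_inj (c.trans (map_zero ci).symm), mul_zero])
  rw [map_mul, abs_mul] at h
  exact h.not_ge (le_mul_of_one_le_right (abs_nonneg _) (ZZ_one_le (ci_mem z) hz))

/-- A large prime is prime to all bounded integers. -/
theorem cop_of_large {p : HZ} (hp : ∀ᶠ n in UU, Prime (rep p n)) (h : ci p ∉ OO Q) :
    ∀ b : HZ, ci b ∈ OO Q → b ≠ 0 → IsCoprime p b := fun _ hb h0 =>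
  cop_of_prime hp (not_dvd_of_lt h0 (not_le.1 fun c => h (OO_of_le hb c)))

theorem cop_of_ne {p b : HZ} (hp : ∀ᶠ n in UU, Prime (rep p n)) (hb : ∀ᶠ n in UU, Prime (rep b n))
    (p0 : 0 < p) (b0 : 0 < b) (h : p ≠ b) : IsCoprime p b := by
  refine cop_of_prime hp ?_
  rintro ⟨z, e⟩
  obtain ⟨p, rfl⟩ := NS.surj p
  obtain ⟨b, rfl⟩ := NS.surj b
  obtain ⟨z, rfl⟩ := NS.surj z
  refine h (st_congr ?_)
  filter_upwards [hp, hb, rep_st (A := HZ) p, rep_st (A := HZ) b,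
    (st_lt (x := fun _ => 0)).1 p0, (st_lt (x := fun _ => 0)).1 b0,
    (NS.eq_iff (A := HZ) b fun n => p n * z n).1 e] with n a1 a2 a3 a4 a5 a6 a7
  rw [a3] at a1
  rw [a4] at a2
  exact Int.eq_of_associated_of_nonneg (a1.associated_of_dvd a2 ⟨_, a7⟩) a5.le a6.le

/-! ### One absolute variable -/

theorem cop_ci {u v : HZ} : Cop (ci u) (ci v) ↔ IsCoprime u v := by
  constructor
  · rintro ⟨a, ha, b, hb, e⟩
    obtain ⟨a, rfl⟩ := mem_ZZ.1 ha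
    obtain ⟨b, rfl⟩ := mem_ZZ.1 hb
    exact ⟨a, b, ci_inj (by simpa using e)⟩
  · rintro ⟨a, b, e⟩
    exact ⟨_, ci_mem a, _, ci_mem b, by simpa using congrArg ci e⟩

theorem prm_ci {p : HZ} :
    Prm Q (ci p) ↔ 0 < p ∧ ∀ b : HZ, ci b ∈ OO Q → b ≠ 0 → IsCoprime p b := by
  have e : ∀ b : HZ, ci b ≠ 0 ↔ b ≠ 0 := fun b => (map_ne_zero_iff ci ci_inj)
  refine ⟨fun h => ⟨ci_lt.1 (by rw [map_zero]; exact h.2.1), fun b h1 h2 =>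
    cop_ci.1 (h.2.2 _ (ci_mem b) h1 ((e b).2 h2))⟩, fun h => ⟨ci_mem p,
      by rw [← map_zero ci]; exact ci_lt.2 h.1, fun r h1 h2 h3 => ?_⟩⟩
  obtain ⟨b, rfl⟩ := mem_ZZ.1 h1
  exact cop_ci.2 (h.2 b h2 ((e b).1 h3))

theorem prm_of_prime {p : HZ} (hp : ∀ᶠ n in UU, Prime (rep p n)) (h0 : 0 < p)
    (h : ci p ∉ OO Q) : Prm Q (ci p) := prm_ci.2 ⟨h0, cop_of_large hp h⟩

theorem prm_one : Prm Q 1 :=
  ⟨one_mem _, one_pos, fun _ _ _ _ => ⟨1, one_mem _, 0, zero_mem _, by simp⟩⟩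

theorem LL_le_mul {u : HR} (hu : u ∈ ZZ) (a : HR) : LL Q a lv ≤ LL Q (u * a) lv := by
  obtain ⟨u, rfl⟩ := mem_ZZ.1 hu
  exact Rt_EE_le_mul u fun _ => a

theorem LL_inf_eq {u v : HR} (hu : u ∈ ZZ) (hv : v ∈ ZZ) (h : Cop u v) (a : HR) :
    LL Q (a * u) lv ⊓ LL Q (a * v) lv = LL Q a lv := by
  obtain ⟨u, rfl⟩ := mem_ZZ.1 hu
  obtain ⟨v, rfl⟩ := mem_ZZ.1 hv
  rw [mul_comm a, mul_comm a]
  exact Rt_EE_inf (cop_ci.1 h) fun _ => a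

theorem bezout1g (g : Fam (KK Q) lv (Unit →₀ ℕ)) {u v : HR} (hu : u ∈ ZZ) (hv : v ∈ ZZ)
    (h : Cop u v) (a : HR) {c : PS lv Unit HR} (hc : c ∈ g.PG ⊓ LL Q (a * (u * v)) lv) :
    ∃ c₁ ∈ g.PG ⊓ LL Q (a * u) lv, ∃ c₂ ∈ g.PG ⊓ LL Q (a * v) lv, c = c₁ * c₂ := by
  obtain ⟨u, rfl⟩ := mem_ZZ.1 hu
  obtain ⟨v, rfl⟩ := mem_ZZ.1 hv
  simp only [mul_comm a] at hc ⊢
  exact bez1 g (cop_ci.1 h) (fun _ => a) hc

theorem bezout1' (g : Fam (KK Q) lv (Unit →₀ ℕ)) {u v : HR} (hu : u ∈ ZZ) (hv : v ∈ ZZ)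
    (h : Cop u v) {c : PS lv Unit HR} (hc : c ∈ g.PG ⊓ LL Q (u * v) lv) :
    ∃ c₁ ∈ g.PG ⊓ LL Q u lv, ∃ c₂ ∈ g.PG ⊓ LL Q v lv, c = c₁ * c₂ := by
  have := bezout1g g hu hv h 1 (c := c)
  simp only [one_mul] at this
  exact this hc

theorem bezout_mod {g n : Fam (KK Q) lv (Unit →₀ ℕ)} (hn : g.Ide n) {u v : HR} (hu : u ∈ ZZ)
    (hv : v ∈ ZZ) (h : Cop u v) (a : HR) {x y : PS lv Unit HR} (hx : x ∈ g.PG ⊓ LL Q (a * u) lv)
    (hy : y ∈ g.PG ⊓ LL Q (a * v) lv) (hxy : x⁻¹ * y ∈ n.PG) :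
    ∃ z ∈ g.PG ⊓ LL Q a lv, z⁻¹ * x ∈ n.PG ∧ z⁻¹ * y ∈ n.PG := by
  obtain ⟨u, rfl⟩ := mem_ZZ.1 hu
  obtain ⟨v, rfl⟩ := mem_ZZ.1 hv
  simp only [mul_comm a] at hx hy
  exact bez1_mod hn (cop_ci.1 h) (fun _ => a) hx hy hxy

theorem bezout2g (g : Fam (KK Q) lv (Unit →₀ ℕ)) {p : HR} (hp : Prm Q p) {a : HR} {q : HR}
    (hq : q ∈ ZZ ∧ q ∈ OO Q ∧ q ≠ 0) {c : PS lv Unit HR} (hc : c ∈ g.PG ⊓ LL Q (p * a) lv) :
    ∃ γ ∈ g.PG ⊓ (Kc Q fun _ => a).EE lv, γ ∈ LL Q a lv ∧ ∃ lam ∈ g.PG ⊓ LL Q (p * a) lv,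
      c = γ * lam ∧ ∀ n : HZ, (∃ z ∈ ZZ, ci n = p * a * z) → Lev q (e1 n lam) := by
  obtain ⟨p, rfl⟩ := mem_ZZ.1 hp.1
  obtain ⟨γ, h1, lam, h2, e, h3⟩ := bez2 g (prm_ci.1 hp).2 (fun _ => a) hq hc
  refine ⟨γ, h1, Sc.EE_mono (Kc_le_Rt _) h1.2, lam, h2, e, ?_⟩
  rintro n ⟨z, hz, e'⟩
  obtain ⟨z, rfl⟩ := mem_ZZ.1 hz
  rw [e1, e']
  exact h3 fun _ => z

theorem bezout2' (g : Fam (KK Q) lv (Unit →₀ ℕ)) {p : HZ} (hp : Prm Q (ci p)) {q : HR}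
    (hq : q ∈ ZZ ∧ q ∈ OO Q ∧ q ≠ 0) {c : PS lv Unit HR} (hc : c ∈ g.PG ⊓ LL Q (ci p) lv) :
    ∃ γ ∈ g.PG ⊓ (Kc Q fun _ => 1).EE lv, γ ∈ LL Q 1 lv ∧ ∃ lam ∈ g.PG ⊓ LL Q (ci p) lv,
      c = γ * lam ∧ ∀ n : HZ, p ∣ n → Lev q (e1 n lam) := by
  have := bezout2g g hp (a := 1) hq (c := c)
  simp only [mul_one] at this
  obtain ⟨γ, h1, h2, lam, h3, e, h4⟩ := this hc
  exact ⟨γ, h1, h2, lam, h3, e, fun n ⟨z, hz⟩ => h4 n ⟨_, ci_mem z, by rw [hz, map_mul]⟩⟩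

section sk

variable {A S : Type} [NS A S] {c d d' b p q : HR} {γ : PS lv Unit HR}

theorem Cop.symm (h : Cop d d') : Cop d' d :=
  let ⟨a, ha, b, hb, e⟩ := h; ⟨b, hb, a, ha, (add_comm _ _).trans e⟩

theorem Cop.mul {d''} (hd : d ∈ ZZ) (h : Cop d d') (h' : Cop d d'') : Cop d (d' * d'') := by
  obtain ⟨a, ha, b, hb, e⟩ := h
  obtain ⟨a', ha', b', hb', e'⟩ := h'
  refine ⟨a + a' - a * a' * d, sub_mem (add_mem ha ha') (mul_mem (mul_mem ha ha') hd), b * b',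
    mul_mem hb hb', ?_⟩
  have : b * b' * (d' * d'') = (1 - a * d) * (1 - a' * d) := by
    rw [eq_sub_of_add_eq' e |>.symm, eq_sub_of_add_eq' e' |>.symm]; ring
  rw [this]; ring

theorem Cop.pow (h : Cop d d') (hd : d ∈ ZZ) (hd' : d' ∈ ZZ) (i j : ℕ) : Cop (d ^ i) (d' ^ j) := by
  obtain ⟨u, rfl⟩ := mem_ZZ.1 hd
  obtain ⟨v, rfl⟩ := mem_ZZ.1 hd'
  rw [← map_pow, ← map_pow]
  exact cop_ci.2 (cop_ci.1 h).pow

theorem cop_one (d : HR) : Cop d 1 := ⟨0, zero_mem _, 1, one_mem _, by simp⟩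

theorem intP_cop {f f' : A → HR} (hf : IntF f) (hf' : IntF f') :
    IntP fun a => Cop (f a) (f' a) :=
  (IntP.ex (r := fun a (z : HZ × HZ) => ci z.1 * f a + ci z.2 * f' a = 1)
    (IntP.eq (by fun_prop) (by fun_prop))).congr fun _ =>
    ⟨fun ⟨_, ha, _, hb, e⟩ => by
      obtain ⟨u, rfl⟩ := mem_ZZ.1 ha
      obtain ⟨v, rfl⟩ := mem_ZZ.1 hb
      exact ⟨(u, v), e⟩, fun ⟨z, e⟩ => ⟨_, ci_mem z.1, _, ci_mem z.2, e⟩⟩

theorem cop_st {u v : ℕ → ℤ} :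
    Cop (ci (st u)) (ci (st v)) ↔ ∀ᶠ k in UU, IsCoprime (u k) (v k) := by
  rw [cop_ci]
  constructor
  · rintro ⟨a, b, e⟩
    obtain ⟨a, rfl⟩ := NS.surj a
    obtain ⟨b, rfl⟩ := NS.surj b
    exact ((NS.eq_iff (A := HZ) (fun k => a k * u k + b k * v k) fun _ => 1).1 e).mono
      fun k hk => ⟨_, _, hk⟩
  · intro h
    obtain ⟨s, hs⟩ := ev_exists.1 (h.mono fun k ⟨a, b, e⟩ =>
      (⟨(a, b), e⟩ : ∃ s : ℤ × ℤ, s.1 * u k + s.2 * v k = 1))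
    exact ⟨st fun k => (s k).1, st fun k => (s k).2,
      st_congr (A := HZ) (x := fun k => (s k).1 * u k + (s k).2 * v k) (y := fun _ => 1) hs⟩

/-- an internal prime above every power of `Q` -/
theorem prm_st {u : ℕ → ℕ} (hu : ∀ᶠ k in UU, (u k).Prime)
    (ht : Tiny Q (ci (st fun k => (u k : ℤ)))⁻¹) : Prm Q (ci (st fun k => (u k : ℤ))) := by
  have h0 : (0 : HZ) < st fun k => (u k : ℤ) :=
    (st_lt (x := fun _ => 0)).2 (hu.mono fun k hk => by exact_mod_cast hk.pos)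
  refine prm_of_prime ((hu.and (rep_st (A := HZ) fun k => (u k : ℤ))).mono fun k hk => by
    rw [hk.2]; exact Nat.prime_iff_prime_int.1 hk.1) h0 ((tiny_inv_iff.1 ht).resolve_left ?_)
  exact fun e => h0.ne' (ci_inj (e.trans (map_zero ci).symm))

theorem RT_of_cop {t : HR} (h : Cop d d') (h1 : t * d ∈ RT Q) (h2 : t * d' ∈ RT Q) :
    t ∈ RT Q := by
  obtain ⟨a, ha, b, hb, e⟩ := h
  have := add_mem (mul_mem (ZZ_le_RT ha) h1) (mul_mem (ZZ_le_RT hb) h2)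
  rwa [mul_left_comm, mul_left_comm b, ← mul_add, e, mul_one] at this

/-- A nilpotent group is the product of two subgroups that span it level by level. -/
theorem grp_split {R' : Type} [CommRing R'] [Algebra ℚ R'] (𝔏 : Lie lv R')
    (H H' : Subgroup (UT lv R')) (hH : H ≤ 𝔏.grp) (hH' : H' ≤ 𝔏.grp)
    (h : ∀ j, ∀ X ∈ 𝔏.L ⊓ mF R' lv j, ∃ a ∈ H, ∃ a' ∈ H', lg a ∈ mF R' lv j ∧
      lg a' ∈ mF R' lv j ∧ X - lg a - lg a' ∈ mF R' lv (j + 1)) {z : UT lv R'} (hz : z ∈ 𝔏.grp) :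
    ∃ a ∈ H, ∃ a' ∈ H', z = a * a' := by
  obtain ⟨d, hd⟩ := (filt_mF R' lv).fin
  have key : ∀ k i, d ≤ i + k → ∀ x ∈ 𝔏.grp, lg x ∈ mF R' lv (i + 1) →
      ∃ a ∈ H, ∃ b ∈ H', x = a * b := by
    intro k
    induction k with
    | zero =>
      intro i hi x _ h2
      have h3 := (filt_mF R' lv).le (show d ≤ i + 1 by omega) h2
      rw [hd, Submodule.mem_bot, ← lg_one (lv := lv)] at h3
      exact ⟨1, one_mem _, 1, one_mem _, by rw [lg_inj h3, mul_one]⟩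
    | succ k ih =>
      intro i hi x hx hm
      obtain ⟨u, gu, v, gv, mu, mv, m⟩ := h (i + 1) _ ⟨hx, hm⟩
      have br : ∀ a ∈ mF R' lv (i + 1), ∀ b ∈ mF R' lv (i + 1),
          a * b - b * a ∈ mF R' lv (i + 1 + 1) := fun a ha b hb =>
        sub_mem ((filt_mF R' lv).le (by omega) ((filt_mF R' lv).mul _ _ a ha b hb))
          ((filt_mF R' lv).le (by omega) ((filt_mF R' lv).mul _ _ b hb a ha))
      let 𝔐 : Lie lv R' := ⟨mF R' lv (i + 1), (filt_mF R' lv).le (by omega),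
        fun a ha b hb => (filt_mF R' lv).anti _ (br a ha b hb)⟩
      have h3 := add_mem (lg_mul3_sub (𝔏 := 𝔐) ((filt_mF R' lv).anti _) br
        (𝔐.grp.inv_mem (show u ∈ 𝔐.grp from mu)) (show x ∈ 𝔐.grp from hm)
        (𝔐.grp.inv_mem (show v ∈ 𝔐.grp from mv))) m
      rw [lg_inv, lg_inv, show ∀ a b c e : Matrix ι ι R', a - (-b + c + -e) + (c - b - e) = a from
        fun _ _ _ _ => by abel] at h3
      obtain ⟨a, ha, b, hb, e⟩ := ih (i + 1) (by omega) _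
        (mul_mem (mul_mem (inv_mem (hH gu)) hx) (inv_mem (hH' gv))) h3
      exact ⟨_, mul_mem gu ha, _, mul_mem hb gv, by rw [mul_assoc, ← mul_assoc a, ← e]; group⟩
  exact key d 0 (by omega) z hz (lg_mem z)

theorem bezout1 (hd : d ∈ ZZ) (hd' : d' ∈ ZZ) (h : Cop d d') {k : Fam (KK Q) lv (Unit →₀ ℕ)}
    (hγ : γ ∈ k.PG ⊓ LL Q (c * d * d') lv) :
    ∃ α ∈ k.PG ⊓ LL Q (c * d) lv, ∃ β ∈ k.PG ⊓ LL Q (c * d') lv, γ = α * β :=
  bezout1g k hd hd' h c (mul_assoc c d d' ▸ hγ)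

theorem bezout2 (hp : Prm Q p) (hq : q ∈ ZZ ∧ q ∈ OO Q ∧ q ≠ 0) {k : Fam (KK Q) lv (Unit →₀ ℕ)}
    (hγ : γ ∈ k.PG ⊓ LL Q (b * p) lv) :
    ∃ α ∈ k.PG ⊓ LL Q b lv, ∃ β ∈ k.PG ⊓ LL Q (b * p) lv, γ = α * β ∧
      ∀ z ∈ ZZ, Lev q (ev (fun _ => b * p * z) β) := by
  obtain ⟨p, rfl⟩ := mem_ZZ.1 hp.1
  rw [mul_comm b] at hγ ⊢
  obtain ⟨α, h1, β, h2, e, h3⟩ := bez2 k (prm_ci.1 hp).2 (fun _ => b) hq hγ
  refine ⟨α, ⟨h1.1, Sc.EE_mono (Kc_le_Rt _) h1.2⟩, β, h2, e, fun z hz => ?_⟩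
  obtain ⟨z, rfl⟩ := mem_ZZ.1 hz
  exact h3 fun _ => z

end sk

end Pool.Agent.P.MP_a14ce1_nt.Nil
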