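import Pool.Agent.P.MP_a14ce1_nt.Nil.AccV
import Pool.Agent.P.MP_a14ce1_nt.Nil.Bez

/-!
Rigidity: if a fixed sequence factors through a fixed family for the lattices `c p`, `p` in a
dense set, then the outer factors are constant modulo the family on a dense subset.
-/

open Filter Finset MvPolynomial

set_option linter.unusedSectionVars false

noncomputable section

namespace Pool.Agent.P.MP_a14ce1_nt.Nil

section alg

variable {FF : Type} [Field FF] [CharZero FF] {ι : Type} [Fintype ι] [DecidableEq ι]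
  {K : Subfield FF} {lv : ι → ℕ} {σ : Type}

/-- A proper nested subfamily lies in the kernel of an admissible pair. -/
theorem exists_adm {g h : Fam K lv ℕ} {D} (hg : g.Fil D) (hh : h.Fil D) (hle : h ≤ g)
    (hne : ¬g ≤ h) : ∃ i η, ∃ ha : Adm g ⊥ i η, h ≤ ha.ker hg := by
  by_contra hc
  have step : ∀ i, 1 ≤ i → g.r i ≤ h.r i ⊔ g.r (i + 1) := by
    intro i h1
    induction i using Nat.strong_induction_on with
    | _ i ih =>
      by_contra hc'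
      obtain ⟨η, hη, hk, X0, hX0, -, e1⟩ := exists_RatF (g.rat i) ((h.rat i).sup (g.rat (i + 1))) hc'
      have k1 : ∀ X ∈ h.r i, η X = 0 := fun X hX => hk X (Submodule.mem_sup_left hX)
      have k2 : ∀ X ∈ g.r (i + 1), η X = 0 := fun X hX => hk X (Submodule.mem_sup_right hX)
      have sw : ∀ X Y : Matrix ι ι FF, η (X * Y - Y * X) = 0 → η (Y * X - X * Y) = 0 :=
        fun X Y h => by rw [← neg_sub, map_neg, h, neg_zero]
      have ad : Adm g ⊥ i η := by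
        refine ⟨h1, hη, ⟨X0, hX0, by rw [e1]; exact one_ne_zero⟩, k2,
          fun a b hab X hX Y hY => ?_, fun X hX => by rw [(Submodule.mem_bot _).1 hX.2, map_zero]⟩
        by_cases ha : a = 0
        · subst ha
          exact k2 _ (hg.br0 hX (by rw [← hab, zero_add]; exact hY))
        by_cases hb : b = 0
        · subst hb
          exact sw _ _ (k2 _ (hg.br0 hY (by rw [← hab, add_zero]; exact hX)))
        have up : ∀ a b, a + b = i → ∀ U ∈ g.r a, ∀ V ∈ g.r (b + 1), η (U * V - V * U) = 0 :=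
          fun a b hab U hU V hV => k2 _ (by rw [← hab, add_assoc]; exact g.br _ _ U hU V hV)
        obtain ⟨u, hu, u', hu', rfl⟩ := Submodule.mem_sup.1 (ih a (by omega) (by omega) hX)
        obtain ⟨v, hv, v', hv', rfl⟩ := Submodule.mem_sup.1 (ih b (by omega) (by omega) hY)
        have t1 := k1 _ (hab ▸ h.br _ _ u hu v hv)
        have t2 := up a b hab _ hX _ hv'
        have t3 := sw _ _ (up b a (by omega) _ (hle b hv) _ hu')
        rw [show (u + u') * (v + v') - (v + v') * (u + u') = (u * v - v * u)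
          + ((u + u') * v' - v' * (u + u')) + (u' * v - v * u') by noncomm_ring,
          map_add, map_add, t1, t2, t3, add_zero, add_zero]
      refine hc ⟨i, η, ad, fun j X hX => (ad.mem_ker hg).2 ⟨hle j hX, fun hj => k1 X ?_⟩⟩
      by_cases h0 : j = 0
      · rw [← hj, h0, max_eq_right (Nat.zero_le 1), ← hh.zero, ← h0]; exact hX
      · rw [← hj, max_eq_left (by omega)]; exact hX
  have key : ∀ k i, 1 ≤ i → D < i + k → g.r i ≤ h.r i := by
    intro k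
    induction k with
    | zero => intro i _ h2; exact (hg.eq_bot h2).le.trans bot_le
    | succ k ih =>
      intro i h1 h2
      exact (step i h1).trans (sup_le le_rfl ((ih (i + 1) (by omega) (by omega)).trans (hh.anti i)))
  refine hne fun i => ?_
  by_cases h0 : i = 0
  · rw [h0, hg.zero, hh.zero]; exact key D 1 le_rfl (by omega)
  · exact key D i (by omega) (by omega)

theorem Rg.sh_sh (a b : σ → FF) (x : PS lv σ FF) : sh a (sh b x) = sh (a + b) x := by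
  rw [sh, sh, sh, sb_sb]
  congr 2
  ext1 l
  simp [add_assoc]

theorem Rg.sh_zero (x : PS lv σ FF) : sh 0 x = x := by
  apply UT.ext
  ext p q : 2
  simp [sh, sb]

theorem Rg.cst_mem_EE {S : Sc K σ} {a : UT lv FF} (h : Ent (S.s 0 : Set FF) (lg a)) :
    cst σ a ∈ S.EE lv := Sc.mem_EE.2 fun β => by
  rw [lg_cst, co_C]
  split_ifs with h0
  · rw [h0]; exact h
  · exact Ent.zero _

/-- The kernel of a function that is additive on a subgroup. -/
def Rg.kerG {M : Type} [Group M] (G : Subgroup M) (φ : M → FF)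
    (hφ : ∀ x ∈ G, ∀ y ∈ G, φ (x * y) = φ x + φ y) : Subgroup M where
  carrier := {x | x ∈ G ∧ φ x = 0}
  one_mem' := ⟨one_mem _, by simpa using hφ 1 (one_mem _) 1 (one_mem _)⟩
  mul_mem' {x y} hx hy := ⟨mul_mem hx.1 hy.1, by rw [hφ x hx.1 y hy.1, hx.2, hy.2, add_zero]⟩
  inv_mem' {x} hx := ⟨inv_mem hx.1, by
    have h1 : φ 1 = 0 := by simpa using hφ 1 (one_mem _) 1 (one_mem _)
    have := hφ x hx.1 x⁻¹ (inv_mem hx.1)
    rwa [mul_inv_cancel, h1, hx.2, zero_add, eq_comm] at this⟩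

theorem Rg.add_inv {M : Type} [Group M] {G : Subgroup M} {φ : M → FF}
    (hφ : ∀ x ∈ G, ∀ y ∈ G, φ (x * y) = φ x + φ y) {x : M} (hx : x ∈ G) : φ x⁻¹ = -φ x := by
  have h1 : φ 1 = 0 := by simpa using hφ 1 (one_mem _) 1 (one_mem _)
  have := hφ x hx x⁻¹ (inv_mem hx)
  rw [mul_inv_cancel, h1] at this
  linear_combination -this

theorem Adm.hom0 {g : Fam K lv ℕ} {n η} (h : Adm g n 1 η) {D} (hg : g.Fil D) {x y : UT lv FF}
    (hx : x ∈ g.GG) (hy : y ∈ g.GG) : η (lg (x * y)) = η (lg x) + η (lg y) := by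
  have k : ∀ a ∈ g.r 0, ∀ b ∈ g.r 0, a * b - b * a ∈ g.r 0 ⊓ LinearMap.ker η := fun a ha b hb =>
    ⟨g.lie0.br a ha b hb, h.br 0 1 rfl a ha b (hg.zero ▸ hb)⟩
  have : η _ = 0 := (lg_mul_sub (𝔏 := g.lie0) (J := (g.r 0 ⊓ LinearMap.ker η).restrictScalars ℚ)
    (fun _ hX => hX.1) (fun a ha b hb => k a ha b hb.1) hx hy (k _ hx _ hy)).2
  rw [map_sub, map_sub] at this
  linear_combination this

theorem Rg.unit_eq (β : Unit →₀ ℕ) : β = Finsupp.single () β.degree := by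
  ext
  simp [Finsupp.degree_eq_sum]

theorem Adm.ev0 {g : Fam K lv ℕ} {n η} (h : Adm g n 1 η) {D} (hg : g.Fil D) {x : PS lv Unit FF}
    (hx : x ∈ (g.fine Unit).PG) (h1 : η (co (Finsupp.single () 1) (lg x)) = 0) (a : Unit → FF) :
    η (lg (ev a x)) = η (lg (ev 0 x)) := by
  rw [lg_ev, lg_ev, map_sum, map_sum]
  refine sum_congr rfl fun γ _ => ?_
  rw [map_smul, map_smul]
  by_cases h0 : γ = 0
  · subst h0; simp
  have : η (co γ (lg x)) = 0 := by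
    by_cases h2 : γ.degree = 1
    · rw [Rg.unit_eq γ, h2]; exact h1
    · have : γ.degree ≠ 0 := fun c => h0 ((Finsupp.degree_eq_zero_iff γ).1 c)
      exact h.nxt _ (hg.le (show 1 + 1 ≤ γ.degree by omega) (hx γ))
  rw [this, smul_zero, smul_zero]

end alg

variable {Y S : Type} [NS Y S] {ι : Type} [Fintype ι] [DecidableEq ι] {lv : ι → ℕ} {Q : HR}
  [Fact (2 ≤ Q)] {T : Ns (Finset S)} {p : Y → HZ} {P : HZ} {A R c : HR}

theorem Rt_le_p (c : HR) (z : HZ) (β : Unit →₀ ℕ) :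
    (Rt Q fun _ : Unit => c).s β ≤ (Rt Q fun _ : Unit => c * ci z).s β := by
  rw [mul_comm]; exact Rt_le_mul z (fun _ => c) β

theorem LL_le_p (c : HR) (z : HZ) : LL Q c lv ≤ LL Q (c * ci z) lv := Sc.EE_mono (Rt_le_p c z)

theorem Par.tiny (hP : Par Q T p P) (ht : Tiny Q (c * ci P / R)) {a : Y} (ha : Mem a T) :
    Tiny Q (c * ci (p a) / R) := by
  have := ht.mul (hP.div_OO ha)
  rwa [show c * ci P / R * (ci (p a) / ci P) = c * ci (p a) / R by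
    have := hP.ci_pos.ne'; field_simp] at this

theorem rig_scalar (hP : Par Q T p P) (hR : R ≠ 0) (hc : c ≠ 0) (ht : Tiny Q (c * ci P / R))
    {β : Unit →₀ ℕ} {α : HR} {ρ : Y → HR} (hρ : IntF ρ) {π : Y → Prop}
    (hd : Dense Q T fun a => π a ∧ p a ≠ 0 ∧ α - ρ a ∈ (Sm Q fun _ : Unit => R).s β ∧
      ρ a ∈ (Rt Q fun _ : Unit => c * ci (p a)).s β) :
    ∃ ρ0 ∈ (Rt Q fun _ : Unit => c).s β, α - ρ0 ∈ (Sm Q fun _ : Unit => R).s β ∧
      Dense Q T fun a => π a ∧ ρ a = ρ0 := by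
  by_cases hβ : β = 0
  · subst hβ
    have e1 : ∀ x : HR, x ∈ (Sm Q fun _ : Unit => R).s 0 ↔ x ∈ OO Q := fun x => by
      change x * _ ∈ OO Q ↔ _
      simp
    have e2 : ∀ w x : HR, x ∈ (Rt Q fun _ : Unit => w).s 0 ↔ x ∈ RT Q := fun w x => by
      change x * _ ∈ RT Q ↔ _
      simp
    simp only [e1, e2] at hd ⊢
    obtain ⟨a0, -, -, -, h1, h2⟩ := hd.exists
    obtain ⟨κ, -, d⟩ := pigeon (J := Unit) (q := fun a κ => ρ a = ρ a0 + κ ())
      (IntP.eq (by fun_prop) (by fun_prop)).sig (hd.mono fun a _ ha => ⟨ha,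
        fun _ => ρ a - ρ a0, fun _ => ⟨by
          have := sub_mem h1 ha.2.2.1
          rwa [sub_sub_sub_cancel_left] at this, sub_mem ha.2.2.2 h2⟩, by simp⟩)
    obtain ⟨a, -, h3, h4⟩ := d.exists
    exact ⟨_, h4 ▸ h3.2.2.2, h4 ▸ h3.2.2.1, d.mono fun a _ ha => ⟨ha.1.1, ha.2⟩⟩
  · have h1 := hP.scalar (N := fun _ : Unit => R) (w := fun _ => c) (fun _ => ⟨hR, hc, ht⟩)
      (β := β) (x := α) (hd.mono fun a _ ha => by
        have := Submodule.add_mem_sup ha.2.2.1 ha.2.2.2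
        rwa [sub_add_cancel] at this)
    obtain ⟨s, hs, ρ0, h0, rfl⟩ := Submodule.mem_sup.1 h1
    refine ⟨ρ0, h0, by rwa [add_sub_cancel_right], hd.mono fun a ha h => ⟨h.1, ?_⟩⟩
    have sep := sep_Sm_Rt (Q := Q) (N := fun _ : Unit => R) (w := fun _ => c * ci (p a))
      (fun _ => ⟨hR, mul_ne_zero hc ((map_ne_zero_iff ci ci_inj).2 h.2.1), hP.tiny ht ha⟩) β hβ
    have h2 : ρ a - ρ0 ∈ (Sm Q fun _ : Unit => R).s β ⊓ (Rt Q fun _ : Unit => c * ci (p a)).s β :=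
      ⟨by
        have := sub_mem hs h.2.2.1
        rwa [show s - (s + ρ0 - ρ a) = ρ a - ρ0 by ring] at this,
      sub_mem h.2.2.2 (Rt_le_p c _ β h0)⟩
    rwa [sep, Submodule.mem_bot, sub_eq_zero] at h2

variable (Q T p A R c) in
/-- Rigidity from the group `G` to the subgroup `H`. -/
def RigP (G H : Subgroup (PS lv Unit HR)) : Prop :=
  ∀ w ∈ G, ∀ e γ : Y → PS lv Unit HR, IntS e → IntS γ → ∀ π : Y → Prop,
    (Dense Q T fun a => π a ∧ p a ≠ 0 ∧ e a ∈ G ⊓ EA Q A R lv ∧ γ a ∈ G ⊓ LL Q (c * ci (p a)) lv ∧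
      (e a)⁻¹ * w * (γ a)⁻¹ ∈ H) →
    ∃ e0 ∈ G ⊓ EA Q A R lv, ∃ γ0 ∈ G ⊓ LL Q c lv,
      Dense Q T fun a => π a ∧ e0⁻¹ * e a ∈ H ∧ γ a * γ0⁻¹ ∈ H

theorem RigP.refl (G : Subgroup (PS lv Unit HR)) : RigP Q T p A R c G G :=
  fun _ _ _ _ _ _ _ hd => ⟨1, one_mem _, 1, one_mem _, hd.mono fun a _ ha =>
    ⟨ha.1, by simpa using ha.2.2.1.1, by simpa using ha.2.2.2.1.1⟩⟩

theorem RigP.trans {G G' H : Subgroup (PS lv Unit HR)} (h1 : RigP Q T p A R c G G')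
    (h2 : RigP Q T p A R c G' H) (l1 : G' ≤ G) (l2 : H ≤ G') : RigP Q T p A R c G H := by
  intro w hw e γ he hγ π hd
  obtain ⟨e0, he0, γ0, hγ0, d⟩ := h1 w hw e γ he hγ _ (hd.mono fun a _ ha =>
    ⟨ha, ha.2.1, ha.2.2.1, ha.2.2.2.1, l2 ha.2.2.2.2⟩)
  have hw' : e0⁻¹ * w * γ0⁻¹ ∈ G' := by
    obtain ⟨a, -, h3, h4, h5⟩ := d.exists
    have := mul_mem (mul_mem h4 (l2 h3.2.2.2.2)) h5
    rwa [show e0⁻¹ * e a * ((e a)⁻¹ * w * (γ a)⁻¹) * (γ a * γ0⁻¹) = e0⁻¹ * w * γ0⁻¹ by group] at this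
  obtain ⟨e1, he1, γ1, hγ1, d'⟩ := h2 _ hw' (fun a => e0⁻¹ * e a) (fun a => γ a * γ0⁻¹)
    ((IntS.const _).mul he) (hγ.mul (IntS.const _)) π (d.mono fun a _ ⟨h3, h4, h5⟩ =>
      ⟨h3.1, h3.2.1, ⟨h4, (EA Q A R lv).mul_mem ((EA Q A R lv).inv_mem he0.2) h3.2.2.1.2⟩,
        ⟨h5, (LL Q _ lv).mul_mem h3.2.2.2.1.2 ((LL Q _ lv).inv_mem (LL_le_p c _ hγ0.2))⟩, by
        rw [show (e0⁻¹ * e a)⁻¹ * (e0⁻¹ * w * γ0⁻¹) * (γ a * γ0⁻¹)⁻¹
          = (e a)⁻¹ * w * (γ a)⁻¹ by group]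
        exact h3.2.2.2.2⟩)
  refine ⟨e0 * e1, mul_mem he0 ⟨l1 he1.1, he1.2⟩, γ1 * γ0, mul_mem ⟨l1 hγ1.1, hγ1.2⟩ hγ0,
    d'.mono fun a _ ha => ⟨ha.1, ?_, ?_⟩⟩
  · rw [mul_inv_rev, mul_assoc]; exact ha.2.1
  · rw [mul_inv_rev, ← mul_assoc]; exact ha.2.2

theorem rig_step (hP : Par Q T p P) (hR : R ≠ 0) (hc : c ≠ 0) (ht : Tiny Q (c * ci P / R))
    {G : Subgroup (PS lv Unit HR)} {φ : PS lv Unit HR → HR}
    (hφ : ∀ x ∈ G, ∀ y ∈ G, φ (x * y) = φ x + φ y)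
    (hi : ∀ x : Y → PS lv Unit HR, IntS x → IntF fun a => φ (x a)) (β : Unit →₀ ℕ)
    (hE : ∀ e ∈ G ⊓ EA Q A R lv, φ e ∈ (Sm Q fun _ : Unit => R).s β)
    (hL : ∀ w, ∀ γ ∈ G ⊓ LL Q w lv, φ γ ∈ (Rt Q fun _ : Unit => w).s β)
    (sE : ∀ s ∈ (Sm Q fun _ : Unit => R).s β, ∃ e ∈ G ⊓ EA Q A R lv, φ e = s)
    (sL : ∀ s ∈ (Rt Q fun _ : Unit => c).s β, ∃ γ ∈ G ⊓ LL Q c lv, φ γ = s) :
    RigP Q T p A R c G (Rg.kerG G φ hφ) := by
  intro w hw e γ he hγ π hd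
  have key : ∀ a, e a ∈ G → γ a ∈ G → (e a)⁻¹ * w * (γ a)⁻¹ ∈ Rg.kerG G φ hφ →
      φ w - φ (γ a) = φ (e a) := fun a h1 h2 h3 => by
    have := h3.2
    rw [hφ _ (mul_mem (inv_mem h1) hw) _ (inv_mem h2), hφ _ (inv_mem h1) _ hw, Rg.add_inv hφ h1,
      Rg.add_inv hφ h2] at this
    linear_combination this
  obtain ⟨ρ0, h1, h2, d⟩ := rig_scalar hP hR hc ht (α := φ w) (β := β) (hi γ hγ)
    (hd.mono fun a _ ha => ⟨ha, ha.2.1,
      key a ha.2.2.1.1 ha.2.2.2.1.1 ha.2.2.2.2 ▸ hE _ ha.2.2.1, hL _ _ ha.2.2.2.1⟩)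
  obtain ⟨e0, he0, h3⟩ := sE _ h2
  obtain ⟨γ0, hγ0, h4⟩ := sL _ h1
  refine ⟨e0, he0, γ0, hγ0, d.mono fun a _ ⟨ha, h5⟩ => ⟨ha.1,
    ⟨mul_mem (inv_mem he0.1) ha.2.2.1.1, ?_⟩, ⟨mul_mem ha.2.2.2.1.1 (inv_mem hγ0.1), ?_⟩⟩⟩
  · rw [hφ _ (inv_mem he0.1) _ ha.2.2.1.1, Rg.add_inv hφ he0.1, h3,
      ← key a ha.2.2.1.1 ha.2.2.2.1.1 ha.2.2.2.2, h5, neg_add_cancel]
  · rw [hφ _ ha.2.2.2.1.1 _ (inv_mem hγ0.1), Rg.add_inv hφ hγ0.1, h4, h5, add_neg_cancel]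

theorem rig_adm (hP : Par Q T p P) (hR : R ≠ 0) (hc : c ≠ 0) (ht : Tiny Q (c * ci P / R))
    {g : Fam (KK Q) lv ℕ} {D} (hg : g.Fil D) {n i η} (ha : Adm g n i η) :
    RigP Q T p A R c (g.fine Unit).PG ((ha.ker hg).fine Unit).PG := by
  classical
  obtain ⟨W, hW, hK, h1⟩ := ha.rat.exists_one (g.rat i) ha.ne
  have hd : (Finsupp.single () i).degree = i := Finsupp.degree_single _ _
  have hφ : ∀ x ∈ (g.fine Unit).PG, ∀ y ∈ (g.fine Unit).PG,
      η (co (Finsupp.single () i) (lg (x * y))) = η (co (Finsupp.single () i) (lg x))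
        + η (co (Finsupp.single () i) (lg y)) := fun x hx y hy => ha.hom hg hx hy hd
  have sec : ∀ (U : Sc (KK Q) Unit), ∀ s ∈ U.s (Finsupp.single () i),
      ∃ e ∈ (g.fine Unit).PG ⊓ U.EE lv, η (co (Finsupp.single () i) (lg e)) = s := by
    intro U s hs
    obtain ⟨e, he, e1⟩ := exists_hom_elt (S := U) ha.pos hW hK {Finsupp.single () i}
      (fun β => if β = Finsupp.single () i then s else 0)
      (fun β => by
        split_ifs with h
        exacts [h ▸ hs, zero_mem _]) fun β hβ => if_neg (by simpa using hβ)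
    exact ⟨e, ⟨Fam.PG_mono (Fam.plus_le _) he.1, he.2⟩, by rw [e1]; simp [h1]⟩
  have r1 := rig_step (A := A) (φ := fun x => η (co (Finsupp.single () i) (lg x))) hP hR hc ht hφ
    (fun x hx => IntF.lin η (hx.co_lg _)) (Finsupp.single () i)
    (fun e he => by
      rw [← ha.sh hg he.1 (fun _ => A) hd]
      exact ha.rat.mem (Sc.mem_EE.1 (mem_EA.1 he.2) _))
    (fun w γ hγ => ha.rat.mem (Sc.mem_EE.1 (mem_LL.1 hγ.2) _))
    (fun s hs => by
      obtain ⟨e, he, e1⟩ := sec _ s hs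
      refine ⟨sh (fun _ => -A) e, ⟨(sh_mem hg he.1 _).1, mem_EA.2 ?_⟩,
        by rw [ha.sh hg he.1 _ hd, e1]⟩
      rw [Rg.sh_sh, show ((fun _ => A) + fun _ => -A : Unit → HR) = 0 by ext; simp, Rg.sh_zero]
      exact he.2) (sec _)
  by_cases hi : i = 1
  · subst hi
    have hW0 : W ∈ g.r 0 := hg.zero ▸ hW
    set G1 := Rg.kerG _ (fun x => η (co (Finsupp.single () 1) (lg x))) hφ
    have hψ : ∀ x ∈ G1, ∀ y ∈ G1,
        η (lg (ev 0 (x * y))) = η (lg (ev 0 x)) + η (lg (ev 0 y)) := fun x hx y hy => by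
      rw [map_mul, ha.hom0 hg (ev_mem hg hx.1 _) (ev_mem hg hy.1 _)]
    have sec0 : ∀ s : HR, cst Unit (ex lv (s • W)) ∈ G1 ∧ lg (ex lv (s • W)) = s • W ∧
        η (lg (ev 0 (cst Unit (ex lv (s • W))))) = s := fun s => by
      have m : s • W ∈ g.r 0 := Submodule.smul_mem _ _ hW0
      have e := lg_ex (g.up 0 _ m)
      refine ⟨⟨cst_mem (by rw [Fam.mem_GG, e]; exact m), ?_⟩, e, by rw [ev_cst, e]; simp [h1]⟩
      change η _ = 0
      rw [lg_cst, co_C, if_neg (by simp), map_zero]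
    have r2 := rig_step (A := A) (φ := fun x => η (lg (ev 0 x))) hP hR hc ht hψ (fun x hx => IntF.lin η (IntF.lg (hx.ev (IntF.const 0)))) 0
      (fun e he => by
        rw [← ha.ev0 hg he.1.1 he.1.2 (fun _ => A), ← zero_add (fun _ => A : Unit → HR), ← ev_sh,
          ← co_zero_lg]
        exact ha.rat.mem (Sc.mem_EE.1 (mem_EA.1 he.2) _))
      (fun w γ hγ => by rw [← co_zero_lg]; exact ha.rat.mem (Sc.mem_EE.1 (mem_LL.1 hγ.2) _))
      (fun s hs => ⟨_, ⟨(sec0 s).1, mem_EA.2 (by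
        rw [sh_cst]
        exact Rg.cst_mem_EE (by rw [(sec0 s).2.1]; exact Ent.smul hs hK))⟩, (sec0 s).2.2⟩)
      (fun s hs => ⟨_, ⟨(sec0 s).1,
        Rg.cst_mem_EE (by rw [(sec0 s).2.1]; exact Ent.smul hs hK)⟩, (sec0 s).2.2⟩)
    have e : ((ha.ker hg).fine Unit).PG = Rg.kerG G1 (fun x => η (lg (ev 0 x))) hψ := by
      ext x
      constructor
      · intro hx
        exact ⟨⟨Fam.PG_mono (Fam.fine_mono (ha.ker_le hg)) hx,
          ((ha.mem_ker hg).1 (hx _)).2 (by simp)⟩, by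
          change η _ = 0
          rw [← co_zero_lg]; exact ((ha.mem_ker hg).1 (hx 0)).2 (by simp)⟩
      · intro hx β
        refine (ha.mem_ker hg).2 ⟨hx.1.1 β, fun h => ?_⟩
        by_cases h0 : β.degree = 0
        · rw [(Finsupp.degree_eq_zero_iff β).1 h0, co_zero_lg]; exact hx.2
        · rw [Rg.unit_eq β, show β.degree = 1 by omega]; exact hx.1.2
    rw [e]
    exact r1.trans r2 (fun _ h => h.1) fun _ h => h.1
  · have e : ((ha.ker hg).fine Unit).PG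
        = Rg.kerG _ (fun x => η (co (Finsupp.single () i) (lg x))) hφ := by
      ext x
      constructor
      · intro hx
        exact ⟨Fam.PG_mono (Fam.fine_mono (ha.ker_le hg)) hx,
          ((ha.mem_ker hg).1 (hx _)).2 (by have := ha.pos; simp; omega)⟩
      · intro hx β
        refine (ha.mem_ker hg).2 ⟨hx.1 β, fun h => ?_⟩
        rw [Rg.unit_eq β, show β.degree = i by omega]; exact hx.2
    rw [e]; exact r1

theorem rigP (hP : Par Q T p P) (hR : R ≠ 0) (hc : c ≠ 0) (ht : Tiny Q (c * ci P / R))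
    {g k : Fam (KK Q) lv ℕ} {D} (hg : g.Fil D) (hk : k.Fil D) (hle : k ≤ g) :
    RigP Q T p A R c (g.fine Unit).PG (k.fine Unit).PG := by
  induction hm : ∑ j ∈ range (D + 1), Module.finrank HR (g.r j) using Nat.strong_induction_on
    generalizing g with
  | _ m ih =>
    by_cases h : g ≤ k
    · rw [le_antisymm h hle]; exact RigP.refl _
    obtain ⟨i, η, ha, h1⟩ := exists_adm hg hk hle h
    have hlt : ∑ j ∈ range (D + 1), Module.finrank HR ((ha.ker hg).r j) < m := by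
      rw [← hm]
      exact sum_lt_sum (fun j _ => Submodule.finrank_mono (ha.ker_le hg j))
        ⟨i, mem_range.2 (Nat.lt_succ_of_le (ha.le hg)),
          Submodule.finrank_lt_finrank_of_lt (ha.ker_lt hg)⟩
    exact (rig_adm hP hR hc ht hg ha).trans (ih _ hlt (ha.ker_fil hg) h1 rfl)
      (Fam.PG_mono (Fam.fine_mono (ha.ker_le hg))) (Fam.PG_mono (Fam.fine_mono h1))

/-- Rigidity. -/
theorem rig (hP : Par Q T p P) (hR : R ≠ 0) (hc : c ≠ 0) (ht : Tiny Q (c * ci P / R))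
    {g k : Fam (KK Q) lv ℕ} {D} (hg : g.Fil D) (hk : k.Fil D) (hle : k ≤ g)
    {w : PS lv Unit HR} (hw : w ∈ (g.fine Unit).PG) {e γ : Y → PS lv Unit HR} (he : IntS e)
    (hγ : IntS γ) {π : Y → Prop}
    (hd : Dense Q T fun a => π a ∧ p a ≠ 0 ∧ e a ∈ (g.fine Unit).PG ⊓ EA Q A R lv ∧
      γ a ∈ (g.fine Unit).PG ⊓ LL Q (c * ci (p a)) lv ∧
      (e a)⁻¹ * w * (γ a)⁻¹ ∈ (k.fine Unit).PG) :
    ∃ e0 ∈ (g.fine Unit).PG ⊓ EA Q A R lv, ∃ γ0 ∈ (g.fine Unit).PG ⊓ LL Q c lv,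
      Dense Q T fun a => π a ∧ e0⁻¹ * e a ∈ (k.fine Unit).PG ∧
        γ a * γ0⁻¹ ∈ (k.fine Unit).PG := rigP hP hR hc ht hg hk hle w hw e γ he hγ π hd

end Pool.Agent.P.MP_a14ce1_nt.Nil
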