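import Pool.Agent.P.MP_a14ce1_nt.Nil.XD
import Pool.Agent.P.MP_a14ce1_nt.Nil.PigW
import Pool.Agent.P.MP_a14ce1_nt.Nil.Rig
import Pool.Agent.P.MP_a14ce1_nt.Nil.Good

/-! A generic parameter keeps the factorisations of most tests stable. -/

open Filter Finset MvPolynomial

set_option linter.unusedSectionVars false

noncomputable section

namespace Pool.Agent.P.MP_a14ce1_nt.Nil

variable {Y S : Type} [NS Y S] {ι : Type} [Fintype ι] [DecidableEq ι] {lv : ι → ℕ} {Q : HR}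
  [Fact (2 ≤ Q)] {A R b : HR} {P : HZ} {g r : Fam (KK Q) lv ℕ} {D : ℕ} {π : (Unit → HZ) → Prop}

/-- A factorisation on the lattices `b p` for a dense set of `p` comes from the lattice `b`. -/
theorem denseW (hP : Long Q fun _ : Unit => P) (hR : R ≠ 0) (hb : b ≠ 0)
    (ht : Tiny Q (b * ci P / R)) (hg : g.Fil D) (hr : r.Fil D) (hle : r ≤ g) {z : PS lv Unit HR}
    (hd : Dense Q (box fun _ : Unit => P) fun p : Unit → HZ =>
      p () ≠ 0 ∧ FW Q A R (b * ci (p ())) g r z) :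
    FW Q A R b g r z := by
  obtain ⟨_, -, -, h0⟩ := hd.exists
  obtain ⟨e, y, γ, he, -, hγ, d⟩ := Dense.fw (c := fun p : Unit → HZ => b * ci (p ())) hg
    (by fun_prop) (IntS.const z) hd
  obtain ⟨e0, he0, γ0, hγ0, d'⟩ := rig (A := A) (par_box (hP ()).1 (hP ()).2) hR hb ht hg hr hle
    h0.mem he hγ (π := fun a => y a ∈ (r.fine Unit).PG ∧ z = e a * y a * γ a)
    (d.mono fun a _ ⟨h1, h2, h3, h4, h5⟩ => ⟨⟨h3.2, h5⟩, h1, h2, h4, by
      rw [show (e a)⁻¹ * z * (γ a)⁻¹ = y a by rw [h5]; group]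
      exact h3.2⟩)
  obtain ⟨a, -, ⟨h1, h2⟩, h3, h4⟩ := d'.exists
  have h5 := mul_mem (mul_mem h3 h1) h4
  exact ⟨e0, he0, _, ⟨Fam.PG_mono (Fam.fine_mono hle) h5, h5⟩, γ0, hγ0, by rw [h2]; group⟩

theorem SigF.tot {I : Type} [AddCommMonoid I] (s t : Finset I) (j : ℕ) :
    SigF s fun (_ : Y) (h : Fam (KK Q) lv I) => ∑ i ∈ t, Module.finrank HR (h.r i) < j :=
  (SigF.any fun d : t → ℕ => (SigF.of_sig (Sig.const (∑ i, d i < j))).and
    (SigF.all fun i : t => SigF.rank i.1 (d i))).congr fun _ k _ =>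
    ⟨fun h => ⟨fun i => Module.finrank HR (k.r i), by
        rwa [sum_coe_sort t fun i => Module.finrank HR (k.r i)], fun _ => rfl⟩,
      fun ⟨d, h1, h2⟩ => by rw [← sum_coe_sort]; simpa only [h2] using h1⟩

variable (Q) in
/-- A factorisation through a family of total dimension below `j`. -/
def FWd (A R c : HR) (g : Fam (KK Q) lv ℕ) (D j : ℕ) (z : PS lv Unit HR) : Prop :=
  ∃ m : Fam (KK Q) lv ℕ, (∀ i ∉ range (D + 1), m.r i = ⊥) ∧ (m ≤ g ∧ m.Fil D ∧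
    ∑ i ∈ range (D + 1), Module.finrank HR (m.r i) < j) ∧ FW Q A R c g m z

theorem sigF_fwd (hg : g.Fil D) (A R : HR) (j : ℕ) {c : Y → HR} (hc : IntF c)
    {z : Y → PS lv Unit HR} (hz : IntS z) : SigF (range (D + 1)) fun a (m : Fam (KK Q) lv ℕ) =>
      (m ≤ g ∧ m.Fil D ∧ ∑ i ∈ range (D + 1), Module.finrank HR (m.r i) < j) ∧
        FW Q A R (c a) g m (z a) :=
  ((SigF.le g).and ((SigF.fil D).and (SigF.tot _ _ j))).and (SigF.fw hg A R hc hz _)

theorem Sig.fwd (hg : g.Fil D) (A R : HR) (j : ℕ) {c : Y → HR} (hc : IntF c)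
    {z : Y → PS lv Unit HR} (hz : IntS z) : Sig fun a => FWd Q A R (c a) g D j (z a) :=
  (sigF_fwd hg A R j hc hz).ex

theorem FWd.dense (hP : Long Q fun _ : Unit => P) (hR : R ≠ 0) (hb : b ≠ 0)
    (ht : Tiny Q (b * ci P / R)) (hg : g.Fil D) {j : ℕ} {z : PS lv Unit HR}
    (hd : Dense Q (box fun _ : Unit => P) fun p : Unit → HZ =>
      p () ≠ 0 ∧ FWd Q A R (b * ci (p ())) g D j z) :
    FWd Q A R b g D j z := by
  obtain ⟨m, h0, d⟩ := pigeon_sigF (sigF_fwd (c := fun p : Unit → HZ => b * ci (p ())) hg A R j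
    (by fun_prop) (IntS.const z)) hd
  obtain ⟨_, -, -, h1, -⟩ := d.exists
  exact ⟨m, h0, h1, denseW hP hR hb ht hg h1.2.1 h1.1 (d.mono fun _ _ h => ⟨h.1, h.2.2⟩)⟩

theorem FWd.stab {c : HR} {u : HZ} (hl : Lat Q R (c * ci u)) {j : ℕ} {z : PS lv Unit HR}
    (h : FWd Q A R c g D (j + 1) z) (hn : ¬FWd Q A R (c * ci u) g D j z) :
    XStab Q A R c (c * ci u) g D z := by
  obtain ⟨m, -, ⟨h1, h2, h3⟩, e, he, y, hy, γ, hγ, rfl⟩ := h
  refine ⟨m, h1, h2, e, he, y, hy.2, γ, hγ, rfl, by_contra fun hi => hn ?_⟩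
  obtain ⟨k, b1, b2, ⟨i, -, b3⟩, -, b5⟩ := peelW hl h2 ⟨isRat_bot, bot_le, fun X _ Z hZ => by
    rw [Submodule.mem_bot] at hZ; simp [hZ]⟩ hy.2 hi A
  refine ⟨k, fun i hi => b2.eq_bot (by simpa using hi), ⟨b1.trans h1, b2, ?_⟩,
    (b5.mono h1 le_rfl).mul he ⟨hγ.1, LL_le_p c u hγ.2⟩⟩
  refine (sum_lt_sum (fun i _ => Submodule.finrank_mono (b1 i)) ⟨i, mem_range.2 ?_,
    Submodule.finrank_lt_finrank_of_lt b3⟩).trans_le (Nat.lt_succ_iff.1 h3)
  by_contra c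
  rw [h2.eq_bot (by omega)] at b3
  exact not_lt_bot b3

theorem xgood (hP : Long Q fun _ : Unit => P) (hR : 0 < R) {T : Ns (Finset S)} {v : Y → HZ}
    (hv : IntF v) (hvP : ∀ y, Mem y T → 0 < v y ∧ Tiny Q (ci (v y) * ci P / R)) (hg : g.Fil D)
    {z : Y → PS lv Unit HR} (hz : IntS z) (hzg : ∀ y, Mem y T → z y ∈ (g.fine Unit).PG)
    {s : (Unit → HZ) → Y → Prop} (hs : Sig fun a : (Unit → HZ) × Y => s a.1 a.2)
    (hπ : ∀ p : Unit → HZ, π p → 0 < p ()) (hd : Dense Q (box fun _ : Unit => P) π)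
    (hn : ¬Dense Q (fprod (box fun _ : Unit => P) T) fun a : (Unit → HZ) × Y => π a.1 ∧ s a.1 a.2) :
    ∃ p, Mem p (box fun _ : Unit => P) ∧ π p ∧ ∀ t : Y → Prop, Dense Q T t →
      ∃ y, Mem y T ∧ t y ∧ ¬s p y ∧ XStab Q A R (ci (v y)) (ci (v y) * ci (p ())) g D (z y) := by
  classical
  obtain ⟨H, h1, h2⟩ := hd.int
  let s' : Option ℕ → (Unit → HZ) → Y → Prop := fun o p y => o.elim (Mem p H ∧ s p y) fun j =>
    p () ≠ 0 ∧ FWd Q A R (ci (v y) * ci (p ())) g D j (z y)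
  have hs' : ∀ o, Sig fun a : (Unit → HZ) × Y => s' o a.1 a.2 := fun o => by
    cases o with
    | none => exact (IntP.mem IntF.id.fst (IntF.const H)).sig.and hs
    | some j =>
      exact (IntP.ne (by fun_prop) (IntF.const 0)).sig.and
        (Sig.fwd hg A R j (by fun_prop) (hz.comp IntF.id.snd))
  have hs1 : ∀ o p, Sig fun y => s' o p y := fun o p =>
    (hs' o).comp (f := fun y : Y => (p, y)) (by fun_prop)
  have hs2 : ∀ o, Sig fun y => Dense Q (box fun _ : Unit => P) fun p => s' o p y := fun o =>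
    Sig.dense (IntF.const _) ((hs' o).comp (f := fun a : Y × (Unit → HZ) => (a.2, a.1))
      (by fun_prop))
  obtain ⟨p, hp, hH, good⟩ := exists_good (T' := T) hs' h2
  have hp0 := hπ p (h1 p hH).2
  refine ⟨p, hp, (h1 p hH).2, fun t ht => ?_⟩
  have d0 : Dense Q T fun y => t y ∧ ¬s' none p y := by
    refine (ht.split (hs1 none p)).resolve_left fun d => (d.split (hs2 none)).elim
      (fun d' => hn ?_) fun d' => good none (d'.mono fun _ _ h => ⟨h.1.2, h.2⟩)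
    exact (Dense.prod' (hs' none) (d'.mono fun _ _ h => h.2)).mono fun a _ h =>
      ⟨(h1 _ h.1).2, h.2⟩
  have ex : ∃ j, Dense Q T fun y => (t y ∧ ¬s' none p y) ∧ s' (some j) p y :=
    ⟨_, d0.mono fun y hy h => ⟨h, hp0.ne', g, fun i hi => hg.eq_bot (by simpa using hi),
      ⟨le_rfl, hg, Nat.lt_succ_self _⟩, FW.of_mem (hzg y hy) (hzg y hy)⟩⟩
  have d1 := Nat.find_spec ex
  have hmin := fun j => Nat.find_min ex (m := j)
  generalize Nat.find ex = j at d1 hmin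
  cases j with
  | zero =>
    obtain ⟨_, -, -, -, _, -, h, -⟩ := d1.exists
    exact absurd h.2.2 (Nat.not_lt_zero _)
  | succ j =>
    have d2 := (d1.split (hs1 (some j) p)).resolve_left fun d =>
      hmin j (Nat.lt_succ_self j) (d.mono fun _ _ h => ⟨h.1.1, h.2⟩)
    have d3 := (d2.split (hs2 (some (j + 1)))).resolve_right fun d =>
      good (some (j + 1)) (d.mono fun _ _ h => ⟨h.1.1.2, h.2⟩)
    obtain ⟨y, hy, ⟨⟨⟨a1, a2⟩, -⟩, a3⟩, a4⟩ := d3.exists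
    have hv0 : 0 < ci (v y) := by rw [← map_zero ci]; exact ci_lt.2 (hvP y hy).1
    have hp1 : 0 < ci (p ()) := by rw [← map_zero ci]; exact ci_lt.2 hp0
    exact ⟨y, hy, a1, fun c => a2 ⟨hH, c⟩, (FWd.dense hP hR.ne' hv0.ne' (hvP y hy).2 hg a4).stab
      ⟨mul_mem (ci_mem _) (ci_mem _), mul_pos hv0 hp1, hR,
        (par_box (hP ()).1 (hP ()).2).tiny (hvP y hy).2 hp⟩ fun c => a3 ⟨hp0.ne', c⟩⟩

end Pool.Agent.P.MP_a14ce1_nt.Nil
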