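import Pool.Agent.P.MP_a14ce1_nt.Nil.XStr
import Pool.Agent.P.MP_a14ce1_nt.Nil.XGood
import Pool.Agent.P.MP_a14ce1_nt.Nil.XEnd1
import Pool.Agent.P.MP_a14ce1_nt.Nil.XEnd2
import Pool.Agent.P.MP_a14ce1_nt.Nil.XEnd3

/-! The extension theorem in the scale field. -/

open Filter Finset MvPolynomial

set_option linter.unusedSectionVars false

noncomputable section

namespace Pool.Agent.P.MP_a14ce1_nt.Nil

variable {Y S : Type} [NS Y S] {ι ι' : Type} [Fintype ι] [DecidableEq ι] [Fintype ι']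
  [DecidableEq ι'] {lv : ι → ℕ} {lv' : ι' → ℕ} {Q : HR} [Fact (2 ≤ Q)]

/-- Extension. Tests `y ∈ T` on the multiples of `v y`; `v = 1` is allowed. -/
theorem extK {g : Fam (KK Q) lv ℕ} {g' : Fam (KK Q) lv' ℕ} {D} (hg : g.Fil D) (hg' : g'.Fil D)
    {A R P V : HZ} (hP : Long Q fun _ : Unit => P) (hR : 0 < R)
    (hPV : Tiny Q (ci P * ci V * ci V / ci R)) {T : Ns (Finset S)} {v : Y → HZ} (hv : IntF v)
    (hvV : ∀ y, Mem y T → 0 < v y ∧ v y ≤ V)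
    (hcop : ¬Dense Q (fprod T T) fun z : Y × Y => ¬Cop (ci (v z.1)) (ci (v z.2)))
    {q : HR} {Ψ : Y → UT lv' HR → HC} (hΨ : IntF fun z : Y × UT lv' HR => Ψ z.1 z.2)
    {w : Y → PS lv' Unit HR} (hw : IntS w)
    (hT : ∀ y, Mem y T → Nice Q q g'.GG (Ψ y) ∧ w y ∈ (g'.fine Unit).PG)
    {F : (Unit → HZ) → UT lv HR → HC} (_hF : IntF fun z : (Unit → HZ) × UT lv HR => F z.1 z.2)
    {x : (Unit → HZ) → PS lv Unit HR} (hx : IntS x) {π : (Unit → HZ) → Prop}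
    (hd : Dense Q (box fun _ : Unit => P) fun p => π p ∧ Prm Q (ci (p ())) ∧
      Nice Q q g.GG (F p) ∧ x p ∈ (g.fine Unit).PG) :
    ∃ p, Mem p (box fun _ : Unit => P) ∧ π p ∧ ∃ u ∈ (g.fine Unit).PG, ∃ ε, Tiny Q ε ∧
      nm (Ex T fun y => Ex (lat (p () * v y) A R) fun n => Ψ y (e1 n (w y)) * F p (e1 n (x p)))
        ≤ nm (Ex T fun y => Ex (lat (v y) A R) fun n => Ψ y (e1 n (w y)) * F p (e1 n u)) + ε := by
  have iΨ : ∀ {B S' : Type} [NS B S'] {f : B → Y} {t : B → HZ}, IntF f → IntF t →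
      IntF fun b => Ψ (f b) (e1 (t b) (w (f b))) := fun hf ht =>
    hΨ.comp (hf.prodMk (hw.e1 hf ht))
  have i0 := intF_e1 (lv := lv)
  by_cases hT0 : cd T = 0
  · obtain ⟨p, h1, h2, -, h3, -⟩ := hd.exists
    refine ⟨p, h1, h2, 1, one_mem _, 0, tiny_zero, ?_⟩
    rw [Ex_empty hT0 (IntF.ex (by fun_prop) ((iΨ IntF.id.fst IntF.id.snd).mul
      (h3.int.comp ((i0 _).comp IntF.id.snd)))), nm_zero, add_zero]
    exact nm_nonneg _
  obtain ⟨y₁, hy₁⟩ := exists_mem (A := Y) hT0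
  have hV : 0 < V := (hvV y₁ hy₁).1.trans_le (hvV y₁ hy₁).2
  have R0 := ci_pos.2 hR
  have V1 := one_le_ci hV
  have P0 := ci_pos.2 (hP ()).1
  have tin : ∀ a b c : HZ, 0 < a → a ≤ P → 0 < b → b ≤ V → 0 < c → c ≤ V →
      Lat Q (ci R) (ci a * ci b * ci c) := fun a b c a0 a1 b0 b1 c0 c1 => by
    have h1 := ci_pos.2 a0
    have h2 := ci_pos.2 b0
    have h3 := ci_pos.2 c0
    refine ⟨mul_mem (mul_mem (ci_mem _) (ci_mem _)) (ci_mem _), by positivity, R0,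
      hPV.mono (by positivity) ?_⟩
    gcongr
    exacts [ci_le.2 a1, ci_le.2 b1, ci_le.2 c1]
  have one : (1 : HZ) ≤ V := ci_le.1 (by rwa [map_one])
  have bx : ∀ p : Unit → HZ, Mem p (box fun _ : Unit => P) → p () ≤ P := fun p hp =>
    ((par_box (hP ()).1 (hP ()).2).mem p hp).2.le
  obtain ⟨r, hle, hr, -, ε, x', γ, -, ix, -, d1⟩ := pigeon_resolveW hg (idl_bot g)
    (c := fun p : Unit → HZ => ci (p ())) (by fun_prop) hx (ci A) (R := ci R)
    (p := fun p => π p ∧ Prm Q (ci (p ())) ∧ Nice Q q g.GG (F p))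
    (hd.mono fun p hp h => ⟨⟨h.1, h.2.1, h.2.2.1⟩, by
      simpa using tin _ 1 1 (ci_pos.1 h.2.1.2.1) (bx p hp) one_pos one one_pos one, h.2.2.2⟩)
  obtain ⟨n, hn, y0, hy0, d2, nb⟩ := xstr (A := ci A) hP R0 hPV hv hvV hcop hg' hr hw ix hV
    (fun p h => ⟨ci_pos.1 h.1.2.1.2.1, h.2.2.1, h.2.2.2.2.2⟩) d1
  obtain ⟨p, hp, ⟨⟨⟨h1, h2, h3⟩, h4, h5, h6, h7, h8⟩, h9⟩, good⟩ := xgood (A := ci A) hP R0 hv
    (fun y hy => ⟨(hvV y hy).1, by
      simpa [mul_comm] using (tin P _ 1 (hP ()).1 le_rfl (hvV y hy).1 (hvV y hy).2 one_pos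
        one).tiny⟩)
    (hg'.prod hr) (XG.intS_dg hw (IntS.const y0)) (fun y hy => XG.dg_mem.2 ⟨(hT y hy).2, hy0⟩)
    (s := fun p y => XBad Q (ci A) (ci R) (ci (v y) * ci (p ())) g' r D n (w y) (x' p))
    (Sig.xbad hg' hr _ _ n (by fun_prop) (hw.comp IntF.id.snd) (ix.comp IntF.id.fst))
    (fun p h => ci_pos.1 h.1.1.2.1.2.1) d2 nb
  have p0 : 0 < p () := ci_pos.1 h2.2.1
  have acc := acc2 (T := T) (v := fun y => ci (v y)) (by fun_prop) h2.1 (fun _ _ => ci_mem _)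
    (fun a b ha hb => tin _ _ _ p0 (bx p hp) (hvV a ha).1 (hvV a ha).2 (hvV b hb).1 (hvV b hb).2)
    hcop hr h8
  obtain ⟨e, he, γ', hγ', k, M, z, z1, z2, z3, z4, z5⟩ :=
    xend2 R0.ne' h2 h3.lvl hg hr hle hn h4 h6 hy0 h9
  have up := Fam.PG_mono (Fam.fine_mono (σ := Unit) hle)
  have hz : ∀ j, cst Unit (z j) ∈ (g.fine Unit).PG := fun j => cst_mem (hle 0 (hn.le (z3 j)))
  have M0 := (cd_box_pos z1).ne'
  have iu : ∀ (a b : PS lv Unit HR) {B S' : Type} [NS B S'] {f : B → Fin k → HZ} {t : B → HZ},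
      IntF f → IntF t → IntF fun c => F p (e1 (t c) (a * cst Unit (z (f c)) * b)) :=
    fun a b _ _ _ _ _ hf ht => h3.int.comp
      ((((IntS.const a).mul (IntS.cst z2)).mul (IntS.const b)).e1 hf ht)
  obtain ⟨L, hL⟩ : ∃ L : Y → HC, ∀ y, L y = Ex (lat (p () * v y) A R) fun t =>
    Ψ y (e1 t (w y)) * F p (e1 t (x p)) := ⟨_, fun _ => rfl⟩
  obtain ⟨Φ, hΦ⟩ : ∃ Φ : HZ → PS lv Unit HR → (Fin k → HZ) → Y → HC, ∀ c b j y, Φ c b j y =
    Ex (lat (c * v y) A R) fun t => Ψ y (e1 t (w y)) * F p (e1 t (ε p * e * cst Unit (z j) * b)) :=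
    ⟨_, fun _ _ _ _ => rfl⟩
  have iL : IntF L := by
    rw [funext hL]
    exact IntF.ex (by fun_prop) ((iΨ IntF.id.fst IntF.id.snd).mul
      (h3.int.comp ((i0 _).comp IntF.id.snd)))
  have iΦ : ∀ c b, IntF fun a : (Fin k → HZ) × Y => Φ c b a.1 a.2 := fun c b => by
    simp only [hΦ]
    exact IntF.ex (by fun_prop) ((iΨ IntF.id.fst.snd IntF.id.snd).mul
      (iu (ε p * e) b IntF.id.fst.fst IntF.id.snd))
  have iΦ1 : ∀ c b y, IntF fun j => Φ c b j y := fun c b y =>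
    (iΦ c b).comp (IntF.id.prodMk (IntF.const y))
  have iE : IntF fun y => Ex (box M) fun j => Φ 1 (y0 * γ') j y :=
    IntF.ex (IntF.const _) ((iΦ _ _).comp (IntF.id.snd.prodMk IntF.id.fst))
  have bd : ∀ y, Mem y T → ∀ (c : HZ) (u : PS lv Unit HR), nm (Ex (lat c A R) fun t =>
      Ψ y (e1 t (w y)) * F p (e1 t u)) ≤ 1 := fun y hy c u =>
    nm_Ex_le ((iΨ (IntF.const y) IntF.id).mul (h3.int.comp (i0 _))) zero_le_one fun _ _ =>
      nm_mul_le_one ((hT y hy).1.bd _) (h3.bd _)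
  have key : TinyC Q (Ex T fun y => L y - Ex (box M) fun j => Φ 1 (y0 * γ') j y) := by
    refine tinyC_Ex_of_not_dense (iL.sub iE) (fun y hy => OO_of_abs_le (add_mem (one_mem _)
      (one_mem _)) ((abs_nm _).trans_le ((nm_sub_le _ _).trans (add_le_add (hL y ▸ bd y hy _ _)
        (nm_Ex_le (iΦ1 _ _ y) zero_le_one fun j _ => hΦ _ _ j y ▸ bd y hy _ _))))) fun hb => ?_
    obtain ⟨y, hy, ⟨b1, b2⟩, b3, b4⟩ := good _ (hb.diff (Sig.not_iw r ⊥ (ci R)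
      (c := fun y => ci (p ()) * ci (v y)) (by fun_prop) (IntS.const (x' p)) hr) acc)
    have hl : Lat Q (ci R) (ci (p () * v y)) := by
      simpa using tin _ _ 1 p0 (bx p hp) (hvV y hy).1 (hvV y hy).2 one_pos one
    have iy := iΨ (IntF.const y) (IntF.id (A := HZ))
    have c1 : TinyC Q (L y - Ex (box M) fun j => Φ (p ()) (e⁻¹ * x' p * γ p) j y) := by
      rw [← Ex_const (A := Fin k → HZ) M0 (L y)]
      refine tinyC_Ex (IntF.const _) (iΦ1 _ _ y) fun j hj => ?_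
      have := xend1 hl hg hg' hr hle h3 (hT y hy).1 (hT y hy).2 h4 h5
        ⟨h6.1, map_mul ci (p ()) (v y) ▸ LL_mono (ci_mem _) h6.2⟩ he
        (by rw [map_mul]; exact not_not.1 b2) (by rwa [map_mul, mul_comm]) (z3 j) (z4 j hj)
      simpa only [hL, hΦ, h7, mul_assoc] using this
    have c2 : TinyC Q ((Ex (box M) fun j => Φ (p ()) (e⁻¹ * x' p * γ p) j y)
        - Ex (box M) fun j => Φ (p ()) (y0 * γ') j y) := by
      have sw : ∀ b, (Ex (box M) fun j => Φ (p ()) b j y) = Ex (lat (p () * v y) A R) fun t =>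
          Ψ y (e1 t (w y)) * Ex (box M) fun j => F p (e1 t (ε p * e * cst Unit (z j) * b)) :=
        fun b => by
          simp only [hΦ]
          rw [Ex_comm ((iy.comp IntF.id.snd).mul (iu (ε p * e) b IntF.id.fst IntF.id.snd))]
          exact congrArg _ (funext fun t => Ex_mul_left (iu (ε p * e) b IntF.id (IntF.const t)) _)
      rw [sw, sw]
      have ib : ∀ b, IntF fun t : HZ =>
          Ψ y (e1 t (w y)) * Ex (box M) fun j => F p (e1 t (ε p * e * cst Unit (z j) * b)) :=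
        fun b => iy.mul (IntF.ex (IntF.const _) (iu (ε p * e) b IntF.id.snd IntF.id.fst))
      refine tinyC_Ex (ib _) (ib _) fun t ht => ?_
      rw [← mul_sub]
      refine TinyC.mul' ?_ (nm_OO ((hT y hy).1.bd _))
      simpa only [mul_assoc] using z5 _ h3 t ((dvd_mul_right _ _).trans (mem_lat.1 ht).2.2)
        (lat_OO R0 ht)
    have c3 : TinyC Q ((Ex (box M) fun j => Φ (p ()) (y0 * γ') j y)
        - Ex (box M) fun j => Φ 1 (y0 * γ') j y) := by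
      refine tinyC_Ex (iΦ1 _ _ y) (iΦ1 _ _ y) fun j hj => ?_
      have := xend3 (hvV y hy).1 h2 (by rwa [mul_comm]) hg hg' hr hle h3 (hT y hy).1
        (Subgroup.mul_mem _ (Subgroup.mul_mem _ h4 ⟨up he.1, he.2⟩)
          ⟨hz j, cst_mem_EA.2 (z4 j hj)⟩) hγ' b4
      simpa only [hΦ, mul_assoc, one_mul, mul_comm (v y)] using this
    exact (c1.trans c2).trans c3 b1
  have iJ : IntF fun j => nm (Ex T (Φ 1 (y0 * γ') j)) := (IntF.ex (IntF.const _) (iΦ _ _)).nm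
  obtain ⟨j, -, hj⟩ := exists_Ex_le M0 iJ
  refine ⟨p, hp, h1, ε p * e * cst Unit (z j) * (y0 * γ'), mul_mem (mul_mem (mul_mem h4.1
    (up he.1)) (hz j)) (mul_mem (up hy0) hγ'.1), _, key, ?_⟩
  rw [← funext hL, Ex_sub iL iE, ← Ex_comm (iΦ _ _)]
  refine (nm_le_add_sub _ _).trans (add_le_add ?_ le_rfl)
  refine ((nm_Ex_le_Ex (IntF.ex (IntF.const _) (iΦ _ _))).trans hj).trans_eq ?_
  rw [funext (hΦ 1 (y0 * γ') j)]
  simp only [one_mul]

end Pool.Agent.P.MP_a14ce1_nt.Nil
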