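import Pool.Agent.P.MP_a14ce1_nt.Nil.EqW
import Pool.Agent.P.MP_a14ce1_nt.Nil.Rig

/-!
Fair sampling in the scale field.
-/

open Filter Finset MvPolynomial

set_option linter.unusedSectionVars false

noncomputable section

namespace Pool.Agent.P.MP_a14ce1_nt.Nil

variable {ι : Type} [Fintype ι] [DecidableEq ι] {lv : ι → ℕ} {Q : HR} [Fact (2 ≤ Q)]

theorem Long.par {P : HZ} (hP : Long Q fun _ : Unit => P) :
    Par Q (box fun _ : Unit => P) (fun p : Unit → HZ => p ()) P := par_box (hP ()).1 (hP ()).2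

/-- Fair sampling. The exceptional set only depends on the sequence `x`. -/
theorem fsK {g : Fam (KK Q) lv ℕ} {D} (hg : g.Fil D) {A R P c : HZ}
    (hP : Long Q fun _ : Unit => P) (hc : Lat Q (ci R) (ci c))
    (hcP : Tiny Q (ci P * ci c / ci R)) {x : PS lv Unit HR} (hx : x ∈ (g.fine Unit).PG) :
    ¬Dense Q (box fun _ : Unit => P) fun p : Unit → HZ => Prm Q (ci (p ())) ∧
      ∃ q F, Nice Q q g.GG F ∧ ∃ e ∈ (g.fine Unit).PG ⊓ EA Q (ci A) (ci R) lv,
        ∃ γ ∈ (g.fine Unit).PG ⊓ LL Q (ci c) lv,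
          BigC Q ((Ex (lat (p () * c) A R) fun n => F (e1 n (e * x * γ)))
            - Ex (lat c A R) fun n => F (e1 n (e * x * γ))) := by
  intro hd
  obtain ⟨h, hle, hh, -, e0, he0, y, hy, γ0, hγ0, rfl, hi⟩ :=
    resolveW hc hg (idl_bot g) hx (ci A)
  rw [mul_comm] at hcP
  refine hP.par.accW hc.pos.ne' hc.len.ne' hcP hh hi (hd.mono fun p hp h1 hi' => ?_)
  obtain ⟨hp', q, F, hF, e, he, γ, hγ, hb⟩ := h1
  have := eqW2 (ci_pos.1 hc.pos) hp' (by
    rw [map_mul]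
    exact ⟨mul_mem hc.zz hp'.1, mul_pos hc.pos hp'.2.1, hc.len, hP.par.tiny hcP hp⟩) hg hh hle hF
    (mul_mem he he0) (mul_mem hγ0 hγ) hy (by rw [map_mul]; exact hi')
  rw [mul_comm c, show e * e0 * y * (γ0 * γ) = e * (e0 * y * γ0) * γ by group] at this
  exact this hb

end Pool.Agent.P.MP_a14ce1_nt.Nil
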