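import Pool.Agent.P.MP_a14ce1_nt.Nil.Fejer

/-! Finite boxes of integer points: shifts, cells, van der Corput, geometric sums, lines. -/

open Finset ComplexConjugate
open scoped BigOperators

namespace Pool.Agent.P.MP_a14ce1_nt.Nil.BoxF

theorem shift_le {G : Type*} [AddCommGroup G] [DecidableEq G] (B : Finset G) {φ : G → ℂ}
    (hb : ∀ n, ‖φ n‖ ≤ 1) (v : G) :
    ‖∑ n ∈ B, φ (n + v) - ∑ n ∈ B, φ n‖ ≤ 2 * ((B.filter fun n => n + v ∉ B).card : ℝ) := by
  have e1 : ∑ n ∈ B.filter (fun n => n + v ∈ B), φ (n + v) =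
      ∑ n ∈ B.filter (fun n => n - v ∈ B), φ n :=
    sum_nbij' (fun n => n + v) (fun n => n - v) (by simp +contextual) (by simp +contextual)
      (by simp) (by simp) (by simp)
  have e2 : (B.filter fun n => n + v ∈ B).card = (B.filter fun n => n - v ∈ B).card :=
    card_nbij' (fun n => n + v) (fun n => n - v) (by simp +contextual [Set.MapsTo])
      (by simp +contextual [Set.MapsTo]) (by simp [Set.LeftInvOn]) (by simp [Set.RightInvOn, Set.LeftInvOn])
  have e3 : (B.filter fun n => n - v ∉ B).card = (B.filter fun n => n + v ∉ B).card := by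
    have h1 := card_filter_add_card_filter_not (s := B) fun n => n + v ∈ B
    have h2 := card_filter_add_card_filter_not (s := B) fun n => n - v ∈ B
    omega
  have hb' : ∀ (T : Finset G) (ψ : G → ℂ), (∀ n, ‖ψ n‖ ≤ 1) → ‖∑ n ∈ T, ψ n‖ ≤ T.card :=
    fun T ψ h => (norm_sum_le _ _).trans (by simpa using sum_le_card_nsmul T _ 1 fun n _ => h n)
  rw [← sum_filter_add_sum_filter_not B (fun n => n + v ∈ B),
    ← sum_filter_add_sum_filter_not B (fun n => n - v ∈ B) φ, e1, add_sub_add_left_eq_sub]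
  refine (norm_sub_le _ _).trans ?_
  have h1 := hb' (B.filter fun n => n + v ∉ B) (fun n => φ (n + v)) fun n => hb _
  have h2 := hb' (B.filter fun n => n - v ∉ B) φ hb
  rw [e3] at h2
  linarith

variable {σ : Type} [Fintype σ] [DecidableEq σ]

/-- the box `∏ [0, N l)` -/
noncomputable abbrev bx (N : σ → ℤ) : Finset (σ → ℤ) := Fintype.piFinset fun l => Ico 0 (N l)

theorem mem_bx {N n : σ → ℤ} : n ∈ bx N ↔ ∀ l, 0 ≤ n l ∧ n l < N l := by
  simp [Fintype.mem_piFinset]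

theorem card_bx {N : σ → ℤ} (h : ∀ l, 0 ≤ N l) : ((bx N).card : ℝ) = ∏ l, (N l : ℝ) := by
  rw [Fintype.card_piFinset, Nat.cast_prod]
  refine prod_congr rfl fun l _ => ?_
  rw [Int.card_Ico, sub_zero]
  exact_mod_cast Int.toNat_of_nonneg (h l)

theorem bx_nonempty {N : σ → ℤ} (h : ∀ l, 0 < N l) : (bx N).Nonempty :=
  ⟨0, mem_bx.mpr fun l => ⟨le_rfl, h l⟩⟩

theorem card_bx_pos {N : σ → ℤ} (h : ∀ l, 0 < N l) : (0 : ℝ) < (bx N).card := by
  exact_mod_cast (bx_nonempty h).card_pos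

theorem card_slab {N : σ → ℤ} (h : ∀ l, 0 < N l) (l : σ) (p : ℤ → Prop) [DecidablePred p] :
    (((bx N).filter fun n => p (n l)).card : ℝ) * N l =
      (((Ico 0 (N l)).filter p).card : ℝ) * (bx N).card := by
  have e : (bx N).filter (fun n => p (n l)) = Fintype.piFinset
      (Function.update (fun j => Ico 0 (N j)) l ((Ico 0 (N l)).filter p)) := by
    ext n
    simp only [mem_filter, Fintype.mem_piFinset]
    constructor
    · rintro ⟨h1, h2⟩ j
      rcases eq_or_ne j l with rfl | hj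
      · rw [Function.update_self]; exact mem_filter.mpr ⟨h1 j, h2⟩
      · rw [Function.update_of_ne hj]; exact h1 j
    · intro h1
      have h2 := h1 l
      rw [Function.update_self, mem_filter] at h2
      refine ⟨fun j => ?_, h2.2⟩
      rcases eq_or_ne j l with rfl | hj
      · exact h2.1
      · simpa only [Function.update_of_ne hj] using h1 j
  rw [e, Fintype.card_piFinset, card_bx fun j => (h j).le, ← mul_prod_erase univ _ (mem_univ l),
    ← mul_prod_erase univ (fun j => (N j : ℝ)) (mem_univ l), Function.update_self, Nat.cast_mul,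
    Nat.cast_prod, prod_congr rfl (g := fun j => (N j : ℝ)) fun j hj => ?_]
  · ring
  · rw [Function.update_of_ne (ne_of_mem_erase hj), Int.card_Ico, sub_zero]
    exact_mod_cast Int.toNat_of_nonneg (h j).le

theorem card_out {N : σ → ℤ} (h : ∀ l, 0 < N l) (v : σ → ℤ) :
    (((bx N).filter fun n => n + v ∉ bx N).card : ℝ) ≤
      (∑ l, |(v l : ℝ)| / N l) * (bx N).card := by
  have h1 : (bx N).filter (fun n => n + v ∉ bx N) ⊆ univ.biUnion fun l =>
      (bx N).filter fun n => ¬(0 ≤ n l + v l ∧ n l + v l < N l) := by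
    intro n hn
    rw [mem_filter, mem_bx (n := n + v), not_forall] at hn
    obtain ⟨hn, l, hl⟩ := hn
    exact mem_biUnion.mpr ⟨l, mem_univ _, mem_filter.mpr ⟨hn, hl⟩⟩
  refine le_trans (b := ((∑ l, ((bx N).filter fun n =>
    ¬(0 ≤ n l + v l ∧ n l + v l < N l)).card : ℕ) : ℝ))
    (by exact_mod_cast (card_le_card h1).trans card_biUnion_le) ?_
  rw [Nat.cast_sum, sum_mul]
  refine sum_le_sum fun l _ => ?_
  have hN : (0 : ℝ) < N l := by exact_mod_cast h l
  rw [div_mul_eq_mul_div, le_div_iff₀ hN,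
    card_slab h l fun k => ¬(0 ≤ k + v l ∧ k + v l < N l)]
  refine mul_le_mul_of_nonneg_right ?_ (Nat.cast_nonneg _)
  have h2 : (((Ico 0 (N l)).filter fun k => ¬(0 ≤ k + v l ∧ k + v l < N l)).card : ℤ) ≤ |v l| := by
    rcases le_total 0 (v l) with h0 | h0
    · have : (Ico 0 (N l)).filter (fun k => ¬(0 ≤ k + v l ∧ k + v l < N l)) ⊆
          Ico (N l - v l) (N l) := fun k hk => by
        simp only [mem_filter, mem_Ico] at hk ⊢; omega
      have := card_le_card this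
      rw [Int.card_Ico] at this
      rw [abs_of_nonneg h0]; omega
    · have : (Ico 0 (N l)).filter (fun k => ¬(0 ≤ k + v l ∧ k + v l < N l)) ⊆
          Ico 0 (-v l) := fun k hk => by
        simp only [mem_filter, mem_Ico] at hk ⊢; omega
      have := card_le_card this
      rw [Int.card_Ico] at this
      rw [abs_of_nonpos h0]; omega
  exact_mod_cast h2

theorem shift {N : σ → ℤ} (h : ∀ l, 0 < N l) {φ : (σ → ℤ) → ℂ} (hb : ∀ n, ‖φ n‖ ≤ 1) (v : σ → ℤ) :
    ‖(𝔼 n ∈ bx N, φ (n + v)) - 𝔼 n ∈ bx N, φ n‖ ≤ 2 * ∑ l, |(v l : ℝ)| / N l := by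
  rw [expect_eq_sum_div_card, expect_eq_sum_div_card, ← sub_div, norm_div, Complex.norm_natCast,
    div_le_iff₀ (card_bx_pos h), mul_assoc]
  exact (shift_le _ hb v).trans (mul_le_mul_of_nonneg_left (card_out h v) zero_le_two)

theorem norm_expect_le {α : Type*} {T : Finset α} {f : α → ℂ} {c : ℝ} (hc : 0 ≤ c)
    (h : ∀ a ∈ T, ‖f a‖ ≤ c) : ‖𝔼 a ∈ T, f a‖ ≤ c := by
  rcases T.eq_empty_or_nonempty with rfl | hT
  · simpa using hc
  · exact (RCLike.norm_expect_le (K := ℂ)).trans (expect_le hT h)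

theorem cells {N M : σ → ℤ} (h : ∀ l, 0 < N l) (hM : ∀ l, 0 < M l) {q : ℤ} (hq : 0 < q)
    {φ : (σ → ℤ) → ℂ} (hb : ∀ n, ‖φ n‖ ≤ 1) :
    ‖(𝔼 a ∈ bx N, 𝔼 m ∈ bx M, φ (a + q • m)) - 𝔼 n ∈ bx N, φ n‖ ≤
      2 * ∑ l, (q : ℝ) * M l / N l := by
  rw [expect_comm, ← expect_const (bx_nonempty hM) (𝔼 n ∈ bx N, φ n), ← expect_sub_distrib]
  have hN : ∀ l, (0 : ℝ) < N l := fun l => by exact_mod_cast h l
  have hq' : (0 : ℝ) < q := by exact_mod_cast hq
  refine norm_expect_le (mul_nonneg zero_le_two (sum_nonneg fun l _ => div_nonneg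
    (mul_nonneg hq'.le (by exact_mod_cast (hM l).le)) (hN l).le)) fun m hm =>
    (shift h hb _).trans (mul_le_mul_of_nonneg_left (sum_le_sum fun l _ =>
      div_le_div_of_nonneg_right ?_ (hN l).le) zero_le_two)
  obtain ⟨h1, h2⟩ := mem_bx.mp hm l
  rw [Pi.smul_apply, smul_eq_mul, Int.cast_mul, abs_of_nonneg (mul_nonneg hq'.le (by exact_mod_cast h1))]
  exact mul_le_mul_of_nonneg_left (by exact_mod_cast h2.le) hq'.le

theorem markov {α : Type*} {T : Finset α} {f : α → ℝ} (h1 : ∀ a ∈ T, f a ≤ 1) {c : ℝ} (hc : 0 ≤ c)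
    (h : 2 * c * T.card ≤ ∑ a ∈ T, f a) : c * T.card ≤ (T.filter fun a => c ≤ f a).card := by
  rw [← sum_filter_add_sum_filter_not T fun a => c ≤ f a] at h
  have a1 : ∑ a ∈ T.filter (fun a => c ≤ f a), f a ≤ (T.filter fun a => c ≤ f a).card := by
    simpa using sum_le_card_nsmul _ f 1 fun a ha => h1 a (mem_filter.mp ha).1
  have a2 : ∑ a ∈ T.filter (fun a => ¬c ≤ f a), f a ≤ c * T.card := by
    refine (sum_le_card_nsmul _ f c fun a ha => (not_le.mp (mem_filter.mp ha).2).le).trans ?_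
    rw [nsmul_eq_mul, mul_comm]
    exact mul_le_mul_of_nonneg_left (by exact_mod_cast card_filter_le _ _) hc
  linarith

theorem vdc {N M : σ → ℤ} (h : ∀ l, 0 < N l) (hM : ∀ l, 0 < M l) {φ : (σ → ℤ) → ℂ}
    (hb : ∀ n, ‖φ n‖ ≤ 1) {δ : ℝ} (hδ : ‖𝔼 n ∈ bx N, φ n‖ = δ)
    (hs : 2 * ∑ l, (M l : ℝ) / N l ≤ δ ^ 2 / 8) :
    ∃ h0 ∈ bx M, δ ^ 2 / 16 * (bx M).card ≤ ((bx M).filter fun k =>
      δ ^ 2 / 16 ≤ ‖𝔼 n ∈ bx N, φ (n + (k - h0)) * conj (φ n)‖).card := by
  have hN : ∀ l, (0 : ℝ) < N l := fun l => by exact_mod_cast h l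
  have d0 : 0 ≤ δ := hδ ▸ norm_nonneg _
  have d1 : δ ≤ 1 := hδ ▸ norm_expect_le zero_le_one fun n _ => hb n
  have hb2 : ∀ a b, ‖φ a * conj (φ b)‖ ≤ 1 := fun a b => by
    rw [norm_mul, Complex.norm_conj]; exact mul_le_one₀ (hb _) (norm_nonneg _) (hb _)
  have s1 := cells h hM one_pos hb
  simp only [one_smul, Int.cast_one, one_mul] at s1
  have s2 : δ / 2 ≤ ‖𝔼 a ∈ bx N, 𝔼 m ∈ bx M, φ (a + m)‖ := by
    have := norm_sub_norm_le (𝔼 n ∈ bx N, φ n) (𝔼 a ∈ bx N, 𝔼 m ∈ bx M, φ (a + m))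
    rw [norm_sub_rev, hδ] at this
    nlinarith
  have s3 : ‖𝔼 a ∈ bx N, 𝔼 m ∈ bx M, φ (a + m)‖ ^ 2 ≤ 𝔼 a ∈ bx N, ‖𝔼 m ∈ bx M, φ (a + m)‖ ^ 2 := by
    refine (pow_le_pow_left₀ (norm_nonneg _) (RCLike.norm_expect_le (K := ℂ)) 2).trans ?_
    have := expect_mul_sq_le_sq_mul_sq (bx N) (fun a => ‖𝔼 m ∈ bx M, φ (a + m)‖) fun _ => (1 : ℝ)
    simpa [expect_const (bx_nonempty h)] using this
  have s4 : (((𝔼 a ∈ bx N, ‖𝔼 m ∈ bx M, φ (a + m)‖ ^ 2 : ℝ)) : ℂ) =
      𝔼 m' ∈ bx M, 𝔼 m ∈ bx M, 𝔼 a ∈ bx N, φ (a + m) * conj (φ (a + m')) := by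
    rw [Complex.ofReal_expect, expect_comm (bx M) (bx M)]
    simp only [expect_comm _ (bx N)]
    refine expect_congr rfl fun a _ => ?_
    rw [← Complex.normSq_eq_norm_sq, ← Complex.mul_conj, map_expect, expect_mul_expect]
  have s5 : ∀ m' ∈ bx M, ∀ m, ‖𝔼 a ∈ bx N, φ (a + m) * conj (φ (a + m'))‖ ≤
      ‖𝔼 n ∈ bx N, φ (n + (m - m')) * conj (φ n)‖ + δ ^ 2 / 8 := by
    intro m' hm' m
    have a1 := shift h (φ := fun n => φ (n + (m - m')) * conj (φ n)) (fun n => hb2 _ _) m'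
    have a2 : ∑ l, |(m' l : ℝ)| / N l ≤ ∑ l, (M l : ℝ) / N l := sum_le_sum fun l _ => by
      obtain ⟨h1, h2⟩ := mem_bx.mp hm' l
      rw [abs_of_nonneg (by exact_mod_cast h1)]
      exact div_le_div_of_nonneg_right (by exact_mod_cast h2.le) (hN l).le
    simp only [add_assoc, add_sub_cancel] at a1
    have a3 := norm_sub_norm_le (𝔼 a ∈ bx N, φ (a + m) * conj (φ (a + m')))
      (𝔼 n ∈ bx N, φ (n + (m - m')) * conj (φ n))
    linarith
  have s6 : δ ^ 2 / 4 ≤ 𝔼 m' ∈ bx M, 𝔼 m ∈ bx M,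
      (‖𝔼 n ∈ bx N, φ (n + (m - m')) * conj (φ n)‖ + δ ^ 2 / 8) := by
    have a1 : δ ^ 2 / 4 ≤ 𝔼 a ∈ bx N, ‖𝔼 m ∈ bx M, φ (a + m)‖ ^ 2 :=
      le_trans (by nlinarith [pow_le_pow_left₀ (by positivity) s2 2]) s3
    refine a1.trans ((le_abs_self _).trans ?_)
    rw [← Real.norm_eq_abs, ← Complex.norm_real, s4]
    exact (RCLike.norm_expect_le (K := ℂ)).trans (expect_le_expect fun m' hm' =>
      (RCLike.norm_expect_le (K := ℂ)).trans (expect_le_expect fun m _ => s5 m' hm' m))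
  obtain ⟨h0, hh0, s7⟩ := exists_le_of_le_expect (bx_nonempty hM) s6
  refine ⟨h0, hh0, markov (fun k _ => norm_expect_le zero_le_one fun n _ => hb2 _ _)
    (by positivity) ?_⟩
  rw [expect_add_distrib, expect_const (bx_nonempty hM), expect_eq_sum_div_card] at s7
  rw [← le_div_iff₀ (card_bx_pos hM)]
  linarith

theorem geom_one (α : ℝ) {N : ℤ} (hN : 0 ≤ N) :
    ‖∑ k ∈ Ico 0 N, eR (α * k)‖ * |α - round α| ≤ 1 / 2 := by
  obtain ⟨n, rfl⟩ := Int.eq_ofNat_of_zero_le hN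
  have e : ∑ k ∈ Ico (0 : ℤ) n, eR (α * k) = ∑ k ∈ range n, eR α ^ k := by
    refine (sum_nbij' (fun k : ℕ => (k : ℤ)) Int.toNat (by simp) ?_ (by simp) ?_ fun k _ => ?_).symm
    · intro k hk; simp only [mem_Ico, mem_range] at hk ⊢; omega
    · intro k hk; simp only [mem_Ico] at hk; omega
    · rw [← eR_nat_mul, mul_comm]; simp
  have h1 : ‖∑ k ∈ range n, eR α ^ k‖ * ‖eR α - 1‖ ≤ 2 := by
    rw [← norm_mul, geom_sum_mul]
    refine (norm_sub_le _ _).trans ?_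
    rw [norm_pow, norm_eR]; norm_num
  have h2 : 4 * |α - round α| ≤ ‖eR α - 1‖ := by
    have a1 := min_le_norm (Int.fract_nonneg α) (Int.fract_lt_one α).le
    rw [← abs_sub_round_eq_min, Int.fract, sub_eq_add_neg α (⌊α⌋ : ℝ), ← Int.cast_neg,
      eR_add_int] at a1
    exact a1
  rw [e]
  nlinarith [norm_nonneg (∑ k ∈ range n, eR α ^ k)]

theorem eR_sum {α : Type*} (s : Finset α) (f : α → ℝ) : eR (∑ a ∈ s, f a) = ∏ a ∈ s, eR (f a) := by
  classical
  induction s using Finset.induction_on with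
  | empty => simp
  | insert a s ha ih => rw [sum_insert ha, prod_insert ha, eR_add, ih]

theorem geom {N : σ → ℤ} (h : ∀ l, 0 < N l) (α : σ → ℝ) (c : ℝ) (l : σ) :
    ‖𝔼 n ∈ bx N, eR (c + ∑ j, α j * n j)‖ * |(α l - round (α l)) * N l| ≤ 1 / 2 := by
  have hN : ∀ l, (0 : ℝ) < N l := fun l => by exact_mod_cast h l
  simp only [eR_add, eR_sum]
  rw [expect_eq_sum_div_card, ← mul_sum,
    ← prod_univ_sum (fun j => Ico 0 (N j)) fun j (k : ℤ) => eR (α j * k), norm_div, norm_mul, norm_eR,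
    one_mul, Complex.norm_natCast, card_bx fun j => (h j).le, norm_prod, ← prod_div_distrib,
    ← mul_prod_erase univ _ (mem_univ l), abs_mul, abs_of_pos (hN l)]
  have h1 : ∏ j ∈ univ.erase l, ‖∑ k ∈ Ico 0 (N j), eR (α j * k)‖ / N j ≤ 1 := by
    refine prod_le_one (fun j _ => div_nonneg (norm_nonneg _) (hN j).le) fun j _ => ?_
    rw [div_le_one (hN j)]
    refine (norm_sum_le _ _).trans (le_of_eq ?_)
    simp only [norm_eR, sum_const, Int.card_Ico, sub_zero, nsmul_eq_mul, mul_one]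
    exact_mod_cast Int.toNat_of_nonneg (h j).le
  have h2 := geom_one (α l) (h l).le
  have h3 : 0 ≤ ‖∑ k ∈ Ico 0 (N l), eR (α l * k)‖ * |α l - round (α l)| := by positivity
  calc _ = (‖∑ k ∈ Ico 0 (N l), eR (α l * k)‖ * |α l - round (α l)|) *
        ∏ j ∈ univ.erase l, ‖∑ k ∈ Ico 0 (N j), eR (α j * k)‖ / N j := by
        field_simp [(hN l).ne']
    _ ≤ _ := (mul_le_of_le_one_right h3 h1).trans h2

theorem line {N : σ → ℤ} (h : ∀ l, 0 < N l) {H : Finset (σ → ℤ)} (hH : H ⊆ bx N) (l : σ) :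
    ∃ a ∈ bx N, (H.card : ℝ) / (bx N).card ≤
      (((bx fun _ : Unit => N l).filter fun k => Function.update a l (k ()) ∈ H).card : ℝ) /
        (bx fun _ : Unit => N l).card := by
  have hB : (0 : ℝ) < (bx fun _ : Unit => N l).card := card_bx_pos fun _ => h l
  have e : ∑ a ∈ bx N, ((bx fun _ : Unit => N l).filter fun k =>
      Function.update a l (k ()) ∈ H).card = H.card * (bx fun _ : Unit => N l).card := by
    rw [← card_product, ← card_sigma]
    refine card_nbij' (fun p => (Function.update p.1 l (p.2 ()), fun _ => p.1 l))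
      (fun p => ⟨Function.update p.1 l (p.2 ()), fun _ => p.1 l⟩) ?_ ?_ ?_ ?_
    · rintro ⟨a, k⟩ hp
      simp only [coe_sigma, Set.mem_sigma_iff, mem_coe, mem_filter, mem_bx, coe_product,
        Set.mem_prod] at hp ⊢
      exact ⟨hp.2.2, fun _ => hp.1 l⟩
    · rintro ⟨a, k⟩ hp
      simp only [coe_sigma, Set.mem_sigma_iff, mem_coe, mem_filter, mem_bx, coe_product,
        Set.mem_prod, Function.update_idem, Function.update_eq_self] at hp ⊢
      have ha := mem_bx.mp (hH hp.1)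
      refine ⟨fun j => ?_, fun _ => ha l, hp.1⟩
      rcases eq_or_ne j l with rfl | hj
      · rw [Function.update_self]; exact hp.2 ()
      · rw [Function.update_of_ne hj]; exact ha j
    · rintro ⟨a, k⟩ _; simp
    · rintro ⟨a, k⟩ _; simp
  refine exists_le_of_le_expect (bx_nonempty h) (le_of_eq ?_)
  rw [expect_eq_sum_div_card, ← sum_div, ← Nat.cast_sum, e, Nat.cast_mul,
    mul_div_cancel_right₀ _ hB.ne']

end Pool.Agent.P.MP_a14ce1_nt.Nil.BoxF
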