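import Pool.Agent.P.MP_a14ce1_nt.Nil.Tiny
import Pool.Agent.P.MP_a14ce1_nt.Nil.BoxF

/-! Internal boxes. -/

open Filter Finset ComplexConjugate
open scoped BigOperators

set_option linter.unusedSectionVars false

noncomputable section

namespace Pool.Agent.P.MP_a14ce1_nt.Nil

variable {σ : Type} [Fintype σ] [DecidableEq σ] {Q : HR} [Fact (2 ≤ Q)]

variable (Q) in
/-- All sides are positive and longer than every power of `Q`. -/
def Long {σ : Type} (N : σ → HZ) : Prop := ∀ l, 0 < N l ∧ Tiny Q (ci (N l))⁻¹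

namespace BA

theorem Ex_st {A S : Type} [NS A S] (T : ℕ → Finset S) {f : A → HC} {φ : ℕ → S → ℂ}
    (h : ∀ x, f (st x) = st fun n => φ n (x n)) : Ex (st T) f = st fun n => 𝔼 x ∈ T n, φ n x := by
  have hf : IntF f := ⟨φ, h⟩
  rw [Ex, dif_pos hf]
  have h1 : ∀ᶠ n in UU, ∀ s, hf.choose n s = φ n s := ev_forall.2 fun x =>
    (NS.eq_iff (A := HC) _ _).1 ((hf.choose_spec x).symm.trans (h x))
  refine st_congr ((h1.and (rep_st (A := Ns (Finset S)) T)).mono fun n hn => ?_)
  rw [hn.2]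
  exact expect_congr rfl fun s _ => hn.1 s

theorem bd_st {A S : Type} [NS A S] {f : A → HC} {φ : ℕ → S → ℂ}
    (h : ∀ x, f (st x) = st fun n => φ n (x n)) (hb : ∀ a, nm (f a) ≤ 1) :
    ∀ᶠ n in UU, ∀ s, ‖φ n s‖ ≤ 1 := ev_forall.2 fun x => by
  have := hb (st x)
  rw [h] at this
  exact st_le.1 this

theorem pos_st {N : ℕ → σ → ℤ} (h : ∀ l, 0 < (st N : σ → HZ) l) : ∀ᶠ n in UU, ∀ l, 0 < N n l :=
  eventually_all.2 fun l => st_lt.1 (h l)

end BA

theorem box_st (N : ℕ → σ → ℤ) : box (st N : σ → HZ) = st fun n => BoxF.bx (N n) := by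
  refine st_congr ((eventually_all.2 fun l => rep_st (A := HZ) fun n => N n l).mono fun n hn => ?_)
  congr 1
  funext l
  rw [← hn l]
  rfl

theorem mem_box {N n : σ → HZ} : Mem n (box N) ↔ ∀ l, 0 ≤ n l ∧ n l < N l := by
  induction N using st_ind with | _ N
  induction n using st_ind with | _ n
  rw [box_st, mem_st]
  simp only [BoxF.mem_bx, eventually_all, eventually_and]
  exact forall_congr' fun l => and_congr (st_le (x := fun _ => 0)).symm st_lt.symm

theorem cd_box {N : σ → HZ} (h : ∀ l, 0 ≤ N l) : cd (box N) = ∏ l, ci (N l) := by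
  induction N using st_ind with | _ N
  rw [box_st]
  refine Eq.trans ?_ (st_prod univ fun l n => (N n l : ℝ)).symm
  exact st_congr ((eventually_all.2 fun l => (st_le (x := fun _ => 0)).1 (h l)).mono fun n hn =>
    BoxF.card_bx hn)

theorem cd_box_pos {N : σ → HZ} (h : ∀ l, 0 < N l) : 0 < cd (box N) := by
  rw [cd_box fun l => (h l).le]
  exact prod_pos fun l _ => ci_pos.2 (h l)

theorem zero_mem_box {N : σ → HZ} (h : ∀ l, 0 < N l) : Mem (0 : σ → HZ) (box N) :=
  mem_box.2 fun l => ⟨le_rfl, h l⟩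

theorem Ex_shift {N : σ → HZ} (hN : ∀ l, 0 < N l) {φ : (σ → HZ) → HC} (hφ : IntF φ)
    (hb : ∀ n, nm (φ n) ≤ 1) (v : σ → HZ) :
    nm ((Ex (box N) fun n => φ (n + v)) - Ex (box N) φ) ≤ 2 * ∑ l, |ci (v l)| / ci (N l) := by
  obtain ⟨ψ, hψ⟩ := hφ
  induction N using st_ind with | _ N
  induction v using st_ind with | _ v
  rw [box_st, BA.Ex_st _ hψ, BA.Ex_st _ (φ := fun n s => ψ n (s + v n))
    fun x => hψ fun n => x n + v n]
  have e : ∑ l, |ci ((st v : σ → HZ) l)| / ci ((st N : σ → HZ) l) =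
      st fun n => ∑ l, |(v n l : ℝ)| / N n l := by
    rw [← st_sum]
    refine sum_congr rfl fun l _ => ?_
    change |(st fun n => (v n l : ℝ) : HR)| / _ = _
    rw [st_abs]; rfl
  rw [e]
  exact st_le.2 (((BA.pos_st hN).and (BA.bd_st hψ hb)).mono fun n hn => BoxF.shift hn.1 hn.2 _)

theorem Ex_cells {N M : σ → HZ} (hN : ∀ l, 0 < N l) (hM : ∀ l, 0 < M l) {q : HZ} (hq : 0 < q)
    {φ : (σ → HZ) → HC} (hφ : IntF φ) (hb : ∀ n, nm (φ n) ≤ 1) :
    nm ((Ex (box N) fun a => Ex (box M) fun m => φ (a + q • m)) - Ex (box N) φ)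
      ≤ 2 * ∑ l, ci q * ci (M l) / ci (N l) := by
  obtain ⟨ψ, hψ⟩ := hφ
  induction N using st_ind with | _ N
  induction M using st_ind with | _ M
  induction q using st_ind with | _ q
  rw [box_st, box_st, BA.Ex_st _ hψ, BA.Ex_st _
    (f := fun a => Ex (st fun n => BoxF.bx (M n)) fun m => φ (a + st q • m)) (φ := fun n a => 𝔼 m ∈ BoxF.bx (M n), ψ n (a + q n • m)) fun a =>
      BA.Ex_st _ (φ := fun n m => ψ n (a n + q n • m)) fun m => hψ fun n => a n + q n • m n]
  have e : ∑ l, ci (st q) * ci ((st M : σ → HZ) l) / ci ((st N : σ → HZ) l) =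
      st fun n => ∑ l, (q n : ℝ) * M n l / N n l := by
    rw [← st_sum]; rfl
  rw [e]
  exact st_le.2 (((BA.pos_st hN).and ((BA.pos_st hM).and ((st_lt.1 hq).and (BA.bd_st hψ hb)))).mono
    fun n hn => BoxF.cells hn.1 hn.2.1 hn.2.2.1 hn.2.2.2)

theorem Long.pos {σ : Type} {N : σ → HZ} (h : Long Q N) (l : σ) : 0 < N l := (h l).1

/-- A side comparable with a long side is long. -/
theorem Long.of_big {σ τ : Type} {N : σ → HZ} (hN : Long Q N) {M : τ → HZ} (hM : ∀ l, 0 < M l)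
    (h : ∀ l, ∃ j, Big Q (ci (M l) / ci (N j))) : Long Q M := fun l => by
  obtain ⟨j, hj⟩ := h l
  refine ⟨hM l, ?_⟩
  have h1 := (hN j).2.div hj
  have h2 : ci (N j) ≠ 0 := (ci_pos.2 (hN j).1).ne'
  rwa [div_div_eq_mul_div, inv_mul_cancel₀ h2, one_div] at h1

/-- A comparable smaller box. -/
theorem Long.exists_sub {N : σ → HZ} (hN : Long Q N) {η : HR} (hη : Big Q η) :
    ∃ M : σ → HZ, Long Q M ∧ (∀ l, ci (M l) ≤ |η| * ci (N l) ∧ M l ≤ N l) ∧
      Sm Q (zv M) = Sm Q (zv N) ∧ Big Q (cd (box M) / cd (box N)) := by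
  set ε : HR := min |η| 1 with hε
  have hb : Big Q ε := (big_abs.2 hη).min big_one
  have h0 : 0 < ε := hb.pos (le_min (abs_nonneg _) zero_le_one)
  have hp : ∀ l, 0 < ci (N l) := fun l => ci_pos.2 (hN l).1
  have h2 : ∀ l, 2 ≤ ε * ci (N l) := fun l => by
    have := (hN l).2.lt' hb.half (by positivity)
    rw [inv_lt_iff_one_lt_mul₀ (hp l)] at this
    linarith
  have lo : ∀ l, ε / 2 ≤ ci (flo (ε * ci (N l))) / ci (N l) := fun l => by
    rw [le_div_iff₀ (hp l)]
    have := lt_ci_flo_add_one (ε * ci (N l))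
    have := h2 l
    linarith
  have up : ∀ l, ci (flo (ε * ci (N l))) ≤ ci (N l) := fun l =>
    (ci_flo_le _).trans (mul_le_of_le_one_left (hp l).le (min_le_right _ _))
  have bg : ∀ l, Big Q (ci (flo (ε * ci (N l))) / ci (N l)) := fun l =>
    hb.half.mono (by positivity) (lo l)
  have ps : ∀ l, 0 < flo (ε * ci (N l)) := fun l => by
    have := (half_pos h0).trans_le (lo l)
    exact ci_pos.1 ((div_pos_iff_of_pos_right (hp l)).1 this)
  refine ⟨fun l => flo (ε * ci (N l)), hN.of_big ps fun l => ⟨l, bg l⟩, fun l =>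
    ⟨(ci_flo_le _).trans (mul_le_mul_of_nonneg_right (min_le_left _ _) (hp l).le), ci_le.1 (up l)⟩,
    Sm_congr fun l => ⟨bg l, OO_of_le_one ?_⟩, ?_⟩
  · change |ci (flo (ε * ci (N l))) / ci (N l)| ≤ 1
    rw [abs_of_nonneg ((half_pos h0).le.trans (lo l)), div_le_one (hp l)]
    exact up l
  · rw [cd_box fun l => (ps l).le, cd_box fun l => (hN l).1.le, ← prod_div_distrib]
    exact Big.prod fun l _ => bg l

theorem vdc {N : σ → HZ} (hN : Long Q N) {φ : (σ → HZ) → HC} (hφ : IntF φ)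
    (hb : ∀ n, nm (φ n) ≤ 1) (h : BigC Q (Ex (box N) φ)) :
    ∃ h0, Mem h0 (box N) ∧ Dense Q (box N) fun h : σ → HZ =>
      BigC Q (Ex (box N) fun n => φ (n + (h - h0)) * cj (φ n)) := by
  classical
  have hc : (0 : HR) < 16 * (Fintype.card σ + 1) := by positivity
  have hδ : Big Q (nm (Ex (box N) φ) ^ 2 / 16) := (Big.pow h 2).div (ofNat_mem _ 16) (by norm_num)
  obtain ⟨M, hM, hle, -, hbig⟩ := hN.exists_sub
    (η := nm (Ex (box N) φ) ^ 2 / (16 * (Fintype.card σ + 1))) ((Big.pow h 2).div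
      (mul_mem (ofNat_mem _ 16) (add_mem (natCast_mem _ _) (one_mem _))) hc.ne')
  have hs : 2 * ∑ l, ci (M l) / ci (N l) ≤ nm (Ex (box N) φ) ^ 2 / 8 := by
    have h1 : ∑ l, ci (M l) / ci (N l) ≤
        Fintype.card σ * (nm (Ex (box N) φ) ^ 2 / (16 * (Fintype.card σ + 1))) := by
      rw [← nsmul_eq_mul, ← card_univ]
      refine sum_le_card_nsmul _ _ _ fun l _ => ?_
      rw [div_le_iff₀ (ci_pos.2 (hN l).1)]
      have := (hle l).1
      rwa [abs_of_nonneg (by positivity)] at this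
    have h2 : (Fintype.card σ : HR) * (nm (Ex (box N) φ) ^ 2 / (16 * (Fintype.card σ + 1))) ≤
        nm (Ex (box N) φ) ^ 2 / 16 := by
      rw [← mul_div_assoc, div_le_div_iff₀ hc (by norm_num)]
      nlinarith [sq_nonneg (nm (Ex (box N) φ))]
    linarith
  have hsub : ∀ a : σ → HZ, Mem a (box M) → Mem a (box N) := fun a ha =>
    mem_box.2 fun l => ⟨(mem_box.1 ha l).1, (mem_box.1 ha l).2.trans_le (hle l).2⟩
  have hM0 := cd_box_pos hM.pos
  obtain ⟨ψ, hψ⟩ := hφ
  induction N using st_ind with | _ N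
  induction M using st_ind with | _ M
  have e : ∑ l, ci ((st M : σ → HZ) l) / ci ((st N : σ → HZ) l) =
      st fun n => ∑ l, (M n l : ℝ) / N n l := by
    rw [← st_sum]; rfl
  have eE := BA.Ex_st (fun n => BoxF.bx (N n)) hψ
  rw [box_st N, eE] at hs hδ
  rw [e] at hs
  have key := ((BA.pos_st hN.pos).and ((BA.pos_st hM.pos).and ((BA.bd_st hψ hb).and
    (st_le.1 hs)))).mono fun n hn => BoxF.vdc hn.1 hn.2.1 hn.2.2.1 rfl hn.2.2.2
  obtain ⟨h0, hh⟩ := ev_exists.1 key
  refine ⟨st h0, hsub _ ?_, st fun n => (BoxF.bx (M n)).filter fun k =>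
    ‖𝔼 a ∈ BoxF.bx (N n), ψ n a‖ ^ 2 / 16 ≤
      ‖𝔼 a ∈ BoxF.bx (N n), ψ n (a + (k - h0 n)) * conj (ψ n a)‖, fun a ha => ?_, ?_⟩
  · rw [box_st, mem_st]; exact hh.mono fun n hn => hn.1
  · induction a using st_ind with | _ a
    rw [mem_st] at ha
    refine ⟨hsub _ ?_, ?_⟩
    · rw [box_st, mem_st]; exact ha.mono fun n hn => (mem_filter.1 hn).1
    · beta_reduce
      rw [box_st, BA.Ex_st _ (f := fun n => φ (n + (st a - st h0)) * cj (φ n))
        (φ := fun n s => ψ n (s + (a n - h0 n)) * conj (ψ n s)) fun x => by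
        change φ (st fun n => x n + (a n - h0 n)) * cj (φ (st x)) = _
        rw [hψ, hψ]; rfl]
      exact hδ.mono (by positivity) (st_le.2 (ha.mono fun n hn => (mem_filter.1 hn).2))
  · refine (hδ.mul hbig).mono (mul_nonneg (by positivity)
      (div_nonneg hM0.le (cd_box_pos hN.pos).le)) ?_
    rw [← mul_div_assoc]
    refine div_le_div_of_nonneg_right ?_ (cd_box_pos hN.pos).le
    rw [box_st M]
    exact st_le.2 (hh.mono fun n hn => hn.2)

theorem geom {N : σ → HZ} (hN : ∀ l, 0 < N l) {α : σ → HR} {c : HR}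
    (h : BigC Q (Ex (box N) fun n : σ → HZ => ee (c + ∑ l, α l * ci (n l)))) (l : σ) :
    ∃ z ∈ ZZ, (α l - z) * ci (N l) ∈ OO Q := by
  induction N using st_ind with | _ N
  induction α using st_ind with | _ α
  induction c using st_ind with | _ c
  rw [box_st, BA.Ex_st _ (φ := fun n s => eR (c n + ∑ l, α n l * s l)) fun x => by
    have e : ∑ l, (st α : σ → HR) l * ci ((st x : σ → HZ) l) =
        st fun n => ∑ l, α n l * x n l := by rw [← st_sum]; rfl
    rw [e]; rfl] at h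
  refine ⟨st fun n => (round (α n l) : ℝ), ⟨fun n => round (α n l), rfl⟩, ?_⟩
  have h1 : nm (st fun n => 𝔼 s ∈ BoxF.bx (N n), eR (c n + ∑ l, α n l * s l)) *
      |(st fun n => (α n l - round (α n l)) * N n l : HR)| ≤ 1 := by
    rw [st_abs]
    exact st_le.2 ((BA.pos_st hN).mono fun n hn =>
      (BoxF.geom hn (α n) (c n) l).trans (half_le_self zero_le_one))
  refine OO_of_abs_le (Big.inv_mem h) ?_
  rw [← mul_one _⁻¹, le_inv_mul_iff₀ (Big.pos h (nm_nonneg _))]
  exact h1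

theorem Dense.line {N : σ → HZ} {p : (σ → HZ) → Prop} (h : Dense Q (box N) p) (l : σ) :
    ∃ a, Mem a (box N) ∧ Dense Q (box fun _ : Unit => N l) fun k : Unit → HZ =>
      p (Function.update a l (k ())) := by
  classical
  obtain ⟨H, hH, hbig⟩ := h
  induction N using st_ind with | _ N
  induction H using st_ind with | _ H
  have h1 : ∀ᶠ n in UU, ∀ s, s ∈ H n → s ∈ BoxF.bx (N n) := ev_forall.2 fun x => by
    by_cases hx : ∀ᶠ n in UU, x n ∈ H n
    · have := (hH (st x) (mem_st.2 hx)).1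
      rw [box_st, mem_st] at this
      exact this.mono fun n hn _ => hn
    · exact (ev_not.2 hx).mono fun n hn h' => absurd h' hn
  rw [box_st] at hbig
  have h2 : ∀ᶠ n in UU, ∀ l, 0 < N n l := by
    have h0 : cd (st fun n => BoxF.bx (N n)) ≠ 0 := (div_ne_zero_iff.1 hbig.ne_zero).2
    have h3 : ∀ᶠ n in UU, ¬((BoxF.bx (N n)).card : ℝ) = 0 :=
      ev_not.2 fun c => h0 (st_congr (y := fun _ => 0) c)
    refine h3.mono fun n hn j => ?_
    obtain ⟨a, ha⟩ := card_ne_zero.1 (Nat.cast_ne_zero.1 hn)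
    exact (BoxF.mem_bx.1 ha j).1.trans_lt (BoxF.mem_bx.1 ha j).2
  obtain ⟨a, ha⟩ := ev_exists.1 ((h2.and h1).mono fun n hn => BoxF.line hn.1 hn.2 l)
  have eb : (box fun _ : Unit => (st N : σ → HZ) l) = st fun n => BoxF.bx fun _ : Unit => N n l :=
    box_st fun n _ => N n l
  refine ⟨st a, by rw [box_st, mem_st]; exact ha.mono fun n hn => hn.1,
    st fun n => (BoxF.bx fun _ : Unit => N n l).filter fun k =>
      Function.update (a n) l (k ()) ∈ H n, fun k hk => ?_, ?_⟩
  · induction k using st_ind with | _ k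
    rw [mem_st] at hk
    refine ⟨by rw [eb, mem_st]; exact hk.mono fun n hn => (mem_filter.1 hn).1, ?_⟩
    have e : Function.update (st a : σ → HZ) l ((st k : Unit → HZ) ()) =
        st fun n => Function.update (a n) l (k n ()) := by
      funext j
      rcases eq_or_ne j l with rfl | hj
      · rw [Function.update_self]
        exact congrArg st (funext fun n => (Function.update_self j (k n ()) (a n)).symm)
      · rw [Function.update_of_ne hj]
        exact congrArg st (funext fun n => (Function.update_of_ne hj (k n ()) (a n)).symm)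
    beta_reduce
    rw [e]
    exact (hH _ (mem_st.2 (hk.mono fun n hn => (mem_filter.1 hn).2))).2
  · rw [eb]
    exact hbig.mono (le_of_forall (x := fun _ => 0) fun n =>
      div_nonneg (Nat.cast_nonneg _) (Nat.cast_nonneg _))
      (st_le.2 (ha.mono fun n hn => hn.2))

end Pool.Agent.P.MP_a14ce1_nt.Nil
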