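import Pool.Agent.P.MP_a14ce1_nt.Nil.Prod

/-!
The van der Corput system of a filtered system and the expansion of a shifted sequence.
-/

open Finset MvPolynomial

set_option linter.unusedSectionVars false

noncomputable section

namespace Pool.Agent.P.MP_a14ce1_nt.Nil

section Lie

variable {ι : Type} [Fintype ι] [DecidableEq ι] {lv : ι → ℕ} {R : Type} [CommRing R]
  [Algebra ℚ R] {𝔏 : Lie lv R} {J J' : Submodule ℚ (Matrix ι ι R)}

/-- Second order Campbell-Hausdorff in the group. -/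
theorem lg_mul_sub2 (hJ : J ≤ 𝔏.L) (hJ' : J' ≤ J) (h : ∀ a ∈ 𝔏.L, ∀ b ∈ J, a * b - b * a ∈ J')
    {x y : UT lv R} (hx : x ∈ 𝔏.grp) (hy : y ∈ 𝔏.grp) (hxy : lg x * lg y - lg y * lg x ∈ J) :
    lg (x * y) - lg x - lg y - (1 / 2 : ℚ) • (lg x * lg y - lg y * lg x) ∈ J' := by
  rw [lg_mul]; exact bch2 (filt_mF R lv) 𝔏.up hJ hJ' h hx hy hxy

theorem lg_mul3_sub2 (hJ : J ≤ 𝔏.L) (hJ' : J' ≤ J)
    (h0 : ∀ a ∈ 𝔏.L, ∀ b ∈ 𝔏.L, a * b - b * a ∈ J)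
    (h : ∀ a ∈ 𝔏.L, ∀ b ∈ J, a * b - b * a ∈ J')
    {x y z : UT lv R} (hx : x ∈ 𝔏.grp) (hy : y ∈ 𝔏.grp) (hz : z ∈ 𝔏.grp) :
    lg (x * y * z) - (lg x + lg y + lg z) - (1 / 2 : ℚ) • ((lg x * lg y - lg y * lg x)
      + (lg x * lg z - lg z * lg x) + (lg y * lg z - lg z * lg y)) ∈ J' := by
  have hxy := 𝔏.grp.mul_mem hx hy
  have h1 := lg_mul_sub2 hJ hJ' h hx hy (h0 _ hx _ hy)
  have h2 := lg_mul_sub2 hJ hJ' h hxy hz (h0 _ hxy _ hz)
  have h3 := h _ hz _ (lg_mul_sub hJ (fun a ha b hb => hJ' (h a ha b hb)) hx hy (h0 _ hx _ hy))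
  convert sub_mem (add_mem h1 h2) (J'.smul_mem (1 / 2 : ℚ) h3) using 1
  simp only [mul_sub, sub_mul]
  module

end Lie

variable {FF : Type} [Field FF] [CharZero FF] {ι : Type} [Fintype ι] [DecidableEq ι]
  {K : Subfield FF} {lv : ι → ℕ} {σ : Type}

theorem Fam.Fil.mem_max {g : Fam K lv ℕ} {D : ℕ} (hg : g.Fil D) {i : ℕ} {X : Matrix ι ι FF}
    (hX : X ∈ g.r i) : X ∈ g.r (max i 1) := by
  rcases i with _ | i
  · exact hg.zero ▸ hX
  · rwa [max_eq_left (by omega)]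

/-- Pairs that agree to the next order. -/
def Fam.box (g : Fam K lv ℕ) {D : ℕ} (hg : g.Fil D) : Fam K (Sum.elim lv lv) ℕ where
  r i :=
    { carrier := {Z | ∃ X ∈ g.r i, ∃ Y ∈ g.r i, X - Y ∈ g.r (max i 1 + 1) ∧ Z = dg X Y}
      add_mem' := by
        rintro _ _ ⟨X, hX, Y, hY, h, rfl⟩ ⟨X', hX', Y', hY', h', rfl⟩
        exact ⟨_, add_mem hX hX', _, add_mem hY hY', by
          rw [add_sub_add_comm]; exact add_mem h h', dg_add⟩
      zero_mem' := ⟨0, zero_mem _, 0, zero_mem _, by simp, dg_zero.symm⟩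
      smul_mem' := by
        rintro c _ ⟨X, hX, Y, hY, h, rfl⟩
        exact ⟨_, Submodule.smul_mem _ c hX, _, Submodule.smul_mem _ c hY, by
          rw [← smul_sub]; exact Submodule.smul_mem _ c h, dg_smul c⟩ }
  up i := by
    rintro _ ⟨X, hX, Y, hY, -, rfl⟩
    exact dg_mem_mF.2 ⟨g.up i X hX, g.up i Y hY⟩
  rat i := by
    rintro φ _ ⟨X, hX, Y, hY, h, rfl⟩
    exact ⟨_, g.rat i φ X hX, _, g.rat i φ Y hY, by
      rw [← Matrix.map_sub _ (map_sub φ)]; exact g.rat _ φ _ h, dg_map _ (map_zero φ)⟩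
  br i j := by
    rintro _ ⟨X, hX, Y, hY, h, rfl⟩ _ ⟨X', hX', Y', hY', h', rfl⟩
    refine ⟨_, g.br i j X hX X' hX', _, g.br i j Y hY Y' hY', ?_, dg_br⟩
    have h1 := hg.le (i := max (i + j) 1 + 1) (by omega) (g.br _ _ _ h _ (hg.mem_max hX'))
    have h2 := hg.le (i := max (i + j) 1 + 1) (by omega) (g.br _ _ _ (hg.mem_max hY) _ h')
    convert add_mem h1 h2 using 1
    noncomm_ring

theorem Fam.mem_box {g : Fam K lv ℕ} {D : ℕ} {hg : g.Fil D} {i Z} : Z ∈ (g.box hg).r i ↔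
    ∃ X ∈ g.r i, ∃ Y ∈ g.r i, X - Y ∈ g.r (max i 1 + 1) ∧ Z = dg X Y := Iff.rfl

theorem Fam.dg_mem_box {g : Fam K lv ℕ} {D : ℕ} {hg : g.Fil D} {i X Y} :
    dg X Y ∈ (g.box hg).r i ↔ X ∈ g.r i ∧ Y ∈ g.r i ∧ X - Y ∈ g.r (max i 1 + 1) :=
  ⟨fun ⟨_, hX, _, hY, h, e⟩ => by
    obtain ⟨rfl, rfl⟩ := dg_inj.1 e
    exact ⟨hX, hY, h⟩, fun h => ⟨X, h.1, Y, h.2.1, h.2.2, rfl⟩⟩

theorem Fam.box_le (g : Fam K lv ℕ) {D : ℕ} (hg : g.Fil D) : g.box hg ≤ g.prod g :=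
  fun _ _ ⟨X, hX, Y, hY, _, e⟩ => ⟨X, hX, Y, hY, e⟩

theorem Fam.box_fil {g : Fam K lv ℕ} {D : ℕ} (hg : g.Fil D) : (g.box hg).Fil D where
  zero := by
    ext Z
    rw [Fam.mem_box, Fam.mem_box, hg.zero]
    rfl
  anti i _ := fun ⟨X, hX, Y, hY, h, e⟩ =>
    ⟨X, hg.anti i hX, Y, hg.anti i hY, hg.le (by omega) h, e⟩
  bd := le_bot_iff.1 ((hg.prod hg).bd ▸ g.box_le hg (D + 1))

theorem box_mem {g : Fam K lv ℕ} {D : ℕ} (hg : g.Fil D) {x : PS lv σ FF}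
    (hx : x ∈ (g.fine σ).plus.PG) (h : σ → FF) {a b : UT lv FF} (ha : a ∈ g.GG) (hb : b ∈ g.GG)
    (hab : ev h x = a * b) :
    UT.dg ((cst σ a)⁻¹ * sh h x * (cst σ b)⁻¹, x) ∈ ((g.box hg).fine σ).plus.PG := by
  obtain ⟨hx1, hx2⟩ := mem_plus.1 hx
  obtain ⟨h1, h2⟩ := symbol hg hx1 h (inv_mem ha) (inv_mem hb)
  rw [map_inv, map_inv] at h1 h2
  refine mem_plus'.2 ⟨fun β hβ => ?_, ?_⟩
  · have : β.degree ≠ 0 := fun e => hβ ((Finsupp.degree_eq_zero_iff _).1 e)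
    rw [co_lg_dg, Fam.fine_r, Fam.dg_mem_box, max_eq_left (by omega), ← co_sub]
    exact ⟨h1 β, hx1 β, h2 β⟩
  · rw [ev_dg, hx2, map_mul, map_mul, map_inv, map_inv, ev_cst, ev_cst, ev_sh, zero_add, hab,
      inv_mul_cancel_left, mul_inv_cancel, UT.dg_one]

theorem co_lg_cst {β : σ →₀ ℕ} (hβ : β ≠ 0) (a : UT lv FF) : co β (lg (cst σ a)) = 0 := by
  rw [lg_cst, co_C, if_neg hβ]

/-- The horizontal case. -/
theorem box_hor [Fintype σ] {g : Fam K lv ℕ} {D : ℕ} (hg : g.Fil D) {x : PS lv σ FF}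
    (hx : x ∈ (g.fine σ).PG) (h : σ → FF) {a b : UT lv FF} (ha : a ∈ g.GG) (hb : b ∈ g.GG)
    {i : ℕ} (hi : 1 ≤ i) {η : Matrix ι ι FF →ₗ[FF] FF} (h2 : ∀ X ∈ g.r (i + 2), η X = 0)
    (h3 : ∀ u v, 1 ≤ u → 1 ≤ v → u + v = i + 1 → ∀ X ∈ g.r u, ∀ Y ∈ g.r v,
      η (X * Y - Y * X) = 0) {β : σ →₀ ℕ} (hβ : β.degree = i) :
    η (co β (lg ((cst σ a)⁻¹ * sh h x * (cst σ b)⁻¹)) - co β (lg x)) =
      ∑ l, h l * ((β l + 1 : ℕ) : FF) * η (co (β + Finsupp.single l 1) (lg x)) := by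
  let r : (σ →₀ ℕ) → Submodule FF (Matrix ι ι FF) := fun γ =>
    g.r (γ.degree + 1) ⊓ ⨅ _ : γ.degree = i, LinearMap.ker η
  have hr : ∀ γ X, X ∈ r γ ↔ X ∈ g.r (γ.degree + 1) ∧ (γ.degree = i → η X = 0) := fun γ X => by
    simp only [r, Submodule.mem_inf, Submodule.mem_iInf, LinearMap.mem_ker]
  have k1 : pm r ≤ pk g σ 1 := fun X hX γ => ((hr γ _).1 (hX γ)).1
  have k2 : pm r ≤ (g.fine σ).lie.L := k1.trans (pk_le hg (Nat.zero_le 1))
  have k3 : ∀ X ∈ (g.fine σ).lie.L, ∀ Y ∈ pk g σ 1, X * Y - Y * X ∈ pm r := fun X hX Y hY =>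
    pm_br (fun γ δ X hX Y hY => (hr _ _).2 ⟨by
      rw [map_add, add_assoc]; exact g.br _ _ X hX Y hY, fun e => by
      rw [map_add] at e
      rw [Fam.fine_r] at hX
      rcases Nat.eq_zero_or_pos γ.degree with h0 | h0
      · refine h2 _ ?_
        rw [h0] at hX
        have := hg.br0 hX hY
        rwa [show δ.degree + 1 + 1 = i + 2 by omega] at this
      · exact h3 _ _ h0 (by omega) (by omega) X hX Y hY⟩) hX hY
  have k4 : ∀ X ∈ (g.fine σ).lie.L, ∀ Y ∈ pm r, X * Y - Y * X ∈ pm r :=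
    fun X hX Y hY => k3 X hX Y (k1 hY)
  have hs := (sh_mem hg hx h).1
  have ha' := cst_mem (σ := σ) (inv_mem ha)
  have hb' := cst_mem (σ := σ) (inv_mem hb)
  have e1 := lg_mul_sub k2 k4 ha' hs (br_swap (k3 _ hs _ (lg_cst_mem_pk hg (inv_mem ha))))
  have hm := (g.fine σ).lie.grp.mul_mem ha' hs
  have e2 := lg_mul_sub k2 k4 hm hb' (k3 _ hm _ (lg_cst_mem_pk hg (inv_mem hb)))
  have hβ0 : β ≠ 0 := by rintro rfl; rw [map_zero] at hβ; omega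
  have f1 := ((hr β _).1 (e1 β)).2 hβ
  have f2 := ((hr β _).1 (e2 β)).2 hβ
  have f3 := h2 _ (hβ ▸ sh_mem2 hg hx h β)
  rw [co_sub, co_sub, co_lg_cst hβ0, sub_zero, map_sub] at f1 f2
  rw [map_sub, map_sub, map_sum] at f3
  simp only [map_smul, smul_eq_mul] at f3
  rw [map_inv] at f1
  rw [map_inv, map_inv] at f2
  rw [map_sub]
  linear_combination f1 + f2 + f3

/-- Polynomials with all coefficients in `g 1`. -/
def Fam.flat (g : Fam K lv ℕ) {D : ℕ} (hg : g.Fil D) (σ : Type) : Lie lv (MvPolynomial σ FF) where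
  L := pm fun _ => g.r 1
  up _ hX := up_iff_co.2 fun β => g.up 1 _ (hX β)
  br _ hX _ hY := pm_br (fun _ _ X hX Y hY => hg.anti 1 (g.br 1 1 X hX Y hY)) hX hY

theorem co_C_mul (β : σ →₀ ℕ) (A : Matrix ι ι FF) (X : Matrix ι ι (MvPolynomial σ FF)) :
    co β (A.map C * X) = A * co β X := by
  ext a b; simp [co, Matrix.mul_apply, coeff_sum]

theorem co_mul_C (β : σ →₀ ℕ) (A : Matrix ι ι FF) (X : Matrix ι ι (MvPolynomial σ FF)) :
    co β (X * A.map C) = co β X * A := by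
  ext a b; simp [co, Matrix.mul_apply, coeff_sum, mul_comm _ (C _), mul_comm (A _ _)]

/-- The logarithm of a value, to first order. -/
theorem lg_ev_sub [Fintype σ] {g : Fam K lv ℕ} {D : ℕ} (hg : g.Fil D) {x : PS lv σ FF}
    (hx : x ∈ (g.fine σ).plus.PG) (h : σ → FF) :
    lg (ev h x) - ∑ m, h m • co (Finsupp.single m 1) (lg x) ∈ g.r 2 := by
  obtain ⟨hx1, hx2⟩ := mem_plus.1 hx
  have := sh_mem2 hg hx1 h 0
  rw [co_zero_lg, co_zero_lg, hx2, ev_sh, zero_add, lg_one, sub_zero, map_zero] at this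
  simpa using this

/-- The bracket case. -/
theorem box_brk [Fintype σ] {g : Fam K lv ℕ} {D : ℕ} (hg : g.Fil D) {x : PS lv σ FF}
    (hx : x ∈ (g.fine σ).plus.PG) : ∃ W : σ → σ → Matrix ι ι FF, ∀ (h : σ → FF) (a b : UT lv FF),
    a ∈ g.GG → b ∈ g.GG → ev h x = a * b →
    (∑ m, h m • co (Finsupp.single m 1) (lg x)) - lg a - lg b ∈ g.r 2 ∧
    ∀ l, co (Finsupp.single l 1) (lg ((cst σ a)⁻¹ * sh h x * (cst σ b)⁻¹))
      - co (Finsupp.single l 1) (lg x) - ∑ m, h m • W l m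
      + (co (Finsupp.single l 1) (lg x) * lg b - lg b * co (Finsupp.single l 1) (lg x))
        ∈ g.r 3 := by
  have hx1 := (mem_plus.1 hx).1
  refine ⟨fun l m => (((Finsupp.single l 1 : σ →₀ ℕ) m + 1 : ℕ) : FF) •
      co (Finsupp.single l 1 + Finsupp.single m 1) (lg x) + (1 / 2 : ℚ) •
      (co (Finsupp.single l 1) (lg x) * co (Finsupp.single m 1) (lg x)
        - co (Finsupp.single m 1) (lg x) * co (Finsupp.single l 1) (lg x)),
    fun h a b ha hb hab => ?_⟩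
  have ha1 : lg a ∈ g.r 1 := hg.zero ▸ ha
  have hb1 : lg b ∈ g.r 1 := hg.zero ▸ hb
  have e0 : (∑ m, h m • co (Finsupp.single m 1) (lg x)) - lg a - lg b ∈ g.r 2 := by
    have e1 := lg_mul_sub (𝔏 := g.lie0) (J := (g.r 2).restrictScalars ℚ)
      (fun _ h => hg.le (Nat.zero_le 2) h) (fun X hX Y hY => hg.anti 2 (hg.br0 hX hY)) ha hb
      (g.br 1 1 _ ha1 _ hb1)
    rw [← hab] at e1
    convert sub_mem (show _ ∈ g.r 2 from e1) (lg_ev_sub hg hx h) using 1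
    abel
  refine ⟨e0, fun l => ?_⟩
  have fl : ∀ {y : PS lv σ FF}, y ∈ (g.fine σ).PG → y ∈ (g.flat hg σ).grp := fun hy β =>
    hg.zero ▸ hg.le (Nat.zero_le _) (hy β)
  have hs := sh_mem hg hx1 h
  have e1 := lg_mul3_sub2 (𝔏 := g.flat hg σ) (J := pm fun _ => g.r 2) (J' := pm fun _ => g.r 3)
    (fun _ h β => hg.anti 1 (h β)) (fun _ h β => hg.anti 2 (h β))
    (fun X hX Y hY => pm_br (fun _ _ X hX Y hY => g.br 1 1 X hX Y hY) hX hY)
    (fun X hX Y hY => pm_br (fun _ _ X hX Y hY => g.br 1 2 X hX Y hY) hX hY)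
    (fl (cst_mem (inv_mem ha))) (fl hs.1) (fl (cst_mem (inv_mem hb))) (Finsupp.single l 1)
  have hl : (Finsupp.single l 1 : σ →₀ ℕ) ≠ 0 := Finsupp.single_ne_zero.2 one_ne_zero
  have z : ∀ A : Matrix ι ι FF, co (Finsupp.single l 1) (A.map (C : FF → MvPolynomial σ FF)) = 0 :=
    fun A => by rw [co_C, if_neg hl]
  simp only [co_sub, co_add, co_qsmul, lg_cst, co_C_mul, co_mul_C, z, lg_inv, zero_mul,
    sub_zero, add_zero, zero_add] at e1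
  rw [map_inv, map_inv] at e1
  have e2 := sh_mem2 hg hx1 h (Finsupp.single l 1)
  have e3 := hs.2 (Finsupp.single l 1)
  have e4 := hx1 (Finsupp.single l 1)
  rw [Fam.fine_r] at e4
  rw [co_sub] at e3
  rw [Finsupp.degree_single] at e2 e3 e4
  have f1 := g.br 1 2 _ ha1 _ e3
  have f2 := g.br 1 2 _ hb1 _ e3
  have f3 := g.br 1 2 _ e4 _ e0
  have q := fun {X} (hX : X ∈ g.r 3) => Submodule.smul_of_tower_mem (g.r 3) (1 / 2 : ℚ) hX
  convert add_mem (add_mem e1 e2) (sub_mem (sub_mem (q f2) (q f1)) (q f3)) using 1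
  simp only [smul_add, sum_add_distrib, smul_smul, smul_comm (h _) (1 / 2 : ℚ), ← smul_sum,
    smul_sub, sum_sub_distrib, mul_sub, sub_mul, mul_sum, sum_mul, mul_smul_comm, smul_mul_assoc,
    mul_neg, neg_mul]
  module

end Pool.Agent.P.MP_a14ce1_nt.Nil
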