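import Pool.Agent.P.MP_a14ce1_nt.Nil.Four
import Pool.Agent.P.MP_a14ce1_nt.Nil.Box
import Pool.Agent.P.MP_a14ce1_nt.V.Norm

/-!
Correlation with a nilsequence forces a large Gowers norm.
-/

open Filter Finset MvPolynomial
open scoped BigOperators

set_option linter.unusedSectionVars false

noncomputable section

namespace Pool.Agent.P.MP_a14ce1_nt.Nil

variable {Q : HR} [Fact (2 ≤ Q)]

/-- The normalised Gowers average of an internal function on `[0, H)`. -/
def gowN (k : ℕ) (H : HZ) (φ : Ns (ℤ → ℂ)) : HR :=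
  Germ.map₂ (fun H φ => V.gow (Int.toNat H) k φ / (H : ℝ) ^ (k + 2)) H φ

/-- The multiplicative derivative of an internal function. -/
def dlN (h : HZ) (φ : Ns (ℤ → ℂ)) : Ns (ℤ → ℂ) := Germ.map₂ V.dl h φ

/-- The internal interval `(-H, H)`. -/
def iooN (H : HZ) : Ns (Finset ℤ) := H.map fun H => Ioo (-H) H

namespace FS

theorem box_st (H : ℕ → ℤ) : box (fun _ : Unit => (st H : HZ))
    = st fun n => Fintype.piFinset fun _ : Unit => Ico (0 : ℤ) (H n) :=
  st_congr ((rep_st (A := HZ) H).mono fun n h => by simp only [h])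

theorem expect_unit (H : ℤ) (hH : 0 < H) (θ : ℤ → ℂ) :
    (𝔼 x ∈ Fintype.piFinset fun _ : Unit => Ico (0 : ℤ) H, θ (x ()))
      = (∑ n ∈ Ico (0 : ℤ) H, θ n) / (H : ℂ) := by
  rw [expect_eq_sum_div_card, Fintype.card_piFinset]
  congr 1
  · exact sum_nbij' (fun x => x ()) (fun n _ => n) (fun a ha => Fintype.mem_piFinset.1 ha ())
      (by simp) (by simp) (by simp) (by simp)
  · simp only [univ_unique, Int.card_Ico, sub_zero, prod_singleton]
    exact_mod_cast Int.toNat_of_nonneg hH.le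

theorem Ex_unit (H : ℕ → ℤ) (hH : ∀ᶠ n in UU, 0 < H n) (φ : ℕ → ℤ → ℂ) :
    (Ex (box fun _ : Unit => (st H : HZ)) fun n : Unit → HZ => (ap (st φ) (n ()) : HC))
      = st fun n => (∑ m ∈ Ico (0 : ℤ) (H n), φ n m) / (H n : ℂ) := by
  rw [box_st, Ex_st _ (φ := fun n x => φ n (x ()))
    fun x : ℕ → Unit → ℤ => ap_st φ fun n => x n ()]
  exact st_congr (hH.mono fun n h => expect_unit _ h _)

theorem sq_eq (H : ℤ) (θ : ℤ → ℂ) (hs : ∀ n, ¬(0 ≤ n ∧ n < H) → θ n = 0) :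
    ((‖∑ n ∈ Ico (0 : ℤ) H, θ n‖ ^ 2 : ℝ) : ℂ)
      = ∑ h ∈ Ioo (-H) H, ∑ n ∈ Ico (0 : ℤ) H, V.dl h θ n := by
  rw [sum_comm, Complex.ofReal_pow, ← Complex.mul_conj', map_sum, mul_sum]
  refine sum_congr rfl fun n hn => ?_
  simp only [V.dl]
  rw [← sum_mul]
  congr 1
  rw [mem_Ico] at hn
  have e : ∑ h ∈ Ioo (-H) H, θ (n + h) = ∑ m ∈ Ioo (n - H) (n + H), θ m :=
    sum_nbij' (fun h => n + h) (fun m => m - n) (by simp; omega) (by simp; omega) (by simp)
      (by simp) (by simp)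
  rw [e]
  refine sum_subset (fun m hm => ?_) fun m _ hm => hs m (by rwa [mem_Ico] at hm)
  rw [mem_Ico] at hm
  rw [mem_Ioo]
  omega

theorem card_ioo (H : ℤ) (hH : 0 < H) : ((Ioo (-H) H).card : ℝ) = 2 * H - 1 := by
  rw [Int.card_Ioo]
  have : ((H - -H - 1).toNat : ℤ) = 2 * H - 1 := by omega
  exact_mod_cast this

end FS

open FS

theorem ap_dlN (h n : HZ) (φ : Ns (ℤ → ℂ)) :
    (ap (dlN h φ) n : HC) = ap φ (n + h) * cj (ap φ n) := by
  induction h using st_ind with | _ h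
  induction n using st_ind with | _ n
  induction φ using st_ind with | _ φ
  have e1 : dlN (st h) (st φ) = st fun i => V.dl (h i) (φ i) := rfl
  have e2 : (st n + st h : HZ) = st fun i => n i + h i := rfl
  rw [e1, e2, ap_st, ap_st, ap_st]
  rfl

theorem gowN_nonneg (k : ℕ) {H : HZ} (hH : 0 < H) (φ : Ns (ℤ → ℂ)) : 0 ≤ gowN k H φ := by
  induction H using st_ind with | _ H
  induction φ using st_ind with | _ φ
  exact st_le.2 ((st_lt.1 hH).mono fun n h => div_nonneg (V.gow_nonneg _ _ _)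
    (pow_nonneg (Int.cast_nonneg h.le) _))

theorem gowN_zero {H : HZ} (hH : 0 < H) (φ : Ns (ℤ → ℂ)) : gowN 0 H φ
    = nm (Ex (box fun _ : Unit => H) fun n : Unit → HZ => ap φ (n ())) ^ 2 := by
  induction H using st_ind with | _ H
  induction φ using st_ind with | _ φ
  rw [Ex_unit H (st_lt.1 hH)]
  refine st_congr (A := HR) ((st_lt.1 hH).mono fun n h => ?_)
  change V.gow (H n).toNat 0 (φ n) / (H n : ℝ) ^ (0 + 2) = ‖_ / (H n : ℂ)‖ ^ 2
  rw [V.gow_zero, Int.toNat_of_nonneg h.le, norm_div, div_pow, Complex.norm_intCast, sq_abs]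

theorem gowN_succ (k : ℕ) {H : HZ} (hH : 0 < H) (φ : Ns (ℤ → ℂ)) : gowN (k + 1) H φ
    = cd (iooN H) / ci H * Ex (iooN H) fun h : HZ => gowN k H (dlN h φ) := by
  induction H using st_ind with | _ H
  induction φ using st_ind with | _ φ
  have e : iooN (st H) = st fun n => Ioo (-H n) (H n) := rfl
  rw [e, Ex_st _ (φ := fun n h => V.gow (H n).toNat k (V.dl h (φ n)) / (H n : ℝ) ^ (k + 2))
    fun x => rfl]
  refine st_congr (A := HR) ((st_lt.1 hH).mono fun n h => ?_)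
  change V.gow (H n).toNat (k + 1) (φ n) / (H n : ℝ) ^ (k + 1 + 2)
    = ((Ioo (-H n) (H n)).card : ℝ) / (H n : ℝ) * _
  have h0 : (0 : ℝ) < H n := Int.cast_pos.2 h
  have h1 : (1 : ℝ) ≤ H n := by exact_mod_cast h
  have h2 : ((Ioo (-H n) (H n)).card : ℝ) ≠ 0 := by rw [card_ioo _ h]; linarith
  beta_reduce
  rw [V.gow_succ, Int.toNat_of_nonneg h.le, expect_eq_sum_div_card, ← sum_div]
  field_simp
  ring

/-- The exact van der Corput identity for functions supported in the window. -/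
theorem gowN_vdc {H : HZ} (hH : 0 < H) {φ : Ns (ℤ → ℂ)}
    (hs : ∀ n : HZ, ¬(0 ≤ n ∧ n < H) → (ap φ n : HC) = 0) : cr (gowN 0 H φ)
    = cr (cd (iooN H) / ci H) * Ex (iooN H) fun h : HZ =>
        Ex (box fun _ : Unit => H) fun n : Unit → HZ => (ap (dlN h φ) (n ()) : HC) := by
  induction H using st_ind with | _ H
  induction φ using st_ind with | _ φ
  have e : iooN (st H) = st fun n => Ioo (-H n) (H n) := rfl
  have hs' : ∀ᶠ n in UU, ∀ m, ¬(0 ≤ m ∧ m < H n) → φ n m = 0 := ev_forall.2 fun x => by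
    by_cases c : ∀ᶠ n in UU, 0 ≤ x n ∧ x n < H n
    · exact c.mono fun n h h' => (h' h).elim
    · have := hs (st x) fun h => c ((st_le.1 h.1).and (st_lt.1 h.2))
      rw [ap_st] at this
      exact ((NS.eq_iff _ fun _ => (0 : ℂ)).1 this).mono fun n h _ => h
  rw [e, Ex_st _ (φ := fun n h => (∑ m ∈ Ico (0 : ℤ) (H n), V.dl h (φ n) m) / (H n : ℂ))
    fun x => Ex_unit H (st_lt.1 hH) _]
  refine st_congr (A := HC) (((st_lt.1 hH).and hs').mono fun n ⟨h, h'⟩ => ?_)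
  change ((V.gow (H n).toNat 0 (φ n) / (H n : ℝ) ^ (0 + 2) : ℝ) : ℂ)
    = ((((Ioo (-H n) (H n)).card : ℝ) / (H n : ℝ) : ℝ) : ℂ) * _
  have h0 : (H n : ℂ) ≠ 0 := Int.cast_ne_zero.2 h.ne'
  have h1 : (1 : ℝ) ≤ H n := by exact_mod_cast h
  have h2 : ((Ioo (-H n) (H n)).card : ℝ) ≠ 0 := by rw [card_ioo _ h]; linarith
  have h3 : ((Ioo (-H n) (H n)).card : ℂ) ≠ 0 := by exact_mod_cast h2
  beta_reduce
  rw [V.gow_zero, Int.toNat_of_nonneg h.le, Complex.ofReal_div, sq_eq _ _ h',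
    expect_eq_sum_div_card, ← sum_div]
  push_cast
  field_simp

theorem ioo_ratio {H : HZ} (hH : 0 < H) :
    1 ≤ cd (iooN H) / ci H ∧ cd (iooN H) / ci H ≤ 2 := by
  induction H using st_ind with | _ H
  refine ⟨st_le.2 ((st_lt.1 hH).mono fun n h => ?_), st_le.2 ((st_lt.1 hH).mono fun n h => ?_)⟩
  · change (1 : ℝ) ≤ ((Ioo (-H n) (H n)).card : ℝ) / (H n : ℝ)
    have h1 : (1 : ℝ) ≤ H n := by exact_mod_cast h
    rw [card_ioo _ h, le_div_iff₀ (by linarith)]; linarith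
  · change ((Ioo (-H n) (H n)).card : ℝ) / (H n : ℝ) ≤ (2 : ℝ)
    have h1 : (1 : ℝ) ≤ H n := by exact_mod_cast h
    rw [card_ioo _ h, div_le_iff₀ (by linarith)]; linarith

@[fun_prop] theorem IntF.dlN {E S'' : Type} [NS E S''] {h : E → HZ} {φ : E → Ns (ℤ → ℂ)}
    (hh : IntF h) (hφ : IntF φ) : IntF fun e => dlN (h e) (φ e) := IntF.map₂ _ hh hφ
@[fun_prop] theorem IntF.gowN {E S'' : Type} [NS E S''] (k : ℕ) {H : E → HZ} {φ : E → Ns (ℤ → ℂ)}
    (hH : IntF H) (hφ : IntF φ) : IntF fun e => gowN k (H e) (φ e) := IntF.map₂ _ hH hφ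

theorem Fam.Fil.cen0 {ι : Type} [Fintype ι] [DecidableEq ι] {lv : ι → ℕ} {g : Fam (KK Q) lv ℕ}
    {D : ℕ} (hg : g.Fil D) (i : ℕ) : Cen g (g.r i) 0 where
  idl := ⟨g.rat i, hg.le (Nat.zero_le i), fun _ hX _ hY => hg.anti i (hg.br0 hX hY)⟩
  rat _ _ := zero_mem _
  cen _ _ _ _ := rfl

namespace FS

theorem aux {H : HZ} (hH : 0 < H) (q : HR) (k : ℕ) : ∀ {ι : Type} [Fintype ι] [DecidableEq ι]
    {lv : ι → ℕ} {g : Fam (KK Q) lv ℕ} {D : ℕ} (_ : g.Fil D) {F : UT lv HR → HC}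
    (_ : Nice Q q g.GG F) (_ : Eqv Q g.GG (g.r (k + 1)) 0 F) {x : PS lv Unit HR}
    (_ : x ∈ (g.fine Unit).PG) {φ : Ns (ℤ → ℂ)} (_ : ∀ n : HZ, nm (ap φ n) ≤ 1)
    (_ : ∀ n : HZ, ¬(0 ≤ n ∧ n < H) → (ap φ n : HC) = 0)
    (_ : BigC Q (Ex (box fun _ : Unit => H) fun n : Unit → HZ =>
      ap φ (n ()) * F (ev (zv n) x))), Big Q (gowN k H φ) := by
  induction k with
  | zero =>
    intro ι _ _ lv g D hg F hF he x hx φ hb hs h
    have hi := hF.int
    rw [gowN_zero hH]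
    refine Big.pow (Q := Q) (show BigC Q _ from ?_) 2
    have e : ∀ n : Unit → HZ, TinyC Q (ap φ (n ()) * F (ev (zv n) x) - ap φ (n ()) * F 1) :=
      fun n => by
        rw [← mul_sub]
        have := he (ev (zv n) x) (hg.zero ▸ ev_mem hg hx _) 1 (one_mem _)
        rw [mul_one, LinearMap.zero_apply, ee_zero, one_mul] at this
        exact this.mul' (nm_OO (hb _))
    have h1 := h.of_sub (tinyC_Ex (by fun_prop) (by fun_prop) fun n _ => e n)
    rw [Ex_mul_right (by fun_prop)] at h1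
    exact h1.of_mul (nm_OO (hF.bd _))
  | succ k ih =>
    intro ι _ _ lv g D hg F hF he x hx φ hb hs h
    obtain ⟨ξ, F1, hc, hξ, hF1, he1, h1⟩ := fourG1 (hg.cen0 (k + 1 + 1)) (g.rat (k + 1))
      (hg.le (Nat.zero_le _)) (fun X hX W hW => ⟨hg.br0 hX hW, rfl⟩) hF he
      (w := fun n : Unit → HZ => ap φ (n ())) (by fun_prop)
      (x := fun n : Unit → HZ => ev (zv n) x) (by fun_prop)
      (fun n _ => ⟨hb _, ev_mem hg hx _⟩) h
    rw [sup_eq_right.2 (hg.anti (k + 1))] at hc he1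
    obtain ⟨a, ha, b, hb', hab, haO, hbL⟩ := normaliseQ g hF.lvl (ev_mem hg hx 0)
    set y : PS lv Unit HR := (cst Unit a)⁻¹ * x * (cst Unit b)⁻¹ with hy
    have hy0 : y ∈ (g.fine Unit).PG :=
      mul_mem (mul_mem (inv_mem (cst_mem ha)) hx) (inv_mem (cst_mem hb'))
    have hy1 : y ∈ (g.fine Unit).plus.PG := mem_plus.2 ⟨hy0, by
      simp only [hy, map_mul, map_inv, ev_cst, hab]; group⟩
    have hxy : ∀ n, ev n x = a * ev n y * b := fun n => by
      simp only [hy, map_mul, map_inv, ev_cst]; group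
    have hF2 := hF1.left ha haO
    have he2 := Eqv.left hc he1 ha
    have i1 := hF1.int
    have h2 : BigC Q (Ex (box fun _ : Unit => H) fun n : Unit → HZ =>
        ap φ (n ()) * F1 (a * ev (zv n) y)) :=
      h1.of_sub (tinyC_Ex (by fun_prop) (by fun_prop) fun n _ => by
        rw [← mul_sub, hxy]
        exact (hF1.per b hb' hbL _ (mul_mem ha (ev_mem hg hy0 _))).mul' (nm_OO (hb _)))
    obtain ⟨F2, e2⟩ : ∃ F2 : UT lv HR → HC, F2 = fun x => F1 (a * x) := ⟨_, rfl⟩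
    have e3 : ∀ x, F1 (a * x) = F2 x := fun x => by rw [e2]
    rw [← e2] at hF2 he2
    simp only [e3] at h2
    have i2 := hF2.int
    obtain ⟨θ, hθ⟩ := IntF.eq_ap (f := fun n : HZ => ap φ n * F2 (ev (zv fun _ => n) y))
      (by fun_prop)
    have eθ : ∀ n : HZ, (ap θ n : HC) = ap φ n * F2 (ev (zv fun _ => n) y) :=
      fun n => (congrFun hθ n).symm
    have h3 : BigC Q (cr (gowN 0 H θ)) := by
      rw [bigC_cr, gowN_zero hH]
      refine Big.pow (Q := Q) (show BigC Q _ from ?_) 2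
      simp only [eθ]
      exact h2
    obtain ⟨r1, r2⟩ := ioo_ratio hH
    rw [gowN_vdc hH fun n hn => by rw [eθ, hs n hn, zero_mul]] at h3
    have bθ : ∀ h n : HZ, nm (ap (dlN h θ) n) ≤ 1 := fun h n => by
      have : ∀ m : HZ, nm (ap θ m) ≤ 1 := fun m => by
        rw [eθ]; exact nm_mul_le_one (hb _) (hF2.bd _)
      rw [ap_dlN]
      exact nm_mul_le_one (this _) (by rw [nm_cj]; exact this _)
    have h4 := markov (IntF.ex (IntF.const _) (by fun_prop))
      (fun h _ => nm_OO (nm_Ex_le (by fun_prop) zero_le_one fun n _ => bθ h _))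
      (h3.of_mul' (by
        rw [nm_cr]
        exact OO_of_abs_le (ofNat_mem _ 2) (by rw [abs_abs, abs_of_nonneg (by linarith)]; exact r2)))
    rw [gowN_succ k hH]
    refine (Big.of_one_le (r1.trans (le_abs_self _))).mul (Dense.big_Ex (by fun_prop)
      (fun h _ => gowN_nonneg k hH _) (h4.mono fun h _ h5 => ?_))
    obtain ⟨c, hc', d, hd, hcd, hcO, hdL⟩ := normaliseQ g hF.lvl (ev_mem hg hy0 (zv fun _ => h))
    have hz := box_mem hg hy1 _ hc' hd hcd
    set u : PS lv Unit HR := (cst Unit c)⁻¹ * sh (zv fun _ => h) y * (cst Unit d)⁻¹ with hu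
    have hu0 : ∀ n, ev n u ∈ g.GG := fun n => by
      simp only [hu, map_mul, map_inv, ev_cst, ev_sh]
      exact mul_mem (mul_mem (inv_mem hc') (ev_mem hg hy0 _)) (inv_mem hd)
    have hN := ((hF2.left hc' hcO).tens hF2.cj).mono (Fam.GG_mono (g.box_le hg))
    have hE : Eqv Q (g.box hg).GG ((g.box hg).r (k + 1)) 0 _ :=
      ((Eqv.left hc he2 hc').tens he2.cj (fun _ => hF2.bd _)
        (fun _ => by rw [nm_cj]; exact hF2.bd _)).mono (Fam.GG_mono (g.box_le hg))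
        (fun Z hZ => by
          obtain ⟨X, hX, Y, hY, -, rfl⟩ := Fam.mem_box.1 hZ
          exact ⟨X, hX, Y, hY, rfl⟩)
        fun Z hZ => by
          obtain ⟨X, hX, Y, hY, hXY, rfl⟩ := Fam.mem_box.1 hZ
          rw [max_eq_left (by omega)] at hXY
          have := hξ _ hXY
          rw [map_sub, LinearMap.zero_apply] at this
          change 0 = ξ X + -ξ Y
          rw [← sub_eq_add_neg, this]
    have i3 := hN.int
    refine ih (g.box_fil hg) hN hE (mem_plus.1 hz).1 (fun n => ?_) (fun n hn => ?_)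
      (h5.of_sub (tinyC_Ex (by fun_prop) (IntF.mul (by fun_prop)
        (i3.comp (f := fun n : Unit → HZ => ev (zv n) (UT.dg (u, y))) (by fun_prop)))
        fun n _ => ?_))
    · rw [ap_dlN]
      exact nm_mul_le_one (hb _) (by rw [nm_cj]; exact hb _)
    · rw [ap_dlN, hs n hn, map_zero, mul_zero]
    · have e4 : ev (zv fun _ : Unit => n () + h) y = c * ev (zv n) u * d := by
        have : (zv fun _ : Unit => n () + h) = zv n + zv fun _ => h := by
          funext l; exact map_add ci _ _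
        simp only [hu, map_mul, map_inv, ev_cst, ev_sh, this]; group
      have e5 : (fun _ : Unit => n ()) = n := rfl
      rw [ap_dlN, ap_dlN, eθ, eθ, ev_dg, UT.p1_dg, UT.p2_dg, map_mul cj, e4, e5, mul_mul_mul_comm,
        ← mul_sub, ← sub_mul]
      refine TinyC.mul' (TinyC.mul (hF2.per d hd hdL _ (mul_mem hc' (hu0 _))) (nm_OO ?_)) (nm_OO ?_)
      · rw [nm_cj]; exact hF2.bd _
      · exact nm_mul_le_one (hb _) (by rw [nm_cj]; exact hb _)

end FS

theorem fs {ι : Type} [Fintype ι] [DecidableEq ι] {lv : ι → ℕ} {g : Fam (KK Q) lv ℕ} {D}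
    (hg : g.Fil D) {k : ℕ} {q F} (hF : Nice Q q g.GG F)
    (he : Eqv Q g.GG (g.r (k + 1)) 0 F) {x : PS lv Unit HR} (hx : x ∈ (g.fine Unit).PG) {H : HZ}
    (hH : 0 < H) {φ : Ns (ℤ → ℂ)} (hb : ∀ n : HZ, nm (ap φ n) ≤ 1)
    (hs : ∀ n : HZ, ¬(0 ≤ n ∧ n < H) → (ap φ n : HC) = 0)
    (h : BigC Q (Ex (box fun _ : Unit => H) fun n : Unit → HZ => ap φ (n ()) * F (ev (zv n) x))) :
    Big Q (gowN k H φ) := FS.aux hH q k hg hF he hx hb hs h

end Pool.Agent.P.MP_a14ce1_nt.Nil
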