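import Mathlib

/-!
Fourier coefficients of `1`-periodic functions and the Fejér approximation with the rate `m^{-1/2}`.
-/

open Finset Complex intervalIntegral
open scoped Real

noncomputable section

namespace Pool.Agent.P.MP_a14ce1_nt.Nil

/-- `e(t) = exp (2 π i t)`. -/
def eR (t : ℝ) : ℂ := exp (2 * π * I * t)

theorem eR_add (s t : ℝ) : eR (s + t) = eR s * eR t := by
  rw [eR, eR, eR, ← exp_add]; congr 1; push_cast; ring

@[simp] theorem eR_zero : eR 0 = 1 := by simp [eR]

@[simp] theorem norm_eR (t : ℝ) : ‖eR t‖ = 1 := by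
  have : (2 * π * I * t : ℂ) = ((2 * π * t : ℝ) : ℂ) * I := by push_cast; ring
  rw [eR, this, norm_exp_ofReal_mul_I]

theorem eR_int (n : ℤ) : eR n = 1 := by
  have := exp_int_mul_two_pi_mul_I n
  rw [eR, ← this]; congr 1; push_cast; ring

theorem eR_add_int (t : ℝ) (n : ℤ) : eR (t + n) = eR t := by rw [eR_add, eR_int, mul_one]

theorem eR_neg (t : ℝ) : eR (-t) = (starRingEnd ℂ) (eR t) := by
  rw [eR, eR, ← exp_conj]; congr 1
  simp only [map_mul, conj_ofReal, conj_I, map_ofNat]; push_cast; ring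

theorem eR_mul_neg (t : ℝ) : eR t * eR (-t) = 1 := by rw [← eR_add, add_neg_cancel, eR_zero]

theorem eR_nat_mul (k : ℕ) (t : ℝ) : eR (k * t) = eR t ^ k := by
  rw [eR, eR, ← exp_nat_mul]; congr 1; push_cast; ring

@[fun_prop] theorem continuous_eR : Continuous eR := by unfold eR; fun_prop

theorem norm_eR_sub_one (t : ℝ) : ‖eR t - 1‖ = 2 * |Real.sin (π * t)| := by
  have : (2 * π * I * t : ℂ) = I * ((2 * π * t : ℝ) : ℂ) := by push_cast; ring
  rw [eR, this, norm_exp_I_mul_ofReal_sub_one, show 2 * π * t / 2 = π * t by ring, Real.norm_eq_abs,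
    abs_mul, abs_two]

theorem norm_eR_sub_one_le (t : ℝ) : ‖eR t - 1‖ ≤ 7 * |t| := by
  rw [norm_eR_sub_one]
  have h := Real.abs_sin_le_abs (x := π * t)
  rw [abs_mul, abs_of_pos Real.pi_pos] at h
  have := Real.pi_lt_d2
  nlinarith [abs_nonneg t]

theorem norm_eR_sub_le (s t : ℝ) : ‖eR s - eR t‖ ≤ 7 * |s - t| := by
  have : eR s - eR t = eR t * (eR (s - t) - 1) := by
    rw [mul_sub, ← eR_add, mul_one]; congr 2; ring
  rw [this, norm_mul, norm_eR, one_mul]; exact norm_eR_sub_one_le _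

theorem min_le_norm {t : ℝ} (h0 : 0 ≤ t) (h1 : t ≤ 1) : 4 * min t (1 - t) ≤ ‖eR t - 1‖ := by
  have key : ∀ u : ℝ, 0 ≤ u → u ≤ 1 / 2 → 2 * u ≤ Real.sin (π * u) := fun u a b => by
    have := Real.mul_le_sin (x := π * u) (by positivity) (by nlinarith [Real.pi_pos])
    rwa [show 2 / π * (π * u) = 2 * u by field_simp] at this
  rw [norm_eR_sub_one]
  rcases le_total t (1 / 2) with h | h
  · have := key t h0 h
    have := le_abs_self (Real.sin (π * t))
    have := min_le_left t (1 - t)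
    linarith
  · have := key (1 - t) (by linarith) (by linarith)
    rw [mul_sub π, mul_one, Real.sin_pi_sub] at this
    have := le_abs_self (Real.sin (π * t))
    have := min_le_right t (1 - t)
    linarith

/-- The `j`-th Fourier coefficient on `[0,1]`. -/
def four (f : ℝ → ℂ) (j : ℤ) : ℂ := ∫ t in (0 : ℝ)..1, f t * eR (-(j * t))

theorem norm_four_le {f : ℝ → ℂ} {c : ℝ} (h : ∀ t, ‖f t‖ ≤ c) (j : ℤ) : ‖four f j‖ ≤ c := by
  have := norm_integral_le_of_norm_le_const (a := 0) (b := 1) (C := c)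
    (f := fun t => f t * eR (-(j * t))) fun t _ => by rw [norm_mul, norm_eR, mul_one]; exact h t
  simpa [four] using this

theorem four_sub {f g : ℝ → ℂ} (hf : Continuous f) (hg : Continuous g) (j : ℤ) :
    four (fun t => f t - g t) j = four f j - four g j := by
  unfold four
  rw [← integral_sub ((by fun_prop : Continuous _).intervalIntegrable _ _)
    ((by fun_prop : Continuous _).intervalIntegrable _ _)]
  simp only [sub_mul]

theorem norm_four_sub_le {f g : ℝ → ℂ} (hf : Continuous f) (hg : Continuous g) {c : ℝ}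
    (h : ∀ t, ‖f t - g t‖ ≤ c) (j : ℤ) : ‖four f j - four g j‖ ≤ c := by
  rw [← four_sub hf hg]; exact norm_four_le h j

theorem four_const_mul (c : ℂ) (f : ℝ → ℂ) (j : ℤ) : four (fun t => c * f t) j = c * four f j := by
  unfold four
  rw [← integral_const_mul]; simp only [mul_assoc]

theorem four_shift {f : ℝ → ℂ} (hp : ∀ t, f (t + 1) = f t) (s : ℝ) (j : ℤ) :
    four (fun t => f (s + t)) j = eR (j * s) * four f j := by
  unfold four
  have hP : Function.Periodic (fun t => f t * eR (-(j * t))) 1 := fun t => by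
    have : (-(j * (t + 1)) : ℝ) = -(j * t) + ((-j : ℤ) : ℝ) := by push_cast; ring
    simp only [hp, this, eR_add_int]
  have h1 := hP.intervalIntegral_add_eq s 0
  rw [zero_add] at h1
  rw [← h1, ← integral_const_mul]
  have h2 := integral_comp_add_left (a := 0) (b := 1)
    (fun t => eR (j * s) * (f t * eR (-(j * t)))) s
  rw [add_zero] at h2
  rw [← h2]
  congr 1; funext t
  have : (-(j * t) : ℝ) = j * s + -(j * (s + t)) := by ring
  rw [this, eR_add]; ring

theorem integral_eR (j : ℤ) : ∫ t in (0 : ℝ)..1, eR (j * t) = if j = 0 then 1 else 0 := by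
  split_ifs with h
  · simp [h]
  · have hc : (2 * π * I * j : ℂ) ≠ 0 := by simp [h, Real.pi_ne_zero]
    have := integral_exp_mul_complex (a := 0) (b := 1) hc
    have e : ∀ t : ℝ, eR (j * t) = exp (2 * π * I * j * t) := fun t => by
      rw [eR]; congr 1; push_cast; ring
    simp only [e, this]
    have h1 := eR_int j
    rw [eR] at h1
    push_cast at h1 ⊢
    rw [mul_one, h1]; simp

/-- Fejér approximation. -/
theorem fejer {f : ℝ → ℂ} {L : ℝ} (hp : ∀ t, f (t + 1) = f t)
    (hL : ∀ s t, ‖f s - f t‖ ≤ L * |s - t|) {m : ℕ} (hm : 0 < m) :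
    ‖f 0 - (m : ℂ)⁻¹ * ∑ k ∈ range m, ∑ l ∈ range m, four f ((k : ℤ) - l)‖ ≤ L / √m := by
  have L0 : 0 ≤ L := by have := (norm_nonneg _).trans (hL 1 0); simpa using this
  have hf : Continuous f := (LipschitzWith.of_dist_le_mul (K := ⟨L, L0⟩) fun s t => by
    rw [dist_eq_norm, Real.dist_eq]; exact hL s t).continuous
  have m0 : (0 : ℝ) < m := by exact_mod_cast hm
  set S : ℝ → ℂ := fun t => ∑ k ∈ range m, eR (k * t) with hS
  have cS : Continuous S := by rw [hS]; fun_prop
  have hK : ∀ t, ∑ k ∈ range m, ∑ l ∈ range m, eR (-((((k : ℤ) - l : ℤ) : ℝ) * t))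
      = ((‖S t‖ ^ 2 : ℝ) : ℂ) := fun t => by
    rw [ofReal_pow, ← conj_mul', hS, map_sum, sum_mul_sum]
    refine sum_congr rfl fun k _ => sum_congr rfl fun l _ => ?_
    rw [← eR_neg, ← eR_add]; congr 1; push_cast; ring
  have h1 : ∀ g : ℝ → ℂ, Continuous g → ∑ k ∈ range m, ∑ l ∈ range m, four g ((k : ℤ) - l)
      = ∫ t in (0 : ℝ)..1, g t * ((‖S t‖ ^ 2 : ℝ) : ℂ) := fun g hg => by
    simp only [← hK, mul_sum, four]
    rw [integral_finsetSum fun k _ => (by fun_prop : Continuous _).intervalIntegrable _ _]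
    refine sum_congr rfl fun k _ => ?_
    rw [integral_finsetSum fun k _ => (by fun_prop : Continuous _).intervalIntegrable _ _]
  have h2 : ∫ t in (0 : ℝ)..1, ((‖S t‖ ^ 2 : ℝ) : ℂ) = m := by
    have := h1 (fun _ => 1) continuous_const
    simp only [one_mul] at this
    rw [← this]
    have e : ∀ k l : ℕ, four (fun _ => 1) ((k : ℤ) - l) = if l = k then 1 else 0 := fun k l => by
      have := integral_eR (l - k)
      simp only [sub_eq_zero, Nat.cast_inj] at this
      rw [← this, four]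
      congr 1; funext t; rw [one_mul]; congr 1; push_cast; ring
    simp only [e, sum_ite_eq', mem_range]
    rw [sum_congr rfl fun k hk => if_pos (mem_range.1 hk)]; simp
  have h2' : ∫ t in (0 : ℝ)..1, ‖S t‖ ^ 2 = m := by
    rw [integral_ofReal] at h2; exact_mod_cast h2
  have mc : (m : ℂ) ≠ 0 := by exact_mod_cast hm.ne'
  have h3 : f 0 - (m : ℂ)⁻¹ * ∑ k ∈ range m, ∑ l ∈ range m, four f ((k : ℤ) - l)
      = (m : ℂ)⁻¹ * ∫ t in (0 : ℝ)..1, (f 0 - f t) * ((‖S t‖ ^ 2 : ℝ) : ℂ) := by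
    simp only [sub_mul]
    rw [h1 f hf, integral_sub ((by fun_prop : Continuous _).intervalIntegrable _ _)
      ((by fun_prop : Continuous _).intervalIntegrable _ _), integral_const_mul, h2, mul_sub,
      mul_comm (f 0), inv_mul_cancel_left₀ mc]
  have sq := Real.sqrt_pos.2 m0
  have ss := Real.mul_self_sqrt m0.le
  have h4 : ∀ t ∈ Set.Icc (0 : ℝ) 1, ‖(f 0 - f t) * ((‖S t‖ ^ 2 : ℝ) : ℂ)‖
      ≤ L / 4 * (‖S t‖ ^ 2 / √m + √m) := fun t ht => by
    have a1 : ‖f 0 - f t‖ ≤ L * min t (1 - t) := by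
      rcases le_total t (1 - t) with h | h
      · rw [min_eq_left h]; simpa [abs_of_nonneg ht.1] using hL 0 t
      · rw [min_eq_right h, ← hp 0, zero_add]
        simpa [abs_of_nonneg (sub_nonneg.2 ht.2)] using hL 1 t
    have a2 := min_le_norm ht.1 ht.2
    have a3 : ‖S t‖ * ‖eR t - 1‖ ≤ 2 := by
      rw [← norm_mul, hS]
      simp only [eR_nat_mul]
      rw [geom_sum_mul]
      refine (norm_sub_le _ _).trans ?_
      rw [norm_pow, norm_eR]; norm_num
    have a4 : 2 * ‖S t‖ ≤ ‖S t‖ ^ 2 / √m + √m := by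
      rw [div_add' _ _ _ sq.ne', le_div_iff₀ sq]
      nlinarith [sq_nonneg (‖S t‖ - √m)]
    rw [norm_mul, norm_real, Real.norm_of_nonneg (sq_nonneg _)]
    have a5 : ‖f 0 - f t‖ ≤ L / 4 * ‖eR t - 1‖ := by nlinarith
    calc _ ≤ L / 4 * ‖eR t - 1‖ * ‖S t‖ ^ 2 := by gcongr
      _ = L / 4 * (‖S t‖ * ‖eR t - 1‖ * ‖S t‖) := by ring
      _ ≤ L / 4 * (2 * ‖S t‖) := by gcongr
      _ ≤ _ := by gcongr
  have h5 := norm_integral_le_of_norm_le (μ := MeasureTheory.volume) zero_le_one
    (Filter.Eventually.of_forall fun t ht => h4 t (Set.Ioc_subset_Icc_self ht))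
    ((by fun_prop : Continuous _).intervalIntegrable _ _)
  rw [integral_const_mul, integral_add ((by fun_prop : Continuous _).intervalIntegrable _ _)
    ((by fun_prop : Continuous _).intervalIntegrable _ _), integral_div, h2'] at h5
  rw [h3, norm_mul, norm_inv, norm_natCast]
  have e : (m : ℝ) / √m = √m := by rw [div_eq_iff sq.ne', ss]
  simp only [integral_const, sub_zero, smul_eq_mul, one_mul, e] at h5
  rw [inv_mul_le_iff₀ m0]
  refine h5.trans ?_
  rw [mul_div_assoc', mul_comm (m : ℝ), mul_div_assoc, e]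
  nlinarith

end Pool.Agent.P.MP_a14ce1_nt.Nil
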