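import Pool.Agent.P.MP_a14ce1_nt.Nil.Gowers2
import Pool.Agent.P.MP_a14ce1_nt.Nil.Fejer
import Pool.Agent.P.MP_a14ce1_nt.V.Norm

/-! The `U^2` inverse theorem, additive quadruples, van der Corput, and the link with `V.gow`. -/

namespace Pool.Agent.P.MP_a14ce1_nt.Nil

open Finset Function ComplexConjugate

/-! ### The link with the local norms of part V -/

theorem gow_eq_U (H k : ℕ) {φ : ℤ → ℂ} (h : ∀ n, φ n ≠ 0 → 0 ≤ n ∧ n < H) :
    V.gow H k φ = U k φ := by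
  induction k generalizing φ with
  | zero => rw [V.gow_zero, U_zero_eq fun n hn => mem_Ico.mpr (h n hn)]
  | succ k ih =>
    rw [V.gow_succ, U_succ_eq k (T := Ioo (-(H : ℤ)) H) fun x y hx hy => by
      have := h x hx
      have := h y hy
      rw [mem_Ioo]; omega]
    exact sum_congr rfl fun a _ => ih fun n hn => h n (dl_ne hn).2

theorem win_supp (f : ℕ → ℂ) (x H : ℕ) (n : ℤ) (hn : V.win f x H n ≠ 0) : 0 ≤ n ∧ n < H := by
  by_contra hc
  exact hn (if_neg hc)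

theorem cube_eq_U (k : ℕ) (f : ℕ → ℂ) (x H : ℕ) :
    V.cube k f x H = U k (V.win f x H) / (H : ℝ) ^ (k + 2) := by
  rw [V.cube, gow_eq_U H k (win_supp f x H)]

/-! ### The `U^2` inverse theorem -/

theorem parseval_int (g : ℤ → ℂ) (T : Finset ℤ) :
    ∫ t in (0 : ℝ)..1, ‖∑ x ∈ T, g x * eR (t * x)‖ ^ 2 = ∑ x ∈ T, ‖g x‖ ^ 2 := by
  apply Complex.ofReal_injective
  rw [← intervalIntegral.integral_ofReal]
  have e : ∀ t : ℝ, ((‖∑ x ∈ T, g x * eR (t * x)‖ ^ 2 : ℝ) : ℂ) =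
      ∑ x ∈ T, ∑ y ∈ T, g x * conj (g y) * eR (((x - y : ℤ) : ℝ) * t) := by
    intro t
    rw [← Complex.normSq_eq_norm_sq, ← Complex.mul_conj, map_sum, sum_mul_sum]
    refine sum_congr rfl fun x _ => sum_congr rfl fun y _ => ?_
    rw [map_mul, ← eR_neg, show ((x - y : ℤ) : ℝ) * t = t * x + -(t * y) by push_cast; ring, eR_add]
    ring
  simp only [e]
  rw [intervalIntegral.integral_finsetSum fun x _ => Continuous.intervalIntegrable (by fun_prop) _ _,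
    Complex.ofReal_sum]
  refine sum_congr rfl fun x hx => ?_
  rw [intervalIntegral.integral_finsetSum fun y _ => Continuous.intervalIntegrable (by fun_prop) _ _]
  simp only [intervalIntegral.integral_const_mul, integral_eR, sub_eq_zero, mul_ite, mul_one,
    mul_zero]
  rw [sum_ite_eq, if_pos hx, Complex.mul_conj, Complex.normSq_eq_norm_sq]

theorem U_one_le {f : ℤ → ℂ} {S : Finset ℤ} (hS : ∀ x, f x ≠ 0 → x ∈ S) {c : ℝ}
    (hc : ∀ α : ℝ, ‖∑ x ∈ S, f x * eR (α * x)‖ ≤ c) : U 1 f ≤ c ^ 2 * ∑ x ∈ S, ‖f x‖ ^ 2 := by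
  have hf := fin_of hS
  obtain ⟨T, hT⟩ := ex_diff hf hf
  have e1 : U 1 f = ∑ h ∈ T, ‖∑ x ∈ S, dl h f x‖ ^ 2 := by
    rw [U_succ_eq 0 hT]
    exact sum_congr rfl fun h _ => U_zero_eq fun x hx => hS x (dl_ne hx).2
  have e2 : ∀ t : ℝ, ∑ h ∈ T, (∑ x ∈ S, dl h f x) * eR (t * h) =
      ((‖∑ x ∈ S, f x * eR (t * x)‖ ^ 2 : ℝ) : ℂ) := by
    intro t
    have h1 : ∀ x, f x * eR (t * x) ≠ 0 → x ∈ S := fun x hx => hS x (left_ne_zero_of_mul hx)
    have h2 : ∀ h x : ℤ, dl h (fun x : ℤ => f x * eR (t * x)) x = dl h f x * eR (t * h) := by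
      intro h x
      simp only [dl, map_mul, ← eR_neg]
      rw [show t * (h : ℝ) = t * ((x + h : ℤ) : ℝ) + -(t * x) by push_cast; ring, eR_add]
      ring
    have h3 : ∀ h : ℤ, ∑ᶠ x, dl h (fun x : ℤ => f x * eR (t * x)) x =
        ∑ x ∈ S, dl h (fun x : ℤ => f x * eR (t * x)) x := fun h =>
      fs_eq fun x hx => h1 x (dl_ne (f := fun x : ℤ => f x * eR (t * x)) hx).2
    rw [← U_zero_eq h1, U_zero_cx (fin_of h1), fs_eq (S := T)]
    · refine sum_congr rfl fun h _ => ?_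
      rw [h3, sum_mul]
      exact sum_congr rfl fun x _ => (h2 h x).symm
    · intro h hh
      rw [h3] at hh
      obtain ⟨x, -, hx⟩ := exists_ne_zero_of_sum_ne_zero hh
      have := dl_ne (f := fun x : ℤ => f x * eR (t * x)) hx
      simpa using hT _ _ (left_ne_zero_of_mul this.1) (left_ne_zero_of_mul this.2)
  rw [e1, ← parseval_int, ← parseval_int f S, ← intervalIntegral.integral_const_mul]
  refine intervalIntegral.integral_mono_on zero_le_one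
    (Continuous.intervalIntegrable (by fun_prop) _ _)
    (Continuous.intervalIntegrable (by fun_prop) _ _) fun t _ => ?_
  rw [e2, Complex.norm_real, Real.norm_of_nonneg (sq_nonneg _), sq (_ ^ 2)]
  exact mul_le_mul_of_nonneg_right (pow_le_pow_left₀ (norm_nonneg _) (hc t) 2) (sq_nonneg _)

/-- `GI(1)`: a large `U^2` norm gives a large Fourier coefficient. -/
theorem gi_one {f : ℤ → ℂ} {S : Finset ℤ} (hS : ∀ x, f x ≠ 0 → x ∈ S) (h1 : ∀ x, ‖f x‖ ≤ 1)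
    {c : ℝ} (hc : c ^ 2 * S.card < U 1 f) : ∃ α : ℝ, c < ‖∑ x ∈ S, f x * eR (α * x)‖ := by
  by_contra h
  push Not at h
  refine absurd ((U_one_le hS h).trans (mul_le_mul_of_nonneg_left ?_ (sq_nonneg c))) (not_le.mpr hc)
  simpa using sum_le_card_nsmul S (fun x => ‖f x‖ ^ 2) 1
    fun x _ => pow_le_one₀ (norm_nonneg _) (h1 x)

/-! ### Cauchy–Schwarz against a bounded function -/

theorem cs_bdd {α : Type*} (W : Finset α) {S : Finset α} {b A : α → ℂ}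
    (hS : ∀ x, b x ≠ 0 → x ∈ S) (hb : ∀ x, ‖b x‖ ≤ 1) :
    ‖∑ x ∈ W, b x * A x‖ ^ 2 ≤ S.card * ∑ x ∈ W, ‖A x‖ ^ 2 := by
  classical
  have h1 : ‖∑ x ∈ W, b x * A x‖ ^ 2 ≤ (∑ x ∈ W, ‖b x‖ ^ 2) * ∑ x ∈ W, ‖A x‖ ^ 2 := by
    refine (pow_le_pow_left₀ (norm_nonneg _) (norm_sum_le _ _) 2).trans ?_
    simp only [norm_mul]
    exact sum_mul_sq_le_sq_mul_sq _ _ _
  refine h1.trans (mul_le_mul_of_nonneg_right ?_ (sum_nonneg fun _ _ => sq_nonneg _))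
  calc ∑ x ∈ W, ‖b x‖ ^ 2 = ∑ x ∈ W ∩ S, ‖b x‖ ^ 2 := by
        refine (sum_subset inter_subset_left fun x hx hx' => ?_).symm
        have : b x = 0 := by_contra fun h0 => hx' (mem_inter.mpr ⟨hx, hS x h0⟩)
        simp [this]
    _ ≤ (W ∩ S).card := by
        simpa using sum_le_card_nsmul (W ∩ S) (fun x => ‖b x‖ ^ 2) 1
          fun x _ => pow_le_one₀ (norm_nonneg _) (hb x)
    _ ≤ S.card := by exact_mod_cast card_le_card inter_subset_right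

theorem sq_norm_sum {α : Type*} (W : Finset α) (A : α → ℂ) :
    ((‖∑ x ∈ W, A x‖ ^ 2 : ℝ) : ℂ) = ∑ x ∈ W, ∑ y ∈ W, A x * conj (A y) := by
  rw [← Complex.normSq_eq_norm_sq, ← Complex.mul_conj, map_sum, sum_mul_sum]

theorem ex_phase (z : ℂ) : ∃ c : ℂ, ‖c‖ = 1 ∧ c * z = ‖z‖ := by
  rcases eq_or_ne z 0 with rfl | h
  · exact ⟨1, by simp, by simp⟩
  · have h0 : (‖z‖ : ℂ) ≠ 0 := by simpa using h
    refine ⟨‖z‖ / z, by simp [h], by field_simp⟩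

theorem le_norm_of_eq {r : ℝ} {z : ℂ} (h : (r : ℂ) = z) : r ≤ ‖z‖ := by
  rw [← h, Complex.norm_real]; exact le_abs_self r

variable {G : Type*} [AddCommGroup G]

/-! ### Van der Corput -/

/-- all shifts -/
theorem vdc_all [DecidableEq G] (S T : Finset G) (hT : ∀ x ∈ S, ∀ y ∈ S, x - y ∈ T) (a : G → ℂ) :
    ((‖∑ x ∈ S, a x‖ ^ 2 : ℝ) : ℂ) =
      ∑ h ∈ T, ∑ x ∈ S.filter (fun x => x + h ∈ S), a (x + h) * conj (a x) := by
  rw [sq_norm_sum, sum_comm]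
  simp only [sum_filter]
  rw [sum_comm (s := T)]
  refine sum_congr rfl fun y hy => ?_
  rw [← sum_filter]
  refine sum_nbij' (fun x => x - y) (fun h => y + h) ?_ ?_ ?_ ?_ ?_
  · intro x hx; simp [hT x hx y hy, hx]
  · intro h hh; exact (mem_filter.mp hh).2
  · intro x _; simp
  · intro h _; simp
  · intro x _; simp

theorem vdc_all_le [DecidableEq G] (S T : Finset G) (hT : ∀ x ∈ S, ∀ y ∈ S, x - y ∈ T)
    (a : G → ℂ) : ‖∑ x ∈ S, a x‖ ^ 2 ≤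
      ∑ h ∈ T, ‖∑ x ∈ S.filter (fun x => x + h ∈ S), a (x + h) * conj (a x)‖ :=
  (le_norm_of_eq (vdc_all S T hT a)).trans (norm_sum_le _ _)

/-- short shifts: `a` is supported in `S` and `W` contains `S - B` -/
theorem vdc_short {a : G → ℂ} {S W : Finset G} (B : Finset G) (hS : ∀ x, a x ≠ 0 → x ∈ S)
    (hW : ∀ x, a x ≠ 0 → ∀ h ∈ B, x - h ∈ W) :
    ((B.card : ℝ) * ‖∑ x ∈ S, a x‖) ^ 2 ≤
      W.card * ∑ h ∈ B, ∑ h' ∈ B, ‖∑ x ∈ W, a (x + h) * conj (a (x + h'))‖ := by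
  have e : (B.card : ℂ) * ∑ x ∈ S, a x = ∑ x ∈ W, 1 * ∑ h ∈ B, a (x + h) := by
    simp only [one_mul]
    rw [sum_comm, ← nsmul_eq_mul, ← sum_const]
    refine sum_congr rfl fun h hh => ?_
    rw [← fs_eq hS, ← fs_shift a h]
    exact fs_eq fun x hx => by simpa using hW _ hx h hh
  have h1 : ((B.card : ℝ) * ‖∑ x ∈ S, a x‖) ^ 2 ≤ W.card * ∑ x ∈ W, ‖∑ h ∈ B, a (x + h)‖ ^ 2 := by
    rw [← Complex.norm_natCast, ← norm_mul, e]
    refine (pow_le_pow_left₀ (norm_nonneg _) (norm_sum_le _ _) 2).trans ?_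
    simp only [one_mul]
    exact sq_sum_le_card_mul_sum_sq
  refine h1.trans (mul_le_mul_of_nonneg_left ?_ (Nat.cast_nonneg _))
  refine (le_norm_of_eq (z := ∑ h ∈ B, ∑ h' ∈ B, ∑ x ∈ W, a (x + h) * conj (a (x + h'))) ?_).trans
    ((norm_sum_le _ _).trans (sum_le_sum fun h _ => norm_sum_le _ _))
  rw [Complex.ofReal_sum]
  simp only [sq_norm_sum]
  rw [sum_comm]
  exact sum_congr rfl fun h _ => sum_comm

/-! ### Additive quadruples -/

theorem quad_core [DecidableEq G] {f1 f2 : G → ℂ} {S1 S2 W H : Finset G} {ψ : G → G → ℂ}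
    (hS1 : ∀ x, f1 x ≠ 0 → x ∈ S1) (hS2 : ∀ x, f2 x ≠ 0 → x ∈ S2) (h1 : ∀ x, ‖f1 x‖ ≤ 1)
    (h2 : ∀ x, ‖f2 x‖ ≤ 1) (hψ : ∀ h n, ψ h n ≠ 0 → h ∈ H ∧ n ∈ W) :
    ‖∑ h ∈ H, ∑ n ∈ W, f1 (n + h) * f2 n * ψ h n‖ ^ 4 ≤ (S1.card : ℝ) ^ 2 * (S2.card : ℝ) ^ 2 *
      ‖∑ h1 ∈ H, ∑ h3 ∈ H, ∑ h4 ∈ H, ∑ n ∈ W, ψ h1 n * ψ (h3 + h4 - h1) (n + h1 - h4) *
        conj (ψ h3 n) * conj (ψ h4 (n + h1 - h4))‖ := by
  classical
  set M : Finset G := image₂ (· + ·) W H with hM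
  have hMm : ∀ m n, ψ (m - n) n ≠ 0 → m ∈ M := fun m n h => by
    have := mem_image₂_of_mem (f := (· + ·)) (hψ _ _ h).2 (hψ _ _ h).1
    rwa [add_sub_cancel] at this
  -- change of variables h = m - n
  have sub : ∀ (n : G) (Φ : G → ℂ), ∑ h ∈ H, Φ (n + h) * ψ h n = ∑ m ∈ M, Φ m * ψ (m - n) n := by
    intro n Φ
    rw [← fs_eq (S := H) fun h hh => (hψ _ _ (right_ne_zero_of_mul hh)).1,
      ← fs_eq (S := M) fun m hm => hMm _ _ (right_ne_zero_of_mul hm),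
      ← fs_shift (fun m => Φ m * ψ (m - n) n) n]
    simp only [add_sub_cancel_right, add_comm n]
  have s1 : ‖∑ h ∈ H, ∑ n ∈ W, f1 (n + h) * f2 n * ψ h n‖ ^ 2 ≤
      S2.card * ∑ n ∈ W, ‖∑ m ∈ M, f1 m * ψ (m - n) n‖ ^ 2 := by
    refine le_trans (le_of_eq ?_) (cs_bdd W hS2 h2)
    rw [sum_comm]
    congr 2
    refine sum_congr rfl fun n _ => ?_
    rw [← sub, mul_sum]
    exact sum_congr rfl fun h _ => by ring
  set K : G × G → ℂ := fun p => ∑ n ∈ W, ψ (p.1 - n) n * conj (ψ (p.2 - n) n) with hK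
  have s2 : ∑ n ∈ W, ‖∑ m ∈ M, f1 m * ψ (m - n) n‖ ^ 2 ≤
      ‖∑ p ∈ M ×ˢ M, (f1 p.1 * conj (f1 p.2)) * K p‖ := by
    refine le_norm_of_eq ?_
    rw [Complex.ofReal_sum]
    simp only [sq_norm_sum, hK, mul_sum, sum_product]
    rw [sum_comm]
    refine sum_congr rfl fun m _ => ?_
    rw [sum_comm]
    refine sum_congr rfl fun m' _ => sum_congr rfl fun n _ => ?_
    rw [map_mul]; ring
  have s3 : ‖∑ p ∈ M ×ˢ M, (f1 p.1 * conj (f1 p.2)) * K p‖ ^ 2 ≤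
      ((S1 ×ˢ S1).card : ℝ) * ∑ p ∈ M ×ˢ M, ‖K p‖ ^ 2 :=
    cs_bdd _ (fun p hp => mem_product.mpr ⟨hS1 _ (left_ne_zero_of_mul hp),
      hS1 _ (by simpa using right_ne_zero_of_mul hp)⟩) fun p => by
        rw [norm_mul, Complex.norm_conj]; exact mul_le_one₀ (h1 _) (norm_nonneg _) (h1 _)
  have s4 : ∑ p ∈ M ×ˢ M, ‖K p‖ ^ 2 ≤ ‖∑ h1 ∈ H, ∑ h3 ∈ H, ∑ h4 ∈ H, ∑ n ∈ W,
      ψ h1 n * ψ (h3 + h4 - h1) (n + h1 - h4) * conj (ψ h3 n) * conj (ψ h4 (n + h1 - h4))‖ := by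
    refine le_norm_of_eq ?_
    rw [Complex.ofReal_sum]
    simp only [hK, sq_norm_sum, sum_product]
    -- both sides as sums with `n` outside
    have l : ∑ m ∈ M, ∑ m' ∈ M, ∑ n ∈ W, ∑ n' ∈ W, ψ (m - n) n * conj (ψ (m' - n) n) *
        conj (ψ (m - n') n' * conj (ψ (m' - n') n')) =
        ∑ n ∈ W, ∑ m ∈ M, (∑ m' ∈ M, conj (∑ n' ∈ W, ψ (m - n') n' * conj (ψ (m' - n') n')) *
          conj (ψ (m' - n) n)) * ψ (m - n) n := by
      rw [sum_comm (s := W)]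
      refine sum_congr rfl fun m _ => ?_
      simp only [sum_mul]
      rw [sum_comm (s := W)]
      refine sum_congr rfl fun m' _ => sum_congr rfl fun n _ => ?_
      rw [map_sum, sum_mul, sum_mul]
      exact sum_congr rfl fun n' _ => by ring
    rw [l]
    have r : ∑ h1 ∈ H, ∑ h3 ∈ H, ∑ h4 ∈ H, ∑ n ∈ W, ψ h1 n * ψ (h3 + h4 - h1) (n + h1 - h4) *
        conj (ψ h3 n) * conj (ψ h4 (n + h1 - h4)) = ∑ n ∈ W, ∑ h1 ∈ H, ∑ h3 ∈ H, ∑ h4 ∈ H,
          ψ h1 n * ψ (h3 + h4 - h1) (n + h1 - h4) * conj (ψ h3 n) * conj (ψ h4 (n + h1 - h4)) := by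
      rw [sum_comm (s := W)]
      refine sum_congr rfl fun h1 _ => ?_
      rw [sum_comm (s := W)]
      exact sum_congr rfl fun h3 _ => sum_comm
    rw [r]
    refine sum_congr rfl fun n _ => ?_
    rw [← sub n fun m => ∑ m' ∈ M, conj (∑ n' ∈ W, ψ (m - n') n' * conj (ψ (m' - n') n')) *
      conj (ψ (m' - n) n)]
    refine sum_congr rfl fun a _ => ?_
    simp only [← map_mul]
    rw [← map_sum, ← sub n fun m' => ∑ n' ∈ W, ψ (n + a - n') n' * conj (ψ (m' - n') n'), map_sum,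
      sum_mul]
    refine sum_congr rfl fun c _ => ?_
    have : ∑ n' ∈ W, ψ (n + a - n') n' * conj (ψ (n + c - n') n') =
        ∑ d ∈ H, ψ d (n + a - d) * conj (ψ (c + d - a) (n + a - d)) := by
      rw [← fs_eq (S := W) fun n' hn => (hψ _ _ (left_ne_zero_of_mul hn)).2,
        ← fs_eq (S := H) fun d hd => (hψ _ _ (left_ne_zero_of_mul hd)).1,
        ← finsum_comp_equiv (Equiv.subLeft (n + a))]
      refine finsum_congr fun d => ?_
      simp only [Equiv.subLeft_apply, sub_sub_cancel]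
      congr 3
      abel
    rw [this, sum_mul, map_sum, sum_mul]
    refine sum_congr rfl fun d _ => ?_
    simp only [map_mul, Complex.conj_conj]
    ring
  rw [card_product] at s3
  push_cast at s3
  calc _ = (‖∑ h ∈ H, ∑ n ∈ W, f1 (n + h) * f2 n * ψ h n‖ ^ 2) ^ 2 := by ring
    _ ≤ (S2.card * ‖∑ p ∈ M ×ˢ M, (f1 p.1 * conj (f1 p.2)) * K p‖) ^ 2 :=
        pow_le_pow_left₀ (sq_nonneg _)
          (s1.trans (mul_le_mul_of_nonneg_left s2 (Nat.cast_nonneg _))) 2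
    _ ≤ (S2.card : ℝ) ^ 2 * (S1.card * S1.card * _) := by
        rw [mul_pow]
        exact mul_le_mul_of_nonneg_left
          (s3.trans (mul_le_mul_of_nonneg_left s4 (by positivity))) (sq_nonneg _)
    _ = _ := by ring

/-- QUAD: many correlations give many additive quadruples `h1 + (h3 + h4 - h1) = h3 + h4`. -/
theorem quad [DecidableEq G] {f1 f2 : G → ℂ} {S1 S2 : Finset G} (W H : Finset G) (χ : G → G → ℂ)
    (hS1 : ∀ x, f1 x ≠ 0 → x ∈ S1) (hS2 : ∀ x, f2 x ≠ 0 → x ∈ S2) (h1 : ∀ x, ‖f1 x‖ ≤ 1)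
    (h2 : ∀ x, ‖f2 x‖ ≤ 1) :
    (∑ h ∈ H, ‖∑ n ∈ W, f1 (n + h) * f2 n * χ h n‖) ^ 4 ≤ (S1.card : ℝ) ^ 2 * (S2.card : ℝ) ^ 2 *
      ∑ h1 ∈ H, ∑ h3 ∈ H, ∑ h4 ∈ H.filter (fun h4 => h3 + h4 - h1 ∈ H),
        ‖∑ n ∈ W.filter (fun n => n + h1 - h4 ∈ W), χ h1 n * χ (h3 + h4 - h1) (n + h1 - h4) *
          conj (χ h3 n) * conj (χ h4 (n + h1 - h4))‖ := by
  choose c hc1 hc2 using fun h => ex_phase (∑ n ∈ W, f1 (n + h) * f2 n * χ h n)
  set ψ : G → G → ℂ := fun h n => if h ∈ H ∧ n ∈ W then c h * χ h n else 0 with hψ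
  have key := quad_core (W := W) (H := H) (ψ := ψ) hS1 hS2 h1 h2 fun h n hn => by
    by_contra hc; exact hn (if_neg hc)
  have e : ∑ h ∈ H, ∑ n ∈ W, f1 (n + h) * f2 n * ψ h n =
      ((∑ h ∈ H, ‖∑ n ∈ W, f1 (n + h) * f2 n * χ h n‖ : ℝ) : ℂ) := by
    rw [Complex.ofReal_sum]
    refine sum_congr rfl fun h hh => ?_
    rw [← hc2, mul_sum]
    refine sum_congr rfl fun n hn => ?_
    simp only [hψ, hh, hn, and_self, if_true]
    ring
  rw [e, Complex.norm_real, Real.norm_of_nonneg (sum_nonneg fun _ _ => norm_nonneg _)] at key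
  refine key.trans (mul_le_mul_of_nonneg_left ?_ (by positivity))
  refine (norm_sum_le _ _).trans (sum_le_sum fun a ha => (norm_sum_le _ _).trans
    (sum_le_sum fun b hb => (norm_sum_le _ _).trans (le_of_eq ?_)))
  rw [sum_filter]
  refine sum_congr rfl fun d hd => ?_
  split_ifs with h
  · have : ∑ n ∈ W, ψ a n * ψ (b + d - a) (n + a - d) * conj (ψ b n) * conj (ψ d (n + a - d)) =
        (c a * c (b + d - a) * conj (c b) * conj (c d)) *
          ∑ n ∈ W.filter (fun n => n + a - d ∈ W), χ a n * χ (b + d - a) (n + a - d) *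
            conj (χ b n) * conj (χ d (n + a - d)) := by
      rw [sum_filter, mul_sum]
      refine sum_congr rfl fun n hn => ?_
      by_cases h' : n + a - d ∈ W
      · simp only [hψ, ha, hb, hd, h, hn, h', and_self, if_true, map_mul]; ring
      · simp [hψ, h']
    rw [this]
    simp [hc1]
  · simp [hψ, h]

end Pool.Agent.P.MP_a14ce1_nt.Nil
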