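import Pool.Agent.P.MP_a14ce1_nt.Nil.Gr

/-!
Block sums of matrices, groups and families.
-/

open Finset MvPolynomial

set_option linter.unusedSectionVars false

noncomputable section

namespace Pool.Agent.P.MP_a14ce1_nt.Nil

variable {ι ι' : Type} [Fintype ι] [DecidableEq ι] [Fintype ι'] [DecidableEq ι']
  {lv : ι → ℕ} {lv' : ι' → ℕ}

section Ring

variable {R R' : Type} [CommRing R] [CommRing R']

/-- The block sum. -/
def dg {R : Type} [CommRing R] (X : Matrix ι ι R) (Y : Matrix ι' ι' R) :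
    Matrix (ι ⊕ ι') (ι ⊕ ι') R := Matrix.fromBlocks X 0 0 Y

variable {X X' : Matrix ι ι R} {Y Y' : Matrix ι' ι' R}

@[simp] theorem dg_ll (a b : ι) : dg X Y (Sum.inl a) (Sum.inl b) = X a b := rfl
@[simp] theorem dg_lr (a : ι) (b : ι') : dg X Y (Sum.inl a) (Sum.inr b) = 0 := rfl
@[simp] theorem dg_rl (a : ι') (b : ι) : dg X Y (Sum.inr a) (Sum.inl b) = 0 := rfl
@[simp] theorem dg_rr (a b : ι') : dg X Y (Sum.inr a) (Sum.inr b) = Y a b := rfl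
@[simp] theorem dg_b1 : (dg X Y).toBlocks₁₁ = X := rfl
@[simp] theorem dg_b2 : (dg X Y).toBlocks₂₂ = Y := rfl

theorem dg_inj : dg X Y = dg X' Y' ↔ X = X' ∧ Y = Y' :=
  ⟨fun h => ⟨congrArg Matrix.toBlocks₁₁ h, congrArg Matrix.toBlocks₂₂ h⟩,
    fun h => by rw [h.1, h.2]⟩
theorem dg_add : dg X Y + dg X' Y' = dg (X + X') (Y + Y') := by
  ext (a | a) (b | b) <;> simp
theorem dg_sub : dg X Y - dg X' Y' = dg (X - X') (Y - Y') := by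
  ext (a | a) (b | b) <;> simp
theorem dg_neg : -dg X Y = dg (-X) (-Y) := by
  ext (a | a) (b | b) <;> simp
theorem dg_smul {S : Type*} [SMulZeroClass S R] (c : S) : c • dg X Y = dg (c • X) (c • Y) := by
  ext (a | a) (b | b) <;> simp
theorem dg_mul : dg X Y * dg X' Y' = dg (X * X') (Y * Y') := by
  simp [dg, Matrix.fromBlocks_multiply]
theorem dg_br : dg X Y * dg X' Y' - dg X' Y' * dg X Y
    = dg (X * X' - X' * X) (Y * Y' - Y' * Y) := by rw [dg_mul, dg_mul, dg_sub]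
@[simp] theorem dg_zero : dg (0 : Matrix ι ι R) (0 : Matrix ι' ι' R) = 0 :=
  Matrix.fromBlocks_zero
theorem dg_one : dg (1 : Matrix ι ι R) (1 : Matrix ι' ι' R) = 1 := Matrix.fromBlocks_one
theorem dg_map (f : R → R') (h : f 0 = 0) : (dg X Y).map f = dg (X.map f) (Y.map f) := by
  ext (a | a) (b | b) <;> simp [h]
theorem ent_dg {S : Set R} (h0 : 0 ∈ S) : Ent S (dg X Y) ↔ Ent S X ∧ Ent S Y :=
  ⟨fun h => ⟨fun a b => h (Sum.inl a) (Sum.inl b), fun a b => h (Sum.inr a) (Sum.inr b)⟩,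
    fun h => by
      rintro (a | a) (b | b)
      exacts [h.1 a b, h0, h0, h.2 a b]⟩

/-- The block sum as a ring homomorphism. -/
def dgH (ι ι' R : Type) [Fintype ι] [DecidableEq ι] [Fintype ι'] [DecidableEq ι'] [CommRing R] :
    Matrix ι ι R × Matrix ι' ι' R →+* Matrix (ι ⊕ ι') (ι ⊕ ι') R where
  toFun p := dg p.1 p.2
  map_one' := dg_one
  map_mul' _ _ := dg_mul.symm
  map_zero' := dg_zero
  map_add' _ _ := dg_add.symm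

variable [Algebra ℚ R] [Algebra ℚ R']

theorem dg_mem_mF {i : ℕ} :
    dg X Y ∈ mF R (Sum.elim lv lv') i ↔ X ∈ mF R lv i ∧ Y ∈ mF R lv' i :=
  ⟨fun h => ⟨fun a b hab => h (Sum.inl a) (Sum.inl b) hab,
    fun a b hab => h (Sum.inr a) (Sum.inr b) hab⟩, fun h => by
      rintro (a | a) (b | b) hab
      exacts [h.1 a b hab, rfl, rfl, h.2 a b hab]⟩

/-- The block sum of group elements. -/
def UT.dg {R : Type} [CommRing R] [Algebra ℚ R] :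
    UT lv R × UT lv' R →* UT (Sum.elim lv lv') R where
  toFun p := ⟨Nil.dg p.1.val p.2.val, by
    rw [← dg_one, dg_sub]; exact dg_mem_mF.2 ⟨p.1.up, p.2.up⟩⟩
  map_one' := UT.ext dg_one
  map_mul' _ _ := UT.ext dg_mul.symm

theorem UT.dg_val {R : Type} [CommRing R] [Algebra ℚ R] (x : UT lv R) (y : UT lv' R) :
    (UT.dg (x, y)).val = Nil.dg x.val y.val := rfl

theorem UT.dg_inj {x x' : UT lv R} {y y' : UT lv' R} :
    UT.dg (x, y) = UT.dg (x', y') ↔ x = x' ∧ y = y' :=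
  ⟨fun h => by
    have := Nil.dg_inj.1 (congrArg UT.val h)
    exact ⟨UT.ext this.1, UT.ext this.2⟩, fun h => by rw [h.1, h.2]⟩

theorem UT.dg_mul (x x' : UT lv R) (y y' : UT lv' R) :
    UT.dg (x, y) * UT.dg (x', y') = UT.dg (x * x', y * y') := (map_mul UT.dg _ _).symm

theorem UT.dg_inv (x : UT lv R) (y : UT lv' R) : (UT.dg (x, y))⁻¹ = UT.dg (x⁻¹, y⁻¹) :=
  (map_inv UT.dg (x, y)).symm

theorem UT.dg_one : UT.dg ((1 : UT lv R), (1 : UT lv' R)) = 1 := map_one UT.dg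

theorem lg_dg {R : Type} [CommRing R] [Algebra ℚ R] (x : UT lv R) (y : UT lv' R) :
    lg (UT.dg (x, y)) = dg (lg x) (lg y) := by
  have hn : IsNilpotent ((x.val, y.val) - 1 : Matrix ι ι R × Matrix ι' ι' R) := by
    obtain ⟨k, hk⟩ := x.nil
    obtain ⟨l, hl⟩ := y.nil
    exact ⟨k + l, Prod.ext (pow_eq_zero_of_le (Nat.le_add_right k l) hk)
      (pow_eq_zero_of_le (Nat.le_add_left l k) hl)⟩
  have h := map_log hn (dgH ι ι' R)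
  have h1 := map_log hn (RingHom.fst _ _)
  have h2 := map_log hn (RingHom.snd _ _)
  exact h.symm.trans (dg_inj.2 ⟨h1, h2⟩)

theorem ex_dg (hX : X ∈ mF R lv 1) (hY : Y ∈ mF R lv' 1) :
    ex (Sum.elim lv lv') (dg X Y) = UT.dg (ex lv X, ex lv' Y) :=
  lg_inj (by rw [lg_dg, lg_ex hX, lg_ex hY, lg_ex (dg_mem_mF.2 ⟨hX, hY⟩)])

theorem exists_dg {z : UT (Sum.elim lv lv') R} (h : lg z = dg X Y) :
    ∃ x y, z = UT.dg (x, y) ∧ lg x = X ∧ lg y = Y := by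
  have hm := dg_mem_mF.1 (h ▸ lg_mem z)
  exact ⟨ex lv X, ex lv' Y, by rw [← ex_dg hm.1 hm.2, ← h, ex_lg], lg_ex hm.1, lg_ex hm.2⟩

theorem map_dg {R R' : Type} [CommRing R] [Algebra ℚ R] [CommRing R'] [Algebra ℚ R']
    (φ : R →+* R') (x : UT lv R) (y : UT lv' R) :
    UT.map φ (UT.dg (x, y)) = UT.dg (UT.map φ x, UT.map φ y) := UT.ext (dg_map _ (map_zero φ))

end Ring

variable {FF : Type} [Field FF] [CharZero FF] {K : Subfield FF} {σ τ : Type} {I : Type}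
  [AddCommMonoid I]

/-- Projections on the blocks and inclusions of the blocks. -/
def pr1 : Matrix (ι ⊕ ι') (ι ⊕ ι') FF →ₗ[FF] Matrix ι ι FF where
  toFun := Matrix.toBlocks₁₁
  map_add' _ _ := rfl
  map_smul' _ _ := rfl

def pr2 : Matrix (ι ⊕ ι') (ι ⊕ ι') FF →ₗ[FF] Matrix ι' ι' FF where
  toFun := Matrix.toBlocks₂₂
  map_add' _ _ := rfl
  map_smul' _ _ := rfl

def in1 : Matrix ι ι FF →ₗ[FF] Matrix (ι ⊕ ι') (ι ⊕ ι') FF where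
  toFun X := dg X 0
  map_add' _ _ := by rw [dg_add, add_zero]
  map_smul' _ _ := by rw [dg_smul, smul_zero]; rfl

def in2 : Matrix ι' ι' FF →ₗ[FF] Matrix (ι ⊕ ι') (ι ⊕ ι') FF where
  toFun Y := dg 0 Y
  map_add' _ _ := by rw [dg_add, add_zero]
  map_smul' _ _ := by rw [dg_smul, smul_zero]; rfl

@[simp] theorem pr1_dg (X : Matrix ι ι FF) (Y : Matrix ι' ι' FF) : pr1 (dg X Y) = X := rfl
@[simp] theorem pr2_dg (X : Matrix ι ι FF) (Y : Matrix ι' ι' FF) : pr2 (dg X Y) = Y := rfl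
theorem in1_apply (X : Matrix ι ι FF) : in1 X = dg X (0 : Matrix ι' ι' FF) := rfl
theorem in2_apply (Y : Matrix ι' ι' FF) : in2 Y = dg (0 : Matrix ι ι FF) Y := rfl
theorem dg_eq_in (X : Matrix ι ι FF) (Y : Matrix ι' ι' FF) : dg X Y = in1 X + in2 Y := by
  rw [in1_apply, in2_apply, dg_add, add_zero, zero_add]

theorem ratM_pr1 : RatM K (pr1 (ι := ι) (ι' := ι') (FF := FF)) := fun _ _ => rfl
theorem ratM_pr2 : RatM K (pr2 (ι := ι) (ι' := ι') (FF := FF)) := fun _ _ => rfl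
theorem ratM_in1 : RatM K (in1 (ι := ι) (ι' := ι') (FF := FF)) := fun φ X => by
  rw [in1_apply, in1_apply, dg_map _ (map_zero φ), mmap_zero]
theorem ratM_in2 : RatM K (in2 (ι := ι) (ι' := ι') (FF := FF)) := fun φ X => by
  rw [in2_apply, in2_apply, dg_map _ (map_zero φ), mmap_zero]

/-- The block sum of two subspaces. -/
def dgS (V : Submodule FF (Matrix ι ι FF)) (W : Submodule FF (Matrix ι' ι' FF)) :
    Submodule FF (Matrix (ι ⊕ ι') (ι ⊕ ι') FF) where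
  carrier := {Z | ∃ X ∈ V, ∃ Y ∈ W, Z = dg X Y}
  add_mem' := by
    rintro _ _ ⟨X, hX, Y, hY, rfl⟩ ⟨X', hX', Y', hY', rfl⟩
    exact ⟨_, add_mem hX hX', _, add_mem hY hY', dg_add⟩
  zero_mem' := ⟨0, zero_mem _, 0, zero_mem _, dg_zero.symm⟩
  smul_mem' := by
    rintro c _ ⟨X, hX, Y, hY, rfl⟩
    exact ⟨_, V.smul_mem c hX, _, W.smul_mem c hY, dg_smul c⟩

theorem mem_dgS {V : Submodule FF (Matrix ι ι FF)} {W : Submodule FF (Matrix ι' ι' FF)} {Z} :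
    Z ∈ dgS V W ↔ ∃ X ∈ V, ∃ Y ∈ W, Z = dg X Y := Iff.rfl

theorem dg_mem_dgS {V : Submodule FF (Matrix ι ι FF)} {W : Submodule FF (Matrix ι' ι' FF)}
    {X Y} : dg X Y ∈ dgS V W ↔ X ∈ V ∧ Y ∈ W :=
  ⟨fun ⟨_, hX, _, hY, e⟩ => ⟨(dg_inj.1 e).1 ▸ hX, (dg_inj.1 e).2 ▸ hY⟩,
    fun h => ⟨X, h.1, Y, h.2, rfl⟩⟩

theorem dgS_mono {V V' : Submodule FF (Matrix ι ι FF)} {W W' : Submodule FF (Matrix ι' ι' FF)}
    (h : V ≤ V') (h' : W ≤ W') : dgS V W ≤ dgS V' W' :=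
  fun _ ⟨X, hX, Y, hY, e⟩ => ⟨X, h hX, Y, h' hY, e⟩

theorem dgS_bot : dgS (⊥ : Submodule FF (Matrix ι ι FF)) (⊥ : Submodule FF (Matrix ι' ι' FF))
    = ⊥ := by
  rw [eq_bot_iff]
  rintro _ ⟨X, hX, Y, hY, rfl⟩
  rw [Submodule.mem_bot] at hX hY ⊢
  rw [hX, hY, dg_zero]

theorem IsRat.dgS {V : Submodule FF (Matrix ι ι FF)} {W : Submodule FF (Matrix ι' ι' FF)}
    (hV : IsRat K V) (hW : IsRat K W) : IsRat K (dgS V W) := by
  rintro φ _ ⟨X, hX, Y, hY, rfl⟩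
  exact ⟨_, hV φ X hX, _, hW φ Y hY, dg_map _ (map_zero φ)⟩

/-- The product family. -/
def Fam.prod (g : Fam K lv I) (g' : Fam K lv' I) : Fam K (Sum.elim lv lv') I where
  r i := dgS (g.r i) (g'.r i)
  up i := by
    rintro _ ⟨X, hX, Y, hY, rfl⟩
    exact dg_mem_mF.2 ⟨g.up i X hX, g'.up i Y hY⟩
  rat i := (g.rat i).dgS (g'.rat i)
  br i j := by
    rintro _ ⟨X, hX, Y, hY, rfl⟩ _ ⟨X', hX', Y', hY', rfl⟩
    exact ⟨_, g.br i j X hX X' hX', _, g'.br i j Y hY Y' hY', dg_br⟩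

theorem Fam.mem_prod {g : Fam K lv I} {g' : Fam K lv' I} {i : I} {Z} :
    Z ∈ (g.prod g').r i ↔ ∃ X ∈ g.r i, ∃ Y ∈ g'.r i, Z = dg X Y := Iff.rfl

theorem Fam.dg_mem_prod {g : Fam K lv I} {g' : Fam K lv' I} {i : I} {X Y} :
    dg X Y ∈ (g.prod g').r i ↔ X ∈ g.r i ∧ Y ∈ g'.r i := dg_mem_dgS

theorem Fam.prod_mono {g h : Fam K lv I} {g' h' : Fam K lv' I} (a : g ≤ h) (b : g' ≤ h') :
    g.prod g' ≤ h.prod h' := fun i => dgS_mono (a i) (b i)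

theorem Fam.prod_fine (g : Fam K lv ℕ) (g' : Fam K lv' ℕ) :
    (g.prod g').fine σ = (g.fine σ).prod (g'.fine σ) := rfl

theorem Fam.prod_plus (g : Fam K lv (σ →₀ ℕ)) (g' : Fam K lv' (σ →₀ ℕ)) :
    (g.prod g').plus = g.plus.prod g'.plus := by
  refine Fam.ext (funext fun β => ?_)
  change _ = dgS (g.plus.r β) (g'.plus.r β)
  by_cases h : β = 0
  · rw [h, Fam.plus_zero, Fam.plus_zero, Fam.plus_zero, dgS_bot]
  · rw [Fam.plus_ne _ h, Fam.plus_ne _ h, Fam.plus_ne _ h]; rfl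

/-- Block diagonal families. -/
def Fam.Blk (h : Fam K (Sum.elim lv lv') I) : Prop := ∀ i, ∀ Z ∈ h.r i, ∃ X Y, Z = dg X Y

theorem Fam.blk_of_le {g : Fam K lv I} {g' : Fam K lv' I} {h : Fam K (Sum.elim lv lv') I}
    (hh : h ≤ g.prod g') : h.Blk := fun i _ hZ =>
  let ⟨X, _, Y, _, e⟩ := hh i hZ
  ⟨X, Y, e⟩

/-- Projection on the first block. -/
def Fam.fst (h : Fam K (Sum.elim lv lv') I) : Fam K lv I where
  r i :=
    { carrier := {X | ∃ Y, dg X Y ∈ h.r i}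
      add_mem' := fun ⟨_, a⟩ ⟨_, b⟩ => ⟨_, by have := add_mem a b; rwa [dg_add] at this⟩
      zero_mem' := ⟨0, by simp⟩
      smul_mem' := fun c _ ⟨_, a⟩ =>
        ⟨_, by have := Submodule.smul_mem _ c a; rwa [dg_smul] at this⟩ }
  up i _ := fun ⟨_, a⟩ => (dg_mem_mF.1 (h.up i _ a)).1
  rat i φ _ := fun ⟨_, a⟩ =>
    ⟨_, by have := h.rat i φ _ a; rwa [dg_map _ (map_zero φ)] at this⟩
  br i j _ := fun ⟨_, a⟩ _ ⟨_, b⟩ => ⟨_, by have := h.br i j _ a _ b; rwa [dg_br] at this⟩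

/-- Projection on the second block. -/
def Fam.snd (h : Fam K (Sum.elim lv lv') I) : Fam K lv' I where
  r i :=
    { carrier := {Y | ∃ X, dg X Y ∈ h.r i}
      add_mem' := fun ⟨_, a⟩ ⟨_, b⟩ => ⟨_, by have := add_mem a b; rwa [dg_add] at this⟩
      zero_mem' := ⟨0, by simp⟩
      smul_mem' := fun c _ ⟨_, a⟩ =>
        ⟨_, by have := Submodule.smul_mem _ c a; rwa [dg_smul] at this⟩ }
  up i _ := fun ⟨_, a⟩ => (dg_mem_mF.1 (h.up i _ a)).2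
  rat i φ _ := fun ⟨_, a⟩ =>
    ⟨_, by have := h.rat i φ _ a; rwa [dg_map _ (map_zero φ)] at this⟩
  br i j _ := fun ⟨_, a⟩ _ ⟨_, b⟩ => ⟨_, by have := h.br i j _ a _ b; rwa [dg_br] at this⟩

/-- The part inside the first block. -/
def Fam.kl (h : Fam K (Sum.elim lv lv') I) : Fam K lv I where
  r i := (h.r i).comap in1
  up i _ a := (dg_mem_mF.1 (h.up i _ a)).1
  rat i := (h.rat i).comap ratM_in1
  br i j _ a _ b := by
    have := h.br i j _ a _ b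
    rwa [in1_apply, in1_apply, dg_br, mul_zero, sub_zero] at this

/-- The part inside the second block. -/
def Fam.kr (h : Fam K (Sum.elim lv lv') I) : Fam K lv' I where
  r i := (h.r i).comap in2
  up i _ a := (dg_mem_mF.1 (h.up i _ a)).2
  rat i := (h.rat i).comap ratM_in2
  br i j _ a _ b := by
    have := h.br i j _ a _ b
    rwa [in2_apply, in2_apply, dg_br, mul_zero, sub_zero] at this

theorem Fam.mem_fst {h : Fam K (Sum.elim lv lv') I} {i X} :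
    X ∈ h.fst.r i ↔ ∃ Y, dg X Y ∈ h.r i := Iff.rfl
theorem Fam.mem_snd {h : Fam K (Sum.elim lv lv') I} {i Y} :
    Y ∈ h.snd.r i ↔ ∃ X, dg X Y ∈ h.r i := Iff.rfl
theorem Fam.mem_kl {h : Fam K (Sum.elim lv lv') I} {i X} : X ∈ h.kl.r i ↔ dg X 0 ∈ h.r i :=
  Iff.rfl
theorem Fam.mem_kr {h : Fam K (Sum.elim lv lv') I} {i Y} : Y ∈ h.kr.r i ↔ dg 0 Y ∈ h.r i :=
  Iff.rfl

theorem Fam.kl_le_fst (h : Fam K (Sum.elim lv lv') I) : h.kl ≤ h.fst := fun _ _ a => ⟨0, a⟩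
theorem Fam.kr_le_snd (h : Fam K (Sum.elim lv lv') I) : h.kr ≤ h.snd := fun _ _ a => ⟨0, a⟩
theorem Fam.fst_mono {h h' : Fam K (Sum.elim lv lv') I} (a : h ≤ h') : h.fst ≤ h'.fst :=
  fun i _ ⟨Y, b⟩ => ⟨Y, a i b⟩
theorem Fam.snd_mono {h h' : Fam K (Sum.elim lv lv') I} (a : h ≤ h') : h.snd ≤ h'.snd :=
  fun i _ ⟨X, b⟩ => ⟨X, a i b⟩
theorem Fam.kl_mono {h h' : Fam K (Sum.elim lv lv') I} (a : h ≤ h') : h.kl ≤ h'.kl :=
  fun i _ b => a i b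
theorem Fam.kr_mono {h h' : Fam K (Sum.elim lv lv') I} (a : h ≤ h') : h.kr ≤ h'.kr :=
  fun i _ b => a i b
theorem Fam.fst_le {g : Fam K lv I} {g' : Fam K lv' I} {h : Fam K (Sum.elim lv lv') I}
    (hh : h ≤ g.prod g') : h.fst ≤ g := fun i _ ⟨_, b⟩ => (Fam.dg_mem_prod.1 (hh i b)).1
theorem Fam.snd_le {g : Fam K lv I} {g' : Fam K lv' I} {h : Fam K (Sum.elim lv lv') I}
    (hh : h ≤ g.prod g') : h.snd ≤ g' := fun i _ ⟨_, b⟩ => (Fam.dg_mem_prod.1 (hh i b)).2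
theorem Fam.Blk.le_prod {h : Fam K (Sum.elim lv lv') I} (hb : h.Blk) : h ≤ h.fst.prod h.snd :=
  fun i Z hZ => by
    obtain ⟨X, Y, rfl⟩ := hb i Z hZ
    exact ⟨X, ⟨Y, hZ⟩, Y, ⟨X, hZ⟩, rfl⟩

/-- The kernels are ideals of the projections. -/
theorem Fam.br_kr (h : Fam K (Sum.elim lv lv') I) {i j : I} {X Y} (hX : X ∈ h.snd.r i)
    (hY : Y ∈ h.kr.r j) : X * Y - Y * X ∈ h.kr.r (i + j) := by
  obtain ⟨U, hU⟩ := hX
  have := h.br i j _ hU _ hY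
  rwa [in2_apply, dg_br, mul_zero, zero_mul, sub_zero] at this

theorem Fam.br_kl (h : Fam K (Sum.elim lv lv') I) {i j : I} {X Y} (hX : X ∈ h.fst.r i)
    (hY : Y ∈ h.kl.r j) : X * Y - Y * X ∈ h.kl.r (i + j) := by
  obtain ⟨U, hU⟩ := hX
  have := h.br i j _ hU _ hY
  rwa [in1_apply, dg_br, mul_zero, zero_mul, sub_zero] at this

theorem Fam.Fil.fst {h : Fam K (Sum.elim lv lv') ℕ} {D : ℕ} (hh : h.Fil D) : h.fst.Fil D where
  zero := by ext X; rw [Fam.mem_fst, Fam.mem_fst, hh.zero]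
  anti i _ := fun ⟨Y, a⟩ => ⟨Y, hh.anti i a⟩
  bd := by
    rw [eq_bot_iff]
    rintro X ⟨Y, a⟩
    rw [hh.bd, Submodule.mem_bot, ← dg_zero, dg_inj] at a
    exact a.1

theorem Fam.Fil.snd {h : Fam K (Sum.elim lv lv') ℕ} {D : ℕ} (hh : h.Fil D) : h.snd.Fil D where
  zero := by ext X; rw [Fam.mem_snd, Fam.mem_snd, hh.zero]
  anti i _ := fun ⟨Y, a⟩ => ⟨Y, hh.anti i a⟩
  bd := by
    rw [eq_bot_iff]
    rintro X ⟨Y, a⟩
    rw [hh.bd, Submodule.mem_bot, ← dg_zero, dg_inj] at a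
    exact a.2

theorem Fam.Fil.prod {g : Fam K lv ℕ} {g' : Fam K lv' ℕ} {D : ℕ} (h : g.Fil D) (h' : g'.Fil D) :
    (g.prod g').Fil D where
  zero := by
    change dgS _ _ = dgS _ _
    rw [h.zero, h'.zero]
  anti i := dgS_mono (h.anti i) (h'.anti i)
  bd := by
    change dgS _ _ = _
    rw [h.bd, h'.bd, dgS_bot]

theorem Fam.Fil.mono {g : Fam K lv ℕ} {D D' : ℕ} (h : g.Fil D) (hD : D ≤ D') : g.Fil D' :=
  ⟨h.zero, h.anti, h.eq_bot (by omega)⟩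

theorem Fam.Bd.prod {g : Fam K lv (σ →₀ ℕ)} {g' : Fam K lv' (σ →₀ ℕ)} {D : ℕ} (h : g.Bd D)
    (h' : g'.Bd D) : (g.prod g').Bd D := fun β hβ => by
  change dgS _ _ = _
  rw [h β hβ, h' β hβ, dgS_bot]

theorem Fam.prod_zero {g : Fam K lv I} {g' : Fam K lv' I} {i : I} (h : g.r i = ⊥)
    (h' : g'.r i = ⊥) : (g.prod g').r i = ⊥ := by
  change dgS _ _ = _
  rw [h, h', dgS_bot]

theorem Fam.Idl.prod {g : Fam K lv I} {g' : Fam K lv' I} {n n'} (h : g.Idl n) (h' : g'.Idl n') :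
    (g.prod g').Idl (dgS n n') where
  rat := h.rat.dgS h'.rat
  le := dgS_mono h.le h'.le
  br := by
    rintro _ ⟨X, hX, Y, hY, rfl⟩ _ ⟨X', hX', Y', hY', rfl⟩
    exact ⟨_, h.br X hX X' hX', _, h'.br Y hY Y' hY', dg_br⟩

theorem co_dg (β : σ →₀ ℕ) (X : Matrix ι ι (MvPolynomial σ FF))
    (Y : Matrix ι' ι' (MvPolynomial σ FF)) : co β (dg X Y) = dg (co β X) (co β Y) :=
  dg_map _ (coeff_zero β)

theorem co_lg_dg (β : σ →₀ ℕ) (x : PS lv σ FF) (y : PS lv' σ FF) :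
    co β (lg (UT.dg (x, y))) = dg (co β (lg x)) (co β (lg y)) := by rw [lg_dg, co_dg]

theorem ev_dg (n : σ → FF) (x : PS lv σ FF) (y : PS lv' σ FF) :
    ev n (UT.dg (x, y)) = UT.dg (ev n x, ev n y) := map_dg _ x y
theorem cst_dg (a : UT lv FF) (b : UT lv' FF) :
    cst σ (UT.dg (a, b)) = UT.dg (cst σ a, cst σ b) := map_dg _ a b
theorem sb_dg (f : σ → MvPolynomial τ FF) (x : PS lv σ FF) (y : PS lv' σ FF) :
    sb f (UT.dg (x, y)) = UT.dg (sb f x, sb f y) := map_dg _ x y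
theorem sh_dg (h : σ → FF) (x : PS lv σ FF) (y : PS lv' σ FF) :
    sh h (UT.dg (x, y)) = UT.dg (sh h x, sh h y) := map_dg _ x y

theorem Fam.Blk.exists_dg {h : Fam K (Sum.elim lv lv') (σ →₀ ℕ)} (hb : h.Blk)
    {z : PS (Sum.elim lv lv') σ FF} (hz : z ∈ h.PG) : ∃ x y, z = UT.dg (x, y) := by
  have e : lg z = dg (lg z).toBlocks₁₁ (lg z).toBlocks₂₂ := ext_co fun β => by
    obtain ⟨X, Y, e⟩ := hb β _ (hz β)
    rw [co_dg, e]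
    exact dg_inj.2 ⟨(congrArg Matrix.toBlocks₁₁ e).symm, (congrArg Matrix.toBlocks₂₂ e).symm⟩
  obtain ⟨x, y, e, -⟩ := Nil.exists_dg e
  exact ⟨x, y, e⟩

theorem Fam.dg_mem_prod_PG {g : Fam K lv (σ →₀ ℕ)} {g' : Fam K lv' (σ →₀ ℕ)} {x : PS lv σ FF}
    {y : PS lv' σ FF} : UT.dg (x, y) ∈ (g.prod g').PG ↔ x ∈ g.PG ∧ y ∈ g'.PG := by
  simp only [Fam.mem_PG, co_lg_dg, Fam.dg_mem_prod, forall_and]

theorem Fam.mem_prod_PG {g : Fam K lv (σ →₀ ℕ)} {g' : Fam K lv' (σ →₀ ℕ)} {z} :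
    z ∈ (g.prod g').PG ↔ ∃ x ∈ g.PG, ∃ y ∈ g'.PG, z = UT.dg (x, y) := by
  constructor
  · intro hz
    obtain ⟨x, y, rfl⟩ := (Fam.blk_of_le le_rfl).exists_dg hz
    exact ⟨x, (Fam.dg_mem_prod_PG.1 hz).1, y, (Fam.dg_mem_prod_PG.1 hz).2, rfl⟩
  · rintro ⟨x, hx, y, hy, rfl⟩
    exact Fam.dg_mem_prod_PG.2 ⟨hx, hy⟩

theorem Fam.dg_mem_prod_GG {g : Fam K lv I} {g' : Fam K lv' I} {x : UT lv FF} {y : UT lv' FF} :
    UT.dg (x, y) ∈ (g.prod g').GG ↔ x ∈ g.GG ∧ y ∈ g'.GG := by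
  rw [Fam.mem_GG, lg_dg, Fam.dg_mem_prod]; rfl

theorem Fam.mem_prod_GG {g : Fam K lv I} {g' : Fam K lv' I} {z} :
    z ∈ (g.prod g').GG ↔ ∃ x ∈ g.GG, ∃ y ∈ g'.GG, z = UT.dg (x, y) := by
  constructor
  · rintro ⟨X, hX, Y, hY, e⟩
    obtain ⟨x, y, rfl, rfl, rfl⟩ := exists_dg e
    exact ⟨x, hX, y, hY, rfl⟩
  · rintro ⟨x, hx, y, hy, rfl⟩
    exact Fam.dg_mem_prod_GG.2 ⟨hx, hy⟩

theorem dg_mem_EE {S : Sc K σ} {x : PS lv σ FF} {y : PS lv' σ FF} :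
    UT.dg (x, y) ∈ S.EE (Sum.elim lv lv') ↔ x ∈ S.EE lv ∧ y ∈ S.EE lv' := by
  simp only [Sc.mem_EE, co_lg_dg, ent_dg (Submodule.zero_mem _), forall_and]

theorem dg_mem_PG {h : Fam K (Sum.elim lv lv') (σ →₀ ℕ)} {x : PS lv σ FF} {y : PS lv' σ FF}
    (hz : UT.dg (x, y) ∈ h.PG) : x ∈ h.fst.PG ∧ y ∈ h.snd.PG :=
  ⟨fun β => ⟨_, co_lg_dg β x y ▸ hz β⟩, fun β => ⟨_, co_lg_dg β x y ▸ hz β⟩⟩

theorem mem_kr_PG {h : Fam K (Sum.elim lv lv') (σ →₀ ℕ)} {y : PS lv' σ FF} :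
    y ∈ h.kr.PG ↔ UT.dg (1, y) ∈ h.PG := by
  simp only [Fam.mem_PG, co_lg_dg, Fam.mem_kr, lg_one, co_zero]

theorem mem_kl_PG {h : Fam K (Sum.elim lv lv') (σ →₀ ℕ)} {x : PS lv σ FF} :
    x ∈ h.kl.PG ↔ UT.dg (x, 1) ∈ h.PG := by
  simp only [Fam.mem_PG, co_lg_dg, Fam.mem_kl, lg_one, co_zero]

/-- A small (rational) element of the projection lifts to a small (rational) element. -/
theorem lift_snd' {h : Fam K (Sum.elim lv lv') (σ →₀ ℕ)} (S : Sc K σ)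
    {y : PS lv' σ FF} (hy : y ∈ h.snd.PG ⊓ S.EE lv') :
    ∃ x ∈ S.EE lv, UT.dg (x, y) ∈ h.PG := by
  obtain ⟨X, hX⟩ := exists_co' (lg y)
    (fun β X => Ent (S.s β : Set FF) X ∧ dg X (co β (lg y)) ∈ h.r β)
    (fun β h0 => ⟨Ent.zero _, by simp [h0]⟩) fun β => by
      obtain ⟨X, hX⟩ := hy.1 β
      obtain ⟨φ, h1, h2⟩ := exists_retr (S.s β)
      have := h.rat β φ _ hX
      rw [dg_map _ (map_zero φ), (Sc.mem_EE.1 hy.2 β).map_retr h2] at this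
      exact ⟨_, ent_map h1 X, this⟩
  have hm : X ∈ mF _ lv 1 := up_iff_co.2 fun β => (dg_mem_mF.1 (h.up β _ (hX β).2)).1
  refine ⟨ex lv X, Sc.mem_EE.2 fun β => ?_, fun β => ?_⟩
  · rw [lg_ex hm]; exact (hX β).1
  · rw [co_lg_dg, lg_ex hm]; exact (hX β).2

theorem lift_snd {h : Fam K (Sum.elim lv lv') (σ →₀ ℕ)} (_ : h.Blk) (S : Sc K σ)
    {y : PS lv' σ FF} (hy : y ∈ h.snd.PG ⊓ S.EE lv') :
    ∃ x ∈ S.EE lv, UT.dg (x, y) ∈ h.PG := lift_snd' S hy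

theorem lift_fst {h : Fam K (Sum.elim lv lv') (σ →₀ ℕ)} (S : Sc K σ)
    {x : PS lv σ FF} (hx : x ∈ h.fst.PG ⊓ S.EE lv) :
    ∃ y ∈ S.EE lv', UT.dg (x, y) ∈ h.PG := by
  obtain ⟨Y, hY⟩ := exists_co' (lg x)
    (fun β Y => Ent (S.s β : Set FF) Y ∧ dg (co β (lg x)) Y ∈ h.r β)
    (fun β h0 => ⟨Ent.zero _, by simp [h0]⟩) fun β => by
      obtain ⟨Y, hY⟩ := hx.1 β
      obtain ⟨φ, h1, h2⟩ := exists_retr (S.s β)
      have := h.rat β φ _ hY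
      rw [dg_map _ (map_zero φ), (Sc.mem_EE.1 hx.2 β).map_retr h2] at this
      exact ⟨_, ent_map h1 Y, this⟩
  have hm : Y ∈ mF _ lv' 1 := up_iff_co.2 fun β => (dg_mem_mF.1 (h.up β _ (hY β).2)).2
  refine ⟨ex lv' Y, Sc.mem_EE.2 fun β => ?_, fun β => ?_⟩
  · rw [lg_ex hm]; exact (hY β).1
  · rw [co_lg_dg, lg_ex hm]; exact (hY β).2

theorem Fac.split {S T : Sc K σ} {g : Fam K lv (σ →₀ ℕ)} {g' : Fam K lv' (σ →₀ ℕ)}
    {h : Fam K (Sum.elim lv lv') (σ →₀ ℕ)} {x : PS lv σ FF} {y : PS lv' σ FF}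
    (hf : Fac S T (g.prod g') h (UT.dg (x, y))) :
    ∃ e ∈ g.PG ⊓ S.EE lv, ∃ e' ∈ g'.PG ⊓ S.EE lv', ∃ u ∈ g.PG, ∃ u' ∈ g'.PG,
      ∃ c ∈ g.PG ⊓ T.EE lv, ∃ c' ∈ g'.PG ⊓ T.EE lv',
        UT.dg (u, u') ∈ h.PG ∧ x = e * u * c ∧ y = e' * u' * c' := by
  obtain ⟨e, he, z, hz, c, hc, h⟩ := hf
  obtain ⟨e1, a1, e2, a2, rfl⟩ := Fam.mem_prod_PG.1 he.1
  obtain ⟨z1, b1, z2, b2, rfl⟩ := Fam.mem_prod_PG.1 hz.1
  obtain ⟨c1, d1, c2, d2, rfl⟩ := Fam.mem_prod_PG.1 hc.1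
  rw [UT.dg_mul, UT.dg_mul, UT.dg_inj] at h
  exact ⟨e1, ⟨a1, (dg_mem_EE.1 he.2).1⟩, e2, ⟨a2, (dg_mem_EE.1 he.2).2⟩, z1, b1, z2, b2,
    c1, ⟨d1, (dg_mem_EE.1 hc.2).1⟩, c2, ⟨d2, (dg_mem_EE.1 hc.2).2⟩, hz.2, h.1, h.2⟩

theorem Fac.snd {S T : Sc K σ} {g : Fam K lv (σ →₀ ℕ)} {g' : Fam K lv' (σ →₀ ℕ)}
    {h : Fam K (Sum.elim lv lv') (σ →₀ ℕ)} {x : PS lv σ FF} {y : PS lv' σ FF}
    (hf : Fac S T (g.prod g') h (UT.dg (x, y))) : Fac S T g' h.snd y := by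
  obtain ⟨e, -, e', he, u, -, u', hu, c, -, c', hc, h1, -, h2⟩ := hf.split
  exact ⟨e', he, u', ⟨hu, (dg_mem_PG h1).2⟩, c', hc, h2⟩

theorem Fac.fst {S T : Sc K σ} {g : Fam K lv (σ →₀ ℕ)} {g' : Fam K lv' (σ →₀ ℕ)}
    {h : Fam K (Sum.elim lv lv') (σ →₀ ℕ)} {x : PS lv σ FF} {y : PS lv' σ FF}
    (hf : Fac S T (g.prod g') h (UT.dg (x, y))) : Fac S T g h.fst x := by
  obtain ⟨e, he, e', -, u, hu, u', -, c, hc, c', -, h1, h2, -⟩ := hf.split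
  exact ⟨e, he, u, ⟨hu, (dg_mem_PG h1).1⟩, c, hc, h2⟩

theorem Fac.prod {S T : Sc K σ} {g h : Fam K lv (σ →₀ ℕ)} {g' h' : Fam K lv' (σ →₀ ℕ)}
    {x : PS lv σ FF} {y : PS lv' σ FF} (a : Fac S T g h x) (b : Fac S T g' h' y) :
    Fac S T (g.prod g') (h.prod h') (UT.dg (x, y)) := by
  obtain ⟨e, he, u, hu, c, hc, rfl⟩ := a
  obtain ⟨e', he', u', hu', c', hc', rfl⟩ := b
  exact ⟨UT.dg (e, e'), ⟨Fam.dg_mem_prod_PG.2 ⟨he.1, he'.1⟩, dg_mem_EE.2 ⟨he.2, he'.2⟩⟩,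
    UT.dg (u, u'), ⟨Fam.dg_mem_prod_PG.2 ⟨hu.1, hu'.1⟩, Fam.dg_mem_prod_PG.2 ⟨hu.2, hu'.2⟩⟩,
    UT.dg (c, c'), ⟨Fam.dg_mem_prod_PG.2 ⟨hc.1, hc'.1⟩, dg_mem_EE.2 ⟨hc.2, hc'.2⟩⟩,
    by rw [UT.dg_mul, UT.dg_mul]⟩

end Pool.Agent.P.MP_a14ce1_nt.Nil
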