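import Pool.Agent.P.MP_a14ce1_nt.Nil.Tiny
import Pool.Agent.P.MP_a14ce1_nt.Nil.Prod
import Pool.Agent.P.MP_a14ce1_nt.Nil.Peel

/-!
Operations on nice functions.
-/

open Filter Finset
open scoped BigOperators

set_option linter.unusedSectionVars false

noncomputable section

namespace Pool.Agent.P.MP_a14ce1_nt.Nil

variable {A S B S' : Type} [NS A S] [NS B S']
  {ι ι' : Type} [Fintype ι] [DecidableEq ι] [Fintype ι'] [DecidableEq ι'] {lv : ι → ℕ}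
  {lv' : ι' → ℕ} {Q : HR} [Fact (2 ≤ Q)]

namespace NL

theorem Ex_st (T : ℕ → Finset S) {f : A → HC} {φ : ℕ → S → ℂ}
    (h : ∀ x, f (st x) = st fun n => φ n (x n)) : Ex (st T) f = st fun n => 𝔼 x ∈ T n, φ n x := by
  have hf : IntF f := ⟨φ, h⟩
  rw [Ex, dif_pos hf]
  have h1 : ∀ᶠ n in UU, ∀ s, hf.choose n s = φ n s := ev_forall.2 fun x =>
    (NS.eq_iff (A := HC) _ _).1 ((hf.choose_spec x).symm.trans (h x))
  refine st_congr ((h1.and (rep_st (A := Ns (Finset S)) T)).mono fun n hn => ?_)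
  rw [hn.2]
  exact expect_congr rfl fun s _ => hn.1 s

theorem intF_Ex (T : Ns (Finset S)) {f : B → A → HC} (hf : IntF fun z : B × A => f z.1 z.2) :
    IntF fun b => Ex T (f b) := by
  obtain ⟨φ, h⟩ := hf
  induction T using st_ind with | _ T
  exact ⟨fun n b => 𝔼 x ∈ T n, φ n (b, x), fun y =>
    Ex_st T (φ := fun n s => φ n (y n, s)) fun x => h fun n => (y n, x n)⟩

theorem nm_Ex_le {T : Ns (Finset S)} {f : A → HC} (hf : IntF f) {c : HR} (hc : 0 ≤ c)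
    (h : ∀ a, Mem a T → nm (f a) ≤ c) : nm (Ex T f) ≤ c := by
  obtain ⟨φ, hφ⟩ := hf
  induction T using st_ind with | _ T
  induction c using st_ind with | _ c
  rw [Ex_st T hφ]
  have h1 : ∀ᶠ n in UU, ∀ s, s ∈ T n → ‖φ n s‖ ≤ c n := ev_forall.2 fun x => by
    by_cases hx : ∀ᶠ n in UU, x n ∈ T n
    · have := h _ (mem_st.2 hx)
      rw [hφ] at this
      exact (st_le.1 this).mono fun n hn _ => hn
    · exact (ev_not.2 hx).mono fun n hn h' => absurd h' hn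
  refine st_le.2 ((h1.and (st_le.1 hc)).mono fun n hn => ?_)
  rcases (T n).eq_empty_or_nonempty with e | hT
  · simpa [e] using hn.2
  · exact (RCLike.norm_expect_le (K := ℂ)).trans (expect_le hT hn.1)

theorem Ex_sub {T : Ns (Finset S)} {f g : A → HC} (hf : IntF f) (hg : IntF g) :
    (Ex T fun a => f a - g a) = Ex T f - Ex T g := by
  obtain ⟨φ, hφ⟩ := hf
  obtain ⟨ψ, hψ⟩ := hg
  induction T using st_ind with | _ T
  rw [Ex_st T hφ, Ex_st T hψ, Ex_st T (φ := fun n s => φ n s - ψ n s) fun x => by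
    rw [hφ, hψ]; rfl]
  exact congrArg st (funext fun n => expect_sub_distrib _ _ _)

theorem Ex_mul_left {T : Ns (Finset S)} {f : A → HC} (hf : IntF f) (c : HC) :
    (Ex T fun a => c * f a) = c * Ex T f := by
  obtain ⟨φ, hφ⟩ := hf
  induction T using st_ind with | _ T
  induction c using st_ind with | _ c
  rw [Ex_st T hφ, Ex_st T (φ := fun n s => c n * φ n s) fun x => by rw [hφ]; rfl]
  exact congrArg st (funext fun n => (mul_expect _ _ _).symm)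

theorem tinyC_Ex {T : Ns (Finset S)} {f g : A → HC} (hf : IntF f) (hg : IntF g)
    (h : ∀ a, Mem a T → TinyC Q (f a - g a)) : TinyC Q (Ex T f - Ex T g) := by
  rw [← Ex_sub hf hg]
  refine Tiny.of_forall fun C => ?_
  rw [abs_nm]
  refine nm_Ex_le (hf.sub hg) (inv_pos.2 (Q_pow_pos C)).le fun a ha => ?_
  exact (Tiny.lt' (h a ha) (Big.inv_pow C) (inv_pos.2 (Q_pow_pos C)).le).le

end NL

/-! ### Diagonal blocks -/

section blocks

variable {R : Type} [CommRing R] [Algebra ℚ R]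

/-- The two diagonal blocks. -/
def UT.p1 (z : UT (Sum.elim lv lv') R) : UT lv R :=
  ⟨z.val.toBlocks₁₁, fun a b h => by
    have := z.up (Sum.inl a) (Sum.inl b) h
    rw [Matrix.sub_apply, ← Matrix.fromBlocks_one] at this
    exact this⟩
def UT.p2 (z : UT (Sum.elim lv lv') R) : UT lv' R :=
  ⟨z.val.toBlocks₂₂, fun a b h => by
    have := z.up (Sum.inr a) (Sum.inr b) h
    rw [Matrix.sub_apply, ← Matrix.fromBlocks_one] at this
    exact this⟩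
theorem UT.p1_val (z : UT (Sum.elim lv lv') R) : z.p1.val = z.val.toBlocks₁₁ := rfl
theorem UT.p2_val (z : UT (Sum.elim lv lv') R) : z.p2.val = z.val.toBlocks₂₂ := rfl
@[simp] theorem UT.p1_dg (x : UT lv R) (y : UT lv' R) : (UT.dg (x, y)).p1 = x := rfl
@[simp] theorem UT.p2_dg (x : UT lv R) (y : UT lv' R) : (UT.dg (x, y)).p2 = y := rfl

theorem ent_dg_val {T : Set R} (h0 : 0 ∈ T) {x : UT lv R} {y : UT lv' R} :
    Ent T ((UT.dg (x, y)).val - 1) ↔ Ent T (x.val - 1) ∧ Ent T (y.val - 1) := by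
  rw [UT.dg_val, ← dg_one, dg_sub, ent_dg h0]

end blocks

/-- The functional `dg X Y ↦ ξ X + ξ' Y`. -/
def fsum {FF : Type} [Field FF] (ξ : Matrix ι ι FF →ₗ[FF] FF) (ξ' : Matrix ι' ι' FF →ₗ[FF] FF) :
    Matrix (ι ⊕ ι') (ι ⊕ ι') FF →ₗ[FF] FF where
  toFun Z := ξ Z.toBlocks₁₁ + ξ' Z.toBlocks₂₂
  map_add' X Y := by
    change ξ (X.toBlocks₁₁ + Y.toBlocks₁₁) + ξ' (X.toBlocks₂₂ + Y.toBlocks₂₂) = _
    rw [map_add, map_add, add_add_add_comm]
  map_smul' c X := by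
    change ξ (c • X.toBlocks₁₁) + ξ' (c • X.toBlocks₂₂) = _
    rw [map_smul, map_smul, ← smul_add]; rfl

@[simp] theorem fsum_dg {FF : Type} [Field FF] (ξ : Matrix ι ι FF →ₗ[FF] FF)
    (ξ' : Matrix ι' ι' FF →ₗ[FF] FF) (X Y) : fsum ξ ξ' (dg X Y) = ξ X + ξ' Y := rfl

theorem RatF.fsum {FF : Type} [Field FF] [CharZero FF] {K : Subfield FF}
    {ξ : Matrix ι ι FF →ₗ[FF] FF} {ξ' : Matrix ι' ι' FF →ₗ[FF] FF} (h : RatF K ξ)
    (h' : RatF K ξ') : RatF K (fsum ξ ξ') := fun _ hX =>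
  K.add_mem (h _ fun a b => hX (Sum.inl a) (Sum.inl b)) (h' _ fun a b => hX (Sum.inr a) (Sum.inr b))

/-- The subspace `{dg X Y | X ∈ U, Y ∈ U'}`. -/
abbrev ssum {FF : Type} [Field FF] [CharZero FF] (U : Submodule FF (Matrix ι ι FF))
    (U' : Submodule FF (Matrix ι' ι' FF)) : Submodule FF (Matrix (ι ⊕ ι') (ι ⊕ ι') FF) := dgS U U'

theorem mem_ssum {FF : Type} [Field FF] [CharZero FF] {U : Submodule FF (Matrix ι ι FF)}
    {U' : Submodule FF (Matrix ι' ι' FF)} {Z} :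
    Z ∈ ssum U U' ↔ ∃ X ∈ U, ∃ Y ∈ U', Z = dg X Y := Iff.rfl

theorem dg_mem_ssum {FF : Type} [Field FF] [CharZero FF] {U : Submodule FF (Matrix ι ι FF)}
    {U' : Submodule FF (Matrix ι' ι' FF)} {X Y} : dg X Y ∈ ssum U U' ↔ X ∈ U ∧ Y ∈ U' :=
  dg_mem_dgS

theorem fsum_apply {FF : Type} [Field FF] (ξ : Matrix ι ι FF →ₗ[FF] FF)
    (ξ' : Matrix ι' ι' FF →ₗ[FF] FF) (Z) : fsum ξ ξ' Z = ξ Z.toBlocks₁₁ + ξ' Z.toBlocks₂₂ := rfl

@[fun_prop] theorem IntF.p1 {f : A → UT (Sum.elim lv lv') HR} (hf : IntF f) :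
    IntF fun a => (f a).p1 :=
  IntF.of_val (IntF.mat fun i j => hf.val.ent (Sum.inl i) (Sum.inl j))
@[fun_prop] theorem IntF.p2 {f : A → UT (Sum.elim lv lv') HR} (hf : IntF f) :
    IntF fun a => (f a).p2 :=
  IntF.of_val (IntF.mat fun i j => hf.val.ent (Sum.inr i) (Sum.inr j))
@[fun_prop] theorem IntF.udg {f : A → UT lv HR} {g : A → UT lv' HR} (hf : IntF f) (hg : IntF g) :
    IntF fun a => UT.dg (f a, g a) :=
  IntF.of_val (IntF.mat fun i j => by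
    rcases i with i | i <;> rcases j with j | j
    exacts [hf.val.ent i j, IntF.const 0, IntF.const 0, hg.val.ent i j])

/-! ### Entries -/

section ent

variable {R : Type} [CommRing R]

theorem Ent.mulR {Z : Subring R} {X Y : Matrix ι ι R} (hX : Ent (Z : Set R) X)
    (hY : Ent (Z : Set R) Y) : Ent (Z : Set R) (X * Y) := fun a b => by
  rw [Matrix.mul_apply]; exact sum_mem fun c _ => mul_mem (hX a c) (hY c b)

theorem ent_oneR (Z : Subring R) : Ent (Z : Set R) (1 : Matrix ι ι R) := fun a b => by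
  rw [Matrix.one_apply]; split_ifs
  exacts [one_mem Z, zero_mem Z]

theorem Ent.powR {Z : Subring R} {X : Matrix ι ι R} (hX : Ent (Z : Set R) X) (k : ℕ) :
    Ent (Z : Set R) (X ^ k) := by
  induction k with
  | zero => rw [pow_zero]; exact ent_oneR Z
  | succ k ih => rw [pow_succ]; exact ih.mulR hX

theorem Ent.invR [Algebra ℚ R] {Z : Subring R} {x : UT lv R} (hx : Ent (Z : Set R) x.val) :
    Ent (Z : Set R) x⁻¹.val := by
  obtain ⟨m, hm⟩ := exists_pow_zero lv R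
  have := geom_sum_mul (1 - x.val) (m + 1)
  rw [← neg_sub x.val, neg_pow, hm _ x.up, mul_zero, zero_sub, neg_sub, sub_sub_cancel_left,
    mul_neg, neg_inj] at this
  have h := congrArg (· * x⁻¹.val) this
  simp only [mul_assoc, UT.mul_inv_val, mul_one, one_mul] at h
  intro a b
  rw [← h, Matrix.sum_apply]
  exact sum_mem fun k _ => Ent.powR (fun a b => sub_mem (ent_oneR Z a b) (hx a b)) k a b

theorem Ent.tiny_mul {X Y : Matrix ι ι HR} (hX : Ent {t | Tiny Q t} X)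
    (hY : Ent (OO Q : Set HR) Y) : Ent {t | Tiny Q t} (X * Y) := fun a b => by
  rw [Matrix.mul_apply]; exact Tiny.sum fun c _ => Tiny.mul (hX a c) (hY c b)

theorem Ent.mul_tiny {X Y : Matrix ι ι HR} (hX : Ent (OO Q : Set HR) X)
    (hY : Ent {t | Tiny Q t} Y) : Ent {t | Tiny Q t} (X * Y) := fun a b => by
  rw [Matrix.mul_apply]; exact Tiny.sum fun c _ => Tiny.mul' (hY c b) (hX a c)

theorem conj_val_sub {R : Type} [CommRing R] [Algebra ℚ R] (a e : UT lv R) :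
    (a * e * a⁻¹).val - 1 = a.val * (e.val - 1) * a⁻¹.val := by
  rw [mul_sub, sub_mul, mul_one, UT.mul_inv_val]; rfl

theorem ent_tiny_conj {a e : UT lv HR} (ha : Ent (OO Q : Set HR) a.val)
    (he : Ent {t | Tiny Q t} (e.val - 1)) : Ent {t | Tiny Q t} ((a * e * a⁻¹).val - 1) := by
  rw [conj_val_sub]; exact (ha.mul_tiny he).tiny_mul ha.invR

theorem Lev.of_mul {q r : HR} (hr : r ∈ ZZ) {γ : UT lv HR} (h : Lev (q * r) γ) : Lev q γ :=
  fun a b => let ⟨z, hz, e⟩ := h a b; ⟨r * z, mul_mem hr hz, by rw [e, mul_assoc]⟩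

theorem Lev.conj {q r : HR} {c γ : UT lv HR} (h1 : Ent (ZZ : Set HR) (r • c.val))
    (h2 : Ent (ZZ : Set HR) (r • c⁻¹.val)) (h : Lev (q * (r * r)) γ) : Lev q (c⁻¹ * γ * c) := by
  choose z hz e using h
  have e1 : γ.val - 1 = (q * (r * r)) • Matrix.of z := Matrix.ext e
  have e2 : (c⁻¹ * γ * c).val - 1 = q • (r • c⁻¹.val * Matrix.of z * r • c.val) := by
    have := conj_val_sub c⁻¹ γ
    rw [inv_inv] at this
    rw [this, e1]
    simp only [mul_smul_comm, smul_mul_assoc, smul_smul]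
  intro a b
  exact ⟨_, (h2.mulR hz).mulR h1 a b, by rw [e2]; rfl⟩

end ent

/-! ### Nice functions -/

section nice

variable {I : Type} [AddCommMonoid I] {q : HR} {G : Subgroup (UT lv HR)} {F F' : UT lv HR → HC}
  {U : Submodule HR (Matrix ι ι HR)} {ξ ξ' : Matrix ι ι HR →ₗ[HR] HR}

theorem lvl_mul {r : HR} (hq : q ∈ ZZ ∧ q ∈ OO Q ∧ q ≠ 0) (hr : r ∈ ZZ ∧ r ∈ OO Q ∧ r ≠ 0) :
    q * r ∈ ZZ ∧ q * r ∈ OO Q ∧ q * r ≠ 0 :=
  ⟨mul_mem hq.1 hr.1, mul_mem hq.2.1 hr.2.1, mul_ne_zero hq.2.2 hr.2.2⟩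

theorem Nice.mono (h : Nice Q q G F) {G' : Subgroup (UT lv HR)} (hG : G' ≤ G) : Nice Q q G' F :=
  ⟨h.lvl, h.int, h.bd, fun e he ht x hx => h.cts e (hG he) ht x (hG hx),
    fun γ hγ hl x hx => h.per γ (hG hγ) hl x (hG hx)⟩
theorem Nice.lev (h : Nice Q q G F) {r : HR} (hr : r ∈ ZZ ∧ r ∈ OO Q ∧ r ≠ 0) :
    Nice Q (q * r) G F :=
  ⟨lvl_mul h.lvl hr, h.int, h.bd, h.cts, fun γ hγ hl => h.per γ hγ (hl.of_mul hr.1)⟩
theorem Nice.lev' (h : Nice Q q G F) {r : HR} (hr : r ∈ ZZ ∧ r ∈ OO Q ∧ r ≠ 0) :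
    Nice Q (r * q) G F := mul_comm q r ▸ h.lev hr
theorem Nice.cj (h : Nice Q q G F) : Nice Q q G fun x => cj (F x) :=
  ⟨h.lvl, h.int.cj, fun x => by rw [nm_cj]; exact h.bd x,
    fun e he ht x hx => by rw [← map_sub]; exact (h.cts e he ht x hx).cj,
    fun γ hγ hl x hx => by rw [← map_sub]; exact (h.per γ hγ hl x hx).cj⟩
theorem Nice.mul (h : Nice Q q G F) (h' : Nice Q q G F') : Nice Q q G fun x => F x * F' x :=
  ⟨h.lvl, h.int.mul h'.int, fun x => nm_mul_le_one (h.bd x) (h'.bd x),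
    fun e he ht x hx => (h.cts e he ht x hx).mul_sub (h'.cts e he ht x hx) (nm_OO (h'.bd _))
      (nm_OO (h.bd _)),
    fun γ hγ hl x hx => (h.per γ hγ hl x hx).mul_sub (h'.per γ hγ hl x hx) (nm_OO (h'.bd _))
      (nm_OO (h.bd _))⟩
theorem nice_const {c : HC} (hc : nm c ≤ 1) (hq : q ∈ ZZ ∧ q ∈ OO Q ∧ q ≠ 0) :
    Nice Q q G fun _ => c :=
  ⟨hq, IntF.const c, fun _ => hc, fun _ _ _ _ _ => TinyC.of_eq rfl,
    fun _ _ _ _ _ => TinyC.of_eq rfl⟩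
theorem Nice.cmul (h : Nice Q q G F) {c : HC} (hc : nm c ≤ 1) : Nice Q q G fun x => c * F x :=
  (nice_const hc h.lvl).mul h
theorem Nice.prod {J : Type} {s : Finset J} {Φ : J → UT lv HR → HC}
    (hq : q ∈ ZZ ∧ q ∈ OO Q ∧ q ≠ 0) (h : ∀ j, Nice Q q G (Φ j)) :
    Nice Q q G fun x => ∏ j ∈ s, Φ j x :=
  ⟨hq, IntF.prod fun j => (h j).int, fun x => nm_prod_le_one fun j _ => (h j).bd x,
    fun e he ht x hx => TinyC.prod_sub (fun j _ => (h j).cts e he ht x hx)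
      (fun j _ => (h j).bd _) fun j _ => (h j).bd _,
    fun γ hγ hl x hx => TinyC.prod_sub (fun j _ => (h j).per γ hγ hl x hx)
      (fun j _ => (h j).bd _) fun j _ => (h j).bd _⟩
theorem Nice.left (h : Nice Q q G F) {a : UT lv HR} (ha : a ∈ G) (hO : Ent (OO Q : Set HR) a.val) :
    Nice Q q G fun x => F (a * x) :=
  ⟨h.lvl, h.int.comp (by fun_prop), fun _ => h.bd _, fun e he ht x hx => by
      rw [show a * (e * x) = a * e * a⁻¹ * (a * x) by group]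
      exact h.cts _ (mul_mem (mul_mem ha he) (inv_mem ha)) (ent_tiny_conj hO ht) _ (mul_mem ha hx),
    fun γ hγ hl x hx => by
      rw [← mul_assoc]; exact h.per γ hγ hl _ (mul_mem ha hx)⟩
theorem Nice.right (h : Nice Q q G F) {c : UT lv HR} (hc : c ∈ G) {r : HR}
    (hr : r ∈ ZZ ∧ r ∈ OO Q ∧ r ≠ 0) (h1 : Ent (ZZ : Set HR) (r • c.val))
    (h2 : Ent (ZZ : Set HR) (r • c⁻¹.val)) : Nice Q (q * (r * r)) G fun x => F (x * c) :=
  ⟨lvl_mul h.lvl (lvl_mul hr hr), h.int.comp (by fun_prop), fun _ => h.bd _,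
    fun e he ht x hx => by rw [mul_assoc]; exact h.cts e he ht _ (mul_mem hx hc),
    fun γ hγ hl x hx => by
      rw [show x * γ * c = x * c * (c⁻¹ * γ * c) by group]
      exact h.per _ (mul_mem (mul_mem (inv_mem hc) hγ) hc) (hl.conj h1 h2) _ (mul_mem hx hc)⟩
theorem Nice.avg {T : Ns (Finset S)} {Φ : A → UT lv HR → HC}
    (hi : IntF fun z : A × UT lv HR => Φ z.1 z.2) (hq : q ∈ ZZ ∧ q ∈ OO Q ∧ q ≠ 0)
    (h : ∀ a, Mem a T → Nice Q q G (Φ a)) : Nice Q q G fun x => Ex T fun a => Φ a x :=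
  ⟨hq, NL.intF_Ex T (hi.comp (f := fun z : UT lv HR × A => (z.2, z.1)) (by fun_prop)),
    fun x => NL.nm_Ex_le (hi.curry' x) zero_le_one fun a ha => (h a ha).bd x,
    fun e he ht x hx => NL.tinyC_Ex (hi.curry' _) (hi.curry' _) fun a ha => (h a ha).cts e he ht x hx,
    fun γ hγ hl x hx => NL.tinyC_Ex (hi.curry' _) (hi.curry' _) fun a ha => (h a ha).per γ hγ hl x hx⟩
theorem Nice.tens {g : Fam (KK Q) lv I} {g' : Fam (KK Q) lv' I} {F' : UT lv' HR → HC}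
    (h : Nice Q q g.GG F) (h' : Nice Q q g'.GG F') :
    Nice Q q (g.prod g').GG fun z => F z.p1 * F' z.p2 := by
  refine ⟨h.lvl, (h.int.comp (by fun_prop)).mul (h'.int.comp (by fun_prop)),
    fun x => nm_mul_le_one (h.bd _) (h'.bd _), fun e he ht x hx => ?_, fun e he ht x hx => ?_⟩
  all_goals
    obtain ⟨e1, a1, e2, a2, rfl⟩ := Fam.mem_prod_GG.1 he
    obtain ⟨x1, b1, x2, b2, rfl⟩ := Fam.mem_prod_GG.1 hx
    simp only [UT.dg_mul, UT.p1_dg, UT.p2_dg]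
  · have := (ent_dg_val (T := {t | Tiny Q t}) tiny_zero).1 ht
    exact (h.cts _ a1 this.1 _ b1).mul_sub (h'.cts _ a2 this.2 _ b2) (nm_OO (h'.bd _))
      (nm_OO (h.bd _))
  · have := (ent_dg_val (T := {t | ∃ z ∈ ZZ, t = q * z}) ⟨0, zero_mem _, by simp⟩).1 ht
    exact (h.per _ a1 this.1 _ b1).mul_sub (h'.per _ a2 this.2 _ b2) (nm_OO (h'.bd _))
      (nm_OO (h.bd _))
/-- Uniform modulus for a family. -/
theorem Nice.modulus {g : Fam (KK Q) lv I} {p : A → Prop} (hp : IntP p) {Φ : A → UT lv HR → HC}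
    (hi : IntF fun z : A × UT lv HR => Φ z.1 z.2) (h : ∀ a, p a → Nice Q q g.GG (Φ a)) {δ : HR}
    (hδ : Big Q δ) : ∃ η, Big Q η ∧ 0 < η ∧ ∀ a, p a → ∀ e ∈ g.GG, Ent {t | |t| ≤ η} (e.val - 1) →
      ∀ x ∈ g.GG, nm (Φ a (e * x) - Φ a x) ≤ |δ| := by
  have i1 : IntF fun z : A × UT lv HR × UT lv HR => Φ z.1 (z.2.1 * z.2.2) :=
    hi.comp (f := fun z : A × UT lv HR × UT lv HR => (z.1, z.2.1 * z.2.2)) (by fun_prop)
  have i2 : IntF fun z : A × UT lv HR × UT lv HR => Φ z.1 z.2.2 :=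
    hi.comp (f := fun z : A × UT lv HR × UT lv HR => (z.1, z.2.2)) (by fun_prop)
  obtain ⟨C, hC⟩ := sat_mono (H := fun z : A × UT lv HR × UT lv HR => p z.1 ∧ z.2.1 ∈ g.GG ∧
      z.2.2 ∈ g.GG ∧ |δ| < nm (Φ z.1 (z.2.1 * z.2.2) - Φ z.1 z.2.2))
    ((hp.comp (by fun_prop)).and ((IntP.memGG g (by fun_prop)).and ((IntP.memGG g (by fun_prop)).and
      (IntP.lt (IntF.const _) (i1.sub i2).nm))))
    (P := fun C z => ∃ a b, (Q ^ C)⁻¹ < |(z.2.1.val - 1) a b|)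
    (fun C => IntP.any fun a => IntP.any fun b => IntP.lt (IntF.const _)
      (IntF.ent (by fun_prop) a b).abs)
    (fun i j hij z ⟨a, b, hz⟩ => ⟨a, b, (inv_anti₀ (Q_pow_pos i) (Q_pow_mono hij)).trans_lt hz⟩)
    fun z ⟨h1, h2, h3, h4⟩ => by
      by_contra hc
      push Not at hc
      have := ((h _ h1).cts _ h2 (fun a b => Tiny.of_forall fun C => hc C a b) _ h3).lt hδ
      rw [abs_nm] at this
      exact lt_asymm this h4
  refine ⟨_, Big.inv_pow C, inv_pos.2 (Q_pow_pos C), fun a ha e he ht x hx => ?_⟩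
  by_contra hc
  obtain ⟨i, j, hij⟩ := hC (a, e, x) ⟨ha, he, hx, not_le.1 hc⟩
  exact not_le.2 hij (ht i j)

theorem Eqv.mono (h : Eqv Q G U ξ F) {G' : Subgroup (UT lv HR)} (hG : G' ≤ G) {U'} (hU : U' ≤ U)
    (hξ : ∀ X ∈ U', ξ' X = ξ X) : Eqv Q G' U' ξ' F := fun z hz x hx => by
  rw [hξ _ hz]; exact h z (hU hz) x (hG hx)
theorem Eqv.cj (h : Eqv Q G U ξ F) : Eqv Q G U (-ξ) fun x => cj (F x) := fun z hz x hx => by
  rw [LinearMap.neg_apply, ee_neg, ← map_mul, ← map_sub]; exact (h z hz x hx).cj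
theorem Eqv.mul (h : Eqv Q G U ξ F) (h' : Eqv Q G U ξ' F') (hb : ∀ x, nm (F x) ≤ 1)
    (hb' : ∀ x, nm (F' x) ≤ 1) : Eqv Q G U (ξ + ξ') fun x => F x * F' x := fun z hz x hx => by
  rw [LinearMap.add_apply, ee_add, mul_mul_mul_comm]
  exact (h z hz x hx).mul_sub (h' z hz x hx) (nm_OO (hb' _))
    (nm_OO (nm_mul_le_one (nm_ee _).le (hb _)))
theorem eqv_const (c : HC) : Eqv Q G U 0 fun _ => c := fun z _ x _ =>
  TinyC.of_eq (by rw [LinearMap.zero_apply, ee_zero, one_mul])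
theorem eqv_bot : Eqv Q G ⊥ ξ F := fun z hz x _ => by
  rw [Submodule.mem_bot] at hz
  rw [hz, lg_inj (hz.trans lg_one.symm), map_zero, ee_zero, one_mul, one_mul]
  exact TinyC.of_eq rfl
theorem Eqv.cmul (h : Eqv Q G U ξ F) {c : HC} (hc : nm c ≤ 1) : Eqv Q G U ξ fun x => c * F x :=
  fun z hz x hx => by
    rw [mul_left_comm, ← mul_sub]; exact (h z hz x hx).mul' (nm_OO hc)
theorem Eqv.right (h : Eqv Q G U ξ F) {c : UT lv HR} (hc : c ∈ G) :
    Eqv Q G U ξ fun x => F (x * c) := fun z hz x hx => by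
  beta_reduce
  rw [mul_assoc]; exact h z hz _ (mul_mem hx hc)
theorem Cen.conj {FF : Type} [Field FF] [CharZero FF] {K : Subfield FF} {g : Fam K lv I} {U ξ}
    (hc : Cen g U ξ) {a z : UT lv FF} (ha : a ∈ g.GG) (hz : lg z ∈ U) :
    lg (a * z * a⁻¹) ∈ U ∧ ξ (lg (a * z * a⁻¹)) = ξ (lg z) := by
  have := conj_sub_mem (up_nil (lg_mem a)) (U := (U ⊓ LinearMap.ker ξ).restrictScalars ℚ)
    (fun Y hY => ⟨hc.idl.br _ ha _ hY.1, hc.cen _ ha _ hY.1⟩) ⟨hc.idl.br _ ha _ hz, hc.cen _ ha _ hz⟩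
  rw [← lg_inv, exp_lg, exp_lg, ← lg_conj] at this
  have h1 := add_mem this.1 hz
  have h2 : ξ _ = 0 := this.2
  rw [sub_add_cancel] at h1
  rw [map_sub, sub_eq_zero] at h2
  exact ⟨h1, h2⟩
theorem Eqv.left {g : Fam (KK Q) lv I} (hc : Cen g U ξ) (h : Eqv Q g.GG U ξ F) {a : UT lv HR}
    (ha : a ∈ g.GG) : Eqv Q g.GG U ξ fun x => F (a * x) := fun z hz x hx => by
  beta_reduce
  rw [show a * (z * x) = a * z * a⁻¹ * (a * x) by group, ← (hc.conj ha hz).2]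
  exact h _ (hc.conj ha hz).1 _ (mul_mem ha hx)
/-- The same from the right. -/
theorem Eqv.rt {g : Fam (KK Q) lv I} (hc : Cen g U ξ) (h : Eqv Q g.GG U ξ F) {z : UT lv HR}
    (hz : lg z ∈ U) {x} (hx : x ∈ g.GG) : TinyC Q (F (x * z) - ee (ξ (lg z)) * F x) := by
  rw [show x * z = x * z * x⁻¹ * x by group, ← (hc.conj hx hz).2]
  exact h _ (hc.conj hx hz).1 _ hx
theorem Eqv.tens {g : Fam (KK Q) lv I} {g' : Fam (KK Q) lv' I} {F' : UT lv' HR → HC} {U' ξ'}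
    (h : Eqv Q g.GG U ξ F) (h' : Eqv Q g'.GG U' ξ' F') (hb : ∀ x, nm (F x) ≤ 1)
    (hb' : ∀ x, nm (F' x) ≤ 1) :
    Eqv Q (g.prod g').GG (ssum U U') (fsum ξ ξ') fun z => F z.p1 * F' z.p2 := by
  rintro z ⟨X, hX, Y, hY, e⟩ x hx
  obtain ⟨z1, z2, rfl, rfl, rfl⟩ := exists_dg e
  obtain ⟨x1, b1, x2, b2, rfl⟩ := Fam.mem_prod_GG.1 hx
  simp only [UT.dg_mul, UT.p1_dg, UT.p2_dg, lg_dg, fsum_dg]
  rw [ee_add, mul_mul_mul_comm]
  exact (h _ hX _ b1).mul_sub (h' _ hY _ b2) (nm_OO (hb' _))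
    (nm_OO (nm_mul_le_one (nm_ee _).le (hb _)))
theorem Cen.prod {FF : Type} [Field FF] [CharZero FF] {K : Subfield FF} {g : Fam K lv I}
    {g' : Fam K lv' I} {U ξ U' ξ'} (h : Cen g U ξ) (h' : Cen g' U' ξ') :
    Cen (g.prod g') (ssum U U') (fsum ξ ξ') := by
  refine ⟨h.idl.prod h'.idl, h.rat.fsum h'.rat, ?_⟩
  rintro _ ⟨X, hX, X', hX', rfl⟩ _ ⟨Y, hY, Y', hY', rfl⟩
  rw [dg_br, fsum_dg, h.cen X hX Y hY, h'.cen X' hX' Y' hY', add_zero]
theorem Cen.restrict {FF : Type} [Field FF] [CharZero FF] {K : Subfield FF} {g h : Fam K lv I}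
    {U ξ} (hc : Cen g U ξ) (hh : h.r 0 ≤ g.r 0) : Cen h (U ⊓ h.r 0) ξ :=
  ⟨⟨hc.idl.rat.inf (h.rat 0), inf_le_right, fun X hX Y hY =>
    ⟨hc.idl.br X (hh hX) Y hY.1, h.lie0.br X hX Y hY.2⟩⟩, hc.rat,
    fun X hX Y hY => hc.cen X (hh hX) Y hY.1⟩
theorem Cen.neg {FF : Type} [Field FF] [CharZero FF] {K : Subfield FF} {g : Fam K lv I}
    {U ξ} (hc : Cen g U ξ) : Cen g U (-ξ) :=
  ⟨hc.idl, hc.rat.neg, fun X hX Y hY => by rw [LinearMap.neg_apply, hc.cen X hX Y hY, neg_zero]⟩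
theorem Fam.Idl.cen {FF : Type} [Field FF] [CharZero FF] {K : Subfield FF} {g : Fam K lv I}
    {n} (hn : g.Idl n) : Cen g n 0 := ⟨hn, RatF.zero, fun _ _ _ _ => rfl⟩
theorem Cen.ker {FF : Type} [Field FF] [CharZero FF] {K : Subfield FF} {g : Fam K lv I}
    {U ξ} (hc : Cen g U ξ) : g.Idl (U ⊓ LinearMap.ker ξ) :=
  ⟨hc.idl.rat.inf hc.rat.ker, inf_le_left.trans hc.idl.le,
    fun X hX Y hY => ⟨hc.idl.br X hX Y hY.1, hc.cen X hX Y hY.1⟩⟩
theorem Eqv.avg {T : Ns (Finset S)} {Φ : A → UT lv HR → HC}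
    (hi : IntF fun z : A × UT lv HR => Φ z.1 z.2) (h : ∀ a, Mem a T → Eqv Q G U ξ (Φ a)) :
    Eqv Q G U ξ fun x => Ex T fun a => Φ a x := fun z hz x hx => by
  beta_reduce
  rw [← NL.Ex_mul_left (hi.curry' x)]
  exact NL.tinyC_Ex (hi.curry' _) ((IntF.const _).mul (hi.curry' _)) fun a ha => h a ha z hz x hx
theorem normaliseQ (g : Fam (KK Q) lv I) (hq : q ∈ ZZ ∧ q ∈ OO Q ∧ q ≠ 0) {x : UT lv HR}
    (hx : x ∈ g.GG) : ∃ a ∈ g.GG, ∃ b ∈ g.GG, x = a * b ∧ Ent (OO Q : Set HR) a.val ∧ Lev q b :=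
  normalise (OO Q) ZZ KK_le_OO exists_ZZ_OO KK_den hq.1 (KK_of_ZZ hq.1 hq.2.1) hq.2.2
    g hx

end nice

end Pool.Agent.P.MP_a14ce1_nt.Nil
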