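import Pool.Agent.P.MP_a14ce1_nt.Nil.Lin1
import Pool.Agent.P.MP_a14ce1_nt.Nil.NiceL
import Pool.Agent.P.MP_a14ce1_nt.GI.FamS

/-!
The vector space of symbol classes: a direct limit over rational homomorphisms.
-/

open Finset MvPolynomial

set_option linter.unusedSectionVars false

noncomputable section

namespace Pool.Agent.P.MP_a14ce1_nt.Nil

variable {FF : Type} [Field FF] [CharZero FF] {ι ι' : Type} [Fintype ι] [DecidableEq ι]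
  [Fintype ι'] [DecidableEq ι'] {K : Subfield FF} {lv : ι → ℕ} {lv' : ι' → ℕ} {σ τ : Type}
  {S T : Sc K σ}

/-! ### The largest family and null functionals -/

/-- All strictly upper triangular matrices. -/
def Fam.full (K : Subfield FF) (lv : ι → ℕ) (I : Type) [AddCommMonoid I] : Fam K lv I where
  r _ := lvS FF lv 1
  up _ _ h := h
  rat _ := IsRat.lvS lv 1
  br _ _ X hX Y hY := sub_mem ((filt_mF FF lv).anti 1 ((filt_mF FF lv).mul 1 1 X hX Y hY))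
    ((filt_mF FF lv).anti 1 ((filt_mF FF lv).mul 1 1 Y hY X hX))

/-- The same without constant terms. -/
def tp (K : Subfield FF) (lv : ι → ℕ) (σ : Type) : Fam K lv (σ →₀ ℕ) :=
  (Fam.full K lv (σ →₀ ℕ)).plus

theorem tp_zero : (tp K lv σ).r 0 = ⊥ := Fam.plus_zero _

theorem mem_tp {x : PS lv σ FF} : x ∈ (tp K lv σ).PG ↔ ev 0 x = 1 :=
  mem_plus'.trans ⟨fun h => h.2, fun h => ⟨fun β _ => up_iff_co.1 (lg_mem x) β, h⟩⟩

theorem le_tp {g : Fam K lv (σ →₀ ℕ)} (g0 : g.r 0 = ⊥) : g ≤ tp K lv σ := fun β X hX => by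
  by_cases h : β = 0
  · rw [h, tp_zero, ← g0, ← h]; exact hX
  · rw [tp, Fam.plus_ne _ h]; exact g.up β X hX

theorem ev_zero_eq {g : Fam K lv (σ →₀ ℕ)} (g0 : g.r 0 = ⊥) {x : PS lv σ FF} (hx : x ∈ g.PG) :
    ev 0 x = 1 := mem_tp.1 (Fam.PG_mono (le_tp g0) hx)

/-- Functionals that vanish on a family through which `x` factors. -/
def Nul (hs : Sep S T) (β : σ →₀ ℕ) (x : PS lv σ FF) (hx : ev 0 x = 1) :
    Submodule FF (Matrix ι ι FF →ₗ[FF] FF) where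
  carrier := {ξ | ∃ k, Fac S T (tp K lv σ) k x ∧ ∀ X ∈ k.r β, ξ X = 0}
  add_mem' := fun ⟨k, a, b⟩ ⟨k', a', b'⟩ => ⟨k.inf k', a.int hs tp_zero a', fun X hX => by
    rw [LinearMap.add_apply, b X hX.1, b' X hX.2, add_zero]⟩
  zero_mem' := ⟨_, Fac.of_mem (mem_tp.2 hx) (mem_tp.2 hx), fun _ _ => rfl⟩
  smul_mem' c _ := fun ⟨k, a, b⟩ => ⟨k, a, fun X hX => by
    rw [LinearMap.smul_apply, b X hX, smul_zero]⟩

theorem nul_hom (hs : Sep S T) (β : σ →₀ ℕ) {g : Fam K lv (σ →₀ ℕ)} (g0 : g.r 0 = ⊥)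
    (π : Hom g lv') (z : g.PG) (h1 h2) (ξ : Matrix ι' ι' FF →ₗ[FF] FF) :
    ξ ∈ Nul hs β (π.G z) h1 ↔ ξ ∘ₗ π.l β ∈ Nul hs β z.1 h2 :=
  ⟨fun ⟨k, a, b⟩ => ⟨π.pull k, (π.fac_pull hs tp_zero z a).mono (le_tp g0) le_rfl,
      fun X hX => b _ (Hom.mem_pull.1 hX).2⟩,
    fun ⟨k, a, b⟩ => ⟨π.img k, (π.fac_img z (a.shrink hs tp_zero z.2)).mono
      (le_tp (π.img_zero g0 g)) le_rfl, fun Y hY => by
        obtain ⟨X, -, h, rfl⟩ := Hom.mem_img.1 hY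
        exact b X h⟩⟩

/-- The family on which two homomorphisms agree. -/
def Hom.eqz {I : Type} [AddCommMonoid I] {g g' : Fam K lv I} (π : Hom g lv') (ρ : Hom g' lv') :
    Fam K lv I where
  r i := (g.r i ⊓ g'.r i) ⊓ Submodule.comap (π.l i - ρ.l i) ⊥
  up i X hX := g.up i X hX.1.1
  rat i := ((g.rat i).inf (g'.rat i)).inf (IsRat.bot.comap ((π.rat i).sub (ρ.rat i)))
  br i j X hX Y hY := by
    refine ⟨⟨g.br i j X hX.1.1 Y hY.1.1, g'.br i j X hX.1.2 Y hY.1.2⟩, ?_⟩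
    have h1 : π.l i X = ρ.l i X := sub_eq_zero.1 hX.2
    have h2 : π.l j Y = ρ.l j Y := sub_eq_zero.1 hY.2
    change π.l (i + j) _ - ρ.l (i + j) _ = 0
    rw [π.br i j X hX.1.1 Y hY.1.1, ρ.br i j X hX.1.2 Y hY.1.2, h1, h2, sub_self]

/-! ### The directed system -/

/-- Normalised polynomial sequences. -/
structure Ob (K : Subfield FF) (σ : Type) where
  ι : Type
  [fin : Fintype ι]
  [dec : DecidableEq ι]
  lv : ι → ℕ
  x : PS lv σ FF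
  x0 : ev 0 x = 1

attribute [instance] Ob.fin Ob.dec

/-- `X` is the image of `Y` under a rational homomorphism. -/
structure Arr (X Y : Ob K σ) where
  g : Fam K Y.lv (σ →₀ ℕ)
  g0 : g.r 0 = ⊥
  mem : Y.x ∈ g.PG
  π : Hom g X.lv
  eq : π.G ⟨Y.x, mem⟩ = X.x

def Arr.id (X : Ob K σ) : Arr X X where
  g := tp K X.lv σ
  g0 := tp_zero
  mem := mem_tp.2 X.x0
  π := ⟨fun _ => LinearMap.id, fun _ => RatM.id, (tp K X.lv σ).up, fun _ _ _ _ _ _ => rfl⟩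
  eq := (Hom.G_eq_iff _ _ _).2 fun _ => rfl

def Arr.comp {X Y Z : Ob K σ} (a : Arr X Y) (b : Arr Y Z) : Arr X Z where
  g := b.π.pull a.g
  g0 := le_bot_iff.1 (b.g0 ▸ b.π.pull_le a.g 0)
  mem := (b.π.G_mem_iff ⟨Z.x, b.mem⟩ a.g).1 (b.eq ▸ a.mem)
  π := (b.π.res (b.π.pull_le a.g)).comp a.π fun _ _ ⟨_, h, e⟩ => e ▸ (Hom.mem_pull.1 h.1).2
  eq := (Hom.G_eq_iff _ _ _).2 fun β => by
    rw [← (Hom.G_eq_iff _ _ _).1 a.eq β, ← (Hom.G_eq_iff _ _ _).1 b.eq β]; rfl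

/-- The block sum. -/
def Ob.sum (X Y : Ob K σ) : Ob K σ :=
  ⟨X.ι ⊕ Y.ι, Sum.elim X.lv Y.lv, UT.dg (X.x, Y.x), by rw [ev_dg, X.x0, Y.x0, UT.dg_one]⟩

/-- The projections as homomorphisms. -/
def Hom.p1 {I : Type} [AddCommMonoid I] (g : Fam K lv I) (g' : Fam K lv' I) :
    Hom (g.prod g') lv where
  l _ := pr1
  rat _ := ratM_pr1
  up i := by rintro _ ⟨X, hX, Y, -, rfl⟩; exact g.up i X hX
  br i j := by rintro _ ⟨X, -, Y, -, rfl⟩ _ ⟨X', -, Y', -, rfl⟩; rw [dg_br]; rfl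
def Hom.p2 {I : Type} [AddCommMonoid I] (g : Fam K lv I) (g' : Fam K lv' I) :
    Hom (g.prod g') lv' where
  l _ := pr2
  rat _ := ratM_pr2
  up i := by rintro _ ⟨X, -, Y, hY, rfl⟩; exact g'.up i Y hY
  br i j := by rintro _ ⟨X, -, Y, -, rfl⟩ _ ⟨X', -, Y', -, rfl⟩; rw [dg_br]; rfl

def Arr.inl (X Y : Ob K σ) : Arr X (X.sum Y) where
  g := (tp K X.lv σ).prod (tp K Y.lv σ)
  g0 := Fam.prod_zero tp_zero tp_zero
  mem := Fam.dg_mem_prod_PG.2 ⟨mem_tp.2 X.x0, mem_tp.2 Y.x0⟩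
  π := Hom.p1 _ _
  eq := (Hom.G_eq_iff _ _ _).2 fun β => congrArg pr1 (co_lg_dg β X.x Y.x)
def Arr.inr (X Y : Ob K σ) : Arr Y (X.sum Y) where
  g := (tp K X.lv σ).prod (tp K Y.lv σ)
  g0 := Fam.prod_zero tp_zero tp_zero
  mem := Fam.dg_mem_prod_PG.2 ⟨mem_tp.2 X.x0, mem_tp.2 Y.x0⟩
  π := Hom.p2 _ _
  eq := (Hom.G_eq_iff _ _ _).2 fun β => congrArg pr2 (co_lg_dg β X.x Y.x)

instance : Preorder (Ob K σ) where
  le X Y := Nonempty (Arr X Y)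
  le_refl X := ⟨Arr.id X⟩
  le_trans _ _ _ := fun ⟨a⟩ ⟨b⟩ => ⟨a.comp b⟩

instance : IsDirectedOrder (Ob K σ) := ⟨fun X Y => ⟨X.sum Y, ⟨Arr.inl X Y⟩, ⟨Arr.inr X Y⟩⟩⟩

/-- Functionals modulo null functionals. -/
abbrev Gq (hs : Sep S T) (β : σ →₀ ℕ) (X : Ob K σ) : Type :=
  (Matrix X.ι X.ι FF →ₗ[FF] FF) ⧸ Nul hs β X.x X.x0

theorem Arr.nul (hs : Sep S T) (β : σ →₀ ℕ) {X Y : Ob K σ} (a : Arr X Y) (ξ) :
    ξ ∈ Nul hs β X.x X.x0 ↔ ξ ∘ₗ a.π.l β ∈ Nul hs β Y.x Y.x0 := by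
  have := nul_hom hs β a.g0 a.π ⟨Y.x, a.mem⟩ (a.eq ▸ X.x0) Y.x0 ξ
  simpa only [a.eq] using this

def Arr.map (hs : Sep S T) (β : σ →₀ ℕ) {X Y : Ob K σ} (a : Arr X Y) :
    Gq hs β X →ₗ[FF] Gq hs β Y :=
  Submodule.mapQ _ _ (a.π.l β).dualMap fun ξ h => (a.nul hs β ξ).1 h

theorem Arr.map_mk (hs : Sep S T) (β : σ →₀ ℕ) {X Y : Ob K σ} (a : Arr X Y) (ξ) :
    a.map hs β (Submodule.Quotient.mk ξ) = Submodule.Quotient.mk (ξ ∘ₗ a.π.l β) := rfl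

theorem Arr.map_eq (hs : Sep S T) (β : σ →₀ ℕ) {X Y : Ob K σ} (a b : Arr X Y) (u) :
    a.map hs β u = b.map hs β u := by
  obtain ⟨ξ, rfl⟩ := Submodule.Quotient.mk_surjective _ u
  rw [Arr.map_mk, Arr.map_mk, Submodule.Quotient.eq]
  refine ⟨a.π.eqz b.π, Fac.of_mem (mem_tp.2 Y.x0) fun γ => ⟨⟨a.mem γ, b.mem γ⟩, ?_⟩,
    fun Z hZ => ?_⟩
  · exact sub_eq_zero.2 (((Hom.G_eq_iff _ _ _).1 a.eq γ).trans
      ((Hom.G_eq_iff _ _ _).1 b.eq γ).symm)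
  · exact (map_sub ξ _ _).symm.trans ((congrArg ξ hZ.2).trans (map_zero ξ))

def trn (hs : Sep S T) (β : σ →₀ ℕ) (X Y : Ob K σ) (h : X ≤ Y) : Gq hs β X →ₗ[FF] Gq hs β Y :=
  (Nonempty.some h).map hs β

instance (hs : Sep S T) (β : σ →₀ ℕ) : DirectedSystem (Gq hs β) (trn hs β · · ·) where
  map_self X u := by
    rw [trn, Arr.map_eq hs β _ (Arr.id X)]
    obtain ⟨ξ, rfl⟩ := Submodule.Quotient.mk_surjective _ u
    rfl
  map_map _ _ _ h h' u := by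
    rw [trn, trn, trn, Arr.map_eq hs β (Nonempty.some (h.trans h'))
      ((Nonempty.some h).comp (Nonempty.some h'))]
    obtain ⟨ξ, rfl⟩ := Submodule.Quotient.mk_surjective _ u
    rfl

instance : DecidableEq (Ob K σ) := Classical.decEq _

/-- The space of symbol classes for the monomial `β`. -/
def Cls (hs : Sep S T) (β : σ →₀ ℕ) : Type 1 := Module.DirectLimit (Gq hs β) (trn hs β)

instance (hs : Sep S T) (β : σ →₀ ℕ) : AddCommGroup (Cls hs β) :=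
  @Module.addCommMonoidToAddCommGroup FF _ _ (Module.DirectLimit.addCommMonoid (Gq hs β) (trn hs β))
    (Module.DirectLimit.module (Gq hs β) (trn hs β))

instance (hs : Sep S T) (β : σ →₀ ℕ) : Module FF (Cls hs β) :=
  Module.DirectLimit.module (Gq hs β) (trn hs β)

def cl0 (hs : Sep S T) (β : σ →₀ ℕ) (X : Ob K σ) :
    (Matrix X.ι X.ι FF →ₗ[FF] FF) →ₗ[FF] Cls hs β :=
  Module.DirectLimit.of FF _ (Gq hs β) (trn hs β) X ∘ₗ (Nul hs β X.x X.x0).mkQ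

theorem cl0_arr (hs : Sep S T) (β : σ →₀ ℕ) {X Y : Ob K σ} (a : Arr X Y) (ξ) :
    cl0 hs β X ξ = cl0 hs β Y (ξ ∘ₗ a.π.l β) := by
  have := Module.DirectLimit.of_f (f := trn hs β) (hij := ⟨a⟩) (x := Submodule.Quotient.mk ξ)
  rw [trn, Arr.map_eq hs β _ a, Arr.map_mk] at this
  exact this.symm

theorem cl0_eq_zero (hs : Sep S T) (β : σ →₀ ℕ) (X : Ob K σ) (ξ) :
    cl0 hs β X ξ = 0 ↔ ξ ∈ Nul hs β X.x X.x0 := by
  refine ⟨fun h => ?_, fun h => ?_⟩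
  · obtain ⟨Y, a, e⟩ := Module.DirectLimit.of.zero_exact h
    exact ((Nonempty.some a).nul hs β ξ).2 ((Submodule.Quotient.mk_eq_zero _).1 e)
  · exact (congrArg (Module.DirectLimit.of FF _ (Gq hs β) (trn hs β) X)
      ((Submodule.Quotient.mk_eq_zero _).2 h)).trans (map_zero _)

/-- Removal of the constant term. -/
def nrm (x : PS lv σ FF) : PS lv σ FF := (cst σ (ev 0 x))⁻¹ * x

theorem ev_nrm (x : PS lv σ FF) : ev 0 (nrm x) = 1 := by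
  rw [nrm, map_mul, map_inv, ev_cst, inv_mul_cancel]

theorem nrm_eq {x : PS lv σ FF} (h : ev 0 x = 1) : nrm x = x := by
  rw [nrm, h, map_one, inv_one, one_mul]

theorem nrm_dg (x : PS lv σ FF) (y : PS lv' σ FF) :
    nrm (UT.dg (x, y)) = UT.dg (nrm x, nrm y) := by
  rw [nrm, ev_dg, cst_dg, UT.dg_inv, UT.dg_mul, nrm, nrm]

theorem nrm_cst (a : UT lv FF) (x : PS lv σ FF) : nrm (cst σ a * x) = nrm x := by
  rw [nrm, nrm, map_mul, ev_cst, map_mul]; group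

/-- The class of a sequence and a functional. -/
def cl (hs : Sep S T) (β : σ →₀ ℕ) (x : PS lv σ FF) :
    (Matrix ι ι FF →ₗ[FF] FF) →ₗ[FF] Cls hs β := cl0 hs β ⟨ι, lv, nrm x, ev_nrm x⟩

section api

variable (hs : Sep S T) {β : σ →₀ ℕ} {g h m : Fam K lv (σ →₀ ℕ)} {x x' : PS lv σ FF}
  {y : PS lv' σ FF} {ξ : Matrix ι ι FF →ₗ[FF] FF} {η : Matrix ι' ι' FF →ₗ[FF] FF}

theorem cl_of_nrm (e : nrm x = nrm x') : cl hs β x = cl hs β x' := by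
  have : ∀ (u v : PS lv σ FF) (hu : ev 0 u = 1) (hv : ev 0 v = 1), u = v →
      cl0 hs β ⟨ι, lv, u, hu⟩ = cl0 hs β ⟨ι, lv, v, hv⟩ := by
    rintro u v hu hv rfl; rfl
  exact this _ _ _ _ e

theorem cl_nrm (x : PS lv σ FF) : cl hs β (nrm x) = cl hs β x := cl_of_nrm hs (nrm_eq (ev_nrm x))

theorem cl_cst_mul (a : UT lv FF) (x : PS lv σ FF) : cl hs β (cst σ a * x) = cl hs β x :=
  cl_of_nrm hs (nrm_cst a x)

theorem cl_eq_cl0 (h0 : ev 0 x = 1) : cl hs β x = cl0 hs β ⟨ι, lv, x, h0⟩ := by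
  unfold cl
  congr
  exact nrm_eq h0

/-- Invariance under rational homomorphisms. -/
theorem cl_hom (g0 : g.r 0 = ⊥) (π : Hom g lv') (z : g.PG) (η : Matrix ι' ι' FF →ₗ[FF] FF) :
    cl hs β (π.G z) η = cl hs β z.1 (η ∘ₗ π.l β) := by
  rw [cl_eq_cl0 hs (ev_zero_eq (π.img_zero g0 g) (π.G_mem_img z z.2)),
    cl_eq_cl0 hs (ev_zero_eq g0 z.2)]
  exact cl0_arr hs β (X := ⟨ι', lv', _, _⟩) (Y := ⟨ι, lv, _, _⟩) ⟨g, g0, z.2, π, rfl⟩ η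

theorem cl_dg (β : σ →₀ ℕ) (x : PS lv σ FF) (y : PS lv' σ FF) (ξ η) :
    cl hs β (UT.dg (x, y)) (fsum ξ η) = cl hs β x ξ + cl hs β y η := by
  rw [← cl_nrm, nrm_dg, cl_eq_cl0 hs (by rw [← nrm_dg]; exact ev_nrm _), cl, cl,
    cl0_arr hs β (Arr.inl ⟨ι, lv, nrm x, ev_nrm x⟩ ⟨ι', lv', nrm y, ev_nrm y⟩),
    cl0_arr hs β (Arr.inr ⟨ι, lv, nrm x, ev_nrm x⟩ ⟨ι', lv', nrm y, ev_nrm y⟩), ← map_add]
  rfl

theorem cl_sub (β : σ →₀ ℕ) (x : PS lv σ FF) (y : PS lv' σ FF) (ξ η) :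
    cl hs β (UT.dg (x, y)) (fsum ξ (-η)) = cl hs β x ξ - cl hs β y η := by
  rw [cl_dg, map_neg, sub_eq_add_neg]

theorem cl_eq_zero_iff (g0 : g.r 0 = ⊥) (hx : x ∈ g.PG) :
    cl hs β x ξ = 0 ↔ ∃ k ≤ g, Fac S T g k x ∧ ∀ X ∈ k.r β, ξ X = 0 := by
  rw [cl_eq_cl0 hs (ev_zero_eq g0 hx), cl0_eq_zero]
  exact ⟨fun ⟨k, a, b⟩ => ⟨g.inf k, g.inf_le_left k, (a.shrink hs tp_zero hx).inf_self,
    fun X hX => b X hX.2⟩, fun ⟨k, _, a, b⟩ => ⟨k, a.mono (le_tp g0) le_rfl, b⟩⟩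

theorem cl_zero (g0 : g.r 0 = ⊥) (hf : Fac S T g h x) (hξ : ∀ X ∈ h.r β, ξ X = 0) :
    cl hs β x ξ = 0 :=
  (cl_eq_zero_iff hs g0 hf.mem).2 ⟨g.inf h, g.inf_le_left h, hf.inf_self, fun X hX => hξ X hX.2⟩

theorem cl_zero_of_mem (g0 : g.r 0 = ⊥) (hx : x ∈ g.PG) (hξ : ∀ X ∈ g.r β, ξ X = 0) :
    cl hs β x ξ = 0 := cl_zero hs g0 (Fac.of_mem hx hx) hξ

theorem cl_zero_of_fac (hf : Fac S T g.plus h.plus x) (hξ : ∀ X ∈ h.r β, ξ X = 0) :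
    cl hs β x ξ = 0 := cl_zero hs g.plus_zero hf fun X hX => hξ X (h.plus_le β hX)

theorem cl_one (ξ : Matrix ι ι FF →ₗ[FF] FF) : cl hs β (1 : PS lv σ FF) ξ = 0 :=
  cl_zero_of_mem hs (g := Fam.bot K lv _) rfl (one_mem _) fun X hX => by
    rw [(Submodule.mem_bot FF).1 hX, map_zero]

theorem cl_congr (g0 : g.r 0 = ⊥) (hx : x ∈ g.PG) {ξ' : Matrix ι ι FF →ₗ[FF] FF}
    (hξ : ∀ X ∈ g.r β, ξ X = ξ' X) : cl hs β x ξ = cl hs β x ξ' := by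
  rw [← sub_eq_zero, ← map_sub]
  exact cl_zero_of_mem hs g0 hx fun X hX => sub_eq_zero.2 (hξ X hX)

/-- One family which is killed by every null functional. -/
theorem exists_fam [Finite σ] (g0 : g.r 0 = ⊥) (hx : x ∈ g.PG) :
    ∃ h ≤ g, Fac S T g h x ∧ ∀ β ξ, cl hs β x ξ = 0 → ∀ X ∈ h.r β, ξ X = 0 := by
  obtain ⟨k, h1, -, h2, h3⟩ := res_fine hs g0 hx
  refine ⟨k, h1, h2, fun β ξ h X hX => ?_⟩
  obtain ⟨k', -, a, b⟩ := (cl_eq_zero_iff hs g0 hx).1 h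
  exact b X (h3 k' a β hX)

/-- A rational relation through which the pair factors. -/
theorem cl_rel' {G H : Fam K (Sum.elim lv lv') (σ →₀ ℕ)} (G0 : G.r 0 = ⊥)
    (hf : Fac S T G H (UT.dg (x, y))) (e : ∀ X Y, dg X Y ∈ H.r β → ξ X = η Y) :
    cl hs β x ξ = cl hs β y η := by
  have h0 := ev_zero_eq G0 hf.mem
  rw [ev_dg, ← UT.dg_one, UT.dg_inj] at h0
  rw [← sub_eq_zero, ← cl_sub]
  refine cl_zero hs (Fam.prod_zero tp_zero tp_zero) (hf.shrink hs G0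
    (Fam.dg_mem_prod_PG.2 ⟨mem_tp.2 h0.1, mem_tp.2 h0.2⟩)).inf_self ?_
  rintro _ ⟨⟨X, -, Y, -, rfl⟩, h⟩
  rw [fsum_dg, e X Y h, LinearMap.neg_apply, add_neg_cancel]

/-- A rational relation containing the pair. -/
theorem cl_rel {H : Fam K (Sum.elim lv lv') (σ →₀ ℕ)} (H0 : H.r 0 = ⊥)
    (hm : UT.dg (x, y) ∈ H.PG) (e : ∀ X Y, dg X Y ∈ H.r β → ξ X = η Y) :
    cl hs β x ξ = cl hs β y η := cl_rel' hs H0 (Fac.of_mem hm hm) e

theorem cl_Rel (g0 : g.r 0 = ⊥) (i : g.Ide m) (hx : x ∈ g.PG) (a : Rel S T g m x x')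
    (hξ : ∀ X ∈ m.r β, ξ X = 0) : cl hs β x' ξ = cl hs β x ξ :=
  (cl_rel' hs (Fam.prod_zero g0 g0) (a.fac i hx) fun X Y h => by
    rw [eq_comm, ← sub_eq_zero, ← map_sub]; exact hξ _ (i.dg_mem_del.1 h).2.2).symm

theorem Fam.ide_bot {I : Type} [AddCommMonoid I] (g : Fam K lv I) : g.Ide (Fam.bot K lv I) :=
  ⟨fun _ => bot_le, fun _ _ X _ Y hY => by
    rw [(Submodule.mem_bot FF).1 hY, mul_zero, zero_mul, sub_zero]; exact zero_mem _⟩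

theorem cl_Dc (g0 : g.r 0 = ⊥) (hx : x ∈ g.PG) (a : Dc S T g x x') (ξ) :
    cl hs β x' ξ = cl hs β x ξ :=
  cl_Rel hs g0 g.ide_bot hx (rel_iff.2 ⟨1, one_mem _, by rwa [mul_one]⟩) fun X hX => by
    rw [(Submodule.mem_bot FF).1 hX, map_zero]

theorem cl_EE (g0 : g.r 0 = ⊥) (hx : x ∈ g.PG) {e c : PS lv σ FF} (he : e ∈ g.PG ⊓ S.EE lv)
    (hc : c ∈ g.PG ⊓ T.EE lv) (ξ) : cl hs β (e * x * c) ξ = cl hs β x ξ :=
  cl_Dc hs g0 hx ⟨e, he, c, hc, rfl⟩ ξ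

theorem cl_ideal (g0 : g.r 0 = ⊥) (a : g.Ide m) {μ : PS lv σ FF} (hx : x ∈ g.PG) (hμ : μ ∈ m.PG)
    (hξ : ∀ X ∈ m.r β, ξ X = 0) : cl hs β (x * μ) ξ = cl hs β x ξ :=
  cl_Rel hs g0 a hx (Rel.of_mul x hμ) hξ

end api

/-! ### Nested systems -/

section nested

variable (hs : Sep S T) {β : σ →₀ ℕ} {g : Fam K lv ℕ} {D : ℕ} {x y : PS lv σ FF}
  {ξ : Matrix ι ι FF →ₗ[FF] FF}

theorem nrm_mem (hg : g.Fil D) (hx : x ∈ (g.fine σ).PG) :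
    nrm x ∈ (g.fine σ).plus.PG ∧ lg (nrm x) - lg x ∈ pk g σ 1 := by
  have h := inv_mem (cst_mem (σ := σ) (ev_mem hg hx 0))
  refine ⟨mem_plus.2 ⟨mul_mem h hx, ev_nrm x⟩, lg_mul_left_sub (𝔏 := (g.fine σ).lie)
    ((pk_le hg zero_le_one).trans (pk_zero g).le) (pk_ideal 1) hx ?_⟩
  rw [← map_inv]
  exact lg_cst_mem_pk hg (inv_mem (ev_mem hg hx 0))

theorem cl_pk (hg : g.Fil D) (hx : x ∈ (g.fine σ).PG) (hy : y ∈ (g.fine σ).PG)
    (h : lg y - lg x ∈ pk g σ 1) (hξ : ∀ X ∈ g.r (β.degree + 1), ξ X = 0) :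
    cl hs β y ξ = cl hs β x ξ := by
  obtain ⟨x1, x2⟩ := nrm_mem hg hx
  obtain ⟨y1, y2⟩ := nrm_mem hg hy
  have i : (g.fine σ).plus.Ide ((g.sft hg 1).fine σ).plus :=
    ⟨Fam.plus_mono (Fam.fine_mono fun i => hg.anti i), fun a b X hX Y hY => by
      by_cases hb : b = 0
      · rw [hb, Fam.plus_zero, Submodule.mem_bot] at hY
        rw [hY, mul_zero, zero_mul, sub_zero]; exact zero_mem _
      rw [Fam.plus_ne _ fun e => hb (add_eq_zero.1 e).2]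
      have := g.br _ _ X (Fam.plus_le _ a hX) Y (Fam.plus_le _ b hY)
      change _ ∈ g.r ((a + b).degree + 1)
      rwa [map_add, add_assoc]⟩
  have h1 : (nrm x)⁻¹ * nrm y ∈ ((g.sft hg 1).fine σ).plus.PG := mem_plus.2
    ⟨(lg_inv_mul_mem_iff (𝔏 := (g.fine σ).lie) ((pk_le hg zero_le_one).trans (pk_zero g).le)
      (pk_ideal 1) (mem_plus.1 x1).1 (mem_plus.1 y1).1).2 (by
        convert sub_mem (add_mem y2 h) x2 using 1
        abel), by rw [map_mul, map_inv, ev_nrm, ev_nrm, inv_mul_cancel]⟩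
  have := cl_ideal hs (Fam.plus_zero _) i x1 h1 (β := β) (ξ := ξ)
    fun X hX => hξ X (Fam.plus_le _ β hX)
  rwa [mul_inv_cancel_left, cl_nrm, cl_nrm] at this

theorem cl_symbol (hg : g.Fil D) (hx : x ∈ (g.fine σ).PG)
    (hξ : ∀ X ∈ g.r (β.degree + 1), ξ X = 0) (h : σ → FF) {a b : UT lv FF} (ha : a ∈ g.GG)
    (hb : b ∈ g.GG) : cl hs β (cst σ a * sh h x * cst σ b) ξ = cl hs β x ξ :=
  cl_pk hs hg hx (symbol hg hx h ha hb).1 (symbol hg hx h ha hb).2 hξ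

theorem cl_norm (hg : g.Fil D) (hx : x ∈ (g.fine σ).PG)
    (hξ : ∀ X ∈ g.r (β.degree + 1), ξ X = 0) (h : σ → FF) {a b : UT lv FF} (ha : a ∈ g.GG)
    (hb : b ∈ g.GG) : cl hs β ((cst σ a)⁻¹ * sh h x * (cst σ b)⁻¹) ξ = cl hs β x ξ := by
  rw [← map_inv, ← map_inv]
  exact cl_symbol hs hg hx hξ h (inv_mem ha) (inv_mem hb)

theorem cl_sh (hg : g.Fil D) (hx : x ∈ (g.fine σ).PG) (hξ : ∀ X ∈ g.r (β.degree + 1), ξ X = 0)
    (a : σ → FF) : cl hs β (sh a x) ξ = cl hs β x ξ := by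
  simpa only [map_one, one_mul, mul_one] using cl_symbol hs hg hx hξ a (one_mem _) (one_mem _)

theorem sh_zero (x : PS lv σ FF) : sh 0 x = x := by
  apply UT.ext
  ext a b : 2
  simp [sh, sb]

theorem cl_cst (hg : g.Fil D) (hx : x ∈ (g.fine σ).PG) (hξ : ∀ X ∈ g.r (β.degree + 1), ξ X = 0)
    {a b : UT lv FF} (ha : a ∈ g.GG) (hb : b ∈ g.GG) :
    cl hs β (cst σ a * x * cst σ b) ξ = cl hs β x ξ := by
  simpa only [sh_zero] using cl_symbol hs hg hx hξ 0 ha hb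

theorem exists_nested [Finite σ] (hg : g.Fil D) (hx : x ∈ (g.fine σ).plus.PG) {s : ℕ}
    (hξ : ∀ X ∈ g.r (s + 1), ξ X = 0) (h0 : ∀ β : σ →₀ ℕ, β.degree = s → cl hs β x ξ = 0) :
    ∃ h ≤ g, h.Fil D ∧ (∀ X ∈ h.r s, ξ X = 0) ∧
      Fac S T (g.fine σ).plus (h.fine σ).plus x := by
  obtain ⟨k, h1, h2, h3⟩ := exists_fam hs (Fam.plus_zero _) hx
  have h4 : ∀ β, k.r β ≤ g.r β.degree := fun β => (h1 β).trans (Fam.plus_le _ β)
  refine ⟨k.hl Finsupp.degree, fun d => Fam.su_le fun β hβ =>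
    (h4 β).trans (hg.le ((le_max_left _ _).trans hβ)),
    Fam.hl_fil fun β hβ => le_bot_iff.1 (hg.eq_bot hβ ▸ h4 β),
    Fam.su_kill fun β hβ X hX => ?_, h2.mono le_rfl fun β => ?_⟩
  · rcases ((le_max_left _ _).trans hβ).eq_or_lt with e | e
    · exact h3 β ξ (h0 β e.symm) X hX
    · exact hξ X (hg.le e (h4 β hX))
  · by_cases e : β = 0
    · rw [e]; exact (h1 0).trans ((Fam.plus_zero _).le.trans bot_le)
    · rw [Fam.plus_ne _ e]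
      exact k.le_hl _ (Nat.one_le_iff_ne_zero.2 fun h => e ((Finsupp.degree_eq_zero_iff β).1 h))
        le_rfl

end nested

/-! ### Linear substitutions -/

theorem coeff_aeval_mem {f : σ → MvPolynomial τ FF} (hK : ∀ l β, coeff β (f l) ∈ K)
    (γ : σ →₀ ℕ) : ∀ β, coeff β (aeval f (monomial γ (1 : FF))) ∈ K := by
  classical
  induction γ using mono_ind with
  | h0 =>
    intro β
    rw [monomial_zero', map_one, map_one, coeff_one]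
    split_ifs
    exacts [one_mem _, zero_mem _]
  | h1 γ l ih =>
    intro β
    rw [monomial_add_single, pow_one, map_mul, aeval_X, coeff_mul]
    exact sum_mem fun p _ => mul_mem (ih _) (hK _ _)

theorem sb_mem_EE_lin {U : Sc K σ} {U' : Sc K τ} {f : σ → MvPolynomial τ FF}
    (hf : ∀ l, (f l).IsHomogeneous 1) (hK : ∀ l β, coeff β (f l) ∈ K)
    (hU : ∀ γ β, γ.degree = β.degree → U.s γ ≤ U'.s β) {x : PS lv σ FF} (hx : x ∈ U.EE lv) :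
    sb f x ∈ U'.EE lv := by
  refine sb_mem_EE f (fun γ β t ht => ?_) hx
  by_cases e : β.degree = γ.degree
  · rw [mul_comm]; exact kmul_mem (hU γ β e.symm ht) (coeff_aeval_mem hK γ β)
  · have := (isHomogeneous_monomial (1 : FF) (d := γ) rfl).aeval f hf
    rw [one_mul] at this
    rw [this.coeff_eq_zero e, zero_mul]; exact zero_mem _

theorem ev_zero_sb {f : σ → MvPolynomial τ FF} (hf : ∀ l, (f l).IsHomogeneous 1)
    (x : PS lv σ FF) : ev 0 (sb f x) = ev 0 x := by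
  rw [ev_sb]
  congr 2
  ext l
  rw [eval_zero, constantCoeff_eq, (hf l).coeff_eq_zero (by simp)]
  rfl

theorem nrm_sb {f : σ → MvPolynomial τ FF} (hf : ∀ l, (f l).IsHomogeneous 1) (x : PS lv σ FF) :
    nrm (sb f x) = sb f (nrm x) := by
  rw [nrm, nrm, ev_zero_sb hf, map_mul, map_inv, sb_cst]

theorem cl_sb_zero [Finite σ] {S' T' : Sc K τ} (hs : Sep S T) (hs' : Sep S' T')
    {f : σ → MvPolynomial τ FF} (hf : ∀ l, (f l).IsHomogeneous 1)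
    (hK : ∀ l β, coeff β (f l) ∈ K) (hS : ∀ γ β, γ.degree = β.degree → S.s γ ≤ S'.s β)
    (hT : ∀ γ β, γ.degree = β.degree → T.s γ ≤ T'.s β) {x : PS lv σ FF} {ξ} {s : ℕ}
    (h : ∀ β : σ →₀ ℕ, β.degree = s → cl hs β x ξ = 0) {γ : τ →₀ ℕ} (hγ : γ.degree = s) :
    cl hs' γ (sb f x) ξ = 0 := by
  obtain ⟨k, -, ⟨e, he, y, hy, c, hc, E⟩, h3⟩ := exists_fam hs tp_zero (mem_tp.2 (ev_nrm x))
  have t : ∀ z ∈ (tp K lv σ).PG, sb f z ∈ (tp K lv τ).PG := fun z hz =>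
    mem_tp.2 ((ev_zero_sb hf z).trans (mem_tp.1 hz))
  let kc : Fam K lv ℕ := k.sm (fun d β => β.degree = d) fun j j' i i' a b => by rw [map_add, a, b]
  rw [← cl_nrm, nrm_sb hf]
  refine cl_zero hs' tp_zero (h := kc.fine τ) ⟨sb f e, ⟨t e he.1, sb_mem_EE_lin hf hK hS he.2⟩,
    sb f y, ⟨t y hy.1, sb_mem_lin (Fam.PG_mono (fun β => Fam.le_su k (p := fun i => i.degree = β.degree) rfl) hy.2) f hf⟩,
    sb f c, ⟨t c hc.1, sb_mem_EE_lin hf hK hT hc.2⟩, by rw [E, map_mul, map_mul]⟩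
    (Fam.su_kill fun β hβ => h3 β ξ ?_)
  rw [cl_nrm]; exact h β (hβ.trans hγ)

/-- Equal classes stay equal after a rational linear substitution. -/
theorem cl_sb [Finite σ] {S' T' : Sc K τ} (hs : Sep S T) (hs' : Sep S' T')
    {f : σ → MvPolynomial τ FF} (hf : ∀ l, (f l).IsHomogeneous 1)
    (hK : ∀ l β, coeff β (f l) ∈ K) (hS : ∀ γ β, γ.degree = β.degree → S.s γ ≤ S'.s β)
    (hT : ∀ γ β, γ.degree = β.degree → T.s γ ≤ T'.s β) {x : PS lv σ FF} {y : PS lv' σ FF} {ξ η}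
    {s : ℕ} (h : ∀ β : σ →₀ ℕ, β.degree = s → cl hs β x ξ = cl hs β y η) {γ : τ →₀ ℕ}
    (hγ : γ.degree = s) : cl hs' γ (sb f x) ξ = cl hs' γ (sb f y) η := by
  rw [← sub_eq_zero, ← cl_sub, ← sb_dg]
  exact cl_sb_zero hs hs' hf hK hS hT (fun β hβ => by rw [cl_sub, h β hβ, sub_self]) hγ

end Pool.Agent.P.MP_a14ce1_nt.Nil
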