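import Pool.Agent.P.MP_a14ce1_nt.Nil.TinyM
import Pool.Agent.P.MP_a14ce1_nt.Nil.BoxA
import Pool.Agent.P.MP_a14ce1_nt.Nil.Avg

/-!
Small and rational factors on cells.
-/

open Filter Finset MvPolynomial
open scoped BigOperators

set_option linter.unusedSectionVars false

noncomputable section

namespace Pool.Agent.P.MP_a14ce1_nt.Nil

variable {A S B S' E S'' : Type} [NS A S] [NS B S'] [NS E S'']
  {ι ι' : Type} [Fintype ι] [DecidableEq ι] [Fintype ι'] [DecidableEq ι'] {lv : ι → ℕ}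
  {lv' : ι' → ℕ} {σ τ : Type} {Q : HR} [Fact (2 ≤ Q)]

namespace CellP

/-- the monomial `u ^ β` -/
abbrev mn (u : σ → HR) (β : σ →₀ ℕ) : HR := β.prod fun l k => u l ^ k

theorem mn_mem {O : Subring HR} {u : σ → HR} (h : ∀ l, u l ∈ O) (β : σ →₀ ℕ) : mn u β ∈ O :=
  prod_mem fun l _ => pow_mem (h l) _

theorem mn_div {N : σ → HR} (hN : ∀ l, N l ≠ 0) (a : σ → HR) (β : σ →₀ ℕ) :
    mn a β = mn (fun l => a l / N l) β * mn N β := by
  rw [mn, mn, mn, ← Finsupp.prod_mul]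
  exact Finsupp.prod_congr fun l _ => by rw [← mul_pow, div_mul_cancel₀ _ (hN l)]

theorem mn_const (q : HR) (β : σ →₀ ℕ) : mn (fun _ => q) β = q ^ β.degree := by
  rw [mn, Finsupp.prod, prod_pow_eq_pow_sum, Finsupp.degree_apply]

theorem eval_mon (a : σ → HR) (β : σ →₀ ℕ) : eval a (monomial β (1 : HR)) = mn a β := by
  rw [eval_monomial, one_mul]

theorem ev_val (a : σ → HR) (X : Matrix ι ι (MvPolynomial σ HR)) :
    X.map (eval a) = ∑ γ ∈ supp X, mn a γ • co γ X := by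
  refine (map_lin_eq (aeval a).toLinearMap X).trans (sum_congr rfl fun γ _ => ?_)
  rw [← eval_mon]; rfl

/-- monomials respect congruences modulo an ideal of a subring -/
theorem mn_sub {O : Subring HR} {I : HR → Prop} (h0 : I 0) (hadd : ∀ x y, I x → I y → I (x + y))
    (hmul : ∀ x y, I x → y ∈ O → I (x * y)) {u v : σ → HR} (hu : ∀ l, u l ∈ O) (hv : ∀ l, v l ∈ O)
    (h : ∀ l, I (u l - v l)) (β : σ →₀ ℕ) : I (mn u β - mn v β) := by
  induction β using mono_ind with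
  | h0 => simpa [mn] using h0
  | h1 γ l ih =>
    have e : ∀ w : σ → HR, mn w (γ + Finsupp.single l 1) = mn w γ * w l := fun w => by
      rw [mn, Finsupp.prod_add_index' (by simp) (fun l a b => pow_add _ _ _),
        Finsupp.prod_single_index (by simp), pow_one]
    rw [e, e, show mn u γ * u l - mn v γ * v l =
      (mn u γ - mn v γ) * u l + (u l - v l) * mn v γ by ring]
    exact hadd _ _ (hmul _ _ ih (hu l)) (hmul _ _ (h l) (mn_mem hv γ))

theorem co_one (β : σ →₀ ℕ) {O : Subring HR} :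
    Ent (O : Set HR) (co β (1 : Matrix ι ι (MvPolynomial σ HR))) := by
  have : (1 : Matrix ι ι (MvPolynomial σ HR)) = (1 : Matrix ι ι HR).map C :=
    (Matrix.map_one _ (map_zero _) (map_one _)).symm
  rw [this, co_C]
  split_ifs
  exacts [entR_one, entR_zero]

theorem co_scale (q : HR) (X : Matrix ι ι (MvPolynomial σ HR)) (β : σ →₀ ℕ) :
    co β (X.map (aeval fun l => C q * MvPolynomial.X l : MvPolynomial σ HR →ₐ[HR] _).toLinearMap) =
      q ^ β.degree • co β X := by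
  classical
  have e : ∀ γ : σ →₀ ℕ, aeval (fun l => C q * MvPolynomial.X l : σ → MvPolynomial σ HR)
      (monomial γ (1 : HR)) = monomial γ (q ^ γ.degree) := fun γ => by
    rw [aeval_monomial, map_one, one_mul, monomial_eq]
    simp only [mul_pow, Finsupp.prod_mul]
    congr 1
    rw [Finsupp.prod, prod_pow_eq_pow_sum, Finsupp.degree_apply, map_pow]
  rw [co_map]
  simp only [AlgHom.toLinearMap_apply, e, coeff_monomial, ite_smul, zero_smul, sum_ite_eq']
  split_ifs with h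
  · rfl
  · rw [co_eq_zero h, smul_zero]

end CellP

open CellP

section cell
variable [Fintype σ] [DecidableEq σ]

theorem ev_OO {N : σ → HR} {e : PS lv σ HR} (he : e ∈ (Sm Q N).EE lv) {a : σ → HR}
    (ha : ∀ l, N l ≠ 0 ∧ a l / N l ∈ OO Q) : Ent (OO Q : Set HR) (ev a e).val := by
  refine entO_of_lg ?_
  rw [lg_ev]
  refine entR_sum fun γ _ i j => ?_
  rw [Matrix.smul_apply, smul_eq_mul, eval_mon, mn_div (fun l => (ha l).1), mul_assoc,
    mul_comm (mn N γ)]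
  exact mul_mem (mn_mem (fun l => (ha l).2) γ) (Sc.mem_EE.1 he γ i j)

theorem ev_tiny {N : σ → HR} {e : PS lv σ HR} (he : e ∈ (Sm Q N).EE lv) {a b : σ → HR}
    (ha : ∀ l, N l ≠ 0 ∧ a l / N l ∈ OO Q ∧ Tiny Q ((a l - b l) / N l)) :
    Ent {t | Tiny Q t} ((ev a e * (ev b e)⁻¹).val - 1) := by
  have hb : ∀ l, b l / N l ∈ OO Q := fun l => by
    have := sub_mem (ha l).2.1 (ha l).2.2.mem_OO
    rwa [← sub_div, sub_sub_cancel] at this
  refine entT_mul_inv (ev_OO he fun l => ⟨(ha l).1, hb l⟩) ?_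
  have e1 : (ev a e).val - (ev b e).val = (e.val - 1).map (eval a) - (e.val - 1).map (eval b) := by
    ext i j
    simp only [ev, UT.map_val, Matrix.sub_apply, Matrix.map_apply, map_sub, Matrix.one_apply]
    split_ifs <;> simp
  rw [e1, ev_val, ev_val, ← sum_sub_distrib]
  refine entT_sum fun γ _ i j => ?_
  rw [← sub_smul, Matrix.smul_apply, smul_eq_mul, mn_div (fun l => (ha l).1) a,
    mn_div (fun l => (ha l).1) b, ← sub_mul, mul_assoc, mul_comm (mn N γ)]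
  refine Tiny.mul ?_ (mem_EE_val.1 he γ i j)
  exact mn_sub (O := OO Q) (I := Tiny Q) tiny_zero (fun _ _ => Tiny.add) (fun _ _ => Tiny.mul)
    (fun l => (ha l).2.1) hb (fun l => by rw [← sub_div]; exact (ha l).2.2) γ

variable (Q) in
/-- `r` clears the denominators of the sequence `c` and of its inverse. -/
def Den (r : HR) (c : PS lv σ HR) : Prop := (r ∈ ZZ ∧ r ∈ OO Q ∧ r ≠ 0) ∧
  ∀ β, Ent (ZZ : Set HR) (r • co β c.val) ∧ Ent (ZZ : Set HR) (r • co β c⁻¹.val)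

theorem ent_RT_co {c : PS lv σ HR} (hc : c ∈ (Rt Q 1).EE lv) (β : σ →₀ ℕ) :
    Ent (RT Q : Set HR) (co β c.val) := by
  rw [← sub_add_cancel c.val 1, co_add]
  refine entR_add (fun i j => ?_) (co_one β)
  have : co β (c.val - 1) i j * β.prod (fun l k => (1 : σ → HR) l ^ k) ∈ RT Q :=
    mem_EE_val.1 hc β i j
  simpa [Finsupp.prod] using this

theorem exists_denS {c : PS lv σ HR} (hc : c ∈ (Rt Q 1).EE lv) : ∃ r, Den Q r c := by
  obtain ⟨b, b1, b2, b3, hb⟩ := common_den (Q := Q)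
    (J := (supp c.val × ι × ι) ⊕ (supp c⁻¹.val × ι × ι))
    (x := Sum.elim (fun z => co z.1 c.val z.2.1 z.2.2) fun z => co z.1 c⁻¹.val z.2.1 z.2.2)
    (by
      rintro (z | z)
      exacts [ent_RT_co hc _ _ _, ent_RT_co (inv_mem hc) _ _ _])
  refine ⟨b, ⟨b1, b2, b3.ne'⟩, fun β => ⟨?_, ?_⟩⟩
  · by_cases h : β ∈ supp c.val
    · exact fun i j => hb (Sum.inl (⟨β, h⟩, i, j))
    · rw [co_eq_zero h, smul_zero]; exact entR_zero
  · by_cases h : β ∈ supp c⁻¹.val
    · exact fun i j => hb (Sum.inr (⟨β, h⟩, i, j))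
    · rw [co_eq_zero h, smul_zero]; exact entR_zero

theorem Den.ev {r : HR} {c : PS lv σ HR} (h : Den Q r c) (a : σ → HZ) :
    Ent (ZZ : Set HR) (r • (ev (zv a) c).val) ∧ Ent (ZZ : Set HR) (r • (ev (zv a) c)⁻¹.val) := by
  have key : ∀ d : PS lv σ HR, (∀ β, Ent (ZZ : Set HR) (r • co β d.val)) →
      Ent (ZZ : Set HR) (r • (Nil.ev (zv a) d).val) := fun d hd => by
    rw [Nil.ev, UT.map_val, ev_val, smul_sum]
    refine entR_sum fun γ _ => ?_
    rw [smul_comm]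
    exact entR_smul (mn_mem (fun l => ci_mem (a l)) γ) (hd γ)
  rw [← map_inv]
  exact ⟨key c fun β => (h.2 β).1, key c⁻¹ fun β => (h.2 β).2⟩

theorem Den.lev {r : HR} {c : PS lv σ HR} (h : Den Q r c) {q : HR} {q' : HZ}
    (hq : ∃ z ∈ ZZ, ci q' = q * (r * r) * z) (a m : σ → HZ) :
    Lev q ((Nil.ev (zv a) c)⁻¹ * Nil.ev (zv (a + q' • m)) c) := by
  obtain ⟨z, hz, e⟩ := hq
  have h1 : ∀ γ, ∃ w ∈ ZZ, mn (zv (a + q' • m)) γ - mn (zv a) γ = ci q' * w :=
    mn_sub (O := ZZ) (I := fun t => ∃ w ∈ ZZ, t = ci q' * w) ⟨0, zero_mem _, by simp⟩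
      (by
        rintro _ _ ⟨w, hw, rfl⟩ ⟨w', hw', rfl⟩
        exact ⟨w + w', add_mem hw hw', by ring⟩)
      (by
        rintro _ y ⟨w, hw, rfl⟩ hy
        exact ⟨w * y, mul_mem hw hy, by ring⟩)
      (fun l => ci_mem _) (fun l => ci_mem _)
      fun l => ⟨ci (m l), ci_mem _, by simp [zv]⟩
  choose w hw hw' using h1
  have e1 : ((Nil.ev (zv a) c)⁻¹ * Nil.ev (zv (a + q' • m)) c).val - 1 =
      q • ((r • (Nil.ev (zv a) c)⁻¹.val) * ∑ γ ∈ supp c.val, (z * w γ) • (r • co γ c.val)) := by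
    have e2 : (Nil.ev (zv (a + q' • m)) c).val - (Nil.ev (zv a) c).val =
        (q * r) • ∑ γ ∈ supp c.val, (z * w γ) • (r • co γ c.val) := by
      rw [Nil.ev, Nil.ev, UT.map_val, UT.map_val, ev_val, ev_val, ← sum_sub_distrib, smul_sum]
      refine sum_congr rfl fun γ _ => ?_
      rw [← sub_smul, hw', e, smul_smul, smul_smul]
      congr 1
      ring
    rw [UT.mul_val, ← UT.inv_mul_val (Nil.ev (zv a) c), ← mul_sub, e2]
    simp only [smul_mul_assoc, mul_smul_comm, smul_smul]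
  intro i j
  rw [e1]
  exact ⟨_, entR_mul (h.ev a).2
    (entR_sum fun γ _ => entR_smul (mul_mem hz (hw γ)) (h.2 γ).1) i j, rfl⟩

/-- The progression `t ↦ a + q t`. -/
def pg (a : σ → HR) (q : HR) : PS lv σ HR →* PS lv σ HR := sb fun l => C (a l) + C q * X l

theorem ev_pg' (a : σ → HR) (q : HR) (m : σ → HR) (x : PS lv σ HR) :
    ev m (pg a q x) = ev (a + q • m) x := by
  rw [pg, ev_sb]
  congr 2
  ext l
  simp

theorem ev_pg (a : σ → HZ) (q : HZ) (m : σ → HZ) (x : PS lv σ HR) :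
    ev (zv m) (pg (zv a) (ci q) x) = ev (zv (a + q • m)) x := by
  rw [ev_pg']
  congr 2
  ext l
  simp [zv]

theorem pg_eq (a : σ → HR) (q : HR) (x : PS lv σ HR) :
    pg a q x = sb (fun l => C q * X l) (sh a x) := by
  rw [pg, sh, sb_sb]
  congr 2
  ext1 l
  simp [add_comm]

theorem pg_mem {g : Fam (KK Q) lv ℕ} {D} (hg : g.Fil D) {x : PS lv σ HR}
    (hx : x ∈ (g.fine σ).PG) (a : σ → HR) (q : HR) : pg a q x ∈ (g.fine σ).PG := by
  intro β
  rw [pg_eq, lg_sb, co_scale]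
  exact Submodule.smul_mem _ _ ((sh_mem hg hx a).1 β)

theorem Adm.pg {g : Fam (KK Q) lv ℕ} {n i η} (h : Adm g n i η) {D} (hg : g.Fil D) {x : PS lv σ HR}
    (hx : x ∈ (g.fine σ).PG) (a : σ → HR) (q : HR) {β : σ →₀ ℕ} (hβ : β.degree = i) :
    η (co β (lg (pg a q x))) = q ^ i * η (co β (lg x)) := by
  rw [pg_eq, lg_sb, co_scale, map_smul, h.sh hg hx a hβ, hβ, smul_eq_mul]

theorem Irr.pg {g : Fam (KK Q) lv ℕ} {D} (hg : g.Fil D) {n} {N w : σ → HR} {x : PS lv σ HR}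
    (hx : x ∈ (g.fine σ).PG) (h : Irr (Sm Q N) (Rt Q w) g n x) (a : σ → HR) {q : HR} (hq : q ≠ 0) :
    Irr (Sm Q fun l => N l / q) (Rt Q fun l => w l / q) g n (pg a q x) := by
  intro i η hη
  obtain ⟨β, hβ, h1⟩ := h i η hη
  refine ⟨β, hβ, fun h2 => h1 ?_⟩
  rw [hη.pg hg hx a q hβ] at h2
  obtain ⟨u, hu, v, hv, e⟩ := Submodule.mem_sup.1 h2
  have hq' : q ^ i ≠ 0 := pow_ne_zero _ hq
  have k : ∀ (u : HR) (N : σ → HR), u / q ^ i * mn N β = u * mn (fun l => N l / q) β := fun u N => by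
    rw [mn_div (N := fun _ => q) (fun _ => hq) N, mn_const, hβ]
    field_simp
  refine Submodule.mem_sup.2 ⟨u / q ^ i, ?_, v / q ^ i, ?_, ?_⟩
  · change u / q ^ i * mn N β ∈ OO Q
    rw [k]; exact hu
  · change v / q ^ i * mn w β ∈ RT Q
    rw [k]; exact hv
  · rw [← add_div, e, mul_div_cancel_left₀ _ hq']

/-- Cells, uniformly for a family. -/
theorem cell {g : Fam (KK Q) lv ℕ} {D} (hg : g.Fil D) {N : σ → HZ} (hN : Long Q N) {q r : HR}
    {p : A → Prop} (hp : IntP p) {Φ : A → UT lv HR → HC}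
    (hi : IntF fun z : A × UT lv HR => Φ z.1 z.2) {e y c : A → PS lv σ HR} (he : IntS e)
    (hy : IntS y) (hc : IntS c)
    (h : ∀ a, p a → Nice Q q g.GG (Φ a) ∧ e a ∈ (g.fine σ).PG ⊓ (Sm Q (zv N)).EE lv ∧
      y a ∈ (g.fine σ).PG ∧ c a ∈ (g.fine σ).PG ∧ Den Q r (c a)) {δ : HR} (hδ : Big Q δ) :
    ∃ (q' : HZ) (M : σ → HZ), 0 < q' ∧ ci q' ∈ OO Q ∧ Long Q M ∧ Sm Q (zv M) = Sm Q (zv N) ∧
      (∑ l, ci q' * ci (M l) / ci (N l)) ≤ |δ| ∧ ∀ a, p a → ∀ n0 m : σ → HZ, Mem n0 (box N) →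
        Mem m (box M) → nm (Φ a (ev (zv (n0 + q' • m)) (e a * y a * c a))
          - Φ a (ev (zv n0) (e a) * ev (zv (n0 + q' • m)) (y a) * ev (zv n0) (c a))) ≤ |δ| := by
  obtain ⟨q', q1, q2, q3⟩ : ∃ q' : HZ, 0 < q' ∧ ci q' ∈ OO Q ∧
      ∀ a, p a → ∃ z ∈ ZZ, ci q' = q * (r * r) * z := by
    by_cases h0 : ∃ a, p a
    · obtain ⟨a, ha⟩ := h0
      obtain ⟨⟨l1, l2, l3⟩, -⟩ := (h a ha).1
      obtain ⟨r1, r2, r3⟩ := (h a ha).2.2.2.2.1
      have k1 := mul_mem l1 (mul_mem r1 r1)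
      have k2 := mul_mem l2 (mul_mem r2 r2)
      have k3 := mul_ne_zero l3 (mul_ne_zero r3 r3)
      obtain ⟨t, ht⟩ := mem_ZZ.1 (mul_mem k1 k1)
      exact ⟨t, by rw [← ci_lt, map_zero, ht]; exact mul_self_pos.2 k3, ht ▸ mul_mem k2 k2,
        fun _ _ => ⟨_, k1, ht⟩⟩
    · exact ⟨1, one_pos, by rw [map_one]; exact one_mem _, fun a ha => absurd ⟨a, ha⟩ h0⟩
  have hN0 : ∀ l, 0 < ci (N l) := fun l => by rw [← map_zero ci, ci_lt]; exact (hN l).1
  have q0 : 0 < ci q' := by rwa [← map_zero ci, ci_lt]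
  obtain ⟨η, η1, η2, hη⟩ := modulus (Q := Q)
    (p := fun z : A × (σ → HZ) × (σ → HZ) => p z.1 ∧ Mem z.2.1 (box N))
    (f := fun z => ∑ l, ci q' * |ci (z.2.2 l)| / ci (N l))
    (g := fun z => nm (Φ z.1 (ev (zv (z.2.1 + q' • z.2.2)) (e z.1 * y z.1 * c z.1))
      - Φ z.1 (ev (zv z.2.1) (e z.1) * ev (zv (z.2.1 + q' • z.2.2)) (y z.1) * ev (zv z.2.1) (c z.1))))
    ((hp.comp (by fun_prop)).and (IntP.mem (by fun_prop) (by fun_prop))) (by fun_prop)
    (by
      have f1 : IntF fun z : A × (σ → HZ) × (σ → HZ) => z.1 := by fun_prop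
      have f2 : IntF fun z : A × (σ → HZ) × (σ → HZ) => zv z.2.1 := by fun_prop
      have f3 : IntF fun z : A × (σ → HZ) × (σ → HZ) => zv (z.2.1 + q' • z.2.2) := by fun_prop
      exact ((hi.comp (f1.prodMk ((((he.mul hy).mul hc).comp f1).ev f3))).sub (hi.comp (f1.prodMk
        ((((he.comp f1).ev f2).utmul ((hy.comp f1).ev f3)).utmul ((hc.comp f1).ev f2))))).nm)
    (by
      rintro ⟨a, n, m⟩ ⟨ha, hn⟩ ht
      obtain ⟨hF, ⟨e1, e2⟩, y1, c1, c2⟩ := h a ha
      have t1 : ∀ l, Tiny Q ((zv (n + q' • m) l - zv n l) / zv N l) := fun l => by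
        refine Tiny.of_le' ht ?_
        have : (zv (n + q' • m) l - zv n l) / zv N l = ci q' * ci (m l) / ci (N l) := by simp [zv]
        rw [this, abs_div, abs_mul, abs_of_pos q0, abs_of_pos (hN0 l)]
        exact single_le_sum (f := fun l => ci q' * |ci (m l)| / ci (N l))
          (fun l _ => by have := hN0 l; positivity) (mem_univ l)
      have t2 : ∀ l, zv n l / zv N l ∈ OO Q := fun l => by
        obtain ⟨n1, n2⟩ := mem_box.1 hn l
        refine OO_of_le_one ?_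
        rw [← ci_le, map_zero] at n1
        rw [zv, zv, abs_of_nonneg (div_nonneg n1 (hN0 l).le), div_le_one (hN0 l)]
        exact (ci_lt.2 n2).le
      have t3 := ev_tiny e2 (a := zv (n + q' • m)) (b := zv n) fun l => ⟨(hN0 l).ne', by
        have := add_mem (t1 l).mem_OO (t2 l)
        rwa [← add_div, sub_add_cancel] at this, t1 l⟩
      have t4 := c2.lev (q3 a ha) n m
      have m1 := fun u => ev_mem hg e1 u
      have m2 := fun u => ev_mem hg y1 u
      have m3 := fun u => ev_mem hg c1 u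
      have s1 := hF.per _ (mul_mem (inv_mem (m3 _)) (m3 _)) t4 _
        (mul_mem (mul_mem (m1 (zv (n + q' • m))) (m2 (zv (n + q' • m)))) (m3 (zv n)))
      have s2 := hF.cts _ (mul_mem (m1 _) (inv_mem (m1 _))) t3 _
        (mul_mem (mul_mem (m1 (zv n)) (m2 (zv (n + q' • m)))) (m3 (zv n)))
      rw [mul_assoc _ (ev (zv n) (c a)), mul_inv_cancel_left] at s1
      rw [← mul_assoc, ← mul_assoc, inv_mul_cancel_right] at s2
      simp only [map_mul]
      exact s1.trans s2) hδ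
  have hc0 : (0 : HR) < ci q' * (Fintype.card σ + 1) := by positivity
  have hm0 : 0 < min η |δ| := lt_min η2 (abs_pos.2 hδ.ne_zero)
  obtain ⟨M, M1, M2, M3, -⟩ := hN.exists_sub (η := min η |δ| / (ci q' * (Fintype.card σ + 1)))
    ((η1.min (big_abs.2 hδ)).div (mul_mem q2 (add_mem (natCast_mem _ _) (one_mem _))) hc0.ne')
  have key : (∑ l, ci q' * ci (M l) / ci (N l)) ≤ min η |δ| := by
    refine (sum_le_card_nsmul _ _ (min η |δ| / (Fintype.card σ + 1)) fun l _ => ?_).trans ?_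
    · have := (M2 l).1
      rw [abs_of_pos (div_pos hm0 hc0)] at this
      rw [div_le_iff₀ (hN0 l)]
      refine (mul_le_mul_of_nonneg_left this q0.le).trans (le_of_eq ?_)
      field_simp
    · rw [nsmul_eq_mul, card_univ, mul_div_assoc', div_le_iff₀ (by positivity)]
      nlinarith
  refine ⟨q', M, q1, q2, M1, M3, key.trans (min_le_right _ _), fun a ha n m hn hm => ?_⟩
  have := hη (a, n, m) ⟨ha, hn⟩ (by
    rw [abs_of_nonneg (sum_nonneg fun l _ => by have := hN0 l; positivity)]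
    refine le_trans (sum_le_sum fun l _ => ?_) (key.trans (min_le_left _ _))
    obtain ⟨n1, n2⟩ := mem_box.1 hm l
    rw [← ci_le, map_zero] at n1
    rw [abs_of_nonneg n1]
    have := hN0 l
    have := (ci_lt.2 n2).le
    gcongr)
  rwa [abs_nm] at this

/-- The sequence with prescribed coefficients of the logarithm. -/
def CellP.dec (lv : ι → ℕ) (s : Finset (σ →₀ ℕ)) (κ : s → Matrix ι ι HR) : PS lv σ HR :=
  ex lv (Matrix.of fun i j => if lv j < lv i + 1 then 0 else ∑ β : s, monomial β.1 (κ β i j))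

theorem CellP.dec_up (s : Finset (σ →₀ ℕ)) (κ : s → Matrix ι ι HR) :
    (Matrix.of fun i j => if lv j < lv i + 1 then 0 else ∑ β : s, monomial β.1 (κ β i j)) ∈
      mF (MvPolynomial σ HR) lv 1 := fun i j h => if_pos h

theorem CellP.intS_dec (s : Finset (σ →₀ ℕ)) {κ : A → s → Matrix ι ι HR} (hκ : IntF κ) :
    IntS fun a => dec lv s (κ a) := by
  refine IntS.ex (fun i j => ?_) fun a => dec_up s (κ a)
  by_cases h : lv j < lv i + 1
  · exact (IntY.const 0).congr fun a => if_pos h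
  · exact (IntY.sum (s := univ) fun β : s => (IntY.const (monomial β.1 1)).smul
      (IntF.ent ((intF_apply β).comp hκ) i j)).congr fun a => by
        rw [Matrix.of_apply, if_neg h]
        exact sum_congr rfl fun β _ => by rw [smul_monomial, smul_eq_mul, mul_one]

theorem CellP.exists_dec {s : Finset (σ →₀ ℕ)} {x : PS lv σ HR} (h : ∀ β ∉ s, co β (lg x) = 0) :
    ∃ κ, dec lv s κ = x := by
  refine ⟨fun β => co β (lg x), ?_⟩
  rw [dec]
  conv_rhs => rw [← ex_lg x]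
  congr 1
  ext i j β
  rw [Matrix.of_apply]
  split_ifs with hl
  · rw [lg_mem x i j hl]
  · rw [coeff_sum, sum_coe_sort s fun γ => coeff β (monomial γ (co γ (lg x) i j))]
    simp only [coeff_monomial, sum_ite_eq']
    split_ifs with hβ
    · rfl
    · exact (congrFun (congrFun (h β hβ) i) j).symm

theorem CellP.exists_dec_PG {K : Subfield HR} {g : Fam K lv (σ →₀ ℕ)} {D} (hD : g.Bd D) :
    ∃ s : Finset (σ →₀ ℕ), ∀ x ∈ g.PG, ∃ κ, dec lv s κ = x := by
  refine ⟨(Finsupp.finite_of_degree_le D).toFinset, fun x hx => exists_dec fun β hβ => ?_⟩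
  have := hx β
  rwa [hD β (by simpa using hβ), Submodule.mem_bot] at this

theorem Sig.den {r : A → HR} (hr : IntF r) {c : A → PS lv σ HR} (hc : IntS c) :
    Sig fun a => Den Q (r a) (c a) := by
  have key : ∀ {d : A → PS lv σ HR}, IntS d →
      IntP fun a => ∀ β, Ent (ZZ : Set HR) (r a • co β (d a).val) := fun {d} hd => by
    obtain ⟨s, hs⟩ := hd.supp
    refine (IntP.ball s.finite_toSet fun β => IntP.all fun i => IntP.all fun j =>
      IntP.memZZ ((hr.msmul (hd.int β)).ent i j)).congr fun a => ⟨fun h β _ => h β, fun h β => ?_⟩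
    by_cases hβ : β ∈ s
    · exact h β hβ
    · rw [hs a β hβ, smul_zero]; exact entR_zero
  exact (((IntP.memZZ hr).sig.and ((Sig.memOO hr).and (IntP.ne hr (IntF.const 0)).sig)).and
    ((key hc).and (key hc.inv)).sig).congr fun a => and_congr_right fun _ => forall_and

/-- Internal factors with a common denominator on a dense set. -/
theorem Dense.fac {T : Ns (Finset S)} {g h : Fam (KK Q) lv (σ →₀ ℕ)} {D} (hD : g.Bd D)
    {N : σ → HR} {x : A → PS lv σ HR} (hx : IntS x) {p : A → Prop}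
    (hd : Dense Q T fun a => p a ∧ Fac (Sm Q N) (Rt Q 1) g h (x a)) :
    ∃ (e y c : A → PS lv σ HR) (r : HR), IntS e ∧ IntS y ∧ IntS c ∧ Dense Q T fun a => p a ∧
      e a ∈ g.PG ⊓ (Sm Q N).EE lv ∧ y a ∈ g.PG ⊓ h.PG ∧ c a ∈ g.PG ⊓ (Rt Q 1).EE lv ∧
      Den Q r (c a) ∧ x a = e a * y a * c a := by
  obtain ⟨s, hs⟩ := exists_dec_PG hD
  let R : A → HR → (s → Matrix ι ι HR) × (s → Matrix ι ι HR) → Prop := fun a r k =>
    (dec lv s k.1 ∈ g.PG ∧ dec lv s k.1 ∈ (Sm Q N).EE lv) ∧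
      ((dec lv s k.1)⁻¹ * x a * (dec lv s k.2)⁻¹ ∈ g.PG ∧
        (dec lv s k.1)⁻¹ * x a * (dec lv s k.2)⁻¹ ∈ h.PG) ∧
      (dec lv s k.2 ∈ g.PG ∧ dec lv s k.2 ∈ (Rt Q 1).EE lv) ∧ Den Q r (dec lv s k.2)
  have hR : Sig fun z : (A × HR) × (s → Matrix ι ι HR) × (s → Matrix ι ι HR) =>
      R z.1.1 z.1.2 z.2 := by
    have i1 : IntS fun z : (A × HR) × (s → Matrix ι ι HR) × (s → Matrix ι ι HR) =>
      dec lv s z.2.1 := intS_dec s (by fun_prop)
    have i2 : IntS fun z : (A × HR) × (s → Matrix ι ι HR) × (s → Matrix ι ι HR) =>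
      dec lv s z.2.2 := intS_dec s (by fun_prop)
    have i3 := (i1.inv.mul (hx.comp (f := fun z : (A × HR) × (s → Matrix ι ι HR) ×
      (s → Matrix ι ι HR) => z.1.1) (by fun_prop))).mul i2.inv
    exact ((IntP.memPG g i1).sig.and (Sig.memSm N i1)).and
      (((IntP.memPG g i3).and (IntP.memPG h i3)).sig.and
        (((IntP.memPG g i2).sig.and (Sig.memRt 1 i2)).and (Sig.den (by fun_prop) i2)))
  obtain ⟨κ, -, H, hH, hb⟩ := pigeon (J := Unit) (p := p) (q := fun a κ => ∃ k, R a (κ ()) k)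
    ((Sig.ex (r := fun (z : A × HR) k => R z.1 z.2 k) hR).comp
      (f := fun z : A × (Unit → HR) => (z.1, z.2 ())) (by fun_prop))
    (hd.mono fun a _ ⟨ha, e, he, y, hy, c, hc, hx⟩ => by
      obtain ⟨r, hr⟩ := exists_denS hc.2
      obtain ⟨k1, rfl⟩ := hs e he.1
      obtain ⟨k2, rfl⟩ := hs c hc.1
      have : (dec lv s k1)⁻¹ * x a * (dec lv s k2)⁻¹ = y := by rw [hx]; group
      exact ⟨ha, fun _ => r, fun _ => KK_of_ZZ hr.1.1 hr.1.2.1, (k1, k2), he,
        by rw [this]; exact hy, hc, hr⟩)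
  obtain ⟨k, hk, hk'⟩ := Sig.choice' (p := fun a : A => Mem a H) (r := fun a k => R a (κ ()) k)
    (hR.comp (f := fun z : A × (s → Matrix ι ι HR) × (s → Matrix ι ι HR) => ((z.1, κ ()), z.2))
      (by fun_prop)) (IntP.mem IntF.id (IntF.const H)) 0 fun a ha => (hH a ha).2.2
  have i1 : IntS fun a => dec lv s (k a).1 := intS_dec s hk.fst
  have i2 : IntS fun a => dec lv s (k a).2 := intS_dec s hk.snd
  refine ⟨_, _, _, κ (), i1, (i1.inv.mul hx).mul i2.inv, i2, H, fun a ha => ?_, hb⟩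
  obtain ⟨r1, r2, r3, r4⟩ := hk' a ha
  exact ⟨(hH a ha).1, (hH a ha).2.1, r1, r2, r3, r4, by group⟩

end cell

end Pool.Agent.P.MP_a14ce1_nt.Nil
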