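import Pool.Agent.P.MP_a14ce1_nt.Nil.Lin3
import Pool.Agent.P.MP_a14ce1_nt.Nil.Avg

/-!
Approximate homomorphisms modulo bounded and rational vectors, internal version.
-/

open Filter Finset
open scoped BigOperators

set_option linter.unusedSectionVars false

noncomputable section

namespace Pool.Agent.P.MP_a14ce1_nt.Nil

variable {J : Type} [Fintype J] [DecidableEq J] [Fact (2 ≤ (2 : HR))]

theorem mulVec_st (M : ℕ → Matrix J J ℝ) (v : ℕ → J → ℝ) :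
    (st M : Matrix J J HR).mulVec (st v) = st fun n => (M n).mulVec (v n) := by
  funext j
  exact st_sum univ fun k n => M n j k * v n k

theorem two_pow_st (C : ℕ) : (2 : HR) ^ C = st fun _ => ((2 ^ C : ℕ) : ℝ) := by
  have : ((2 ^ C : ℕ) : HR) = st fun _ => ((2 ^ C : ℕ) : ℝ) := rfl
  rw [← this]; norm_num

theorem approxHomZ {N : HZ} (hN : 0 < N) {T : Ns (Finset ℤ)}
    (hT : ∀ h : HZ, Mem h T → -N ≤ h ∧ h ≤ N) (hTN : Big 2 (cd T / ci N)) (M : Matrix J J HR)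
    (hM : ∀ v, M.mulVec v = 0 → v = 0) {Z : HZ → J → HR} (hZ : IntF Z) (B : J → HR)
    {H : Ns (Finset ℤ)} (hH : ∀ h : HZ, Mem h H → Mem h T)
    (hd : Dense 2 (fprod T (fprod T T)) fun p : HZ × HZ × HZ =>
      (Mem p.1 H ∧ Mem p.2.1 H ∧ Mem p.2.2 H ∧ Mem (p.1 + p.2.1 - p.2.2) H) ∧ ∃ ρ : J → HZ,
        ∀ j, M.mulVec (Z p.1 + Z p.2.1 - Z p.2.2 - Z (p.1 + p.2.1 - p.2.2) - B - zv ρ) j ∈ OO 2) :
    ∃ (D : ℕ) (θ : Fin D → HR) (h₀ : HZ) (a₀ b₀ : J → HR) (b : Fin D → J → HR),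
      Dense 2 T fun h : HZ => Mem h H ∧ ∃ (m : Fin D → HZ) (ρ : J → HZ),
        (∀ j, θ j * ci (h - h₀) - ci (m j) ∈ OO 2) ∧
        ∀ j, M.mulVec (Z h - (a₀ + ci (h - h₀) • b₀ + ∑ l, ci (m l) • b l) - zv ρ) j ∈ OO 2 := by
  classical
  have hi : ∀ j, IntF fun z : (HZ × HZ × HZ) × (J → HZ) => M.mulVec (Z z.1.1 + Z z.1.2.1
      - Z z.1.2.2 - Z (z.1.1 + z.1.2.1 - z.1.2.2) - B - zv z.2) j := fun j => by
    simp only [Matrix.mulVec, dotProduct, Pi.sub_apply, Pi.add_apply]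
    fun_prop
  obtain ⟨C, T₃, h1, h2⟩ := Dense.any (q := fun (C : ℕ) (p : HZ × HZ × HZ) => ∃ ρ : J → HZ,
    ∀ j, |M.mulVec (Z p.1 + Z p.2.1 - Z p.2.2 - Z (p.1 + p.2.1 - p.2.2) - B - zv ρ) j| ≤ 2 ^ C)
    (fun C => (IntP.ex (IntP.all fun j => IntP.le (hi j).abs (IntF.const _))).sig)
    (hd.mono fun p _ ⟨a, ρ, h⟩ => ⟨a, by
      choose c hc using h
      exact ⟨univ.sup c, ρ, fun j => (hc j).trans (Q_pow_mono (le_sup (mem_univ j)))⟩⟩)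
  have N0 : (0 : HR) < ci N := by rw [← map_zero ci]; exact ci_lt.2 hN
  have T0 : cd T ≠ 0 := fun e => hTN.ne_zero (by rw [e, zero_div])
  have h3 : Big 2 (cd T₃ / ci N ^ 3) := by
    have := h2.mul (hTN.pow 3)
    rw [cd_fprod, cd_fprod] at this
    convert this using 1
    field_simp
  obtain ⟨C', h4⟩ := h3.exists_le
  rw [abs_of_nonneg (div_nonneg (cd_nonneg _) (pow_pos N0 3).le), le_div_iff₀ (pow_pos N0 3),
    two_pow_st] at h4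
  obtain ⟨D, c, hc, hA⟩ := approxHomR J (d := (((2 ^ C' : ℕ) : ℝ))⁻¹) (by positivity) (2 ^ C)
  obtain ⟨ζ, hζ⟩ := hZ
  obtain ⟨N, rfl⟩ := NS.surj N
  obtain ⟨T, rfl⟩ := NS.surj T
  obtain ⟨H, rfl⟩ := NS.surj H
  obtain ⟨T₃, rfl⟩ := NS.surj T₃
  obtain ⟨M, rfl⟩ := NS.surj M
  obtain ⟨B, rfl⟩ := NS.surj B
  have e1 : ∀ᶠ n in UU, 0 < N n := st_lt.1 hN
  have e2 : ∀ᶠ n in UU, ∀ h ∈ T n, -N n ≤ h ∧ h ≤ N n := ev_ball fun x hx =>
    (st_le.1 (hT (st x) (mem_st.2 hx)).1).and (st_le.1 (hT (st x) (mem_st.2 hx)).2)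
  have e3 : ∀ᶠ n in UU, H n ⊆ T n := subset_st hH
  have e4 : ∀ᶠ n in UU, ∀ v, (M n).mulVec v = 0 → v = 0 := ev_forall.2 fun v => by
    by_cases h : ∀ᶠ n in UU, (M n).mulVec (v n) = 0
    · have := hM (st v) (by rw [mulVec_st]; exact st_congr h)
      exact ((NS.eq_iff v fun _ => 0).1 this).mono fun n a _ => a
    · exact (ev_not.2 h).mono fun n a b => absurd b a
  have e5 : ∀ᶠ n in UU, (((2 ^ C' : ℕ) : ℝ))⁻¹ * (N n : ℝ) ^ 3 ≤ (T₃ n).card := st_le.1 h4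
  have e6 : ∀ᶠ n in UU, ∀ x ∈ T₃ n, (x.1 ∈ H n ∧ x.2.1 ∈ H n ∧ x.2.2 ∈ H n ∧
      x.1 + x.2.1 - x.2.2 ∈ H n) ∧ ∃ ρ : J → ℤ, ∀ j, |(M n).mulVec (ζ n x.1 + ζ n x.2.1
        - ζ n x.2.2 - ζ n (x.1 + x.2.1 - x.2.2) - B n - fun j => (ρ j : ℝ)) j| ≤ (2 ^ C : ℕ) :=
    ev_ball fun x hx => by
      obtain ⟨-, ⟨a1, a2, a3, a4⟩, ρ, a5⟩ := h1 (st x) (mem_st.2 hx)
      obtain ⟨ρ, rfl⟩ := NS.surj ρ
      refine ((mem_st.1 a1).and ((mem_st.1 a2).and ((mem_st.1 a3).and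
        ((mem_st (x := fun n => (x n).1 + (x n).2.1 - (x n).2.2)).1 a4)))).and
        (ev_exists.2 ⟨ρ, eventually_all.2 fun j => ?_⟩)
      have a6 := a5 j
      change |(st M : Matrix J J HR).mulVec (Z (st fun n => (x n).1) + Z (st fun n => (x n).2.1)
        - Z (st fun n => (x n).2.2) - Z (st fun n => (x n).1 + (x n).2.1 - (x n).2.2) - st B
        - zv (st ρ)) j| ≤ _ at a6
      rw [hζ, hζ, hζ, hζ, two_pow_st] at a6
      change |(st M : Matrix J J HR).mulVec (st fun n => ζ n (x n).1 + ζ n (x n).2.1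
        - ζ n (x n).2.2 - ζ n ((x n).1 + (x n).2.1 - (x n).2.2) - B n - fun j => (ρ n j : ℝ)) j|
        ≤ _ at a6
      rw [mulVec_st] at a6
      exact st_le.1 ((st_abs _).symm.trans_le a6)
  have e7 : ∀ᶠ n in UU, ∃ u : (Fin D → ℝ) × ℤ × (J → ℝ) × (J → ℝ) × (Fin D → J → ℝ) × Finset ℤ,
      u.2.2.2.2.2 ⊆ H n ∧ c * N n ≤ u.2.2.2.2.2.card ∧ ∀ h ∈ u.2.2.2.2.2,
        ∃ w : (Fin D → ℤ) × (J → ℤ), (∀ j, |u.1 j * ((h - u.2.1 : ℤ) : ℝ) - w.1 j| ≤ 1) ∧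
          ∀ j, |(M n).mulVec (ζ n h - (u.2.2.1 + ((h - u.2.1 : ℤ) : ℝ) • u.2.2.2.1
            + ∑ l, (w.1 l : ℝ) • u.2.2.2.2.1 l) - fun j => (w.2 j : ℝ)) j| ≤ Fintype.card J := by
    filter_upwards [e1, e2, e3, e4, e5, e6] with n e1 e2 e3 e4 e5 e6
    obtain ⟨k, hk⟩ := Int.eq_ofNat_of_zero_le e1.le
    rw [hk] at e1 e2 e5 ⊢
    obtain ⟨θ, h₀, a₀, b₀, b, H', a1, a2, a3⟩ := hA k (by omega) (M n) e4 (H n) (ζ n) (B n) (T₃ n)
      (fun h hh => mem_Icc.2 (e2 h (e3 hh))) (by exact_mod_cast e5) e6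
    exact ⟨(θ, h₀, a₀, b₀, b, H'), a1, by exact_mod_cast a2, fun h hh =>
      let ⟨m, ρ, a⟩ := a3 h hh; ⟨(m, ρ), a⟩⟩
  obtain ⟨u, hu⟩ := ev_exists.1 e7
  refine ⟨D, st fun n => (u n).1, st fun n => (u n).2.1, st fun n => (u n).2.2.1,
    st fun n => (u n).2.2.2.1, st fun n => (u n).2.2.2.2.1, st fun n => (u n).2.2.2.2.2,
    st_ind fun x hx => ?_, ?_⟩
  · have a1 := mem_st.1 hx
    have a2 : Mem (st x : HZ) (st H) := mem_st.2 ((a1.and hu).mono fun n a => a.2.1 a.1)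
    obtain ⟨w, hw⟩ := ev_exists.1 ((a1.and hu).mono fun n a => a.2.2.2 _ a.1)
    refine ⟨hH _ a2, a2, st fun n => (w n).1, st fun n => (w n).2, fun j => ?_, fun j => ?_⟩
    · refine OO_of_le_one ?_
      exact (st_abs _).trans_le (st_le.2 (hw.mono fun n a => a.1 j))
    · have a3 : (∑ l, ci ((st fun n => (w n).1 : Fin D → HZ) l) •
          (st fun n => (u n).2.2.2.2.1 : Fin D → J → HR) l)
          = st fun n => ∑ l, ((w n).1 l : ℝ) • (u n).2.2.2.2.1 l := by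
        funext i
        rw [Finset.sum_apply]
        refine (st_sum univ fun l n => ((w n).1 l : ℝ) * (u n).2.2.2.2.1 l i).trans ?_
        change (st _ : HR) = st _
        simp only [Finset.sum_apply, Pi.smul_apply, smul_eq_mul]
      rw [hζ, a3]
      change (st M : Matrix J J HR).mulVec (st fun n => ζ n (x n) - ((u n).2.2.1
        + ((x n - (u n).2.1 : ℤ) : ℝ) • (u n).2.2.2.1 + ∑ l, ((w n).1 l : ℝ) • (u n).2.2.2.2.1 l)
        - fun j => ((w n).2 j : ℝ)) j ∈ _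
      rw [mulVec_st]
      exact OO_of_abs_le (real_OO (Fintype.card J))
        ((st_abs _).trans_le (st_le.2 (hw.mono fun n a => a.2 j)))
  · have a1 : Big 2 (st fun _ => c / 3 : HR) :=
      big_iff.2 ⟨fun e => by
        have := ((NS.eq_iff (fun _ => c / 3) fun _ => 0).1 e).exists
        obtain ⟨_, h⟩ := this
        linarith, real_OO (c / 3)⁻¹⟩
    refine a1.mono (st_le.2 (Eventually.of_forall fun _ => by positivity)) ?_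
    rw [le_div_iff₀ (cd_pos T0), cd_st, cd_st]
    refine st_le.2 ?_
    filter_upwards [e1, e2, hu] with n e1 e2 hu
    have b1 := card_le_card (s := T n) (t := Icc (-N n) (N n)) fun h hh => mem_Icc.2 (e2 h hh)
    rw [Int.card_Icc] at b1
    have b2 : ((T n).card : ℤ) ≤ 3 * N n := by omega
    have b3 : ((T n).card : ℝ) ≤ 3 * N n := by exact_mod_cast b2
    calc c / 3 * (T n).card ≤ c / 3 * (3 * N n) := by gcongr
      _ = c * N n := by ring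
      _ ≤ _ := hu.2.1

theorem approxHomNs {N : HZ} (hN : 0 < N) {T : Ns (Finset ℤ)}
    (hT : ∀ h : HZ, Mem h T → -N ≤ h ∧ h ≤ N) (hTN : Big 2 (cd T / ci N))
    (M : (J → HR) →ₗ[HR] J → HR) (hM : ∀ v, M v = 0 → v = 0) {Z : HZ → J → HR} (hZ : IntF Z)
    (B : J → HR) {H : Ns (Finset ℤ)} (hH : ∀ h : HZ, Mem h H → Mem h T)
    (hd : Dense 2 (fprod T (fprod T T)) fun p : HZ × HZ × HZ =>
      (Mem p.1 H ∧ Mem p.2.1 H ∧ Mem p.2.2 H ∧ Mem (p.1 + p.2.1 - p.2.2) H) ∧ ∃ ρ : J → HR,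
        (∀ j, ρ j ∈ RT 2) ∧
        ∀ j, M (Z p.1 + Z p.2.1 - Z p.2.2 - Z (p.1 + p.2.1 - p.2.2) - B - ρ) j ∈ OO 2) :
    ∃ (D : ℕ) (θ : Fin D → HR) (h₀ : HZ) (a₀ b₀ : J → HR) (b : Fin D → J → HR),
      Dense 2 T fun h : HZ => Mem h H ∧ ∃ (m : Fin D → HZ) (ρ : J → HR),
        (∀ j, θ j * ci (h - h₀) - ci (m j) ∈ OO 2) ∧ (∀ j, ρ j ∈ RT 2) ∧
        ∀ j, M (Z h - (a₀ + ci (h - h₀) • b₀ + ∑ l, ci (m l) • b l) - ρ) j ∈ OO 2 := by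
  have hi : ∀ j, IntF fun z : ((HZ × HZ × HZ) × (Unit → HZ)) × (J → HZ) => M (Z z.1.1.1
      + Z z.1.1.2.1 - Z z.1.1.2.2 - Z (z.1.1.1 + z.1.1.2.1 - z.1.1.2.2) - B
      - (ci (z.1.2 ()))⁻¹ • zv z.2) j := fun j => by
    simp only [← LinearMap.toMatrix'_mulVec M, Matrix.mulVec, dotProduct, Pi.sub_apply,
      Pi.add_apply, Pi.smul_apply, smul_eq_mul]
    fun_prop
  obtain ⟨u, hu, d⟩ := pigeonZ (q := fun (p : HZ × HZ × HZ) (u : Unit → HZ) => ci (u ()) ≠ 0 ∧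
    ∃ ρ : J → HZ, ∀ j, M (Z p.1 + Z p.2.1 - Z p.2.2 - Z (p.1 + p.2.1 - p.2.2) - B
      - (ci (u ()))⁻¹ • zv ρ) j ∈ OO 2)
    ((IntP.ne (by fun_prop) (IntF.const _)).sig.and (Sig.ex (Sig.all fun j => Sig.memOO (hi j))))
    (hd.mono fun p _ ⟨a, ρ, h, h'⟩ => ⟨a, by
      obtain ⟨b, b1, b2, b3, b4⟩ := common_den h
      obtain ⟨b, rfl⟩ := mem_ZZ.1 b1
      choose z hz using fun j => mem_ZZ.1 (b4 j)
      refine ⟨fun _ => b, fun _ => b2, b3.ne', z, ?_⟩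
      have : (ci b)⁻¹ • zv z = ρ := funext fun j => by
        rw [Pi.smul_apply, zv, hz, smul_eq_mul, inv_mul_cancel_left₀ b3.ne']
      rwa [this]⟩)
  obtain ⟨_, -, -, q0, -⟩ := d.exists
  set q := ci (u ()) with hq
  have hM' : ∀ v, (LinearMap.toMatrix' (q⁻¹ • M)).mulVec v = M (q⁻¹ • v) := fun v => by
    rw [LinearMap.toMatrix'_mulVec, LinearMap.smul_apply, map_smul]
  obtain ⟨D, θ, h₀, a₀, b₀, b, d'⟩ := approxHomZ hN hT hTN (LinearMap.toMatrix' (q⁻¹ • M))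
    (fun v h => by
      rw [hM'] at h
      exact (smul_eq_zero.1 (hM _ h)).resolve_left (inv_ne_zero q0))
    (Z := fun h => q • Z h) (by fun_prop) (q • B) hH (d.mono fun p _ ⟨a, _, ρ, h⟩ => ⟨a, ρ, by
      simpa only [hM', smul_sub, smul_add, inv_smul_smul₀ q0] using h⟩)
  refine ⟨D, θ, h₀, q⁻¹ • a₀, q⁻¹ • b₀, fun l => q⁻¹ • b l, d'.mono fun h _ ⟨a, m, ρ, h1, h2⟩ =>
    ⟨a, m, q⁻¹ • zv ρ, h1, fun j => ⟨q, ci_mem _, hu (), q0, ?_⟩, ?_⟩⟩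
  · rw [Pi.smul_apply, smul_eq_mul, mul_inv_cancel_left₀ q0]; exact ci_mem _
  · simpa only [hM', smul_sub, smul_add, inv_smul_smul₀ q0, smul_sum, smul_comm q⁻¹] using h2

end Pool.Agent.P.MP_a14ce1_nt.Nil
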