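import Pool.Agent.P.MP_a14ce1_nt.Nil.Lin2
import Pool.Agent.P.MP_a14ce1_nt.Nil.Lin4
import Pool.Agent.P.MP_a14ce1_nt.Nil.PigF

/-!
Linearisation, last part: coordinates on an abelian quotient and the bracket linear form.
-/

open Filter Finset MvPolynomial
open scoped BigOperators

set_option linter.unusedSectionVars false

noncomputable section

namespace Pool.Agent.P.MP_a14ce1_nt.Nil

section alg

variable {FF : Type} [Field FF] [CharZero FF] {ι : Type} [Fintype ι] [DecidableEq ι]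
  {K : Subfield FF} {lv : ι → ℕ} {σ : Type}

/-- The coefficient as a linear map. -/
def coL (β : σ →₀ ℕ) : Matrix ι ι (MvPolynomial σ FF) →ₗ[FF] Matrix ι ι FF :=
  (lcoeff FF β).mapMatrix

theorem coL_apply (β : σ →₀ ℕ) (X : Matrix ι ι (MvPolynomial σ FF)) : coL β X = co β X := rfl

theorem smul_mem_pm {r : (σ →₀ ℕ) → Submodule FF (Matrix ι ι FF)} (c : FF)
    {X : Matrix ι ι (MvPolynomial σ FF)} (hX : X ∈ pm r) : c • X ∈ pm r := fun β => by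
  rw [← coL_apply, map_smul]; exact Submodule.smul_mem _ c (hX β)

theorem Fam.Ide.conj_pm {r m : Fam K lv (σ →₀ ℕ)} (i : r.Ide m) {y : PS lv σ FF} (hy : y ∈ r.PG)
    {X : Matrix ι ι (MvPolynomial σ FF)} (hX : X ∈ pm m.r) : y.val * X * y⁻¹.val ∈ pm m.r := by
  have h := i.conj hy (ex_mem_grp (𝔏 := m.lie) hX)
  change lg _ ∈ pm m.r at h
  rwa [lg_conj, lg_ex (m.lie.up hX)] at h

/-- Rational coordinates on the quotient of two families. -/
theorem exists_coord {n m : Fam K lv (σ →₀ ℕ)} (hle : m ≤ n) (s : Finset (σ →₀ ℕ))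
    (hs : ∀ β ∉ s, n.r β = ⊥) :
    ∃ (E : Matrix ι ι (MvPolynomial σ FF) →ₗ[FF] s × ι × ι → FF)
      (F : (s × ι × ι → FF) →ₗ[FF] Matrix ι ι (MvPolynomial σ FF)),
      (∀ v, F v ∈ pm n.r) ∧ (∀ X ∈ pm m.r, E X = 0) ∧ (∀ X ∈ pm n.r, F (E X) - X ∈ pm m.r) ∧
      (∀ (U : Sc K σ) X, (∀ β, Ent (U.s β : Set FF) (co β X)) → ∀ j, E X j ∈ U.s j.1) ∧
      (∀ (U : Sc K σ) v, (∀ j, v j ∈ U.s j.1) → ∀ β, Ent (U.s β : Set FF) (co β (F v))) ∧
      ∀ j, ∃ η : Matrix ι ι FF →ₗ[FF] FF, ∀ X, E X j = η (co j.1 X) := by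
  classical
  choose πn n1 n2 n3 using fun β => exists_proj (n.rat β)
  choose πm m1 m2 m3 using fun β => exists_proj (m.rat β)
  let mt : s → (s × ι × ι → FF) →ₗ[FF] Matrix ι ι FF := fun β =>
    { toFun := fun v => Matrix.of fun a b => v (β, a, b)
      map_add' := fun _ _ => rfl
      map_smul' := fun _ _ => rfl }
  let E : Matrix ι ι (MvPolynomial σ FF) →ₗ[FF] s × ι × ι → FF := LinearMap.pi fun j =>
    Matrix.entryLinearMap FF FF j.2.1 j.2.2 ∘ₗ (LinearMap.id - πm j.1) ∘ₗ coL j.1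
  let F : (s × ι × ι → FF) →ₗ[FF] Matrix ι ι (MvPolynomial σ FF) :=
    ∑ β : s, (monomial (β : σ →₀ ℕ)).mapMatrix ∘ₗ πn β ∘ₗ mt β
  have hE : ∀ X (β : s), mt β (E X) = co β X - πm β (co β X) := fun _ _ => rfl
  have hF0 : ∀ v γ, co γ (F v) = ∑ β : s, if (β : σ →₀ ℕ) = γ then πn β (mt β v) else 0 :=
    fun v γ => by
      rw [← coL_apply, LinearMap.sum_apply, map_sum]
      refine sum_congr rfl fun β _ => ?_
      ext a b
      change coeff γ (monomial β (πn β (mt β v) a b)) = _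
      rw [coeff_monomial]
      split_ifs <;> rfl
  have hF : ∀ v (β : s), co β (F v) = πn β (mt β v) := fun v β => by
    rw [hF0, sum_eq_single β (fun b _ h => if_neg fun e => h (Subtype.ext e))
      (fun h => absurd (mem_univ _) h), if_pos rfl]
  have hF' : ∀ v, ∀ β ∉ s, co β (F v) = 0 := fun v β h => by
    rw [hF0]; exact sum_eq_zero fun b _ => if_neg fun e : b.1 = β => h (e ▸ b.2)
  refine ⟨E, F, fun v β => ?_, fun X hX => funext fun j => ?_, fun X hX β => ?_,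
    fun U X hX j => ?_, fun U v hv β => ?_, fun j => ⟨Matrix.entryLinearMap FF FF j.2.1 j.2.2 ∘ₗ
      (LinearMap.id - πm j.1), fun _ => rfl⟩⟩
  · by_cases h : β ∈ s
    · exact hF v ⟨β, h⟩ ▸ n2 _ _
    · rw [hF' v β h]; exact zero_mem _
  · change (co j.1 X - πm j.1 (co j.1 X)) j.2.1 j.2.2 = 0
    rw [m3 _ _ (hX _), sub_self]; rfl
  · rw [co_sub]
    by_cases h : β ∈ s
    · rw [hF _ ⟨β, h⟩, hE, n3 _ _ (sub_mem (hX _) (hle _ (m2 _ _))), sub_sub_cancel_left]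
      exact neg_mem (m2 _ _)
    · have := hX β
      rw [hs β h, Submodule.mem_bot] at this
      rw [hF' _ β h, this, sub_self]; exact zero_mem _
  · exact ((hX j.1).sub ((m1 j.1).ent (hX j.1))) j.2.1 j.2.2
  · by_cases h : β ∈ s
    · rw [hF v ⟨β, h⟩]; exact (n1 β).ent fun a b => hv (⟨β, h⟩, a, b)
    · rw [hF' v β h]; exact Ent.zero _

/-- From the additive relation to the group relation. -/
theorem rel_of_add {S T : Sc K σ} {r n m : Fam K lv (σ →₀ ℕ)} (i : r.Ide n) (hle : m ≤ n)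
    (hbr : ∀ a b, ∀ X ∈ n.r a, ∀ Y ∈ n.r b, X * Y - Y * X ∈ m.r (a + b)) {y z : PS lv σ FF}
    (hy : y ∈ r.PG) (hz : z ∈ n.PG) {A₀ A e c : Matrix ι ι (MvPolynomial σ FF)}
    (h0 : A₀ ∈ pm n.r) (h1 : A ∈ pm n.r) (h2 : e ∈ pm n.r) (h3 : c ∈ pm n.r)
    (he : ∀ β, Ent (S.s β : Set FF) (co β e)) (hc : ∀ β, Ent (T.s β : Set FF) (co β c))
    (h : lg z - (A₀ + A + c + y⁻¹.val * e * y.val) ∈ pm m.r) :
    Rel S T r m (y * ex lv A₀ * ex lv A) (y * z) := by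
  have g0 : ex lv A₀ ∈ n.PG := ex_mem_grp h0
  have g1 : ex lv A ∈ n.PG := ex_mem_grp h1
  have g2 : ex lv e ∈ n.PG := ex_mem_grp h2
  have g3 : ex lv c ∈ n.PG := ex_mem_grp h3
  have add := fun {u v} => lg_mul_mod (u := u) (v := v) hle hbr
  refine ⟨ex lv e, ⟨Fam.PG_mono i.le g2, Sc.mem_EE.2 (by rwa [lg_ex (n.lie.up h2)])⟩,
    (ex lv A)⁻¹ * ((ex lv A₀)⁻¹ * ((y⁻¹ * ex lv e * y)⁻¹ * (z * (ex lv c)⁻¹))), ?_, ex lv c,
    ⟨Fam.PG_mono i.le g3, Sc.mem_EE.2 (by rwa [lg_ex (n.lie.up h3)])⟩, by group⟩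
  have m1 := mul_mem hz (inv_mem g3)
  have m2 := inv_mem (i.conj' hy g2)
  have m3 := mul_mem m2 m1
  have m4 := mul_mem (inv_mem g0) m3
  have e2 : lg (y⁻¹ * ex lv e * y) = y⁻¹.val * e * y.val := by
    simpa only [inv_inv, lg_ex (n.lie.up h2)] using lg_conj y⁻¹ (ex lv e)
  change lg _ ∈ pm m.r
  convert add_mem (add_mem (add_mem (add_mem (add (inv_mem g1) m4) (add (inv_mem g0) m3))
    (add m2 m1)) (add hz (inv_mem g3))) h using 1
  rw [lg_inv, lg_inv, lg_inv, lg_inv, e2, lg_ex (n.lie.up h0), lg_ex (n.lie.up h1),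
    lg_ex (n.lie.up h3)]
  abel

end alg

variable {ι : Type} [Fintype ι] [DecidableEq ι] {lv : ι → ℕ} {σ : Type} [Fact (2 ≤ (2 : HR))]

theorem mem_Rt_one {β : σ →₀ ℕ} {x : HR} : x ∈ (Rt 2 (1 : σ → HR)).s β ↔ x ∈ RT 2 := by
  change x * β.prod (fun l k => (1 : σ → HR) l ^ k) ∈ RT 2 ↔ _
  simp [Finsupp.prod]

theorem lin_step4 [Finite σ] {N : HZ} (hN : 0 < N) {T : Ns (Finset ℤ)}
    (hT : ∀ h : HZ, Mem h T → -N ≤ h ∧ h ≤ N) (hTN : Big 2 (cd T / ci N)) {w : σ → HR}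
    (hw : ∀ l, w l ≠ 0) {r n m : Fam (KK 2) lv (σ →₀ ℕ)} {D : ℕ} (hD : n.Bd D) (i : r.Ide n)
    (i' : r.Ide m) (hle : m ≤ n)
    (hbr : ∀ a b, ∀ X ∈ n.r a, ∀ Y ∈ n.r b, X * Y - Y * X ∈ m.r (a + b)) {y : PS lv σ HR}
    (hy : y ∈ r.PG) {B : Matrix ι ι (MvPolynomial σ HR)} {z : HZ → PS lv σ HR} (hz : IntS z)
    {H : Ns (Finset ℤ)} (hH : ∀ h : HZ, Mem h H → Mem h T) (hn : ∀ h : HZ, Mem h H → z h ∈ n.PG)
    (hd : Dense 2 (fprod T (fprod T T)) fun p : HZ × HZ × HZ =>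
      (Mem p.1 H ∧ Mem p.2.1 H ∧ Mem p.2.2 H ∧ Mem (p.1 + p.2.1 - p.2.2) H) ∧
        QuadL (Sm 2 w) (Rt 2 1) n m y B ![z p.1, z p.2.1, z p.2.2, z (p.1 + p.2.1 - p.2.2)]) :
    ∃ (D' : ℕ) (θ : Fin D' → HR) (h₀ : HZ), ∃ y' ∈ r.PG, ∃ B₀ ∈ pm n.r,
      ∃ b : Fin D' → Matrix ι ι (MvPolynomial σ HR), (∀ l, b l ∈ pm n.r) ∧
      Dense 2 T fun h : HZ => Mem h H ∧ ∃ k : Fin D' → HZ,
        (∀ j, θ j * ci (h - h₀) - ci (k j) ∈ OO 2) ∧ Rel (Sm 2 w) (Rt 2 1) r m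
          (y' * ex lv (ci (h - h₀) • B₀ + ∑ j, ci (k j) • b j)) (y * z h) := by
  classical
  obtain ⟨E, F, c1, c2, c3, c4, c5, c6⟩ := exists_coord hle (upTo σ D) hD.bot
  let u : Matrix ι ι (MvPolynomial σ HR) →ₗ[HR] Matrix ι ι (MvPolynomial σ HR) :=
    LinearMap.mulRight HR y⁻¹.val ∘ₗ LinearMap.mulLeft HR y.val
  have hu : ∀ X, u X = y.val * X * y⁻¹.val := fun _ => rfl
  have hu' : ∀ X, y⁻¹.val * u X * y.val = X := fun X => by
    rw [hu, ← mul_assoc, ← mul_assoc, UT.inv_mul_val, one_mul, mul_assoc, UT.inv_mul_val, mul_one]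
  have hu'' : ∀ X, u (y⁻¹.val * X * y.val) = X := fun X => by
    rw [hu, ← mul_assoc, ← mul_assoc, UT.mul_inv_val, one_mul, mul_assoc, UT.mul_inv_val, mul_one]
  have un : ∀ X ∈ pm n.r, u X ∈ pm n.r := fun X => i.conj_pm hy
  have um : ∀ X ∈ pm m.r, u X ∈ pm m.r := fun X => i'.conj_pm hy
  have um' : ∀ X ∈ pm m.r, y⁻¹.val * X * y.val ∈ pm m.r := fun X hX => by
    simpa only [inv_inv] using i'.conj_pm (inv_mem hy) hX
  have un' : ∀ X ∈ pm n.r, y⁻¹.val * X * y.val ∈ pm n.r := fun X hX => by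
    simpa only [inv_inv] using i.conj_pm (inv_mem hy) hX
  let M₀ := LinearMap.id - E ∘ₗ F + E ∘ₗ u ∘ₗ F
  have hM₀ : ∀ v, M₀ v = v - E (F v) + E (u (F v)) := fun _ => rfl
  have k1 : ∀ v, F (M₀ v) - u (F v) ∈ pm m.r := fun v => by
    rw [hM₀, map_add, map_sub]
    convert sub_mem (c3 _ (un _ (c1 v))) (c3 _ (c1 v)) using 1
    abel
  have k2 : ∀ Y ∈ pm n.r, M₀ (E Y) = E (u Y) := fun Y hY => by
    have a1 := c2 _ (c3 Y hY)
    have a2 := c2 _ (um _ (c3 Y hY))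
    rw [map_sub, sub_eq_zero] at a1
    rw [map_sub, map_sub, sub_eq_zero] at a2
    rw [hM₀, a1, a2, sub_self, zero_add]
  let wt : upTo σ D × ι × ι → HR := fun j => j.1.1.prod fun l k => w l ^ k
  have wt0 : ∀ j, wt j ≠ 0 := fun j => prod_ne_zero_iff.2 fun l _ => pow_ne_zero _ (hw l)
  let M := (Matrix.diagonal wt).mulVecLin ∘ₗ M₀
  have hM : ∀ v j, M v j = M₀ v j * wt j := fun v j => by
    change (Matrix.diagonal wt).mulVec (M₀ v) j = _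
    rw [Matrix.mulVec_diagonal, mul_comm]
  obtain ⟨D', θ, h₀, a₀, b₀, b, d⟩ := approxHomNs hN hT hTN M (fun v h => by
      have a0 : M₀ v = 0 := funext fun j =>
        (mul_eq_zero.1 ((hM v j).symm.trans (congrFun h j))).resolve_right (wt0 j)
      have a1 := k1 v
      rw [a0, map_zero, zero_sub, neg_mem_iff] at a1
      have a2 := um' _ a1
      rw [hu'] at a2
      rwa [hM₀, c2 _ a1, c2 _ a2, sub_zero, add_zero] at a0)
    (Z := fun h => E (lg (z h))) (IntF.pi fun j => by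
      obtain ⟨η, hη⟩ := c6 j
      exact (IntF.lin η (hz.co_lg j.1)).congr fun a => hη _) (E B) hH
    (hd.mono fun p _ ⟨a, e, he, c, _, se, sc, h⟩ => ⟨a, E c, fun j => mem_Rt_one.1 (c4 _ c sc j),
      fun j => by
        have a1 := c2 _ h
        simp only [Matrix.cons_val, map_sub, map_add] at a1
        have a2 : E (lg (z p.1)) + E (lg (z p.2.1)) - E (lg (z p.2.2))
            - E (lg (z (p.1 + p.2.1 - p.2.2))) - E B - E c = E (y⁻¹.val * e * y.val) := by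
          rw [← sub_eq_zero, ← a1]; abel
        rw [a2, hM, k2 _ (un' e he), hu'']
        exact c4 _ e se j⟩)
  refine ⟨D', θ, h₀, y * ex lv (F a₀), mul_mem hy (Fam.PG_mono i.le (ex_mem_grp (c1 a₀))), F b₀,
    c1 _, fun l => F (b l), fun l => c1 _, d.mono fun h _ ⟨a, k, ρ, a1, a2, a3⟩ => ⟨a, k, a1, ?_⟩⟩
  set v := E (lg (z h)) - (a₀ + ci (h - h₀) • b₀ + ∑ l, ci (k l) • b l) - ρ with hv
  refine rel_of_add i hle hbr hy (hn h a) (c1 _)
    (add_mem (smul_mem_pm _ (c1 _)) (sum_mem fun l _ => smul_mem_pm _ (c1 _))) (c1 (M₀ v)) (c1 ρ)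
    (c5 _ _ fun j => ?_) (c5 _ _ fun j => mem_Rt_one.2 (a2 j)) ?_
  · have := a3 j
    rwa [hM] at this
  · have a4 := um' _ (k1 v)
    rw [mul_sub, sub_mul, hu'] at a4
    have a5 : F v = F (E (lg (z h))) - (F a₀ + ci (h - h₀) • F b₀ + ∑ l, ci (k l) • F (b l))
        - F ρ := by simp only [hv, map_sub, map_add, map_smul, map_sum]
    rw [a5] at a4
    convert neg_mem (add_mem a4 (c3 _ (hn h a))) using 1
    abel

end Pool.Agent.P.MP_a14ce1_nt.Nil
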