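import Pool.Agent.P.MP_a14ce1_nt.Nil.Leib
import Pool.Agent.P.MP_a14ce1_nt.Nil.Cell

/-!
Consequences of the equidistribution theorem: a large mean forces a factorisation that kills the
frequency, and all irrational sequences have the same mean.
-/

open Filter Finset MvPolynomial
open scoped BigOperators

set_option linter.unusedSectionVars false

noncomputable section

namespace Pool.Agent.P.MP_a14ce1_nt.Nil

variable {A S B S' : Type} [NS A S] [NS B S'] {ι : Type} [Fintype ι] [DecidableEq ι] {lv : ι → ℕ}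
  {σ τ : Type} {Q : HR} [Fact (2 ≤ Q)]

namespace Key

theorem nm0 (z : HC) : 0 ≤ nm z :=
  st_ind (p := fun z : HC => 0 ≤ nm z)
    (fun x => st_le.2 (Eventually.of_forall fun n => norm_nonneg (x n))) z

theorem nm_tri (a b c : HC) : nm (a - c) ≤ nm (a - b) + nm (b - c) := by
  induction a using st_ind
  induction b using st_ind
  induction c using st_ind
  exact st_le.2 (Eventually.of_forall fun n => norm_sub_le_norm_sub_add_norm_sub _ _ _)

theorem nm_rev (a b : HC) : nm (a - b) = nm (b - a) := by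
  induction a using st_ind
  induction b using st_ind
  exact st_congr (Eventually.of_forall fun n => norm_sub_rev _ _)

theorem nm_mul' (a b : HC) : nm (a * b) = nm a * nm b := by
  induction a using st_ind
  induction b using st_ind
  exact st_congr (Eventually.of_forall fun n => norm_mul _ _)

theorem nm_cr' (t : HR) : nm (cr t) = |t| := by
  induction t using st_ind
  rw [st_abs]
  exact st_congr (Eventually.of_forall fun n => Complex.norm_real _)

theorem Ex_sub' (T : Ns (Finset S)) {f g : A → HC} (hf : IntF f) (hg : IntF g) :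
    (Ex T fun a => f a - g a) = Ex T f - Ex T g := by
  obtain ⟨φ, h⟩ := hf
  obtain ⟨ψ, h'⟩ := hg
  induction T using st_ind
  rw [Ex_st _ h, Ex_st _ h', Ex_st (φ := fun n s => φ n s - ψ n s) _ fun x => by rw [h, h']; rfl]
  exact st_congr (Eventually.of_forall fun n => expect_sub_distrib _ _ _)

theorem Ex_mul' (T : Ns (Finset S)) (c : HC) {f : A → HC} (hf : IntF f) :
    (Ex T fun a => c * f a) = c * Ex T f := by
  obtain ⟨φ, h⟩ := hf
  induction T using st_ind
  induction c using st_ind with | _ c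
  rw [Ex_st _ h, Ex_st (φ := fun n s => c n * φ n s) _ fun x => by rw [h]; rfl]
  exact st_congr (Eventually.of_forall fun n => (mul_expect _ _ _).symm)

theorem Ex_const' {T : Ns (Finset S)} {a : A} (ha : Mem a T) (c : HC) :
    (Ex T fun _ : A => c) = c := by
  induction T using st_ind
  induction a using st_ind
  induction c using st_ind with | _ c
  rw [Ex_st (φ := fun n _ => c n) _ fun x => rfl]
  exact st_congr ((mem_st.1 ha).mono fun n hn => expect_const ⟨_, hn⟩ _)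

theorem nm_Ex_sub {T : Ns (Finset S)} {f g : A → HC} (hf : IntF f) (hg : IntF g) {c : HR}
    (hc : 0 ≤ c) (h : ∀ a, Mem a T → nm (f a - g a) ≤ c) : nm (Ex T f - Ex T g) ≤ c := by
  rw [← Ex_sub' T hf hg]
  exact nm_Ex_le (hf.sub hg) hc h

theorem le_of_tiny {z : HC} (h : TinyC Q z) {δ : HR} (hδ : Big Q δ) : nm z ≤ |δ| :=
  (le_abs_self _).trans (tiny_iff_le.1 h δ hδ)

theorem nat_OO (k : ℕ) : (k : HR) ∈ OO Q := natCast_mem _ k

/-- A number below `k δ` for all big `δ` is tiny. -/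
theorem tiny_of_le {z : HC} (k : ℕ) (h : ∀ δ, Big Q δ → nm z ≤ k * |δ|) : TinyC Q z := by
  by_contra hc
  have hb : Big Q (nm z) := not_not.1 hc
  have hk : (0 : HR) < (k : HR) + 1 := by positivity
  have h1 : Big Q (nm z / (k + 1)) := by
    refine Big.of_mul (y := (k : HR) + 1) ?_ (add_mem (nat_OO k) (one_mem _))
    rwa [div_mul_cancel₀ _ hk.ne']
  have h2 := h _ h1
  have h0 : 0 < nm z := (nm0 z).lt_of_ne' (big_iff.1 hb).1
  rw [abs_of_pos (div_pos h0 hk), ← mul_div_assoc, le_div_iff₀ hk] at h2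
  linarith

theorem irr_of_le {K : Subfield HR} {T T' : Sc K σ} {g : Fam K lv ℕ}
    {n n' : Submodule HR (Matrix ι ι HR)} {x : PS lv σ HR} (hi : Irr T T' g n x)
    (h : ∀ i, g.r i ⊓ n ≤ n') : Irr T T' g n' x := fun i η ha =>
  hi i η ⟨ha.pos, ha.rat, ha.ne, ha.nxt, ha.br, fun X hX => ha.idl X ⟨hX.1, h i hX⟩⟩

theorem idl_ker {I : Type} [AddCommMonoid I] {K : Subfield HR} {g : Fam K lv I} {U ξ}
    (hc : Cen g U ξ) : g.Idl (U ⊓ LinearMap.ker ξ) :=
  ⟨hc.idl.rat.inf hc.rat.ker, inf_le_left.trans hc.idl.le,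
    fun X hX Y hY => ⟨hc.idl.br X hX Y hY.1, hc.cen X hX Y hY.1⟩⟩

theorem ci_pos {z : HZ} (h : 0 < z) : 0 < ci z := by
  induction z using st_ind
  exact st_lt.2 ((st_lt.1 h).mono fun n hn => Int.cast_pos.2 hn)

theorem ci_le {a b : HZ} (h : a ≤ b) : ci a ≤ ci b := by
  induction a using st_ind
  induction b using st_ind
  exact st_le.2 ((st_le.1 h).mono fun n hn => Int.cast_le.2 hn)

theorem ci_ne {z : HZ} (h : z ≠ 0) : ci z ≠ 0 := by
  rcases lt_or_gt_of_ne h with h | h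
  · have := ci_pos (neg_pos.2 h)
    rw [map_neg] at this
    exact (neg_pos.1 this).ne
  · exact (ci_pos h).ne'

theorem ci_KK {z : HZ} (h : ci z ∈ OO Q) : ci z ∈ KK Q :=
  ⟨h, 1, one_mem _, one_mem _, one_ne_zero, by rw [one_mul]; exact ci_mem z⟩

variable [Fintype σ] [DecidableEq σ]

theorem zero_box {N : σ → HZ} (hN : Long Q N) : Mem (0 : σ → HZ) (box N) :=
  mem_box.2 fun l => ⟨le_rfl, (hN l).1⟩

theorem box_OO {N a : σ → HZ} (hN : Long Q N) (ha : Mem a (box N)) (l : σ) :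
    zv N l ≠ 0 ∧ zv a l / zv N l ∈ OO Q := by
  have h0 := ci_pos (hN l).1
  have h1 := ci_le (mem_box.1 ha l).1
  have h2 := ci_le (mem_box.1 ha l).2.le
  rw [map_zero] at h1
  refine ⟨h0.ne', 0, ?_⟩
  rw [pow_zero]
  change |ci (a l) / ci (N l)| ≤ 1
  rw [abs_of_nonneg (div_nonneg h1 h0.le), div_le_one h0]
  exact h2

/-- Irrationality passes to progressions on comparable boxes. -/
theorem irr_pg {g : Fam (KK Q) lv ℕ} {D} (hg : g.Fil D) {n} {N M : σ → HZ} (hN : Long Q N)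
    (hM : Sm Q (zv M) = Sm Q (zv N)) {x : PS lv σ HR} (hx : x ∈ (g.fine σ).PG)
    (h : Irr (Sm Q (zv N)) (Rt Q 1) g n x) (a : σ → HR) {q : HZ} (hq : 0 < q)
    (hO : ci q ∈ OO Q) : Irr (Sm Q (zv M)) (Rt Q 1) g n (pg a (ci q) x) := by
  have h0 := (ci_pos hq).ne'
  have hK : (ci q)⁻¹ ∈ KK Q := inv_mem (ci_KK hO)
  have e1 : (Sm Q fun l => zv N l / ci q) = Sm Q (zv N) := Sm_congr fun l => by
    have : zv N l ≠ 0 := (ci_pos (hN l).1).ne'
    rw [show zv N l / ci q / zv N l = (ci q)⁻¹ by field_simp]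
    exact ⟨big_of_KK hK (inv_ne_zero h0), KK_le_OO _ hK⟩
  have e2 : (Rt Q fun l : σ => (1 : σ → HR) l / ci q) = Rt Q 1 := Rt_congr fun l => by
    simp only [Pi.one_apply, div_one, one_div]
    exact ⟨one_ne_zero, hK, inv_ne_zero h0⟩
  have := h.pg hg hx a h0
  rwa [e1, e2, ← hM] at this

theorem pg_mem {g : Fam (KK Q) lv ℕ} {D} (hg : g.Fil D) {x : PS lv σ HR} (hx : x ∈ (g.fine σ).PG)
    (a : σ → HR) (q : HR) : pg a q x ∈ (g.fine σ).PG :=
  sb_mem hg hx _ fun l => (totalDegree_add _ _).trans (max_le (by simp)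
    ((totalDegree_mul _ _).trans (by simp)))

end Key

open Key

section cell
variable [Fintype σ] [DecidableEq σ]

/-- Reduction to the middle factor. -/
theorem tiny_of_cells {g : Fam (KK Q) lv ℕ} {D} (hg : g.Fil D) {q F} (hF : Nice Q q g.GG F)
    {N : σ → HZ} (hN : Long Q N) {e y c : PS lv σ HR}
    (he : e ∈ (g.fine σ).PG ⊓ (Sm Q (zv N)).EE lv) (hy : y ∈ (g.fine σ).PG)
    (hc : c ∈ (g.fine σ).PG ⊓ (Rt Q 1).EE lv)
    (h : ∀ (a b : UT lv HR) (q1 : HR) (n0 M : σ → HZ) (q' : HZ), a ∈ g.GG → b ∈ g.GG →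
      Nice Q q1 g.GG (fun w => F (a * w * b)) → 0 < q' → ci q' ∈ OO Q → Long Q M →
      Sm Q (zv M) = Sm Q (zv N) →
      TinyC Q (Ex (box M) fun m : σ → HZ => F (a * ev (zv m) (pg (zv n0) (ci q') y) * b))) :
    TinyC Q (Ex (box N) fun n : σ → HZ => F (ev (zv n) (e * y * c))) := by
  obtain ⟨r, hr⟩ := exists_denS hc.2
  refine tiny_of_le 4 fun δ hδ => ?_
  have hi := hF.int
  obtain ⟨q', M, q1, q2, hM, hS, hs, hcell⟩ := cell (A := HZ) hg hN (p := fun _ => True)
    (IntP.const _) (Φ := fun _ => F) (by fun_prop) (IntS.const e) (IntS.const y) (IntS.const c)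
    (fun _ _ => ⟨hF, he, hy, hc.1, hr⟩) hδ
  have h1 := Ex_cells (fun l => (hN l).1) (fun l => (hM l).1) q1
    (φ := fun n : σ → HZ => F (ev (zv n) (e * y * c))) (by fun_prop) fun _ => hF.bd _
  have h2 : nm (Ex (box N) fun a : σ → HZ => Ex (box M) fun m : σ → HZ =>
      F (ev (zv (a + q' • m)) (e * y * c))) ≤ |δ| + |δ| := by
    refine nm_Ex_le (IntF.ex (IntF.const _) (by fun_prop)) (by positivity) fun n0 hn0 => ?_
    have ha := ev_mem hg he.1 (zv n0)
    have hb := ev_mem hg hc.1 (zv n0)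
    have k1 : Nice Q (q * (r * r)) g.GG fun w => F (ev (zv n0) e * w * ev (zv n0) c) :=
      (hF.right hb hr.1 (hr.ev n0).1 (hr.ev n0).2).left ha (ev_OO he.2 (box_OO hN hn0))
    have k2 := le_of_tiny (h _ _ _ n0 M q' ha hb k1 q1 q2 hM hS) hδ
    have k3 := nm_Ex_sub (T := box M)
      (f := fun m : σ → HZ => F (ev (zv (n0 + q' • m)) (e * y * c)))
      (g := fun m : σ → HZ => F (ev (zv n0) e * ev (zv m) (pg (zv n0) (ci q') y) * ev (zv n0) c))
      (by fun_prop) (by fun_prop) (abs_nonneg δ) fun m hm => by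
        rw [ev_pg]; exact hcell 0 trivial n0 m hn0 hm
    have k4 := nm_tri (Ex (box M) fun m : σ → HZ => F (ev (zv (n0 + q' • m)) (e * y * c)))
      (Ex (box M) fun m : σ → HZ =>
        F (ev (zv n0) e * ev (zv m) (pg (zv n0) (ci q') y) * ev (zv n0) c)) 0
    rw [sub_zero, sub_zero] at k4
    linarith
  have h3 := nm_tri (Ex (box N) fun n : σ → HZ => F (ev (zv n) (e * y * c)))
    (Ex (box N) fun a : σ → HZ => Ex (box M) fun m : σ → HZ =>
      F (ev (zv (a + q' • m)) (e * y * c))) 0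
  rw [sub_zero, sub_zero, nm_rev] at h3
  push_cast
  linarith

theorem key {g : Fam (KK Q) lv ℕ} {D} (hg : g.Fil D) {U ξ} (hc : Cen g U ξ) {q F}
    (hF : Nice Q q g.GG F) (he : Eqv Q g.GG U ξ F) {N : σ → HZ} (hN : Long Q N)
    {x : PS lv σ HR} (hx : x ∈ (g.fine σ).plus.PG)
    (hb : BigC Q (Ex (box N) fun n : σ → HZ => F (ev (zv n) x))) :
    ∃ h ≤ g, h.Fil D ∧ (∀ i, g.r i ⊓ (U ⊓ LinearMap.ker ξ) ≤ h.r i) ∧ (∀ X ∈ U ⊓ h.r 0, ξ X = 0) ∧
      Fac (Sm Q (zv N)) (Rt Q 1) (g.fine σ).plus (h.fine σ).plus x := by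
  obtain ⟨h, hle, hh, hn, e, he1, y, hy, c, hc1, rfl, hi⟩ :=
    resolve (Sm Q (zv N)) (Rt Q 1) hg (idl_ker hc) hx
  have hyg : y ∈ (g.fine σ).plus.PG := Fam.PG_mono (Fam.plus_mono (Fam.fine_mono hle)) hy
  refine ⟨h, hle, hh, hn, ?_, e, he1, y, ⟨hyg, hy⟩, c, hc1, rfl⟩
  by_contra hξ
  push Not at hξ
  have hy' : y ∈ (h.fine σ).PG := (mem_plus.1 hy).1
  refine tiny_of_cells hg hF hN ⟨(mem_plus.1 he1.1).1, he1.2⟩ (mem_plus.1 hyg).1
    ⟨(mem_plus.1 hc1.1).1, hc1.2⟩ (fun a b q1 n0 M q' ha hb h1 h2 h3 hM hS => ?_) hb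
  have hG := Fam.GG_mono hle
  refine leib hh (hc.restrict (hle 0)) hξ (F := fun w => F (a * w * b)) (h1.mono hG)
    (((he.right hb).left hc ha).mono hG inf_le_left fun _ _ => rfl) hM (pg_mem hh hy' _ _)
    (irr_of_le (irr_pg hh hN hS hy' hi _ h2 h3) fun i X hX =>
      ⟨⟨hX.2.1, hh.le (Nat.zero_le i) hX.1⟩, hX.2.2⟩)

/-- The expansion along a direction, averaged along a sequence. -/
theorem Key.fej {T : Ns (Finset ℤ)} {c : HZ → HC} (hc : IntF c) {F : UT lv HR → HC}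
    (hF : IntF F) {Φ : HZ → UT lv HR → HC} (hΦ : IntF fun z : HZ × UT lv HR => Φ z.1 z.2)
    {T' : Ns (Finset S)} {x : A → UT lv HR} (hx : IntF x) {t : HC} {δ : HR}
    (h : ∀ a, Mem a T' → nm (F (x a) - t * Ex T fun m : HZ => c m * Φ m (x a)) ≤ |δ|) :
    nm ((Ex T' fun a => F (x a)) - t * Ex T fun m : HZ => c m * Ex T' fun a => Φ m (x a)) ≤ |δ| := by
  have h1 : IntF fun z : A × HZ => c z.2 * Φ z.2 (x z.1) :=
    (hc.comp (by fun_prop)).mul (hΦ.comp (f := fun z : A × HZ => (z.2, x z.1)) (by fun_prop))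
  have h2 : IntF fun a : A => Ex T fun m : HZ => c m * Φ m (x a) := IntF.ex (IntF.const _) h1
  have h3 : ∀ m, IntF fun a : A => Φ m (x a) := fun m =>
    hΦ.comp (f := fun a : A => (m, x a)) (by fun_prop)
  have e : (Ex T fun m : HZ => c m * Ex T' fun a => Φ m (x a)) =
      Ex T' fun a => Ex T fun m : HZ => c m * Φ m (x a) := by
    rw [Ex_comm h1]
    congr 1
    exact funext fun m => (Ex_mul' T' (c m) (h3 m)).symm
  rw [e, ← Ex_mul' T' t h2]
  exact nm_Ex_sub (hF.comp hx) ((IntF.const t).mul h2) (abs_nonneg δ) h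

/-- All irrational sequences have the same average. -/
theorem equi {g : Fam (KK Q) lv ℕ} {D} (hg : g.Fil D) {n} (hn : g.Idl n) {q F}
    (hF : Nice Q q g.GG F) (he : Eqv Q g.GG n 0 F) [Fintype τ] [DecidableEq τ]
    {N : σ → HZ} (hN : Long Q N) {x : PS lv σ HR} (hx : x ∈ (g.fine σ).PG)
    (hi : Irr (Sm Q (zv N)) (Rt Q 1) g n x) {N' : τ → HZ} (hN' : Long Q N') {x' : PS lv τ HR}
    (hx' : x' ∈ (g.fine τ).PG) (hi' : Irr (Sm Q (zv N')) (Rt Q 1) g n x') :
    TinyC Q ((Ex (box N) fun n : σ → HZ => F (ev (zv n) x))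
      - Ex (box N') fun n : τ → HZ => F (ev (zv n) x')) := by
  induction hd : Module.finrank HR (g.r 0) - Module.finrank HR n using Nat.strong_induction_on
    generalizing n F with | _ d ih
  have hFi := hF.int
  by_cases h0 : g.r 0 ≤ n
  · have k : ∀ z ∈ g.GG, TinyC Q (F z - F 1) := fun z hz => by
      have := he z (h0 hz) 1 (one_mem _)
      have e : ee 0 = 1 := st_congr (A := HC) (Eventually.of_forall fun _ => by simp)
      rwa [mul_one, LinearMap.zero_apply, e, one_mul] at this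
    have k1 := tinyC_Ex (T := box N) (f := fun n : σ → HZ => F (ev (zv n) x)) (g := fun _ => F 1)
      (by fun_prop) (by fun_prop) fun a _ => k _ (ev_mem hg hx _)
    have k2 := tinyC_Ex (T := box N') (f := fun n : τ → HZ => F (ev (zv n) x')) (g := fun _ => F 1)
      (by fun_prop) (by fun_prop) fun a _ => k _ (ev_mem hg hx' _)
    rw [Ex_const' (zero_box hN)] at k1
    rw [Ex_const' (zero_box hN')] at k2
    refine tiny_of_le 2 fun δ hδ => (nm_tri _ (F 1) _).trans ?_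
    have k3 := le_of_tiny k1 hδ
    have k4 := le_of_tiny k2 hδ
    rw [nm_rev] at k4
    push_cast
    linarith
  have hg0 : g.Idl (g.r 0) := ⟨g.rat 0, le_rfl, g.lie0.br⟩
  obtain ⟨W, -, hWn, hW⟩ := exists_dir hF.lvl hn hg0 h0
  have hc : Cen g n 0 := ⟨hn, RatF.zero, fun _ _ _ _ => rfl⟩
  obtain ⟨L, hL⟩ := exists_huge (Q := Q)
  have hΦ : IntF fun z : HZ × UT lv HR => fcomp L W z.1 F z.2 :=
    intF_fcomp L W (Φ := fun _ => F) (by fun_prop) (by fun_prop) (by fun_prop)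
  have hA : IntF fun m : HZ => Ex (box N) fun n : σ → HZ => fcomp L W m F (ev (zv n) x) :=
    IntF.ex (IntF.const _)
      (hΦ.comp (f := fun z : HZ × (σ → HZ) => (z.1, ev (zv z.2) x)) (by fun_prop))
  have hA' : IntF fun m : HZ => Ex (box N') fun n : τ → HZ => fcomp L W m F (ev (zv n) x') :=
    IntF.ex (IntF.const _)
      (hΦ.comp (f := fun z : HZ × (τ → HZ) => (z.1, ev (zv z.2) x')) (by fun_prop))
  have step : ∀ m : HZ, ci m ∈ OO Q →
      TinyC Q ((Ex (box N) fun n : σ → HZ => fcomp L W m F (ev (zv n) x))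
        - Ex (box N') fun n : τ → HZ => fcomp L W m F (ev (zv n) x')) := fun m hm => by
    have hN1 := fcomp_nice hW hL.1 m hF
    by_cases hm0 : m = 0
    · obtain ⟨c1, c2⟩ := fcomp_eqv (ξ' := 0) hW hc hL hm hF he RatF.zero (fun _ _ => rfl)
        (by rw [hm0, map_zero]; rfl)
      have hlt : n < n ⊔ Submodule.span HR {W} :=
        left_lt_sup.2 fun h => hWn (h (Submodule.mem_span_singleton_self W))
      have d1 := Submodule.finrank_lt_finrank_of_lt hlt
      have d2 := Submodule.finrank_mono c1.idl.le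
      exact ih _ (by omega) c1.idl hN1 c2 (irr_of_le hi fun i => inf_le_right.trans le_sup_left)
        (irr_of_le hi' fun i => inf_le_right.trans le_sup_left) rfl
    · obtain ⟨ξ', x1, x2, x3⟩ := exists_ext hn.rat RatF.zero hW.ent hWn (ci_KK hm)
      obtain ⟨c1, c2⟩ := fcomp_eqv hW hc hL hm hF he x1 x2 x3
      have hξ : ∃ X ∈ n ⊔ Submodule.span HR {W}, ξ' X ≠ 0 :=
        ⟨W, Submodule.mem_sup_right (Submodule.mem_span_singleton_self W), x3 ▸ ci_ne hm0⟩
      have hk : ∀ i, g.r i ⊓ n ≤ (n ⊔ Submodule.span HR {W}) ⊓ LinearMap.ker ξ' := fun i X hX =>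
        ⟨Submodule.mem_sup_left hX.2, x2 X hX.2⟩
      have k1 := leib hg c1 hξ hN1 c2 hN hx (irr_of_le hi hk)
      have k2 := leib hg c1 hξ hN1 c2 hN' hx' (irr_of_le hi' hk)
      refine tiny_of_le 2 fun δ hδ => (nm_tri _ 0 _).trans ?_
      have k3 := le_of_tiny k1 hδ
      have k4 := le_of_tiny k2 hδ
      rw [nm_rev 0, sub_zero, sub_zero]
      push_cast
      linarith
  refine tiny_of_le 3 fun δ hδ => ?_
  obtain ⟨T, c, t1, t2, -, -, t3, t4⟩ := fejerG (A := HZ) hW hc hL (p := fun _ => True)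
    (IntP.const _) (Φ := fun _ => F) (by fun_prop) (fun _ _ => ⟨hF, he⟩) hδ
  have k1 := fej t2 hFi hΦ (T' := box N) (x := fun n : σ → HZ => ev (zv n) x) (by fun_prop)
    fun a _ => t4 0 trivial _ (ev_mem hg hx _)
  have k2 := fej t2 hFi hΦ (T' := box N') (x := fun n : τ → HZ => ev (zv n) x') (by fun_prop)
    fun a _ => t4 0 trivial _ (ev_mem hg hx' _)
  have k3 := tinyC_Ex (T := T) (t2.mul hA) (t2.mul hA') fun m hm => by
    rw [← mul_sub, TinyC, nm_mul', mul_comm]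
    exact Tiny.mul_OO (step m (t3 m hm).1)
      ⟨0, by rw [abs_of_nonneg (nm0 _), pow_zero]; exact (t3 m hm).2⟩
  have k4 : ∀ z, TinyC Q z → TinyC Q (cr (cd T) * z) := fun z hz => by
    rw [TinyC, nm_mul', mul_comm, nm_cr']
    exact Tiny.mul_OO hz (OO_of_le t1 (abs_abs _).le)
  have k5 := le_of_tiny (k4 _ k3) hδ
  rw [mul_sub] at k5
  rw [nm_rev] at k2
  refine (nm_tri _ _ _).trans ((add_le_add k1 ((nm_tri _ _ _).trans (add_le_add k5 k2))).trans ?_)
  push_cast
  linarith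

end cell

end Pool.Agent.P.MP_a14ce1_nt.Nil
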