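import Pool.Agent.P.MP_a14ce1_nt.Nil.Gowers3

/-! The Cauchy–Schwarz chain of the symmetry argument. -/

namespace Pool.Agent.P.MP_a14ce1_nt.Nil

open Finset Function ComplexConjugate

theorem cs_card {α : Type*} (W : Finset α) {b : α → ℂ} (A : α → ℂ) (hb : ∀ x, ‖b x‖ ≤ 1) :
    ‖∑ x ∈ W, b x * A x‖ ^ 2 ≤ W.card * ∑ x ∈ W, ‖A x‖ ^ 2 := by
  refine (pow_le_pow_left₀ (norm_nonneg _) ((norm_sum_le _ _).trans
    (sum_le_sum (g := fun x => ‖A x‖) fun x _ => ?_)) 2).trans sq_sum_le_card_mul_sum_sq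
  rw [norm_mul]
  exact mul_le_of_le_one_left (norm_nonneg _) (hb x)

/-- one Cauchy–Schwarz step: remove `b`, double the inner variable -/
theorem cs_step {α β : Type*} (W : Finset α) (V : Finset β) {b : α → ℂ} (A : α → β → ℂ)
    (hb : ∀ x, ‖b x‖ ≤ 1) : ‖∑ x ∈ W, b x * ∑ y ∈ V, A x y‖ ^ 2 ≤
      W.card * ‖∑ x ∈ W, ∑ y ∈ V, ∑ y' ∈ V, A x y * conj (A x y')‖ := by
  refine (cs_card W _ hb).trans (mul_le_mul_of_nonneg_left (le_norm_of_eq ?_) (Nat.cast_nonneg _))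
  rw [Complex.ofReal_sum]
  exact sum_congr rfl fun x _ => sq_norm_sum _ _

/-- two steps: a kernel tested against a function of `u` and a function of `v` -/
theorem cs_box2 {Ξ α β : Type*} (X : Finset Ξ) (I : Finset α) (J : Finset β) {C1 : Ξ → α → ℂ}
    {C2 : Ξ → β → ℂ} (h1 : ∀ ξ u, ‖C1 ξ u‖ ≤ 1) (h2 : ∀ ξ v, ‖C2 ξ v‖ ≤ 1) (N : Ξ → α → β → ℂ) :
    ‖∑ ξ ∈ X, ∑ u ∈ I, ∑ v ∈ J, C1 ξ u * C2 ξ v * N ξ u v‖ ^ 4 ≤
      (X.card : ℝ) ^ 3 * (I.card : ℝ) ^ 2 * (J.card : ℝ) ^ 2 *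
        ‖∑ ξ ∈ X, ∑ u ∈ I, ∑ u' ∈ I, ∑ v ∈ J, ∑ v' ∈ J,
          N ξ u v * conj (N ξ u' v) * conj (N ξ u v') * N ξ u' v'‖ := by
  have s1 := cs_step (X ×ˢ I) J (b := fun p => C1 p.1 p.2) (fun p v => C2 p.1 v * N p.1 p.2 v)
    fun p => h1 _ _
  have s2 := cs_step (X ×ˢ J ×ˢ J) I (b := fun p => C2 p.1 p.2.1 * conj (C2 p.1 p.2.2))
    (fun p u => N p.1 u p.2.1 * conj (N p.1 u p.2.2)) fun p => by
      rw [norm_mul, Complex.norm_conj]; exact mul_le_one₀ (h2 _ _) (norm_nonneg _) (h2 _ _)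
  have e1 : ∑ ξ ∈ X, ∑ u ∈ I, ∑ v ∈ J, C1 ξ u * C2 ξ v * N ξ u v =
      ∑ p ∈ X ×ˢ I, C1 p.1 p.2 * ∑ v ∈ J, C2 p.1 v * N p.1 p.2 v := by
    simp only [sum_product, mul_sum, mul_assoc]
  have e2 : ∑ p ∈ X ×ˢ I, ∑ v ∈ J, ∑ v' ∈ J, C2 p.1 v * N p.1 p.2 v * conj (C2 p.1 v' * N p.1 p.2 v') =
      ∑ p ∈ X ×ˢ J ×ˢ J, C2 p.1 p.2.1 * conj (C2 p.1 p.2.2) *
        ∑ u ∈ I, N p.1 u p.2.1 * conj (N p.1 u p.2.2) := by
    simp only [sum_product, mul_sum]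
    refine sum_congr rfl fun ξ _ => ?_
    rw [sum_comm]
    refine sum_congr rfl fun v _ => ?_
    rw [sum_comm]
    refine sum_congr rfl fun v' _ => sum_congr rfl fun u _ => ?_
    rw [map_mul]; ring
  have e3 : ∑ p ∈ X ×ˢ J ×ˢ J, ∑ u ∈ I, ∑ u' ∈ I, N p.1 u p.2.1 * conj (N p.1 u p.2.2) *
      conj (N p.1 u' p.2.1 * conj (N p.1 u' p.2.2)) = ∑ ξ ∈ X, ∑ u ∈ I, ∑ u' ∈ I, ∑ v ∈ J, ∑ v' ∈ J,
        N ξ u v * conj (N ξ u' v) * conj (N ξ u v') * N ξ u' v' := by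
    rw [sum_product]
    refine sum_congr rfl fun ξ _ => ?_
    rw [sum_comm]
    refine sum_congr rfl fun u _ => ?_
    rw [sum_comm]
    refine sum_congr rfl fun u' _ => ?_
    rw [sum_product]
    refine sum_congr rfl fun v _ => sum_congr rfl fun v' _ => ?_
    rw [map_mul, Complex.conj_conj]; ring
  rw [e2] at s1
  rw [e3] at s2
  rw [e1]
  simp only [card_product, Nat.cast_mul] at s1 s2
  calc _ = (‖∑ p ∈ X ×ˢ I, C1 p.1 p.2 * ∑ v ∈ J, C2 p.1 v * N p.1 p.2 v‖ ^ 2) ^ 2 := by ring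
    _ ≤ _ := pow_le_pow_left₀ (sq_nonneg _) s1 2
    _ = ((X.card : ℝ) * I.card) ^ 2 * _ ^ 2 := mul_pow _ _ _
    _ ≤ _ := mul_le_mul_of_nonneg_left s2 (sq_nonneg _)
    _ = _ := by ring

variable {G : Type*} [AddCommGroup G]

/-- the kernel after the first Cauchy–Schwarz step and the substitution `a = z - u - v` -/
noncomputable def symK {Ξ : Type*} (W : Ξ → G → G → ℂ) (ξ : Ξ) (z u v : G) : ℂ :=
  W ξ u (z - u - v) * conj (W ξ v (z - u - v))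

/-- the three Cauchy–Schwarz steps, abstract form -/
theorem sym_cs {Ξ : Type*} (X : Finset Ξ) {I Z A : Finset G} {B1 B2 B3 : Ξ → G → ℂ}
    (W : Ξ → G → G → ℂ) (h1 : ∀ ξ m, ‖B1 ξ m‖ ≤ 1) (h2 : ∀ ξ m, ‖B2 ξ m‖ ≤ 1)
    (h3 : ∀ ξ m, ‖B3 ξ m‖ ≤ 1) (hA : ∀ ξ x y, B3 ξ x ≠ 0 → B1 ξ y ≠ 0 → x - y ∈ A)
    (hZ : ∀ ξ x y, B3 ξ x ≠ 0 → B1 ξ y ≠ 0 → x + y ∈ Z) :
    ‖∑ ξ ∈ X, ∑ a ∈ A, ∑ m ∈ I, B1 ξ m * B2 ξ a * B3 ξ (m + a) * W ξ m a‖ ^ 8 ≤
      (X.card : ℝ) ^ 7 * (A.card : ℝ) ^ 4 * (Z.card : ℝ) ^ 3 * (I.card : ℝ) ^ 4 *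
        ‖∑ ξ ∈ X, ∑ z ∈ Z, ∑ u ∈ I, ∑ u' ∈ I, ∑ v ∈ I, ∑ v' ∈ I, symK W ξ z u v *
          conj (symK W ξ z u' v) * conj (symK W ξ z u v') * symK W ξ z u' v'‖ := by
  have s1 := cs_step (X ×ˢ A) I (b := fun p => B2 p.1 p.2)
    (fun p m => B1 p.1 m * B3 p.1 (m + p.2) * W p.1 m p.2) fun p => h2 _ _
  have s2 := cs_box2 (X ×ˢ Z) I I (C1 := fun p u => B1 p.1 u * conj (B3 p.1 (p.2 - u)))
    (C2 := fun p v => conj (B1 p.1 v) * B3 p.1 (p.2 - v))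
    (fun p u => by
      rw [norm_mul, Complex.norm_conj]; exact mul_le_one₀ (h1 _ _) (norm_nonneg _) (h3 _ _))
    (fun p v => by
      rw [norm_mul, Complex.norm_conj]; exact mul_le_one₀ (h1 _ _) (norm_nonneg _) (h3 _ _))
    fun p u v => symK W p.1 p.2 u v
  have e1 : ∑ ξ ∈ X, ∑ a ∈ A, ∑ m ∈ I, B1 ξ m * B2 ξ a * B3 ξ (m + a) * W ξ m a =
      ∑ p ∈ X ×ˢ A, B2 p.1 p.2 * ∑ m ∈ I, B1 p.1 m * B3 p.1 (m + p.2) * W p.1 m p.2 := by
    simp only [sum_product, mul_sum]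
    exact sum_congr rfl fun _ _ => sum_congr rfl fun _ _ => sum_congr rfl fun _ _ => by ring
  have e2 : ∑ p ∈ X ×ˢ A, ∑ u ∈ I, ∑ v ∈ I, B1 p.1 u * B3 p.1 (u + p.2) * W p.1 u p.2 *
      conj (B1 p.1 v * B3 p.1 (v + p.2) * W p.1 v p.2) =
      ∑ p ∈ X ×ˢ Z, ∑ u ∈ I, ∑ v ∈ I, B1 p.1 u * conj (B3 p.1 (p.2 - u)) *
        (conj (B1 p.1 v) * B3 p.1 (p.2 - v)) * symK W p.1 p.2 u v := by
    rw [sum_product, sum_product]
    refine sum_congr rfl fun ξ _ => ?_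
    rw [sum_comm, sum_comm (s := Z)]
    refine sum_congr rfl fun u _ => ?_
    rw [sum_comm, sum_comm (s := Z)]
    refine sum_congr rfl fun v _ => ?_
    rw [← fs_eq (S := A), ← fs_eq (S := Z), ← fs_shift _ (-u - v)]
    · refine finsum_congr fun z => ?_
      simp only [symK, map_mul]
      rw [show z + (-u - v) = z - u - v by abel, show u + (z - u - v) = z - v by abel,
        show v + (z - u - v) = z - u by abel]
      ring
    · intro z hz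
      simp only [ne_eq, mul_eq_zero, map_eq_zero, not_or] at hz
      simpa using hZ ξ _ _ hz.1.1.2 hz.1.1.1
    · intro a ha
      simp only [ne_eq, mul_eq_zero, not_or] at ha
      simpa using hA ξ _ _ ha.1.1.2 ha.1.1.1
  rw [e2] at s1
  rw [sum_product (s := X) (t := Z) (f := fun p => ∑ u ∈ I, ∑ u' ∈ I, ∑ v ∈ I, ∑ v' ∈ I,
    symK W p.1 p.2 u v * conj (symK W p.1 p.2 u' v) * conj (symK W p.1 p.2 u v') *
      symK W p.1 p.2 u' v')] at s2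
  rw [e1]
  simp only [card_product, Nat.cast_mul] at s1 s2
  calc _ = (‖∑ p ∈ X ×ˢ A, B2 p.1 p.2 *
        ∑ m ∈ I, B1 p.1 m * B3 p.1 (m + p.2) * W p.1 m p.2‖ ^ 2) ^ 4 := by ring
    _ ≤ _ := pow_le_pow_left₀ (sq_nonneg _) s1 4
    _ = ((X.card : ℝ) * A.card) ^ 4 * _ ^ 4 := mul_pow _ _ _
    _ ≤ _ := mul_le_mul_of_nonneg_left s2 (by positivity)
    _ = _ := by ring

theorem cube_conj {σ : Type*} [Fintype σ] [DecidableEq σ] (F : (σ → Bool) → G → ℂ) (a : σ → G)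
    (x : G) : cube (fun ω y => conj (F ω y)) a x = conj (cube F a x) := by
  simp only [cube, map_prod, cjw_conj]

theorem cube_shift {σ : Type*} [Fintype σ] [DecidableEq σ] (F : (σ → Bool) → G → ℂ) (a : σ → G)
    (x h : G) : cube (fun ω y => F ω (y + h)) a x = cube F a (x + h) := by
  simp only [cube, add_right_comm x _ h]

theorem norm_cube_le {σ : Type*} [Fintype σ] [DecidableEq σ] {F : (σ → Bool) → G → ℂ}
    (hF : ∀ ω x, ‖F ω x‖ ≤ 1) (a : σ → G) (x : G) : ‖cube F a x‖ ≤ 1 := by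
  rw [norm_cube]
  exact prod_le_one (fun _ _ => norm_nonneg _) fun _ _ => hF _ _

theorem cube_cons_const {k : ℕ} (f : G → ℂ) (h : G) (a : Fin k → G) (x : G) :
    cube (fun _ => f) (Fin.cons h a) x =
      cube (fun _ => f) a (x + h) * conj (cube (fun _ => f) a x) := by
  rw [cube_cons, cube_mul (fun _ y => f (y + h)) (fun _ y => conj (f y)), cube_conj,
    cube_shift (fun _ => f)]

/-- the derivative of the two-variable function in the second variable -/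
noncomputable def symW {j : ℕ} (Θ : G → G → ℂ) (ξ : G × (Fin j → G)) (m a : G) : ℂ :=
  cube (fun _ => Θ (m - ξ.1)) (Fin.cons a ξ.2 : Fin (j + 1) → G) ξ.1

/-- Section 5 of the inverse theorem. One finite set `I` contains the supports, their sums and their
differences. -/
theorem sym_U (j : ℕ) {f1 f2 : G → ℂ} (Θ : G → G → ℂ) (H : Finset G) {I : Finset G}
    (h1 : ∀ x, ‖f1 x‖ ≤ 1) (h2 : ∀ x, ‖f2 x‖ ≤ 1) (s1 : ∀ x, f1 x ≠ 0 → x ∈ I)
    (s2 : ∀ x, f2 x ≠ 0 → x ∈ I) (a1 : ∀ x y, f1 x ≠ 0 → f1 y ≠ 0 → x + y ∈ I)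
    (d1 : ∀ x y, f1 x ≠ 0 → f1 y ≠ 0 → x - y ∈ I) (d2 : ∀ x y, f2 x ≠ 0 → f2 y ≠ 0 → x - y ∈ I) :
    (∑ h ∈ H, U j (fun n => f1 (n + h) * f2 n * Θ h n)) ^ 8 ≤ (I.card : ℝ) ^ (7 * j + 18) *
      ‖∑ ξ ∈ I ×ˢ Fintype.piFinset fun _ : Fin j => I, ∑ z ∈ I, ∑ u ∈ I, ∑ u' ∈ I, ∑ v ∈ I, ∑ v' ∈ I,
        symK (symW Θ) ξ z u v * conj (symK (symW Θ) ξ z u' v) * conj (symK (symW Θ) ξ z u v') *
          symK (symW Θ) ξ z u' v'‖ := by
  classical
  have c0 : ∀ {f : G → ℂ} {k : ℕ} {a : Fin k → G} {x : G}, cube (fun _ => f) a x ≠ 0 → f x ≠ 0 :=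
    fun h => by simpa [vx_false] using cube_ne h fun _ => false
  have key := sym_cs (I ×ˢ Fintype.piFinset fun _ : Fin j => I) (I := I) (Z := I) (A := I)
    (B1 := fun ξ m => conj (cube (fun _ => f1) ξ.2 m))
    (B2 := fun ξ a => cube (fun _ => f2) (Fin.cons a ξ.2 : Fin (j + 1) → G) ξ.1)
    (B3 := fun ξ m => cube (fun _ => f1) ξ.2 m) (symW Θ)
    (fun ξ m => by rw [Complex.norm_conj]; exact norm_cube_le (fun _ => h1) _ _)
    (fun ξ m => norm_cube_le (fun _ => h2) _ _) (fun ξ m => norm_cube_le (fun _ => h1) _ _)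
    (fun ξ x y hx hy => d1 x y (c0 hx) (c0 (by simpa using hy)))
    (fun ξ x y hx hy => a1 x y (c0 hx) (c0 (by simpa using hy)))
  obtain ⟨T, hT⟩ := ex_diff (fin_of s1) (fin_of s2)
  have hle : ∑ h ∈ H, U j (fun n => f1 (n + h) * f2 n * Θ h n) ≤
      ∑ h ∈ T, U j (fun n => f1 (n + h) * f2 n * Θ h n) := by
    have hs : ∀ h, U j (fun n => f1 (n + h) * f2 n * Θ h n) ≠ 0 → h ∈ T := fun h hh => by
      obtain ⟨n, hn⟩ := U_ne hh
      simpa using hT _ _ (left_ne_zero_of_mul (left_ne_zero_of_mul hn))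
        (right_ne_zero_of_mul (left_ne_zero_of_mul hn))
    rw [← fs_eq hs]
    exact sum_le_fs (fin_of hs) (fun _ => U_nonneg _ _) H
  have e : ((∑ h ∈ T, U j (fun n => f1 (n + h) * f2 n * Θ h n) : ℝ) : ℂ) =
      ∑ ξ ∈ I ×ˢ Fintype.piFinset fun _ : Fin j => I, ∑ a ∈ I, ∑ m ∈ I,
        conj (cube (fun _ => f1) ξ.2 m) *
          cube (fun _ => f2) (Fin.cons a ξ.2 : Fin (j + 1) → G) ξ.1 *
            cube (fun _ => f1) ξ.2 (m + a) * symW Θ ξ m a := by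
    have r : ∀ h, ((U j (fun n => f1 (n + h) * f2 n * Θ h n) : ℝ) : ℂ) =
        ∑ n ∈ I, ∑ b ∈ Fintype.piFinset fun _ : Fin j => I, ∑ a ∈ I,
          conj (cube (fun _ => f1) b (n + h)) *
            cube (fun _ => f2) (Fin.cons a b : Fin (j + 1) → G) n *
              cube (fun _ => f1) b (n + h + a) * symW Θ (n, b) (n + h) a := by
      intro h
      rw [U_eq_cube j (S := I) (T := I)
        (fun x hx => s2 x (right_ne_zero_of_mul (left_ne_zero_of_mul hx)))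
        (fun x y hx hy => d2 x y (right_ne_zero_of_mul (left_ne_zero_of_mul hx))
          (right_ne_zero_of_mul (left_ne_zero_of_mul hy))), sum_pi_succ, sum_comm,
        sum_comm (s := I)]
      refine sum_congr rfl fun b _ => ?_
      rw [sum_comm]
      refine sum_congr rfl fun n _ => sum_congr rfl fun a _ => ?_
      rw [cube_mul (fun _ n => f1 (n + h) * f2 n) (fun _ => Θ h),
        cube_mul (fun _ n => f1 (n + h)) (fun _ => f2), cube_shift (fun _ => f1), cube_cons_const f1]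
      simp only [symW, add_sub_cancel_left]
      ring
    rw [Complex.ofReal_sum]
    simp only [r]
    rw [sum_product, sum_comm]
    refine sum_congr rfl fun n _ => ?_
    rw [sum_comm]
    refine sum_congr rfl fun b _ => ?_
    rw [sum_comm]
    refine sum_congr rfl fun a _ => ?_
    rw [← fs_eq (S := T), ← fs_eq (S := I), ← fs_shift (fun m => conj (cube (fun _ => f1) b m) *
      cube (fun _ => f2) (Fin.cons a b : Fin (j + 1) → G) n * cube (fun _ => f1) b (m + a) *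
        symW Θ (n, b) m a) n]
    · simp only [add_comm n]
    · intro m hm
      simp only [ne_eq, mul_eq_zero, map_eq_zero, not_or] at hm
      exact s1 m (c0 hm.1.1.1)
    · intro h hh
      simp only [ne_eq, mul_eq_zero, map_eq_zero, not_or] at hh
      simpa using hT _ _ (c0 hh.1.1.1) (c0 hh.1.1.2)
  refine (pow_le_pow_left₀ (sum_nonneg fun _ _ => U_nonneg _ _)
    (hle.trans (le_norm_of_eq e)) 8).trans (key.trans (le_of_eq ?_))
  rw [card_product, Fintype.card_piFinset_const]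
  push_cast
  ring

end Pool.Agent.P.MP_a14ce1_nt.Nil
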