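import Pool.Agent.P.MP_a14ce1_nt.Nil.Tiny
import Pool.Agent.P.MP_a14ce1_nt.Nil.Peel
import Pool.Agent.P.MP_a14ce1_nt.Nil.Gr

/-!
Matrices with bounded or tiny entries, lattice elements.
-/

open Finset

set_option linter.unusedSectionVars false

noncomputable section

namespace Pool.Agent.P.MP_a14ce1_nt.Nil

variable {ι : Type} [Fintype ι] [DecidableEq ι] {lv : ι → ℕ} {Q : HR} [Fact (2 ≤ Q)]
  {X Y : Matrix ι ι HR} {x y : UT lv HR}

/-! ### Entries in a subring -/

section sub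

variable {O : Subring HR}

theorem entR_zero : Ent (O : Set HR) (0 : Matrix ι ι HR) := fun _ _ => O.zero_mem
theorem entR_one : Ent (O : Set HR) (1 : Matrix ι ι HR) := ent_one O
theorem entR_add (hX : Ent (O : Set HR) X) (hY : Ent (O : Set HR) Y) :
    Ent (O : Set HR) (X + Y) := fun a b => O.add_mem (hX a b) (hY a b)
theorem entR_sub (hX : Ent (O : Set HR) X) (hY : Ent (O : Set HR) Y) :
    Ent (O : Set HR) (X - Y) := fun a b => O.sub_mem (hX a b) (hY a b)
theorem entR_neg (hX : Ent (O : Set HR) X) : Ent (O : Set HR) (-X) :=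
  fun a b => O.neg_mem (hX a b)
theorem entR_mul (hX : Ent (O : Set HR) X) (hY : Ent (O : Set HR) Y) :
    Ent (O : Set HR) (X * Y) := ent_mul hX hY
theorem entR_smul {c : HR} (hc : c ∈ O) (hX : Ent (O : Set HR) X) : Ent (O : Set HR) (c • X) :=
  fun a b => O.mul_mem hc (hX a b)
theorem entR_sum {J : Type} {s : Finset J} {f : J → Matrix ι ι HR}
    (h : ∀ j ∈ s, Ent (O : Set HR) (f j)) : Ent (O : Set HR) (∑ j ∈ s, f j) := fun a b => by
  rw [Matrix.sum_apply]; exact O.sum_mem fun j hj => h j hj a b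
theorem entR_sub_one : Ent (O : Set HR) (X - 1) ↔ Ent (O : Set HR) X :=
  ⟨fun h => by simpa using entR_add h entR_one, fun h => entR_sub h entR_one⟩
theorem entR_umul (hx : Ent (O : Set HR) x.val) (hy : Ent (O : Set HR) y.val) :
    Ent (O : Set HR) (x * y).val := ent_mul hx hy

end sub

/-! ### Bounded entries -/

theorem entO_lg (hx : Ent (OO Q : Set HR) x.val) : Ent (OO Q : Set HR) (lg x) :=
  ent_log ratCast_OO hx
theorem entO_of_lg (hx : Ent (OO Q : Set HR) (lg x)) : Ent (OO Q : Set HR) x.val := by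
  rw [← exp_lg]; exact ent_exp ratCast_OO hx
theorem entO_lg_iff : Ent (OO Q : Set HR) (lg x) ↔ Ent (OO Q : Set HR) x.val :=
  ⟨entO_of_lg, entO_lg⟩
theorem entO_ex (hX : Ent (OO Q : Set HR) X) : Ent (OO Q : Set HR) (ex lv X).val := by
  by_cases h : X ∈ mF HR lv 1
  · rw [ex_val h]; exact ent_exp ratCast_OO hX
  · rw [ex, dif_neg h]; exact ent_one _
theorem entO_inv (hx : Ent (OO Q : Set HR) x.val) : Ent (OO Q : Set HR) x⁻¹.val :=
  entO_of_lg (by rw [lg_inv]; exact entR_neg (entO_lg hx))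
theorem entO_of_K (hX : Ent (KK Q : Set HR) X) : Ent (OO Q : Set HR) X :=
  fun a b => KK_le_OO _ (hX a b)
/-- One bound for all the entries. -/
theorem entO_bound (hX : Ent (OO Q : Set HR) X) : ∃ C : ℕ, ∀ a b, |X a b| ≤ Q ^ C := by
  choose C hC using hX
  refine ⟨univ.sup fun p : ι × ι => C p.1 p.2, fun a b => (hC a b).trans (Q_pow_mono ?_)⟩
  exact le_sup (f := fun p : ι × ι => C p.1 p.2) (mem_univ (a, b))

variable (Q lv) in
/-- The bounded elements. -/
def bdG : Subgroup (UT lv HR) where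
  carrier := {x | Ent (OO Q : Set HR) x.val}
  one_mem' := ent_one _
  mul_mem' := entR_umul
  inv_mem' := entO_inv

theorem mem_bdG : x ∈ bdG lv Q ↔ Ent (OO Q : Set HR) x.val := Iff.rfl

/-! ### Tiny entries -/

theorem entT_zero : Ent {t | Tiny Q t} (0 : Matrix ι ι HR) := fun _ _ => tiny_zero
theorem entT_add (hX : Ent {t | Tiny Q t} X) (hY : Ent {t | Tiny Q t} Y) :
    Ent {t | Tiny Q t} (X + Y) := fun a b => Tiny.add (hX a b) (hY a b)
theorem entT_sub (hX : Ent {t | Tiny Q t} X) (hY : Ent {t | Tiny Q t} Y) :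
    Ent {t | Tiny Q t} (X - Y) := fun a b => Tiny.sub (hX a b) (hY a b)
theorem entT_neg (hX : Ent {t | Tiny Q t} X) : Ent {t | Tiny Q t} (-X) :=
  fun a b => Tiny.neg (hX a b)
theorem entT_le (hX : Ent {t | Tiny Q t} X) : Ent (OO Q : Set HR) X :=
  fun a b => Tiny.mem_OO (hX a b)
theorem entT_mul (hX : Ent {t | Tiny Q t} X) (hY : Ent (OO Q : Set HR) Y) :
    Ent {t | Tiny Q t} (X * Y) := fun a b => by
  rw [Matrix.mul_apply]; exact Tiny.sum fun c _ => Tiny.mul (hX a c) (hY c b)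
theorem entT_mul' (hX : Ent (OO Q : Set HR) X) (hY : Ent {t | Tiny Q t} Y) :
    Ent {t | Tiny Q t} (X * Y) := fun a b => by
  rw [Matrix.mul_apply]; exact Tiny.sum fun c _ => Tiny.mul' (hY c b) (hX a c)
theorem entT_smul {c : HR} (hc : c ∈ OO Q) (hX : Ent {t | Tiny Q t} X) :
    Ent {t | Tiny Q t} (c • X) := fun a b => Tiny.mul' (hX a b) hc
theorem entT_smul' {c : HR} (hc : Tiny Q c) (hX : Ent (OO Q : Set HR) X) :
    Ent {t | Tiny Q t} (c • X) := fun a b => Tiny.mul hc (hX a b)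
theorem entT_sum {J : Type} {s : Finset J} {f : J → Matrix ι ι HR}
    (h : ∀ j ∈ s, Ent {t | Tiny Q t} (f j)) : Ent {t | Tiny Q t} (∑ j ∈ s, f j) := fun a b => by
  rw [Matrix.sum_apply]; exact Tiny.sum fun j hj => h j hj a b

variable (Q ι) in
/-- The matrices with tiny entries. -/
def tinyM : Submodule ℚ (Matrix ι ι HR) where
  carrier := {X | Ent {t | Tiny Q t} X}
  add_mem' := entT_add
  zero_mem' := entT_zero
  smul_mem' c X hX a b := by
    rw [Matrix.smul_apply, Rat.smul_def]; exact Tiny.mul' (hX a b) (ratCast_OO c)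

theorem entT_lg (hx : Ent {t | Tiny Q t} (x.val - 1)) : Ent {t | Tiny Q t} (lg x) :=
  log_mem_of_mul (U := tinyM ι Q) (fun _ ha _ hb => entT_mul ha (entT_le hb)) hx
theorem entT_of_lg (hx : Ent {t | Tiny Q t} (lg x)) : Ent {t | Tiny Q t} (x.val - 1) := by
  rw [← exp_lg]
  exact exp_mem_of_mul (U := tinyM ι Q) (fun _ ha _ hb => entT_mul ha (entT_le hb))
    (up_nil (lg_mem x)) hx
theorem entT_lg_iff : Ent {t | Tiny Q t} (x.val - 1) ↔ Ent {t | Tiny Q t} (lg x) :=
  ⟨entT_lg, entT_of_lg⟩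
theorem entT_ex (hX : Ent {t | Tiny Q t} X) : Ent {t | Tiny Q t} ((ex lv X).val - 1) := by
  by_cases h : X ∈ mF HR lv 1
  · exact entT_of_lg (by rwa [lg_ex h])
  · rw [ex, dif_neg h, UT.one_val, sub_self]; exact entT_zero
theorem entT_bd (hx : Ent {t | Tiny Q t} (x.val - 1)) : Ent (OO Q : Set HR) x.val :=
  entR_sub_one.1 (entT_le hx)
theorem entT_inv (hx : Ent {t | Tiny Q t} (x.val - 1)) : Ent {t | Tiny Q t} (x⁻¹.val - 1) :=
  entT_of_lg (by rw [lg_inv]; exact entT_neg (entT_lg hx))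
theorem entT_umul (hx : Ent {t | Tiny Q t} (x.val - 1)) (hy : Ent {t | Tiny Q t} (y.val - 1)) :
    Ent {t | Tiny Q t} ((x * y).val - 1) := by
  have : (x * y).val - 1 = (x.val - 1) * y.val + (y.val - 1) := by rw [UT.mul_val]; noncomm_ring
  rw [this]; exact entT_add (entT_mul hx (entT_bd hy)) hy
/-- Conjugation by a bounded element. -/
theorem entT_conj (hx : Ent (OO Q : Set HR) x.val) (hy : Ent {t | Tiny Q t} (y.val - 1)) :
    Ent {t | Tiny Q t} ((x * y * x⁻¹).val - 1) := by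
  have : (x * y * x⁻¹).val - 1 = x.val * (y.val - 1) * x⁻¹.val := by
    rw [UT.mul_val, UT.mul_val, mul_sub, sub_mul, mul_one, UT.mul_inv_val]
  rw [this]; exact entT_mul (entT_mul' hx hy) (entO_inv hx)
theorem entT_conj' (hx : Ent (OO Q : Set HR) x.val) (hy : Ent {t | Tiny Q t} (y.val - 1)) :
    Ent {t | Tiny Q t} ((x⁻¹ * y * x).val - 1) := by
  simpa only [inv_inv] using entT_conj (entO_inv hx) hy
/-- Close bounded elements differ by a tiny factor. -/
theorem entT_mul_inv (hy : Ent (OO Q : Set HR) y.val) (h : Ent {t | Tiny Q t} (x.val - y.val)) :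
    Ent {t | Tiny Q t} ((x * y⁻¹).val - 1) := by
  have : (x * y⁻¹).val - 1 = (x.val - y.val) * y⁻¹.val := by
    rw [UT.mul_val, sub_mul, UT.mul_inv_val]
  rw [this]; exact entT_mul h (entO_inv hy)

variable (Q lv) in
/-- The elements infinitely close to the identity. -/
def tinyG : Subgroup (UT lv HR) where
  carrier := {x | Ent {t | Tiny Q t} (x.val - 1)}
  one_mem' := by
    change Ent _ (_ - _)
    rw [UT.one_val, sub_self]; exact entT_zero
  mul_mem' := entT_umul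
  inv_mem' := entT_inv

theorem mem_tinyG : x ∈ tinyG lv Q ↔ Ent {t | Tiny Q t} (x.val - 1) := Iff.rfl

/-! ### Lattice elements -/

section lev

variable {q q' : HR}

theorem lev_iff (hq : q ∈ ZZ) : Lev q x ↔ x ∈ Gam ZZ hq lv := Iff.rfl
theorem lev_one (q : HR) : Lev q (1 : UT lv HR) := fun a b => ⟨0, zero_mem _, by simp⟩
theorem Lev.mul (hq : q ∈ ZZ) (hx : Lev q x) (hy : Lev q y) : Lev q (x * y) :=
  (Gam ZZ hq lv).mul_mem hx hy
theorem Lev.inv (hq : q ∈ ZZ) (hx : Lev q x) : Lev q x⁻¹ := (Gam ZZ hq lv).inv_mem hx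
theorem Lev.of_dvd (h : ∃ z ∈ ZZ, q' = q * z) (hx : Lev q' x) : Lev q x := fun a b => by
  obtain ⟨z, hz, rfl⟩ := h
  obtain ⟨w, hw, e⟩ := hx a b
  exact ⟨z * w, mul_mem hz hw, by rw [e, mul_assoc]⟩
theorem Lev.of_mulr {r : HR} (hr : r ∈ ZZ) (hx : Lev (q * r) x) : Lev q x :=
  hx.of_dvd ⟨r, hr, rfl⟩
theorem Lev.of_mull {r : HR} (hr : r ∈ ZZ) (hx : Lev (r * q) x) : Lev q x :=
  hx.of_dvd ⟨r, hr, mul_comm _ _⟩
theorem Lev.entZ (hq : q ∈ ZZ) (hx : Lev q x) : Ent (ZZ : Set HR) x.val :=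
  entR_sub_one.1 fun a b => by
    obtain ⟨w, hw, e⟩ := hx a b
    rw [e]; exact mul_mem hq hw
/-- Conjugation by a rational element with denominator `r`. -/
theorem Lev.conj_den {r : HR} {c : UT lv HR} (h1 : Ent (ZZ : Set HR) (r • c.val))
    (h2 : Ent (ZZ : Set HR) (r • c⁻¹.val)) (hx : Lev (q * (r * r)) x) :
    Lev q (c⁻¹ * x * c) := by
  choose z hz e using hx
  have e1 : x.val - 1 = (q * (r * r)) • Matrix.of z := by ext a b; exact e a b
  have e2 : (c⁻¹ * x * c).val - 1 = q • ((r • c⁻¹.val) * Matrix.of z * (r • c.val)) := by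
    have : (c⁻¹ * x * c).val - 1 = c⁻¹.val * (x.val - 1) * c.val := by
      rw [UT.mul_val, UT.mul_val, mul_sub, sub_mul, mul_one, UT.inv_mul_val]
    rw [this, e1]
    simp only [smul_mul_assoc, mul_smul_comm, smul_smul]
  intro a b
  rw [e2]
  exact ⟨_, ent_mul (ent_mul h2 (O := ZZ) (Y := Matrix.of z) hz) h1 a b, rfl⟩

end lev

end Pool.Agent.P.MP_a14ce1_nt.Nil
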