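import Pool.Agent.P.MP_a14ce1_nt.Nil.Std
import Pool.Agent.P.MP_a14ce1_nt.Nil.NiceL

/-!
Unit nilcharacters in the finitary class of functions, and their germs.
-/

open Filter Finset
open scoped BigOperators

set_option linter.unusedSectionVars false

noncomputable section

namespace Pool.Agent.P.MP_a14ce1_nt.Nil

variable {ι : Type} [Fintype ι] [DecidableEq ι] {lv : ι → ℕ} {I : Type} [AddCommMonoid I]

theorem EqvR.mono {G : Subgroup (UT lv ℝ)} {U U' : Submodule ℝ (Matrix ι ι ℝ)} {ξ ξ' F}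
    (h : EqvR G U ξ F) (hU : U' ≤ U) (e : ∀ X ∈ U', ξ' X = ξ X) : EqvR G U' ξ' F :=
  fun z hz x hx => by rw [e _ hz]; exact h z (hU hz) x hx

/-- The top layer of a filtered system is central modulo a functional that kills the next one. -/
theorem Fam.Fil.cen {FF : Type} [Field FF] [CharZero FF] {K : Subfield FF} {g : Fam K lv ℕ} {D}
    (hg : g.Fil D) {s : ℕ} {ξ : Matrix ι ι FF →ₗ[FF] FF} (hξ : RatF K ξ)
    (ht : ∀ X ∈ g.r (s + 1), ξ X = 0) : Cen g (g.r s) ξ where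
  idl := ⟨g.rat s, hg.le (Nat.zero_le _), fun X hX Y hY => by
    have := g.br 0 s X hX Y hY; rwa [zero_add] at this⟩
  rat := hξ
  cen X hX Y hY := ht _ (by
    have := g.br 1 s X (hg.zero ▸ hX) Y hY; rwa [add_comm] at this)

/-- Unit nilcharacters in the finitary class. -/
theorem nilcharR (g : Fam (⊥ : Subfield ℝ) lv I) {U : Submodule ℝ (Matrix ι ι ℝ)}
    {ξ : Matrix ι ι ℝ →ₗ[ℝ] ℝ} (h : Cen g U ξ) :
    ∃ (q D : ℕ) (L : ℝ) (χ : Fin D → UT lv ℝ → ℂ), 0 < q ∧ 0 ≤ L ∧ (∀ j, NiceR q L g.GG (χ j)) ∧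
      (∀ j, EqvR g.GG U ξ (χ j)) ∧
      ∀ x ∈ g.GG, ∑ j, χ j x * (starRingEnd ℂ) (χ j x) = 1 := by
  obtain ⟨q, D, L, χ, q0, L0, c1, c2, c3, c4, c5⟩ := nilchar (g.up 0) g.lie0.br
    (fun _ => mem_bot_real.1) (g.rat 0) h.idl.rat h.idl.le h.idl.br h.rat h.cen
  obtain ⟨C, δ, C0, d0, hC⟩ := NC.ent_lg lv
  refine ⟨q, D, L * C + 2 / δ, χ, q0, by positivity, fun j => ⟨c2 j, fun e he x hx => ?_,
    fun c hc hl x hx => c4 j x c hx hc hl⟩, fun j z hz x hx => ?_, fun x hx => ?_⟩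
  · change _ ≤ _ * n1 (e.val - 1)
    have n0 := n1_nonneg (e.val - 1)
    have a1 : 0 ≤ L * C * n1 (e.val - 1) := by positivity
    have a2 : 0 ≤ 2 / δ * n1 (e.val - 1) := by positivity
    rcases le_total (n1 (e.val - 1)) δ with c | c
    · have := c3 j e x _ he hx (hC e _ n0 c (le_n1 _))
      linarith
    · have a3 : 2 / δ * δ ≤ 2 / δ * n1 (e.val - 1) := by gcongr
      rw [div_mul_cancel₀ _ d0.ne'] at a3
      linarith [norm_sub_le (χ j (e * x)) (χ j x), c2 j (e * x), c2 j x]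
  · obtain ⟨h1, h2⟩ := h.conj (inv_mem hx) hz
    rw [show z * x = x * (x⁻¹ * z * x⁻¹⁻¹) by group, c5 j _ _ hx h1, h2]; rfl
  · simp only [Complex.mul_conj']
    exact_mod_cast c1 _ hx

theorem sum_app_cj {D : ℕ} {g : Fam (⊥ : Subfield ℝ) lv I} {χ : Fin D → UT lv ℝ → ℂ}
    (h : ∀ x ∈ g.GG, ∑ j, χ j x * (starRingEnd ℂ) (χ j x) = 1) {Q : HR} [Fact (2 ≤ Q)]
    (x : UT lv HR) (hx : x ∈ (g.star Q).GG) :
    ∑ j, (app (fun _ => χ j) x : HC) * cj (app (fun _ => χ j) x) = 1 := by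
  obtain ⟨x, rfl⟩ := NS.surj x
  simp only [NC.app_stUT]
  change ∑ j, Germ.coeRingHom UU (fun n => χ j (x n) * (starRingEnd ℂ) (χ j (x n))) = _
  rw [← map_sum, ← Germ.coe_one]
  exact Germ.coe_eq.2 ((st_mem_GG.1 hx).mono fun n hn => by
    simpa only [Finset.sum_apply, Pi.one_apply] using h _ hn)

theorem NiceR.nice_cst {g : Fam (⊥ : Subfield ℝ) lv I} {q : ℕ} {L : ℝ} {F : UT lv ℝ → ℂ}
    (hq : 0 < q) (h : NiceR q L g.GG F) (Q : HR) [Fact (2 ≤ Q)] :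
    Nice Q (q : HR) (g.star Q).GG (app fun _ => F) :=
  NiceR.nice (q := fun _ => q) (L := fun _ => L) (Eventually.of_forall fun _ => ⟨hq, h⟩)
    (natCast_mem _ _) (real_OO _)

end Pool.Agent.P.MP_a14ce1_nt.Nil
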