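import Mathlib

/-!
Soft Efron-Stein decomposition. One real inner product space, classes indexed by sets of
coordinates, approximate lifts. Nearest points without compactness and the reset of the constant.
-/

open Finset
open scoped RealInnerProductSpace

namespace Pool.Agent.P.MP_a14ce1_nt.Nil.ES

variable {E : Type*} [SeminormedAddCommGroup E] [InnerProductSpace ℝ E]
variable {ι : Type*} [Fintype ι] [DecidableEq ι]

/-- classes of vectors depending on the coordinates in S only -/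
structure Cls (C : Finset ι → Set E) : Prop where
  mono : ∀ S T : Finset ι, S ⊆ T → C S ⊆ C T
  bdd : ∀ S : Finset ι, ∀ x ∈ C S, ‖x‖ ≤ 1

/-- lift in the coordinate k, good against tests with at most one further coordinate -/
def Lift1 (C : Finset ι → Set E) (ε : ℝ) : Prop :=
  ∀ (S : Finset ι) (k : ι), k ∈ S → ∀ F ∈ C S, ∃ F' ∈ C (S.erase k),
    (∀ G ∈ C (S.erase k), |⟪F - F', G⟫| ≤ ε) ∧
      ∀ j, j ∉ S → ∀ G ∈ C (insert j (S.erase k)), |⟪F - F', G⟫| ≤ ε

/-- lift in the coordinate k, good against all tests that do not depend on k -/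
def LiftU (C : Finset ι → Set E) (ε : ℝ) : Prop :=
  ∀ (S : Finset ι) (k : ι), ∀ F ∈ C S, ∃ F' ∈ C (S.erase k),
    ∀ G ∈ C (univ.erase k), |⟪F - F', G⟫| ≤ ε

theorem norm_sub_sq_le_of_tests {x y : E} {ε : ℝ} (hx : |⟪x - y, x⟫| ≤ ε) (hy : |⟪x - y, y⟫| ≤ ε) :
    ‖x - y‖ ^ 2 ≤ 2 * ε := by
  rw [← real_inner_self_eq_norm_sq, inner_sub_right]
  linarith [abs_le.1 hx, abs_le.1 hy]

theorem abs_inner_le_of_norm {x y : E} {a : ℝ} (hx : ‖x‖ ≤ a) (hy : ‖y‖ ≤ 1) : |⟪x, y⟫| ≤ a := by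
  refine (abs_real_inner_le_norm x y).trans ?_
  calc ‖x‖ * ‖y‖ ≤ a * 1 := mul_le_mul hx hy (norm_nonneg _) ((norm_nonneg _).trans hx)
    _ = a := mul_one a

theorem abs_inner_tri {x y z G : E} {a b : ℝ} (h1 : |⟪x - y, G⟫| ≤ a) (h2 : |⟪y - z, G⟫| ≤ b) :
    |⟪x - z, G⟫| ≤ a + b := by
  have : x - z = (x - y) + (y - z) := by abel
  rw [this, inner_add_left]
  exact (abs_add_le _ _).trans (add_le_add h1 h2)

theorem abs_inner_swap {x y G : E} {a : ℝ} (h : |⟪x - y, G⟫| ≤ a) : |⟪y - x, G⟫| ≤ a := by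
  rwa [← neg_sub, inner_neg_left, abs_neg]

theorem Lift1.liftU {C : Finset ι → Set E} (hC : Cls C) {δ : ℝ} (hδ : 0 ≤ δ)
    (h : Lift1 C (δ ^ 2)) : LiftU C (δ ^ 2 + 2 * Fintype.card ι * δ) := by
  have key : ∀ (n : ℕ) (S : Finset ι) (k : ι), Sᶜ.card = n → k ∈ S → ∀ F ∈ C S,
      ∃ F' ∈ C (S.erase k), (∀ G ∈ C (S.erase k), |⟪F - F', G⟫| ≤ δ ^ 2) ∧
        ∀ G ∈ C (univ.erase k), |⟪F - F', G⟫| ≤ δ ^ 2 + 2 * n * δ := by
    intro n
    induction n with
    | zero =>
      intro S k hS hk F hF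
      have : S = univ := by simpa using hS
      subst this
      obtain ⟨F', h1, h2, -⟩ := h _ k hk F hF
      exact ⟨F', h1, h2, fun G hG => by simpa using h2 G hG⟩
    | succ n ih =>
      intro S k hS hk F hF
      obtain ⟨j, hj⟩ : Sᶜ.Nonempty := card_pos.1 (by omega)
      have hjS : j ∉ S := mem_compl.1 hj
      have hc : (insert j S)ᶜ.card = n := by
        rw [compl_insert, card_erase_of_mem hj]; omega
      obtain ⟨F'', g1, g2, g3⟩ := ih (insert j S) k hc (mem_insert_of_mem hk) F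
        (hC.mono _ _ (subset_insert _ _) hF)
      obtain ⟨F', h1, h2, h3⟩ := h S k hk F hF
      have e : (insert j S).erase k = insert j (S.erase k) :=
        erase_insert_of_ne (fun e => hjS (e ▸ hk))
      rw [e] at g1 g2
      have h1' : F' ∈ C (insert j (S.erase k)) := hC.mono _ _ (subset_insert _ _) h1
      have hd : ∀ G ∈ C (insert j (S.erase k)), |⟪F'' - F', G⟫| ≤ δ ^ 2 + δ ^ 2 := fun G hG =>
        abs_inner_tri (abs_inner_swap (g2 G hG)) (h3 j hjS G hG)
      have hn : ‖F'' - F'‖ ≤ 2 * δ := by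
        have := norm_sub_sq_le_of_tests (hd _ g1) (hd _ h1')
        exact (pow_le_pow_iff_left₀ (norm_nonneg _) (by positivity) two_ne_zero).1 (by nlinarith)
      refine ⟨F', h1, h2, fun G hG => ?_⟩
      have := abs_inner_tri (g3 G hG) (abs_inner_le_of_norm hn (hC.bdd _ G hG))
      push_cast
      linarith
  intro S k F hF
  by_cases hk : k ∈ S
  · obtain ⟨F', h1, -, h3⟩ := key _ S k rfl hk F hF
    refine ⟨F', h1, fun G hG => (h3 G hG).trans ?_⟩
    have : (Sᶜ.card : ℝ) ≤ Fintype.card ι := by exact_mod_cast card_le_univ _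
    nlinarith
  · refine ⟨F, by rwa [erase_eq_of_notMem hk], fun G _ => ?_⟩
    simp only [sub_self, inner_zero_left, abs_zero]
    positivity

theorem LiftU.multi {C : Finset ι → Set E} (hC : Cls C) {ε : ℝ} (h : LiftU C ε) (R S : Finset ι) :
    ∀ F ∈ C S, ∃ F' ∈ C (S \ R), ∀ G ∈ C Rᶜ, |⟪F - F', G⟫| ≤ R.card * ε := by
  induction R using Finset.induction_on with
  | empty => exact fun F hF => ⟨F, by simpa using hF, fun G _ => by simp⟩
  | insert k R hk ih =>
    intro F hF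
    obtain ⟨F', h1, h2⟩ := ih F hF
    obtain ⟨F'', h3, h4⟩ := h _ k F' h1
    refine ⟨F'', by rwa [sdiff_insert], fun G hG => ?_⟩
    have a1 : G ∈ C Rᶜ := hC.mono _ _ (compl_subset_compl.2 (subset_insert _ _)) hG
    have a2 : G ∈ C (univ.erase k) := hC.mono _ _ (by
      intro x hx
      simp only [mem_compl, mem_insert, not_or] at hx
      simp [hx.1]) hG
    have := abs_inner_tri (h2 G a1) (h4 G a2)
    rw [card_insert_of_notMem hk]
    push_cast
    linarith

/-- a resolution of F: approximate commuting projections -/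
structure Res (C : Finset ι → Set E) (F : E) (M : Finset ι → E) (γ : ℝ) : Prop where
  mem : ∀ T, M T ∈ C T
  top : M univ = F
  gram : ∀ T T' : Finset ι, ∀ G ∈ C T', |⟪M T - M (T ∩ T'), G⟫| ≤ γ

theorem LiftU.res {C : Finset ι → Set E} (hC : Cls C) {ε : ℝ} (hε : 0 ≤ ε) (h : LiftU C ε) {F : E}
    (hF : F ∈ C univ) :
    ∃ M, Res C F M (Fintype.card ι * ε + √(6 * Fintype.card ι * ε)) := by
  have hcard : ∀ R : Finset ι, (R.card : ℝ) * ε ≤ Fintype.card ι * ε := fun R =>
    mul_le_mul_of_nonneg_right (by exact_mod_cast card_le_univ _) hε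
  have h1 : ∀ T : Finset ι, ∃ m ∈ C T, (T = univ → m = F) ∧
      ∀ G ∈ C T, |⟪F - m, G⟫| ≤ Fintype.card ι * ε := by
    intro T
    by_cases hT : T = univ
    · subst hT
      refine ⟨F, hF, fun _ => rfl, fun G _ => ?_⟩
      simp only [sub_self, inner_zero_left, abs_zero]
      positivity
    · obtain ⟨m, hm, hm'⟩ := h.multi hC Tᶜ univ F hF
      rw [compl_compl] at hm'
      have e : univ \ Tᶜ = T := by ext; simp
      rw [e] at hm
      exact ⟨m, hm, fun e => absurd e hT, fun G hG => (hm' G hG).trans (hcard _)⟩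
  choose M hM hM1 hM2 using h1
  refine ⟨M, hM, hM1 _ rfl, fun T T' G hG => ?_⟩
  obtain ⟨m, hm, hm'⟩ := h.multi hC T'ᶜ T (M T) (hM T)
  rw [compl_compl] at hm'
  have e : T \ T'ᶜ = T ∩ T' := by ext; simp
  rw [e] at hm
  have hd : ∀ G ∈ C (T ∩ T'), |⟪m - M (T ∩ T'), G⟫| ≤ 3 * Fintype.card ι * ε := by
    intro G hG
    have a1 := abs_inner_swap ((hm' G (hC.mono _ _ inter_subset_right hG)).trans (hcard _))
    have a2 := abs_inner_swap (hM2 T G (hC.mono _ _ inter_subset_left hG))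
    have := abs_inner_tri (abs_inner_tri a1 a2) (hM2 _ G hG)
    linarith
  have hn : ‖m - M (T ∩ T')‖ ≤ √(6 * Fintype.card ι * ε) := by
    have := norm_sub_sq_le_of_tests (hd _ hm) (hd _ (hM _))
    exact Real.le_sqrt_of_sq_le (by linarith)
  exact abs_inner_tri ((hm' G hG).trans (hcard _)) (abs_inner_le_of_norm hn (hC.bdd _ G hG))

/-! ### The decomposition -/

section lin

variable {V : Type*} [AddCommGroup V] [Module ℝ V]

/-- the piece of exact support T -/
noncomputable def dd (M : Finset ι → V) (T : Finset ι) : V :=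
  ∑ S ∈ T.powerset, ((-1 : ℝ) ^ (T.card + S.card)) • M S

omit [Fintype ι] in
theorem dd_insert (M : Finset ι → V) {T : Finset ι} {k : ι} (hk : k ∉ T) :
    dd M (insert k T) =
      ∑ S ∈ T.powerset, ((-1 : ℝ) ^ (T.card + S.card)) • (M (insert k S) - M S) := by
  unfold dd
  rw [sum_powerset_insert hk, ← sum_add_distrib]
  refine sum_congr rfl fun S hS => ?_
  have hkS : k ∉ S := fun h => hk (mem_powerset.1 hS h)
  rw [card_insert_of_notMem hk, card_insert_of_notMem hkS, smul_sub]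
  have e1 : (-1 : ℝ) ^ (T.card + 1 + S.card) = -(-1) ^ (T.card + S.card) := by ring
  have e2 : (-1 : ℝ) ^ (T.card + 1 + (S.card + 1)) = (-1) ^ (T.card + S.card) := by ring
  rw [e1, e2, neg_smul]
  abel

omit [Fintype ι] in
theorem sum_dd (S : Finset ι) : ∀ M : Finset ι → V, ∑ T ∈ S.powerset, dd M T = M S := by
  induction S using Finset.induction_on with
  | empty => intro M; simp [dd]
  | insert k S hk ih =>
    intro M
    rw [sum_powerset_insert hk, ← sum_add_distrib, ← ih fun T => M (insert k T)]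
    refine sum_congr rfl fun T hT => ?_
    rw [dd_insert M fun h => hk (mem_powerset.1 hT h)]
    unfold dd
    rw [← sum_add_distrib]
    refine sum_congr rfl fun U _ => ?_
    rw [smul_sub]
    abel

/-- coefficients of the sum of the pieces with support in the family A -/
noncomputable def cf (A : Finset (Finset ι)) (S : Finset ι) : ℝ :=
  ∑ T ∈ A, if S ⊆ T then (-1 : ℝ) ^ (T.card + S.card) else 0

/-- linear combination with coefficients c -/
noncomputable def syn (c : Finset ι → ℝ) (M : Finset ι → V) : V := ∑ S, c S • M S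

theorem syn_cf (A : Finset (Finset ι)) (M : Finset ι → V) : syn (cf A) M = ∑ T ∈ A, dd M T := by
  unfold syn cf dd
  simp only [sum_smul]
  rw [sum_comm]
  refine sum_congr rfl fun T _ => ?_
  simp only [ite_smul, zero_smul]
  rw [← sum_filter]
  congr 1
  ext S
  simp

theorem abs_cf_le (A : Finset (Finset ι)) (S : Finset ι) : |cf A S| ≤ 2 ^ Fintype.card ι := by
  unfold cf
  refine (abs_sum_le_sum_abs _ _).trans ((sum_le_card_nsmul _ _ 1 fun T _ => ?_).trans ?_)
  · split_ifs <;> simp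
  · have : A.card ≤ 2 ^ Fintype.card ι := by
      rw [← Fintype.card_finset]; exact card_le_univ _
    rw [nsmul_eq_mul, mul_one]
    exact_mod_cast this

theorem sum_abs_cf_le (A : Finset (Finset ι)) : ∑ S, |cf A S| ≤ 4 ^ Fintype.card ι := by
  refine (sum_le_card_nsmul _ _ _ fun S _ => abs_cf_le A S).trans (le_of_eq ?_)
  rw [card_univ, Fintype.card_finset, nsmul_eq_mul]
  push_cast
  rw [← mul_pow]
  norm_num

omit [Fintype ι] in
theorem cf_ne_zero {A : Finset (Finset ι)} {S : Finset ι} (h : cf A S ≠ 0) : ∃ T ∈ A, S ⊆ T := by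
  obtain ⟨T, hT, h'⟩ := exists_ne_zero_of_sum_ne_zero h
  exact ⟨T, hT, by by_contra hn; simp [hn] at h'⟩

/-- small sets -/
def lo (ι : Type*) [Fintype ι] (l0 : ℕ) : Finset (Finset ι) := univ.filter fun T => T.card ≤ l0

/-- small sets without k -/
def lok (l0 : ℕ) (k : ι) : Finset (Finset ι) := univ.filter fun T => T.card ≤ l0 ∧ k ∉ T

theorem cf_lo_ne_zero {l0 : ℕ} {S : Finset ι} (h : cf (lo ι l0) S ≠ 0) : S.card ≤ l0 := by
  obtain ⟨T, hT, h'⟩ := cf_ne_zero h
  exact (card_le_card h').trans (mem_filter.1 hT).2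

theorem cf_lok_ne_zero {l0 : ℕ} {k : ι} {S : Finset ι} (h : cf (lok l0 k) S ≠ 0) :
    S.card ≤ l0 ∧ k ∉ S := by
  obtain ⟨T, hT, h'⟩ := cf_ne_zero h
  exact ⟨(card_le_card h').trans (mem_filter.1 hT).2.1, fun hk => (mem_filter.1 hT).2.2 (h' hk)⟩

end lin

variable {C : Finset ι → Set E} {F : E} {M : Finset ι → E} {γ : ℝ}

theorem Res.nonneg (h : Res C F M γ) : 0 ≤ γ := (abs_nonneg _).trans (h.gram ∅ ∅ _ (h.mem _))

theorem Res.dd_test (h : Res C F M γ) {T S : Finset ι} (hT : ¬T ⊆ S) {G : E} (hG : G ∈ C S) :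
    |⟪dd M T, G⟫| ≤ 2 ^ Fintype.card ι * γ := by
  obtain ⟨k, hk, hkS⟩ := not_subset.1 hT
  obtain ⟨T0, hk0, rfl⟩ : ∃ T0, k ∉ T0 ∧ T = insert k T0 :=
    ⟨T.erase k, notMem_erase _ _, (insert_erase hk).symm⟩
  rw [dd_insert M hk0, sum_inner]
  refine (abs_sum_le_sum_abs _ _).trans ((sum_le_card_nsmul _ _ (γ + γ) fun U _ => ?_).trans ?_)
  · rw [real_inner_smul_left, abs_mul, abs_pow, abs_neg, abs_one, one_pow, one_mul]
    have a1 := h.gram (insert k U) S G hG
    rw [insert_inter_of_notMem hkS] at a1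
    exact abs_inner_tri a1 (abs_inner_swap (h.gram U S G hG))
  · rw [card_powerset, nsmul_eq_mul]
    have : T0.card + 1 ≤ Fintype.card ι := by
      rw [← card_insert_of_notMem hk0]; exact card_le_univ _
    have h2 : (2 : ℝ) ^ (T0.card + 1) ≤ 2 ^ Fintype.card ι := pow_le_pow_right₀ (by norm_num) this
    have := h.nonneg
    push_cast
    rw [pow_succ] at h2
    nlinarith

theorem Res.dd_orth (hC : Cls C) (h : Res C F M γ) {T T' : Finset ι} (hT : T ≠ T') :
    |⟪dd M T, dd M T'⟫| ≤ 4 ^ Fintype.card ι * γ := by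
  wlog hs : ¬T ⊆ T' generalizing T T'
  · rw [real_inner_comm]
    exact this hT.symm fun h' => hT (Subset.antisymm (not_not.1 hs) h')
  conv_lhs => enter [1, 3]; unfold dd
  rw [inner_sum]
  refine (abs_sum_le_sum_abs _ _).trans
    ((sum_le_card_nsmul _ _ (2 ^ Fintype.card ι * γ) fun U hU => ?_).trans ?_)
  · rw [real_inner_smul_right, abs_mul, abs_pow, abs_neg, abs_one, one_pow, one_mul]
    exact h.dd_test hs (hC.mono _ _ (mem_powerset.1 hU) (h.mem U))
  · rw [card_powerset, nsmul_eq_mul]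
    have h2 : (2 : ℝ) ^ T'.card ≤ 2 ^ Fintype.card ι :=
      pow_le_pow_right₀ (by norm_num) (card_le_univ _)
    have h4 : (4 : ℝ) ^ Fintype.card ι = 2 ^ Fintype.card ι * 2 ^ Fintype.card ι := by
      rw [← mul_pow]; norm_num
    have := h.nonneg
    push_cast
    rw [h4, mul_assoc]
    gcongr

theorem Res.pyth (hC : Cls C) (h : Res C F M γ) (A : Finset (Finset ι)) :
    |‖∑ T ∈ A, dd M T‖ ^ 2 - ∑ T ∈ A, ‖dd M T‖ ^ 2| ≤ 16 ^ Fintype.card ι * γ := by
  have hA : (A.card : ℝ) ≤ 2 ^ Fintype.card ι := by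
    have : A.card ≤ 2 ^ Fintype.card ι := by
      rw [← Fintype.card_finset]; exact card_le_univ _
    exact_mod_cast this
  have hγ := h.nonneg
  rw [← real_inner_self_eq_norm_sq, sum_inner, ← sum_sub_distrib]
  refine (abs_sum_le_sum_abs _ _).trans ((sum_le_card_nsmul _ _
    (2 ^ Fintype.card ι * (4 ^ Fintype.card ι * γ)) fun T hT => ?_).trans ?_)
  · rw [inner_sum, ← add_sum_erase _ _ hT, real_inner_self_eq_norm_sq, add_sub_cancel_left]
    refine (abs_sum_le_sum_abs _ _).trans ((sum_le_card_nsmul _ _ _ fun U hU =>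
      h.dd_orth hC (ne_of_mem_erase hU).symm).trans ?_)
    rw [nsmul_eq_mul]
    have : ((A.erase T).card : ℝ) ≤ A.card := by exact_mod_cast card_erase_le
    gcongr
    exact this.trans hA
  · rw [nsmul_eq_mul]
    have h4 : (16 : ℝ) ^ Fintype.card ι =
        2 ^ Fintype.card ι * (2 ^ Fintype.card ι * 4 ^ Fintype.card ι) := by
      rw [← mul_pow, ← mul_pow]; norm_num
    rw [h4, mul_assoc, mul_assoc]
    gcongr

theorem Res.sum_dd_univ (h : Res C F M γ) : ∑ T, dd M T = F := by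
  rw [← h.top, ← sum_dd univ M, powerset_univ]

theorem Res.sub_erase (h : Res C F M γ) (k : ι) :
    F - M (univ.erase k) = ∑ T ∈ univ.filter (fun T : Finset ι => k ∈ T), dd M T := by
  rw [← h.sum_dd_univ, ← sum_dd (univ.erase k) M,
    ← sum_filter_add_sum_filter_not univ (fun T : Finset ι => k ∈ T)]
  have : univ.filter (fun T : Finset ι => ¬k ∈ T) = (univ.erase k).powerset := by
    ext T
    simp [subset_erase]
  rw [this, add_sub_cancel_right]

/-- M T is an approximate nearest point of F in the class of T -/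
theorem Res.proj (h : Res C F M γ) {T : Finset ι} {G : E} (hG : G ∈ C T) :
    ‖F - M T‖ ^ 2 ≤ ‖F - G‖ ^ 2 + 4 * γ := by
  have a1 := h.gram univ T G hG
  have a2 := h.gram univ T _ (h.mem T)
  rw [univ_inter, h.top] at a1 a2
  have e : F - G = (F - M T) + (M T - G) := by abel
  rw [e, norm_add_sq_real, inner_sub_right]
  nlinarith [abs_le.1 a1, abs_le.1 a2, sq_nonneg ‖M T - G‖]

theorem Res.infl (hC : Cls C) (h : Res C F M γ) (k : ι) {G : E} (hG : G ∈ C (univ.erase k)) :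
    ∑ T ∈ univ.filter (fun T : Finset ι => k ∈ T), ‖dd M T‖ ^ 2 ≤
      ‖F - G‖ ^ 2 + (4 + 16 ^ Fintype.card ι) * γ := by
  have a1 := h.proj hG
  have a2 := h.pyth hC (univ.filter fun T : Finset ι => k ∈ T)
  rw [← h.sub_erase] at a2
  linarith [abs_le.1 a2]

/-- Efron-Stein: F is close to its low degree part -/
theorem Res.low_close (hC : Cls C) (h : Res C F M γ) (l0 : ℕ) (G : ι → E)
    (hG : ∀ k, G k ∈ C (univ.erase k)) :
    ‖F - syn (cf (lo ι l0)) M‖ ^ 2 ≤ (∑ k, ‖F - G k‖ ^ 2) / (l0 + 1) +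
      6 * (Fintype.card ι + 1) * 16 ^ Fintype.card ι * γ := by
  have hγ := h.nonneg
  have e : F - syn (cf (lo ι l0)) M =
      ∑ T ∈ univ.filter (fun T : Finset ι => ¬T.card ≤ l0), dd M T := by
    rw [syn_cf, ← h.sum_dd_univ,
      ← sum_filter_add_sum_filter_not univ (fun T : Finset ι => T.card ≤ l0), lo,
      add_sub_cancel_left]
  have a1 := h.pyth hC (univ.filter fun T : Finset ι => ¬T.card ≤ l0)
  rw [← e] at a1
  have a2 : (l0 + 1 : ℝ) * ∑ T ∈ univ.filter (fun T : Finset ι => ¬T.card ≤ l0), ‖dd M T‖ ^ 2 ≤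
      ∑ k, ∑ T ∈ univ.filter (fun T : Finset ι => k ∈ T), ‖dd M T‖ ^ 2 := by
    simp only [sum_filter]
    rw [sum_comm, mul_sum]
    refine sum_le_sum fun T _ => ?_
    rw [← sum_filter, sum_const, nsmul_eq_mul, filter_mem_eq_inter, univ_inter]
    split_ifs with hT
    · rw [mul_zero]; positivity
    · have : (l0 + 1 : ℝ) ≤ T.card := by exact_mod_cast (by omega : l0 + 1 ≤ T.card)
      gcongr
  have a3 : ∑ k, ∑ T ∈ univ.filter (fun T : Finset ι => k ∈ T), ‖dd M T‖ ^ 2 ≤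
      ∑ k, ‖F - G k‖ ^ 2 + Fintype.card ι * ((4 + 16 ^ Fintype.card ι) * γ) := by
    refine (sum_le_sum fun k _ => h.infl hC k (hG k)).trans (le_of_eq ?_)
    rw [sum_add_distrib, sum_const, card_univ, nsmul_eq_mul]
  have h16 : (1 : ℝ) ≤ 16 ^ Fintype.card ι := one_le_pow₀ (by norm_num)
  have hl : (1 : ℝ) ≤ l0 + 1 := by linarith [Nat.cast_nonneg (α := ℝ) l0]
  have a4 : ∑ T ∈ univ.filter (fun T : Finset ι => ¬T.card ≤ l0), ‖dd M T‖ ^ 2 ≤
      (∑ k, ‖F - G k‖ ^ 2) / (l0 + 1) + Fintype.card ι * ((4 + 16 ^ Fintype.card ι) * γ) := by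
    have b : Fintype.card ι * ((4 + 16 ^ Fintype.card ι) * γ) / (l0 + 1 : ℝ) ≤
        Fintype.card ι * ((4 + 16 ^ Fintype.card ι) * γ) := div_le_self (by positivity) hl
    have c : ∑ T ∈ univ.filter (fun T : Finset ι => ¬T.card ≤ l0), ‖dd M T‖ ^ 2 ≤
        (∑ k, ‖F - G k‖ ^ 2 + Fintype.card ι * ((4 + 16 ^ Fintype.card ι) * γ)) / (l0 + 1) := by
      rw [le_div_iff₀ (by positivity)]
      linarith
    rw [add_div] at c
    linarith
  have a5 : (Fintype.card ι : ℝ) * ((4 + 16 ^ Fintype.card ι) * γ) + 16 ^ Fintype.card ι * γ ≤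
      6 * (Fintype.card ι + 1) * 16 ^ Fintype.card ι * γ := by
    have b : (0 : ℝ) ≤ Fintype.card ι := Nat.cast_nonneg _
    have c : γ ≤ 16 ^ Fintype.card ι * γ := le_mul_of_one_le_left hγ h16
    nlinarith [mul_le_mul_of_nonneg_left c b]
  linarith [abs_le.1 a1]

/-- any partial sum of pieces has norm at most about the norm of F -/
theorem Res.norm_syn (hC : Cls C) (h : Res C F M γ) (A : Finset (Finset ι)) :
    ‖syn (cf A) M‖ ^ 2 ≤ ‖F‖ ^ 2 + 2 * 16 ^ Fintype.card ι * γ := by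
  have a1 := h.pyth hC A
  have a2 := h.pyth hC univ
  rw [h.sum_dd_univ] at a2
  rw [← syn_cf] at a1
  have a3 : ∑ T ∈ A, ‖dd M T‖ ^ 2 ≤ ∑ T, ‖dd M T‖ ^ 2 :=
    sum_le_sum_of_subset_of_nonneg (subset_univ _) fun _ _ _ => sq_nonneg _
  linarith [abs_le.1 a1, abs_le.1 a2]

/-- influences of the low degree part -/
theorem Res.low_infl (hC : Cls C) (h : Res C F M γ) (l0 : ℕ) (k : ι) {G : E}
    (hG : G ∈ C (univ.erase k)) :
    ‖syn (cf (lo ι l0)) M - syn (cf (lok l0 k)) M‖ ^ 2 ≤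
      ‖F - G‖ ^ 2 + 6 * 16 ^ Fintype.card ι * γ := by
  have hγ := h.nonneg
  have e : syn (cf (lo ι l0)) M - syn (cf (lok l0 k)) M =
      ∑ T ∈ (lo ι l0).filter (fun T : Finset ι => k ∈ T), dd M T := by
    rw [syn_cf, syn_cf, ← sum_filter_add_sum_filter_not (lo ι l0) (fun T : Finset ι => k ∈ T)]
    have : (lo ι l0).filter (fun T : Finset ι => ¬k ∈ T) = lok l0 k := by
      rw [lo, lok, filter_filter]
    rw [this, add_sub_cancel_right]
  have a1 := h.pyth hC ((lo ι l0).filter fun T : Finset ι => k ∈ T)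
  rw [← e] at a1
  have a2 := h.infl hC k hG
  have a3 : ∑ T ∈ (lo ι l0).filter (fun T : Finset ι => k ∈ T), ‖dd M T‖ ^ 2 ≤
      ∑ T ∈ univ.filter (fun T : Finset ι => k ∈ T), ‖dd M T‖ ^ 2 :=
    sum_le_sum_of_subset_of_nonneg (filter_subset_filter _ (subset_univ _))
      fun _ _ _ => sq_nonneg _
  have h16 : (1 : ℝ) ≤ 16 ^ Fintype.card ι := one_le_pow₀ (by norm_num)
  have c : γ ≤ 16 ^ Fintype.card ι * γ := le_mul_of_one_le_left hγ h16
  linarith [abs_le.1 a1]

end Pool.Agent.P.MP_a14ce1_nt.Nil.ES
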