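import Pool.Agent.P.MP_a14ce1_nt.Nil.VinG
import Pool.Agent.P.MP_a14ce1_nt.Nil.PigF

/-! Irrationality survives the passage to the lattice `p w` for most integers `p`. -/

open Filter Finset MvPolynomial

set_option linter.unusedSectionVars false

noncomputable section

namespace Pool.Agent.P.MP_a14ce1_nt.Nil

variable {A S : Type} [NS A S] {ι : Type} [Fintype ι] [DecidableEq ι] {lv : ι → ℕ} {σ : Type}
  {Q : HR} [Fact (2 ≤ Q)]

variable (Q) in
/-- `π` maps the internal set `T` injectively onto a dense subset of the long interval `[0, P)`. -/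
structure Par (T : Ns (Finset S)) (π : A → HZ) (P : HZ) : Prop where
  pos : 0 < P
  long : Tiny Q (ci P)⁻¹
  int : IntF π
  mem : ∀ a, Mem a T → 0 ≤ π a ∧ π a < P
  inj : ∀ a a', Mem a T → Mem a' T → π a = π a' → a = a'
  big : Big Q (cd T / ci P)

theorem par_box {P : HZ} (h0 : 0 < P) (h : Tiny Q (ci P)⁻¹) :
    Par Q (box fun _ : Unit => P) (fun p : Unit → HZ => p ()) P where
  pos := h0
  long := h
  int := by fun_prop
  mem _ ha := mem_box.1 ha ()
  inj _ _ _ _ e := funext fun _ => e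
  big := by
    rw [cd_box fun _ => h0.le, Fintype.prod_unique, div_self]
    · exact big_one
    · rw [← map_zero ci]; exact (ci_lt.2 h0).ne'

variable {T : Ns (Finset S)} {π : A → HZ} {P : HZ}

theorem Par.ci_pos (h : Par Q T π P) : 0 < ci P := by rw [← map_zero ci]; exact ci_lt.2 h.pos

theorem Par.div_OO (h : Par Q T π P) {a : A} (ha : Mem a T) : ci (π a) / ci P ∈ OO Q := by
  refine OO_of_le_one ?_
  rw [abs_div, abs_of_pos h.ci_pos, div_le_one h.ci_pos, ← ci_abs, abs_of_nonneg (h.mem a ha).1]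
  exact ci_le.2 (h.mem a ha).2.le

theorem Par.dense (h : Par Q T π P) {p : HZ → Prop} (hd : Dense Q T fun a => p (π a)) :
    Dense Q (box fun _ : Unit => P) fun k : Unit → HZ => p (k ()) :=
  Dense.of_inj (e := fun a (_ : Unit) => π a) (IntF.pi fun _ => h.int)
    (fun a ha => mem_box.2 fun _ => h.mem a ha) (fun a a' ha ha' e => h.inj a a' ha ha' (congrFun e ()))
    (by rw [cd_box fun _ => h.pos.le, Fintype.prod_unique]; exact h.big) hd

/-- VIN for a polynomial in the parameter. -/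
theorem Par.vin (h : Par Q T π P) {θ : HR} (hθ : Tiny Q θ) (f : Polynomial HR)
    (hd : Dense Q T fun a => ∃ o ∈ OO Q, ∃ r ∈ RT Q, f.eval (ci (π a)) = θ * o + r) (i : ℕ) :
    ∃ o ∈ OO Q, ∃ r ∈ RT Q, f.coeff i = θ * o / ci P ^ i + r := by
  have := vinG (N := fun _ : Unit => P) (fun _ => ⟨h.pos, h.long⟩) hθ (f.toMvPolynomial ())
    (by
      have := h.dense (p := fun k => ∃ o ∈ OO Q, ∃ r ∈ RT Q, f.eval (ci k) = θ * o + r) hd
      simpa only [MvPolynomial.eval_toMvPolynomial, zv] using this) (Finsupp.single () i)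
  rw [Finsupp.prod_single_index (by simp)] at this
  have e : coeff (Finsupp.single () i) (f.toMvPolynomial ()) = f.coeff i := by
    clear this hd
    induction f using Polynomial.induction_on' with
    | add p q hp hq => rw [map_add, coeff_add, hp, hq, Polynomial.coeff_add]
    | monomial n a =>
      rw [← Polynomial.C_mul_X_pow_eq_monomial, map_mul, map_pow, Polynomial.toMvPolynomial_C,
        Polynomial.toMvPolynomial_X, C_mul_X_pow_eq_monomial, coeff_monomial,
        Polynomial.coeff_C_mul_X_pow]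
      simp only [(Finsupp.single_injective ()).eq_iff, eq_comm]
  rwa [e] at this

/-- VIN for a monomial in the parameter. -/
theorem Par.vin_pow (h : Par Q T π P) {θ α : HR} (hθ : Tiny Q θ) {i : ℕ}
    (hd : Dense Q T fun a => ∃ o ∈ OO Q, ∃ r ∈ RT Q, α * ci (π a) ^ i = θ * o + r) :
    ∃ o ∈ OO Q, ∃ r ∈ RT Q, α = θ * o / ci P ^ i + r := by
  have := h.vin hθ (Polynomial.monomial i α) (by simpa only [Polynomial.eval_monomial] using hd) i
  rwa [Polynomial.coeff_monomial_same] at this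

theorem mem_Sm_sup_Rt {N w : σ → HR} {β : σ →₀ ℕ} {x : HR} : x ∈ (Sm Q N).s β ⊔ (Rt Q w).s β ↔
    ∃ t, (x - t) * β.prod (fun l k => N l ^ k) ∈ OO Q ∧ t * β.prod (fun l k => w l ^ k) ∈ RT Q := by
  rw [Submodule.mem_sup]
  exact ⟨fun ⟨s, hs, t, ht, e⟩ => ⟨t, by rwa [← e, add_sub_cancel_right], ht⟩,
    fun ⟨t, h1, h2⟩ => ⟨x - t, h1, t, h2, sub_add_cancel _ _⟩⟩

theorem prod_mul_pow (w : σ → HR) (c : HR) (β : σ →₀ ℕ) :
    β.prod (fun l k => (w l * c) ^ k) = β.prod (fun l k => w l ^ k) * c ^ β.degree := by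
  simp only [mul_pow, Finsupp.prod, Finset.prod_mul_distrib, Finset.prod_pow_eq_pow_sum,
    Finsupp.degree_apply]

/-- Scalar form: small plus rational for the lattices `p w`, `p` in a dense set, is small plus
rational for the lattice `w`. -/
theorem Par.scalar (h : Par Q T π P) {N w : σ → HR}
    (hw : ∀ l, N l ≠ 0 ∧ w l ≠ 0 ∧ Tiny Q (w l * ci P / N l)) {β : σ →₀ ℕ} {x : HR}
    (hd : Dense Q T fun a => x ∈ (Sm Q N).s β ⊔ (Rt Q fun l => w l * ci (π a)).s β) :
    x ∈ (Sm Q N).s β ⊔ (Rt Q w).s β := by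
  classical
  by_cases hβ : β = 0
  · obtain ⟨a, -, ha⟩ := hd.exists
    subst hβ
    simpa only [mem_Sm_sup_Rt, Finsupp.prod_zero_index] using ha
  have hN : β.prod (fun l k => N l ^ k) ≠ 0 :=
    Finset.prod_ne_zero_iff.2 fun l _ => pow_ne_zero _ (hw l).1
  have hW : β.prod (fun l k => w l ^ k) ≠ 0 :=
    Finset.prod_ne_zero_iff.2 fun l _ => pow_ne_zero _ (hw l).2.1
  have hP : ci P ^ β.degree ≠ 0 := pow_ne_zero _ h.ci_pos.ne'
  have hθ : Tiny Q (β.prod (fun l k => w l ^ k) * ci P ^ β.degree / β.prod fun l k => N l ^ k) := by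
    obtain ⟨l, hl⟩ := Finsupp.support_nonempty_iff.2 hβ
    rw [← prod_mul_pow, Finsupp.prod, Finsupp.prod, ← Finset.prod_div_distrib,
      ← Finset.mul_prod_erase _ _ hl, ← div_pow]
    refine ((hw l).2.2.pow (Finsupp.mem_support_iff.1 hl)).mul (prod_mem fun m _ => ?_)
    rw [← div_pow]
    exact pow_mem (hw m).2.2.mem_OO _
  obtain ⟨o, ho, r, hr, e⟩ := h.vin_pow (α := x * β.prod fun l k => w l ^ k) (i := β.degree) hθ
    (hd.mono fun a ha hx => by
      obtain ⟨t, h1, h2⟩ := mem_Sm_sup_Rt.1 hx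
      rw [prod_mul_pow] at h2
      refine ⟨_, mul_mem h1 (pow_mem (h.div_OO ha) β.degree), _, h2, ?_⟩
      rw [div_pow]
      field_simp
      ring)
  refine mem_Sm_sup_Rt.2 ⟨r / β.prod fun l k => w l ^ k, ?_, by rwa [div_mul_cancel₀ _ hW]⟩
  have : (x - r / β.prod fun l k => w l ^ k) * β.prod (fun l k => N l ^ k) = o := by
    rw [eq_div_of_mul_eq hW e]
    field_simp
    ring
  rwa [this]

theorem Sig.coefP [Finite σ] (N : σ → HR) {w : A → σ → HR} (hw : IntF w) (β : σ →₀ ℕ)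
    {f : A → HR} (hf : IntF f) : Sig fun a => f a ∈ (Sm Q N).s β ⊔ (Rt Q (w a)).s β :=
  (Sig.ex (r := fun a t => (f a - t) * β.prod (fun l k => N l ^ k) ∈ OO Q ∧
      t * β.prod (fun l k => w a l ^ k) ∈ RT Q)
    ((Sig.memOO (by fun_prop)).and (Sig.memRT (IntF.id.snd.mul
      (IntF.prod fun l => ((hw.comp IntF.id.fst).coord l).pow _))))).congr fun _ => mem_Sm_sup_Rt

/-- ACC. -/
theorem Par.acc [Fintype σ] [DecidableEq σ] (h : Par Q T π P) {N w : σ → HR}
    (hw : ∀ l, N l ≠ 0 ∧ w l ≠ 0 ∧ Tiny Q (w l * ci P / N l)) {g : Fam (KK Q) lv ℕ} {D : ℕ}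
    (hg : g.Fil D) {n : Submodule HR (Matrix ι ι HR)} {x : PS lv σ HR}
    (hi : Irr (Sm Q N) (Rt Q w) g n x) :
    ¬Dense Q T fun a => ¬Irr (Sm Q N) (Rt Q fun l => w l * ci (π a)) g n x := by
  intro hd
  have hπ := h.int
  obtain ⟨i, κ, h1, h2⟩ := pigeon_adm hg (p := fun _ => True)
    (s := fun i a κ => ∀ β : σ →₀ ℕ, β.degree = i →
      fn κ (co β (lg x)) ∈ (Sm Q N).s β ⊔ (Rt Q fun l => w l * ci (π a)).s β)
    (fun i => Sig.ball (Finsupp.finite_of_degree_eq i) fun β =>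
      Sig.coefP N (w := fun (z : A × Matrix ι ι HR) l => w l * ci (π z.1)) (by fun_prop) β
        (by fun_prop))
    (hd.mono fun a _ ha => ⟨trivial, not_irr_iff.1 ha⟩)
  obtain ⟨β, hβ, hb⟩ := hi i _ h1
  exact hb (h.scalar hw (h2.mono fun a _ ha => ha.2 β hβ))

end Pool.Agent.P.MP_a14ce1_nt.Nil
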