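import Pool.Agent.P.MP_a14ce1_nt.Nil.BCH

/-!
The algebraic model: unipotent matrix groups, rational families of subspaces,
polynomial sequences, small and rational sequences, factorisations.
-/

open Finset

set_option linter.unusedSectionVars false

noncomputable section

namespace Pool.Agent.P.MP_a14ce1_nt.Nil

/-! ### Unipotent matrices over a commutative `ℚ`-algebra -/

section UT

variable {ι : Type} [Fintype ι] [DecidableEq ι]

/-- Matrices `1 + (strictly upper triangular for the level function lv)`. -/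
@[ext] structure UT (lv : ι → ℕ) (R : Type) [CommRing R] [Algebra ℚ R] where
  val : Matrix ι ι R
  up : val - 1 ∈ mF R lv 1

variable {lv : ι → ℕ} {R R' : Type} [CommRing R] [Algebra ℚ R] [CommRing R'] [Algebra ℚ R']

theorem up_nil {X : Matrix ι ι R} (h : X ∈ mF R lv 1) : IsNilpotent X := (filt_mF R lv).nil h

namespace UT

theorem nil (x : UT lv R) : IsNilpotent (x.val - 1) := up_nil x.up

instance : Group (UT lv R) where
  mul x y := ⟨x.val * y.val, (filt_mF R lv).mul_sub_one_mem x.up y.up⟩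
  one := ⟨1, by simp⟩
  inv x := ⟨IsNilpotent.exp (-log x.val),
    (filt_mF R lv).exp_sub_one_mem (neg_mem ((filt_mF R lv).log_mem x.up))⟩
  mul_assoc x y z := UT.ext (mul_assoc x.val y.val z.val)
  one_mul x := UT.ext (one_mul x.val)
  mul_one x := UT.ext (mul_one x.val)
  inv_mul_cancel x := UT.ext (by
    change IsNilpotent.exp (-log x.val) * x.val = 1
    conv_lhs => rw [← exp_log x.nil, log_exp (isNilpotent_log x.nil)]
    exact IsNilpotent.exp_neg_mul_exp_self (isNilpotent_log x.nil))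

@[simp] theorem mul_val (x y : UT lv R) : (x * y).val = x.val * y.val := rfl
@[simp] theorem one_val : (1 : UT lv R).val = 1 := rfl
@[simp] theorem inv_mul_val (x : UT lv R) : x⁻¹.val * x.val = 1 := by
  rw [← mul_val, inv_mul_cancel, one_val]
@[simp] theorem mul_inv_val (x : UT lv R) : x.val * x⁻¹.val = 1 := by
  rw [← mul_val, mul_inv_cancel, one_val]

/-- Change of the coefficient ring. -/
def map (φ : R →+* R') : UT lv R →* UT lv R' where
  toFun x := ⟨x.val.map φ, fun a b h => by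
    have := congrArg φ (x.up a b h)
    rw [map_zero, Matrix.sub_apply, map_sub] at this
    rw [Matrix.sub_apply, Matrix.map_apply, ← this]
    congr 1
    by_cases e : a = b <;> simp [Matrix.one_apply, e]⟩
  map_one' := UT.ext (Matrix.map_one _ (map_zero φ) (map_one φ))
  map_mul' _ _ := UT.ext Matrix.map_mul

@[simp] theorem map_val (φ : R →+* R') (x : UT lv R) : (map φ x).val = x.val.map φ := rfl

end UT

/-- The logarithm. -/
def lg (x : UT lv R) : Matrix ι ι R := log x.val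

open Classical in
/-- The exponential (junk value `1` outside the strictly upper triangular matrices). -/
def ex (lv : ι → ℕ) (X : Matrix ι ι R) : UT lv R :=
  if h : X ∈ mF R lv 1 then ⟨IsNilpotent.exp X, (filt_mF R lv).exp_sub_one_mem h⟩ else 1

theorem lg_mem (x : UT lv R) : lg x ∈ mF R lv 1 := (filt_mF R lv).log_mem x.up
theorem ex_val {X : Matrix ι ι R} (h : X ∈ mF R lv 1) : (ex lv X).val = IsNilpotent.exp X := by
  rw [ex, dif_pos h]
theorem exp_lg (x : UT lv R) : IsNilpotent.exp (lg x) = x.val := exp_log x.nil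
@[simp] theorem ex_lg (x : UT lv R) : ex lv (lg x) = x := UT.ext (by rw [ex_val (lg_mem x), exp_lg])
theorem lg_ex {X : Matrix ι ι R} (h : X ∈ mF R lv 1) : lg (ex lv X) = X := by
  rw [lg, ex_val h, log_exp (up_nil h)]
theorem lg_inj {x y : UT lv R} (h : lg x = lg y) : x = y := by rw [← ex_lg x, h, ex_lg]
@[simp] theorem lg_one : lg (1 : UT lv R) = 0 := log_one
@[simp] theorem ex_zero : ex lv (0 : Matrix ι ι R) = 1 := by rw [← lg_one (lv := lv), ex_lg]
theorem lg_inv (x : UT lv R) : lg x⁻¹ = -lg x := log_exp (isNilpotent_log x.nil).neg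
theorem lg_mul (x y : UT lv R) :
    lg (x * y) = log (IsNilpotent.exp (lg x) * IsNilpotent.exp (lg y)) := by
  rw [exp_lg, exp_lg]; rfl
theorem lg_map (φ : R →+* R') (x : UT lv R) : lg (UT.map φ x) = (lg x).map φ :=
  (map_log x.nil φ.mapMatrix).symm
theorem lg_conj (g x : UT lv R) : lg (g * x * g⁻¹) = g.val * lg x * g⁻¹.val := by
  have h : g.val * lg x * g⁻¹.val ∈ mF R lv 1 := by
    have h0 : ∀ y : UT lv R, y.val ∈ mF R lv 0 := fun y a b hab => by
      have := y.up a b (by omega)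
      rwa [Matrix.sub_apply, Matrix.one_apply_ne (by rintro rfl; omega), sub_zero] at this
    exact (filt_mF R lv).mul 1 0 _ ((filt_mF R lv).mul 0 1 _ (h0 g) _ (lg_mem x)) _ (h0 _)
  have e := exp_conj (⟨g.val, g⁻¹.val, g.mul_inv_val, g.inv_mul_val⟩ : (Matrix ι ι R)ˣ)
    (up_nil (lg_mem x))
  rw [← lg_ex h]
  congr 1
  apply UT.ext
  rw [ex_val h]
  change IsNilpotent.exp (g.val * lg x * g⁻¹.val) = g.val * IsNilpotent.exp (lg x) * g⁻¹.val at e
  rw [e, exp_lg]; rfl

/-- A Lie algebra of strictly upper triangular matrices. -/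
structure Lie (lv : ι → ℕ) (R : Type) [CommRing R] [Algebra ℚ R] where
  L : Submodule ℚ (Matrix ι ι R)
  up : L ≤ mF R lv 1
  br : ∀ a ∈ L, ∀ b ∈ L, a * b - b * a ∈ L

/-- Its group. -/
def Lie.grp (𝔏 : Lie lv R) : Subgroup (UT lv R) where
  carrier := {x | lg x ∈ 𝔏.L}
  one_mem' := by simp
  mul_mem' {x y} hx hy := by
    change lg (x * y) ∈ 𝔏.L
    rw [lg_mul]; exact bch_mem (filt_mF R lv) 𝔏.up 𝔏.br hx hy
  inv_mem' {x} hx := by
    change lg x⁻¹ ∈ 𝔏.L
    rw [lg_inv]; exact neg_mem hx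

theorem Lie.mem_grp {𝔏 : Lie lv R} {x : UT lv R} : x ∈ 𝔏.grp ↔ lg x ∈ 𝔏.L := Iff.rfl

/-- First order Campbell-Hausdorff in the group. -/
theorem lg_mul_sub {𝔏 : Lie lv R} {J : Submodule ℚ (Matrix ι ι R)} (hJ : J ≤ 𝔏.L)
    (h : ∀ a ∈ 𝔏.L, ∀ b ∈ J, a * b - b * a ∈ J) {x y : UT lv R} (hx : x ∈ 𝔏.grp)
    (hy : y ∈ 𝔏.grp) (hxy : lg x * lg y - lg y * lg x ∈ J) : lg (x * y) - lg x - lg y ∈ J := by
  rw [lg_mul]; exact bch (filt_mF R lv) 𝔏.up hJ h hx hy hxy

end UT

/-! ### Rational subspaces and families -/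

section Fam

variable {FF : Type} [Field FF] [CharZero FF] {ι : Type} [Fintype ι] [DecidableEq ι]

/-- All entries lie in the set `S`. -/
def Ent {ι R : Type} (S : Set R) (X : Matrix ι ι R) : Prop := ∀ a b, X a b ∈ S

/-- A subspace defined over the subfield `K`. -/
def IsRat (K : Subfield FF) (V : Submodule FF (Matrix ι ι FF)) : Prop :=
  ∀ φ : FF →ₗ[K] FF, ∀ X ∈ V, X.map φ ∈ V

/-- A functional defined over `K`. -/
def RatF (K : Subfield FF) (η : Matrix ι ι FF →ₗ[FF] FF) : Prop :=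
  ∀ X, Ent (K : Set FF) X → η X ∈ K

/-- A family of `K`-rational subspaces indexed by a commutative monoid, closed under brackets. -/
@[ext] structure Fam (K : Subfield FF) (lv : ι → ℕ) (I : Type) [AddCommMonoid I] where
  r : I → Submodule FF (Matrix ι ι FF)
  up : ∀ i, ∀ X ∈ r i, X ∈ mF FF lv 1
  rat : ∀ i, IsRat K (r i)
  br : ∀ i j, ∀ X ∈ r i, ∀ Y ∈ r j, X * Y - Y * X ∈ r (i + j)

variable {K : Subfield FF} {lv : ι → ℕ} {I I' : Type} [AddCommMonoid I] [AddCommMonoid I']

instance : PartialOrder (Fam K lv I) := PartialOrder.lift Fam.r fun _ _ h => Fam.ext h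

theorem Fam.le_def {g h : Fam K lv I} : g ≤ h ↔ ∀ i, g.r i ≤ h.r i := Iff.rfl

/-- Intersection. -/
def Fam.inf (g h : Fam K lv I) : Fam K lv I where
  r i := g.r i ⊓ h.r i
  up i X hX := g.up i X hX.1
  rat i φ X hX := ⟨g.rat i φ X hX.1, h.rat i φ X hX.2⟩
  br i j X hX Y hY := ⟨g.br i j X hX.1 Y hY.1, h.br i j X hX.2 Y hY.2⟩

/-- Change of the index monoid. -/
def Fam.comap (g : Fam K lv I) (φ : I' →+ I) : Fam K lv I' where
  r i := g.r (φ i)
  up i := g.up (φ i)
  rat i := g.rat (φ i)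
  br i j X hX Y hY := by rw [map_add]; exact g.br _ _ X hX Y hY

/-- The fine family (one subspace per monomial) of a coarse family. -/
def Fam.fine (g : Fam K lv ℕ) (σ : Type) : Fam K lv (σ →₀ ℕ) := g.comap Finsupp.degree

open Classical in
/-- The same family without constant terms. -/
def Fam.plus {σ : Type} (g : Fam K lv (σ →₀ ℕ)) : Fam K lv (σ →₀ ℕ) where
  r β := if β = 0 then ⊥ else g.r β
  up β X hX := by
    split_ifs at hX
    · rw [Submodule.mem_bot] at hX; rw [hX]; exact zero_mem _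
    · exact g.up β X hX
  rat β φ X hX := by
    split_ifs at hX ⊢
    · rw [Submodule.mem_bot] at hX ⊢; rw [hX]; exact Matrix.map_zero _ (map_zero φ)
    · exact g.rat β φ X hX
  br β γ X hX Y hY := by
    by_cases hβ : β = 0
    · rw [if_pos hβ, Submodule.mem_bot] at hX; simp [hX]
    by_cases hγ : γ = 0
    · rw [if_pos hγ, Submodule.mem_bot] at hY; simp [hY]
    rw [if_neg hβ] at hX
    rw [if_neg hγ] at hY
    rw [if_neg fun h => hβ (add_eq_zero.1 h).1]
    exact g.br β γ X hX Y hY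

/-- Nothing above the total degree `D`. -/
def Fam.Bd {σ : Type} (g : Fam K lv (σ →₀ ℕ)) (D : ℕ) : Prop :=
  ∀ β : σ →₀ ℕ, D < β.degree → g.r β = ⊥

/-- A filtered system: nested, `g 0 = g 1`, nothing above `D`. -/
structure Fam.Fil (g : Fam K lv ℕ) (D : ℕ) : Prop where
  zero : g.r 0 = g.r 1
  anti : ∀ i, g.r (i + 1) ≤ g.r i
  bd : g.r (D + 1) = ⊥

/-- The Lie algebra in degree zero and its group (for a filtered system, `G = exp g₁`). -/
def Fam.lie0 (g : Fam K lv I) : Lie lv FF where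
  L := (g.r 0).restrictScalars ℚ
  up X hX := g.up 0 X hX
  br X hX Y hY := by have := g.br 0 0 X hX Y hY; rwa [add_zero] at this

def Fam.GG (g : Fam K lv I) : Subgroup (UT lv FF) := g.lie0.grp

/-- `n` is a `K`-rational ideal of `g 0`. -/
structure Fam.Idl (g : Fam K lv I) (n : Submodule FF (Matrix ι ι FF)) : Prop where
  rat : IsRat K n
  le : n ≤ g.r 0
  br : ∀ X ∈ g.r 0, ∀ Y ∈ n, X * Y - Y * X ∈ n

end Fam

/-! ### Polynomial sequences -/

section Poly

open MvPolynomial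

variable {FF : Type} [Field FF] [CharZero FF] {ι : Type} [Fintype ι] [DecidableEq ι]
  {K : Subfield FF} {lv : ι → ℕ} {σ τ : Type}

/-- Polynomial sequences of unipotent matrices. -/
abbrev PS (lv : ι → ℕ) (σ FF : Type) [Field FF] [CharZero FF] := UT lv (MvPolynomial σ FF)

/-- The coefficient matrix of the monomial `β`. -/
def co (β : σ →₀ ℕ) (X : Matrix ι ι (MvPolynomial σ FF)) : Matrix ι ι FF := X.map (coeff β)

theorem co_add (β : σ →₀ ℕ) (X Y : Matrix ι ι (MvPolynomial σ FF)) :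
    co β (X + Y) = co β X + co β Y := by ext a b; simp [co]
theorem co_sub (β : σ →₀ ℕ) (X Y : Matrix ι ι (MvPolynomial σ FF)) :
    co β (X - Y) = co β X - co β Y := by ext a b; simp [co]
@[simp] theorem co_zero (β : σ →₀ ℕ) : co β (0 : Matrix ι ι (MvPolynomial σ FF)) = 0 := by
  ext a b; simp [co]
theorem co_qsmul (β : σ →₀ ℕ) (c : ℚ) (X : Matrix ι ι (MvPolynomial σ FF)) :
    co β (c • X) = c • co β X := by ext a b; simp [co]
theorem co_mul [DecidableEq σ] (β : σ →₀ ℕ) (X Y : Matrix ι ι (MvPolynomial σ FF)) :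
    co β (X * Y) = ∑ p ∈ antidiagonal β, co p.1 X * co p.2 Y := by
  ext a b
  simp only [co, Matrix.map_apply, Matrix.mul_apply, coeff_sum, coeff_mul, Matrix.sum_apply]
  exact sum_comm
theorem co_br [DecidableEq σ] (β : σ →₀ ℕ) (X Y : Matrix ι ι (MvPolynomial σ FF)) :
    co β (X * Y - Y * X) = ∑ p ∈ antidiagonal β, (co p.1 X * co p.2 Y - co p.2 Y * co p.1 X) := by
  rw [co_sub, co_mul, co_mul, sum_sub_distrib]
  congr 1
  exact (Finsupp.sum_antidiagonal_swap β fun u v => co v Y * co u X).symm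
theorem ext_co {X Y : Matrix ι ι (MvPolynomial σ FF)} (h : ∀ β, co β X = co β Y) : X = Y :=
  Matrix.ext fun a b => MvPolynomial.ext _ _ fun β => congrFun (congrFun (h β) a) b
theorem up_iff_co {X : Matrix ι ι (MvPolynomial σ FF)} :
    X ∈ mF (MvPolynomial σ FF) lv 1 ↔ ∀ β, co β X ∈ mF FF lv 1 :=
  ⟨fun h β a b hab => by simp [co, h a b hab],
    fun h a b hab => MvPolynomial.ext _ _ fun β => h β a b hab⟩

/-- Polynomials whose coefficient of `β` lies in `r β`. -/
def pm (r : (σ →₀ ℕ) → Submodule FF (Matrix ι ι FF)) :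
    Submodule ℚ (Matrix ι ι (MvPolynomial σ FF)) where
  carrier := {X | ∀ β, co β X ∈ r β}
  add_mem' hX hY β := by rw [co_add]; exact add_mem (hX β) (hY β)
  zero_mem' β := by simp
  smul_mem' c X hX β := by rw [co_qsmul]; exact Submodule.smul_of_tower_mem _ c (hX β)

theorem mem_pm {r : (σ →₀ ℕ) → Submodule FF (Matrix ι ι FF)}
    {X : Matrix ι ι (MvPolynomial σ FF)} : X ∈ pm r ↔ ∀ β, co β X ∈ r β := Iff.rfl

def Fam.lie (g : Fam K lv (σ →₀ ℕ)) : Lie lv (MvPolynomial σ FF) where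
  L := pm g.r
  up X hX := up_iff_co.2 fun β => g.up β _ (hX β)
  br X hX Y hY β := by
    classical
    rw [co_br]
    refine Submodule.sum_mem _ fun p hp => ?_
    rw [← mem_antidiagonal.1 hp]
    exact g.br _ _ _ (hX _) _ (hY _)

/-- The group of polynomial sequences adapted to a fine family. -/
def Fam.PG (g : Fam K lv (σ →₀ ℕ)) : Subgroup (PS lv σ FF) := g.lie.grp

theorem Fam.mem_PG {g : Fam K lv (σ →₀ ℕ)} {x : PS lv σ FF} :
    x ∈ g.PG ↔ ∀ β, co β (lg x) ∈ g.r β := Iff.rfl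

/-- A multiplicative family of `K`-submodules of the big field (small or rational numbers). -/
structure Sc (K : Subfield FF) (σ : Type) where
  s : (σ →₀ ℕ) → Submodule K FF
  mul : ∀ β γ, ∀ x ∈ s β, ∀ y ∈ s γ, x * y ∈ s (β + γ)

open Classical in
/-- The same family without constant terms. -/
def Sc.plus (S : Sc K σ) : Sc K σ where
  s β := if β = 0 then ⊥ else S.s β
  mul β γ x hx y hy := by
    by_cases hβ : β = 0
    · rw [if_pos hβ, Submodule.mem_bot] at hx; simp [hx]
    by_cases hγ : γ = 0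
    · rw [if_pos hγ, Submodule.mem_bot] at hy; simp [hy]
    rw [if_neg hβ] at hx
    rw [if_neg hγ] at hy
    rw [if_neg fun h => hβ (add_eq_zero.1 h).1]
    exact S.mul β γ x hx y hy

theorem Sc.qsmul (S : Sc K σ) {β : σ →₀ ℕ} (c : ℚ) {x : FF} (hx : x ∈ S.s β) : c • x ∈ S.s β := by
  have := (S.s β).smul_mem (c : K) hx
  rwa [Subfield.smul_def, smul_eq_mul, SubfieldClass.coe_ratCast, ← Rat.smul_def] at this

def Sc.lie (S : Sc K σ) (lv : ι → ℕ) : Lie lv (MvPolynomial σ FF) where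
  L := mF _ lv 1 ⊓
    { carrier := {X | ∀ β, Ent (S.s β : Set FF) (co β X)}
      add_mem' := fun hX hY β a b => by rw [co_add]; exact add_mem (hX β a b) (hY β a b)
      zero_mem' := fun β a b => by simp
      smul_mem' := fun c X hX β a b => by rw [co_qsmul]; exact S.qsmul c (hX β a b) }
  up := inf_le_left
  br X hX Y hY := by
    classical
    have k := fun X Y hX hY => (filt_mF (MvPolynomial σ FF) lv).anti 1
      ((filt_mF (MvPolynomial σ FF) lv).mul 1 1 X hX Y hY)
    refine ⟨sub_mem (k X Y hX.1 hY.1) (k Y X hY.1 hX.1), fun β a b => ?_⟩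
    rw [co_br, Matrix.sum_apply]
    refine Submodule.sum_mem _ fun p hp => ?_
    rw [← mem_antidiagonal.1 hp, Matrix.sub_apply, Matrix.mul_apply, Matrix.mul_apply]
    refine sub_mem (Submodule.sum_mem _ fun c _ => S.mul _ _ _ (hX.2 _ a c) _ (hY.2 _ c b))
      (Submodule.sum_mem _ fun c _ => ?_)
    rw [mul_comm]
    exact S.mul _ _ _ (hX.2 _ c b) _ (hY.2 _ a c)

/-- Sequences whose logarithm has the entries of the coefficient of `β` in `S β`. -/
def Sc.EE (S : Sc K σ) (lv : ι → ℕ) : Subgroup (PS lv σ FF) := (S.lie lv).grp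

theorem Sc.mem_EE {S : Sc K σ} {x : PS lv σ FF} :
    x ∈ S.EE lv ↔ ∀ β, Ent (S.s β : Set FF) (co β (lg x)) :=
  ⟨fun h => h.2, fun h => ⟨lg_mem x, h⟩⟩

/-- `x = (small) * (adapted to h) * (rational)`, all factors adapted to `g`. -/
def Fac (S T : Sc K σ) (g h : Fam K lv (σ →₀ ℕ)) (x : PS lv σ FF) : Prop :=
  ∃ e ∈ g.PG ⊓ S.EE lv, ∃ y ∈ g.PG ⊓ h.PG, ∃ c ∈ g.PG ⊓ T.EE lv, x = e * y * c

/-- Small and rational numbers meet trivially in positive degree. -/
def Sep (S T : Sc K σ) : Prop := ∀ β : σ →₀ ℕ, β ≠ 0 → S.s β ⊓ T.s β = ⊥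

/-- Evaluation, constants, substitution. -/
def ev (n : σ → FF) : PS lv σ FF →* UT lv FF := UT.map (eval n)
def cst (σ : Type) : UT lv FF →* PS lv σ FF := UT.map C
def sb (f : σ → MvPolynomial τ FF) : PS lv σ FF →* PS lv τ FF := UT.map (aeval f).toRingHom
/-- The shift `t ↦ t + h`. -/
def sh (h : σ → FF) : PS lv σ FF →* PS lv σ FF := sb fun l => X l + C (h l)

/-- Admissible pair for the filtered system `g` modulo `n`. -/
structure Adm (g : Fam K lv ℕ) (n : Submodule FF (Matrix ι ι FF)) (i : ℕ)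
    (η : Matrix ι ι FF →ₗ[FF] FF) : Prop where
  pos : 1 ≤ i
  rat : RatF K η
  ne : ∃ X ∈ g.r i, η X ≠ 0
  nxt : ∀ X ∈ g.r (i + 1), η X = 0
  br : ∀ a b, a + b = i → ∀ X ∈ g.r a, ∀ Y ∈ g.r b, η (X * Y - Y * X) = 0
  idl : ∀ X ∈ g.r i ⊓ n, η X = 0

/-- No admissible pair sees small plus rational coefficients. -/
def Irr (S T : Sc K σ) (g : Fam K lv ℕ) (n : Submodule FF (Matrix ι ι FF)) (x : PS lv σ FF) :
    Prop :=
  ∀ i η, Adm g n i η → ∃ β : σ →₀ ℕ, β.degree = i ∧ η (co β (lg x)) ∉ S.s β ⊔ T.s β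

end Poly

end Pool.Agent.P.MP_a14ce1_nt.Nil
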