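import Pool.Agent.P.MP_a14ce1_nt.Nil.Mahler

/-! Bogolyubov lemma on an interval of integers and the bracket-linear structure of Freiman
homomorphisms on dense sets. -/

namespace Pool.Agent.P.MP_a14ce1_nt.Nil

open Finset ComplexConjugate

namespace BogoP

section fourier

variable (M : ℕ) [NeZero M] (H : Finset ℤ)

/-- the exponential sum over `H` -/
noncomputable def FF (ξ : ZMod M) : ℂ := ∑ h ∈ H, ZMod.stdAddChar (ξ * (h : ZMod M))

theorem normSq_FF (ξ : ZMod M) : (Complex.normSq (FF M H ξ) : ℂ) =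
    ∑ a ∈ H, ∑ b ∈ H, ZMod.stdAddChar (ξ * ((a - b : ℤ) : ZMod M)) := by
  rw [← Complex.mul_conj, FF, map_sum, sum_mul_sum]
  refine sum_congr rfl fun a _ => sum_congr rfl fun b _ => ?_
  rw [← AddChar.map_neg_eq_conj, ← AddChar.map_add_eq_mul]
  congr 1
  push_cast
  ring

theorem orth (n : ℤ) (hn : |n| < M) :
    ∑ ξ : ZMod M, ZMod.stdAddChar (ξ * (n : ZMod M)) = if n = 0 then (M : ℂ) else 0 := by
  rw [AddChar.sum_mulShift _ (ZMod.isPrimitive_stdAddChar M), ZMod.card]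
  have : (n : ZMod M) = 0 ↔ n = 0 := by
    rw [ZMod.intCast_zmod_eq_zero_iff_dvd]
    exact ⟨fun h => Int.eq_zero_of_abs_lt_dvd h hn, fun h => h ▸ dvd_zero _⟩
  by_cases h : n = 0
  · rw [if_pos (this.2 h), if_pos h]
  · rw [if_neg (fun h' => h (this.1 h')), if_neg h, Nat.cast_zero]

theorem parseval (hH : ∀ a ∈ H, ∀ b ∈ H, |a - b| < M) :
    ∑ ξ, Complex.normSq (FF M H ξ) = M * H.card := by
  apply Complex.ofReal_injective
  push_cast
  simp_rw [normSq_FF]
  rw [sum_comm]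
  calc _ = ∑ a ∈ H, (M : ℂ) := sum_congr rfl fun a ha => by
        rw [sum_comm, sum_congr rfl fun b hb => orth M _ (hH a ha b hb)]
        simp_rw [sub_eq_zero]
        rw [sum_ite_eq, if_pos ha]
    _ = _ := by rw [sum_const, nsmul_eq_mul, mul_comm]

theorem fourth (u : ℤ) (hH : ∀ a ∈ H, ∀ b ∈ H, ∀ c ∈ H, ∀ d ∈ H,
      a + b - c - d - u ≠ 0 ∧ |a + b - c - d - u| < M) :
    ∑ ξ, Complex.normSq (FF M H ξ) ^ 2 * (ZMod.stdAddChar (ξ * ((-u : ℤ) : ZMod M))).re = 0 := by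
  have h : ∑ ξ, (Complex.normSq (FF M H ξ) : ℂ) ^ 2 *
      ZMod.stdAddChar (ξ * ((-u : ℤ) : ZMod M)) = 0 := by
    have : ∀ ξ, (Complex.normSq (FF M H ξ) : ℂ) ^ 2 * ZMod.stdAddChar (ξ * ((-u : ℤ) : ZMod M)) =
        ∑ a ∈ H, ∑ b ∈ H, ∑ c ∈ H, ∑ d ∈ H,
          ZMod.stdAddChar (ξ * ((a + b - c - d - u : ℤ) : ZMod M)) := by
      intro ξ
      rw [sq, normSq_FF, sum_mul_sum, sum_mul]
      refine sum_congr rfl fun a _ => ?_
      rw [sum_mul]
      refine sum_congr rfl fun b _ => ?_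
      rw [sum_mul_sum, sum_mul]
      refine sum_congr rfl fun c _ => ?_
      rw [sum_mul]
      refine sum_congr rfl fun d _ => ?_
      rw [← AddChar.map_add_eq_mul, ← AddChar.map_add_eq_mul]
      congr 1
      push_cast
      ring
    simp_rw [this]
    rw [sum_comm]
    refine sum_eq_zero fun a ha => ?_
    rw [sum_comm]
    refine sum_eq_zero fun b hb => ?_
    rw [sum_comm]
    refine sum_eq_zero fun c hc => ?_
    rw [sum_comm]
    refine sum_eq_zero fun d hd => ?_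
    rw [orth M _ (hH a ha b hb c hc d hd).2, if_neg (hH a ha b hb c hc d hd).1]
  have h2 := congrArg Complex.re h
  rw [Complex.re_sum, Complex.zero_re] at h2
  rw [← h2]
  refine sum_congr rfl fun ξ _ => ?_
  rw [← Complex.ofReal_pow, Complex.re_ofReal_mul]

theorem re_nonneg (ξ : ZMod M) (u m : ℤ) (h : |(ξ.val : ℝ) / M * u - m| ≤ 1 / 4) :
    0 ≤ (ZMod.stdAddChar (ξ * ((-u : ℤ) : ZMod M))).re := by
  have hM : (M : ℂ) ≠ 0 := Nat.cast_ne_zero.2 (NeZero.ne M)
  have e : ξ * ((-u : ℤ) : ZMod M) = ((m * M - ξ.val * u : ℤ) : ZMod M) := by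
    push_cast
    rw [ZMod.natCast_self, ZMod.natCast_zmod_val]
    ring
  have e2 : 2 * Real.pi * Complex.I * ((m * M - ξ.val * u : ℤ) : ℂ) / M =
      ((-(2 * Real.pi * ((ξ.val : ℝ) / M * u - m)) : ℝ) : ℂ) * Complex.I := by
    push_cast
    field_simp
    ring
  rw [e, ZMod.stdAddChar_coe, e2, Complex.exp_ofReal_mul_I_re, Real.cos_neg]
  obtain ⟨h1, h2⟩ := abs_le.1 h
  have := Real.pi_pos
  exact Real.cos_nonneg_of_mem_Icc ⟨by nlinarith, by nlinarith⟩

end fourier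

end BogoP

open BogoP

/-- Bogolyubov lemma: `2H - 2H` contains a Bohr set of bounded rank -/
theorem bogolyubov {d : ℝ} (hd : 0 < d) {D : ℕ} (hD : 90 / d ^ 2 ≤ D) {N : ℕ} (hN : 1 ≤ N)
    (H : Finset ℤ) (hH : H ⊆ Icc (-(N : ℤ)) N) (hc : d * N ≤ H.card) :
    ∃ θ : Fin D → ℝ, ∀ u : ℤ, |u| ≤ 4 * N → (∀ j, ∃ m : ℤ, |θ j * u - m| ≤ 1 / 4) →
      ∃ a ∈ H, ∃ b ∈ H, ∃ c ∈ H, ∃ e ∈ H, u = a + b - c - e := by
  classical
  have hN' : (1 : ℝ) ≤ N := by exact_mod_cast hN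
  set M : ℕ := 8 * N + 1 with hM
  have hMr : (M : ℝ) ≤ 9 * N := by rw [hM]; push_cast; linarith
  have hb : ∀ a ∈ H, -(N : ℤ) ≤ a ∧ a ≤ N := fun a ha => mem_Icc.1 (hH ha)
  have hpos : (0 : ℝ) < H.card := lt_of_lt_of_le (by positivity) hc
  have hP := parseval M H fun a ha b hb' => by
    have := hb a ha
    have := hb b hb'
    rw [abs_lt]
    constructor <;> omega
  set w : ZMod M → ℝ := fun ξ => Complex.normSq (FF M H ξ) with hw
  have hw0 : ∀ ξ, 0 ≤ w ξ := fun ξ => Complex.normSq_nonneg _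
  let Sp := univ.filter fun ξ => d / 10 * (H.card : ℝ) ^ 2 ≤ w ξ
  have hSp : Sp.card ≤ D := by
    have h1 : (Sp.card : ℝ) * (d / 10 * (H.card : ℝ) ^ 2) ≤ M * H.card := by
      rw [← hP, ← nsmul_eq_mul]
      exact (card_nsmul_le_sum _ _ _ fun ξ hξ => (mem_filter.1 hξ).2).trans
        (sum_le_sum_of_subset_of_nonneg (subset_univ _) fun ξ _ _ => hw0 ξ)
    have h2 : (Sp.card : ℝ) * (d / 10 * H.card) ≤ M := by
      refine le_of_mul_le_mul_right ?_ hpos
      calc _ = (Sp.card : ℝ) * (d / 10 * (H.card : ℝ) ^ 2) := by ring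
        _ ≤ _ := h1
    have h3 : (Sp.card : ℝ) * (d / 10 * (d * N)) ≤ 9 * N :=
      le_trans (by gcongr) (h2.trans hMr)
    have h4 : (Sp.card : ℝ) ≤ 90 / d ^ 2 := by
      rw [le_div_iff₀ (by positivity)]
      refine le_of_mul_le_mul_right ?_ (by positivity : (0 : ℝ) < N)
      nlinarith
    exact_mod_cast h4.trans hD
  obtain ⟨emb⟩ : Nonempty (Sp ↪ Fin D) := Function.Embedding.nonempty_of_card_le (by simpa)
  let f : Fin D → ZMod M := Function.extend emb Subtype.val 0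
  refine ⟨fun j => ((f j).val : ℝ) / M, fun u hu hθ => ?_⟩
  by_contra hne
  push Not at hne
  have h4 := fourth M H u fun a ha b hb' c hc' e he => by
    have h1 := hb a ha
    have h2 := hb b hb'
    have h3 := hb c hc'
    have h4 := hb e he
    have h5 := hne a ha b hb' c hc' e he
    rw [abs_le] at hu
    rw [abs_lt]
    refine ⟨?_, ?_, ?_⟩ <;> omega
  have hpt : ∀ ξ : ZMod M, (if ξ = 0 then (H.card : ℝ) ^ 4 else 0) -
      d / 10 * (H.card : ℝ) ^ 2 * w ξ ≤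
      w ξ ^ 2 * (ZMod.stdAddChar (ξ * ((-u : ℤ) : ZMod M))).re := by
    intro ξ
    have h0 : 0 ≤ d / 10 * (H.card : ℝ) ^ 2 * w ξ := by have := hw0 ξ; positivity
    split_ifs with hξ
    · have : w 0 = (H.card : ℝ) ^ 2 := by
        simp [hw, FF, sq]
      rw [hξ] at h0 ⊢
      rw [zero_mul, AddChar.map_zero_eq_one, Complex.one_re, mul_one]
      rw [this] at h0 ⊢
      nlinarith
    · by_cases hs : ξ ∈ Sp
      · obtain ⟨m, hm⟩ := hθ (emb ⟨ξ, hs⟩)
        have : f (emb ⟨ξ, hs⟩) = ξ := emb.injective.extend_apply _ _ _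
        simp only [this] at hm
        have := mul_nonneg (sq_nonneg (w ξ)) (re_nonneg M ξ u m hm)
        linarith
      · have h1 : w ξ ≤ d / 10 * (H.card : ℝ) ^ 2 :=
          (not_le.1 fun h => hs (mem_filter.2 ⟨mem_univ _, h⟩)).le
        have h2 : -1 ≤ (ZMod.stdAddChar (ξ * ((-u : ℤ) : ZMod M))).re := by
          have := Complex.abs_re_le_norm (ZMod.stdAddChar (ξ * ((-u : ℤ) : ZMod M)))
          rw [AddChar.norm_apply] at this
          exact (abs_le.1 this).1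
        have h3 := mul_le_mul_of_nonneg_left h2 (sq_nonneg (w ξ))
        have h4 := mul_le_mul_of_nonneg_right h1 (hw0 ξ)
        nlinarith
  have h5 := sum_le_sum fun ξ (_ : ξ ∈ univ) => hpt ξ
  rw [h4, sum_sub_distrib, ← mul_sum, hP, sum_ite_eq', if_pos (mem_univ _)] at h5
  have h6 : d / 10 * M < H.card := by nlinarith
  have h7 := mul_lt_mul_of_pos_right h6 (pow_pos hpos 3)
  nlinarith

namespace BogoP

section loc

variable {Λ A : Type*} [AddCommGroup Λ] [AddCommGroup A] {n : Λ → ℝ} {Ψ : Λ → A}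

/-- a locally additive map is additive on short combinations -/
theorem loc_lin (hn : ∀ x, 0 ≤ n x) (ha : ∀ x y, n (x + y) ≤ n x + n y)
    (hs : ∀ (k : ℤ) x, n (k • x) = |(k : ℝ)| * n x)
    (hΨ : ∀ x y, n x ≤ 1 → n y ≤ 1 → n (x + y) ≤ 1 → Ψ (x + y) = Ψ x + Ψ y)
    {ι : Type*} (s : Finset ι) (k : ι → ℤ) (v : ι → Λ) (h : ∑ i ∈ s, |(k i : ℝ)| * n (v i) ≤ 1) :
    Ψ (∑ i ∈ s, k i • v i) = ∑ i ∈ s, k i • Ψ (v i) := by
  classical
  have n0 : n 0 = 0 := by simpa using hs 0 0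
  have Ψ0 : Ψ 0 = 0 := by
    have := hΨ 0 0 (by rw [n0]; norm_num) (by rw [n0]; norm_num) (by rw [add_zero, n0]; norm_num)
    simpa using this
  have hneg : ∀ x, n x ≤ 1 → Ψ (-x) = -Ψ x := fun x hx => by
    have h1 : n (-x) = n x := by simpa using hs (-1) x
    have := hΨ x (-x) hx (h1 ▸ hx) (by rw [add_neg_cancel, n0]; norm_num)
    rw [add_neg_cancel, Ψ0] at this
    exact (neg_eq_of_add_eq_zero_right this.symm).symm
  have hnat : ∀ (j : ℕ) x, (j : ℝ) * n x ≤ 1 → Ψ ((j : ℤ) • x) = (j : ℤ) • Ψ x := by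
    intro j x
    induction j with
    | zero => intro _; simpa using Ψ0
    | succ j ih =>
      intro hj
      have h0 := hn x
      have h1 : (0 : ℝ) ≤ j * n x := by positivity
      push_cast at hj ⊢
      have h2 : n ((j : ℤ) • x) = j * n x := by simpa using hs j x
      rw [add_smul, add_smul, one_smul, one_smul, hΨ _ _ (by linarith) (by linarith)
        ((ha _ _).trans (by linarith)), ih (by linarith)]
  have hint : ∀ (j : ℤ) x, |(j : ℝ)| * n x ≤ 1 → Ψ (j • x) = j • Ψ x := by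
    intro j x hj
    obtain ⟨i, rfl | rfl⟩ := Int.eq_nat_or_neg j
    · exact hnat i x (by simpa using hj)
    · have h1 : (i : ℝ) * n x ≤ 1 := by simpa using hj
      rw [neg_smul, neg_smul, hneg _ (by rw [hs]; simpa using h1), hnat i x h1]
  suffices H : n (∑ i ∈ s, k i • v i) ≤ ∑ i ∈ s, |(k i : ℝ)| * n (v i) ∧
      Ψ (∑ i ∈ s, k i • v i) = ∑ i ∈ s, k i • Ψ (v i) from H.2
  induction s using Finset.induction_on with
  | empty => simp [n0, Ψ0]
  | insert a s has ih =>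
    simp only [sum_insert has] at h ⊢
    have h0 : 0 ≤ |(k a : ℝ)| * n (v a) := mul_nonneg (abs_nonneg _) (hn _)
    have h1 : 0 ≤ ∑ i ∈ s, |(k i : ℝ)| * n (v i) :=
      sum_nonneg fun i _ => mul_nonneg (abs_nonneg _) (hn _)
    obtain ⟨h2, h3⟩ := ih (by linarith)
    have h4 := ha (k a • v a) (∑ i ∈ s, k i • v i)
    rw [hs] at h4
    refine ⟨by linarith, ?_⟩
    rw [hΨ _ _ (by rw [hs]; linarith) (by linarith) (by linarith), h3, hint _ _ (by linarith)]

end loc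

section ext

variable {G A : Type*} [AddCommGroup G] [AddCommGroup A] {H : Set G} {B : Set A} {φ : G → A}

/-- `x` is the value of the extension of `φ` at `u` -/
def Rep (H : Set G) (φ : G → A) (u : G) (x : A) : Prop :=
  ∃ a ∈ H, ∃ b ∈ H, ∃ c ∈ H, ∃ e ∈ H, u = a + b - c - e ∧ x = φ a + φ b - φ c - φ e

theorem Rep.add (hφ : IsAddFreimanHom 8 H B φ) {u v : G} {x y z : A} (hx : Rep H φ u x)
    (hy : Rep H φ v y) (hz : Rep H φ (u + v) z) : z = x + y := by
  obtain ⟨a, ha, b, hb, c, hc, e, he, rfl, rfl⟩ := hx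
  obtain ⟨a', ha', b', hb', c', hc', e', he', rfl, rfl⟩ := hy
  obtain ⟨p, hp, q, hq, r, hr, s, hs, h, rfl⟩ := hz
  have := hφ.map_sum_eq_map_sum (s := {a, b, a', b', r, s, a, a}) (t := {p, q, c, e, c', e', a, a})
    (by simp +contextual [or_imp, *]) (by simp +contextual [or_imp, *]) rfl rfl (by
      simp only [Multiset.insert_eq_cons, Multiset.sum_cons, Multiset.sum_singleton]
      rw [← sub_eq_zero] at h ⊢
      rw [← h]
      abel)
  simp only [Multiset.insert_eq_cons, Multiset.map_cons, Multiset.map_singleton,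
    Multiset.sum_cons, Multiset.sum_singleton] at this
  rw [eq_comm, ← sub_eq_zero]
  rw [← sub_eq_zero] at this
  rw [← this]
  abel

/-- the extension of a Freiman homomorphism to `2H - 2H` -/
theorem exists_ext (hφ : IsAddFreimanHom 8 H B φ) : ∃ ψ : G → A,
    (∀ u, (∃ a ∈ H, ∃ b ∈ H, ∃ c ∈ H, ∃ e ∈ H, u = a + b - c - e) → Rep H φ u (ψ u)) ∧
    ∀ h ∈ H, ∀ h₀ ∈ H, ψ (h - h₀) = φ h - φ h₀ := by
  classical
  let ψ : G → A := fun u => if h : ∃ x, Rep H φ u x then h.choose else 0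
  have h1 : ∀ u, (∃ a ∈ H, ∃ b ∈ H, ∃ c ∈ H, ∃ e ∈ H, u = a + b - c - e) → Rep H φ u (ψ u) := by
    rintro u ⟨a, ha, b, hb, c, hc, e, he, hu⟩
    have : ∃ x, Rep H φ u x := ⟨_, a, ha, b, hb, c, hc, e, he, hu, rfl⟩
    simp only [ψ, dif_pos this]
    exact this.choose_spec
  refine ⟨ψ, h1, fun h hh h₀ hh₀ => ?_⟩
  have r1 : Rep H φ (h - h₀) (φ h - φ h₀) :=
    ⟨h, hh, h₀, hh₀, h₀, hh₀, h₀, hh₀, by abel, by abel⟩
  have r0 : Rep H φ 0 0 := ⟨h₀, hh₀, h₀, hh₀, h₀, hh₀, h₀, hh₀, by abel, by abel⟩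
  have r2 : Rep H φ (h - h₀ + 0) (ψ (h - h₀)) := by
    rw [add_zero]
    exact h1 _ ⟨h, hh, h₀, hh₀, h₀, hh₀, h₀, hh₀, by abel⟩
  rw [Rep.add hφ r1 r0 r2, add_zero]

end ext

theorem close {T : ℕ} (hT : 0 < T) {x y : ℝ} (hx : 0 ≤ x) (hy : 0 ≤ y)
    (h : ⌊T * x⌋₊ = ⌊T * y⌋₊) : |x - y| ≤ 1 / T := by
  have hT' : (0 : ℝ) < T := by exact_mod_cast hT
  have h1 := Nat.floor_le (a := T * x) (by positivity)
  have h2 := Nat.floor_le (a := T * y) (by positivity)
  have h3 := Nat.lt_floor_add_one (T * x)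
  have h4 := Nat.lt_floor_add_one (T * y)
  rw [h] at h1 h3
  rw [le_div_iff₀ hT', ← abs_of_pos hT', ← abs_mul, abs_le]
  constructor <;> nlinarith

/-- many points of `H` lie in one small cell -/
theorem cell {ι : Type*} [Fintype ι] {T : ℕ} (hT : 0 < T) (H : Finset ℤ) (x : ι → ℤ → ℝ)
    (hx : ∀ i, ∀ h ∈ H, 0 ≤ x i h ∧ x i h < 1) : ∃ H' ⊆ H,
      (H.card : ℝ) / T ^ Fintype.card ι ≤ H'.card ∧
      ∀ h ∈ H', ∀ h' ∈ H', ∀ i, |x i h - x i h'| ≤ 1 / T := by
  classical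
  have hT' : (0 : ℝ) < T := by exact_mod_cast hT
  obtain ⟨y, -, hy⟩ := exists_le_card_fiber_of_nsmul_le_card_of_maps_to (M := ℝ) (s := H)
    (t := Fintype.piFinset fun _ : ι => range T) (f := fun h i => ⌊T * x i h⌋₊)
    (b := (H.card : ℝ) / T ^ Fintype.card ι)
    (fun h hh => Fintype.mem_piFinset.2 fun i => mem_range.2 (by
      rw [Nat.floor_lt (mul_nonneg hT'.le (hx i h hh).1)]
      have := (hx i h hh).2
      nlinarith))
    ⟨fun _ => 0, Fintype.mem_piFinset.2 fun _ => mem_range.2 hT⟩ (by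
      rw [Fintype.card_piFinset, prod_const, card_range, card_univ, nsmul_eq_mul, Nat.cast_pow,
        mul_div_cancel₀ _ (by positivity)])
  refine ⟨_, filter_subset _ _, hy, fun h hh h' hh' i => ?_⟩
  obtain ⟨h1, h2⟩ := mem_filter.1 hh
  obtain ⟨h3, h4⟩ := mem_filter.1 hh'
  exact close hT (hx i h h1).1 (hx i h' h3).1 (congrFun (h2.trans h4.symm) i)

/-- the linear map defining the Bohr body -/
noncomputable def body {D : ℕ} (R : ℝ) (θ : Fin D → ℝ) :
    (Option (Fin D) → ℝ) →ₗ[ℝ] (Option (Fin D) → ℝ) where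
  toFun x o := o.elim (x none / R) fun j => 4 * (θ j * x none - x (some j))
  map_add' x y := by
    ext o
    cases o <;> simp <;> ring
  map_smul' c x := by
    ext o
    cases o <;> simp <;> ring

end BogoP

/-- Freiman homomorphisms of order eight on dense sets of integers are bracket-linear on a dense
subset -/
theorem bracketLin {d : ℝ} (hd : 0 < d) : ∃ (D : ℕ) (c : ℝ), 0 < c ∧
    ∀ (N : ℕ), 1 ≤ N → ∀ (A : Type*) [AddCommGroup A] (H : Finset ℤ) (B : Set A) (φ : ℤ → A),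
      H ⊆ Icc (-(N : ℤ)) N → d * N ≤ H.card → IsAddFreimanHom 8 (H : Set ℤ) B φ →
      ∃ (θ : Fin D → ℝ) (h₀ : ℤ) (L : ℤ × (Fin D → ℤ) →+ A) (m : ℤ → Fin D → ℤ) (H' : Finset ℤ),
        H' ⊆ H ∧ h₀ ∈ H' ∧ c * N ≤ H'.card ∧
        ∀ h ∈ H', (∀ j, |θ j * (h - h₀) - m h j| ≤ 1 / 10) ∧ φ h = φ h₀ + L (h - h₀, m h) := by
  classical
  set D : ℕ := ⌈90 / d ^ 2⌉₊ with hD
  set C : ℕ := 17 ^ Fintype.card (Option (Fin D)) with hC
  have hC17 : 17 ≤ C := by
    rw [hC, Fintype.card_option, pow_succ]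
    exact Nat.le_mul_of_pos_left _ (by positivity)
  have hCr : (17 : ℝ) ≤ C := by exact_mod_cast hC17
  have hT : 0 < 4 * C := by omega
  refine ⟨D, d / ((4 * C : ℕ) : ℝ) ^ Fintype.card (Option (Fin D)), by positivity,
    fun N hN A _ H B φ hH hc hφ => ?_⟩
  have hN' : (1 : ℝ) ≤ N := by exact_mod_cast hN
  obtain ⟨θ, hθ⟩ := bogolyubov hd (Nat.le_ceil _) hN H hH hc
  obtain ⟨ψ, hψ, hψ'⟩ := exists_ext hφ
  let Nm : Seminorm ℝ (Option (Fin D) → ℝ) :=
    (normSeminorm ℝ (Option (Fin D) → ℝ)).comp (body (4 * N) θ)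
  have hNm : ∀ x, Nm x = ‖body (4 * N) θ x‖ := fun x => rfl
  obtain ⟨U, W, -, hWU, hU⟩ := mahler Nm fun x hx => by
    rw [hNm, norm_eq_zero] at hx
    have h0 : x none / (4 * N) = 0 := congrFun hx none
    have h1 : x none = 0 := by
      rcases div_eq_zero_iff.1 h0 with h | h
      · exact h
      · linarith
    ext o
    cases o with
    | none => exact h1
    | some j =>
      have h2 : 4 * (θ j * x none - x (some j)) = 0 := congrFun hx (some j)
      rw [h1] at h2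
      change x (some j) = 0
      linarith
  let n : (Option (Fin D) → ℤ) → ℝ := fun z => Nm fun o => (z o : ℝ)
  have hmem : ∀ z, n z ≤ 1 → Rep (H : Set ℤ) φ (z none) (ψ (z none)) := by
    intro z hz
    have hz' := (pi_norm_le_iff_of_nonneg zero_le_one).1 hz
    refine hψ _ (hθ _ ?_ fun j => ⟨z (some j), ?_⟩)
    · have h1 : ‖(z none : ℝ) / (4 * N)‖ ≤ 1 := hz' none
      rw [Real.norm_eq_abs, abs_div, abs_of_pos (by positivity : (0 : ℝ) < 4 * N),
        div_le_one (by positivity)] at h1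
      exact_mod_cast h1
    · have h1 : ‖4 * (θ j * (z none : ℝ) - z (some j))‖ ≤ 1 := hz' (some j)
      rw [Real.norm_eq_abs, abs_mul, abs_of_pos (by norm_num : (0 : ℝ) < 4)] at h1
      linarith
  have hlin := fun k => loc_lin (n := n) (Ψ := fun z => ψ (z none)) (fun z => apply_nonneg _ _)
    (fun x y => by
      have : (fun o => ((x + y) o : ℝ)) = (fun o => (x o : ℝ)) + fun o => (y o : ℝ) := by
        ext o; simp
      simp only [n, this]
      exact map_add_le_add _ _ _)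
    (fun k x => by
      have : (fun o => ((k • x) o : ℝ)) = (k : ℝ) • fun o => (x o : ℝ) := by
        ext o; simp
      simp only [n, this]
      rw [map_smul_eq_mul, Real.norm_eq_abs])
    (fun x y hx hy hxy => Rep.add hφ (hmem x hx) (hmem y hy) (hmem _ hxy)) univ k U
  let L₀ : (Option (Fin D) → ℤ) →+ A := AddMonoidHom.mk'
    (fun z => ∑ i, Matrix.vecMul z W i • ψ (U i none)) fun x y => by
      simp only [Matrix.add_vecMul, Pi.add_apply, add_smul, sum_add_distrib]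
  have hL₀ : ∀ z, C * n z ≤ 1 → ψ (z none) = L₀ z := by
    intro z hz
    have e : ∑ i, Matrix.vecMul z W i • U i = z := by
      rw [← Matrix.vecMul_eq_sum, Matrix.vecMul_vecMul, hWU, Matrix.vecMul_one]
    have h1 := hU fun i => ((Matrix.vecMul z W i : ℤ) : ℝ)
    have e2 : (fun j => ∑ i, ((Matrix.vecMul z W i : ℤ) : ℝ) * (U i j : ℝ)) =
        fun o => (z o : ℝ) := by
      ext o
      rw [← congrFun e o]
      simp
    rw [e2] at h1
    have h2 := hlin (Matrix.vecMul z W) (h1.trans (by rw [hC] at hz; exact_mod_cast hz))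
    rw [e] at h2
    exact h2
  let E : ℤ × (Fin D → ℤ) →+ (Option (Fin D) → ℤ) := AddMonoidHom.mk'
    (fun p o => o.elim p.1 p.2) fun p q => by
      ext o
      cases o <;> rfl
  obtain ⟨H', hH', hc', hcl⟩ := cell hT H
    (fun (o : Option (Fin D)) h => o.elim (((h : ℝ) + N) / (2 * N + 1)) fun j => Int.fract (θ j * h))
    (fun o h hh => by
      cases o with
      | none =>
        obtain ⟨h1, h2⟩ := mem_Icc.1 (hH hh)
        have h1' : -(N : ℝ) ≤ h := by exact_mod_cast h1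
        have h2' : (h : ℝ) ≤ N := by exact_mod_cast h2
        exact ⟨div_nonneg (by linarith) (by positivity),
          (div_lt_one (by positivity)).2 (by linarith)⟩
      | some j => exact ⟨Int.fract_nonneg _, Int.fract_lt_one _⟩)
  have hc2 : d / ((4 * C : ℕ) : ℝ) ^ Fintype.card (Option (Fin D)) * N ≤ H'.card := by
    refine le_trans ?_ hc'
    rw [div_mul_eq_mul_div]
    gcongr
  obtain ⟨h₀, hh₀⟩ : H'.Nonempty := by
    rw [← card_pos]
    have : (0 : ℝ) < H'.card := lt_of_lt_of_le (by positivity) hc2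
    exact_mod_cast this
  refine ⟨θ, h₀, L₀.comp E, fun h j => ⌊θ j * h⌋ - ⌊θ j * h₀⌋, H', hH', hh₀, hc2, fun h hh => ?_⟩
  have hj : ∀ j, |θ j * (h - h₀) - ((⌊θ j * h⌋ - ⌊θ j * h₀⌋ : ℤ) : ℝ)| ≤ 1 / (4 * C) := by
    intro j
    have h1 : |Int.fract (θ j * h) - Int.fract (θ j * h₀)| ≤ 1 / ((4 * C : ℕ) : ℝ) :=
      hcl h hh h₀ hh₀ (some j)
    push_cast at h1 ⊢
    convert h1 using 2
    unfold Int.fract
    ring
  refine ⟨fun j => (hj j).trans (by gcongr; linarith), ?_⟩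
  rw [AddMonoidHom.comp_apply, ← hL₀]
  · change φ h = φ h₀ + ψ (h - h₀)
    rw [hψ' h (hH' hh) h₀ (hH' hh₀), add_sub_cancel]
  · rw [← le_div_iff₀' (by positivity)]
    refine (pi_norm_le_iff_of_nonneg (by positivity)).2 fun o => ?_
    cases o with
    | none =>
      have h1 : |((h : ℝ) + N) / (2 * N + 1) - ((h₀ : ℝ) + N) / (2 * N + 1)| ≤
          1 / ((4 * C : ℕ) : ℝ) := hcl h hh h₀ hh₀ none
      change ‖((h - h₀ : ℤ) : ℝ) / (4 * N)‖ ≤ 1 / C
      rw [← sub_div, abs_div, abs_of_pos (by positivity : (0 : ℝ) < 2 * N + 1),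
        add_sub_add_right_eq_sub, div_le_div_iff₀ (by positivity) (by positivity)] at h1
      rw [Real.norm_eq_abs, abs_div, abs_of_pos (by positivity : (0 : ℝ) < 4 * N),
        div_le_div_iff₀ (by positivity) (by positivity)]
      push_cast at h1 ⊢
      linarith
    | some j =>
      change ‖4 * (θ j * ((h - h₀ : ℤ) : ℝ) - ((⌊θ j * h⌋ - ⌊θ j * h₀⌋ : ℤ) : ℝ))‖ ≤ 1 / C
      rw [Real.norm_eq_abs, abs_mul, abs_of_pos (by norm_num : (0 : ℝ) < 4), Int.cast_sub h]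
      calc _ ≤ 4 * (1 / (4 * (C : ℝ))) := by gcongr; exact hj j
        _ = 1 / C := by field_simp

end Pool.Agent.P.MP_a14ce1_nt.Nil
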