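import Pool.Agent.P.MP_a14ce1_nt.Nil.BSG
import Pool.Agent.P.MP_a14ce1_nt.Nil.Bogo

/-! Approximate homomorphisms on an interval of integers are bracket-linear on a dense set. -/

namespace Pool.Agent.P.MP_a14ce1_nt.Nil

open Finset

/-- APPROX-HOM -/
theorem approxHom {d : ℝ} (hd : 0 < d) : ∃ (D : ℕ) (c : ℝ), 0 < c ∧
    ∀ (N : ℕ), 1 ≤ N → ∀ (A : Type) [AddCommGroup A] [DecidableEq A] (H : Finset ℤ) (φ : ℤ → A)
      (a : A), H ⊆ Icc (-(N : ℤ)) N →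
      d * (N : ℝ) ^ 3 ≤ (((H ×ˢ H) ×ˢ H ×ˢ H).filter fun x => x.1.1 + x.1.2 = x.2.1 + x.2.2 ∧
        φ x.1.1 + φ x.1.2 - φ x.2.1 - φ x.2.2 = a).card →
      ∃ (θ : Fin D → ℝ) (h₀ : ℤ) (L : ℤ × (Fin D → ℤ) →+ A) (m : ℤ → Fin D → ℤ) (H' : Finset ℤ),
        H' ⊆ H ∧ h₀ ∈ H' ∧ c * N ≤ H'.card ∧
        ∀ h ∈ H', (∀ j, |θ j * (h - h₀) - m h j| ≤ 1 / 10) ∧ φ h = φ h₀ + L (h - h₀, m h) := by
  obtain ⟨c₀, hc₀, hF⟩ := freiman 8 (d := d / 27) (by positivity)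
  obtain ⟨D, c, hc, hB⟩ := bracketLin.{0} (d := c₀ * (d / 9)) (by positivity)
  refine ⟨D, c, hc, fun N hN A _ _ H φ a hH hq => ?_⟩
  have hN' : (1 : ℝ) ≤ N := by exact_mod_cast hN
  have h1 : (H.card : ℝ) ≤ 3 * N := by
    have h := card_le_card hH
    rw [Int.card_Icc] at h
    have : H.card ≤ 3 * N := by omega
    exact_mod_cast this
  have h2 : ((((H ×ˢ H) ×ˢ H ×ˢ H).filter fun x => x.1.1 + x.1.2 = x.2.1 + x.2.2 ∧
      φ x.1.1 + φ x.1.2 - φ x.2.1 - φ x.2.2 = a).card : ℝ) ≤ (H.card : ℝ) ^ 3 := by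
    have : (((H ×ˢ H) ×ˢ H ×ˢ H).filter fun x => x.1.1 + x.1.2 = x.2.1 + x.2.2 ∧
        φ x.1.1 + φ x.1.2 - φ x.2.1 - φ x.2.2 = a).card ≤ ((H ×ˢ H) ×ˢ H).card := by
      refine card_le_card_of_injOn (fun x => (x.1, x.2.1)) (fun x hx => ?_) fun x hx y hy h => ?_
      · have := (mem_filter.1 hx).1
        simp only [mem_product, mem_coe] at this ⊢
        exact ⟨this.1, this.2.1⟩
      · have e1 := (mem_filter.1 hx).2.1
        have e2 := (mem_filter.1 hy).2.1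
        obtain ⟨e3, e4⟩ := Prod.ext_iff.1 h
        simp only at e3 e4
        refine Prod.ext e3 (Prod.ext e4 ?_)
        rw [e3, e4] at e1
        omega
    rw [card_product, card_product] at this
    calc _ ≤ ((H.card * H.card * H.card : ℕ) : ℝ) := by exact_mod_cast this
      _ = _ := by push_cast; ring
  have h3 : d / 9 * N ≤ H.card := by
    refine le_of_mul_le_mul_right ?_ (by positivity : (0 : ℝ) < (3 * N) ^ 2)
    calc d / 9 * N * (3 * N) ^ 2 = d * (N : ℝ) ^ 3 := by ring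
      _ ≤ H.card * (H.card : ℝ) ^ 2 := by rw [← pow_succ']; exact hq.trans h2
      _ ≤ _ := by gcongr
  obtain ⟨H₂, hH₂, hc₂, hφ⟩ := hF ℤ A H φ a (le_trans (by
    calc d / 27 * (H.card : ℝ) ^ 3 ≤ d / 27 * (3 * N) ^ 3 := by gcongr
      _ = _ := by ring) hq)
  obtain ⟨θ, h₀, L, m, H', h4, h5, h6, h7⟩ := hB N hN A H₂ _ φ (hH₂.trans hH)
    (le_trans (by rw [mul_assoc]; gcongr) hc₂) hφ
  exact ⟨θ, h₀, L, m, H', h4.trans hH₂, h5, h6, h7⟩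

end Pool.Agent.P.MP_a14ce1_nt.Nil
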