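import Pool.Agent.P.MP_a14ce1_nt.Nil.Fs
import Pool.Agent.P.MP_a14ce1_nt.Nil.Std

/-!
The converse of the inverse theorem with polynomial bounds, for products of two nilsequences.
-/

open Filter Finset MvPolynomial
open scoped BigOperators ComplexConjugate

set_option linter.unusedSectionVars false

noncomputable section

namespace Pool.Agent.P.MP_a14ce1_nt.Nil

variable {ι ι' : Type} [Fintype ι] [DecidableEq ι] [Fintype ι'] [DecidableEq ι'] {lv : ι → ℕ}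
  {lv' : ι' → ℕ}

/-- The same for a product of two nilsequences. -/
theorem fs2 {Q : HR} [Fact (2 ≤ Q)] {g : Fam (KK Q) lv ℕ} {g' : Fam (KK Q) lv' ℕ} {D}
    (hg : g.Fil D) (hg' : g'.Fil D) {k : ℕ} {q F F'} (hF : Nice Q q g.GG F)
    (hF' : Nice Q q g'.GG F') (he : Eqv Q g.GG (g.r (k + 1)) 0 F)
    (he' : Eqv Q g'.GG (g'.r (k + 1)) 0 F') {x : PS lv Unit HR} (hx : x ∈ (g.fine Unit).PG)
    {x' : PS lv' Unit HR} (hx' : x' ∈ (g'.fine Unit).PG) {H : HZ} (hH : 0 < H) {φ : Ns (ℤ → ℂ)}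
    (hb : ∀ n : HZ, nm (ap φ n) ≤ 1) (hs : ∀ n : HZ, ¬(0 ≤ n ∧ n < H) → (ap φ n : HC) = 0)
    (h : BigC Q (Ex (box fun _ : Unit => H) fun n : Unit → HZ =>
      ap φ (n ()) * (F (ev (zv n) x) * F' (ev (zv n) x')))) : Big Q (gowN k H φ) := by
  refine fs (hg.prod hg') (hF.tens hF') ((he.tens he' hF.bd hF'.bd).mono le_rfl
    (fun Z hZ => Fam.mem_prod.1 hZ) fun Z _ => (add_zero (0 : HR)).symm) (x := UT.dg (x, x'))
    (by rw [Fam.prod_fine]; exact Fam.dg_mem_prod_PG.2 ⟨hx, hx'⟩) hH hb hs ?_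
  simpa only [ev_dg, UT.p1_dg, UT.p2_dg] using h

/-- Finitary form; the level and the Lipschitz constant may grow polynomially. -/
theorem conv_poly {g : Fam (⊥ : Subfield ℝ) lv ℕ} {g' : Fam (⊥ : Subfield ℝ) lv' ℕ} {D}
    (hg : g.Fil D) (hg' : g'.Fil D) (k B : ℕ) : ∃ C : ℕ, ∀ ε : ℝ, 0 < ε → ε ≤ 1 / 2 →
    ∀ (q : ℕ) (L : ℝ), 0 < q → (q : ℝ) ≤ ε⁻¹ ^ B → |L| ≤ ε⁻¹ ^ B →
    ∀ (F : UT lv ℝ → ℂ) (F' : UT lv' ℝ → ℂ), NiceR q L g.GG F → NiceR q L g'.GG F' →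
    EqvR g.GG (g.r (k + 1)) 0 F → EqvR g'.GG (g'.r (k + 1)) 0 F' →
    ∀ x ∈ (g.fine Unit).PG, ∀ x' ∈ (g'.fine Unit).PG, ∀ (N : ℕ) (φ : ℤ → ℂ), (∀ n, ‖φ n‖ ≤ 1) →
    (∀ n, ¬(0 ≤ n ∧ n < (N : ℤ)) → φ n = 0) → V.gow N k φ ≤ ε ^ C * (N : ℝ) ^ (k + 2) →
    ‖∑ n ∈ Ico (0 : ℤ) N, φ n * (F (ev (fun _ => (n : ℝ)) x)
      * conj (F' (ev (fun _ => (n : ℝ)) x')))‖ ≤ ε * N := by
  by_contra hc
  push Not at hc
  choose ε h0 h1 q L hq hqB hL F F' hF hF' he he' x hx x' hx' N φ hb hs hU hlt using hc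
  have hN : ∀ n, 0 < (N n : ℤ) := fun n => by
    rcases Nat.eq_zero_or_pos (N n) with h | h
    · have := hlt n
      simp [h] at this
    · exact_mod_cast h
  have h2 : ∀ n, 2 ≤ (ε n)⁻¹ := fun n => by
    rw [le_inv_comm₀ two_pos (h0 n)]; linarith [h1 n]
  let Q : HR := st fun n => (ε n)⁻¹
  have : Fact (2 ≤ Q) := ⟨le_of_forall h2⟩
  have hqO : (st fun n => (q n : ℝ) : HR) ∈ OO Q :=
    ⟨B, by rw [st_abs]; exact le_of_forall fun n => by rw [Nat.abs_cast]; exact hqB n⟩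
  have hLO : (st L : HR) ∈ OO Q := ⟨B, by rw [st_abs]; exact le_of_forall hL⟩
  have n1 := NiceR.nice (Q := Q) (Eventually.of_forall fun n => ⟨hq n, hF n⟩) hqO hLO
  have n2 := NiceR.nice (Q := Q) (Eventually.of_forall fun n => ⟨hq n, hF' n⟩) hqO hLO
  have e1 := EqvR.eqv (Q := Q) (Eventually.of_forall he)
  have e2 := (EqvR.eqv (Q := Q) (Eventually.of_forall he')).cj
  rw [starF_zero, ← Fam.star_r (Q := Q)] at e1 e2
  rw [neg_zero] at e2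
  obtain ⟨y, hy, gy⟩ := exists_germs (Q := Q) hg (Eventually.of_forall hx)
  obtain ⟨y', hy', gy'⟩ := exists_germs (Q := Q) hg' (Eventually.of_forall hx')
  have key := fs2 (hg.star (Q := Q)) hg'.star n1 n2.cj e1 e2 hy hy' (H := st fun n => (N n : ℤ))
    (st_lt.2 (Eventually.of_forall hN)) (φ := st φ)
    (st_ind fun m => by rw [ap_st]; exact le_of_forall fun n => hb n _)
    (st_ind fun m hm => by
      rw [ap_st]
      refine st_congr (y := fun _ => 0) (((ev_not (p := fun n => 0 ≤ m n ∧ m n < N n)).2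
        fun c => hm ?_).mono fun n h => hs n _ fun a => not_lt.1 fun b => h ⟨a, b⟩)
      exact ⟨st_le.2 (c.mono fun _ h => h.1), st_lt.2 (c.mono fun _ h => h.2)⟩)
    (by
      rw [FS.box_st, Ex_st _ (φ := fun n m => φ n (m ()) * (F n (ev (fun _ => (m () : ℝ)) (x n))
        * conj (F' n (ev (fun _ => (m () : ℝ)) (x' n))))) fun m : ℕ → Unit → ℤ => by
          have e : zv (st m : Unit → HZ) = st fun n (_ : Unit) => (m n () : ℝ) := rfl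
          have e' : (st m : Unit → HZ) () = st fun n => m n () := rfl
          rw [e, e', gy.ev, gy'.ev, app_st, app_st, ap_st]
          rfl]
      refine ⟨1, ?_⟩
      rw [abs_nm]
      refine le_of_forall fun n => ?_
      have := FS.expect_unit _ (hN n) fun m => φ n m * (F n (ev (fun _ => (m : ℝ)) (x n))
        * conj (F' n (ev (fun _ => (m : ℝ)) (x' n))))
      change 1 ≤ ‖_‖ * (ε n)⁻¹ ^ 1
      have h3 : (0 : ℝ) < N n := by exact_mod_cast hN n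
      beta_reduce
      rw [this, norm_div, Int.cast_natCast, Complex.norm_natCast, pow_one, ← div_eq_mul_inv,
        div_div, one_le_div (mul_pos h3 (h0 n)), mul_comm]
      exact (hlt n).le)
  obtain ⟨C, hC⟩ := key
  have e3 : gowN k (st fun n => (N n : ℤ)) (st φ)
      = st fun n => V.gow (N n) k (φ n) / (N n : ℝ) ^ (k + 2) := rfl
  rw [e3, st_abs] at hC
  obtain ⟨n, hn, hn'⟩ := ((st_le.1 hC).and (ev_ge (C + 1))).exists
  change 1 ≤ |V.gow (N n) k (φ n) / (N n : ℝ) ^ (k + 2)| * (ε n)⁻¹ ^ C at hn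
  have h3 : (0 : ℝ) < (N n : ℝ) ^ (k + 2) := pow_pos (by exact_mod_cast hN n) _
  rw [abs_of_nonneg (div_nonneg (V.gow_nonneg _ _ _) h3.le), inv_pow, ← div_eq_mul_inv,
    one_le_div (pow_pos (h0 n) _), le_div_iff₀ h3] at hn
  have h4 := le_of_mul_le_mul_right (hn.trans (hU n)) h3
  have h5 := pow_lt_pow_right_of_lt_one₀ (h0 n) (by linarith [h1 n]) (Nat.lt_of_succ_le hn')
  exact absurd h4 (not_le.2 h5)

/-- Finitary form for a fixed class of functions. -/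
theorem conv_fin {g : Fam (⊥ : Subfield ℝ) lv ℕ} {D} (hg : g.Fil D) (k : ℕ) {q : ℕ} (hq : 0 < q)
    (L : ℝ) : ∃ C : ℕ, ∀ ε : ℝ, 0 < ε → ε ≤ 1 / 2 →
    ∀ F F' : UT lv ℝ → ℂ, NiceR q L g.GG F → NiceR q L g.GG F' →
    EqvR g.GG (g.r (k + 1)) 0 F → EqvR g.GG (g.r (k + 1)) 0 F' →
    ∀ x ∈ (g.fine Unit).PG, ∀ x' ∈ (g.fine Unit).PG, ∀ (N : ℕ) (φ : ℤ → ℂ), (∀ n, ‖φ n‖ ≤ 1) →
    (∀ n, ¬(0 ≤ n ∧ n < (N : ℤ)) → φ n = 0) → V.gow N k φ ≤ ε ^ C * (N : ℝ) ^ (k + 2) →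
    ‖∑ n ∈ Ico (0 : ℤ) N, φ n * (F (ev (fun _ => (n : ℝ)) x)
      * conj (F' (ev (fun _ => (n : ℝ)) x')))‖ ≤ ε * N := by
  obtain ⟨B, hB⟩ := pow_unbounded_of_one_lt (max (q : ℝ) |L|) one_lt_two
  obtain ⟨C, hC⟩ := conv_poly hg hg k B
  refine ⟨C, fun ε h0 h1 => ?_⟩
  have h2 : (2 : ℝ) ^ B ≤ ε⁻¹ ^ B :=
    pow_le_pow_left₀ two_pos.le (by rw [le_inv_comm₀ two_pos h0]; linarith) B
  exact hC ε h0 h1 q L hq ((le_max_left _ _).trans (hB.le.trans h2))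
    ((le_max_right _ _).trans (hB.le.trans h2))

end Pool.Agent.P.MP_a14ce1_nt.Nil
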