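import Pool.Agent.P.MP_a14ce1_nt.Nil.AxAT
import Pool.Agent.P.MP_a14ce1_nt.Nil.Conv

/-!
The converse of the inverse theorem for the atom systems given by types of nilsequences.
-/

open Filter Finset MvPolynomial
open scoped BigOperators ComplexConjugate

noncomputable section

namespace Pool.Agent.P.MP_a14ce1_nt.AxGI

open Nil GI

theorem conv_res (T : Ty) (k : ℕ) : Ax.CONV (Ax.res (AT T k)) := by
  obtain ⟨C, hC⟩ := conv_fin T.fil k T.pos T.L
  refine ⟨k, C, fun Q hQ φ x H hφ hH hc a ha b hb => ?_⟩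
  obtain ⟨ψ, h1, e1⟩ := mem_res.1 ha
  obtain ⟨χ, h2, e2⟩ := mem_res.1 hb
  obtain ⟨F, a1, a2, y, a3, a4⟩ := at_sh h1 x
  obtain ⟨F', b1, b2, y', b3, b4⟩ := at_sh h2 x
  have hQ0 : 0 < Q := by linarith
  have h0 : (0 : ℝ) < H := (pow_pos hQ0 C).trans_le hH
  rw [V.cube, div_le_iff₀ (pow_pos h0 _), ← one_div_pow] at hc
  have := hC (1 / Q) (by positivity) (one_div_le_one_div_of_le two_pos hQ) F F' a1 b1 a2 b2 y a3
    y' b3 H _ (V.norm_win_le hφ x H) (fun n hn => if_neg hn) hc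
  simp only [Ax.pc, e1, e2]
  rw [sum_win φ x H fun n => ψ n * conj (χ n), div_eq_inv_mul, ← one_div]
  simpa only [← a4, ← b4] using this

/-- The inverse theorem, fair sampling, extension and decomposition give `S_GIAx`. -/
theorem giAx (hG : ∀ k, GIst k) (hF : ∀ T k, Ax.FS (Ax.res (AT T k)))
    (hE : ∀ T k, Ax.EXT (Ax.res (AT T k))) (hD : ∀ T k, DecAx (AT T k)) : Ax.S_GIAx :=
  giAx0 hG hF hE conv_res hD

end Pool.Agent.P.MP_a14ce1_nt.AxGI
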