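import Mathlib

/-!
The Balog-Szemeredi-Gowers theorem and Freiman homomorphisms on dense subsets.
-/

open Finset
open scoped Pointwise

namespace Pool.Agent.P.MP_a14ce1_nt.Nil

namespace BSGP

variable {G : Type*} [AddCommGroup G] [DecidableEq G]

/-- the number of representations of `s` as a difference -/
def rr (A : Finset G) (s : G) : ℕ := (A.filter fun a => a - s ∈ A).card

theorem mem_of_rr {A : Finset G} {s : G} (h : rr A s ≠ 0) : s ∈ A - A := by
  obtain ⟨a, ha⟩ := card_pos.1 (Nat.pos_of_ne_zero h)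
  rw [mem_filter] at ha
  exact mem_sub.2 ⟨a, ha.1, a - s, ha.2, by abel⟩

theorem sum_rr (A T : Finset G) : ∑ s ∈ T, rr A s ≤ A.card * A.card := by
  unfold rr
  simp_rw [card_filter]
  rw [sum_comm, ← smul_eq_mul, ← sum_const]
  refine sum_le_sum fun a _ => ?_
  rw [← card_filter]
  exact card_le_card_of_injOn (fun s => a - s) (fun s hs => (mem_filter.1 hs).2)
    fun s _ t _ h => sub_right_injective h

theorem pair_le (A T : Finset G) (a a' : G) :
    (T.filter fun s => a - s ∈ A ∧ a' - s ∈ A).card ≤ rr A (a - a') := by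
  refine card_le_card_of_injOn (fun s => a - s) (fun s hs => ?_)
    fun s _ t _ h => sub_right_injective h
  have h := (mem_filter.1 hs).2
  refine mem_filter.2 ⟨h.1, ?_⟩
  rw [show a - s - (a - a') = a' - s by abel]
  exact h.2

/-- the number of pairs in `U` with an unpopular difference -/
noncomputable def bad (A U : Finset G) (k : ℝ) : ℕ :=
  ((U ×ˢ U).filter fun x => (rr A (x.1 - x.2) : ℝ) < k).card

theorem sum_bad (A T : Finset G) {k : ℝ} (hk : 0 ≤ k) :
    ∑ s ∈ T, (bad A (A.filter fun a => a - s ∈ A) k : ℝ) ≤ (A.card : ℝ) ^ 2 * k := by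
  have h1 : ∀ s, bad A (A.filter fun a => a - s ∈ A) k =
      ∑ x ∈ (A ×ˢ A).filter fun x => (rr A (x.1 - x.2) : ℝ) < k,
        if x.1 - s ∈ A ∧ x.2 - s ∈ A then 1 else 0 := by
    intro s
    rw [← card_filter, bad]
    congr 1
    ext x
    simp only [mem_filter, mem_product]
    tauto
  rw [← Nat.cast_sum, sum_congr rfl fun s _ => h1 s, sum_comm, Nat.cast_sum]
  calc _ ≤ ∑ _x ∈ (A ×ˢ A).filter fun x => (rr A (x.1 - x.2) : ℝ) < k, k := by
        refine sum_le_sum fun x hx => le_trans ?_ (mem_filter.1 hx).2.le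
        rw [← card_filter]
        exact_mod_cast pair_le A T x.1 x.2
    _ ≤ _ := by
        rw [sum_const, nsmul_eq_mul]
        refine mul_le_mul_of_nonneg_right ?_ hk
        have := card_filter_le (A ×ˢ A) fun x => (rr A (x.1 - x.2) : ℝ) < k
        rw [card_product] at this
        rw [sq]
        exact_mod_cast this

theorem exists_U {A : Finset G} (hA : A.Nonempty) {d : ℝ} (hd : 0 < d)
    (h : d * (A.card : ℝ) ^ 3 ≤ ∑ s ∈ A - A, (rr A s : ℝ) ^ 2) :
    ∃ U ⊆ A, d / 2 * A.card ≤ U.card ∧ 16 * (bad A U (d / 32 * A.card) : ℝ) ≤ (U.card : ℝ) ^ 2 := by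
  have hn : (0 : ℝ) < A.card := by exact_mod_cast hA.card_pos
  set S := (A - A).filter fun s => d / 2 * A.card ≤ (rr A s : ℝ) with hS
  have h1 : ∑ s ∈ (A - A).filter fun s => ¬ d / 2 * A.card ≤ (rr A s : ℝ), (rr A s : ℝ) ^ 2 ≤
      d / 2 * (A.card : ℝ) ^ 3 := by
    have h2 := sum_rr A ((A - A).filter fun s => ¬ d / 2 * A.card ≤ (rr A s : ℝ))
    have h3 : ∑ s ∈ (A - A).filter fun s => ¬ d / 2 * A.card ≤ (rr A s : ℝ), (rr A s : ℝ) ≤
        A.card * A.card := by exact_mod_cast h2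
    calc _ ≤ ∑ s ∈ (A - A).filter fun s => ¬ d / 2 * A.card ≤ (rr A s : ℝ),
          d / 2 * A.card * (rr A s : ℝ) := sum_le_sum fun s hs => by
          rw [sq]
          exact mul_le_mul_of_nonneg_right (not_le.1 (mem_filter.1 hs).2).le (Nat.cast_nonneg _)
      _ ≤ d / 2 * A.card * (A.card * A.card) := by
          rw [← mul_sum]
          exact mul_le_mul_of_nonneg_left h3 (by positivity)
      _ = _ := by ring
  have h2 := sum_filter_add_sum_filter_not (A - A) (fun s => d / 2 * A.card ≤ (rr A s : ℝ))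
    fun s => (rr A s : ℝ) ^ 2
  have h3 : d / 2 * (A.card : ℝ) ^ 3 ≤ ∑ s ∈ S, (rr A s : ℝ) ^ 2 := by linarith
  have hne : S.Nonempty := by
    refine nonempty_of_sum_ne_zero (f := fun s => (rr A s : ℝ) ^ 2) (ne_of_gt (lt_of_lt_of_le ?_ h3))
    positivity
  have h4 := sum_bad A S (k := d / 32 * A.card) (by positivity)
  obtain ⟨s, hs, h5⟩ := exists_le_of_sum_le hne
    (f := fun s => 16 * (bad A (A.filter fun a => a - s ∈ A) (d / 32 * A.card) : ℝ))
    (g := fun s => (rr A s : ℝ) ^ 2) (by rw [← mul_sum]; nlinarith)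
  exact ⟨_, filter_subset _ _, (mem_filter.1 hs).2, h5⟩

theorem core {A : Finset G} (hA : A.Nonempty) {d : ℝ} (hd : 0 < d)
    (h : d * (A.card : ℝ) ^ 3 ≤ ∑ s ∈ A - A, (rr A s : ℝ) ^ 2) :
    ∃ B ⊆ A, d / 4 * A.card ≤ B.card ∧ ((B - B).card : ℝ) ≤ 4096 / d ^ 3 * A.card := by
  have hn : (0 : ℝ) < A.card := by exact_mod_cast hA.card_pos
  obtain ⟨U, hU, h1, h2⟩ := exists_U hA hd h
  have hu : (0 : ℝ) < U.card := lt_of_lt_of_le (by positivity) h1
  set k : ℝ := d / 32 * A.card with hk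
  have hk0 : 0 < k := by positivity
  let nb : G → Finset G := fun u => U.filter fun v => (rr A (u - v) : ℝ) < k
  set B := U.filter fun u => 4 * (nb u).card ≤ U.card with hB
  have h3 : bad A U k = ∑ u ∈ U, (nb u).card := by
    rw [bad, card_filter, sum_product]
    exact sum_congr rfl fun u _ => (card_filter _ _).symm
  have h4 : (U.filter fun u => ¬ 4 * (nb u).card ≤ U.card).card * U.card ≤ 4 * bad A U k := by
    rw [h3, mul_sum, ← smul_eq_mul, ← sum_const]
    exact (sum_le_sum fun u hu => (not_le.1 (mem_filter.1 hu).2).le).trans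
      (sum_le_sum_of_subset (filter_subset _ _))
  have h5 := card_filter_add_card_filter_not (s := U) fun u => 4 * (nb u).card ≤ U.card
  have h6 : (U.card : ℝ) / 2 ≤ B.card := by
    have a1 : (((U.filter fun u => ¬ 4 * (nb u).card ≤ U.card).card : ℕ) : ℝ) * U.card ≤
        4 * bad A U k := by exact_mod_cast h4
    have a2 : (B.card : ℝ) + ((U.filter fun u => ¬ 4 * (nb u).card ≤ U.card).card : ℕ) =
        U.card := by exact_mod_cast h5
    generalize (((U.filter fun u => ¬ 4 * (nb u).card ≤ U.card).card : ℕ) : ℝ) = m at a1 a2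
    have a3 : m * U.card ≤ (U.card / 4) * U.card := by nlinarith
    have a4 := le_of_mul_le_mul_right a3 hu
    linarith
  set P := (A - A).filter fun s => k ≤ (rr A s : ℝ) with hP
  have h7 : (P.card : ℝ) * k ≤ A.card * A.card := by
    have a1 : ∑ s ∈ P, (rr A s : ℝ) ≤ A.card * A.card := by exact_mod_cast sum_rr A P
    rw [← nsmul_eq_mul, ← sum_const]
    exact (sum_le_sum fun s hs => (mem_filter.1 hs).2).trans a1
  have hPm : ∀ s, ¬ (rr A s : ℝ) < k → s ∈ P := fun s hs => by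
    refine mem_filter.2 ⟨mem_of_rr fun e => hs ?_, not_lt.1 hs⟩
    rw [e, Nat.cast_zero]
    exact hk0
  have h8 : (B - B).card * U.card ≤ 2 * (P ×ˢ P).card := by
    have a1 := card_eq_sum_card_fiberwise (s := (P ×ˢ P).filter fun x => x.1 - x.2 ∈ B - B)
      (t := B - B) (f := fun x => x.1 - x.2) fun x hx => (mem_filter.1 hx).2
    refine le_trans ?_ (Nat.mul_le_mul_left 2 (card_filter_le _ fun x => x.1 - x.2 ∈ B - B))
    rw [a1, mul_sum, ← smul_eq_mul, ← sum_const]
    refine sum_le_sum fun x hx => ?_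
    obtain ⟨a, ha, b, hb, rfl⟩ := mem_sub.1 hx
    have a2 : (U \ (nb a ∪ nb b)).card ≤ (((P ×ˢ P).filter fun x => x.1 - x.2 ∈ B - B).filter
        fun x => x.1 - x.2 = a - b).card := by
      refine card_le_card_of_injOn (fun u => (a - u, b - u)) (fun u hu => ?_)
        fun s _ t _ h => sub_right_injective (congrArg Prod.fst h)
      have hu' := mem_sdiff.1 hu
      have e : a - u - (b - u) = a - b := by abel
      refine mem_filter.2 ⟨mem_filter.2 ⟨mem_product.2 ⟨hPm _ fun c => hu'.2 ?_,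
        hPm _ fun c => hu'.2 ?_⟩, ?_⟩, e⟩
      · exact mem_union_left _ (mem_filter.2 ⟨hu'.1, c⟩)
      · exact mem_union_right _ (mem_filter.2 ⟨hu'.1, c⟩)
      · simpa only [e] using hx
    have a3 := le_card_sdiff (nb a ∪ nb b) U
    have a4 := card_union_le (nb a) (nb b)
    have a5 := (mem_filter.1 ha).2
    have a6 := (mem_filter.1 hb).2
    omega
  refine ⟨B, (filter_subset _ _).trans hU, by linarith, ?_⟩
  have h9 : ((B - B).card : ℝ) * U.card ≤ 2 * (P.card * P.card) := by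
    rw [card_product] at h8
    exact_mod_cast h8
  have h10 : (P.card : ℝ) ≤ 32 / d * A.card := by
    refine le_of_mul_le_mul_right (h7.trans (le_of_eq ?_)) hk0
    rw [hk]
    field_simp
  have h11 : ((B - B).card : ℝ) * (d / 2 * A.card) ≤ 2 * (32 / d * A.card * (32 / d * A.card)) :=
    (mul_le_mul_of_nonneg_left h1 (Nat.cast_nonneg _)).trans (h9.trans
      (mul_le_mul_of_nonneg_left (mul_self_le_mul_self (Nat.cast_nonneg _) h10) (by norm_num)))
  refine le_of_mul_le_mul_right (h11.trans (le_of_eq ?_)) (show 0 < d / 2 * A.card by positivity)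
  field_simp
  norm_num

theorem quad_le (A : Finset G) (c : G) :
    ((((A ×ˢ A) ×ˢ A ×ˢ A).filter fun x => x.1.1 + x.1.2 - x.2.1 - x.2.2 = c).card : ℝ) ≤
      ∑ s ∈ A - A, (rr A s : ℝ) ^ 2 := by
  have a1 := card_eq_sum_card_fiberwise
    (s := ((A ×ˢ A) ×ˢ A ×ˢ A).filter fun x => x.1.1 + x.1.2 - x.2.1 - x.2.2 = c)
    (t := A - A) (f := fun x => x.1.1 - x.2.1) fun x hx => by
      have := (mem_filter.1 hx).1
      simp only [mem_product] at this
      exact sub_mem_sub this.1.1 this.2.1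
  have a2 : ∑ s ∈ A - A, (rr A (c - s) : ℝ) ^ 2 ≤ ∑ s ∈ A - A, (rr A s : ℝ) ^ 2 := by
    have : ∑ s ∈ A - A, rr A (c - s) ^ 2 ≤ ∑ s ∈ A - A, rr A s ^ 2 := by
      rw [← sum_image (s := A - A) (g := fun s => c - s) (f := fun t => rr A t ^ 2)
        fun s _ t _ h => sub_right_injective h]
      refine sum_le_sum_of_ne_zero fun t _ ht => mem_of_rr fun e => ht ?_
      rw [e]
      norm_num
    exact_mod_cast this
  have a3 : ∀ s, ((((A ×ˢ A) ×ˢ A ×ˢ A).filter fun x => x.1.1 + x.1.2 - x.2.1 - x.2.2 = c).filter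
      fun x => x.1.1 - x.2.1 = s).card ≤ rr A s * rr A (c - s) := by
    intro s
    rw [rr, rr, ← card_product]
    refine card_le_card_of_injOn (fun x => (x.1.1, x.1.2)) (fun x hx => ?_) fun x hx y hy h => ?_
    · have hx' := hx
      simp only [coe_filter, mem_filter, mem_product, Set.mem_ofPred_eq] at hx'
      obtain ⟨⟨⟨⟨b1, b2⟩, b3, b4⟩, b5⟩, b6⟩ := hx'
      refine mem_coe.2 (mem_product.2 ⟨mem_filter.2 ⟨b1, ?_⟩, mem_filter.2 ⟨b2, ?_⟩⟩)
      · rw [← b6]
        simpa using b3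
      · rw [← b6, ← b5, show x.1.2 - (x.1.1 + x.1.2 - x.2.1 - x.2.2 - (x.1.1 - x.2.1)) = x.2.2 by
          abel]
        exact b4
    · simp only [coe_filter, mem_filter, mem_product, Set.mem_ofPred_eq] at hx hy
      obtain ⟨e1, e2⟩ := Prod.mk.inj h
      have e3 : x.2.1 = y.2.1 := by
        have := hx.2.trans hy.2.symm
        rw [e1] at this
        exact sub_right_injective this
      have e4 : x.2.2 = y.2.2 := by
        have := hx.1.2.trans hy.1.2.symm
        rw [e1, e2, e3] at this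
        exact sub_right_injective this
      exact Prod.ext (Prod.ext e1 e2) (Prod.ext e3 e4)
  rw [a1, Nat.cast_sum]
  have a4 : ∑ s ∈ A - A, (rr A s : ℝ) * rr A (c - s) ≤
      ∑ s ∈ A - A, ((rr A s : ℝ) ^ 2 + (rr A (c - s) : ℝ) ^ 2) / 2 :=
    sum_le_sum fun s _ => by nlinarith [sq_nonneg ((rr A s : ℝ) - rr A (c - s))]
  rw [← sum_div, sum_add_distrib] at a4
  refine (sum_le_sum fun s _ => ?_).trans (a4.trans (by linarith))
  exact_mod_cast a3 s

theorem exists_far {A : Type} [AddCommGroup A] {a : A} (ha : a ≠ 0) :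
    ∃ χ : A →+ AddCircle (1 : ℚ), ∀ y : ℚ, (y : AddCircle (1 : ℚ)) = χ a → 1 / 4 ≤ |y| := by
  obtain ⟨c, hc⟩ := CharacterModule.exists_character_apply_ne_zero_of_ne_zero ha
  obtain ⟨x, hx⟩ := QuotientAddGroup.mk_surjective (c a)
  have hz : ∀ m : ℤ, ((m : ℚ) : AddCircle (1 : ℚ)) = 0 := fun m =>
    (AddCircle.coe_eq_zero_iff _).2 ⟨m, by simp⟩
  have h1 : ((x - round x : ℚ) : AddCircle (1 : ℚ)) = c a := by
    rw [AddCircle.coe_sub, hz, sub_zero, hx]
  have h2 := abs_sub_round x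
  generalize x - round x = z at h1 h2
  have h3 : 0 < |z| := abs_pos.2 fun e => hc (by rw [← h1, e]; rfl)
  set n := ⌊1 / 2 / |z|⌋₊ with hn
  have h4 : (n : ℚ) * |z| ≤ 1 / 2 := (le_div_iff₀ h3).1 (Nat.floor_le (by positivity))
  have h5 : 1 / 2 < ((n : ℚ) + 1) * |z| := (div_lt_iff₀ h3).1 (Nat.lt_floor_add_one _)
  have h6 : (1 : ℚ) ≤ n := by
    exact_mod_cast Nat.le_floor (by rw [Nat.cast_one, le_div_iff₀ h3]; linarith)
  have h7 : 1 / 4 ≤ (n : ℚ) * |z| := by nlinarith
  let c' : A →+ AddCircle (1 : ℚ) := c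
  refine ⟨n • c', fun y hy => ?_⟩
  have h8 : ((y - n * z : ℚ) : AddCircle (1 : ℚ)) = 0 := by
    rw [AddCircle.coe_sub, hy, ← nsmul_eq_mul, AddCircle.coe_nsmul, h1]
    exact sub_self _
  obtain ⟨m, hm⟩ := (AddCircle.coe_eq_zero_iff _).1 h8
  rw [zsmul_one] at hm
  have h9 : |(n : ℚ) * z| = n * |z| := by rw [abs_mul, Nat.abs_cast]
  rcases eq_or_ne m 0 with rfl | h0
  · rw [show y = n * z by simpa [sub_eq_zero] using hm.symm, h9]
    exact h7
  · have a1 : (1 : ℚ) ≤ |(m : ℚ)| := by exact_mod_cast Int.one_le_abs h0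
    have a2 := abs_sub y (n * z)
    rw [← hm, h9] at a2
    linarith

theorem kill_one {H A : Type} [AddCommGroup A] (φ : H → A) (k : ℕ) {a : A} (ha : a ≠ 0)
    (B : Finset H) : ∃ B' ⊆ B, (B.card : ℝ) / (4 * k + 1) ≤ B'.card ∧ ∀ s t : Multiset H,
      (∀ x ∈ s, x ∈ B') → (∀ x ∈ t, x ∈ B') → s.card = k → t.card = k →
      (s.map φ).sum - (t.map φ).sum ≠ a := by
  classical
  obtain ⟨χ, hχ⟩ := exists_far ha
  have hr : ∀ h, ∃ y : ℚ, 0 ≤ y ∧ y < 1 ∧ (y : AddCircle (1 : ℚ)) = χ (φ h) := fun h => by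
    obtain ⟨y, hy, e⟩ := AddCircle.eq_coe_Ico (χ (φ h))
    exact ⟨y, hy.1, hy.2, e⟩
  choose ρ h0 h1 h2 using hr
  have hK : (0 : ℚ) < 4 * k + 1 := by positivity
  obtain ⟨j, -, hj⟩ := exists_le_card_fiber_of_nsmul_le_card_of_maps_to (s := B)
    (t := range (4 * k + 1)) (f := fun h => ⌊(4 * k + 1 : ℚ) * ρ h⌋₊)
    (b := (B.card : ℝ) / (4 * k + 1))
    (fun h _ => mem_range.2 ((Nat.floor_lt (mul_nonneg hK.le (h0 h))).2 (by
      push_cast
      nlinarith [h1 h]))) ⟨0, by simp⟩ (by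
      rw [card_range, nsmul_eq_mul]
      push_cast
      rw [mul_div_cancel₀ _ (by positivity)])
  refine ⟨_, filter_subset _ _, hj, fun s t hs ht cs ct e => ?_⟩
  have key : ∀ s : Multiset H, (∀ x ∈ s, x ∈ B.filter fun h => ⌊(4 * k + 1 : ℚ) * ρ h⌋₊ = j) →
      (((s.map ρ).sum : ℚ) : AddCircle (1 : ℚ)) = χ (s.map φ).sum ∧
      (s.card : ℚ) * j ≤ (4 * k + 1) * (s.map ρ).sum ∧
      (4 * k + 1) * (s.map ρ).sum ≤ (s.card : ℚ) * (j + 1) := by
    intro s
    induction s using Multiset.induction_on with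
    | empty => simp
    | cons x s ih =>
      intro hs
      obtain ⟨a1, a2, a3⟩ := ih fun y hy => hs y (Multiset.mem_cons_of_mem hy)
      have a4 := (mem_filter.1 (hs x (Multiset.mem_cons_self x s))).2
      have a5 := Nat.floor_le (mul_nonneg hK.le (h0 x))
      have a6 := Nat.lt_floor_add_one ((4 * k + 1 : ℚ) * ρ x)
      rw [a4] at a5 a6
      simp only [Multiset.map_cons, Multiset.sum_cons, Multiset.card_cons, map_add]
      push_cast
      exact ⟨by rw [AddCircle.coe_add, a1, h2], by linarith, by linarith⟩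
  obtain ⟨a1, a2, a3⟩ := key s hs
  obtain ⟨b1, b2, b3⟩ := key t ht
  have h3 := hχ ((s.map ρ).sum - (t.map ρ).sum) (by rw [AddCircle.coe_sub, a1, b1, ← map_sub, e])
  rw [cs] at a2 a3
  rw [ct] at b2 b3
  rcases le_abs.1 h3 with h4 | h4 <;> nlinarith

theorem kill {H A : Type} [AddCommGroup A] (φ : H → A) (k : ℕ) (T : Finset A) (hT : ∀ a ∈ T, a ≠ 0)
    (B : Finset H) : ∃ B' ⊆ B, (B.card : ℝ) / (4 * k + 1) ^ T.card ≤ B'.card ∧ ∀ s t : Multiset H,
      (∀ x ∈ s, x ∈ B') → (∀ x ∈ t, x ∈ B') → s.card = k → t.card = k →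
      (s.map φ).sum - (t.map φ).sum ∉ T := by
  classical
  induction T using Finset.induction_on with
  | empty => exact ⟨B, subset_rfl, by simp, by simp⟩
  | insert a T ha ih =>
    obtain ⟨B1, h1, h2, h3⟩ := ih fun b hb => hT b (mem_insert_of_mem hb)
    obtain ⟨B2, h4, h5, h6⟩ := kill_one φ k (hT a (mem_insert_self a T)) B1
    refine ⟨B2, h4.trans h1, le_trans ?_ h5, fun s t hs ht cs ct e => ?_⟩
    · rw [card_insert_of_notMem ha, pow_succ, ← div_div]
      exact div_le_div_of_nonneg_right h2 (by positivity)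
    · rcases mem_insert.1 e with e | e
      · exact h6 s t hs ht cs ct e
      · exact h3 s t (fun x hx => h4 (hs x hx)) (fun x hx => h4 (ht x hx)) cs ct e

theorem sum_mem {H : Type*} (f : H → G) (B : Finset G) (s : Multiset H) (h : ∀ x ∈ s, f x ∈ B) :
    (s.map f).sum ∈ s.card • B := by
  induction s using Multiset.induction_on with
  | empty => simp
  | cons x s ih =>
    rw [Multiset.map_cons, Multiset.sum_cons, Multiset.card_cons, succ_nsmul']
    exact add_mem_add (h x (Multiset.mem_cons_self x s))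
      (ih fun y hy => h y (Multiset.mem_cons_of_mem hy))

theorem vert_le {A : Type*} [AddCommGroup A] [DecidableEq A] {B : Finset (G × A)} (hB : B.Nonempty)
    (hg : ∀ x ∈ B, ∀ y ∈ B, x.1 = y.1 → x = y) (k : ℕ) {K : ℝ}
    (hK : ((B - B).card : ℝ) ≤ K * B.card) :
    (((k • B - k • B).filter fun x => x.1 = 0).card : ℝ) ≤ K ^ (k + 1 + k) := by
  have hn : (0 : ℝ) < B.card := by exact_mod_cast hB.card_pos
  have h1 : ((k • B - k • B).filter fun x => x.1 = 0).card * B.card ≤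
      ((k + 1) • B - k • B).card := by
    rw [← card_product]
    refine card_le_card_of_injOn (fun x => x.1 + x.2) (fun x hx => ?_) fun x hx y hy h => ?_
    · obtain ⟨a1, a2⟩ := mem_product.1 hx
      obtain ⟨u, hu, v, hv, e⟩ := mem_sub.1 (mem_filter.1 a1).1
      refine mem_sub.2 ⟨u + x.2, ?_, v, hv, ?_⟩
      · rw [succ_nsmul]
        exact add_mem_add hu a2
      · change u + x.2 - v = x.1 + x.2
        rw [← e]
        abel
    · obtain ⟨a1, a2⟩ := mem_product.1 hx
      obtain ⟨b1, b2⟩ := mem_product.1 hy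
      have e1 := congrArg Prod.fst h
      simp only [Prod.fst_add, (mem_filter.1 a1).2, (mem_filter.1 b1).2, zero_add] at e1
      have e2 := hg _ a2 _ b2 e1
      have e3 : x.1 + x.2 = y.1 + y.2 := h
      rw [e2] at e3
      exact Prod.ext (add_right_cancel e3) e2
  have h2 := pluennecke_ruzsa_inequality_nsmul_sub_nsmul_sub hB B (k + 1) k
  have h3 : (((k + 1) • B - k • B).card : ℝ) ≤
      (((B - B).card : ℝ) / B.card) ^ (k + 1 + k) * B.card := by
    have := (NNRat.cast_le (K := ℝ)).2 h2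
    push_cast at this
    exact this
  refine le_of_mul_le_mul_right (le_trans ?_ (h3.trans (mul_le_mul_of_nonneg_right
    (pow_le_pow_left₀ (by positivity) ((div_le_iff₀ hn).2 hK) _) hn.le))) hn
  exact_mod_cast h1

end BSGP

/-- Balog-Szemeredi-Gowers, for quadruples with `a₁ + a₂ - a₃ - a₄ = c` -/
theorem bsg {G : Type*} [AddCommGroup G] [DecidableEq G] {A : Finset G} (hA : A.Nonempty) (c : G)
    {d : ℝ} (hd : 0 < d) (h : d * (A.card : ℝ) ^ 3 ≤
      (((A ×ˢ A) ×ˢ A ×ˢ A).filter fun x => x.1.1 + x.1.2 - x.2.1 - x.2.2 = c).card) :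
    ∃ B ⊆ A, d / 4 * A.card ≤ B.card ∧ ((B - B).card : ℝ) ≤ 4096 / d ^ 3 * A.card :=
  BSGP.core hA hd (h.trans (BSGP.quad_le A c))

/-- A map that respects many additive quadruples up to a constant is a Freiman homomorphism on a
dense subset. -/
theorem freiman (k : ℕ) {d : ℝ} (hd : 0 < d) : ∃ c₀ : ℝ, 0 < c₀ ∧
    ∀ (G A : Type) [AddCommGroup G] [DecidableEq G] [AddCommGroup A] [DecidableEq A] (H : Finset G)
      (φ : G → A) (c : A), d * (H.card : ℝ) ^ 3 ≤ (((H ×ˢ H) ×ˢ H ×ˢ H).filter fun x =>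
        x.1.1 + x.1.2 = x.2.1 + x.2.2 ∧ φ x.1.1 + φ x.1.2 - φ x.2.1 - φ x.2.2 = c).card →
      ∃ H' ⊆ H, c₀ * H.card ≤ H'.card ∧ IsAddFreimanHom k (H' : Set G) Set.univ φ := by
  refine ⟨d / 4 / (4 * k + 1) ^ ⌈(16384 / d ^ 4) ^ (k + 1 + k)⌉₊, by positivity, ?_⟩
  intro G A _ _ _ _ H φ c h
  rcases H.eq_empty_or_nonempty with rfl | hH
  · exact ⟨∅, subset_rfl, by simp, by
      rw [coe_empty]
      exact isAddFreimanHom_empty⟩
  let gr : G → G × A := fun x => (x, φ x)
  have hi : Function.Injective gr := fun x y e => congrArg Prod.fst e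
  have hc : (H.image gr).card = H.card := card_image_of_injective _ hi
  obtain ⟨B, hB, h1, h2⟩ := bsg (hH.image gr) (0, c) hd (by
    rw [hc]
    refine h.trans (Nat.cast_le.2 (card_le_card_of_injOn
      (fun x => ((gr x.1.1, gr x.1.2), gr x.2.1, gr x.2.2)) (fun x hx => ?_) fun x _ y _ e => ?_))
    · have hx' := hx
      simp only [coe_filter, mem_product, Set.mem_ofPred_eq] at hx'
      obtain ⟨⟨⟨b1, b2⟩, b3, b4⟩, b5, b6⟩ := hx'
      refine mem_coe.2 (mem_filter.2 ⟨mem_product.2 ⟨mem_product.2 ⟨mem_image_of_mem _ b1,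
        mem_image_of_mem _ b2⟩, mem_product.2 ⟨mem_image_of_mem _ b3, mem_image_of_mem _ b4⟩⟩,
        Prod.ext ?_ b6⟩)
      change x.1.1 + x.1.2 - x.2.1 - x.2.2 = 0
      rw [b5]
      abel
    · simp only [Prod.mk.injEq, hi.eq_iff] at e
      exact Prod.ext (Prod.ext e.1.1 e.1.2) (Prod.ext e.2.1 e.2.2))
  rw [hc] at h1 h2
  have hn : (0 : ℝ) < H.card := by exact_mod_cast hH.card_pos
  have hBg : ∀ x ∈ B, x.1 ∈ H ∧ x = gr x.1 := fun x hx => by
    obtain ⟨y, hy, rfl⟩ := mem_image.1 (hB hx)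
    exact ⟨hy, rfl⟩
  have hB0 : B.Nonempty := card_pos.1 (by
    have : (0 : ℝ) < B.card := lt_of_lt_of_le (by positivity) h1
    exact_mod_cast this)
  have hg : ∀ x ∈ B, ∀ y ∈ B, x.1 = y.1 → x = y := fun x hx y hy e => by
    rw [(hBg x hx).2, (hBg y hy).2, e]
  have h3 := BSGP.vert_le hB0 hg k (K := 16384 / d ^ 4) (h2.trans (le_trans (le_of_eq (by
    field_simp
    norm_num)) (mul_le_mul_of_nonneg_left h1 (by positivity))))
  set W := (k • B - k • B).filter fun x => x.1 = 0 with hW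
  obtain ⟨H', h4, h5, h6⟩ := BSGP.kill φ k ((W.image Prod.snd).erase 0)
    (fun a ha => ne_of_mem_erase ha) (B.image Prod.fst)
  have h7 : (B.image Prod.fst).card = B.card := card_image_of_injOn hg
  have h8 : ((W.image Prod.snd).erase 0).card ≤ ⌈(16384 / d ^ 4) ^ (k + 1 + k)⌉₊ := by
    have : (W.card : ℝ) ≤ (⌈(16384 / d ^ 4) ^ (k + 1 + k)⌉₊ : ℕ) := h3.trans (Nat.le_ceil _)
    exact card_erase_le.trans (card_image_le.trans (by exact_mod_cast this))
  have hm : ∀ x ∈ H', gr x ∈ B := fun x hx => by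
    obtain ⟨y, hy, rfl⟩ := mem_image.1 (h4 hx)
    rw [← (hBg y hy).2]
    exact hy
  refine ⟨H', fun x hx => (hBg _ (hm x hx)).1, le_trans ?_ h5, Set.mapsTo_univ _ _,
    fun s t hs ht cs ct e => ?_⟩
  · rw [h7, div_mul_eq_mul_div]
    have hk : (1 : ℝ) ≤ 4 * k + 1 := by
      have := Nat.cast_nonneg (α := ℝ) k
      linarith
    exact div_le_div₀ (Nat.cast_nonneg _) h1 (by positivity) (pow_le_pow_right₀ hk h8)
  · by_contra hne
    refine h6 s t hs ht cs ct (mem_erase.2 ⟨sub_ne_zero.2 hne, mem_image.2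
      ⟨(s.map gr).sum - (t.map gr).sum, mem_filter.2 ⟨sub_mem_sub ?_ ?_, ?_⟩, ?_⟩⟩)
    · exact cs ▸ BSGP.sum_mem gr B s fun x hx => hm x (hs hx)
    · exact ct ▸ BSGP.sum_mem gr B t fun x hx => hm x (ht hx)
    · have : ∀ u : Multiset G, (u.map gr).sum.1 = u.sum := fun u => by
        induction u using Multiset.induction_on with
        | empty => simp
        | cons x u ih => simp [ih, gr]
      rw [Prod.fst_sub, this, this, e, sub_self]
    · have : ∀ u : Multiset G, (u.map gr).sum.2 = (u.map φ).sum := fun u => by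
        induction u using Multiset.induction_on with
        | empty => simp
        | cons x u ih => simp [ih, gr]
      rw [Prod.snd_sub, this, this]

end Pool.Agent.P.MP_a14ce1_nt.Nil
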