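import Pool.Agent.P.MP_a14ce1_nt.Nil.Cube2

/-!
The core of the plain step, first half: one block, and pairs of blocks.
-/

open Finset Function

namespace Pool.Agent.P.MP_a14ce1_nt.Nil.ES

section lin

variable {V : Type*} [AddCommGroup V] [Module ℝ V] {ι : Type*} [Fintype ι]

/-- x is a combination of members of D with total coefficient at most K, in the weak sense -/
def InK (D : Set V) (K : ℝ) (x : V) : Prop :=
  ∀ (L : V →ₗ[ℝ] ℝ) (e : ℝ), 0 ≤ e → (∀ G ∈ D, |L G| ≤ e) → |L x| ≤ K * e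

theorem InK.of_mem {D : Set V} {x : V} (h : x ∈ D) : InK D 1 x := fun L e _ hL => by
  simpa using hL x h

theorem InK.sub {D : Set V} {x y : V} {K K' : ℝ} (h : InK D K x) (h' : InK D K' y) :
    InK D (K + K') (x - y) := fun L e he hL => by
  rw [map_sub, add_mul]
  exact (abs_sub _ _).trans (add_le_add (h L e he hL) (h' L e he hL))

theorem abs_sum_mul_le {c x : Finset ι → ℝ} {K e : ℝ} (he : 0 ≤ e) (hc : ∑ T, |c T| ≤ K)
    (h : ∀ T, c T ≠ 0 → |x T| ≤ e) : |∑ T, c T * x T| ≤ K * e := by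
  refine (abs_sum_le_sum_abs _ _).trans (le_trans ?_ (mul_le_mul_of_nonneg_right hc he))
  rw [sum_mul]
  refine sum_le_sum fun T _ => ?_
  rw [abs_mul]
  by_cases hT : c T = 0
  · simp [hT]
  · exact mul_le_mul_of_nonneg_left (h T hT) (abs_nonneg _)

theorem lin_syn {c : Finset ι → ℝ} {M U : Finset ι → V} {K e : ℝ} (L L' : V →ₗ[ℝ] ℝ) (he : 0 ≤ e)
    (hc : ∑ T, |c T| ≤ K) (h : ∀ T, c T ≠ 0 → |L (M T) - L' (U T)| ≤ e) :
    |L (syn c M) - L' (syn c U)| ≤ K * e := by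
  simp only [syn, map_sum, map_smul, smul_eq_mul, ← sum_sub_distrib, ← mul_sub]
  exact abs_sum_mul_le he hc h

theorem InK.syn {D : Set V} {c : Finset ι → ℝ} {U : Finset ι → V} {K : ℝ} (hc : ∑ T, |c T| ≤ K)
    (h : ∀ T, U T ∈ D) : InK D K (syn c U) := fun L e he hL => by
  simpa using lin_syn (M := U) (U := U) L 0 he hc fun T _ => by simpa using hL _ (h T)

theorem bil_syn {c : Finset ι → ℝ} {M U M' U' : Finset ι → V} {K e : ℝ}
    (β β' : V →ₗ[ℝ] V →ₗ[ℝ] ℝ) (he : 0 ≤ e) (hc : ∑ T, |c T| ≤ K)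
    (h : ∀ T T', c T ≠ 0 → c T' ≠ 0 → |β (M T) (M' T') - β' (U T) (U' T')| ≤ e) :
    |β (syn c M) (syn c M') - β' (syn c U) (syn c U')| ≤ K * (K * e) := by
  have hK : 0 ≤ K := (sum_nonneg fun _ _ => abs_nonneg _).trans hc
  exact lin_syn (β.flip (syn c M')) (β'.flip (syn c U')) (by positivity) hc fun T hT =>
    lin_syn (β (M T)) (β' (U T)) he hc fun T' hT' => h T T' hT hT'

theorem InK.bil {D : Set V} {x y : V} {K K' e : ℝ} (hx : InK D K x) (hy : InK D K' y) (hK : 0 ≤ K')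
    (β β' : V →ₗ[ℝ] V →ₗ[ℝ] ℝ) (he : 0 ≤ e) (h : ∀ A ∈ D, ∀ B ∈ D, |β A B - β' A B| ≤ e) :
    |β x y - β' x y| ≤ K * (K' * e) :=
  hx ((β - β').flip y) _ (by positivity) fun A hA => hy ((β - β') A) e he (h A hA)

end lin

section gen

variable {ι : Type*} [Fintype ι] [DecidableEq ι] {P : Type*} {Y : Sys P}

theorem Ew_piecewise (g : ι → Pr) (D : Finset ι) (h : (ι → ℕ) → ℝ) :
    Ew g h = Ew g fun z => Ew g fun a => h (D.piecewise a z) := by
  have e1 : Ew g h = ∑ x ∈ supp g ×ˢ supp g,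
      (∏ k, (g k).w (x.1 k)) * ((∏ k, (g k).w (x.2 k)) * h x.1) := by
    rw [sum_product, Ew]
    refine sum_congr rfl fun a _ => ?_
    simp only
    rw [← mul_sum]
    congr 1
    exact (Ew_const g _).symm
  have e2 : (Ew g fun z => Ew g fun a => h (D.piecewise a z)) = ∑ x ∈ supp g ×ˢ supp g,
      (∏ k, (g k).w (x.1 k)) * ((∏ k, (g k).w (x.2 k)) * h (D.piecewise x.2 x.1)) := by
    rw [sum_product, Ew]
    refine sum_congr rfl fun a _ => ?_
    simp only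
    rw [Ew, mul_sum]
  have hm : ∀ x ∈ supp g ×ˢ supp g,
      (D.piecewise x.2 x.1, D.piecewise x.1 x.2) ∈ supp g ×ˢ supp g := by
    rintro ⟨z, a⟩ hx
    simp only [mem_product, mem_supp] at hx ⊢
    constructor <;> intro k <;> by_cases hk : k ∈ D <;> simp [hk, hx.1 k, hx.2 k]
  have hi : ∀ x : (ι → ℕ) × (ι → ℕ), (D.piecewise (D.piecewise x.1 x.2) (D.piecewise x.2 x.1),
      D.piecewise (D.piecewise x.2 x.1) (D.piecewise x.1 x.2)) = x := by
    rintro ⟨z, a⟩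
    ext k <;> by_cases hk : k ∈ D <;> simp [hk]
  rw [e1, e2]
  refine (sum_nbij' (fun x => (D.piecewise x.2 x.1, D.piecewise x.1 x.2))
    (fun x => (D.piecewise x.2 x.1, D.piecewise x.1 x.2)) hm hm (fun x _ => hi x) (fun x _ => hi x)
    ?_).symm
  rintro ⟨z, a⟩ _
  simp only
  rw [← mul_assoc, ← mul_assoc, ← prod_mul_distrib, ← prod_mul_distrib]
  congr 1
  refine prod_congr rfl fun k _ => ?_
  by_cases hk : k ∈ D <;> simp [hk, mul_comm]

theorem II_step {g : ι → Pr} {S : Finset ι} {j : ι} {ε : ℝ} (hj : j ∉ S)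
    (h : ∀ a ∈ supp g, Fs Y (lv S a) (g j) ε) {A B : (ι → ℕ) → P → ℂ} (hA : A ∈ CC Y S)
    (hB : B ∈ CC Y S) : |II Y g (insert j S) A B - II Y g S A B| ≤ ε := by
  rw [II_apply, II_apply, Ew_resample g j]
  refine abs_Ew_sub_le g fun a ha => ?_
  simp only [lv_insert_update hj, hA.2.update hj, hB.2.update hj]
  exact h a ha _ (hA.1 a) _ (hB.1 a)

theorem II_cube {g : ι → Pr} {R D : Finset ι} {ε : ℝ} (hd : Disjoint R D)
    (h : ∀ z ∈ supp g, ∀ φ ∈ Y.X (lv R z), ∀ ψ ∈ Y.X (lv R z),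
      |Ew g (fun a => (Y.μ (lv R z * lv D a)).ip φ ψ) - (Y.μ (lv R z)).ip φ ψ| ≤ ε)
    {A B : (ι → ℕ) → P → ℂ} (hA : A ∈ CC Y R) (hB : B ∈ CC Y R) :
    |II Y g (R ∪ D) A B - II Y g R A B| ≤ ε := by
  rw [II_apply, II_apply, Ew_piecewise g D]
  refine abs_Ew_sub_le g fun z hz => ?_
  have e0 : ∀ a : ι → ℕ, ∀ k ∈ R, D.piecewise a z k = z k := fun a k hk =>
    piecewise_eq_of_notMem _ _ _ (disjoint_left.1 hd hk)
  have e1 : ∀ a : ι → ℕ, lv (R ∪ D) (D.piecewise a z) = lv R z * lv D a := fun a => by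
    rw [lv, prod_union hd]
    congr 1
    · exact dep_lv R _ _ (e0 a)
    · exact dep_lv D _ _ fun k hk => piecewise_eq_of_mem _ _ _ hk
  simp only [e1, fun a => hA.2 _ _ (e0 a), fun a => hB.2 _ _ (e0 a)]
  exact h z hz _ (hA.1 z) _ (hB.1 z)

theorem II_update_CC (g : ι → Pr) {S : Finset ι} {j : ι} (hj : j ∉ S) (γ : Pr)
    {A B : (ι → ℕ) → P → ℂ} (hA : Dep S A) (hB : Dep S B) :
    II Y (update g j γ) S A B = II Y g S A B := II_update g hj γ (hA.update hj) (hB.update hj)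

omit [Fintype ι] [DecidableEq ι] in
theorem Dep.sub {S : Finset ι} {A B : (ι → ℕ) → P → ℂ} (hA : Dep S A) (hB : Dep S B) :
    Dep S (A - B) := fun a a' h => by simp only [Pi.sub_apply, hA a a' h, hB a a' h]

omit [DecidableEq ι] in
theorem Dep.syn {S : Finset ι} {M : Finset ι → (ι → ℕ) → P → ℂ} (c : Finset ι → ℝ)
    (h : ∀ T, Dep S (M T)) : Dep S (syn c M) := fun a a' ha => by
  simp only [ES.syn, Finset.sum_apply, Pi.smul_apply, fun T => h T a a' ha]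

/-- the data of one block -/
structure Blk (Y : Sys P) (g : ι → Pr) (o : ι) (Sa : Finset ι) (l0 : ℕ) (F : (ι → ℕ) → P → ℂ)
    (M U : Finset ι → (ι → ℕ) → P → ℂ) (u : (ι → ℕ) → P → ℂ) (ω E I : ℝ) : Prop where
  hF : F ∈ CC Y (insert o Sa)
  hM : ∀ T, M T ∈ CC Y (insert o (T ∩ Sa))
  hU : ∀ T, U T ∈ CC Y (T ∩ Sa)
  hu : u ∈ CC Y Sa
  lM : ∀ T, ∀ G ∈ CC Y Sa, |II Y g (insert o Sa) (M T) G - II Y g Sa (U T) G| ≤ ω
  lu : ∀ G ∈ CC Y Sa, |II Y g (insert o Sa) F G - II Y g Sa u G| ≤ ω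
  fs : ∀ A ∈ CC Y Sa, ∀ B ∈ CC Y Sa, |II Y g (insert o Sa) A B - II Y g Sa A B| ≤ ω
  es1 : II Y g (insert o Sa) (F - syn (cf (lo ι l0)) M) (F - syn (cf (lo ι l0)) M) ≤ I + E
  es2 : II Y g (insert o Sa) (syn (cf (lo ι l0)) M) (syn (cf (lo ι l0)) M) ≤ 2 + E

theorem TopS.blk {g : ι → Pr} {o : ι} {Sa : Finset ι} {τ : ℝ} (ho : o ∉ Sa)
    (h : TopS Y g {o} (insert o Sa) (τ ^ 4)) (h0 : 0 < τ) (h1 : τ ≤ 1) (l0 : ℕ)
    {F : (ι → ℕ) → P → ℂ} {G : ι → (ι → ℕ) → P → ℂ} (hF : F ∈ CC Y (insert o Sa))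
    (hG : ∀ k ∈ Sa, G k ∈ CC Y ((insert o Sa).erase k)) :
    ∃ M U u, Blk Y g o Sa l0 F M U u (7 * (Fintype.card ι + 1) ^ 2 * τ ^ 2)
      (256 ^ (Fintype.card ι + 1) * τ)
      ((∑ k ∈ Sa, II Y g (insert o Sa) (F - G k) (F - G k)) / (l0 + 1)) := by
  have e0 : insert o Sa \ {o} = Sa := by
    rw [sdiff_singleton_eq_erase, erase_insert ho]
  have hs : ({o} : Finset ι) ⊆ insert o Sa := by simp
  obtain ⟨M, m1, m2, m3⟩ := h.es h0 h1 hs l0 hF (G := G) (by rwa [e0])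
  rw [e0] at m2
  have hM : ∀ T, M T ∈ CC Y (insert o (T ∩ Sa)) := fun T => CC_mono (fun x => by
    simp only [mem_inter, mem_union, mem_singleton, mem_insert]
    tauto) (m1 T)
  have hfs : ∀ A ∈ CC Y Sa, ∀ B ∈ CC Y Sa, |II Y g (insert o Sa) A B - II Y g Sa A B| ≤
      (Fintype.card ι + 1) ^ 2 * τ ^ 2 := fun A hA B hB => by
    refine (h.fs.step (mem_insert_self _ _) (subset_insert _ _) ho hA hB).trans ?_
    have a1 : τ ^ 4 ≤ τ ^ 2 := pow_le_pow_of_le_one h0.le h1 (by norm_num)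
    have a2 : (1 : ℝ) ≤ (Fintype.card ι + 1) ^ 2 :=
      one_le_pow₀ (by linarith [Nat.cast_nonneg (α := ℝ) (Fintype.card ι)])
    nlinarith [sq_nonneg τ]
  have key : ∀ S ⊆ Sa, ∀ A ∈ CC Y (insert o S), ∃ W ∈ CC Y S, ∀ G ∈ CC Y Sa,
      |II Y g (insert o Sa) A G - II Y g Sa W G| ≤ 7 * (Fintype.card ι + 1) ^ 2 * τ ^ 2 := by
    intro S hS A hA
    obtain ⟨W, w1, w2⟩ := h.lift h0 h1 (S := insert o S) (k := o) (by simp)
      (insert_subset_insert _ hS) (mem_insert_self _ _) hA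
    rw [erase_insert fun h => ho (hS h)] at w1
    rw [erase_insert ho] at w2
    refine ⟨W, w1, fun G hG => ?_⟩
    have a1 := w2 G hG
    have a2 := hfs W (CC_mono hS w1) G hG
    rw [map_sub, LinearMap.sub_apply] at a1
    rw [abs_le] at *
    constructor <;> linarith [a1.1, a1.2, a2.1, a2.2]
  choose U hU hU' using fun T => key (T ∩ Sa) inter_subset_right (M T) (hM T)
  obtain ⟨u, hu, hu'⟩ := key Sa Subset.rfl F hF
  refine ⟨M, U, u, hF, hM, hU, hu, hU', hu', fun A hA B hB => (hfs A hA B hB).trans ?_, m2,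
    m3.trans ?_⟩
  · have : 0 ≤ ((Fintype.card ι : ℝ) + 1) ^ 2 * τ ^ 2 := by positivity
    linarith
  · linarith [II_self_le h.mass fun a => Y.bdd _ _ (hF.1 a)]

variable {g : ι → Pr} {o : ι} {Sa : Finset ι} {l0 : ℕ} {F : (ι → ℕ) → P → ℂ}
  {M U : Finset ι → (ι → ℕ) → P → ℂ} {u : (ι → ℕ) → P → ℂ} {ω E I : ℝ}

theorem Blk.nonneg (h : Blk Y g o Sa l0 F M U u ω E I) : 0 ≤ ω :=
  (abs_nonneg _).trans (h.lu _ h.hu)

theorem Blk.inK (h : Blk Y g o Sa l0 F M U u ω E I) :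
    InK (CC Y Sa) (4 ^ Fintype.card ι) (syn (cf (lo ι l0)) U) :=
  InK.syn (sum_abs_cf_le _) fun T => CC_mono inter_subset_right (h.hU T)

theorem Blk.low_test (h : Blk Y g o Sa l0 F M U u ω E I) {y : (ι → ℕ) → P → ℂ} {K : ℝ} (hK : 0 ≤ K)
    (hy : InK (CC Y Sa) K y) : |II Y g (insert o Sa) (syn (cf (lo ι l0)) M) y -
      II Y g Sa (syn (cf (lo ι l0)) U) y| ≤ 4 ^ Fintype.card ι * (K * ω) :=
  lin_syn ((II Y g (insert o Sa)).flip y) ((II Y g Sa).flip y) (mul_nonneg hK h.nonneg)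
    (sum_abs_cf_le _) fun T _ =>
      hy (II Y g (insert o Sa) (M T) - II Y g Sa (U T)) ω h.nonneg (h.lM T)

theorem II_two_le (Y : Sys P) (g : ι → Pr) (S : Finset ι) (x y : (ι → ℕ) → P → ℂ) :
    2 * II Y g S x y ≤ II Y g S x x + II Y g S y y := by
  have := II_two_mul_le Y g S x y one_pos
  rw [one_mul, div_one] at this
  linarith [le_abs_self (II Y g S x y)]

theorem Blk.norm_u (h : Blk Y g o Sa l0 F M U u ω E I) :
    II Y g Sa u u ≤ II Y g (insert o Sa) F F + 3 * ω := by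
  linarith [abs_le.1 (h.lu u h.hu), abs_le.1 (h.fs u h.hu u h.hu), II_two_le Y g (insert o Sa) F u]

theorem Blk.norm_al (h : Blk Y g o Sa l0 F M U u ω E I) :
    II Y g Sa (syn (cf (lo ι l0)) U) (syn (cf (lo ι l0)) U) ≤
      2 + E + 3 * (4 ^ Fintype.card ι * (4 ^ Fintype.card ι * ω)) := by
  have a1 := h.low_test (by positivity) h.inK
  have a2 := h.inK.bil h.inK (by positivity) _ _ h.nonneg h.fs
  linarith [abs_le.1 a1, abs_le.1 a2, h.es2,
    II_two_le Y g (insert o Sa) (syn (cf (lo ι l0)) M) (syn (cf (lo ι l0)) U)]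

theorem Blk.norm_phi (h : Blk Y g o Sa l0 F M U u ω E I) :
    II Y g Sa (u - syn (cf (lo ι l0)) U) (u - syn (cf (lo ι l0)) U) ≤
      I + E + 3 * ((1 + 4 ^ Fintype.card ι) * ((1 + 4 ^ Fintype.card ι) * ω)) := by
  have hφ := (InK.of_mem h.hu).sub h.inK
  set φ := u - syn (cf (lo ι l0)) U with e
  have a1 := h.low_test (by positivity) hφ
  have a2 := hφ.bil hφ (by positivity) _ _ h.nonneg h.fs
  have a3 : |II Y g (insert o Sa) F φ - II Y g Sa u φ| ≤ (1 + 4 ^ Fintype.card ι) * ω :=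
    hφ (II Y g (insert o Sa) F - II Y g Sa u) ω h.nonneg h.lu
  have a4 := II_two_le Y g (insert o Sa) (F - syn (cf (lo ι l0)) M) φ
  have a5 : II Y g Sa φ φ = II Y g Sa u φ - II Y g Sa (syn (cf (lo ι l0)) U) φ := by
    conv_lhs => enter [1]; rw [e, map_sub]
    rfl
  have a6 : II Y g (insert o Sa) (F - syn (cf (lo ι l0)) M) φ =
      II Y g (insert o Sa) F φ - II Y g (insert o Sa) (syn (cf (lo ι l0)) M) φ :=
    LinearMap.map_sub₂ _ _ _ _
  linarith [abs_le.1 a1, abs_le.1 a2, abs_le.1 a3, h.es1]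

/-- the hypotheses for a pair of blocks on the low level S -/
structure Low (Y : Sys P) (g : ι → Pr) (o o' : ι) (Sa S : Finset ι) (ε : ℝ) : Prop where
  mass : ∀ a ∈ supp g, ∑ x ∈ (Y.μ (lv (insert o' S) a)).s, (Y.μ (lv (insert o' S) a)).w x ≤ 2
  f1 : ∀ A ∈ CC Y S, ∀ B ∈ CC Y S, |II Y g (insert o' S) A B - II Y g S A B| ≤ ε
  f2 : ∀ A ∈ CC Y (insert o S), ∀ B ∈ CC Y (insert o S),
    |II Y g (insert o' (insert o S)) A B - II Y g (insert o S) A B| ≤ ε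
  c1 : ∀ A ∈ CC Y (insert o' S), ∀ B ∈ CC Y (insert o' S),
    |II Y g (insert o' Sa) A B - II Y g (insert o' S) A B| ≤ ε
  c2 : ∀ A ∈ CC Y (insert o' (insert o S)), ∀ B ∈ CC Y (insert o' (insert o S)),
    |II Y g (insert o' (insert o Sa)) A B - II Y g (insert o' (insert o S)) A B| ≤ ε

variable {o' : ι} {γ : Pr} {S : Finset ι} {τ : ℝ}

theorem Low.diag (hL : Low Y (update g o' γ) o o' Sa S (τ ^ 4)) (hoo : o ≠ o') (ho' : o' ∉ Sa)
    (hS : S ⊆ Sa) (hf : FsAll Y g (insert o Sa) (τ ^ 4)) {A B : (ι → ℕ) → P → ℂ}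
    (hA : A ∈ CC Y (insert o S)) (hB : B ∈ CC Y (insert o S)) :
    |II Y (update g o' γ) (insert o' (insert o Sa)) A B - II Y g (insert o Sa) A B| ≤
      (Fintype.card ι + 2) * τ ^ 4 := by
  have hn : o' ∉ insert o S := by simp [hoo.symm, notMem_mono hS ho']
  have a1 := hL.c2 A (CC_mono (subset_insert _ _) hA) B (CC_mono (subset_insert _ _) hB)
  have a2 := hL.f2 A hA B hB
  have a3 := hf.chain (by positivity) (insert_subset_insert o hS) Subset.rfl hA hB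
  rw [II_update_CC g hn γ hA.2 hB.2] at a2
  rw [abs_le] at *
  constructor <;> linarith [a1.1, a1.2, a2.1, a2.2, a3.1, a3.2]

theorem Low.off (hL : Low Y (update g o' γ) o o' Sa S (τ ^ 4)) (hoo : o ≠ o') (ho : o ∉ Sa)
    (ho' : o' ∉ Sa) (hS : S ⊆ Sa) (hf : FsAll Y g (insert o Sa) (τ ^ 4)) (h0 : 0 < τ) (h1 : τ ≤ 1)
    (he : ∀ a ∈ supp (update g o' γ), Ext Y (lv S a) (g o) γ (τ ^ 4))
    {m W G' : (ι → ℕ) → P → ℂ} (hm : m ∈ CC Y (insert o S)) (hW : W ∈ CC Y S)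
    (hv : ∀ G ∈ CC Y Sa, |II Y g (insert o Sa) m G - II Y g Sa W G| ≤
      7 * (Fintype.card ι + 1) ^ 2 * τ ^ 2) (hG' : G' ∈ CC Y (insert o' S)) :
    |II Y (update g o' γ) (insert o' (insert o Sa)) m G' -
      II Y (update g o' γ) (insert o' Sa) W G'| ≤ 20 * (Fintype.card ι + 1) * τ := by
  have hn0 : o' ∉ S := notMem_mono hS ho'
  have hn : o' ∉ insert o S := by simp [hoo.symm, hn0]
  have h4 : 0 < τ ^ 4 := by positivity
  have hl : (0 : ℝ) ≤ Fintype.card ι := Nat.cast_nonneg _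
  set l : ℝ := ((Fintype.card ι : ℕ) : ℝ)
  obtain ⟨V, v1, v2⟩ := exists_valid1 (g := update g o' γ) (notMem_mono hS ho) hn h4
    (fun a ha => by rw [update_of_ne hoo, update_self]; exact he a ha) hm
  have t1 : τ ^ 4 ≤ τ ^ 2 := pow_le_pow_of_le_one h0.le h1 (by norm_num)
  have t2 : τ ^ 4 ≤ τ := pow_le_of_le_one h0.le h1 (by norm_num)
  have t3 : (4 + 2 * l) * τ ^ 4 ≤ 4 * (l + 1) ^ 2 * τ ^ 2 :=
    mul_le_mul (by nlinarith) t1 h4.le (by positivity)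
  have b1 : ∀ G ∈ CC Y S, |II Y (update g o' γ) S V G - II Y (update g o' γ) S W G| ≤
      11 * (l + 1) ^ 2 * τ ^ 2 := by
    intro G hG
    have a1 := hL.f1 V v1 G hG
    have a2 := v2 G (CC_mono (subset_insert _ _) hG)
    have a3 := hL.f2 m hm G (CC_mono (subset_insert _ _) hG)
    have a4 := hf.chain h4.le (insert_subset_insert o hS) Subset.rfl hm
      (CC_mono (subset_insert _ _) hG)
    have a5 := hv G (CC_mono hS hG)
    have a6 := hf.chain h4.le hS (subset_insert _ _) hW hG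
    rw [II_update_CC g hn γ hm.2 (hG.2.mono (subset_insert _ _))] at a3
    rw [II_update_CC g hn0 γ hW.2 hG.2]
    rw [abs_le] at *
    constructor <;> linarith [a1.1, a1.2, a2.1, a2.2, a3.1, a3.2, a4.1, a4.2, a5.1, a5.2, a6.1, a6.2]
  have b2 : II Y (update g o' γ) S (V - W) (V - W) ≤ 22 * (l + 1) ^ 2 * τ ^ 2 := by
    simp only [map_sub, LinearMap.sub_apply]
    linarith [abs_le.1 (b1 V v1), abs_le.1 (b1 W hW)]
  have hK := (InK.of_mem v1).sub (InK.of_mem hW)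
  have b3 := hK.bil hK (by norm_num) _ _ h4.le hL.f1
  have b4 : II Y (update g o' γ) (insert o' S) (V - W) (V - W) ≤ 26 * (l + 1) ^ 2 * τ ^ 2 := by
    have : τ ^ 2 ≤ (l + 1) ^ 2 * τ ^ 2 := le_mul_of_one_le_left (by positivity) (by nlinarith)
    linarith [abs_le.1 b3]
  have b5 := II_two_mul_le Y (update g o' γ) (insert o' S) G' (V - W) (t := (l + 1) * τ)
    (by positivity)
  have b6 := II_self_le hL.mass fun a => Y.bdd _ _ (hG'.1 a)
  have b7 : II Y (update g o' γ) (insert o' S) (V - W) (V - W) / ((l + 1) * τ) ≤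
      26 * (l + 1) * τ := by
    rw [div_le_iff₀ (by positivity)]
    exact b4.trans (le_of_eq (by ring))
  have b8 : (l + 1) * τ * II Y (update g o' γ) (insert o' S) G' G' ≤ (l + 1) * τ * 2 :=
    mul_le_mul_of_nonneg_left b6 (by positivity)
  have b9 : |II Y (update g o' γ) (insert o' S) V G' - II Y (update g o' γ) (insert o' S) W G'| ≤
      14 * (l + 1) * τ := by
    rw [← LinearMap.sub_apply, ← map_sub, II_comm]
    linarith
  have c1 := hL.c1 W (CC_mono (subset_insert _ _) hW) G' hG'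
  have c2 := hL.c2 m (CC_mono (subset_insert _ _) hm) G'
    (CC_mono (insert_subset_insert _ (subset_insert _ _)) hG')
  have c3 := v2 G' hG'
  have c4 : τ ≤ (l + 1) * τ := le_mul_of_one_le_left h0.le (by linarith)
  rw [abs_le] at *
  constructor <;> linarith [c1.1, c1.2, c2.1, c2.2, c3.1, c3.2, b9.1, b9.2]

end gen

end Pool.Agent.P.MP_a14ce1_nt.Nil.ES
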