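import Pool.Agent.P.MP_a14ce1_nt.Nil.Core2

/-!
The core of the plain step, second half: the weighted sums over the large primes and the assembly.
-/

open Finset Function

namespace Pool.Agent.P.MP_a14ce1_nt.Nil.ES

theorem Wt.ip_sum_left {P α : Type*} (μ : Wt P) (s : Finset α) (w : α → ℝ) (φ : α → P → ℂ)
    (ψ : P → ℂ) : μ.ip (∑ q ∈ s, w q • φ q) ψ = ∑ q ∈ s, w q * μ.ip (φ q) ψ := by
  classical
  induction s using Finset.induction_on with
  | empty => simp [Wt.ip]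
  | insert q s hq ih => rw [sum_insert hq, sum_insert hq, Wt.ip_add_left, Wt.ip_smul_left, ih]

theorem br_comm (μ : Wt ℕ) (c : ℕ) (φ ψ : ℕ → ℂ) : br μ c φ ψ = br μ c ψ φ := Wt.ip_comm _ _ _

theorem br_nonneg (μ : Wt ℕ) (c : ℕ) (φ : ℕ → ℂ) : 0 ≤ br μ c φ φ := Wt.ip_self_nonneg _ _

theorem br_two_le (μ : Wt ℕ) (c : ℕ) (φ ψ : ℕ → ℂ) :
    2 * br μ c φ ψ ≤ br μ c φ φ + br μ c ψ ψ := by
  have := br_nonneg μ c (φ + (-1 : ℝ) • ψ)
  simp only [br, Wt.ip_add_left, Wt.ip_add_right, Wt.ip_smul_left, Wt.ip_smul_right,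
    Wt.ip_comm _ ψ φ] at this ⊢
  linarith

theorem br_congr (μ : Wt ℕ) (c : ℕ) (φ : ℕ → ℂ) {ψ ψ' : ℕ → ℂ} (h : ∀ N, c ∣ N → ψ N = ψ' N) :
    br μ c φ ψ = br μ c φ ψ' := by
  rw [br_eq, br_eq]
  congr 1
  exact sum_congr rfl fun N hN => by rw [h N (mem_filter.1 hN).2]

/-- q times the restriction to the multiples of c q -/
noncomputable def rq (c q : ℕ) (φ : ℕ → ℂ) : ℕ → ℂ := fun N => if c * q ∣ N then (q : ℂ) * φ N else 0

theorem br_rq (μ : Wt ℕ) (c q : ℕ) (φ ψ : ℕ → ℂ) : br μ c (rq c q φ) ψ = br μ (c * q) φ ψ := by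
  rw [br_eq, br_eq, sum_filter, sum_filter, mul_sum, mul_sum]
  refine sum_congr rfl fun N _ => ?_
  by_cases h : c * q ∣ N
  · rw [if_pos h, if_pos (dvd_of_mul_right_dvd h), rq, if_pos h, mul_assoc (q : ℂ),
      ← Complex.ofReal_natCast, Complex.re_ofReal_mul]
    push_cast
    ring
  · simp [rq, h]

theorem br_rq_rq (μ : Wt ℕ) (c : ℕ) {q q' : ℕ} (h : q.Coprime q') (φ ψ : ℕ → ℂ) :
    br μ (c * q) φ (rq c q' ψ) = br μ (c * q * q') φ ψ := by
  rw [br_congr μ (c * q) φ (ψ' := rq (c * q) q' ψ), br_comm, br_rq, br_comm]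
  intro N hN
  have : c * q' ∣ N ↔ c * q * q' ∣ N := by
    constructor
    · intro h'
      have := Nat.lcm_dvd hN h'
      rwa [Nat.lcm_mul_left, h.lcm_eq_mul, ← mul_assoc] at this
    · intro h'
      exact Dvd.dvd.trans ⟨q, by ring⟩ h'
  simp only [rq, this]

theorem br_rq_self (μ : Wt ℕ) (c q : ℕ) (φ ψ : ℕ → ℂ) :
    br μ (c * q) φ (rq c q ψ) = q * br μ (c * q) φ ψ := by
  rw [br_congr μ (c * q) φ (ψ' := (q : ℝ) • ψ)]
  · exact Wt.ip_smul_right _ _ _ _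
  · intro N hN
    simp [rq, hN]

/-- the mean over γ of the weighted restrictions -/
noncomputable def hq (c : ℕ) (γ : Pr) (φ : ℕ → ℕ → ℂ) : ℕ → ℂ := ∑ q ∈ γ.s, γ.w q • rq c q (φ q)

theorem br_hq (μ : Wt ℕ) (c : ℕ) (γ : Pr) (φ : ℕ → ℕ → ℂ) (ψ : ℕ → ℂ) :
    br μ c (hq c γ φ) ψ = γ.E fun q => br μ (c * q) (φ q) ψ := by
  rw [br, hq, Wt.ip_sum_left]
  exact sum_congr rfl fun q _ => congrArg _ (br_rq μ c q _ _)

theorem br_hq_right (μ : Wt ℕ) (c c' : ℕ) (γ : Pr) (φ : ℕ → ℕ → ℂ) (ψ : ℕ → ℂ) :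
    br μ c' ψ (hq c γ φ) = γ.E fun q => br μ c' ψ (rq c q (φ q)) := by
  rw [br_comm, br, hq, Wt.ip_sum_left]
  exact sum_congr rfl fun q _ => congrArg _ (br_comm μ c' _ _)

theorem br_hq_hq (μ : Wt ℕ) (c : ℕ) {γ γ' : Pr} (h : ∀ q ∈ γ.s, ∀ q' ∈ γ'.s, q.Coprime q')
    (φ ψ : ℕ → ℕ → ℂ) : br μ c (hq c γ φ) (hq c γ' ψ) =
      γ.E fun q => γ'.E fun q' => br μ (c * q * q') (φ q) (ψ q') := by
  rw [br_hq]
  refine sum_congr rfl fun q hq => congrArg _ ?_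
  beta_reduce
  rw [br_hq_right]
  exact sum_congr rfl fun q' hq' => congrArg _ (br_rq_rq μ c (h q hq q' hq') _ _)

theorem br_hq_self (μ : Wt ℕ) (c : ℕ) {γ : Pr} (h : ∀ q ∈ γ.s, q.Prime) {lam d : ℝ} (hl : 0 ≤ lam)
    (hd : ∀ q ∈ γ.s, lam * γ.w q * q ≤ d) (φ : ℕ → ℕ → ℂ) :
    lam * br μ c (hq c γ φ) (hq c γ φ) ≤
      lam * (γ.E fun q => γ.E fun q' => br μ (c * q * q') (φ q) (φ q)) +
        d * γ.E fun q => br μ (c * q) (φ q) (φ q) := by
  set x : ℕ → ℕ → ℝ := fun q q' => br μ (c * q * q') (φ q) (φ q) with hx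
  have a1 : br μ c (hq c γ φ) (hq c γ φ) ≤ γ.E fun q =>
      γ.E (fun q' => 1 / 2 * x q q' + 1 / 2 * x q' q) + γ.w q * q * br μ (c * q) (φ q) (φ q) := by
    rw [br_hq]
    refine γ.E_le fun q hq => ?_
    rw [br_hq_right]
    have b : γ.w q * q * br μ (c * q) (φ q) (φ q) =
        γ.E fun q' => if q' = q then q * br μ (c * q) (φ q) (φ q) else 0 := by
      simp only [Pr.E, mul_ite, mul_zero]
      rw [sum_ite_eq', if_pos hq, mul_assoc]
    rw [b, ← Pr.E_add]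
    refine γ.E_le fun q' hq' => ?_
    by_cases e : q' = q
    · subst e
      rw [br_rq_self, if_pos rfl]
      linarith [br_nonneg μ (c * q' * q') (φ q')]
    · rw [br_rq_rq μ c ((Nat.coprime_primes (h q hq) (h q' hq')).2 (Ne.symm e)), if_neg e]
      have := br_two_le μ (c * q * q') (φ q) (φ q')
      simp only [hx, mul_right_comm c q' q]
      linarith
  have a2 : (γ.E fun q => γ.E fun q' => x q' q) = γ.E fun q => γ.E fun q' => x q q' := by
    simp only [Pr.E, mul_sum]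
    rw [sum_comm]
    exact sum_congr rfl fun _ _ => sum_congr rfl fun _ _ => by ring
  simp only [Pr.E_add, Pr.E_mul, a2] at a1
  have a3 : lam * (γ.E fun q => γ.w q * q * br μ (c * q) (φ q) (φ q)) ≤
      d * γ.E fun q => br μ (c * q) (φ q) (φ q) := by
    rw [← Pr.E_mul, ← Pr.E_mul]
    refine γ.E_le fun q hq => ?_
    have := mul_le_mul_of_nonneg_right (hd q hq) (br_nonneg μ (c * q) (φ q))
    linarith
  have := mul_le_mul_of_nonneg_left a1 hl
  linarith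

theorem cl_zero : Cl {0} where
  cvx := convex_singleton 0
  zero := rfl
  neg := fun φ h => by simpa using h
  bdd := fun φ h n => by rw [h]; simp

variable {ι : Type} [Fintype ι] [DecidableEq ι]

/-- the inner product on the level S -/
noncomputable def JJ (μ : Wt ℕ) (g : ι → Pr) (S : Finset ι) :
    ((ι → ℕ) → ℕ → ℂ) →ₗ[ℝ] ((ι → ℕ) → ℕ → ℂ) →ₗ[ℝ] ℝ := II (sysOf μ cl_zero) g S

theorem II_eq (μ : Wt ℕ) {X : Set (ℕ → ℂ)} (h : Cl X) (g : ι → Pr) (S : Finset ι) :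
    II (sysOf μ h) g S = JJ μ g S := rfl

theorem JJ_apply (μ : Wt ℕ) (g : ι → Pr) (S : Finset ι) (A B : (ι → ℕ) → ℕ → ℂ) :
    JJ μ g S A B = Ew g fun a => br μ (lv S a) (A a) (B a) := rfl

/-- the weighted sum over the large primes of a block -/
noncomputable def hh (o : ι) (Sa : Finset ι) (γ : Pr) (L : (ι → ℕ) → ℕ → ℂ) : (ι → ℕ) → ℕ → ℂ :=
  fun z => hq (lv Sa z) γ fun q => L (update z o q)

/-- the large prime is read from the coordinate o' -/
def sw (o o' : ι) (L : (ι → ℕ) → ℕ → ℂ) : (ι → ℕ) → ℕ → ℂ := fun z => L (update z o (z o'))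

variable {μ : Wt ℕ} {g : ι → Pr} {o o' : ι} {Sa : Finset ι} {γ γ' : Pr}

theorem JJ_hh (ho : o ∉ Sa) (L : (ι → ℕ) → ℕ → ℂ) {x : (ι → ℕ) → ℕ → ℂ} (hx : Dep Sa x) :
    JJ μ g Sa (hh o Sa γ L) x = JJ μ (update g o γ) (insert o Sa) L x := by
  rw [JJ_apply, JJ_apply, Ew_update]
  simp only [hh, br_hq, lv_insert_update ho, hx.update ho]

theorem JJ_upd2 (hoo : o ≠ o') (ho : o ∉ Sa) (ho' : o' ∉ Sa) (A B : (ι → ℕ) → ℕ → ℂ) :
    JJ μ (update (update g o γ) o' γ') (insert o' (insert o Sa)) A B =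
      Ew g fun a => γ.E fun q => γ'.E fun q' => br μ (lv Sa a * q * q')
        (A (update (update a o q) o' q')) (B (update (update a o q) o' q')) := by
  have hn : o' ∉ insert o Sa := by simp [hoo.symm, ho']
  rw [JJ_apply, Ew_update, Ew_update]
  simp only [lv_insert_update hn, lv_insert_update ho]

omit [Fintype ι] in
theorem sw_upd (hoo : o ≠ o') (ho' : o' ∉ Sa) {L : (ι → ℕ) → ℕ → ℂ} (hL : Dep (insert o Sa) L)
    (a : ι → ℕ) (q q' : ℕ) : sw o o' L (update (update a o q) o' q') = L (update a o q') := by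
  refine hL _ _ fun k hk => ?_
  by_cases e : k = o
  · subst e; simp
  · have : k ≠ o' := fun e' => ho' (by simpa [← e', e] using hk)
    simp [e, this]

theorem JJ_hh_hh (hoo : o ≠ o') (ho : o ∉ Sa) (ho' : o' ∉ Sa)
    (h : ∀ q ∈ γ.s, ∀ q' ∈ γ'.s, q.Coprime q') {L L' : (ι → ℕ) → ℕ → ℂ}
    (hL : Dep (insert o Sa) L) (hL' : Dep (insert o Sa) L') :
    JJ μ g Sa (hh o Sa γ L) (hh o Sa γ' L') =
      JJ μ (update (update g o γ) o' γ') (insert o' (insert o Sa)) L (sw o o' L') := by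
  have hn : o' ∉ insert o Sa := by simp [hoo.symm, ho']
  rw [JJ_upd2 hoo ho ho', JJ_apply]
  simp only [hh, br_hq_hq μ _ h, hL.update hn, sw_upd hoo ho' hL']

theorem JJ_hh_right (hoo : o ≠ o') (ho : o ∉ Sa) (ho' : o' ∉ Sa) {x L' : (ι → ℕ) → ℕ → ℂ}
    (hx : Dep Sa x) (hL' : Dep (insert o Sa) L') : JJ μ g Sa x (hh o Sa γ' L') =
      JJ μ (update (update g o γ) o' γ') (insert o' Sa) x (sw o o' L') := by
  rw [JJ_apply, JJ_apply, Ew_update, Ew_update]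
  simp only [lv_insert_update ho', (dep_lv Sa).update ho, hx.update ho', hx.update ho,
    sw_upd hoo ho' hL', Pr.E_const, br_comm μ _ (x _), hh, br_hq]

theorem JJ_hh_self (hoo : o ≠ o') (ho : o ∉ Sa) (ho' : o' ∉ Sa) (h : ∀ q ∈ γ.s, q.Prime)
    {lam d : ℝ} (hl : 0 ≤ lam) (hd : ∀ q ∈ γ.s, lam * γ.w q * q ≤ d) {L : (ι → ℕ) → ℕ → ℂ}
    (hL : Dep (insert o Sa) L) : lam * JJ μ g Sa (hh o Sa γ L) (hh o Sa γ L) ≤
      lam * JJ μ (update (update g o γ) o' γ) (insert o' (insert o Sa)) L L +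
        d * JJ μ (update g o γ) (insert o Sa) L L := by
  have hn : o' ∉ insert o Sa := by simp [hoo.symm, ho']
  rw [JJ_upd2 hoo ho ho', JJ_apply, JJ_apply, Ew_update, ← Ew_mul, ← Ew_mul, ← Ew_mul, ← Ew_add]
  refine Ew_le g fun a _ => ?_
  simp only [hh, hL.update hn, lv_insert_update ho]
  exact br_hq_self μ _ h hl hd _

omit [Fintype ι] in
theorem sw_mem {X X' : Set (ℕ → ℂ)} (h : Cl X) (h' : Cl X') (hX : X' ⊆ X) {S S' : Finset ι}
    (hS : S ⊆ S') {L : (ι → ℕ) → ℕ → ℂ} (hL : L ∈ CC (sysOf μ h') (insert o S)) :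
    sw o o' L ∈ CC (sysOf μ h) (insert o' S') := by
  refine ⟨fun a => hX (hL.1 _), fun a a' ha => hL.2 _ _ fun k hk => ?_⟩
  by_cases e : k = o
  · subst e; simpa using ha o' (mem_insert_self _ _)
  · simpa [e] using ha k (mem_insert_of_mem (hS (by simpa [e] using hk)))

theorem sw_syn (c : Finset ι → ℝ) (M : Finset ι → (ι → ℕ) → ℕ → ℂ) :
    sw o o' (syn c M) = syn c fun T => sw o o' (M T) := by
  funext z
  simp only [sw, syn, Finset.sum_apply, Pi.smul_apply]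

theorem mem_supp2 (hoo : o ≠ o') (ho : o ∉ Sa) (ho' : o' ∉ Sa) {a : ι → ℕ}
    (ha : a ∈ supp (update (update g o γ) o' γ')) :
    (∀ k ∈ Sa, a k ∈ (g k).s) ∧ a o ∈ γ.s ∧ a o' ∈ γ'.s := by
  rw [mem_supp] at ha
  refine ⟨fun k hk => ?_, by simpa [hoo] using ha o, by simpa using ha o'⟩
  have h1 : k ≠ o := fun e => ho (e ▸ hk)
  have h2 : k ≠ o' := fun e => ho' (e ▸ hk)
  simpa [h1, h2] using ha k

theorem low_of {X : Set (ℕ → ℂ)} (hX : Cl X) (hoo : o ≠ o') (ho : o ∉ Sa) (ho' : o' ∉ Sa)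
    {S : Finset ι} (hS : S ⊆ Sa) {ε : ℝ}
    (h : ∀ a : ι → ℕ, (∀ k ∈ Sa, a k ∈ (g k).s) → ∀ q ∈ γ.s, ∀ q' ∈ γ'.s,
      mass μ (lv S a * q') ≤ 2 ∧ FsN μ X (lv S a) γ' ε ∧ FsN μ X (lv S a * q) γ' ε ∧
        FsC μ X (lv S a * q') g (Sa \ S) ε ∧ FsC μ X (lv S a * q * q') g (Sa \ S) ε) :
    Low (sysOf μ hX) (update (update g o γ) o' γ') o o' Sa S ε := by
  have n1 : o ∉ S := notMem_mono hS ho
  have n2 : o' ∉ S := notMem_mono hS ho'
  have n3 : o' ∉ insert o S := by simp [hoo.symm, n2]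
  have H := fun a (ha : a ∈ supp (update (update g o γ) o' γ')) =>
    h a (mem_supp2 hoo ho ho' ha).1 _ (mem_supp2 hoo ho ho' ha).2.1 _ (mem_supp2 hoo ho ho' ha).2.2
  have hE : ∀ (c : ℕ) (φ ψ : ℕ → ℂ), Ew (update (update g o γ) o' γ')
      (fun a => br μ (c * lv (Sa \ S) a) φ ψ) = Ew g fun a => br μ (c * lv (Sa \ S) a) φ ψ := by
    intro c φ ψ
    rw [Ew_update_of_indep _ _ _ fun a p => by
        rw [(dep_lv (Sa \ S)).update (notMem_mono sdiff_subset ho')],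
      Ew_update_of_indep _ _ _ fun a p => by
        rw [(dep_lv (Sa \ S)).update (notMem_mono sdiff_subset ho)]]
  refine ⟨fun a ha => ?_, fun A hA B hB => II_step n2 (fun a ha => ?_) hA hB,
    fun A hA B hB => II_step n3 (fun a ha => ?_) hA hB, fun A hA B hB => ?_, fun A hA B hB => ?_⟩
  · rw [lv_insert n2]
    exact (H a ha).1
  · rw [update_self]
    exact (H a ha).2.1
  · rw [update_self, lv_insert n1]
    exact (H a ha).2.2.1
  · have e : insert o' Sa = insert o' S ∪ Sa \ S := by rw [insert_union, union_sdiff_of_subset hS]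
    rw [e]
    refine II_cube (by simp [ho', disjoint_sdiff]) (fun z hz φ hφ ψ hψ => ?_) hA hB
    have := (H z hz).2.2.2.1 φ hφ ψ hψ
    rw [← hE, ← lv_insert n2] at this
    exact this
  · have e : insert o' (insert o Sa) = insert o' (insert o S) ∪ Sa \ S := by
      rw [insert_union, insert_union, union_sdiff_of_subset hS]
    rw [e]
    refine II_cube (by simp [ho', ho, disjoint_sdiff]) (fun z hz φ hφ ψ hψ => ?_) hA hB
    have := (H z hz).2.2.2.2 φ hφ ψ hψ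
    rw [← hE, ← lv_insert n1, ← lv_insert n3] at this
    exact this

end Pool.Agent.P.MP_a14ce1_nt.Nil.ES
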