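import Pool.Agent.P.MP_a14ce1_nt.Nil.ES2

/-!
The cube model on one window: levels, classes, fair sampling along chains and universal lifts.
-/

open Finset Function
open scoped RealInnerProductSpace

namespace Pool.Agent.P.MP_a14ce1_nt.Nil.ES

/-! ### Inner product spaces from forms -/

/-- a symmetric positive form -/
structure Form (V : Type*) [AddCommGroup V] [Module ℝ V] where
  B : V →ₗ[ℝ] V →ₗ[ℝ] ℝ
  symm : ∀ x y, B x y = B y x
  nonneg : ∀ x, 0 ≤ B x x

/-- the space V with the form as inner product -/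
def Sp {V : Type*} [AddCommGroup V] [Module ℝ V] (_β : Form V) : Type _ := V

section Sp

variable {V : Type*} [AddCommGroup V] [Module ℝ V] (β : Form V)

noncomputable instance : AddCommGroup (Sp β) := inferInstanceAs (AddCommGroup V)

noncomputable instance : Module ℝ (Sp β) := inferInstanceAs (Module ℝ V)

/-- the form as an inner product core -/
@[reducible] noncomputable def Sp.core : PreInnerProductSpace.Core ℝ (Sp β) where
  inner x y := β.B x y
  conj_inner_symm x y := by simpa using β.symm y x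
  re_inner_nonneg x := by simpa using β.nonneg x
  add_left x y z := β.B.map_add₂ x y z
  smul_left x y r := β.B.map_smul₂ r x y

noncomputable instance : SeminormedAddCommGroup (Sp β) :=
  @InnerProductSpace.Core.toSeminormedAddCommGroup ℝ (Sp β) _ _ _ (Sp.core β)

noncomputable instance : InnerProductSpace ℝ (Sp β) := InnerProductSpace.ofCore (Sp.core β)

theorem Sp.inner_eq (x y : Sp β) : ⟪x, y⟫ = β.B x y := rfl

theorem Sp.norm_sq (x : Sp β) : ‖x‖ ^ 2 = β.B x x := by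
  rw [← real_inner_self_eq_norm_sq, Sp.inner_eq]

end Sp

theorem Form.two_mul_le {V : Type*} [AddCommGroup V] [Module ℝ V] (β : Form V) (x y : V) :
    2 * β.B x y ≤ β.B x x + β.B y y := by
  have := β.nonneg (x - y)
  simp only [map_sub, LinearMap.sub_apply] at this
  linarith [β.symm x y]

section ip

variable {P : Type*} (μ : Wt P)

theorem Wt.ip_comm (φ ψ : P → ℂ) : μ.ip φ ψ = μ.ip ψ φ :=
  ((L2.core μ).conj_inner_symm φ ψ).symm.trans (conj_trivial _)

theorem Wt.ip_add_left (φ ψ χ : P → ℂ) : μ.ip (φ + ψ) χ = μ.ip φ χ + μ.ip ψ χ :=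
  (L2.core μ).add_left φ ψ χ

theorem Wt.ip_smul_left (r : ℝ) (φ ψ : P → ℂ) : μ.ip (r • φ) ψ = r * μ.ip φ ψ :=
  (L2.core μ).smul_left φ ψ r

theorem Wt.ip_add_right (φ ψ χ : P → ℂ) : μ.ip φ (ψ + χ) = μ.ip φ ψ + μ.ip φ χ := by
  rw [μ.ip_comm, μ.ip_add_left, μ.ip_comm ψ, μ.ip_comm χ]

theorem Wt.ip_smul_right (r : ℝ) (φ ψ : P → ℂ) : μ.ip φ (r • ψ) = r * μ.ip φ ψ := by
  rw [μ.ip_comm, μ.ip_smul_left, μ.ip_comm]

theorem Wt.ip_neg_left (φ ψ : P → ℂ) : μ.ip (-φ) ψ = -μ.ip φ ψ := by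
  rw [← neg_one_smul ℝ φ, μ.ip_smul_left, neg_one_mul]

theorem Wt.ip_self_nonneg (φ : P → ℂ) : 0 ≤ μ.ip φ φ := (L2.core μ).re_inner_nonneg φ

theorem Wt.ip_self (φ : P → ℂ) : μ.ip φ φ = ∑ x ∈ μ.s, μ.w x * ‖φ x‖ ^ 2 := by
  rw [← L2.norm_sq μ φ, ← real_inner_self_eq_norm_sq, L2.inner_eq]

theorem Wt.ip_self_le (φ : P → ℂ) (h : ∀ x, ‖φ x‖ ≤ 1) : μ.ip φ φ ≤ ∑ x ∈ μ.s, μ.w x := by
  rw [μ.ip_self]
  exact sum_le_sum fun x _ =>
    mul_le_of_le_one_right (μ.nn x) (pow_le_one₀ (norm_nonneg _) (h x))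

theorem Wt.continuous_ip {Z : Type*} [TopologicalSpace Z] {φ ψ : Z → P → ℂ} (h1 : Continuous φ)
    (h2 : Continuous ψ) : Continuous fun z => μ.ip (φ z) (ψ z) := by
  unfold Wt.ip
  refine continuous_finsetSum _ fun x _ => continuous_const.mul (Complex.continuous_re.comp ?_)
  exact ((continuous_apply x).comp h1).mul
    (Complex.continuous_conj.comp ((continuous_apply x).comp h2))

end ip

/-! ### Product probabilities -/

/-- a probability weight on the naturals -/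
structure Pr extends Wt ℕ where
  one : ∑ p ∈ s, w p = 1

/-- the point mass at one -/
def Pr.unit : Pr where
  s := {1}
  w := fun _ => 1
  nn := fun _ => zero_le_one
  one := by simp

/-- mean of a real function -/
noncomputable def Pr.E (γ : Pr) (h : ℕ → ℝ) : ℝ := ∑ p ∈ γ.s, γ.w p * h p

theorem Pr.E_const (γ : Pr) (c : ℝ) : γ.E (fun _ => c) = c := by
  rw [Pr.E, ← sum_mul, γ.one, one_mul]

theorem Pr.unit_E (h : ℕ → ℝ) : Pr.unit.E h = h 1 := by simp [Pr.E, Pr.unit]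

theorem Pr.E_add (γ : Pr) (h h' : ℕ → ℝ) : γ.E (fun p => h p + h' p) = γ.E h + γ.E h' := by
  simp only [Pr.E, mul_add, sum_add_distrib]

theorem Pr.E_mul (γ : Pr) (r : ℝ) (h : ℕ → ℝ) : γ.E (fun p => r * h p) = r * γ.E h := by
  simp only [Pr.E, mul_sum]
  exact sum_congr rfl fun p _ => by ring

theorem Pr.E_neg (γ : Pr) (h : ℕ → ℝ) : γ.E (fun p => -h p) = -γ.E h := by
  simp only [Pr.E, mul_neg, sum_neg_distrib]

theorem Pr.E_le (γ : Pr) {h h' : ℕ → ℝ} (hh : ∀ p ∈ γ.s, h p ≤ h' p) : γ.E h ≤ γ.E h' :=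
  sum_le_sum fun p hp => mul_le_mul_of_nonneg_left (hh p hp) (γ.nn p)

variable {ι : Type*} [Fintype ι] [DecidableEq ι]

/-- support of the product -/
def supp (g : ι → Pr) : Finset (ι → ℕ) := Fintype.piFinset fun k => (g k).s

/-- mean over the product -/
noncomputable def Ew (g : ι → Pr) (h : (ι → ℕ) → ℝ) : ℝ :=
  ∑ a ∈ supp g, (∏ k, (g k).w (a k)) * h a

theorem mem_supp {g : ι → Pr} {a : ι → ℕ} : a ∈ supp g ↔ ∀ k, a k ∈ (g k).s :=
  Fintype.mem_piFinset

theorem Ew_const (g : ι → Pr) (c : ℝ) : Ew g (fun _ => c) = c := by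
  rw [Ew, ← sum_mul, supp, ← prod_univ_sum]
  simp only [Pr.one, prod_const_one, one_mul]

theorem Ew_le (g : ι → Pr) {h h' : (ι → ℕ) → ℝ} (hh : ∀ a ∈ supp g, h a ≤ h' a) :
    Ew g h ≤ Ew g h' :=
  sum_le_sum fun a ha => mul_le_mul_of_nonneg_left (hh a ha) (prod_nonneg fun k _ => (g k).nn _)

theorem Ew_congr (g : ι → Pr) {h h' : (ι → ℕ) → ℝ} (hh : ∀ a ∈ supp g, h a = h' a) :
    Ew g h = Ew g h' := sum_congr rfl fun a ha => by rw [hh a ha]

theorem Ew_add (g : ι → Pr) (h h' : (ι → ℕ) → ℝ) :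
    Ew g (fun a => h a + h' a) = Ew g h + Ew g h' := by
  simp only [Ew, mul_add, sum_add_distrib]

theorem Ew_sub (g : ι → Pr) (h h' : (ι → ℕ) → ℝ) :
    Ew g (fun a => h a - h' a) = Ew g h - Ew g h' := by
  simp only [Ew, mul_sub, sum_sub_distrib]

theorem Ew_mul (g : ι → Pr) (r : ℝ) (h : (ι → ℕ) → ℝ) : Ew g (fun a => r * h a) = r * Ew g h := by
  simp only [Ew, mul_sum]
  exact sum_congr rfl fun p _ => by ring

theorem abs_Ew_sub_le (g : ι → Pr) {h h' : (ι → ℕ) → ℝ} {e : ℝ}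
    (hh : ∀ a ∈ supp g, |h a - h' a| ≤ e) : |Ew g h - Ew g h'| ≤ e := by
  rw [← Ew_sub, abs_le]
  constructor
  · rw [← Ew_const g (-e)]
    exact Ew_le g fun a ha => (abs_le.1 (hh a ha)).1
  · conv_rhs => rw [← Ew_const g e]
    exact Ew_le g fun a ha => (abs_le.1 (hh a ha)).2

theorem supp_nonempty (g : ι → Pr) : (supp g).Nonempty := by
  rw [supp, Fintype.piFinset_nonempty]
  intro k
  rw [nonempty_iff_ne_empty]
  intro h
  have := (g k).one
  rw [h] at this
  simp at this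

theorem Ew_update (g : ι → Pr) (j : ι) (γ : Pr) (h : (ι → ℕ) → ℝ) :
    Ew (update g j γ) h = Ew g fun a => γ.E fun p => h (update a j p) := by
  have w1 : ∀ (g : ι → Pr) (a : ι → ℕ), ∏ k, (g k).w (a k) =
      (g j).w (a j) * ∏ k ∈ univ.erase j, (g k).w (a k) := fun g a =>
    (mul_prod_erase univ (fun k => (g k).w (a k)) (mem_univ j)).symm
  have e1 : Ew (update g j γ) h = ∑ z ∈ supp (update g j γ) ×ˢ (g j).s,
      (∏ k, (update g j γ k).w (z.1 k)) * h z.1 * (g j).w z.2 := by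
    rw [sum_product, Ew]
    refine sum_congr rfl fun a _ => ?_
    simp only
    rw [← mul_sum, (g j).one, mul_one]
  have e2 : (Ew g fun a => γ.E fun p => h (update a j p)) = ∑ z ∈ supp g ×ˢ γ.s,
      (∏ k, (g k).w (z.1 k)) * (γ.w z.2 * h (update z.1 j z.2)) := by
    rw [sum_product, Ew]
    refine sum_congr rfl fun a _ => ?_
    simp only
    rw [Pr.E, mul_sum]
  rw [e1, e2]
  refine sum_nbij' (fun z => (update z.1 j z.2, z.1 j)) (fun z => (update z.1 j z.2, z.1 j))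
    ?_ ?_ ?_ ?_ ?_
  · rintro ⟨a, p⟩ hz
    simp only [mem_product, mem_supp] at hz ⊢
    refine ⟨fun k => ?_, by simpa using hz.1 j⟩
    by_cases hk : k = j
    · subst hk; simpa using hz.2
    · simpa [hk] using hz.1 k
  · rintro ⟨a, p⟩ hz
    simp only [mem_product, mem_supp] at hz ⊢
    refine ⟨fun k => ?_, hz.1 j⟩
    by_cases hk : k = j
    · subst hk; simpa using hz.2
    · simpa [hk] using hz.1 k
  · rintro ⟨a, p⟩ _
    simp
  · rintro ⟨a, p⟩ _
    simp
  · rintro ⟨a, p⟩ _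
    simp only [update_idem, update_eq_self]
    rw [w1 (update g j γ), w1 g]
    have : ∏ k ∈ univ.erase j, (update g j γ k).w (a k) =
        ∏ k ∈ univ.erase j, (g k).w (update a j p k) := prod_congr rfl fun k hk => by
      rw [update_of_ne (ne_of_mem_erase hk), update_of_ne (ne_of_mem_erase hk)]
    rw [this]
    simp only [update_self]
    ring

theorem Ew_resample (g : ι → Pr) (j : ι) (h : (ι → ℕ) → ℝ) :
    Ew g h = Ew g fun a => (g j).E fun p => h (update a j p) := by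
  rw [← Ew_update, update_eq_self]

theorem Ew_update_of_indep (g : ι → Pr) (j : ι) (γ : Pr) {h : (ι → ℕ) → ℝ}
    (hh : ∀ a p, h (update a j p) = h a) : Ew (update g j γ) h = Ew g h := by
  rw [Ew_update]
  simp only [hh, Pr.E_const]

/-! ### Levels and classes -/

/-- the data of one window -/
structure Sys (P : Type*) where
  μ : ℕ → Wt P
  X : ℕ → Set (P → ℂ)
  cvx : ∀ c, Convex ℝ (X c)
  zero : ∀ c, 0 ∈ X c
  neg : ∀ c, ∀ φ ∈ X c, -φ ∈ X c
  bdd : ∀ c, ∀ φ ∈ X c, ∀ n, ‖φ n‖ ≤ 1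
  mono : ∀ c p, X c ⊆ X (c * p)

/-- the level of the coordinates in S -/
def lv (S : Finset ι) (a : ι → ℕ) : ℕ := ∏ k ∈ S, a k

/-- dependence on the coordinates in S only -/
def Dep {Z : Type*} (S : Finset ι) (A : (ι → ℕ) → Z) : Prop :=
  ∀ a a' : ι → ℕ, (∀ k ∈ S, a k = a' k) → A a = A a'

variable {P : Type*} (Y : Sys P)

/-- the class of the set S -/
def CC (S : Finset ι) : Set ((ι → ℕ) → P → ℂ) := {A | (∀ a, A a ∈ Y.X (lv S a)) ∧ Dep S A}

/-- the inner product on the level S -/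
noncomputable def II (g : ι → Pr) (S : Finset ι) :
    ((ι → ℕ) → P → ℂ) →ₗ[ℝ] ((ι → ℕ) → P → ℂ) →ₗ[ℝ] ℝ :=
  LinearMap.mk₂ ℝ (fun A B => Ew g fun a => (Y.μ (lv S a)).ip (A a) (B a))
    (fun A A' B => by simp only [Pi.add_apply, Wt.ip_add_left, Ew_add])
    (fun r A B => by simp only [Pi.smul_apply, Wt.ip_smul_left, Ew_mul, smul_eq_mul])
    (fun A B B' => by simp only [Pi.add_apply, Wt.ip_add_right, Ew_add])
    (fun r A B => by simp only [Pi.smul_apply, Wt.ip_smul_right, Ew_mul, smul_eq_mul])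

theorem II_apply (g : ι → Pr) (S : Finset ι) (A B : (ι → ℕ) → P → ℂ) :
    II Y g S A B = Ew g fun a => (Y.μ (lv S a)).ip (A a) (B a) := rfl

theorem II_comm (g : ι → Pr) (S : Finset ι) (A B : (ι → ℕ) → P → ℂ) :
    II Y g S A B = II Y g S B A := by
  simp only [II_apply, Wt.ip_comm _ (A _)]

theorem II_nonneg (g : ι → Pr) (S : Finset ι) (A : (ι → ℕ) → P → ℂ) : 0 ≤ II Y g S A A := by
  rw [II_apply, ← Ew_const g 0]
  exact Ew_le g fun a _ => Wt.ip_self_nonneg _ _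

/-- fair sampling on the level c -/
def Fs (c : ℕ) (γ : Pr) (ε : ℝ) : Prop := ∀ φ ∈ Y.X c, ∀ ψ ∈ Y.X c,
  |γ.E (fun p => (Y.μ (c * p)).ip φ ψ) - (Y.μ c).ip φ ψ| ≤ ε

/-- extension from the levels b p to the level b, support function form -/
def Ext (b : ℕ) (γ γ' : Pr) (ε : ℝ) : Prop := ∀ χ ψ : ℕ → P → ℂ,
  (∀ p, χ p ∈ Y.X (b * p)) → (∀ v, ψ v ∈ Y.X (b * v)) → ∃ U ∈ Y.X b,
    γ'.E (fun v => γ.E fun p => (Y.μ (b * p * v)).ip (ψ v) (χ p)) ≤
      γ'.E (fun v => (Y.μ (b * v)).ip (ψ v) U) + ε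

variable {Y}

omit [Fintype ι] [DecidableEq ι] in
theorem Dep.mono {Z : Type*} {S T : Finset ι} {A : (ι → ℕ) → Z} (h : Dep S A) (hST : S ⊆ T) :
    Dep T A := fun a a' ha => h a a' fun k hk => ha k (hST hk)

omit [Fintype ι] in
theorem Dep.update {Z : Type*} {S : Finset ι} {A : (ι → ℕ) → Z} (h : Dep S A) {j : ι} (hj : j ∉ S)
    (a : ι → ℕ) (p : ℕ) : A (update a j p) = A a :=
  h _ _ fun k hk => update_of_ne (fun e : k = j => hj (e ▸ hk)) _ _

omit [Fintype ι] [DecidableEq ι] in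
theorem dep_lv (S : Finset ι) : Dep S (lv S) := fun _ _ h => prod_congr rfl h

omit [Fintype ι] in
theorem lv_insert {S : Finset ι} {j : ι} (hj : j ∉ S) (a : ι → ℕ) :
    lv (insert j S) a = lv S a * a j := by
  rw [lv, prod_insert hj, mul_comm, lv]

omit [Fintype ι] in
theorem lv_insert_update {S : Finset ι} {j : ι} (hj : j ∉ S) (a : ι → ℕ) (p : ℕ) :
    lv (insert j S) (update a j p) = lv S a * p := by
  rw [lv_insert hj, (dep_lv S).update hj, update_self]

omit [Fintype ι] in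
theorem CC_mono {S T : Finset ι} (h : S ⊆ T) : CC Y S ⊆ CC Y T := by
  rintro A ⟨h1, h2⟩
  refine ⟨fun a => ?_, h2.mono h⟩
  have : lv T a = lv S a * lv (T \ S) a := by rw [lv, ← prod_sdiff h, mul_comm, lv, lv]
  rw [this]
  exact Y.mono _ _ (h1 a)

omit [Fintype ι] [DecidableEq ι] in
theorem CC_zero (S : Finset ι) : (0 : (ι → ℕ) → P → ℂ) ∈ CC Y S :=
  ⟨fun _ => Y.zero _, fun _ _ _ => rfl⟩

theorem II_update (g : ι → Pr) {S : Finset ι} {j : ι} (hj : j ∉ S) (γ : Pr)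
    {A B : (ι → ℕ) → P → ℂ} (hA : ∀ a p, A (update a j p) = A a)
    (hB : ∀ a p, B (update a j p) = B a) : II Y (update g j γ) S A B = II Y g S A B := by
  rw [II_apply, II_apply]
  exact Ew_update_of_indep g j γ fun a p => by rw [hA, hB, (dep_lv S).update hj]

/-- fair sampling for all levels inside the top set -/
def FsAll (Y : Sys P) (g : ι → Pr) (St : Finset ι) (ε : ℝ) : Prop :=
  ∀ S : Finset ι, ∀ j ∈ St, S ⊆ St → j ∉ S → ∀ a ∈ supp g, Fs Y (lv S a) (g j) ε

theorem FsAll.step {g : ι → Pr} {St S : Finset ι} {ε : ℝ} (h : FsAll Y g St ε) {j : ι}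
    (hj : j ∈ St) (hS : S ⊆ St) (hjS : j ∉ S) {A B : (ι → ℕ) → P → ℂ} (hA : A ∈ CC Y S)
    (hB : B ∈ CC Y S) : |II Y g (insert j S) A B - II Y g S A B| ≤ ε := by
  rw [II_apply, II_apply, Ew_resample g j]
  refine abs_Ew_sub_le g fun a ha => ?_
  simp only [lv_insert_update hjS, hA.2.update hjS, hB.2.update hjS]
  exact h S j hj hS hjS a ha _ (hA.1 a) _ (hB.1 a)

theorem FsAll.chain {g : ι → Pr} {St S S' : Finset ι} {ε : ℝ} (hε : 0 ≤ ε) (h : FsAll Y g St ε)
    (hS : S ⊆ S') (hS' : S' ⊆ St) {A B : (ι → ℕ) → P → ℂ} (hA : A ∈ CC Y S) (hB : B ∈ CC Y S) :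
    |II Y g S' A B - II Y g S A B| ≤ Fintype.card ι * ε := by
  have key : ∀ R : Finset ι, Disjoint R S → R ⊆ St →
      |II Y g (R ∪ S) A B - II Y g S A B| ≤ R.card * ε := by
    intro R
    induction R using Finset.induction_on with
    | empty => intro _ _; simp
    | insert j R hj ih =>
      intro hd hR
      rw [disjoint_insert_left] at hd
      rw [insert_subset_iff] at hR
      have a1 := ih hd.2 hR.2
      have a2 := h.step hR.1 (union_subset hR.2 (hS.trans hS')) (by simp [hj, hd.1])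
        (CC_mono subset_union_right hA) (CC_mono subset_union_right hB)
      rw [insert_union, card_insert_of_notMem hj]
      push_cast
      rw [abs_le] at *
      constructor <;> linarith [a1.1, a1.2, a2.1, a2.2]
  have := key (S' \ S) sdiff_disjoint (sdiff_subset.trans hS')
  rw [sdiff_union_of_subset hS] at this
  exact this.trans (mul_le_mul_of_nonneg_right (by exact_mod_cast card_le_univ _) hε)

/-! ### Universal lifts -/

theorem Ext.universal {b : ℕ} {γ γ' : Pr} {ε δ : ℝ} (h : Ext Y b γ γ' ε) (hδ : 0 < δ)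
    {χ : ℕ → P → ℂ} (hχ : ∀ p, χ p ∈ Y.X (b * p)) : ∃ U ∈ Y.X b, ∀ ψ : ℕ → P → ℂ,
      (∀ v, ψ v ∈ Y.X (b * v)) →
      |γ'.E (fun v => γ.E fun p => (Y.μ (b * p * v)).ip (ψ v) (χ p)) -
        γ'.E (fun v => (Y.μ (b * v)).ip (ψ v) U)| ≤ ε + δ := by
  set f : (P → ℂ) → (ℕ → P → ℂ) → ℝ := fun U ψ =>
    γ'.E (fun v => γ.E fun p => (Y.μ (b * p * v)).ip (ψ v) (χ p)) -
      γ'.E (fun v => (Y.μ (b * v)).ip (ψ v) U) with hf
  suffices H : ∃ U ∈ Y.X b, ∀ ψ ∈ Set.pi Set.univ fun v => Y.X (b * v), f U ψ ≤ ε + δ by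
    obtain ⟨U, hU, hU'⟩ := H
    refine ⟨U, hU, fun ψ hψ => abs_le.2 ⟨?_, hU' ψ fun v _ => hψ v⟩⟩
    have := hU' (fun v => -ψ v) fun v _ => Y.neg _ _ (hψ v)
    simp only [hf, Wt.ip_neg_left, Pr.E_neg] at this
    linarith
  refine minimax (Y.cvx b) (isCompact_closure_bdd (Y.bdd b)) (convex_pi fun v _ => Y.cvx _)
    (isCompact_closure_pi fun v => Y.bdd _) ⟨0, fun v _ => Y.zero _⟩ ?_ ?_ ?_ hδ ?_
  · simp only [hf, Pr.E]
    refine Continuous.sub (continuous_finsetSum _ fun v _ => continuous_const.mul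
      (continuous_finsetSum _ fun p _ => continuous_const.mul ?_))
      (continuous_finsetSum _ fun v _ => continuous_const.mul ?_)
    · exact Wt.continuous_ip _ ((continuous_apply v).comp continuous_snd) continuous_const
    · exact Wt.continuous_ip _ ((continuous_apply v).comp continuous_snd) continuous_fst
  · refine fun ψ => ⟨convex_univ, fun x _ y _ s t _ _ hst => le_of_eq ?_⟩
    simp only [hf, Wt.ip_add_right, Wt.ip_smul_right, Pr.E_add, Pr.E_mul, smul_eq_mul]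
    linear_combination (-γ'.E fun v => γ.E fun p => (Y.μ (b * p * v)).ip (ψ v) (χ p)) * hst
  · refine fun U => ⟨convex_univ, fun x _ y _ s t _ _ _ => le_of_eq ?_⟩
    simp only [hf, Pi.add_apply, Pi.smul_apply, Wt.ip_add_left, Wt.ip_smul_left, Pr.E_add,
      Pr.E_mul, smul_eq_mul]
    ring
  · intro ψ hψ
    obtain ⟨U, hU, hU'⟩ := h χ ψ hχ fun v => hψ v (Set.mem_univ _)
    exact ⟨U, hU, by simp only [hf]; linarith⟩

theorem exists_lift {g : ι → Pr} {S : Finset ι} {k : ι} (hk : k ∉ S) {γ' : Pr} {ε δ : ℝ}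
    (hδ : 0 < δ) (h : ∀ a ∈ supp g, Ext Y (lv S a) (g k) γ' ε) {F : (ι → ℕ) → P → ℂ}
    (hF : F ∈ CC Y (insert k S)) : ∃ U ∈ CC Y S, ∀ a ∈ supp g, ∀ ψ : ℕ → P → ℂ,
      (∀ v, ψ v ∈ Y.X (lv S a * v)) →
      |γ'.E (fun v => (g k).E fun p => (Y.μ (lv S a * p * v)).ip (ψ v) (F (update a k p))) -
        γ'.E (fun v => (Y.μ (lv S a * v)).ip (ψ v) (U a))| ≤ ε + δ := by
  have h1 : ∀ a : ι → ℕ, ∃ U ∈ Y.X (lv S a), a ∈ supp g → ∀ ψ : ℕ → P → ℂ,
      (∀ v, ψ v ∈ Y.X (lv S a * v)) →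
      |γ'.E (fun v => (g k).E fun p => (Y.μ (lv S a * p * v)).ip (ψ v) (F (update a k p))) -
        γ'.E (fun v => (Y.μ (lv S a * v)).ip (ψ v) U)| ≤ ε + δ := by
    intro a
    by_cases ha : a ∈ supp g
    · obtain ⟨U, hU, hU'⟩ := (h a ha).universal hδ (χ := fun p => F (update a k p)) fun p => by
        rw [← lv_insert_update hk]; exact hF.1 _
      exact ⟨U, hU, fun _ => hU'⟩
    · exact ⟨0, Y.zero _, fun h' => absurd h' ha⟩
  choose U0 hU0 hU0' using h1
  obtain ⟨a0, ha0⟩ := supp_nonempty g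
  set r : (ι → ℕ) → ι → ℕ := fun a i => if i ∈ S then a i else a0 i with hr
  have r1 : ∀ a, lv S (r a) = lv S a := fun a => dep_lv S _ _ fun i hi => by simp [hr, hi]
  have r2 : ∀ a p, F (update (r a) k p) = F (update a k p) := fun a p => hF.2 _ _ fun i hi => by
    by_cases e : i = k
    · subst e; simp
    · have : i ∈ S := by simpa [e] using hi
      simp [hr, e, this]
  refine ⟨fun a => U0 (r a), ⟨fun a => r1 a ▸ hU0 (r a), fun a a' haa => ?_⟩, fun a ha ψ hψ => ?_⟩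
  · have : r a = r a' := by
      funext i
      by_cases hi : i ∈ S
      · simp [hr, hi, haa i hi]
      · simp [hr, hi]
    simp only [this]
  · have hra : r a ∈ supp g := mem_supp.2 fun i => by
      by_cases hi : i ∈ S
      · simpa [hr, hi] using mem_supp.1 ha i
      · simpa [hr, hi] using mem_supp.1 ha0 i
    have := hU0' (r a) hra ψ (by simpa only [r1] using hψ)
    simpa only [r1, r2] using this

/-- U is a lift of F in the coordinate k, valid on its own level -/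
def Valid (Y : Sys P) (g : ι → Pr) (S : Finset ι) (k : ι) (F U : (ι → ℕ) → P → ℂ) (e : ℝ) : Prop :=
  U ∈ CC Y S ∧ ∀ G ∈ CC Y S, |II Y g (insert k S) F G - II Y g S U G| ≤ e

theorem exists_valid {g : ι → Pr} {S : Finset ι} {k : ι} (hk : k ∉ S) {ε δ : ℝ} (hδ : 0 < δ)
    (h : ∀ a ∈ supp g, Ext Y (lv S a) (g k) Pr.unit ε) {F : (ι → ℕ) → P → ℂ}
    (hF : F ∈ CC Y (insert k S)) : ∃ U, Valid Y g S k F U (ε + δ) := by
  obtain ⟨U, hU, hU'⟩ := exists_lift hk hδ h hF
  refine ⟨U, hU, fun G hG => ?_⟩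
  rw [II_comm Y g _ F, II_comm Y g _ U, II_apply, II_apply, Ew_resample g k]
  refine abs_Ew_sub_le g fun a ha => ?_
  have := hU' a ha (fun _ => G a) fun v => Y.mono _ _ (hG.1 a)
  simpa only [Pr.unit_E, mul_one, lv_insert_update hk, hG.2.update hk] using this

theorem exists_valid1 {g : ι → Pr} {S : Finset ι} {k j : ι} (hk : k ∉ S) (hj : j ∉ insert k S)
    {ε δ : ℝ} (hδ : 0 < δ) (h : ∀ a ∈ supp g, Ext Y (lv S a) (g k) (g j) ε)
    {F : (ι → ℕ) → P → ℂ} (hF : F ∈ CC Y (insert k S)) : ∃ U ∈ CC Y S,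
      ∀ G ∈ CC Y (insert j S),
        |II Y g (insert j (insert k S)) F G - II Y g (insert j S) U G| ≤ ε + δ := by
  obtain ⟨U, hU, hU'⟩ := exists_lift hk hδ h hF
  refine ⟨U, hU, fun G hG => ?_⟩
  have hjS : j ∉ S := fun h => hj (mem_insert_of_mem h)
  have hjk : j ≠ k := fun e => hj (e ▸ mem_insert_self _ _)
  have hkG : k ∉ insert j S := by simp [hk, hjk.symm]
  rw [II_comm Y g _ F, II_comm Y g _ U, II_apply, II_apply, Ew_resample g k, Ew_resample g j,
    Ew_resample g j fun a => (Y.μ (lv (insert j S) a)).ip (G a) (U a)]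
  refine abs_Ew_sub_le g fun a ha => ?_
  have := hU' a ha (fun v => G (update a j v)) fun v => by
    rw [← lv_insert_update hjS]; exact hG.1 _
  have e1 : ∀ v p, lv (insert j (insert k S)) (update (update a j v) k p) = lv S a * p * v := by
    intro v p
    rw [update_comm hjk, lv_insert_update hj, lv_insert_update hk]
  have e2 : ∀ v p, F (update (update a j v) k p) = F (update a k p) := by
    intro v p
    rw [update_comm hjk, hF.2.update hj]
  simpa only [e1, e2, hG.2.update hkG, lv_insert_update hjS, hU.2.update hjS] using this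

end Pool.Agent.P.MP_a14ce1_nt.Nil.ES
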