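import Pool.Agent.P.MP_a14ce1_nt.Nil.Sparse

/-! The sparse scalar lemma with polynomial dependence on the density. -/

namespace Pool.Agent.P.MP_a14ce1_nt.Nil

open Finset Polynomial Sparse

namespace SparseK

/-- residues `x` modulo `q` with `x ^ s = y ^ s` -/
def rt (s : ℕ) (y : ℤ) (q : ℕ) : Finset ℕ := (range q).filter fun x => (x : ℤ) ^ s ≡ y ^ s [ZMOD q]

theorem mod_mem {s : ℕ} {y : ℤ} {q : ℕ} (hq : 0 < q) {x : ℤ} (h : x ^ s ≡ y ^ s [ZMOD q]) :
    (x % q).toNat ∈ rt s y q := by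
  have hq' : (0 : ℤ) < q := by exact_mod_cast hq
  have h1 := Int.emod_nonneg x hq'.ne'
  have h2 := Int.emod_lt_of_pos x hq'
  refine mem_filter.2 ⟨mem_range.2 (by omega), ?_⟩
  rw [Int.toNat_of_nonneg h1]
  exact ((Int.mod_modEq x q).pow s).trans h

theorem rt_mul (s : ℕ) (y : ℤ) {a b : ℕ} (h : a.Coprime b) (ha : 0 < a) (hb : 0 < b) :
    (rt s y (a * b)).card ≤ (rt s y a).card * (rt s y b).card := by
  rw [← card_product]
  refine card_le_card_of_injOn (fun x => (x % a, x % b)) (fun x hx => ?_) fun x hx x' hx' e => ?_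
  · have h1 := (mem_filter.1 hx).2
    push_cast at h1
    exact mem_product.2 ⟨mod_mem ha (h1.of_mul_right _), mod_mem hb (h1.of_mul_left _)⟩
  · obtain ⟨e1, e2⟩ := Prod.mk.inj e
    exact Nat.ModEq.eq_of_lt_of_lt ((Nat.modEq_and_modEq_iff_modEq_mul h).1 ⟨e1, e2⟩)
      (mem_range.1 (mem_filter.1 hx).1) (mem_range.1 (mem_filter.1 hx').1)

theorem rt_pp {s : ℕ} (hs : 0 < s) {y : ℤ} {p : ℕ} (hp : p.Prime) (h : ¬ (p : ℤ) ∣ y) (e : ℕ) :
    (rt s y (p ^ e)).card ≤ 2 * s := by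
  classical
  have : NeZero (p ^ e) := ⟨(pow_pos hp.pos e).ne'⟩
  have hu : IsUnit ((y : ℤ) : ZMod (p ^ e)) := by
    rw [ZMod.coe_int_isUnit_iff_isCoprime, Nat.cast_pow]
    exact IsCoprime.pow_left
      (((Nat.prime_iff_prime_int.1 hp).irreducible.coprime_iff_not_dvd).2 h)
  refine le_trans ?_ (card_root_le hp e hs _ hu)
  refine card_le_card_of_injOn (fun x => (x : ZMod (p ^ e))) (fun x hx => ?_)
    fun x hx x' hx' e => ?_
  · have := (ZMod.intCast_eq_intCast_iff _ _ _).2 (mem_filter.1 hx).2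
    push_cast at this
    exact mem_filter.2 ⟨mem_univ _, this⟩
  · exact Nat.ModEq.eq_of_lt_of_lt ((ZMod.natCast_eq_natCast_iff _ _ _).1 e)
      (mem_range.1 (mem_filter.1 hx).1) (mem_range.1 (mem_filter.1 hx').1)

theorem le_tot {p : ℕ} (hp : p.Prime) (e : ℕ) : p ^ e ≤ 2 * (p ^ e).totient := by
  rcases e with _ | e
  · simp
  · rw [Nat.totient_prime_pow hp (Nat.succ_pos e), Nat.succ_sub_one, pow_succ]
    have := hp.two_le
    calc p ^ e * p ≤ p ^ e * (2 * (p - 1)) := Nat.mul_le_mul_left _ (by omega)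
      _ = _ := by ring

theorem rt_le {s : ℕ} (hs : 0 < s) (y : ℤ) (q : ℕ) : 0 < q →
    (∀ p : ℕ, p.Prime → p ∣ q → ¬ (p : ℤ) ∣ y) → (rt s y q).card ^ 2 * q ≤
      (16 * s ^ 2) ^ (q.primeFactors.filter (· < 16 * s ^ 2)).card * q.totient ^ 2 := by
  induction q using Nat.recOnPosPrimePosCoprime with
  | prime_pow p e hp he =>
    intro _ h
    have h1 := rt_pp hs hp (h p hp (dvd_pow_self p he.ne')) e
    have h2 := le_tot hp e
    have h3 : 16 * s ^ 2 ≤
        (16 * s ^ 2) ^ ((p ^ e).primeFactors.filter (· < 16 * s ^ 2)).card * p ^ e := by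
      rw [Nat.primeFactors_prime_pow he.ne' hp, filter_singleton]
      split_ifs with h4
      · simpa using Nat.le_mul_of_pos_right _ (pow_pos hp.pos e)
      · simpa using (not_lt.1 h4).trans (Nat.le_self_pow he.ne' p)
    generalize (16 * s ^ 2) ^ ((p ^ e).primeFactors.filter (· < 16 * s ^ 2)).card = c at *
    refine Nat.le_of_mul_le_mul_left (c := 4) ?_ (by norm_num)
    calc 4 * ((rt s y (p ^ e)).card ^ 2 * p ^ e) ≤ 4 * ((2 * s) ^ 2 * p ^ e) := by gcongr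
      _ = 16 * s ^ 2 * p ^ e := by ring
      _ ≤ c * p ^ e * p ^ e := by gcongr
      _ ≤ c * (2 * (p ^ e).totient) * (2 * (p ^ e).totient) := by gcongr
      _ = _ := by ring
  | zero => simp
  | one => exact fun _ _ => by simpa [rt] using card_filter_le (range 1) _
  | coprime a b ha hb hab iha ihb =>
    intro _ h
    have h1 := iha (by omega) fun p hp h' => h p hp (h'.mul_right _)
    have h2 := ihb (by omega) fun p hp h' => h p hp (h'.mul_left _)
    rw [hab.primeFactors_mul, filter_union, card_union_of_disjoint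
      (disjoint_filter_filter hab.disjoint_primeFactors), Nat.totient_mul hab, pow_add]
    calc _ ≤ ((rt s y a).card * (rt s y b).card) ^ 2 * (a * b) := by
          gcongr
          exact rt_mul s y hab (by omega) (by omega)
      _ = (rt s y a).card ^ 2 * a * ((rt s y b).card ^ 2 * b) := by ring
      _ ≤ _ := (Nat.mul_le_mul h1 h2).trans_eq (by ring)

end SparseK

open SparseK

/-- if `q` divides `m ^ s - m0 ^ s` on a set of rough numbers of density `1 / (Q log z)` then `q` is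
polynomial in `Q` -/
theorem rough_poly (s : ℕ) (hs : 0 < s) : ∃ C : ℕ, ∀ (Q : ℝ) (z q L : ℕ) (a m0 : ℤ) (S : Finset ℤ),
    2 ≤ Q → 2 ≤ z → 0 < q → q ≤ z → z ^ 10 ≤ L → S ⊆ Ico a (a + L) →
    L ≤ Q * (Real.log z * S.card) → (∀ p : ℕ, p.Prime → p ≤ z → ¬ (p : ℤ) ∣ m0) →
    (∀ m ∈ S, ∀ p : ℕ, p.Prime → p ≤ z → ¬ (p : ℤ) ∣ m) →
    (∀ m ∈ S, (q : ℤ) ∣ m ^ s - m0 ^ s) → (q : ℝ) ≤ Q ^ C := by
  classical
  obtain ⟨K, hK, h⟩ := rough_class
  set c : ℕ := (16 * s ^ 2) ^ (16 * s ^ 2) with hc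
  refine ⟨⌈K ^ 2 * c⌉₊ + 2, fun Q z q L a m0 S hQ hz hq hqz hL hS hd h0 hr hdv => ?_⟩
  have hq' : (0 : ℤ) < q := by exact_mod_cast hq
  have h1 : (rt s m0 q).card ^ 2 * q ≤ c * q.totient ^ 2 := by
    refine (rt_le hs m0 q hq fun p hp h' => h0 p hp ((Nat.le_of_dvd hq h').trans hqz)).trans
      (Nat.mul_le_mul_right _ (Nat.pow_le_pow_right (by positivity) ?_))
    exact (card_le_card fun p hp => mem_range.2 (mem_filter.1 hp).2).trans (card_range _).le
  have h2 : S.card = ∑ x ∈ rt s m0 q, (S.filter fun m : ℤ => (m % q).toNat = x).card :=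
    card_eq_sum_card_fiberwise fun m hm =>
      mem_coe.2 (mod_mem hq (Int.modEq_iff_dvd.2 (hdv m hm)).symm)
  have h3 : (S.card : ℝ) * (q.totient * Real.log z) ≤ (rt s m0 q).card * (K * L) := by
    rw [h2, Nat.cast_sum, sum_mul, ← nsmul_eq_mul (rt s m0 q).card]
    refine sum_le_card_nsmul _ _ _ fun (x : ℕ) _ => h z q L a x
      (S.filter fun m : ℤ => (m % q).toNat = x) hz hq
      (le_trans (by rw [pow_succ z 9]; exact Nat.mul_le_mul_left _ hqz) hL)
      ((filter_subset _ _).trans hS) (fun m hm => ?_) fun m hm p p1 p2 _ =>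
        hr m (mem_filter.1 hm).1 p p1 p2
    rw [← (mem_filter.1 hm).2, Int.toNat_of_nonneg (Int.emod_nonneg m hq'.ne')]
    exact (Int.mod_modEq m q).symm
  have hL0 : (0 : ℝ) < L := by
    have : 0 < z ^ 10 := pow_pos (by omega) _
    exact_mod_cast this.trans_le hL
  have ht : (0 : ℝ) < q.totient := by exact_mod_cast Nat.totient_pos.2 hq
  have h4 : (q.totient : ℝ) ≤ Q * K * (rt s m0 q).card := by
    refine le_of_mul_le_mul_right ?_ hL0
    calc (q.totient : ℝ) * L ≤ q.totient * (Q * (Real.log z * S.card)) := by gcongr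
      _ = Q * (S.card * (q.totient * Real.log z)) := by ring
      _ ≤ Q * ((rt s m0 q).card * (K * L)) := by gcongr
      _ = _ := by ring
  have h5 : ((rt s m0 q).card : ℝ) ^ 2 * q ≤ c * (q.totient : ℝ) ^ 2 := by exact_mod_cast h1
  have h6 : (q : ℝ) ≤ K ^ 2 * c * Q ^ 2 := by
    refine le_of_mul_le_mul_right ?_ (pow_pos ht 2)
    calc (q : ℝ) * (q.totient : ℝ) ^ 2 ≤ q * (Q * K * (rt s m0 q).card) ^ 2 := by gcongr
      _ = (Q * K) ^ 2 * (((rt s m0 q).card : ℝ) ^ 2 * q) := by ring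
      _ ≤ (Q * K) ^ 2 * (c * (q.totient : ℝ) ^ 2) := by gcongr
      _ = _ := by ring
  rw [pow_add]
  refine h6.trans ?_
  gcongr
  exact (Nat.le_ceil _).trans (nat_le_pow hQ _)

/-- SCALAR LEMMA, sparse form, polynomial in the density `1 / Q` -/
theorem sparseK (s : ℕ) (hs : 0 < s) : ∃ C : ℕ,
    ∀ (Q A N B ε α : ℝ) (z : ℕ) (m0 : ℤ) (S : Finset ℤ),
      2 ≤ Q → 2 ≤ A → A ^ C ≤ z → (z : ℝ) ^ 10 ≤ N → N ≤ B → |(m0 : ℝ)| ≤ B →
      ε * A ^ C * (B / N) ^ s ≤ 1 →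
      (∀ m ∈ S, |(m : ℝ) - m0| ≤ N) → N ≤ A * S.card → N ≤ Q * (Real.log z * S.card) →
      (∀ p : ℕ, p.Prime → p ≤ z → ¬ (p : ℤ) ∣ m0) →
      (∀ m ∈ S, ∀ p : ℕ, p.Prime → p ≤ z → ¬ (p : ℤ) ∣ m) →
      (∀ m ∈ S, ∃ k : ℤ, |α * ((m : ℝ) ^ s - (m0 : ℝ) ^ s) - k| ≤ ε) →
      ∃ T : ℕ, 0 < T ∧ (T : ℝ) ≤ Q ^ C ∧ ∃ a : ℤ, |T * α - a| * N ^ s ≤ A ^ C * ε := by
  classical
  obtain ⟨d, rfl⟩ : ∃ d, s = d + 1 := ⟨s - 1, by omega⟩
  obtain ⟨C0, hv⟩ := vin_top d
  obtain ⟨T, hd⟩ := rough_poly (d + 1) hs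
  refine ⟨C0 + (d + 4) + 3 * T + 1,
    fun Q A N B ε α z m0 S hQ hA hz hN hB hm0 hε hS hc hc' h0 hr h => ?_⟩
  have hA0 : 0 < A := by linarith
  have hA1 : 1 ≤ A := by linarith
  have hmono : ∀ {i j : ℕ}, i ≤ j → A ^ i ≤ A ^ j := fun hij => pow_le_pow_right₀ hA1 hij
  have hz2 : (2 : ℝ) ≤ z := by
    refine le_trans ?_ hz
    calc (2 : ℝ) ≤ A ^ 1 := by rwa [pow_one]
      _ ≤ _ := hmono (by omega)
  have hz2' : 2 ≤ z := by exact_mod_cast hz2
  have hzN : (z : ℝ) ≤ N := le_trans (le_self_pow₀ (by linarith) (by norm_num)) hN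
  have hN0 : 0 < N := by linarith
  have hBN : 1 ≤ B / N := by rwa [le_div_iff₀ hN0, one_mul]
  have hBN' : 1 ≤ (B / N) ^ (d + 1) := one_le_pow₀ hBN
  obtain ⟨m1, hm1⟩ : S.Nonempty := by
    rw [← card_pos]
    by_contra hh
    have : S.card = 0 := by omega
    rw [this] at hc
    simp at hc
    linarith
  have hε0 : 0 ≤ ε := by
    obtain ⟨k, hk⟩ := h m1 hm1
    exact (abs_nonneg _).trans hk
  set P : ℝ[X] := Polynomial.C α * ((X + Polynomial.C (m0 : ℝ)) ^ (d + 1) -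
    Polynomial.C ((m0 : ℝ) ^ (d + 1))) with hP
  have hdeg : P.natDegree ≤ d + 1 := by
    rw [hP]
    compute_degree
  have hco : P.coeff (d + 1) = α := by
    rw [hP, coeff_C_mul, coeff_sub, coeff_X_add_C_pow, coeff_C_succ]
    simp
  have hinj : Function.Injective fun m : ℤ => m - m0 := sub_left_injective
  obtain ⟨q, hq, hqA, a, ha⟩ := hv A ε N (S.image fun m => m - m0) P hdeg hA
    (((hmono (by omega)).trans hz).trans hzN)
    (by
      refine le_trans ?_ hε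
      calc ε * A ^ C0 ≤ ε * A ^ (C0 + (d + 4) + 3 * T + 1) := by gcongr; omega
        _ = ε * A ^ (C0 + (d + 4) + 3 * T + 1) * 1 := (mul_one _).symm
        _ ≤ _ := by gcongr)
    (fun k hk => by
      obtain ⟨m, hm, rfl⟩ := mem_image.1 hk
      push_cast
      exact hS m hm)
    (by rwa [card_image_of_injective _ hinj])
    (fun k hk => by
      obtain ⟨m, hm, rfl⟩ := mem_image.1 hk
      obtain ⟨n, hn⟩ := h m hm
      refine ⟨n, ?_⟩
      simpa [hP] using hn)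
  rw [hco] at ha
  -- reduce the fraction
  obtain ⟨g, q', a', hg, hcop, hq', ha'⟩ : ∃ (g q' : ℕ) (a' : ℤ), 0 < g ∧ IsCoprime (q' : ℤ) a' ∧
      q = q' * g ∧ a = a' * g := by
    obtain ⟨g, x, y, hg, hxy, hx, hy⟩ := Int.exists_gcd_one' (m := (q : ℤ)) (n := a)
      (Int.gcd_pos_of_ne_zero_left _ (by exact_mod_cast hq.ne'))
    have hx0 : 0 ≤ x := by
      by_contra hh
      have : x * (g : ℤ) ≤ 0 := mul_nonpos_of_nonpos_of_nonneg (by omega) (by positivity)
      omega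
    lift x to ℕ using hx0
    exact ⟨g, x, y, hg, Int.isCoprime_iff_gcd_eq_one.2 hxy, by exact_mod_cast hx, hy⟩
  have hq'0 : 0 < q' := Nat.pos_of_mul_pos_right (hq' ▸ hq)
  have hg1 : (1 : ℝ) ≤ g := by exact_mod_cast hg
  have hq'A : (q' : ℝ) ≤ A ^ C0 := by
    refine le_trans ?_ hqA
    rw [hq']; push_cast
    exact le_mul_of_one_le_right (Nat.cast_nonneg _) hg1
  have hNs : 0 < N ^ (d + 1) := by positivity
  have hb : |q' * α - a'| * N ^ (d + 1) ≤ A ^ C0 * ε := by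
    refine le_trans ?_ ha
    refine mul_le_mul_of_nonneg_right ?_ hNs.le
    have : (q : ℝ) * α - a = (q' * α - a') * g := by rw [hq', ha']; push_cast; ring
    rw [this, abs_mul, abs_of_nonneg (by linarith : (0 : ℝ) ≤ g)]
    exact le_mul_of_one_le_right (abs_nonneg _) hg1
  have hdiv : ∀ m ∈ S, (q' : ℤ) ∣ m ^ (d + 1) - m0 ^ (d + 1) := by
    intro m hm
    obtain ⟨n, hn⟩ := h m hm
    set D : ℝ := (m : ℝ) ^ (d + 1) - (m0 : ℝ) ^ (d + 1) with hD
    have hB0 : 0 < B := by linarith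
    have d1 : |(m : ℝ)| ≤ 2 * B := by
      have := hS m hm
      have := abs_add_le ((m : ℝ) - m0) m0
      rw [sub_add_cancel] at this
      linarith
    have d2 : |D| ≤ 2 * (2 * B) ^ (d + 1) := by
      refine (abs_sub _ _).trans ?_
      rw [abs_pow, abs_pow, two_mul]
      gcongr
      linarith
    have d3 : |q' * α - a'| * |D| ≤ A ^ C0 * ε * (2 * 2 ^ (d + 1) * (B / N) ^ (d + 1)) := by
      calc _ ≤ |q' * α - a'| * (2 * (2 * B) ^ (d + 1)) := by gcongr
        _ = |q' * α - a'| * N ^ (d + 1) * (2 * 2 ^ (d + 1) * (B / N) ^ (d + 1)) := by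
          rw [div_pow, mul_pow]; field_simp
        _ ≤ _ := by gcongr
    have d4 : |((a' * (m ^ (d + 1) - m0 ^ (d + 1)) - q' * n : ℤ) : ℝ)| < 1 := by
      have e : ((a' * (m ^ (d + 1) - m0 ^ (d + 1)) - q' * n : ℤ) : ℝ) =
          q' * (α * D - n) - (q' * α - a') * D := by
        rw [hD]; push_cast; ring
      rw [e]
      refine (abs_sub _ _).trans_lt ?_
      rw [abs_mul, abs_mul, Nat.abs_cast]
      have d5 : (q' : ℝ) * |α * D - n| ≤ A ^ C0 * ε := by gcongr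
      have d6 : (1 : ℝ) ≤ 2 ^ (d + 1) := one_le_pow₀ (by norm_num)
      have d7 : (2 : ℝ) ^ (d + 1) * 8 ≤ A ^ (d + 4) := by
        refine le_trans (le_of_eq ?_) (two_pow_le hA (d + 4))
        ring
      have d8 : A ^ C0 * A ^ (d + 4) ≤ A ^ (C0 + (d + 4) + 3 * T + 1) := by
        rw [← pow_add]; exact hmono (by omega)
      have d9 : 0 ≤ A ^ C0 * ε := by positivity
      have d10 : A ^ C0 * ε * (2 ^ (d + 1) * (B / N) ^ (d + 1)) * 8 ≤ 1 := by
        refine le_trans ?_ hε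
        calc _ = ε * (A ^ C0 * (2 ^ (d + 1) * 8)) * (B / N) ^ (d + 1) := by ring
          _ ≤ ε * (A ^ C0 * A ^ (d + 4)) * (B / N) ^ (d + 1) := by gcongr
          _ ≤ _ := by gcongr
      have d11 : A ^ C0 * ε * 1 ≤ A ^ C0 * ε * (2 ^ (d + 1) * (B / N) ^ (d + 1)) := by
        gcongr
        exact one_le_mul_of_one_le_of_one_le d6 hBN'
      nlinarith
    have d12 : a' * (m ^ (d + 1) - m0 ^ (d + 1)) - q' * n = 0 := by
      rw [← Int.cast_abs] at d4
      have : |a' * (m ^ (d + 1) - m0 ^ (d + 1)) - q' * n| < 1 := by exact_mod_cast d4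
      exact Int.abs_lt_one_iff.1 this
    exact hcop.dvd_of_dvd_mul_left ⟨n, sub_eq_zero.1 d12⟩
  have hfl : (⌊N⌋₊ : ℝ) ≤ N := Nat.floor_le hN0.le
  have hQ3 : 3 * Q ≤ Q ^ 3 := by nlinarith [mul_le_mul hQ hQ zero_le_two (by linarith)]
  have ht := hd (3 * Q) z q' (2 * ⌊N⌋₊ + 1) (m0 - ⌊N⌋₊) m0 S (by linarith) hz2' hq'0
    (by exact_mod_cast (hq'A.trans (hmono (by omega))).trans hz)
    (by
      have : z ^ 10 ≤ ⌊N⌋₊ := Nat.le_floor (by exact_mod_cast hN)
      omega)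
    (fun m hm => by
      have h1 : |m - m0| ≤ ⌊N⌋₊ := by
        have h2 : (((m - m0).natAbs : ℕ) : ℝ) ≤ N := by
          rw [Nat.cast_natAbs]; push_cast; exact hS m hm
        have h3 := Nat.le_floor h2
        rw [← Int.natCast_natAbs]
        exact_mod_cast h3
      rw [abs_le] at h1
      rw [mem_Ico]
      push_cast
      omega)
    (by
      push_cast
      linarith) h0 hr hdiv
  refine ⟨q', hq'0, ht.trans ?_, a', hb.trans ?_⟩
  · calc (3 * Q) ^ T ≤ (Q ^ 3) ^ T := by gcongr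
      _ ≤ _ := by
        rw [← pow_mul]
        exact pow_le_pow_right₀ (by linarith) (by omega)
  · gcongr
    omega

end Pool.Agent.P.MP_a14ce1_nt.Nil
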