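import Pool.Agent.P.MP_a14ce1_nt.Nil.EL1
import Pool.Agent.P.MP_a14ce1_nt.Nil.Gowers3

/-! The divisor weight is locally uniform on average over the positions. -/

namespace Pool.Agent.P.MP_a14ce1_nt.Nil.EL

open Finset

set_option linter.dupNamespace false

/-- a real function on the window `[x, x + H)`, moved to `[0, H)` -/
noncomputable def wn (φ : ℤ → ℝ) (x : ℤ) (H : ℕ) : ℤ → ℂ :=
  fun n => if 0 ≤ n ∧ n < H then (φ (x + n) : ℂ) else 0

theorem wn_supp (φ : ℤ → ℝ) (x : ℤ) (H : ℕ) (n : ℤ) (hn : wn φ x H n ≠ 0) : 0 ≤ n ∧ n < H := by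
  by_contra hc
  exact hn (if_neg hc)

theorem fin_wn (φ : ℤ → ℝ) (x : ℤ) (H : ℕ) : Function.HasFiniteSupport (wn φ x H) :=
  fin_of (S := Ico (0 : ℤ) H) fun n hn => mem_Ico.mpr (wn_supp φ x H n hn)

theorem U_wn (k H : ℕ) (φ : ℤ → ℝ) (x : ℤ) :
    U k (wn φ x H) = ∑ a ∈ Fintype.piFinset fun _ : Fin (k + 1) => Ioo (-(H : ℤ)) H,
      ∑ n ∈ Ico (0 : ℤ) H, if ∀ ω, 0 ≤ n + vx ω a ∧ n + vx ω a < H then
        ∏ ω, φ (x + (n + vx ω a)) else 0 := by
  apply Complex.ofReal_injective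
  rw [U_eq_cube k (S := Ico (0 : ℤ) H) (T := Ioo (-(H : ℤ)) H)
    (fun n hn => mem_Ico.mpr (wn_supp φ x H n hn)) fun n m hn hm => by
      have := wn_supp φ x H n hn
      have := wn_supp φ x H m hm
      rw [mem_Ioo]; omega]
  push_cast
  refine sum_congr rfl fun a _ => sum_congr rfl fun n _ => ?_
  have e : ∀ (ω : Fin (k + 1) → Bool) (r : ℝ), cjw ω (r : ℂ) = r := by
    intro ω r; unfold cjw; split_ifs <;> simp
  unfold cube wn
  split_ifs with h
  · push_cast
    exact prod_congr rfl fun ω _ => by rw [if_pos (h ω), e]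
  · obtain ⟨ω, hω⟩ := not_forall.mp h
    rw [prod_eq_zero (mem_univ ω) (by simp only [if_neg hω, map_zero]), Complex.ofReal_zero]

theorem sum_U_le (k H Y : ℕ) (φ : ℤ → ℝ) (y : ℤ) {c : (Fin (k + 1) → ℤ) → ℝ} (h0 : ∀ a, 0 ≤ c a)
    (hc : ∀ a (n : ℤ), (∀ ω, 0 ≤ n + vx ω a ∧ n + vx ω a < H) →
      ∑ x ∈ range Y, ∏ ω, φ (x + (y + (n + vx ω a))) ≤ c a) :
    ∑ x ∈ range Y, U k (wn φ (x + y) H) ≤
      H * ∑ a ∈ Fintype.piFinset fun _ : Fin (k + 1) => Ioo (-(H : ℤ)) H, c a := by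
  simp only [U_wn]
  rw [sum_comm, mul_sum]
  refine sum_le_sum fun a _ => ?_
  rw [sum_comm]
  refine (sum_le_card_nsmul _ _ (c a) fun n _ => ?_).trans (by simp)
  split_ifs with h
  · simpa only [add_assoc] using hc a n h
  · simpa using h0 a

theorem card_Ioo_le (H : ℕ) : ((Ioo (-(H : ℤ)) H).card : ℝ) ≤ 2 * H := by
  have : (Ioo (-(H : ℤ)) H).card ≤ 2 * H := by rw [Int.card_Ioo]; omega
  exact_mod_cast this

open Classical in
/-- degenerate cubes are rare -/
theorem card_deg (k : ℕ) (T : Finset ℤ) :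
    ((Fintype.piFinset fun _ : Fin (k + 1) => T).filter
      fun a => ¬Function.Injective fun ω => vx ω a).card ≤ (2 ^ (k + 1)) ^ 2 * T.card ^ k := by
  have h1 : ∀ ωω ∈ (univ : Finset (Fin (k + 1) → Bool)).offDiag,
      ((Fintype.piFinset fun _ : Fin (k + 1) => T).filter
        fun a => vx ωω.1 a = vx ωω.2 a).card ≤ T.card ^ k := by
    intro ωω hω
    obtain ⟨i, hi⟩ := Function.ne_iff.mp (mem_offDiag.mp hω).2.2
    refine (card_le_card_of_injOn (t := Fintype.piFinset fun _ : Fin k => T)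
      (fun a j => a (i.succAbove j)) (fun a ha => ?_) fun a ha b hb hab => ?_).trans (by simp)
    · have := Fintype.mem_piFinset.mp (mem_filter.mp (mem_coe.mp ha)).1
      exact mem_coe.mpr (Fintype.mem_piFinset.mpr fun j => this _)
    · have e1 := (mem_filter.mp (mem_coe.mp ha)).2
      have e2 := (mem_filter.mp (mem_coe.mp hb)).2
      have e3 : ∀ j, a (i.succAbove j) = b (i.succAbove j) := congrFun hab
      unfold vx at e1 e2
      rw [Fin.sum_univ_succAbove _ i, Fin.sum_univ_succAbove _ i] at e1 e2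
      simp only [e3] at e1
      have e4 : a i = b i := by
        cases h1 : ωω.1 i <;> cases h2 : ωω.2 i <;> simp only [h1, h2] at hi e1 e2 <;>
          simp at hi e1 e2 <;> linarith
      funext j
      exact Fin.succAboveCases i e4 e3 j
  refine (card_le_card (t := (univ : Finset (Fin (k + 1) → Bool)).offDiag.biUnion fun ωω =>
    (Fintype.piFinset fun _ : Fin (k + 1) => T).filter fun a => vx ωω.1 a = vx ωω.2 a)
    fun a ha => ?_).trans ((card_biUnion_le_card_mul _ _ _ h1).trans ?_)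
  · obtain ⟨h2, h3⟩ := mem_filter.mp ha
    obtain ⟨ω, ω', h4, h5⟩ := Function.not_injective_iff.mp h3
    exact mem_biUnion.mpr ⟨(ω, ω'), by simp [h5], mem_filter.mpr ⟨h2, h4⟩⟩
  · refine Nat.mul_le_mul_right _ ?_
    rw [offDiag_card, card_univ, sq]
    simp

/-- the constant of the cube expansion -/
noncomputable def ck (k : ℕ) : ℝ := 2 ^ (k + 1) * 2 ^ (2 ^ (k + 1) + 1) + (2 ^ (k + 1)) ^ 4

theorem ck_pos (k : ℕ) : 0 < ck k := by unfold ck; positivity

/-- `Φ` does not correlate with bounded functions of small local norm -/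
def Test (k H : ℕ) (κ κ' : ℝ) (Φ : ℤ → ℂ) : Prop :=
  ∀ φ : ℤ → ℂ, (∀ n, ‖φ n‖ ≤ 1) → (∀ n, φ n ≠ 0 → 0 ≤ n ∧ n < H) →
    V.gow H k φ ≤ κ' * (H : ℝ) ^ (k + 2) → ‖∑ n ∈ Ico (0 : ℤ) H, φ n * Φ n‖ ≤ κ * H

namespace Sys

variable {ι : Type*} [Fintype ι] (S : Sys ι)

theorem U_nu (k : ℕ) {H T : ℕ} (hH : 0 < H) (hT : H ≤ 2 ^ T)
    (hε : Fintype.card ι * S.eps (2 ^ (k + 1)) T ≤ 1) (y : ℤ) (Y : ℕ) :
    ∑ x ∈ range Y, U k (wn (fun n => S.nu n - 1) (x + y) H) ≤ (H : ℝ) ^ (k + 2) * (ck k *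
      (Y * (Fintype.card ι * S.eps (2 ^ (k + 1)) T + S.mo (2 ^ (k + 1)) ^ Fintype.card ι / H) +
        S.AA ^ (2 * 2 ^ (k + 1)))) := by
  classical
  have hs : Fintype.card (Fin (k + 1) → Bool) = 2 ^ (k + 1) := by simp
  set s := 2 ^ (k + 1) with hsd
  have hs' : (s : ℝ) = 2 ^ (k + 1) := by rw [hsd]; push_cast; rfl
  have hε0 : 0 ≤ Fintype.card ι * S.eps s T := mul_nonneg (Nat.cast_nonneg _) (S.eps_nonneg _ _)
  have hm : 1 ≤ S.mo s ^ Fintype.card ι := one_le_pow₀ (S.one_le_mo s)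
  have hA : 1 ≤ S.AA ^ (2 * s) := one_le_pow₀ S.one_le_AA
  have hco := fun v : (Fin (k + 1) → Bool) → ℤ => fun t hv =>
    S.corr t v (T := T) (r := s) ((card_le_univ t).trans hs.le) hv hε Y
  have hmo := fun v => S.moment v s Y
  generalize Fintype.card ι * S.eps s T = ε at *
  generalize S.mo s ^ Fintype.card ι = m at *
  generalize S.AA ^ (2 * s) = A at *
  have hY : (0 : ℝ) ≤ Y := Nat.cast_nonneg _
  have hH' : (1 : ℝ) ≤ H := by exact_mod_cast hH
  refine (sum_U_le k H Y _ y (c := fun a => 2 ^ s * (Y * (2 * ε) + A) +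
    if ¬Function.Injective fun ω => vx ω a then s * (Y + (Y * m + A)) else 0)
    (fun a => by split_ifs <;> positivity) fun a n hn => ?_).trans ?_
  · split_ifs with h
    · have e : ∀ x : ℕ, ∏ ω, (S.nu (x + (y + (n + vx ω a))) - 1) = ∑ t ∈ univ.powerset,
          (∏ _ω ∈ univ \ t, (-1 : ℝ)) * (∏ ω ∈ t, S.nu (x + (y + (n + vx ω a))) - 1) := by
        intro x
        have e1 := prod_add (fun ω => S.nu (x + (y + (n + vx ω a)))) (fun _ => (-1 : ℝ)) univ
        have e2 := prod_add (fun _ : Fin (k + 1) → Bool => (1 : ℝ)) (fun _ => (-1 : ℝ)) univ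
        rw [prod_eq_zero (mem_univ default) (by norm_num)] at e2
        simp only [mul_comm (∏ _ω ∈ univ \ _, (-1 : ℝ)), sub_mul, sum_sub_distrib, one_mul]
        simp only [prod_const_one, one_mul] at e2
        rw [← e1, ← e2, sub_zero]
        rfl
      simp only [e, add_zero]
      rw [sum_comm]
      refine (sum_le_card_nsmul _ _ (Y * (2 * ε) + A) fun t _ => ?_).trans (by simp [hs, mul_add])
      rw [← mul_sum, sum_sub_distrib]
      refine (le_abs_self _).trans ?_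
      rw [abs_mul, abs_prod]
      simp only [abs_neg, abs_one, prod_const_one, one_mul, sum_const, card_range, nsmul_eq_mul,
        mul_one]
      refine hco (fun ω => y + (n + vx ω a)) t fun ω _ ω' _ hω => ⟨fun e => hω (h ?_), ?_⟩
      · simpa using e
      · have h1 := hn ω
        have h2 := hn ω'
        have h3 : (H : ℤ) ≤ 2 ^ T := by exact_mod_cast hT
        rw [abs_le]; omega
    · have e : ∀ x : ℕ, ∏ ω, (S.nu (x + (y + (n + vx ω a))) - 1) ≤
          ∑ ω, (1 + S.nu (x + (y + (n + vx ω a))) ^ s) := by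
        intro x
        refine (le_abs_self _).trans ?_
        rw [abs_prod]
        refine (prod_le_sum_pow univ univ_nonempty fun _ _ => abs_nonneg _).trans
          (sum_le_sum fun ω _ => ?_)
        rw [card_univ, hs]
        have h0 := S.nu_nonneg (x + (y + (n + vx ω a)))
        generalize S.nu (x + (y + (n + vx ω a))) = u at h0 ⊢
        have h1 := pow_nonneg h0 s
        rcases le_total u 1 with h2 | h2
        · have := pow_le_one₀ (n := s) (abs_nonneg (u - 1)) (abs_le.mpr ⟨by linarith, by linarith⟩)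
          linarith
        · have := pow_le_pow_left₀ (abs_nonneg (u - 1))
            (abs_le.mpr ⟨by linarith, by linarith⟩ : |u - 1| ≤ u) s
          linarith
      refine (sum_le_sum fun x _ => e x).trans ?_
      rw [sum_comm]
      refine (sum_le_card_nsmul _ _ (Y + (Y * m + A)) fun ω _ => ?_).trans ?_
      · rw [sum_add_distrib]
        have := hmo (y + (n + vx ω a))
        simp only [sum_const, card_range, nsmul_eq_mul, mul_one]
        linarith
      · rw [card_univ, hs, nsmul_eq_mul]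
        exact le_add_of_nonneg_left (by positivity)
  · rw [sum_add_distrib, ← sum_filter, sum_const, sum_const, nsmul_eq_mul, nsmul_eq_mul,
      Fintype.card_piFinset_const]
    have c1 := card_Ioo_le H
    have c2 : _ ≤ ((s ^ 2 * _ ^ k : ℕ) : ℝ) := Nat.cast_le.mpr (card_deg k (Ioo (-(H : ℤ)) H))
    push_cast at c2 ⊢
    have c3 : ((Ioo (-(H : ℤ)) H).card : ℝ) ^ (k + 1) ≤ s * H ^ (k + 1) := by
      rw [hs', ← mul_pow]; gcongr
    have c4 : ((Ioo (-(H : ℤ)) H).card : ℝ) ^ k ≤ s / 2 * H ^ k := by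
      rw [hs', pow_succ, mul_div_cancel_right₀ _ two_ne_zero, ← mul_pow]; gcongr
    have c5 := c2.trans (mul_le_mul_of_nonneg_left c4 (by positivity))
    have c6 : Y + (Y * m + A) ≤ 2 * (H * (Y * (ε + m / H) + A)) := by
      have : H * (Y * (ε + m / H) + A) = H * Y * ε + Y * m + H * A := by field_simp
      rw [this]
      nlinarith [mul_nonneg (mul_nonneg (zero_le_one.trans hH') hY) hε0]
    have c7 : Y * (2 * ε) + A ≤ 2 * (Y * (ε + m / H) + A) := by
      have : 0 ≤ Y * (m / H) := by positivity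
      linarith
    unfold ck
    rw [← hs', ← hsd]
    generalize Y * (ε + m / H) + A = W at *
    calc _ ≤ H * (s * H ^ (k + 1) * (2 ^ s * (2 * W)) +
          s ^ 2 * (s / 2 * H ^ k) * (s * (2 * (H * W)))) := by gcongr
      _ = _ := by ring

/-- the part of the weight above the level `B` -/
noncomputable def tail (B : ℝ) (n : ℤ) : ℝ := S.nu n - min (S.nu n) B

theorem tail_nonneg (B : ℝ) (n : ℤ) : 0 ≤ S.tail B n := sub_nonneg.mpr (min_le_left _ _)

theorem tail_pow {B : ℝ} (hB : 1 ≤ B) {s s' : ℕ} (hs : 0 < s) (hs' : s ≤ s') (r : ℕ) (n : ℤ) :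
    S.tail B n ^ s ≤ S.nu n ^ (s' + r) / B ^ r := by
  have h0 := S.nu_nonneg n
  unfold tail
  rcases le_total (S.nu n) B with h | h
  · rw [min_eq_left h, sub_self, zero_pow hs.ne']; positivity
  · rw [min_eq_right h, le_div_iff₀ (by positivity), pow_add]
    refine mul_le_mul ((pow_le_pow_left₀ (by linarith) (by linarith) s).trans
      (pow_le_pow_right₀ (hB.trans h) hs')) (by gcongr) (by positivity) (by positivity)

/-- the size of the tail -/
noncomputable def Th (B : ℝ) (s r Y : ℕ) : ℝ :=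
  (Y * S.mo (s + r) ^ Fintype.card ι + S.AA ^ (2 * (s + r))) / B ^ r

theorem sum_tail {B : ℝ} (hB : 1 ≤ B) {s s' : ℕ} (hs : 0 < s) (hs' : s ≤ s') (r Y : ℕ) (v : ℤ) :
    ∑ x ∈ range Y, S.tail B (x + v) ^ s ≤ S.Th B s' r Y := by
  refine (sum_le_sum fun x _ => S.tail_pow hB hs hs' r _).trans ?_
  rw [← sum_div]
  exact div_le_div_of_nonneg_right (S.moment v _ Y) (by positivity)

theorem U_tail (k H : ℕ) {B : ℝ} (hB : 1 ≤ B) (r : ℕ) (y : ℤ) (Y : ℕ) :
    ∑ x ∈ range Y, U k (wn (S.tail B) (x + y) H) ≤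
      (H : ℝ) ^ (k + 2) * ((2 ^ (k + 1)) ^ 2 * S.Th B (2 ^ (k + 1)) r Y) := by
  have hs : Fintype.card (Fin (k + 1) → Bool) = 2 ^ (k + 1) := by simp
  have h0 : 0 ≤ S.Th B (2 ^ (k + 1)) r Y :=
    (sum_nonneg fun x _ => pow_nonneg (S.tail_nonneg _ _) _).trans
      (S.sum_tail hB one_pos Nat.one_le_two_pow r Y 0)
  refine (sum_U_le k H Y _ y (c := fun _ => 2 ^ (k + 1) * S.Th B (2 ^ (k + 1)) r Y)
    (fun _ => by positivity) fun a n _ => ?_).trans ?_
  · refine (sum_le_sum fun x _ =>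
      prod_le_sum_pow univ univ_nonempty fun _ _ => S.tail_nonneg _ _).trans ?_
    rw [sum_comm, card_univ, hs]
    refine (sum_le_card_nsmul _ _ _ fun ω _ =>
      S.sum_tail hB (by positivity) le_rfl r Y _).trans (by simp)
  · rw [sum_const, nsmul_eq_mul, Fintype.card_piFinset_const]
    have c1 := card_Ioo_le H
    push_cast
    calc _ ≤ H * ((2 * H) ^ (k + 1) * (2 ^ (k + 1) * S.Th B (2 ^ (k + 1)) r Y)) := by gcongr
      _ = _ := by ring

/-- the truncated weight minus one -/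
noncomputable def tr (B : ℝ) (n : ℤ) : ℝ := min (S.nu n) B - 1

/-- the error at the position `x` -/
noncomputable def err (k H : ℕ) (B κ κ' : ℝ) (x : ℤ) : ℝ :=
  B * κ + B / κ' * (U k (wn (S.tr B) x H) / (H : ℝ) ^ (k + 2)) +
    (∑ n ∈ Ico (0 : ℤ) H, S.tail B (x + n)) / H

theorem err_nonneg (k H : ℕ) {B κ κ' : ℝ} (hB : 1 ≤ B) (hκ : 0 ≤ κ) (hκ' : 0 < κ') (x : ℤ) :
    0 ≤ S.err k H B κ κ' x := by
  have := U_nonneg k (wn (S.tr B) x H)
  have : 0 ≤ ∑ n ∈ Ico (0 : ℤ) H, S.tail B (x + n) := sum_nonneg fun _ _ => S.tail_nonneg _ _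
  unfold err; positivity

/-- the weight may be removed against every test function -/
theorem test_le {k H : ℕ} (hH : 0 < H) {B κ κ' : ℝ} (hB : 1 ≤ B) (hκ : 0 ≤ κ) (hκ' : 0 < κ')
    {Φ : ℤ → ℂ} (h1 : ∀ n ∈ Ico (0 : ℤ) H, ‖Φ n‖ ≤ 1) (hΦ : Test k H κ κ' Φ) (x : ℤ) :
    ‖∑ n ∈ Ico (0 : ℤ) H, ((S.nu (x + n) - 1 : ℝ) : ℂ) * Φ n‖ ≤ H * S.err k H B κ κ' x := by
  have hH' : (0 : ℝ) < H := by exact_mod_cast hH
  have hB0 : 0 < B := by linarith
  set φ : ℤ → ℂ := fun n => ((B⁻¹ : ℝ) : ℂ) * wn (S.tr B) x H n with hφ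
  have a1 : ∀ n, ‖φ n‖ ≤ 1 := by
    intro n
    simp only [hφ, wn]
    split_ifs
    · rw [← Complex.ofReal_mul, Complex.norm_real, Real.norm_eq_abs, abs_mul,
        abs_of_pos (inv_pos.mpr hB0), inv_mul_le_iff₀ hB0, abs_le, tr]
      have := le_min (S.nu_nonneg (x + n)) hB0.le
      have := min_le_right (S.nu (x + n)) B
      constructor <;> linarith
    · simp
  have a2 : ∀ n, φ n ≠ 0 → 0 ≤ n ∧ n < H := fun n hn => wn_supp _ _ _ _ (right_ne_zero_of_mul hn)
  have a0 := U_nonneg k (wn (S.tr B) x H)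
  have a3 : V.gow H k φ ≤ U k (wn (S.tr B) x H) := by
    rw [gow_eq_U H k a2, hφ, U_smul]
    refine mul_le_of_le_one_left a0 (pow_le_one₀ (norm_nonneg _) ?_)
    rw [Complex.norm_real, Real.norm_of_nonneg (by positivity)]
    exact inv_le_one_of_one_le₀ hB
  have a4 : ‖∑ n ∈ Ico (0 : ℤ) H, φ n * Φ n‖ ≤
      H * (κ + κ'⁻¹ * (U k (wn (S.tr B) x H) / (H : ℝ) ^ (k + 2))) := by
    rcases le_total (U k (wn (S.tr B) x H)) (κ' * (H : ℝ) ^ (k + 2)) with h | h
    · refine (hΦ φ a1 a2 (a3.trans h)).trans ?_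
      rw [mul_comm κ]
      gcongr
      exact le_add_of_nonneg_right (by positivity)
    · have b1 : 1 ≤ κ'⁻¹ * (U k (wn (S.tr B) x H) / (H : ℝ) ^ (k + 2)) := by
        rw [le_inv_mul_iff₀ hκ', le_div_iff₀ (by positivity), mul_one]; exact h
      refine (norm_sum_le _ _).trans ((sum_le_card_nsmul _ _ 1 fun n hn => ?_).trans ?_)
      · rw [norm_mul]; exact mul_le_one₀ (a1 n) (norm_nonneg _) (h1 n hn)
      · simp only [Int.card_Ico, sub_zero, Int.toNat_natCast, nsmul_eq_mul]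
        gcongr; linarith
  have a5 : ∑ n ∈ Ico (0 : ℤ) H, ((S.nu (x + n) - 1 : ℝ) : ℂ) * Φ n =
      (B : ℂ) * ∑ n ∈ Ico (0 : ℤ) H, φ n * Φ n +
        ∑ n ∈ Ico (0 : ℤ) H, (S.tail B (x + n) : ℂ) * Φ n := by
    rw [mul_sum, ← sum_add_distrib]
    refine sum_congr rfl fun n hn => ?_
    have : (B : ℂ) ≠ 0 := by exact_mod_cast hB0.ne'
    simp only [hφ, wn, if_pos (mem_Ico.mp hn), tr, tail]
    push_cast
    field_simp
    ring
  have a6 : ‖∑ n ∈ Ico (0 : ℤ) H, (S.tail B (x + n) : ℂ) * Φ n‖ ≤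
      ∑ n ∈ Ico (0 : ℤ) H, S.tail B (x + n) := by
    refine (norm_sum_le _ _).trans (sum_le_sum fun n hn => ?_)
    rw [norm_mul, Complex.norm_real, Real.norm_of_nonneg (S.tail_nonneg _ _)]
    exact mul_le_of_le_one_right (S.tail_nonneg _ _) (h1 n hn)
  rw [a5]
  refine (norm_add_le _ _).trans ?_
  rw [norm_mul, Complex.norm_real, Real.norm_of_nonneg hB0.le]
  refine (add_le_add (mul_le_mul_of_nonneg_left a4 hB0.le) a6).trans (le_of_eq ?_)
  unfold err
  field_simp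

/-- the error is small on average over any interval of positions -/
theorem sum_err (k : ℕ) {H T : ℕ} (hH : 0 < H) (hT : H ≤ 2 ^ T)
    (hε : Fintype.card ι * S.eps (2 ^ (k + 1)) T ≤ 1) {B : ℝ} (hB : 1 ≤ B) (κ : ℝ) {κ' : ℝ}
    (hκ' : 0 < κ') (r : ℕ) (y : ℤ) (Y : ℕ) :
    ∑ x ∈ range Y, S.err k H B κ κ' (x + y) ≤ Y * (B * κ) +
      B / κ' * (2 ^ 2 ^ (k + 1) * ck k * (Y * (Fintype.card ι * S.eps (2 ^ (k + 1)) T +
        S.mo (2 ^ (k + 1)) ^ Fintype.card ι / H) + S.AA ^ (2 * 2 ^ (k + 1)) +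
          S.Th B (2 ^ (k + 1)) r Y)) + S.Th B (2 ^ (k + 1)) r Y := by
  have hH' : (0 : ℝ) < H := by exact_mod_cast hH
  have a1 := S.U_nu k hH hT hε y Y
  have a2 := S.U_tail k H hB r y Y
  have a3 : ∀ x : ℤ, U k (wn (S.tr B) x H) ≤
      2 ^ 2 ^ (k + 1) * (U k (wn (fun n => S.nu n - 1) x H) + U k (wn (S.tail B) x H)) := by
    intro x
    have e : wn (S.tr B) x H = fun n =>
        wn (fun n => S.nu n - 1) x H n + (-1) * wn (S.tail B) x H n := by
      funext n
      simp only [wn, tr, tail]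
      split_ifs
      · push_cast; ring
      · simp
    rw [e]
    refine (U_add_le k (g := fun n => (-1) * wn (S.tail B) x H n) (fin_wn _ _ _)
      ((fin_wn _ _ _).mul_right _)).trans ?_
    rw [U_smul]
    have := U_nonneg k (wn (fun n => S.nu n - 1) x H)
    have := U_nonneg k (wn (S.tail B) x H)
    simp only [norm_neg, norm_one, one_pow, one_mul]
    gcongr
    · norm_num
    · exact Nat.sub_le _ _
  have a0 : 0 ≤ S.Th B (2 ^ (k + 1)) r Y :=
    (sum_nonneg fun x _ => pow_nonneg (S.tail_nonneg _ _) _).trans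
      (S.sum_tail hB one_pos Nat.one_le_two_pow r Y 0)
  have a4 : ∑ x ∈ range Y, ∑ n ∈ Ico (0 : ℤ) H, S.tail B (x + y + n) ≤
      H * S.Th B (2 ^ (k + 1)) r Y := by
    rw [sum_comm]
    refine (sum_le_card_nsmul _ _ (S.Th B (2 ^ (k + 1)) r Y) fun n _ => ?_).trans (by simp)
    simpa only [pow_one, add_assoc] using S.sum_tail hB one_pos Nat.one_le_two_pow r Y (y + n)
  have a5 : ((2 : ℝ) ^ (k + 1)) ^ 2 ≤ ck k := by
    refine (pow_le_pow_right₀ (one_le_pow₀ one_le_two) (by norm_num : 2 ≤ 4)).trans ?_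
    exact le_add_of_nonneg_left (by positivity)
  simp only [err, sum_add_distrib, sum_const, card_range, nsmul_eq_mul, ← mul_sum, ← sum_div]
  refine add_le_add (add_le_add le_rfl (mul_le_mul_of_nonneg_left ?_ (by positivity))) ?_
  · rw [div_le_iff₀ (by positivity)]
    refine (sum_le_sum fun x _ => a3 _).trans ?_
    rw [← mul_sum, sum_add_distrib]
    generalize Y * (Fintype.card ι * S.eps (2 ^ (k + 1)) T +
      S.mo (2 ^ (k + 1)) ^ Fintype.card ι / H) + S.AA ^ (2 * 2 ^ (k + 1)) = W at a1 ⊢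
    calc _ ≤ 2 ^ 2 ^ (k + 1) * ((H : ℝ) ^ (k + 2) * (ck k * W) +
          (H : ℝ) ^ (k + 2) * (ck k * S.Th B (2 ^ (k + 1)) r Y)) := by
          gcongr
          exact a2.trans (by gcongr)
      _ = _ := by ring
  · rwa [div_le_iff₀ hH', mul_comm]

end Sys

end Pool.Agent.P.MP_a14ce1_nt.Nil.EL
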