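import Pool.Agent.P.MP_a14ce1_nt.Nil.Per

/-! Divisor weights attached to groups of primes: moments and correlations of shifts. -/

namespace Pool.Agent.P.MP_a14ce1_nt.Nil.EL

open Finset

set_option linter.dupNamespace false

/-- Disjoint groups of primes with probability weights. -/
structure Sys (ι : Type*) where
  P : ι → Finset ℕ
  w : ι → ℕ → ℝ
  β : ℝ
  ρ : ℝ
  A : ι → ℝ
  prime : ∀ i, ∀ p ∈ P i, p.Prime
  disj : ∀ i j, i ≠ j → Disjoint (P i) (P j)
  w0 : ∀ i, ∀ p ∈ P i, 0 ≤ w i p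
  w1 : ∀ i, ∑ p ∈ P i, w i p = 1
  β1 : 1 ≤ β
  wβ : ∀ i, ∀ p ∈ P i, w i p * p ≤ β
  ρ1 : 1 ≤ ρ
  lo : ∀ i, ∀ p ∈ P i, ρ ^ 2 ≤ p
  hi : ∀ i, ∀ p ∈ P i, (p : ℝ) ≤ A i

theorem prod_le_sum_pow {J : Type*} (s : Finset J) (hs : s.Nonempty) {a : J → ℝ}
    (ha : ∀ j ∈ s, 0 ≤ a j) : ∏ j ∈ s, a j ≤ ∑ j ∈ s, a j ^ s.card := by
  obtain ⟨j, hj, hm⟩ := s.exists_max_image a hs
  calc ∏ j ∈ s, a j ≤ ∏ _i ∈ s, a j := prod_le_prod ha hm
    _ = a j ^ s.card := prod_const _
    _ ≤ _ := single_le_sum (f := fun j => a j ^ s.card) (fun i hi => pow_nonneg (ha i hi) _) hj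

theorem prod_le_one_add {J : Type*} (s : Finset J) {a : J → ℝ} (ha : ∀ j ∈ s, 0 ≤ a j) {r : ℕ}
    (hr : s.card ≤ r) : ∏ j ∈ s, a j ≤ 1 + ∑ j ∈ s, a j ^ r := by
  rcases s.eq_empty_or_nonempty with rfl | hs
  · simp
  obtain ⟨j, hj, hm⟩ := s.exists_max_image a hs
  have h1 : ∏ j ∈ s, a j ≤ a j ^ s.card := (prod_le_prod ha hm).trans (prod_const _).le
  have h2 : a j ^ r ≤ ∑ j ∈ s, a j ^ r :=
    single_le_sum (f := fun j => a j ^ r) (fun i hi => pow_nonneg (ha i hi) _) hj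
  have h3 := pow_nonneg (ha j hj) r
  rcases le_total (a j) 1 with h | h
  · have := pow_le_one₀ (n := s.card) (ha j hj) h
    linarith
  · have := pow_le_pow_right₀ h hr
    linarith

/-- the terms of a product of sums with a coincidence -/
theorem coinc {J : Type*} [Fintype J] [DecidableEq J] (P : Finset ℕ) {a : J → ℕ → ℝ}
    {j j' : J} (hj : j ≠ j') :
    ∑ π ∈ (Fintype.piFinset fun _ : J => P).filter (fun π => π j = π j'), ∏ k, a k (π k) =
      ∑ q ∈ P, a j q * a j' q * ∏ k ∈ (univ.erase j).erase j', ∑ p ∈ P, a k p := by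
  have h1 : ∀ q ∈ P, a j q * a j' q * ∏ k ∈ (univ.erase j).erase j', ∑ p ∈ P, a k p =
      ∑ π ∈ Fintype.piFinset fun _ : J => P, ∏ k,
        if k = j ∨ k = j' then (if π k = q then a k (π k) else 0) else a k (π k) := by
    intro q hq
    rw [← prod_univ_sum (fun _ : J => P) fun k p =>
      if k = j ∨ k = j' then (if p = q then a k p else 0) else a k p,
      ← mul_prod_erase univ _ (mem_univ j),
      ← mul_prod_erase (univ.erase j) _ (mem_erase.mpr ⟨hj.symm, mem_univ j'⟩), ← mul_assoc]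
    congr 1
    · simp [hq]
    · refine prod_congr rfl fun k hk => ?_
      simp only [mem_erase] at hk
      simp [hk.1, hk.2.1]
  rw [sum_congr rfl h1, sum_comm, sum_filter]
  refine sum_congr rfl fun π hπ => ?_
  rw [sum_eq_single_of_mem (π j) (Fintype.mem_piFinset.mp hπ j)]
  · split_ifs with h
    · refine prod_congr rfl fun k _ => ?_
      by_cases hk : k = j ∨ k = j'
      · rw [if_pos hk, if_pos]
        rcases hk with rfl | rfl
        · rfl
        · exact h.symm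
      · rw [if_neg hk]
    · refine (prod_eq_zero (mem_univ j') ?_).symm
      rw [if_pos (Or.inr rfl), if_neg (Ne.symm h)]
  · intro q _ hq
    refine prod_eq_zero (mem_univ j) ?_
    rw [if_pos (Or.inl rfl), if_neg hq.symm]

theorem noninj_le {J : Type*} [Fintype J] [DecidableEq J] (T : Finset (J → ℕ)) {t : (J → ℕ) → ℝ}
    (ht : ∀ π ∈ T, 0 ≤ t π) :
    ∑ π ∈ T.filter (fun π => ¬Function.Injective π), t π ≤
      ∑ jj ∈ (univ : Finset J).offDiag, ∑ π ∈ T.filter (fun π => π jj.1 = π jj.2), t π := by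
  simp only [sum_filter]
  rw [sum_comm]
  refine sum_le_sum fun π hπ => ?_
  have h0 : ∀ jj ∈ (univ : Finset J).offDiag, 0 ≤ if π jj.1 = π jj.2 then t π else 0 :=
    fun jj _ => by split_ifs; exacts [ht π hπ, le_rfl]
  split_ifs with h
  · exact sum_nonneg h0
  · obtain ⟨j, j', h1, h2⟩ := Function.not_injective_iff.mp h
    have := single_le_sum h0 (a := (j, j')) (by simp [h2])
    rwa [if_pos h1] at this

namespace Sys

variable {ι : Type*} [Fintype ι] (S : Sys ι)

/-- the term of one prime -/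
noncomputable def t (i : ι) (p : ℕ) (n : ℤ) : ℝ := if (p : ℤ) ∣ n then S.w i p * p else 0
/-- the weight of one group -/
noncomputable def X (i : ι) (n : ℤ) : ℝ := ∑ p ∈ S.P i, S.t i p n
/-- the divisor weight -/
noncomputable def nu (n : ℤ) : ℝ := ∏ i, S.X i n
/-- the modulus of one group and the common period -/
def Dg (i : ι) : ℕ := ∏ p ∈ S.P i, p
def D : ℕ := ∏ i, S.Dg i
/-- the moment bound -/
noncomputable def mo (r : ℕ) : ℝ := Real.exp 2 * S.β ^ r * r.factorial
/-- the largest product of primes -/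
noncomputable def AA : ℝ := ∏ i, S.A i

omit [Fintype ι] in
theorem t_nonneg {i p} (hp : p ∈ S.P i) (n : ℤ) : 0 ≤ S.t i p n := by
  have := S.w0 i p hp
  unfold t; split_ifs <;> positivity
omit [Fintype ι] in
theorem t_le {i p} (hp : p ∈ S.P i) (n : ℤ) : S.t i p n ≤ S.w i p * p := by
  have := S.w0 i p hp
  unfold t; split_ifs
  · exact le_rfl
  · positivity
omit [Fintype ι] in
theorem X_nonneg (i) (n : ℤ) : 0 ≤ S.X i n := sum_nonneg fun _ hp => S.t_nonneg hp n
theorem nu_nonneg (n : ℤ) : 0 ≤ S.nu n := prod_nonneg fun i _ => S.X_nonneg i n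
omit [Fintype ι] in
theorem per_t (i p) (v : ℤ) : Per p fun x => S.t i p (x + v) := per_ite p v _ _
omit [Fintype ι] in
theorem dvd_Dg {i p} (hp : p ∈ S.P i) : p ∣ S.Dg i := dvd_prod_of_mem (fun p => p) hp
theorem Dg_dvd (i) : S.Dg i ∣ S.D := dvd_prod_of_mem _ (mem_univ i)
theorem dvd_D {i p} (hp : p ∈ S.P i) : p ∣ S.D := (S.dvd_Dg hp).trans (S.Dg_dvd i)
theorem D_pos : 0 < S.D := prod_pos fun i _ => prod_pos fun p hp => (S.prime i p hp).pos
omit [Fintype ι] in
theorem per_X (i) (v : ℤ) : Per (S.Dg i) fun x => S.X i (x + v) :=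
  per_sum _ fun p hp => (S.per_t i p v).mono (S.dvd_Dg hp)
omit [Fintype ι] in
theorem cop {i j} (h : i ≠ j) : Nat.Coprime (S.Dg i) (S.Dg j) :=
  Nat.Coprime.prod_left fun p hp => Nat.Coprime.prod_right fun q hq =>
    (Nat.coprime_primes (S.prime i p hp) (S.prime j q hq)).mpr fun e =>
      disjoint_left.mp (S.disj i j h) hp (e ▸ hq)
omit [Fintype ι] in
theorem one_le_mo (r : ℕ) : 1 ≤ S.mo r :=
  one_le_mul_of_one_le_of_one_le (one_le_mul_of_one_le_of_one_le (Real.one_le_exp (by norm_num))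
    (one_le_pow₀ S.β1)) (by exact_mod_cast r.factorial_pos)
omit [Fintype ι] in
theorem one_le_A (i) : 1 ≤ S.A i := by
  have : (S.P i).Nonempty := by
    rw [nonempty_iff_ne_empty]; intro h; have := S.w1 i; simp [h] at this
  obtain ⟨p, hp⟩ := this
  exact le_trans (by exact_mod_cast (S.prime i p hp).pos) (S.hi i p hp)
theorem one_le_AA : 1 ≤ S.AA := Finset.one_le_prod fun i _ => S.one_le_A i
omit [Fintype ι] in
theorem w_le {i p} (hp : p ∈ S.P i) : S.w i p ≤ S.β / S.ρ := by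
  have h1 := S.ρ1
  rw [le_div_iff₀ (by linarith)]
  have h2 : S.ρ ≤ p := le_trans (by nlinarith) (S.lo i p hp)
  exact (mul_le_mul_of_nonneg_left h2 (S.w0 i p hp)).trans (S.wβ i p hp)

theorem av_t {i p} (hp : p ∈ S.P i) (v : ℤ) : av S.D (fun x => S.t i p (x + v)) = S.w i p := by
  have h := (S.prime i p hp).pos
  have : (p : ℝ) ≠ 0 := by positivity
  unfold t
  rw [av_ite h S.D_pos (S.dvd_D hp)]
  field_simp; ring

theorem av_X_pow (i) (v : ℤ) (r : ℕ) : av S.D (fun x => S.X i (x + v) ^ r) ≤ S.mo r := by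
  have hβ : 0 < S.β := by linarith [S.β1]
  have h1 : ∀ x, S.X i (x + v) ^ r ≤
      S.β ^ r * r.factorial * ∏ p ∈ S.P i, Real.exp (S.t i p (x + v) / S.β) := by
    intro x
    have := Real.pow_div_factorial_le_exp _ (div_nonneg (S.X_nonneg i (x + v)) hβ.le) r
    rw [← Real.exp_sum, ← sum_div]
    rw [div_pow, div_div, div_le_iff₀ (by positivity)] at this
    unfold X at this ⊢
    linarith
  refine (av_mono h1).trans ?_
  rw [av_smul, av_prod (m := fun p => p) _ S.D_pos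
    (fun p _ => (S.per_t i p v).comp fun u => Real.exp (u / S.β)) (fun p hp => S.dvd_D hp)
    fun p hp q hq h => (Nat.coprime_primes (S.prime i p hp) (S.prime i q hq)).mpr h]
  have h2 : ∀ p ∈ S.P i, av S.D (fun x => Real.exp (S.t i p (x + v) / S.β)) ≤
      Real.exp (2 * S.w i p) := by
    intro p hp
    have hp0 := (S.prime i p hp).pos
    have hp' : (0 : ℝ) < p := by positivity
    have hw := S.w0 i p hp
    have e : (fun x => Real.exp (S.t i p (x + v) / S.β)) = fun x =>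
        if (p : ℤ) ∣ x + v then Real.exp (S.w i p * p / S.β) else 1 := by
      funext x; unfold t; split_ifs <;> simp
    have hu0 : 0 ≤ S.w i p * p / S.β := by positivity
    have hu1 : S.w i p * p / S.β ≤ 1 := (div_le_one hβ).mpr (S.wβ i p hp)
    have h3 := (le_abs_self _).trans (Real.abs_exp_sub_one_le (x := S.w i p * p / S.β)
      (by rwa [abs_of_nonneg hu0]))
    rw [abs_of_nonneg hu0] at h3
    have h4 : S.w i p * p / S.β ≤ S.w i p * p := div_le_self (by positivity) S.β1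
    have h5 : (Real.exp (S.w i p * p / S.β) - 1) / p ≤ 2 * S.w i p := by
      rw [div_le_iff₀ hp']; linarith
    rw [e, av_ite hp0 S.D_pos (S.dvd_D hp)]
    linarith [Real.add_one_le_exp (2 * S.w i p)]
  have h3 : ∏ p ∈ S.P i, av S.D (fun x => Real.exp (S.t i p (x + v) / S.β)) ≤ Real.exp 2 := by
    refine (prod_le_prod (fun p _ => av_nonneg fun x => (Real.exp_pos _).le) h2).trans ?_
    rw [← Real.exp_sum, ← mul_sum, S.w1, mul_one]
  unfold mo
  calc _ ≤ S.β ^ r * r.factorial * Real.exp 2 := mul_le_mul_of_nonneg_left h3 (by positivity)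
    _ = _ := by ring

theorem av_prod_nu {J : Type*} (s : Finset J) (v : J → ℤ) :
    av S.D (fun x => ∏ j ∈ s, S.nu (x + v j)) =
      ∏ i, av S.D fun x => ∏ j ∈ s, S.X i (x + v j) := by
  rw [← av_prod (m := S.Dg) _ S.D_pos (fun i _ => per_prod s fun j _ => S.per_X i (v j))
    (fun i _ => S.Dg_dvd i) fun i _ j _ h => S.cop h]
  congr 1
  funext x
  exact prod_comm

theorem av_nu_pow (v : ℤ) (r : ℕ) :
    av S.D (fun x => S.nu (x + v) ^ r) ≤ S.mo r ^ Fintype.card ι := by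
  have := S.av_prod_nu (range r) fun _ => v
  simp only [prod_const, card_range] at this
  rw [this]
  refine (prod_le_prod (fun i _ => av_nonneg fun x => pow_nonneg (S.X_nonneg _ _) _)
    fun i _ => S.av_X_pow i v r).trans ?_
  rw [prod_const, card_univ]

/-- from the mean over a period to an interval -/
theorem interval {J : Type*} (s : Finset J) (v : J → ℤ) (Y : ℕ) :
    |∑ x ∈ range Y, ∏ j ∈ s, S.nu (x + v j) - Y * av S.D fun x => ∏ j ∈ s, S.nu (x + v j)| ≤
      S.AA ^ (2 * s.card) := by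
  classical
  have e : ∀ x : ℤ, ∏ j ∈ s, S.nu (x + v j) =
      ∑ π ∈ Fintype.piFinset fun k : s × ι => S.P k.2, ∏ k, S.t k.2 (π k) (x + v k.1) := by
    intro x
    rw [← prod_univ_sum (fun k : s × ι => S.P k.2) fun k p => S.t k.2 p (x + v k.1),
      Fintype.prod_prod_type, ← prod_coe_sort s]
    rfl
  simp only [e]
  rw [av_sum, sum_comm, mul_sum, ← sum_sub_distrib]
  refine (abs_sum_le_sum_abs _ _).trans ?_
  have h1 : ∀ π ∈ Fintype.piFinset fun k : s × ι => S.P k.2,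
      |∑ x ∈ range Y, ∏ k, S.t k.2 (π k) (x + v k.1) -
        Y * av S.D fun x => ∏ k, S.t k.2 (π k) (x + v k.1)| ≤
      ∏ k : s × ι, S.w k.2 (π k) * S.A k.2 ^ 2 := by
    intro π hπ
    have hm := Fintype.mem_piFinset.mp hπ
    have := Per.interval (d := ∏ k, π k) (D := S.D)
      (g := fun x => ∏ k : s × ι, S.t k.2 (π k) (x + v k.1))
      (per_prod _ fun k _ => (S.per_t _ _ _).mono (dvd_prod_of_mem _ (mem_univ k)))
      (per_prod _ fun k _ => (S.per_t _ _ _).mono (S.dvd_D (hm k)))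
      (prod_pos fun k _ => (S.prime _ _ (hm k)).pos) S.D_pos
      (c := ∏ k : s × ι, S.w k.2 (π k) * π k)
      (fun x => prod_nonneg fun k _ => S.t_nonneg (hm k) _)
      (fun x => prod_le_prod (fun k _ => S.t_nonneg (hm k) _) fun k _ => S.t_le (hm k) _) Y 0
    simp only [add_zero] at this
    refine this.trans ?_
    rw [Nat.cast_prod, ← prod_mul_distrib]
    refine prod_le_prod (fun k _ => by have := S.w0 _ _ (hm k); positivity) fun k _ => ?_
    have h1 := S.w0 _ _ (hm k)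
    have h2 := pow_le_pow_left₀ (Nat.cast_nonneg _) (S.hi _ _ (hm k)) 2
    nlinarith
  refine (sum_le_sum h1).trans (le_of_eq ?_)
  rw [← prod_univ_sum (fun k : s × ι => S.P k.2) fun k p => S.w k.2 p * S.A k.2 ^ 2,
    Fintype.prod_prod_type]
  simp only [← sum_mul, S.w1, one_mul, prod_pow, card_univ, Fintype.card_coe, AA, prod_const]
  rw [← pow_mul, mul_comm]

/-- moments on an interval -/
theorem moment (v : ℤ) (r Y : ℕ) :
    ∑ x ∈ range Y, S.nu (x + v) ^ r ≤ Y * S.mo r ^ Fintype.card ι + S.AA ^ (2 * r) := by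
  have h1 := S.interval (range r) (fun _ => v) Y
  simp only [prod_const, card_range] at h1
  have h2 := mul_le_mul_of_nonneg_left (S.av_nu_pow v r) (Nat.cast_nonneg (α := ℝ) Y)
  linarith [(abs_le.mp h1).2]

/-- the error of one group for `s` shifts -/
noncomputable def eps (s T : ℕ) : ℝ := (s + 2) ^ 3 * (1 + T) * S.β ^ 2 * S.mo (2 * s) / S.ρ

theorem group_corr (i) {J : Type*} [Fintype J] [DecidableEq J] (v : J → ℤ) {T : ℕ}
    (hT : ∀ j j', j ≠ j' → ((S.P i).filter fun p : ℕ => (p : ℤ) ∣ v j - v j').card ≤ T) :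
    |av S.D (fun x => ∏ j, S.X i (x + v j)) - 1| ≤ S.eps (Fintype.card J) T := by
  classical
  set s := Fintype.card J with hs
  set Ω := Fintype.piFinset fun _ : J => S.P i with hΩ
  have hρ : 0 < S.ρ := by linarith [S.ρ1]
  have hβ := S.β1
  have hmo := S.one_le_mo (2 * s)
  have hoff : (((univ : Finset J).offDiag.card : ℕ) : ℝ) ≤ (s : ℝ) ^ 2 := by
    rw [offDiag_card, card_univ, sq]; exact_mod_cast Nat.sub_le _ _
  have e : (fun x => ∏ j, S.X i (x + v j)) = fun x =>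
      (∑ π ∈ Ω.filter Function.Injective, ∏ j, S.t i (π j) (x + v j)) +
      ∑ π ∈ Ω.filter (fun π => ¬Function.Injective π), ∏ j, S.t i (π j) (x + v j) := by
    funext x
    rw [sum_filter_add_sum_filter_not]
    exact prod_univ_sum (fun _ : J => S.P i) fun j p => S.t i p (x + v j)
  have a1 : av S.D (fun x => ∑ π ∈ Ω.filter Function.Injective, ∏ j, S.t i (π j) (x + v j)) =
      ∑ π ∈ Ω.filter Function.Injective, ∏ j, S.w i (π j) := by
    rw [av_sum]
    refine sum_congr rfl fun π hπ => ?_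
    obtain ⟨h1, h2⟩ := mem_filter.mp hπ
    have hm := Fintype.mem_piFinset.mp h1
    rw [av_prod (m := π) _ S.D_pos (fun j _ => S.per_t _ _ _) (fun j _ => S.dvd_D (hm j))
      fun j _ j' _ h => (Nat.coprime_primes (S.prime _ _ (hm j)) (S.prime _ _ (hm j'))).mpr
        (h2.ne h)]
    exact prod_congr rfl fun j _ => S.av_t (hm j) _
  have a2 : (∑ π ∈ Ω.filter Function.Injective, ∏ j, S.w i (π j)) +
      ∑ π ∈ Ω.filter (fun π => ¬Function.Injective π), ∏ j, S.w i (π j) = 1 := by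
    rw [sum_filter_add_sum_filter_not, ← prod_univ_sum (fun _ : J => S.P i) fun _ p => S.w i p]
    simp [S.w1]
  have w0 : ∀ π ∈ Ω, 0 ≤ ∏ j, S.w i (π j) := fun π hπ =>
    prod_nonneg fun j _ => S.w0 _ _ (Fintype.mem_piFinset.mp hπ j)
  have t0 : ∀ x, ∀ π ∈ Ω, 0 ≤ ∏ j, S.t i (π j) (x + v j) := fun x π hπ =>
    prod_nonneg fun j _ => S.t_nonneg (Fintype.mem_piFinset.mp hπ j) _
  have a3 : 0 ≤ ∑ π ∈ Ω.filter (fun π => ¬Function.Injective π), ∏ j, S.w i (π j) :=
    sum_nonneg fun π hπ => w0 π (mem_filter.mp hπ).1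
  have a4 : ∑ π ∈ Ω.filter (fun π => ¬Function.Injective π), ∏ j, S.w i (π j) ≤
      s ^ 2 * (S.β / S.ρ) := by
    refine (noninj_le Ω w0).trans ((sum_le_card_nsmul _ _ (S.β / S.ρ) fun jj hjj => ?_).trans ?_)
    · rw [hΩ, coinc (a := fun _ p => S.w i p) _ (mem_offDiag.mp hjj).2.2]
      simp only [S.w1, prod_const_one, mul_one]
      calc _ ≤ ∑ q ∈ S.P i, S.w i q * (S.β / S.ρ) :=
            sum_le_sum fun q hq => mul_le_mul_of_nonneg_left (S.w_le hq) (S.w0 i q hq)
        _ = _ := by rw [← sum_mul, S.w1, one_mul]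
    · rw [nsmul_eq_mul]; exact mul_le_mul_of_nonneg_right hoff (by positivity)
  have a5 : 0 ≤ av S.D fun x =>
      ∑ π ∈ Ω.filter (fun π => ¬Function.Injective π), ∏ j, S.t i (π j) (x + v j) :=
    av_nonneg fun x => sum_nonneg fun π hπ => t0 x π (mem_filter.mp hπ).1
  have a6 : (av S.D fun x =>
      ∑ π ∈ Ω.filter (fun π => ¬Function.Injective π), ∏ j, S.t i (π j) (x + v j)) ≤
      s ^ 2 * (T * (S.β ^ 2 * ((s + 2) * S.mo (2 * s) / S.ρ))) := by
    refine (av_mono fun x => noninj_le Ω (t0 x)).trans ?_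
    rw [av_sum]
    refine (sum_le_card_nsmul _ _ (T * (S.β ^ 2 * ((s + 2) * S.mo (2 * s) / S.ρ)))
      fun jj hjj => ?_).trans ?_
    swap
    · rw [nsmul_eq_mul]; exact mul_le_mul_of_nonneg_right hoff (by positivity)
    have hne := (mem_offDiag.mp hjj).2.2
    set R := (univ.erase jj.1).erase jj.2 with hR
    have hRs : R.card ≤ s := card_le_univ _
    have b1 : ∀ x, ∑ π ∈ Ω.filter (fun π => π jj.1 = π jj.2), ∏ j, S.t i (π j) (x + v j) ≤
        ∑ q ∈ (S.P i).filter (fun p : ℕ => (p : ℤ) ∣ v jj.1 - v jj.2),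
          S.β ^ 2 * ((if (q : ℤ) ∣ x + v jj.1 then S.ρ else 0) +
            S.ρ⁻¹ * (1 + ∑ k ∈ R, S.X i (x + v k) ^ (2 * s))) := by
      intro x
      rw [hΩ, coinc (a := fun k p => S.t i p (x + v k)) _ hne,
        sum_filter]
      refine sum_le_sum fun q hq => ?_
      have z0 : 0 ≤ ∏ k ∈ R, S.X i (x + v k) := prod_nonneg fun k _ => S.X_nonneg _ _
      have z1 : (∏ k ∈ R, S.X i (x + v k)) ^ 2 ≤ 1 + ∑ k ∈ R, S.X i (x + v k) ^ (2 * s) := by
        have := prod_le_one_add R (a := fun k => S.X i (x + v k) ^ 2) (fun k _ => sq_nonneg _) hRs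
        simpa only [prod_pow, pow_mul] using this
      change _ * _ * ∏ k ∈ R, S.X i (x + v k) ≤ _
      generalize ∏ k ∈ R, S.X i (x + v k) = Z at z0 z1 ⊢
      generalize 1 + ∑ k ∈ R, S.X i (x + v k) ^ (2 * s) = W at z1 ⊢
      have hW : 0 ≤ W := (sq_nonneg _).trans z1
      unfold t
      by_cases c1 : (q : ℤ) ∣ x + v jj.1
      · by_cases c2 : (q : ℤ) ∣ x + v jj.2
        · have c3 : (q : ℤ) ∣ v jj.1 - v jj.2 := by simpa using dvd_sub c1 c2
          rw [if_pos c1, if_pos c2, if_pos c3, if_pos c1]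
          have d0 : 0 ≤ S.w i q * q := mul_nonneg (S.w0 i q hq) (Nat.cast_nonneg _)
          have d1 : S.w i q * q * (S.w i q * q) ≤ S.β ^ 2 := by
            rw [sq]; exact mul_le_mul (S.wβ i q hq) (S.wβ i q hq) d0 (by linarith)
          have d2 : Z ≤ S.ρ + S.ρ⁻¹ * W := by
            have : S.ρ * Z ≤ S.ρ * (S.ρ + S.ρ⁻¹ * W) := by
              rw [mul_add, ← mul_assoc, mul_inv_cancel₀ hρ.ne', one_mul]
              nlinarith [sq_nonneg (S.ρ - Z)]
            exact le_of_mul_le_mul_left this hρ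
          exact mul_le_mul d1 d2 z0 (by positivity)
        · rw [if_neg c2, mul_zero, zero_mul]; split_ifs <;> positivity
      · rw [if_neg c1, zero_mul, zero_mul]; split_ifs <;> positivity
    refine (av_mono b1).trans ?_
    rw [av_sum]
    refine (sum_le_card_nsmul _ _ (S.β ^ 2 * ((s + 2) * S.mo (2 * s) / S.ρ)) fun q hq => ?_).trans ?_
    swap
    · rw [nsmul_eq_mul]
      exact mul_le_mul_of_nonneg_right (by exact_mod_cast hT _ _ hne) (by positivity)
    have hq' := (mem_filter.mp hq).1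
    rw [av_smul, av_add, av_ite (S.prime _ _ hq').pos S.D_pos (S.dvd_D hq'), av_smul, av_add,
      av_const S.D_pos, av_sum]
    refine mul_le_mul_of_nonneg_left ?_ (by positivity)
    have c1 : ∑ k ∈ R, av S.D (fun x => S.X i (x + v k) ^ (2 * s)) ≤ s * S.mo (2 * s) := by
      refine (sum_le_card_nsmul _ _ _ fun k _ => S.av_X_pow i _ _).trans ?_
      rw [nsmul_eq_mul]
      exact mul_le_mul_of_nonneg_right (by exact_mod_cast hRs) (by linarith)
    have c2 : S.ρ / q ≤ S.ρ⁻¹ := by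
      rw [div_le_iff₀ (by exact_mod_cast (S.prime _ _ hq').pos), le_inv_mul_iff₀ hρ, ← sq]
      exact S.lo _ _ hq'
    have c3 : S.ρ⁻¹ * (1 + ∑ k ∈ R, av S.D (fun x => S.X i (x + v k) ^ (2 * s))) ≤
        S.ρ⁻¹ * (1 + s * S.mo (2 * s)) := by gcongr
    have c4 : 0 < S.ρ⁻¹ := by positivity
    rw [div_eq_mul_inv _ S.ρ]
    simp only [zero_add, sub_zero]
    nlinarith
  have f1 : s ^ 2 * (S.β / S.ρ) + s ^ 2 * (T * (S.β ^ 2 * ((s + 2) * S.mo (2 * s) / S.ρ))) ≤
      S.eps s T := by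
    unfold eps
    have g1 : (s : ℝ) ^ 2 ≤ (s + 2) ^ 2 := by gcongr; linarith
    have g2 : S.β ≤ S.β ^ 2 * ((s + 2) * S.mo (2 * s)) := by
      have : (1 : ℝ) ≤ (s + 2) * S.mo (2 * s) :=
        one_le_mul_of_one_le_of_one_le (by linarith [Nat.cast_nonneg (α := ℝ) s]) hmo
      nlinarith
    calc _ = s ^ 2 * (S.β + T * (S.β ^ 2 * ((s + 2) * S.mo (2 * s)))) / S.ρ := by ring
      _ ≤ (s + 2) ^ 2 * (S.β ^ 2 * ((s + 2) * S.mo (2 * s)) +
          T * (S.β ^ 2 * ((s + 2) * S.mo (2 * s)))) / S.ρ := by gcongr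
      _ = _ := by ring
  have f2 : 0 ≤ (s : ℝ) ^ 2 * (S.β / S.ρ) := by positivity
  have f3 : 0 ≤ (s : ℝ) ^ 2 * (T * (S.β ^ 2 * ((s + 2) * S.mo (2 * s) / S.ρ))) := by positivity
  rw [e, av_add, a1, abs_le]
  constructor <;> linarith

omit [Fintype ι] in
theorem eps_nonneg (s T : ℕ) : 0 ≤ S.eps s T := by
  have := S.one_le_mo (2 * s)
  have := S.ρ1
  unfold eps; positivity

omit [Fintype ι] in
theorem mo_mono {r r' : ℕ} (h : r ≤ r') : S.mo r ≤ S.mo r' := by
  have := S.β1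
  unfold mo
  gcongr

omit [Fintype ι] in
theorem eps_mono {s s' : ℕ} (h : s ≤ s') (T : ℕ) : S.eps s T ≤ S.eps s' T := by
  have := S.one_le_mo (2 * s)
  have := S.ρ1
  have := S.mo_mono (Nat.mul_le_mul_left 2 h)
  unfold eps
  gcongr

omit [Fintype ι] in
theorem card_dvd_le (i) {d : ℤ} (hd : d ≠ 0) {T : ℕ} (hT : |d| ≤ 2 ^ T) :
    ((S.P i).filter fun p : ℕ => (p : ℤ) ∣ d).card ≤ T := by
  set F := (S.P i).filter fun p : ℕ => (p : ℤ) ∣ d with hF
  have h1 : ∏ p ∈ F, p ∣ d.natAbs := Finset.prod_primes_dvd _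
    (fun p hp => (S.prime i p (mem_filter.mp hp).1).prime)
    fun p hp => Int.natCast_dvd.mp (mem_filter.mp hp).2
  have h2 : 2 ^ F.card ≤ ∏ p ∈ F, p :=
    pow_card_le_prod _ _ _ fun p hp => (S.prime i p (mem_filter.mp hp).1).two_le
  have h3 : d.natAbs ≤ 2 ^ T := by
    have : ((d.natAbs : ℕ) : ℤ) ≤ ((2 ^ T : ℕ) : ℤ) := by rw [Int.natCast_natAbs]; exact_mod_cast hT
    exact_mod_cast this
  exact (Nat.pow_le_pow_iff_right (by norm_num)).mp
    (h2.trans ((Nat.le_of_dvd (Int.natAbs_pos.mpr hd) h1).trans h3))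

/-- correlations of distinct shifts of the divisor weight -/
theorem corr {J : Type*} (s : Finset J) (v : J → ℤ) {T r : ℕ} (hr : s.card ≤ r)
    (hv : ∀ j ∈ s, ∀ j' ∈ s, j ≠ j' → v j ≠ v j' ∧ |v j - v j'| ≤ 2 ^ T)
    (hε : Fintype.card ι * S.eps r T ≤ 1) (Y : ℕ) :
    |∑ x ∈ range Y, ∏ j ∈ s, S.nu (x + v j) - Y| ≤
      Y * (2 * (Fintype.card ι * S.eps r T)) + S.AA ^ (2 * r) := by
  classical
  have h1 := (S.interval s v Y).trans (pow_le_pow_right₀ S.one_le_AA (Nat.mul_le_mul_left 2 hr))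
  have h2 : ∀ i, |av S.D (fun x => ∏ j ∈ s, S.X i (x + v j)) - 1| ≤ S.eps r T := by
    intro i
    have := S.group_corr i (J := s) (fun j => v j) (T := T) fun j j' h => by
      obtain ⟨a, b⟩ := hv j j.2 j' j'.2 fun e => h (Subtype.ext e)
      exact S.card_dvd_le i (sub_ne_zero.mpr a) b
    simp only [fun x => prod_coe_sort s fun j => S.X i (x + v j), Fintype.card_coe] at this
    exact this.trans (S.eps_mono hr T)
  have h3 := Finset.norm_prod_one_add_sub_one_le univ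
    fun i => av S.D (fun x => ∏ j ∈ s, S.X i (x + v j)) - 1
  simp only [add_sub_cancel, Real.norm_eq_abs] at h3
  rw [← S.av_prod_nu] at h3
  have h4 : ∑ i, |av S.D (fun x => ∏ j ∈ s, S.X i (x + v j)) - 1| ≤
      Fintype.card ι * S.eps r T := by
    simpa using sum_le_card_nsmul univ _ _ fun i _ => h2 i
  have h0 : 0 ≤ Fintype.card ι * S.eps r T := mul_nonneg (Nat.cast_nonneg _) (S.eps_nonneg _ _)
  have h5 := (le_abs_self _).trans (Real.abs_exp_sub_one_le (x := Fintype.card ι * S.eps r T)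
    (by rwa [abs_of_nonneg h0]))
  rw [abs_of_nonneg h0] at h5
  have h6 := Real.exp_le_exp.mpr h4
  have h7 : |av S.D (fun x => ∏ j ∈ s, S.nu (x + v j)) - 1| ≤ 2 * (Fintype.card ι * S.eps r T) := by
    linarith
  have hY : (0 : ℝ) ≤ Y := Nat.cast_nonneg _
  have h8 := mul_le_mul_of_nonneg_left (abs_le.mp h7).1 hY
  have h9 := mul_le_mul_of_nonneg_left (abs_le.mp h7).2 hY
  rw [abs_le] at h1 ⊢
  constructor <;> linarith [h1.1, h1.2]

end Sys

end Pool.Agent.P.MP_a14ce1_nt.Nil.EL
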