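import Pool.Agent.P.MP_a14ce1_nt.Nil.EL

/-! Removing the divisor weight from logarithmic averages of piecewise structured functions. -/

namespace Pool.Agent.P.MP_a14ce1_nt.Nil.EL

open Finset

set_option linter.dupNamespace false

/-- from sums over blocks to sums with a decreasing weight -/
theorem w_blocks {g : ℕ → ℂ} {ω : ℕ → ℝ} {Y N y0 : ℕ} (hY : 0 < Y) {δ C : ℝ} (hδ : 0 ≤ δ)
    (h0 : ∀ n, y0 ≤ n → 0 ≤ ω n) (hω : ∀ a b, y0 ≤ a → a ≤ b → ω b ≤ ω a)
    (h1 : ∀ y, y0 ≤ y → y + Y ≤ N → ‖∑ x ∈ range Y, g (y + x)‖ ≤ δ * Y)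
    (h2 : ∀ y, ∑ x ∈ range Y, ‖g (y + x)‖ ≤ C * Y) {y : ℕ} (hy : y0 ≤ y) :
    ‖∑ n ∈ Ico y N, g n * ω n‖ ≤ δ * ∑ n ∈ Ico y N, ω n + (δ + C) * Y * ω y := by
  have hY' : (0 : ℝ) < Y := by exact_mod_cast hY
  have hC : 0 ≤ C := nonneg_of_mul_nonneg_left
    ((sum_nonneg fun _ _ => norm_nonneg _).trans (h2 0)) hY'
  induction hd : N - y using Nat.strong_induction_on generalizing y with
  | _ d ih =>
  have a0 := h0 y hy
  rcases le_or_gt (y + Y) N with h | h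
  · have a1 := ih (N - (y + Y)) (by omega) (y := y + Y) (by omega) rfl
    have a2 := hω y (y + Y) hy (by omega)
    have a3 : ‖∑ n ∈ Ico y (y + Y), g n * ω n‖ ≤ δ * Y * ω y + C * Y * (ω y - ω (y + Y)) := by
      rw [sum_Ico_eq_sum_range, Nat.add_sub_cancel_left]
      have e : ∑ x ∈ range Y, g (y + x) * ω (y + x) = (∑ x ∈ range Y, g (y + x)) * ω y -
          ∑ x ∈ range Y, g (y + x) * ((ω y - ω (y + x) : ℝ) : ℂ) := by
        rw [sum_mul, ← sum_sub_distrib]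
        exact sum_congr rfl fun x _ => by push_cast; ring
      rw [e]
      refine (norm_sub_le _ _).trans (add_le_add ?_ ((norm_sum_le _ _).trans ?_))
      · rw [norm_mul, Complex.norm_real, Real.norm_of_nonneg a0]
        exact mul_le_mul_of_nonneg_right (h1 y hy h) a0
      · refine le_trans ?_ (mul_le_mul_of_nonneg_right (h2 y) (sub_nonneg.mpr a2))
        rw [sum_mul]
        refine sum_le_sum fun x hx => ?_
        have := hω (y + x) (y + Y) (by omega) (by have := mem_range.mp hx; omega)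
        rw [norm_mul, Complex.norm_real,
          Real.norm_of_nonneg (sub_nonneg.mpr (hω y (y + x) hy (by omega)))]
        gcongr
    have a4 : Y * ω (y + Y) ≤ ∑ n ∈ Ico y (y + Y), ω n := by
      simpa using card_nsmul_le_sum (Ico y (y + Y)) ω (ω (y + Y)) fun n hn =>
        hω n _ (hy.trans (mem_Ico.mp hn).1) (mem_Ico.mp hn).2.le
    have a5 := mul_le_mul_of_nonneg_left a4 hδ
    rw [← sum_Ico_consecutive _ (Nat.le_add_right y Y) h,
      ← sum_Ico_consecutive _ (Nat.le_add_right y Y) h]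
    refine (norm_add_le _ _).trans ((add_le_add a3 a1).trans ?_)
    linarith
  · have b1 : 0 ≤ ∑ n ∈ Ico y N, ω n := sum_nonneg fun n hn => h0 n (hy.trans (mem_Ico.mp hn).1)
    have b2 : ‖∑ n ∈ Ico y N, g n * ω n‖ ≤ C * Y * ω y := by
      refine (norm_sum_le _ _).trans (le_trans ?_ (mul_le_mul_of_nonneg_right (h2 y) a0))
      rw [sum_mul, sum_Ico_eq_sum_range]
      refine (sum_le_sum fun x _ => ?_).trans (sum_le_sum_of_subset_of_nonneg
        (range_mono (by omega : N - y ≤ Y)) fun _ _ _ => by positivity)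
      rw [norm_mul, Complex.norm_real, Real.norm_of_nonneg (h0 _ (by omega))]
      gcongr
      exact hω _ _ hy (by omega)
    have := mul_nonneg hδ b1
    have := mul_nonneg (mul_nonneg hδ hY'.le) a0
    linarith

/-- windows that meet two cells of a partition into intervals are rare -/
theorem card_jump {c : ℕ → ℕ} (hc : Monotone c) (y Y H : ℕ) {D : ℝ}
    (hD : ∀ a, (c (a + Y) : ℝ) ≤ c a + D) :
    (((range Y).filter fun x => c (y + x) ≠ c (y + x + H)).card : ℝ) ≤ H * D := by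
  have e : ∑ x ∈ range Y, (c (y + x + H) : ℝ) + ∑ x ∈ range H, (c (y + x) : ℝ) =
      ∑ x ∈ range H, (c (y + x + Y) : ℝ) + ∑ x ∈ range Y, (c (y + x) : ℝ) := by
    have e1 := sum_range_add (fun x => (c (y + x) : ℝ)) Y H
    have e2 := sum_range_add (fun x => (c (y + x) : ℝ)) H Y
    rw [add_comm Y H, e2] at e1
    simp only [add_comm Y, add_comm H, ← add_assoc] at e1
    linarith
  have h1 : (((range Y).filter fun x => c (y + x) ≠ c (y + x + H)).card : ℝ) ≤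
      ∑ x ∈ range Y, ((c (y + x + H) : ℝ) - c (y + x)) := by
    rw [card_filter]
    push_cast
    refine sum_le_sum fun x _ => ?_
    have h2 := hc (Nat.le_add_right (y + x) H)
    split_ifs with h
    · have : c (y + x) + 1 ≤ c (y + x + H) := lt_of_le_of_ne h2 h
      have : (c (y + x) : ℝ) + 1 ≤ c (y + x + H) := by exact_mod_cast this
      linarith
    · exact sub_nonneg.mpr (by exact_mod_cast h2)
  have h3 : ∑ x ∈ range H, (c (y + x + Y) : ℝ) ≤ ∑ x ∈ range H, ((c (y + x) : ℝ) + D) :=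
    sum_le_sum fun x _ => hD _
  rw [sum_add_distrib, sum_const, card_range, nsmul_eq_mul] at h3
  rw [sum_sub_distrib] at h1
  linarith

/-- on the window `[x, x + H)` the function `Φ` does not correlate with uniform functions -/
def TestN (k H : ℕ) (κ κ' : ℝ) (Φ : ℕ → ℂ) (x : ℕ) : Prop :=
  ∀ φ : ℕ → ℂ, (∀ n, ‖φ n‖ ≤ 1) → V.cube k φ x H ≤ κ' →
    ‖∑ n ∈ Ico x (x + H), φ n * Φ n‖ ≤ κ * H

theorem sum_int_Ico (H : ℕ) (g : ℤ → ℂ) : ∑ n ∈ Ico (0 : ℤ) H, g n = ∑ n ∈ range H, g n := by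
  symm
  refine sum_bij (fun n _ => (n : ℤ)) (fun n hn => ?_) (fun a _ b _ h => by exact_mod_cast h)
    (fun n hn => ⟨n.toNat, ?_, ?_⟩) fun _ _ => rfl
  all_goals simp only [mem_range, mem_Ico] at *; omega

theorem TestN.test {k H : ℕ} (hH : 0 < H) {κ κ' : ℝ} {Φ : ℕ → ℂ} {x : ℕ}
    (h : TestN k H κ κ' Φ x) : Test k H κ κ' fun n => Φ (x + n.toNat) := by
  intro φ h1 h2 h3
  have e : V.win (fun m => φ (m - x)) x H = φ := by
    funext n
    unfold V.win
    split_ifs with hn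
    · exact congrArg φ (by omega)
    · by_contra hc
      exact hn (h2 n (Ne.symm hc))
  have := h (fun m => φ (m - x)) (fun _ => h1 _) (by
    rw [V.cube, e, div_le_iff₀ (by positivity)]; exact h3)
  rw [sum_Ico_eq_sum_range, Nat.add_sub_cancel_left] at this
  rw [sum_int_Ico]
  simpa using this

namespace Sys

variable {ι : Type*} [Fintype ι] (S : Sys ι)

theorem first (v : ℤ) (L : ℕ) : ∑ x ∈ range L, S.nu (x + v) ≤ L + S.AA ^ 2 := by
  have h1 := S.interval ({()} : Finset Unit) (fun _ => v) L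
  have h2 : ∀ i, av S.D (fun x => S.X i (x + v)) = 1 := fun i => by
    unfold X; rw [av_sum, ← S.w1 i]; exact sum_congr rfl fun p hp => S.av_t hp v
  rw [S.av_prod_nu] at h1
  simp only [prod_singleton, h2, prod_const_one, card_singleton, mul_one] at h1
  linarith [(abs_le.mp h1).2]

theorem l1 {Φ : ℕ → ℂ} (h1 : ∀ n, ‖Φ n‖ ≤ 1) (y L : ℕ) :
    ∑ x ∈ range L, ‖((S.nu (y + x : ℕ) - 1 : ℝ) : ℂ) * Φ (y + x)‖ ≤ 2 * L + S.AA ^ 2 := by
  have h2 := S.first y L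
  have h3 : ∀ x ∈ range L, ‖((S.nu (y + x : ℕ) - 1 : ℝ) : ℂ) * Φ (y + x)‖ ≤ S.nu (x + y) + 1 := by
    intro x _
    have := S.nu_nonneg (x + y)
    rw [norm_mul, Complex.norm_real, Nat.cast_add, add_comm (y : ℤ)]
    refine (mul_le_of_le_one_right (norm_nonneg _) (h1 _)).trans (abs_le.mpr ⟨?_, ?_⟩) <;> linarith
  refine (sum_le_sum h3).trans ?_
  simp only [sum_add_distrib, sum_const, card_range, nsmul_eq_mul, mul_one]
  linarith

theorem block {k H : ℕ} (hH : 0 < H) {B κ κ' : ℝ} (hB : 1 ≤ B) (hκ : 0 ≤ κ) (hκ' : 0 < κ')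
    {Φ : ℕ → ℂ} (h1 : ∀ n, ‖Φ n‖ ≤ 1) (Bad : ℕ → Prop) [DecidablePred Bad] (y Y : ℕ)
    (hΦ : ∀ x < Y, ¬Bad (y + x) → TestN k H κ κ' Φ (y + x)) :
    ‖∑ x ∈ range Y, ((S.nu (y + x : ℕ) - 1 : ℝ) : ℂ) * Φ (y + x)‖ ≤
      ∑ x ∈ range Y, S.err k H B κ κ' (x + y) +
        (B + 1) * ((range Y).filter fun x => Bad (y + x)).card + 2 * (2 * H + S.AA ^ 2) := by
  have hH' : (0 : ℝ) < H := by exact_mod_cast hH
  set g : ℕ → ℂ := fun n => ((S.nu n - 1 : ℝ) : ℂ) * Φ n with hg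
  have a1 : ∀ n ∈ range H, ‖∑ x ∈ range Y, g (y + x) - ∑ x ∈ range Y, g (y + x + n)‖ ≤
      2 * (2 * H + S.AA ^ 2) := by
    intro n hn
    have hn' : (n : ℝ) ≤ H := by exact_mod_cast (mem_range.mp hn).le
    have e1 := sum_range_add (fun x => g (y + x)) Y n
    have e2 := sum_range_add (fun x => g (y + x)) n Y
    rw [add_comm Y n, e2] at e1
    have e : ∑ x ∈ range Y, g (y + x) - ∑ x ∈ range Y, g (y + x + n) =
        ∑ x ∈ range n, g (y + x) - ∑ x ∈ range n, g (y + Y + x) := by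
      simp only [add_comm n, ← add_assoc] at e1
      linear_combination -e1
    rw [e]
    have b1 := (norm_sum_le _ _).trans (S.l1 h1 y n)
    have b2 := (norm_sum_le _ _).trans (S.l1 h1 (y + Y) n)
    refine (norm_sub_le _ _).trans ((add_le_add b1 b2).trans ?_)
    linarith
  have a2 : ∀ x ∈ range Y, ‖∑ n ∈ range H, g (y + x + n)‖ ≤
      H * (S.err k H B κ κ' (x + y) + (B + 1) * if Bad (y + x) then 1 else 0) := by
    intro x hx
    split_ifs with h
    · have b1 : ∀ n ∈ range H, ‖g (y + x + n)‖ ≤ S.tail B (x + y + n) + (B + 1) := by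
        intro n _
        have := S.nu_nonneg (x + y + n)
        have := min_le_right (S.nu (x + y + n)) B
        simp only [hg]
        rw [norm_mul, Complex.norm_real, Nat.cast_add, Nat.cast_add, add_comm (y : ℤ), tail]
        refine (mul_le_of_le_one_right (norm_nonneg _) (h1 _)).trans (abs_le.mpr ⟨?_, ?_⟩) <;>
          linarith
      refine (norm_sum_le _ _).trans ((sum_le_sum b1).trans ?_)
      have b2 : ∑ n ∈ range H, S.tail B (x + y + n) = ∑ n ∈ Ico (0 : ℤ) H, S.tail B (x + y + n) := by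
        exact_mod_cast (sum_int_Ico H fun n => (S.tail B (x + y + n) : ℂ)).symm
      have b3 := U_nonneg k (wn (S.tr B) (x + y) H)
      have b4 : 0 ≤ H * (B * κ + B / κ' * (U k (wn (S.tr B) (x + y) H) / (H : ℝ) ^ (k + 2))) := by
        positivity
      rw [sum_add_distrib, b2, sum_const, card_range, nsmul_eq_mul, err, mul_one, mul_add, mul_add,
        mul_add, mul_div_cancel₀ _ hH'.ne']
      linarith
    · have := S.test_le hH hB hκ hκ' (fun _ _ => h1 _) ((hΦ x (mem_range.mp hx) h).test hH) (x + y)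
      rw [sum_int_Ico] at this
      simpa [hg, add_comm (y : ℤ)] using this
  have a3 : (H : ℂ) * ∑ x ∈ range Y, g (y + x) = ∑ x ∈ range Y, ∑ n ∈ range H, g (y + x + n) +
      ∑ n ∈ range H, (∑ x ∈ range Y, g (y + x) - ∑ x ∈ range Y, g (y + x + n)) := by
    rw [sum_sub_distrib, sum_comm]; simp
  refine le_of_mul_le_mul_left ?_ hH'
  have a4 := (norm_add_le _ _).trans (add_le_add ((norm_sum_le _ _).trans (sum_le_sum a2))
    ((norm_sum_le _ _).trans (sum_le_sum a1)))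
  rw [← a3, norm_mul, Complex.norm_natCast, ← mul_sum, sum_add_distrib, ← mul_sum, sum_const,
    card_range, nsmul_eq_mul, ← mul_add] at a4
  rw [card_filter, Nat.cast_sum]
  simpa only [Nat.cast_ite, Nat.cast_one, Nat.cast_zero] using a4

/-- one scale `Q`: the average of the error -/
theorem sum_err_Q (k E : ℕ) {H T Y : ℕ} {Q : ℝ} (hQ : 2 ≤ Q) (hc : 2 ^ 2 ^ (k + 1) * ck k ≤ Q)
    (hm : S.mo (2 ^ (k + 1) + (E + 4)) ^ Fintype.card ι ≤ Q)
    (hε : Fintype.card ι * S.eps (2 ^ (k + 1)) T * Q ^ (E + 3) ≤ 1)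
    (hH : Q ^ (E + 4) ≤ H) (hT : H ≤ 2 ^ T)
    (hA : S.AA ^ (2 * (2 ^ (k + 1) + (E + 4))) * Q ^ (E + 3) ≤ Y) (y : ℤ) :
    ∑ x ∈ range Y, S.err k H Q (1 / Q ^ 2) (1 / Q ^ E) (x + y) ≤ 7 / Q * Y := by
  have hQ1 : 1 ≤ Q := by linarith
  have hQ0 : 0 < Q := by linarith
  have hH0 : (0 : ℝ) < H := lt_of_lt_of_le (by positivity) hH
  have hε0 : 0 ≤ Fintype.card ι * S.eps (2 ^ (k + 1)) T :=
    mul_nonneg (Nat.cast_nonneg _) (S.eps_nonneg _ _)
  have hP : 1 ≤ Q ^ (E + 3) := one_le_pow₀ hQ1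
  refine (S.sum_err k (by exact_mod_cast hH0) hT ((le_mul_of_one_le_right hε0 hP).trans hε) hQ1 _
    (by positivity) (E + 4) y Y).trans ?_
  have a1 : S.mo (2 ^ (k + 1)) ^ Fintype.card ι ≤ Q := (pow_le_pow_left₀
    (zero_le_one.trans (S.one_le_mo _)) (S.mo_mono (Nat.le_add_right _ _)) _).trans hm
  have a2 : S.AA ^ (2 * 2 ^ (k + 1)) ≤ S.AA ^ (2 * (2 ^ (k + 1) + (E + 4))) :=
    pow_le_pow_right₀ S.one_le_AA (by omega)
  have a0 : 0 ≤ S.AA ^ (2 * (2 ^ (k + 1) + (E + 4))) := pow_nonneg (zero_le_one.trans S.one_le_AA) _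
  have hY : (0 : ℝ) ≤ Y := Nat.cast_nonneg _
  have a3 : S.AA ^ (2 * (2 ^ (k + 1) + (E + 4))) ≤ Y / Q ^ (E + 3) := by
    rwa [le_div_iff₀ (by positivity)]
  have a4 : S.Th Q (2 ^ (k + 1)) (E + 4) Y ≤ 2 * (Y / Q ^ (E + 3)) := by
    have b1 := (le_mul_of_one_le_right a0 hP).trans hA
    have b2 := mul_le_mul_of_nonneg_left hm hY
    have b3 := le_mul_of_one_le_right hY hQ1
    unfold Th
    rw [div_le_iff₀ (by positivity)]
    calc _ ≤ 2 * (Y * Q) := by linarith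
      _ = _ := by field_simp; ring
  have a5 : Fintype.card ι * S.eps (2 ^ (k + 1)) T ≤ 1 / Q ^ (E + 3) := by
    rwa [le_div_iff₀ (by positivity)]
  have a6 : S.mo (2 ^ (k + 1)) ^ Fintype.card ι / H ≤ 1 / Q ^ (E + 3) :=
    calc _ ≤ Q / Q ^ (E + 4) := by gcongr
      _ = _ := by field_simp; ring
  have a7 : 2 * (Y / Q ^ (E + 3)) ≤ Y / Q := by
    have : Q * 2 ≤ Q ^ (E + 3) := by
      refine le_trans ?_ (pow_le_pow_right₀ hQ1 (by omega : 2 ≤ E + 3))
      rw [sq]; gcongr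
    calc _ ≤ 2 * (Y / (Q * 2)) := by gcongr
      _ = _ := by field_simp
  have := ck_pos k
  have := S.one_le_mo (2 ^ (k + 1))
  have := S.one_le_AA
  have a8 : 0 ≤ S.Th Q (2 ^ (k + 1)) (E + 4) Y := by
    have := S.one_le_mo (2 ^ (k + 1) + (E + 4))
    unfold Th; positivity
  calc _ ≤ Y * (Q * (1 / Q ^ 2)) + Q / (1 / Q ^ E) * (Q * (Y * (1 / Q ^ (E + 3) + 1 / Q ^ (E + 3)) +
        Y / Q ^ (E + 3) + 2 * (Y / Q ^ (E + 3)))) + Y / Q := by
        gcongr
        · exact a2.trans a3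
        · exact a4.trans a7
    _ = _ := by field_simp; ring

/-- one scale `Q`, decreasing weights -/
theorem el_Q (k E : ℕ) {H T Y n0 : ℕ} {Q : ℝ} (hQ : 2 ≤ Q)
    (hc : 2 ^ 2 ^ (k + 1) * ck k ≤ Q) (hm : S.mo (2 ^ (k + 1) + (E + 4)) ^ Fintype.card ι ≤ Q)
    (hε : Fintype.card ι * S.eps (2 ^ (k + 1)) T * Q ^ (E + 3) ≤ 1)
    (hH : Q ^ (E + 4) ≤ H) (hT : H ≤ 2 ^ T)
    (hA : S.AA ^ (2 * (2 ^ (k + 1) + (E + 4))) * Q ^ (E + 3) ≤ Y) (hY : H * Q ≤ Y)
    {Φ : ℕ → ℂ} (h1 : ∀ n, ‖Φ n‖ ≤ 1) (Bad : ℕ → Prop) [DecidablePred Bad]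
    (hb : ∀ y, (((range Y).filter fun x => Bad (y + x)).card : ℝ) ≤ 4 / Q ^ 2 * Y)
    (hΦ : ∀ x, ¬Bad x → TestN k H (1 / Q ^ 2) (1 / Q ^ E) Φ x) {ω : ℕ → ℝ}
    (h0 : ∀ n, n0 ≤ n → 0 ≤ ω n) (hω : ∀ a b, n0 ≤ a → a ≤ b → ω b ≤ ω a) (N : ℕ) :
    ‖∑ n ∈ Ico n0 N, ((S.nu n - 1 : ℝ) : ℂ) * Φ n * ω n‖ ≤
      20 / Q * ∑ n ∈ Ico n0 N, ω n + 13 * Y * ω n0 := by
  have hQ1 : 1 ≤ Q := by linarith
  have hQ0 : 0 < Q := by linarith
  have hH0 : (0 : ℝ) < H := lt_of_lt_of_le (by positivity) hH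
  have hY0 : (0 : ℝ) < Y := lt_of_lt_of_le (by positivity) hY
  have hA1 := S.one_le_AA
  have a1 : S.AA ^ 2 * Q ≤ Y := le_trans (mul_le_mul (pow_le_pow_right₀ hA1
    (Nat.le_mul_of_pos_right _ (by positivity))) (le_self_pow₀ hQ1 (by omega)) hQ0.le
    (by positivity)) hA
  have a2 := (le_mul_of_one_le_right (by positivity) hQ1).trans a1
  have a3 : 2 * (2 * H + S.AA ^ 2) ≤ 7 / Q * Y := by
    rw [div_mul_eq_mul_div, le_div_iff₀ hQ0]; linarith
  have a4 : (Q + 1) * (4 / Q ^ 2 * Y) ≤ 6 / Q * Y := by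
    rw [← mul_assoc]
    gcongr
    rw [← mul_div_assoc, div_le_div_iff₀ (by positivity) hQ0]
    nlinarith
  refine (w_blocks (g := fun n => ((S.nu n - 1 : ℝ) : ℂ) * Φ n) (Y := Y) (C := 3) (δ := 20 / Q)
    (by exact_mod_cast hY0) (by positivity) h0 hω (fun y _ _ => ?_)
    (fun y => (S.l1 h1 y Y).trans (by linarith)) le_rfl).trans ?_
  · refine (S.block (by exact_mod_cast hH0) hQ1 (by positivity) (by positivity) h1 Bad y Y
      fun x _ => hΦ _).trans ?_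
    have a5 := S.sum_err_Q k E hQ hc hm hε hH hT hA y
    have a6 := mul_le_mul_of_nonneg_left (hb y) (by linarith : 0 ≤ Q + 1)
    have e : 20 / Q * Y = 7 / Q * Y + 6 / Q * Y + 7 / Q * Y := by ring
    linarith
  · have := h0 n0 le_rfl
    have : 20 / Q ≤ 10 := by rw [div_le_iff₀ hQ0]; linarith
    gcongr
    linarith

end Sys

end Pool.Agent.P.MP_a14ce1_nt.Nil.EL
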