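import Pool.Agent.P.MP_a14ce1_nt.Nil.ES

/-!
Approximate nearest points, the reset of the constant, minimax without closedness, and weighted
function spaces as inner product spaces.
-/

open Finset
open scoped RealInnerProductSpace

namespace Pool.Agent.P.MP_a14ce1_nt.Nil.ES

section near

variable {E : Type*} [SeminormedAddCommGroup E] [InnerProductSpace ℝ E]

/-- u is an approximate nearest point of y in X -/
def Near (X : Set E) (y u : E) (δ : ℝ) : Prop := u ∈ X ∧ ∀ v ∈ X, ⟪y - u, v - u⟫ ≤ δ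

theorem exists_near {X : Set E} (hX : Convex ℝ X) (hne : X.Nonempty) (hb : ∀ x ∈ X, ‖x‖ ≤ 1)
    (y : E) {δ : ℝ} (hδ : 0 < δ) : ∃ u, Near X y u δ := by
  set t : ℝ := min 1 (δ / 4) with ht
  have t0 : 0 < t := lt_min one_pos (by positivity)
  have t1 : t ≤ 1 := min_le_left _ _
  have t2 : t ≤ δ / 4 := min_le_right _ _
  set S : Set ℝ := (fun v => ‖y - v‖ ^ 2) '' X with hS
  have hbd : BddBelow S := ⟨0, by rintro _ ⟨v, -, rfl⟩; positivity⟩
  obtain ⟨_, ⟨u, hu, rfl⟩, hlt⟩ := exists_lt_of_csInf_lt (hne.image _ : S.Nonempty)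
    (lt_add_of_pos_right (sInf S) (mul_pos t0 hδ))
  refine ⟨u, hu, fun v hv => ?_⟩
  have h1 : sInf S ≤ ‖y - (u + t • (v - u))‖ ^ 2 :=
    csInf_le hbd ⟨_, hX.add_smul_sub_mem hu hv ⟨t0.le, t1⟩, rfl⟩
  have h2 : ‖v - u‖ ≤ 2 := (norm_sub_le _ _).trans (by linarith [hb v hv, hb u hu])
  have h3 : ‖v - u‖ ^ 2 ≤ 4 := by nlinarith [norm_nonneg (v - u)]
  rw [← sub_sub, norm_sub_sq_real, real_inner_smul_right, norm_smul, mul_pow, Real.norm_eq_abs,
    sq_abs] at h1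
  have h4 : t * (2 * ⟪y - u, v - u⟫) ≤ t * (δ + t * 4) := by
    have : t ^ 2 * ‖v - u‖ ^ 2 ≤ t ^ 2 * 4 := by gcongr
    nlinarith
  have := le_of_mul_le_mul_left h4 t0
  linarith

theorem Near.mono {X : Set E} {y u : E} {δ δ' : ℝ} (h : Near X y u δ) (hd : δ ≤ δ') :
    Near X y u δ' := ⟨h.1, fun v hv => (h.2 v hv).trans hd⟩

theorem Near.nonneg {X : Set E} {y u : E} {δ : ℝ} (h : Near X y u δ) : 0 ≤ δ := by
  simpa using h.2 u h.1

theorem Near.pyth {X : Set E} {y u v : E} {δ : ℝ} (h : Near X y u δ) (hv : v ∈ X) :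
    ‖v - u‖ ^ 2 + ‖y - u‖ ^ 2 ≤ ‖y - v‖ ^ 2 + 2 * δ := by
  have e : y - v = (y - u) - (v - u) := by abel
  rw [e, norm_sub_sq_real (y - u)]
  linarith [h.2 v hv]

theorem Near.contr {X : Set E} {y y' u u' : E} {δ δ' : ℝ} (h : Near X y u δ)
    (h' : Near X y' u' δ') : ‖u - u'‖ ^ 2 ≤ ‖y - y'‖ ^ 2 + 2 * (δ + δ') := by
  have a1 := h.2 u' h'.1
  have a2 := h'.2 u h.1
  have e : ⟪y - u, u' - u⟫ + ⟪y' - u', u - u'⟫ = ‖u - u'‖ ^ 2 - ⟪y - y', u - u'⟫ := by
    rw [← real_inner_self_eq_norm_sq, ← neg_sub u u', inner_neg_right, ← inner_neg_left,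
      ← inner_add_left, ← inner_sub_left]
    congr 1
    abel
  have a3 := real_inner_le_norm (y - y') (u - u')
  nlinarith [sq_nonneg (‖y - y'‖ - ‖u - u'‖)]

end near

section reset

variable {E : Type*} [SeminormedAddCommGroup E] [InnerProductSpace ℝ E]
variable {ι : Type*} [Fintype ι] [DecidableEq ι] {C : Finset ι → Set E}

omit [Fintype ι] in
theorem Lift1.mono {ε ε' : ℝ} (h : Lift1 C ε) (he : ε ≤ ε') : Lift1 C ε' := fun S k hk F hF => by
  obtain ⟨F', h1, h2, h3⟩ := h S k hk F hF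
  exact ⟨F', h1, fun G hG => (h2 G hG).trans he, fun j hj G hG => (h3 j hj G hG).trans he⟩

theorem LiftU.mono {ε ε' : ℝ} (h : LiftU C ε) (he : ε ≤ ε') : LiftU C ε' := fun S k F hF => by
  obtain ⟨F', h1, h2⟩ := h S k F hF
  exact ⟨F', h1, fun G hG => (h2 G hG).trans he⟩

theorem Res.mono {F : E} {M : Finset ι → E} {γ γ' : ℝ} (h : Res C F M γ) (he : γ ≤ γ') :
    Res C F M γ' := ⟨h.mem, h.top, fun T T' G hG => (h.gram T T' G hG).trans he⟩

omit [DecidableEq ι] in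
/-- testing against a combination -/
theorem abs_inner_syn_le {x : E} {c : Finset ι → ℝ} {U : Finset ι → E} {a K : ℝ} (ha : 0 ≤ a)
    (hc : ∑ T, |c T| ≤ K) (h : ∀ T, c T ≠ 0 → |⟪x, U T⟫| ≤ a) : |⟪x, syn c U⟫| ≤ K * a := by
  unfold syn
  rw [inner_sum]
  refine (abs_sum_le_sum_abs _ _).trans (le_trans ?_ (mul_le_mul_of_nonneg_right hc ha))
  rw [sum_mul]
  refine sum_le_sum fun T _ => ?_
  rw [real_inner_smul_right, abs_mul]
  by_cases hT : c T = 0
  · simp [hT]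
  · exact mul_le_mul_of_nonneg_left (h T hT) (abs_nonneg _)

/-- nearest points commute with restriction -/
theorem Near.restrict (hC : Cls C) {ε δ K : ℝ} (hε : 0 ≤ ε) (hL : LiftU C ε) {k : ι}
    {c : Finset ι → ℝ} {U : Finset ι → E} (hU : ∀ T, U T ∈ C T) (hk : ∀ T, c T ≠ 0 → k ∉ T)
    (hc : ∑ T, |c T| ≤ K) {u : E} (h : Near (C (univ.erase k)) (syn c U) u δ) :
    Near (C univ) (syn c U) u (δ + (K + 1) * ε) := by
  refine ⟨hC.mono _ _ (subset_univ _) h.1, fun v hv => ?_⟩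
  obtain ⟨v', h1, h2⟩ := hL univ k v hv
  have a1 := h.2 v' h1
  have a2 := h2 u h.1
  have a3 : |⟪v - v', syn c U⟫| ≤ K * ε := abs_inner_syn_le hε hc fun T hT =>
    h2 _ (hC.mono _ _ (subset_erase.2 ⟨subset_univ _, hk T hT⟩) (hU T))
  have e : ⟪syn c U - u, v - u⟫ = ⟪syn c U - u, v' - u⟫ + (⟪v - v', syn c U⟫ - ⟪v - v', u⟫) := by
    rw [← inner_sub_right, real_inner_comm (syn c U - u) (v - v'), ← inner_add_right]
    congr 1
    abel
  linarith [abs_le.1 a2, abs_le.1 a3]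

/-- the total error of the soft steps -/
noncomputable def err (l : ℕ) (ε δ : ℝ) : ℝ :=
  l * (4 * δ + 2 * (4 ^ l + 1) * ε) + 6 * (l + 1) * 16 ^ l * (l * ε + √(6 * l * ε))

/-- the nearest point of a low degree combination with small influences is close to its own low
degree part -/
theorem near_low (hC : Cls C) (hcv : ∀ S, Convex ℝ (C S)) {ε δ : ℝ} (hε : 0 ≤ ε) (hδ : 0 < δ)
    (hL : LiftU C ε) (l0 : ℕ) {U : Finset ι → E} (hU : ∀ T, U T ∈ C T) {α u : E}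
    (hu : Near (C univ) α u δ) :
    ∃ G : Finset ι → E, (∀ T, G T ∈ C T) ∧ ‖u - syn (cf (lo ι l0)) G‖ ^ 2 ≤
      (∑ k, ‖α - syn (cf (lok l0 k)) U‖ ^ 2) / (l0 + 1) + err (Fintype.card ι) ε δ := by
  obtain ⟨M, hM⟩ := hL.res hC hε hu.1
  have h1 : ∀ k : ι, ∃ w, Near (C (univ.erase k)) (syn (cf (lok l0 k)) U) w δ := fun k =>
    exists_near (hcv _) ⟨_, hU _⟩ (hC.bdd _) _ hδ
  choose w hw using h1
  refine ⟨M, hM.mem, (hM.low_close hC l0 w fun k => (hw k).1).trans ?_⟩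
  have h2 : ∀ k, ‖u - w k‖ ^ 2 ≤ ‖α - syn (cf (lok l0 k)) U‖ ^ 2 +
      (4 * δ + 2 * (4 ^ Fintype.card ι + 1) * ε) := fun k => by
    have := hu.contr ((hw k).restrict hC hε hL hU (fun T hT => (cf_lok_ne_zero hT).2)
      (sum_abs_cf_le _))
    linarith
  have h3 : ∑ k, ‖u - w k‖ ^ 2 ≤ ∑ k, ‖α - syn (cf (lok l0 k)) U‖ ^ 2 +
      Fintype.card ι * (4 * δ + 2 * (4 ^ Fintype.card ι + 1) * ε) := by
    refine (sum_le_sum fun k _ => h2 k).trans (le_of_eq ?_)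
    rw [sum_add_distrib, sum_const, card_univ, nsmul_eq_mul]
  have hl : (1 : ℝ) ≤ l0 + 1 := by linarith [Nat.cast_nonneg (α := ℝ) l0]
  have h4 := div_le_div_of_nonneg_right h3 (by positivity : (0 : ℝ) ≤ l0 + 1)
  rw [add_div] at h4
  have h5 : Fintype.card ι * (4 * δ + 2 * (4 ^ Fintype.card ι + 1) * ε) / (l0 + 1 : ℝ) ≤
      Fintype.card ι * (4 * δ + 2 * (4 ^ Fintype.card ι + 1) * ε) :=
    div_le_self (by positivity) hl
  unfold err
  linarith

/-- Reset of the constant. If every low degree test of the given shape is matched by an element of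
the top class, then α is close to the top class. -/
theorem reset (hC : Cls C) (hcv : ∀ S, Convex ℝ (C S)) {ε δ η ζ ρ : ℝ} (hε : 0 ≤ ε) (hδ : 0 < δ)
    (hη : 0 ≤ η) (hρ : 0 ≤ ρ) (hL : LiftU C ε) (l0 : ℕ) {U : Finset ι → E} (hU : ∀ T, U T ∈ C T)
    {α : E}
    (hI : (∑ k, ‖α - syn (cf (lok l0 k)) U‖ ^ 2) / (l0 + 1) + err (Fintype.card ι) ε δ ≤ ρ ^ 2)
    (h2 : ∀ G : Finset ι → E, (∀ T, G T ∈ C T) → ∃ β ∈ C univ,
      ⟪α - β, α - syn (cf (lo ι l0)) G⟫ ≤ η * ‖α - syn (cf (lo ι l0)) G‖ + ζ) :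
    ∃ u ∈ C univ, ‖α - u‖ ^ 2 ≤ η ^ 2 + 2 * (ρ * (η + ‖α‖ + 1) + ζ + δ) := by
  obtain ⟨u, hu⟩ := exists_near (hcv univ) ⟨_, hU _⟩ (hC.bdd _) α hδ
  obtain ⟨G, hG, hG'⟩ := near_low hC hcv hε hδ hL l0 hU hu
  obtain ⟨β, hβ, hβ'⟩ := h2 G hG
  set z := syn (cf (lo ι l0)) G
  have a0 : ‖u - z‖ ≤ ρ := (pow_le_pow_iff_left₀ (norm_nonneg _) hρ two_ne_zero).1 (hG'.trans hI)
  refine ⟨u, hu.1, ?_⟩
  have a1 := hu.2 β hβ
  have a2 : ‖α - z‖ ≤ ‖α - u‖ + ρ := by
    have : α - z = (α - u) + (u - z) := by abel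
    rw [this]
    exact (norm_add_le _ _).trans (by linarith)
  have a3 : |⟪α - β, u - z⟫| ≤ (‖α‖ + 1) * ρ := (abs_real_inner_le_norm _ _).trans
    (mul_le_mul ((norm_sub_le _ _).trans (by linarith [hC.bdd _ β hβ])) a0 (norm_nonneg _)
      (by positivity))
  have e : ‖α - u‖ ^ 2 = ⟪α - u, β - u⟫ + (⟪α - β, α - z⟫ - ⟪α - β, u - z⟫) := by
    rw [← inner_sub_right, real_inner_comm (β - u), sub_sub_sub_cancel_right, ← inner_add_left,
      ← real_inner_self_eq_norm_sq]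
    congr 1
    abel
  have a4 : η * ‖α - z‖ ≤ η * (‖α - u‖ + ρ) := mul_le_mul_of_nonneg_left a2 hη
  nlinarith [abs_le.1 a3, sq_nonneg (‖α - u‖ - η)]

end reset

/-! ### Minimax without closedness -/

theorem minimax {E F : Type*} [TopologicalSpace E] [AddCommGroup E] [Module ℝ E]
    [IsTopologicalAddGroup E] [ContinuousSMul ℝ E] [TopologicalSpace F] [AddCommGroup F]
    [Module ℝ F] [IsTopologicalAddGroup F] [ContinuousSMul ℝ F] [T2Space F]
    {X : Set E} {Y : Set F} (cX : Convex ℝ X) (kX : IsCompact (closure X)) (cY : Convex ℝ Y)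
    (kY : IsCompact (closure Y)) (nY : Y.Nonempty) {f : E → F → ℝ}
    (hf : Continuous fun z : E × F => f z.1 z.2)
    (h1 : ∀ y, ConvexOn ℝ Set.univ fun x => f x y) (h2 : ∀ x, ConcaveOn ℝ Set.univ (f x))
    {ε δ : ℝ} (hδ : 0 < δ) (h : ∀ y ∈ Y, ∃ x ∈ X, f x y ≤ ε) : ∃ x ∈ X, ∀ y ∈ Y, f x y ≤ ε + δ := by
  have c1 : ∀ y, Continuous fun x => f x y := fun y =>
    hf.comp (continuous_id.prodMk continuous_const)
  have c2 : ∀ x, Continuous fun y => f x y := fun x =>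
    hf.comp (continuous_const.prodMk continuous_id)
  have hW : IsClosed (Prod.snd '' ((closure X ×ˢ closure Y) ∩ {z : E × F | f z.1 z.2 ≤ ε})) :=
    (((kX.prod kY).inter_right (isClosed_le hf continuous_const)).image continuous_snd).isClosed
  have hcl : ∀ y ∈ closure Y, ∃ x ∈ X, -(ε + δ) < -f x y := by
    intro y hy
    have : y ∈ Prod.snd '' ((closure X ×ˢ closure Y) ∩ {z : E × F | f z.1 z.2 ≤ ε}) := by
      refine closure_minimal (fun y hy => ?_) hW hy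
      obtain ⟨x, hx, hx'⟩ := h y hy
      exact ⟨(x, y), ⟨⟨subset_closure hx, subset_closure hy⟩, hx'⟩, rfl⟩
    obtain ⟨⟨x, y'⟩, ⟨⟨hx, -⟩, hx'⟩, rfl⟩ := this
    obtain ⟨x', a1, a2⟩ := mem_closure_iff.1 hx {x | f x y' < ε + δ}
      (isOpen_lt (c1 y') continuous_const) (lt_of_le_of_lt hx' (lt_add_of_pos_right _ hδ))
    exact ⟨x', a2, neg_lt_neg a1⟩
  obtain ⟨s, hs⟩ := kY.elim_finite_subcover (fun x : X => {y | -(ε + δ) < -f x y})
    (fun x => isOpen_lt continuous_const (c2 x).neg) (fun y hy => by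
      obtain ⟨x, hx, hx'⟩ := hcl y hy
      exact Set.mem_iUnion.2 ⟨⟨x, hx⟩, hx'⟩)
  obtain ⟨x, hx, hx'⟩ := Sion.exists_lt_iInf_of_lt_iInf_of_finite (X := closure Y) (Y := X)
    (f := fun y x => -f x y) nY.closure kY
    (fun x _ => (c2 x).neg.lowerSemicontinuous.lowerSemicontinuousOn _)
    (fun x _ => ((h2 x).neg.subset (Set.subset_univ _) cY.closure).quasiconvexOn) cX
    (fun y _ => (c1 y).neg.upperSemicontinuous.upperSemicontinuousOn _)
    (fun y _ => ((h1 y).neg.subset (Set.subset_univ _) cX).quasiconcaveOn) cY.closure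
    (s := Subtype.val '' (s : Set X)) (s.finite_toSet.image _)
    (by rintro _ ⟨x, -, rfl⟩; exact x.2) (t := -(ε + δ)) (fun y hy => by
      obtain ⟨x, hx, hx'⟩ := Set.mem_iUnion₂.1 (hs hy)
      exact ⟨x, ⟨x, hx, rfl⟩, hx'⟩)
  exact ⟨x, hx, fun y hy => (neg_lt_neg_iff.1 (hx' y (subset_closure hy))).le⟩

theorem isCompact_closure_bdd {α : Type*} {X : Set (α → ℂ)} (h : ∀ φ ∈ X, ∀ n, ‖φ n‖ ≤ 1) :
    IsCompact (closure X) := by
  have hK : IsCompact (Set.pi Set.univ fun _ : α => Metric.closedBall (0 : ℂ) 1) :=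
    isCompact_univ_pi fun _ => isCompact_closedBall _ _
  refine hK.of_isClosed_subset isClosed_closure (closure_minimal ?_ hK.isClosed)
  intro φ hφ n _
  simpa using h φ hφ n

theorem isCompact_closure_pi {V α : Type*} {Y : V → Set (α → ℂ)}
    (h : ∀ v, ∀ φ ∈ Y v, ∀ n, ‖φ n‖ ≤ 1) : IsCompact (closure (Set.pi Set.univ Y)) := by
  rw [closure_pi_set]
  exact isCompact_univ_pi fun v => isCompact_closure_bdd (h v)

/-! ### Weighted function spaces -/

/-- a finitely supported weight -/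
structure Wt (Ω : Type*) where
  s : Finset Ω
  w : Ω → ℝ
  nn : ∀ x, 0 ≤ w x

/-- real part of the weighted inner product -/
noncomputable def Wt.ip {Ω : Type*} (μ : Wt Ω) (φ ψ : Ω → ℂ) : ℝ :=
  ∑ x ∈ μ.s, μ.w x * (φ x * (starRingEnd ℂ) (ψ x)).re

/-- complex functions with the weighted real inner product -/
def L2 {Ω : Type*} (_μ : Wt Ω) : Type _ := Ω → ℂ

section L2

variable {Ω : Type*} (μ : Wt Ω)

noncomputable instance : AddCommGroup (L2 μ) := inferInstanceAs (AddCommGroup (Ω → ℂ))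

noncomputable instance : Module ℝ (L2 μ) := inferInstanceAs (Module ℝ (Ω → ℂ))

/-- the form as an inner product core -/
@[reducible] noncomputable def L2.core : PreInnerProductSpace.Core ℝ (L2 μ) where
  inner φ ψ := μ.ip φ ψ
  conj_inner_symm φ ψ := by
    simp only [conj_trivial, Wt.ip]
    refine sum_congr rfl fun x _ => ?_
    simp [mul_comm]
  re_inner_nonneg φ := by
    simp only [RCLike.re_to_real, Wt.ip]
    refine sum_nonneg fun x _ => mul_nonneg (μ.nn x) ?_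
    rw [Complex.mul_conj, Complex.ofReal_re]
    exact Complex.normSq_nonneg _
  add_left φ ψ χ := by
    simp only [Wt.ip]
    rw [← sum_add_distrib]
    refine sum_congr rfl fun x _ => ?_
    have : (φ + ψ) x = φ x + ψ x := rfl
    rw [this, add_mul, Complex.add_re, mul_add]
  smul_left φ ψ r := by
    simp only [Wt.ip, conj_trivial]
    rw [mul_sum]
    refine sum_congr rfl fun x _ => ?_
    have : (r • φ) x = (r : ℂ) * φ x := rfl
    rw [this, mul_assoc, Complex.re_ofReal_mul]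
    ring

noncomputable instance : SeminormedAddCommGroup (L2 μ) :=
  @InnerProductSpace.Core.toSeminormedAddCommGroup ℝ (L2 μ) _ _ _ (L2.core μ)

noncomputable instance : InnerProductSpace ℝ (L2 μ) := InnerProductSpace.ofCore (L2.core μ)

theorem L2.inner_eq (φ ψ : L2 μ) : ⟪φ, ψ⟫ = μ.ip φ ψ := rfl

theorem L2.norm_sq (φ : L2 μ) : ‖φ‖ ^ 2 = ∑ x ∈ μ.s, μ.w x * ‖φ x‖ ^ 2 := by
  rw [← real_inner_self_eq_norm_sq, L2.inner_eq, Wt.ip]
  refine sum_congr rfl fun x _ => ?_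
  rw [Complex.mul_conj, Complex.ofReal_re, Complex.normSq_eq_norm_sq]

theorem L2.norm_le_one (hμ : ∑ x ∈ μ.s, μ.w x ≤ 1) (φ : L2 μ) (h : ∀ x ∈ μ.s, ‖φ x‖ ≤ 1) :
    ‖φ‖ ≤ 1 := by
  rw [← sq_le_one_iff₀ (norm_nonneg _), L2.norm_sq]
  refine le_trans (sum_le_sum fun x hx => ?_) hμ
  exact mul_le_of_le_one_right (μ.nn x) (pow_le_one₀ (norm_nonneg _) (h x hx))

theorem L2.sub_apply (φ ψ : L2 μ) (x : Ω) : (φ - ψ) x = φ x - ψ x := rfl

theorem L2.add_apply (φ ψ : L2 μ) (x : Ω) : (φ + ψ) x = φ x + ψ x := rfl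

theorem L2.smul_apply (r : ℝ) (φ : L2 μ) (x : Ω) : (r • φ) x = (r : ℂ) * φ x := rfl

theorem L2.syn_apply {ι : Type*} [Fintype ι] (c : Finset ι → ℝ) (M : Finset ι → L2 μ) (x : Ω) :
    syn c M x = ∑ S, (c S : ℂ) * M S x := by
  unfold syn
  exact Finset.sum_apply x univ fun S => (c S • M S : Ω → ℂ)

end L2

end Pool.Agent.P.MP_a14ce1_nt.Nil.ES
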