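import Pool.Agent.P.MP_a14ce1_nt.Nil.Rig
import Pool.Agent.P.MP_a14ce1_nt.Nil.PigW
import Pool.Agent.P.MP_a14ce1_nt.Nil.Good

/-!
Sequences that are constant modulo an ideal, up to a small and a rational factor, for a dense set
of lattices.
-/

open Filter Finset MvPolynomial

set_option linter.unusedSectionVars false

noncomputable section

namespace Pool.Agent.P.MP_a14ce1_nt.Nil

namespace XA

section alg

variable {FF : Type} [Field FF] [CharZero FF] {ι ι' : Type} [Fintype ι] [DecidableEq ι]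
  [Fintype ι'] [DecidableEq ι'] {K : Subfield FF} {lv : ι → ℕ} {lv' : ι' → ℕ}
  {r n₀ n₁ : Fam K lv ℕ} {D : ℕ}

theorem br_sub {n : Fam K lv ℕ} (a : r.Ide n) {i j} {X X' Y Y' : Matrix ι ι FF} (hX : X ∈ r.r i)
    (hX' : X' ∈ r.r j) (h : Y - X ∈ n.r i) (h' : Y' - X' ∈ n.r j) :
    Y * Y' - Y' * Y - (X * X' - X' * X) ∈ n.r (i + j) := by
  have hY' : Y' ∈ r.r j := by simpa using add_mem (a.le j h') hX'
  have h1 := a.br i j _ hX _ h'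
  have h2 := a.br j i _ hY' _ h
  rw [add_comm j] at h2
  convert sub_mem h1 h2 using 1
  noncomm_ring

/-- Triples whose first two members agree with the third modulo two ideals. -/
def tri (a : r.Ide n₀) (b : r.Ide n₁) : Fam K (Sum.elim (Sum.elim lv lv) lv) ℕ where
  r i :=
    { carrier := {Z | ∃ X ∈ r.r i, ∃ Y Y', Y - X ∈ n₀.r i ∧ Y' - X ∈ n₁.r i ∧ Z = dg (dg Y Y') X}
      add_mem' := by
        rintro _ _ ⟨X, hX, Y, Y', h, h', rfl⟩ ⟨U, hU, V, V', k, k', rfl⟩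
        exact ⟨_, add_mem hX hU, Y + V, Y' + V', by rw [add_sub_add_comm]; exact add_mem h k,
          by rw [add_sub_add_comm]; exact add_mem h' k', by rw [dg_add, dg_add]⟩
      zero_mem' := ⟨0, zero_mem _, 0, 0, by simp, by simp, by rw [dg_zero, dg_zero]⟩
      smul_mem' := by
        rintro c _ ⟨X, hX, Y, Y', h, h', rfl⟩
        exact ⟨_, Submodule.smul_mem _ c hX, c • Y, c • Y',
          by rw [← smul_sub]; exact Submodule.smul_mem _ c h,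
          by rw [← smul_sub]; exact Submodule.smul_mem _ c h', by rw [dg_smul, dg_smul]⟩ }
  up i := by
    rintro _ ⟨X, hX, Y, Y', h, h', rfl⟩
    exact dg_mem_mF.2 ⟨dg_mem_mF.2 ⟨by simpa using add_mem (n₀.up i _ h) (r.up i X hX),
      by simpa using add_mem (n₁.up i _ h') (r.up i X hX)⟩, r.up i X hX⟩
  rat i := by
    rintro φ _ ⟨X, hX, Y, Y', h, h', rfl⟩
    exact ⟨_, r.rat i φ X hX, Y.map φ, Y'.map φ,
      by rw [← Matrix.map_sub _ (map_sub φ)]; exact n₀.rat _ φ _ h,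
      by rw [← Matrix.map_sub _ (map_sub φ)]; exact n₁.rat _ φ _ h',
      by rw [dg_map _ (map_zero φ), dg_map _ (map_zero φ)]⟩
  br i j := by
    rintro _ ⟨X, hX, Y, Y', h, h', rfl⟩ _ ⟨U, hU, V, V', k, k', rfl⟩
    exact ⟨_, r.br i j X hX U hU, _, _, br_sub a hX hU h k, br_sub b hX hU h' k',
      by rw [dg_br, dg_br]⟩

variable {a : r.Ide n₀} {b : r.Ide n₁}

theorem dg_mem_tri {i X Y Y'} : dg (dg Y Y') X ∈ (tri a b).r i ↔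
    X ∈ r.r i ∧ Y - X ∈ n₀.r i ∧ Y' - X ∈ n₁.r i :=
  ⟨fun ⟨_, hX, _, _, h, h', e⟩ => by
    obtain ⟨e', rfl⟩ := dg_inj.1 e
    obtain ⟨rfl, rfl⟩ := dg_inj.1 e'
    exact ⟨hX, h, h'⟩, fun h => ⟨X, h.1, Y, Y', h.2.1, h.2.2, rfl⟩⟩

theorem tri_le : tri a b ≤ (r.prod r).prod r := fun i _ ⟨X, hX, Y, Y', h, h', e⟩ =>
  ⟨_, ⟨Y, by simpa using add_mem (a.le i h) hX, Y', by simpa using add_mem (b.le i h') hX, rfl⟩,
    X, hX, e⟩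

theorem tri_fil (hr : r.Fil D) (h0 : n₀.Fil D) (h1 : n₁.Fil D) : (tri a b).Fil D where
  zero := by
    ext Z
    change (∃ X ∈ r.r 0, ∃ Y Y', Y - X ∈ n₀.r 0 ∧ Y' - X ∈ n₁.r 0 ∧ _) ↔
      ∃ X ∈ r.r 1, ∃ Y Y', Y - X ∈ n₀.r 1 ∧ Y' - X ∈ n₁.r 1 ∧ _
    rw [hr.zero, h0.zero, h1.zero]
  anti i _ := fun ⟨X, hX, Y, Y', h, h', e⟩ =>
    ⟨X, hr.anti i hX, Y, Y', h0.anti i h, h1.anti i h', e⟩
  bd := le_bot_iff.1 (((hr.prod hr).prod hr).bd ▸ tri_le (D + 1))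

theorem tri_kr : (tri a b).kr = n₀.inf n₁ := Fam.ext (funext fun i => Submodule.ext fun X => by
  rw [Fam.mem_kr, ← dg_zero, dg_mem_tri, zero_sub, neg_mem_iff, neg_mem_iff]
  exact and_iff_right_of_imp fun h => a.le i h.1)

theorem mem_tri {x y y' : PS lv Unit FF} (hx : x ∈ (r.fine Unit).PG) (hy : y ∈ (r.fine Unit).PG)
    (hy' : y' ∈ (r.fine Unit).PG) : UT.dg (UT.dg (y, y'), x) ∈ ((tri a b).fine Unit).PG ↔
      x⁻¹ * y ∈ (n₀.fine Unit).PG ∧ x⁻¹ * y' ∈ (n₁.fine Unit).PG := by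
  rw [Fam.fine, Fam.fine, (a.comap _).inv_mul_iff hx hy, Fam.fine, (b.comap _).inv_mul_iff hx hy',
    Fam.mem_PG, ← forall_and]
  refine forall_congr' fun β => ?_
  rw [co_lg_dg, co_lg_dg]
  exact (dg_mem_tri (a := a) (b := b)).trans (and_iff_right (hx β))

theorem fil_kr {k : Fam K (Sum.elim lv' lv) ℕ} (hk : k.Fil D) : k.kr.Fil D where
  zero := by ext X; rw [Fam.mem_kr, Fam.mem_kr, hk.zero]
  anti i _ h := hk.anti i h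
  bd := le_bot_iff.1 (hk.snd.bd ▸ k.kr_le_snd (D + 1))

theorem fil_inf (h0 : n₀.Fil D) (h1 : n₁.Fil D) : (n₀.inf n₁).Fil D where
  zero := congrArg₂ (· ⊓ ·) h0.zero h1.zero
  anti i := inf_le_inf (h0.anti i) (h1.anti i)
  bd := le_bot_iff.1 (h0.bd ▸ inf_le_left)

theorem ide_kr {s : Fam K lv' ℕ} {k : Fam K (Sum.elim lv' lv) ℕ} (h : k ≤ s.prod r)
    (h' : r ≤ k.snd) : r.Ide k.kr :=
  ⟨k.kr_le_snd.trans (Fam.snd_le h), fun i _ _ hX _ hY => k.br_kr (h' i hX) hY⟩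

theorem cj {n : Fam K lv ℕ} (a : r.Ide n) {x z : PS lv Unit FF} (hx : x ∈ (r.fine Unit).PG)
    (hz : z ∈ (n.fine Unit).PG) : x * z * x⁻¹ ∈ (n.fine Unit).PG := (a.comap _).conj hx hz

theorem cj' {n : Fam K lv ℕ} (a : r.Ide n) {x z : PS lv Unit FF} (hx : x ∈ (r.fine Unit).PG)
    (hz : z ∈ (n.fine Unit).PG) : x⁻¹ * z * x ∈ (n.fine Unit).PG := (a.comap _).conj' hx hz

theorem PG_le {g h : Fam K lv ℕ} (hh : h ≤ g) : (h.fine Unit).PG ≤ (g.fine Unit).PG :=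
  Fam.PG_mono (Fam.fine_mono hh)

theorem dg_PG {g : Fam K lv ℕ} {g' : Fam K lv' ℕ} {x : PS lv Unit FF} {y : PS lv' Unit FF} :
    UT.dg (x, y) ∈ ((g.prod g').fine Unit).PG ↔ x ∈ (g.fine Unit).PG ∧ y ∈ (g'.fine Unit).PG :=
  Fam.dg_mem_prod_PG (g := g.fine Unit) (g' := g'.fine Unit)

theorem ex_dg_PG {g : Fam K lv ℕ} {g' : Fam K lv' ℕ} {z} (h : z ∈ ((g.prod g').fine Unit).PG) :
    ∃ x ∈ (g.fine Unit).PG, ∃ y ∈ (g'.fine Unit).PG, z = UT.dg (x, y) :=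
  (Fam.mem_prod_PG (g := g.fine Unit) (g' := g'.fine Unit)).1 h

end alg

variable {Y S : Type} [NS Y S] {ι ι' : Type} [Fintype ι] [DecidableEq ι] [Fintype ι']
  [DecidableEq ι'] {lv : ι → ℕ} {lv' : ι' → ℕ} {Q : HR} [Fact (2 ≤ Q)] {A R c : HR}
  {T : Ns (Finset S)} {p : Y → HZ} {P : HZ} {r n n₀ n₁ : Fam (KK Q) lv ℕ} {D : ℕ}
  {π : Y → Prop} {x : Y → PS lv Unit HR}

theorem intS_dg {x : Y → PS lv Unit HR} {y : Y → PS lv' Unit HR} (hx : IntS x) (hy : IntS y) :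
    IntS fun a => UT.dg (x a, y a) := intS_iff.2 fun i j => by
  rcases i with i | i <;> rcases j with j | j
  exacts [hx.val i j, IntY.const 0, IntY.const 0, hy.val i j]

variable (Q A R) in
/-- `x` equals `z` modulo `n`, up to a small and a rational factor. -/
def Rel (c : HR) (r n : Fam (KK Q) lv ℕ) (z x : PS lv Unit HR) : Prop :=
  ∃ e ∈ (r.fine Unit).PG ⊓ EA Q A R lv, ∃ μ ∈ (n.fine Unit).PG,
    ∃ γ ∈ (r.fine Unit).PG ⊓ LL Q c lv, x = e * z * μ * γ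

theorem rel_fw {z x : PS lv Unit HR} (a : r.Ide n) (hz : z ∈ (r.fine Unit).PG) :
    Rel Q A R c r n z x → ∃ e ∈ (r.fine Unit).PG ⊓ EA Q A R lv,
      ∃ γ ∈ (r.fine Unit).PG ⊓ LL Q c lv, x ∈ (r.fine Unit).PG ∧
        x⁻¹ * (e * z * γ) ∈ (n.fine Unit).PG := by
  rintro ⟨e, he, μ, hμ, γ, hγ, rfl⟩
  refine ⟨e, he, γ, hγ, mul_mem (mul_mem (mul_mem he.1 hz) (PG_le a.le hμ)) hγ.1, ?_⟩
  rw [show (e * z * μ * γ)⁻¹ * (e * z * γ) = γ⁻¹ * μ⁻¹ * γ by group]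
  exact cj' a hγ.1 (inv_mem hμ)

/-- A fixed partner. -/
theorem gr (hP : Par Q T p P) (hR : R ≠ 0) (hc : c ≠ 0) (ht : Tiny Q (c * ci P / R))
    {s : Fam (KK Q) lv' ℕ} (hs : s.Fil D) (hr : r.Fil D) {k : Fam (KK Q) (Sum.elim lv' lv) ℕ}
    (hk : k.Fil D) (hle : k ≤ s.prod r) {y : PS lv' Unit HR} (hx : IntS x)
    (hd : Dense Q T fun a => π a ∧ p a ≠ 0 ∧
      FW Q A R (c * ci (p a)) (s.prod r) k (UT.dg (y, x a))) :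
    ∃ z ∈ (r.fine Unit).PG, Dense Q T fun a => π a ∧ Rel Q A R (c * ci (p a)) r k.kr z (x a) := by
  have hy : y ∈ (s.fine Unit).PG := let ⟨_, _, h⟩ := hd.exists; (dg_PG.1 h.2.2.mem).1
  have hi := hP.int
  obtain ⟨e, t, γ, he, -, hγ, d⟩ := Dense.fw (hs.prod hr) (c := fun a => c * ci (p a))
    (by fun_prop) (intS_dg (IntS.const y) hx) (p := fun a => π a ∧ p a ≠ 0)
    (hd.mono fun a _ h => ⟨⟨h.1, h.2.1⟩, h.2.2⟩)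
  obtain ⟨e0, he0, γ0, hγ0, d'⟩ := rig (A := A) hP hR hc ht (hs.prod hr) (hk.fst.prod hr)
    (Fam.prod_mono (Fam.fst_le hle) le_rfl) (w := UT.dg (y, 1)) (dg_PG.2 ⟨hy, one_mem _⟩) he hγ
    (d.mono fun a _ h => ⟨h, h.1.2, h.2.1, h.2.2.2.1, by
      obtain ⟨e1, -, e2, h2, h3⟩ := ex_dg_PG h.2.1.1
      obtain ⟨t1, -, t2, -, h4⟩ := ex_dg_PG h.2.2.1.1
      obtain ⟨γ1, -, γ2, h5, h6⟩ := ex_dg_PG h.2.2.2.1.1
      have h7 := h.2.2.2.2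
      have h8 := h.2.2.1.2
      rw [h3, h4, h6, UT.dg_mul, UT.dg_mul, UT.dg_inj] at h7
      rw [h4] at h8
      rw [h3, h6, UT.dg_inv, UT.dg_inv, UT.dg_mul, UT.dg_mul, h7.1,
        show e1⁻¹ * (e1 * t1 * γ1) * γ1⁻¹ = t1 by group]
      exact dg_PG.2 ⟨(dg_mem_PG (h := k.fine Unit) h8).1,
        mul_mem (mul_mem (inv_mem h2) (one_mem _)) (inv_mem h5)⟩⟩)
  obtain ⟨f1, -, f2, -, rfl⟩ := ex_dg_PG he0.1
  obtain ⟨δ1, -, δ2, -, rfl⟩ := ex_dg_PG hγ0.1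
  have d2 : Dense Q T fun a => π a ∧ ∃ z, UT.dg (f1⁻¹ * y * δ1⁻¹, z) ∈ (k.fine Unit).PG ∧
      ∃ e ∈ (r.fine Unit).PG ⊓ EA Q A R lv, ∃ γ ∈ (r.fine Unit).PG ⊓ LL Q (c * ci (p a)) lv,
        x a = e * z * γ := d'.mono fun a _ ⟨h, k1, k2⟩ => by
    obtain ⟨e1, -, e2, h2, h3⟩ := ex_dg_PG h.2.1.1
    obtain ⟨t1, -, t2, -, h4⟩ := ex_dg_PG h.2.2.1.1
    obtain ⟨γ1, -, γ2, h5, h6⟩ := ex_dg_PG h.2.2.2.1.1
    have h7 := h.2.2.2.2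
    have h8 := h.2.2.1.2
    have h9 := h.2.1.2
    have h10 := h.2.2.2.1.2
    rw [h3, h4, h6, UT.dg_mul, UT.dg_mul, UT.dg_inj] at h7
    rw [h4] at h8
    rw [h3] at h9
    rw [h6] at h10
    rw [h3, UT.dg_inv, UT.dg_mul] at k1
    rw [h6, UT.dg_inv, UT.dg_mul] at k2
    obtain ⟨u, hu, k3⟩ := lift_fst_EA hk ⟨(dg_PG.1 k1).1, (EA Q A R lv').mul_mem
      ((EA Q A R lv').inv_mem (dg_mem_EA.1 he0.2).1) (dg_mem_EA.1 h9).1⟩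
    obtain ⟨w, hw, k4⟩ := lift_fst_LL ⟨(dg_PG.1 k2).1, (LL Q _ lv').mul_mem (dg_mem_LL.1 h10).1
      ((LL Q _ lv').inv_mem (LL_le_p c _ (dg_mem_LL.1 hγ0.2).1))⟩
    have k5 := mul_mem (mul_mem k3 h8) k4
    rw [UT.dg_mul, UT.dg_mul] at k5
    refine ⟨h.1.1, u * t2 * w, ?_, e2 * u⁻¹, mul_mem ⟨h2, (dg_mem_EA.1 h9).2⟩
      (inv_mem ⟨(dg_PG.1 (PG_le hle k3)).2, hu⟩), w⁻¹ * γ2,
      mul_mem (inv_mem ⟨(dg_PG.1 (PG_le hle k4)).2, hw⟩) ⟨h5, (dg_mem_LL.1 h10).2⟩, ?_⟩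
    · rwa [h7.1, show f1⁻¹ * (e1 * t1 * γ1) * δ1⁻¹ = f1⁻¹ * e1 * t1 * (γ1 * δ1⁻¹) by group]
    · rw [h7.2]; group
  obtain ⟨-, -, -, z, hz, -⟩ := d2.exists
  refine ⟨z, (dg_PG.1 (PG_le hle hz)).2, d2.mono fun a _ ⟨h, z', hz', e, he, γ, hγ, ex⟩ =>
    ⟨h, e, he, z⁻¹ * z', ?_, γ, hγ, by rw [ex]; group⟩⟩
  have := mul_mem (inv_mem hz) hz'
  rw [UT.dg_inv, UT.dg_mul, inv_mul_cancel] at this
  exact (mem_kr_PG (h := k.fine Unit)).2 this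

/-- Two ideals. -/
theorem int (hP : Par Q T p P) (hR : R ≠ 0) (hc : c ≠ 0) (ht : Tiny Q (c * ci P / R))
    (hr : r.Fil D) (h0 : n₀.Fil D) (h1 : n₁.Fil D) (a : r.Ide n₀) (b : r.Ide n₁)
    {z₀ z₁ : PS lv Unit HR} (hz₀ : z₀ ∈ (r.fine Unit).PG) (hz₁ : z₁ ∈ (r.fine Unit).PG)
    (hx : IntS x) (hd : Dense Q T fun y => π y ∧ p y ≠ 0 ∧
      Rel Q A R (c * ci (p y)) r n₀ z₀ (x y) ∧ Rel Q A R (c * ci (p y)) r n₁ z₁ (x y)) :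
    ∃ z ∈ (r.fine Unit).PG,
      Dense Q T fun y => π y ∧ Rel Q A R (c * ci (p y)) r (n₀.inf n₁) z (x y) := by
  rw [← tri_kr (a := a) (b := b)]
  refine gr hP hR hc ht (hr.prod hr) hr (tri_fil hr h0 h1) tri_le (y := UT.dg (z₀, z₁)) hx
    (hd.mono fun y _ h => ⟨h.1, h.2.1, ?_⟩)
  obtain ⟨e, he, γ, hγ, k1, k2⟩ := rel_fw a hz₀ h.2.2.1
  obtain ⟨e', he', γ', hγ', -, k3⟩ := rel_fw b hz₁ h.2.2.2
  have m := (mem_tri (a := a) (b := b) k1 (mul_mem (mul_mem he.1 hz₀) hγ.1)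
    (mul_mem (mul_mem he'.1 hz₁) hγ'.1)).2 ⟨k2, k3⟩
  refine ⟨(UT.dg (UT.dg (e, e'), 1))⁻¹, inv_mem ⟨dg_PG.2 ⟨dg_PG.2 ⟨he.1, he'.1⟩, one_mem _⟩,
    dg_mem_EA.2 ⟨dg_mem_EA.2 ⟨he.2, he'.2⟩, one_mem _⟩⟩, _, ⟨PG_le tri_le m, m⟩,
    (UT.dg (UT.dg (γ, γ'), 1))⁻¹, inv_mem ⟨dg_PG.2 ⟨dg_PG.2 ⟨hγ.1, hγ'.1⟩, one_mem _⟩,
    dg_mem_LL.2 ⟨dg_mem_LL.2 ⟨hγ.2, hγ'.2⟩, one_mem _⟩⟩, ?_⟩
  simp only [UT.dg_inv, UT.dg_mul, UT.dg_inj]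
  refine ⟨⟨?_, ?_⟩, ?_⟩ <;> group

theorem sig_rel (hr : r.Fil D) {c : Y → HR} (hc : IntF c) (z : PS lv Unit HR)
    (hx : IntS x) (hd : Dense Q T fun y => π y ∧ Rel Q A R (c y) r n z (x y)) :
    ∃ e μ γ : Y → PS lv Unit HR, IntS e ∧ IntS μ ∧ IntS γ ∧ Dense Q T fun y => π y ∧
      e y ∈ (r.fine Unit).PG ⊓ EA Q A R lv ∧ μ y ∈ (n.fine Unit).PG ∧
      γ y ∈ (r.fine Unit).PG ⊓ LL Q (c y) lv ∧ x y = e y * z * μ y * γ y := by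
  have k : ∀ {B S' : Type} [NS B S'] {f : B → Y} {e γ : B → PS lv Unit HR}, IntF f → IntS e →
      IntS γ → Sig fun b => γ b ∈ LL Q (c (f b)) lv ∧
        (e b * z)⁻¹ * x (f b) * (γ b)⁻¹ ∈ (n.fine Unit).PG := fun hf he hγ =>
    (Sig.inLL (hc.comp hf) hγ).and
      ((((he.mul (IntS.const z)).inv.mul (hx.comp hf)).mul hγ.inv).PG _).sig
  obtain ⟨e, he, d1⟩ := Dense.choiceS hr.fine_bd (r := fun y e => e ∈ EA Q A R lv ∧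
    ∃ γ ∈ (r.fine Unit).PG, γ ∈ LL Q (c y) lv ∧ (e * z)⁻¹ * x y * γ⁻¹ ∈ (n.fine Unit).PG)
    ((Sig.inEA (IntF.const A) (IntF.const R) (IntS.dec _ IntF.id.snd)).and
      (Sig.exS hr.fine_bd (k IntF.id.fst.fst (IntS.dec _ IntF.id.fst.snd) (IntS.dec _ IntF.id.snd))))
    (hd.mono fun y _ ⟨h, e, he, μ, hμ, γ, hγ, ex⟩ => ⟨h, e, he.1, he.2, γ, hγ.1, hγ.2, by
      rwa [ex, show (e * z)⁻¹ * (e * z * μ * γ) * γ⁻¹ = μ by group]⟩)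
  obtain ⟨γ, hγ, d2⟩ := Dense.choiceS
    (p := fun y => π y ∧ e y ∈ (r.fine Unit).PG ⊓ EA Q A R lv) hr.fine_bd
    (r := fun y γ => γ ∈ LL Q (c y) lv ∧ (e y * z)⁻¹ * x y * γ⁻¹ ∈ (n.fine Unit).PG)
    (k IntF.id.fst (he.comp IntF.id.fst) (IntS.dec _ IntF.id.snd))
    (d1.mono fun y _ h => ⟨⟨h.1, h.2.1, h.2.2.1⟩, h.2.2.2⟩)
  exact ⟨e, _, γ, he, ((he.mul (IntS.const z)).inv.mul hx).mul hγ.inv, hγ,
    d2.mono fun y _ h => ⟨h.1.1, h.1.2, h.2.2.2, ⟨h.2.1, h.2.2.1⟩, by group⟩⟩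

/-- Two coprime levels. -/
theorem two (hP : Par Q T p P) (hR : R ≠ 0) {v v' : HR} (hv : v ∈ ZZ ∧ v ≠ 0)
    (hv' : v' ∈ ZZ ∧ v' ≠ 0) (hcop : Cop v v') (ht : Tiny Q (v * v' * ci P / R))
    (hr : r.Fil D) (hn : n.Fil D) (a : r.Ide n)
    {z z' : PS lv Unit HR} (hz : z ∈ (r.fine Unit).PG) (hz' : z' ∈ (r.fine Unit).PG)
    (hx : IntS x) (hd : Dense Q T fun y => π y ∧ p y ≠ 0 ∧
      Rel Q A R (v * ci (p y)) r n z (x y) ∧ Rel Q A R (v' * ci (p y)) r n z' (x y)) :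
    ∃ z ∈ (r.fine Unit).PG, Dense Q T fun y => π y ∧ Rel Q A R (1 * ci (p y)) r n z (x y) := by
  have hi := hP.int
  obtain ⟨e, μ, γ, he, -, hγ, d1⟩ := sig_rel hr (c := fun y => v * ci (p y)) (by fun_prop) z hx
    (hd.mono fun y _ h => ⟨h, h.2.2.1⟩)
  obtain ⟨e', μ', γ', he', -, hγ', d2⟩ := sig_rel hr (c := fun y => v' * ci (p y))
    (by fun_prop) z' hx (d1.mono fun y _ h => ⟨h, h.1.2.2.2⟩)
  have l1 : ∀ y, LL Q (v * ci (p y)) lv ≤ LL Q (v * v' * ci (p y)) lv := fun y => by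
    rw [mul_right_comm]; exact LL_mono hv'.1
  have l2 : ∀ y, LL Q (v' * ci (p y)) lv ≤ LL Q (v * v' * ci (p y)) lv := fun y => by
    rw [mul_assoc]; exact LL_le_mul hv.1 _
  refine (rig (A := A) hP hR (mul_ne_zero hv.2 hv'.2) ht
    ((hr.prod hr).prod hr) (tri_fil (a := a) (b := a) hr hn hn) tri_le
    (w := UT.dg (UT.dg (z, z'), z)) (dg_PG.2 ⟨dg_PG.2 ⟨hz, hz'⟩, hz⟩)
    (intS_dg (intS_dg (IntS.const 1) (he'.inv.mul he)) (IntS.const 1))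
    (intS_dg (intS_dg (IntS.const 1) (hγ.mul hγ'.inv)) (IntS.const 1))
    (d2.mono fun y _ h => ⟨h, h.1.1.2.1, ?_, ?_, ?_⟩)).elim fun _ ⟨_, γ0, hγ0, d3⟩ => ?_
  rotate_right
  · obtain ⟨_, b0, b, hb, rfl⟩ := ex_dg_PG hγ0.1
    obtain ⟨b0, hb0, b1, hb1, rfl⟩ := ex_dg_PG b0
    obtain ⟨β, hβ, β', hβ', eβ⟩ := bezout1' (r.fine Unit) hv.1 hv'.1 hcop (c := b⁻¹ * b1)
      (mul_mem (inv_mem ⟨hb, (dg_mem_LL.1 hγ0.2).2⟩) ⟨hb1, (dg_mem_LL.1 (dg_mem_LL.1 hγ0.2).1).2⟩)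
    refine ⟨z * β, mul_mem hz hβ.1, d3.mono fun y _ ⟨⟨⟨h, k1, k2, k3, k4⟩, _, _, k5, _⟩, _, k6⟩ =>
      ⟨h.1, ?_⟩⟩
    simp only [UT.dg_inv, UT.dg_mul] at k6
    have k7 := ((mem_tri (mul_mem (one_mem _) (inv_mem hb)) (mul_mem (one_mem _) (inv_mem hb0))
      (mul_mem (mul_mem k3.1 (inv_mem k5.1)) (inv_mem hb1))).1 k6).2
    have m1 : β⁻¹ * γ y ∈ (r.fine Unit).PG ⊓ LL Q (ci (p y) * v) lv := by
      rw [mul_comm (ci (p y))]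
      exact mul_mem (inv_mem ⟨hβ.1, LL_le_p v _ hβ.2⟩) k3
    have m2 : β' * γ' y ∈ (r.fine Unit).PG ⊓ LL Q (ci (p y) * v') lv := by
      rw [mul_comm (ci (p y))]
      exact mul_mem ⟨hβ'.1, LL_le_p v' _ hβ'.2⟩ k5
    obtain ⟨δ, hδ, k8, -⟩ := bezout_mod (a.comap _) hv.1 hv'.1 hcop _ m1 m2 (by
      have := cj' a (mul_mem hb k3.1) (inv_mem k7)
      rwa [show (b * γ y)⁻¹ * ((1 * b⁻¹)⁻¹ * (γ y * (γ' y)⁻¹ * b1⁻¹))⁻¹ * (b * γ y)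
        = (γ y)⁻¹ * (b⁻¹ * b1) * γ' y by group, eβ,
        show (γ y)⁻¹ * (β * β') * γ' y = (β⁻¹ * γ y)⁻¹ * (β' * γ' y) by group] at this)
    refine ⟨_, k1, β⁻¹ * μ y * β * (δ * (δ⁻¹ * (β⁻¹ * γ y)) * δ⁻¹),
      mul_mem (cj' a hβ.1 k2) (cj a hδ.1 k8), δ, by rwa [one_mul], by rw [k4]; group⟩
  · have k := mul_mem (inv_mem h.2.1) h.1.2.1
    exact ⟨dg_PG.2 ⟨dg_PG.2 ⟨one_mem _, k.1⟩, one_mem _⟩,
      dg_mem_EA.2 ⟨dg_mem_EA.2 ⟨one_mem _, k.2⟩, one_mem _⟩⟩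
  · have k := mul_mem (inf_le_inf_left _ (l1 y) h.1.2.2.2.1)
      (inv_mem (inf_le_inf_left _ (l2 y) h.2.2.2.1))
    exact ⟨dg_PG.2 ⟨dg_PG.2 ⟨one_mem _, k.1⟩, one_mem _⟩,
      dg_mem_LL.2 ⟨dg_mem_LL.2 ⟨one_mem _, k.2⟩, one_mem _⟩⟩
  · obtain ⟨⟨-, k1, k2, k3, k4⟩, k5, k6, k7, k8⟩ := h
    have m := (r.fine Unit).PG.mul_mem k3.1 ((r.fine Unit).PG.inv_mem k7.1)
    simp only [UT.dg_inv, UT.dg_mul, inv_one, one_mul, mul_one]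
    refine (mem_tri hz hz (mul_mem (mul_mem (inv_mem (mul_mem (inv_mem k5.1) k1.1)) hz')
      (inv_mem m))).2 ⟨by simp, ?_⟩
    have e1 : z' = (e' y)⁻¹ * (e y * z * μ y * γ y) * (γ' y)⁻¹ * (μ' y)⁻¹ := by
      rw [← k4, k8]; group
    rw [e1, show z⁻¹ * (((e' y)⁻¹ * e y)⁻¹ * ((e' y)⁻¹ * (e y * z * μ y * γ y) * (γ' y)⁻¹
      * (μ' y)⁻¹) * (γ y * (γ' y)⁻¹)⁻¹)
      = μ y * (γ y * (γ' y)⁻¹ * (μ' y)⁻¹ * (γ y * (γ' y)⁻¹)⁻¹) by group]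
    exact mul_mem k2 (cj a m (inv_mem k6))

theorem snd_ge {s : Fam (KK Q) lv' ℕ} {k : Fam (KK Q) (Sum.elim lv' lv) ℕ} (hl : Lat Q R c)
    (hr : r.Fil D) (hk : k.Fil D) {w : PS lv' Unit HR} {x : PS lv Unit HR}
    (hf : FW Q A R c (s.prod r) k (UT.dg (w, x))) (hi : IW Q R c r ⊥ x) : r ≤ k.snd := fun i =>
  (hi.le hl hr ⟨IsRat.bot, bot_le, fun X _ Y hY => by
    rw [(Submodule.mem_bot _).1 hY, mul_zero, zero_mul, sub_zero]; exact zero_mem _⟩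
    hk.snd hf.snd i).trans (sup_le inf_le_right (inf_le_right.trans bot_le))

theorem lat_of (hP : Par Q T p P) (hR : 0 < R) {V : HZ} (ht : Tiny Q (ci P * ci V * ci V / R))
    {y : Y} (hy : Mem y T) (h0 : 0 < p y) {v v' : HZ} (hv : 0 < v ∧ v ≤ V) (hv' : 0 < v' ∧ v' ≤ V) :
    Lat Q R (ci (p y) * ci v * ci v') ∧ Tiny Q (ci v * ci v' * ci P / R) := by
  have h1 := ci_pos.2 h0
  have h2 := ci_pos.2 hv.1
  have h3 := ci_pos.2 hv'.1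
  have h4 := ci_le.2 hv.2
  have h5 := ci_le.2 hv'.2
  have h6 := ci_le.2 (hP.mem y hy).2.le
  have h7 := h1.trans_le h6
  have h8 := h2.trans_le h4
  refine ⟨⟨mul_mem (mul_mem (ci_mem _) (ci_mem _)) (ci_mem _), by positivity, hR,
    ht.mono (by positivity) (by gcongr)⟩, ht.mono (by positivity) ?_⟩
  rw [mul_comm, ← mul_assoc]
  gcongr

variable {B S' : Type} [NS B S'] {U : Ns (Finset S')} {v : B → HZ} {V : HZ}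

theorem acc_pair (hP : Par Q T p P) (hR : 0 < R) (ht : Tiny Q (ci P * ci V * ci V / R))
    (hv : IntF v) (hvV : ∀ y, Mem y U → 0 < v y ∧ v y ≤ V)
    (hcop : ¬Dense Q (fprod U U) fun z : B × B => ¬Cop (ci (v z.1)) (ci (v z.2))) (hr : r.Fil D)
    (hx : IntS x) (hπ : ∀ y, π y → 0 < p y ∧ IW Q R (ci (p y)) r ⊥ (x y)) {τ : Y × B → Prop}
    (hd : Dense Q (fprod T U) fun z : Y × B => π z.1 ∧ τ z) :
    Dense Q (fprod T U) fun z : Y × B =>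
      (π z.1 ∧ τ z) ∧ IW Q R (ci (v z.2) * ci (p z.1)) r ⊥ (x z.1) := by
  have hi := hP.int
  refine (hd.split (Sig.not_iw r ⊥ R (c := fun z : Y × B => ci (v z.2) * ci (p z.1)) (by fun_prop)
    (hx.comp IntF.id.fst) hr)).elim (fun d => ?_) fun d => d.mono fun _ _ h => ⟨h.1, not_not.1 h.2⟩
  obtain ⟨y, hy, d'⟩ := d.fub.exists
  obtain ⟨_, -, ⟨h0, -⟩, -⟩ := d'.exists
  refine (acc2 (v := fun b => ci (v b)) (by fun_prop) (ci_mem (p y)) (fun _ _ => ci_mem _)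
    (fun a a' ha ha' => (lat_of hP hR ht hy (hπ y h0).1 (hvV a ha) (hvV a' ha')).1) hcop hr
    (hπ y h0).2 (d'.mono fun b _ h => ?_)).elim
  rw [mul_comm]
  exact h.2

end XA

end Pool.Agent.P.MP_a14ce1_nt.Nil
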