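import Pool.Agent.P.MP_a14ce1_nt.Nil.ExtFin
import Pool.Agent.P.MP_a14ce1_nt.Nil.FsK
import Pool.Agent.P.MP_a14ce1_nt.Nil.ExtK

/-!
Fair sampling and extension for the atoms of a type.
-/

noncomputable section

namespace Pool.Agent.P.MP_a14ce1_nt.Nil

theorem s_fsK : S_fsK := fun _ _ _ _ _ _ _ _ hg _ _ _ _ hP hc hcP _ hx => fsK hg hP hc hcP hx

theorem s_extK : S_extK :=
  fun _ _ _ _ _ _ _ _ hg _ _ _ _ hP hR hPV _ _ hv hvV hcop _ _ hΨ _ hw hT _ hF _ hx _ hd =>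
    extK hg hg hP hR hPV hv hvV hcop hΨ hw hT hF hx hd

theorem ax_fs (T : GI.Ty) (k : ℕ) : Ax.FS (Ax.res {ψ | T.At k ψ}) := ax_fs_of s_fsK T k

theorem ax_ext (T : GI.Ty) (k : ℕ) : Ax.EXT (Ax.res {ψ | T.At k ψ}) := ax_ext_of s_extK T k

end Pool.Agent.P.MP_a14ce1_nt.Nil
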