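import Pool.Agent.P.MP_a14ce1_nt.Nil.Vin1

/-! A bounded Freiman-linear map on a dense set of integers has a small slope. -/

namespace Pool.Agent.P.MP_a14ce1_nt.Nil

open Finset Pointwise

namespace FHP

variable {V : Type*} [AddCommGroup V]

/-- `x` is a sum of at most `k` differences of `H`, with value `A` -/
def Rep (H : Finset ℤ) (a : ℤ → V) (k : ℕ) (x : ℤ) (A : V) : Prop :=
  ∃ L : List (ℤ × ℤ), L.length ≤ k ∧ (∀ p ∈ L, p.1 ∈ H ∧ p.2 ∈ H) ∧
    (L.map fun p => p.1 - p.2).sum = x ∧ (L.map fun p => a p.1 - a p.2).sum = A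

variable {H : Finset ℤ} {a : ℤ → V}

theorem Rep.mono {k l : ℕ} {x : ℤ} {A : V} (h : Rep H a k x A) (hkl : k ≤ l) : Rep H a l x A := by
  obtain ⟨L, h1, h2⟩ := h
  exact ⟨L, h1.trans hkl, h2⟩

theorem Rep.one {u v : ℤ} (hu : u ∈ H) (hv : v ∈ H) : Rep H a 1 (u - v) (a u - a v) :=
  ⟨[(u, v)], le_rfl, by simp [hu, hv], by simp, by simp⟩

theorem Rep.add {k l : ℕ} {x y : ℤ} {A B : V} (h : Rep H a k x A) (h' : Rep H a l y B) :
    Rep H a (k + l) (x + y) (A + B) := by
  obtain ⟨L, h1, h2, h3, h4⟩ := h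
  obtain ⟨L', g1, g2, g3, g4⟩ := h'
  refine ⟨L ++ L', by rw [List.length_append]; omega, fun p hp => ?_, by simp [h3, g3],
    by simp [h4, g4]⟩
  rcases List.mem_append.mp hp with h | h
  exacts [h2 p h, g2 p h]

theorem sum_swap {W : Type*} [AddCommGroup W] (f : ℤ → W) (L : List (ℤ × ℤ)) :
    ((L.map Prod.swap).map fun p => f p.1 - f p.2).sum = -(L.map fun p => f p.1 - f p.2).sum := by
  induction L with
  | nil => simp
  | cons p L ih =>
    simp only [List.map_cons, List.sum_cons, ih, Prod.fst_swap, Prod.snd_swap]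
    abel

theorem Rep.neg {k : ℕ} {x : ℤ} {A : V} (h : Rep H a k x A) : Rep H a k (-x) (-A) := by
  obtain ⟨L, h1, h2, h3, h4⟩ := h
  refine ⟨L.map Prod.swap, by simpa using h1, fun p hp => ?_, ?_, ?_⟩
  · obtain ⟨q, hq, rfl⟩ := List.mem_map.mp hp
    exact ⟨(h2 q hq).2, (h2 q hq).1⟩
  · rw [← h3]; exact sum_swap id L
  · rw [← h4]; exact sum_swap a L

theorem Rep.norm_le {W : Type*} [SeminormedAddCommGroup W] {a : ℤ → W} (ha : ∀ h ∈ H, ‖a h‖ ≤ 1)
    {k : ℕ} {x : ℤ} {A : W} (h : Rep H a k x A) : ‖A‖ ≤ 2 * k := by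
  obtain ⟨L, h1, h2, -, rfl⟩ := h
  have : ‖(L.map fun p => a p.1 - a p.2).sum‖ ≤ 2 * L.length := by
    clear h1
    induction L with
    | nil => simp
    | cons p L ih =>
      simp only [List.map_cons, List.sum_cons, List.length_cons]
      have h3 := ih fun q hq => h2 q (List.mem_cons_of_mem _ hq)
      have h4 := h2 p List.mem_cons_self
      have h5 := norm_add_le (a p.1 - a p.2) (L.map fun p => a p.1 - a p.2).sum
      have h6 := norm_sub_le (a p.1) (a p.2)
      have := ha _ h4.1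
      have := ha _ h4.2
      push_cast
      linarith
  refine this.trans ?_
  have : (L.length : ℝ) ≤ k := by exact_mod_cast h1
  linarith

/-- multiples of a difference that stay in a set covered by `m` translates of `H - H` -/
theorem rep_mul (F : Finset ℤ) {u v : ℤ} (hu : u ∈ H) (hv : v ∈ H) (J : ℕ)
    (hF : ∀ j : ℕ, j ≤ J → (j : ℤ) * (u - v) ∈ F + (H - H)) :
    ∀ j : ℕ, j ≤ J → ∃ A, Rep H a (3 * F.card + 1) (j * (u - v)) A := by
  classical
  have hc : ∀ j : ℕ, j ≤ J → ∃ c ∈ F, ∃ A, Rep H a 1 (j * (u - v) - c) A := by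
    intro j hj
    obtain ⟨c, hc, z, hz, h⟩ := Finset.mem_add.mp (hF j hj)
    obtain ⟨x, hx, y, hy, rfl⟩ := Finset.mem_sub.mp hz
    refine ⟨c, hc, a x - a y, ?_⟩
    rw [← h, add_sub_cancel_left]
    exact Rep.one hx hy
  choose! c hcF hc using hc
  have main : ∀ j : ℕ, j ≤ J → ∀ x ∈ (Finset.range (j + 1)).image c,
      ∃ A, Rep H a (3 * ((Finset.range (j + 1)).image c).card) x A := by
    intro j
    induction j with
    | zero =>
      intro hj x hx
      simp only [zero_add, range_one, image_singleton, mem_singleton, card_singleton] at hx ⊢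
      obtain ⟨A, hA⟩ := hc 0 hj
      refine ⟨-A, ?_⟩
      have := hA.neg
      simp only [Nat.cast_zero, zero_mul, zero_sub, neg_neg] at this
      rw [hx]
      exact this.mono (by norm_num)
    | succ j ih =>
      intro hj x hx
      have ih' := ih (by omega)
      rw [Finset.range_add_one, Finset.image_insert] at hx ⊢
      by_cases h : c (j + 1) ∈ (Finset.range (j + 1)).image c
      · rw [Finset.insert_eq_of_mem h] at hx ⊢
        exact ih' x hx
      · rw [Finset.card_insert_of_notMem h]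
        rcases Finset.mem_insert.mp hx with rfl | hx
        · obtain ⟨A, hA⟩ := ih' (c j) (Finset.mem_image_of_mem _ (by simp))
          obtain ⟨B, hB⟩ := hc j (by omega)
          obtain ⟨C, hC⟩ := hc (j + 1) hj
          have := ((hA.add hB).add (Rep.one hu hv)).add hC.neg
          have e : c j + (j * (u - v) - c j) + (u - v) + -(((j + 1 : ℕ) : ℤ) * (u - v) - c (j + 1))
              = c (j + 1) := by push_cast; ring
          rw [e] at this
          exact ⟨_, this.mono (by omega)⟩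
        · obtain ⟨A, hA⟩ := ih' x hx
          exact ⟨A, hA.mono (by omega)⟩
  intro j hj
  obtain ⟨A, hA⟩ := main j hj (c j) (Finset.mem_image_of_mem _ (by simp))
  obtain ⟨B, hB⟩ := hc j hj
  have h1 : ((Finset.range (j + 1)).image c).card ≤ F.card := by
    refine Finset.card_le_card fun x hx => ?_
    obtain ⟨i, hi, rfl⟩ := Finset.mem_image.mp hx
    exact hcF i (by have := Finset.mem_range.mp hi; omega)
  have := hA.add hB
  rw [add_sub_cancel] at this
  exact ⟨_, this.mono (by omega)⟩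

end FHP

open FHP

/-- FH, list form. `H` has diameter at most `M` and density `d`. -/
theorem fh_list {V : Type*} [SeminormedAddCommGroup V] [NormedSpace ℝ V] (H : Finset ℤ)
    (a : ℤ → V) {d M : ℝ} (hd : 0 < d) (hd1 : d ≤ 1) (hM : 16 ≤ d * M)
    (hH : ∀ u ∈ H, ∀ v ∈ H, ((u - v : ℤ) : ℝ) ≤ M) (hc : d * M ≤ H.card)
    (ha : ∀ h ∈ H, ‖a h‖ ≤ 1)
    (hF : ∀ L : List (ℤ × ℤ), (L.length : ℝ) ≤ 21 / d → (∀ p ∈ L, p.1 ∈ H ∧ p.2 ∈ H) →
      (L.map fun p => p.1 - p.2).sum = 0 → (L.map fun p => a p.1 - a p.2).sum = 0) :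
    ∃ u ∈ H, ∃ v ∈ H, v < u ∧ ((u - v : ℤ) : ℝ) ≤ 8 / d ∧ ‖a u - a v‖ * M ≤ 320 / d ^ 2 := by
  classical
  have hM0 : 16 ≤ M := by nlinarith [mul_le_mul_of_nonneg_right hd1 (show 0 ≤ M by nlinarith)]
  have hne : H.Nonempty := by
    rw [← Finset.card_pos]
    have : (0 : ℝ) < H.card := by linarith
    exact_mod_cast this
  obtain ⟨h0, hh0⟩ := id hne
  obtain ⟨u, hu, v, hv, huv, he⟩ : ∃ u ∈ H, ∃ v ∈ H, v < u ∧ ((u - v : ℤ) : ℝ) ≤ 8 / d := by
    obtain ⟨x, hx, y, hy, h1, h2⟩ := exists_close (H.image fun k => k - h0) hd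
      (show 3 ≤ d * M by linarith) (by
        intro k hk
        obtain ⟨x, hx, rfl⟩ := Finset.mem_image.mp hk
        have g1 := hH x hx h0 hh0
        have g2 := hH h0 hh0 x hx
        push_cast at g1 g2 ⊢
        rw [abs_le]
        constructor <;> linarith) (by
        rwa [Finset.card_image_of_injective _ (sub_left_injective (b := h0))])
    obtain ⟨x, hx', rfl⟩ := Finset.mem_image.mp hx
    obtain ⟨y, hy', rfl⟩ := Finset.mem_image.mp hy
    refine ⟨x, hx', y, hy', by omega, ?_⟩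
    rwa [sub_sub_sub_cancel_right] at h2
  refine ⟨u, hu, v, hv, huv, he, ?_⟩
  have he0 : (0 : ℝ) < ((u - v : ℤ) : ℝ) := by exact_mod_cast sub_pos.mpr huv
  obtain ⟨F, -, hF1, hF2⟩ := Finset.ruzsa_covering_add (A := Finset.Icc (0 : ℤ) ⌊M⌋) (K := 3 / d)
    hne (by
      refine (card_le_of_diam _ (l := 2 * M) (by linarith) ?_).trans ?_
      · intro x hx y hy
        obtain ⟨x1, h1, x2, h2, rfl⟩ := Finset.mem_add.mp hx
        obtain ⟨y1, h3, y2, h4, rfl⟩ := Finset.mem_add.mp hy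
        have g1 := hH x2 h2 y2 h4
        have g2 : (x1 : ℝ) ≤ M := Int.le_floor.mp (Finset.mem_Icc.mp h1).2
        have g3 : (0 : ℝ) ≤ y1 := by exact_mod_cast (Finset.mem_Icc.mp h3).1
        push_cast at g1 ⊢
        linarith
      · rw [div_mul_eq_mul_div, le_div_iff₀ hd]
        nlinarith)
  set J : ℕ := ⌊M / ((u - v : ℤ) : ℝ)⌋₊ with hJ
  have hJ1 : (J : ℝ) * ((u - v : ℤ) : ℝ) ≤ M := by
    rw [← le_div_iff₀ he0]
    exact Nat.floor_le (by positivity)
  have hJ2 : d * M / 16 ≤ J := by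
    have h1 := Nat.lt_floor_add_one (M / ((u - v : ℤ) : ℝ))
    have h2 : d * M / 8 ≤ M / ((u - v : ℤ) : ℝ) := by
      rw [le_div_iff₀ hd] at he
      rw [le_div_iff₀ he0]
      nlinarith
    rw [← hJ] at h1
    linarith
  have hrep := rep_mul (a := a) F hu hv J (fun j hj => hF2 (by
    rw [Finset.mem_Icc, Int.le_floor]
    refine ⟨mul_nonneg (by positivity) (by omega), le_trans ?_ hJ1⟩
    rw [Int.cast_mul, Int.cast_natCast]
    exact mul_le_mul_of_nonneg_right (by exact_mod_cast hj) he0.le))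
  have h1d : 1 ≤ 1 / d := by rw [le_div_iff₀ hd]; linarith
  have hval : ∀ j : ℕ, j ≤ J → Rep H a (3 * F.card + 1) (j * (u - v)) ((j : ℝ) • (a u - a v)) := by
    intro j
    induction j with
    | zero => exact fun _ => ⟨[], by simp, by simp, by simp, by simp⟩
    | succ j ih =>
      intro hj
      obtain ⟨A, hA⟩ := hrep (j + 1) hj
      obtain ⟨L, l1, l2, l3, l4⟩ := ((ih (by omega)).add (Rep.one hu hv)).add hA.neg
      have h0 := hF L (by
        have : (L.length : ℝ) ≤ ((3 * F.card + 1 + 1 + (3 * F.card + 1) : ℕ) : ℝ) := by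
          exact_mod_cast l1
        push_cast at this
        have e1 : 21 / d = 21 * (1 / d) := by ring
        have e2 : 3 / d = 3 * (1 / d) := by ring
        linarith) l2 (by rw [l3]; push_cast; ring)
      rw [l4] at h0
      have : ((j + 1 : ℕ) : ℝ) • (a u - a v) = A := by
        rw [Nat.cast_succ, add_smul, one_smul]
        exact add_neg_eq_zero.mp h0
      rwa [this]
  have h2 := (hval J le_rfl).norm_le ha
  rw [norm_smul, Real.norm_natCast] at h2
  push_cast at h2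
  have h3 : (J : ℝ) * ‖a u - a v‖ * d ≤ 20 := by
    rw [← le_div_iff₀ hd]
    have e1 : 20 / d = 20 * (1 / d) := by ring
    have e2 : 3 / d = 3 * (1 / d) := by ring
    linarith
  rw [le_div_iff₀ (by positivity)]
  have h4 := mul_le_mul_of_nonneg_right hJ2 (mul_nonneg (norm_nonneg (a u - a v)) hd.le)
  nlinarith

/-- FH, families indexed by `Fin n`. -/
theorem fh {V : Type*} [SeminormedAddCommGroup V] [NormedSpace ℝ V] (H : Finset ℤ)
    (a : ℤ → V) {d M : ℝ} (hd : 0 < d) (hd1 : d ≤ 1) (hM : 16 ≤ d * M)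
    (hH : ∀ u ∈ H, ∀ v ∈ H, ((u - v : ℤ) : ℝ) ≤ M) (hc : d * M ≤ H.card)
    (ha : ∀ h ∈ H, ‖a h‖ ≤ 1)
    (hF : ∀ (n : ℕ) (u v : Fin n → ℤ), (n : ℝ) ≤ 21 / d → (∀ i, u i ∈ H) → (∀ i, v i ∈ H) →
      ∑ i, u i = ∑ i, v i → ∑ i, a (u i) = ∑ i, a (v i)) :
    ∃ u ∈ H, ∃ v ∈ H, v < u ∧ ((u - v : ℤ) : ℝ) ≤ 8 / d ∧ ‖a u - a v‖ * M ≤ 320 / d ^ 2 := by
  refine fh_list H a hd hd1 hM hH hc ha fun L h1 h2 h3 => ?_
  have h4 := hF L.length (fun i => (L.get i).1) (fun i => (L.get i).2) h1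
    (fun i => (h2 _ (List.get_mem L i)).1) (fun i => (h2 _ (List.get_mem L i)).2) (by
      rw [← sub_eq_zero, ← Finset.sum_sub_distrib, ← h3]
      simp [← Fin.sum_univ_fun_getElem])
  rw [← sub_eq_zero, ← Finset.sum_sub_distrib] at h4
  rw [← h4]
  simp [← Fin.sum_univ_fun_getElem]

/-- FH, coefficient form: relations are integer vectors `c` on `H` of small size. -/
theorem fh_coeff {V : Type*} [SeminormedAddCommGroup V] [NormedSpace ℝ V] (H : Finset ℤ)
    (a : ℤ → V) {d M : ℝ} (hd : 0 < d) (hd1 : d ≤ 1) (hM : 16 ≤ d * M)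
    (hH : ∀ u ∈ H, ∀ v ∈ H, ((u - v : ℤ) : ℝ) ≤ M) (hc : d * M ≤ H.card)
    (ha : ∀ h ∈ H, ‖a h‖ ≤ 1)
    (hF : ∀ c : ℤ → ℤ, ∑ h ∈ H, |(c h : ℝ)| ≤ 42 / d → ∑ h ∈ H, c h = 0 →
      ∑ h ∈ H, c h * h = 0 → ∑ h ∈ H, c h • a h = 0) :
    ∃ u ∈ H, ∃ v ∈ H, v < u ∧ ((u - v : ℤ) : ℝ) ≤ 8 / d ∧ ‖a u - a v‖ * M ≤ 320 / d ^ 2 := by
  classical
  refine fh H a hd hd1 hM hH hc ha fun n u v h1 hu hv h2 => ?_
  have key : ∀ {W : Type _} [AddCommGroup W] (f : ℤ → W) (w : Fin n → ℤ), (∀ i, w i ∈ H) →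
      ∑ h ∈ H, (∑ i, if w i = h then (1 : ℤ) else 0) • f h = ∑ i, f (w i) := by
    intro W _ f w hw
    simp only [Finset.sum_smul, ite_smul, one_smul, zero_smul]
    rw [Finset.sum_comm]
    exact Finset.sum_congr rfl fun i _ => by simp [hw i]
  have key2 : ∀ (f : ℤ → ℤ) (w : Fin n → ℤ), (∀ i, w i ∈ H) →
      ∑ h ∈ H, (∑ i, if w i = h then (1 : ℤ) else 0) * f h = ∑ i, f (w i) := by
    intro f w hw
    simp only [Finset.sum_mul, ite_mul, one_mul, zero_mul]
    rw [Finset.sum_comm]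
    exact Finset.sum_congr rfl fun i _ => by simp [hw i]
  have k1 : ∀ (w : Fin n → ℤ), (∀ i, w i ∈ H) →
      ∑ h ∈ H, (∑ i, if w i = h then (1 : ℤ) else 0) = n := by
    intro w hw
    simpa using key2 (fun _ => 1) w hw
  have h3 := hF (fun h => (∑ i, if u i = h then (1 : ℤ) else 0) - ∑ i, if v i = h then 1 else 0)
    (by
      have e : (42 : ℝ) / d = 21 / d + 21 / d := by ring
      have g : ∀ (w : Fin n → ℤ), (∀ i, w i ∈ H) →
          ∑ h ∈ H, |((∑ i, if w i = h then (1 : ℤ) else 0 : ℤ) : ℝ)| = n := by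
        intro w hw
        have := congrArg (Int.cast : ℤ → ℝ) (k1 w hw)
        rw [Int.cast_sum, Int.cast_natCast] at this
        rw [← this]
        refine Finset.sum_congr rfl fun h _ => abs_of_nonneg ?_
        exact_mod_cast Finset.sum_nonneg fun i _ => by split_ifs <;> norm_num
      refine le_trans (Finset.sum_le_sum fun h _ => ?_)
        (le_trans (Finset.sum_add_distrib.trans (congrArg₂ (· + ·) (g u hu) (g v hv))).le ?_)
      · rw [Int.cast_sub]; exact abs_sub _ _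
      · linarith)
    (by rw [Finset.sum_sub_distrib, k1 u hu, k1 v hv, sub_self])
    (by
      simp only [sub_mul]
      rw [Finset.sum_sub_distrib, key2 (fun h => h) u hu, key2 (fun h => h) v hv, h2, sub_self])
  simp only [sub_smul] at h3
  rwa [Finset.sum_sub_distrib, key a u hu, key a v hv, sub_eq_zero] at h3

end Pool.Agent.P.MP_a14ce1_nt.Nil
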