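import Pool.Agent.P.MP_a14ce1_nt.Nil.Tiny
import Pool.Agent.P.MP_a14ce1_nt.Nil.FH

/-! Freiman-linear maps on dense sets, germ form. -/

open Filter

set_option linter.unusedSectionVars false

noncomputable section

namespace Pool.Agent.P.MP_a14ce1_nt.Nil

variable {A S : Type} [NS A S] {Q : HR} [hQ : Fact (2 ≤ Q)]

variable (Q) in
/-- `D` behaves like `f ↦ ∑ (f uᵢ - f vᵢ)` for a list of points of `H` of polynomial length. -/
structure IsSum (H : Ns (Finset S)) (D : (A → HR) → HR) : Prop where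
  add : ∀ {f g : A → HR}, IntF f → IntF g → D (fun a => f a + g a) = D f + D g
  smul : ∀ (c : HR) {f : A → HR}, IntF f → D (fun a => c * f a) = c * D f
  const : ∀ c : HR, D (fun _ => c) = 0
  zz : ∀ {f : A → HR}, IntF f → (∀ a, Mem a H → f a ∈ ZZ) → D f ∈ ZZ
  bd : ∃ l ∈ OO Q, ∀ {f : A → HR}, IntF f → ∀ B : HR, (∀ a, Mem a H → |f a| ≤ B) → |D f| ≤ l * B

namespace IsSum

variable {H : Ns (Finset S)} {D : (A → HR) → HR}

theorem sub (h : IsSum Q H D) {f g : A → HR} (hf : IntF f) (hg : IntF g) :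
    D (fun a => f a - g a) = D f - D g := by
  have h1 := h.add hf (g := fun a => -1 * g a) (by fun_prop)
  rw [h.smul _ hg] at h1
  simpa only [neg_mul, one_mul, ← sub_eq_add_neg] using h1

theorem sum (h : IsSum Q H D) {J : Type} (s : Finset J) {f : J → A → HR} (hf : ∀ j, IntF (f j)) :
    D (fun a => ∑ j ∈ s, f j a) = ∑ j ∈ s, D (f j) := by
  classical
  induction s using Finset.induction_on with
  | empty => simpa using h.const 0
  | insert j s hj ih =>
    simp only [Finset.sum_insert hj]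
    rw [h.add (hf j) (IntF.sum fun j => hf j), ih]

theorem eq_zero (h : IsSum Q H D) {f : A → HR} (hf : IntF f) (h0 : ∀ a, Mem a H → f a = 0) :
    D f = 0 := by
  obtain ⟨l, -, hl⟩ := h.bd
  have := hl hf 0 fun a ha => by rw [h0 a ha, abs_zero]
  rwa [mul_zero, abs_nonpos_iff] at this

theorem congr (h : IsSum Q H D) {f g : A → HR} (hf : IntF f) (hg : IntF g)
    (e : ∀ a, Mem a H → f a = g a) : D f = D g := by
  rw [← sub_eq_zero, ← h.sub hf hg]
  exact h.eq_zero (hf.sub hg) fun a ha => sub_eq_zero.2 (e a ha)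

theorem oo (h : IsSum Q H D) {f : A → HR} (hf : IntF f) (h0 : ∀ a, Mem a H → f a ∈ OO Q) :
    D f ∈ OO Q := by
  obtain ⟨l, hl0, hl⟩ := h.bd
  obtain ⟨C, hC⟩ := sat_mono (H := fun a : A => Mem a H) (IntP.mem IntF.id (IntF.const H))
    (P := fun C a => |f a| ≤ Q ^ C) (fun _ => IntP.le hf.abs (IntF.const _))
    (fun i j hij a ha => ha.trans (Q_pow_mono hij)) h0
  exact OO_of_abs_le (mul_mem hl0 (pow_mem Q_mem C)) (hl hf _ hC)

end IsSum

namespace FHG

/-- the difference sum along a list -/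
def ds (L : List (S × S)) (φ : S → ℝ) : ℝ := (L.map fun p => φ p.1 - φ p.2).sum

theorem ds_add (L : List (S × S)) (φ ψ : S → ℝ) : ds L (fun s => φ s + ψ s) = ds L φ + ds L ψ := by
  induction L with
  | nil => simp [ds]
  | cons p L ih => simp only [ds, List.map_cons, List.sum_cons] at ih ⊢; rw [ih]; ring

theorem ds_mul (L : List (S × S)) (c : ℝ) (φ : S → ℝ) : ds L (fun s => c * φ s) = c * ds L φ := by
  induction L with
  | nil => simp [ds]
  | cons p L ih => simp only [ds, List.map_cons, List.sum_cons] at ih ⊢; rw [ih]; ring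

theorem ds_int (L : List (S × S)) (φ : S → ℝ)
    (h : ∀ p ∈ L, (∃ z : ℤ, φ p.1 = z) ∧ ∃ z : ℤ, φ p.2 = z) : ∃ z : ℤ, ds L φ = z := by
  induction L with
  | nil => exact ⟨0, by simp [ds]⟩
  | cons p L ih =>
    obtain ⟨z, hz⟩ := ih fun q hq => h q (List.mem_cons_of_mem _ hq)
    obtain ⟨⟨a, ha⟩, b, hb⟩ := h p List.mem_cons_self
    refine ⟨a - b + z, ?_⟩
    simp only [ds, List.map_cons, List.sum_cons] at hz ⊢
    rw [hz, ha, hb]; push_cast; ring

theorem ds_abs (L : List (S × S)) (φ : S → ℝ) {B : ℝ} (h : ∀ p ∈ L, |φ p.1| ≤ B ∧ |φ p.2| ≤ B) :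
    |ds L φ| ≤ 2 * L.length * B := by
  induction L with
  | nil => simp [ds]
  | cons p L ih =>
    have h1 := ih fun q hq => h q (List.mem_cons_of_mem _ hq)
    have h2 := h p List.mem_cons_self
    simp only [ds, List.map_cons, List.sum_cons, List.length_cons] at h1 ⊢
    refine (abs_add_le _ _).trans ?_
    have := abs_sub (φ p.1) (φ p.2)
    push_cast
    linarith [h2.1, h2.2]

open Classical in
/-- the internal difference sum -/
def DL (L : ℕ → List (S × S)) (f : A → HR) : HR :=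
  if h : IntF f then st fun n => ds (L n) (h.choose n) else 0

theorem DL_st (L : ℕ → List (S × S)) {f : A → HR} {φ : ℕ → S → ℝ}
    (h : ∀ x, f (st x) = st fun n => φ n (x n)) : DL L f = st fun n => ds (L n) (φ n) := by
  have hf : IntF f := ⟨φ, h⟩
  rw [DL, dif_pos hf]
  have : ∀ᶠ n in UU, ∀ s, hf.choose n s = φ n s :=
    ev_forall.2 fun x => (NS.eq_iff (A := HR) _ _).1 ((hf.choose_spec x).symm.trans (h x))
  exact st_congr (this.mono fun n hn => by rw [funext hn])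

theorem ev_mem {H : ℕ → Finset S} {π : ℕ → S → Prop}
    (h : ∀ x : ℕ → S, Mem (st x : A) (st H) → ∀ᶠ n in UU, π n (x n)) :
    ∀ᶠ n in UU, ∀ s ∈ H n, π n s := by
  refine ev_forall.2 fun x => ?_
  by_cases c : ∀ᶠ n in UU, x n ∈ H n
  · exact (h x (mem_st.2 c)).mono fun n a _ => a
  · exact (ev_not.2 c).mono fun n a b => (a b).elim

theorem isSum_DL (H : ℕ → Finset S) (L : ℕ → List (S × S))
    (hL : ∀ᶠ n in UU, ∀ p ∈ L n, p.1 ∈ H n ∧ p.2 ∈ H n)
    (hlen : (st fun n => ((L n).length : ℝ) : HR) ∈ OO Q) : IsSum Q (st H) (DL (A := A) L) where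
  add := by
    rintro f g ⟨φ, h1⟩ ⟨ψ, h2⟩
    rw [DL_st L h1, DL_st L h2, DL_st L (φ := fun n s => φ n s + ψ n s) fun x => by
      rw [h1, h2]; rfl]
    simp only [ds_add]
    rfl
  smul := by
    rintro c f ⟨φ, h1⟩
    obtain ⟨c, rfl⟩ := NS.surj c
    rw [DL_st L h1, DL_st L (φ := fun n s => c n * φ n s) fun x => by rw [h1]; rfl]
    simp only [ds_mul]
    rfl
  const c := by
    obtain ⟨c, rfl⟩ := NS.surj c
    rw [DL_st L (φ := fun n _ => c n) fun x => rfl]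
    simp only [ds, sub_self, List.map_const', List.sum_replicate, smul_zero]
    rfl
  zz := by
    rintro f ⟨φ, h1⟩ h
    rw [DL_st L h1]
    have h2 := ev_mem (A := A) (H := H) (π := fun n s => ∃ z : ℤ, φ n s = z) fun x hx => by
      obtain ⟨z, hz⟩ := h _ hx
      rw [h1] at hz
      exact ((NS.eq_iff (A := HR) _ _).1 hz).mono fun n hn => ⟨_, hn⟩
    have h3 : ∀ᶠ n in UU, ∃ z : ℤ, ds (L n) (φ n) = z := by
      filter_upwards [hL, h2] with n a b
      exact ds_int _ _ fun p hp => ⟨b _ (a p hp).1, b _ (a p hp).2⟩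
    obtain ⟨z, hz⟩ := h3.choice
    exact ⟨z, st_congr (A := HR) hz⟩
  bd := by
    refine ⟨2 * st fun n => ((L n).length : ℝ), mul_mem (ofNat_mem _ 2) hlen, ?_⟩
    rintro f ⟨φ, h1⟩ B h
    obtain ⟨B, rfl⟩ := NS.surj B
    rw [DL_st L h1, st_abs]
    have h2 := ev_mem (A := A) (H := H) (π := fun n s => |φ n s| ≤ B n) fun x hx => by
      have := h _ hx
      rwa [h1, st_abs, st_le] at this
    refine (st_le (y := fun n => 2 * ((L n).length : ℝ) * B n)).2 ?_
    filter_upwards [hL, h2] with n a b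
    exact ds_abs _ _ fun p hp => ⟨b _ (a p hp).1, b _ (a p hp).2⟩

end FHG

open FHG in
/-- FH, germ form. -/
theorem fhG {N : HZ} (hN : 0 < N) (hNt : Tiny Q (ci N)⁻¹) {H : Ns (Finset (Unit → ℤ))}
    (hH : ∀ k : Unit → HZ, Mem k H → 0 ≤ k () ∧ k () < N) (hd : Big Q (cd H / ci N))
    {a : (Unit → HZ) → HR} (ha : IntF a) (hb : ∀ k, Mem k H → a k ∈ OO Q)
    (hF : ∀ D : ((Unit → HZ) → HR) → HR, IsSum Q H D → D (fun k => ci (k ())) = 0 → D a = 0) :
    ∃ u v : Unit → HZ, Mem u H ∧ Mem v H ∧ u () ≠ v () ∧ ci (u () - v ()) ∈ OO Q ∧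
      (a u - a v) * ci N ∈ OO Q := by
  classical
  obtain ⟨C1, h1⟩ := sat_mono (H := fun k : Unit → HZ => Mem k H)
    (IntP.mem IntF.id (IntF.const H))
    (P := fun C k => |a k| ≤ Q ^ C) (fun _ => IntP.le ha.abs (IntF.const _))
    (fun i j hij a ha => ha.trans (Q_pow_mono hij)) hb
  obtain ⟨C0, h0⟩ := hd
  have h4 : |(ci N)⁻¹| * Q ^ (C0 + 4) < 1 := not_le.1 fun h => hNt ⟨_, h⟩
  obtain ⟨φ, hφ⟩ := ha
  obtain ⟨Qf, rfl⟩ := NS.surj Q
  obtain ⟨Nf, rfl⟩ := NS.surj N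
  obtain ⟨Hf, rfl⟩ := NS.surj H
  have q2 : ∀ᶠ n in UU, 2 ≤ Qf n := (st_le (x := fun _ => 2)).1 hQ.out
  have n0 : ∀ᶠ n in UU, 0 < Nf n := (st_lt (x := fun _ => 0)).1 hN
  have g0 : ∀ᶠ n in UU, 1 ≤ |((Hf n).card : ℝ) / Nf n| * Qf n ^ C0 := by
    change (st fun _ => 1 : HR) ≤ |(st fun n => ((Hf n).card : ℝ) / Nf n : HR)| * _ at h0
    rw [st_abs] at h0
    exact st_le.1 h0
  have g4 : ∀ᶠ n in UU, |(Nf n : ℝ)⁻¹| * Qf n ^ (C0 + 4) < 1 := by
    change |(st fun n => (Nf n : ℝ)⁻¹ : HR)| * _ < (st fun _ => 1 : HR) at h4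
    rw [st_abs] at h4
    exact st_lt.1 h4
  have g1 := ev_mem (A := Unit → HZ) (H := Hf) (π := fun n s => |φ n s| ≤ Qf n ^ C1) fun x hx => by
    have := h1 _ hx
    rw [hφ, st_abs] at this
    exact st_le.1 this
  have g2 := ev_mem (A := Unit → HZ) (H := Hf) (π := fun n s => 0 ≤ s () ∧ s () < Nf n)
    fun x hx => ((st_le (x := fun _ => 0)).1 (hH _ hx).1).and (st_lt.1 (hH _ hx).2)
  have g3 : ∀ᶠ n in UU, ∀ L : List ((Unit → ℤ) × (Unit → ℤ)), (L.length : ℝ) ≤ 21 * Qf n ^ C0 →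
      (∀ p ∈ L, p.1 ∈ Hf n ∧ p.2 ∈ Hf n) → ds L (fun s => (s () : ℝ)) = 0 → ds L (φ n) = 0 := by
    refine ev_forall.2 fun L => ?_
    by_cases c : ∀ᶠ n in UU, ((L n).length : ℝ) ≤ 21 * Qf n ^ C0 ∧
      (∀ p ∈ L n, p.1 ∈ Hf n ∧ p.2 ∈ Hf n) ∧ ds (L n) (fun s => (s () : ℝ)) = 0
    · have hs : IsSum (st Qf : HR) (st Hf) (DL (A := Unit → HZ) L) :=
        isSum_DL Hf L (c.mono fun n hn => hn.2.1) (by
          refine OO_of_abs_le (y := 21 * (st Qf : HR) ^ C0)
            (mul_mem (ofNat_mem _ 21) (pow_mem Q_mem C0)) ?_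
          rw [st_abs]
          refine (st_le (y := fun n => 21 * Qf n ^ C0)).2 (c.mono fun n hn => ?_)
          rw [Nat.abs_cast]; exact hn.1)
      have := hF _ hs (by
        rw [DL_st L (φ := fun n s => (s () : ℝ)) fun x => rfl]
        exact st_congr (A := HR) (y := fun _ => 0) (c.mono fun n hn => hn.2.2))
      rw [DL_st L hφ] at this
      exact ((NS.eq_iff (A := HR) _ (fun _ => 0)).1 this).mono fun n hn _ _ _ => hn
    · exact (ev_not.2 c).mono fun n hn a1 a2 a3 => (hn ⟨a1, a2, a3⟩).elim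
  have key : ∀ᶠ n in UU, ∃ p : (Unit → ℤ) × (Unit → ℤ), p.1 ∈ Hf n ∧ p.2 ∈ Hf n ∧
      p.1 () ≠ p.2 () ∧ |((p.1 () - p.2 () : ℤ) : ℝ)| ≤ 8 * Qf n ^ C0 ∧
      |(φ n p.1 - φ n p.2) * Nf n| ≤ 320 * (Qf n ^ C0) ^ 2 * Qf n ^ C1 := by
    filter_upwards [q2, n0, g0, g4, g1, g2, g3] with n a1 a2 a3 a4 a5 a6 a7
    have b0 : (0 : ℝ) < Nf n := by exact_mod_cast a2
    have b1 : 0 < Qf n := by linarith
    have b2 : 0 < Qf n ^ C0 := pow_pos b1 _
    have b3 : 0 < Qf n ^ C1 := pow_pos b1 _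
    have hinj : Function.Injective fun s : Unit → ℤ => s () := fun s t h => funext fun _ => h
    rw [abs_of_pos (inv_pos.2 b0), inv_mul_lt_iff₀ b0, mul_one, pow_add] at a4
    rw [abs_of_nonneg (div_nonneg (Nat.cast_nonneg _) b0.le), div_mul_eq_mul_div,
      le_div_iff₀ b0, one_mul] at a3
    have b4 : (16 : ℝ) ≤ Qf n ^ 4 := by
      have := pow_le_pow_left₀ (by norm_num : (0 : ℝ) ≤ 2) a1 4
      linarith
    have hmem : ∀ k : ℤ, k ∈ (Hf n).image (fun s => s ()) → (fun _ => k) ∈ Hf n := by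
      intro k hk
      obtain ⟨s, hs, rfl⟩ := Finset.mem_image.1 hk
      exact hs
    obtain ⟨u, hu, v, hv, huv, c1, c2⟩ := fh_list ((Hf n).image fun s => s ())
      (fun k => (Qf n ^ C1)⁻¹ * φ n fun _ => k) (d := (Qf n ^ C0)⁻¹) (M := Nf n) (inv_pos.2 b2)
      (inv_le_one_of_one_le₀ (one_le_pow₀ (by linarith)))
      (by rw [le_inv_mul_iff₀ b2]; nlinarith)
      (fun u hu v hv => by
        have e1 := (a6 _ (hmem u hu)).2
        have e2 := (a6 _ (hmem v hv)).1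
        exact_mod_cast (by omega : u - v ≤ Nf n))
      (by rw [Finset.card_image_of_injective _ hinj, inv_mul_le_iff₀ b2]; linarith)
      (fun k hk => by
        rw [Real.norm_eq_abs, abs_mul, abs_of_pos (inv_pos.2 b3), inv_mul_le_iff₀ b3, mul_one]
        exact a5 _ (hmem k hk))
      (fun L l1 l2 l3 => by
        have := a7 (L.map fun p => (fun _ => p.1, fun _ => p.2))
          (by rwa [List.length_map, ← div_inv_eq_mul])
          (fun p hp => by
            obtain ⟨q, hq, rfl⟩ := List.mem_map.1 hp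
            exact ⟨hmem _ (l2 q hq).1, hmem _ (l2 q hq).2⟩)
          (by
            have := congrArg (Int.cast : ℤ → ℝ) l3
            rw [Int.cast_list_sum, List.map_map, Int.cast_zero] at this
            rw [ds, List.map_map, ← this]
            congr 2
            ext p
            simp)
        have h5 := ds_mul L (Qf n ^ C1)⁻¹ fun k => φ n fun _ => k
        rw [ds, List.map_map] at this
        refine h5.trans ?_
        rw [ds]
        exact mul_eq_zero_of_right _ this)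
    refine ⟨(fun _ => u, fun _ => v), hmem u hu, hmem v hv, huv.ne', ?_, ?_⟩
    · rw [abs_of_nonneg (by exact_mod_cast (by omega : 0 ≤ u - v)), ← div_inv_eq_mul]
      exact c1
    · rw [← mul_sub, Real.norm_eq_abs, abs_mul, abs_of_pos (inv_pos.2 b3), inv_pow,
        div_inv_eq_mul, mul_assoc, inv_mul_le_iff₀ b3] at c2
      rw [abs_mul, abs_of_pos b0]
      linarith
  obtain ⟨p, hp⟩ := key.choice
  refine ⟨st fun n => (p n).1, st fun n => (p n).2, mem_st.2 (hp.mono fun n h => h.1),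
    mem_st.2 (hp.mono fun n h => h.2.1), fun h => ?_, ?_, ?_⟩
  · exact ev_not.1 (hp.mono fun n h => h.2.2.1) ((NS.eq_iff (A := HZ) _ _).1 h)
  · refine OO_of_abs_le (y := 8 * (st Qf : HR) ^ C0) (mul_mem (ofNat_mem _ 8) (pow_mem Q_mem C0)) ?_
    change |(st fun n => (((p n).1 () - (p n).2 () : ℤ) : ℝ) : HR)| ≤ _
    rw [st_abs]
    exact (st_le (y := fun n => 8 * Qf n ^ C0)).2 (hp.mono fun n h => h.2.2.2.1)
  · refine OO_of_abs_le (y := 320 * ((st Qf : HR) ^ C0) ^ 2 * (st Qf : HR) ^ C1)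
      (mul_mem (mul_mem (ofNat_mem _ 320) (pow_mem (pow_mem Q_mem C0) 2)) (pow_mem Q_mem C1)) ?_
    rw [hφ, hφ]
    change |(st fun n => (φ n (p n).1 - φ n (p n).2) * (Nf n : ℝ) : HR)| ≤ _
    rw [st_abs]
    exact (st_le (y := fun n => 320 * (Qf n ^ C0) ^ 2 * Qf n ^ C1)).2
      (hp.mono fun n h => h.2.2.2.2)

end Pool.Agent.P.MP_a14ce1_nt.Nil
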