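import Pool.Agent.P.MP_a14ce1_nt.Nil.Fejer

/-!
Discrete Fourier coefficients of almost periodic functions and the discrete Fejér approximation.
-/

open Finset Complex
open scoped Real BigOperators

noncomputable section

namespace Pool.Agent.P.MP_a14ce1_nt.Nil

theorem eR_ne_one {t : ℝ} (h0 : t ≠ 0) (h1 : |t| < 1) : eR t ≠ 1 := by
  have key : ∀ u : ℝ, 0 < u → u < 1 → eR u ≠ 1 := fun u a b h => by
    have := min_le_norm a.le b.le
    rw [h, sub_self, norm_zero] at this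
    have : 0 < min u (1 - u) := lt_min a (by linarith)
    linarith
  rcases lt_or_gt_of_ne h0 with h | h
  · intro e
    refine key (-t) (by linarith) (by rwa [abs_of_neg h] at h1) ?_
    rw [eR_neg, e, map_one]
  · exact key t h (by rwa [abs_of_pos h] at h1)

theorem sum_eR {M j : ℤ} (hM : 0 < M) (hj : |j| < M) :
    ∑ s ∈ Ico 0 M, eR (j * (s / M)) = if j = 0 then (M : ℂ) else 0 := by
  lift M to ℕ using hM.le
  have M0 : (0 : ℝ) < M := by exact_mod_cast hM
  have e : ∑ s ∈ Ico (0 : ℤ) M, eR (j * (s / (M : ℤ))) = ∑ s ∈ range M, eR (j / M) ^ s := by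
    rw [← Nat.Ico_zero_eq_range]
    refine (sum_nbij (fun s : ℕ => (s : ℤ)) (by simp) (fun _ _ _ _ h => Nat.cast_injective h)
      (fun s hs => ⟨s.toNat, by simp at hs ⊢; omega, by simp at hs ⊢; omega⟩) fun s _ => ?_).symm
    rw [← eR_nat_mul]; congr 1; push_cast; ring
  rw [e]
  split_ifs with h
  · simp [h]
  · have h1 : eR (j / M) ≠ 1 := eR_ne_one (by simp [h, M0.ne']) (by
      rw [abs_div, abs_of_pos M0, div_lt_one M0]; exact_mod_cast hj)
    rw [geom_sum_eq h1, ← eR_nat_mul, mul_div_cancel₀ _ M0.ne', eR_int, sub_self, zero_div]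

/-- The discrete Fourier coefficient. -/
def dfour (M : ℤ) (f : ℝ → ℂ) (j : ℤ) : ℂ := 𝔼 s ∈ Ico 0 M, f (s / M) * eR (-(j * (s / M)))

theorem norm_expect_le' {J : Type} {T : Finset J} {g : J → ℂ} {c : ℝ} (c0 : 0 ≤ c)
    (h : ∀ s ∈ T, ‖g s‖ ≤ c) : ‖𝔼 s ∈ T, g s‖ ≤ c := by
  rcases T.eq_empty_or_nonempty with rfl | hT
  · simpa using c0
  · exact (RCLike.norm_expect_le (K := ℂ)).trans (expect_le hT h)

theorem dfour_shift {M : ℤ} (hM : 0 < M) {f : ℝ → ℂ} {η : ℝ} (hb : ∀ t, ‖f t‖ ≤ 1)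
    (hp : ∀ t (k : ℤ), ‖f (t + k) - f t‖ ≤ η) (hc : ∀ s t : ℝ, |t| ≤ 1 / M → ‖f (s + t) - f s‖ ≤ η)
    (u : ℝ) (j : ℤ) :
    ‖dfour M (fun t => f (u + t)) j - eR (j * u) * dfour M f j‖ ≤ 2 * η + 7 * (|j| / M) := by
  have M0 : (0 : ℝ) < M := by exact_mod_cast hM
  have η0 : 0 ≤ η := (norm_nonneg _).trans (hp 0 0)
  set r := ⌊u * M⌋ with hr
  set t := u - r / M with ht
  have t1 : |t| ≤ 1 / M := by
    have e : t = Int.fract (u * M) / M := by rw [ht, Int.fract, hr]; field_simp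
    rw [e, abs_div, abs_of_pos M0, abs_of_nonneg (Int.fract_nonneg _)]
    gcongr; exact (Int.fract_lt_one _).le
  have e1 : dfour M f j = 𝔼 s ∈ Ico 0 M, f (((s + r) % M : ℤ) / M) *
      eR (-(j * (((s + r) % M : ℤ) / M))) := by
    refine (expect_nbij' (fun s => (s + r) % M) (fun s => (s - r) % M) (fun s _ => ?_)
      (fun s _ => ?_) (fun s hs => ?_) (fun s hs => ?_) fun s _ => rfl).symm
    · exact mem_Ico.2 ⟨Int.emod_nonneg _ hM.ne', Int.emod_lt_of_pos _ hM⟩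
    · exact mem_Ico.2 ⟨Int.emod_nonneg _ hM.ne', Int.emod_lt_of_pos _ hM⟩
    · rw [Int.emod_sub_emod, add_sub_cancel_right,
        Int.emod_eq_of_lt (mem_Ico.1 hs).1 (mem_Ico.1 hs).2]
    · rw [Int.emod_add_emod, sub_add_cancel, Int.emod_eq_of_lt (mem_Ico.1 hs).1 (mem_Ico.1 hs).2]
  rw [e1, dfour, mul_expect, ← expect_sub_distrib]
  refine norm_expect_le' (by positivity) fun s _ => ?_
  set v : ℝ := ((s + r) % M : ℤ) / M with hv
  set k := (s + r) / M with hk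
  have e2 : u + s / M = v + k + t := by
    have := Int.emod_add_mul_ediv (s + r) M
    have h2 : (((s + r) % M : ℤ) : ℝ) + M * k = s + r := by exact_mod_cast this
    rw [hv, ht]; field_simp; linarith
  have e3 : eR (j * u) * eR (-(j * v)) = eR (-(j * (s / M)) + j * t) := by
    rw [← eR_add, ← eR_add_int (-(j * (s / M)) + j * t) (j * k)]
    congr 1; push_cast; linear_combination j * e2
  have e4 : f (u + s / M) * eR (-(j * (s / M))) - eR (j * u) * (f v * eR (-(j * v)))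
      = (f (v + k + t) - f (v + k) + (f (v + k) - f v)) * eR (-(j * (s / M)))
        + f v * (eR (-(j * (s / M))) - eR (-(j * (s / M)) + j * t)) := by
    rw [e2, mul_left_comm, e3]; ring
  rw [e4]
  refine (norm_add_le _ _).trans (add_le_add ?_ ?_)
  · rw [norm_mul, norm_eR, mul_one]
    linarith [norm_add_le (f (v + k + t) - f (v + k)) (f (v + k) - f v), hc (v + k) t t1, hp v k]
  · rw [norm_mul]
    refine (mul_le_of_le_one_left (norm_nonneg _) (hb v)).trans ((norm_eR_sub_le _ _).trans ?_)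
    rw [sub_add_cancel_left, abs_neg, abs_mul, div_eq_mul_one_div]
    push_cast
    gcongr

theorem dfejer {M m : ℤ} (hm : 0 < m) (hM : m ≤ M) {f : ℝ → ℂ} {η ρ : ℝ} (ρ0 : 0 < ρ)
    (hb : ∀ t, ‖f t‖ ≤ 1) (hc : ∀ t, 0 ≤ t → t ≤ 1 → min t (1 - t) ≤ ρ → ‖f 0 - f t‖ ≤ η) :
    ‖f 0 - m * 𝔼 p ∈ Ico 0 m ×ˢ Ico 0 m, dfour M f (p.1 - p.2)‖ ≤ η + 1 / (2 * m * ρ ^ 2) := by
  have m0 : (0 : ℝ) < m := by exact_mod_cast hm
  have M0 : (0 : ℝ) < M := by exact_mod_cast hm.trans_le hM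
  have η0 : 0 ≤ η := (norm_nonneg _).trans (hc 0 le_rfl zero_le_one (by simp [ρ0.le]))
  set S : ℝ → ℂ := fun t => ∑ k ∈ Ico 0 m, eR (k * t) with hS
  have hK : ∀ t, ∑ p ∈ Ico 0 m ×ˢ Ico 0 m, eR (-(((p.1 - p.2 : ℤ) : ℝ) * t))
      = ((‖S t‖ ^ 2 : ℝ) : ℂ) := fun t => by
    rw [ofReal_pow, ← conj_mul', hS, map_sum, sum_mul_sum, sum_product]
    refine sum_congr rfl fun k _ => sum_congr rfl fun l _ => ?_
    rw [← eR_neg, ← eR_add]; congr 1; push_cast; ring
  have mc : (m : ℂ) ≠ 0 := by exact_mod_cast hm.ne'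
  have Mc : (M : ℂ) ≠ 0 := by exact_mod_cast M0.ne'
  have cm : ((Ico 0 m).card : ℂ) = m := by
    rw [Int.card_Ico, sub_zero]; exact_mod_cast Int.toNat_of_nonneg hm.le
  have cM : ((Ico 0 M).card : ℂ) = M := by
    rw [Int.card_Ico, sub_zero]; exact_mod_cast Int.toNat_of_nonneg (hm.le.trans hM)
  have h1 : ∀ g : ℝ → ℂ, m * 𝔼 p ∈ Ico 0 m ×ˢ Ico 0 m, dfour M g (p.1 - p.2)
      = 𝔼 s ∈ Ico 0 M, g (s / M) * ((‖S (s / M)‖ ^ 2 / m : ℝ) : ℂ) := fun g => by
    simp only [dfour]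
    rw [expect_comm, mul_expect]
    refine expect_congr rfl fun s _ => ?_
    rw [← mul_expect, expect_eq_sum_div_card, hK, card_product, Nat.cast_mul, cm]
    push_cast; field_simp
  have h2 : 𝔼 s ∈ Ico 0 M, ((‖S (s / M)‖ ^ 2 / m : ℝ) : ℂ) = 1 := by
    have := h1 fun _ => 1
    simp only [one_mul] at this
    rw [← this]
    have e : ∀ p ∈ Ico 0 m ×ˢ Ico 0 m, dfour M (fun _ => 1) (p.1 - p.2)
        = if p.1 = p.2 then 1 else 0 := fun p hp => by
      simp only [mem_product, mem_Ico] at hp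
      have := sum_eR (M := M) (j := p.2 - p.1) (by omega) (by rw [abs_lt]; omega)
      rw [dfour, expect_eq_sum_div_card, cM, div_eq_iff Mc, ite_mul, one_mul, zero_mul]
      simp only [sub_eq_zero, eq_comm (a := p.2)] at this
      rw [← this]
      refine sum_congr rfl fun s _ => ?_
      rw [one_mul]; congr 1; push_cast; ring
    rw [expect_congr rfl e, expect_eq_sum_div_card, sum_product, card_product, Nat.cast_mul, cm]
    simp only [sum_ite_eq]
    rw [sum_congr rfl fun k hk => if_pos hk, sum_const, nsmul_eq_mul, cm]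
    field_simp
  have h2' : 𝔼 s ∈ Ico 0 M, ‖S (s / M)‖ ^ 2 / m = 1 := by
    rw [← ofReal_expect] at h2; exact_mod_cast h2
  have h3 : f 0 - m * 𝔼 p ∈ Ico 0 m ×ˢ Ico 0 m, dfour M f (p.1 - p.2)
      = 𝔼 s ∈ Ico 0 M, (f 0 - f (s / M)) * ((‖S (s / M)‖ ^ 2 / m : ℝ) : ℂ) := by
    simp only [sub_mul]
    rw [expect_sub_distrib, h1, ← mul_expect, h2, mul_one]
  have hne : (Ico 0 M).Nonempty := ⟨0, mem_Ico.2 ⟨le_rfl, hm.trans_le hM⟩⟩
  rw [h3]
  refine (RCLike.norm_expect_le (K := ℂ)).trans ((expect_le_expect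
    (g := fun s : ℤ => η * (‖S (s / M)‖ ^ 2 / m) + 1 / (2 * m * ρ ^ 2)) fun s hs => ?_).trans ?_)
  · have s0 : (0 : ℝ) ≤ s / M := div_nonneg (by exact_mod_cast (mem_Ico.1 hs).1) M0.le
    have s1 : (s / M : ℝ) ≤ 1 := (div_le_one M0).2 (by exact_mod_cast (mem_Ico.1 hs).2.le)
    generalize (s / M : ℝ) = t at s0 s1
    rw [norm_mul, norm_real, Real.norm_of_nonneg (by positivity)]
    rcases le_total (min t (1 - t)) ρ with h | h
    · exact le_add_of_le_of_nonneg (by gcongr; exact hc t s0 s1 h) (by positivity)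
    · refine le_add_of_nonneg_of_le (by positivity) ?_
      have a2 := min_le_norm s0 s1
      have a3 : ‖S t‖ * ‖eR t - 1‖ ≤ 2 := by
        have e : S t * (eR t - 1) = eR (m * t) - 1 := by
          lift m to ℕ using hm.le
          rw [hS, Int.cast_natCast, eR_nat_mul, ← geom_sum_mul, ← Nat.Ico_zero_eq_range]
          congr 1
          refine (sum_nbij (fun s : ℕ => (s : ℤ)) (by simp) (fun _ _ _ _ h => Nat.cast_injective h)
            (fun s hs => ⟨s.toNat, by simp at hs ⊢; omega, by simp at hs ⊢; omega⟩)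
            fun s _ => ?_).symm
          rw [← eR_nat_mul, Int.cast_natCast]
        rw [← norm_mul, e]
        refine (norm_sub_le _ _).trans ?_
        rw [norm_eR]; norm_num
      have a4 : ‖S t‖ * ρ ≤ 1 / 2 := by nlinarith [norm_nonneg (S t)]
      have a5 : (‖S t‖ * ρ) ^ 2 ≤ (1 / 2) ^ 2 := by gcongr
      have a6 : ‖f 0 - f t‖ ≤ 2 := by linarith [norm_sub_le (f 0) (f t), hb 0, hb t]
      calc _ ≤ 2 * (‖S t‖ ^ 2 / m) := by gcongr
        _ = 2 * (‖S t‖ * ρ) ^ 2 / (m * ρ ^ 2) := by field_simp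
        _ ≤ 2 * (1 / 2) ^ 2 / (m * ρ ^ 2) := by gcongr
        _ = _ := by field_simp
  · rw [expect_add_distrib, ← mul_expect, h2', expect_const hne, mul_one]

end Pool.Agent.P.MP_a14ce1_nt.Nil
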