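import Pool.Agent.P.MP_a14ce1_nt.Nil.Win
import Pool.Agent.P.MP_a14ce1_nt.Nil.NiceL
import Pool.Agent.P.MP_a14ce1_nt.Nil.Std
import Pool.Agent.P.MP_a14ce1_nt.Nil.Avg
import Pool.Agent.P.MP_a14ce1_nt.GI.Def0

/-!
Fair sampling and extension for nilsequences of one type, in counting form, from the
corresponding statements over the scale field.
-/

open Filter Finset
open scoped BigOperators ComplexConjugate

set_option linter.unusedSectionVars false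

noncomputable section

namespace Pool.Agent.P.MP_a14ce1_nt.Nil

/-- Fair sampling over the scale field. -/
def S_fsK : Prop := ∀ (ι : Type) [Fintype ι] [DecidableEq ι] (lv : ι → ℕ) (Q : HR) [Fact (2 ≤ Q)]
  (g : Fam (KK Q) lv ℕ) (D : ℕ), g.Fil D → ∀ A R P c : HZ, Long Q (fun _ : Unit => P) →
  Lat Q (ci R) (ci c) → Tiny Q (ci P * ci c / ci R) → ∀ x ∈ (g.fine Unit).PG,
    ¬Dense Q (box fun _ : Unit => P) fun p : Unit → HZ => Prm Q (ci (p ())) ∧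
      ∃ q F, Nice Q q g.GG F ∧ ∃ e ∈ (g.fine Unit).PG ⊓ EA Q (ci A) (ci R) lv,
        ∃ γ ∈ (g.fine Unit).PG ⊓ LL Q (ci c) lv,
          BigC Q ((Ex (lat (p () * c) A R) fun n => F (e1 n (e * x * γ)))
            - Ex (lat c A R) fun n => F (e1 n (e * x * γ)))

/-- Extension over the scale field. -/
def S_extK : Prop := ∀ (ι : Type) [Fintype ι] [DecidableEq ι] (lv : ι → ℕ) (Q : HR) [Fact (2 ≤ Q)]
  (g : Fam (KK Q) lv ℕ) (D : ℕ), g.Fil D → ∀ A R P V : HZ, Long Q (fun _ : Unit => P) → 0 < R →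
  Tiny Q (ci P * ci V * ci V / ci R) → ∀ (T : Ns (Finset ℕ)) (v : Ns ℕ → HZ), IntF v →
  (∀ y, Mem y T → 0 < v y ∧ v y ≤ V) →
  (¬Dense Q (fprod T T) fun z : Ns ℕ × Ns ℕ => ¬Cop (ci (v z.1)) (ci (v z.2))) →
  ∀ (q : HR) (Ψ : Ns ℕ → UT lv HR → HC), (IntF fun z : Ns ℕ × UT lv HR => Ψ z.1 z.2) →
  ∀ w : Ns ℕ → PS lv Unit HR, IntS w →
  (∀ y, Mem y T → Nice Q q g.GG (Ψ y) ∧ w y ∈ (g.fine Unit).PG) →
  ∀ F : (Unit → HZ) → UT lv HR → HC, (IntF fun z : (Unit → HZ) × UT lv HR => F z.1 z.2) →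
  ∀ x : (Unit → HZ) → PS lv Unit HR, IntS x → ∀ π : (Unit → HZ) → Prop,
  (Dense Q (box fun _ : Unit => P) fun p => π p ∧ Prm Q (ci (p ())) ∧
      Nice Q q g.GG (F p) ∧ x p ∈ (g.fine Unit).PG) →
    ∃ p, Mem p (box fun _ : Unit => P) ∧ π p ∧ ∃ u ∈ (g.fine Unit).PG, ∃ ε, Tiny Q ε ∧
      nm (Ex T fun y => Ex (lat (p () * v y) A R) fun n => Ψ y (e1 n (w y)) * F p (e1 n (x p)))
        ≤ nm (Ex T fun y => Ex (lat (v y) A R) fun n => Ψ y (e1 n (w y)) * F p (e1 n u)) + ε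

/-- The mean over the multiples of `c` in `[A, A + R)`. -/
def mean (c A R : ℤ) (φ : ℤ → ℂ) : ℂ := 𝔼 n ∈ latF c A R, φ n

namespace FinK

theorem lat_st (c A R : ℕ → ℤ) :
    lat (st c) (st A) (st R) = st fun n => latF (c n) (A n) (R n) :=
  st_congr (((rep_st (A := HZ) c).and ((rep_st (A := HZ) A).and (rep_st (A := HZ) R))).mono
    fun n h => by rw [h.1, h.2.1, h.2.2])

theorem cop_st {d d' : ℕ → ℤ} (h : ∀ᶠ n in UU, IsCoprime (d n) (d' n)) :
    Cop (ci (st d)) (ci (st d')) := by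
  obtain ⟨z, hz⟩ := ev_exists.1 (h.mono fun n ⟨a, b, e⟩ =>
    (⟨(a, b), e⟩ : ∃ z : ℤ × ℤ, z.1 * d n + z.2 * d' n = 1))
  refine ⟨_, ⟨fun n => (z n).1, rfl⟩, _, ⟨fun n => (z n).2, rfl⟩,
    st_congr (A := HR) (y := fun _ => 1) (hz.mono fun n e => ?_)⟩
  change ((z n).1 : ℝ) * (d n : ℝ) + ((z n).2 : ℝ) * (d' n : ℝ) = 1
  exact_mod_cast e

variable {Q : ℕ → ℝ} [hQ : Fact (2 ≤ (st Q : HR))]

theorem two_le : ∀ᶠ n in UU, 2 ≤ Q n := st_le.1 hQ.out

theorem tiny_st {x : ℕ → ℝ} (h : ∀ᶠ n in UU, |x n| * Q n ^ n ≤ 1) : Tiny (st Q) (st x : HR) := by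
  refine tiny_iff.2 fun C => ?_
  rw [st_abs]
  refine st_le.2 ?_
  filter_upwards [h, two_le (Q := Q), ev_ge C] with n a b c
  change |x n| * Q n ^ C ≤ 1
  exact (mul_le_mul_of_nonneg_left (pow_le_pow_right₀ (by linarith) c) (abs_nonneg _)).trans a

theorem big_st {x : ℕ → ℝ} (h : ∀ᶠ n in UU, 1 ≤ x n * Q n) : Big (st Q) (st x : HR) := by
  refine ⟨1, ?_⟩
  rw [st_abs]
  refine st_le.2 ?_
  filter_upwards [h, two_le (Q := Q)] with n a b
  change 1 ≤ |x n| * Q n ^ 1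
  rw [pow_one]
  exact a.trans (mul_le_mul_of_nonneg_right (le_abs_self _) (by linarith))

theorem prm_st {p : ℕ → ℕ} (h : ∀ᶠ n in UU, (p n).Prime ∧ Q n ^ n ≤ p n) :
    Prm (st Q) (ci (st fun n => (p n : ℤ))) := by
  refine ⟨⟨_, rfl⟩, ci_pos.2 (st_lt.2 (h.mono fun n a => Int.natCast_pos.2 a.1.pos)), ?_⟩
  rintro _ ⟨r, rfl⟩ ⟨C, hC⟩ h0
  refine cop_st (d' := r) ?_
  have h1 : ∀ᶠ n in UU, ¬((r n : ℝ) = 0) := ev_not.2 fun c => h0 (st_congr (A := HR) c)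
  rw [coe_abs] at hC
  filter_upwards [h, two_le (Q := Q), ev_ge (C + 1), h1, st_le.1 hC] with n a b c d e
  change |(r n : ℝ)| ≤ Q n ^ C at e
  have h2 : |(r n : ℝ)| < p n :=
    e.trans_lt ((pow_lt_pow_right₀ (by linarith) c).trans_le a.2)
  have h3 : |r n| < p n := by exact_mod_cast h2
  refine (Nat.prime_iff_prime_int.1 a.1).coprime_iff_not_dvd.2 fun k => d ?_
  rw [Int.cast_eq_zero]
  exact Int.eq_zero_of_abs_lt_dvd k h3

/-- A set of primes as a set of integer points. -/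
def emb : ℕ ↪ (Unit → ℤ) := ⟨fun p _ => p, fun _ _ h => Nat.cast_injective (congrFun h ())⟩

theorem long_st {M : ℕ → ℕ} {B : ℕ → Finset ℕ} (hne : ∀ n, (B n).Nonempty)
    (hB : ∀ n, ∀ p ∈ B n, p.Prime ∧ Q n ^ n ≤ p ∧ p < M n) :
    Long (st Q) fun _ : Unit => (st fun n => (M n : ℤ) : HZ) := fun _ => by
  have h : ∀ n, 0 < M n ∧ Q n ^ n ≤ M n := fun n =>
    let ⟨p, hp⟩ := hne n
    ⟨(Nat.zero_le p).trans_lt (hB n p hp).2.2,
      (hB n p hp).2.1.trans (Nat.cast_le.2 (hB n p hp).2.2.le)⟩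
  refine ⟨st_lt.2 (Eventually.of_forall fun n => Int.natCast_pos.2 (h n).1),
    tiny_st (x := fun n => (((M n : ℤ) : ℝ))⁻¹) (Eventually.of_forall fun n => ?_)⟩
  have h0 : (0 : ℝ) < M n := Nat.cast_pos.2 (h n).1
  rw [Int.cast_natCast, abs_of_pos (inv_pos.2 h0), inv_mul_le_iff₀ h0, mul_one]
  exact (h n).2

theorem dense_st {M : ℕ → ℕ} {B : ℕ → Finset ℕ} (hne : ∀ n, (B n).Nonempty)
    (hB : ∀ n, ∀ p ∈ B n, p < M n) (hc : ∀ n, (M n : ℝ) ≤ Q n * (B n).card)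
    {π : (Unit → HZ) → Prop}
    (h : ∀ p : ℕ → ℕ, (∀ᶠ n in UU, p n ∈ B n) → π (st fun n => emb (p n))) :
    Dense (st Q) (box fun _ : Unit => (st fun n => (M n : ℤ) : HZ)) π := by
  have hM : ∀ n, 0 < M n := fun n => let ⟨p, hp⟩ := hne n; (Nat.zero_le p).trans_lt (hB n p hp)
  refine ⟨st fun n => (B n).map emb, st_ind fun a ha => ?_, ?_⟩
  · obtain ⟨p, hp⟩ := ev_exists.1 ((mem_st.1 ha).mono fun n hn => mem_map.1 hn)
    rw [eventually_and] at hp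
    rw [← st_congr (A := Unit → HZ) hp.2]
    exact ⟨mem_box.2 fun _ => ⟨st_le.2 (Eventually.of_forall fun n => Int.natCast_nonneg _),
      st_lt.2 (hp.1.mono fun n hn => Int.ofNat_lt.2 (hB n _ hn))⟩, h p hp.1⟩
  · rw [cd_box fun _ => st_le.2 (Eventually.of_forall fun n => Int.natCast_nonneg _),
      Fintype.prod_unique]
    refine big_st (x := fun n => (((B n).map emb).card : ℝ) / ((M n : ℤ) : ℝ))
      (Eventually.of_forall fun n => ?_)
    rw [card_map, Int.cast_natCast, div_mul_eq_mul_div, one_le_div (Nat.cast_pos.2 (hM n)),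
      mul_comm]
    exact hc n

theorem cop_dense {U : ℕ → Finset ℕ} {v : ℕ → ℕ → ℕ} {v' : Ns ℕ → HZ}
    (ev' : ∀ m : ℕ → ℕ, v' (st m) = st fun n => (v n (m n) : ℤ)) (hU : ∀ n, (U n).Nonempty)
    (hv : ∀ n, ∀ m ∈ U n, (v n m).Prime) (hcol : ∀ n,
      (((U n ×ˢ U n).filter fun z => v n z.1 = v n z.2).card : ℝ) * Q n ^ n
        ≤ (U n).card * (U n).card) :
    ¬Dense (st Q) (fprod (st U) (st U))
      fun z : Ns ℕ × Ns ℕ => ¬Cop (ci (v' z.1)) (ci (v' z.2)) := by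
  rintro ⟨K, h1, h2⟩
  have h3 : cd K ≤ cd (st fun n => (U n ×ˢ U n).filter fun z => v n z.1 = v n z.2) := by
    refine cd_mono (A := Ns ℕ × Ns ℕ) (st_ind fun z hz => ?_)
    obtain ⟨h3, h4⟩ := h1 _ hz
    rw [fprod_st, mem_st] at h3
    have h5 : ∀ᶠ n in UU, v n (z n).1 = v n (z n).2 := by
      by_contra c
      refine h4 ?_
      change Cop (ci (v' (st fun n => (z n).1))) (ci (v' (st fun n => (z n).2)))
      rw [ev', ev']
      refine cop_st ((h3.and (ev_not.2 c)).mono fun n hn => ?_)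
      have := mem_product.1 hn.1
      exact Nat.isCoprime_iff_coprime.2
        ((Nat.coprime_primes (hv n _ this.1) (hv n _ this.2)).2 hn.2)
    exact mem_st.2 ((h3.and h5).mono fun n hn => mem_filter.2 hn)
  have h4 := h2.mono (cd_div_nonneg _ _) (div_le_div_of_nonneg_right h3 (cd_nonneg _))
  rw [fprod_st, cd_st, cd_st] at h4
  refine tiny_st (Q := Q) (x := fun n =>
    (((U n ×ˢ U n).filter fun z => v n z.1 = v n z.2).card : ℝ) / ((U n ×ˢ U n).card : ℝ))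
    (Eventually.of_forall fun n => ?_) h4
  have h0 : (0 : ℝ) < (U n).card := Nat.cast_pos.2 (hU n).card_pos
  rw [abs_of_nonneg (by positivity), card_product, Nat.cast_mul, div_mul_eq_mul_div,
    div_le_one (mul_pos h0 h0)]
  exact hcol n

variable {ι : Type} [Fintype ι] [DecidableEq ι] {lv : ι → ℕ}

theorem e1_st {x : ℕ → PS lv Unit ℝ} {y : PS lv Unit HR} (h : Germs x y) (m : ℕ → ℤ) :
    e1 (st m) y = st fun n => ev (fun _ => (m n : ℝ)) (x n) := h.ev fun n _ => (m n : ℝ)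

end FinK

open FinK

/-- Fair sampling, counting form. -/
theorem fs_count (H : S_fsK) (T : GI.Ty) (k : ℕ) : ∃ C : ℕ, ∀ Q : ℝ, 2 ≤ Q →
    ∀ (A R : ℤ) (M : ℕ) (B : Finset ℕ), B.Nonempty → (∀ p ∈ B, p.Prime ∧ Q ^ C ≤ p ∧ p < M) →
    (M : ℝ) * Q ^ C ≤ R → (M : ℝ) ≤ Q * B.card → ∀ a b : ℤ → ℂ, T.At k a → T.At k b →
    ∃ p ∈ B, ‖mean p A R (fun n => a n * conj (b n)) - mean 1 A R fun n => a n * conj (b n)‖
      ≤ 1 / Q := by
  by_contra hc
  push Not at hc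
  choose Q hQ A R M B hne hB hR hM a b ha hb hlt using hc
  choose F hF _ x hx ex using ha
  choose F' hF' _ x' hx' ex' using hb
  have : Fact (2 ≤ (st Q : HR)) := ⟨le_of_forall hQ⟩
  have n1 := NiceR.nice (Q := st Q) (q := fun _ => T.q) (L := fun _ => T.L)
    (Eventually.of_forall fun n => ⟨T.pos, hF n⟩) (real_OO _) (real_OO _)
  have n2 := NiceR.nice (Q := st Q) (q := fun _ => T.q) (L := fun _ => T.L)
    (Eventually.of_forall fun n => ⟨T.pos, hF' n⟩) (real_OO _) (real_OO _)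
  obtain ⟨y, hy, gy⟩ := exists_germs (Q := st Q) T.fil (Eventually.of_forall hx)
  obtain ⟨y', hy', gy'⟩ := exists_germs (Q := st Q) T.fil (Eventually.of_forall hx')
  have hL := long_st hne hB
  have hM1 : ∀ n, (1 : ℝ) ≤ M n := fun n =>
    let ⟨p, hp⟩ := hne n
    Nat.one_le_cast.2 ((Nat.zero_le p).trans_lt (hB n p hp).2.2)
  have hQn : ∀ n, 0 < Q n ^ n := fun n => pow_pos (by linarith [hQ n]) n
  have hR0 : ∀ n, (0 : ℝ) < R n := fun n =>
    (mul_pos (one_pos.trans_le (hM1 n)) (hQn n)).trans_le (hR n)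
  have t1 : Tiny (st Q) (ci (st fun n => (M n : ℤ)) * ci 1 / ci (st R)) := by
    rw [map_one, mul_one]
    refine tiny_st (x := fun n => ((M n : ℤ) : ℝ) / (R n : ℝ)) (Eventually.of_forall fun n => ?_)
    rw [Int.cast_natCast, abs_of_nonneg (div_nonneg (Nat.cast_nonneg _) (hR0 n).le),
      div_mul_eq_mul_div, div_le_one (hR0 n)]
    exact hR n
  have t2 : Lat (st Q) (ci (st R)) (ci 1) := by
    rw [map_one]
    refine ⟨one_mem _, one_pos, st_lt.2 (Eventually.of_forall hR0),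
      tiny_st (x := fun n => 1 / (R n : ℝ)) (Eventually.of_forall fun n => ?_)⟩
    rw [abs_of_pos (one_div_pos.2 (hR0 n)), div_mul_eq_mul_div, div_le_one (hR0 n)]
    exact (mul_le_mul_of_nonneg_right (hM1 n) (hQn n).le).trans (hR n)
  refine H _ _ _ _ _ (T.fil.star.prod T.fil.star) (st A) (st R) _ 1 hL t2 t1 (UT.dg (y, y'))
    (by rw [Fam.prod_fine]; exact Fam.dg_mem_prod_PG.2 ⟨hy, hy'⟩)
    (dense_st hne (fun n p hp => (hB n p hp).2.2) hM fun p hp =>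
      ⟨prm_st (hp.mono fun n hn => ⟨(hB n _ hn).1, (hB n _ hn).2.1⟩), _, _, n1.tens n2.cj,
        1, one_mem _, 1, one_mem _, ?_⟩)
  have e : ∀ c : ℕ → ℤ, (Ex (lat (st c) (st A) (st R)) fun n : HZ =>
      app F (e1 n (1 * UT.dg (y, y') * 1)).p1 * cj (app F' (e1 n (1 * UT.dg (y, y') * 1)).p2))
      = st fun n => mean (c n) (A n) (R n) fun m => a n m * conj (b n m) := fun c => by
    rw [lat_st]
    refine Ex_st _ fun m => ?_
    have e0 : ∀ n : HZ, e1 n (UT.dg (y, y')) = UT.dg (e1 n y, e1 n y') := fun n => ev_dg _ _ _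
    rw [one_mul, mul_one, e0, UT.p1_dg, UT.p2_dg, e1_st gy, e1_st gy', app_st, app_st]
    simp only [ex, ex']
    rfl
  have e2 : (st fun n => emb (p n) : Unit → HZ) () * 1 = st fun n => (p n : ℤ) := mul_one _
  rw [e2, e, show (1 : HZ) = st fun _ => 1 from rfl, e]
  refine big_st (x := fun n => ‖mean (p n) (A n) (R n) (fun m => a n m * conj (b n m))
    - mean 1 (A n) (R n) fun m => a n m * conj (b n m)‖) (hp.mono fun n hn => ?_)
  exact (div_le_iff₀ (by linarith [hQ n])).1 (hlt n _ hn).le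

/-- Extension, counting form. -/
theorem ext_count (H : S_extK) (T : GI.Ty) (k : ℕ) : ∃ C : ℕ, ∀ Q : ℝ, 2 ≤ Q →
    ∀ (A R : ℤ) (M V : ℕ) (B U : Finset ℕ) (v : ℕ → ℕ) (χ ψ : ℕ → ℤ → ℂ), B.Nonempty →
    (∀ p ∈ B, p.Prime ∧ Q ^ C ≤ p ∧ p < M) → (M : ℝ) ≤ Q * B.card → 0 < R →
    (M : ℝ) * V * V * Q ^ C ≤ R → U.Nonempty → (∀ m ∈ U, (v m).Prime ∧ v m ≤ V) →
    (((U ×ˢ U).filter fun z => v z.1 = v z.2).card : ℝ) * Q ^ C ≤ U.card * U.card →
    (∀ p, T.At k (χ p)) → (∀ m, T.At k (ψ m)) →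
    ∃ p ∈ B, ∃ u, T.At k u ∧
      ‖𝔼 m ∈ U, mean (p * v m) A R fun n => χ p n * conj (ψ m n)‖
        ≤ ‖𝔼 m ∈ U, mean (v m) A R fun n => u n * conj (ψ m n)‖ + 1 / Q := by
  by_contra hc
  push Not at hc
  choose Q hQ A R M V B U v χ ψ hne hB hM hR0 hR hU hv hcol hχ hψ hlt using hc
  choose F hF eF x hx ex using hχ
  choose F' hF' _ x' hx' ex' using hψ
  have : Fact (2 ≤ (st Q : HR)) := ⟨le_of_forall hQ⟩
  have hR0' : ∀ n, (0 : ℝ) < R n := fun n => Int.cast_pos.2 (hR0 n)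
  obtain ⟨y, iy, hy⟩ := exists_intS (A := Unit → HZ) (Q := st Q) T.fil
    (fun n a => x n (a ()).toNat) fun n a => hx n _
  obtain ⟨w, iw, hw⟩ := exists_intS (A := Ns ℕ) (Q := st Q) T.fil x' hx'
  let Φ : (Unit → HZ) → UT T.lv HR → HC := fun p g =>
    app (fun n (z : (Unit → ℤ) × UT T.lv ℝ) => F n (z.1 ()).toNat z.2) (p, g)
  let Ψ : Ns ℕ → UT T.lv HR → HC := fun m g =>
    cj (app (fun n (z : ℕ × UT T.lv ℝ) => F' n z.1 z.2) (m, g))
  let v' : Ns ℕ → HZ := app fun n m => (v n m : ℤ)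
  have eΦ : ∀ p : ℕ → ℕ, Φ (st fun n => emb (p n)) = app fun n => F n (p n) := fun p =>
    funext (st_ind fun g => (app_st (A := (Unit → HZ) × UT T.lv HR) _
      fun n => (emb (p n), g n)).trans (app_st _ g).symm)
  have eΨ : ∀ m : ℕ → ℕ, Ψ (st m) = fun g => cj (app (fun n => F' n (m n)) g) := fun m =>
    funext (st_ind fun g => congrArg cj ((app_st (A := Ns ℕ × UT T.lv HR) _
      fun n => (m n, g n)).trans (app_st _ g).symm))
  have ev' : ∀ m : ℕ → ℕ, v' (st m) = st fun n => (v n (m n) : ℤ) := app_st _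
  have nice : ∀ G : ℕ → UT T.lv ℝ → ℂ, (∀ n, NiceR T.q T.L T.g.GG (G n)) →
      Nice (st Q) (st fun _ => (T.q : ℝ)) (T.g.star (st Q)).GG (app G) := fun G hG =>
    NiceR.nice (Q := st Q) (q := fun _ => T.q) (L := fun _ => T.L)
      (Eventually.of_forall fun n => ⟨T.pos, hG n⟩) (real_OO _) (real_OO _)
  have t1 : Tiny (st Q) (ci (st fun n => (M n : ℤ)) * ci (st fun n => (V n : ℤ))
      * ci (st fun n => (V n : ℤ)) / ci (st R)) := by
    refine tiny_st (x := fun n => ((M n : ℤ) : ℝ) * ((V n : ℤ) : ℝ) * ((V n : ℤ) : ℝ) / (R n : ℝ))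
      (Eventually.of_forall fun n => ?_)
    rw [Int.cast_natCast, Int.cast_natCast,
      abs_of_nonneg (div_nonneg (by positivity) (hR0' n).le), div_mul_eq_mul_div,
      div_le_one (hR0' n)]
    exact hR n
  obtain ⟨a, -, ⟨p, hp, rfl⟩, u, hu, ε, hε, key⟩ := H _ _ _ _ _ T.fil.star (st A) (st R)
    (st fun n => (M n : ℤ)) (st fun n => (V n : ℤ)) (long_st hne hB)
    (st_lt.2 (Eventually.of_forall hR0)) t1 (st U) v' (intF_app _)
    (st_ind fun m hm => by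
      rw [ev']
      exact ⟨st_lt.2 ((mem_st.1 hm).mono fun n hn => Int.natCast_pos.2 (hv n _ hn).1.pos),
        st_le.2 ((mem_st.1 hm).mono fun n hn => Int.ofNat_le.2 (hv n _ hn).2)⟩)
    (cop_dense ev' hU (fun n m hm => (hv n m hm).1) hcol) (st fun _ => (T.q : ℝ)) Ψ (intF_app _).cj w iw
    (st_ind fun m _ => ⟨eΨ m ▸ (nice _ fun n => hF' n (m n)).cj, (hw m).1⟩)
    Φ (intF_app _) y iy
    (fun a => ∃ p : ℕ → ℕ, (∀ᶠ n in UU, p n ∈ B n) ∧ a = st fun n => emb (p n))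
    (dense_st hne (fun n p hp => (hB n p hp).2.2) hM fun p hp =>
      ⟨⟨p, hp, rfl⟩, prm_st (hp.mono fun n hn => ⟨(hB n _ hn).1, (hB n _ hn).2.1⟩),
        eΦ p ▸ nice _ fun n => hF n (p n), (hy _).1⟩)
  obtain ⟨u', hu', gu⟩ := exists_seq hu
  have e : ∀ (c : Ns ℕ → HZ) (γ : ℕ → ℕ → ℤ), (∀ m, c (st m) = st fun n => γ n (m n)) →
      ∀ (z : ℕ → PS T.lv Unit ℝ) (z' : PS T.lv Unit HR), Germs z z' →
      (Ex (st U) fun m : Ns ℕ => Ex (lat (c m) (st A) (st R)) fun n : HZ =>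
        Ψ m (e1 n (w m)) * Φ (st fun n => emb (p n)) (e1 n z'))
      = st fun n => 𝔼 m ∈ U n, mean (γ n m) (A n) (R n) fun j =>
        F n (p n) (ev (fun _ => (j : ℝ)) (z n)) * conj (ψ n m j) := fun c γ hc z z' gz => by
    refine Ex_st _ fun m => ?_
    rw [hc, lat_st]
    refine Ex_st _ fun j => ?_
    rw [eΦ, eΨ, e1_st gz, e1_st (hw m).2]
    beta_reduce
    rw [app_st, app_st, mul_comm]
    simp only [ex']
    rfl
  rw [e (fun m => (st fun n => emb (p n) : Unit → HZ) () * v' m)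
    (fun n m => (p n : ℤ) * v n m) (fun m => by rw [ev']; rfl) _ _ (hy _).2,
    e v' (fun n m => v n m) ev' _ _ gu] at key
  obtain ⟨η, rfl⟩ := NS.surj ε
  refine hε (big_st ((hp.and (st_le.1 key)).mono fun n ⟨h1, h2⟩ => ?_))
  have h3 := hlt n _ h1 (fun j => F n (p n) (ev (fun _ => (j : ℝ)) (u' n)))
    ⟨_, hF n _, eF n _, _, hu' n, fun _ => rfl⟩
  simp only [ex] at h3
  exact (div_le_iff₀ (by linarith [hQ n])).1 (le_of_add_le_add_left (h3.le.trans h2))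

end Pool.Agent.P.MP_a14ce1_nt.Nil
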