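import Pool.Agent.P.MP_a14ce1_nt.Nil.Avg
import Pool.Agent.P.MP_a14ce1_nt.Nil.NiceL
import Pool.Agent.P.MP_a14ce1_nt.Nil.TinyM
import Pool.Agent.P.MP_a14ce1_nt.Nil.BoxA
import Pool.Agent.P.MP_a14ce1_nt.Nil.Fejer2

/-!
Discrete Fourier coefficients of internal functions; central directions.
-/

open Filter Finset
open scoped BigOperators

set_option linter.unusedSectionVars false

noncomputable section

namespace Pool.Agent.P.MP_a14ce1_nt.Nil

variable {A S B S' : Type} [NS A S] [NS B S']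
  {ι : Type} [Fintype ι] [DecidableEq ι] {lv : ι → ℕ} {Q : HR} [Fact (2 ≤ Q)]

namespace Four

/-! ### Functions of one variable -/

theorem box_eq {σ : Type} [Fintype σ] [DecidableEq σ] (N : ℕ → σ → ℤ) :
    box (st N : σ → HZ) = st fun n => Fintype.piFinset fun l => Ico 0 (N n l) := by
  refine st_congr ((eventually_all.2 fun l => rep_st (A := HZ) fun n => N n l).mono fun n hn => ?_)
  congr 1
  funext l
  rw [← hn l]
  rfl

theorem expect_unit (T : Finset ℤ) (f : ℤ → ℂ) :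
    𝔼 j ∈ Fintype.piFinset fun _ : Unit => T, f (j ()) = 𝔼 j ∈ T, f j :=
  expect_nbij' (fun j => j ()) (fun j _ => j) (fun _ h => Fintype.mem_piFinset.1 h ())
    (fun _ h => Fintype.mem_piFinset.2 fun _ => h) (fun _ _ => rfl) (fun _ _ => rfl) fun _ _ => rfl

theorem div_OO {L : HZ} {j : HZ} (h : 0 ≤ j ∧ j < L) : ci j / ci L ∈ OO Q := by
  have h0 : 0 ≤ ci j := by rw [← map_zero ci, ci_le]; exact h.1
  have h1 := ci_lt.2 h.2
  exact OO_of_le_one (by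
    rw [abs_of_nonneg (div_nonneg h0 (h0.trans h1.le))]
    exact div_le_one_of_le₀ h1.le (h0.trans h1.le))

theorem Ex_cons {r : ℕ} (L : HZ) (M : Fin r → HZ) {f : (Fin (r + 1) → HZ) → HC} (hf : IntF f) :
    Ex (box (Fin.cons L M : Fin (r + 1) → HZ)) f = Ex (box fun _ : Unit => L) fun i : Unit → HZ =>
      Ex (box M) fun j : Fin r → HZ => f (Fin.cons (i ()) j) := by
  have hi : IntF fun z : (Unit → HZ) × (Fin r → HZ) => (Fin.cons (z.1 ()) z.2 : Fin (r + 1) → HZ) :=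
    IntF.pi fun l => Fin.cases (by simp only [Fin.cons_zero]; fun_prop)
      (fun l => by simp only [Fin.cons_succ]; fun_prop) l
  rw [← Ex_fprod (hf.comp hi)]
  refine (Ex_bij' hi (fun j => (fun _ => j 0, Fin.tail j)) (fun z hz => ?_) (fun j hj => ?_)
    (fun z _ => ?_) (fun j _ => Fin.cons_self_tail j) hf).symm
  · obtain ⟨h1, h2⟩ := mem_fprod.1 hz
    exact mem_box.2 fun l => Fin.cases (mem_box.1 h1 ()) (fun l => mem_box.1 h2 l) l
  · exact mem_fprod.2 ⟨mem_box.2 fun _ => mem_box.1 hj 0, mem_box.2 fun l => mem_box.1 hj l.succ⟩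
  · rfl

/-- The discrete Fourier coefficient. -/
def df (L : HZ) (φ : HR → HC) (m : HZ) : HC :=
  Ex (box fun _ : Unit => L) fun j : Unit → HZ =>
    φ (ci (j ()) / ci L) * ee (-(ci m * (ci (j ()) / ci L)))

theorem df_st {φ : HR → HC} {f : ℕ → ℝ → ℂ} (h : ∀ x, φ (st x) = st fun n => f n (x n))
    (L m : ℕ → ℤ) : df (st L) φ (st m) = st fun n => dfour (L n) (f n) (m n) := by
  rw [df, show (fun _ : Unit => (st L : HZ)) = st fun n _ => L n from rfl, box_eq,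
    Ex_st _ (φ := fun n j => f n (j () / L n) * eR (-(m n * (j () / L n)))) fun x => ?_]
  · exact congrArg st (funext fun n => expect_unit _ fun j => f n (j / L n) * eR (-(m n * (j / L n))))
  · change φ (st fun n => (x n () : ℝ) / L n) * _ = _
    rw [h]
    rfl

theorem df_shift {L m : HZ} (hL : 0 < L ∧ Tiny Q (ci L)⁻¹) (hm : ci m ∈ OO Q) {φ : HR → HC}
    (hi : IntF φ) (hb : ∀ t, nm (φ t) ≤ 1) (hp : ∀ t, ∀ z ∈ ZZ, TinyC Q (φ (t + z) - φ t))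
    (hc : ∀ s t, Tiny Q t → TinyC Q (φ (s + t) - φ s)) (u : HR) :
    TinyC Q (df L (fun t => φ (u + t)) m - ee (ci m * u) * df L φ m) := by
  have L0 : 0 < ci L := by rw [← map_zero ci, ci_lt]; exact hL.1
  have i1 : IntF fun z : HR × HZ => nm (φ (z.1 + ci z.2) - φ z.1) := by fun_prop
  have i2 : IntF fun z : HR × HR => nm (φ (z.1 + z.2) - φ z.1) := by fun_prop
  have i3 : IntP fun z : HR × HR => |z.2| ≤ 1 / ci L := IntP.le (by fun_prop) (by fun_prop)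
  obtain ⟨ε, e1, e0, e2⟩ := unif_tiny (Q := Q) (intP_const True) i1
    fun z _ => hp z.1 _ (ci_mem z.2)
  obtain ⟨ε', e1', e0', e2'⟩ := unif_tiny (Q := Q) i3 i2 fun z hz =>
    hc z.1 z.2 (hL.2.of_le' (by rwa [one_div] at hz))
  have e3 : Tiny Q (|ci m| / ci L) := by
    rw [div_eq_mul_inv]; exact hL.2.mul' (abs_mem_OO.2 hm)
  refine TinyC.of_le (x := 2 * (ε + ε') + 7 * (|ci m| / ci L)) (((e1.add e1').mul'
    (ofNat_mem _ 2)).add (e3.mul' (ofNat_mem _ 7))) ?_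
  have h1 : ∀ t (k : HZ), nm (φ (t + ci k) - φ t) ≤ ε + ε' := fun t k => by
    have := e2 (t, k) trivial
    rw [abs_nm] at this
    linarith
  have h2 : ∀ s t, |t| ≤ 1 / ci L → nm (φ (s + t) - φ s) ≤ ε + ε' := fun s t ht => by
    have := e2' (s, t) ht
    rw [abs_nm] at this
    linarith
  generalize ε + ε' = η at h1 h2
  obtain ⟨f, hf⟩ := hi
  obtain ⟨η, rfl⟩ := NS.surj η
  obtain ⟨L, rfl⟩ := NS.surj L
  obtain ⟨m, rfl⟩ := NS.surj m
  obtain ⟨u, rfl⟩ := NS.surj u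
  rw [df_st hf, df_st (f := fun n t => f n (u n + t)) fun x => hf _]
  have a0 : ∀ᶠ n in UU, 0 < L n := st_lt.1 hL.1
  have a1 : ∀ᶠ n in UU, ∀ t, ‖f n t‖ ≤ 1 := ev_forall.2 fun t => st_le.1 (hf t ▸ hb (st t) :)
  have a2 : ∀ᶠ n in UU, ∀ z : ℝ × ℤ, ‖f n (z.1 + z.2) - f n z.1‖ ≤ η n := ev_forall.2 fun z => by
    have := h1 (st fun n => (z n).1) (st fun n => (z n).2)
    change nm (φ (st fun n => (z n).1 + (z n).2) - _) ≤ _ at this
    rw [hf, hf] at this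
    exact st_le.1 this
  have a3 : ∀ᶠ n in UU, ∀ z : ℝ × ℝ, |z.2| ≤ 1 / L n → ‖f n (z.1 + z.2) - f n z.1‖ ≤ η n :=
    ev_forall.2 fun z => by
      by_cases c : ∀ᶠ n in UU, |(z n).2| ≤ 1 / L n
      · have := h2 (st fun n => (z n).1) (st fun n => (z n).2) (by rw [st_abs]; exact st_le.2 c)
        change nm (φ (st fun n => (z n).1 + (z n).2) - _) ≤ _ at this
        rw [hf, hf] at this
        exact (st_le.1 this).mono fun n hn _ => hn
      · exact (ev_not.2 c).mono fun n hn h => absurd h hn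
  rw [show |ci (st m)| = st fun n => |(m n : ℝ)| from st_abs _]
  refine st_le.2 ?_
  filter_upwards [a0, a1, a2, a3] with n b0 b1 b2 b3
  have := dfour_shift b0 b1 (fun t k => b2 (t, k)) (fun s t => b3 (s, t)) (u n) (m n)
  rw [Int.cast_abs] at this
  exact this

/-- Frequencies and weights of the Fejer kernel. -/
def fT (M : ℤ) : Finset ℤ := (Ico 0 M ×ˢ Ico 0 M).image fun p => p.1 - p.2
def fc (M j : ℤ) : ℂ := (#{p ∈ Ico 0 M ×ˢ Ico 0 M | p.1 - p.2 = j} : ℂ) / M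

theorem card_Ico {M : ℤ} (h : 0 < M) : (#(Ico 0 M) : ℝ) = M := by
  rw [Int.card_Ico, sub_zero]; exact_mod_cast Int.toNat_of_nonneg h.le

theorem fej_eq {M : ℤ} (h : 0 < M) (g : ℤ → ℂ) :
    M * 𝔼 p ∈ Ico 0 M ×ˢ Ico 0 M, g (p.1 - p.2) = (#(fT M) : ℝ) * 𝔼 j ∈ fT M, fc M j * g j := by
  have h1 : (#(Ico 0 M) : ℂ) = M := by exact_mod_cast congrArg ((↑) : ℝ → ℂ) (card_Ico h)
  have h2 : (M : ℂ) ≠ 0 := by exact_mod_cast h.ne'
  rw [Complex.ofReal_natCast, card_mul_expect, expect_eq_sum_div_card, card_product, Nat.cast_mul,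
    h1, sum_comp g fun p : ℤ × ℤ => p.1 - p.2, sum_div, mul_sum]
  refine sum_congr rfl fun j _ => ?_
  rw [fc, nsmul_eq_mul]
  field_simp

theorem card_fT {M : ℤ} (h : 0 < M) : (#(fT M) : ℝ) ≤ M * M := by
  rw [← card_Ico h, ← Nat.cast_mul, ← card_product]
  exact_mod_cast card_image_le

theorem zero_mem_fT {M : ℤ} (h : 0 < M) : 0 ∈ fT M :=
  mem_image.2 ⟨(0, 0), by simp [h], rfl⟩

theorem abs_le_fT {M j : ℤ} (h : j ∈ fT M) : |(j : ℝ)| ≤ M := by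
  obtain ⟨p, hp, rfl⟩ := mem_image.1 h
  simp only [mem_product, mem_Ico] at hp
  have : |p.1 - p.2| ≤ M := by rw [abs_le]; omega
  exact_mod_cast this

theorem fc_zero {M : ℤ} (h : 0 < M) : fc M 0 = 1 := by
  have h1 : (#(Ico 0 M) : ℂ) = M := by exact_mod_cast congrArg ((↑) : ℝ → ℂ) (card_Ico h)
  have h2 : (M : ℂ) ≠ 0 := by exact_mod_cast h.ne'
  rw [fc, div_eq_one_iff_eq h2, ← h1]
  congr 1
  refine card_nbij' (fun p => p.1) (fun k => (k, k)) (fun p hp => ?_) (fun k hk => ?_)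
    (fun p hp => ?_) fun _ _ => rfl
  · exact (mem_product.1 (mem_filter.1 hp).1).1
  · exact mem_filter.2 ⟨mem_product.2 ⟨hk, hk⟩, sub_self _⟩
  · exact Prod.ext rfl (sub_eq_zero.1 (mem_filter.1 hp).2)

theorem norm_fc {M : ℤ} (h : 0 < M) (j : ℤ) : ‖fc M j‖ ≤ 1 := by
  have h2 : (0 : ℝ) < M := by exact_mod_cast h
  rw [fc, norm_div, Complex.norm_natCast, Complex.norm_intCast, abs_of_pos h2, div_le_one h2,
    ← card_Ico h]
  refine Nat.cast_le.2 (card_le_card_of_injOn (fun p => p.1) (fun p hp => ?_) fun p hp r hr e => ?_)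
  · exact (mem_product.1 (mem_filter.1 hp).1).1
  · have h3 := (mem_filter.1 hp).2
    have h4 := (mem_filter.1 hr).2
    exact Prod.ext e (by simp only at e; omega)

theorem df_fejer {L : HZ} (hL : 0 < L ∧ Tiny Q (ci L)⁻¹) {ρ δ : HR} (hρ : Big Q ρ) (ρ0 : 0 < ρ)
    (hδ : Big Q δ) (δ0 : 0 < δ) :
    ∃ (T : Ns (Finset ℤ)) (c : HZ → HC), cd T ∈ OO Q ∧ IntF c ∧ Mem (0 : HZ) T ∧ c 0 = 1 ∧
      (∀ m : HZ, Mem m T → ci m ∈ OO Q ∧ nm (c m) ≤ 1) ∧ ∀ φ : HR → HC, IntF φ →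
        (∀ t, nm (φ t) ≤ 1) → (∀ t, min |t| |1 - t| ≤ ρ → nm (φ 0 - φ t) ≤ δ) →
        nm (φ 0 - cr (cd T) * Ex T fun m : HZ => c m * df L φ m) ≤ 2 * δ := by
  have L0 : 0 < ci L := by rw [← map_zero ci, ci_lt]; exact hL.1
  have y0 : 0 < (δ * ρ ^ 2)⁻¹ := by positivity
  have h1 := le_ci_cei (δ * ρ ^ 2)⁻¹
  have h2 : ci (cei (δ * ρ ^ 2)⁻¹) ∈ OO Q :=
    OO_of_abs_le (add_mem (hδ.mul (hρ.pow 2)).inv_mem (one_mem _)) (by
      rw [abs_of_pos (y0.trans_le h1)]; exact (ci_cei_lt_add_one _).le)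
  generalize cei (δ * ρ ^ 2)⁻¹ = M at h1 h2
  have h3 : 0 < M := by rw [← ci_lt, map_zero]; exact y0.trans_le h1
  have h4 : M ≤ L := by
    have := (hL.2.mul h2).lt_one
    rw [← ci_le]
    exact ((inv_mul_lt_one₀ L0).1 ((le_abs_self _).trans_lt this)).le
  have h5 : 1 / (2 * ci M * ρ ^ 2) ≤ δ := by
    have := y0.trans_le h1
    rw [inv_le_iff_one_le_mul₀ (by positivity)] at h1
    rw [div_le_iff₀ (by positivity)]
    nlinarith
  obtain ⟨M, rfl⟩ := NS.surj M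
  obtain ⟨L, rfl⟩ := NS.surj L
  obtain ⟨ρ, rfl⟩ := NS.surj ρ
  have a0 : ∀ᶠ n in UU, 0 < M n := st_lt.1 h3
  refine ⟨st fun n => fT (M n), app fun n => fc (M n), OO_of_abs_le (mul_mem h2 h2) ?_, intF_app _,
    mem_st.2 (a0.mono fun n => zero_mem_fT), ?_, fun m hm => ?_, fun φ hi hb hc => ?_⟩
  · change |(st fun n => (#(fT (M n)) : ℝ) : HR)| ≤ st fun n => (M n : ℝ) * M n
    rw [st_abs]
    exact st_le.2 (a0.mono fun n hn => by rw [Nat.abs_cast]; exact card_fT hn)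
  · exact (app_st _ fun _ => 0).trans (st_congr (a0.mono fun n => fc_zero))
  · obtain ⟨m, rfl⟩ := NS.surj m
    rw [app_st]
    refine ⟨OO_of_abs_le h2 ?_, st_le.2 (a0.mono fun n hn => norm_fc hn _)⟩
    rw [show |ci (st m)| = st fun n => |(m n : ℝ)| from st_abs _]
    exact st_le.2 ((mem_st.1 hm).mono fun n => abs_le_fT)
  · refine le_trans ?_ (show δ + 1 / (2 * ci (st M) * st ρ ^ 2) ≤ 2 * δ by linarith)
    obtain ⟨δ, rfl⟩ := NS.surj δ
    obtain ⟨f, hf⟩ := hi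
    rw [Ex_st _ (φ := fun n j => fc (M n) j * dfour (L n) (f n) j) fun x => by
      rw [app_st, df_st hf]; rfl, show φ 0 = _ from hf fun _ => 0]
    have a1 : ∀ᶠ n in UU, ∀ t, ‖f n t‖ ≤ 1 := ev_forall.2 fun t => st_le.1 (hf t ▸ hb (st t) :)
    have a2 : ∀ᶠ n in UU, ∀ t, 0 ≤ t ∧ t ≤ 1 ∧ min t (1 - t) ≤ ρ n → ‖f n 0 - f n t‖ ≤ δ n :=
      ev_forall.2 fun t => by
        by_cases c : ∀ᶠ n in UU, 0 ≤ t n ∧ t n ≤ 1 ∧ min (t n) (1 - t n) ≤ ρ n
        · have t0 : (0 : HR) ≤ st t := st_le.2 (c.mono fun n h => h.1)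
          have t1 : (st t : HR) ≤ 1 := st_le.2 (c.mono fun n h => h.2.1)
          have := hc (st t) (by
            rw [abs_of_nonneg t0, abs_of_nonneg (sub_nonneg.2 t1), Germ.min_def]
            exact st_le.2 (c.mono fun n h => h.2.2))
          rw [hf, show φ 0 = _ from hf fun _ => 0] at this
          exact (st_le.1 this).mono fun n hn _ => hn
        · exact (ev_not.2 c).mono fun n hn h => absurd h hn
    refine st_le.2 ?_
    filter_upwards [a0, st_le.1 h4, st_lt.1 ρ0, a1, a2] with n b0 b1 b2 b3 b4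
    have := dfejer b0 b1 b2 b3 fun t t0 t1 t2 => b4 t ⟨t0, t1, t2⟩
    rw [fej_eq b0] at this
    exact this

/-! ### Central directions -/

section alg

variable {FF : Type} [Field FF] [CharZero FF] {K : Subfield FF} {I : Type} [AddCommMonoid I]
  {g : Fam K lv I} {U : Submodule FF (Matrix ι ι FF)} {ξ : Matrix ι ι FF →ₗ[FF] FF}
  {W : Matrix ι ι FF}

theorem ex_add (hW : W ∈ mF FF lv 1) (s t : FF) :
    ex lv ((s + t) • W) = ex lv (s • W) * ex lv (t • W) := by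
  have h : ∀ c : FF, c • W ∈ mF FF lv 1 := fun c => (lvS FF lv 1).smul_mem c hW
  refine UT.ext ?_
  rw [UT.mul_val, ex_val (h _), ex_val (h _), ex_val (h _), add_smul,
    IsNilpotent.exp_add_of_commute (((Commute.refl W).smul_left s).smul_right t) (up_nil (h _))
      (up_nil (h _))]

theorem ex_mem (hW : W ∈ g.r 0) : ex lv W ∈ g.GG := ex_mem_grp (𝔏 := g.lie0) hW

theorem ker_le (hc : Cen g U ξ) : (U ⊓ LinearMap.ker ξ).restrictScalars ℚ ≤ g.lie0.L :=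
  fun _ h => hc.idl.le h.1

theorem ker_br (hc : Cen g U ξ) : ∀ a ∈ g.lie0.L, ∀ b ∈ (U ⊓ LinearMap.ker ξ).restrictScalars ℚ,
    a * b - b * a ∈ (U ⊓ LinearMap.ker ξ).restrictScalars ℚ :=
  fun a ha b hb => ⟨hc.idl.br a ha b hb.1, hc.cen a ha b hb.1⟩

theorem exists_comm (hc : Cen g U ξ) (hW : W ∈ g.r 0)
    (h : ∀ X ∈ g.r 0, X * W - W * X ∈ U ∧ ξ (X * W - W * X) = 0) {y : UT lv FF} (hy : y ∈ g.GG) :
    ∃ c : UT lv FF, lg c ∈ U ∧ ξ (lg c) = 0 ∧ ex lv W * y = c * (y * ex lv W) := by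
  have := (lg_mul_inv_mem_iff (ker_le hc) (ker_br hc) (x := y * ex lv W * y⁻¹)
    (mul_mem (mul_mem hy (ex_mem hW)) (inv_mem hy)) (ex_mem hW)).2 (by
      rw [lg_conj', lg_ex (g.up 0 W hW), ← neg_sub]
      exact neg_mem (conj_sub_mem (up_nil (lg_mem y)) (ker_br hc _ hy) (h _ hy)))
  exact ⟨_, this.1, this.2, by group⟩

theorem exists_split (hc : Cen g U ξ) (hW : W ∈ g.r 0)
    (h : ∀ X ∈ g.r 0, X * W - W * X ∈ U ∧ ξ (X * W - W * X) = 0) {z : UT lv FF}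
    {Y : Matrix ι ι FF} (hY : Y ∈ U) (hz : Y + W = lg z) :
    ∃ c : UT lv FF, lg c ∈ U ∧ ξ (lg c) = ξ Y ∧ z = c * ex lv W := by
  have h0 : lg z ∈ g.r 0 := hz ▸ add_mem (hc.idl.le hY) hW
  have := lg_mul_sub (ker_le hc) (ker_br hc) (x := z) h0 (inv_mem (ex_mem hW)) (by
    rw [lg_inv, lg_ex (g.up 0 W hW), mul_neg, neg_mul, ← neg_sub']
    exact neg_mem (s := (U ⊓ LinearMap.ker ξ).restrictScalars ℚ) (h _ h0))
  rw [lg_inv, lg_ex (g.up 0 W hW), ← hz, sub_sub, add_neg_cancel_right] at this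
  refine ⟨z * (ex lv W)⁻¹, ?_, ?_, by group⟩
  · have h1 := add_mem this.1 hY
    rwa [sub_add_cancel] at h1
  · have h1 : ξ _ = 0 := this.2
    rwa [map_sub, sub_eq_zero] at h1

theorem cen_smul (h : ∀ X ∈ g.r 0, X * W - W * X ∈ U ∧ ξ (X * W - W * X) = 0) (t : FF) :
    ∀ X ∈ g.r 0, X * t • W - t • W * X ∈ U ∧ ξ (X * t • W - t • W * X) = 0 := fun X hX => by
  rw [mul_smul_comm, smul_mul_assoc, ← smul_sub, map_smul, (h X hX).2, smul_zero]
  exact ⟨U.smul_mem t (h X hX).1, rfl⟩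

theorem cen_sup (hc : Cen g U ξ) (hW : W ∈ g.r 0) (hK : Ent (K : Set FF) W)
    (h : ∀ X ∈ g.r 0, X * W - W * X ∈ U ∧ ξ (X * W - W * X) = 0) {ξ' : Matrix ι ι FF →ₗ[FF] FF}
    (h1 : RatF K ξ') (h2 : ∀ X ∈ U, ξ' X = ξ X) : Cen g (U ⊔ Submodule.span FF {W}) ξ' := by
  have key : ∀ X ∈ g.r 0, ∀ Y ∈ U ⊔ Submodule.span FF {W},
      X * Y - Y * X ∈ U ∧ ξ (X * Y - Y * X) = 0 := fun X hX Y hY => by
    obtain ⟨Y, h3, _, h4, rfl⟩ := Submodule.mem_sup.1 hY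
    obtain ⟨t, rfl⟩ := Submodule.mem_span_singleton.1 h4
    rw [mul_add, add_mul, add_sub_add_comm, map_add, hc.cen X hX Y h3, (cen_smul h t X hX).2]
    exact ⟨add_mem (hc.idl.br X hX Y h3) (cen_smul h t X hX).1, add_zero _⟩
  exact ⟨⟨hc.idl.rat.sup (IsRat.span fun X hX => hX ▸ hK),
    sup_le hc.idl.le ((Submodule.span_singleton_le_iff_mem _ _).2 hW),
    fun X hX Y hY => Submodule.mem_sup_left (key X hX Y hY).1⟩, h1,
    fun X hX Y hY => (h2 _ (key X hX Y hY).1).trans (key X hX Y hY).2⟩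

theorem exists_layer {U' : Submodule FF (Matrix ι ι FF)} (hU' : g.Idl U') (h : ¬U' ≤ U) :
    ∃ i, ¬U' ⊓ lvS FF lv i ≤ U ∧ ∀ X ∈ g.r 0, ∀ Y ∈ U' ⊓ lvS FF lv i, X * Y - Y * X ∈ U := by
  classical
  obtain ⟨d, hd⟩ := (filt_mF FF lv).fin
  have h0 : ∃ i, U' ⊓ lvS FF lv (i + 1 + 1) ≤ U := ⟨d, fun X hX => by
    have := (filt_mF FF lv).le (show d ≤ d + 1 + 1 by omega) hX.2
    rw [hd, Submodule.mem_bot] at this
    rw [this]; exact zero_mem _⟩
  refine ⟨Nat.find h0 + 1, ?_, fun X hX Y hY => Nat.find_spec h0 ⟨hU'.br X hX Y hY.1, sub_mem ?_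
    ((filt_mF FF lv).mul _ 1 Y hY.2 X (g.up 0 X hX))⟩⟩
  · rcases Nat.eq_zero_or_eq_succ_pred (Nat.find h0) with e | e
    · rw [e]; exact fun c => h fun X hX => c ⟨hX, g.up 0 X (hU'.le hX)⟩
    · rw [e]; exact Nat.find_min h0 (by omega)
  · rw [add_comm _ 1]; exact (filt_mF FF lv).mul 1 _ X (g.up 0 X hX) Y hY.2

theorem lg_mul_idl {n : Submodule FF (Matrix ι ι FF)} (hn : g.Idl n) {x y : UT lv FF}
    (hx : lg x ∈ n) (hy : lg y ∈ n) : lg (x * y) ∈ n :=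
  (Lie.grp ⟨n.restrictScalars ℚ, fun X h => g.up 0 X (hn.le h),
    fun X h Y h' => hn.br X (hn.le h) Y h'⟩).mul_mem hx hy

end alg

end Four

end Pool.Agent.P.MP_a14ce1_nt.Nil
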