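import Pool.Agent.P.MP_a14ce1_nt.Nil.Gowers

/-! Cubes, the Gowers–Cauchy–Schwarz inequality and the triangle inequality. -/

namespace Pool.Agent.P.MP_a14ce1_nt.Nil

open Finset Function ComplexConjugate

variable {G : Type*} [AddCommGroup G] {σ : Type*} [Fintype σ] [DecidableEq σ]

/-- the vertex `ω · a` of a cube -/
def vx (ω : σ → Bool) (a : σ → G) : G := ∑ i, if ω i then a i else 0

/-- complex conjugation iterated as often as `ω` has entries `false` -/
noncomputable def cjw (ω : σ → Bool) : ℂ →+* ℂ :=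
  if Even (univ.filter fun i => ω i = false).card then RingHom.id ℂ else starRingEnd ℂ

/-- the product over the vertices of a cube -/
noncomputable def cube (F : (σ → Bool) → G → ℂ) (a : σ → G) (x : G) : ℂ :=
  ∏ ω, cjw ω (F ω (x + vx ω a))

/-- the Gowers inner product -/
noncomputable def gip (F : (σ → Bool) → G → ℂ) : ℂ := ∑ᶠ a : σ → G, ∑ᶠ x, cube F a x

/-- the (unnormalised) `U^(k+1)` norm -/
noncomputable def gn (k : ℕ) (f : G → ℂ) : ℝ := U k f ^ (((2 ^ (k + 1) : ℕ) : ℝ)⁻¹)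

@[simp] theorem norm_cjw (ω : σ → Bool) (z : ℂ) : ‖cjw ω z‖ = ‖z‖ := by
  unfold cjw; split_ifs <;> simp

theorem cjw_conj (ω : σ → Bool) (z : ℂ) : cjw ω (conj z) = conj (cjw ω z) := by
  unfold cjw; split_ifs <;> simp

theorem cjw_ne {ω : σ → Bool} {z : ℂ} (h : cjw ω z ≠ 0) : z ≠ 0 := by
  rintro rfl; simp at h

theorem card_false_cons {k : ℕ} (b : Bool) (ω : Fin k → Bool) :
    (univ.filter fun i => (Fin.cons b ω : Fin (k + 1) → Bool) i = false).card =
      (if b = false then 1 else 0) + (univ.filter fun i => ω i = false).card := by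
  simp only [card_filter]
  rw [Fin.sum_univ_succ]
  simp

theorem cjw_cons_true {k : ℕ} (ω : Fin k → Bool) :
    cjw (Fin.cons true ω : Fin (k + 1) → Bool) = cjw ω := by
  unfold cjw; rw [card_false_cons]; simp

theorem cjw_cons_false {k : ℕ} (ω : Fin k → Bool) (z : ℂ) :
    cjw (Fin.cons false ω : Fin (k + 1) → Bool) z = cjw ω (conj z) := by
  unfold cjw
  rw [card_false_cons, if_pos rfl, add_comm]
  by_cases h : Even (univ.filter fun i => ω i = false).card <;> simp [h, Nat.even_add_one]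

theorem vx_cons {k : ℕ} (b : Bool) (ω : Fin k → Bool) (h : G) (a : Fin k → G) :
    vx (Fin.cons b ω : Fin (k + 1) → Bool) (Fin.cons h a : Fin (k + 1) → G) =
      (if b then h else 0) + vx ω a := by
  unfold vx; rw [Fin.sum_univ_succ]; simp

theorem prod_bool_succ {M : Type*} [CommMonoid M] {k : ℕ} (Φ : (Fin (k + 1) → Bool) → M) :
    ∏ ω, Φ ω = ∏ ω : Fin k → Bool, Φ (Fin.cons true ω) * Φ (Fin.cons false ω) := by
  rw [← (Fin.consEquiv fun _ : Fin (k + 1) => Bool).prod_comp, Fintype.prod_prod_type_right]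
  simp only [Fintype.prod_bool]
  rfl

theorem cube_cons {k : ℕ} (F : (Fin (k + 1) → Bool) → G → ℂ) (h : G) (a : Fin k → G) (x : G) :
    cube F (Fin.cons h a) x =
      cube (fun ω y => F (Fin.cons true ω) (y + h) * conj (F (Fin.cons false ω) y)) a x := by
  unfold cube
  rw [prod_bool_succ]
  refine prod_congr rfl fun ω _ => ?_
  rw [cjw_cons_true, cjw_cons_false, vx_cons, vx_cons, map_mul]
  simp [add_assoc, add_comm h]

theorem cube_zero (F : (Fin 0 → Bool) → G → ℂ) (a : Fin 0 → G) (x : G) :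
    cube F a x = F ![] x := by
  unfold cube
  rw [Fintype.prod_subsingleton _ ![]]
  simp only [cjw, vx, univ_eq_empty, sum_empty, add_zero, filter_empty, card_empty, Even.zero,
    if_true, RingHom.id_apply]

theorem vx_false (a : σ → G) : vx (fun _ => false) a = 0 := by simp [vx]

theorem vx_single (a : σ → G) (i : σ) : vx (fun j => decide (j = i)) a = a i := by simp [vx]

theorem cube_ne {F : (σ → Bool) → G → ℂ} {a : σ → G} {x : G} (h : cube F a x ≠ 0) (ω : σ → Bool) :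
    F ω (x + vx ω a) ≠ 0 := cjw_ne (prod_ne_zero_iff.mp h ω (mem_univ _))

theorem norm_cube (F : (σ → Bool) → G → ℂ) (a : σ → G) (x : G) :
    ‖cube F a x‖ = ∏ ω, ‖F ω (x + vx ω a)‖ := by simp [cube]

theorem cube_mul (F F' : (σ → Bool) → G → ℂ) (a : σ → G) (x : G) :
    cube (fun ω y => F ω y * F' ω y) a x = cube F a x * cube F' a x := by
  simp [cube, prod_mul_distrib]

/-- the inner product as a finite sum -/
theorem gip_eq {F : (σ → Bool) → G → ℂ} {S T : Finset G} (hS : ∀ x, F (fun _ => false) x ≠ 0 → x ∈ S)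
    (hT : ∀ ω x y, F ω x ≠ 0 → F (fun _ => false) y ≠ 0 → x - y ∈ T) :
    gip F = ∑ a ∈ Fintype.piFinset fun _ : σ => T, ∑ x ∈ S, cube F a x := by
  have h0 : ∀ a x, cube F a x ≠ 0 → F (fun _ => false) x ≠ 0 := fun a x hx => by
    simpa [vx_false] using cube_ne hx fun _ => false
  have e : ∀ a, ∑ᶠ x, cube F a x = ∑ x ∈ S, cube F a x := fun a =>
    fs_eq fun x hx => hS x (h0 a x hx)
  simp only [gip, e]
  refine fs_eq fun a ha => ?_
  obtain ⟨x, -, hx⟩ := exists_ne_zero_of_sum_ne_zero ha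
  refine Fintype.mem_piFinset.mpr fun i => ?_
  have := cube_ne hx fun j => decide (j = i)
  rw [vx_single] at this
  simpa using hT _ _ _ this (h0 a x hx)

theorem sum_pi_succ {M α : Type*} [AddCommMonoid M] {k : ℕ} (T : Finset α)
    (Φ : (Fin (k + 1) → α) → M) :
    ∑ a ∈ Fintype.piFinset fun _ : Fin (k + 1) => T, Φ a =
      ∑ h ∈ T, ∑ a ∈ Fintype.piFinset fun _ : Fin k => T, Φ (Fin.cons h a) := by
  rw [← sum_product']
  symm
  refine sum_equiv (Fin.consEquiv fun _ : Fin (k + 1) => α) ?_ fun _ _ => rfl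
  rintro ⟨h, a⟩
  simp [Fintype.mem_piFinset, Fin.forall_fin_succ, Fin.consEquiv]

theorem ex_supp {ι : Type*} [Finite ι] {F : ι → G → ℂ} (hF : ∀ i, HasFiniteSupport (F i)) :
    ∃ S T : Finset G, (∀ i x, F i x ≠ 0 → x ∈ S) ∧ ∀ x ∈ S, ∀ y ∈ S, x - y ∈ T := by
  classical
  have := Fintype.ofFinite ι
  choose S hS using fun i => fin_ex (hF i)
  refine ⟨univ.biUnion S, image₂ (· - ·) (univ.biUnion S) (univ.biUnion S),
    fun i x hx => mem_biUnion.mpr ⟨i, mem_univ _, hS i x hx⟩,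
    fun x hx y hy => mem_image₂_of_mem hx hy⟩

theorem gip_succ_sum {k : ℕ} {F : (Fin (k + 1) → Bool) → G → ℂ} {S T : Finset G}
    (hS : ∀ ω x, F ω x ≠ 0 → x ∈ S) (hT : ∀ x ∈ S, ∀ y ∈ S, x - y ∈ T) :
    gip F = ∑ h ∈ T,
      gip (fun (ω : Fin k → Bool) y => F (Fin.cons true ω) (y + h) * conj (F (Fin.cons false ω) y)) := by
  rw [gip_eq (hS _) fun ω x y hx hy => hT x (hS _ _ hx) y (hS _ _ hy), sum_pi_succ]
  refine sum_congr rfl fun h _ => ?_
  have h1 : ∀ (ω : Fin k → Bool) y,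
      F (Fin.cons true ω) (y + h) * conj (F (Fin.cons false ω) y) ≠ 0 → y ∈ S := fun ω y hy =>
    hS _ y (by simpa using right_ne_zero_of_mul hy)
  rw [gip_eq (S := S) (T := T) (F := fun (ω : Fin k → Bool) y =>
    F (Fin.cons true ω) (y + h) * conj (F (Fin.cons false ω) y)) (h1 _)
    fun ω x y hx hy => hT x (h1 _ _ hx) y (h1 _ _ hy)]
  simp only [cube_cons]

theorem gip_zero (F : (Fin 0 → Bool) → G → ℂ) : gip F = ∑ᶠ x, F ![] x := by
  simp only [gip, cube_zero]
  rw [finsum_unique]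

theorem gip_one {F : (Fin 1 → Bool) → G → ℂ} (hF : ∀ ω, HasFiniteSupport (F ω)) :
    gip F = (∑ᶠ x, F (Fin.cons true ![]) x) * conj (∑ᶠ x, F (Fin.cons false ![]) x) := by
  obtain ⟨S, T, hS, hT⟩ := ex_supp hF
  rw [gip_succ_sum hS hT, fs_conj, ← fs_mul_fs (hF _) (fin_conj (hF _))]
  simp only [gip_zero]
  refine (fs_eq fun h hh => ?_).symm
  obtain ⟨x, hx⟩ : ∃ x, F (Fin.cons true ![]) (x + h) * conj (F (Fin.cons false ![]) x) ≠ 0 := by
    by_contra hc
    push Not at hc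
    exact hh (by simp only [hc, finsum_zero])
  simpa using hT _ (hS _ _ (left_ne_zero_of_mul hx)) x
    (hS _ _ (by simpa using right_ne_zero_of_mul hx))

theorem U_eq_gip (k : ℕ) {f : G → ℂ} (hf : HasFiniteSupport f) :
    (U k f : ℂ) = gip fun _ : Fin (k + 1) → Bool => f := by
  induction k generalizing f with
  | zero => rw [gip_one fun _ => hf, Complex.mul_conj, Complex.normSq_eq_norm_sq, U]
  | succ k ih =>
    obtain ⟨S, T, hS, hT⟩ := ex_supp (F := fun _ : Fin (k + 2) → Bool => f) fun _ => hf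
    rw [gip_succ_sum hS hT, U_succ_eq k fun x y hx hy => hT x (hS default x hx) y (hS default y hy),
      Complex.ofReal_sum]
    exact sum_congr rfl fun h _ => ih (fin_dl hf h)

/-- the cube formula with all `k+1` derivatives -/
theorem U_eq_cube (k : ℕ) {f : G → ℂ} {S T : Finset G} (hS : ∀ x, f x ≠ 0 → x ∈ S)
    (hT : ∀ x y, f x ≠ 0 → f y ≠ 0 → x - y ∈ T) :
    (U k f : ℂ) = ∑ a ∈ Fintype.piFinset fun _ : Fin (k + 1) => T, ∑ x ∈ S,
      cube (fun _ => f) a x := by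
  rw [U_eq_gip k (fin_of hS), gip_eq hS fun _ => hT]

/-- the cube formula with `k` derivatives and a square -/
theorem U_eq_cube_sq (k : ℕ) {f : G → ℂ} {S T : Finset G} (hS : ∀ x, f x ≠ 0 → x ∈ S)
    (hT : ∀ x y, f x ≠ 0 → f y ≠ 0 → x - y ∈ T) :
    U k f = ∑ a ∈ Fintype.piFinset fun _ : Fin k => T, ‖∑ x ∈ S, cube (fun _ => f) a x‖ ^ 2 := by
  induction k generalizing f with
  | zero => simp [cube_zero, U_zero_eq hS]
  | succ k ih =>
    rw [U_succ_eq k hT, sum_pi_succ]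
    refine sum_congr rfl fun h _ => ?_
    rw [ih (fun x hx => hS x (dl_ne hx).2) fun x y hx hy => hT x y (dl_ne hx).2 (dl_ne hy).2]
    simp only [cube_cons]
    rfl

/-- Gowers–Cauchy–Schwarz -/
theorem gcs (k : ℕ) {F : (Fin (k + 1) → Bool) → G → ℂ} (hF : ∀ ω, HasFiniteSupport (F ω)) :
    ‖gip F‖ ^ 2 ^ (k + 1) ≤ ∏ ω, U k (F ω) := by
  induction k with
  | zero =>
    rw [gip_one hF, prod_bool_succ, Fintype.prod_subsingleton _ ![]]
    simp only [U, norm_mul, Complex.norm_conj, zero_add, pow_one, mul_pow, le_refl]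
  | succ k ih =>
    obtain ⟨S, T, hS, hT⟩ := ex_supp hF
    rw [gip_succ_sum hS hT, prod_bool_succ, pow_succ 2, pow_mul]
    set P : G → (Fin (k + 1) → Bool) → G → ℂ := fun h ω y =>
      F (Fin.cons true ω) (y + h) * conj (F (Fin.cons false ω) y) with hP
    have h1 := sum_holder T (ι := Fin (k + 1) → Bool) (a := fun ω h => U k (P h ω))
      (b := fun h => ‖gip (P h)‖) (fun _ _ => U_nonneg _ _) (fun _ => norm_nonneg _) fun h => by
        simpa using ih (F := P h) fun ω =>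
          fin_mono (hF (Fin.cons false ω)) fun x hx => by simpa using right_ne_zero_of_mul hx
    simp only [Fintype.card_pi, Fintype.card_bool, prod_const, card_univ, Fintype.card_fin] at h1
    refine (pow_le_pow_left₀ (by positivity) ((pow_le_pow_left₀ (norm_nonneg _)
      (norm_sum_le _ _) _).trans h1) 2).trans ?_
    rw [← prod_pow]
    refine prod_le_prod (fun _ _ => sq_nonneg _) fun ω _ => ?_
    rw [← U_conj (k + 1) (F (Fin.cons false ω))]
    exact gcs2_sum k (hF _) (fin_conj (hF _)) T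

theorem gn_nonneg (k : ℕ) (f : G → ℂ) : 0 ≤ gn k f := Real.rpow_nonneg (U_nonneg _ _) _

theorem gn_pow (k : ℕ) (f : G → ℂ) : gn k f ^ 2 ^ (k + 1) = U k f :=
  Real.rpow_inv_natCast_pow (U_nonneg _ _) (by positivity)

theorem gn_le_iff {k : ℕ} {f : G → ℂ} {c : ℝ} (hc : 0 ≤ c) :
    gn k f ≤ c ↔ U k f ≤ c ^ 2 ^ (k + 1) := by
  rw [← gn_pow, pow_le_pow_iff_left₀ (gn_nonneg _ _) hc (by positivity)]

theorem le_gn_iff {k : ℕ} {f : G → ℂ} {c : ℝ} (hc : 0 ≤ c) :
    c ≤ gn k f ↔ c ^ 2 ^ (k + 1) ≤ U k f := by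
  rw [← gn_pow, pow_le_pow_iff_left₀ hc (gn_nonneg _ _) (by positivity)]

theorem gcs_gn (k : ℕ) {F : (Fin (k + 1) → Bool) → G → ℂ} (hF : ∀ ω, HasFiniteSupport (F ω)) :
    ‖gip F‖ ≤ ∏ ω, gn k (F ω) := by
  have := gcs k hF
  simp only [← gn_pow, prod_pow] at this
  exact (pow_le_pow_iff_left₀ (norm_nonneg _) (prod_nonneg fun _ _ => gn_nonneg _ _)
    (by positivity)).mp this

theorem gn_smul (k : ℕ) (c : ℂ) (f : G → ℂ) : gn k (fun x => c * f x) = ‖c‖ * gn k f := by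
  refine (pow_left_inj₀ (gn_nonneg _ _) (mul_nonneg (norm_nonneg _) (gn_nonneg _ _))
    (n := 2 ^ (k + 1)) (by positivity)).mp ?_
  rw [gn_pow, mul_pow, gn_pow, U_smul]

/-- multilinearity -/
theorem gip_sum {ι : Type*} [DecidableEq ι] (J : Finset ι) {f : (σ → Bool) → ι → G → ℂ}
    (hf : ∀ ω, ∀ j ∈ J, HasFiniteSupport (f ω j)) :
    gip (fun ω x => ∑ j ∈ J, f ω j x) =
      ∑ c ∈ Fintype.piFinset fun _ : σ → Bool => J, gip fun ω => f ω (c ω) := by
  obtain ⟨S, T, hS, hT⟩ := ex_supp (F := fun p : (σ → Bool) × J => f p.1 p.2) fun p => hf _ _ p.2.2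
  have h1 : ∀ ω x, ∑ j ∈ J, f ω j x ≠ 0 → x ∈ S := fun ω x hx => by
    obtain ⟨j, hj, hx⟩ := exists_ne_zero_of_sum_ne_zero hx
    exact hS (ω, ⟨j, hj⟩) x hx
  rw [gip_eq (S := S) (T := T) (F := fun ω x => ∑ j ∈ J, f ω j x) (h1 _)
    fun ω x y hx hy => hT x (h1 _ _ hx) y (h1 _ _ hy)]
  have h2 : ∀ c ∈ Fintype.piFinset fun _ : σ → Bool => J, (gip fun ω => f ω (c ω)) =
      ∑ a ∈ Fintype.piFinset fun _ : σ => T, ∑ x ∈ S, cube (fun ω => f ω (c ω)) a x := by
    intro c hc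
    have h3 : ∀ ω x, f ω (c ω) x ≠ 0 → x ∈ S := fun ω x hx =>
      hS (ω, ⟨c ω, Fintype.mem_piFinset.mp hc ω⟩) x hx
    exact gip_eq (h3 _) fun ω x y hx hy => hT x (h3 _ _ hx) y (h3 _ _ hy)
  rw [sum_congr rfl h2, sum_comm (s := Fintype.piFinset fun _ : σ → Bool => J)]
  refine sum_congr rfl fun a _ => ?_
  rw [sum_comm]
  refine sum_congr rfl fun x _ => ?_
  simp only [cube, map_sum]
  rw [prod_univ_sum]

/-- triangle inequality -/
theorem gn_sum_le (k : ℕ) {ι : Type*} (J : Finset ι) {f : ι → G → ℂ}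
    (hf : ∀ j ∈ J, HasFiniteSupport (f j)) :
    gn k (fun x => ∑ j ∈ J, f j x) ≤ ∑ j ∈ J, gn k (f j) := by
  classical
  rw [gn_le_iff (sum_nonneg fun _ _ => gn_nonneg _ _)]
  have hs : HasFiniteSupport fun x => ∑ j ∈ J, f j x := by
    obtain ⟨S, T, hS, -⟩ := ex_supp (F := fun j : J => f j) fun j => hf _ j.2
    refine fin_of (S := S) fun x hx => ?_
    obtain ⟨j, hj, hx⟩ := exists_ne_zero_of_sum_ne_zero hx
    exact hS ⟨j, hj⟩ x hx
  have h1 : U k (fun x => ∑ j ∈ J, f j x) = ‖gip fun (_ : Fin (k + 1) → Bool) x => ∑ j ∈ J, f j x‖ := by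
    rw [← U_eq_gip k hs, Complex.norm_real, Real.norm_of_nonneg (U_nonneg _ _)]
  rw [h1, gip_sum J (f := fun _ j => f j) fun _ => hf]
  refine (norm_sum_le _ _).trans ((sum_le_sum fun c hc => gcs_gn k fun ω =>
    hf _ (Fintype.mem_piFinset.mp hc ω)).trans (le_of_eq ?_))
  rw [← prod_univ_sum (fun _ : Fin (k + 1) → Bool => J) fun _ j => gn k (f j)]
  simp

theorem gn_add_le (k : ℕ) {f g : G → ℂ} (hf : HasFiniteSupport f) (hg : HasFiniteSupport g) :
    gn k (fun x => f x + g x) ≤ gn k f + gn k g := by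
  simpa using gn_sum_le k (univ : Finset Bool) (f := fun b => bif b then f else g)
    fun b _ => by cases b <;> assumption

theorem gn_sub_le (k : ℕ) {f g : G → ℂ} (hf : HasFiniteSupport f) (hg : HasFiniteSupport g) :
    gn k (fun x => f x - g x) ≤ gn k f + gn k g := by
  have := gn_add_le k hf (g := fun x => (-1) * g x) (HasFiniteSupport.mul_right _ hg)
  rw [gn_smul] at this
  simpa [sub_eq_add_neg] using this

theorem U_add_le (k : ℕ) {f g : G → ℂ} (hf : HasFiniteSupport f) (hg : HasFiniteSupport g) :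
    U k (fun x => f x + g x) ≤ 2 ^ (2 ^ (k + 1) - 1) * (U k f + U k g) := by
  have := (gn_le_iff (add_nonneg (gn_nonneg k f) (gn_nonneg k g))).mp (gn_add_le k hf hg)
  refine this.trans ?_
  rw [← gn_pow k f, ← gn_pow k g]
  exact add_pow_le (gn_nonneg k f) (gn_nonneg k g) _

end Pool.Agent.P.MP_a14ce1_nt.Nil
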