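import Pool.Agent.P.MP_a14ce1_nt.Nil.Prod

/-!
The Goursat lemma for factorisations of block sums.
-/

open Finset MvPolynomial

set_option linter.unusedSectionVars false

noncomputable section

namespace Pool.Agent.P.MP_a14ce1_nt.Nil

variable {FF : Type} [Field FF] [CharZero FF] {ι ι' : Type} [Fintype ι] [DecidableEq ι]
  [Fintype ι'] [DecidableEq ι'] {K : Subfield FF} {lv : ι → ℕ} {lv' : ι' → ℕ} {σ : Type}

/-- The Goursat relation before the kernel element is moved by normality. -/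
theorem goursat_pre {S T : Sc K σ} (hs : Sep S T) {g : Fam K lv (σ →₀ ℕ)}
    {g' : Fam K lv' (σ →₀ ℕ)} (h0 : g.r 0 = ⊥)
    {h : Fam K (Sum.elim lv lv') (σ →₀ ℕ)} (hh : h ≤ g.prod g')
    {y : PS lv σ FF} {x x' : PS lv' σ FF}
    (h1 : Fac S T (g.prod g') h (UT.dg (y, x))) (h2 : Fac S T (g.prod g') h (UT.dg (y, x'))) :
    ∃ e ∈ g'.PG ⊓ S.EE lv', ∃ z ∈ h.kr.PG, ∃ c₀ ∈ g'.PG ⊓ T.EE lv', ∃ c ∈ g'.PG ⊓ T.EE lv',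
      x' = e * x * (c₀⁻¹ * z * c₀) * c := by
  obtain ⟨e, he, e', he', u, hu, u', -, c, hc, c', hc', m1, r1, r1'⟩ := h1.split
  obtain ⟨f, hf, f', hf', v, hv, v', -, d, hd, d', hd', m2, r2, r2'⟩ := h2.split
  have hr : u = (e⁻¹ * f) * v * (d * c⁻¹) := by
    have : u = e⁻¹ * (e * u * c) * c⁻¹ := by group
    rw [this, ← r1, r2]; group
  have n1 := mul_mem (inv_mem he) hf
  have n2 := mul_mem hd (inv_mem hc)
  obtain ⟨k1, k2⟩ := sub_PG (h := h.fst) hs h0 ⟨hu, (dg_mem_PG m1).1⟩ ⟨hv, (dg_mem_PG m2).1⟩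
    n1 n2 hr
  obtain ⟨a, ha, ma⟩ := lift_fst S ⟨k1, n1.2⟩
  obtain ⟨b, hb, mb⟩ := lift_fst T ⟨k2, n2.2⟩
  have ga : a ∈ g'.PG ⊓ S.EE lv' := ⟨Fam.PG_mono (Fam.snd_le hh) (dg_mem_PG ma).2, ha⟩
  have gb : b ∈ g'.PG ⊓ T.EE lv' := ⟨Fam.PG_mono (Fam.snd_le hh) (dg_mem_PG mb).2, hb⟩
  have hz := mul_mem (mul_mem (mul_mem (inv_mem m1) ma) m2) mb
  rw [UT.dg_inv, UT.dg_mul, UT.dg_mul, UT.dg_mul,
    show u⁻¹ * (e⁻¹ * f) * v * (d * c⁻¹) = 1 by rw [hr]; group] at hz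
  exact ⟨f' * a⁻¹ * e'⁻¹, mul_mem (mul_mem hf' (inv_mem ga)) (inv_mem he'), _, mem_kr_PG.2 hz,
    c', hc', c'⁻¹ * b⁻¹ * d', mul_mem (mul_mem (inv_mem hc') (inv_mem gb)) hd',
    by rw [r1', r2']; group⟩

/-- The kernel group is normalised by the projection. -/
theorem conj_mem_kr {h : Fam K (Sum.elim lv lv') (σ →₀ ℕ)} (S : Sc K σ) {c z : PS lv' σ FF}
    (hc : c ∈ h.snd.PG ⊓ S.EE lv') (hz : z ∈ h.kr.PG) : c⁻¹ * z * c ∈ h.kr.PG := by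
  obtain ⟨a, -, ma⟩ := lift_snd' S hc
  have := mul_mem (mul_mem (inv_mem ma) (mem_kr_PG.1 hz)) ma
  rw [UT.dg_inv, UT.dg_mul, UT.dg_mul, mul_one, inv_mul_cancel] at this
  exact mem_kr_PG.2 this

theorem goursat {S T : Sc K σ} (hs : Sep S T) {g : Fam K lv (σ →₀ ℕ)} {g' : Fam K lv' (σ →₀ ℕ)}
    {D : ℕ} (_hD : g.Bd D) (h0 : g.r 0 = ⊥) (_hD' : g'.Bd D) (_h0' : g'.r 0 = ⊥)
    {h : Fam K (Sum.elim lv lv') (σ →₀ ℕ)} (hh : h ≤ g.prod g') (hon : g' ≤ h.snd)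
    {y : PS lv σ FF} {x x' : PS lv' σ FF}
    (h1 : Fac S T (g.prod g') h (UT.dg (y, x))) (h2 : Fac S T (g.prod g') h (UT.dg (y, x'))) :
    ∃ e ∈ g'.PG ⊓ S.EE lv', ∃ z ∈ h.kr.PG, ∃ c ∈ g'.PG ⊓ T.EE lv', x' = e * x * z * c := by
  obtain ⟨e, he, z, hz, c₀, h₀, c, hc, r⟩ := goursat_pre hs h0 hh h1 h2
  exact ⟨e, he, _, conj_mem_kr T ⟨Fam.PG_mono hon h₀.1, h₀.2⟩ hz, c, hc, r⟩

end Pool.Agent.P.MP_a14ce1_nt.Nil
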