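import Pool.Agent.P.MP_a14ce1_nt.Nil.Ns
import Pool.Agent.P.MP_a14ce1_nt.Nil.Rat

/-!
Calculus of internal functions, internal predicates and countable unions of them.
-/

open Filter
open scoped BigOperators

set_option linter.unusedSectionVars false

noncomputable section

namespace Pool.Agent.P.MP_a14ce1_nt.Nil

/-! The action of `ℚ` on `HR` is the one of the field structure. -/
instance (priority := high) qModule : Module ℚ HR := Algebra.toModule
instance (priority := high) qDistrib : DistribMulAction ℚ HR := qModule.toDistribMulAction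
instance (priority := high) qAction : MulAction ℚ HR := qDistrib.toMulAction
instance (priority := high) qSMul : SMul ℚ HR := Algebra.toSMul

instance : CharZero HC := ⟨fun _ _ h => Nat.cast_injective (R := ℂ) (Germ.const_inj.1 h)⟩

variable {A S B S' C S'' : Type} [NS A S] [NS B S'] [NS C S'']

theorem ev_not {p : ℕ → Prop} : (∀ᶠ n in UU, ¬p n) ↔ ¬∀ᶠ n in UU, p n := Ultrafilter.eventually_not
theorem ev_or {p q : ℕ → Prop} : (∀ᶠ n in UU, p n ∨ q n) ↔ (∀ᶠ n in UU, p n) ∨ ∀ᶠ n in UU, q n :=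
  Ultrafilter.eventually_or
theorem ev_ge (j : ℕ) : ∀ᶠ n in UU, j ≤ n := Nat.hyperfilter_le_atTop (eventually_ge_atTop j)
theorem st_congr {x y : ℕ → S} (h : ∀ᶠ n in UU, x n = y n) : (st x : A) = st y :=
  (NS.eq_iff x y).2 h
theorem st_ind {p : A → Prop} (h : ∀ x, p (st x)) (a : A) : p a := by
  rw [← st_rep a]; exact h _

/-- Transfer of universal statements. -/
theorem ev_forall {π : ℕ → S → Prop} :
    (∀ᶠ n in UU, ∀ s, π n s) ↔ ∀ x : ℕ → S, ∀ᶠ n in UU, π n (x n) := by
  refine ⟨fun h x => h.mono fun n hn => hn _, fun h => ?_⟩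
  rcases isEmpty_or_nonempty S with h0 | h0
  · simp
  by_contra hc
  rw [← ev_not] at hc
  obtain ⟨x, hx⟩ := (hc.mono fun n hn => not_forall.1 hn).choice
  exact (ev_not.1 hx) (h x)

theorem ev_exists {π : ℕ → S → Prop} :
    (∀ᶠ n in UU, ∃ s, π n s) ↔ ∃ x : ℕ → S, ∀ᶠ n in UU, π n (x n) :=
  ⟨fun h => by
    have : Nonempty S := let ⟨_, s, _⟩ := h.exists; ⟨s⟩
    exact h.choice, fun ⟨x, h⟩ => h.mono fun n hn => ⟨x n, hn⟩⟩

theorem st_le {R : Type} [LE R] {x y : ℕ → R} : (st x : Ns R) ≤ st y ↔ ∀ᶠ n in UU, x n ≤ y n :=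
  Germ.coe_le
theorem st_lt {R : Type} [Preorder R] {x y : ℕ → R} :
    (st x : Ns R) < st y ↔ ∀ᶠ n in UU, x n < y n := Germ.coe_lt
theorem st_abs (x : ℕ → ℝ) : |(st x : HR)| = st fun n => |x n| := coe_abs x
theorem st_sum {R J : Type} [AddCommMonoid R] (s : Finset J) (x : J → ℕ → R) :
    ∑ j ∈ s, (st (x j) : Ns R) = st fun n => ∑ j ∈ s, x j n := by
  classical
  induction s using Finset.induction_on with
  | empty => rfl
  | insert a s ha ih =>
    simp only [Finset.sum_insert ha, ih]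
    rfl
theorem st_prod {R J : Type} [CommMonoid R] (s : Finset J) (x : J → ℕ → R) :
    ∏ j ∈ s, (st (x j) : Ns R) = st fun n => ∏ j ∈ s, x j n := by
  classical
  induction s using Finset.induction_on with
  | empty => rfl
  | insert a s ha ih =>
    simp only [Finset.prod_insert ha, ih]
    rfl

/-! ### Internal functions -/

namespace IntF

@[fun_prop] theorem id : IntF fun a : A => a := ⟨fun _ s => s, fun _ => rfl⟩
@[fun_prop] theorem const (b : B) : IntF fun _ : A => b :=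
  ⟨fun n _ => rep b n, fun _ => (st_rep b).symm⟩
@[fun_prop] theorem comp {g : B → C} {f : A → B} (hg : IntF g) (hf : IntF f) :
    IntF fun a => g (f a) := by
  obtain ⟨φ, h⟩ := hf
  obtain ⟨ψ, h'⟩ := hg
  exact ⟨fun n s => ψ n (φ n s), fun x => by simp only [h, h']⟩
@[fun_prop] theorem apply {J : Type} [Finite J] (j : J) : IntF fun f : J → A => f j :=
  ⟨fun _ s => s j, fun _ => rfl⟩
@[fun_prop] theorem pi {J : Type} [Finite J] {f : A → J → B} (h : ∀ j, IntF fun a => f a j) :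
    IntF f := by
  choose φ hφ using h
  exact ⟨fun n s j => φ j n s, fun x => funext fun j => hφ j x⟩
@[fun_prop] theorem prodMk {f : A → B} {g : A → C} (hf : IntF f) (hg : IntF g) :
    IntF fun a => (f a, g a) := by
  obtain ⟨φ, h⟩ := hf
  obtain ⟨ψ, h'⟩ := hg
  exact ⟨fun n s => (φ n s, ψ n s), fun x => Prod.ext (h x) (h' x)⟩
@[fun_prop] theorem fst {f : A → B × C} (hf : IntF f) : IntF fun a => (f a).1 :=
  comp (g := Prod.fst) ⟨fun _ s => s.1, fun _ => rfl⟩ hf
@[fun_prop] theorem snd {f : A → B × C} (hf : IntF f) : IntF fun a => (f a).2 :=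
  comp (g := Prod.snd) ⟨fun _ s => s.2, fun _ => rfl⟩ hf
theorem congr {f g : A → B} (hf : IntF f) (h : ∀ a, g a = f a) : IntF g := (funext h : g = f) ▸ hf
theorem coord {J : Type} [Finite J] {f : A → J → B} (hf : IntF f) (j : J) : IntF fun a => f a j :=
  (apply j).comp hf
theorem curry {f : A × B → C} (hf : IntF f) (a : A) : IntF fun b => f (a, b) := by fun_prop
theorem curry' {f : A × B → C} (hf : IntF f) (b : B) : IntF fun a => f (a, b) := by fun_prop

@[fun_prop] theorem map {R R' : Type} (g : R → R') {f : A → Ns R} (hf : IntF f) :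
    IntF fun a => (Germ.map g (f a) : Ns R') :=
  comp (g := Germ.map g) ⟨fun _ => g, fun _ => rfl⟩ hf
@[fun_prop] theorem map₂ {R R' R'' : Type} (g : R → R' → R'') {f : A → Ns R} {f' : A → Ns R'}
    (hf : IntF f) (hf' : IntF f') : IntF fun a => (Germ.map₂ g (f a) (f' a) : Ns R'') :=
  comp (g := fun p : Ns R × Ns R' => (Germ.map₂ g p.1 p.2 : Ns R''))
    ⟨fun _ s => g s.1 s.2, fun _ => rfl⟩ (hf.prodMk hf')

section alg

variable {R : Type} {f g : A → Ns R}

@[fun_prop] theorem add [Add R] (hf : IntF f) (hg : IntF g) : IntF fun a => f a + g a :=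
  map₂ (· + ·) hf hg
@[fun_prop] theorem mul [Mul R] (hf : IntF f) (hg : IntF g) : IntF fun a => f a * g a :=
  map₂ (· * ·) hf hg
@[fun_prop] theorem sub [Sub R] (hf : IntF f) (hg : IntF g) : IntF fun a => f a - g a :=
  map₂ (· - ·) hf hg
@[fun_prop] theorem div [Div R] (hf : IntF f) (hg : IntF g) : IntF fun a => f a / g a :=
  map₂ (· / ·) hf hg
@[fun_prop] theorem neg [Neg R] (hf : IntF f) : IntF fun a => -f a := map Neg.neg hf
@[fun_prop] theorem inv [Inv R] (hf : IntF f) : IntF fun a => (f a)⁻¹ := map Inv.inv hf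
@[fun_prop] theorem pow [Monoid R] (hf : IntF f) (k : ℕ) : IntF fun a => f a ^ k :=
  map (· ^ k) hf
@[fun_prop] theorem sum [AddCommMonoid R] {J : Type} {s : Finset J} {F : J → A → Ns R}
    (h : ∀ j, IntF (F j)) : IntF fun a => ∑ j ∈ s, F j a := by
  choose φ hφ using h
  exact ⟨fun n t => ∑ j ∈ s, φ j n t, fun x => by simp only [hφ, st_sum]⟩
@[fun_prop] theorem prod [CommMonoid R] {J : Type} {s : Finset J} {F : J → A → Ns R}
    (h : ∀ j, IntF (F j)) : IntF fun a => ∏ j ∈ s, F j a := by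
  choose φ hφ using h
  exact ⟨fun n t => ∏ j ∈ s, φ j n t, fun x => by simp only [hφ, st_prod]⟩

end alg

@[fun_prop] theorem abs {f : A → HR} (hf : IntF f) : IntF fun a => |f a| :=
  comp (g := fun t : HR => |t|) ⟨fun _ s => |s|, st_abs⟩ hf
@[fun_prop] theorem max {R : Type} [LinearOrder R] {f g : A → Ns R} (hf : IntF f) (hg : IntF g) :
    IntF fun a => max (f a) (g a) := (map₂ Max.max hf hg).congr fun _ => Germ.max_def _ _
@[fun_prop] theorem min {R : Type} [LinearOrder R] {f g : A → Ns R} (hf : IntF f) (hg : IntF g) :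
    IntF fun a => min (f a) (g a) := (map₂ Min.min hf hg).congr fun _ => Germ.min_def _ _
@[fun_prop] theorem liftHom {R R' : Type} [Semiring R] [Semiring R'] (φ : R →+* R') {f : A → Ns R}
    (hf : IntF f) : IntF fun a => liftHom φ (f a) := map φ hf
@[fun_prop] theorem ci {f : A → HZ} (hf : IntF f) : IntF fun a => ci (f a) := hf.liftHom _
@[fun_prop] theorem cr {f : A → HR} (hf : IntF f) : IntF fun a => cr (f a) := hf.liftHom _
@[fun_prop] theorem cj {f : A → HC} (hf : IntF f) : IntF fun a => cj (f a) := hf.liftHom _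
@[fun_prop] theorem nm {f : A → HC} (hf : IntF f) : IntF fun a => nm (f a) := map _ hf
@[fun_prop] theorem ee {f : A → HR} (hf : IntF f) : IntF fun a => ee (f a) := map _ hf
@[fun_prop] theorem zv {σ : Type} [Finite σ] {f : A → σ → HZ} (hf : IntF f) :
    IntF fun a => zv (f a) := pi fun l => (hf.coord l).ci
@[fun_prop] theorem cd {T : A → Ns (Finset S')} (h : IntF T) : IntF fun a => cd (T a) := map _ h
@[fun_prop] theorem fprod {T : A → Ns (Finset S')} {T' : A → Ns (Finset S'')} (h : IntF T)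
    (h' : IntF T') : IntF fun a => fprod (T a) (T' a) := map₂ _ h h'
@[fun_prop] theorem box {σ : Type} [Fintype σ] [DecidableEq σ] {N : A → σ → HZ} (h : IntF N) :
    IntF fun a => box (N a) :=
  comp (g := Nil.box) ⟨fun _ s => Fintype.piFinset fun l => Finset.Ico 0 (s l), fun x => by
    refine st_congr ((eventually_all.2 fun l => rep_st (A := HZ) fun n => x n l).mono
      fun n hn => ?_)
    congr 1
    funext l
    rw [← hn l]
    rfl⟩ h

section vec

variable {J R : Type} [Finite J] {f g : A → J → Ns R}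

@[fun_prop] theorem vadd [Add R] (hf : IntF f) (hg : IntF g) : IntF fun a => f a + g a :=
  pi fun j => (hf.coord j).add (hg.coord j)
@[fun_prop] theorem vsub [Sub R] (hf : IntF f) (hg : IntF g) : IntF fun a => f a - g a :=
  pi fun j => (hf.coord j).sub (hg.coord j)
@[fun_prop] theorem vneg [Neg R] (hf : IntF f) : IntF fun a => -f a :=
  pi fun j => (hf.coord j).neg
@[fun_prop] theorem vsmul [Mul R] {c : A → Ns R} (hc : IntF c) (hf : IntF f) :
    IntF fun a => c a • f a := pi fun j => hc.mul (hf.coord j)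
@[fun_prop] theorem vsum [AddCommMonoid R] {L : Type} {s : Finset L} {F : L → A → J → Ns R}
    (h : ∀ l, IntF (F l)) : IntF fun a => ∑ l ∈ s, F l a :=
  pi fun j => (sum (s := s) fun l => (h l).coord j).congr fun _ => Finset.sum_apply _ _ _

end vec

section mat

variable {J J' J'' R : Type} [Finite J] [Finite J'] [Finite J'']

theorem mat {f : A → Matrix J J' B} (h : ∀ i j, IntF fun a => f a i j) : IntF f :=
  pi (f := f) fun i => pi fun j => h i j
theorem ent {f : A → Matrix J J' B} (hf : IntF f) (i : J) (j : J') :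
    IntF fun a => f a i j := coord (coord (f := f) hf i) j

variable {f g : A → Matrix J J' (Ns R)}

@[fun_prop] theorem madd [Add R] (hf : IntF f) (hg : IntF g) : IntF fun a => f a + g a :=
  mat fun i j => (hf.ent i j).add (hg.ent i j)
@[fun_prop] theorem msub [Sub R] (hf : IntF f) (hg : IntF g) : IntF fun a => f a - g a :=
  mat fun i j => (hf.ent i j).sub (hg.ent i j)
@[fun_prop] theorem mneg [Neg R] (hf : IntF f) : IntF fun a => -f a :=
  mat fun i j => (hf.ent i j).neg
@[fun_prop] theorem msmul [Mul R] {c : A → Ns R} (hc : IntF c) (hf : IntF f) :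
    IntF fun a => c a • f a := mat fun i j => hc.mul (hf.ent i j)
@[fun_prop] theorem msum [AddCommMonoid R] {L : Type} {s : Finset L}
    {F : L → A → Matrix J J' (Ns R)} (h : ∀ l, IntF (F l)) : IntF fun a => ∑ l ∈ s, F l a :=
  mat fun i j => (sum (s := s) fun l => (h l).ent i j).congr fun _ => Matrix.sum_apply _ _ _ _
@[fun_prop] theorem mmul {J' : Type} [Fintype J'] [Semiring R] {f : A → Matrix J J' (Ns R)}
    {g : A → Matrix J' J'' (Ns R)} (hf : IntF f) (hg : IntF g) : IntF fun a => f a * g a :=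
  mat fun i j => (sum (s := Finset.univ) fun l => (hf.ent i l).mul (hg.ent l j)).congr
    fun _ => Matrix.mul_apply
@[fun_prop] theorem mpow {J : Type} [Fintype J] [DecidableEq J] [Semiring R]
    {f : A → Matrix J J (Ns R)} (hf : IntF f) (k : ℕ) : IntF fun a => f a ^ k := by
  induction k with
  | zero => exact (const 1).congr fun _ => pow_zero _
  | succ k ih => exact (ih.mmul hf).congr fun _ => pow_succ _ _
@[fun_prop] theorem qsmul (c : ℚ) {f : A → Matrix J J' HR} (hf : IntF f) :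
    IntF fun a => c • f a :=
  mat fun i j => ((const (c : HR)).mul (hf.ent i j)).congr fun a => Rat.smul_def c (f a i j)
/-- Linear maps between finite dimensional coordinate spaces are internal. -/
@[fun_prop] theorem lin (η : Matrix J J' HR →ₗ[HR] HR) {f : A → Matrix J J' HR} (hf : IntF f) :
    IntF fun a => η (f a) := by
  classical
  have := Fintype.ofFinite J
  have := Fintype.ofFinite J'
  refine (sum (s := Finset.univ) fun i => sum (s := Finset.univ) fun j =>
    (hf.ent i j).mul (const (η (Matrix.single i j 1)))).congr fun a => ?_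
  conv_lhs => rw [Matrix.matrix_eq_sum_single (f a)]
  simp only [map_sum]
  refine Finset.sum_congr rfl fun i _ => Finset.sum_congr rfl fun j _ => ?_
  rw [← smul_eq_mul, ← map_smul, Matrix.smul_single, smul_eq_mul, mul_one]
@[fun_prop] theorem linM {L L' : Type} [Finite L] [Finite L']
    (η : Matrix J J' HR →ₗ[HR] Matrix L L' HR) {f : A → Matrix J J' HR} (hf : IntF f) :
    IntF fun a => η (f a) :=
  mat fun i j => lin ((Matrix.entryLinearMap HR HR i j).comp η) hf

end mat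

end IntF

theorem intF_id : IntF fun a : A => a := IntF.id
theorem intF_const (b : B) : IntF fun _ : A => b := IntF.const b
theorem intF_pi {J : Type} [Finite J] {f : A → J → B} (h : ∀ j, IntF fun a => f a j) : IntF f :=
  IntF.pi h
theorem intF_apply {J : Type} [Finite J] (j : J) : IntF fun f : J → B => f j := IntF.apply j

/-- Application of an internal function, seen as a point of an ultrapower. -/
def ap (φ : Ns (S → S')) (a : A) : B := app (rep φ) a
theorem ap_st (φ : ℕ → S → S') (x : ℕ → S) :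
    (ap (st φ) (st x : A) : B) = st fun n => φ n (x n) := by
  rw [ap, app_st]
  exact st_congr ((rep_st (A := Ns (S → S')) φ).mono fun n h => by rw [h])
theorem intF_ap : IntF fun p : Ns (S → S') × A => (ap p.1 p.2 : B) :=
  ⟨fun _ s => s.1 s.2, fun _ => ap_st _ _⟩
@[fun_prop] theorem IntF.ap {φ : C → Ns (S → S')} {f : C → A} (hφ : IntF φ) (hf : IntF f) :
    IntF fun c => (ap (φ c) (f c) : B) := intF_ap.comp (hφ.prodMk hf)
theorem IntF.eq_ap {f : A → B} (hf : IntF f) : ∃ φ : Ns (S → S'), f = Nil.ap φ :=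
  let ⟨φ, h⟩ := hf
  ⟨st φ, funext (st_ind fun x => (h x).trans (ap_st φ x).symm)⟩
@[fun_prop] theorem IntF.update {J : Type} [Finite J] [DecidableEq J] (j : J) {f : A → J → B}
    {g : A → B} (hf : IntF f) (hg : IntF g) : IntF fun a => Function.update (f a) j (g a) :=
  IntF.pi fun i => by
    simp only [Function.update_apply]
    split_ifs
    exacts [hg, hf.coord i]
@[fun_prop] theorem IntF.of {J J' : Type} [Finite J] [Finite J'] {f : A → J → J' → B}
    (hf : IntF f) : IntF fun a => Matrix.of (f a) := hf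
@[fun_prop] theorem IntF.elim {J J' : Type} [Finite J] [Finite J'] {f : A → J → B} {g : A → J' → B}
    (hf : IntF f) (hg : IntF g) : IntF fun a => Sum.elim (f a) (g a) :=
  IntF.pi fun i => by
    cases i
    exacts [hf.coord _, hg.coord _]

/-! ### Internal predicates -/

theorem intP_const (c : Prop) : IntP fun _ : A => c := ⟨fun _ _ => c, fun _ => eventually_const.symm⟩
theorem IntP.los {p : A → Prop} {π : ℕ → S → Prop} (h : ∀ x, p (st x) ↔ ∀ᶠ n in UU, π n (x n))
    [Nonempty S] : (∀ a, p a) ↔ ∀ᶠ n in UU, ∀ s, π n s :=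
  ⟨fun H => ev_forall.2 fun x => (h x).1 (H _),
    fun H => st_ind fun x => (h x).2 (H.mono fun _ hn => hn _)⟩

namespace IntP

variable {p q : A → Prop}

theorem congr (hp : IntP p) (h : ∀ a, q a ↔ p a) : IntP q :=
  (funext fun a => propext (h a) : q = p) ▸ hp
theorem const (r : Prop) : IntP fun _ : A => r := ⟨fun _ _ => r, fun _ => eventually_const.symm⟩
theorem not (h : IntP p) : IntP fun a => ¬p a := by
  obtain ⟨π, h⟩ := h
  exact ⟨fun n s => ¬π n s, fun x => by simp only [h, ev_not]⟩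
theorem and (hp : IntP p) (hq : IntP q) : IntP fun a => p a ∧ q a := by
  obtain ⟨π, h⟩ := hp
  obtain ⟨ρ, h'⟩ := hq
  exact ⟨fun n s => π n s ∧ ρ n s, fun x => by simp only [h, h', eventually_and]⟩
theorem or (hp : IntP p) (hq : IntP q) : IntP fun a => p a ∨ q a :=
  (hp.not.and hq.not).not.congr fun _ => by tauto
theorem imp (hp : IntP p) (hq : IntP q) : IntP fun a => p a → q a :=
  (hp.and hq.not).not.congr fun _ => by tauto
theorem iff (hp : IntP p) (hq : IntP q) : IntP fun a => p a ↔ q a :=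
  ((hp.imp hq).and (hq.imp hp)).congr fun _ => iff_def
theorem comp {r : B → Prop} (hr : IntP r) {f : A → B} (hf : IntF f) : IntP fun a => r (f a) := by
  obtain ⟨φ, h⟩ := hf
  obtain ⟨ψ, h'⟩ := hr
  exact ⟨fun n s => ψ n (φ n s), fun x => by simp only [h, h']⟩
theorem ex {r : A → B → Prop} (hr : IntP fun z : A × B => r z.1 z.2) :
    IntP fun a => ∃ b, r a b := by
  obtain ⟨π, h⟩ := hr
  refine ⟨fun n s => ∃ t, π n (s, t), fun x => ⟨?_, fun hx => ?_⟩⟩
  · rintro ⟨b, hb⟩
    obtain ⟨y, rfl⟩ := NS.surj b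
    exact ((h fun n => (x n, y n)).1 hb).mono fun n hn => ⟨_, hn⟩
  · obtain ⟨y, hy⟩ := ev_exists.1 hx
    exact ⟨st y, (h fun n => (x n, y n)).2 hy⟩
theorem fa {r : A → B → Prop} (hr : IntP fun z : A × B => r z.1 z.2) :
    IntP fun a => ∀ b, r a b :=
  (ex (r := fun a b => ¬r a b) hr.not).not.congr fun _ => by simp
theorem all {J : Type} [Finite J] {r : J → A → Prop} (h : ∀ j, IntP (r j)) :
    IntP fun a => ∀ j, r j a := by
  choose π hπ using h
  exact ⟨fun n s => ∀ j, π j n s, fun x => by simp only [hπ, eventually_all]⟩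
theorem any {J : Type} [Finite J] {r : J → A → Prop} (h : ∀ j, IntP (r j)) :
    IntP fun a => ∃ j, r j a := (all fun j => (h j).not).not.congr fun _ => by simp
theorem ball {J : Type} {s : Set J} (hs : s.Finite) {r : J → A → Prop} (h : ∀ j, IntP (r j)) :
    IntP fun a => ∀ j ∈ s, r j a :=
  have := hs.to_subtype
  (all fun j : s => h j).congr fun _ => by simp
theorem bex {J : Type} {s : Set J} (hs : s.Finite) {r : J → A → Prop} (h : ∀ j, IntP (r j)) :
    IntP fun a => ∃ j ∈ s, r j a :=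
  have := hs.to_subtype
  (any fun j : s => h j).congr fun _ => by simp
theorem eq {f g : A → B} (hf : IntF f) (hg : IntF g) : IntP fun a => f a = g a :=
  comp (r := fun z : B × B => z.1 = z.2) ⟨fun _ s => s.1 = s.2, fun _ => NS.eq_iff _ _⟩
    (hf.prodMk hg)
theorem ne {f g : A → B} (hf : IntF f) (hg : IntF g) : IntP fun a => f a ≠ g a := (eq hf hg).not
theorem le {R : Type} [LE R] {f g : A → Ns R} (hf : IntF f) (hg : IntF g) :
    IntP fun a => f a ≤ g a :=
  comp (r := fun z : Ns R × Ns R => z.1 ≤ z.2) ⟨fun _ s => s.1 ≤ s.2, fun _ => st_le⟩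
    (hf.prodMk hg)
theorem lt {R : Type} [Preorder R] {f g : A → Ns R} (hf : IntF f) (hg : IntF g) :
    IntP fun a => f a < g a :=
  comp (r := fun z : Ns R × Ns R => z.1 < z.2) ⟨fun _ s => s.1 < s.2, fun _ => st_lt⟩
    (hf.prodMk hg)

end IntP

theorem mem_st {x : ℕ → S} {t : ℕ → Finset S} :
    Mem (st x : A) (st t) ↔ ∀ᶠ n in UU, x n ∈ t n :=
  eventually_congr (((rep_st (A := A) x).and (rep_st (A := Ns (Finset S)) t)).mono fun n h => by
    rw [h.1, h.2])

theorem IntP.mem {f : A → B} {T : A → Ns (Finset S')} (hf : IntF f) (hT : IntF T) :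
    IntP fun a => Mem (f a) (T a) :=
  IntP.comp (r := fun z : B × Ns (Finset S') => Mem z.1 z.2)
    ⟨fun _ s => s.1 ∈ s.2, fun _ => mem_st⟩ (hf.prodMk hT)

theorem mem_ZZ {x : HR} : x ∈ ZZ ↔ ∃ z : HZ, ci z = x :=
  ⟨fun ⟨z, h⟩ => ⟨st z, h.symm⟩, fun ⟨z, h⟩ => h ▸ st_ind (p := fun z : HZ => ci z ∈ ZZ)
    (fun x => ⟨x, rfl⟩) z⟩
theorem ci_mem (z : HZ) : ci z ∈ ZZ := mem_ZZ.2 ⟨z, rfl⟩

theorem IntP.memZZ {f : A → HR} (hf : IntF f) : IntP fun a => f a ∈ ZZ :=
  (IntP.ex (r := fun a (z : HZ) => ci z = f a) (IntP.eq (by fun_prop) (by fun_prop))).congr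
    fun _ => mem_ZZ

theorem IntP.dvd {f g : A → HZ} (hf : IntF f) (hg : IntF g) : IntP fun a => f a ∣ g a :=
  IntP.ex (r := fun a (z : HZ) => g a = f a * z) (IntP.eq (by fun_prop) (by fun_prop))

theorem IntP.memSub {J J' : Type} [Finite J] [Finite J'] (V : Submodule HR (Matrix J J' HR))
    {f : A → Matrix J J' HR} (hf : IntF f) : IntP fun a => f a ∈ V := by
  obtain ⟨W, hW⟩ := V.exists_isCompl
  exact (IntP.eq (IntF.linM (V.subtype.comp (V.projectionOnto W hW)) hf) hf).congr fun a =>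
    ⟨fun h => congrArg Subtype.val (Submodule.projectionOnto_apply_left hW ⟨_, h⟩),
      fun h => h ▸ (V.projectionOnto W hW (f a)).2⟩

theorem IntP.ent {ι : Type} [Finite ι] {r : A → HR → Prop}
    (hr : IntP fun z : A × HR => r z.1 z.2) {f : A → Matrix ι ι HR} (hf : IntF f) :
    IntP fun a => Ent {t | r a t} (f a) :=
  IntP.all fun i => IntP.all fun j => hr.comp (IntF.id.prodMk (hf.ent i j))

open Classical in
theorem IntF.ite {p : A → Prop} (hp : IntP p) {f g : A → B} (hf : IntF f) (hg : IntF g)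
    [DecidablePred p] : IntF fun a => if p a then f a else g a := by
  obtain ⟨π, h⟩ := hp
  obtain ⟨φ, h1⟩ := hf
  obtain ⟨ψ, h2⟩ := hg
  refine ⟨fun n s => if π n s then φ n s else ψ n s, fun x => ?_⟩
  beta_reduce
  split_ifs with c
  · rw [h1]
    exact st_congr (((h x).1 c).mono fun n hn => (if_pos hn).symm)
  · rw [h2]
    exact st_congr ((ev_not.2 (mt (h x).2 c)).mono fun n hn => (if_neg hn).symm)

/-- Internal choice. -/
theorem IntP.choice' {r : A → B → Prop} (hr : IntP fun z : A × B => r z.1 z.2) (b₀ : B) :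
    ∃ f : A → B, IntF f ∧ ∀ a, (∃ b, r a b) → r a (f a) := by
  classical
  obtain ⟨π, h⟩ := hr
  refine ⟨_, intF_app fun n s => if h : ∃ t, π n (s, t) then h.choose else rep b₀ n, ?_⟩
  rintro a ⟨b, hb⟩
  obtain ⟨x, rfl⟩ := NS.surj a
  obtain ⟨y, rfl⟩ := NS.surj b
  rw [app_st]
  refine (h fun n => (x n, _)).2 (((h fun n => (x n, y n)).1 hb).mono fun n hn => ?_)
  have h1 : ∃ t, π n (x n, t) := ⟨_, hn⟩
  have h2 := h1.choose_spec
  rwa [← dif_pos h1 (t := fun h => h.choose) (e := fun _ => rep b₀ n)] at h2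

theorem IntP.choice {p : A → B → Prop} (h : IntP fun z : A × B => p z.1 z.2) [Nonempty S'] :
    ∃ f : A → B, IntF f ∧ ∀ a, (∃ b, p a b) → p a (f a) :=
  h.choice' (st fun _ => Classical.arbitrary S')

/-- Internal subsets, with parameters. -/
theorem IntP.filter' {p : B → A → Prop} (hp : IntP fun z : B × A => p z.1 z.2)
    {T : B → Ns (Finset S)} (hT : IntF T) :
    ∃ H : B → Ns (Finset S), IntF H ∧ ∀ b (a : A), Mem a (H b) ↔ Mem a (T b) ∧ p b a := by
  classical
  obtain ⟨π, h⟩ := hp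
  obtain ⟨τ, h'⟩ := hT
  refine ⟨_, intF_app fun n s => (τ n s).filter fun t => π n (s, t), st_ind fun y => st_ind fun x => ?_⟩
  rw [app_st, h', mem_st, mem_st]
  simp only [Finset.mem_filter, eventually_and]
  exact and_congr_right fun _ => (h fun n => (y n, x n)).symm

/-- The internal subset cut out by an internal predicate. -/
theorem IntP.filter {p : A → Prop} (hp : IntP p) (T : Ns (Finset S)) :
    ∃ H : Ns (Finset S), ∀ a : A, Mem a H ↔ Mem a T ∧ p a :=
  let ⟨H, _, h⟩ := IntP.filter' (B := HZ) (p := fun _ a => p a) (hp.comp (by fun_prop))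
    (IntF.const T)
  ⟨H 0, h 0⟩

theorem IntP.memSpan {ι J : Type} [Finite ι] [Finite J] {e : A → J → Matrix ι ι HR} (he : IntF e)
    {f : A → Matrix ι ι HR} (hf : IntF f) :
    IntP fun a => f a ∈ Submodule.span HR (Set.range (e a)) := by
  have := Fintype.ofFinite J
  exact (IntP.ex (r := fun a (c : J → HR) => ∑ j, c j • e a j = f a)
    (IntP.eq (by fun_prop) (by fun_prop))).congr fun _ => Submodule.mem_span_range_iff_exists_fun _

@[fun_prop] theorem IntF.fn {ι : Type} [Fintype ι] [DecidableEq ι] {κ X : A → Matrix ι ι HR}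
    (hκ : IntF κ) (hX : IntF X) : IntF fun a => fn (κ a) (X a) :=
  IntF.sum fun i => IntF.sum fun j => (hκ.ent i j).mul (hX.ent i j)

theorem IntP.kills {ι : Type} [Fintype ι] [DecidableEq ι] (V : Submodule HR (Matrix ι ι HR))
    {κ : A → Matrix ι ι HR} (h : IntF κ) : IntP fun a => ∀ X ∈ V, fn (κ a) X = 0 :=
  IntP.fa ((IntP.memSub V (by fun_prop)).imp
    (IntP.eq (IntF.fn (by fun_prop) (by fun_prop)) (IntF.const _)))

/-! ### Unipotent groups -/

section ut

variable {ι : Type} [Fintype ι] [DecidableEq ι] {lv : ι → ℕ} {σ : Type}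

@[fun_prop] theorem IntF.val {f : A → UT lv HR} (hf : IntF f) : IntF fun a => (f a).val :=
  IntF.comp (g := UT.val) ⟨fun _ s => s.val, fun _ => rfl⟩ hf

theorem IntF.of_val {f : A → UT lv HR} (hf : IntF fun a => (f a).val) : IntF f := by
  obtain ⟨g, hg, h⟩ := IntP.choice' (r := fun a (u : UT lv HR) => u.val = (f a).val)
    (IntP.eq (by fun_prop) (hf.comp (by fun_prop))) 1
  exact hg.congr fun a => UT.ext (h a ⟨_, rfl⟩).symm

@[fun_prop] theorem IntF.utmul {f g : A → UT lv HR} (hf : IntF f) (hg : IntF g) :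
    IntF fun a => f a * g a := IntF.of_val (hf.val.mmul hg.val)

@[fun_prop] theorem IntF.utinv {f : A → UT lv HR} (hf : IntF f) : IntF fun a => (f a)⁻¹ := by
  obtain ⟨g, hg, h⟩ := IntP.choice' (r := fun a (u : UT lv HR) => u * f a = 1)
    (IntP.eq (by fun_prop) (by fun_prop)) 1
  exact hg.congr fun a => (eq_inv_of_mul_eq_one_left (h a ⟨_, inv_mul_cancel _⟩)).symm

theorem exists_pow_zero (lv : ι → ℕ) (R : Type) [CommRing R] [Algebra ℚ R] :
    ∃ m, ∀ X ∈ mF R lv 1, X ^ (m + 1) = 0 := by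
  obtain ⟨m, hm⟩ := (Set.finite_range lv).bddAbove
  refine ⟨m, fun X hX => Matrix.ext fun a b => (filt_mF R lv).pow_mem hX m a b ?_⟩
  have := hm (Set.mem_range_self b)
  omega

@[fun_prop] theorem IntF.lg {f : A → UT lv HR} (hf : IntF f) : IntF fun a => lg (f a) := by
  obtain ⟨m, hm⟩ := exists_pow_zero lv HR
  have := hf.val
  refine IntF.congr ?_ fun a => log_eq_sum (hm _ (f a).up)
  fun_prop

@[fun_prop] theorem IntF.utex {f : A → Matrix ι ι HR} (hf : IntF f) :
    IntF fun a => ex lv (f a) := by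
  classical
  obtain ⟨g, hg, h⟩ := IntP.choice' (r := fun a (u : UT lv HR) => Nil.lg u = f a)
    (IntP.eq (by fun_prop) (by fun_prop)) 1
  refine (IntF.ite (p := fun a => Nil.lg (g a) = f a) (IntP.eq (by fun_prop) hf) hg
    (IntF.const 1)).congr fun a => ?_
  split_ifs with c
  · rw [← c, ex_lg]
  · exact dif_neg fun hm => c (h a ⟨_, lg_ex hm⟩)

theorem IntP.memGG {K : Subfield HR} {I : Type} [AddCommMonoid I] (g : Fam K lv I)
    {f : A → UT lv HR} (hf : IntF f) : IntP fun a => f a ∈ g.GG := IntP.memSub (g.r 0) hf.lg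

theorem IntP.lev' {q : A → HR} (hq : IntF q) {f : A → UT lv HR} (hf : IntF f) :
    IntP fun a => Lev (q a) (f a) :=
  IntP.ent (r := fun a t => ∃ z ∈ ZZ, t = q a * z)
    (IntP.ex ((IntP.memZZ (by fun_prop)).and (IntP.eq (by fun_prop) (by fun_prop)))) (by fun_prop)

theorem IntP.lev (q : HR) {f : A → UT lv HR} (hf : IntF f) : IntP fun a => Lev q (f a) :=
  IntP.lev' (IntF.const q) hf

end ut

/-! ### Internal families of polynomials -/

section poly

open MvPolynomial

variable {σ τ : Type}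

/-- Internal families of polynomials of bounded degree. -/
structure IntY (p : A → MvPolynomial σ HR) : Prop where
  supp : ∃ s : Finset (σ →₀ ℕ), ∀ a β, β ∉ s → coeff β (p a) = 0
  int : ∀ β, IntF fun a => coeff β (p a)

namespace IntY

variable {p q : A → MvPolynomial σ HR}

theorem congr (hp : IntY p) (h : ∀ a, q a = p a) : IntY q := (funext h : q = p) ▸ hp
theorem const (r : MvPolynomial σ HR) : IntY fun _ : A => r :=
  ⟨⟨r.support, fun _ _ h => notMem_support_iff.1 h⟩, fun _ => IntF.const _⟩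
theorem comp (hp : IntY p) {f : B → A} (hf : IntF f) : IntY fun b => p (f b) :=
  ⟨hp.supp.imp fun _ h b => h (f b), fun β => (hp.int β).comp hf⟩
theorem add (hp : IntY p) (hq : IntY q) : IntY fun a => p a + q a := by
  classical
  obtain ⟨s, hs⟩ := hp.supp
  obtain ⟨t, ht⟩ := hq.supp
  refine ⟨⟨s ∪ t, fun a β h => ?_⟩, fun β => ((hp.int β).add (hq.int β)).congr fun _ =>
    coeff_add _ _ _⟩
  rw [Finset.notMem_union] at h
  rw [coeff_add, hs a β h.1, ht a β h.2, add_zero]
theorem mul (hp : IntY p) (hq : IntY q) : IntY fun a => p a * q a := by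
  classical
  obtain ⟨s, hs⟩ := hp.supp
  obtain ⟨t, ht⟩ := hq.supp
  refine ⟨⟨Finset.image₂ (· + ·) s t, fun a β h => ?_⟩, fun β =>
    (IntF.sum (s := Finset.HasAntidiagonal.antidiagonal β) fun z => (hp.int z.1).mul (hq.int z.2)).congr fun _ =>
      coeff_mul _ _ _⟩
  rw [coeff_mul]
  refine Finset.sum_eq_zero fun z hz => ?_
  by_cases h1 : z.1 ∈ s
  · rw [ht a z.2 fun h2 => h (Finset.HasAntidiagonal.mem_antidiagonal.1 hz ▸ Finset.mem_image₂_of_mem h1 h2),
      mul_zero]
  · rw [hs a z.1 h1, zero_mul]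
theorem cC {c : A → HR} (hc : IntF c) : IntY fun a => (MvPolynomial.C (c a) : MvPolynomial σ HR) := by
  classical
  refine ⟨⟨{0}, fun a β h => ?_⟩, fun β => ?_⟩
  · rw [coeff_C, if_neg fun e => h (Finset.mem_singleton.2 e.symm)]
  · simp only [coeff_C]
    split_ifs
    exacts [hc, IntF.const _]
theorem neg (hp : IntY p) : IntY fun a => -p a :=
  ((const (-1)).mul hp).congr fun a => (neg_one_mul (p a)).symm
theorem sub (hp : IntY p) (hq : IntY q) : IntY fun a => p a - q a :=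
  (hp.add hq.neg).congr fun _ => sub_eq_add_neg _ _
theorem smul {c : A → HR} (hc : IntF c) (hp : IntY p) : IntY fun a => c a • p a :=
  ((cC hc).mul hp).congr fun _ => smul_eq_C_mul _ _
theorem qsmul (c : ℚ) (hp : IntY p) : IntY fun a => c • p a :=
  (smul (IntF.const (c : HR)) hp).congr fun _ => (Rat.cast_smul_eq_qsmul HR c _).symm
theorem sum {J : Type} {s : Finset J} {P : J → A → MvPolynomial σ HR} (h : ∀ j, IntY (P j)) :
    IntY fun a => ∑ j ∈ s, P j a := by
  classical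
  induction s using Finset.induction_on with
  | empty => exact const 0
  | insert j s hj ih => exact ((h j).add ih).congr fun _ => Finset.sum_insert hj
theorem prod {J : Type} {s : Finset J} {P : J → A → MvPolynomial σ HR} (h : ∀ j, IntY (P j)) :
    IntY fun a => ∏ j ∈ s, P j a := by
  classical
  induction s using Finset.induction_on with
  | empty => exact const 1
  | insert j s hj ih => exact ((h j).mul ih).congr fun _ => Finset.prod_insert hj
theorem pow (hp : IntY p) (k : ℕ) : IntY fun a => p a ^ k := by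
  induction k with
  | zero => exact (const 1).congr fun _ => pow_zero _
  | succ k ih => exact (ih.mul hp).congr fun _ => pow_succ _ _
theorem aeval (hp : IntY p) {f : A → σ → MvPolynomial τ HR} (hf : ∀ l, IntY fun a => f a l) :
    IntY fun a => MvPolynomial.aeval (f a) (p a) := by
  obtain ⟨s, hs⟩ := hp.supp
  refine (sum (s := s) fun β => (cC (hp.int β)).mul
    (prod (s := β.support) fun l => (hf l).pow (β l))).congr fun a => ?_
  rw [aeval_def, eval₂_eq]
  exact Finset.sum_subset (fun β hβ => by_contra fun h => mem_support_iff.1 hβ (hs a β h))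
    fun β _ h => by rw [notMem_support_iff.1 h, map_zero, zero_mul]
theorem eval (hp : IntY p) {n : A → σ → HR} (hn : ∀ l, IntF fun a => n a l) :
    IntF fun a => MvPolynomial.eval (n a) (p a) := by
  obtain ⟨s, hs⟩ := hp.supp
  refine (IntF.sum (s := s) fun β => (hp.int β).mul
    (IntF.prod (s := β.support) fun l => (hn l).pow (β l))).congr fun a => ?_
  rw [eval_eq]
  exact Finset.sum_subset (fun β hβ => by_contra fun h => mem_support_iff.1 hβ (hs a β h))
    fun β _ h => by rw [notMem_support_iff.1 h, zero_mul]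

end IntY

variable {ι : Type} [Fintype ι] [DecidableEq ι] {lv : ι → ℕ}

/-- Internal families of matrices of polynomials. -/
def IntM (X : A → Matrix ι ι (MvPolynomial σ HR)) : Prop := ∀ i j, IntY fun a => X a i j

namespace IntM

variable {X Y : A → Matrix ι ι (MvPolynomial σ HR)}

theorem congr (hX : IntM X) (h : ∀ a, Y a = X a) : IntM Y := (funext h : Y = X) ▸ hX
theorem const (Z : Matrix ι ι (MvPolynomial σ HR)) : IntM fun _ : A => Z := fun _ _ => IntY.const _
theorem comp (hX : IntM X) {f : B → A} (hf : IntF f) : IntM fun b => X (f b) :=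
  fun i j => (hX i j).comp hf
theorem add (hX : IntM X) (hY : IntM Y) : IntM fun a => X a + Y a := fun i j => (hX i j).add (hY i j)
theorem sub (hX : IntM X) (hY : IntM Y) : IntM fun a => X a - Y a := fun i j => (hX i j).sub (hY i j)
theorem neg (hX : IntM X) : IntM fun a => -X a := fun i j => (hX i j).neg
theorem mul (hX : IntM X) (hY : IntM Y) : IntM fun a => X a * Y a := fun i j =>
  (IntY.sum (s := Finset.univ) fun l => (hX i l).mul (hY l j)).congr fun _ => Matrix.mul_apply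
theorem qsmul (c : ℚ) (hX : IntM X) : IntM fun a => c • X a := fun i j => (hX i j).qsmul c
theorem smul {c : A → HR} (hc : IntF c) (hX : IntM X) : IntM fun a => c a • X a :=
  fun i j => (hX i j).smul hc
theorem sum {J : Type} {s : Finset J} {P : J → A → Matrix ι ι (MvPolynomial σ HR)}
    (h : ∀ l, IntM (P l)) : IntM fun a => ∑ l ∈ s, P l a := fun i j =>
  (IntY.sum (s := s) fun l => h l i j).congr fun _ => Matrix.sum_apply _ _ _ _
theorem pow (hX : IntM X) (k : ℕ) : IntM fun a => X a ^ k := by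
  induction k with
  | zero => exact (const 1).congr fun _ => pow_zero _
  | succ k ih => exact (ih.mul hX).congr fun _ => pow_succ _ _
theorem co (hX : IntM X) (β : σ →₀ ℕ) : IntF fun a => co β (X a) :=
  IntF.mat fun i j => (hX i j).int β
theorem supp (hX : IntM X) : ∃ s : Finset (σ →₀ ℕ), ∀ a β, β ∉ s → Nil.co β (X a) = 0 := by
  classical
  choose s hs using fun z : ι × ι => (hX z.1 z.2).supp
  exact ⟨Finset.univ.biUnion s, fun a β h => Matrix.ext fun i j => hs (i, j) a β fun h' =>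
    h (Finset.mem_biUnion.2 ⟨_, Finset.mem_univ _, h'⟩)⟩
theorem of_co (h1 : ∃ s : Finset (σ →₀ ℕ), ∀ a β, β ∉ s → Nil.co β (X a) = 0)
    (h2 : ∀ β, IntF fun a => Nil.co β (X a)) : IntM X := fun i j =>
  ⟨h1.imp fun _ h a β hβ => congrFun (congrFun (h a β hβ) i) j, fun β => (h2 β).ent i j⟩
theorem exp (hX : IntM X) (h : ∀ a, X a ∈ mF _ lv 1) : IntM fun a => IsNilpotent.exp (X a) := by
  obtain ⟨m, hm⟩ := exists_pow_zero lv (MvPolynomial σ HR)
  exact (sum fun k => (hX.pow k).qsmul _).congr fun a => IsNilpotent.exp_eq_sum (hm _ (h a))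

end IntM

theorem intS_iff {x : A → PS lv σ HR} : IntS x ↔ IntM fun a => (x a).val :=
  ⟨fun h => IntM.of_co h.supp h.int, fun h => ⟨h.supp, h.co⟩⟩

namespace IntS

variable {x y : A → PS lv σ HR}

theorem val (hx : IntS x) : IntM fun a => (x a).val := intS_iff.1 hx
theorem congr (hx : IntS x) (h : ∀ a, y a = x a) : IntS y := (funext h : y = x) ▸ hx
theorem const (z : PS lv σ HR) : IntS fun _ : A => z := intS_iff.2 (IntM.const _)
theorem comp (hx : IntS x) {f : B → A} (hf : IntF f) : IntS fun b => x (f b) :=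
  intS_iff.2 (hx.val.comp hf)
theorem mul (hx : IntS x) (hy : IntS y) : IntS fun a => x a * y a :=
  intS_iff.2 (hx.val.mul hy.val)
theorem lgM (hx : IntS x) : IntM fun a => lg (x a) := by
  obtain ⟨m, hm⟩ := exists_pow_zero lv (MvPolynomial σ HR)
  exact (IntM.sum fun k => ((hx.val.sub (IntM.const 1)).pow (k + 1)).qsmul _).congr
    fun a => log_eq_sum (hm _ (x a).up)
theorem co_lg (hx : IntS x) (β : σ →₀ ℕ) : IntF fun a => co β (Nil.lg (x a)) := hx.lgM.co β
theorem ex {X : A → Matrix ι ι (MvPolynomial σ HR)} (hX : IntM X) (h : ∀ a, X a ∈ mF _ lv 1) :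
    IntS fun a => (ex lv (X a) : PS lv σ HR) :=
  intS_iff.2 ((hX.exp h).congr fun a => ex_val (h a))
theorem of_lg (h : IntM fun a => Nil.lg (x a)) : IntS x :=
  (ex h fun a => lg_mem (x a)).congr fun a => (ex_lg (x a)).symm
theorem inv (hx : IntS x) : IntS fun a => (x a)⁻¹ := of_lg (hx.lgM.neg.congr fun _ => lg_inv _)
theorem cst {f : A → UT lv HR} (hf : IntF f) : IntS fun a => cst σ (f a) :=
  intS_iff.2 fun i j => IntY.cC (hf.val.ent i j)
theorem sb (hx : IntS x) {f : A → σ → MvPolynomial τ HR} (hf : ∀ l, IntY fun a => f a l) :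
    IntS fun a => sb (f a) (x a) := intS_iff.2 fun i j => (hx.val i j).aeval hf
theorem sh' (hx : IntS x) {h : A → σ → HR} (hh : ∀ l, IntF fun a => h a l) :
    IntS fun a => sh (h a) (x a) := hx.sb fun l => (IntY.const _).add (IntY.cC (hh l))
theorem ev' (hx : IntS x) {n : A → σ → HR} (hn : ∀ l, IntF fun a => n a l) :
    IntF fun a => ev (n a) (x a) := IntF.of_val (IntF.mat fun i j => (hx.val i j).eval hn)
theorem ev [Finite σ] (hx : IntS x) {n : A → σ → HR} (hn : IntF n) :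
    IntF fun a => ev (n a) (x a) := hx.ev' hn.coord
theorem PG {K : Subfield HR} (g : Fam K lv (σ →₀ ℕ)) (hx : IntS x) : IntP fun a => x a ∈ g.PG := by
  obtain ⟨s, hs⟩ := hx.lgM.supp
  refine (IntP.ball s.finite_toSet fun β => IntP.memSub (g.r β) (hx.co_lg β)).congr fun a =>
    ⟨fun h β _ => h β, fun h β => ?_⟩
  by_cases c : β ∈ s
  · exact h β c
  · rw [hs a β c]; exact zero_mem _

theorem sh [Finite σ] (hx : IntS x) {h : A → σ → HR} (hh : IntF h) :
    IntS fun a => Nil.sh (h a) (x a) := hx.sh' hh.coord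
theorem lg (hx : IntS x) : (∃ s : Finset (σ →₀ ℕ), ∀ a β, β ∉ s → co β (Nil.lg (x a)) = 0) ∧
    ∀ β, IntF fun a => co β (Nil.lg (x a)) := ⟨hx.lgM.supp, hx.lgM.co⟩

end IntS

theorem intS_const (x : PS lv σ HR) : IntS fun _ : A => x := IntS.const x
theorem IntP.memPG {K : Subfield HR} (g : Fam K lv (σ →₀ ℕ)) {x : A → PS lv σ HR} (hx : IntS x) :
    IntP fun a => x a ∈ g.PG := hx.PG g
@[fun_prop] theorem IntF.eval (p : MvPolynomial σ HR) [Finite σ] {f : A → σ → HR} (hf : IntF f) :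
    IntF fun a => eval (f a) p := (IntY.const p).eval hf.coord

@[fun_prop] theorem IntF.ev [Finite σ] (x : PS lv σ HR) {n : A → σ → HR} (hn : IntF n) :
    IntF fun a => ev (n a) x := (IntS.const x).ev hn

end poly

/-! ### Saturation and countable unions -/

/-- Countable saturation. -/
theorem exists_forall {P : ℕ → A → Prop} (hP : ∀ j, IntP (P j)) (h : ∀ j, ∃ a, ∀ i ≤ j, P i a) :
    ∃ a, ∀ j, P j a := by
  classical
  choose π hπ using hP
  have h1 : ∀ j, ∀ᶠ n in UU, ∃ s, ∀ i ≤ j, π i n s := fun j => by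
    obtain ⟨a, ha⟩ := h j
    obtain ⟨x, rfl⟩ := NS.surj a
    have : ∀ᶠ n in UU, ∀ i ∈ Set.Iic j, π i n (x n) :=
      (eventually_all_finite (Set.finite_Iic j)).2 fun i hi => (hπ i x).1 (ha i hi)
    exact this.mono fun n hn => ⟨x n, hn⟩
  have : Nonempty S := let ⟨_, s, _⟩ := (h1 0).exists; ⟨s⟩
  have h2 : ∀ n, ∃ s, ∀ j ≤ n, (∃ s', ∀ i ≤ j, π i n s') → π j n s := fun n => by
    by_cases h0 : ∃ j ≤ n, ∃ s', ∀ i ≤ j, π i n s'
    · obtain ⟨j, hj, hs⟩ := h0
      obtain ⟨s, hs⟩ := Nat.findGreatest_spec (P := fun j => ∃ s', ∀ i ≤ j, π i n s') hj hs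
      exact ⟨s, fun i hi h' => hs i (Nat.le_findGreatest hi h')⟩
    · exact ⟨Classical.arbitrary S, fun j hj h' => absurd ⟨j, hj, h'⟩ h0⟩
  choose x hx using h2
  refine ⟨st x, fun j => (hπ j x).2 ?_⟩
  filter_upwards [h1 j, ev_ge j] with n a b using hx n j b a

/-- An internal set covered by countably many internal sets is covered by finitely many. -/
theorem sat {H : A → Prop} (hH : IntP H) {P : ℕ → A → Prop} (hP : ∀ j, IntP (P j))
    (h : ∀ a, H a → ∃ j, P j a) : ∃ j, ∀ a, H a → ∃ i ≤ j, P i a := by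
  by_contra hc
  push Not at hc
  obtain ⟨a, ha⟩ := exists_forall (P := fun j a => H a ∧ ¬P j a) (fun j => hH.and (hP j).not) fun j => by
    obtain ⟨a, h1, h2⟩ := hc j
    exact ⟨a, fun i hi => ⟨h1, h2 i hi⟩⟩
  obtain ⟨j, hj⟩ := h a (ha 0).1
  exact (ha j).2 hj

theorem sat_mono {H : A → Prop} (hH : IntP H) {P : ℕ → A → Prop} (hP : ∀ j, IntP (P j))
    (hm : ∀ i j, i ≤ j → ∀ a, P i a → P j a) (h : ∀ a, H a → ∃ j, P j a) :
    ∃ j, ∀ a, H a → P j a := by
  obtain ⟨j, hj⟩ := sat hH hP h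
  exact ⟨j, fun a ha => let ⟨i, hi, h'⟩ := hj a ha; hm i j hi a h'⟩

theorem IntP.sig {p : A → Prop} (h : IntP p) : Sig p := ⟨fun _ => p, fun _ => h, fun _ => by simp⟩

namespace Sig

variable {p q : A → Prop}

theorem congr (hp : Sig p) (h : ∀ a, q a ↔ p a) : Sig q :=
  (funext fun a => propext (h a) : q = p) ▸ hp
theorem const (r : Prop) : Sig fun _ : A => r := (IntP.const r).sig
/-- An increasing presentation. -/
theorem mono' (hp : Sig p) : ∃ P : ℕ → A → Prop, (∀ j, IntP (P j)) ∧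
    (∀ i j, i ≤ j → ∀ a, P i a → P j a) ∧ ∀ a, p a ↔ ∃ j, P j a := by
  obtain ⟨P, h1, h2⟩ := hp
  refine ⟨fun j a => ∃ i ∈ Set.Iic j, P i a, fun j => IntP.bex (Set.finite_Iic j) h1,
    fun i j hij a ⟨l, hl, h⟩ => ⟨l, le_trans hl hij, h⟩, fun a => (h2 a).trans
      ⟨fun ⟨j, h⟩ => ⟨j, j, Set.self_mem_Iic, h⟩, fun ⟨_, j, _, h⟩ => ⟨j, h⟩⟩⟩
theorem any {J : Type} [Countable J] {r : J → A → Prop} (h : ∀ j, Sig (r j)) :
    Sig fun a => ∃ j, r j a := by
  rcases isEmpty_or_nonempty J with h0 | h0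
  · exact (const False).congr fun _ => by simp
  choose P h1 h2 using h
  obtain ⟨e, he⟩ := exists_surjective_nat (J × ℕ)
  refine ⟨fun n => P (e n).1 (e n).2, fun n => h1 _ _, fun a => ⟨fun ⟨j, hj⟩ => ?_,
    fun ⟨n, hn⟩ => ⟨_, (h2 _ a).2 ⟨_, hn⟩⟩⟩⟩
  obtain ⟨c, hc⟩ := (h2 j a).1 hj
  obtain ⟨n, hn⟩ := he (j, c)
  exact ⟨n, by simpa only [hn] using hc⟩
theorem and (hp : Sig p) (hq : Sig q) : Sig fun a => p a ∧ q a := by
  obtain ⟨P, h1, h2⟩ := hp
  obtain ⟨R, h3, h4⟩ := hq
  exact (any fun z : ℕ × ℕ => ((h1 z.1).and (h3 z.2)).sig).congr fun a => by simp [h2, h4]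
theorem or (hp : Sig p) (hq : Sig q) : Sig fun a => p a ∨ q a :=
  (any (r := fun b : Bool => if b then p else q) fun b => by cases b <;> simpa).congr
    fun a => by simp [or_comm]
theorem imp (hp : IntP p) (hq : Sig q) : Sig fun a => p a → q a :=
  (hp.not.sig.or hq).congr fun _ => imp_iff_not_or
theorem comp {r : B → Prop} (hr : Sig r) {f : A → B} (hf : IntF f) : Sig fun a => r (f a) := by
  obtain ⟨P, h1, h2⟩ := hr
  exact ⟨fun j a => P j (f a), fun j => (h1 j).comp hf, fun a => h2 _⟩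
theorem ex {r : A → B → Prop} (hr : Sig fun z : A × B => r z.1 z.2) : Sig fun a => ∃ b, r a b := by
  obtain ⟨P, h1, h2⟩ := hr
  exact ⟨fun j a => ∃ b, P j (a, b), fun j => IntP.ex (h1 j), fun a =>
    ⟨fun ⟨b, hb⟩ => let ⟨j, hj⟩ := (h2 (a, b)).1 hb; ⟨j, b, hj⟩,
      fun ⟨j, b, hj⟩ => ⟨b, (h2 (a, b)).2 ⟨j, hj⟩⟩⟩⟩
theorem fa' {r : A → B → Prop} (hr : Sig fun z : A × B => r z.1 z.2) : Sig fun a => ∀ b, r a b := by
  obtain ⟨P, h1, hm, h2⟩ := hr.mono'
  refine ⟨fun j a => ∀ b, P j (a, b), fun j => IntP.fa (h1 j), fun a =>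
    ⟨fun h => ?_, fun ⟨j, hj⟩ b => (h2 (a, b)).2 ⟨j, hj b⟩⟩⟩
  obtain ⟨j, hj⟩ := sat_mono (IntP.const True) (P := fun j b => P j (a, b))
    (fun j => (h1 j).comp (by fun_prop)) (fun i j hij b => hm i j hij _)
    fun b _ => (h2 (a, b)).1 (h b)
  exact ⟨j, fun b => hj b trivial⟩
theorem all {J : Type} [Finite J] {r : J → A → Prop} (h : ∀ j, Sig (r j)) :
    Sig fun a => ∀ j, r j a := by
  choose P h1 h2 using h
  exact (any fun c : J → ℕ => (IntP.all fun j => h1 j (c j)).sig).congr fun a => by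
    simp only [h2, Classical.skolem]
theorem ball {J : Type} {s : Set J} (hs : s.Finite) {r : J → A → Prop} (h : ∀ j, Sig (r j)) :
    Sig fun a => ∀ j ∈ s, r j a :=
  have := hs.to_subtype
  (all fun j : s => h j).congr fun _ => by simp
/-- Internal choice on an internal set. -/
theorem choice' {r : A → B → Prop} (hr : Sig fun z : A × B => r z.1 z.2) (hp : IntP p) (b₀ : B)
    (h : ∀ a, p a → ∃ b, r a b) : ∃ f : A → B, IntF f ∧ ∀ a, p a → r a (f a) := by
  obtain ⟨P, h1, hm, h2⟩ := hr.mono'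
  obtain ⟨j, hj⟩ := sat_mono hp (P := fun j a => ∃ b, P j (a, b)) (fun j => IntP.ex (h1 j))
    (fun i j hij a ⟨b, hb⟩ => ⟨b, hm i j hij _ hb⟩) fun a ha =>
      let ⟨b, hb⟩ := h a ha; let ⟨j, hj⟩ := (h2 (a, b)).1 hb; ⟨j, b, hj⟩
  obtain ⟨f, hf, h3⟩ := IntP.choice' (r := fun a b => P j (a, b)) (h1 j) b₀
  exact ⟨f, hf, fun a ha => (h2 (a, f a)).2 ⟨j, h3 a (hj a ha)⟩⟩
theorem ent {ι : Type} [Finite ι] {r : Set HR} (hr : Sig fun t => t ∈ r) {f : A → Matrix ι ι HR}
    (hf : IntF f) : Sig fun a => Ent r (f a) :=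
  all fun i => all fun j => hr.comp (hf.ent i j)

variable {Q : HR} [Fact (2 ≤ Q)] {f : A → HR}

theorem memOO (hf : IntF f) : Sig fun a => f a ∈ OO Q :=
  ⟨fun C a => |f a| ≤ Q ^ C, fun _ => IntP.le hf.abs (IntF.const _), fun _ => Iff.rfl⟩
theorem big {Q : HR} (hf : IntF f) : Sig fun a => Big Q (f a) :=
  ⟨fun C a => 1 ≤ |f a| * Q ^ C, fun _ => IntP.le (IntF.const _) (by fun_prop), fun _ => Iff.rfl⟩
theorem bigC {Q : HR} {f : A → HC} (hf : IntF f) : Sig fun a => BigC Q (f a) := big hf.nm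
theorem memRT (hf : IntF f) : Sig fun a => f a ∈ RT Q :=
  ex (r := fun a (b : HR) => b ∈ ZZ ∧ b ∈ OO Q ∧ b ≠ 0 ∧ b * f a ∈ ZZ)
    ((IntP.memZZ (by fun_prop)).sig.and ((memOO (by fun_prop)).and
      ((IntP.ne (by fun_prop) (by fun_prop)).and (IntP.memZZ (by fun_prop))).sig))
theorem memKK (hf : IntF f) : Sig fun a => f a ∈ KK Q := (memOO hf).and (memRT hf)
theorem sm {σ : Type} (N : σ → HR) (β : σ →₀ ℕ) (hf : IntF f) :
    Sig fun a => f a ∈ (Sm Q N).s β := memOO (hf.mul (IntF.const _))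
theorem rtc {σ : Type} (N : σ → HR) (β : σ →₀ ℕ) (hf : IntF f) :
    Sig fun a => f a ∈ (Rt Q N).s β := memRT (hf.mul (IntF.const _))
theorem sup {K : Subfield HR} {V W : Submodule K HR} (hV : Sig fun t => t ∈ V)
    (hW : Sig fun t => t ∈ W) (hf : IntF f) : Sig fun a => f a ∈ V ⊔ W :=
  (ex (r := fun a (y : HR) => y ∈ V ∧ f a - y ∈ W)
    ((hV.comp (by fun_prop)).and (hW.comp (by fun_prop)))).congr fun a => by
      rw [Submodule.mem_sup]
      exact exists_congr fun y => and_congr_right fun _ =>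
        ⟨fun ⟨z, hz, e⟩ => by rwa [← e, add_sub_cancel_left], fun h => ⟨_, h, add_sub_cancel _ _⟩⟩

theorem EE {ι σ : Type} [Fintype ι] [DecidableEq ι] {lv : ι → ℕ} {K : Subfield HR} (T : Sc K σ)
    (hT : ∀ β, Sig fun t => t ∈ T.s β) {x : A → PS lv σ HR} (hx : IntS x) :
    Sig fun a => x a ∈ T.EE lv := by
  obtain ⟨s, hs⟩ := hx.lgM.supp
  refine (ball s.finite_toSet fun β => ent (r := (T.s β : Set HR)) (hT β) (hx.co_lg β)).congr
    fun a => Sc.mem_EE.trans ⟨fun h β _ => h β, fun h β => ?_⟩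
  by_cases c : β ∈ s
  · exact h β c
  · rw [hs a β c]; exact fun _ _ => zero_mem _
theorem plus {σ : Type} {K : Subfield HR} (T : Sc K σ) (hT : ∀ β, Sig fun t => t ∈ T.s β)
    (β : σ →₀ ℕ) : Sig fun t => t ∈ T.plus.s β := by
  by_cases c : β = 0
  · exact (IntP.eq IntF.id (IntF.const 0)).sig.congr fun t => by simp [Sc.plus, c]
  · exact (hT β).congr fun t => by simp [Sc.plus, c]

theorem fa {p q : A → B → Prop} (hp : IntP fun z : A × B => p z.1 z.2)
    (hq : Sig fun z : A × B => q z.1 z.2) : Sig fun a => ∀ b, p a b → q a b := fa' (imp hp hq)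
theorem choice {p : A → Prop} (hp : IntP p) {q : A → B → Prop}
    (hq : Sig fun z : A × B => q z.1 z.2) (h : ∀ a, p a → ∃ b, q a b) [Nonempty S'] :
    ∃ f : A → B, IntF f ∧ ∀ a, p a → q a (f a) :=
  choice' hq hp (st fun _ => Classical.arbitrary S') h
theorem memSup {σ : Type} (N w : σ → HR) (β : σ →₀ ℕ) (hf : IntF f) :
    Sig fun a => f a ∈ (Sm Q N).s β ⊔ (Rt Q w).s β := sup (sm N β IntF.id) (rtc w β IntF.id) hf
theorem memSm {ι σ : Type} [Fintype ι] [DecidableEq ι] {lv : ι → ℕ} (N : σ → HR)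
    {x : A → PS lv σ HR} (hx : IntS x) : Sig fun a => x a ∈ (Sm Q N).EE lv :=
  EE _ (fun β => sm N β IntF.id) hx
theorem memRt {ι σ : Type} [Fintype ι] [DecidableEq ι] {lv : ι → ℕ} (w : σ → HR)
    {x : A → PS lv σ HR} (hx : IntS x) : Sig fun a => x a ∈ (Rt Q w).EE lv :=
  EE _ (fun β => rtc w β IntF.id) hx

end Sig

section unif

variable {Q : HR} [hQ : Fact (2 ≤ Q)] {p : A → Prop} {f g : A → HR}

theorem unif_OO (hp : IntP p) (hf : IntF f) (h : ∀ a, p a → f a ∈ OO Q) :
    ∃ M ∈ OO Q, ∀ a, p a → |f a| ≤ M := by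
  obtain ⟨C, hC⟩ := sat_mono hp (P := fun C a => |f a| ≤ Q ^ C)
    (fun _ => IntP.le hf.abs (IntF.const _))
    (fun _ _ hij _ h => h.trans (pow_le_pow_right₀ (one_le_Q Q) hij)) h
  exact ⟨_, ⟨C, (abs_of_nonneg (pow_nonneg (zero_le_one.trans (one_le_Q Q)) C)).le⟩, hC⟩

theorem big_inv_pow (C : ℕ) : Big Q (Q ^ C)⁻¹ ∧ 0 < (Q ^ C)⁻¹ := by
  have h : 0 < Q ^ C := pow_pos (one_pos.trans_le (one_le_Q Q)) C
  exact ⟨⟨C, by rw [abs_of_pos (inv_pos.2 h), inv_mul_cancel₀ h.ne']⟩, inv_pos.2 h⟩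

theorem unif_big (hp : IntP p) (hf : IntF f) (h : ∀ a, p a → Big Q (f a)) :
    ∃ δ, Big Q δ ∧ 0 < δ ∧ ∀ a, p a → δ ≤ |f a| := by
  obtain ⟨C, hC⟩ := sat_mono hp (P := fun C a => 1 ≤ |f a| * Q ^ C)
    (fun _ => IntP.le (IntF.const _) (by fun_prop)) (fun _ _ hij _ h => h.trans
      (mul_le_mul_of_nonneg_left (pow_le_pow_right₀ (one_le_Q Q) hij) (abs_nonneg _))) h
  refine ⟨_, (big_inv_pow C).1, (big_inv_pow C).2, fun a ha => ?_⟩
  rw [inv_le_iff_one_le_mul₀ (inv_pos.1 (big_inv_pow C).2)]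
  exact hC a ha

theorem unif_tiny (hp : IntP p) (hf : IntF f) (h : ∀ a, p a → Tiny Q (f a)) :
    ∃ ε, Tiny Q ε ∧ 0 < ε ∧ ∀ a, p a → |f a| ≤ ε := by
  obtain ⟨ε, hε⟩ := exists_forall
    (P := fun C (ε : HR) => (0 < ε ∧ ε * Q ^ C < 1) ∧ ∀ a, p a → |f a| ≤ ε)
    (fun C => ((IntP.lt (by fun_prop) (by fun_prop)).and (IntP.lt (by fun_prop) (by fun_prop))).and
      (IntP.fa ((hp.comp (by fun_prop)).imp (IntP.le (by fun_prop) (by fun_prop))))) fun C => by
    have h0 : 0 < Q ^ C := inv_pos.1 (big_inv_pow C).2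
    have h1 : 0 < Q ^ (C + 1) := inv_pos.1 (big_inv_pow (C + 1)).2
    refine ⟨(Q ^ (C + 1))⁻¹, fun i hi => ⟨⟨inv_pos.2 h1, ?_⟩, fun a ha => ?_⟩⟩
    · rw [inv_mul_lt_one₀ h1]
      exact pow_lt_pow_right₀ (one_lt_two.trans_le hQ.out) (by omega)
    · rw [← one_div, le_div_iff₀ h1]
      exact (not_le.1 fun c => h a ha ⟨_, c⟩).le
  exact ⟨ε, fun ⟨C, hC⟩ => absurd (hε C).1.2 (by rwa [not_lt, ← abs_of_pos (hε 0).1.1]),
    (hε 0).1.1, (hε 0).2⟩

/-- Modulus of continuity. -/
theorem modulus (hp : IntP p) (hf : IntF f) (hg : IntF g)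
    (h : ∀ a, p a → Tiny Q (f a) → Tiny Q (g a)) {δ : HR} (hδ : Big Q δ) :
    ∃ η, Big Q η ∧ 0 < η ∧ ∀ a, p a → |f a| ≤ η → |g a| ≤ |δ| := by
  obtain ⟨η, h1, h2, h3⟩ := unif_big (Q := Q) (p := fun a => p a ∧ |δ| < |g a|)
    (hp.and (IntP.lt (by fun_prop) (by fun_prop))) hf fun a ha => by
      by_contra c
      obtain ⟨C, hC⟩ := hδ
      exact h a ha.1 c ⟨C, hC.trans (mul_le_mul_of_nonneg_right ha.2.le
        (inv_pos.1 (big_inv_pow C).2).le)⟩
  obtain ⟨C, hC⟩ := h1
  refine ⟨η / 2, ⟨C + 1, ?_⟩, half_pos h2, fun a ha hle => not_lt.1 fun c => ?_⟩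
  · rw [abs_of_pos h2] at hC
    rw [abs_of_pos (half_pos h2), pow_succ]
    have := mul_le_mul_of_nonneg_left hQ.out (zero_le_one.trans hC)
    linarith
  · have := h3 a ⟨ha, c⟩
    linarith

end unif

end Pool.Agent.P.MP_a14ce1_nt.Nil
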