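import Pool.Agent.P.MP_a14ce1_nt.Nil.Vin2

/-! Strongly recurrent polynomials on boxes, polynomial bounds. -/

namespace Pool.Agent.P.MP_a14ce1_nt.Nil

open Finset MvPolynomial

theorem card_le_box {σ : Type*} [Fintype σ] (M : σ → ℝ) (hM : ∀ j, 1 ≤ M j) (S : Finset (σ → ℤ))
    (hS : ∀ k ∈ S, ∀ j, |(k j : ℝ)| ≤ M j) : (S.card : ℝ) ≤ 3 ^ Fintype.card σ * ∏ j, M j := by
  classical
  have h1 : S ⊆ Fintype.piFinset fun j => S.image fun k => k j := fun k hk =>
    Fintype.mem_piFinset.mpr fun j => Finset.mem_image_of_mem _ hk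
  have h2 := Finset.card_le_card h1
  rw [Fintype.card_piFinset] at h2
  have h3 : (S.card : ℝ) ≤ ∏ j, ((S.image fun k => k j).card : ℝ) := by exact_mod_cast h2
  refine h3.trans ?_
  rw [← Finset.card_univ, ← Finset.prod_const, ← Finset.prod_mul_distrib]
  refine Finset.prod_le_prod (fun j _ => by positivity) fun j _ => ?_
  refine (card_le_of_diam _ (l := 2 * M j) (by linarith [hM j]) ?_).trans (by linarith [hM j])
  intro a ha b hb
  obtain ⟨x, hx, rfl⟩ := Finset.mem_image.mp ha
  obtain ⟨y, hy, rfl⟩ := Finset.mem_image.mp hb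
  have := (abs_le.mp (hS x hx j)).2
  have := (abs_le.mp (hS y hy j)).1
  push_cast
  linarith

theorem vin_fin (d n : ℕ) : ∃ C : ℕ, ∀ (A ε : ℝ) (M : Fin n → ℝ) (S : Finset (Fin n → ℤ))
    (P : MvPolynomial (Fin n) ℝ), (∀ j, degreeOf j P ≤ d) → 2 ≤ A → (∀ j, A ^ C ≤ M j) →
    ε * A ^ C ≤ 1 → (∀ k ∈ S, ∀ j, |(k j : ℝ)| ≤ M j) → ∏ j, M j ≤ A * S.card →
    (∀ k ∈ S, ∃ m : ℤ, |eval (fun j => (k j : ℝ)) P - m| ≤ ε) →
    ∃ q : ℕ, 0 < q ∧ (q : ℝ) ≤ A ^ C ∧
      ∀ β : Fin n →₀ ℕ, ∃ a : ℤ, |q * coeff β P - a| * ∏ j, M j ^ β j ≤ A ^ C * ε := by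
  classical
  induction n with
  | zero =>
    refine ⟨0, fun A ε M S P hP hA hM hε hS hc h => ?_⟩
    obtain ⟨k, hk⟩ : S.Nonempty := by
      rw [← Finset.card_pos]
      have : (0 : ℝ) < S.card := by
        by_contra hh
        simp only [univ_eq_empty, prod_empty] at hc
        nlinarith
      exact_mod_cast this
    obtain ⟨m, hm⟩ := h k hk
    refine ⟨1, one_pos, by simp, fun β => ⟨m, ?_⟩⟩
    rw [Subsingleton.elim β 0]
    rw [P.eq_C_of_isEmpty, eval_C] at hm
    simpa using hm
  | succ n ih =>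
    obtain ⟨C2, ih⟩ := ih
    obtain ⟨C1, one⟩ := vin_one d
    set E1 := (2 * n + 2) * C1 with hE1
    set E2 := (E1 + 4) * C2 with hE2
    refine ⟨E1 + (d + 1) * E2, fun A ε M S P hP hA hM hε hS hc h => ?_⟩
    have hA0 : 0 < A := by linarith
    have hA1 : 1 ≤ A := by linarith
    have hmono : ∀ {i j : ℕ}, i ≤ j → A ^ i ≤ A ^ j := fun h => pow_le_pow_right₀ hA1 h
    have hM1 : ∀ j, 1 ≤ M j := fun j => (one_le_pow₀ hA1).trans (hM j)
    have hM0 : ∀ j, 0 < M j := fun j => by linarith [hM1 j]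
    have hE : E2 ≤ (d + 1) * E2 := Nat.le_mul_of_pos_left _ (by omega)
    set Pi := ∏ j : Fin n, M j.succ with hPi
    have hPi0 : 0 < Pi := Finset.prod_pos fun j _ => hM0 _
    rw [Fin.prod_univ_succ, ← hPi] at hc
    have hMP : 0 < M 0 * Pi := mul_pos (hM0 0) hPi0
    have hS0 : (0 : ℝ) < S.card := by
      by_contra hh
      nlinarith
    have hε0 : 0 ≤ ε := by
      obtain ⟨k, hk⟩ : S.Nonempty := by
        rw [← Finset.card_pos]
        exact_mod_cast hS0
      obtain ⟨m, hm⟩ := h k hk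
      exact (abs_nonneg _).trans hm
    set Y : Finset (Fin n → ℤ) := S.image Fin.tail with hY
    have hYb : ∀ y ∈ Y, ∀ j, |(y j : ℝ)| ≤ M j.succ := by
      intro y hy j
      obtain ⟨k, hk, rfl⟩ := Finset.mem_image.mp hy
      exact hS k hk j.succ
    have hYc := card_le_box (fun j : Fin n => M j.succ) (fun j => hM1 _) Y hYb
    rw [Fintype.card_fin, ← hPi] at hYc
    set Sy : (Fin n → ℤ) → Finset ℤ := fun y => (S.filter fun k => Fin.tail k = y).image (· 0)
      with hSy
    have hSy1 : ∀ y, ∀ x ∈ Sy y, (Fin.cons x y : Fin (n + 1) → ℤ) ∈ S := by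
      intro y x hx
      obtain ⟨k, hk, rfl⟩ := Finset.mem_image.mp hx
      obtain ⟨h1, rfl⟩ := Finset.mem_filter.mp hk
      rwa [Fin.cons_self_tail]
    have hSy2 : ∀ y, ∀ x ∈ Sy y, |(x : ℝ)| ≤ M 0 := fun y x hx => by
      simpa using hS _ (hSy1 y x hx) 0
    have hsum : (S.card : ℝ) = ∑ y ∈ Y, ((Sy y).card : ℝ) := by
      rw [Finset.card_eq_sum_card_image Fin.tail S]
      push_cast
      refine Finset.sum_congr rfl fun y _ => ?_
      rw [hSy, Finset.card_image_of_injOn]
      intro k hk l hl e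
      simp only [Finset.coe_filter, Set.mem_ofPred_eq] at hk hl
      rw [← Fin.cons_self_tail k, ← Fin.cons_self_tail l, hk.2, hl.2]
      simp only at e
      rw [e]
    have hpop := popular Y (fun y => ((Sy y).card : ℝ)) (t := M 0 / A ^ (2 * n + 2)) (B := 3 * M 0)
      (by have := hM0 0; positivity) (fun y _ => by
        refine (card_le_of_diam _ (l := 2 * M 0) (by linarith [hM1 0]) ?_).trans
          (by linarith [hM1 0])
        intro a ha b hb
        have := (abs_le.mp (hSy2 y a ha)).2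
        have := (abs_le.mp (hSy2 y b hb)).1
        push_cast
        linarith)
    set T := Y.filter fun y => M 0 / A ^ (2 * n + 2) ≤ ((Sy y).card : ℝ) with hT
    have hT1 : Pi ≤ 6 * A * T.card := by
      have h1 : (Y.card : ℝ) * (M 0 / A ^ (2 * n + 2)) ≤ S.card / 2 := by
        refine (mul_le_mul_of_nonneg_right hYc (by have := hM0 0; positivity)).trans ?_
        rw [← mul_div_assoc, div_le_iff₀ (by positivity)]
        have h4 : (3 : ℝ) ^ n ≤ A ^ (2 * n) := by
          rw [pow_mul]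
          exact pow_le_pow_left₀ (by norm_num) (by nlinarith) n
        have e : (S.card : ℝ) / 2 * A ^ (2 * n + 2) = A ^ (2 * n) * ((A * S.card) * (A / 2)) := by
          ring
        rw [e, mul_assoc]
        refine mul_le_mul h4 ?_ (by have := hM0 0; positivity) (by positivity)
        nlinarith
      have h2 : (S.card : ℝ) ≤ 6 * M 0 * T.card := by linarith
      refine le_of_mul_le_mul_left ?_ (hM0 0)
      nlinarith
    have hTne : T.Nonempty := by
      rw [← Finset.card_pos]
      have : (0 : ℝ) < T.card := by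
        by_contra hh
        nlinarith
      exact_mod_cast this
    set Q := finSuccEquiv ℝ n P with hQ
    have hQd : Q.natDegree ≤ d := by rw [hQ, natDegree_finSuccEquiv]; exact hP 0
    have hq : ∀ y ∈ T, ∃ q : ℕ, 0 < q ∧ (q : ℝ) ≤ A ^ E1 ∧ ∀ i, ∃ a : ℤ,
        |q * eval (fun j => (y j : ℝ)) (Q.coeff i) - a| * M 0 ^ i ≤ A ^ E1 * ε := by
      intro y hy
      obtain ⟨q, q0, q1, hq⟩ := one (A ^ (2 * n + 2)) ε (M 0) (Sy y)
        (Q.map (eval fun j => (y j : ℝ))) (Polynomial.natDegree_map_le.trans hQd)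
        (hA.trans (by simpa using hmono (show 1 ≤ 2 * n + 2 by omega)))
        (by rw [← pow_mul]; exact (hmono (by omega)).trans (hM 0))
        (by
          rw [← pow_mul]
          exact le_trans (mul_le_mul_of_nonneg_left (hmono (by omega)) hε0) hε)
        (hSy2 y)
        (by
          have := (Finset.mem_filter.mp hy).2
          rwa [div_le_iff₀' (by positivity)] at this)
        (fun x hx => by
          obtain ⟨m, hm⟩ := h _ (hSy1 y x hx)
          refine ⟨m, ?_⟩
          rw [hQ, ← eval_eq_eval_mv_eval']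
          convert hm using 5
          ext j
          refine Fin.cases ?_ (fun j => ?_) j <;> simp)
      rw [← pow_mul] at q1 hq
      refine ⟨q, q0, q1, fun i => ?_⟩
      simpa only [Polynomial.coeff_map] using hq i
    choose! q q0 q1 hq using hq
    obtain ⟨y0, hy0, hpig⟩ := pig_nat T hTne q fun y hy => ⟨q0 y hy, q1 y hy⟩
    have hr : ∀ i : ℕ, ∃ r : ℕ, 0 < r ∧ (r : ℝ) ≤ A ^ E2 ∧ ∀ β : Fin n →₀ ℕ, ∃ a : ℤ,
        |r * (q y0 * coeff β (Q.coeff i)) - a| * ∏ j : Fin n, M j.succ ^ β j ≤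
          A ^ E2 * (A ^ E1 * ε / M 0 ^ i) := by
      intro i
      have hMi : 1 ≤ M 0 ^ i := one_le_pow₀ (hM1 0)
      obtain ⟨r, r0, r1, hr⟩ := ih (A ^ (E1 + 4)) (A ^ E1 * ε / M 0 ^ i) (fun j => M j.succ)
        (T.filter fun x => q x = q y0) (C (q y0 : ℝ) * Q.coeff i)
        (fun j => (degreeOf_C_mul_le _ _ _).trans
          ((degreeOf_coeff_finSuccEquiv P j i).trans (hP _)))
        (hA.trans (by simpa using hmono (show 1 ≤ E1 + 4 by omega)))
        (fun j => by rw [← pow_mul]; exact (hmono (by omega)).trans (hM _))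
        (by
          rw [← pow_mul]
          refine le_trans (mul_le_mul_of_nonneg_right (div_le_self (by positivity) hMi)
            (by positivity)) (le_trans ?_ hε)
          have := hmono (show E1 + E2 ≤ E1 + (d + 1) * E2 by omega)
          rw [pow_add] at this
          nlinarith [mul_le_mul_of_nonneg_left this hε0])
        (fun k hk => hYb k (Finset.mem_filter.mp (Finset.mem_filter.mp hk).1).1)
        (by
          have h3 := two_pow_le hA 3
          have h4 : 6 * A ≤ A ^ 4 := by rw [pow_succ]; nlinarith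
          have h5 : (0 : ℝ) ≤ A ^ E1 * (T.filter fun x => q x = q y0).card := by positivity
          have h6 : Pi ≤ 6 * A * (A ^ E1 * (T.filter fun x => q x = q y0).card) :=
            hT1.trans (mul_le_mul_of_nonneg_left hpig (by positivity))
          rw [pow_add]
          nlinarith [mul_le_mul_of_nonneg_right h4 h5])
        (fun y hy => by
          obtain ⟨h1, h2⟩ := Finset.mem_filter.mp hy
          obtain ⟨a, ha⟩ := hq y h1 i
          refine ⟨a, ?_⟩
          rw [le_div_iff₀ (by positivity), map_mul, eval_C, ← h2]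
          exact ha)
      rw [← pow_mul] at r1 hr
      refine ⟨r, r0, r1, fun β => ?_⟩
      simpa only [coeff_C_mul] using hr β
    choose r r0 r1 hr using hr
    have hprod : ∀ s : Finset ℕ, ((∏ i ∈ s, r i : ℕ) : ℝ) ≤ A ^ (s.card * E2) := by
      intro s
      rw [mul_comm, pow_mul, Nat.cast_prod, ← Finset.prod_const]
      exact Finset.prod_le_prod (fun i _ => by positivity) fun i _ => r1 i
    refine ⟨q y0 * ∏ i ∈ range (d + 1), r i,
      mul_pos (q0 y0 hy0) (Finset.prod_pos fun i _ => r0 i), ?_, fun β => ?_⟩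
    · rw [pow_add, Nat.cast_mul]
      refine mul_le_mul (q1 y0 hy0) ?_ (by positivity) (by positivity)
      simpa only [Finset.card_range] using hprod (range (d + 1))
    · have hβ : coeff β P = coeff β.tail (Q.coeff (β 0)) := by
        rw [hQ, finSuccEquiv_coeff_coeff, Finsupp.cons_tail]
      by_cases hi : β 0 ∈ range (d + 1)
      · obtain ⟨a, ha⟩ := hr (β 0) β.tail
        refine ⟨(∏ i ∈ (range (d + 1)).erase (β 0), r i : ℕ) * a, ?_⟩
        have h1 := hprod ((range (d + 1)).erase (β 0))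
        rw [Finset.card_erase_of_mem hi, Finset.card_range, Nat.add_sub_cancel] at h1
        rw [← Finset.mul_prod_erase _ _ hi, hβ]
        set R := ∏ i ∈ (range (d + 1)).erase (β 0), r i
        have e : ((q y0 * (r (β 0) * R) : ℕ) : ℝ) * coeff β.tail (Q.coeff (β 0)) -
            (((R : ℤ) * a : ℤ) : ℝ) =
            R * (r (β 0) * (q y0 * coeff β.tail (Q.coeff (β 0))) - a) := by push_cast; ring
        rw [e, abs_mul, Nat.abs_cast, Fin.prod_univ_succ]
        rw [← mul_div_assoc, le_div_iff₀ (pow_pos (hM0 0) _)] at ha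
        simp only [Finsupp.tail_apply] at ha
        have e2 : A ^ (E1 + (d + 1) * E2) * ε = A ^ (d * E2) * (A ^ E2 * (A ^ E1 * ε)) := by ring
        rw [e2, mul_assoc]
        refine mul_le_mul h1 (le_trans (le_of_eq (by ring)) ha) ?_ (by positivity)
        exact mul_nonneg (abs_nonneg _) (mul_nonneg (pow_pos (hM0 0) _).le
          (Finset.prod_nonneg fun j _ => (pow_pos (hM0 _) _).le))
      · refine ⟨0, ?_⟩
        rw [hβ, Polynomial.coeff_eq_zero_of_natDegree_lt (by simp at hi; omega)]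
        simp only [coeff_zero, mul_zero, Int.cast_zero, sub_self, abs_zero, zero_mul]
        positivity

/-- VIN on a box: a polynomial of bounded degree that is within `ε` of the integers on a dense
subset of a box has almost rational coefficients. -/
theorem vin (σ : Type*) [Fintype σ] (d : ℕ) : ∃ C : ℕ, ∀ (A ε : ℝ) (M : σ → ℝ) (S : Finset (σ → ℤ))
    (P : MvPolynomial σ ℝ), (∀ j, degreeOf j P ≤ d) → 2 ≤ A → (∀ j, A ^ C ≤ M j) →
    ε * A ^ C ≤ 1 → (∀ k ∈ S, ∀ j, |(k j : ℝ)| ≤ M j) → ∏ j, M j ≤ A * S.card →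
    (∀ k ∈ S, ∃ m : ℤ, |eval (fun j => (k j : ℝ)) P - m| ≤ ε) →
    ∃ q : ℕ, 0 < q ∧ (q : ℝ) ≤ A ^ C ∧
      ∀ β : σ →₀ ℕ, ∃ a : ℤ, |q * coeff β P - a| * ∏ j, M j ^ β j ≤ A ^ C * ε := by
  classical
  obtain ⟨C, hC⟩ := vin_fin d (Fintype.card σ)
  refine ⟨C, fun A ε M S P hP hA hM hε hS hc h => ?_⟩
  set e := Fintype.equivFin σ
  obtain ⟨q, q0, q1, hq⟩ := hC A ε (fun j => M (e.symm j)) (S.image fun k j => k (e.symm j))
    (rename e P)
    (fun j => by
      have := degreeOf_rename_of_injective (p := P) e.injective (e.symm j)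
      rw [e.apply_symm_apply] at this
      rw [this]
      exact hP _)
    hA (fun j => hM _) hε
    (fun k hk j => by
      obtain ⟨l, hl, rfl⟩ := Finset.mem_image.mp hk
      exact hS l hl _)
    (by
      rw [e.symm.prod_comp M, Finset.card_image_of_injective]
      · exact hc
      · intro k l hkl
        ext j
        simpa using congrFun hkl (e j))
    (fun k hk => by
      obtain ⟨l, hl, rfl⟩ := Finset.mem_image.mp hk
      obtain ⟨m, hm⟩ := h l hl
      refine ⟨m, ?_⟩
      rw [eval_rename]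
      convert hm using 5
      ext j
      simp)
  refine ⟨q, q0, q1, fun β => ?_⟩
  obtain ⟨a, ha⟩ := hq (β.mapDomain e)
  refine ⟨a, ?_⟩
  rw [coeff_rename_mapDomain _ e.injective, ← e.prod_comp] at ha
  simpa only [Equiv.symm_apply_apply, Finsupp.mapDomain_apply e.injective] using ha

end Pool.Agent.P.MP_a14ce1_nt.Nil
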