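import Pool.Agent.P.MP_a14ce1_nt.Nil.Ns
import Pool.Agent.P.MP_a14ce1_nt.Nil.Vin

/-! Strongly recurrent polynomials, germ form. -/

open Filter MvPolynomial

set_option linter.unusedSectionVars false

noncomputable section

namespace Pool.Agent.P.MP_a14ce1_nt.Nil

namespace VinP

/-- saturation at the level of sequences -/
theorem sat_seq {S : Type} [Nonempty S] (H : ℕ → Finset S) (π : ℕ → ℕ → S → Prop)
    (mono : ∀ᶠ n in UU, ∀ C D x, C ≤ D → π C n x → π D n x)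
    (h : ∀ x : ℕ → S, (∀ᶠ n in UU, x n ∈ H n) → ∃ C, ∀ᶠ n in UU, π C n (x n)) :
    ∃ C, ∀ᶠ n in UU, ∀ x ∈ H n, π C n x := by
  classical
  by_contra hno
  have h1 : ∀ C, ∀ᶠ n in UU, ∃ x ∈ H n, ¬π C n x := by
    intro C
    have := not_exists.mp hno C
    rw [← Ultrafilter.eventually_not] at this
    filter_upwards [this] with n hn
    simpa using hn
  have h2 : ∀ n, ∃ x : S, ∀ C ≤ n, (∃ y ∈ H n, ¬π C n y) →
      x ∈ H n ∧ ∃ D, C ≤ D ∧ ¬π D n x := by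
    intro n
    by_cases hh : ∃ C ≤ n, ∃ y ∈ H n, ¬π C n y
    · obtain ⟨C0, h0, h0'⟩ := hh
      obtain ⟨y, hy, hy'⟩ := Nat.findGreatest_spec (P := fun C => ∃ y ∈ H n, ¬π C n y) h0 h0'
      exact ⟨y, fun C hC hC' => ⟨hy, _, Nat.le_findGreatest hC hC', hy'⟩⟩
    · exact ⟨Classical.arbitrary S, fun C hC hC' => (hh ⟨C, hC, hC'⟩).elim⟩
  choose x hx using h2
  have h3 : ∀ C : ℕ, ∀ᶠ n in UU, C ≤ n := fun C =>
    Nat.hyperfilter_le_atTop (eventually_ge_atTop C)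
  obtain ⟨C, hC⟩ := h x (by
    filter_upwards [h1 0] with n hn
    exact (hx n 0 (Nat.zero_le _) hn).1)
  obtain ⟨n, ⟨⟨a1, a2⟩, a3⟩, a4⟩ := (((hC.and (h1 C)).and (h3 C)).and mono).exists
  obtain ⟨-, D, hD, hD'⟩ := hx n C a3 a2
  exact hD' (a4 C D _ hD a1)

theorem coe_pow' (f : ℕ → ℝ) (C : ℕ) : (f : HR) ^ C = ((fun n => f n ^ C) : HR) := rfl
theorem coe_mul' (f g : ℕ → ℝ) : (f : HR) * (g : HR) = ((fun n => f n * g n) : HR) := rfl
theorem coe_sub' (f g : ℕ → ℝ) : (f : HR) - (g : HR) = ((fun n => f n - g n) : HR) := rfl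
theorem coe_div' (f g : ℕ → ℝ) : (f : HR) / (g : HR) = ((fun n => f n / g n) : HR) := rfl
theorem coe_inv' (f : ℕ → ℝ) : (f : HR)⁻¹ = ((fun n => (f n)⁻¹) : HR) := rfl
theorem coe_prod' {σ : Type} (s : Finset σ) (f : σ → ℕ → ℝ) :
    ∏ l ∈ s, (f l : HR) = ((fun n => ∏ l ∈ s, f l n) : HR) := by
  have := map_prod (Germ.coeRingHom UU) f s
  simp only [Germ.coe_coeRingHom] at this
  rw [← this]
  congr 1
  ext n
  simp

theorem big_iff (Q x : ℕ → ℝ) : Big (Q : HR) (x : HR) ↔ ∃ C : ℕ, ∀ᶠ n in UU, 1 ≤ |x n| * Q n ^ C := by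
  refine exists_congr fun C => ?_
  rw [coe_abs, coe_pow', coe_mul', ← Germ.coe_one, Germ.coe_le]
  rfl

theorem tiny_iff (Q x : ℕ → ℝ) :
    Tiny (Q : HR) (x : HR) ↔ ∀ C : ℕ, ∀ᶠ n in UU, |x n| * Q n ^ C < 1 := by
  rw [Tiny, big_iff, not_exists]
  refine forall_congr' fun C => ?_
  rw [← Ultrafilter.eventually_not]
  simp only [not_le]

theorem mem_st {A S : Type} [NS A S] (x : ℕ → S) (H : ℕ → Finset S) :
    Mem (st x : A) (H : Ns (Finset S)) ↔ ∀ᶠ n in UU, x n ∈ H n := by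
  have h1 := rep_st (A := A) x
  have h2 := rep_st (A := Ns (Finset S)) H
  constructor
  · intro h
    filter_upwards [h, h1, h2] with n a b c
    rw [← b, ← c]; exact a
  · intro h
    filter_upwards [h, h1, h2] with n a b c
    change rep (st x : A) n ∈ rep (st H : Ns (Finset S)) n
    rw [b, c]; exact a

theorem totalDegree_map_le {σ R R' : Type} [CommSemiring R] [CommSemiring R'] (f : R →+* R')
    (P : MvPolynomial σ R) : (map f P).totalDegree ≤ P.totalDegree :=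
  Finset.sup_mono (support_map_subset f P)

theorem eval_st {σ : Type} [Finite σ] (P : MvPolynomial σ (ℕ → ℝ)) (k : ℕ → σ → ℤ) :
    eval (zv (st k : σ → HZ)) (map (Germ.coeRingHom UU) P) =
      ((fun n => eval (fun l => (k n l : ℝ)) (map (Pi.evalRingHom (fun _ => ℝ) n) P)) : HR) := by
  have h1 := map_eval (Germ.coeRingHom UU) (fun l n => (k n l : ℝ)) P
  refine Eq.trans ?_ (h1.symm.trans ?_)
  · rfl
  · rw [Germ.coe_coeRingHom]
    congr 1
    ext n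
    exact map_eval (Pi.evalRingHom (fun _ => ℝ) n) (fun l n => (k n l : ℝ)) P

end VinP

open VinP

variable {Q : HR} [hQ : Fact (2 ≤ Q)]

/-- VIN, germ form. `H` is a dense internal subset of the box `|k l| ≤ M l`. -/
theorem vin_ns {σ : Type} [Fintype σ] (M : σ → HR) (hM : ∀ l, 0 < M l)
    (hMt : ∀ l, Tiny Q (M l)⁻¹) (H : Ns (Finset (σ → ℤ)))
    (hH : ∀ k : σ → HZ, Mem k H → ∀ l, |ci (k l)| ≤ M l) (hd : Big Q (cd H / ∏ l, M l))
    (P : MvPolynomial σ HR) {ε : HR} (hε : Tiny Q ε)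
    (h : ∀ k : σ → HZ, Mem k H → ∃ r ∈ RT Q, ∃ o ∈ OO Q, eval (zv k) P = r + o * ε)
    (β : σ →₀ ℕ) : ∃ r ∈ RT Q, ∃ o ∈ OO Q, (coeff β P - r) * ∏ l, M l ^ β l = o * ε := by
  classical
  obtain ⟨Qf, rfl⟩ : ∃ f : ℕ → ℝ, (f : HR) = Q := NS.surj Q
  obtain ⟨e, rfl⟩ : ∃ f : ℕ → ℝ, (f : HR) = ε := NS.surj ε
  obtain ⟨Hf, rfl⟩ : ∃ f : ℕ → Finset (σ → ℤ), (f : Ns _) = H := NS.surj H
  obtain ⟨Mf, rfl⟩ : ∃ f : σ → ℕ → ℝ, (fun l => (f l : HR)) = M := by
    choose f hf using fun l => (NS.surj (M l) : ∃ f : ℕ → ℝ, (f : HR) = M l)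
    exact ⟨f, funext hf⟩
  obtain ⟨P, rfl⟩ := map_surjective (σ := σ) (Germ.coeRingHom UU : (ℕ → ℝ) →+* HR)
    (fun x => NS.surj x) P
  have q2 : ∀ᶠ n in UU, 2 ≤ Qf n := Germ.coe_le.mp (show ((fun _ => 2 : ℕ → ℝ) : HR) ≤ Qf from hQ.out)
  set Pn : ℕ → MvPolynomial σ ℝ := fun n => map (Pi.evalRingHom (fun _ => ℝ) n) P with hPn
  -- uniform bounds
  obtain ⟨C1, h1⟩ := sat_seq Hf (fun C n k => ∃ b : ℕ, 0 < b ∧ (b : ℝ) ≤ Qf n ^ C ∧ ∃ m : ℤ,
      |b * eval (fun l => (k l : ℝ)) (Pn n) - m| ≤ Qf n ^ C * |e n|)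
    (by
      filter_upwards [q2] with n hn C D k hCD ⟨b, b0, b1, m, hm⟩
      have := pow_le_pow_right₀ (show 1 ≤ Qf n by linarith) hCD
      exact ⟨b, b0, b1.trans this, m, hm.trans (mul_le_mul_of_nonneg_right this (abs_nonneg _))⟩)
    (by
      intro k hk
      obtain ⟨r, ⟨_, ⟨b, rfl⟩, hb1, hb0, m, hm⟩, o, ho, he⟩ := h (st k) ((mem_st k Hf).2 hk)
      obtain ⟨C, hC⟩ := mul_mem hb1 ho
      obtain ⟨D, hD⟩ := hb1
      rw [eval_st] at he
      have h3 : |((fun n => (b n : ℝ)) : HR) * ((fun n => eval (fun l => (k n l : ℝ)) (Pn n)) : HR) -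
          ((fun n => (m n : ℝ)) : HR)| ≤ (Qf : HR) ^ C * |(e : HR)| := by
        rw [hPn, he, mul_add, hm, add_sub_cancel_left, ← mul_assoc, abs_mul]
        exact mul_le_mul_of_nonneg_right hC (abs_nonneg _)
      rw [coe_mul', coe_sub', coe_abs, coe_abs, coe_pow', coe_mul', Germ.coe_le] at h3
      rw [coe_abs, coe_pow', Germ.coe_le] at hD
      rw [← Germ.coe_zero, Ne, Germ.coe_eq, EventuallyEq, ← Ultrafilter.eventually_not] at hb0
      refine ⟨max C D, ?_⟩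
      filter_upwards [q2, h3, hD, hb0] with n a1 a2 a3 a4
      have g1 := pow_le_pow_right₀ (show 1 ≤ Qf n by linarith) (le_max_left C D)
      have g2 := pow_le_pow_right₀ (show 1 ≤ Qf n by linarith) (le_max_right C D)
      have g3 : b n ≠ 0 := by simpa using a4
      have g4 : (((b n).natAbs : ℕ) : ℝ) = |(b n : ℝ)| := by
        rw [← Int.cast_natCast, Int.natCast_natAbs, Int.cast_abs]
      refine ⟨(b n).natAbs, Int.natAbs_pos.2 g3, by rw [g4]; exact a3.trans g2, ?_⟩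
      have g5 := a2.trans (mul_le_mul_of_nonneg_right g1 (abs_nonneg _))
      rw [g4]
      rcases le_total 0 (b n : ℝ) with hb | hb
      · exact ⟨m n, by rwa [abs_of_nonneg hb]⟩
      · refine ⟨-m n, ?_⟩
        rw [abs_of_nonpos hb, ← abs_neg]
        refine le_trans (le_of_eq (congrArg abs ?_)) g5
        push_cast; ring)
  obtain ⟨C0, h0⟩ : ∃ C : ℕ, ∀ᶠ n in UU, 1 ≤ |((Hf n).card : ℝ) / ∏ l, Mf l n| * Qf n ^ C := by
    rw [coe_prod'] at hd
    exact (big_iff _ _).1 hd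
  have h2 : ∀ᶠ n in UU, ∀ k ∈ Hf n, ∀ l, |(k l : ℝ)| ≤ Mf l n := by
    obtain ⟨C, hC⟩ := sat_seq Hf (fun _ n k => ∀ l, |(k l : ℝ)| ≤ Mf l n)
      (Eventually.of_forall fun _ _ _ _ _ h => h) (fun k hk => ⟨0, eventually_all.2 fun l => by
        have := hH (st k) ((mem_st k Hf).2 hk) l
        change |((fun n => (k n l : ℝ)) : HR)| ≤ _ at this
        rwa [coe_abs, Germ.coe_le] at this⟩)
    exact hC
  obtain ⟨C, hV⟩ := vin σ P.totalDegree
  set E := C0 + C1 + 1 with hE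
  have h3 : ∀ᶠ n in UU, ∀ l, 0 < Mf l n := eventually_all.2 fun l =>
    Germ.coe_lt.mp (show ((fun _ => 0 : ℕ → ℝ) : HR) < Mf l from hM l)
  have h4 : ∀ᶠ n in UU, ∀ l, |(Mf l n)⁻¹| * Qf n ^ (E * C) < 1 := eventually_all.2 fun l =>
    (tiny_iff _ _).1 (hMt l) _
  have h5 := (tiny_iff _ _).1 hε (C1 + E * C)
  have key : ∀ᶠ n in UU, ∃ q : ℤ, q ≠ 0 ∧ |(q : ℝ)| ≤ Qf n ^ (C1 + E * C) ∧ ∃ a : ℤ,
      |q * coeff β P n - a| * ∏ l, Mf l n ^ β l ≤ Qf n ^ (C1 + E * C) * |e n| := by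
    filter_upwards [q2, h0, h1, h2, h3, h4, h5] with n a0 a1 a2 a3 a4 a5 a6
    have b1 : 1 ≤ Qf n := by linarith
    have b2 : 0 < ∏ l, Mf l n := Finset.prod_pos fun l _ => a4 l
    rw [abs_of_nonneg (div_nonneg (Nat.cast_nonneg _) b2.le), div_mul_eq_mul_div, le_div_iff₀ b2,
      one_mul] at a1
    have hne : (Hf n).Nonempty := by
      rw [← Finset.card_pos]
      by_contra hh
      rw [show (Hf n).card = 0 by omega] at a1
      simp only [Nat.cast_zero, zero_mul] at a1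
      linarith
    choose! b b0 b1' hb using a2
    obtain ⟨k0, hk0, hp⟩ := pig_nat (Hf n) hne b fun k hk => ⟨b0 k hk, b1' k hk⟩
    obtain ⟨q, q0, q1, hq⟩ := hV (Qf n ^ E) (Qf n ^ C1 * |e n|) (fun l => Mf l n)
      ((Hf n).filter fun k => b k = b k0) (MvPolynomial.C (b k0 : ℝ) * Pn n)
      (fun j => (degreeOf_C_mul_le _ _ _).trans ((degreeOf_le_totalDegree _ _).trans
        (totalDegree_map_le _ P)))
      (a0.trans (le_self_pow₀ b1 (by omega)))
      (fun l => by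
        have := a5 l
        rw [abs_of_pos (inv_pos.2 (a4 l)), inv_mul_lt_iff₀ (a4 l), mul_one] at this
        rw [← pow_mul]; exact this.le)
      (by
        rw [← pow_mul]
        refine le_trans (le_of_eq ?_) a6.le
        rw [pow_add]; ring)
      (fun k hk => a3 k (Finset.mem_filter.1 hk).1)
      (by
        refine a1.trans ?_
        have g1 : (0 : ℝ) ≤ ((Hf n).filter fun k => b k = b k0).card := by positivity
        have g2 : Qf n ^ C1 * Qf n ^ C0 ≤ Qf n ^ E := by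
          rw [← pow_add]; exact pow_le_pow_right₀ b1 (by omega)
        nlinarith [mul_le_mul_of_nonneg_right hp (show 0 ≤ Qf n ^ C0 by positivity),
          mul_le_mul_of_nonneg_right g2 g1])
      (fun k hk => by
        obtain ⟨g1, g2⟩ := Finset.mem_filter.1 hk
        obtain ⟨m, hm⟩ := hb k g1
        exact ⟨m, by rwa [map_mul, eval_C, ← g2]⟩)
    obtain ⟨a, ha⟩ := hq β
    rw [← pow_mul] at q1 ha
    refine ⟨(q * b k0 : ℕ), by have := b0 k0 hk0; positivity, ?_, a, ?_⟩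
    · rw [Int.cast_natCast, Nat.abs_cast, Nat.cast_mul, pow_add, mul_comm]
      exact mul_le_mul (b1' k0 hk0) q1 (by positivity) (by positivity)
    · rw [coeff_C_mul, hPn, coeff_map, ← mul_assoc] at ha
      rw [Int.cast_natCast, Nat.cast_mul]
      refine le_trans ha (le_of_eq ?_)
      rw [pow_add]; ring
  obtain ⟨q, hq⟩ := key.choice
  obtain ⟨a, ha⟩ := (hq.mono fun n hn => hn.2.2).choice
  have q0 : ((fun n => (q n : ℝ)) : HR) ≠ 0 := by
    rw [← Germ.coe_zero, Ne, Germ.coe_eq, EventuallyEq, ← Ultrafilter.eventually_not]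
    filter_upwards [hq] with n hn
    simpa using hn.1
  have qO : ((fun n => (q n : ℝ)) : HR) ∈ OO (Qf : HR) := ⟨C1 + E * C, by
    rw [coe_abs, coe_pow', Germ.coe_le]
    exact hq.mono fun n hn => hn.2.1⟩
  have hb : |((fun n => (q n : ℝ)) : HR) * coeff β (map (Germ.coeRingHom UU) P) -
      ((fun n => (a n : ℝ)) : HR)| * ∏ l, (Mf l : HR) ^ β l ≤
      (Qf : HR) ^ (C1 + E * C) * |(e : HR)| := by
    simp only [coe_pow']
    rw [coeff_map, Germ.coe_coeRingHom, coe_prod', coe_mul', coe_sub', coe_abs, coe_abs, coe_mul',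
      coe_mul', Germ.coe_le]
    exact ha
  set qq : HR := ((fun n => (q n : ℝ)) : HR)
  set aa : HR := ((fun n => (a n : ℝ)) : HR)
  set c : HR := coeff β (map (Germ.coeRingHom UU) P)
  set W : HR := ∏ l, (Mf l : HR) ^ β l
  have hW : 0 < W := Finset.prod_pos fun l _ => pow_pos (hM l) _
  have q1 : 1 ≤ |qq| := ZZ_one_le ⟨q, rfl⟩ q0
  have hc : |(c - aa / qq) * W| ≤ (Qf : HR) ^ (C1 + E * C) * |(e : HR)| := by
    refine le_trans ?_ hb
    have e1 : qq * c - aa = qq * (c - aa / qq) := by field_simp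
    rw [e1, abs_mul, abs_mul, abs_of_pos hW, mul_assoc]
    exact le_mul_of_one_le_left (mul_nonneg (abs_nonneg _) hW.le) q1
  refine ⟨aa / qq, ⟨qq, ⟨q, rfl⟩, qO, q0, by rw [mul_div_cancel₀ _ q0]; exact ⟨a, rfl⟩⟩, ?_⟩
  rcases eq_or_ne (e : HR) 0 with he | he
  · rw [he, abs_zero, mul_zero, abs_nonpos_iff] at hc
    exact ⟨0, zero_mem _, by rw [hc, zero_mul]⟩
  · refine ⟨(c - aa / qq) * W / e, ⟨C1 + E * C, ?_⟩, by rw [div_mul_cancel₀ _ he]⟩
    rwa [abs_div, div_le_iff₀ (abs_pos.2 he)]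

end Pool.Agent.P.MP_a14ce1_nt.Nil
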