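import Pool.Agent.P.MP_a14ce1_nt.Nil.Avg
import Pool.Agent.P.MP_a14ce1_nt.Nil.BoxA
import Pool.Agent.P.MP_a14ce1_nt.Nil.Rat
import Pool.Agent.P.MP_a14ce1_nt.Nil.VinNs
import Pool.Agent.P.MP_a14ce1_nt.Nil.FHG

/-! Vinogradov type lemmas on long boxes. -/

open Filter Finset MvPolynomial

set_option linter.unusedSectionVars false

noncomputable section

namespace Pool.Agent.P.MP_a14ce1_nt.Nil

variable {ι : Type} [Fintype ι] [DecidableEq ι] {σ : Type} {Q : HR} [Fact (2 ≤ Q)]
  [Fintype σ] [DecidableEq σ]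

theorem vinG {N : σ → HZ} (hN : Long Q N) {θ : HR} (hθ : Tiny Q θ) (P : MvPolynomial σ HR)
    (h : Dense Q (box N) fun n : σ → HZ => ∃ o ∈ OO Q, ∃ r ∈ RT Q, eval (zv n) P = θ * o + r)
    (β : σ →₀ ℕ) : ∃ o ∈ OO Q, ∃ r ∈ RT Q,
      coeff β P = θ * o / β.prod (fun l k => ci (N l) ^ k) + r := by
  obtain ⟨H, h1, h2⟩ := h
  have h0 : ∀ l, 0 < ci (N l) := fun l => by
    rw [← map_zero ci]; exact ci_lt.2 (hN l).1
  rw [cd_box fun l => (hN l).1.le] at h2
  obtain ⟨r, hr, o, ho, e⟩ := vin_ns (fun l => ci (N l)) h0 (fun l => (hN l).2) H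
    (fun k hk l => by
      obtain ⟨a, b⟩ := mem_box.1 (h1 k hk).1 l
      rw [← ci_abs, abs_of_nonneg a]
      exact ci_le.2 b.le) h2 P hθ
    (fun k hk => by
      obtain ⟨o, ho, r, hr, e⟩ := (h1 k hk).2
      exact ⟨r, hr, o, ho, by rw [e]; ring⟩) β
  refine ⟨o, ho, r, hr, ?_⟩
  rw [Finsupp.prod_fintype _ _ fun l => pow_zero _, mul_comm θ o, ← e,
    mul_div_cancel_right₀ _ (Finset.prod_pos fun l _ => pow_pos (h0 l) _).ne', sub_add_cancel]

theorem vinL {N : σ → HZ} (hN : Long Q N) {θ : HR} (hθ : Tiny Q θ) {c : HR} {α : σ → HR}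
    (h : Dense Q (box N) fun n : σ → HZ =>
      ∃ o ∈ OO Q, ∃ r ∈ RT Q, c + ∑ l, α l * ci (n l) = θ * o + r) :
    (∃ o ∈ OO Q, ∃ r ∈ RT Q, c = θ * o + r) ∧
      ∀ l, ∃ o ∈ OO Q, ∃ r ∈ RT Q, α l = θ * o / ci (N l) + r := by
  have key := vinG hN hθ (C c + ∑ l, C (α l) * X l) (by
    simpa only [map_add, map_sum, map_mul, eval_C, eval_X, zv] using h)
  constructor
  · simpa [coeff_sum] using key 0
  · intro l
    have := key (Finsupp.single l 1)
    rw [Finsupp.prod_single_index (by simp), pow_one, coeff_add, coeff_sum, coeff_C,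
      if_neg (Finsupp.single_ne_zero.2 one_ne_zero).symm, zero_add, Finset.sum_eq_single l] at this
    · rwa [coeff_C_mul, coeff_X, if_pos rfl, mul_one] at this
    · intro m _ hm
      rw [coeff_C_mul, coeff_X, if_neg, mul_zero]
      exact fun e => hm ((Finsupp.single_left_inj one_ne_zero).1 e)
    · simp

/-- `OO` and `RT` as vector spaces over the scale field. -/
def VinP.subK (R : Subring HR) (h : ∀ k ∈ KK Q, k ∈ R) : Submodule (KK Q) HR where
  carrier := R
  add_mem' := R.add_mem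
  zero_mem' := R.zero_mem
  smul_mem' c _ hx := R.mul_mem (h _ c.2) hx

theorem VinP.ratF_OO {η : Matrix ι ι HR →ₗ[HR] HR} (hη : RatF (KK Q) η) {X : Matrix ι ι HR}
    (h : Ent (OO Q : Set HR) X) : η X ∈ OO Q := hη.mem (S := VinP.subK (OO Q) KK_le_OO) h
theorem VinP.ratF_RT {η : Matrix ι ι HR →ₗ[HR] HR} (hη : RatF (KK Q) η) {X : Matrix ι ι HR}
    (h : Ent (RT Q : Set HR) X) : η X ∈ RT Q := hη.mem (S := VinP.subK (RT Q) KK_le_RT) h

/-- Bracket linear relations. -/
theorem brkG {N : σ → HZ} (hN : Long Q N) {J : Type} [Finite J]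
    (V : Submodule HR (Matrix ι ι HR)) (c : Matrix ι ι HR) (X : σ → Matrix ι ι HR)
    (ζ : J → Matrix ι ι HR →ₗ[HR] HR) (θ b : J → HR) (α : J → σ → HR)
    (h : Dense Q (box N) fun n : σ → HZ => ∃ M ∈ V, Ent (RT Q : Set HR) M ∧
      Ent (OO Q : Set HR) (c + ∑ l, ci (n l) • X l - M) ∧
      ∀ j, ∃ o ∈ OO Q, ∃ r ∈ RT Q, b j + ∑ l, α j l * ci (n l) - ζ j M = θ j * o + r)
    {η : Matrix ι ι HR →ₗ[HR] HR} (hη : RatF (KK Q) η)
    (hk : ∀ Y ∈ V, Ent (KK Q : Set HR) Y →
      (∀ j, ∃ o ∈ OO Q, ∃ r ∈ RT Q, ζ j Y = θ j * o + r) → η Y = 0) (l : σ) :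
    ∃ o ∈ OO Q, ∃ r ∈ RT Q, η (X l) = o / ci (N l) + r := by
  -- a common denominator
  let R : (σ → HZ) → HR → Matrix ι ι HR × (J → HR) → Prop := fun n d z =>
    z.1 ∈ V ∧ (∀ s t, d * z.1 s t ∈ ZZ) ∧ (∀ s t, (c + ∑ l, ci (n l) • X l - z.1) s t ∈ OO Q) ∧
      ∀ j, z.2 j ∈ OO Q ∧ d * (b j + ∑ l, α j l * ci (n l) - ζ j z.1 - θ j * z.2 j) ∈ ZZ
  have hR : Sig fun w : ((σ → HZ) × HR) × (Matrix ι ι HR × (J → HR)) => R w.1.1 w.1.2 w.2 := by
    refine (IntP.memSub V (by fun_prop)).sig.and (Sig.and (Sig.all fun s => Sig.all fun t => ?_)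
      (Sig.and (Sig.all fun s => Sig.all fun t => ?_) (Sig.all fun j => Sig.and ?_ ?_)))
    · exact (IntP.memZZ (IntF.mul (by fun_prop) (IntF.ent (by fun_prop) s t))).sig
    · exact Sig.memOO (IntF.ent (by fun_prop) s t)
    · exact Sig.memOO (by fun_prop)
    · exact (IntP.memZZ (by fun_prop)).sig
  obtain ⟨κ, hκ, hd⟩ := pigeon (T := box N) (J := Unit) (p := fun _ : σ → HZ => True)
    (q := fun n κ => (κ () ∈ ZZ ∧ κ () ≠ 0) ∧ ∃ z, R n (κ ()) z)
    (((IntP.memZZ (by fun_prop)).and (IntP.ne (by fun_prop) (by fun_prop))).sig.and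
      (Sig.ex (r := fun (w : (σ → HZ) × (Unit → HR)) z => R w.1 (w.2 ()) z)
        (hR.comp (f := fun w : ((σ → HZ) × (Unit → HR)) × (Matrix ι ι HR × (J → HR)) =>
          ((w.1.1, w.1.2 ()), w.2)) (by fun_prop))))
    (h.mono fun n _ ⟨M, h1, h2, h3, h4⟩ => by
      choose o ho r hr e using h4
      obtain ⟨d, d1, d2, d3, d4⟩ := RT_common (Q := Q) (J := (ι × ι) ⊕ J)
        (f := Sum.elim (fun s => M s.1 s.2) r) (by
          rintro (s | j)
          exacts [h2 _ _, hr j])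
      refine ⟨trivial, fun _ => d, fun _ => KK_of_ZZ d1 d2, ⟨d1, d3⟩, (M, o), h1,
        fun s t => d4 (Sum.inl (s, t)), h3, fun j => ⟨ho j, ?_⟩⟩
      rw [e j, add_sub_cancel_left]
      exact d4 (Sum.inr j))
  obtain ⟨a, -, H, hH, hb⟩ := hd.line l
  rw [cd_box fun _ => (hN l).1.le, Fintype.prod_unique] at hb
  set d := κ () with hd
  have d2 : d ∈ OO Q := KK_le_OO _ (hκ ())
  have hne : ∃ k : Unit → HZ, Mem k H := by
    by_contra hc
    refine hb.ne_zero ?_
    obtain ⟨Hf, rfl⟩ := NS.surj H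
    have := FHG.ev_mem (A := Unit → HZ) (H := Hf) (π := fun _ _ => False)
      fun x hx => (hc ⟨_, hx⟩).elim
    rw [div_eq_zero_iff]
    refine Or.inl (st_congr (A := HR) (y := fun _ => 0) (this.mono fun n hn => ?_))
    simp [Finset.eq_empty_of_forall_notMem hn]
  obtain ⟨k0, hk0⟩ := hne
  obtain ⟨d1, d3⟩ := (hH k0 hk0).2.2.1
  have hu : IntF fun k : Unit → HZ => Function.update a l (k ()) := IntF.pi fun m => by
    by_cases e : m = l
    · subst e; simp only [Function.update_self]; fun_prop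
    · simp only [Function.update_of_ne e]; fun_prop
  obtain ⟨z, hz, hzR⟩ := Sig.choice' (p := fun k : Unit → HZ => Mem k H)
    (r := fun k z => R (Function.update a l (k ())) d z)
    (hR.comp (f := fun w : (Unit → HZ) × (Matrix ι ι HR × (J → HR)) =>
      ((Function.update a l (w.1 ()), d), w.2))
      (((hu.comp IntF.id.fst).prodMk (IntF.const d)).prodMk IntF.id.snd))
    (IntP.mem IntF.id (IntF.const H)) 0 fun k hk => (hH k hk).2.2.2
  have hM : IntF fun k => (z k).1 := hz.fst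
  have ho : ∀ j, IntF fun k => (z k).2 j := fun j => hz.snd.coord j
  -- linear forms along the line
  have lin : ∀ (w : σ → HR) (t : HZ), ∑ m, w m * ci (Function.update a l t m) =
      w l * ci t + ∑ m ∈ univ.erase l, w m * ci (a m) := by
    intro w t
    rw [← Finset.add_sum_erase _ _ (mem_univ l), Function.update_self]
    congr 1
    exact Finset.sum_congr rfl fun m hm => by rw [Function.update_of_ne (mem_erase.1 hm).1]
  have lin2 : ∀ (φ : Matrix ι ι HR →ₗ[HR] HR) (t : HZ) (M : Matrix ι ι HR),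
      φ (c + ∑ m, ci (Function.update a l t m) • X m - M) =
        φ (X l) * ci t + (φ c + ∑ m ∈ univ.erase l, φ (X m) * ci (a m)) - φ M := by
    intro φ t M
    rw [map_sub, map_add, map_sum]
    simp only [map_smul, smul_eq_mul, mul_comm (ci _)]
    rw [lin]
    ring
  have hci : IntF fun k : Unit → HZ => ci (k ()) := by fun_prop
  obtain ⟨u, v, hu', hv', huv, h1, h2⟩ := fhG (Q := Q) (hN l).1 (hN l).2 (H := H)
    (fun k hk => mem_box.1 (hH k hk).1 ()) hb
    (a := fun k => η (c + ∑ m, ci (Function.update a l (k ()) m) • X m - (z k).1))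
    (by simp only [lin2]; fun_prop) (fun k hk => VinP.ratF_OO hη (hzR k hk).2.2.1)
    (fun D hD h0 => by
      let Y : Matrix ι ι HR := Matrix.of fun s t => D fun k => (z k).1 s t
      have hY : ∀ φ : Matrix ι ι HR →ₗ[HR] HR, (D fun k => φ (z k).1) = φ Y := by
        intro φ
        obtain ⟨w, rfl⟩ := exists_fn φ
        simp only [fn_apply]
        rw [hD.sum _ fun s => IntF.sum fun t => (IntF.const _).mul (hM.ent s t)]
        refine Finset.sum_congr rfl fun s _ => ?_
        rw [hD.sum _ fun t => (IntF.const _).mul (hM.ent s t)]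
        exact Finset.sum_congr rfl fun t _ => hD.smul _ (hM.ent s t)
      have hL : ∀ (x y : HR) {f : (Unit → HZ) → HR}, IntF f →
          (D fun k => x * ci (k ()) + y - f k) = -D f := by
        intro x y f hf
        rw [hD.sub (by fun_prop) hf, hD.add (by fun_prop) (IntF.const _), hD.smul _ hci, h0,
          hD.const]
        ring
      have hRT : ∀ {f : (Unit → HZ) → HR}, IntF f → (∀ k, Mem k H → d * f k ∈ ZZ) →
          D f ∈ RT Q := fun hf hf' =>
        ⟨d, d1, d2, d3, by rw [← hD.smul _ hf]; exact hD.zz ((IntF.const _).mul hf) hf'⟩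
      have hYV : Y ∈ V := by
        rw [← Subspace.forall_mem_dualAnnihilator_apply_eq_zero_iff]
        intro φ hφ
        rw [← hY]
        exact hD.eq_zero (IntF.lin φ hM) fun k hk =>
          (Submodule.mem_dualAnnihilator φ).1 hφ _ (hzR k hk).1
      simp only [lin2]
      rw [hL _ _ (IntF.lin η hM), hY, neg_eq_zero]
      refine hk Y hYV (fun s t => ⟨?_, hRT (hM.ent s t) fun k hk => (hzR k hk).2.1 s t⟩) fun j => ?_
      · have e := lin2 (Matrix.entryLinearMap HR HR s t)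
        simp only [Matrix.entryLinearMap_apply] at e
        have := hD.oo (f := fun k => (c + ∑ m, ci (Function.update a l (k ()) m) • X m - (z k).1) s t)
          (by simp only [e]; exact IntF.sub (by fun_prop) (hM.ent s t))
          fun k hk => (hzR k hk).2.2.1 s t
        simp only [e] at this
        rw [hL _ _ (hM.ent s t)] at this
        exact neg_mem_iff.1 this
      · have e1 := hRT (f := fun k => b j + ∑ m, α j m * ci (Function.update a l (k ()) m)
          - ζ j (z k).1 - θ j * (z k).2 j) (by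
            simp only [lin]
            exact IntF.sub (IntF.sub (by fun_prop) (IntF.lin _ hM)) ((IntF.const _).mul (ho j)))
          fun k hk => ((hzR k hk).2.2.2 j).2
        have e2 : (fun k : Unit → HZ => b j + ∑ m, α j m * ci (Function.update a l (k ()) m)
          - ζ j (z k).1 - θ j * (z k).2 j) = fun k => α j l * ci (k ()) +
            (b j + ∑ m ∈ univ.erase l, α j m * ci (a m)) - (ζ j (z k).1 + θ j * (z k).2 j) := by
          ext k
          rw [lin]; ring
        rw [e2, hL _ _ ((IntF.lin _ hM).add ((IntF.const _).mul (ho j))),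
          hD.add (IntF.lin _ hM) ((IntF.const _).mul (ho j)), hD.smul _ (ho j), hY] at e1
        refine ⟨-D fun k => (z k).2 j,
          neg_mem (hD.oo (ho j) fun k hk => ((hzR k hk).2.2.2 j).1), _, neg_mem e1, by ring⟩)
  have e0 : ci (u () - v ()) ≠ 0 := by
    rw [← map_zero ci]
    exact fun e => huv (sub_eq_zero.1 (ci_inj e))
  have eK : (ci (u () - v ()))⁻¹ ∈ KK Q := inv_mem (KK_of_ZZ (ci_mem _) h1)
  have n0 : ci (N l) ≠ 0 := by
    rw [← map_zero ci]
    exact fun e => (hN l).1.ne' (ci_inj e)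
  have rt : ∀ k, Mem k H → η (z k).1 ∈ RT Q := fun k hk =>
    VinP.ratF_RT hη fun s t => ⟨d, d1, d2, d3, (hzR k hk).2.1 s t⟩
  refine ⟨_, mul_mem (KK_le_OO _ eK) h2, _,
    mul_mem (KK_le_RT _ eK) (sub_mem (rt u hu') (rt v hv')), ?_⟩
  simp only [lin2]
  rw [map_sub] at e0 ⊢
  field_simp
  ring

end Pool.Agent.P.MP_a14ce1_nt.Nil
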