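import Pool.Agent.P.MP_a14ce1_nt.Nil.LeibA
import Pool.Agent.P.MP_a14ce1_nt.Nil.Four
import Pool.Agent.P.MP_a14ce1_nt.Nil.VinG
import Pool.Agent.P.MP_a14ce1_nt.Nil.PigF

/-!
The equidistribution theorem.
-/

open Filter Finset MvPolynomial
open scoped BigOperators

set_option linter.unusedSectionVars false

noncomputable section

namespace Pool.Agent.P.MP_a14ce1_nt.Nil

variable {ι : Type} [Fintype ι] [DecidableEq ι] {lv : ι → ℕ} {σ : Type} [Fintype σ]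
  [DecidableEq σ] {Q : HR} [Fact (2 ≤ Q)] {N : σ → HZ}

namespace LB

/-- The size of a monomial on the box. -/
def pw (N : σ → HZ) (β : σ →₀ ℕ) : HR := β.prod fun l k => zv N l ^ k

theorem pw_add (β : σ →₀ ℕ) (l : σ) : pw N (β + Finsupp.single l 1) = pw N β * ci (N l) := by
  rw [pw, Finsupp.prod_add_index' (by simp) (fun l a b => pow_add _ _ _),
    Finsupp.prod_single_index (by simp), pow_one]
  rfl

theorem pw_single (l : σ) : pw N (Finsupp.single l 1) = ci (N l) := by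
  have := pw_add (N := N) 0 l
  rwa [zero_add, pw.eq_1 N 0, Finsupp.prod_zero_index, one_mul] at this

theorem one_le_pw (hN : Long Q N) (β : σ →₀ ℕ) : 1 ≤ pw N β := by
  induction β using mono_ind with
  | h0 => simp [pw]
  | h1 γ l ih => rw [pw_add]; exact one_le_mul_of_one_le_of_one_le ih (one_le_ci (hN l).1)

theorem tiny_pw (hN : Long Q N) {β : σ →₀ ℕ} {i : ℕ} (h : β.degree = i) (hi : 1 ≤ i) :
    Tiny Q (pw N β)⁻¹ := by
  obtain ⟨i, rfl⟩ : ∃ j, i = j + 1 := ⟨i - 1, by omega⟩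
  obtain ⟨γ, l, -, rfl⟩ := exists_add_single h
  have := one_le_pw hN γ
  rw [pw_add, mul_inv]
  exact (hN l).2.mul' (OO_of_le_one (by
    rw [abs_of_pos (inv_pos.2 (one_pos.trans_le this))]; exact inv_le_one_of_one_le₀ this))

theorem mem_sup (hN : Long Q N) {β : σ →₀ ℕ} {t : HR} :
    t ∈ (Sm Q (zv N)).s β ⊔ (Rt Q 1).s β ↔ ∃ o ∈ OO Q, ∃ r ∈ RT Q, t = (pw N β)⁻¹ * o + r := by
  have h0 : pw N β ≠ 0 := (one_pos.trans_le (one_le_pw hN β)).ne'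
  have e : ∀ r, r ∈ (Rt Q (1 : σ → HR)).s β ↔ r ∈ RT Q := fun r => by
    change r * β.prod (fun l k => (1 : HR) ^ k) ∈ RT Q ↔ _
    simp [Finsupp.prod]
  rw [Submodule.mem_sup]
  constructor
  · rintro ⟨s, hs, r, hr, rfl⟩
    exact ⟨s * pw N β, hs, r, (e r).1 hr, by field_simp⟩
  · rintro ⟨o, ho, r, hr, rfl⟩
    refine ⟨_, ?_, r, (e r).2 hr, rfl⟩
    change (pw N β)⁻¹ * o * pw N β ∈ OO Q
    rwa [mul_right_comm, inv_mul_cancel₀ h0, one_mul]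

theorem mem_single (hN : Long Q N) {l : σ} {t : HR} :
    t ∈ (Sm Q (zv N)).s (Finsupp.single l 1) ⊔ (Rt Q 1).s (Finsupp.single l 1) ↔
      ∃ o ∈ OO Q, ∃ r ∈ RT Q, t = (ci (N l))⁻¹ * o + r := by rw [mem_sup hN, pw_single]

variable {g : Fam (KK Q) lv ℕ} {D : ℕ} {q : HR} {x : PS lv σ HR}
  {n U : Submodule HR (Matrix ι ι HR)} {ξ : Matrix ι ι HR →ₗ[HR] HR} {F : UT lv HR → HC}

/-- The abelian case. -/
theorem deg_one (hg : g.Fil D) (hN : Long Q N) (hx : x ∈ (g.fine σ).plus.PG)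
    (hF : Nice Q q g.GG F) (he : Eqv Q g.GG U ξ F) (hU : g.r 1 ≤ U) (h2 : ∀ X ∈ g.r 2, ξ X = 0)
    (hb : BigC Q (Ex (box N) fun m : σ → HZ => F (ev (zv m) x))) (l : σ) :
    ξ (co (Finsupp.single l 1) (lg x))
      ∈ (Sm Q (zv N)).s (Finsupp.single l 1) ⊔ (Rt Q 1).s (Finsupp.single l 1) := by
  have i1 : IntF fun m : σ → HZ =>
      ee (0 + ∑ l, ξ (co (Finsupp.single l 1) (lg x)) * ci (m l)) := by fun_prop
  have h1 := hb.of_sub (tinyC_Ex (hF.int.comp (by fun_prop)) ((IntF.const (F 1)).mul i1)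
    fun m _ => by
      have := he (ev (zv m) x) (hU (hg.zero ▸ ev_mem hg (mem_plus.1 hx).1 _)) 1 (one_mem _)
      rwa [mul_one, lin_lg_ev hg hx h2, mul_comm, ← zero_add (∑ _, _)] at this)
  rw [NL.Ex_mul_left i1] at h1
  obtain ⟨z, hz, h⟩ := geom (fun l => (hN l).1) (h1.of_mul' (nm_OO (hF.bd 1))) l
  have h0 := (ci_pos.2 (hN l).1).ne'
  exact (mem_single hN).2 ⟨_, h, z, ZZ_le_RT hz, by field_simp; ring⟩

variable (Q) in
/-- What the induction hypothesis gives for the shift `v`. -/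
def Stp (q : HR) (g : Fam (KK Q) lv ℕ) (x : PS lv σ HR) (N : σ → HZ) (i : ℕ) (v : σ → HR)
    (η : Matrix (ι ⊕ ι) (ι ⊕ ι) HR →ₗ[HR] HR) : Prop :=
  ∃ c : UT lv HR × UT lv HR, c.1 ∈ g.GG ∧ c.2 ∈ g.GG ∧ ev v x = c.1 * c.2 ∧
    Ent (OO Q : Set HR) c.1.val ∧ Lev q c.2 ∧ ∀ β : σ →₀ ℕ, β.degree = i →
      η (dg (co β (lg ((cst σ c.1)⁻¹ * sh v x * (cst σ c.2)⁻¹))) (co β (lg x)))
        ∈ (Sm Q (zv N)).s β ⊔ (Rt Q 1).s β

theorem sig_stp (i : ℕ) (h0 : σ → HZ) : Sig fun z : (σ → HZ) × Matrix (ι ⊕ ι) (ι ⊕ ι) HR =>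
    Stp Q q g x N i (zv (z.1 - h0)) (fn z.2) := by
  refine Sig.ex ((IntP.memGG g (by fun_prop)).sig.and ((IntP.memGG g (by fun_prop)).sig.and
    ((IntP.eq (by fun_prop) (by fun_prop)).sig.and
    ((Sig.ent (Sig.memOO IntF.id) (by fun_prop)).and ((IntP.lev q (by fun_prop)).sig.and
    (Sig.ball (Finsupp.finite_of_degree_eq i) fun β => Sig.memSup _ _ β ?_))))))
  simp only [dg_eq_in]
  refine IntF.fn (by fun_prop) (IntF.madd (IntF.linM _ ?_) (IntF.const _))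
  exact (((IntS.cst (by fun_prop)).inv.mul ((IntS.const x).sh (by fun_prop))).mul
    (IntS.cst (by fun_prop)).inv).co_lg β

theorem zv_sub (a b : σ → HZ) (l : σ) : zv (a - b) l = ci (a l) - ci (b l) := map_sub ci _ _

variable {η : Matrix (ι ⊕ ι) (ι ⊕ ι) HR →ₗ[HR] HR} {η1 η2 : Matrix ι ι HR →ₗ[HR] HR}
  {h0 : σ → HZ} {i : ℕ}

/-- The horizontal case. -/
theorem hor (hg : g.Fil D) (hN : Long Q N) (hx : x ∈ (g.fine σ).PG) (hi : 1 ≤ i)
    (e : ∀ X Y, η (dg X Y) = η1 Y + η2 (X - Y)) (h2 : ∀ X ∈ g.r (i + 2), η2 X = 0)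
    (h3 : ∀ u v, 1 ≤ u → 1 ≤ v → u + v = i + 1 → ∀ X ∈ g.r u, ∀ Y ∈ g.r v,
      η2 (X * Y - Y * X) = 0)
    (hd : Dense Q (box N) fun h : σ → HZ => Stp Q q g x N i (zv (h - h0)) η)
    {β : σ →₀ ℕ} (hβ : β.degree = i + 1) :
    η2 (co β (lg x)) ∈ (Sm Q (zv N)).s β ⊔ (Rt Q 1).s β := by
  obtain ⟨γ, l, hγ, rfl⟩ := exists_add_single hβ
  obtain ⟨o, ho, r, hr, h⟩ := (vinL hN (tiny_pw hN hγ hi)
    (α := fun l => ((γ l + 1 : ℕ) : HR) * η2 (co (γ + Finsupp.single l 1) (lg x)))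
    (c := η1 (co γ (lg x))
      - ∑ l, ((γ l + 1 : ℕ) : HR) * η2 (co (γ + Finsupp.single l 1) (lg x)) * ci (h0 l))
    (hd.mono fun h _ ⟨c, ha, hb, _, _, _, h1⟩ => by
      have := h1 γ hγ
      rw [e, box_hor hg hx _ ha hb hi h2 h3 hγ] at this
      rw [← mem_sup hN]
      convert this using 1
      rw [sub_add, ← sum_sub_distrib, sub_eq_add_neg, ← sum_neg_distrib]
      exact congrArg _ (sum_congr rfl fun l _ => by rw [zv_sub]; ring))).2 l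
  have h1 := kmul_mem ((mem_sup hN (β := γ + Finsupp.single l 1)).2 ⟨o, ho, r, hr,
    h.trans (by rw [pw_add, mul_inv]; ring)⟩) ((KK Q).inv_mem (natCast_mem _ (γ l + 1)))
  rwa [mul_right_comm, mul_inv_cancel₀ (Nat.cast_ne_zero.2 (Nat.succ_ne_zero _)), one_mul] at h1

/-- The bracket case. -/
theorem brk (hg : g.Fil D) (hn : g.Idl n) (hN : Long Q N) (hx : x ∈ (g.fine σ).plus.PG)
    (hq : q ∈ ZZ) (hη : RatF (KK Q) η2) (e : ∀ X Y, η (dg X Y) = η1 Y + η2 (X - Y))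
    (h3 : ∀ X ∈ g.r 3, η2 X = 0) (h2 : ∀ X ∈ g.r 2 ⊓ n, η2 X = 0)
    (hne : ∃ X ∈ g.r 1, ∃ Y ∈ g.r 1, η2 (X * Y - Y * X) ≠ 0)
    (hd : Dense Q (box N) fun h : σ → HZ => Stp Q q g x N 1 (zv (h - h0)) η) :
    ¬Irr (Sm Q (zv N)) (Rt Q 1) g n x := by
  have hX : ∀ l, co (Finsupp.single l 1) (lg x) ∈ g.r 1 := fun l => by
    have := (mem_plus.1 hx).1 (Finsupp.single l 1)
    rwa [Fam.fine_r, Finsupp.degree_single] at this
  suffices ∃ Y ∈ g.r 1, Ent (KK Q : Set HR) Y ∧ (∃ X ∈ g.r 1, brF η2 Y X ≠ 0) ∧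
      ∀ l, ∃ o ∈ OO Q, ∃ r ∈ RT Q,
        brF η2 Y (co (Finsupp.single l 1) (lg x)) = (ci (N l))⁻¹ * o + r by
    obtain ⟨Y, hY, hK, h0, h1⟩ := this
    refine not_irr.2 ⟨1, _, adm_brk hg hn hη h3 h2 hY hK h0, fun β hβ => ?_⟩
    obtain ⟨l, rfl⟩ := exists_single hβ
    exact (mem_single hN).2 (h1 l)
  by_contra hc
  obtain ⟨X0, hX0, Y0, hY0, hne⟩ := hne
  obtain ⟨Y, hY, hK, hYne⟩ : ∃ Y ∈ g.r 1, Ent (KK Q : Set HR) Y ∧ brF η2 X0 Y ≠ 0 := by
    by_contra h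
    push Not at h
    exact hne (lin_swap ((g.rat 1).le_of_pts (W := LinearMap.ker (brF η2 X0)) h hY0))
  obtain ⟨ρ, r1, p2, p3⟩ : ∃ ρ : Matrix ι ι HR →ₗ[HR] Matrix ι ι HR, RatM (KK Q) ρ ∧
      (∀ X, X - ρ X ∈ g.r 2) ∧ ∀ X ∈ g.r 2, ρ X = 0 := by
    obtain ⟨π, p1, p2, p3⟩ := exists_proj (g.rat 2)
    exact ⟨LinearMap.id - π, RatM.id.sub p1.ratM, fun X => by simpa using p2 X,
      fun X hX => by simp [p3 X hX]⟩
  obtain ⟨W, hW⟩ := box_brk hg hx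
  have k : ∀ Z ∈ g.r 1, ∀ X, brF η2 Z (ρ X) = brF η2 Z X := fun Z hZ X => by
    have := h3 _ (g.br 2 1 _ (p2 X) Z hZ)
    rwa [← brF_apply, map_sub, sub_eq_zero, eq_comm] at this
  refine hc ⟨Y, hY, hK, ⟨X0, hX0, by rwa [brF_swap, neg_ne_zero]⟩, fun l => ?_⟩
  obtain ⟨o, ho, r, hr, h⟩ := brkG hN (g.r 1)
    (-∑ l, ci (h0 l) • ρ (co (Finsupp.single l 1) (lg x)))
    (fun l => ρ (co (Finsupp.single l 1) (lg x)))
    (fun j => -brF η2 (co (Finsupp.single j 1) (lg x))) (fun j => (ci (N j))⁻¹)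
    (fun j => η1 (co (Finsupp.single j 1) (lg x)) - ∑ m, η2 (W j m) * ci (h0 m))
    (fun j m => η2 (W j m))
    (hd.mono fun h _ ⟨c, ha, hb, hab, hO, hL, h1⟩ => by
      obtain ⟨w1, w2⟩ := hW _ _ _ ha hb hab
      refine ⟨ρ (lg c.2), ?_,
        r1.entR KK_le_RT (ent_log (fun t => KK_le_RT _ (SubfieldClass.ratCast_mem _ t))
          fun a b => ?_), ?_, fun j => ?_⟩
      · simpa using sub_mem (show lg c.2 ∈ g.r 1 from hg.zero ▸ hb) (hg.anti 1 (p2 (lg c.2)))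
      · obtain ⟨z, hz, h⟩ := hL a b
        rw [Matrix.sub_apply, sub_eq_iff_eq_add] at h
        rw [h]
        exact ZZ_le_RT (add_mem (mul_mem hq hz) (ent_one ZZ a b))
      · have := r1.entR KK_le_OO (ent_log ratCast_OO hO)
        have e1 := p3 _ w1
        simp only [map_sub, map_sum, map_smul, zv_sub, sub_smul, sum_sub_distrib] at e1
        change Ent _ (ρ (lg c.1)) at this
        convert this using 1
        rw [← sub_eq_zero, ← e1]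
        abel
      · have := h1 (Finsupp.single j 1) (Finsupp.degree_single _ _)
        rw [e, mem_single hN] at this
        have e1 := h3 _ (w2 j)
        rw [map_add, map_sub, map_sum, ← brF_apply, brF_swap] at e1
        simp only [map_smul, zv_sub, smul_eq_mul, sub_mul, sum_sub_distrib] at e1
        obtain ⟨o, ho, r, hr, e2⟩ := this
        refine ⟨o, ho, r, hr, ?_⟩
        rw [LinearMap.neg_apply, k _ (hX j)]
        simp only [mul_comm (η2 _)]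
        linear_combination e2 - e1)
    (hη.brF hK) (fun Z hZ hZK hz => by
      by_contra h
      exact hc ⟨Z, hZ, hZK, ⟨Y, hY, by rwa [brF_swap, neg_ne_zero]⟩, fun l => by
        rw [brF_swap]; exact hz l⟩) l
  exact ⟨o, ho, r, hr, by rw [← k Y hY, h]; ring⟩

/-- From the van der Corput system back to the system. -/
theorem back {hg : g.Fil D} (hn : g.Idl n) (hN : Long Q N) (hx : x ∈ (g.fine σ).plus.PG)
    (hq : q ∈ ZZ) {n2} (ha : Adm (g.box hg) n2 i η) (k1 : ∀ Y ∈ n, dg Y Y ∈ n2)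
    (k2 : ∀ X ∈ g.r 2 ⊓ n, dg X 0 ∈ n2)
    (hd : Dense Q (box N) fun h : σ → HZ => Stp Q q g x N i (zv (h - h0)) η) :
    ¬Irr (Sm Q (zv N)) (Rt Q 1) g n x := by
  obtain ⟨η1, η2, r2, e, h2, hl, h3, h1⟩ := ha.box_parts k1 k2
  have hx1 := (mem_plus.1 hx).1
  have hi := ha.pos
  by_cases c1 : ∃ X ∈ g.r (i + 1), η2 X ≠ 0
  · by_cases c2 : ∀ u v, 1 ≤ u → 1 ≤ v → u + v = i + 1 → ∀ X ∈ g.r u, ∀ Y ∈ g.r v,
        η2 (X * Y - Y * X) = 0
    · exact not_irr.2 ⟨_, _, adm_hor hg r2 h2 hl c2 c1, fun β hβ => hor hg hN hx1 hi e h2 c2 hd hβ⟩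
    · push Not at c2
      obtain ⟨u, v, hu, hv, huv, X, hX, Y, hY, hne⟩ := c2
      have a1 : ¬2 ≤ v := fun h => hne (h3 u v huv h X hX Y hY)
      have a2 : ¬2 ≤ u := fun h => hne (lin_swap (h3 v u (by omega) h Y hY X hX))
      obtain ⟨rfl, rfl, rfl⟩ : u = 1 ∧ v = 1 ∧ i = 1 := by omega
      exact brk hg hn hN hx hq r2 e h2 hl ⟨X, hX, Y, hY, hne⟩ hd
  · push Not at c1
    obtain ⟨h, -, c, ha, hb, -, -, -, h4⟩ := hd.exists
    refine not_irr.2 ⟨_, _, h1 c1, fun β hβ => ?_⟩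
    have := mem_pk.1 (symbol hg hx1 (zv (h - h0)) (inv_mem ha) (inv_mem hb)).2 β
    rw [map_inv, map_inv, co_sub, hβ] at this
    have h5 := h4 β hβ
    rwa [e, c1 _ this, add_zero] at h5

theorem ind (hN : Long Q N) (k : ℕ) : ∀ (ι : Type) [Fintype ι] [DecidableEq ι] (lv : ι → ℕ)
    (g : Fam (KK Q) lv ℕ), g.Fil D → ∀ U ξ, Cen g U ξ → (∃ X ∈ U, ξ X ≠ 0) →
    g.r (k + 1) ≤ U ⊓ LinearMap.ker ξ → ∀ F, Nice Q q g.GG F → Eqv Q g.GG U ξ F →
    ∀ x ∈ (g.fine σ).plus.PG, BigC Q (Ex (box N) fun m : σ → HZ => F (ev (zv m) x)) →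
    ¬Irr (Sm Q (zv N)) (Rt Q 1) g (U ⊓ LinearMap.ker ξ) x := by
  induction k with
  | zero =>
    intro ι _ _ lv g hg U ξ hc ⟨X, hX, h0⟩ hk
    exact absurd (hk (hg.zero ▸ hc.idl.le hX)).2 h0
  | succ k ih =>
    intro ι _ _ lv g hg U ξ hc ⟨X0, hX0, h0⟩ hk F hF he x hx hb
    have hx1 := (mem_plus.1 hx).1
    obtain ⟨ξ', F', hc', e', hF', he', hb'⟩ := fourG1 hc (g.rat (k + 1)) (hg.le (Nat.zero_le _))
      (fun X hX W hW => hk (hg.br0 hX hW)) (T' := box N) hF he (w := fun _ : σ → HZ => 1)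
      (IntF.const 1) (x := fun m => ev (zv m) x) (by fun_prop)
      (fun m _ => ⟨nm_one.le, ev_mem hg hx1 _⟩) (by simpa only [one_mul] using hb)
    simp only [one_mul] at hb'
    have k0 : ∀ X ∈ U ⊓ LinearMap.ker ξ, ξ' X = 0 := fun X hX => (e' X hX.1).trans hX.2
    by_cases c1 : ∃ Z ∈ g.r (k + 1), ξ' Z ≠ 0
    swap
    · push Not at c1
      exact fun hi => ih ι lv g hg _ ξ' hc' ⟨X0, Submodule.mem_sup_left hX0, by rwa [e' X0 hX0]⟩
        (fun Z hZ => ⟨Submodule.mem_sup_right hZ, c1 Z hZ⟩) F' hF' he' x hx hb'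
        (hi.anti fun X hX => ⟨Submodule.mem_sup_left hX.1, k0 X hX⟩)
    rcases Nat.eq_zero_or_pos k with rfl | hk0
    · refine not_irr.2 ⟨1, ξ', ⟨le_rfl, hc'.rat, c1, fun X hX => k0 X (hk hX),
        fun a b _ X hX Y hY => hc'.cen X (hg.le (Nat.zero_le _) hX) Y
          (Submodule.mem_sup_right (hg.zero ▸ hg.le (Nat.zero_le _) hY)),
        fun X hX => k0 X hX.2⟩, fun β hβ => ?_⟩
      obtain ⟨l, rfl⟩ := exists_single hβ
      exact deg_one hg hN hx hF' he' le_sup_right (fun X hX => k0 X (hk hX)) hb' l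
    obtain ⟨Z, hZ, hZ0⟩ := c1
    have i1 : IntF fun m : σ → HZ => F' (ev (zv m) x) := hF'.int.comp (by fun_prop)
    obtain ⟨h0, -, hd⟩ := vdc hN i1 (fun _ => hF'.bd _) hb'
    have le := g.box_le hg
    obtain ⟨i, κ, ha, hd'⟩ := pigeon_adm (Fam.box_fil hg) (p := fun _ => True)
      (n := (ssum (U ⊔ g.r (k + 1)) (U ⊔ g.r (k + 1)) ⊓ (g.box hg).r 0)
        ⊓ LinearMap.ker (fsum ξ' (-ξ')))
      (s := fun i h κ => Stp Q q g x N i (zv (h - h0)) (fn κ)) (fun i => sig_stp i h0)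
      (hd.mono fun h _ hh => by
        obtain ⟨a, ha, b, hb, hab, hO, hL⟩ := normaliseQ g hF'.lvl (ev_mem hg hx1 (zv (h - h0)))
        have n2 := ((hF'.left ha hO).tens hF'.cj).mono (Fam.GG_mono le)
        obtain ⟨i, η, h1, h2⟩ := not_irr.1 (ih _ _ (g.box hg) (Fam.box_fil hg) _ _
          ((hc'.prod hc'.neg).restrict (le 0))
          ⟨dg Z 0, ⟨dg_mem_dgS.2 ⟨Submodule.mem_sup_right hZ, zero_mem _⟩, Fam.dg_mem_box.2
            ⟨hg.le (Nat.zero_le _) hZ, zero_mem _, by rw [sub_zero]; exact hg.le (by omega) hZ⟩⟩,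
            by simpa using hZ0⟩
          (fun Y hY => ⟨⟨by
            obtain ⟨X, hX, Y, hY, -, rfl⟩ := hY
            exact dg_mem_dgS.2 ⟨Submodule.mem_sup_right hX, Submodule.mem_sup_right hY⟩,
            (Fam.box_fil hg).le (Nat.zero_le _) hY⟩, by
            obtain ⟨X, -, Y, -, h, rfl⟩ := hY
            rw [max_eq_left (by omega)] at h
            have := k0 _ (hk h)
            rwa [map_sub, sub_eq_add_neg] at this⟩) _ n2
          (((he'.left hc' ha).tens he'.cj (fun _ => hF'.bd _) hF'.cj.bd).mono (Fam.GG_mono le)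
            inf_le_left fun _ _ => rfl) _ (box_mem hg hx _ ha hb hab)
          (hh.of_sub (tinyC_Ex ((i1.comp (by fun_prop)).mul i1.cj) (n2.int.comp (by fun_prop))
            fun m _ => by
              have e : zv (m + (h - h0)) = zv m + zv (h - h0) := funext fun l => map_add ci _ _
              have := hF'.per b hb hL _ (mul_mem (ev_mem hg hx1 (zv m + zv (h - h0))) (inv_mem hb))
              simp only [ev_dg, UT.p1_dg, UT.p2_dg, map_mul, map_inv, ev_cst, ev_sh, e, mul_assoc,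
                mul_inv_cancel_left, ← sub_mul]
              rw [inv_mul_cancel_right] at this
              exact this.mul (nm_OO (hF'.cj.bd _)))))
        obtain ⟨κ, rfl⟩ := exists_fn η
        exact ⟨trivial, i, κ, h1, (a, b), ha, hb, hab, hO, hL, fun β hβ => by
          have := h2 β hβ
          rwa [co_lg_dg] at this⟩)
    refine back hc.ker hN hx hF'.lvl.1 ha (fun Y hY => ⟨⟨dg_mem_dgS.2 ⟨Submodule.mem_sup_left hY.1,
      Submodule.mem_sup_left hY.1⟩, Fam.dg_mem_box.2 ⟨hc.idl.le hY.1, hc.idl.le hY.1, by simp⟩⟩,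
      by simp⟩) (fun X hX => ⟨⟨dg_mem_dgS.2 ⟨Submodule.mem_sup_left hX.2.1, zero_mem _⟩,
        Fam.dg_mem_box.2 ⟨hc.idl.le hX.2.1, zero_mem _, by rw [sub_zero]; exact hX.1⟩⟩,
        by simpa using k0 X hX.2⟩) (hd'.mono fun _ _ h => h.2)

end LB

theorem leib {g : Fam (KK Q) lv ℕ} {D} (hg : g.Fil D) {U ξ} (hc : Cen g U ξ)
    (hξ : ∃ X ∈ U, ξ X ≠ 0) {q F} (hF : Nice Q q g.GG F) (he : Eqv Q g.GG U ξ F) {N : σ → HZ}
    (hN : Long Q N) {x : PS lv σ HR} (hx : x ∈ (g.fine σ).PG)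
    (hi : Irr (Sm Q (zv N)) (Rt Q 1) g (U ⊓ LinearMap.ker ξ) x) :
    TinyC Q (Ex (box N) fun n : σ → HZ => F (ev (zv n) x)) := fun hb => by
  obtain ⟨a, ha, b, hb', hab, hO, hL⟩ := normaliseQ g hF.lvl (ev_mem hg hx 0)
  obtain ⟨h1, h2⟩ := symbol hg hx 0 (inv_mem ha) (inv_mem hb')
  have n2 := hF.left ha hO
  refine LB.ind hN D ι lv g hg U ξ hc hξ (hg.bd.le.trans bot_le) _ n2 (he.left hc ha) _
    (mem_plus.2 ⟨h1, ?_⟩) (BigC.of_sub hb (tinyC_Ex (hF.int.comp (by fun_prop))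
      (n2.int.comp (by fun_prop)) fun m _ => ?_)) (hi.of_pk h2)
  · rw [map_mul, map_mul, ev_cst, ev_cst, ev_sh, add_zero, hab]; group
  · have := hF.per b hb' hL _ (mul_mem (ev_mem hg hx (zv m)) (inv_mem hb'))
    simp only [map_mul, ev_cst, ev_sh, add_zero, mul_assoc, mul_inv_cancel_left]
    rwa [inv_mul_cancel_right] at this

end Pool.Agent.P.MP_a14ce1_nt.Nil
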