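import Pool.Agent.P.MP_a14ce1_nt.Nil.Grd
import Pool.Agent.P.MP_a14ce1_nt.Nil.Hom
import Pool.Agent.P.MP_a14ce1_nt.Nil.Rat

/-!
Linearisation, first part: congruences modulo an ideal family and fourfold block sums.
-/

open Finset MvPolynomial

set_option linter.unusedSectionVars false

noncomputable section

namespace Pool.Agent.P.MP_a14ce1_nt.Nil

variable {FF : Type} [Field FF] [CharZero FF] {ι ι' ι'' : Type} [Fintype ι] [DecidableEq ι]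
  [Fintype ι'] [DecidableEq ι'] [Fintype ι''] [DecidableEq ι''] {K : Subfield FF} {lv : ι → ℕ}
  {lv' : ι' → ℕ} {lv'' : ι'' → ℕ} {σ : Type} {I : Type} [AddCommMonoid I]

/-- A class of families with a finitely supported member has a minimal member below it. -/
theorem exists_min_fam (𝒞 : Fam K lv I → Prop) {k₀ : Fam K lv I} (h₀ : 𝒞 k₀) (B : Finset I)
    (hB : ∀ i ∉ B, k₀.r i = ⊥) : ∃ k, 𝒞 k ∧ ∀ k', 𝒞 k' → k' ≤ k → k ≤ k' := by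
  obtain ⟨k, ⟨hk, hk0⟩, hm⟩ := (measure fun k : Fam K lv I =>
    ∑ i ∈ B, Module.finrank FF (k.r i)).wf.has_min {k | 𝒞 k ∧ ∀ i ∉ B, k.r i = ⊥} ⟨k₀, h₀, hB⟩
  refine ⟨k, hk, fun k' hk' hle i => ?_⟩
  by_cases hi : i ∈ B
  · by_contra hn
    refine hm k' ⟨hk', fun j hj => le_bot_iff.1 ((hk0 j hj) ▸ hle j)⟩ ?_
    change ∑ i ∈ B, Module.finrank FF (k'.r i) < ∑ i ∈ B, Module.finrank FF (k.r i)
    exact sum_lt_sum (fun j _ => Submodule.finrank_mono (hle j))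
      ⟨i, hi, Submodule.finrank_lt_finrank_of_lt (lt_of_le_not_ge (hle i) hn)⟩
  · rw [hk0 i hi]; exact bot_le

theorem Fam.Ide.self (g : Fam K lv I) : g.Ide g := ⟨le_rfl, g.br⟩

theorem Fam.Ide.br' {g n : Fam K lv I} (a : g.Ide n) {i j : I} {X Y : Matrix ι ι FF}
    (hX : X ∈ n.r i) (hY : Y ∈ g.r j) : X * Y - Y * X ∈ n.r (i + j) := by
  have := neg_mem (a.br j i Y hY X hX)
  rwa [neg_sub, add_comm j i] at this

theorem Fam.Ide.prod {g n : Fam K lv I} {g' n' : Fam K lv' I} (a : g.Ide n) (b : g'.Ide n') :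
    (g.prod g').Ide (n.prod n') where
  le := Fam.prod_mono a.le b.le
  br i j := by
    rintro _ ⟨X, hX, Y, hY, rfl⟩ _ ⟨X', hX', Y', hY', rfl⟩
    exact ⟨_, a.br i j X hX X' hX', _, b.br i j Y hY Y' hY', dg_br⟩

/-! ### The relation -/

/-- `x' = small * x * (element of n) * rational`. -/
def Rel (S T : Sc K σ) (g n : Fam K lv (σ →₀ ℕ)) (x x' : PS lv σ FF) : Prop :=
  ∃ e ∈ g.PG ⊓ S.EE lv, ∃ z ∈ n.PG, ∃ c ∈ g.PG ⊓ T.EE lv, x' = e * x * z * c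

/-- The double coset relation. -/
def Dc (S T : Sc K σ) (g : Fam K lv (σ →₀ ℕ)) (w x : PS lv σ FF) : Prop :=
  ∃ e ∈ g.PG ⊓ S.EE lv, ∃ c ∈ g.PG ⊓ T.EE lv, x = e * w * c

section rel

variable {S T : Sc K σ} {g r n n' h : Fam K lv (σ →₀ ℕ)} {x y w : PS lv σ FF}

theorem rel_iff : Rel S T g n y x ↔ ∃ z ∈ n.PG, Dc S T g (y * z) x :=
  ⟨fun ⟨e, he, z, hz, c, hc, E⟩ => ⟨z, hz, e, he, c, hc, by rw [E]; group⟩,
    fun ⟨z, hz, e, he, c, hc, E⟩ => ⟨e, he, z, hz, c, hc, by rw [E]; group⟩⟩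

theorem fac_dc : Fac S T g h x ↔ ∃ w ∈ g.PG ⊓ h.PG, Dc S T g w x :=
  ⟨fun ⟨e, he, z, hz, c, hc, E⟩ => ⟨z, hz, e, he, c, hc, E⟩,
    fun ⟨z, hz, e, he, c, hc, E⟩ => ⟨e, he, z, hz, c, hc, E⟩⟩

theorem Dc.refl (x : PS lv σ FF) : Dc S T g x x :=
  ⟨1, one_mem _, 1, one_mem _, by group⟩

theorem Dc.symm (a : Dc S T g w x) : Dc S T g x w := by
  obtain ⟨e, he, c, hc, rfl⟩ := a
  exact ⟨e⁻¹, inv_mem he, c⁻¹, inv_mem hc, by group⟩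

theorem Dc.trans (a : Dc S T g w x) (b : Dc S T g x y) : Dc S T g w y := by
  obtain ⟨e, he, c, hc, rfl⟩ := a
  obtain ⟨e', he', c', hc', rfl⟩ := b
  exact ⟨e' * e, mul_mem he' he, c * c', mul_mem hc hc', by group⟩

theorem Dc.mono (a : Dc S T r w x) (hle : r ≤ g) : Dc S T g w x := by
  obtain ⟨e, he, c, hc, rfl⟩ := a
  exact ⟨e, ⟨Fam.PG_mono hle he.1, he.2⟩, c, ⟨Fam.PG_mono hle hc.1, hc.2⟩, rfl⟩

theorem Dc.mem (a : Dc S T g w x) (hw : w ∈ g.PG) : x ∈ g.PG := by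
  obtain ⟨e, he, c, hc, rfl⟩ := a
  exact mul_mem (mul_mem he.1 hw) hc.1

theorem Dc.fac (a : Dc S T g w x) (b : Fac S T g h w) : Fac S T g h x := by
  obtain ⟨e, he, c, hc, rfl⟩ := a
  exact b.mul he hc

theorem Dc.shrink (hST : Sep S T) (g0 : g.r 0 = ⊥) (hle : r ≤ g) (a : Dc S T g w x)
    (hw : w ∈ r.PG) (hx : x ∈ r.PG) : Dc S T r w x := by
  obtain ⟨e, he, c, hc, E⟩ := a
  obtain ⟨h1, h2⟩ := sub_PG hST g0 ⟨Fam.PG_mono hle hx, hx⟩ ⟨Fam.PG_mono hle hw, hw⟩ he hc E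
  exact ⟨e, ⟨h1, he.2⟩, c, ⟨h2, hc.2⟩, E⟩

theorem Rel.dc (a : Rel S T g n y w) (b : Dc S T g w x) : Rel S T g n y x := by
  obtain ⟨z, hz, a⟩ := rel_iff.1 a
  exact rel_iff.2 ⟨z, hz, a.trans b⟩

theorem Rel.mono (a : Rel S T r n y x) (hle : r ≤ g) (hn : n ≤ n') : Rel S T g n' y x := by
  obtain ⟨z, hz, a⟩ := rel_iff.1 a
  exact rel_iff.2 ⟨z, Fam.PG_mono hn hz, a.mono hle⟩

theorem Rel.of_mul {z : PS lv σ FF} (y : PS lv σ FF) (hz : z ∈ n.PG) : Rel S T g n y (y * z) :=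
  rel_iff.2 ⟨z, hz, Dc.refl _⟩

theorem Rel.symm (i : g.Ide n) (a : Rel S T g n y x) : Rel S T g n x y := by
  obtain ⟨e, he, z, hz, c, hc, rfl⟩ := a
  exact ⟨e⁻¹, inv_mem he, c⁻¹ * z⁻¹ * c, i.conj' hc.1 (inv_mem hz), c⁻¹, inv_mem hc, by group⟩

theorem Rel.trans (i : g.Ide n) (a : Rel S T g n y w) (b : Rel S T g n w x) :
    Rel S T g n y x := by
  obtain ⟨e, he, z, hz, c, hc, rfl⟩ := a
  obtain ⟨e', he', z', hz', c', hc', rfl⟩ := b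
  exact ⟨e' * e, mul_mem he' he, z * (c * z' * c⁻¹), mul_mem hz (i.conj hc.1 hz'), c * c',
    mul_mem hc hc', by group⟩

/-- Pairs that are congruent modulo an ideal family. -/
def Fam.Ide.del {g n : Fam K lv I} (a : g.Ide n) : Fam K (Sum.elim lv lv) I where
  r i := (g.prod g).r i ⊓ (n.r i).comap (pr2 - pr1)
  up i X hX := (g.prod g).up i X hX.1
  rat i := ((g.prod g).rat i).inf ((n.rat i).comap (ratM_pr2.sub ratM_pr1))
  br i j := by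
    rintro _ ⟨⟨X, hX, Y, hY, rfl⟩, h1⟩ _ ⟨⟨X', hX', Y', hY', rfl⟩, h2⟩
    refine ⟨(g.prod g).br i j _ ⟨X, hX, Y, hY, rfl⟩ _ ⟨X', hX', Y', hY', rfl⟩, ?_⟩
    rw [dg_br]
    change Y * Y' - Y' * Y - (X * X' - X' * X) ∈ n.r (i + j)
    have e : Y * Y' - Y' * Y - (X * X' - X' * X)
        = (Y * (Y' - X') - (Y' - X') * Y) + ((Y - X) * X' - X' * (Y - X)) := by noncomm_ring
    rw [e]
    exact add_mem (a.br i j Y hY _ h2) (a.br' h1 hX')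

theorem Fam.Ide.dg_mem_del {g n : Fam K lv I} (a : g.Ide n) {i : I} {X Y : Matrix ι ι FF} :
    dg X Y ∈ a.del.r i ↔ X ∈ g.r i ∧ Y ∈ g.r i ∧ Y - X ∈ n.r i :=
  ⟨fun h => ⟨(Fam.dg_mem_prod.1 h.1).1, (Fam.dg_mem_prod.1 h.1).2, h.2⟩,
    fun h => ⟨Fam.dg_mem_prod.2 ⟨h.1, h.2.1⟩, h.2.2⟩⟩

theorem Fam.Ide.dg_mem_del_PG (a : g.Ide n) (hx : x ∈ g.PG) {z : PS lv σ FF} (hz : z ∈ n.PG) :
    UT.dg (x, x * z) ∈ a.del.PG := fun β => by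
  have h1 := mul_mem hx (Fam.PG_mono a.le hz)
  rw [co_lg_dg]
  exact a.dg_mem_del.2 ⟨hx β, h1 β, (a.inv_mul_iff hx h1).1 (by simpa using hz) β⟩

theorem Rel.fac (i : g.Ide n) (hy : y ∈ g.PG) (a : Rel S T g n y x) :
    Fac S T (g.prod g) i.del (UT.dg (y, x)) := by
  obtain ⟨e, he, z, hz, c, hc, rfl⟩ := a
  have h1 := mul_mem hy (Fam.PG_mono i.le hz)
  refine ⟨UT.dg (1, e), ⟨Fam.dg_mem_prod_PG.2 ⟨one_mem _, he.1⟩, dg_mem_EE.2 ⟨one_mem _, he.2⟩⟩,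
    UT.dg (y, y * z), ⟨Fam.dg_mem_prod_PG.2 ⟨hy, h1⟩, i.dg_mem_del_PG hy hz⟩,
    UT.dg (1, c), ⟨Fam.dg_mem_prod_PG.2 ⟨one_mem _, hc.1⟩, dg_mem_EE.2 ⟨one_mem _, hc.2⟩⟩, ?_⟩
  rw [UT.dg_mul, UT.dg_mul, one_mul, mul_one, mul_assoc e y z]

/-- Congruences modulo two ideal families give a congruence modulo the intersection. -/
theorem Rel.inf (hST : Sep S T) (g0 : g.r 0 = ⊥) (i : g.Ide n) (i' : g.Ide n') (hy : y ∈ g.PG)
    (a : Rel S T g n y x) (b : Rel S T g n' y x) : Rel S T g (n.inf n') y x := by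
  have g00 : (g.prod g).r 0 = ⊥ := Fam.prod_zero g0 g0
  have h2 := (a.fac i hy).int hST g00 (b.fac i' hy)
  have h1 := ((Rel.of_mul (S := S) (T := T) y (one_mem _)).fac i hy).int hST g00
    ((Rel.of_mul y (one_mem _)).fac i' hy)
  rw [mul_one] at h1
  obtain ⟨e, he, z, hz, c₀, hc₀, c, hc, rfl⟩ := goursat_pre hST g0
    (h := i.del.inf i'.del) (fun β X hX => hX.1.1) h1 h2
  refine ⟨e, he, _, (i.inf i').conj' hc₀.1 (Fam.PG_mono (fun β X hX => ?_) hz), c, hc, rfl⟩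
  have h3 := (i.dg_mem_del.1 (Fam.mem_kr.1 hX).1).2.2
  have h4 := (i'.dg_mem_del.1 (Fam.mem_kr.1 hX).2).2.2
  rw [sub_zero] at h3 h4
  exact ⟨h3, h4⟩

end rel

/-! ### Homomorphisms to block sums -/

/-- The pair of two homomorphisms. -/
def Hom.pair {g : Fam K lv I} (π : Hom g lv') (ρ : Hom g lv'') : Hom g (Sum.elim lv' lv'') where
  l i := in1 ∘ₗ π.l i + in2 ∘ₗ ρ.l i
  rat i := (ratM_in1.comp (π.rat i)).add (ratM_in2.comp (ρ.rat i))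
  up i X hX := by
    rw [LinearMap.add_apply, LinearMap.comp_apply, LinearMap.comp_apply, ← dg_eq_in]
    exact dg_mem_mF.2 ⟨π.up i X hX, ρ.up i X hX⟩
  br i j X hX Y hY := by
    simp only [LinearMap.add_apply, LinearMap.comp_apply, ← dg_eq_in]
    rw [dg_br, π.br i j X hX Y hY, ρ.br i j X hX Y hY]

theorem Hom.pair_l {g : Fam K lv I} (π : Hom g lv') (ρ : Hom g lv'') (i : I) (X : Matrix ι ι FF) :
    (π.pair ρ).l i X = dg (π.l i X) (ρ.l i X) := (dg_eq_in _ _).symm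

theorem Hom.pair_G {g : Fam K lv (σ →₀ ℕ)} (π : Hom g lv') (ρ : Hom g lv'') (x : g.PG) :
    (π.pair ρ).G x = UT.dg (π.G x, ρ.G x) :=
  (Hom.G_eq_iff _ _ _).2 fun β => by rw [Hom.pair_l, co_lg_dg, Hom.co_lg_G, Hom.co_lg_G]

/-! ### Fourfold block sums -/

/-- The index set and the levels. -/
abbrev I4 (ι : Type) : Type := (ι ⊕ ι) ⊕ (ι ⊕ ι)
abbrev lv4 (lv : ι → ℕ) : I4 ι → ℕ := Sum.elim (Sum.elim lv lv) (Sum.elim lv lv)

/-- Four blocks. -/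
def q4 {R : Type} [CommRing R] (A B C D : Matrix ι ι R) : Matrix (I4 ι) (I4 ι) R :=
  dg (dg A B) (dg C D)
def u4 (a b c d : PS lv σ FF) : PS (lv4 lv) σ FF := UT.dg (UT.dg (a, b), UT.dg (c, d))
def Fam.p4 (g : Fam K lv I) : Fam K (lv4 lv) I := (g.prod g).prod (g.prod g)

/-- The four slots. -/
def sl : Fin 4 → Matrix (I4 ι) (I4 ι) FF →ₗ[FF] Matrix ι ι FF :=
  ![pr1 ∘ₗ pr1, pr2 ∘ₗ pr1, pr1 ∘ₗ pr2, pr2 ∘ₗ pr2]

theorem ratM_sl (j : Fin 4) : RatM K (sl (ι := ι) (FF := FF) j) := by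
  fin_cases j
  exacts [ratM_pr1.comp ratM_pr1, ratM_pr2.comp ratM_pr1, ratM_pr1.comp ratM_pr2,
    ratM_pr2.comp ratM_pr2]

/-- Four blocks, indexed. -/
def qq {R : Type} [CommRing R] (A : Fin 4 → Matrix ι ι R) : Matrix (I4 ι) (I4 ι) R :=
  q4 (A 0) (A 1) (A 2) (A 3)
def uu (a : Fin 4 → PS lv σ FF) : PS (lv4 lv) σ FF := u4 (a 0) (a 1) (a 2) (a 3)

theorem sl_qq (A : Fin 4 → Matrix ι ι FF) (j : Fin 4) : sl j (qq A) = A j := by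
  fin_cases j <;> rfl

theorem qq_br {R : Type} [CommRing R] (A B : Fin 4 → Matrix ι ι R) :
    qq A * qq B - qq B * qq A = qq fun j => A j * B j - B j * A j := by
  simp only [qq, q4, dg_br]

theorem qq_sub {R : Type} [CommRing R] (A B : Fin 4 → Matrix ι ι R) :
    qq A - qq B = qq fun j => A j - B j := by
  simp only [qq, q4, dg_sub]

theorem qq_mem {g : Fam K lv I} {i : I} {A : Fin 4 → Matrix ι ι FF} :
    qq A ∈ g.p4.r i ↔ ∀ j, A j ∈ g.r i := by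
  simp only [qq, q4, Fam.p4, Fam.dg_mem_prod, Fin.forall_fin_succ, IsEmpty.forall_iff, and_true]
  tauto

theorem mem_p4 {g : Fam K lv I} {i : I} {Z} (h : Z ∈ g.p4.r i) :
    ∃ A : Fin 4 → Matrix ι ι FF, (∀ j, A j ∈ g.r i) ∧ Z = qq A := by
  obtain ⟨_, ⟨A, -, B, -, rfl⟩, _, ⟨C, -, D, -, rfl⟩, rfl⟩ := id h
  exact ⟨![A, B, C, D], qq_mem.1 h, rfl⟩

theorem p4_mono {g h : Fam K lv I} (a : g ≤ h) : g.p4 ≤ h.p4 :=
  Fam.prod_mono (Fam.prod_mono a a) (Fam.prod_mono a a)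

theorem p4_zero {g : Fam K lv I} {i : I} (h : g.r i = ⊥) : g.p4.r i = ⊥ :=
  Fam.prod_zero (Fam.prod_zero h h) (Fam.prod_zero h h)

theorem Fam.Ide.p4 {g n : Fam K lv I} (a : g.Ide n) : g.p4.Ide n.p4 := (a.prod a).prod (a.prod a)

theorem co_lg_uu (β : σ →₀ ℕ) (a : Fin 4 → PS lv σ FF) :
    co β (lg (uu a)) = qq fun j => co β (lg (a j)) := by
  simp only [uu, u4, qq, q4, co_lg_dg]

theorem uu_mul (a b : Fin 4 → PS lv σ FF) : uu a * uu b = uu fun j => a j * b j := by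
  simp only [uu, u4, UT.dg_mul]

theorem uu_inv (a : Fin 4 → PS lv σ FF) : (uu a)⁻¹ = uu fun j => (a j)⁻¹ := by
  simp only [uu, u4, UT.dg_inv]

theorem uu_inj {a b : Fin 4 → PS lv σ FF} (h : uu a = uu b) (j : Fin 4) : a j = b j := by
  simp only [uu, u4, UT.dg_inj] at h
  fin_cases j
  exacts [h.1.1, h.1.2, h.2.1, h.2.2]

theorem uu_mem {g : Fam K lv (σ →₀ ℕ)} {a : Fin 4 → PS lv σ FF} :
    uu a ∈ g.p4.PG ↔ ∀ j, a j ∈ g.PG := by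
  simp only [Fam.mem_PG, co_lg_uu, qq_mem]
  exact forall_comm

theorem uu_mem_EE {S : Sc K σ} {a : Fin 4 → PS lv σ FF} :
    uu a ∈ S.EE (lv4 lv) ↔ ∀ j, a j ∈ S.EE lv := by
  simp only [uu, u4, dg_mem_EE, Fin.forall_fin_succ, IsEmpty.forall_iff, and_true]
  tauto

theorem mem_p4_PG {g : Fam K lv (σ →₀ ℕ)} {z : PS (lv4 lv) σ FF} (h : z ∈ g.p4.PG) :
    ∃ a : Fin 4 → PS lv σ FF, (∀ j, a j ∈ g.PG) ∧ z = uu a := by
  obtain ⟨u, hu, v, hv, rfl⟩ := Fam.mem_prod_PG.1 h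
  obtain ⟨a, -, b, -, rfl⟩ := Fam.mem_prod_PG.1 hu
  obtain ⟨c, -, d, -, rfl⟩ := Fam.mem_prod_PG.1 hv
  exact ⟨![a, b, c, d], uu_mem.1 h, rfl⟩

theorem Dc.uu {S T : Sc K σ} {g : Fam K lv (σ →₀ ℕ)} {w x : Fin 4 → PS lv σ FF}
    (h : ∀ j, Dc S T g (w j) (x j)) : Dc S T g.p4 (uu w) (uu x) := by
  choose e he c hc E using h
  refine ⟨Nil.uu e, ⟨uu_mem.2 fun j => (he j).1, uu_mem_EE.2 fun j => (he j).2⟩, Nil.uu c,
    ⟨uu_mem.2 fun j => (hc j).1, uu_mem_EE.2 fun j => (hc j).2⟩, ?_⟩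
  rw [uu_mul, uu_mul]
  exact congrArg _ (funext E)

/-- The slots as homomorphisms. -/
def slH {g : Fam K lv I} {f : Fam K (lv4 lv) I} (hf : f ≤ g.p4) (j : Fin 4) : Hom f lv where
  l _ := sl j
  rat _ := ratM_sl j
  up i X hX := by
    obtain ⟨A, hA, rfl⟩ := mem_p4 (hf i hX)
    rw [sl_qq]; exact g.up i _ (hA j)
  br i k X hX Y hY := by
    obtain ⟨A, -, rfl⟩ := mem_p4 (hf i hX)
    obtain ⟨B, -, rfl⟩ := mem_p4 (hf k hY)
    rw [qq_br, sl_qq, sl_qq, sl_qq]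

theorem slH_G {g : Fam K lv (σ →₀ ℕ)} {f : Fam K (lv4 lv) (σ →₀ ℕ)} (hf : f ≤ g.p4) (j : Fin 4)
    {a : Fin 4 → PS lv σ FF} (h : uu a ∈ f.PG) : (slH hf j).G ⟨uu a, h⟩ = a j :=
  (Hom.G_eq_iff _ _ _).2 fun β => by
    change sl j (co β (lg (uu a))) = _
    rw [co_lg_uu, sl_qq]

/-- Quadruples all of whose entries are congruent modulo an ideal family. -/
def Fam.Ide.f4 {g n : Fam K lv I} (a : g.Ide n) : Fam K (lv4 lv) I where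
  r i := g.p4.r i ⊓ ⨅ j : Fin 4, (n.r i).comap (sl j - sl 0)
  up i X hX := g.p4.up i X hX.1
  rat i := (g.p4.rat i).inf (IsRat.iInf fun j => (n.rat i).comap ((ratM_sl j).sub (ratM_sl 0)))
  br i k X hX Y hY := by
    refine ⟨g.p4.br i k X hX.1 Y hY.1, ?_⟩
    obtain ⟨A, hA, rfl⟩ := mem_p4 hX.1
    obtain ⟨B, hB, rfl⟩ := mem_p4 hY.1
    refine (Submodule.mem_iInf _).2 fun j => ?_
    have h1 := (Submodule.mem_iInf _).1 hX.2 j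
    have h2 := (Submodule.mem_iInf _).1 hY.2 j
    simp only [Submodule.mem_comap, LinearMap.sub_apply, qq_br, sl_qq] at h1 h2 ⊢
    have e : A j * B j - B j * A j - (A 0 * B 0 - B 0 * A 0)
        = (A j * (B j - B 0) - (B j - B 0) * A j) + ((A j - A 0) * B 0 - B 0 * (A j - A 0)) := by
      noncomm_ring
    rw [e]
    exact add_mem (a.br i k _ (hA j) _ h2) (a.br' h1 (hB 0))

theorem Fam.Ide.f4_le {g n : Fam K lv I} (a : g.Ide n) : a.f4 ≤ g.p4 := fun _ _ h => h.1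

theorem Fam.Ide.qq_mem_f4 {g n : Fam K lv I} (a : g.Ide n) {i : I} {A : Fin 4 → Matrix ι ι FF} :
    qq A ∈ a.f4.r i ↔ (∀ j, A j ∈ g.r i) ∧ ∀ j, A j - A 0 ∈ n.r i := by
  change qq A ∈ g.p4.r i ∧ qq A ∈ ⨅ j : Fin 4, (n.r i).comap (sl j - sl 0) ↔ _
  simp only [qq_mem, Submodule.mem_iInf, Submodule.mem_comap, LinearMap.sub_apply, sl_qq]

theorem Fam.Ide.p4_le_f4 {g n : Fam K lv I} (a : g.Ide n) : n.p4 ≤ a.f4 := fun i X hX => by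
  obtain ⟨A, hA, rfl⟩ := mem_p4 hX
  exact a.qq_mem_f4.2 ⟨fun j => a.le i (hA j), fun j => sub_mem (hA j) (hA 0)⟩

theorem Fam.Ide.f4_ide {g n : Fam K lv I} (a : g.Ide n) : a.f4.Ide n.p4 :=
  ⟨a.p4_le_f4, fun i k X hX Y hY => a.p4.br i k X (a.f4_le i hX) Y hY⟩

theorem Fam.Ide.uu_mem_f4 {g n : Fam K lv (σ →₀ ℕ)} (a : g.Ide n) {y : PS lv σ FF}
    (hy : y ∈ g.PG) {z : Fin 4 → PS lv σ FF} (hz : ∀ j, z j ∈ n.PG) :
    uu (fun j => y * z j) ∈ a.f4.PG := fun β => by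
  have h1 := fun j => mul_mem hy (Fam.PG_mono a.le (hz j))
  rw [co_lg_uu]
  refine a.qq_mem_f4.2 ⟨fun j => h1 j β, fun j => (a.inv_mul_iff (h1 0) (h1 j)).1 ?_ β⟩
  have : (y * z 0)⁻¹ * (y * z j) = (z 0)⁻¹ * z j := by group
  rw [this]
  exact mul_mem (inv_mem (hz 0)) (hz j)

end Pool.Agent.P.MP_a14ce1_nt.Nil
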