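import Pool.Agent.P.MP_a14ce1_nt.Nil.Lin1

/-!
Linearisation, second part: minimal families, the commutator argument, reduction to an
approximately additive function.
-/

open Finset MvPolynomial

set_option linter.unusedSectionVars false

noncomputable section

namespace Pool.Agent.P.MP_a14ce1_nt.Nil

variable {FF : Type} [Field FF] [CharZero FF] {ι : Type} [Fintype ι] [DecidableEq ι]
  {K : Subfield FF} {lv : ι → ℕ} {σ : Type} {I : Type} [AddCommMonoid I]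

/-! ### The derived family and the ideal `m` -/

theorem der_aux (n : Fam K lv I) (i : I) :
    (⨆ (a : I) (b : I) (_ : a + b = i), brS (n.r a) (n.r b)) ≤ n.r i :=
  iSup_le fun a => iSup_le fun b => iSup_le fun e => brS_le.2 fun X hX Y hY => e ▸ n.br a b X hX Y hY

theorem der_aux' (n : Fam K lv I) {a b : I} {X Y : Matrix ι ι FF} (hX : X ∈ n.r a)
    (hY : Y ∈ n.r b) :
    X * Y - Y * X ∈ ⨆ (u : I) (v : I) (_ : u + v = a + b), brS (n.r u) (n.r v) :=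
  Submodule.mem_iSup_of_mem a (Submodule.mem_iSup_of_mem b
    (Submodule.mem_iSup_of_mem rfl (br_mem_brS hX hY)))

/-- The alternating sum of the slots. -/
def sg : Matrix (I4 ι) (I4 ι) FF →ₗ[FF] Matrix ι ι FF := sl 0 + sl 1 - sl 2 - sl 3

theorem sg_qq (A : Fin 4 → Matrix ι ι FF) : sg (qq A) = A 0 + A 1 - A 2 - A 3 := by
  simp only [sg, LinearMap.sub_apply, LinearMap.add_apply, sl_qq]

theorem ratM_sg : RatM K (sg (ι := ι) (FF := FF)) :=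
  (((ratM_sl 0).add (ratM_sl 1)).sub (ratM_sl 2)).sub (ratM_sl 3)

theorem mm_aux (n : Fam K lv I) (h : Fam K (lv4 lv) I) (i : I) :
    (⨆ (a : I) (b : I) (_ : a + b = i), brS (n.r a) (n.r b)) ⊔ (h.r i ⊓ n.p4.r i).map sg
      ≤ n.r i := by
  refine sup_le (der_aux n i) ?_
  rintro _ ⟨Z, hZ, rfl⟩
  obtain ⟨A, hA, rfl⟩ := mem_p4 hZ.2
  rw [sg_qq]
  exact sub_mem (sub_mem (add_mem (hA 0) (hA 1)) (hA 2)) (hA 3)

/-- Brackets of `n` and alternating sums of the elements of `h` with entries in `n`. -/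
def Fam.mm (n : Fam K lv I) (h : Fam K (lv4 lv) I) : Fam K lv I where
  r i := (⨆ (a : I) (b : I) (_ : a + b = i), brS (n.r a) (n.r b)) ⊔ (h.r i ⊓ n.p4.r i).map sg
  up i X hX := n.up i X (mm_aux n h i hX)
  rat i := (IsRat.iSup fun a => IsRat.iSup fun b => IsRat.iSup fun _ =>
    (n.rat a).brS (n.rat b)).sup (((h.rat i).inf (n.p4.rat i)).map ratM_sg)
  br i j _ hX _ hY := Submodule.mem_sup_left (der_aux' n (mm_aux n h i hX) (mm_aux n h j hY))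

theorem Fam.mm_le (n : Fam K lv I) (h : Fam K (lv4 lv) I) : n.mm h ≤ n := mm_aux n h

theorem Fam.br_mem_mm (n : Fam K lv I) (h : Fam K (lv4 lv) I) {a b : I} {X Y : Matrix ι ι FF}
    (hX : X ∈ n.r a) (hY : Y ∈ n.r b) : X * Y - Y * X ∈ (n.mm h).r (a + b) :=
  Submodule.mem_sup_left (der_aux' n hX hY)

theorem Fam.sg_mem_mm (n : Fam K lv I) {h : Fam K (lv4 lv) I} {i : I} {A : Fin 4 → Matrix ι ι FF}
    (h1 : qq A ∈ h.r i) (h2 : ∀ j, A j ∈ n.r i) : A 0 + A 1 - A 2 - A 3 ∈ (n.mm h).r i :=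
  Submodule.mem_sup_right ⟨qq A, ⟨h1, qq_mem.2 h2⟩, sg_qq A⟩

theorem Fam.mm_ind {n : Fam K lv I} {h : Fam K (lv4 lv) I} {i : I}
    {P : Submodule FF (Matrix ι ι FF)}
    (h1 : ∀ a b, a + b = i → ∀ X ∈ n.r a, ∀ Y ∈ n.r b, X * Y - Y * X ∈ P)
    (h2 : ∀ A : Fin 4 → Matrix ι ι FF, qq A ∈ h.r i → (∀ j, A j ∈ n.r i) →
      A 0 + A 1 - A 2 - A 3 ∈ P) : (n.mm h).r i ≤ P := by
  refine sup_le (iSup_le fun a => iSup_le fun b => iSup_le fun e => brS_le.2 (h1 a b e)) ?_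
  rintro _ ⟨Z, hZ, rfl⟩
  obtain ⟨A, hA, rfl⟩ := mem_p4 hZ.2
  rw [sg_qq]
  exact h2 A hZ.1 hA

theorem Fam.Ide.mm {r n : Fam K lv I} (a : r.Ide n) {h : Fam K (lv4 lv) I} (hf : h ≤ a.f4)
    (on : ∀ i, ∀ Y ∈ r.r i, ∃ H : Fin 4 → Matrix ι ι FF, qq H ∈ h.r i ∧ H 0 = Y) :
    r.Ide (n.mm h) where
  le := (n.mm_le h).trans a.le
  br i j Y hY := by
    refine Fam.mm_ind (P := ((n.mm h).r (i + j)).comap
      (LinearMap.mulLeft FF Y - LinearMap.mulRight FF Y)) ?_ ?_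
    · rintro u v rfl A hA B hB
      change Y * (A * B - B * A) - (A * B - B * A) * Y ∈ (n.mm h).r (i + (u + v))
      have e : Y * (A * B - B * A) - (A * B - B * A) * Y
          = ((Y * A - A * Y) * B - B * (Y * A - A * Y))
            + (A * (Y * B - B * Y) - (Y * B - B * Y) * A) := by noncomm_ring
      rw [e]
      refine add_mem ?_ ?_
      · rw [← add_assoc]; exact n.br_mem_mm h (a.br i u Y hY A hA) hB
      · rw [add_left_comm]; exact n.br_mem_mm h hA (a.br i v Y hY B hB)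
    · intro A h1 h2
      obtain ⟨H, h3, rfl⟩ := on i Y hY
      obtain ⟨h4, h5⟩ := a.qq_mem_f4.1 (hf i h3)
      have h6 := h.br i j _ h3 _ h1
      rw [qq_br] at h6
      have h7 := n.sg_mem_mm h6 fun k => a.br i j _ (h4 k) _ (h2 k)
      have h8 := fun k => n.br_mem_mm h (h5 k) (h2 k)
      change H 0 * (A 0 + A 1 - A 2 - A 3) - (A 0 + A 1 - A 2 - A 3) * H 0 ∈ (n.mm h).r (i + j)
      convert add_mem (add_mem (sub_mem h7 (h8 1)) (h8 2)) (h8 3) using 1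
      noncomm_ring

/-! ### Large sets -/

/-- Abstract notions of large sets of points and of quadruples. -/
structure Lg (A : Type) where
  D1 : (A → Prop) → Prop
  D4 : ((Fin 4 → A) → Prop) → Prop
  mono1 : ∀ {p q}, D1 p → (∀ a, p a → q a) → D1 q
  mono4 : ∀ {p q}, D4 p → (∀ a, p a → q a) → D4 q
  ne1 : ∀ {p}, D1 p → ∃ a, p a
  fib : ∀ {P}, D4 P → ∀ k : Fin 4, k = 2 ∨ k = 3 →
    ∃ b c, D1 fun a => ∃ t, P t ∧ t 0 = a ∧ t 1 = b ∧ t k = c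

variable {A : Type} {S T : Sc K σ} {g r n : Fam K lv (σ →₀ ℕ)} {x : A → PS lv σ FF}

theorem Rel.facr {y w : PS lv σ FF} (hle : r ≤ g) (i : r.Ide n) (hy : y ∈ r.PG)
    (a : Rel S T g n y w) : Fac S T g r w := by
  obtain ⟨z, hz, a⟩ := rel_iff.1 a
  have := mul_mem hy (Fam.PG_mono i.le hz)
  exact fac_dc.2 ⟨_, ⟨Fam.PG_mono hle this, this⟩, a⟩

/-- The two minimal choices. -/
theorem core1 (L : Lg A) (hST : Sep S T) (g0 : g.r 0 = ⊥) (B : Finset (σ →₀ ℕ))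
    (hB : ∀ β ∉ B, g.r β = ⊥) {p : A → Prop} (hp : L.D1 p) (hx : ∀ a, p a → x a ∈ g.PG) :
    ∃ r n : Fam K lv (σ →₀ ℕ), ∃ y, r ≤ g ∧ r.Ide n ∧ y ∈ r.PG ∧
      (L.D1 fun a => p a ∧ Rel S T g n y (x a)) ∧
      (∀ k, (L.D1 fun a => p a ∧ Fac S T g r (x a) ∧ Fac S T g k (x a)) → r ≤ k) ∧
      ∀ n' y', r.Ide n' → y' ∈ r.PG →
        (L.D1 fun a => p a ∧ Rel S T g n y (x a) ∧ Rel S T g n' y' (x a)) → n ≤ n' := by
  obtain ⟨r, ⟨hr, d1⟩, m1⟩ := exists_min_fam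
    (fun r => r ≤ g ∧ L.D1 fun a => p a ∧ Fac S T g r (x a))
    ⟨le_rfl, L.mono1 hp fun a h => ⟨h, Fac.of_mem (hx a h) (hx a h)⟩⟩ B hB
  have r0 : r.r 0 = ⊥ := le_bot_iff.1 (g0 ▸ hr 0)
  obtain ⟨n, ⟨hn, y, hy, d2⟩, m2⟩ := exists_min_fam
    (fun n => r.Ide n ∧ ∃ y ∈ r.PG, L.D1 fun a => p a ∧ Rel S T g n y (x a))
    ⟨Fam.Ide.self r, 1, one_mem _, L.mono1 d1 fun a h => ⟨h.1, by
      obtain ⟨w, hw, h⟩ := fac_dc.1 h.2
      exact rel_iff.2 ⟨w, hw.2, by rwa [one_mul]⟩⟩⟩ B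
    fun β hβ => le_bot_iff.1 (hB β hβ ▸ hr β)
  refine ⟨r, n, y, hr, hn, hy, d2, fun k d => ?_, fun n' y' hn' hy' d => ?_⟩
  · exact (m1 (r.inf k) ⟨(r.inf_le_left k).trans hr,
      L.mono1 d fun a h => ⟨h.1, h.2.1.int hST g0 h.2.2⟩⟩ (r.inf_le_left k)).trans
      (r.inf_le_right k)
  · have key : ∀ a, Rel S T g n y (x a) → Rel S T g n' y' (x a) → ∃ w ∈ r.PG,
        Dc S T g w (x a) ∧ Rel S T r n y w ∧ Rel S T r n' y' w := fun a h1 h2 => by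
      obtain ⟨z, hz, h1⟩ := rel_iff.1 h1
      obtain ⟨z', hz', h2⟩ := rel_iff.1 h2
      have h3 := mul_mem hy (Fam.PG_mono hn.le hz)
      have h4 := mul_mem hy' (Fam.PG_mono hn'.le hz')
      exact ⟨_, h3, h1, Rel.of_mul y hz,
        rel_iff.2 ⟨z', hz', (h2.trans h1.symm).shrink hST g0 hr h4 h3⟩⟩
    obtain ⟨a₀, -, h1, h2⟩ := L.ne1 d
    obtain ⟨w₀, hw₀, -, h3, h4⟩ := key a₀ h1 h2
    refine (m2 (n.inf n') ⟨hn.inf hn', w₀, hw₀, L.mono1 d fun a h => ⟨h.1, ?_⟩⟩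
      (n.inf_le_left n')).trans (n.inf_le_right n')
    obtain ⟨w, -, h5, h6, h7⟩ := key a h.2.1 h.2.2
    exact ((Rel.inf hST r0 hn hn' hw₀ ((h3.symm hn).trans hn h6)
      ((h4.symm hn').trans hn' h7)).mono hr le_rfl).dc h5

/-- The logarithm is additive modulo an ideal containing all brackets. -/
theorem lg_mul_mod {m : Fam K lv (σ →₀ ℕ)} (hle : m ≤ n)
    (hbr : ∀ a b, ∀ X ∈ n.r a, ∀ Y ∈ n.r b, X * Y - Y * X ∈ m.r (a + b)) {u v : PS lv σ FF}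
    (hu : u ∈ n.PG) (hv : v ∈ n.PG) : lg (u * v) - (lg u + lg v) ∈ pm m.r := by
  have := lg_mul3_sub (𝔏 := n.lie) (J := pm m.r) (fun X hX β => hle β (hX β))
    (fun a ha b hb => pm_br hbr ha hb) hu hv (one_mem _)
  rwa [mul_one, lg_one, add_zero] at this

/-- The approximate additivity relation for a quadruple. -/
def QuadL (S T : Sc K σ) (n m : Fam K lv (σ →₀ ℕ)) (y : PS lv σ FF)
    (B : Matrix ι ι (MvPolynomial σ FF)) (z : Fin 4 → PS lv σ FF) : Prop :=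
  ∃ e ∈ pm n.r, ∃ c ∈ pm n.r, (∀ β, Ent (S.s β : Set FF) (co β e)) ∧
    (∀ β, Ent (T.s β : Set FF) (co β c)) ∧
    lg (z 0) + lg (z 1) - lg (z 2) - lg (z 3) - (B + y⁻¹.val * e * y.val + c) ∈ pm m.r

theorem core3 (i : r.Ide n) {h : Fam K (lv4 lv) (σ →₀ ℕ)} (hf : h ≤ i.f4)
    (on : ∀ β, ∀ Y ∈ r.r β, ∃ H : Fin 4 → Matrix ι ι FF, qq H ∈ h.r β ∧ H 0 = Y)
    {y : PS lv σ FF} {z : Fin 4 → PS lv σ FF} (a : Fac S T i.f4 h (uu fun j => y * z j)) :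
    ∃ e c : Fin 4 → PS lv σ FF, (∀ j, e j ∈ n.PG ⊓ S.EE lv) ∧ (∀ j, c j ∈ n.PG ⊓ T.EE lv) ∧
      uu (fun j => y * ((y⁻¹ * e j * y)⁻¹ * z j * (c j)⁻¹)) ∈ h.PG := by
  have hadd : i.f4 ≤ i.f4_ide.add h := fun β Z hZ => by
    obtain ⟨Y, -, rfl⟩ := mem_p4 (i.f4_le β hZ)
    obtain ⟨h1, h2⟩ := i.qq_mem_f4.1 hZ
    obtain ⟨H, h3, h4⟩ := on β _ (h1 0)
    have h5 := (i.qq_mem_f4.1 (hf β h3)).2
    refine Submodule.mem_sup.2 ⟨qq H, ⟨hf β h3, h3⟩, qq Y - qq H, ?_, add_sub_cancel _ _⟩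
    rw [qq_sub]
    refine qq_mem.2 fun j => ?_
    have := sub_mem (h2 j) (h5 j)
    rwa [h4, sub_sub_sub_cancel_right] at this
  obtain ⟨ε, hε, η, hη, γ, hγ, E⟩ := a
  obtain ⟨a, ha, b, hb, E1⟩ := i.f4_ide.split (h := h) S (Fam.PG_mono hadd (inv_mem hε.1))
    (inv_mem hε.2)
  obtain ⟨u, hu, v, hv, rfl⟩ := i.f4_ide.split (h := h) T (Fam.PG_mono hadd hγ.1) hγ.2
  obtain ⟨e, he, rfl⟩ := mem_p4_PG hb.1
  obtain ⟨c, hc, rfl⟩ := mem_p4_PG hv.1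
  refine ⟨fun j => (e j)⁻¹, c, fun j => inv_mem ⟨he j, uu_mem_EE.1 hb.2 j⟩,
    fun j => ⟨hc j, uu_mem_EE.1 hv.2 j⟩, ?_⟩
  have : uu (fun j => y * ((y⁻¹ * (e j)⁻¹ * y)⁻¹ * z j * (c j)⁻¹))
      = uu e * uu (fun j => y * z j) * (uu c)⁻¹ := by
    rw [uu_inv, uu_mul, uu_mul]
    exact congrArg _ (funext fun j => by group)
  rw [this, E, ← inv_inv ε, E1]
  have : uu e * ((a * uu e)⁻¹ * η * (u * uu c)) * (uu c)⁻¹ = a⁻¹ * η * u := by group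
  rw [this]
  exact mul_mem (mul_mem (inv_mem ha.1.2) hη.2) hu.1.2

theorem core4 (i : r.Ide n) {h : Fam K (lv4 lv) (σ →₀ ℕ)} {y : PS lv σ FF} (hy : y ∈ r.PG)
    {b z e c : Fin 4 → PS lv σ FF} (hb : ∀ j, b j ∈ n.PG) (hz : ∀ j, z j ∈ n.PG)
    (he : ∀ j, e j ∈ n.PG ⊓ S.EE lv) (hc : ∀ j, c j ∈ n.PG ⊓ T.EE lv)
    (h1 : uu (fun j => y * b j) ∈ h.PG)
    (h2 : uu (fun j => y * ((y⁻¹ * e j * y)⁻¹ * z j * (c j)⁻¹)) ∈ h.PG) :
    QuadL S T n (n.mm h) y (lg (b 0) + lg (b 1) - lg (b 2) - lg (b 3)) z := by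
  have h3 := mul_mem (inv_mem h1) h2
  rw [uu_inv, uu_mul] at h3
  have e1 : ∀ j, (y * b j)⁻¹ * (y * ((y⁻¹ * e j * y)⁻¹ * z j * (c j)⁻¹))
      = (b j)⁻¹ * ((y⁻¹ * e j * y)⁻¹ * z j * (c j)⁻¹) := fun j => by group
  simp only [e1] at h3
  have m1 := fun j => inv_mem (i.conj' hy (he j).1)
  have m2 := fun j => mul_mem (m1 j) (hz j)
  have m3 := fun j => mul_mem (m2 j) (inv_mem (hc j).1)
  have m4 := fun j => mul_mem (inv_mem (hb j)) (m3 j)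
  have add := fun {u v} => lg_mul_mod (u := u) (v := v) (n.mm_le h)
    fun a b X hX Y hY => n.br_mem_mm h hX hY
  have h4 : ∀ j, lg ((b j)⁻¹ * ((y⁻¹ * e j * y)⁻¹ * z j * (c j)⁻¹))
      - (lg (z j) - lg (b j) - y⁻¹.val * lg (e j) * y.val - lg (c j)) ∈ pm (n.mm h).r := fun j => by
    have e2 : lg (y⁻¹ * e j * y) = y⁻¹.val * lg (e j) * y.val := by
      simpa only [inv_inv] using lg_conj y⁻¹ (e j)
    convert add_mem (add_mem (add (inv_mem (hb j)) (m3 j)) (add (m2 j) (inv_mem (hc j).1)))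
      (add (m1 j) (hz j)) using 1
    rw [lg_inv, lg_inv, lg_inv, e2]
    abel
  have sm : ∀ {u : Fin 4 → PS lv σ FF}, (∀ j, u j ∈ n.PG) →
      lg (u 0) + lg (u 1) - lg (u 2) - lg (u 3) ∈ pm n.r := fun hu =>
    sub_mem (sub_mem (add_mem (hu 0) (hu 1)) (hu 2)) (hu 3)
  have se : ∀ {U : Sc K σ} {u : Fin 4 → PS lv σ FF}, (∀ j, u j ∈ U.EE lv) →
      ∀ β, Ent (U.s β : Set FF) (co β (lg (u 0) + lg (u 1) - lg (u 2) - lg (u 3))) :=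
    fun hu β => by
      rw [co_sub, co_sub, co_add]
      exact (((Sc.mem_EE.1 (hu 0) β).add (Sc.mem_EE.1 (hu 1) β)).sub (Sc.mem_EE.1 (hu 2) β)).sub
        (Sc.mem_EE.1 (hu 3) β)
  refine ⟨_, sm fun j => (he j).1, _, sm fun j => (hc j).1, se fun j => (he j).2,
    se fun j => (hc j).2, ?_⟩
  have h5 : ∀ {u : Fin 4 → PS lv σ FF}, uu u ∈ h.PG → (∀ j, u j ∈ n.PG) →
      lg (u 0) + lg (u 1) - lg (u 2) - lg (u 3) ∈ pm (n.mm h).r := fun {u} a b β => by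
    have := a β
    rw [co_lg_uu] at this
    rw [co_sub, co_sub, co_add]
    exact n.sg_mem_mm this fun j => b j β
  convert add_mem (add_mem (sub_mem (sub_mem (h5 h3 m4) (h4 0)) (h4 1)) (h4 2)) (h4 3) using 1
  noncomm_ring

/-- Steps three and four. -/
theorem core2 (L : Lg A) (hST : Sep S T) (g0 : g.r 0 = ⊥) (hr : r ≤ g) (i : r.Ide n)
    {y : PS lv σ FF} (hy : y ∈ r.PG) {p₀ p : A → Prop}
    (m1 : ∀ k, (L.D1 fun a => p₀ a ∧ Fac S T g r (x a) ∧ Fac S T g k (x a)) → r ≤ k)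
    (m2 : ∀ n' y', r.Ide n' → y' ∈ r.PG →
      (L.D1 fun a => p₀ a ∧ Rel S T g n y (x a) ∧ Rel S T g n' y' (x a)) → n ≤ n')
    (hp : ∀ a, p a → p₀ a ∧ Rel S T g n y (x a)) {ξ : Matrix ι ι FF →ₗ[FF] FF} {β₀ : σ →₀ ℕ}
    {h₀ : Fam K (lv4 lv) (σ →₀ ℕ)} (kill : ∀ Z ∈ h₀.r β₀, ξ (sg Z) = 0) {P : (Fin 4 → A) → Prop}
    (d : L.D4 fun t => P t ∧ (∀ j, p (t j)) ∧ Fac S T g.p4 h₀ (uu fun j => x (t j))) :
    ∃ m : Fam K lv (σ →₀ ℕ), ∃ B ∈ pm n.r, r.Ide m ∧ m ≤ n ∧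
      (∀ a b, ∀ X ∈ n.r a, ∀ Y ∈ n.r b, X * Y - Y * X ∈ m.r (a + b)) ∧ (∀ X ∈ m.r β₀, ξ X = 0) ∧
      L.D4 fun t => P t ∧ (∀ j, p (t j)) ∧ ∀ z : Fin 4 → PS lv σ FF, (∀ j, z j ∈ n.PG) →
        (∀ j, Dc S T g (y * z j) (x (t j))) → QuadL S T n m y B z := by
  have r0 : r.r 0 = ⊥ := le_bot_iff.1 (g0 ▸ hr 0)
  have f0 : i.f4.r 0 = ⊥ := le_bot_iff.1 (p4_zero r0 ▸ i.f4_le 0)
  set h := i.f4.inf h₀ with hh
  have hf : h ≤ i.f4 := Fam.inf_le_left _ _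
  have fac : ∀ (t : Fin 4 → A) (z : Fin 4 → PS lv σ FF), (∀ j, z j ∈ n.PG) →
      (∀ j, Dc S T g (y * z j) (x (t j))) → Fac S T g.p4 h₀ (uu fun j => x (t j)) →
      Fac S T i.f4 h (uu fun j => y * z j) := fun t z hz hd a =>
    (((Dc.uu hd).symm.fac a).shrink hST (p4_zero g0) (i.uu_mem_f4 hy hz)).inf_self
  have hz : ∀ a, ∃ z ∈ n.PG, p a → Dc S T g (y * z) (x a) := fun a => by
    by_cases ha : p a
    · obtain ⟨z, hz, h⟩ := rel_iff.1 (hp a ha).2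
      exact ⟨z, hz, fun _ => h⟩
    · exact ⟨1, one_mem _, fun h => absurd h ha⟩
  choose z hz hd using hz
  have fac' : ∀ t : Fin 4 → A, (∀ j, p (t j)) → Fac S T g.p4 h₀ (uu fun j => x (t j)) →
      Fac S T i.f4 h (uu fun j => y * z (t j)) := fun t ht =>
    fac t _ (fun j => hz _) fun j => hd _ (ht j)
  let ρ := slH i.f4_le 0
  have ρr : ρ.img i.f4 ≤ r := by
    rintro β _ ⟨Z, hZ, rfl⟩
    obtain ⟨Y, hY, rfl⟩ := mem_p4 (i.f4_le β hZ.1)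
    exact (sl_qq Y 0).symm ▸ hY 0
  have on0 : r ≤ ρ.img h := by
    obtain ⟨b, c, d1⟩ := L.fib d 2 (Or.inl rfl)
    refine m1 _ (L.mono1 d1 ?_)
    rintro _ ⟨t, ⟨-, ht, a⟩, rfl, -⟩
    have h1 := ρ.fac_img ⟨_, i.uu_mem_f4 hy fun j => hz (t j)⟩ (fac' t ht a)
    rw [slH_G] at h1
    exact ⟨(hp _ (ht 0)).1, (hp _ (ht 0)).2.facr hr i hy,
      (hd _ (ht 0)).fac (h1.mono (ρr.trans hr) le_rfl)⟩
  have on : ∀ β, ∀ Y ∈ r.r β, ∃ H : Fin 4 → Matrix ι ι FF, qq H ∈ h.r β ∧ H 0 = Y :=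
    fun β Y hY => by
      obtain ⟨Z, h1, h2, rfl⟩ := Hom.mem_img.1 (on0 β hY)
      obtain ⟨H, -, rfl⟩ := mem_p4 (i.f4_le β h1)
      exact ⟨H, h2, (sl_qq H 0).symm⟩
  have rρ : ρ.img i.f4 = r := le_antisymm ρr (on0.trans (ρ.img_le h))
  have claim : ∀ k : Fin 4, k = 2 ∨ k = 3 → ∀ β, ∀ X ∈ n.r β, ∃ H : Fin 4 → Matrix ι ι FF,
      qq H ∈ h.r β ∧ H 0 = X ∧ H 1 = 0 ∧ H k = 0 := fun k hk => by
    obtain ⟨b, c, d1⟩ := L.fib d k hk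
    let π := (slH i.f4_le 1).pair (slH i.f4_le k)
    have onto : ρ.img i.f4 ≤ ρ.img h := ρr.trans on0
    have id : r.Ide (ρ.img (h.inf π.ker)) := by
      have := ρ.img_ide π.ker_ide onto
      rwa [rρ] at this
    obtain ⟨_, t₀, ⟨-, ht₀, a₀⟩, -, e1, e2⟩ := L.ne1 d1
    have le := m2 _ (y * z (t₀ 0)) id (mul_mem hy (Fam.PG_mono i.le (hz _))) (L.mono1 d1 (by
      rintro _ ⟨t, ⟨-, ht, a⟩, rfl, e3, e4⟩
      refine ⟨(hp _ (ht 0)).1, (hp _ (ht 0)).2, Rel.dc ?_ (hd _ (ht 0))⟩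
      have := π.goursat ρ hST f0 onto (z := ⟨_, i.uu_mem_f4 hy fun j => hz (t₀ j)⟩)
        (z' := ⟨_, i.uu_mem_f4 hy fun j => hz (t j)⟩) (fac' t₀ ht₀ a₀) (fac' t ht a) (by
          rw [Hom.pair_G, Hom.pair_G, slH_G, slH_G, slH_G, slH_G, e1, e2, e3, e4])
      rw [slH_G, slH_G, rρ] at this
      exact Rel.mono this hr le_rfl))
    intro β X hX
    obtain ⟨Z, h1, h2, rfl⟩ := Hom.mem_img.1 (le β hX)
    obtain ⟨H, -, rfl⟩ := mem_p4 (i.f4_le β h1)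
    have h3 := (Hom.mem_ker.1 h2.2).2
    rw [Hom.pair_l, ← dg_zero, dg_inj] at h3
    exact ⟨H, h2.1, (sl_qq H 0).symm, (sl_qq H 1).symm.trans h3.1, (sl_qq H k).symm.trans h3.2⟩
  obtain ⟨_, _, d1⟩ := L.fib d 2 (Or.inl rfl)
  obtain ⟨_, t₀, ⟨-, ht₀, a₀⟩, -⟩ := L.ne1 d1
  obtain ⟨e₀, c₀, he₀, hc₀, h₁⟩ := core3 i hf on (fac' t₀ ht₀ a₀)
  have hb := fun j => mul_mem (mul_mem (inv_mem (i.conj' hy (he₀ j).1)) (hz (t₀ j)))
    (inv_mem (hc₀ j).1)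
  refine ⟨n.mm h, _, sub_mem (sub_mem (add_mem (hb 0) (hb 1)) (hb 2)) (hb 3), i.mm hf on,
    n.mm_le h, fun a b X hX Y hY => n.br_mem_mm h hX hY,
    Fam.mm_ind (P := LinearMap.ker ξ) ?_ ?_, L.mono4 d ?_⟩
  · rintro a b e X hX Y hY
    obtain ⟨H, h1, rfl, h2, h3⟩ := claim 2 (Or.inl rfl) a X hX
    obtain ⟨H', h4, rfl, h5, h6⟩ := claim 3 (Or.inr rfl) b Y hY
    have h7 := h.br a b _ h1 _ h4
    rw [qq_br, e] at h7
    have h8 := kill _ h7.2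
    rw [sg_qq, h2, h3, h6] at h8
    simpa using h8
  · intro H h1 _
    have h8 := kill _ h1.2
    rwa [sg_qq] at h8
  · rintro t ⟨hP, ht, a⟩
    refine ⟨hP, ht, fun w hw hd' => ?_⟩
    obtain ⟨e, c, he, hc, h₂⟩ := core3 i hf on (fac t w hw hd' a)
    exact core4 i hy (b := fun j => (y⁻¹ * e₀ j * y)⁻¹ * z (t₀ j) * (c₀ j)⁻¹) hb hw he hc h₁ h₂

end Pool.Agent.P.MP_a14ce1_nt.Nil
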