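import Mathlib

/-! Mahler basis lemma: for any norm on a lattice there is an almost orthogonal basis. -/

namespace Pool.Agent.P.MP_a14ce1_nt.Nil

open Finset Module

/-- every nonzero integer vector is a multiple of the first row of a unimodular matrix -/
theorem exists_unimod {n : ℕ} (w : Fin (n + 1) → ℤ) (hw : w ≠ 0) :
    ∃ (B : Matrix (Fin (n + 1)) (Fin (n + 1)) ℤ) (c : ℤ), IsUnit B.det ∧ c ≠ 0 ∧ w = c • B 0 := by
  classical
  obtain ⟨m, snf⟩ := (Submodule.span ℤ {w}).smithNormalForm (Pi.basisFun ℤ (Fin (n + 1)))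
  have hm : m ≠ 0 := by
    rintro rfl
    apply hw
    apply snf.bM.repr.injective
    ext i
    simpa using snf.repr_eq_zero_of_notMem_range ⟨w, Submodule.mem_span_singleton_self w⟩
      (i := i) (by simp)
  obtain ⟨i⟩ : Nonempty (Fin m) := ⟨⟨0, Nat.pos_of_ne_zero hm⟩⟩
  obtain ⟨c, hc⟩ := Submodule.mem_span_singleton.mp (snf.bN i).2
  have hc0 : c ≠ 0 := by
    rintro rfl
    apply snf.bN.ne_zero i
    ext1
    simpa using hc.symm
  have h2 : ∀ j, j ≠ snf.f i → snf.bM.repr w j = 0 := by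
    intro j hj
    have h3 := congrArg (fun x => snf.bM.repr x j) (hc.trans (snf.snf i))
    simp only [map_smul, Finsupp.smul_apply, smul_eq_mul, Basis.repr_self,
      Finsupp.single_apply, if_neg hj.symm, mul_zero] at h3
    exact (mul_eq_zero.mp h3).resolve_left hc0
  have h4 : w = snf.bM.repr w (snf.f i) • snf.bM (snf.f i) := by
    conv_lhs => rw [← snf.bM.sum_repr w]
    rw [Finset.sum_eq_single (snf.f i)]
    · intro j _ hj
      rw [h2 j hj, zero_smul]
    · simp
  refine ⟨Matrix.of (snf.bM.reindex (Equiv.swap (snf.f i) 0)), snf.bM.repr w (snf.f i), ?_, ?_, ?_⟩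
  · rw [← Pi.basisFun_det_apply]
    exact Basis.isUnit_det _ _
  · intro h
    apply hw
    rw [h4, h, zero_smul]
  · conv_lhs => rw [h4]
    congr 1
    ext j
    simp

section

variable {V : Type*} [AddCommGroup V] [Module ℝ V]

/-- integer combination -/
def ic {n : ℕ} (b : Fin n → V) (x : Fin n → ℤ) : V := ∑ j, (x j : ℝ) • b j

theorem ic_smul {n : ℕ} (b : Fin n → V) (c : ℤ) (x : Fin n → ℤ) :
    ic b (c • x) = (c : ℝ) • ic b x := by
  simp [ic, Finset.smul_sum, mul_smul]

theorem ic_mul {n : ℕ} (b : Fin n → V) (B : Matrix (Fin n) (Fin n) ℤ) (x : Fin n → ℤ) :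
    ic (fun i => ic b (B i)) x = ic b (Matrix.vecMul x B) := by
  simp only [ic, Finset.smul_sum, Matrix.vecMul, dotProduct, Int.cast_sum, Int.cast_mul,
    Finset.sum_smul, mul_smul]
  exact Finset.sum_comm

theorem ic_cons {n : ℕ} (b : Fin (n + 1) → V) (t : ℤ) (x : Fin n → ℤ) :
    ic b (Fin.cons t x) = (t : ℝ) • b 0 + ic (fun i => b i.succ) x := by
  simp [ic, Fin.sum_univ_succ]

/-- quotient seminorm along `u` -/
noncomputable def qN (N : Seminorm ℝ V) (u : V) : Seminorm ℝ V :=
  Seminorm.of (fun x => ⨅ t : ℝ, N (t • u + x))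
    (by
      intro x y
      have hb : ∀ z : V, BddBelow (Set.range fun t : ℝ => N (t • u + z)) := fun z =>
        ⟨0, by rintro _ ⟨t, rfl⟩; exact apply_nonneg _ _⟩
      refine le_ciInf_add_ciInf fun s t => ?_
      refine (ciInf_le (hb _) (s + t)).trans ?_
      have : (s + t) • u + (x + y) = (s • u + x) + (t • u + y) := by rw [add_smul]; abel
      rw [this]
      exact map_add_le_add _ _ _)
    (by
      intro a x
      have hb : ∀ z : V, BddBelow (Set.range fun t : ℝ => N (t • u + z)) := fun z =>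
        ⟨0, by rintro _ ⟨t, rfl⟩; exact apply_nonneg _ _⟩
      rcases eq_or_ne a 0 with rfl | ha
      · apply le_antisymm
        · refine (ciInf_le (hb _) 0).trans ?_
          simp
        · simp only [norm_zero, zero_mul]
          exact le_ciInf fun t => apply_nonneg _ _
      · rw [Real.mul_iInf_of_nonneg (norm_nonneg a)]
        apply le_antisymm
        · refine le_ciInf fun t => (ciInf_le (hb _) (a * t)).trans ?_
          rw [mul_smul, ← smul_add, map_smul_eq_mul]
        · refine le_ciInf fun t => ?_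
          have hb2 : BddBelow (Set.range fun t : ℝ => ‖a‖ * N (t • u + x)) :=
            ⟨0, by rintro _ ⟨t, rfl⟩; exact mul_nonneg (norm_nonneg _) (apply_nonneg _ _)⟩
          refine (ciInf_le hb2 (t / a)).trans ?_
          rw [← map_smul_eq_mul, smul_add, smul_smul, mul_div_cancel₀ _ ha])

theorem qN_le (N : Seminorm ℝ V) (u x : V) (t : ℝ) : qN N u x ≤ N (t • u + x) :=
  ciInf_le (f := fun t : ℝ => N (t • u + x)) ⟨0, by rintro _ ⟨t, rfl⟩; exact apply_nonneg _ _⟩ t

theorem le_qN (N : Seminorm ℝ V) (u x : V) {c : ℝ} (h : ∀ t : ℝ, c ≤ N (t • u + x)) :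
    c ≤ qN N u x := le_ciInf h

theorem exists_lt_qN (N : Seminorm ℝ V) (u x : V) {c : ℝ} (h : qN N u x < c) :
    ∃ t : ℝ, N (t • u + x) < c := exists_lt_of_ciInf_lt h

theorem mahler_aux (n : ℕ) (N : Seminorm ℝ V) (b : Fin n → V)
    (hd : ∃ δ : ℝ, 0 < δ ∧ ∀ x : Fin n → ℤ, x ≠ 0 → δ ≤ N (ic b x)) :
    ∃ U : Matrix (Fin n) (Fin n) ℤ, IsUnit U.det ∧ ∀ k : Fin n → ℝ,
      ∑ i, |k i| * N (ic b (U i)) ≤ 17 ^ n * N (∑ i, k i • ic b (U i)) := by
  classical
  induction n generalizing N with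
  | zero => exact ⟨1, by simp, fun k => by simp⟩
  | succ n ih =>
    obtain ⟨δ, hδ, hd⟩ := hd
    -- an almost shortest vector
    have hne : Nonempty {x : Fin (n + 1) → ℤ // x ≠ 0} :=
      ⟨⟨fun _ => 1, fun h => by simpa using congrFun h 0⟩⟩
    set lam : ℝ := ⨅ x : {x : Fin (n + 1) → ℤ // x ≠ 0}, N (ic b x.1) with hlam
    have hl1 : δ ≤ lam := le_ciInf fun x => hd x.1 x.2
    have hl2 : ∀ x : Fin (n + 1) → ℤ, x ≠ 0 → lam ≤ N (ic b x) := fun x hx =>
      ciInf_le (f := fun x : {x : Fin (n + 1) → ℤ // x ≠ 0} => N (ic b x.1))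
        ⟨0, by rintro _ ⟨t, rfl⟩; exact apply_nonneg _ _⟩ ⟨x, hx⟩
    obtain ⟨⟨w, hw⟩, hw2⟩ : ∃ x : {x : Fin (n + 1) → ℤ // x ≠ 0}, N (ic b x.1) < 3 / 2 * lam :=
      exists_lt_of_ciInf_lt (by rw [← hlam]; linarith)
    obtain ⟨B, c, hB, hc, hwc⟩ := exists_unimod w hw
    set e : Fin (n + 1) → V := fun i => ic b (B i) with he
    have he0 : N (e 0) ≤ 3 / 2 * lam := by
      have h1 : N (ic b w) = |(c : ℝ)| * N (e 0) := by
        rw [hwc, ic_smul, map_smul_eq_mul, Real.norm_eq_abs]
      have h2 : (1 : ℝ) ≤ |(c : ℝ)| := by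
        rw [← Int.cast_abs]; exact_mod_cast Int.one_le_abs hc
      have h3 := apply_nonneg N (e 0)
      simp only at hw2
      nlinarith
    have hl3 : ∀ x : Fin (n + 1) → ℤ, x ≠ 0 → lam ≤ N (ic e x) := by
      intro x hx
      rw [he, ic_mul]
      refine hl2 _ fun h => hx ?_
      exact Matrix.eq_zero_of_vecMul_eq_zero hB.ne_zero h
    have key : ∀ (y : Fin n → ℤ), y ≠ 0 → ∀ t : ℝ,
        N (ic e (Fin.cons (round t) y)) ≤ 4 * N (t • e 0 + ic (fun i => e i.succ) y) := by
      intro y hy t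
      have h1 : lam ≤ N (ic e (Fin.cons (round t) y)) := by
        refine hl3 _ fun h => hy ?_
        ext i
        simpa using congrFun h i.succ
      have h2 : ic e (Fin.cons (round t) y) =
          (t • e 0 + ic (fun i => e i.succ) y) + (-(t - round t)) • e 0 := by
        rw [ic_cons, neg_sub, sub_smul]; abel
      have h3 : N (ic e (Fin.cons (round t) y)) ≤
          N (t • e 0 + ic (fun i => e i.succ) y) + |t - round t| * N (e 0) := by
        rw [h2]
        refine (map_add_le_add _ _ _).trans ?_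
        rw [map_smul_eq_mul, Real.norm_eq_abs, abs_neg]
      have h4 := abs_sub_round t
      have h5 := apply_nonneg N (e 0)
      have h6 : |t - round t| * N (e 0) ≤ 1 / 2 * N (e 0) := mul_le_mul_of_nonneg_right h4 h5
      linarith
    have hq : ∀ (y : Fin n → ℤ), y ≠ 0 → lam / 4 ≤ qN N (e 0) (ic (fun i => e i.succ) y) := by
      intro y hy
      refine le_qN _ _ _ fun t => ?_
      have h1 : lam ≤ N (ic e (Fin.cons (round t) y)) := by
        refine hl3 _ fun h => hy ?_
        ext i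
        simpa using congrFun h i.succ
      have := key y hy t
      linarith
    obtain ⟨U, hU, hk⟩ := ih (qN N (e 0)) (fun i => e i.succ) ⟨lam / 4, by linarith, hq⟩
    have hU0 : ∀ i, U i ≠ 0 := by
      intro i h
      exact hU.ne_zero (Matrix.det_eq_zero_of_row_eq_zero i fun j => congrFun h j)
    have hlift : ∀ i, ∃ t : ℤ, N (ic e (Fin.cons t (U i))) ≤
        8 * qN N (e 0) (ic (fun i => e i.succ) (U i)) := by
      intro i
      have h1 := hq _ (hU0 i)
      obtain ⟨t, ht⟩ := exists_lt_qN N (e 0) (ic (fun i => e i.succ) (U i))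
        (c := 2 * qN N (e 0) (ic (fun i => e i.succ) (U i))) (by linarith)
      refine ⟨round t, (key _ (hU0 i) t).trans ?_⟩
      linarith
    choose t ht using hlift
    set U2 : Matrix (Fin (n + 1)) (Fin (n + 1)) ℤ :=
      Matrix.of (Fin.cons (Fin.cons 1 0) fun i => Fin.cons (t i) (U i)) with hU2
    have hU2d : U2.det = U.det := by
      rw [Matrix.det_succ_row_zero, Fin.sum_univ_succ]
      simp only [hU2, Matrix.of_apply, Fin.cons_zero, Fin.cons_succ, Pi.zero_apply, mul_zero,
        zero_mul, Finset.sum_const_zero, add_zero, Fin.val_zero, pow_zero, mul_one, one_mul,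
        Fin.succAbove_zero]
      congr 1
    have hrow : ∀ i, ic b ((U2 * B) i) = ic e (U2 i) := by
      intro i
      rw [he, ic_mul]
      rfl
    refine ⟨U2 * B, by rw [Matrix.det_mul, hU2d]; exact hU.mul hB, fun k => ?_⟩
    simp only [hrow]
    have r0 : ic e (U2 0) = e 0 := by
      have : U2 0 = Fin.cons 1 0 := rfl
      rw [this, ic_cons]
      simp [ic]
    have rs : ∀ i, ic e (U2 i.succ) = ic e (Fin.cons (t i) (U i)) := fun i => rfl
    rw [Fin.sum_univ_succ, Fin.sum_univ_succ, r0]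
    simp only [rs]
    set X := k 0 • e 0 + ∑ i : Fin n, k i.succ • ic e (Fin.cons (t i) (U i)) with hX
    have h1 : qN N (e 0) (∑ i, k i.succ • ic (fun i => e i.succ) (U i)) ≤ N X := by
      refine (qN_le _ _ _ (k 0 + ∑ i : Fin n, k i.succ * t i)).trans (le_of_eq ?_)
      congr 1
      rw [hX]
      simp only [ic_cons, smul_add, Finset.sum_add_distrib, add_smul, Finset.sum_smul, mul_smul]
      abel
    have h2 := hk fun i => k i.succ
    have h3 : ∑ i : Fin n, |k i.succ| * N (ic e (Fin.cons (t i) (U i))) ≤ 8 * (17 ^ n * N X) := by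
      calc _ ≤ ∑ i : Fin n, 8 * (|k i.succ| * qN N (e 0) (ic (fun i => e i.succ) (U i))) := by
            refine Finset.sum_le_sum fun i _ => ?_
            have := mul_le_mul_of_nonneg_left (ht i) (abs_nonneg (k i.succ))
            linarith
        _ ≤ _ := by
            rw [← Finset.mul_sum]
            have : (17 : ℝ) ^ n * qN N (e 0) (∑ i, k i.succ • ic (fun i => e i.succ) (U i)) ≤
                17 ^ n * N X := mul_le_mul_of_nonneg_left h1 (by positivity)
            linarith
    have h4 : |k 0| * N (e 0) ≤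
        N X + ∑ i : Fin n, |k i.succ| * N (ic e (Fin.cons (t i) (U i))) := by
      have h5 : k 0 • e 0 = X - ∑ i : Fin n, k i.succ • ic e (Fin.cons (t i) (U i)) := by
        rw [hX]; abel
      have h6 : N (k 0 • e 0) = |k 0| * N (e 0) := by rw [map_smul_eq_mul, Real.norm_eq_abs]
      rw [← h6, h5]
      refine (map_sub_le_add _ _ _).trans (add_le_add le_rfl ?_)
      refine (Finset.le_sum_of_subadditive N (map_zero N).le (map_add_le_add N) _ _).trans ?_
      refine Finset.sum_le_sum fun i _ => ?_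
      rw [map_smul_eq_mul, Real.norm_eq_abs]
    have h7 : N X ≤ 17 ^ n * N X :=
      le_mul_of_one_le_left (apply_nonneg _ _) (one_le_pow₀ (by norm_num))
    rw [pow_succ]
    linarith

end

/-- MAHLER, seminorm that is discrete on the integer points. The rows of `U` are the basis,
the columns of `W` the dual basis. -/
theorem mahler_of_discrete {ι : Type*} [Fintype ι] [DecidableEq ι] (N : Seminorm ℝ (ι → ℝ))
    (hd : ∃ δ : ℝ, 0 < δ ∧ ∀ x : ι → ℤ, x ≠ 0 → δ ≤ N (fun j => (x j : ℝ))) :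
    ∃ U W : Matrix ι ι ℤ, U * W = 1 ∧ W * U = 1 ∧ ∀ k : ι → ℝ,
      ∑ i, |k i| * N (fun j => (U i j : ℝ)) ≤
        17 ^ Fintype.card ι * N (fun j => ∑ i, k i * (U i j : ℝ)) := by
  classical
  set n := Fintype.card ι
  set e : Fin n ≃ ι := (Fintype.equivFin ι).symm
  have hic : ∀ x : Fin n → ℤ, ic (fun i => (Pi.single (e i) (1 : ℝ) : ι → ℝ)) x =
      fun j => (x (e.symm j) : ℝ) := by
    intro x
    ext j
    simp only [ic, Finset.sum_apply, Pi.smul_apply, smul_eq_mul]
    rw [Finset.sum_eq_single (e.symm j)]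
    · simp
    · intro i _ hi
      rw [Pi.single_eq_of_ne, mul_zero]
      rintro rfl
      simp at hi
    · simp
  obtain ⟨δ, hδ, hd⟩ := hd
  obtain ⟨U, hU, hk⟩ := mahler_aux n N (fun i => (Pi.single (e i) (1 : ℝ) : ι → ℝ))
    ⟨δ, hδ, fun x hx => by
      rw [hic]
      refine hd (fun j => x (e.symm j)) fun h => hx ?_
      ext i
      simpa using congrFun h (e i)⟩
  have hU' : IsUnit (Matrix.reindex e e U).det := by rwa [Matrix.det_reindex_self]
  refine ⟨Matrix.reindex e e U, (Matrix.reindex e e U)⁻¹, Matrix.mul_nonsing_inv _ hU',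
    Matrix.nonsing_inv_mul _ hU', fun k => ?_⟩
  have h := hk fun i => k (e i)
  simp only [hic] at h
  rw [← e.sum_comp]
  simp only [Matrix.reindex_apply, Matrix.submatrix_apply, Equiv.symm_apply_apply]
  refine h.trans (le_of_eq ?_)
  congr 2
  ext j
  rw [← e.sum_comp]
  simp

/-- MAHLER for a norm. -/
theorem mahler {ι : Type*} [Fintype ι] [DecidableEq ι] (N : Seminorm ℝ (ι → ℝ))
    (hN : ∀ x, N x = 0 → x = 0) :
    ∃ U W : Matrix ι ι ℤ, U * W = 1 ∧ W * U = 1 ∧ ∀ k : ι → ℝ,
      ∑ i, |k i| * N (fun j => (U i j : ℝ)) ≤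
        17 ^ Fintype.card ι * N (fun j => ∑ i, k i * (U i j : ℝ)) := by
  apply mahler_of_discrete
  have hc : Continuous N := N.convexOn.locallyLipschitz.continuous
  by_cases h : (Metric.sphere (0 : ι → ℝ) 1).Nonempty
  · obtain ⟨z, hz, hmin⟩ := (isCompact_sphere (0 : ι → ℝ) 1).exists_isMinOn h hc.continuousOn
    have hz1 : ‖z‖ = 1 := by simpa using hz
    have hz0 : 0 < N z := by
      refine lt_of_le_of_ne (apply_nonneg _ _) fun h0 => ?_
      rw [hN z h0.symm] at hz1
      simp at hz1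
    refine ⟨N z, hz0, fun x hx => ?_⟩
    set y : ι → ℝ := fun j => (x j : ℝ) with hy
    have hy1 : 1 ≤ ‖y‖ := by
      obtain ⟨j, hj⟩ := Function.ne_iff.mp hx
      refine le_trans ?_ (norm_le_pi_norm y j)
      rw [hy, Real.norm_eq_abs, ← Int.cast_abs]
      exact_mod_cast Int.one_le_abs hj
    have hy0 : ‖y‖ ≠ 0 := by linarith
    have h1 : N z ≤ N (‖y‖⁻¹ • y) := hmin (by
      simp [norm_smul, hy0])
    rw [map_smul_eq_mul, norm_inv, norm_norm] at h1
    refine h1.trans (mul_le_of_le_one_left (apply_nonneg _ _) (inv_le_one_of_one_le₀ hy1))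
  · refine ⟨1, one_pos, fun x hx => (h ?_).elim⟩
    obtain ⟨j, -⟩ := Function.ne_iff.mp hx
    have : Nonempty ι := ⟨j⟩
    exact NormedSpace.sphere_nonempty.mpr zero_le_one

end Pool.Agent.P.MP_a14ce1_nt.Nil
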