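import Pool.Agent.P.MP_a14ce1_nt.Nil.ApproxHom
import Pool.Agent.P.MP_a14ce1_nt.Nil.Mahler

/-!
Approximate homomorphisms into a normed space modulo the integer lattice.
-/

namespace Pool.Agent.P.MP_a14ce1_nt.Nil

open Finset

/-- Rounding at unit scale: a lattice containing the integer points, uniformly discrete modulo
them. -/
theorem exists_round {J : Type} [Fintype J] [DecidableEq J] (M : Matrix J J ℝ)
    (hM : ∀ v, M.mulVec v = 0 → v = 0) :
    ∃ (L : J → ℕ) (κ ψ : (J → ℝ) →ₗ[ℝ] J → ℝ), (∀ v, ψ (κ v) = v) ∧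
      (∀ ρ : J → ℤ, ∃ s : J → ℤ, ∀ i, κ (fun j => (ρ j : ℝ)) i = L i * s i) ∧
      (∀ s : J → ℤ, ∃ ρ : J → ℤ, ψ (fun i => (L i : ℝ) * s i) = fun j => (ρ j : ℝ)) ∧
      (∀ v i, L i = 1 ∨ |κ v i| ≤ 2 * 17 ^ Fintype.card J * ‖M.mulVec v‖) ∧
      ∀ t : J → ℝ, (∀ i, |t i| ≤ 1) → ‖M.mulVec (ψ t)‖ ≤ Fintype.card J := by
  let ν : Seminorm ℝ (J → ℝ) := (normSeminorm ℝ (J → ℝ)).comp M.mulVecLin
  have hν : ∀ v, ν v = ‖M.mulVec v‖ := fun _ => rfl
  obtain ⟨U, W, hUW, hWU, h⟩ := mahler ν fun x hx => hM x (norm_eq_zero.1 hx)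
  let U' : Matrix J J ℝ := U.map (Int.castRingHom ℝ)
  let W' : Matrix J J ℝ := W.map (Int.castRingHom ℝ)
  have hWU' : W' * U' = 1 := by
    rw [← Matrix.map_mul, hWU, Matrix.map_one _ (map_zero _) (map_one _)]
  let L : J → ℕ := fun i => max 1 ⌈ν (U' i)⌉₊
  have hL : ∀ i, (0 : ℝ) < L i := fun i => Nat.cast_pos.2 (lt_max_of_lt_left one_pos)
  have hL' : ∀ i, ν (U' i) ≤ L i := fun i =>
    (Nat.le_ceil _).trans (Nat.cast_le.2 (le_max_right _ _))
  let κ : (J → ℝ) →ₗ[ℝ] J → ℝ := (W' * Matrix.diagonal fun i => (L i : ℝ)).vecMulLinear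
  let ψ : (J → ℝ) →ₗ[ℝ] J → ℝ := ((Matrix.diagonal fun i => (L i : ℝ)⁻¹) * U').vecMulLinear
  have hκ : ∀ v i, κ v i = L i * Matrix.vecMul v W' i := fun v i => by
    simp only [κ, Matrix.vecMulLinear_apply, ← Matrix.vecMul_vecMul, Matrix.vecMul_diagonal,
      mul_comm]
  have hψ : ∀ t, ψ t = Matrix.vecMul (fun i => t i * (L i : ℝ)⁻¹) U' := fun t => by
    simp only [ψ, Matrix.vecMulLinear_apply, ← Matrix.vecMul_vecMul]
    congr 1
    ext i
    rw [Matrix.vecMul_diagonal]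
  refine ⟨L, κ, ψ, fun v => ?_, fun ρ => ⟨Matrix.vecMul ρ W, fun i => ?_⟩,
    fun s => ⟨Matrix.vecMul s U, ?_⟩, fun v i => ?_, fun t ht => ?_⟩
  · have : (fun i => κ v i * (L i : ℝ)⁻¹) = Matrix.vecMul v W' := funext fun i => by
      rw [hκ, mul_comm, ← mul_assoc, inv_mul_cancel₀ (hL i).ne', one_mul]
    rw [hψ, this, Matrix.vecMul_vecMul, hWU', Matrix.vecMul_one]
  · rw [hκ]
    simp [W', Matrix.vecMul, dotProduct]
  · have : (fun i => (L i : ℝ) * s i * (L i : ℝ)⁻¹) = fun i => (s i : ℝ) := funext fun i => by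
      rw [mul_right_comm, mul_inv_cancel₀ (hL i).ne', one_mul]
    rw [hψ, this]
    ext j
    simp [U', Matrix.vecMul, dotProduct]
  · by_cases h1 : ν (U' i) ≤ 1
    · exact Or.inl (max_eq_left (Nat.ceil_le.2 (by simpa using h1)))
    refine Or.inr ?_
    have h2 : (L i : ℝ) ≤ 2 * ν (U' i) := by
      have h3 := Nat.ceil_lt_add_one (apply_nonneg ν (U' i))
      simp only [L, Nat.cast_max, Nat.cast_one]
      refine max_le ?_ ?_ <;> linarith [not_le.1 h1]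
    have h4 := h (Matrix.vecMul v W')
    have h5 : (fun j => ∑ i, Matrix.vecMul v W' i * (U i j : ℝ)) = v := by
      change Matrix.vecMul (Matrix.vecMul v W') U' = v
      rw [Matrix.vecMul_vecMul, hWU', Matrix.vecMul_one]
    rw [h5] at h4
    have h6 := (single_le_sum (f := fun i => |Matrix.vecMul v W' i| * ν fun j => (U i j : ℝ))
      (fun i _ => mul_nonneg (abs_nonneg _) (apply_nonneg _ _)) (mem_univ i)).trans h4
    rw [hκ, abs_mul, abs_of_pos (hL i), ← hν, mul_assoc]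
    calc _ ≤ 2 * ν (U' i) * |Matrix.vecMul v W' i| := by gcongr
      _ = 2 * (|Matrix.vecMul v W' i| * ν (U' i)) := by ring
      _ ≤ _ := mul_le_mul_of_nonneg_left h6 zero_le_two
  · rw [← hν, hψ, Matrix.vecMul_eq_sum]
    refine (le_sum_of_subadditive ν (map_zero ν).le (map_add_le_add ν) _ _).trans ?_
    rw [← card_univ, card_eq_sum_ones, Nat.cast_sum]
    simp only [Nat.cast_one]
    refine sum_le_sum fun i _ => ?_
    rw [map_smul_eq_mul, Real.norm_eq_abs, abs_mul, abs_inv, abs_of_pos (hL i), mul_assoc]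
    refine mul_le_one₀ (ht i) (mul_nonneg (inv_pos.2 (hL i)).le (apply_nonneg _ _)) ?_
    rw [inv_mul_le_iff₀ (hL i), mul_one]
    exact hL' i

open Classical in
/-- APPROX-HOM with values in a normed space modulo the integer points. -/
theorem approxHomR (J : Type) [Fintype J] [DecidableEq J] {d : ℝ} (hd : 0 < d) (C : ℕ) :
    ∃ (D : ℕ) (c : ℝ), 0 < c ∧ ∀ (N : ℕ), 1 ≤ N → ∀ (M : Matrix J J ℝ),
      (∀ v, M.mulVec v = 0 → v = 0) → ∀ (H : Finset ℤ) (Z : ℤ → J → ℝ) (B : J → ℝ)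
      (T : Finset (ℤ × ℤ × ℤ)), H ⊆ Icc (-(N : ℤ)) N → d * (N : ℝ) ^ 3 ≤ T.card →
      (∀ x ∈ T, (x.1 ∈ H ∧ x.2.1 ∈ H ∧ x.2.2 ∈ H ∧ x.1 + x.2.1 - x.2.2 ∈ H) ∧
        ∃ ρ : J → ℤ, ∀ j, |M.mulVec (Z x.1 + Z x.2.1 - Z x.2.2 - Z (x.1 + x.2.1 - x.2.2) - B
          - fun j => (ρ j : ℝ)) j| ≤ C) →
      ∃ (θ : Fin D → ℝ) (h₀ : ℤ) (a₀ b₀ : J → ℝ) (b : Fin D → J → ℝ) (H' : Finset ℤ),
        H' ⊆ H ∧ c * N ≤ H'.card ∧ ∀ h ∈ H', ∃ (m : Fin D → ℤ) (ρ : J → ℤ),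
          (∀ j, |θ j * ((h - h₀ : ℤ) : ℝ) - m j| ≤ 1) ∧
          ∀ j, |M.mulVec (Z h - (a₀ + ((h - h₀ : ℤ) : ℝ) • b₀ + ∑ l, (m l : ℝ) • b l)
            - fun j => (ρ j : ℝ)) j| ≤ Fintype.card J := by
  set E : ℕ := 3 + 2 * 17 ^ Fintype.card J * C with hE
  set P : Finset (J → ℤ) := Fintype.piFinset fun _ => Icc (-(E : ℤ)) E with hP
  have hP0 : P.Nonempty := ⟨0, by simp [hP]⟩
  have hPc : (0 : ℝ) < P.card := Nat.cast_pos.2 hP0.card_pos
  obtain ⟨D, c, hc, hA⟩ := approxHom (d := d / P.card) (by positivity)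
  refine ⟨D, c, hc, fun N hN M hM H Z B T hH hT hq => ?_⟩
  obtain ⟨L, κ, ψ, h1, h2, h3, h4, h5⟩ := exists_round M hM
  let π : (J → ℤ) →+ ∀ i, ZMod (L i) :=
    { toFun := fun x i => x i
      map_zero' := by ext i; simp
      map_add' := fun x y => by ext i; simp }
  let r : (J → ℝ) → J → ℤ := fun v i => round (κ v i)
  have hr : ∀ v i, |κ v i - r v i| ≤ 1 / 2 := fun v i => abs_sub_round _
  have h6 : ∀ x : ℤ × ℤ × ℤ, ∃ e, x ∈ T → e ∈ P ∧ π (r (Z x.1)) + π (r (Z x.2.1))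
      - π (r (Z x.2.2)) - π (r (Z (x.1 + x.2.1 - x.2.2))) = π (r B + e) := fun x => by
    by_cases hx : x ∈ T
    swap
    · exact ⟨0, fun h => absurd h hx⟩
    obtain ⟨ρ, hρ⟩ := (hq x hx).2
    obtain ⟨s, hs⟩ := h2 ρ
    refine ⟨fun i => if L i = 1 then 0 else r (Z x.1) i + r (Z x.2.1) i - r (Z x.2.2) i
      - r (Z (x.1 + x.2.1 - x.2.2)) i - r B i - L i * s i, fun _ => ⟨?_, ?_⟩⟩
    · refine Fintype.mem_piFinset.2 fun i => ?_
      split_ifs with hi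
      · simp
      have k1 := ((h4 _ i).resolve_left hi).trans (mul_le_mul_of_nonneg_left
        ((pi_norm_le_iff_of_nonneg (Nat.cast_nonneg C)).2 hρ) (by positivity))
      simp only [map_sub, map_add, Pi.sub_apply, Pi.add_apply, hs] at k1
      rw [mem_Icc, ← abs_le, ← Int.cast_le (R := ℝ), hE]
      push_cast
      have k2 := abs_le.1 (hr (Z x.1) i)
      have k3 := abs_le.1 (hr (Z x.2.1) i)
      have k4 := abs_le.1 (hr (Z x.2.2) i)
      have k5 := abs_le.1 (hr (Z (x.1 + x.2.1 - x.2.2)) i)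
      have k6 := abs_le.1 (hr B i)
      have k7 := abs_le.1 k1
      rw [abs_le]
      constructor <;> linarith
    · ext i
      by_cases hi : L i = 1
      · exact (ZMod.subsingleton_iff.2 hi).elim _ _
      · simp [π, hi]
  choose e he using h6
  obtain ⟨e₀, -, h7⟩ := exists_le_card_fiber_of_nsmul_le_card_of_maps_to (M := ℝ) (s := T)
    (t := P) (f := e) (b := d / P.card * (N : ℝ) ^ 3) (fun x hx => (he x hx).1) hP0 (by
      rw [nsmul_eq_mul, ← mul_assoc, mul_div_cancel₀ _ hPc.ne']; exact hT)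
  obtain ⟨θ, h₀, Λ, m, H', h8, -, h9, h10⟩ := hA N hN _ H (fun h => π (r (Z h))) (π (r B + e₀)) hH
    (h7.trans (Nat.cast_le.2 (card_le_card_of_injOn
      (fun x => ((x.1, x.2.1), x.2.2, x.1 + x.2.1 - x.2.2)) (fun x hx => by
        obtain ⟨a1, a2⟩ := mem_filter.1 (mem_coe.1 hx)
        obtain ⟨b1, b2, b3, b4⟩ := (hq x a1).1
        simp only [mem_coe, mem_filter, mem_product]
        exact ⟨⟨⟨b1, b2⟩, b3, b4⟩, by ring, a2 ▸ (he x a1).2⟩)
      fun x _ y _ h => by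
        simp only [Prod.ext_iff] at h ⊢
        exact ⟨h.1.1, h.1.2, h.2.1⟩)))
  have hπ : ∀ a, ∃ x, π x = a := fun a => by
    choose x hx using fun i => ZMod.intCast_surjective (a i)
    exact ⟨x, funext hx⟩
  choose s hs using hπ
  let ι : (J → ℤ) → J → ℝ := fun x i => x i
  refine ⟨θ, h₀, ψ (ι (r (Z h₀))), ψ (ι (s (Λ (1, 0)))), fun l => ψ (ι (s (Λ (0, Pi.single l 1)))),
    H', h8, h9, fun h hh => ?_⟩
  obtain ⟨k1, k2⟩ := h10 h hh
  have k3 : π (r (Z h) - (r (Z h₀) + (h - h₀) • s (Λ (1, 0))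
      + ∑ l, m h l • s (Λ (0, Pi.single l 1)))) = 0 := by
    simp only [map_sub, map_add, map_zsmul, map_sum, hs]
    simp only [← map_zsmul, ← map_sum]
    rw [k2, add_assoc, ← map_add, sub_eq_zero]
    congr 2
    refine Prod.ext (by simp [Prod.fst_sum]) ?_
    ext l
    simp [Prod.snd_sum, Pi.single_apply]
  choose w hw using fun i => (ZMod.intCast_zmod_eq_zero_iff_dvd _ _).1 (congrFun k3 i)
  obtain ⟨ρ, hρ⟩ := h3 w
  refine ⟨m h, ρ, fun j => by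
    have := (k1 j).trans (by norm_num : (1 : ℝ) / 10 ≤ 1)
    exact_mod_cast this, fun j => ?_⟩
  have k4 : Z h - (ψ (ι (r (Z h₀))) + ((h - h₀ : ℤ) : ℝ) • ψ (ι (s (Λ (1, 0))))
      + ∑ l, (m h l : ℝ) • ψ (ι (s (Λ (0, Pi.single l 1))))) - (fun j => (ρ j : ℝ))
      = ψ (κ (Z h) - ι (r (Z h))) := by
    rw [← hρ, map_sub, h1, sub_sub]
    simp only [← map_smul, ← map_sum, ← map_add]
    congr 2
    ext i
    have := congrArg (Int.cast (R := ℝ)) (hw i)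
    simp only [Pi.sub_apply, Pi.add_apply, Pi.smul_apply, Finset.sum_apply, smul_eq_mul] at this ⊢
    push_cast at this ⊢
    simp only [ι]
    linarith
  rw [k4]
  exact (norm_le_pi_norm _ j).trans (h5 _ fun i => (hr _ i).trans (by norm_num))

end Pool.Agent.P.MP_a14ce1_nt.Nil
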