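import Pool.Agent.P.MP_a14ce1_nt.Nil.RatL
import Pool.Agent.P.MP_a14ce1_nt.Nil.Fejer

/-!
Real unipotent groups: the congruence lattices, cocompactness with a uniform bound and unit
nilcharacters.
-/

open Finset
open scoped Matrix.Norms.Operator

set_option linter.unusedSectionVars false

noncomputable section

namespace Pool.Agent.P.MP_a14ce1_nt.Nil

variable {ι : Type} [Fintype ι] [DecidableEq ι] {lv : ι → ℕ}

/-! ### Polynomial formulas and Lipschitz bounds -/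

/-- A bound for the nilpotency class. -/
def dd (lv : ι → ℕ) : ℕ := univ.sup lv + 1

theorem eq_zero_of_dd {R : Type} [CommRing R] [Algebra ℚ R] {X : Matrix ι ι R} {i : ℕ}
    (hi : dd lv ≤ i) (h : X ∈ mF R lv i) : X = 0 := Matrix.ext fun a b => by
  have := le_sup (f := lv) (mem_univ b)
  exact h a b (by unfold dd at hi; omega)

theorem pow_dd {R : Type} [CommRing R] [Algebra ℚ R] {X : Matrix ι ι R} (h : X ∈ mF R lv 1) :
    X ^ (dd lv + 1) = 0 := eq_zero_of_dd (Nat.le_succ _) ((filt_mF R lv).pow_mem h _)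

theorem val_eq_sum {R : Type} [CommRing R] [Algebra ℚ R] (x : UT lv R) :
    x.val = ∑ k ∈ range (dd lv + 1), (k.factorial : ℚ)⁻¹ • lg x ^ k := by
  rw [← exp_lg, IsNilpotent.exp_eq_sum (pow_dd (lg_mem x))]

theorem lg_eq_sum {R : Type} [CommRing R] [Algebra ℚ R] (x : UT lv R) :
    lg x = ∑ k ∈ range (dd lv), ((-1) ^ k / (k + 1) : ℚ) • (x.val - 1) ^ (k + 1) :=
  log_eq_sum (pow_dd x.up)

theorem lin_bd {N : Type} [NormedAddCommGroup N] [NormedSpace ℝ N] (f : Matrix ι ι ℝ →ₗ[ℝ] N) :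
    ∃ C, 1 ≤ C ∧ ∀ X, ‖f X‖ ≤ C * ‖X‖ := by
  obtain ⟨C, C0, hC⟩ := SemilinearMapClass.bound_of_continuous f f.continuous_of_finiteDimensional
  exact ⟨C + 1, by linarith, fun X => (hC X).trans (by gcongr; linarith)⟩

theorem norm_le_of_ent : ∃ C, 0 ≤ C ∧ ∀ (X : Matrix ι ι ℝ) (δ : ℝ), (∀ a b, |X a b| ≤ δ) →
    ‖X‖ ≤ C * δ := by
  refine ⟨∑ a : ι, ∑ b : ι, ‖Matrix.single a b (1 : ℝ)‖, by positivity, fun X δ h => ?_⟩
  have := lin_eq_sum (LinearMap.id : Matrix ι ι ℝ →ₗ[ℝ] Matrix ι ι ℝ) X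
  simp only [LinearMap.id_apply] at this
  rw [this, sum_mul]
  refine norm_sum_le_of_le _ fun a _ => ?_
  rw [sum_mul]
  refine norm_sum_le_of_le _ fun b _ => ?_
  rw [norm_smul, mul_comm, Real.norm_eq_abs]
  exact mul_le_mul_of_nonneg_left (h a b) (norm_nonneg _)

theorem lip_mul (lv : ι → ℕ) (R : ℝ) : ∃ C, 1 ≤ C ∧ ∀ x y x' y' : UT lv ℝ, ‖lg x‖ ≤ R →
    ‖lg y‖ ≤ R → ‖lg x'‖ ≤ R → ‖lg y'‖ ≤ R →
    ‖lg (x * y) - lg (x' * y')‖ ≤ C * (‖lg x - lg x'‖ + ‖lg y - lg y'‖) := by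
  let E : Matrix ι ι ℝ → Matrix ι ι ℝ := fun X =>
    ∑ k ∈ range (dd lv + 1), (k.factorial : ℚ)⁻¹ • X ^ k
  let Φ : Matrix ι ι ℝ × Matrix ι ι ℝ → Matrix ι ι ℝ := fun p =>
    ∑ k ∈ range (dd lv), ((-1) ^ k / (k + 1) : ℚ) • (E p.1 * E p.2 - 1) ^ (k + 1)
  have hE : ContDiff ℝ 1 E := ContDiff.sum fun k _ => (contDiff_id.pow k).const_smul _
  have hΦ : ContDiff ℝ 1 Φ := ContDiff.sum fun k _ =>
    ((((hE.comp contDiff_fst).mul (hE.comp contDiff_snd)).sub contDiff_const).pow _).const_smul _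
  obtain ⟨C, hC⟩ := hΦ.contDiffOn.exists_lipschitzOnWith one_ne_zero
    (convex_closedBall 0 R) (isCompact_closedBall 0 R)
  have e : ∀ x y : UT lv ℝ, lg (x * y) = Φ (lg x, lg y) := fun x y => by
    rw [lg_eq_sum, UT.mul_val, val_eq_sum x, val_eq_sum y]
  refine ⟨C + 1, by linarith [C.2], fun x y x' y' h1 h2 h3 h4 => ?_⟩
  have := hC.dist_le_mul (lg x, lg y) (by simpa [Prod.norm_def] using ⟨h1, h2⟩) (lg x', lg y')
    (by simpa [Prod.norm_def] using ⟨h3, h4⟩)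
  rw [e, e, ← dist_eq_norm]
  refine this.trans ?_
  rw [Prod.dist_eq, dist_eq_norm, dist_eq_norm]
  have := C.2
  gcongr
  · linarith
  · exact max_le (le_add_of_nonneg_right (norm_nonneg _)) (le_add_of_nonneg_left (norm_nonneg _))

/-! ### Integral matrices and the lattices -/

/-- Matrices with integer entries. -/
def IM (ι : Type) [Fintype ι] [DecidableEq ι] : Subring (Matrix ι ι ℝ) :=
  (Int.castRingHom ℝ).mapMatrix.range

theorem mem_IM {X : Matrix ι ι ℝ} : X ∈ IM ι ↔ ∀ a b, ∃ m : ℤ, X a b = m :=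
  ⟨fun ⟨A, h⟩ a b => ⟨A a b, by rw [← h]; rfl⟩, fun h => by
    choose m hm using h
    exact ⟨Matrix.of m, Matrix.ext fun a b => (hm a b).symm⟩⟩

theorem IM_smul (n : ℤ) {X : Matrix ι ι ℝ} (h : X ∈ IM ι) : (n : ℝ) • X ∈ IM ι := by
  rw [Int.cast_smul_eq_zsmul]; exact zsmul_mem h n

/-- The congruence lattice of level `q`. -/
def LevR (lv : ι → ℕ) (q : ℕ) : Subgroup (UT lv ℝ) where
  carrier := {x | ∃ A ∈ IM ι, x.val - 1 = (q : ℝ) • A}
  one_mem' := ⟨0, zero_mem _, by simp⟩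
  mul_mem' := by
    rintro x y ⟨A, hA, e⟩ ⟨B, hB, e'⟩
    refine ⟨(q : ℝ) • (A * B) + A + B,
      add_mem (add_mem (by exact_mod_cast IM_smul q (mul_mem hA hB)) hA) hB, ?_⟩
    rw [UT.mul_val, sub_eq_iff_eq_add.1 e, sub_eq_iff_eq_add.1 e']
    simp only [add_mul, mul_add, smul_add, smul_mul_assoc, mul_smul_comm, one_mul, mul_one]
    abel
  inv_mem' := by
    rintro x ⟨A, hA, e⟩
    have h1 : x⁻¹.val = ∑ k ∈ range (dd lv + 1), (1 - x.val) ^ k := by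
      have := geom_sum_mul (1 - x.val) (dd lv + 1)
      rw [← neg_sub x.val, neg_pow, pow_dd x.up, mul_zero, zero_sub, neg_sub, sub_sub_cancel_left,
        mul_neg, neg_inj] at this
      have h := congrArg (· * x⁻¹.val) this
      simp only [mul_assoc, UT.mul_inv_val, mul_one, one_mul] at h
      exact h.symm
    have h2 : x⁻¹.val ∈ IM ι := by
      rw [h1, ← neg_sub x.val, e]
      exact sum_mem fun k _ => pow_mem (neg_mem (by exact_mod_cast IM_smul q hA)) k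
    refine ⟨-(x⁻¹.val * A), neg_mem (mul_mem h2 hA), ?_⟩
    rw [smul_neg, ← mul_smul_comm, ← e, mul_sub, UT.inv_mul_val, mul_one, neg_sub]

theorem mem_LevR {q : ℕ} {x : UT lv ℝ} :
    x ∈ LevR lv q ↔ ∀ a b, ∃ m : ℤ, (x.val - 1) a b = q * m :=
  ⟨fun ⟨A, hA, e⟩ a b => by
    obtain ⟨m, hm⟩ := mem_IM.1 hA a b
    exact ⟨m, by rw [e, Matrix.smul_apply, hm, smul_eq_mul]⟩, fun h => by
    choose m hm using h
    exact ⟨Matrix.of fun a b => (m a b : ℝ), mem_IM.2 fun a b => ⟨_, rfl⟩,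
      Matrix.ext fun a b => hm a b⟩⟩

theorem LevR_lg {q : ℕ} {x : UT lv ℝ} (h : x ∈ LevR lv q) :
    ∃ A ∈ IM ι, ((dd lv).factorial : ℝ) • lg x = (q : ℝ) • A := by
  obtain ⟨A, hA, e⟩ := h
  refine ⟨∑ k ∈ range (dd lv),
    (((-1) ^ k * ((dd lv).factorial / (k + 1) : ℕ) * q ^ k : ℤ) : ℝ) • A ^ (k + 1),
    sum_mem fun k _ => IM_smul _ (pow_mem hA _), ?_⟩
  rw [lg_eq_sum, e, smul_sum, smul_sum]
  refine sum_congr rfl fun k hk => ?_
  obtain ⟨c, hc⟩ := Nat.dvd_factorial (Nat.succ_pos k) (mem_range.1 hk)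
  rw [smul_pow, ← Rat.cast_smul_eq_qsmul ℝ, smul_smul, smul_smul, smul_smul, hc,
    Nat.mul_div_cancel_left _ (Nat.succ_pos k)]
  congr 1
  push_cast
  field_simp
  ring

variable {K : Subfield ℝ}

theorem den_fin (hK : ∀ k ∈ K, ∃ r : ℚ, k = r) {J : Type} [Fintype J] (x : J → ℝ)
    (h : ∀ j, x j ∈ K) : ∃ d : ℕ, 0 < d ∧ ∀ j, ∃ m : ℤ, d * x j = m := by
  classical
  choose r hr using fun j => hK _ (h j)
  refine ⟨∏ j, (r j).den, prod_pos fun j _ => (r j).den_pos, fun j => ?_⟩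
  obtain ⟨c, hc⟩ := dvd_prod_of_mem (fun j => (r j).den) (mem_univ j)
  refine ⟨c * (r j).num, ?_⟩
  rw [hc, hr]
  have := Rat.mul_den_eq_num (r j)
  push_cast
  rw [← Rat.cast_intCast, ← this]
  push_cast; ring

theorem den_fn (hK : ∀ k ∈ K, ∃ r : ℚ, k = r) {J : Type} [Fintype J]
    (η : J → Matrix ι ι ℝ →ₗ[ℝ] ℝ) (h : ∀ j, RatF K (η j)) :
    ∃ d : ℕ, 0 < d ∧ ∀ j, ∀ A ∈ IM ι, ∃ m : ℤ, d * η j A = m := by
  obtain ⟨d, d0, hd⟩ := den_fin hK (fun p : J × ι × ι => η p.1 (Matrix.single p.2.1 p.2.2 1))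
    fun p => h _ _ (ent_single _ _)
  refine ⟨d, d0, fun j A hA => ?_⟩
  choose m hm using hd
  choose n hn using mem_IM.1 hA
  refine ⟨∑ a, ∑ b, n a b * m (j, a, b), ?_⟩
  rw [lin_eq_sum]
  simp only [mul_sum, smul_eq_mul]
  push_cast
  refine sum_congr rfl fun a _ => sum_congr rfl fun b _ => ?_
  rw [← hm, hn]; ring

theorem ex_mem_LevR (hK : ∀ k ∈ K, ∃ r : ℚ, k = r) {B : Matrix ι ι ℝ} (hB : Ent (K : Set ℝ) B)
    (hup : B ∈ mF ℝ lv 1) {q : ℕ} (hq : 0 < q) :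
    ∃ N : ℕ, 0 < N ∧ ∀ n : ℤ, ex lv ((n * N : ℝ) • B) ∈ LevR lv q := by
  obtain ⟨d, d0, hd⟩ := den_fin hK (fun p : ι × ι => B p.1 p.2) fun p => hB _ _
  have hA : (d : ℝ) • B ∈ IM ι := mem_IM.2 fun a b => hd (a, b)
  refine ⟨q * (dd lv).factorial * d, by positivity, fun n => ?_⟩
  have hu : (n * ((q * (dd lv).factorial * d : ℕ) : ℝ)) • B ∈ mF ℝ lv 1 :=
    (lvS ℝ lv 1).smul_mem _ hup
  refine ⟨∑ k ∈ range (dd lv), (((n * (dd lv).factorial) ^ k * q ^ k * n *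
    ((dd lv).factorial / (k + 1).factorial : ℕ) : ℤ) : ℝ) • ((d : ℝ) • B) ^ (k + 1),
    sum_mem fun k _ => IM_smul _ (pow_mem hA _), ?_⟩
  rw [val_eq_sum, lg_ex hu, sum_range_succ', smul_sum]
  simp only [Nat.factorial_zero, Nat.cast_one, inv_one, pow_zero, one_smul, add_sub_cancel_right]
  refine sum_congr rfl fun k hk => ?_
  obtain ⟨c, hc⟩ := Nat.factorial_dvd_factorial (mem_range.1 hk)
  have h0 : 0 < (k + 1).factorial := Nat.factorial_pos _
  have e : (dd lv).factorial / (k + 1).factorial = c := by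
    rw [hc, Nat.mul_div_cancel_left _ h0]
  have e' : ((dd lv).factorial : ℝ) = (k + 1).factorial * c := by exact_mod_cast hc
  rw [smul_pow, smul_pow, ← Rat.cast_smul_eq_qsmul ℝ, smul_smul, smul_smul, smul_smul, e]
  congr 1
  push_cast
  rw [e']
  field_simp
  ring

/-! ### Cocompactness -/

section Grp

variable {g : Submodule ℝ (Matrix ι ι ℝ)} (up : ∀ X ∈ g, X ∈ mF ℝ lv 1)
  (br : ∀ X ∈ g, ∀ Y ∈ g, X * Y - Y * X ∈ g)

include up br

theorem lg_mul_mem {x y : UT lv ℝ} (hx : lg x ∈ g) (hy : lg y ∈ g) : lg (x * y) ∈ g :=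
  (Lie.grp ⟨g.restrictScalars ℚ, up, br⟩).mul_mem hx hy

omit up br in
theorem lg_inv_mem {x : UT lv ℝ} (hx : lg x ∈ g) : lg x⁻¹ ∈ g := by rw [lg_inv]; exact neg_mem hx

theorem lg_mul_sub' {J : Submodule ℝ (Matrix ι ι ℝ)} (hJ : J ≤ g)
    (h : ∀ X ∈ g, ∀ Y ∈ J, X * Y - Y * X ∈ J) {x y : UT lv ℝ} (hx : lg x ∈ g) (hy : lg y ∈ g)
    (hxy : lg x * lg y - lg y * lg x ∈ J) : lg (x * y) - lg x - lg y ∈ J :=
  lg_mul_sub (𝔏 := ⟨g.restrictScalars ℚ, up, br⟩) (J := J.restrictScalars ℚ) hJ h hx hy hxy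

theorem br_lv {i : ℕ} {X Y : Matrix ι ι ℝ} (hX : X ∈ g) (hY : Y ∈ g ⊓ lvS ℝ lv i) :
    X * Y - Y * X ∈ g ⊓ lvS ℝ lv (i + 1) :=
  ⟨br X hX Y hY.1, sub_mem (by rw [add_comm]; exact (filt_mF ℝ lv).mul 1 i X (up X hX) Y hY.2)
    ((filt_mF ℝ lv).mul i 1 Y hY.2 X (up X hX))⟩

theorem lg_mul_lv {i : ℕ} {x y : UT lv ℝ} (hx : lg x ∈ g) (hy : lg y ∈ g ⊓ lvS ℝ lv i) :
    lg (x * y) - lg x - lg y ∈ g ⊓ lvS ℝ lv (i + 1) :=
  lg_mul_sub' up br inf_le_left
    (fun _ hX _ hY => br_lv up br hX ⟨hY.1, (filt_mF ℝ lv).anti i hY.2⟩)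
    hx hy.1 (br_lv up br hx hy)

theorem cocompact (hK : ∀ k ∈ K, ∃ r : ℚ, k = r) (hg : IsRat K g) {q : ℕ} (hq : 0 < q) :
    ∃ R, ∀ x : UT lv ℝ, lg x ∈ g → ∃ a b : UT lv ℝ, lg a ∈ g ∧ lg b ∈ g ∧ b ∈ LevR lv q ∧
      ‖lg a‖ ≤ R ∧ x = a * b := by
  classical
  have key : ∀ k i, dd lv ≤ i + k → ∃ R, ∀ x : UT lv ℝ, lg x ∈ g ⊓ lvS ℝ lv i →
      ∃ a b : UT lv ℝ, lg a ∈ g ∧ lg b ∈ g ∧ b ∈ LevR lv q ∧ ‖lg a‖ ≤ R ∧ x = a * b := by
    intro k
    induction k with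
    | zero => exact fun i hi => ⟨0, fun x hx => ⟨x, 1, hx.1, by simp, one_mem _, by
        rw [eq_zero_of_dd hi hx.2, norm_zero], (mul_one x).symm⟩⟩
    | succ k ih =>
      intro i hi
      obtain ⟨R, hR⟩ := ih (i + 1) (by omega)
      have hr := hg.inf (IsRat.lvS lv i)
      obtain ⟨s, hs, hsp, hli⟩ := exists_linearIndependent ℝ
        {X | X ∈ g ⊓ lvS ℝ lv i ∧ Ent (K : Set ℝ) X}
      rw [← hr.eq_span] at hsp
      have : Fintype s := hli.setFinite.fintype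
      choose N N0 hN using fun e : s => ex_mem_LevR hK (hs e.2).2 (up _ (hs e.2).1.1) hq
      set R0 := ∑ e : s, N e * ‖e.1‖ with hR0
      obtain ⟨C, C1, hC⟩ := lip_mul lv (max (max R R0) 0)
      refine ⟨C * (R0 + R), fun x hx => ?_⟩
      have hx' := hx
      rw [← hsp, ← Subtype.range_coe (s := s), Submodule.mem_span_range_iff_exists_fun] at hx'
      obtain ⟨t, ht⟩ := hx'
      have hm : ∀ (c : ℝ) (e : s), c • e.1 ∈ g ⊓ lvS ℝ lv i := fun c e =>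
        Submodule.smul_mem _ _ (hs e.2).1
      have anti : g ⊓ lvS ℝ lv (i + 1) ≤ g ⊓ lvS ℝ lv i := fun X h =>
        ⟨h.1, (filt_mF ℝ lv).anti i h.2⟩
      have hb : ∀ T : Finset s, ∃ b : UT lv ℝ, b ∈ LevR lv q ∧
          lg b - ∑ e ∈ T, (⌊t e / N e⌋ * N e : ℝ) • e.1 ∈ g ⊓ lvS ℝ lv (i + 1) := fun T => by
        induction T using Finset.induction_on with
        | empty => exact ⟨1, one_mem _, by simp⟩
        | insert e T he ih =>
          obtain ⟨b, b1, b2⟩ := ih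
          have b3 := add_mem (anti b2) (sum_mem fun e (_ : e ∈ T) => hm (⌊t e / N e⌋ * N e) e)
          rw [sub_add_cancel] at b3
          have e1 := lg_ex (up _ (hm (⌊t e / N e⌋ * N e) e).1)
          refine ⟨_, mul_mem (hN e ⌊t e / N e⌋) b1, ?_⟩
          have := add_mem (lg_mul_lv up br (by rw [e1]; exact (hm _ e).1) b3) b2
          rw [e1] at this
          rw [sum_insert he]
          convert this using 1; abel
      obtain ⟨b, b1, b2⟩ := hb univ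
      have b3 := add_mem (anti b2) (sum_mem fun e (_ : e ∈ univ) => hm (⌊t e / N e⌋ * N e) e)
      rw [sub_add_cancel] at b3
      have hA : ∑ e : s, (Int.fract (t e / N e) * N e : ℝ) • e.1 ∈ g ⊓ lvS ℝ lv i :=
        sum_mem fun e _ => hm _ e
      have e1 := lg_ex (up _ hA.1)
      set a := ex lv (∑ e : s, (Int.fract (t e / N e) * N e : ℝ) • e.1) with ha
      have a1 : lg a ∈ g ⊓ lvS ℝ lv i := by rw [e1]; exact hA
      have a2 : ‖lg a‖ ≤ R0 := by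
        rw [e1]
        refine norm_sum_le_of_le _ fun e _ => ?_
        rw [norm_smul, Real.norm_of_nonneg (mul_nonneg (Int.fract_nonneg _) (Nat.cast_nonneg _))]
        gcongr
        exact mul_le_of_le_one_left (Nat.cast_nonneg _) (Int.fract_lt_one _).le
      have c1 := lg_mul_lv up br (lg_inv_mem a1.1) hx
      have c2 := lg_mul_lv up br (lg_mul_mem up br (lg_inv_mem a1.1) hx.1) (lg_inv_mem b3)
      have c3 : lg (a⁻¹ * x * b⁻¹) ∈ g ⊓ lvS ℝ lv (i + 1) := by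
        have := sub_mem (add_mem c1 c2) b2
        have e2 : lg x = lg a + ∑ e : s, (⌊t e / N e⌋ * N e : ℝ) • e.1 := by
          rw [e1, ← ht, ← sum_add_distrib]
          refine sum_congr rfl fun e _ => ?_
          rw [← add_smul, ← add_mul, Int.fract_add_floor, div_mul_cancel₀]
          exact_mod_cast (N0 e).ne'
        rw [lg_inv, lg_inv] at this
        convert this using 1
        rw [e2]; abel
      obtain ⟨a', b', h1, h2, h3, h4, h5⟩ := hR _ c3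
      refine ⟨a * a', b' * b, lg_mul_mem up br a1.1 h1, lg_mul_mem up br h2 b3.1, mul_mem h3 b1,
        ?_, ?_⟩
      · have := hC a a' 1 1 (a2.trans ((le_max_right _ _).trans (le_max_left _ _)))
          (h4.trans ((le_max_left _ _).trans (le_max_left _ _))) (by simp) (by simp)
        simp only [mul_one, lg_one, sub_zero] at this
        exact this.trans (by gcongr)
      · rw [mul_assoc, ← mul_assoc a', ← h5]; group
  obtain ⟨R, hR⟩ := key (dd lv) 1 (by omega)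
  exact ⟨R, fun x hx => hR x ⟨hx, lg_mem x⟩⟩

omit up br in
theorem exists_proj' {FF : Type} [Field FF] [CharZero FF] {K : Subfield FF}
    {V : Submodule FF (Matrix ι ι FF)} (hV : IsRat K V) :
    ∃ π : Matrix ι ι FF →ₗ[FF] Matrix ι ι FF, RatM K π ∧ (∀ X, π X ∈ V) ∧ ∀ X ∈ V, π X = X := by
  let W : Submodule K (Matrix ι ι FF) :=
    { carrier := {X | X ∈ V ∧ Ent (K : Set FF) X}
      add_mem' := fun h h' => ⟨add_mem h.1 h'.1, fun a b => K.add_mem (h.2 a b) (h'.2 a b)⟩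
      zero_mem' := ⟨zero_mem _, fun _ _ => K.zero_mem⟩
      smul_mem' := fun c X h => ⟨V.smul_mem (c : FF) h.1, fun a b => K.mul_mem c.2 (h.2 a b)⟩ }
  obtain ⟨ρ, hρ⟩ := LinearMap.exists_extend (p := W) (LinearMap.id : W →ₗ[K] W)
  let π : Matrix ι ι FF →ₗ[FF] Matrix ι ι FF :=
    ∑ a, ∑ b, (Matrix.entryLinearMap FF FF a b).smulRight (ρ (Matrix.single a b 1)).1
  have hπ : ∀ X, π X = ∑ a, ∑ b, X a b • (ρ (Matrix.single a b 1)).1 := fun X => by
    simp [π, LinearMap.sum_apply]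
  have h1 : ∀ X, Ent (K : Set FF) X → π X = (ρ X).1 := fun X hX => by
    rw [hπ]
    conv_rhs => rw [Matrix.matrix_eq_sum_single X]
    simp only [map_sum, Submodule.coe_sum]
    refine sum_congr rfl fun a _ => sum_congr rfl fun b _ => ?_
    have : Matrix.single a b (X a b) = (⟨X a b, hX a b⟩ : K) • Matrix.single a b (1 : FF) := by
      rw [Matrix.smul_single, Subfield.smul_def, smul_eq_mul, mul_one]
    rw [this, map_smul]; rfl
  refine ⟨π, RatM.of_ent fun X hX => by rw [h1 X hX]; exact (ρ X).2.2, fun X => ?_, fun X hX => ?_⟩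
  · rw [hπ]
    exact sum_mem fun a _ => sum_mem fun b _ => V.smul_mem _ (ρ _).2.1
  · refine hV.ind (P := LinearMap.eqLocus π LinearMap.id) (fun Y h2 h3 => ?_) hX
    have := congrArg Subtype.val (LinearMap.congr_fun hρ ⟨Y, h2, h3⟩)
    exact (h1 Y h3).trans this

omit up br in
theorem lg_conj_subR {J : Submodule ℝ (Matrix ι ι ℝ)} {c w : UT lv ℝ}
    (h : ∀ Y ∈ J, lg c * Y - Y * lg c ∈ J) (hw : lg c * lg w - lg w * lg c ∈ J) :
    lg (c * w * c⁻¹) - lg w ∈ J := by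
  have := conj_sub_mem (up_nil (lg_mem c)) (U := J.restrictScalars ℚ) h hw
  rwa [← lg_inv, exp_lg, exp_lg, ← lg_conj] at this

/-- A bump function with the right frequency. -/
theorem exists_bump (hK : ∀ k ∈ K, ∃ r : ℚ, k = r) {U : Submodule ℝ (Matrix ι ι ℝ)}
    (hU : IsRat K U) (hle : U ≤ g) (idl : ∀ X ∈ g, ∀ W ∈ U, X * W - W * X ∈ U)
    {ξ : Matrix ι ι ℝ →ₗ[ℝ] ℝ} (hξ : RatF K ξ) (cen : ∀ X ∈ g, ∀ W ∈ U, ξ (X * W - W * X) = 0) :
    ∃ (q : ℕ) (L ε : ℝ) (ψ : UT lv ℝ → ℂ), 0 < q ∧ 0 ≤ L ∧ 0 < ε ∧ (∀ x, ‖ψ x‖ ≤ 1) ∧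
      (∀ x, ‖lg x‖ ≤ ε → 1 / 2 ≤ ‖ψ x‖) ∧
      (∀ x w, lg x ∈ g → lg w ∈ U → ψ (x * w) = eR (ξ (lg w)) * ψ x) ∧
      (∀ u x, lg u ∈ g → lg x ∈ g → ‖ψ (u * x) - ψ x‖ ≤ L * ‖lg u‖) ∧
      ∀ x c, lg x ∈ g → lg c ∈ g → c ∈ LevR lv q → ψ x ≠ 0 → ψ (x * c) ≠ 0 → ψ (x * c) = ψ x := by
  obtain ⟨π, π1, π2, π3⟩ := exists_proj' hU
  set P : Matrix ι ι ℝ →ₗ[ℝ] Matrix ι ι ℝ := LinearMap.id - π with hP
  have P1 : ∀ X, P X = X - π X := fun X => rfl
  have P2 : ∀ X ∈ U, P X = 0 := fun X h => by rw [P1, π3 X h, sub_self]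
  have P3 : ∀ X ∈ g, P X ∈ g := fun X h => sub_mem h (hle (π2 X))
  obtain ⟨d, d0, hd⟩ := den_fn hK (fun p : ι × ι => Matrix.entryLinearMap ℝ ℝ p.1 p.2 ∘ₗ P)
    fun p X hX => (RatM.id.sub π1).entK hX p.1 p.2
  obtain ⟨d', d0', hd'⟩ := den_fn hK (fun _ : Unit => ξ) fun _ => hξ
  obtain ⟨CP, CP1, hCP⟩ := lin_bd P
  obtain ⟨Cx, Cx1, hCx⟩ := lin_bd ξ
  obtain ⟨CE, CE1, hCE⟩ := lin_bd (LinearMap.pi fun p : ι × ι =>
    Matrix.entryLinearMap ℝ ℝ p.1 p.2 ∘ₗ P)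
  obtain ⟨C, C1, hC⟩ := lip_mul lv 1
  have f0 : (1 : ℝ) ≤ (dd lv).factorial := by exact_mod_cast Nat.factorial_pos _
  have d1 : (1 : ℝ) ≤ d := by exact_mod_cast d0
  set r : ℝ := (2 * C * CE * d * (dd lv).factorial)⁻¹ with hr
  have big : (1 : ℝ) ≤ 2 * C * CE * d * (dd lv).factorial := by
    refine one_le_mul_of_one_le_of_one_le (one_le_mul_of_one_le_of_one_le
      (one_le_mul_of_one_le_of_one_le (by linarith) CE1) d1) f0
  have r0 : 0 < r := by positivity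
  have r1 : r ≤ 1 := inv_le_one_of_one_le₀ big
  let J := U ⊓ LinearMap.ker ξ
  have hJ : ∀ X ∈ g, ∀ W ∈ U, X * W - W * X ∈ J := fun X h W h' => ⟨idl X h W h', cen X h W h'⟩
  let Ψ : Matrix ι ι ℝ → ℂ := fun X => ((max 0 (1 - ‖P X‖ / r) : ℝ) : ℂ) * eR (ξ X)
  have Ψ1 : ∀ X, ‖Ψ X‖ = max 0 (1 - ‖P X‖ / r) := fun X => by
    rw [norm_mul, norm_eR, mul_one, Complex.norm_real, Real.norm_of_nonneg (le_max_left _ _)]
  have Ψ2 : ∀ X, max 0 (1 - ‖P X‖ / r) ≤ 1 := fun X =>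
    max_le zero_le_one (sub_le_self _ (by positivity))
  have Ψ3 : ∀ X, Ψ X ≠ 0 → ‖P X‖ < r := fun X h => by
    by_contra hc
    apply h
    rw [← norm_eq_zero, Ψ1, max_eq_left (sub_nonpos.2 ((one_le_div r0).2 (not_lt.1 hc)))]
  have Ψ4 : ∀ X Y, ‖Ψ X - Ψ Y‖ ≤ (CP / r + 7 * Cx) * ‖X - Y‖ := fun X Y => by
    have a1 : |max 0 (1 - ‖P X‖ / r) - max 0 (1 - ‖P Y‖ / r)| ≤ CP / r * ‖X - Y‖ := by
      rw [max_comm, max_comm 0]
      refine (abs_max_sub_max_le_abs _ _ _).trans ?_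
      rw [sub_sub_sub_cancel_left, ← sub_div, abs_div, abs_of_pos r0, div_mul_eq_mul_div]
      gcongr
      refine (abs_norm_sub_norm_le _ _).trans ?_
      rw [← map_sub, norm_sub_rev X]; exact hCP _
    have a2 : ‖eR (ξ X) - eR (ξ Y)‖ ≤ 7 * Cx * ‖X - Y‖ := by
      refine (norm_eR_sub_le _ _).trans ?_
      rw [← map_sub, mul_assoc]
      gcongr
      exact hCx _
    have e : Ψ X - Ψ Y = ((max 0 (1 - ‖P X‖ / r) - max 0 (1 - ‖P Y‖ / r) : ℝ) : ℂ) * eR (ξ X)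
        + ((max 0 (1 - ‖P Y‖ / r) : ℝ) : ℂ) * (eR (ξ X) - eR (ξ Y)) := by
      simp only [Ψ]; push_cast; ring
    rw [e, add_mul]
    refine (norm_add_le _ _).trans (add_le_add ?_ ?_)
    · rwa [norm_mul, norm_eR, mul_one, Complex.norm_real]
    · rw [norm_mul, Complex.norm_real, Real.norm_of_nonneg (le_max_left _ _)]
      exact (mul_le_of_le_one_left (norm_nonneg _) (Ψ2 Y)).trans a2
  have frq : ∀ x w : UT lv ℝ, lg x ∈ g → lg w ∈ U →
      Ψ (lg (x * w)) = eR (ξ (lg w)) * Ψ (lg x) := fun x w hx hw => by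
    have := lg_mul_sub' up br (J := J) (inf_le_left.trans hle) (fun X h W h' => hJ X h W h'.1) hx
      (hle hw) (hJ _ hx _ hw)
    have e1 := P2 _ this.1
    have e2 : ξ _ = 0 := this.2
    rw [map_sub, map_sub, P2 _ hw, sub_zero, sub_eq_zero] at e1
    rw [map_sub, map_sub, sub_sub, sub_eq_zero] at e2
    simp only [Ψ, e1, e2, eR_add]; ring
  have spl : ∀ x : UT lv ℝ, lg x ∈ g → ∃ a w : UT lv ℝ, lg a = P (lg x) ∧ lg w ∈ U ∧ x = a * w :=
    fun x hx => by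
    have e := lg_ex (up _ (P3 _ hx))
    refine ⟨_, _, e, ?_, (mul_inv_cancel_left _ x).symm⟩
    have := lg_mul_sub' up br hle idl (x := (ex lv (P (lg x)))⁻¹) (lg_inv_mem (by rw [e]; exact P3 _ hx)) hx
      (by
        rw [lg_inv, e, P1]
        have := neg_mem (idl _ hx _ (π2 (lg x)))
        convert this using 1; noncomm_ring)
    have := add_mem this (π2 (lg x))
    rw [lg_inv, e, P1] at this
    convert this using 1; abel
  refine ⟨d' * (dd lv).factorial, (CP / r + 7 * Cx) * C + 2, r / (2 * CP), fun x => Ψ (lg x),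
    by positivity, by positivity, by positivity, fun x => (Ψ1 _).trans_le (Ψ2 _), fun x hx => ?_,
    frq, fun u x hu hx => ?_, fun x c hx hc hl h1 h2 => ?_⟩
  · rw [Ψ1]
    refine le_max_of_le_right ?_
    have := (hCP (lg x)).trans (mul_le_mul_of_nonneg_left hx (by linarith))
    rw [show CP * (r / (2 * CP)) = r / 2 by field_simp] at this
    have := (div_le_iff₀ r0).2 (show ‖P (lg x)‖ ≤ 1 / 2 * r by linarith)
    linarith
  · have key : ∀ u x : UT lv ℝ, lg u ∈ g → lg x ∈ g → ‖lg u‖ ≤ 1 → Ψ (lg x) ≠ 0 →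
        ‖Ψ (lg (u * x)) - Ψ (lg x)‖ ≤ (CP / r + 7 * Cx) * C * ‖lg u‖ := fun u x hu hx h1 h => by
      obtain ⟨a, w, ea, hw, e⟩ := spl x hx
      have ha : lg a ∈ g := ea ▸ P3 _ hx
      have hn : ‖lg a‖ ≤ 1 := ea ▸ (Ψ3 _ h).le.trans r1
      rw [e, ← mul_assoc, frq _ _ (lg_mul_mem up br hu ha) hw, frq _ _ ha hw, ← mul_sub, norm_mul,
        norm_eR, one_mul]
      refine (Ψ4 _ _).trans ?_
      have := hC u a 1 a h1 hn (by simp) hn
      simp only [one_mul, lg_one, sub_zero, sub_self, norm_zero, add_zero] at this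
      rw [mul_assoc]
      gcongr
    have p0 : 0 ≤ (CP / r + 7 * Cx) * C * ‖lg u‖ := by positivity
    rw [add_mul]
    rcases le_total ‖lg u‖ 1 with h1 | h1
    · refine le_add_of_le_of_nonneg ?_ (by positivity)
      by_cases h : Ψ (lg x) = 0
      · by_cases h' : Ψ (lg (u * x)) = 0
        · simpa only [h, h', sub_self, norm_zero] using p0
        · have := key u⁻¹ (u * x) (lg_inv_mem hu) (lg_mul_mem up br hu hx)
            (by rwa [lg_inv, norm_neg]) h'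
          rwa [inv_mul_cancel_left, norm_sub_rev, lg_inv, norm_neg] at this
      · exact key u x hu hx h1 h
    · have := (norm_sub_le (Ψ (lg (u * x))) (Ψ (lg x))).trans
        (add_le_add ((Ψ1 _).trans_le (Ψ2 _)) ((Ψ1 _).trans_le (Ψ2 _)))
      linarith
  · obtain ⟨A, hA, eA⟩ := LevR_lg hl
    obtain ⟨a, w, ea, hw, e⟩ := spl x hx
    obtain ⟨a', w', ea', hw', e'⟩ := spl _ (lg_mul_mem up br hx hc)
    have ha : lg a ∈ g := ea ▸ P3 _ hx
    have ha' : lg a' ∈ g := ea' ▸ P3 _ (lg_mul_mem up br hx hc)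
    have hy := lg_mul_mem up br (lg_inv_mem ha) ha'
    have ec : c = w⁻¹ * (a⁻¹ * a') * w' := by
      rw [mul_assoc, mul_assoc, ← e', e]; group
    have b1 := P2 _ (lg_mul_sub' up br hle idl (hle (lg_inv_mem hw)) hy (by
      have := neg_mem (idl _ hy _ (lg_inv_mem hw)); rwa [neg_sub] at this))
    have hy' := lg_mul_mem up br (hle (lg_inv_mem hw)) hy
    have b2 := P2 _ (lg_mul_sub' up br hle idl hy' (hle hw') (idl _ hy' _ hw'))
    rw [map_sub, map_sub, P2 _ (lg_inv_mem hw), sub_zero, sub_eq_zero] at b1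
    rw [map_sub, map_sub, P2 _ hw', sub_zero, sub_eq_zero, ← ec, b1] at b2
    have n1 : ‖lg a‖ < r := ea ▸ Ψ3 _ h1
    have n2 : ‖lg a'‖ < r := ea' ▸ Ψ3 _ h2
    have b3 := hC a⁻¹ a' 1 1 (by rw [lg_inv, norm_neg]; linarith) (by linarith) (by simp) (by simp)
    simp only [one_mul, lg_one, sub_zero, lg_inv, norm_neg] at b3
    have b4 : P (lg c) = 0 := by
      ext i j
      obtain ⟨m, hm⟩ := hd (i, j) A hA
      have c1 : |P (lg c) i j| < CE * (C * (r + r)) := by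
        rw [b2]
        refine ((norm_le_pi_norm _ (i, j)).trans (hCE (lg (a⁻¹ * a')))).trans_lt ?_
        gcongr
        exact b3.trans_lt (by gcongr)
      have c2 := congrArg (fun X => d * P X i j) eA
      simp only [map_smul, Matrix.smul_apply, smul_eq_mul] at c2
      change d * P A i j = m at hm
      rw [mul_left_comm (d : ℝ) _ (P A i j), hm] at c2
      have c3 : |(((d' * (dd lv).factorial : ℕ) * m : ℤ) : ℝ)| < 1 := by
        rw [Int.cast_mul, Int.cast_natCast, ← c2, abs_mul, abs_mul, Nat.abs_cast, Nat.abs_cast]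
        calc _ < (d : ℝ) * ((dd lv).factorial * (CE * (C * (r + r)))) := by gcongr
          _ = 1 := by rw [hr]; field_simp; norm_num
      have c4 : ((d' * (dd lv).factorial : ℕ) * m : ℤ) = 0 := by
        rw [← Int.abs_lt_one_iff]; exact_mod_cast c3
      have c5 : (((d' * (dd lv).factorial : ℕ) : ℝ) * m) = 0 := by exact_mod_cast c4
      rw [c5] at c2
      simpa [d0.ne', Nat.factorial_ne_zero] using c2
    have b5 : lg c ∈ U := by
      rw [P1, sub_eq_zero] at b4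
      rw [b4]; exact π2 _
    obtain ⟨m, hm⟩ := hd' () A hA
    have c2 := congrArg ξ eA
    rw [map_smul, map_smul, smul_eq_mul, smul_eq_mul, Nat.cast_mul, mul_comm (d' : ℝ), mul_assoc,
      hm] at c2
    beta_reduce
    rw [frq x c hx b5, mul_left_cancel₀ (by positivity) c2, eR_int, one_mul]

/-- Unit nilcharacters: `U` is a rational ideal of `g` and `ξ` kills `[g, U]`. -/
theorem nilchar (hK : ∀ k ∈ K, ∃ r : ℚ, k = r) (hg : IsRat K g) {U : Submodule ℝ (Matrix ι ι ℝ)}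
    (hU : IsRat K U) (hle : U ≤ g) (idl : ∀ X ∈ g, ∀ W ∈ U, X * W - W * X ∈ U)
    {ξ : Matrix ι ι ℝ →ₗ[ℝ] ℝ} (hξ : RatF K ξ) (cen : ∀ X ∈ g, ∀ W ∈ U, ξ (X * W - W * X) = 0) :
    ∃ (q D : ℕ) (L : ℝ) (χ : Fin D → UT lv ℝ → ℂ), 0 < q ∧ 0 ≤ L ∧
      (∀ x, lg x ∈ g → ∑ j, ‖χ j x‖ ^ 2 = 1) ∧ (∀ j x, ‖χ j x‖ ≤ 1) ∧
      (∀ j u x δ, lg u ∈ g → lg x ∈ g → (∀ a b, |lg u a b| ≤ δ) →
        ‖χ j (u * x) - χ j x‖ ≤ L * δ) ∧
      (∀ j x c, lg x ∈ g → lg c ∈ g → (∀ a b, ∃ m : ℤ, (c.val - 1) a b = q * m) →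
        χ j (x * c) = χ j x) ∧
      ∀ j x w, lg x ∈ g → lg w ∈ U → χ j (x * w) = eR (ξ (lg w)) * χ j x := by
  classical
  obtain ⟨q, L, ε, ψ, q0, L0, ε0, p1, p2, p3, p4, p5⟩ :=
    exists_bump up br hK hU hle idl hξ cen
  let φ : UT lv ℝ → ℂ := fun x =>
    if h : ∃ c, lg c ∈ g ∧ c ∈ LevR lv q ∧ ψ (x * c) ≠ 0 then ψ (x * h.choose) else 0
  have f1 : ∀ x c, lg x ∈ g → lg c ∈ g → c ∈ LevR lv q → ψ (x * c) ≠ 0 → φ x = ψ (x * c) :=
    fun x c hx hc hl h => by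
    have h' : ∃ c, lg c ∈ g ∧ c ∈ LevR lv q ∧ ψ (x * c) ≠ 0 := ⟨c, hc, hl, h⟩
    have s := h'.choose_spec
    have e : x * h'.choose = x * c * (c⁻¹ * h'.choose) := by group
    simp only [φ, dif_pos h']
    rw [e]
    exact p5 _ _ (lg_mul_mem up br hx hc) (lg_mul_mem up br (lg_inv_mem hc) s.1)
      (mul_mem (inv_mem hl) s.2.1) h (e ▸ s.2.2)
  have f2 : ∀ x, ∃ c, lg c ∈ g ∧ c ∈ LevR lv q ∧ φ x = ψ (x * c) := fun x => by
    by_cases h : ∃ c, lg c ∈ g ∧ c ∈ LevR lv q ∧ ψ (x * c) ≠ 0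
    · exact ⟨_, h.choose_spec.1, h.choose_spec.2.1, dif_pos h⟩
    · refine ⟨1, by simp, one_mem _, (dif_neg h).trans ?_⟩
      by_contra hc
      exact h ⟨1, by simp, one_mem _, Ne.symm hc⟩
  have f3 : ∀ x, ‖φ x‖ ≤ 1 := fun x => by obtain ⟨c, -, -, e⟩ := f2 x; rw [e]; exact p1 _
  have f4 : ∀ x y (s : ℂ) (η : ℝ), lg x ∈ g → lg y ∈ g →
      (∀ c, lg c ∈ g → ‖ψ (y * c) - s * ψ (x * c)‖ ≤ η) → ‖φ y - s * φ x‖ ≤ 2 * η :=
    fun x y s η hx hy h => by
    obtain ⟨c, c1, c2, c3⟩ := f2 x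
    obtain ⟨c', c1', c2', c3'⟩ := f2 y
    have η0 := (norm_nonneg _).trans (h c c1)
    by_cases h1 : ψ (y * c) = 0
    · by_cases h2 : ψ (x * c') = 0
      · have a1 := h c c1
        have a2 := h c' c1'
        rw [h1, zero_sub, norm_neg] at a1
        rw [h2, mul_zero, sub_zero] at a2
        rw [c3, c3']
        linarith [norm_sub_le (ψ (y * c')) (s * ψ (x * c))]
      · rw [c3', f1 x c' hx c1' c2' h2]; linarith [h c' c1']
    · rw [c3, f1 y c hy c1 c2 h1]; linarith [h c c1]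
  have f5 : ∀ x c, lg x ∈ g → lg c ∈ g → c ∈ LevR lv q → φ (x * c) = φ x := fun x c hx hc hl => by
    obtain ⟨a, a1, a2, a3⟩ := f2 x
    obtain ⟨b, b1, b2, b3⟩ := f2 (x * c)
    by_cases h1 : ψ (x * c * b) = 0
    · by_cases h2 : ψ (x * a) = 0
      · rw [a3, b3, h1, h2]
      · have e : x * a = x * c * (c⁻¹ * a) := by group
        rw [a3, e]
        exact f1 _ _ (lg_mul_mem up br hx hc) (lg_mul_mem up br (lg_inv_mem hc) a1)
          (mul_mem (inv_mem hl) a2) (e ▸ h2)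
    · rw [b3, mul_assoc]
      exact (f1 _ _ hx (lg_mul_mem up br hc b1) (mul_mem hl b2) (by rwa [← mul_assoc])).symm
  have f6 : ∀ x w, lg x ∈ g → lg w ∈ U → φ (x * w) = eR (ξ (lg w)) * φ x := fun x w hx hw => by
    have := f4 x (x * w) (eR (ξ (lg w))) 0 hx (lg_mul_mem up br hx (hle hw)) fun c hc => by
      have h := lg_conj_subR (J := U ⊓ LinearMap.ker ξ) (c := c⁻¹) (w := w)
        (fun Y hY => ⟨idl _ (lg_inv_mem hc) _ hY.1, cen _ (lg_inv_mem hc) _ hY.1⟩)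
        ⟨idl _ (lg_inv_mem hc) _ hw, cen _ (lg_inv_mem hc) _ hw⟩
      have h1 := add_mem h.1 hw
      have h2 : ξ _ = 0 := h.2
      rw [sub_add_cancel] at h1
      rw [map_sub, sub_eq_zero] at h2
      rw [show x * w * c = x * c * (c⁻¹ * w * c⁻¹⁻¹) by group,
        p3 _ _ (lg_mul_mem up br hx hc) h1, h2, sub_self, norm_zero]
    rwa [mul_zero, norm_le_zero_iff, sub_eq_zero] at this
  have f7 : ∀ u x, lg u ∈ g → lg x ∈ g → ‖φ (u * x) - φ x‖ ≤ 2 * (L * ‖lg u‖) :=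
    fun u x hu hx => by
    have := f4 x (u * x) 1 (L * ‖lg u‖) hx (lg_mul_mem up br hu hx) fun c hc => by
      rw [one_mul, mul_assoc]; exact p4 _ _ hu (lg_mul_mem up br hx hc)
    rwa [one_mul] at this
  obtain ⟨R, hR⟩ := cocompact up br hK hg q0
  obtain ⟨C, C1, hC⟩ := lip_mul lv R
  obtain ⟨s, hs, sf, hcov⟩ := Metric.finite_approx_of_totallyBounded
    ((isCompact_closedBall (0 : Matrix ι ι ℝ) R).totallyBounded.subset
      (Set.inter_subset_right (s := (g : Set (Matrix ι ι ℝ))))) (ε / C) (by positivity)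
  obtain ⟨D, X, hX⟩ := sf.fin_param
  have hXs : ∀ j, X j ∈ g ∧ ‖X j‖ ≤ R := fun j => by
    have := hs (hX.2 ▸ Set.mem_range_self j)
    exact ⟨this.1, by simpa using this.2⟩
  let y : Fin D → UT lv ℝ := fun j => (ex lv (X j))⁻¹
  have ey : ∀ j, lg (ex lv (X j)) = X j := fun j => lg_ex (up _ (hXs j).1)
  have hy : ∀ j, lg (y j) ∈ g := fun j => lg_inv_mem (by rw [ey]; exact (hXs j).1)
  let N : UT lv ℝ → ℝ := fun x => √(∑ j, ‖φ (y j * x)‖ ^ 2)
  have Nsq : ∀ x, N x ^ 2 = ∑ j, ‖φ (y j * x)‖ ^ 2 := fun x => Real.sq_sqrt (by positivity)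
  have Nle : ∀ x j, ‖φ (y j * x)‖ ≤ N x := fun x j => Real.le_sqrt_of_sq_le
    (single_le_sum (f := fun j => ‖φ (y j * x)‖ ^ 2) (fun _ _ => sq_nonneg _) (mem_univ j))
  have N1 : ∀ x, lg x ∈ g → 1 / 2 ≤ N x := fun x hx => by
    obtain ⟨a, b, a1, b1, b2, a2, rfl⟩ := hR x hx
    have := hcov (show lg a ∈ _ from ⟨a1, by simpa using a2⟩)
    rw [← hX.2] at this
    simp only [Set.mem_iUnion, Set.mem_range, Metric.mem_ball, exists_prop] at this
    obtain ⟨_, ⟨j, rfl⟩, hj⟩ := this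
    have h1 := hC (y j) a (y j) (ex lv (X j)) (by rw [lg_inv, norm_neg, ey]; exact (hXs j).2) a2
      (by rw [lg_inv, norm_neg, ey]; exact (hXs j).2) (by rw [ey]; exact (hXs j).2)
    rw [inv_mul_cancel, lg_one, sub_zero, sub_self, norm_zero, zero_add, ey] at h1
    rw [dist_eq_norm, lt_div_iff₀' (by linarith)] at hj
    have h2 := p2 _ (h1.trans hj.le)
    refine le_trans ?_ (Nle _ j)
    have hm := lg_mul_mem up br (hy j) a1
    rw [← mul_assoc, f5 _ _ hm b1 b2, f1 _ 1 hm (by simp) (one_mem _) (by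
      rw [mul_one, ← norm_pos_iff]; linarith), mul_one]
    exact h2
  obtain ⟨CE, CE0, hCE⟩ := norm_le_of_ent (ι := ι)
  set B := ∑ j, ‖(y j).val‖ * ‖(y j)⁻¹.val‖ with hB
  have f8 : ∀ j u x δ, lg u ∈ g → lg x ∈ g → (∀ a b, |lg u a b| ≤ δ) →
      ‖φ (y j * (u * x)) - φ (y j * x)‖ ≤ 2 * (L * (B * (CE * δ))) := fun j u x δ hu hx hδ => by
    rw [show y j * (u * x) = y j * u * (y j)⁻¹ * (y j * x) by group]
    refine (f7 _ _ (lg_mul_mem up br (lg_mul_mem up br (hy j) hu) (lg_inv_mem (hy j)))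
      (lg_mul_mem up br (hy j) hx)).trans ?_
    gcongr
    rw [lg_conj]
    refine (norm_mul₃_le.trans_eq (mul_right_comm _ _ _)).trans ?_
    exact mul_le_mul (single_le_sum (f := fun j => ‖(y j).val‖ * ‖(y j)⁻¹.val‖)
      (fun _ _ => by positivity) (mem_univ j)) (hCE _ _ hδ) (norm_nonneg _) (by positivity)
  refine ⟨q, D, (2 + 4 * D) * (2 * (L * (B * CE))), fun j x => φ (y j * x) / N x, q0,
    by positivity, fun x hx => ?_, fun j x => ?_, fun j u x δ hu hx hδ => ?_,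
    fun j x c hx hc hl => ?_, fun j x w hx hw => ?_⟩
  · have := N1 x hx
    simp only [norm_div, div_pow, Complex.norm_real, Real.norm_eq_abs, sq_abs]
    rw [← sum_div, ← Nsq, div_self (by positivity)]
  · rw [norm_div, Complex.norm_real, Real.norm_of_nonneg (Real.sqrt_nonneg _)]
    exact div_le_one_of_le₀ (Nle x j) (Real.sqrt_nonneg _)
  · set η := 2 * (L * (B * (CE * δ))) with hη
    have h8 := fun j => f8 j u x δ hu hx hδ
    have η0 := (norm_nonneg _).trans (h8 j)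
    have n1 := N1 x hx
    have n2 := N1 _ (lg_mul_mem up br hu hx)
    have a1 : |N (u * x) ^ 2 - N x ^ 2| ≤ D * (η * 2) := by
      rw [Nsq, Nsq, ← sum_sub_distrib]
      refine (abs_sum_le_sum_abs _ _).trans ((sum_le_card_nsmul _ _ (η * 2) fun i _ => ?_).trans
        (by simp))
      rw [sq_sub_sq, abs_mul, mul_comm]
      refine mul_le_mul ((abs_norm_sub_norm_le _ _).trans (h8 i)) ?_ (abs_nonneg _) η0
      rw [abs_of_nonneg (by positivity)]
      linarith [f3 (y i * (u * x)), f3 (y i * x)]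
    have a2 : |N x - N (u * x)| ≤ D * (η * 2) := by
      rw [sq_sub_sq, abs_mul, abs_of_nonneg (by linarith)] at a1
      rw [abs_sub_comm]
      exact (le_mul_of_one_le_left (abs_nonneg _) (by linarith)).trans a1
    have m1 : (N x : ℂ) ≠ 0 := by exact_mod_cast (by linarith : N x ≠ 0)
    have m2 : (N (u * x) : ℂ) ≠ 0 := by exact_mod_cast (by linarith : N (u * x) ≠ 0)
    have e : φ (y j * (u * x)) / N (u * x) - φ (y j * x) / N x = ((φ (y j * (u * x)) - φ (y j * x))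
        + φ (y j * x) / N x * ((N x - N (u * x) : ℝ) : ℂ)) / N (u * x) := by
      push_cast; field_simp; ring
    have a3 : ‖φ (y j * x) / N x‖ ≤ 1 := by
      rw [norm_div, Complex.norm_real, Real.norm_of_nonneg (by linarith)]
      exact div_le_one_of_le₀ (Nle x j) (by linarith)
    have a4 : ‖φ (y j * (u * x)) - φ (y j * x) + φ (y j * x) / N x * ((N x - N (u * x) : ℝ) : ℂ)‖
        ≤ η + D * (η * 2) := by
      refine (norm_add_le _ _).trans (add_le_add (h8 j) ?_)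
      rw [norm_mul, Complex.norm_real]
      exact (mul_le_of_le_one_left (norm_nonneg _) a3).trans a2
    change ‖φ (y j * (u * x)) / N (u * x) - φ (y j * x) / N x‖ ≤ _
    rw [e, norm_div, Complex.norm_real, Real.norm_of_nonneg (by linarith),
      div_le_iff₀ (by linarith),
      show (2 + 4 * D) * (2 * (L * (B * CE))) * δ = 2 * (η + D * (η * 2)) by rw [hη]; ring]
    have : 0 ≤ η + D * (η * 2) := by positivity
    nlinarith
  · have : ∀ i, φ (y i * (x * c)) = φ (y i * x) := fun i => by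
      rw [← mul_assoc, f5 _ _ (lg_mul_mem up br (hy i) hx) hc (mem_LevR.2 hl)]
    simp only [N, this]
  · have : ∀ i, φ (y i * (x * w)) = eR (ξ (lg w)) * φ (y i * x) := fun i => by
      rw [← mul_assoc, f6 _ _ (lg_mul_mem up br (hy i) hx) hw]
    simp only [N, this, norm_mul, norm_eR, one_mul, mul_div_assoc]

end Grp

end Pool.Agent.P.MP_a14ce1_nt.Nil
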