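import Mathlib

/-! Means of periodic functions on the integers: intervals, shifts, independence. -/

namespace Pool.Agent.P.MP_a14ce1_nt.Nil.EL

open Finset

/-- `g` only depends on the class modulo `d` -/
def Per (d : ℕ) (g : ℤ → ℝ) : Prop := ∀ x y : ℤ, (d : ℤ) ∣ x - y → g x = g y

/-- the mean over `[0, D)` -/
noncomputable def av (D : ℕ) (g : ℤ → ℝ) : ℝ := (∑ x ∈ range D, g x) / D

variable {d D : ℕ} {g g' : ℤ → ℝ}

theorem Per.mono (h : Per d g) (hd : d ∣ D) : Per D g :=
  fun x y hxy => h x y ((Int.natCast_dvd_natCast.mpr hd).trans hxy)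

theorem Per.shift (h : Per d g) (v : ℤ) : Per d fun x => g (x + v) :=
  fun x y hxy => h _ _ (by simpa using hxy)

theorem Per.comp (h : Per d g) (φ : ℝ → ℝ) : Per d fun x => φ (g x) :=
  fun x y hxy => by simp only [h x y hxy]

theorem Per.mul (h : Per d g) (h' : Per d g') : Per d fun x => g x * g' x :=
  fun x y hxy => by simp only [h x y hxy, h' x y hxy]

theorem per_const (d : ℕ) (c : ℝ) : Per d fun _ => c := fun _ _ _ => rfl

theorem per_prod {α : Type*} (s : Finset α) {f : α → ℤ → ℝ} (h : ∀ a ∈ s, Per d (f a)) :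
    Per d fun x => ∏ a ∈ s, f a x :=
  fun x y hxy => prod_congr rfl fun a ha => h a ha x y hxy

theorem per_sum {α : Type*} (s : Finset α) {f : α → ℤ → ℝ} (h : ∀ a ∈ s, Per d (f a)) :
    Per d fun x => ∑ a ∈ s, f a x :=
  fun x y hxy => sum_congr rfl fun a ha => h a ha x y hxy

theorem per_ite (p : ℕ) (v : ℤ) (a b : ℝ) : Per p fun x => if (p : ℤ) ∣ x + v then a else b := by
  intro x y hxy
  have : (p : ℤ) ∣ x + v ↔ (p : ℤ) ∣ y + v := by
    rw [show x + v = (x - y) + (y + v) by ring]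
    exact dvd_add_right hxy
  simp only [this]

theorem Per.sum_shift (h : Per d g) (v : ℤ) :
    ∑ x ∈ range d, g (x + v) = ∑ x ∈ range d, g x := by
  have step : ∀ u : ℤ, ∑ x ∈ range d, g (x + (u + 1)) = ∑ x ∈ range d, g (x + u) := by
    intro u
    have h1 := sum_range_succ (fun x : ℕ => g (x + u)) d
    have h2 := sum_range_succ' (fun x : ℕ => g (x + u)) d
    have h3 : g ((d : ℤ) + u) = g (((0 : ℕ) : ℤ) + u) := h _ _ (by simp)
    have h4 : ∑ x ∈ range d, g (x + (u + 1)) = ∑ x ∈ range d, g (((x + 1 : ℕ) : ℤ) + u) :=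
      sum_congr rfl fun x _ => by congr 1; push_cast; ring
    rw [h4]; linarith
  induction v using Int.induction_on with
  | zero => simp
  | succ i ih => rw [step, ih]
  | pred i ih => rw [← step, ← ih]; simp

theorem Per.sum_mul (h : Per d g) (m : ℕ) (v : ℤ) :
    ∑ x ∈ range (d * m), g (x + v) = m * ∑ x ∈ range d, g x := by
  induction m with
  | zero => simp
  | succ m ih =>
    rw [Nat.mul_succ, sum_range_add, ih]
    have : ∑ x ∈ range d, g (((d * m + x : ℕ) : ℤ) + v) = ∑ x ∈ range d, g (x + (d * m + v)) :=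
      sum_congr rfl fun x _ => by congr 1; push_cast; ring
    rw [this, h.sum_shift]; push_cast; ring

theorem Per.av_mul (h : Per d g) {m : ℕ} (hm : 0 < m) : av (d * m) g = av d g := by
  have := h.sum_mul m 0
  simp only [add_zero] at this
  have hm' : (m : ℝ) ≠ 0 := by positivity
  rw [av, av, this, Nat.cast_mul, mul_comm (d : ℝ), mul_div_mul_left _ _ hm']

theorem Per.av_eq (h : Per d g) (h' : Per D g) (hd : 0 < d) (hD : 0 < D) : av d g = av D g := by
  rw [← h.av_mul hD, ← h'.av_mul hd, mul_comm]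

theorem Per.av_shift (h : Per D g) (v : ℤ) : av D (fun x => g (x + v)) = av D g := by
  rw [av, av, h.sum_shift]

theorem av_const (hD : 0 < D) (c : ℝ) : av D (fun _ => c) = c := by
  have : (D : ℝ) ≠ 0 := by positivity
  simp [av, this]

theorem av_sum {α : Type*} (s : Finset α) (f : α → ℤ → ℝ) :
    av D (fun x => ∑ a ∈ s, f a x) = ∑ a ∈ s, av D (f a) := by
  simp only [av]; rw [sum_comm, sum_div]

theorem av_add (g g' : ℤ → ℝ) : av D (fun x => g x + g' x) = av D g + av D g' := by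
  simp only [av, sum_add_distrib, add_div]

theorem av_smul (c : ℝ) (g : ℤ → ℝ) : av D (fun x => c * g x) = c * av D g := by
  simp only [av, ← mul_sum, mul_div_assoc]

theorem av_mono (h : ∀ x, g x ≤ g' x) : av D g ≤ av D g' :=
  div_le_div_of_nonneg_right (sum_le_sum fun x _ => h x) (Nat.cast_nonneg _)

theorem av_nonneg (h : ∀ x, 0 ≤ g x) : 0 ≤ av D g :=
  div_nonneg (sum_nonneg fun x _ => h x) (Nat.cast_nonneg _)

theorem av_ite {p : ℕ} (hp : 0 < p) (hD : 0 < D) (hpD : p ∣ D) (v : ℤ) (a b : ℝ) :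
    av D (fun x => if (p : ℤ) ∣ x + v then a else b) = b + (a - b) / p := by
  have h0 := per_ite p 0 a b
  simp only [add_zero] at h0
  have h1 := (h0.mono hpD).av_shift v
  rw [h1, ← h0.av_eq (h0.mono hpD) hp hD, av]
  have h2 : ∀ x ∈ range p, (if (p : ℤ) ∣ (x : ℤ) then a else b) =
      b + if x = 0 then a - b else 0 := by
    intro x hx
    have : (p : ℤ) ∣ (x : ℤ) ↔ x = 0 := by
      rw [Int.natCast_dvd_natCast]
      exact ⟨fun h => Nat.eq_zero_of_dvd_of_lt h (mem_range.mp hx), fun h => h ▸ dvd_zero p⟩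
    simp only [this]; split_ifs <;> ring
  have hp' : (p : ℝ) ≠ 0 := by positivity
  rw [sum_congr rfl h2, sum_add_distrib, sum_ite_eq' (range p) 0, if_pos (mem_range.mpr hp)]
  simp only [sum_const, card_range, nsmul_eq_mul]
  field_simp

/-- sums over an interval -/
theorem Per.interval (h : Per d g) (h' : Per D g) (hd : 0 < d) (hD : 0 < D) {c : ℝ}
    (h0 : ∀ x, 0 ≤ g x) (hc : ∀ x, g x ≤ c) (Y : ℕ) (v : ℤ) :
    |∑ x ∈ range Y, g (x + v) - Y * av D g| ≤ d * c := by
  rw [← h.av_eq h' hd hD]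
  have hc0 : 0 ≤ c := (h0 0).trans (hc 0)
  have hd' : (0 : ℝ) < d := by positivity
  have hr : ((Y % d : ℕ) : ℝ) ≤ d := by exact_mod_cast (Nat.mod_lt Y hd).le
  have hr0 : (0 : ℝ) ≤ ((Y % d : ℕ) : ℝ) := Nat.cast_nonneg _
  have hY : (Y : ℝ) = d * (Y / d : ℕ) + (Y % d : ℕ) := by exact_mod_cast (Nat.div_add_mod Y d).symm
  have a0 : 0 ≤ av d g := av_nonneg h0
  have a1 : av d g ≤ c := (av_mono hc).trans (av_const hd c).le
  have hS : ∑ x ∈ range d, g x = d * av d g := by rw [av]; field_simp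
  have b0 : 0 ≤ ∑ x ∈ range (Y % d), g (((d * (Y / d) + x : ℕ) : ℤ) + v) :=
    sum_nonneg fun _ _ => h0 _
  have b1 : ∑ x ∈ range (Y % d), g (((d * (Y / d) + x : ℕ) : ℤ) + v) ≤ (Y % d : ℕ) * c := by
    have := sum_le_card_nsmul (range (Y % d)) (fun x => g (((d * (Y / d) + x : ℕ) : ℤ) + v)) c
      fun _ _ => hc _
    simpa using this
  have e : ∑ x ∈ range Y, g (x + v) = (Y / d : ℕ) * (d * av d g) +
      ∑ x ∈ range (Y % d), g (((d * (Y / d) + x : ℕ) : ℤ) + v) := by
    conv_lhs => rw [← Nat.div_add_mod Y d]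
    rw [sum_range_add, h.sum_mul, hS]
  rw [e, hY, abs_le]
  constructor <;> nlinarith [mul_le_mul_of_nonneg_right hr hc0, mul_le_mul hr a1 a0 hd'.le,
    mul_nonneg hr0 a0]

theorem Per.sum_prog (h : Per d g) (hd : 0 < d) {e : ℕ} (he : Nat.Coprime d e) (x : ℤ) :
    ∑ t ∈ range d, g (x + t * e) = ∑ t ∈ range d, g t := by
  have : NeZero d := ⟨hd.ne'⟩
  have h1 : ∀ y : ℤ, g y = g ((y : ZMod d).val) := fun y => h _ _ (by
    rw [ZMod.val_intCast]; exact Int.dvd_self_sub_emod)
  have h2 : ∀ G : ZMod d → ℝ, ∑ t ∈ range d, G t = ∑ u, G u := fun G =>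
    sum_nbij' (fun t => (t : ZMod d)) (fun u => u.val) (fun _ _ => mem_univ _)
      (fun u _ => mem_range.mpr (ZMod.val_lt u))
      (fun t ht => ZMod.val_natCast_of_lt (mem_range.mp ht)) (fun u _ => ZMod.natCast_zmod_val u)
      fun _ _ => rfl
  have h3 : ∑ t ∈ range d, g (x + t * e) =
      ∑ u : ZMod d, g (((x : ZMod d) + u * (ZMod.unitOfCoprime e he.symm : ZMod d)).val) := by
    rw [← h2]
    refine sum_congr rfl fun t _ => ?_
    rw [h1]; simp
  have h4 : ∑ t ∈ range d, g t = ∑ u : ZMod d, g u.val := by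
    rw [← h2]
    refine sum_congr rfl fun t _ => ?_
    rw [h1]; simp
  rw [h3, h4]
  exact Fintype.sum_equiv
    (((ZMod.unitOfCoprime e he.symm).mulRight).trans (Equiv.addLeft (x : ZMod d))) _ _
    fun u => by simp

/-- independence of coprime periods -/
theorem av_indep {e : ℕ} (h : Per d g) (h' : Per e g') (hde : Nat.Coprime d e) (hD : 0 < D)
    (hd : d ∣ D) (he : e ∣ D) : av D (fun x => g x * g' x) = av D g * av D g' := by
  have hd0 : 0 < d := Nat.pos_of_dvd_of_pos hd hD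
  have hd' : (d : ℝ) ≠ 0 := by positivity
  have h1 : ∀ t ∈ range d, av D (fun x => g x * g' x) = av D fun x => g (x + t * e) * g' x := by
    intro t _
    rw [← ((h.mono hd).mul (h'.mono he)).av_shift (t * e)]
    congr 1
    funext x
    rw [h' (x + t * e) x (by simp)]
  have h2 : (d : ℝ) * av D (fun x => g x * g' x) = (∑ t ∈ range d, g t) * av D g' := by
    have := sum_congr rfl h1
    rw [sum_const, card_range, nsmul_eq_mul] at this
    rw [this, ← av_sum, ← av_smul]
    congr 1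
    funext x
    rw [← sum_mul, h.sum_prog hd0 hde]
  have h3 : ∑ t ∈ range d, g t = d * av d g := by rw [av]; field_simp
  rw [h3, mul_assoc] at h2
  rw [← h.av_eq (h.mono hd) hd0 hD]
  exact mul_left_cancel₀ hd' h2

theorem av_prod {α : Type*} (s : Finset α) {m : α → ℕ} {f : α → ℤ → ℝ} (hD : 0 < D)
    (h : ∀ a ∈ s, Per (m a) (f a)) (hm : ∀ a ∈ s, m a ∣ D)
    (hc : ∀ a ∈ s, ∀ b ∈ s, a ≠ b → Nat.Coprime (m a) (m b)) :
    av D (fun x => ∏ a ∈ s, f a x) = ∏ a ∈ s, av D (f a) := by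
  classical
  induction s using Finset.induction_on with
  | empty => simpa using av_const hD 1
  | insert a s ha ih =>
    have hs : ∀ b ∈ s, b ∈ insert a s := fun b hb => mem_insert_of_mem hb
    simp only [prod_insert ha]
    rw [av_indep (e := ∏ b ∈ s, m b) (h a (mem_insert_self _ _))
      (per_prod s fun b hb => (h b (hs b hb)).mono (dvd_prod_of_mem _ hb))
      (Nat.Coprime.prod_right fun b hb => hc a (mem_insert_self _ _) b (hs b hb)
        (ne_of_mem_of_not_mem hb ha).symm) hD (hm a (mem_insert_self _ _))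
      (Finset.prod_dvd_of_isRelPrime (fun b hb c hc' hbc =>
        Nat.coprime_iff_isRelPrime.mp (hc b (hs b hb) c (hs c hc') hbc)) fun b hb => hm b (hs b hb)),
      ih (fun b hb => h b (hs b hb)) (fun b hb => hm b (hs b hb))
        fun b hb c hc' => hc b (hs b hb) c (hs c hc')]

end Pool.Agent.P.MP_a14ce1_nt.Nil.EL
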