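import Pool.Agent.P.MP_a14ce1_nt.Nil.Alg

/-!
Linear algebra over a subfield: rational subspaces, functionals and maps.
-/

open Finset

set_option linter.unusedSectionVars false

noncomputable section

namespace Pool.Agent.P.MP_a14ce1_nt.Nil

variable {FF : Type} [Field FF] [CharZero FF] {ι ι' ι'' : Type} [Fintype ι] [DecidableEq ι]
  [Fintype ι'] [DecidableEq ι'] [Fintype ι''] [DecidableEq ι''] {K : Subfield FF}

theorem kmap_mul (φ : FF →ₗ[K] FF) (x : FF) {k : FF} (hk : k ∈ K) : φ (x * k) = φ x * k := by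
  have := φ.map_smul (⟨k, hk⟩ : K) x
  simpa [Subfield.smul_def, mul_comm] using this

theorem kmul_mem {S : Submodule K FF} {x k : FF} (hx : x ∈ S) (hk : k ∈ K) : x * k ∈ S := by
  have := S.smul_mem (⟨k, hk⟩ : K) hx
  simpa [Subfield.smul_def, mul_comm] using this

theorem mmap_add (φ : FF →ₗ[K] FF) (X Y : Matrix ι ι FF) :
    (X + Y).map φ = X.map φ + Y.map φ := by ext a b; simp
theorem mmap_sub (φ : FF →ₗ[K] FF) (X Y : Matrix ι ι FF) :
    (X - Y).map φ = X.map φ - Y.map φ := by ext a b; simp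
theorem mmap_zero (φ : FF →ₗ[K] FF) : (0 : Matrix ι ι FF).map φ = 0 := by ext a b; simp
theorem mmap_smul (φ : FF →ₗ[K] FF) (c : FF) {X : Matrix ι ι FF} (hX : Ent (K : Set FF) X) :
    (c • X).map φ = φ c • X := by
  ext a b; simp [kmap_mul φ c (hX a b)]

/-! ### Entries -/

theorem Ent.add {S : Submodule K FF} {X Y : Matrix ι ι FF} (hX : Ent (S : Set FF) X)
    (hY : Ent (S : Set FF) Y) : Ent (S : Set FF) (X + Y) := fun a b => S.add_mem (hX a b) (hY a b)
theorem Ent.sub {S : Submodule K FF} {X Y : Matrix ι ι FF} (hX : Ent (S : Set FF) X)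
    (hY : Ent (S : Set FF) Y) : Ent (S : Set FF) (X - Y) := fun a b => S.sub_mem (hX a b) (hY a b)
theorem Ent.neg {S : Submodule K FF} {X : Matrix ι ι FF} (hX : Ent (S : Set FF) X) :
    Ent (S : Set FF) (-X) := fun a b => S.neg_mem (hX a b)
theorem Ent.zero (S : Submodule K FF) : Ent (S : Set FF) (0 : Matrix ι ι FF) :=
  fun _ _ => S.zero_mem
theorem Ent.smul {S : Submodule K FF} {c : FF} (hc : c ∈ S) {X : Matrix ι ι FF}
    (hX : Ent (K : Set FF) X) : Ent (S : Set FF) (c • X) := fun a b => kmul_mem hc (hX a b)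
theorem Ent.mulK {X Y : Matrix ι ι FF} (hX : Ent (K : Set FF) X) (hY : Ent (K : Set FF) Y) :
    Ent (K : Set FF) (X * Y) := fun a b => by
  rw [Matrix.mul_apply]
  exact K.sum_mem fun c _ => K.mul_mem (hX a c) (hY c b)
theorem Ent.subK {X Y : Matrix ι ι FF} (hX : Ent (K : Set FF) X) (hY : Ent (K : Set FF) Y) :
    Ent (K : Set FF) (X - Y) := fun a b => K.sub_mem (hX a b) (hY a b)
theorem Ent.brK {X Y : Matrix ι ι FF} (hX : Ent (K : Set FF) X) (hY : Ent (K : Set FF) Y) :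
    Ent (K : Set FF) (X * Y - Y * X) := (hX.mulK hY).subK (hY.mulK hX)

theorem exists_retr (S : Submodule K FF) :
    ∃ φ : FF →ₗ[K] FF, (∀ x, φ x ∈ S) ∧ ∀ x ∈ S, φ x = x := by
  obtain ⟨f, hf⟩ := LinearMap.exists_extend (p := S) (LinearMap.id : S →ₗ[K] S)
  refine ⟨S.subtype ∘ₗ f, fun x => (f x).2, fun x hx => ?_⟩
  have := LinearMap.congr_fun hf ⟨x, hx⟩
  simpa using congrArg Subtype.val this

/-- A linear splitting of `S ⊔ T`. -/
theorem exists_split (S T : Submodule K FF) :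
    ∃ φ : FF →ₗ[K] FF, (∀ x, φ x ∈ S) ∧ (∀ x ∈ S, φ x = x) ∧ (∀ x ∈ S ⊔ T, x - φ x ∈ T) := by
  obtain ⟨T', h1, h2⟩ := IsModularLattice.exists_disjoint_and_sup_eq (inf_le_right : S ⊓ T ≤ T)
  have hT : T' ≤ T := h2 ▸ le_sup_right
  have hd : Disjoint S T' := by
    rw [disjoint_iff_inf_le] at h1 ⊢
    exact fun x hx => h1 ⟨⟨hx.1, hT hx.2⟩, hx.2⟩
  obtain ⟨U, hU, hc⟩ := hd.symm.exists_isCompl
  refine ⟨S.projection U hc.symm, Submodule.projection_apply_mem _,
    fun x hx => Submodule.projection_apply_of_mem_left _ hx, fun x hx => ?_⟩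
  rw [← h2, ← sup_assoc, sup_inf_self] at hx
  obtain ⟨s, hs, t, ht, rfl⟩ := Submodule.mem_sup.1 hx
  rw [map_add, Submodule.projection_apply_of_mem_left _ hs,
    Submodule.projection_apply_of_mem_right _ (hU ht), add_zero, add_sub_cancel_left]
  exact hT ht

theorem Ent.map_retr {S : Submodule K FF} {φ : FF →ₗ[K] FF} (hφ : ∀ x ∈ S, φ x = x)
    {X : Matrix ι ι FF} (hX : Ent (S : Set FF) X) : X.map φ = X := by
  ext a b; exact hφ _ (hX a b)

theorem ent_map {S : Submodule K FF} {φ : FF →ₗ[K] FF} (hφ : ∀ x, φ x ∈ S)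
    (X : Matrix ι ι FF) : Ent (S : Set FF) (X.map φ) := fun _ _ => hφ _

/-! ### Rational subspaces -/

theorem IsRat.bot : IsRat K (⊥ : Submodule FF (Matrix ι ι FF)) := fun φ X hX => by
  rw [Submodule.mem_bot] at hX ⊢; rw [hX, mmap_zero]

theorem IsRat.top : IsRat K (⊤ : Submodule FF (Matrix ι ι FF)) := fun _ _ _ => trivial

theorem IsRat.inf {V W : Submodule FF (Matrix ι ι FF)} (hV : IsRat K V) (hW : IsRat K W) :
    IsRat K (V ⊓ W) := fun φ X hX => ⟨hV φ X hX.1, hW φ X hX.2⟩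

theorem IsRat.sup {V W : Submodule FF (Matrix ι ι FF)} (hV : IsRat K V) (hW : IsRat K W) :
    IsRat K (V ⊔ W) := fun φ X hX => by
  obtain ⟨v, hv, w, hw, rfl⟩ := Submodule.mem_sup.1 hX
  rw [mmap_add]
  exact Submodule.add_mem_sup (hV φ v hv) (hW φ w hw)

theorem IsRat.iInf {J : Sort*} {V : J → Submodule FF (Matrix ι ι FF)} (h : ∀ j, IsRat K (V j)) :
    IsRat K (⨅ j, V j) := fun φ X hX =>
  (Submodule.mem_iInf _).2 fun j => h j φ X ((Submodule.mem_iInf _).1 hX j)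

theorem IsRat.iSup {J : Sort*} {V : J → Submodule FF (Matrix ι ι FF)} (h : ∀ j, IsRat K (V j)) :
    IsRat K (⨆ j, V j) := fun φ X hX => by
  refine Submodule.iSup_induction V (motive := fun X => X.map φ ∈ ⨆ j, V j) hX
    (fun j X hX => Submodule.mem_iSup_of_mem j (h j φ X hX)) ?_ fun X Y hX hY => ?_
  · rw [mmap_zero]; exact zero_mem _
  · rw [mmap_add]; exact add_mem hX hY

theorem IsRat.span {s : Set (Matrix ι ι FF)} (hs : ∀ X ∈ s, Ent (K : Set FF) X) :
    IsRat K (Submodule.span FF s) := fun φ X hX => by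
  have : ∀ c : FF, (c • X).map φ ∈ Submodule.span FF s := by
    induction hX using Submodule.span_induction with
    | mem X hX =>
      intro c
      rw [mmap_smul φ c (hs X hX)]
      exact Submodule.smul_mem _ _ (Submodule.subset_span hX)
    | zero => intro c; rw [smul_zero, mmap_zero]; exact zero_mem _
    | add X Y _ _ hX hY => intro c; rw [smul_add, mmap_add]; exact add_mem (hX c) (hY c)
    | smul a X _ hX => intro c; rw [smul_smul]; exact hX _
  simpa using this 1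

/-- The level filtration as subspaces over the big field. -/
def lvS (FF : Type) [Field FF] (lv : ι → ℕ) (i : ℕ) : Submodule FF (Matrix ι ι FF) where
  carrier := {M | ∀ a b, lv b < lv a + i → M a b = 0}
  add_mem' hM hN a b h := by rw [Matrix.add_apply, hM a b h, hN a b h, add_zero]
  zero_mem' _ _ _ := rfl
  smul_mem' c M hM a b h := by rw [Matrix.smul_apply, hM a b h, smul_zero]

theorem mem_lvS {lv : ι → ℕ} {i : ℕ} {M : Matrix ι ι FF} : M ∈ lvS FF lv i ↔ M ∈ mF FF lv i :=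
  Iff.rfl

theorem IsRat.lvS (lv : ι → ℕ) (i : ℕ) : IsRat K (lvS FF lv i) := fun φ X hX a b h => by
  rw [Matrix.map_apply, hX a b h, map_zero]

/-- A rational subspace is spanned by its rational points. -/
theorem IsRat.ind {V P : Submodule FF (Matrix ι ι FF)} (hV : IsRat K V)
    (h : ∀ X ∈ V, Ent (K : Set FF) X → X ∈ P) : V ≤ P := by
  classical
  intro X hX
  let b := Module.Basis.ofVectorSpace K FF
  let s := (univ : Finset (ι × ι)).biUnion fun p => (b.repr (X p.1 p.2)).support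
  have e : X = ∑ j ∈ s, b j • X.map (Algebra.linearMap K FF ∘ₗ b.coord j) := by
    ext p q
    have h1 := b.linearCombination_repr (X p q)
    rw [Finsupp.linearCombination_apply, Finsupp.sum_of_support_subset _
      (s := s) (subset_biUnion_of_mem (fun p : ι × ι => (b.repr (X p.1 p.2)).support)
        (mem_univ (p, q))) _ (by simp)] at h1
    rw [Matrix.sum_apply]
    refine h1.symm.trans (sum_congr rfl fun j _ => ?_)
    exact mul_comm _ _
  rw [e]
  exact P.sum_mem fun j _ => P.smul_mem _ (h _ (hV _ X hX) fun p q => (b.coord j (X p q)).2)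

theorem IsRat.eq_span {V : Submodule FF (Matrix ι ι FF)} (hV : IsRat K V) :
    V = Submodule.span FF {X | X ∈ V ∧ Ent (K : Set FF) X} :=
  le_antisymm (hV.ind fun _ h1 h2 => Submodule.subset_span ⟨h1, h2⟩)
    (Submodule.span_le.2 fun _ h => h.1)

theorem IsRat.br_mem {V W P : Submodule FF (Matrix ι ι FF)} (hV : IsRat K V) (hW : IsRat K W)
    (h : ∀ X ∈ V, Ent (K : Set FF) X → ∀ Y ∈ W, Ent (K : Set FF) Y → X * Y - Y * X ∈ P) :
    ∀ X ∈ V, ∀ Y ∈ W, X * Y - Y * X ∈ P := by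
  intro X hX Y hY
  refine hV.ind (P := P.comap (LinearMap.mulRight FF Y - LinearMap.mulLeft FF Y))
    (fun X hX hXK => ?_) hX
  exact hW.ind (P := P.comap (LinearMap.mulLeft FF X - LinearMap.mulRight FF X))
    (fun Y hY hYK => h X hX hXK Y hY hYK) hY

/-- The span of the brackets. -/
def brS (V W : Submodule FF (Matrix ι ι FF)) : Submodule FF (Matrix ι ι FF) :=
  Submodule.span FF {Z | ∃ X ∈ V, ∃ Y ∈ W, Z = X * Y - Y * X}

theorem br_mem_brS {V W : Submodule FF (Matrix ι ι FF)} {X Y : Matrix ι ι FF} (hX : X ∈ V)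
    (hY : Y ∈ W) : X * Y - Y * X ∈ brS V W := Submodule.subset_span ⟨X, hX, Y, hY, rfl⟩

theorem brS_le {V W P : Submodule FF (Matrix ι ι FF)} :
    brS V W ≤ P ↔ ∀ X ∈ V, ∀ Y ∈ W, X * Y - Y * X ∈ P :=
  ⟨fun h _ hX _ hY => h (br_mem_brS hX hY), fun h => Submodule.span_le.2 (by
    rintro _ ⟨X, hX, Y, hY, rfl⟩; exact h X hX Y hY)⟩

theorem IsRat.brS {V W : Submodule FF (Matrix ι ι FF)} (hV : IsRat K V) (hW : IsRat K W) :
    IsRat K (brS V W) := by
  have e : Nil.brS V W = Submodule.span FF {Z | ∃ X ∈ V, Ent (K : Set FF) X ∧ ∃ Y ∈ W,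
      Ent (K : Set FF) Y ∧ Z = X * Y - Y * X} := by
    refine le_antisymm (brS_le.2 (hV.br_mem hW fun X hX h1 Y hY h2 =>
      Submodule.subset_span ⟨X, hX, h1, Y, hY, h2, rfl⟩)) (Submodule.span_le.2 ?_)
    rintro _ ⟨X, hX, -, Y, hY, -, rfl⟩
    exact br_mem_brS hX hY
  rw [e]
  refine IsRat.span ?_
  rintro _ ⟨X, -, h1, Y, -, h2, rfl⟩
  exact h1.brK h2

/-- Splitting along a sum of rational subspaces keeps the size of the entries. -/
theorem IsRat.split_sup {V W : Submodule FF (Matrix ι ι FF)} (hV : IsRat K V) (hW : IsRat K W)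
    {S : Submodule K FF} {X : Matrix ι ι FF} (hX : X ∈ V ⊔ W) (hS : Ent (S : Set FF) X) :
    ∃ v ∈ V, ∃ w ∈ W, Ent (S : Set FF) v ∧ Ent (S : Set FF) w ∧ v + w = X := by
  obtain ⟨φ, h1, h2⟩ := exists_retr S
  obtain ⟨v, hv, w, hw, e⟩ := Submodule.mem_sup.1 hX
  exact ⟨_, hV φ v hv, _, hW φ w hw, ent_map h1 v, ent_map h1 w, by
    rw [← mmap_add, e, hS.map_retr h2]⟩

/-- Splitting along a sum of two sets of scalars inside a rational subspace. -/
theorem IsRat.split_ent {V : Submodule FF (Matrix ι ι FF)} (hV : IsRat K V)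
    {S T : Submodule K FF} {X : Matrix ι ι FF} (hX : X ∈ V)
    (h : Ent ((S ⊔ T : Submodule K FF) : Set FF) X) :
    ∃ u ∈ V, ∃ v ∈ V, Ent (S : Set FF) u ∧ Ent (T : Set FF) v ∧ u + v = X := by
  obtain ⟨φ, h1, -, h3⟩ := exists_split S T
  exact ⟨_, hV φ X hX, X - X.map φ, sub_mem hX (hV φ X hX), ent_map h1 X,
    fun a b => h3 _ (h a b), by abel⟩

/-- Small plus rational in a rational subspace forces both to lie in it. -/
theorem IsRat.sep {V : Submodule FF (Matrix ι ι FF)} (hV : IsRat K V) {S T : Submodule K FF}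
    (hST : S ⊓ T = ⊥) {u v : Matrix ι ι FF} (hu : Ent (S : Set FF) u) (hv : Ent (T : Set FF) v)
    (h : u + v ∈ V) : u ∈ V ∧ v ∈ V := by
  obtain ⟨φ, h1, h2, h3⟩ := exists_split S T
  have e : (u + v).map φ = u := by
    rw [mmap_add, hu.map_retr h2, add_eq_left]
    ext a b
    have h4 : φ (v a b) ∈ S ⊓ T := ⟨h1 _, by
      have := T.sub_mem (hv a b) (h3 _ (Submodule.mem_sup_right (hv a b)))
      rwa [sub_sub_cancel] at this⟩
    rwa [hST] at h4
  have hu' : u ∈ V := e ▸ hV φ _ h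
  exact ⟨hu', by simpa using sub_mem h hu'⟩

/-! ### Rational functionals -/

theorem ent_single (a b : ι) : Ent (K : Set FF) (Matrix.single a b (1 : FF)) := fun p q => by
  rw [Matrix.single_apply]
  split_ifs
  exacts [K.one_mem, K.zero_mem]

theorem lin_eq_sum {M : Type*} [AddCommGroup M] [Module FF M] (η : Matrix ι ι FF →ₗ[FF] M)
    (X : Matrix ι ι FF) : η X = ∑ a, ∑ b, X a b • η (Matrix.single a b 1) := by
  conv_lhs => rw [Matrix.matrix_eq_sum_single X]
  simp only [map_sum, ← map_smul, Matrix.smul_single, smul_eq_mul, mul_one]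

theorem RatF.map {η : Matrix ι ι FF →ₗ[FF] FF} (h : RatF K η) (φ : FF →ₗ[K] FF)
    (X : Matrix ι ι FF) : η (X.map φ) = φ (η X) := by
  rw [lin_eq_sum η, lin_eq_sum η X]
  simp only [map_sum, smul_eq_mul, Matrix.map_apply, kmap_mul φ _ (h _ (ent_single _ _))]

theorem RatF.mem {η : Matrix ι ι FF →ₗ[FF] FF} (h : RatF K η) {S : Submodule K FF}
    {X : Matrix ι ι FF} (hX : Ent (S : Set FF) X) : η X ∈ S := by
  rw [lin_eq_sum η]
  exact S.sum_mem fun a _ => S.sum_mem fun b _ => kmul_mem (hX a b) (h _ (ent_single a b))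

theorem RatF.ker {η : Matrix ι ι FF →ₗ[FF] FF} (h : RatF K η) : IsRat K (LinearMap.ker η) :=
  fun φ X hX => by rw [LinearMap.mem_ker] at hX ⊢; rw [h.map, hX, map_zero]

theorem RatF.zero : RatF K (0 : Matrix ι ι FF →ₗ[FF] FF) := fun _ _ => K.zero_mem
theorem RatF.add {η η' : Matrix ι ι FF →ₗ[FF] FF} (h : RatF K η) (h' : RatF K η') :
    RatF K (η + η') := fun X hX => K.add_mem (h X hX) (h' X hX)
theorem RatF.neg {η : Matrix ι ι FF →ₗ[FF] FF} (h : RatF K η) : RatF K (-η) :=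
  fun X hX => K.neg_mem (h X hX)
theorem RatF.sub {η η' : Matrix ι ι FF →ₗ[FF] FF} (h : RatF K η) (h' : RatF K η') :
    RatF K (η - η') := fun X hX => K.sub_mem (h X hX) (h' X hX)
theorem RatF.smul {η : Matrix ι ι FF →ₗ[FF] FF} (h : RatF K η) {c : FF} (hc : c ∈ K) :
    RatF K (c • η) := fun X hX => K.mul_mem hc (h X hX)

/-- A rational functional that does not vanish on a rational subspace takes the value one at a
rational point. -/
theorem RatF.exists_one {η : Matrix ι ι FF →ₗ[FF] FF} (h : RatF K η)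
    {V : Submodule FF (Matrix ι ι FF)} (hV : IsRat K V) (hne : ∃ X ∈ V, η X ≠ 0) :
    ∃ X ∈ V, Ent (K : Set FF) X ∧ η X = 1 := by
  by_contra hc
  obtain ⟨X, hX, h0⟩ := hne
  refine h0 (hV.ind (P := LinearMap.ker η) (fun Y hY hK => ?_) hX)
  by_contra h1
  exact hc ⟨(η Y)⁻¹ • Y, V.smul_mem _ hY, fun a b => K.mul_mem (K.inv_mem (h Y hK)) (hK a b), by
    rw [map_smul, smul_eq_mul, inv_mul_cancel₀ h1]⟩

/-- Separation by a rational functional. -/
theorem exists_RatF {V W : Submodule FF (Matrix ι ι FF)} (hV : IsRat K V) (hW : IsRat K W)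
    (h : ¬ V ≤ W) : ∃ η : Matrix ι ι FF →ₗ[FF] FF, RatF K η ∧ (∀ X ∈ W, η X = 0) ∧
      ∃ X ∈ V, Ent (K : Set FF) X ∧ η X = 1 := by
  obtain ⟨X1, h1, hK, h2⟩ : ∃ X ∈ V, Ent (K : Set FF) X ∧ X ∉ W := by
    by_contra hc
    exact h (hV.ind fun X h1 h2 => by_contra fun h3 => hc ⟨X, h1, h2, h3⟩)
  obtain ⟨η0, e1, e2⟩ := Submodule.exists_dual_map_eq_bot_of_notMem h2 inferInstance
  obtain ⟨f, hf⟩ := Module.Projective.exists_dual_eq_one K e1
  let φ : FF →ₗ[K] FF := Algebra.linearMap K FF ∘ₗ f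
  let η : Matrix ι ι FF →ₗ[FF] FF :=
    ∑ a, ∑ b, φ (η0 (Matrix.single a b 1)) • Matrix.entryLinearMap FF FF a b
  have ev : ∀ X, Ent (K : Set FF) X → η X = φ (η0 X) := fun X hX => by
    rw [lin_eq_sum η0 X]
    simp only [η, LinearMap.sum_apply, LinearMap.smul_apply, Matrix.entryLinearMap_apply,
      smul_eq_mul, map_sum, mul_comm (X _ _), kmap_mul φ _ (hX _ _)]
  refine ⟨η, fun X hX => by rw [ev X hX]; exact (f _).2, fun X hX => ?_, X1, h1, hK, ?_⟩
  · refine hW.ind (P := LinearMap.ker η) (fun Y hY hYK => ?_) hX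
    have : η0 Y = 0 := (Submodule.mem_bot FF).1 (e2 ▸ Submodule.mem_map_of_mem hY)
    rw [LinearMap.mem_ker, ev Y hYK, this, map_zero]
  · rw [ev X1 hK]
    simp [φ, hf]

/-! ### Rational linear maps -/

/-- A linear map defined over `K`. -/
def RatM (K : Subfield FF) (M : Matrix ι ι FF →ₗ[FF] Matrix ι' ι' FF) : Prop :=
  ∀ φ : FF →ₗ[K] FF, ∀ X, M (X.map φ) = (M X).map φ

theorem RatM.of_ent {M : Matrix ι ι FF →ₗ[FF] Matrix ι' ι' FF}
    (h : ∀ X, Ent (K : Set FF) X → Ent (K : Set FF) (M X)) : RatM K M := fun φ X => by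
  ext p q
  exact RatF.map (η := Matrix.entryLinearMap FF FF p q ∘ₗ M) (fun X hX => h X hX p q) φ X

theorem RatM.ent {M : Matrix ι ι FF →ₗ[FF] Matrix ι' ι' FF} (h : RatM K M) {S : Submodule K FF}
    {X : Matrix ι ι FF} (hX : Ent (S : Set FF) X) : Ent (S : Set FF) (M X) := by
  obtain ⟨φ, h1, h2⟩ := exists_retr S
  rw [← hX.map_retr h2, h]
  exact ent_map h1 _

theorem mem_one_iff {x : FF} : x ∈ (1 : Submodule K FF) ↔ x ∈ K :=
  ⟨fun h => by obtain ⟨y, rfl⟩ := Submodule.mem_one.1 h; exact y.2,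
    fun h => Submodule.mem_one.2 ⟨⟨x, h⟩, rfl⟩⟩

theorem RatM.entK {M : Matrix ι ι FF →ₗ[FF] Matrix ι' ι' FF} (h : RatM K M)
    {X : Matrix ι ι FF} (hX : Ent (K : Set FF) X) : Ent (K : Set FF) (M X) := fun a b =>
  mem_one_iff.1 (h.ent (S := 1) (fun a b => mem_one_iff.2 (hX a b)) a b)

theorem RatM.id : RatM K (LinearMap.id : Matrix ι ι FF →ₗ[FF] Matrix ι ι FF) := fun _ _ => rfl
theorem RatM.comp {M : Matrix ι ι FF →ₗ[FF] Matrix ι' ι' FF}
    {M' : Matrix ι' ι' FF →ₗ[FF] Matrix ι'' ι'' FF} (h' : RatM K M') (h : RatM K M) :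
    RatM K (M' ∘ₗ M) := fun φ X => by rw [LinearMap.comp_apply, h, h']; rfl
theorem RatM.add {M M' : Matrix ι ι FF →ₗ[FF] Matrix ι' ι' FF} (h : RatM K M) (h' : RatM K M') :
    RatM K (M + M') := fun φ X => by
  rw [LinearMap.add_apply, LinearMap.add_apply, h, h', mmap_add]
theorem RatM.sub {M M' : Matrix ι ι FF →ₗ[FF] Matrix ι' ι' FF} (h : RatM K M) (h' : RatM K M') :
    RatM K (M - M') := fun φ X => by
  rw [LinearMap.sub_apply, LinearMap.sub_apply, h, h', mmap_sub]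
theorem RatF.comp {η : Matrix ι' ι' FF →ₗ[FF] FF} {M : Matrix ι ι FF →ₗ[FF] Matrix ι' ι' FF}
    (h : RatF K η) (hM : RatM K M) : RatF K (η ∘ₗ M) := fun _ hX => h _ (hM.entK hX)
theorem RatM.smulRight {η : Matrix ι ι FF →ₗ[FF] FF} (h : RatF K η) {Z : Matrix ι' ι' FF}
    (hZ : Ent (K : Set FF) Z) : RatM K (η.smulRight Z) :=
  RatM.of_ent fun X hX a b => K.mul_mem (h X hX) (hZ a b)
theorem RatM.mulLeft {Z : Matrix ι ι FF} (hZ : Ent (K : Set FF) Z) :
    RatM K (LinearMap.mulLeft FF Z) := RatM.of_ent fun _ hX => hZ.mulK hX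
theorem RatM.mulRight {Z : Matrix ι ι FF} (hZ : Ent (K : Set FF) Z) :
    RatM K (LinearMap.mulRight FF Z) := RatM.of_ent fun _ hX => hX.mulK hZ

theorem IsRat.map {M : Matrix ι ι FF →ₗ[FF] Matrix ι' ι' FF} {V : Submodule FF (Matrix ι ι FF)}
    (hV : IsRat K V) (h : RatM K M) : IsRat K (V.map M) := by
  rintro φ _ ⟨X, hX, rfl⟩
  exact ⟨_, hV φ X hX, h φ X⟩

theorem IsRat.comap {M : Matrix ι ι FF →ₗ[FF] Matrix ι' ι' FF}
    {W : Submodule FF (Matrix ι' ι' FF)} (hW : IsRat K W) (h : RatM K M) :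
    IsRat K (W.comap M) := fun φ X hX => by
  rw [Submodule.mem_comap, h]; exact hW φ _ hX

/-- Preimages under a rational map can be chosen with entries of the same size. -/
theorem IsRat.lift {M : Matrix ι ι FF →ₗ[FF] Matrix ι' ι' FF} {V : Submodule FF (Matrix ι ι FF)}
    (hV : IsRat K V) (h : RatM K M) {S : Submodule K FF} {Y : Matrix ι' ι' FF}
    (hY : Y ∈ V.map M) (hS : Ent (S : Set FF) Y) : ∃ X ∈ V, Ent (S : Set FF) X ∧ M X = Y := by
  obtain ⟨φ, h1, h2⟩ := exists_retr S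
  obtain ⟨X, hX, rfl⟩ := hY
  exact ⟨_, hV φ X hX, ent_map h1 X, by rw [h, hS.map_retr h2]⟩

/-- The same modulo a rational subspace. -/
theorem IsRat.lift_mod {M : Matrix ι ι FF →ₗ[FF] Matrix ι' ι' FF}
    {V : Submodule FF (Matrix ι ι FF)} {W : Submodule FF (Matrix ι' ι' FF)} (hV : IsRat K V)
    (hW : IsRat K W) (h : RatM K M) {S : Submodule K FF} {Y : Matrix ι' ι' FF}
    (hY : Y ∈ V.map M ⊔ W) (hS : Ent (S : Set FF) Y) :
    ∃ X ∈ V, Ent (S : Set FF) X ∧ Y - M X ∈ W := by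
  obtain ⟨v, hv, w, hw, h1, -, rfl⟩ := (hV.map h).split_sup hW hY hS
  obtain ⟨X, hX, h2, rfl⟩ := hV.lift h hv h1
  exact ⟨X, hX, h2, by simpa using hw⟩

end Pool.Agent.P.MP_a14ce1_nt.Nil
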