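import Pool.Agent.P.MP_a14ce1_nt.Nil.Int

/-!
Tiny, big and bounded numbers; the norm and the exponential on the nonstandard complex field.
-/

open Filter
open scoped BigOperators

set_option linter.unusedSectionVars false

noncomputable section

namespace Pool.Agent.P.MP_a14ce1_nt.Nil

/-! ### The norm, conjugation and the exponential -/

theorem ind₂ {R R' : Type} {p : Ns R → Ns R' → Prop} (h : ∀ x y, p (st x) (st y)) (a : Ns R)
    (b : Ns R') : p a b := Germ.inductionOn₂ a b h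

theorem le_of_forall {x y : ℕ → ℝ} (h : ∀ n, x n ≤ y n) : (st x : HR) ≤ st y :=
  st_le.2 (Eventually.of_forall h)

theorem nm_nonneg (z : HC) : 0 ≤ nm z :=
  st_ind (p := fun z : HC => 0 ≤ nm z) (fun _ => le_of_forall fun _ => norm_nonneg _) z
@[simp] theorem abs_nm (z : HC) : |nm z| = nm z := abs_of_nonneg (nm_nonneg z)
@[simp] theorem nm_zero : nm 0 = 0 := congrArg st (funext fun _ => norm_zero)
@[simp] theorem nm_one : nm 1 = 1 := congrArg st (funext fun _ => norm_one)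
theorem nm_mul (z w : HC) : nm (z * w) = nm z * nm w :=
  ind₂ (p := fun z w => nm (z * w) = nm z * nm w)
    (fun _ _ => congrArg st (funext fun _ => norm_mul _ _)) z w
theorem nm_add_le (z w : HC) : nm (z + w) ≤ nm z + nm w :=
  ind₂ (p := fun z w => nm (z + w) ≤ nm z + nm w)
    (fun _ _ => le_of_forall fun _ => norm_add_le _ _) z w
@[simp] theorem nm_neg (z : HC) : nm (-z) = nm z :=
  st_ind (p := fun z : HC => nm (-z) = nm z) (fun _ => congrArg st (funext fun _ => norm_neg _)) z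
theorem nm_sub_le (z w : HC) : nm (z - w) ≤ nm z + nm w := by
  rw [sub_eq_add_neg, ← nm_neg w]; exact nm_add_le _ _
theorem nm_sub_comm (z w : HC) : nm (z - w) = nm (w - z) := by rw [← nm_neg, neg_sub]
theorem nm_sub_tri (x y z : HC) : nm (x - z) ≤ nm (x - y) + nm (y - z) := by
  rw [← sub_add_sub_cancel x y z]; exact nm_add_le _ _
theorem nm_le_add_sub (z w : HC) : nm z ≤ nm w + nm (z - w) := by
  have := nm_add_le w (z - w); rwa [add_sub_cancel] at this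
theorem abs_nm_sub_le (z w : HC) : |nm z - nm w| ≤ nm (z - w) := by
  have h1 := nm_le_add_sub z w
  have h2 := nm_le_add_sub w z
  rw [nm_sub_comm] at h2
  exact abs_le.2 ⟨by linarith, by linarith⟩
@[simp] theorem nm_cj (z : HC) : nm (cj z) = nm z :=
  st_ind (p := fun z : HC => nm (cj z) = nm z)
    (fun _ => congrArg st (funext fun _ => Complex.norm_conj _)) z
@[simp] theorem nm_cr (x : HR) : nm (cr x) = |x| :=
  st_ind (p := fun x : HR => nm (cr x) = |x|) (fun x => by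
    rw [st_abs]; exact congrArg st (funext fun _ => Complex.norm_real _)) x
theorem mul_cj (z : HC) : z * cj z = cr (nm z ^ 2) :=
  st_ind (p := fun z : HC => z * cj z = cr (nm z ^ 2))
    (fun x => congrArg st (funext fun n => by
      change x n * (starRingEnd ℂ) (x n) = ((‖x n‖ ^ 2 : ℝ) : ℂ)
      rw [Complex.mul_conj', Complex.ofReal_pow])) z
theorem nm_eq_zero {z : HC} : nm z = 0 ↔ z = 0 :=
  ⟨fun h => by
    have := mul_cj z
    rw [h, zero_pow two_ne_zero, map_zero, mul_eq_zero, map_eq_zero, or_self] at this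
    exact this, fun h => by rw [h, nm_zero]⟩
theorem nm_inv (z : HC) : nm z⁻¹ = (nm z)⁻¹ :=
  st_ind (p := fun z : HC => nm z⁻¹ = (nm z)⁻¹) (fun _ => congrArg st (funext fun _ => norm_inv _)) z
theorem nm_div (z w : HC) : nm (z / w) = nm z / nm w := by
  rw [div_eq_mul_inv, nm_mul, nm_inv, div_eq_mul_inv]
theorem nm_pow (z : HC) (k : ℕ) : nm (z ^ k) = nm z ^ k := by
  induction k with
  | zero => simp
  | succ k ih => rw [pow_succ, nm_mul, ih, pow_succ]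
theorem nm_natCast (k : ℕ) : nm (k : HC) = k := by rw [← map_natCast cr, nm_cr, Nat.abs_cast]
theorem nm_sum_le {J : Type} (s : Finset J) (f : J → HC) : nm (∑ j ∈ s, f j) ≤ ∑ j ∈ s, nm (f j) :=
  Finset.le_sum_of_subadditive nm nm_zero.le nm_add_le s f
theorem nm_prod {J : Type} (s : Finset J) (f : J → HC) : nm (∏ j ∈ s, f j) = ∏ j ∈ s, nm (f j) := by
  classical
  induction s using Finset.induction_on with
  | empty => simp
  | insert a s ha ih => rw [Finset.prod_insert ha, Finset.prod_insert ha, nm_mul, ih]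
theorem nm_mul_le_one {z w : HC} (hz : nm z ≤ 1) (hw : nm w ≤ 1) : nm (z * w) ≤ 1 := by
  rw [nm_mul]; exact mul_le_one₀ hz (nm_nonneg _) hw
theorem nm_prod_le_one {J : Type} {s : Finset J} {f : J → HC} (h : ∀ j ∈ s, nm (f j) ≤ 1) :
    nm (∏ j ∈ s, f j) ≤ 1 := by
  rw [nm_prod]; exact Finset.prod_le_one (fun _ _ => nm_nonneg _) h
@[simp] theorem cj_cj (z : HC) : cj (cj z) = z :=
  st_ind (p := fun z : HC => cj (cj z) = z)
    (fun _ => congrArg st (funext fun _ => Complex.conj_conj _)) z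
@[simp] theorem cj_cr (x : HR) : cj (cr x) = cr x :=
  st_ind (p := fun x : HR => cj (cr x) = cr x)
    (fun _ => congrArg st (funext fun _ => Complex.conj_ofReal _)) x
theorem ci_inj : Function.Injective ci := fun a b => ind₂ (p := fun a b : HZ => ci a = ci b → a = b)
  (fun _ _ h => st_congr (((NS.eq_iff (A := HR) _ _).1 h).mono fun _ e => Int.cast_injective e)) a b
theorem ci_le {a b : HZ} : ci a ≤ ci b ↔ a ≤ b :=
  ind₂ (p := fun a b : HZ => ci a ≤ ci b ↔ a ≤ b)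
    (fun _ _ => st_le.trans ((eventually_congr (Eventually.of_forall fun _ => Int.cast_le)).trans
      st_le.symm)) a b
theorem ci_lt {a b : HZ} : ci a < ci b ↔ a < b := lt_iff_lt_of_le_iff_le ci_le
theorem ci_abs (a : HZ) : ci |a| = |ci a| := by
  rcases le_total 0 a with h | h
  · rw [abs_of_nonneg h, abs_of_nonneg (by rwa [← map_zero ci, ci_le])]
  · rw [abs_of_nonpos h, abs_of_nonpos (by rwa [← map_zero ci, ci_le]), map_neg]
theorem HZ_add_one_le {a b : HZ} : a + 1 ≤ b ↔ a < b :=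
  ind₂ (p := fun a b : HZ => a + 1 ≤ b ↔ a < b)
    (fun _ _ => st_le.trans ((eventually_congr (Eventually.of_forall fun _ =>
      Int.add_one_le_iff)).trans st_lt.symm)) a b

/-- Floor and ceiling. -/
def flo (x : HR) : HZ := Germ.map Int.floor x
def cei (x : HR) : HZ := Germ.map Int.ceil x
@[fun_prop] theorem IntF.flo {A S : Type} [NS A S] {f : A → HR} (hf : IntF f) :
    IntF fun a => flo (f a) := hf.map _
@[fun_prop] theorem IntF.cei {A S : Type} [NS A S] {f : A → HR} (hf : IntF f) :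
    IntF fun a => cei (f a) := hf.map _
theorem ci_flo_le (x : HR) : ci (flo x) ≤ x :=
  st_ind (p := fun x : HR => ci (flo x) ≤ x) (fun _ => le_of_forall fun _ => Int.floor_le _) x
theorem lt_ci_flo_add_one (x : HR) : x < ci (flo x) + 1 :=
  st_ind (p := fun x : HR => x < ci (flo x) + 1)
    (fun _ => st_lt.2 (Eventually.of_forall fun _ => Int.lt_floor_add_one _)) x
theorem le_ci_cei (x : HR) : x ≤ ci (cei x) :=
  st_ind (p := fun x : HR => x ≤ ci (cei x)) (fun _ => le_of_forall fun _ => Int.le_ceil _) x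
theorem ci_cei_lt_add_one (x : HR) : ci (cei x) < x + 1 :=
  st_ind (p := fun x : HR => ci (cei x) < x + 1)
    (fun _ => st_lt.2 (Eventually.of_forall fun _ => Int.ceil_lt_add_one _)) x
theorem le_flo {z : HZ} {x : HR} : z ≤ flo x ↔ ci z ≤ x :=
  ⟨fun h => (ci_le.2 h).trans (ci_flo_le x), fun h => by
    have := h.trans_lt (lt_ci_flo_add_one x)
    rwa [← map_one ci, ← map_add, ci_lt, ← HZ_add_one_le, add_le_add_iff_right] at this⟩
theorem cei_le {z : HZ} {x : HR} : cei x ≤ z ↔ x ≤ ci z :=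
  ⟨fun h => (le_ci_cei x).trans (ci_le.2 h), fun h => by
    have := (ci_cei_lt_add_one x).trans_le (add_le_add_left h 1)
    rwa [← map_one ci, ← map_add, ci_lt, ← HZ_add_one_le, add_le_add_iff_right] at this⟩
theorem one_le_ci {z : HZ} (h : 0 < z) : 1 ≤ ci z := by
  rwa [← map_one ci, ci_le, ← zero_add 1, HZ_add_one_le]
theorem ci_pos {z : HZ} : 0 < ci z ↔ 0 < z := by rw [← map_zero ci, ci_lt]
theorem ci_nonneg {z : HZ} : 0 ≤ ci z ↔ 0 ≤ z := by rw [← map_zero ci, ci_le]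
theorem nm_sq (z : HC) : cr (nm z ^ 2) = z * cj z := (mul_cj z).symm

theorem ee_add (x y : HR) : ee (x + y) = ee x * ee y :=
  ind₂ (p := fun x y : HR => ee (x + y) = ee x * ee y) (fun x y => congrArg st (funext fun n => by
    change Complex.exp (_ * ((x n + y n : ℝ) : ℂ)) = Complex.exp _ * Complex.exp _
    rw [← Complex.exp_add, Complex.ofReal_add, mul_add])) x y
@[simp] theorem ee_zero : ee 0 = 1 := congrArg st (funext fun n => by
  change Complex.exp (_ * ((0 : ℝ) : ℂ)) = 1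
  simp)
@[simp] theorem nm_ee (x : HR) : nm (ee x) = 1 :=
  st_ind (p := fun x : HR => nm (ee x) = 1) (fun x => congrArg st (funext fun n => by
    change ‖Complex.exp (2 * Real.pi * Complex.I * (x n : ℂ))‖ = 1
    rw [show 2 * Real.pi * Complex.I * (x n : ℂ) = (2 * Real.pi * x n : ℝ) * Complex.I by
      push_cast; ring, Complex.norm_exp_ofReal_mul_I])) x
theorem ee_mul_cj (x : HR) : ee x * cj (ee x) = 1 := by rw [mul_cj, nm_ee, one_pow, map_one]
theorem ee_neg (x : HR) : ee (-x) = cj (ee x) := by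
  have h : ee (-x) * ee x = 1 := by rw [← ee_add, neg_add_cancel, ee_zero]
  rw [← mul_one (ee (-x)), ← ee_mul_cj x, ← mul_assoc, h, one_mul]
theorem ee_sub (x y : HR) : ee (x - y) = ee x * cj (ee y) := by rw [sub_eq_add_neg, ee_add, ee_neg]
theorem ee_ne_zero (x : HR) : ee x ≠ 0 := left_ne_zero_of_mul_eq_one (ee_mul_cj x)
theorem ee_sum {J : Type} (s : Finset J) (f : J → HR) : ee (∑ j ∈ s, f j) = ∏ j ∈ s, ee (f j) := by
  classical
  induction s using Finset.induction_on with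
  | empty => simp
  | insert a s ha ih => rw [Finset.prod_insert ha, Finset.sum_insert ha, ee_add, ih]
theorem ee_ZZ {z : HR} (hz : z ∈ ZZ) : ee z = 1 := by
  obtain ⟨a, rfl⟩ := hz
  refine congrArg st (funext fun n => ?_)
  change Complex.exp (2 * Real.pi * Complex.I * ((a n : ℝ) : ℂ)) = 1
  rw [mul_comm, Complex.ofReal_intCast, Complex.exp_int_mul_two_pi_mul_I]
theorem norm_e_sub_one (t : ℝ) :
    ‖Complex.exp (2 * Real.pi * Complex.I * (t : ℂ)) - 1‖ = 2 * |Real.sin (Real.pi * t)| := by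
  rw [show 2 * Real.pi * Complex.I * (t : ℂ) = Complex.I * (2 * Real.pi * t : ℝ) by
    push_cast; ring, Complex.norm_exp_I_mul_ofReal_sub_one, Real.norm_eq_abs, abs_mul, abs_two,
    show 2 * Real.pi * t / 2 = Real.pi * t by ring]
theorem nm_ee_sub_one (x : HR) : nm (ee x - 1) ≤ 7 * |x| :=
  st_ind (p := fun x : HR => nm (ee x - 1) ≤ 7 * |x|) (fun x => by
    rw [st_abs]
    refine le_of_forall fun n => ?_
    change ‖Complex.exp (2 * Real.pi * Complex.I * (x n : ℂ)) - 1‖ ≤ 7 * |x n|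
    have h1 := Real.abs_sin_le_abs (x := Real.pi * x n)
    rw [abs_mul, abs_of_pos Real.pi_pos] at h1
    rw [norm_e_sub_one]
    nlinarith [Real.pi_lt_d2, abs_nonneg (x n)]) x
theorem nm_ee_sub (x y : HR) : nm (ee x - ee y) ≤ 7 * |x - y| := by
  have : ee x - ee y = (ee (x - y) - 1) * ee y := by rw [sub_mul, ← ee_add, sub_add_cancel, one_mul]
  rw [this, nm_mul, nm_ee, mul_one]
  exact nm_ee_sub_one _
theorem le_nm_ee_sub_one {x : HR} (h : |x| ≤ 1 / 2) : 4 * |x| ≤ nm (ee x - 1) := by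
  induction x using st_ind with | _ x
  rw [st_abs] at h ⊢
  refine st_le.2 ((st_le.1 h).mono fun n (hn : |x n| ≤ 1 / 2) => ?_)
  change 4 * |x n| ≤ ‖Complex.exp (2 * Real.pi * Complex.I * (x n : ℂ)) - 1‖
  have h1 := Real.mul_abs_le_abs_sin (x := Real.pi * x n) (by
    rw [abs_mul, abs_of_pos Real.pi_pos]; nlinarith [Real.pi_pos])
  rw [abs_mul, abs_of_pos Real.pi_pos, ← mul_assoc, div_mul_cancel₀ _ Real.pi_ne_zero] at h1
  rw [norm_e_sub_one]
  linarith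
/-- `e(x)` close to one forces `x` close to an integer. -/
theorem exists_ZZ_le_nm (x : HR) : ∃ z ∈ ZZ, 4 * |x - z| ≤ nm (ee x - 1) := by
  obtain ⟨z, hz, h⟩ := ZZ_round x
  have := le_nm_ee_sub_one h
  rw [ee_sub, ee_ZZ hz, map_one, mul_one] at this
  exact ⟨z, hz, this⟩

/-! ### Bounded, big and tiny -/

variable {Q : HR} [hQ : Fact (2 ≤ Q)] {x y : HR}

theorem Q_pos : 0 < Q := two_pos.trans_le hQ.out
theorem Q_pow_pos (C : ℕ) : 0 < Q ^ C := pow_pos Q_pos C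
theorem one_le_Q_pow (C : ℕ) : 1 ≤ Q ^ C := one_le_pow₀ (one_le_Q Q)
theorem Q_pow_mono {C D : ℕ} (h : C ≤ D) : Q ^ C ≤ Q ^ D := pow_le_pow_right₀ (one_le_Q Q) h
theorem mem_OO : x ∈ OO Q ↔ ∃ C : ℕ, |x| ≤ Q ^ C := Iff.rfl
theorem mem_RT : x ∈ RT Q ↔ ∃ b ∈ ZZ, b ∈ OO Q ∧ b ≠ 0 ∧ b * x ∈ ZZ := Iff.rfl
theorem mem_KK' : x ∈ KK Q ↔ x ∈ OO Q ∧ x ∈ RT Q := Iff.rfl
theorem Q_mem : Q ∈ OO Q := ⟨1, by rw [pow_one, abs_of_pos Q_pos]⟩
theorem abs_mem_OO : |x| ∈ OO Q ↔ x ∈ OO Q := by simp only [mem_OO, abs_abs]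
theorem OO_of_abs_le (hy : y ∈ OO Q) (h : |x| ≤ y) : x ∈ OO Q := OO_of_le hy (h.trans (le_abs_self y))
theorem OO_of_le_one (h : |x| ≤ 1) : x ∈ OO Q := OO_of_abs_le (one_mem _) h
theorem nm_OO {z : HC} (h : nm z ≤ 1) : nm z ∈ OO Q := OO_of_le_one (by rwa [abs_nm])
theorem ZZ_le_RT (h : x ∈ ZZ) : x ∈ RT Q := ⟨1, one_mem _, one_mem _, one_ne_zero, by rwa [one_mul]⟩
theorem KK_of_ZZ (h : x ∈ ZZ) (h' : x ∈ OO Q) : x ∈ KK Q := ⟨h', ZZ_le_RT h⟩
theorem ratCast_OO (c : ℚ) : (c : HR) ∈ OO Q := KK_le_OO _ (SubfieldClass.ratCast_mem _ c)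
theorem real_OO (c : ℝ) : (st fun _ => c : HR) ∈ OO Q := by
  obtain ⟨k, hk⟩ := exists_nat_ge |c|
  exact OO_of_abs_le (natCast_mem _ k) (by rw [st_abs]; exact le_of_forall fun _ => hk)
theorem KK_den : ∀ k ∈ KK Q, ∃ b ∈ ZZ, b ∈ KK Q ∧ b ≠ 0 ∧ b * k ∈ ZZ := fun _ h =>
  let ⟨b, b1, b2, b3, b4⟩ := h.2; ⟨b, b1, KK_of_ZZ b1 b2, b3, b4⟩
theorem exists_ZZ_OO (x : HR) : ∃ z ∈ ZZ, x - z ∈ OO Q :=
  let ⟨o, ho, z, hz, e⟩ := OO_add_ZZ (Q := Q) x; ⟨z, hz, by rwa [e, add_sub_cancel_right]⟩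
/-- A common denominator. -/
theorem RT_common {J : Type} [Finite J] {f : J → HR} (h : ∀ j, f j ∈ RT Q) :
    ∃ b ∈ ZZ, b ∈ OO Q ∧ b ≠ 0 ∧ ∀ j, b * f j ∈ ZZ := by
  classical
  have := Fintype.ofFinite J
  choose b b1 b2 b3 b4 using h
  refine ⟨∏ j, b j, prod_mem fun j _ => b1 j, prod_mem fun j _ => b2 j,
    Finset.prod_ne_zero_iff.2 fun j _ => b3 j, fun j => ?_⟩
  rw [← Finset.prod_erase_mul _ _ (Finset.mem_univ j), mul_assoc]
  exact mul_mem (prod_mem fun i _ => b1 i) (b4 j)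

theorem common_den {J : Type} [Finite J] {x : J → HR} (h : ∀ j, x j ∈ RT Q) :
    ∃ b ∈ ZZ, b ∈ OO Q ∧ 0 < b ∧ ∀ j, b * x j ∈ ZZ := by
  obtain ⟨b, b1, b2, b3, b4⟩ := RT_common h
  exact ⟨b * b, mul_mem b1 b1, mul_mem b2 b2, mul_self_pos.2 b3, fun j => by
    rw [mul_assoc]; exact mul_mem b1 (b4 j)⟩

theorem big_iff : Big Q x ↔ x ≠ 0 ∧ x⁻¹ ∈ OO Q := by
  refine ⟨fun ⟨C, h⟩ => ?_, fun ⟨h0, C, h⟩ => ⟨C, ?_⟩⟩
  · have h0 : x ≠ 0 := by rintro rfl; norm_num at h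
    exact ⟨h0, C, by rwa [abs_inv, inv_le_iff_one_le_mul₀' (abs_pos.2 h0)]⟩
  · rwa [abs_inv, inv_le_iff_one_le_mul₀' (abs_pos.2 h0)] at h
theorem tiny_iff_lt {Q : HR} : Tiny Q x ↔ ∀ C : ℕ, |x| * Q ^ C < 1 := by simp [Tiny, Big]
theorem not_tiny {Q : HR} : ¬Tiny Q x ↔ Big Q x := not_not
theorem not_big {Q : HR} : ¬Big Q x ↔ Tiny Q x := Iff.rfl
theorem big_or_tiny (Q x : HR) : Big Q x ∨ Tiny Q x := em _
theorem big_abs {Q : HR} : Big Q |x| ↔ Big Q x := by simp only [Big, abs_abs]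
theorem tiny_abs {Q : HR} : Tiny Q |x| ↔ Tiny Q x := not_congr big_abs
theorem big_neg {Q : HR} : Big Q (-x) ↔ Big Q x := by simp only [Big, abs_neg]
theorem big_one : Big Q 1 := ⟨0, by simp⟩
theorem tiny_zero : Tiny Q 0 := fun h => (big_iff.1 h).1 rfl

namespace Big

theorem ne_zero (h : Big Q x) : x ≠ 0 := (big_iff.1 h).1
theorem inv_mem (h : Big Q x) : x⁻¹ ∈ OO Q := (big_iff.1 h).2
theorem pos (h : Big Q x) (h0 : 0 ≤ x) : 0 < x := lt_of_le_of_ne h0 h.ne_zero.symm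
theorem of_le (h : Big Q x) (hle : |x| ≤ |y|) : Big Q y :=
  let ⟨C, hC⟩ := h; ⟨C, hC.trans (mul_le_mul_of_nonneg_right hle (Q_pow_pos C).le)⟩
theorem of_le' (h : Big Q x) (hle : |x| ≤ y) : Big Q y := h.of_le (hle.trans (le_abs_self y))
theorem mono (h : Big Q x) (h0 : 0 ≤ x) (hle : x ≤ y) : Big Q y :=
  h.of_le' (by rwa [abs_of_nonneg h0])
theorem mul (hx : Big Q x) (hy : Big Q y) : Big Q (x * y) :=
  big_iff.2 ⟨mul_ne_zero hx.ne_zero hy.ne_zero, by rw [mul_inv]; exact mul_mem hx.inv_mem hy.inv_mem⟩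
theorem pow (hx : Big Q x) (k : ℕ) : Big Q (x ^ k) :=
  big_iff.2 ⟨pow_ne_zero _ hx.ne_zero, by rw [← inv_pow]; exact pow_mem hx.inv_mem k⟩
theorem prod {J : Type} {s : Finset J} {f : J → HR} (h : ∀ j ∈ s, Big Q (f j)) :
    Big Q (∏ j ∈ s, f j) := Finset.prod_induction f _ (fun _ _ => mul) big_one h
theorem inv (hx : x ∈ OO Q) (h0 : x ≠ 0) : Big Q x⁻¹ :=
  big_iff.2 ⟨inv_ne_zero h0, by rwa [inv_inv]⟩
theorem div (hx : Big Q x) (hy : y ∈ OO Q) (h0 : y ≠ 0) : Big Q (x / y) := by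
  rw [div_eq_mul_inv]; exact hx.mul (inv hy h0)
theorem of_mul (h : Big Q (x * y)) (hy : y ∈ OO Q) : Big Q x := by
  have h0 := right_ne_zero_of_mul h.ne_zero
  have := h.div hy h0
  rwa [mul_div_cancel_right₀ _ h0] at this
theorem of_mul' (h : Big Q (x * y)) (hx : x ∈ OO Q) : Big Q y := of_mul (mul_comm x y ▸ h) hx
theorem of_one_le (h : 1 ≤ |x|) : Big Q x := big_one.of_le (by rwa [abs_one])
theorem of_pow {k : ℕ} (h : Big Q (x ^ k)) (hk : k ≠ 0) : Big Q x := by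
  rcases le_total 1 |x| with h1 | h1
  · exact of_one_le h1
  · exact h.of_le (by rw [abs_pow]; exact pow_le_of_le_one (abs_nonneg _) h1 hk)
theorem of_KK (h : x ∈ KK Q) (h0 : x ≠ 0) : Big Q x := big_iff.2 ⟨h0, KK_le_OO _ ((KK Q).inv_mem h)⟩
theorem of_ZZ (h : x ∈ ZZ) (h0 : x ≠ 0) : Big Q x := of_one_le (ZZ_one_le h h0)
theorem of_RT (h : x ∈ RT Q) (h0 : x ≠ 0) : Big Q x :=
  let ⟨_, _, b2, b3, b4⟩ := h; (of_ZZ b4 (mul_ne_zero b3 h0)).of_mul' b2
theorem ratCast {c : ℚ} (h : c ≠ 0) : Big Q (c : HR) :=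
  of_KK (SubfieldClass.ratCast_mem _ c) (Rat.cast_ne_zero.2 h)
theorem natCast {c : ℕ} (h : c ≠ 0) : Big Q (c : HR) := of_ZZ (natCast_mem _ c) (Nat.cast_ne_zero.2 h)
theorem half (h : Big Q x) : Big Q (x / 2) := h.div (ofNat_mem _ 2) two_ne_zero
theorem div_mem (hy : Big Q y) (hx : x ∈ OO Q) : x / y ∈ OO Q := by
  rw [div_eq_mul_inv]; exact mul_mem hx hy.inv_mem
theorem inv_pow (C : ℕ) : Big Q (Q ^ C)⁻¹ := inv (pow_mem Q_mem C) (Q_pow_pos C).ne'
theorem exists_le (h : Big Q x) : ∃ C : ℕ, (Q ^ C)⁻¹ ≤ |x| :=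
  h.imp fun C hC => by rwa [inv_le_iff_one_le_mul₀ (Q_pow_pos C)]
theorem min (hx : Big Q x) (hy : Big Q y) : Big Q (min x y) := by
  rcases min_choice x y with h | h <;> rwa [h]
theorem of_add (h : Big Q (x + y)) : Big Q x ∨ Big Q y := by
  have h2 : ∀ z : HR, |x + y| ≤ |2 * z| → Big Q z := fun z hz =>
    (h.of_le hz).of_mul' (ofNat_mem _ 2)
  have := abs_add_le x y
  rcases le_total |x| |y| with c | c
  · exact Or.inr (h2 y (by rw [abs_mul, abs_two]; linarith))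
  · exact Or.inl (h2 x (by rw [abs_mul, abs_two]; linarith))

end Big

namespace Tiny

theorem of_le (h : Tiny Q y) (hle : |x| ≤ |y|) : Tiny Q x := fun c => h (c.of_le hle)
theorem of_le' (h : Tiny Q y) (hle : |x| ≤ y) : Tiny Q x := fun c => h (c.of_le' hle)
theorem mono (h : Tiny Q y) (h0 : 0 ≤ x) (hle : x ≤ y) : Tiny Q x := fun c => h (c.mono h0 hle)
theorem neg (h : Tiny Q x) : Tiny Q (-x) := fun c => h (big_neg.1 c)
theorem abs (h : Tiny Q x) : Tiny Q |x| := tiny_abs.2 h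
theorem add (hx : Tiny Q x) (hy : Tiny Q y) : Tiny Q (x + y) := fun c => c.of_add.elim hx hy
theorem sub (hx : Tiny Q x) (hy : Tiny Q y) : Tiny Q (x - y) := sub_eq_add_neg x y ▸ hx.add hy.neg
theorem mul (hx : Tiny Q x) (hy : y ∈ OO Q) : Tiny Q (x * y) := fun c => hx (c.of_mul hy)
theorem mul' (hy : Tiny Q y) (hx : x ∈ OO Q) : Tiny Q (x * y) := fun c => hy (c.of_mul' hx)
theorem div (hx : Tiny Q x) (hy : Big Q y) : Tiny Q (x / y) := by
  rw [div_eq_mul_inv]; exact hx.mul hy.inv_mem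
theorem sum {J : Type} {s : Finset J} {f : J → HR} (h : ∀ j ∈ s, Tiny Q (f j)) :
    Tiny Q (∑ j ∈ s, f j) := Finset.sum_induction f _ (fun _ _ => add) tiny_zero h
theorem lt (hx : Tiny Q x) (hy : Big Q y) : |x| < |y| := not_le.1 fun c => hx (hy.of_le c)
theorem lt' (hx : Tiny Q x) (hy : Big Q y) (h0 : 0 ≤ y) : x < y :=
  (le_abs_self x).trans_lt (by have := hx.lt hy; rwa [abs_of_nonneg h0] at this)
theorem lt_one (hx : Tiny Q x) : |x| < 1 := by have := hx.lt big_one; rwa [abs_one] at this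
theorem mem_OO (hx : Tiny Q x) : x ∈ OO Q := OO_of_le_one hx.lt_one.le
theorem pow (hx : Tiny Q x) {k : ℕ} (hk : k ≠ 0) : Tiny Q (x ^ k) := fun c => hx (c.of_pow hk)
theorem of_pow {k : ℕ} (hx : Tiny Q (x ^ k)) : Tiny Q x := fun c => hx (c.pow k)
theorem of_mul (h : Tiny Q (x * y)) (hy : Big Q y) : Tiny Q x := fun c => h (c.mul hy)
theorem eq_zero (hx : Tiny Q x) (h : x ∈ RT Q) : x = 0 := by_contra fun c => hx (Big.of_RT h c)
theorem inv_not_mem (hx : Tiny Q x) (h0 : x ≠ 0) : x⁻¹ ∉ OO Q := fun c => hx (big_iff.2 ⟨h0, c⟩)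
theorem of_forall (h : ∀ C : ℕ, |x| ≤ (Q ^ C)⁻¹) : Tiny Q x := fun c => by
  obtain ⟨C, hC⟩ := c.half.exists_le
  have h1 := h C
  have h2 := abs_pos.2 c.ne_zero
  rw [abs_div, abs_two] at hC
  linarith

end Tiny

theorem Tiny.mul_OO (hx : Tiny Q x) (hy : y ∈ OO Q) : Tiny Q (x * y) := hx.mul hy
theorem big_of_KK (hx : x ∈ KK Q) (h0 : x ≠ 0) : Big Q x := Big.of_KK hx h0
theorem tiny_iff_le : Tiny Q x ↔ ∀ δ, Big Q δ → |x| ≤ |δ| :=
  ⟨fun h _ hδ => (h.lt hδ).le, fun h => Tiny.of_forall fun C =>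
    (h _ (Big.inv_pow C)).trans (abs_of_pos (inv_pos.2 (Q_pow_pos C))).le⟩
theorem tiny_iff : Tiny Q x ↔ ∀ C : ℕ, |x| * Q ^ C ≤ 1 :=
  ⟨fun h C => (tiny_iff_lt.1 h C).le, fun h => Tiny.of_forall fun C => by
    rw [← one_div, le_div_iff₀ (Q_pow_pos C)]; exact h C⟩
theorem exists_huge : ∃ L : HZ, 0 < L ∧ Tiny Q (ci L)⁻¹ := by
  obtain ⟨ε, h1, h2, -⟩ := unif_tiny (Q := Q) (intP_const (A := HR) False) IntF.id fun _ => False.elim
  have h3 := le_ci_cei ε⁻¹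
  have h4 := (inv_pos.2 h2).trans_le h3
  refine ⟨cei ε⁻¹, by rwa [← ci_lt, map_zero], h1.mono (inv_pos.2 h4).le (inv_le_of_inv_le₀ h2 h3)⟩
theorem tiny_inv_iff : Tiny Q x⁻¹ ↔ x = 0 ∨ x ∉ OO Q := by
  rw [Tiny, big_iff, inv_inv, not_and_or, not_not, inv_eq_zero]
theorem Big.add_tiny (hx : Big Q x) (hy : Tiny Q y) : Big Q (x + y) :=
  by_contra fun c => (by have := Tiny.sub c hy; rwa [add_sub_cancel_right] at this : Tiny Q x) hx
theorem Big.sub_tiny (hx : Big Q x) (hy : Tiny Q y) : Big Q (x - y) :=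
  sub_eq_add_neg x y ▸ hx.add_tiny hy.neg
theorem Big.of_sum {J : Type} {s : Finset J} {f : J → HR} (h : Big Q (∑ j ∈ s, f j)) :
    ∃ j ∈ s, Big Q (f j) := by
  by_contra c
  exact Tiny.sum (fun j hj hb => c ⟨j, hj, hb⟩) h

variable (Q) in
/-- The tiny numbers as a submodule. -/
def TN : Submodule (KK Q) HR where
  carrier := {t | Tiny Q t}
  add_mem' := Tiny.add
  zero_mem' := tiny_zero
  smul_mem' c _ h := Tiny.mul' h (KK_le_OO _ c.2)

theorem sep_of_tiny {σ : Type} {N a : σ → HR} (ha : ∀ l, a l ≠ 0) (hN : ∀ l, N l ≠ 0)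
    (h : ∀ l, Tiny Q (a l / N l)) : Sep (Sm Q N) (Rt Q a) := by
  intro β hβ
  rw [eq_bot_iff]
  rintro x ⟨h1, h2⟩
  change x * β.prod (fun l k => N l ^ k) ∈ OO Q at h1
  change x * β.prod (fun l k => a l ^ k) ∈ RT Q at h2
  obtain ⟨l, hl⟩ := Finsupp.support_nonempty_iff.2 hβ
  classical
  have h3 : Tiny Q (β.prod fun l k => (a l / N l) ^ k) := by
    rw [Finsupp.prod, ← Finset.prod_erase_mul _ _ hl]
    exact ((h l).pow (Finsupp.mem_support_iff.1 hl)).mul'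
      (prod_mem fun j _ => pow_mem (h j).mem_OO _)
  have h4 : (β.prod fun l k => N l ^ k) ≠ 0 :=
    Finset.prod_ne_zero_iff.2 fun j _ => pow_ne_zero _ (hN j)
  have h5 := (h3.mul' h1).eq_zero (by
    simp only [div_pow, Finsupp.prod, Finset.prod_div_distrib] at h2 h4 ⊢
    rwa [mul_assoc, mul_div_cancel₀ _ h4])
  have h6 : (β.prod fun l k => (a l / N l) ^ k) ≠ 0 :=
    Finset.prod_ne_zero_iff.2 fun j _ => pow_ne_zero _ (div_ne_zero (ha j) (hN j))
  exact (mul_eq_zero.1 ((mul_eq_zero.1 h5).resolve_right h6)).resolve_right h4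

theorem sep_Sm_Rt {σ : Type} {N w : σ → HR} (h : ∀ l, N l ≠ 0 ∧ w l ≠ 0 ∧ Tiny Q (w l / N l)) :
    Sep (Sm Q N) (Rt Q w) := sep_of_tiny (fun l => (h l).2.1) (fun l => (h l).1) fun l => (h l).2.2

theorem scw_congr {σ : Type} {K : Subfield HR} {R : Subring HR} (hR : ∀ k ∈ K, k ∈ R) {N M : σ → HR}
    (h : ∀ l, N l ≠ 0 ∧ M l ≠ 0 ∧ N l / M l ∈ R ∧ M l / N l ∈ R) : scw R hR N = scw R hR M := by
  have key : ∀ N M : σ → HR, (∀ l, N l ≠ 0 ∧ M l / N l ∈ R) → ∀ (β : σ →₀ ℕ) x,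
      x * β.prod (fun l k => N l ^ k) ∈ R → x * β.prod (fun l k => M l ^ k) ∈ R := by
    intro N M h β x hx
    have := mul_mem hx (prod_mem (t := β.support) fun l _ => pow_mem (h l).2 (β l))
    rwa [mul_assoc, Finsupp.prod, ← Finset.prod_mul_distrib, Finset.prod_congr rfl fun l _ => by
      rw [← mul_pow, mul_div_cancel₀ _ (h l).1]] at this
  have e : (scw R hR N).s = (scw R hR M).s := funext fun β => Submodule.ext fun x =>
    ⟨key N M (fun l => ⟨(h l).1, (h l).2.2.2⟩) β x, key M N (fun l => ⟨(h l).2.1, (h l).2.2.1⟩) β x⟩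
  generalize scw R hR N = a, scw R hR M = b at e
  cases a
  cases b
  cases e
  rfl

theorem Sm_congr {σ : Type} {N M : σ → HR} (h : ∀ l, Big Q (N l / M l) ∧ N l / M l ∈ OO Q) :
    Sm Q N = Sm Q M := scw_congr _ fun l =>
  ⟨(div_ne_zero_iff.1 (h l).1.ne_zero).1, (div_ne_zero_iff.1 (h l).1.ne_zero).2, (h l).2,
    inv_div (N l) (M l) ▸ (h l).1.inv_mem⟩

theorem Rt_congr {σ : Type} {w w' : σ → HR} (h : ∀ l, w' l ≠ 0 ∧ w l / w' l ∈ KK Q ∧ w l ≠ 0) :
    Rt Q w = Rt Q w' := scw_congr _ fun l => ⟨(h l).2.2, (h l).1, KK_le_RT _ (h l).2.1,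
      inv_div (w l) (w' l) ▸ KK_le_RT _ ((KK Q).inv_mem (h l).2.1)⟩

variable {z w u : HC}

theorem tinyC_zero : TinyC Q 0 := by rw [TinyC, nm_zero]; exact tiny_zero
theorem not_tinyC {Q : HR} : ¬TinyC Q z ↔ BigC Q z := not_not
theorem not_bigC {Q : HR} : ¬BigC Q z ↔ TinyC Q z := Iff.rfl
theorem tinyC_cr {Q : HR} : TinyC Q (cr x) ↔ Tiny Q x := by rw [TinyC, nm_cr, tiny_abs]
theorem bigC_cr {Q : HR} : BigC Q (cr x) ↔ Big Q x := by rw [BigC, nm_cr, big_abs]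
theorem tinyC_cj {Q : HR} : TinyC Q (cj z) ↔ TinyC Q z := by rw [TinyC, nm_cj, TinyC]
theorem bigC_cj {Q : HR} : BigC Q (cj z) ↔ BigC Q z := by rw [BigC, nm_cj, BigC]

namespace TinyC

theorem of_le (h : Tiny Q x) (hle : nm z ≤ x) : TinyC Q z := h.mono (nm_nonneg z) hle
theorem of_eq (h : z = w) : TinyC Q (z - w) := by rw [h, sub_self]; exact tinyC_zero
theorem neg (h : TinyC Q z) : TinyC Q (-z) := by rwa [TinyC, nm_neg]
theorem symm (h : TinyC Q (z - w)) : TinyC Q (w - z) := by rwa [TinyC, nm_sub_comm]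
theorem add (hz : TinyC Q z) (hw : TinyC Q w) : TinyC Q (z + w) :=
  of_le (Tiny.add hz hw) (nm_add_le z w)
theorem sub (hz : TinyC Q z) (hw : TinyC Q w) : TinyC Q (z - w) :=
  of_le (Tiny.add hz hw) (nm_sub_le z w)
theorem trans (h : TinyC Q (z - w)) (h' : TinyC Q (w - u)) : TinyC Q (z - u) :=
  of_le (Tiny.add h h') (nm_sub_tri z w u)
theorem mul (hz : TinyC Q z) (hw : nm w ∈ OO Q) : TinyC Q (z * w) := by
  rw [TinyC, nm_mul]; exact Tiny.mul hz hw
theorem mul' (hw : TinyC Q w) (hz : nm z ∈ OO Q) : TinyC Q (z * w) := mul_comm w z ▸ hw.mul hz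
theorem cj (h : TinyC Q z) : TinyC Q (cj z) := tinyC_cj.2 h
theorem sum {J : Type} {s : Finset J} {f : J → HC} (h : ∀ j ∈ s, TinyC Q (f j)) :
    TinyC Q (∑ j ∈ s, f j) := Finset.sum_induction f _ (fun _ _ => add) tinyC_zero h
theorem mul_sub {z' w' : HC} (hz : TinyC Q (z - z')) (hw : TinyC Q (w - w')) (h1 : nm w ∈ OO Q)
    (h2 : nm z' ∈ OO Q) : TinyC Q (z * w - z' * w') := by
  rw [show z * w - z' * w' = (z - z') * w + z' * (w - w') by ring]
  exact (hz.mul h1).add (hw.mul' h2)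
theorem prod_sub {J : Type} {s : Finset J} {f g : J → HC} (h : ∀ j ∈ s, TinyC Q (f j - g j))
    (hf : ∀ j ∈ s, nm (f j) ≤ 1) (hg : ∀ j ∈ s, nm (g j) ≤ 1) :
    TinyC Q (∏ j ∈ s, f j - ∏ j ∈ s, g j) := by
  classical
  induction s using Finset.induction_on with
  | empty => exact of_eq rfl
  | insert a s ha ih =>
    rw [Finset.prod_insert ha, Finset.prod_insert ha]
    have m := fun j (hj : j ∈ s) => Finset.mem_insert_of_mem (b := a) hj
    exact mul_sub (h a (Finset.mem_insert_self _ _))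
      (ih (fun j hj => h j (m j hj)) (fun j hj => hf j (m j hj)) fun j hj => hg j (m j hj))
      (nm_OO (nm_prod_le_one fun j hj => hf j (m j hj))) (nm_OO (hg a (Finset.mem_insert_self _ _)))
theorem ee_sub (h : Tiny Q (x - y)) : TinyC Q (ee x - ee y) :=
  of_le (h.abs.mul' (ofNat_mem _ 7)) (nm_ee_sub x y)
theorem nm_sub (h : TinyC Q (z - w)) : Tiny Q (nm z - nm w) := Tiny.of_le' h (abs_nm_sub_le z w)
theorem near_ZZ (h : TinyC Q (ee x - 1)) : ∃ z ∈ ZZ, Tiny Q (x - z) := by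
  obtain ⟨z, hz, h1⟩ := exists_ZZ_le_nm x
  exact ⟨z, hz, Tiny.of_le' h (by linarith [abs_nonneg (x - z)])⟩

end TinyC

namespace BigC

theorem of_le (h : Big Q x) (hle : |x| ≤ nm z) : BigC Q z := h.of_le' hle
theorem ne_zero (h : BigC Q z) : z ≠ 0 := fun e => Big.ne_zero h (nm_eq_zero.2 e)
theorem of_sub (h : BigC Q z) (h' : TinyC Q (z - w)) : BigC Q w :=
  by_contra fun c => (by have := TinyC.add h' c; rwa [sub_add_cancel] at this : TinyC Q z) h
theorem mul (hz : BigC Q z) (hw : BigC Q w) : BigC Q (z * w) := by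
  rw [BigC, nm_mul]; exact Big.mul hz hw
theorem of_mul (h : BigC Q (z * w)) (hw : nm w ∈ OO Q) : BigC Q z :=
  by_contra fun c => TinyC.mul c hw h
theorem of_mul' (h : BigC Q (z * w)) (hz : nm z ∈ OO Q) : BigC Q w :=
  by_contra fun c => TinyC.mul' c hz h
theorem of_add (h : BigC Q (z + w)) : BigC Q z ∨ BigC Q w :=
  by_contra fun c => TinyC.add (not_or.1 c).1 (not_or.1 c).2 h
theorem of_sum {J : Type} {s : Finset J} {f : J → HC} (h : BigC Q (∑ j ∈ s, f j)) :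
    ∃ j ∈ s, BigC Q (f j) := by
  by_contra c
  exact TinyC.sum (fun j hj hb => c ⟨j, hj, hb⟩) h

end BigC

end Pool.Agent.P.MP_a14ce1_nt.Nil
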