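import Mathlib

/-! Strongly recurrent linear functions are highly non-diophantine. -/

namespace Pool.Agent.P.MP_a14ce1_nt.Nil

open Finset

/-- a set of integers of diameter at most `l` has at most `l + 1` elements -/
theorem card_le_of_diam (S : Finset ℤ) {l : ℝ} (hl : 0 ≤ l)
    (h : ∀ a ∈ S, ∀ b ∈ S, ((a - b : ℤ) : ℝ) ≤ l) : (S.card : ℝ) ≤ l + 1 := by
  rcases S.eq_empty_or_nonempty with rfl | hne
  · simp only [card_empty, Nat.cast_zero]; linarith
  have h1 : S ⊆ Finset.Icc (S.min' hne) (S.max' hne) := fun x hx =>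
    Finset.mem_Icc.mpr ⟨S.min'_le x hx, S.le_max' x hx⟩
  have h2 := Finset.card_le_card h1
  rw [Int.card_Icc] at h2
  have h3 := h _ (S.max'_mem hne) _ (S.min'_mem hne)
  have h4 : S.min' hne ≤ S.max' hne := S.min'_le _ (S.max'_mem hne)
  have h5 : (S.card : ℤ) ≤ S.max' hne + 1 - S.min' hne := by omega
  have h6 : (S.card : ℝ) ≤ ((S.max' hne + 1 - S.min' hne : ℤ) : ℝ) := by exact_mod_cast h5
  push_cast at h3 h6
  linarith

theorem card_le_fib {α β : Type*} [DecidableEq β] (S : Finset α) (f : α → β) {A B : ℝ}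
    (hA : 0 ≤ A) (h1 : ∀ y, ((S.filter fun x => f x = y).card : ℝ) ≤ A)
    (h2 : ((S.image f).card : ℝ) ≤ B) : (S.card : ℝ) ≤ A * B := by
  rw [Finset.card_eq_sum_card_image f S]
  push_cast
  refine (Finset.sum_le_card_nsmul _ _ A fun y _ => h1 y).trans ?_
  rw [nsmul_eq_mul, mul_comm]
  exact mul_le_mul_of_nonneg_left h2 hA

/-- two close elements in a dense set -/
theorem exists_close (S : Finset ℤ) {δ M : ℝ} (hδ : 0 < δ) (hM : 3 ≤ δ * M)
    (hS : ∀ k ∈ S, |(k : ℝ)| ≤ M) (hc : δ * M ≤ S.card) :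
    ∃ a ∈ S, ∃ b ∈ S, b < a ∧ ((a - b : ℤ) : ℝ) ≤ 8 / δ := by
  classical
  by_contra hno
  push Not at hno
  have hM0 : 0 < M := by by_contra h; push Not at h; nlinarith
  have hg : 0 < 8 / δ := by positivity
  have hinj : Set.InjOn (fun k : ℤ => ⌊(k : ℝ) / (8 / δ)⌋) S := by
    have aux : ∀ a ∈ S, ∀ b ∈ S, b < a → ⌊(a : ℝ) / (8 / δ)⌋ ≠ ⌊(b : ℝ) / (8 / δ)⌋ := by
      intro a ha b hb hab h
      have h1 := hno a ha b hb hab
      have h2 := Int.abs_sub_lt_one_of_floor_eq_floor h
      rw [← sub_div, abs_lt, div_lt_one hg] at h2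
      push_cast at h1
      linarith [h2.2]
    intro a ha b hb h
    rcases lt_trichotomy a b with hab | hab | hab
    · exact (aux b hb a ha hab h.symm).elim
    · exact hab
    · exact (aux a ha b hb hab h).elim
  have h1 := card_le_of_diam (S.image fun k : ℤ => ⌊(k : ℝ) / (8 / δ)⌋) (l := δ * M / 4 + 1)
    (by positivity) (by
      intro a ha b hb
      obtain ⟨x, hx, rfl⟩ := Finset.mem_image.mp ha
      obtain ⟨y, hy, rfl⟩ := Finset.mem_image.mp hb
      have h2 := Int.floor_le ((x : ℝ) / (8 / δ))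
      have h3 := Int.lt_floor_add_one ((y : ℝ) / (8 / δ))
      have h4 : (x : ℝ) / (8 / δ) - (y : ℝ) / (8 / δ) ≤ δ * M / 4 := by
        rw [← sub_div, div_le_iff₀ hg]
        have := (abs_le.mp (hS x hx)).2
        have := (abs_le.mp (hS y hy)).1
        have e : δ * M / 4 * (8 / δ) = 2 * M := by field_simp; ring
        linarith
      push_cast
      linarith)
  rw [Finset.card_image_of_injOn hinj] at h1
  linarith

/-- VIN1 (affine form). -/
theorem vin1 (S : Finset ℤ) {δ ε M α θ : ℝ} (hδ : 0 < δ) (hδ1 : δ ≤ 8) (hM : 3 ≤ δ * M)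
    (hε : ε ≤ δ / 16) (hS : ∀ k ∈ S, |(k : ℝ)| ≤ M) (hc : δ * M ≤ S.card)
    (h : ∀ k ∈ S, ∃ m : ℤ, |θ + α * k - m| ≤ ε) :
    ∃ q : ℕ, 0 < q ∧ (q : ℝ) ≤ 8 / δ ∧ ∃ a : ℤ, |q * α - a| * M ≤ 128 * ε / δ ^ 2 := by
  classical
  obtain ⟨x, hx, y, hy, hxy, hq⟩ := exists_close S hδ hM hS hc
  have hM0 : 0 < M := by by_contra h; push Not at h; nlinarith
  choose! m hm using h
  obtain ⟨q, hqe⟩ : ∃ q : ℕ, (q : ℤ) = x - y := ⟨(x - y).toNat, by omega⟩
  have hq0 : 0 < q := by omega
  have hqr : (q : ℝ) = (x : ℝ) - y := by exact_mod_cast hqe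
  have hq1 : (0 : ℝ) < q := by exact_mod_cast hq0
  have hq8 : (q : ℝ) ≤ 8 / δ := by rw [hqr]; exact_mod_cast hq
  refine ⟨q, hq0, hq8, m x - m y, ?_⟩
  set a : ℤ := m x - m y with ha
  set β : ℝ := q * α - a with hβ
  have hε0 : 0 ≤ ε := (abs_nonneg _).trans (hm x hx)
  have hβ2 : |β| ≤ 2 * ε := by
    have e : β = (θ + α * x - m x) - (θ + α * y - m y) := by
      rw [hβ, hqr, ha]; push_cast; ring
    rw [e]
    refine (abs_sub _ _).trans ?_
    linarith [hm x hx, hm y hy]
  rcases eq_or_lt_of_le (abs_nonneg β) with h0 | h0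
  · rw [← h0, zero_mul]; positivity
  -- count
  have hqz : (q : ℤ) ≠ 0 := by omega
  have hdec : ∀ k : ℤ, θ + α * k - m k =
      θ + α * (k % q : ℤ) + β * (k / q : ℤ) - (m k - a * (k / q) : ℤ) := by
    intro k
    have e : (k : ℝ) = (k % q : ℤ) + q * (k / q : ℤ) := by
      exact_mod_cast (Int.emod_add_mul_ediv k q).symm
    rw [hβ]
    push_cast
    conv_lhs => rw [e]
    ring
  have hdiv : ∀ k l : ℤ, k % q = l % q → (q : ℝ) * (((k / q : ℤ) : ℝ) - (l / q : ℤ)) = k - l := by
    intro k l hkl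
    have e1 := Int.emod_add_mul_ediv k q
    have e2 := Int.emod_add_mul_ediv l q
    have : (q : ℤ) * (k / q - l / q) = k - l := by linear_combination e1 - e2 - hkl
    exact_mod_cast this
  have hcount : (S.card : ℝ) ≤ ((4 * ε / |β|) * (|β| * (2 * M / q) + 2)) * q := by
    refine card_le_fib S (fun k => k % (q : ℤ)) (by positivity) (fun r => ?_) ?_
    · refine card_le_fib _ (fun k => m k - a * (k / q)) (by positivity) (fun n => ?_) ?_
      · set T := (S.filter fun k => k % (q : ℤ) = r).filter fun k => m k - a * (k / q) = n with hT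
        have hinj : Set.InjOn (fun k : ℤ => k / (q : ℤ)) T := by
          intro k hk l hl hkl
          simp only [hT, Finset.coe_filter, Finset.mem_filter, Set.mem_ofPred_eq] at hk hl
          have e1 := Int.emod_add_mul_ediv k q
          have e2 := Int.emod_add_mul_ediv l q
          simp only at hkl
          rw [← e1, ← e2, hk.1.2, hl.1.2, hkl]
        rw [← Finset.card_image_of_injOn hinj]
        refine (card_le_of_diam _ (l := 2 * ε / |β|) (by positivity) ?_).trans ?_
        · intro u hu v hv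
          obtain ⟨k, hk, rfl⟩ := Finset.mem_image.mp hu
          obtain ⟨l, hl, rfl⟩ := Finset.mem_image.mp hv
          simp only [hT, Finset.mem_filter] at hk hl
          have h1 := hm k hk.1.1
          have h2 := hm l hl.1.1
          rw [hdec, hk.1.2, hk.2] at h1
          rw [hdec, hl.1.2, hl.2] at h2
          have h3 : |β * ((k / q - l / q : ℤ) : ℝ)| ≤ 2 * ε := by
            have e : β * ((k / q - l / q : ℤ) : ℝ) =
                (θ + α * r + β * (k / q : ℤ) - n) - (θ + α * r + β * (l / q : ℤ) - n) := by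
              push_cast; ring
            rw [e]
            refine (abs_sub _ _).trans ?_
            linarith
          rw [abs_mul] at h3
          rw [le_div_iff₀ h0]
          have := le_abs_self ((k / q - l / q : ℤ) : ℝ)
          nlinarith
        · have : 1 ≤ 2 * ε / |β| := by rw [le_div_iff₀ h0]; linarith
          have e : 4 * ε / |β| = 2 * ε / |β| + 2 * ε / |β| := by ring
          linarith
      · refine (card_le_of_diam _ (l := |β| * (2 * M / q) + 1) (by positivity) ?_).trans
          (le_of_eq (by ring))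
        intro u hu v hv
        obtain ⟨k, hk, rfl⟩ := Finset.mem_image.mp hu
        obtain ⟨l, hl, rfl⟩ := Finset.mem_image.mp hv
        simp only [Finset.mem_filter] at hk hl
        have h1 := hm k hk.1
        have h2 := hm l hl.1
        rw [hdec, hk.2] at h1
        rw [hdec, hl.2] at h2
        have h3 : |((k / q : ℤ) : ℝ) - (l / q : ℤ)| ≤ 2 * M / q := by
          rw [le_div_iff₀ hq1, ← abs_of_pos hq1, ← abs_mul, mul_comm,
            hdiv k l (hk.2.trans hl.2.symm)]
          refine (abs_sub _ _).trans ?_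
          linarith [hS k hk.1, hS l hl.1]
        have h4 : β * (((k / q : ℤ) : ℝ) - (l / q : ℤ)) ≤ |β| * (2 * M / q) := by
          refine (le_abs_self _).trans ?_
          rw [abs_mul]
          exact mul_le_mul_of_nonneg_left h3 h0.le
        rw [Int.cast_sub]
        have h5 := (abs_le.mp h1).1
        have h6 := (abs_le.mp h2).2
        have h7 : 2 * ε ≤ 1 := by linarith
        linarith
    · refine (card_le_of_diam _ (l := q - 1) ?_ ?_).trans (le_of_eq (by ring))
      · have : (1 : ℝ) ≤ q := by exact_mod_cast hq0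
        linarith
      · intro u hu v hv
        obtain ⟨k, -, rfl⟩ := Finset.mem_image.mp hu
        obtain ⟨l, -, rfl⟩ := Finset.mem_image.mp hv
        have h1 := Int.emod_lt_of_pos k (show (0 : ℤ) < q by omega)
        have h2 := Int.emod_nonneg l hqz
        have : k % q - l % q ≤ (q : ℤ) - 1 := by omega
        exact_mod_cast this
  have e : ((4 * ε / |β|) * (|β| * (2 * M / q) + 2)) * q = 8 * ε * M + 8 * ε * q / |β| := by
    field_simp
    ring
  rw [e] at hcount
  have h1 : δ * M / 2 ≤ 8 * ε * q / |β| := by nlinarith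
  rw [le_div_iff₀ h0] at h1
  rw [le_div_iff₀ hδ] at hq8
  rw [le_div_iff₀ (by positivity)]
  have h2 : ε * (q * δ) ≤ ε * 8 := mul_le_mul_of_nonneg_left hq8 hε0
  nlinarith

end Pool.Agent.P.MP_a14ce1_nt.Nil
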