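import Pool.Agent.P.MP_a14ce1_nt.Nil.Vin1

/-! Strongly recurrent polynomials in one variable, polynomial bounds. -/

namespace Pool.Agent.P.MP_a14ce1_nt.Nil

open Finset Polynomial

/-- popularity -/
theorem popular {β : Type*} (Y : Finset β) (w : β → ℝ) {t B : ℝ} (ht : 0 ≤ t)
    (hw : ∀ y ∈ Y, w y ≤ B) :
    ∑ y ∈ Y, w y ≤ Y.card * t + (Y.filter fun y => t ≤ w y).card * B := by
  rw [← Finset.sum_filter_add_sum_filter_not Y fun y => t ≤ w y, add_comm]
  refine add_le_add ?_ ?_
  · refine (Finset.sum_le_card_nsmul _ _ t fun y hy => ?_).trans ?_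
    · exact (not_le.mp (Finset.mem_filter.mp hy).2).le
    · rw [nsmul_eq_mul]
      exact mul_le_mul_of_nonneg_right (by exact_mod_cast Finset.card_filter_le _ _) ht
  · refine (Finset.sum_le_card_nsmul _ _ B fun y hy => hw y (Finset.mem_filter.mp hy).1).trans ?_
    rw [nsmul_eq_mul]

/-- pigeonhole a bounded positive integer -/
theorem pig_nat {β : Type*} (T : Finset β) (hT : T.Nonempty) (q : β → ℕ) {Q : ℝ}
    (hq : ∀ x ∈ T, 0 < q x ∧ (q x : ℝ) ≤ Q) :
    ∃ x0 ∈ T, (T.card : ℝ) ≤ Q * (T.filter fun x => q x = q x0).card := by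
  classical
  obtain ⟨x0, h0, hmax⟩ := Finset.exists_max_image T (fun x => (T.filter fun y => q y = q x).card) hT
  refine ⟨x0, h0, ?_⟩
  rw [mul_comm]
  refine card_le_fib T q (by positivity) (fun y => ?_) ?_
  · rcases (T.filter fun x => q x = y).eq_empty_or_nonempty with h | ⟨x, hx⟩
    · rw [h]; simp
    · obtain ⟨h1, rfl⟩ := Finset.mem_filter.mp hx
      exact_mod_cast hmax x h1
  · have hQ : 0 ≤ Q := (Nat.cast_nonneg _).trans (hq x0 h0).2
    have : T.image q ⊆ Finset.Icc 1 ⌊Q⌋₊ := by
      intro y hy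
      obtain ⟨x, hx, rfl⟩ := Finset.mem_image.mp hy
      exact Finset.mem_Icc.mpr ⟨(hq x hx).1, Nat.le_floor (hq x hx).2⟩
    have h2 := Finset.card_le_card this
    rw [Nat.card_Icc, Nat.add_sub_cancel] at h2
    exact le_trans (by exact_mod_cast h2) (Nat.floor_le hQ)

theorem taylor_coeff_top (P : ℝ[X]) {n : ℕ} (hP : P.natDegree ≤ n + 1) (h : ℝ) :
    (taylor h P).coeff n = P.coeff n + (n + 1) * P.coeff (n + 1) * h := by
  rw [taylor_coeff, eval_eq_sum_range' (n := 2)
    (lt_of_le_of_lt (natDegree_hasseDeriv_le _ _) (by omega))]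
  simp only [Finset.sum_range_succ, Finset.sum_range_zero, hasseDeriv_coeff, zero_add,
    Nat.choose_self, pow_zero, pow_one, add_comm 1 n, Nat.choose_succ_self_right]
  push_cast
  ring

theorem two_pow_le {A : ℝ} (hA : 2 ≤ A) (n : ℕ) : (2 : ℝ) ^ n ≤ A ^ n :=
  pow_le_pow_left₀ (by norm_num) hA n

theorem nat_le_pow {A : ℝ} (hA : 2 ≤ A) (n : ℕ) : (n : ℝ) ≤ A ^ n := by
  refine le_trans ?_ (two_pow_le hA n)
  exact_mod_cast Nat.lt_two_pow_self.le

/-- the top coefficient -/
theorem vin_top (d : ℕ) : ∃ C : ℕ, ∀ (A ε M : ℝ) (S : Finset ℤ) (P : ℝ[X]),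
    P.natDegree ≤ d + 1 → 2 ≤ A → A ^ C ≤ M → ε * A ^ C ≤ 1 → (∀ k ∈ S, |(k : ℝ)| ≤ M) →
    M ≤ A * S.card → (∀ k ∈ S, ∃ m : ℤ, |P.eval (k : ℝ) - m| ≤ ε) →
    ∃ q : ℕ, 0 < q ∧ (q : ℝ) ≤ A ^ C ∧
      ∃ a : ℤ, |q * P.coeff (d + 1) - a| * M ^ (d + 1) ≤ A ^ C * ε := by
  classical
  induction d with
  | zero =>
    refine ⟨9, fun A ε M S P hP hA hM hε hS hc h => ?_⟩
    have hA0 : 0 < A := by linarith
    have h3 := two_pow_le hA 3
    have h7 := two_pow_le hA 7
    have h8 := two_pow_le hA 8
    have hA8 : 0 < A ^ 8 := by positivity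
    have hM' : A * A ^ 8 ≤ M := by rwa [← pow_succ']
    have hne : S.Nonempty := by
      rw [← Finset.card_pos]
      have : (0 : ℝ) < S.card := by
        by_contra hh
        nlinarith
      exact_mod_cast this
    have hε0 : 0 ≤ ε := by
      obtain ⟨k, hk⟩ := hne
      obtain ⟨m, hm⟩ := h k hk
      exact (abs_nonneg _).trans hm
    obtain ⟨q, hq0, hq, a, ha⟩ := vin1 S (δ := 1 / A) (ε := ε) (M := M) (α := P.coeff 1)
      (θ := P.coeff 0) (by positivity) (by rw [div_le_iff₀ hA0]; linarith)
      (by rw [div_mul_eq_mul_div, le_div_iff₀ hA0]; nlinarith)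
      (by
        rw [div_div, le_div_iff₀ (by positivity)]
        refine le_trans (mul_le_mul_of_nonneg_left ?_ hε0) hε
        rw [pow_succ']
        nlinarith)
      hS (by rw [div_mul_eq_mul_div, div_le_iff₀ hA0]; linarith)
      (fun k hk => by
        obtain ⟨m, hm⟩ := h k hk
        refine ⟨m, ?_⟩
        rw [eval_eq_sum_range' (n := 2) (by omega)] at hm
        simpa [Finset.sum_range_succ] using hm)
    refine ⟨q, hq0, hq.trans ?_, a, ?_⟩
    · rw [div_div_eq_mul_div, div_one, pow_succ]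
      nlinarith
    · rw [zero_add, pow_one]
      refine ha.trans ?_
      have e : 128 * ε / (1 / A) ^ 2 = 128 * A ^ 2 * ε := by field_simp
      rw [e]
      refine mul_le_mul_of_nonneg_right ?_ hε0
      have : A ^ 9 = A ^ 7 * A ^ 2 := by ring
      rw [this]
      refine mul_le_mul_of_nonneg_right (by linarith) (by positivity)
  | succ d ih =>
    obtain ⟨C, ih⟩ := ih
    refine ⟨18 * C + d + 14, fun A ε M S P hP hA hM hε hS hc h => ?_⟩
    have hA0 : 0 < A := by linarith
    have hA1 : 1 ≤ A := by linarith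
    have hmono : ∀ {i j : ℕ}, i ≤ j → A ^ i ≤ A ^ j := fun h => pow_le_pow_right₀ hA1 h
    have hM1 : 1 ≤ M := (one_le_pow₀ hA1).trans hM
    have hS0 : (0 : ℝ) < S.card := by
      by_contra hh
      nlinarith
    have hne : S.Nonempty := by
      rw [← Finset.card_pos]
      exact_mod_cast hS0
    have hε0 : 0 ≤ ε := by
      obtain ⟨k, hk⟩ := hne
      obtain ⟨m, hm⟩ := h k hk
      exact (abs_nonneg _).trans hm
    set Y : Finset ℤ := (S ×ˢ S).image fun p => p.2 - p.1 with hY
    have hYb : ∀ y ∈ Y, |(y : ℝ)| ≤ 2 * M := by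
      intro y hy
      obtain ⟨p, hp, rfl⟩ := Finset.mem_image.mp hy
      obtain ⟨h1, h2⟩ := Finset.mem_product.mp hp
      push_cast
      refine (abs_sub _ _).trans ?_
      linarith [hS _ h1, hS _ h2]
    have hYc : (Y.card : ℝ) ≤ 5 * M := by
      refine (card_le_of_diam Y (l := 4 * M) (by linarith) fun a ha b hb => ?_).trans (by linarith)
      have := (abs_le.mp (hYb a ha)).2
      have := (abs_le.mp (hYb b hb)).1
      push_cast
      linarith
    set Sh : ℤ → Finset ℤ := fun y => S.filter fun k => k + y ∈ S with hSh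
    have hsum : (S.card : ℝ) * S.card ≤ ∑ y ∈ Y, ((Sh y).card : ℝ) := by
      have h1 := Finset.card_eq_sum_card_image (fun p : ℤ × ℤ => p.2 - p.1) (S ×ˢ S)
      rw [Finset.card_product] at h1
      have h2 : ∑ y ∈ Y, ((S ×ˢ S).filter fun p : ℤ × ℤ => p.2 - p.1 = y).card ≤
          ∑ y ∈ Y, (Sh y).card := by
        refine Finset.sum_le_sum fun y _ => Finset.card_le_card_of_injOn Prod.fst ?_ ?_
        · intro p hp
          simp only [Finset.coe_filter, Finset.mem_product, Set.mem_ofPred_eq, hSh] at hp ⊢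
          refine ⟨hp.1.1, ?_⟩
          rw [← hp.2, add_sub_cancel]
          exact hp.1.2
        · intro p hp p' hp' e
          simp only [Finset.coe_filter, Set.mem_ofPred_eq] at hp hp'
          refine Prod.ext e ?_
          have := hp.2
          have := hp'.2
          omega
      exact_mod_cast h1.le.trans h2
    have hpop := popular Y (fun y => ((Sh y).card : ℝ)) (t := M / A ^ 6) (B := S.card)
      (by positivity) (fun y _ => by exact_mod_cast Finset.card_filter_le _ _)
    set T := Y.filter fun y => M / A ^ 6 ≤ ((Sh y).card : ℝ) with hT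
    have hT1 : M ≤ 2 * A * T.card := by
      have h1 : (Y.card : ℝ) * (M / A ^ 6) ≤ S.card * S.card / 2 := by
        refine (mul_le_mul_of_nonneg_right hYc (by positivity)).trans ?_
        rw [← mul_div_assoc, div_le_iff₀ (by positivity)]
        have h4 := two_pow_le hA 4
        have h2 : M * M ≤ (A * S.card) * (A * S.card) := mul_self_le_mul_self (by linarith) hc
        have e : (S.card : ℝ) * S.card / 2 * A ^ 6 = (A * S.card) * (A * S.card) * (A ^ 4 / 2) := by
          ring
        rw [e]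
        nlinarith
      have h2 : (S.card : ℝ) ≤ 2 * T.card := by
        refine le_of_mul_le_mul_right ?_ hS0
        linarith
      nlinarith
    have hTne : T.Nonempty := by
      rw [← Finset.card_pos]
      have : (0 : ℝ) < T.card := by
        by_contra hh
        nlinarith
      exact_mod_cast this
    have hA6 : 2 ≤ A ^ 6 := hA.trans (by simpa using hmono (show 1 ≤ 6 by norm_num))
    have hq : ∀ y ∈ T, ∃ q : ℕ, 0 < q ∧ (q : ℝ) ≤ A ^ (6 * C) ∧ ∃ a : ℤ,
        |0 + q * (d + 2) * P.coeff (d + 2) * y - a| ≤ A ^ (6 * C) * (2 * ε) / M ^ (d + 1) := by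
      intro y hy
      obtain ⟨q, q0, q1, a, ha⟩ := ih (A ^ 6) (2 * ε) M (Sh y) (taylor (y : ℝ) P - P)
        (by
          rw [natDegree_le_iff_coeff_eq_zero]
          intro N hN
          rw [coeff_sub, taylor_coeff_top P (by omega), coeff_eq_zero_of_natDegree_lt (n := N + 1)
            (by omega)]
          ring)
        hA6 (by rw [← pow_mul]; exact (hmono (by omega)).trans hM)
        (by
          rw [← pow_mul]
          refine le_trans ?_ hε
          have := hmono (show 6 * C + 1 ≤ 18 * C + d + 14 by omega)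
          rw [pow_succ] at this
          have h5 : 0 < A ^ (6 * C) := by positivity
          nlinarith [mul_le_mul_of_nonneg_left this hε0, mul_nonneg hε0 h5.le])
        (fun k hk => hS k (Finset.mem_filter.mp hk).1)
        (by
          have := (Finset.mem_filter.mp hy).2
          rwa [div_le_iff₀' (by positivity)] at this)
        (fun k hk => by
          obtain ⟨h1, h2⟩ := Finset.mem_filter.mp hk
          obtain ⟨m, hm⟩ := h k h1
          obtain ⟨m', hm'⟩ := h _ h2
          refine ⟨m' - m, ?_⟩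
          rw [eval_sub, taylor_eval]
          push_cast at hm' ⊢
          have e : P.eval ((k : ℝ) + y) - P.eval (k : ℝ) - (m' - m) =
            (P.eval ((k : ℝ) + y) - m') - (P.eval (k : ℝ) - m) := by ring
          rw [e]
          refine (abs_sub _ _).trans ?_
          linarith)
      rw [← pow_mul] at q1 ha
      refine ⟨q, q0, q1, a, ?_⟩
      rw [le_div_iff₀ (by positivity)]
      rw [coeff_sub, taylor_coeff_top P hP] at ha
      refine le_trans (le_of_eq ?_) ha
      congr 2
      push_cast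
      ring
    choose! q q0 q1 hq using hq
    obtain ⟨y0, hy0, hpig⟩ := pig_nat T hTne q fun y hy => ⟨q0 y hy, q1 y hy⟩
    have hB : 0 < A ^ (6 * C) := by positivity
    have hB1 : 1 ≤ A ^ (6 * C) := one_le_pow₀ hA1
    have hD : 0 < A ^ (6 * C + 3) := by positivity
    have hMd : 1 ≤ M ^ (d + 1) := one_le_pow₀ hM1
    obtain ⟨q', p0, p1, a, ha⟩ := vin1 (T.filter fun x => q x = q y0) (δ := 1 / A ^ (6 * C + 3))
      (ε := A ^ (6 * C) * (2 * ε) / M ^ (d + 1)) (M := 2 * M)
      (α := q y0 * (d + 2) * P.coeff (d + 2)) (θ := 0) (by positivity)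
      (by rw [div_le_iff₀ hD]; linarith [one_le_pow₀ (n := 6 * C + 3) hA1])
      (by
        rw [div_mul_eq_mul_div, le_div_iff₀ hD]
        have := (hmono (show 6 * C + 3 + 1 ≤ 18 * C + d + 14 by omega)).trans hM
        rw [pow_succ] at this
        nlinarith)
      (by
        rw [div_div, le_div_iff₀ (by positivity)]
        refine le_trans (mul_le_mul_of_nonneg_right (div_le_self (by positivity) hMd)
          (by positivity)) (le_trans ?_ hε)
        have h1 := hmono (show 6 * C + (6 * C + 3) + 5 ≤ 18 * C + d + 14 by omega)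
        have h5 := two_pow_le hA 5
        rw [pow_add, pow_add] at h1
        have h2 : A ^ (6 * C) * A ^ (6 * C + 3) * 32 ≤ A ^ (18 * C + d + 14) :=
          le_trans (mul_le_mul_of_nonneg_left (by linarith) (by positivity)) h1
        nlinarith [mul_le_mul_of_nonneg_left h2 hε0])
      (fun k hk => hYb k (Finset.mem_filter.mp (Finset.mem_filter.mp hk).1).1)
      (by
        rw [div_mul_eq_mul_div, div_le_iff₀ hD, pow_add]
        have h2 := two_pow_le hA 2
        have h3 : (0 : ℝ) ≤ A ^ (6 * C) * (T.filter fun x => q x = q y0).card := by positivity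
        have h4 : 4 * A ≤ A ^ 3 := by
          rw [pow_succ]
          nlinarith
        have h5 : M ≤ 2 * A * (A ^ (6 * C) * (T.filter fun x => q x = q y0).card) :=
          hT1.trans (mul_le_mul_of_nonneg_left hpig (by positivity))
        nlinarith [mul_le_mul_of_nonneg_right h4 h3])
      (fun k hk => by
        obtain ⟨h1, h2⟩ := Finset.mem_filter.mp hk
        rw [← h2]
        exact hq k h1)
    refine ⟨q' * q y0 * (d + 2), by have := q0 y0 hy0; positivity, ?_, a, ?_⟩
    · rw [div_div_eq_mul_div, div_one] at p1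
      have h1 := q1 y0 hy0
      have h2 := nat_le_pow hA (d + 2)
      have h3 := two_pow_le hA 3
      have h4 : (q' : ℝ) ≤ A ^ 3 * A ^ (6 * C + 3) := by nlinarith
      refine le_trans ?_ (hmono (show 3 + (6 * C + 3) + 6 * C + (d + 2) ≤ _ by omega))
      rw [pow_add, pow_add, pow_add, Nat.cast_mul, Nat.cast_mul]
      exact mul_le_mul (mul_le_mul h4 h1 (by positivity) (by positivity)) h2 (by positivity)
        (by positivity)
    · have e : 128 * (A ^ (6 * C) * (2 * ε) / M ^ (d + 1)) / (1 / A ^ (6 * C + 3)) ^ 2 =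
          256 * A ^ (18 * C + 6) * ε / M ^ (d + 1) := by
        field_simp
        ring
      rw [e, le_div_iff₀ (by positivity)] at ha
      have e2 : ((q' * q y0 * (d + 2) : ℕ) : ℝ) * P.coeff (d + 1 + 1) =
          q' * (q y0 * (d + 2) * P.coeff (d + 2)) := by push_cast; ring
      rw [e2, pow_succ M (d + 1)]
      have h7 := two_pow_le hA 7
      have h1 := hmono (show 7 + (18 * C + 6) ≤ 18 * C + d + 14 by omega)
      rw [pow_add] at h1
      have h2 : 128 * A ^ (18 * C + 6) ≤ A ^ (18 * C + d + 14) :=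
        le_trans (mul_le_mul_of_nonneg_right (by linarith) (by positivity)) h1
      nlinarith [mul_le_mul_of_nonneg_right h2 hε0]

/-- VIN in one variable -/
theorem vin_one (d : ℕ) : ∃ C : ℕ, ∀ (A ε M : ℝ) (S : Finset ℤ) (P : ℝ[X]),
    P.natDegree ≤ d → 2 ≤ A → A ^ C ≤ M → ε * A ^ C ≤ 1 → (∀ k ∈ S, |(k : ℝ)| ≤ M) →
    M ≤ A * S.card → (∀ k ∈ S, ∃ m : ℤ, |P.eval (k : ℝ) - m| ≤ ε) →
    ∃ q : ℕ, 0 < q ∧ (q : ℝ) ≤ A ^ C ∧
      ∀ i, ∃ a : ℤ, |q * P.coeff i - a| * M ^ i ≤ A ^ C * ε := by
  induction d with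
  | zero =>
    refine ⟨0, fun A ε M S P hP hA hM hε hS hc h => ?_⟩
    rw [pow_zero] at hM
    obtain ⟨k, hk⟩ : S.Nonempty := by
      rw [← Finset.card_pos]
      have : (0 : ℝ) < S.card := by
        by_contra hh
        nlinarith
      exact_mod_cast this
    obtain ⟨m, hm⟩ := h k hk
    refine ⟨1, one_pos, by simp, fun i => ?_⟩
    rcases Nat.eq_zero_or_pos i with rfl | hi
    · refine ⟨m, ?_⟩
      rw [eval_eq_sum_range' (n := 1) (by omega)] at hm
      simpa using hm
    · refine ⟨0, ?_⟩
      rw [coeff_eq_zero_of_natDegree_lt (by omega)]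
      simpa using (abs_nonneg _).trans hm
  | succ d ih =>
    obtain ⟨C, ih⟩ := ih
    obtain ⟨D, top⟩ := vin_top d
    refine ⟨C + (D + 1), fun A ε M S P hP hA hM hε hS hc h => ?_⟩
    have hA0 : 0 < A := by linarith
    have hA1 : 1 ≤ A := by linarith
    have hmono : ∀ {i j : ℕ}, i ≤ j → A ^ i ≤ A ^ j := fun h => pow_le_pow_right₀ hA1 h
    have hM1 : 1 ≤ M := (one_le_pow₀ hA1).trans hM
    have hε0 : 0 ≤ ε := by
      obtain ⟨k, hk⟩ : S.Nonempty := by
        rw [← Finset.card_pos]
        have : (0 : ℝ) < S.card := by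
          by_contra hh
          nlinarith
        exact_mod_cast this
      obtain ⟨m, hm⟩ := h k hk
      exact (abs_nonneg _).trans hm
    obtain ⟨q, q0, q1, a, ha⟩ := top A ε M S P hP hA ((hmono (by omega)).trans hM)
      (le_trans (mul_le_mul_of_nonneg_left (hmono (by omega)) hε0) hε) hS hc h
    obtain ⟨r, r0, r1, hr⟩ := ih A (A ^ (D + 1) * ε) M S
      (Polynomial.C (q : ℝ) * (P - monomial (d + 1) (P.coeff (d + 1))))
      (by
        rw [natDegree_le_iff_coeff_eq_zero]
        intro N hN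
        rw [coeff_C_mul, coeff_sub, coeff_monomial]
        split_ifs with h1
        · rw [h1]; ring
        · rw [coeff_eq_zero_of_natDegree_lt (by omega)]; ring)
      hA ((hmono (by omega)).trans hM)
      (le_trans (le_of_eq (by rw [pow_add A C]; ring)) hε) hS hc
      (fun k hk => by
        obtain ⟨m, hm⟩ := h k hk
        refine ⟨q * m - a * k ^ (d + 1), ?_⟩
        rw [eval_mul, eval_C, eval_sub, eval_monomial]
        have e : (q : ℝ) * (P.eval (k : ℝ) - P.coeff (d + 1) * (k : ℝ) ^ (d + 1)) -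
            ((q * m - a * k ^ (d + 1) : ℤ) : ℝ) =
            q * (P.eval (k : ℝ) - m) - (q * P.coeff (d + 1) - a) * (k : ℝ) ^ (d + 1) := by
          push_cast; ring
        rw [e]
        refine (abs_sub _ _).trans ?_
        rw [abs_mul, abs_mul, abs_pow, Nat.abs_cast]
        have h1 : (q : ℝ) * |P.eval (k : ℝ) - m| ≤ A ^ D * ε :=
          mul_le_mul q1 hm (abs_nonneg _) (by positivity)
        have h2 : |q * P.coeff (d + 1) - a| * |(k : ℝ)| ^ (d + 1) ≤ A ^ D * ε :=
          le_trans (mul_le_mul_of_nonneg_left (pow_le_pow_left₀ (abs_nonneg _) (hS k hk) _)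
            (abs_nonneg _)) ha
        have h3 : 0 ≤ A ^ D * ε := by positivity
        rw [pow_succ A D]
        nlinarith)
    refine ⟨r * q, by positivity, ?_, fun i => ?_⟩
    · rw [pow_add, Nat.cast_mul]
      exact mul_le_mul r1 (q1.trans (hmono (by omega))) (by positivity) (by positivity)
    · by_cases hi : d + 1 = i
      · subst hi
        refine ⟨r * a, ?_⟩
        have e : ((r * q : ℕ) : ℝ) * P.coeff (d + 1) - ((r * a : ℤ) : ℝ) =
            r * (q * P.coeff (d + 1) - a) := by push_cast; ring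
        rw [e, abs_mul, Nat.abs_cast, pow_add A C, mul_assoc, mul_assoc]
        exact mul_le_mul r1 (ha.trans (mul_le_mul_of_nonneg_right (hmono (by omega)) hε0))
          (by positivity) (by positivity)
      · obtain ⟨b, hb⟩ := hr i
        refine ⟨b, ?_⟩
        rw [coeff_C_mul, coeff_sub, coeff_monomial, if_neg hi, sub_zero, ← mul_assoc] at hb
        rw [Nat.cast_mul, pow_add A C, mul_assoc (A ^ C)]
        exact hb

end Pool.Agent.P.MP_a14ce1_nt.Nil
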