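import Pool.Agent.P.MP_a14ce1_nt.Nil.Cell
import Pool.Agent.P.MP_a14ce1_nt.Nil.Bez
import Pool.Agent.P.MP_a14ce1_nt.Nil.NiceL

/-!
The algebra of windows and lattices.
-/

open Filter Finset MvPolynomial

set_option linter.unusedSectionVars false

noncomputable section

namespace Pool.Agent.P.MP_a14ce1_nt.Nil

namespace WB

section field

variable {FF : Type} [Field FF] [CharZero FF] {ι : Type} [Fintype ι] [DecidableEq ι]
  {K : Subfield FF} {lv : ι → ℕ} {σ τ : Type} {O : Subring FF} {w : τ → FF} {u v : FF}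
  {p q : MvPolynomial τ FF}

theorem sh_sh (a b : σ → FF) (x : PS lv σ FF) : sh a (sh b x) = sh (a + b) x := by
  simp only [sh, sb_sb, map_add, aeval_X, aeval_C, algebraMap_eq, Pi.add_apply, add_assoc]

theorem sb_X (x : PS lv σ FF) : sb X x = x := by
  apply UT.ext
  ext p q : 2
  simp [sb]

theorem sh_zero (x : PS lv σ FF) : sh 0 x = x := by
  simp only [sh, Pi.zero_apply, map_zero, add_zero]
  exact sb_X x

theorem sh_neg (a : σ → FF) (x : PS lv σ FF) : sh a (sh (-a) x) = x := by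
  rw [sh_sh, add_neg_cancel, sh_zero]

theorem neg_sh (a : σ → FF) (x : PS lv σ FF) : sh (-a) (sh a x) = x := by
  rw [sh_sh, neg_add_cancel, sh_zero]

/-- The weighted coefficients are multiples of `u`. -/
def WC (O : Subring FF) (w : τ → FF) (u : FF) (p : MvPolynomial τ FF) : Prop :=
  ∀ β : τ →₀ ℕ, ∃ o ∈ O, coeff β p * β.prod (fun l k => w l ^ k) = o * u

theorem WC.add (hp : WC O w u p) (hq : WC O w u q) : WC O w u (p + q) := fun β => by
  obtain ⟨a, ha, e⟩ := hp β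
  obtain ⟨b, hb, e'⟩ := hq β
  exact ⟨a + b, add_mem ha hb, by rw [coeff_add, add_mul, e, e', add_mul]⟩

theorem WC.mul (hp : WC O w u p) (hq : WC O w v q) : WC O w (u * v) (p * q) := fun β => by
  classical
  choose a ha e using hp
  choose b hb e' using hq
  refine ⟨∑ z ∈ antidiagonal β, a z.1 * b z.2, sum_mem fun z _ => mul_mem (ha _) (hb _), ?_⟩
  rw [coeff_mul, sum_mul, sum_mul]
  refine sum_congr rfl fun z hz => ?_
  rw [← mem_antidiagonal.1 hz, Finsupp.prod_add_index' (by simp) (fun l a b => pow_add _ _ _),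
    mul_mul_mul_comm, e, e', mul_mul_mul_comm]

theorem wc_mono {γ : τ →₀ ℕ} {a o : FF} (ho : o ∈ O)
    (e : a * γ.prod (fun l k => w l ^ k) = o * u) : WC O w u (monomial γ a) := fun β => by
  classical
  rw [coeff_monomial]
  split_ifs with h
  exacts [⟨o, ho, h ▸ e⟩, ⟨0, zero_mem _, by simp⟩]

theorem wc_C {a o : FF} (ho : o ∈ O) (e : a = o * u) : WC O w u (C a) :=
  wc_mono (γ := 0) ho (by simpa using e)

theorem wc_X {l : τ} {o : FF} (ho : o ∈ O) (e : w l = o * u) : WC O w u (X l) :=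
  wc_mono (γ := Finsupp.single l 1) ho (by simpa using e)

theorem wc_CX {l : τ} {a o : FF} (ho : o ∈ O) (e : a * w l = o * u) : WC O w u (C a * X l) := by
  rw [C_mul_X_eq_monomial]
  exact wc_mono ho (by simpa using e)

theorem sb_scw {h : ∀ k ∈ K, k ∈ O} {w0 : σ → FF} {f : σ → MvPolynomial τ FF}
    (hf : ∀ l, WC O w (w0 l) (f l)) {x : PS lv σ FF} (hx : x ∈ (scw O h w0).EE lv) :
    sb f x ∈ (scw O h w).EE lv := by
  have k : ∀ γ : σ →₀ ℕ,
      WC O w (γ.prod fun l k => w0 l ^ k) (aeval f (monomial γ (1 : FF))) := fun γ => by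
    induction γ using mono_ind with
    | h0 => simpa using wc_C (w := w) O.one_mem (one_mul (1 : FF)).symm
    | h1 γ l ih =>
      rw [monomial_add_single, pow_one, map_mul, aeval_X,
        Finsupp.prod_add_index' (by simp) (fun l a b => pow_add _ _ _),
        Finsupp.prod_single_index (by simp), pow_one]
      exact ih.mul (hf l)
  refine sb_mem_EE f (fun γ β t ht => ?_) hx
  obtain ⟨o, ho, e⟩ := k γ β
  change _ * Finsupp.prod _ _ ∈ O
  rw [mul_right_comm, e, mul_assoc, mul_comm _ t]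
  exact mul_mem ho ht

theorem cst_scw {h : ∀ k ∈ K, k ∈ O} {w0 : σ → FF} {a : UT lv FF} :
    cst σ a ∈ (scw O h w0).EE lv ↔ Ent (O : Set FF) a.val := by
  have e : (cst σ a).val - 1 = (a.val - 1).map (C : FF → MvPolynomial σ FF) := by
    ext i j : 2
    simp only [cst, UT.map_val, Matrix.sub_apply, Matrix.map_apply, map_sub, Matrix.one_apply]
    split_ifs <;> simp
  rw [mem_EE_val, e]
  refine ⟨fun H i j => ?_, fun H β i j => ?_⟩
  · have : _ * Finsupp.prod _ _ ∈ O := H 0 i j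
    rw [co_C, if_pos rfl, Finsupp.prod_zero_index, mul_one] at this
    simpa using O.add_mem this (ent_one O i j)
  · rw [co_C]
    split_ifs with h0
    · change _ * Finsupp.prod _ _ ∈ O
      rw [h0, Finsupp.prod_zero_index, mul_one]
      exact O.sub_mem (H i j) (ent_one O i j)
    · exact zero_mem _

end field

end WB

open WB

variable {ι ι' : Type} [Fintype ι] [DecidableEq ι] [Fintype ι'] [DecidableEq ι'] {lv : ι → ℕ}
  {lv' : ι' → ℕ} {Q : HR} [Fact (2 ≤ Q)] {A0 R c d d' : HR} {x e γ : PS lv Unit HR}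

/-- shorter windows inside -/
theorem EA_mono {A1 R1 : HR} (hR : R ≠ 0) (h1 : (A1 - A0) / R ∈ OO Q) (h2 : R1 / R ∈ OO Q) :
    EA Q A0 R lv ≤ EA Q A1 R1 lv := fun x hx => by
  have e : (fun _ : Unit => A1) = (fun _ => A1 - A0) + fun _ => A0 := by ext; simp
  rw [mem_EA, e, ← sh_sh]
  exact sb_scw (fun _ => (wc_X h2 (div_mul_cancel₀ _ hR).symm).add
    (wc_C h1 (div_mul_cancel₀ _ hR).symm)) (mem_EA.1 hx)

theorem EA_congr {A1 R1 : HR} (hR : R ≠ 0) (h1 : (A1 - A0) / R ∈ OO Q)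
    (h2 : Big Q (R1 / R) ∧ R1 / R ∈ OO Q) : EA Q A1 R1 lv = EA Q A0 R lv := by
  obtain ⟨h3, h4⟩ := big_iff.1 h2.1
  have h5 : R1 ≠ 0 := (div_ne_zero_iff.1 h3).1
  refine le_antisymm (EA_mono h5 ?_ (by rwa [inv_div] at h4)) (EA_mono hR h1 h2.2)
  convert neg_mem (mul_mem h1 h4) using 1
  field_simp
  ring

theorem WB.sh_LL {z : HR} (hz : z ∈ RT Q) (h : γ ∈ LL Q c lv) :
    sh (fun _ => c * z) γ ∈ LL Q c lv :=
  sb_scw (fun _ => (wc_X (one_mem _) (one_mul _).symm).add (wc_C hz (mul_comm _ _))) h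

theorem sh_mem_LL {z : HR} (hz : z ∈ ZZ) : sh (fun _ => c * z) γ ∈ LL Q c lv ↔ γ ∈ LL Q c lv := by
  refine ⟨fun h => ?_, sh_LL (ZZ_le_RT hz)⟩
  have := sh_LL (neg_mem (ZZ_le_RT hz)) h
  simp only [mul_neg] at this
  exact neg_sh (fun _ => c * z) γ ▸ this

theorem WB.LL_le {c' : HR} (hd : d ∈ RT Q) (e : c' = d * c) : LL Q c lv ≤ LL Q c' lv :=
  fun x hx => sb_X x ▸ sb_scw (fun _ => wc_X hd e) hx

theorem LL_mono (hd : d ∈ ZZ) : LL Q c lv ≤ LL Q (c * d) lv := LL_le (ZZ_le_RT hd) (mul_comm _ _)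

theorem LL_congr (hk : d ∈ KK Q) (h0 : d ≠ 0) : LL Q (c * d) lv = LL Q c lv :=
  le_antisymm (LL_le (inv_mem hk).2 (by field_simp)) (LL_le hk.2 (mul_comm _ _))

theorem LL_inf (hd : d ∈ ZZ) (hd' : d' ∈ ZZ) (h : Cop d d') :
    LL Q (c * d) lv ⊓ LL Q (c * d') lv ≤ LL Q c lv := fun x hx => Sc.mem_EE.2 fun β i j => by
  have k : ∀ d : HR, x ∈ LL Q (c * d) lv →
      co β (lg x) i j * β.prod (fun _ k => c ^ k) * d ^ β.degree ∈ RT Q := fun d h => by
    have : _ * Finsupp.prod _ _ ∈ RT Q := Sc.mem_EE.1 (mem_LL.1 h) β i j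
    simp only [mul_pow, Finsupp.prod_mul] at this
    rwa [← mul_assoc, show (β.prod fun _ k => d ^ k) = d ^ β.degree from CellP.mn_const d β] at this
  exact RT_of_cop (h.pow hd hd' _ _) (k d hx.1) (k d' hx.2)

theorem cst_mem_EA {a : UT lv HR} : cst Unit a ∈ EA Q A0 R lv ↔ Ent (OO Q : Set HR) a.val := by
  rw [mem_EA, sh_cst]; exact cst_scw

theorem cst_mem_LL {a : UT lv HR} : cst Unit a ∈ LL Q c lv ↔ Ent (RT Q : Set HR) a.val := cst_scw

theorem dg_mem_EA {x' : PS lv' Unit HR} :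
    UT.dg (x, x') ∈ EA Q A0 R (Sum.elim lv lv') ↔ x ∈ EA Q A0 R lv ∧ x' ∈ EA Q A0 R lv' := by
  rw [mem_EA, sh_dg]; exact dg_mem_EE

theorem dg_mem_LL {x' : PS lv' Unit HR} :
    UT.dg (x, x') ∈ LL Q c (Sum.elim lv lv') ↔ x ∈ LL Q c lv ∧ x' ∈ LL Q c lv' := dg_mem_EE

theorem WB.ev_eq (A0 t : HR) (e : PS lv Unit HR) :
    ev (fun _ => t) e = ev (fun _ => t - A0) (sh (fun _ => A0) e) := by
  rw [ev_sh]; congr 2; ext; simp

/-- values: bounded on the window, rational on the lattice -/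
theorem ev_EA (hR : R ≠ 0) (he : e ∈ EA Q A0 R lv) {t : HR} (ht : (t - A0) / R ∈ OO Q) :
    Ent (OO Q : Set HR) (ev (fun _ => t) e).val := by
  rw [ev_eq A0]; exact ev_OO (mem_EA.1 he) fun _ => ⟨hR, ht⟩

theorem ev_EA_tiny (hR : R ≠ 0) (he : e ∈ EA Q A0 R lv) {t t' : HR} (ht : (t - A0) / R ∈ OO Q)
    (h' : Tiny Q ((t - t') / R)) :
    Ent {s | Tiny Q s} ((ev (fun _ => t) e * (ev (fun _ => t') e)⁻¹).val - 1) := by
  rw [ev_eq A0 t, ev_eq A0 t']
  exact ev_tiny (mem_EA.1 he) fun _ => ⟨hR, ht, by rwa [sub_sub_sub_cancel_right]⟩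

/-- the passage to the lattice variable: `t ↦ c (z + t)` -/
theorem sb_EA (hR : R ≠ 0) (hc : c ≠ 0) (he : e ∈ EA Q A0 R lv) {z : HR}
    (hz : (c * z - A0) / R ∈ OO Q) :
    sb (fun _ => C (c * z) + C c * X ()) e ∈ (Sm Q fun _ : Unit => R / c).EE lv := by
  have k : sb (fun _ => C (c * z) + C c * X ()) e
      = sb (fun _ => C (c * z - A0) + C c * X ()) (sh (fun _ => A0) e) := by
    rw [sh, sb_sb]
    congr 2
    ext1 l
    simp only [map_add, aeval_X, aeval_C, algebraMap_eq, map_sub]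
    ring
  rw [k]
  exact sb_scw (fun _ => (wc_C hz (div_mul_cancel₀ _ hR).symm).add
    (wc_CX (one_mem _) (by rw [mul_div_cancel₀ _ hc, one_mul]))) (mem_EA.1 he)

theorem sb_LL (he : γ ∈ LL Q c lv) {z : HR} (hz : z ∈ ZZ) :
    sb (fun _ => C (c * z) + C c * X ()) γ ∈ (Rt Q (1 : Unit → HR)).EE lv :=
  sb_scw (fun _ => (wc_C (ZZ_le_RT hz) (mul_comm c z)).add
    (wc_CX (w := (1 : Unit → HR)) (one_mem _) (mul_comm c 1))) (mem_LL.1 he)

theorem Lat.exists_centre (h : Lat Q R c) (A0 : HR) :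
    ∃ z ∈ ZZ, Tiny Q ((c * z - A0) / R) := by
  obtain ⟨z, hz, h1⟩ := ZZ_round (A0 / c)
  refine ⟨z, hz, ?_⟩
  have := h.tiny.mul (neg_mem (show A0 / c - z ∈ OO Q from ⟨0, h1.trans (by norm_num)⟩))
  have h0 := h.pos.ne'
  convert this using 1
  field_simp
  ring

theorem Lat.of_mul (h : Lat Q R (c * d)) (hc : c ∈ ZZ ∧ 0 < c) (hd : d ∈ ZZ) : Lat Q R c := by
  have h0 : d ≠ 0 := right_ne_zero_of_mul h.pos.ne'
  refine ⟨hc.1, hc.2, h.len, ?_⟩
  have := h.tiny.mul (show d⁻¹ ∈ OO Q from ⟨0, by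
    rw [abs_inv, pow_zero]; exact inv_le_one_of_one_le₀ (ZZ_one_le hd h0)⟩)
  convert this using 1
  field_simp

theorem Lat.sep (h : Lat Q R c) : Sep (Sm Q fun _ : Unit => R) (Rt Q fun _ : Unit => c) :=
  sep_Sm_Rt fun _ => ⟨h.len.ne', h.pos.ne', h.tiny⟩

end Pool.Agent.P.MP_a14ce1_nt.Nil
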