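import Pool.Agent.P.MP_a14ce1_nt.Nil.WinB
import Pool.Agent.P.MP_a14ce1_nt.Nil.Hom

/-!
Definitions for the extension theorem.
-/

set_option linter.unusedSectionVars false

noncomputable section

namespace Pool.Agent.P.MP_a14ce1_nt.Nil

variable {ι ι' : Type} [Fintype ι] [DecidableEq ι] [Fintype ι'] [DecidableEq ι'] {lv : ι → ℕ}
  {lv' : ι' → ℕ} (Q : HR) [Fact (2 ≤ Q)]

/-- `x` agrees with `y` modulo the ideal `n`, a small and a rational factor. -/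
def XSt (A R c : HR) (r : Fam (KK Q) lv ℕ) (n : Submodule HR (Matrix ι ι HR))
    (y x : PS lv Unit HR) : Prop :=
  ∃ e ∈ (r.fine Unit).PG ⊓ EA Q A R lv, ∃ μ ∈ (r.fine Unit).PG, (∀ β, co β (lg μ) ∈ n) ∧
    ∃ γ ∈ (r.fine Unit).PG ⊓ LL Q c lv, x = e * y * μ * γ

/-- A factorisation on the lattice `c` that is irrational on the finer lattice `c'`. -/
def XStab (A R c c' : HR) (g : Fam (KK Q) lv ℕ) (D : ℕ) (z : PS lv Unit HR) : Prop :=
  ∃ h ≤ g, h.Fil D ∧ ∃ e ∈ (g.fine Unit).PG ⊓ EA Q A R lv, ∃ y ∈ (h.fine Unit).PG,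
    ∃ γ ∈ (g.fine Unit).PG ⊓ LL Q c lv, z = e * y * γ ∧ IW Q R c' h ⊥ y

/-- The test `w` sees a part of the ideal `n`. -/
def XBad (A R c : HR) (g' : Fam (KK Q) lv' ℕ) (r : Fam (KK Q) lv ℕ) (D : ℕ)
    (n : Submodule HR (Matrix ι ι HR)) (w : PS lv' Unit HR) (x : PS lv Unit HR) : Prop :=
  ∃ m ≤ g'.prod r, m.Fil D ∧ FW Q A R c (g'.prod r) m (UT.dg (w, x)) ∧ ¬n ≤ m.kr.r 0

theorem IntS.xdg {A S σ : Type} [NS A S] {x : A → PS lv σ HR} {y : A → PS lv' σ HR} (hx : IntS x)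
    (hy : IntS y) : IntS fun a => UT.dg (x a, y a) := intS_iff.2 fun i j => by
  rcases i with i | i <;> rcases j with j | j
  exacts [hx.val i j, IntY.const 0, IntY.const 0, hy.val i j]

end Pool.Agent.P.MP_a14ce1_nt.Nil
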