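import Pool.Agent.P.MP_a14ce1_nt.Nil.XD
import Pool.Agent.P.MP_a14ce1_nt.Nil.PigW
import Pool.Agent.P.MP_a14ce1_nt.Nil.Rig
import Pool.Agent.P.MP_a14ce1_nt.Nil.Lin1

/-! Goursat lemma and intersection of ideals for the extension theorem. -/

open Filter Finset MvPolynomial

set_option linter.unusedSectionVars false

noncomputable section

namespace Pool.Agent.P.MP_a14ce1_nt.Nil

namespace XG

variable {FF : Type} [Field FF] [CharZero FF] {ι : Type} [Fintype ι] [DecidableEq ι]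
  {K : Subfield FF} {lv : ι → ℕ} {σ : Type} {r : Fam K lv ℕ} {D : ℕ}
  {n n' : Submodule FF (Matrix ι ι FF)}

theorem br_sub (hr : r.Fil D) (hn : r.Idl n) {i j : ℕ} {X X' Y Y' : Matrix ι ι FF}
    (hY : Y ∈ r.r i) (hX' : X' ∈ r.r j) (h : Y - X ∈ n) (h' : Y' - X' ∈ n) :
    Y * Y' - Y' * Y - (X * X' - X' * X) ∈ n := by
  have e : Y * Y' - Y' * Y - (X * X' - X' * X)
      = (Y * (Y' - X') - (Y' - X') * Y) - (X' * (Y - X) - (Y - X) * X') := by noncomm_ring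
  rw [e]
  exact sub_mem (hn.br _ (hr.le (Nat.zero_le _) hY) _ h') (hn.br _ (hr.le (Nat.zero_le _) hX') _ h)

/-- The part of a family in an ideal. -/
def cut (hr : r.Fil D) (hn : r.Idl n) : Fam K lv ℕ where
  r i := r.r i ⊓ n
  up i X hX := r.up i X hX.1
  rat i := (r.rat i).inf hn.rat
  br i j X hX Y hY := ⟨r.br i j X hX.1 Y hY.1, hn.br X (hr.le (Nat.zero_le _) hX.1) Y hY.2⟩

theorem cut_ide (hr : r.Fil D) (hn : r.Idl n) : (r.fine σ).Ide ((cut hr hn).fine σ) :=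
  Fam.Ide.comap (g := r) (n := cut hr hn) ⟨fun _ _ h => h.1, fun i j X hX Y hY =>
    ⟨r.br i j X hX Y hY.1, hn.br X (hr.le (Nat.zero_le _) hX) Y hY.2⟩⟩ _

/-- Triples with the last entry congruent to the first two. -/
def gam (hr : r.Fil D) (hn : r.Idl n) (hn' : r.Idl n') :
    Fam K (Sum.elim (Sum.elim lv lv) lv) ℕ where
  r i := ((r.prod r).prod r).r i ⊓
    (n.comap (pr2 - pr1 ∘ₗ pr1) ⊓ n'.comap (pr2 - pr2 ∘ₗ pr1))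
  up i X hX := ((r.prod r).prod r).up i X hX.1
  rat i := (((r.prod r).prod r).rat i).inf
    ((hn.rat.comap (ratM_pr2.sub (ratM_pr1.comp ratM_pr1))).inf
      (hn'.rat.comap (ratM_pr2.sub (ratM_pr2.comp ratM_pr1))))
  br i j U hU V hV := by
    refine ⟨((r.prod r).prod r).br i j U hU.1 V hV.1, ?_⟩
    obtain ⟨⟨_, ⟨X, -, Y, -, rfl⟩, Z, hZ, rfl⟩, h1, h2⟩ := hU
    obtain ⟨⟨_, ⟨X', hX', Y', hY', rfl⟩, Z', -, rfl⟩, h3, h4⟩ := hV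
    rw [dg_br, dg_br]
    exact ⟨br_sub hr hn hZ hX' h1 h3, br_sub hr hn' hZ hY' h2 h4⟩

theorem gam_fil (hr : r.Fil D) (hn : r.Idl n) (hn' : r.Idl n') : (gam hr hn hn').Fil D :=
  have h := (hr.prod hr).prod hr
  ⟨congrArg (· ⊓ _) h.zero, fun i => inf_le_inf_right _ (h.anti i),
    le_bot_iff.1 (inf_le_left.trans h.bd.le)⟩

theorem mem_gam (hr : r.Fil D) (hn : r.Idl n) (hn' : r.Idl n') {a b x : PS lv σ FF}
    (ha : a ∈ (r.fine σ).PG) (hb : b ∈ (r.fine σ).PG) (hx : x ∈ (r.fine σ).PG)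
    (h1 : a⁻¹ * x ∈ ((cut hr hn).fine σ).PG) (h2 : b⁻¹ * x ∈ ((cut hr hn').fine σ).PG) :
    UT.dg (UT.dg (a, b), x) ∈ ((gam hr hn hn').fine σ).PG := fun β => by
  rw [co_lg_dg, co_lg_dg]
  exact ⟨Fam.dg_mem_prod.2 ⟨Fam.dg_mem_prod.2 ⟨ha β, hb β⟩, hx β⟩,
    (((cut_ide hr hn).inv_mul_iff ha hx).1 h1 β).2, (((cut_ide hr hn').inv_mul_iff hb hx).1 h2 β).2⟩

end XG

open XG

variable {ι ι' : Type} [Fintype ι] [DecidableEq ι] [Fintype ι']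
  [DecidableEq ι'] {lv : ι → ℕ} {lv' : ι' → ℕ} {Q : HR} [Fact (2 ≤ Q)] {A R b : HR} {P : HZ}
  {r : Fam (KK Q) lv ℕ} {g' : Fam (KK Q) lv' ℕ} {D : ℕ} {n n' : Submodule HR (Matrix ι ι HR)}
  {x : (Unit → HZ) → PS lv Unit HR} {π : (Unit → HZ) → Prop}

theorem XG.intS_dg {B S' σ : Type} [NS B S'] {x : B → PS lv σ HR} {y : B → PS lv' σ HR}
    (hx : IntS x) (hy : IntS y) : IntS fun a => UT.dg (x a, y a) :=
  intS_iff.2 fun i j => by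
    rcases i with i | i <;> rcases j with j | j
    exacts [hx.val i j, IntY.const 0, IntY.const 0, hy.val i j]

theorem XG.split {h : Fam (KK Q) lv ℕ} {h' : Fam (KK Q) lv' ℕ} {z}
    (hz : z ∈ ((h'.prod h).fine Unit).PG) :
    ∃ a ∈ (h'.fine Unit).PG, ∃ c ∈ (h.fine Unit).PG, z = UT.dg (a, c) :=
  Fam.mem_prod_PG.1 hz

theorem XG.dg_mem {h : Fam (KK Q) lv ℕ} {h' : Fam (KK Q) lv' ℕ} {a c} :
    UT.dg (a, c) ∈ ((h'.prod h).fine Unit).PG ↔ a ∈ (h'.fine Unit).PG ∧ c ∈ (h.fine Unit).PG :=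
  Fam.dg_mem_prod_PG (g := h'.fine Unit) (g' := h.fine Unit)

theorem xgr (hP : Long Q fun _ : Unit => P) (hR : R ≠ 0) (hb : b ≠ 0)
    (ht : Tiny Q (b * ci P / R)) (hg' : g'.Fil D) (hr : r.Fil D)
    {m : Fam (KK Q) (Sum.elim lv' lv) ℕ} (hm : m.Fil D) (hle : m ≤ g'.prod r)
    (hn : m.kr.r 0 ≤ n) {w : PS lv' Unit HR} (hx : IntS x)
    (hd : Dense Q (box fun _ : Unit => P) fun p => π p ∧ p () ≠ 0 ∧
      FW Q A R (b * ci (p ())) (g'.prod r) m (UT.dg (w, x p))) :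
    ∃ y ∈ (r.fine Unit).PG, Dense Q (box fun _ : Unit => P) fun p =>
      π p ∧ XSt Q A R (b * ci (p ())) r n y (x p) := by
  obtain ⟨_, -, -, -, h0⟩ := hd.exists
  have hw := (XG.dg_mem.1 h0.mem).1
  have sr : ∀ {a c}, UT.dg (a, c) ∈ (m.fine Unit).PG →
      a ∈ (m.fst.fine Unit).PG ∧ c ∈ (r.fine Unit).PG := fun h =>
    ⟨(dg_mem_PG h).1, (XG.dg_mem.1 (Fam.PG_mono (Fam.fine_mono hle) h)).2⟩
  obtain ⟨E, U, Γ, hE, -, hΓ, d1⟩ := Dense.fw (p := fun p => π p ∧ p () ≠ 0) (hg'.prod hr)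
    (c := fun p : Unit → HZ => b * ci (p ())) (by fun_prop) (XG.intS_dg (IntS.const w) hx)
    (hd.mono fun p _ h => ⟨⟨h.1, h.2.1⟩, h.2.2⟩)
  obtain ⟨e0, he0, γ0, hγ0, d2⟩ := rig (par_box (hP ()).1 (hP ()).2) hR hb ht (hg'.prod hr)
    (hm.fst.prod hr) (Fam.prod_mono (Fam.fst_le hle) le_rfl)
    (w := UT.dg (w, 1)) (XG.dg_mem.2 ⟨hw, one_mem _⟩) hE hΓ (d1.mono fun p _ h => ⟨h, h.1.2,
      h.2.1, h.2.2.2.1, by
        obtain ⟨-, h1, h2, h3, h4⟩ := h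
        obtain ⟨e', -, e, he, e1⟩ := XG.split h1.1
        obtain ⟨u', -, u, -, e2⟩ := XG.split h2.1
        obtain ⟨γ', -, γ, hγ, e3⟩ := XG.split h3.1
        rw [e1, e2, e3, UT.dg_mul, UT.dg_mul, UT.dg_inj] at h4
        rw [e1, e3, UT.dg_inv, UT.dg_inv, UT.dg_mul, UT.dg_mul, h4.1,
          show e'⁻¹ * (e' * u' * γ') * γ'⁻¹ = u' by group]
        exact XG.dg_mem.2 ⟨(sr (e2 ▸ h2.2)).1,
          mul_mem (mul_mem (inv_mem he) (one_mem _)) (inv_mem hγ)⟩⟩)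
  obtain ⟨f, -, f', -, rfl⟩ := XG.split he0.1
  obtain ⟨d, -, d', -, rfl⟩ := XG.split hγ0.1
  have hf := (dg_mem_EA.1 he0.2).1
  have hdd := (dg_mem_LL.1 hγ0.2).1
  have d3 : Dense Q (box fun _ : Unit => P) fun p => π p ∧ ∃ c,
      UT.dg (f⁻¹ * w * d⁻¹, c) ∈ (m.fine Unit).PG ∧ ∃ e ∈ (r.fine Unit).PG ⊓ EA Q A R lv,
        ∃ γ ∈ (r.fine Unit).PG ⊓ LL Q (b * ci (p ())) lv, x p = e * c * γ :=
    d2.mono fun p _ ⟨⟨h0, h1, h2, h3, h4⟩, h5, h6⟩ => ⟨h0.1, by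
      obtain ⟨e', -, e, he, e1⟩ := XG.split h1.1
      obtain ⟨u', -, u, -, e2⟩ := XG.split h2.1
      obtain ⟨γ', -, γ, hγ, e3⟩ := XG.split h3.1
      rw [e1, e2, e3, UT.dg_mul, UT.dg_mul, UT.dg_inj] at h4
      rw [e1, UT.dg_inv, UT.dg_mul] at h5
      rw [e3, UT.dg_inv, UT.dg_mul] at h6
      have k1 := dg_mem_EA.1 (e1 ▸ h1.2)
      have k3 := dg_mem_LL.1 (e3 ▸ h3.2)
      obtain ⟨s, hs, k5⟩ := lift_fst_EA hm ⟨(XG.dg_mem.1 h5).1, Subgroup.mul_mem _ (inv_mem hf) k1.1⟩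
      obtain ⟨t, ht, k6⟩ := lift_fst_LL ⟨(XG.dg_mem.1 h6).1,
        Subgroup.mul_mem _ k3.1 (inv_mem (LL_le_p b (p ()) hdd))⟩
      have k7 := mul_mem (mul_mem k5 (e2 ▸ h2.2)) k6
      rw [UT.dg_mul, UT.dg_mul] at k7
      refine ⟨s * u * t, ?_, e * s⁻¹, Subgroup.mul_mem _ ⟨he, k1.2⟩ (Subgroup.inv_mem _ ⟨(sr k5).2, hs⟩),
        t⁻¹ * γ, Subgroup.mul_mem _ (Subgroup.inv_mem _ ⟨(sr k6).2, ht⟩) ⟨hγ, k3.2⟩, ?_⟩
      · rwa [h4.1, show f⁻¹ * (e' * u' * γ') * d⁻¹ = f⁻¹ * e' * u' * (γ' * d⁻¹) by group]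
      · rw [h4.2]; group⟩
  obtain ⟨_, -, -, y, hy, -⟩ := d3.exists
  refine ⟨y, (sr hy).2, d3.mono fun p _ ⟨h0, c, hc, e, he, γ, hγ, h1⟩ =>
    ⟨h0, e, he, y⁻¹ * c, mul_mem (inv_mem (sr hy).2) (sr hc).2, fun β => hn ?_, γ, hγ, by
      rw [h1]; group⟩⟩
  have k := mul_mem (inv_mem hy) hc β
  rw [UT.dg_inv, UT.dg_mul, inv_mul_cancel, co_lg_dg, lg_one] at k
  exact Fam.mem_kr.2 (by simpa using hm.le (Nat.zero_le _) k)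

theorem xint (hP : Long Q fun _ : Unit => P) (hR : R ≠ 0) (hb : b ≠ 0)
    (ht : Tiny Q (b * ci P / R)) (hr : r.Fil D) (hn : r.Idl n) (hn' : r.Idl n')
    {y y' : PS lv Unit HR} (hy : y ∈ (r.fine Unit).PG) (hy' : y' ∈ (r.fine Unit).PG) (hx : IntS x)
    (hd : Dense Q (box fun _ : Unit => P) fun p => π p ∧ p () ≠ 0 ∧
      XSt Q A R (b * ci (p ())) r n y (x p) ∧ XSt Q A R (b * ci (p ())) r n' y' (x p)) :
    ∃ y'' ∈ (r.fine Unit).PG, Dense Q (box fun _ : Unit => P) fun p =>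
      π p ∧ XSt Q A R (b * ci (p ())) r (n ⊓ n') y'' (x p) := by
  refine xgr hP hR hb ht (hr.prod hr) hr (gam_fil hr hn hn') (fun _ _ h => h.1) (fun X hX => ?_)
    (w := UT.dg (y, y')) hx (hd.mono fun p _ ⟨h0, h1, ⟨e, he, μ, hμ, k, γ, hγ, h2⟩,
      e', he', μ', hμ', k', γ', hγ', h3⟩ => ⟨h0, h1, ?_⟩)
  · have h := (Fam.mem_kr.1 hX).2
    rw [← dg_zero] at h
    exact ⟨sub_zero X ▸ h.1, sub_zero X ▸ h.2⟩
  · have a1 := mul_mem (mul_mem he.1 hy) hγ.1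
    have a2 := mul_mem (mul_mem he'.1 hy') hγ'.1
    have a3 : x p ∈ (r.fine Unit).PG := h2 ▸ mul_mem (mul_mem (mul_mem he.1 hy) hμ) hγ.1
    refine ⟨UT.dg (UT.dg (e⁻¹, e'⁻¹), 1), ⟨XG.dg_mem.2 ⟨XG.dg_mem.2 ⟨inv_mem he.1, inv_mem he'.1⟩,
      one_mem _⟩, dg_mem_EA.2 ⟨dg_mem_EA.2 ⟨inv_mem he.2, inv_mem he'.2⟩, one_mem _⟩⟩,
      UT.dg (UT.dg (e * y * γ, e' * y' * γ'), x p), ⟨XG.dg_mem.2 ⟨XG.dg_mem.2 ⟨a1, a2⟩, a3⟩,
        mem_gam hr hn hn' a1 a2 a3 ?_ ?_⟩,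
      UT.dg (UT.dg (γ⁻¹, γ'⁻¹), 1), ⟨XG.dg_mem.2 ⟨XG.dg_mem.2 ⟨inv_mem hγ.1, inv_mem hγ'.1⟩,
        one_mem _⟩, dg_mem_LL.2 ⟨dg_mem_LL.2 ⟨inv_mem hγ.2, inv_mem hγ'.2⟩, one_mem _⟩⟩, ?_⟩
    · rw [h2, show (e * y * γ)⁻¹ * (e * y * μ * γ) = γ⁻¹ * μ * γ by group]
      exact (cut_ide hr hn).conj' hγ.1 fun β => ⟨hμ β, k β⟩
    · rw [h3, show (e' * y' * γ')⁻¹ * (e' * y' * μ' * γ') = γ'⁻¹ * μ' * γ' by group]
      exact (cut_ide hr hn').conj' hγ'.1 fun β => ⟨hμ' β, k' β⟩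
    · simp only [UT.dg_mul, UT.dg_inj]
      exact ⟨⟨by group, by group⟩, by group⟩

/-- The Goursat ideal. -/
theorem xidl {c : HR} (hl : Lat Q R c) (_hg' : g'.Fil D) (hr : r.Fil D)
    {m : Fam (KK Q) (Sum.elim lv' lv) ℕ} (hm : m.Fil D) (hle : m ≤ g'.prod r)
    {w : PS lv' Unit HR} {x : PS lv Unit HR} (hf : FW Q A R c (g'.prod r) m (UT.dg (w, x)))
    (hi : IW Q R c r ⊥ x) : m.snd = r ∧ r.Idl (m.kr.r 0) := by
  have h0 : r.Idl ⊥ := ⟨IsRat.bot, bot_le, fun X _ Y hY => by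
    rw [Submodule.mem_bot] at hY; simp [hY]⟩
  have h1 : ∀ i, r.r i ≤ m.snd.r i := fun i =>
    (hi.le hl hr h0 hm.snd hf.snd i).trans (sup_le inf_le_right (inf_le_right.trans bot_le))
  exact ⟨Fam.ext (funext fun i => le_antisymm (Fam.snd_le hle i) (h1 i)), m.kr.rat 0,
    (m.kr_le_snd 0).trans (Fam.snd_le hle 0), fun X hX Y hY => m.br_kr (h1 0 hX) hY⟩

end Pool.Agent.P.MP_a14ce1_nt.Nil
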