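import Pool.Agent.P.MP_a14ce1_nt.Nil.ExtA
import Pool.Agent.P.MP_a14ce1_nt.Nil.XD

/-!
The minimal ideal of a family of sequences.
-/

open Filter Finset MvPolynomial

set_option linter.unusedSectionVars false

noncomputable section

namespace Pool.Agent.P.MP_a14ce1_nt.Nil

variable {Y S : Type} [NS Y S] {ι ι' : Type} [Fintype ι] [DecidableEq ι] [Fintype ι']
  [DecidableEq ι'] {lv : ι → ℕ} {lv' : ι' → ℕ} {Q : HR} [Fact (2 ≤ Q)] {A R b q : HR} {P : HZ}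
  {g r : Fam (KK Q) lv ℕ} {g' : Fam (KK Q) lv' ℕ} {D : ℕ} {n n' : Submodule HR (Matrix ι ι HR)}
  {x : (Unit → HZ) → PS lv Unit HR} {π : (Unit → HZ) → Prop}

namespace XA

/-- The family cut by an ideal. -/
def cut (hr : r.Fil D) (hn : r.Idl n) : Fam (KK Q) lv ℕ where
  r i := r.r i ⊓ n
  up i X hX := r.up i X hX.1
  rat i := (r.rat i).inf hn.rat
  br i j X hX Y hY := ⟨r.br i j X hX.1 Y hY.1, hn.br X (hr.le i.zero_le hX.1) Y hY.2⟩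

theorem cut_fil (hr : r.Fil D) (hn : r.Idl n) : (cut hr hn).Fil D where
  zero := congrArg (· ⊓ n) hr.zero
  anti i := inf_le_inf_right _ (hr.anti i)
  bd := le_bot_iff.1 (hr.bd ▸ inf_le_left)

theorem cut_ide (hr : r.Fil D) (hn : r.Idl n) : r.Ide (cut hr hn) :=
  ⟨fun _ => inf_le_left, fun i j X hX Y hY =>
    ⟨r.br i j X hX Y hY.1, hn.br X (hr.le i.zero_le hX) Y hY.2⟩⟩

theorem rel_of (hr : r.Fil D) (hn : r.Idl n) {c y x} (h : XSt Q A R c r n y x) :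
    Rel Q A R c r (cut hr hn) y x :=
  let ⟨e, he, μ, hμ, h, k⟩ := h
  ⟨e, he, μ, fun β => ⟨hμ β, h β⟩, k⟩

theorem xst_of {m : Fam (KK Q) lv ℕ} (hm : m.Fil D) (hle : m ≤ r) (h0 : m.r 0 ≤ n) {c y x}
    (h : Rel Q A R c r m y x) : XSt Q A R c r n y x :=
  let ⟨e, he, μ, hμ, k⟩ := h
  ⟨e, he, μ, PG_le hle hμ, fun β => h0 (hm.le (Nat.zero_le _) (hμ β)), k⟩

theorem idl_of {m : Fam (KK Q) lv ℕ} (a : r.Ide m) : r.Idl (m.r 0) :=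
  ⟨m.rat 0, a.le 0, a.br 0 0⟩

theorem sigF_bad {B S' : Type} [NS B S'] (hg' : g'.Fil D) (hr : r.Fil D) (A R : HR) (n)
    {c : B → HR} (hc : IntF c) {w : B → PS lv' Unit HR} (hw : IntS w) {x : B → PS lv Unit HR}
    (hx : IntS x) : SigF (range (D + 1)) fun y (k : Fam (KK Q) (Sum.elim lv' lv) ℕ) =>
      k ≤ g'.prod r ∧ k.Fil D ∧ FW Q A R (c y) (g'.prod r) k (UT.dg (w y, x y)) ∧ ¬n ≤ k.kr.r 0 :=
  (SigF.le _).and ((SigF.fil D).and ((SigF.fw (hg'.prod hr) A R hc (intS_dg hw hx) _).and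
    ((SigF.not_le_comap 0 in2 n ⊥).congr fun _ _ _ => by rw [sup_bot_eq]; rfl)))

theorem xbad_iff {c w x} : XBad Q A R c g' r D n w x ↔
    ∃ k : Fam (KK Q) (Sum.elim lv' lv) ℕ, (∀ b ∉ range (D + 1), k.r b = ⊥) ∧ k ≤ g'.prod r ∧
      k.Fil D ∧ FW Q A R c (g'.prod r) k (UT.dg (w, x)) ∧ ¬n ≤ k.kr.r 0 :=
  exists_congr fun _ => ⟨fun h => ⟨fun _ hb => h.2.1.eq_bot (by simpa using hb), h⟩, fun h => h.2⟩

end XA

open XA

theorem Sig.xbad {B S' : Type} [NS B S'] (hg' : g'.Fil D) (hr : r.Fil D) (A R : HR) (n)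
    {c : B → HR} (hc : IntF c) {w : B → PS lv' Unit HR} (hw : IntS w) {x : B → PS lv Unit HR}
    (hx : IntS x) : Sig fun a => XBad Q A R (c a) g' r D n (w a) (x a) :=
  (sigF_bad hg' hr A R n hc hw hx).ex.congr fun _ => xbad_iff

theorem xstr (hP : Long Q fun _ : Unit => P) (hR : 0 < R) {V : HZ}
    (hPV : Tiny Q (ci P * ci V * ci V / R)) {T : Ns (Finset S)} {v : Y → HZ} (hv : IntF v)
    (hvV : ∀ y, Mem y T → 0 < v y ∧ v y ≤ V)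
    (hcop : ¬Dense Q (fprod T T) fun z : Y × Y => ¬Cop (ci (v z.1)) (ci (v z.2)))
    (hg' : g'.Fil D) (hr : r.Fil D) {w : Y → PS lv' Unit HR} (hw : IntS w) (hx : IntS x)
    (hV : 0 < V)
    (hπ : ∀ p : Unit → HZ, π p → 0 < p () ∧ x p ∈ (r.fine Unit).PG ∧ IW Q R (ci (p ())) r ⊥ (x p))
    (hd : Dense Q (box fun _ : Unit => P) π) :
    ∃ n, r.Idl n ∧ ∃ y ∈ (r.fine Unit).PG,
      (Dense Q (box fun _ : Unit => P) fun p => π p ∧ XSt Q A R (ci (p ())) r n y (x p)) ∧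
      ¬Dense Q (fprod (box fun _ : Unit => P) T) fun z : (Unit → HZ) × Y =>
        (π z.1 ∧ XSt Q A R (ci (z.1 ())) r n y (x z.1)) ∧
          XBad Q A R (ci (v z.2) * ci (z.1 ())) g' r D n (w z.2) (x z.1) := by
  have hP := par_box (hP ()).1 (hP ()).2
  have hi := hP.int
  have hπ' : ∀ p, π p → 0 < p () ∧ IW Q R (ci (p ())) r ⊥ (x p) := fun p h =>
    ⟨(hπ p h).1, (hπ p h).2.2⟩
  obtain ⟨n, ⟨hn, z, hz, d0⟩, hm⟩ := (measure fun k : Submodule HR (Matrix ι ι HR) =>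
    Module.finrank HR k).wf.has_min
    {n | r.Idl n ∧ ∃ z ∈ (r.fine Unit).PG,
      Dense Q (box fun _ : Unit => P) fun p => π p ∧ XSt Q A R (ci (p ())) r n z (x p)}
    ⟨r.r 0, idl_of ⟨le_rfl, r.br⟩, 1, one_mem _, hd.mono fun y _ h => ⟨h, xst_of hr le_rfl le_rfl
      ⟨1, one_mem _, x y, (hπ y h).2.1, 1, one_mem _, by group⟩⟩⟩
  refine ⟨n, hn, z, hz, d0, fun d1 => ?_⟩
  obtain ⟨k, -, d2⟩ := pigeon_sigF (sigF_bad hg' hr A R n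
    (c := fun a : (Unit → HZ) × Y => ci (v a.2) * ci (a.1 ())) (by fun_prop) (hw.comp IntF.id.snd)
    (hx.comp IntF.id.fst)) ((acc_pair hP hR hPV hv hvV hcop hr hx hπ'
      (d1.mono fun a _ h => ⟨h.1.1, h⟩)).mono fun a _ h => ⟨h, xbad_iff.1 h.1.2.2⟩)
  obtain ⟨⟨y0, b0⟩, m0, ⟨⟨h0, -⟩, i0⟩, hle, hk, f0, hi0⟩ := d2.exists
  obtain ⟨m1, m2⟩ := mem_fprod.1 m0
  have l0 := lat_of hP hR hPV m1 (hπ _ h0).1 (hvV _ m2) (hvV _ m2)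
  have a1 : r.Ide k.kr := ide_kr hle (snd_ge (mul_comm (ci (y0 ())) _ ▸ l0.1.of_mul
    ⟨mul_mem (ci_mem _) (ci_mem _), mul_pos (ci_pos.2 (hπ _ h0).1) (ci_pos.2 (hvV _ m2).1)⟩
    (ci_mem _)) hr hk f0 i0)
  obtain ⟨⟨b, b'⟩, mb, d3, hc⟩ := (d2.pair.fub'.diff
    (intP_cop (f := fun z : Y × Y => ci (v z.1)) (f' := fun z : Y × Y => ci (v z.2))
      (by fun_prop) (by fun_prop)).not.sig hcop).exists
  obtain ⟨mb, mb'⟩ := mem_fprod.1 mb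
  have hV : 0 < (1 : HZ) ∧ 1 ≤ V := ⟨one_pos, (HZ_add_one_le.2 hV).trans' (zero_add 1).ge⟩
  have t1 : ∀ c : HZ, 0 < c ∧ c ≤ V → Tiny Q (ci c * ci P / R) := fun c hc => by
    simpa only [map_one, mul_one] using (lat_of hP hR hPV m1 (hπ _ h0).1 hc hV).2
  have n0 : ∀ c, Mem c T → ci (v c) ≠ 0 := fun c hc => (ci_pos.2 (hvV c hc).1).ne'
  obtain ⟨z1, hz1, d4⟩ := gr (A := A) hP hR.ne' (n0 b mb) (t1 _ (hvV b mb)) hg' hr hk hle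
    (y := w b) hx (d3.mono fun y _ h => ⟨h, (hπ y h.1.1.1.1).1.ne', h.1.2.2.2.1⟩)
  obtain ⟨z2, hz2, d5⟩ := gr (A := A) hP hR.ne' (n0 b' mb') (t1 _ (hvV b' mb')) hg' hr hk hle
    (y := w b') hx (d4.mono fun y _ h => ⟨h, (hπ y h.1.1.1.1.1).1.ne', h.1.2.2.2.2.1⟩)
  obtain ⟨z3, hz3, d6⟩ := two hP hR.ne' ⟨ci_mem _, n0 b mb⟩ ⟨ci_mem _, n0 b' mb'⟩ (not_not.1 hc)
    (lat_of hP hR hPV m1 (hπ _ h0).1 (hvV b mb) (hvV b' mb')).2 hr (fil_kr hk) a1 hz1 hz2 hx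
    (d5.mono fun y _ h => ⟨h.1.1.1.1.1.2.1, (hπ y h.1.1.1.1.1.1).1.ne', h.1.2, h.2⟩)
  obtain ⟨z4, hz4, d7⟩ := int hP hR.ne' one_ne_zero (map_one ci ▸ t1 1 hV) hr (cut_fil hr hn)
    (fil_kr hk) (cut_ide hr hn) a1 hz hz3 hx (d6.mono fun y _ h =>
      ⟨h.1.1, (hπ y h.1.1).1.ne', by rw [one_mul]; exact rel_of hr hn h.1.2, h.2⟩)
  have a2 := (cut_ide hr hn).inf a1
  refine hm _ ⟨idl_of a2, z4, hz4, d7.mono fun y _ h => ⟨h.1, xst_of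
    (fil_inf (cut_fil hr hn) (fil_kr hk)) a2.le le_rfl (one_mul (ci (y ())) ▸ h.2)⟩⟩
    (Submodule.finrank_lt_finrank_of_lt (lt_of_le_not_ge (inf_le_left.trans inf_le_right)
      fun c => hi0 (c.trans inf_le_right)))

end Pool.Agent.P.MP_a14ce1_nt.Nil
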